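import Mathlib

set_option autoImplicit false

namespace Pool.Agent.H79.ArrDefs

open MvPolynomial CategoryTheory

variable {K : Type} [Field K] {n d : ℕ}

/-- the linear form with coefficient vector `a` -/
noncomputable def lf (a : Fin n → K) : MvPolynomial (Fin n) K := ∑ k, C (a k) * X k

/-- the kernel of the linear form with coefficient vector `a` -/
def hyper (a : Fin n → K) : Submodule K (Fin n → K) where
  carrier := {p | ∑ k, a k * p k = 0}
  add_mem' := by
    intro p q hp hq
    simp only [Set.mem_ofPred_eq, Pi.add_apply, mul_add, Finset.sum_add_distrib] at *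
    rw [hp, hq, add_zero]
  zero_mem' := by simp
  smul_mem' := by
    intro c p hp
    simp only [Set.mem_ofPred_eq, Pi.smul_apply, smul_eq_mul, mul_left_comm _ c,
      ← Finset.mul_sum] at *
    rw [hp, mul_zero]

/-- `α` lists defining forms of a central arrangement of `d` distinct hyperplanes in `K ^ n` -/
def IsArrangement (α : Fin d → Fin n → K) : Prop :=
  (∀ j, α j ≠ 0) ∧ Function.Injective fun j => hyper (α j)

/-- the intersection lattice: all intersections of subfamilies (the empty one is the whole space),
ordered by reverse inclusion -/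
abbrev InterLattice (α : Fin d → Fin n → K) : Type :=
  {Y : Submodule K (Fin n → K) // ∃ s : Set (Fin d), Y = ⨅ j ∈ s, hyper (α j)}ᵒᵈ

/-- the module of logarithmic derivations -/
def logDer (α : Fin d → Fin n → K) : Submodule (MvPolynomial (Fin n) K)
    (Derivation K (MvPolynomial (Fin n) K) (MvPolynomial (Fin n) K)) where
  carrier := {θ | ∀ j, θ (lf (α j)) ∈ Ideal.span {lf (α j)}}
  add_mem' := fun h1 h2 j => Ideal.add_mem _ (h1 j) (h2 j)
  zero_mem' := fun _ => Ideal.zero_mem _
  smul_mem' := fun c _ h j => Ideal.mul_mem_left _ c (h j)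

/-- the logarithmic derivations killing the defining polynomial -/
def logDer0 (α : Fin d → Fin n → K) : Submodule (MvPolynomial (Fin n) K)
    (Derivation K (MvPolynomial (Fin n) K) (MvPolynomial (Fin n) K)) where
  carrier := {θ | θ ∈ logDer α ∧ θ (∏ j, lf (α j)) = 0}
  add_mem' := fun h1 h2 => ⟨add_mem h1.1 h2.1, by
    rw [Derivation.add_apply, h1.2, h2.2, add_zero]⟩
  zero_mem' := ⟨zero_mem _, rfl⟩
  smul_mem' := fun c _ h => ⟨Submodule.smul_mem _ c h.1, by
    rw [Derivation.smul_apply, h.2, smul_zero]⟩

/-- projective dimension of the module of logarithmic derivations -/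
noncomputable def pdArr (α : Fin d → Fin n → K) : WithBot ℕ∞ :=
  projectiveDimension (ModuleCat.of (MvPolynomial (Fin n) K) (logDer α))

/-- vanishing of the local cohomology `H ^ j _ J (M)`, the direct limit over `t` of the groups
`Ext ^ j (R / J ^ t, M)`: every class dies after pulling back along some `R / J ^ s → R / J ^ t` -/
def LocCohZero {R : Type} [CommRing R] (J : Ideal R) (M : ModuleCat.{0} R) (j : ℕ) : Prop :=
  ∀ (t : ℕ) (e : Abelian.Ext (ModuleCat.of R (R ⧸ J ^ t)) M j), ∃ (s : ℕ) (h : t ≤ s),
    (Abelian.Ext.mk₀ (ModuleCat.ofHom (X := R ⧸ J ^ s) (Y := R ⧸ J ^ t)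
      (Submodule.factor (Ideal.pow_le_pow_right h)))).comp e (zero_add j) = 0

/-- stable freeness of an arrangement in projective `n`-space: for `2 ≤ i ≤ n - 2` the graded
cohomology module `H ^ i _ *` of the sheaf of `logDer0 α`, that is the local cohomology
`H ^ (i + 1)` of `logDer0 α` at the irrelevant ideal, vanishes -/
def StablyFree (α : Fin d → Fin (n + 1) → K) : Prop :=
  ∀ i, 2 ≤ i → i + 2 ≤ n →
    LocCohZero (Ideal.span (Set.range (X : Fin (n + 1) → MvPolynomial (Fin (n + 1)) K)))
      (ModuleCat.of (MvPolynomial (Fin (n + 1)) K) (logDer0 α)) (i + 1)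

end Pool.Agent.H79.ArrDefs
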