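import Mathlib

set_option autoImplicit false

namespace Pool.Agent.H79.PD

open CategoryTheory Abelian RingTheory.Sequence

universe u

variable {R : Type u} [CommRing R]

/-- projective dimension `< n` for an unbundled module -/
abbrev PdLT (R : Type u) [CommRing R] (M : Type u) [AddCommGroup M] [Module R M] (n : ℕ) : Prop :=
  HasProjectiveDimensionLT (ModuleCat.of R M) n

theorem ses {A B C : Type u} [AddCommGroup A] [Module R A] [AddCommGroup B] [Module R B]
    [AddCommGroup C] [Module R C] (f : A →ₗ[R] B) (g : B →ₗ[R] C)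
    (hf : Function.Injective f) (hg : Function.Surjective g) (h : Function.Exact f g) :
    (ModuleCat.shortComplexOfCompEqZero f g h.linearMap_comp_eq_zero).ShortExact :=
  ModuleCat.shortComplex_shortExact _ h hf hg

/-- multiplication by `u` from `R/J` to `R/I` when `J = (I : u)` -/
noncomputable def mulQ (I J : Ideal R) (u : R) (h : ∀ r, r ∈ J ↔ r * u ∈ I) :
    (R ⧸ J) →ₗ[R] (R ⧸ I) :=
  Submodule.liftQ J ((Submodule.mkQ I).comp (LinearMap.toSpanSingleton R R u)) (by
    intro r hr
    simp only [LinearMap.mem_ker, LinearMap.comp_apply, LinearMap.toSpanSingleton_apply,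
      smul_eq_mul, Submodule.mkQ_apply, Submodule.Quotient.mk_eq_zero]
    exact (h r).1 hr)

theorem mulQ_mk (I J : Ideal R) (u : R) (h : ∀ r, r ∈ J ↔ r * u ∈ I) (r : R) :
    mulQ I J u h (Submodule.Quotient.mk r) = Submodule.Quotient.mk (r * u) := rfl

theorem mulQ_injective (I J : Ideal R) (u : R) (h : ∀ r, r ∈ J ↔ r * u ∈ I) :
    Function.Injective (mulQ I J u h) := by
  rw [injective_iff_map_eq_zero]
  intro a ha
  obtain ⟨r, rfl⟩ := Submodule.Quotient.mk_surjective J a
  rw [mulQ_mk, Submodule.Quotient.mk_eq_zero] at ha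
  rw [Submodule.Quotient.mk_eq_zero]
  exact (h r).2 ha

theorem mulQ_exact (I J L : Ideal R) (u : R) (h : ∀ r, r ∈ J ↔ r * u ∈ I)
    (hL : L = I ⊔ Ideal.span {u}) :
    Function.Exact (mulQ I J u h) (Submodule.factor (show I ≤ L from hL ▸ le_sup_left)) := by
  intro a
  obtain ⟨r, rfl⟩ := Submodule.Quotient.mk_surjective I a
  have : Submodule.factor (show I ≤ L from hL ▸ le_sup_left) (Submodule.Quotient.mk r)
      = Submodule.Quotient.mk r := rfl
  rw [this, Submodule.Quotient.mk_eq_zero]
  constructor
  · intro hr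
    rw [hL] at hr
    obtain ⟨x, hx, y, hy, rfl⟩ := Submodule.mem_sup.1 hr
    obtain ⟨c, rfl⟩ := Ideal.mem_span_singleton'.1 hy
    refine ⟨Submodule.Quotient.mk c, ?_⟩
    rw [mulQ_mk, eq_comm, Submodule.Quotient.eq]
    simpa using hx
  · rintro ⟨b, hb⟩
    obtain ⟨c, rfl⟩ := Submodule.Quotient.mk_surjective J b
    rw [mulQ_mk, Submodule.Quotient.eq] at hb
    have h2 : r = -(c * u - r) + c * u := by ring
    rw [h2, hL]
    exact Submodule.add_mem_sup (I.neg_mem hb) (Ideal.mem_span_singleton'.2 ⟨c, rfl⟩)

theorem colonSES (I J L : Ideal R) (u : R) (h : ∀ r, r ∈ J ↔ r * u ∈ I)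
    (hL : L = I ⊔ Ideal.span {u}) :
    (ModuleCat.shortComplexOfCompEqZero (mulQ I J u h)
      (Submodule.factor (show I ≤ L from hL ▸ le_sup_left))
      (mulQ_exact I J L u h hL).linearMap_comp_eq_zero).ShortExact :=
  ses _ _ (mulQ_injective I J u h) (Submodule.factor_surjective _) (mulQ_exact I J L u h hL)

theorem pd_colon (I J L : Ideal R) (u : R) (h : ∀ r, r ∈ J ↔ r * u ∈ I)
    (hL : L = I ⊔ Ideal.span {u}) (n : ℕ) (h1 : PdLT R (R ⧸ J) n) (h2 : PdLT R (R ⧸ L) n) :
    PdLT R (R ⧸ I) n :=
  (colonSES I J L u h hL).hasProjectiveDimensionLT_X₂ n h1 h2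

theorem pd_nzd (I L : Ideal R) (u : R) (h : ∀ r, r ∈ I ↔ r * u ∈ I)
    (hL : L = I ⊔ Ideal.span {u}) (n : ℕ) (h1 : PdLT R (R ⧸ I) n) :
    PdLT R (R ⧸ L) (n + 1) :=
  (colonSES I I L u h hL).hasProjectiveDimensionLT_X₃ n h1
    (hasProjectiveDimensionLT_of_ge _ n (n + 1) (Nat.le_succ n))

theorem pd_mono {M : Type u} [AddCommGroup M] [Module R M] {n m : ℕ} (h : n ≤ m)
    (h1 : PdLT R M n) : PdLT R M m :=
  hasProjectiveDimensionLT_of_ge _ n m h

theorem pd_top (I : Ideal R) (hI : I = ⊤) (n : ℕ) : PdLT R (R ⧸ I) n := by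
  subst hI
  have : Subsingleton (R ⧸ (⊤ : Ideal R)) := Ideal.Quotient.subsingleton_iff.2 rfl
  have h0 : PdLT R (R ⧸ (⊤ : Ideal R)) 0 :=
    (ModuleCat.isZero_of_subsingleton (ModuleCat.of R _)).hasProjectiveDimensionLT_zero
  exact pd_mono (Nat.zero_le n) h0

theorem pd_proj (M : Type u) [AddCommGroup M] [Module R M] [Module.Projective R M] :
    PdLT R M 1 := by
  have : Projective (ModuleCat.of R M) := (IsProjective.iff_projective M).1 inferInstance
  infer_instance

theorem proj_of_pd (M : Type u) [AddCommGroup M] [Module R M] (h : PdLT R M 1) :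
    Module.Projective R M := by
  have : Projective (ModuleCat.of R M) := projective_iff_hasProjectiveDimensionLT_one.2 h
  exact (IsProjective.iff_projective M).2 this

theorem pd_bot (I : Ideal R) (hI : I = ⊥) : PdLT R (R ⧸ I) 1 := by
  subst hI
  have : Module.Projective R (R ⧸ (⊥ : Ideal R)) :=
    Module.Projective.of_equiv (Submodule.quotEquivOfEqBot (⊥ : Ideal R) rfl).symm
  exact pd_proj _

theorem pd_quot_iff (I : Ideal R) (n : ℕ) : PdLT R (R ⧸ I) (n + 2) ↔ PdLT R I (n + 1) := by
  have hS := ses (Submodule.subtype I) (Submodule.mkQ I) (Submodule.injective_subtype I)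
    (Submodule.mkQ_surjective I) (LinearMap.exact_subtype_mkQ I)
  have : Projective (ModuleCat.of R R) := (IsProjective.iff_projective R).1 inferInstance
  exact hS.hasProjectiveDimensionLT_X₃_iff n this

theorem pd_ker_iff {F M : Type u} [AddCommGroup F] [Module R F] [AddCommGroup M] [Module R M]
    [Module.Projective R F] (f : F →ₗ[R] M) (hf : Function.Surjective f) (n : ℕ) :
    PdLT R M (n + 2) ↔ PdLT R (LinearMap.ker f) (n + 1) := by
  have hS := ses (Submodule.subtype (LinearMap.ker f)) f (Submodule.injective_subtype _)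
    hf (LinearMap.exact_subtype_ker_map f)
  have : Projective (ModuleCat.of R F) := (IsProjective.iff_projective F).1 inferInstance
  exact hS.hasProjectiveDimensionLT_X₃_iff n this

/-- vanishing of low Ext groups from a weakly regular sequence killing `N` -/
theorem ext_of_weaklyRegular (N M : ModuleCat.{u} R) (rs : List R)
    (mem : ∀ r ∈ rs, r ∈ Module.annihilator R N) (reg : IsWeaklyRegular M rs) :
    ∀ i < rs.length, Subsingleton (Ext N M i) := by
  generalize len : rs.length = n
  induction n generalizing M rs with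
  | zero => simp
  | succ n ih =>
    rintro i hi
    match rs with
    | [] => simp at len
    | a :: rs' =>
      simp only [isWeaklyRegular_cons_iff] at reg
      simp only [List.mem_cons, forall_eq_or_imp] at mem
      simp only [List.length_cons, Nat.add_left_inj] at len
      have hzero : ∀ e : Ext N M i, a • e = 0 := by
        intro e
        have h1 : a • 𝟙 N = 0 := by
          simp [← ModuleCat.lsmul_eq_smul_id, Module.mem_annihilator_iff_lsmul_eq_zero.mp mem.1]
        have smul_eq : a • e = (Ext.mk₀ (a • 𝟙 N)).comp e (zero_add i) := by simp [Ext.mk₀_smul]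
        simp [smul_eq, h1]
      have hS := reg.1.smulShortComplex_shortExact
      refine ⟨fun e e' => ?_⟩
      suffices H : ∀ e : Ext N M i, e = 0 by rw [H e, H e']
      intro e
      have hcomp : e.comp (Ext.mk₀ (M.smulShortComplex a).f) (add_zero i) = 0 := by
        have := hzero e
        have h2 : e.comp (Ext.mk₀ (a • 𝟙 M)) (add_zero i) = a • e := by simp [Ext.mk₀_smul]
        exact h2.trans this
      match i with
      | 0 =>
        have := hS.mono_f
        apply Ext.postcomp_mk₀_injective_of_mono N (M.smulShortComplex a).f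
        exact hcomp.trans (map_zero _).symm
      | i + 1 =>
        obtain ⟨x, hx0⟩ := Ext.covariant_sequence_exact₁ N hS e hcomp rfl
        have := ih (ModuleCat.of R (QuotSMulTop a M)) rs' mem.2 reg.2 len i (by omega)
        have hx : x = 0 := Subsingleton.elim (α := Ext N (ModuleCat.of R (QuotSMulTop a M)) i) _ _
        rw [← hx0, hx, Ext.zero_comp]
        rfl

theorem weaklyRegular_flat (F : Type u) [AddCommGroup F] [Module R F] [Module.Flat R F]
    (rs : List R) (reg : IsWeaklyRegular R rs) : IsWeaklyRegular F rs :=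
  ((TensorProduct.rid R F).isWeaklyRegular_congr rs).1 (reg.isWeaklyRegular_lTensor (M₂ := F))

/-- dimension shifting: low Ext groups into a module of small projective dimension vanish -/
theorem ext_of_pd (N : ModuleCat.{u} R) (rs : List R)
    (mem : ∀ r ∈ rs, r ∈ Module.annihilator R N) (reg : IsWeaklyRegular R rs) (p : ℕ) :
    ∀ (M : ModuleCat.{u} R), HasProjectiveDimensionLT M (p + 1) →
      ∀ i, i + p < rs.length → Subsingleton (Ext N M i) := by
  have hproj : ∀ F : ModuleCat.{u} R, Projective F → ∀ i < rs.length, Subsingleton (Ext N F i) := by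
    intro F hF
    have : Module.Projective R F := (IsProjective.iff_projective F).2 hF
    exact ext_of_weaklyRegular N F rs mem (weaklyRegular_flat F rs reg)
  induction p with
  | zero =>
    intro M hM i hi
    exact hproj M (projective_iff_hasProjectiveDimensionLT_one.2 hM) i (by omega)
  | succ p ih =>
    intro M hM i hi
    have hS := M.shortExact_projectiveShortComplex
    have hP : Projective M.projectiveShortComplex.X₂ := inferInstance
    have h1 : HasProjectiveDimensionLT M.projectiveShortComplex.X₁ (p + 1) :=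
      (hS.hasProjectiveDimensionLT_X₃_iff p hP).1 hM
    have h2 := ih _ h1 (i + 1) (by omega)
    have h3 := hproj _ hP i (by omega)
    refine ⟨fun e e' => ?_⟩
    suffices H : ∀ e : Ext N M i, e = 0 by rw [H e, H e']
    intro e
    obtain ⟨x, hx⟩ := Ext.covariant_sequence_exact₃ N hS e rfl (Subsingleton.elim _ _)
    rw [← hx, Subsingleton.elim x 0, Ext.zero_comp]

/-- a nonzero element killed by a weakly regular sequence of length `r` forces `pd ≥ r` -/
theorem not_pd_of_killed {M : Type u} [AddCommGroup M] [Module R M] (rs : List R)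
    (reg : IsWeaklyRegular R rs) (z : M) (hz : z ≠ 0) (hk : ∀ r ∈ rs, r • z = 0) :
    ¬ PdLT R M rs.length := by
  intro h
  rcases hl : rs.length with _ | p
  · rw [hl] at h
    have h0 := isZero_of_hasProjectiveDimensionLT_zero (ModuleCat.of R M)
    have : Subsingleton M := ModuleCat.subsingleton_of_isZero h0
    exact hz (Subsingleton.elim _ _)
  · rw [hl] at h
    let N : Submodule R M := Submodule.span R {z}
    have hmem : ∀ r ∈ rs, r ∈ Module.annihilator R (ModuleCat.of R N) := by
      intro r hr
      rw [Module.mem_annihilator]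
      rintro ⟨m, hm⟩
      obtain ⟨c, rfl⟩ := Submodule.mem_span_singleton.1 hm
      apply Subtype.ext
      change r • c • z = 0
      rw [smul_comm, hk r hr, smul_zero]
    have h1 := ext_of_pd (ModuleCat.of R N) rs hmem reg p (ModuleCat.of R M) h 0 (by omega)
    have h2 : Subsingleton (ModuleCat.of R N ⟶ ModuleCat.of R M) :=
      Ext.addEquiv₀.subsingleton_congr.mp h1
    have h3 : ModuleCat.ofHom N.subtype = 0 := Subsingleton.elim _ _
    have h4 : N.subtype = 0 := by
      have := congrArg ModuleCat.Hom.hom h3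
      simpa using this
    have h5 := LinearMap.congr_fun h4 ⟨z, Submodule.mem_span_singleton_self z⟩
    exact hz h5

theorem weaklyRegular_of_colon (rs : List R)
    (h : ∀ (i : ℕ) (hi : i < rs.length) (a : R),
      rs[i] * a ∈ Ideal.ofList (rs.take i) → a ∈ Ideal.ofList (rs.take i)) :
    IsWeaklyRegular R rs := by
  rw [isWeaklyRegular_iff]
  intro i hi
  have : (Ideal.ofList (rs.take i) • (⊤ : Submodule R R)) = Ideal.ofList (rs.take i) := by
    rw [smul_eq_mul, Ideal.mul_top]
  rw [this, isSMulRegular_iff_right_eq_zero_of_smul]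
  intro m hm
  obtain ⟨a, rfl⟩ := Submodule.Quotient.mk_surjective _ m
  rw [← Submodule.Quotient.mk_smul, Submodule.Quotient.mk_eq_zero] at hm
  rw [Submodule.Quotient.mk_eq_zero]
  exact h i hi a hm

end Pool.Agent.H79.PD
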