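import Mathlib
import Pool.Agent.H79.PD

set_option autoImplicit false

namespace Pool.Agent.H79.Mono

open MvPolynomial RingTheory.Sequence Pool.Agent.H79.PD
open scoped Pointwise

universe u

variable {σ : Type} (K : Type) [Field K]

/-- the monomial ideal with exponent set `s` -/
noncomputable abbrev MI (s : Set (σ →₀ ℕ)) : Ideal (MvPolynomial σ K) :=
  Ideal.span ((fun e => monomial e (1 : K)) '' s)

variable {K}

theorem mem_MI {V : Set (σ →₀ ℕ)} (hV : IsUpperSet V) (f : MvPolynomial σ K) :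
    f ∈ MI K V ↔ ∀ e ∈ f.support, e ∈ V := by
  rw [mem_ideal_span_monomial_image]
  constructor
  · intro h e he
    obtain ⟨s, hs, hle⟩ := h e he
    exact hV hle hs
  · intro h e he
    exact ⟨e, h e he, le_rfl⟩

theorem monomial_mem_MI {V : Set (σ →₀ ℕ)} (hV : IsUpperSet V) (a : σ →₀ ℕ) :
    (monomial a (1 : K)) ∈ MI K V ↔ a ∈ V := by
  classical
  rw [mem_MI hV]
  simp [support_monomial]

theorem MI_add (s t : Set (σ →₀ ℕ)) : MI K (s + t) = MI K s * MI K t := by
  unfold MI
  rw [Ideal.span_mul_span']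
  congr 1
  ext f
  simp only [Set.mem_image, Set.mem_add, Set.mem_mul]
  constructor
  · rintro ⟨e, ⟨a, ha, b, hb, rfl⟩, rfl⟩
    exact ⟨_, ⟨a, ha, rfl⟩, _, ⟨b, hb, rfl⟩, by rw [monomial_mul, mul_one]⟩
  · rintro ⟨_, ⟨a, ha, rfl⟩, _, ⟨b, hb, rfl⟩, rfl⟩
    exact ⟨a + b, ⟨a, ha, b, hb, rfl⟩, by rw [monomial_mul, mul_one]⟩

theorem MI_pow (s : Set (σ →₀ ℕ)) (n : ℕ) : MI K s ^ n = MI K (n • s) := by
  induction n with
  | zero =>
    rw [pow_zero, zero_smul, Ideal.one_eq_top, eq_comm, Ideal.eq_top_iff_one]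
    exact Ideal.subset_span ⟨0, rfl, rfl⟩
  | succ n ih => rw [pow_succ, ih, succ_nsmul, MI_add]

theorem MI_colon {V W : Set (σ →₀ ℕ)} (hV : IsUpperSet V) (hW : IsUpperSet W) (a : σ →₀ ℕ)
    (h : ∀ e, e ∈ W ↔ e + a ∈ V) (r : MvPolynomial σ K) :
    r ∈ MI K W ↔ r * monomial a (1 : K) ∈ MI K V := by
  classical
  rw [mem_MI hV, mem_MI hW]
  constructor
  · intro H e he
    rw [mem_support_iff, coeff_mul_monomial'] at he
    split_ifs at he with hle
    · have : e = (e - a) + a := (tsub_add_cancel_of_le hle).symm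
      rw [this, ← h]
      apply H
      rw [mem_support_iff]
      simpa using he
    · exact absurd rfl he
  · intro H e he
    rw [h]
    apply H
    rw [mem_support_iff, coeff_mul_monomial]
    simpa using he

theorem MI_sup {V L : Set (σ →₀ ℕ)} (hL : IsUpperSet L) (a : σ →₀ ℕ)
    (h : ∀ e, e ∈ L ↔ e ∈ V ∨ a ≤ e) :
    MI K L = MI K V ⊔ Ideal.span {monomial a (1 : K)} := by
  have : MI K V ⊔ Ideal.span {monomial a (1 : K)} = MI K (V ∪ {a}) := by
    unfold MI
    rw [Set.image_union, Ideal.span_union, Set.image_singleton]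
  rw [this]
  ext f
  rw [mem_MI hL, mem_ideal_span_monomial_image]
  refine forall₂_congr fun e _ => ?_
  constructor
  · intro he
    rcases (h e).1 he with h1 | h1
    · exact ⟨e, Or.inl h1, le_rfl⟩
    · exact ⟨a, Or.inr rfl, h1⟩
  · rintro ⟨s, hs | hs, hle⟩
    · exact hL hle ((h s).2 (Or.inl hs))
    · rw [Set.mem_singleton_iff] at hs
      subst hs
      exact (h e).2 (Or.inr hle)

variable (K) in
/-- projective dimension of the quotient by a monomial ideal is `< n` -/
abbrev PdU (V : Set (σ →₀ ℕ)) (n : ℕ) : Prop :=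
  PdLT (MvPolynomial σ K) (MvPolynomial σ K ⧸ MI K V) n

theorem pdU_colon {V W L : Set (σ →₀ ℕ)} (hV : IsUpperSet V) (hW : IsUpperSet W)
    (hL : IsUpperSet L) (a : σ →₀ ℕ) (h : ∀ e, e ∈ W ↔ e + a ∈ V)
    (h' : ∀ e, e ∈ L ↔ e ∈ V ∨ a ≤ e) (n : ℕ) (h1 : PdU K W n) (h2 : PdU K L n) : PdU K V n :=
  pd_colon _ _ _ _ (MI_colon hV hW a h) (MI_sup hL a h') n h1 h2

theorem pdU_nzd {V L : Set (σ →₀ ℕ)} (hV : IsUpperSet V)
    (hL : IsUpperSet L) (a : σ →₀ ℕ) (h : ∀ e, e ∈ V ↔ e + a ∈ V)
    (h' : ∀ e, e ∈ L ↔ e ∈ V ∨ a ≤ e) (n : ℕ) (h1 : PdU K V n) : PdU K L (n + 1) :=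
  pd_nzd _ _ _ (MI_colon hV hV a h) (MI_sup hL a h') n h1

theorem pdU_univ {V : Set (σ →₀ ℕ)} (h : (0 : σ →₀ ℕ) ∈ V) (n : ℕ) : PdU K V n := by
  apply pd_top
  rw [Ideal.eq_top_iff_one]
  exact Ideal.subset_span ⟨0, h, rfl⟩

theorem pdU_empty : PdU K (∅ : Set (σ →₀ ℕ)) 1 := by
  apply pd_bot
  simp [MI]

/-- exponents of the prime generated by the variables in `τ` -/
def varSet (τ : Finset σ) : Set (σ →₀ ℕ) := {e | ∃ j ∈ τ, 1 ≤ e j}

theorem varSet_upper (τ : Finset σ) : IsUpperSet (varSet τ) := by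
  rintro a b hab ⟨j, hj, h⟩
  exact ⟨j, hj, h.trans (hab j)⟩

theorem pdU_varSet (τ : Finset σ) : PdU K (varSet τ) (τ.card + 1) := by
  classical
  induction τ using Finset.induction_on with
  | empty =>
    have : varSet (∅ : Finset σ) = ∅ := by simp [varSet]
    rw [this]
    exact pdU_empty
  | insert j τ hj ih =>
    rw [Finset.card_insert_of_notMem hj]
    refine pdU_nzd (varSet_upper τ) (varSet_upper _) (Finsupp.single j 1) ?_ ?_ _ ih
    · intro e
      simp only [varSet, Set.mem_ofPred_eq, Finsupp.add_apply]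
      refine exists_congr fun i => and_congr_right fun hi => ?_
      have : j ≠ i := fun h => hj (h ▸ hi)
      rw [Finsupp.single_eq_of_ne' this, add_zero]
    · intro e
      simp only [varSet, Set.mem_ofPred_eq, Finset.mem_insert, Finsupp.single_le_iff]
      constructor
      · rintro ⟨i, rfl | hi, h⟩
        · exact Or.inr h
        · exact Or.inl ⟨i, hi, h⟩
      · rintro (⟨i, hi, h⟩ | h)
        · exact ⟨i, Or.inr hi, h⟩
        · exact ⟨j, Or.inl rfl, h⟩

theorem pdU_filtration {V : Set (σ →₀ ℕ)} (hV : IsUpperSet V) (o : σ) (D n : ℕ)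
    (hD : Finsupp.single o D ∈ V)
    (h : ∀ s < D, PdU K {e | 1 ≤ e o ∨ e + Finsupp.single o s ∈ V} n) : PdU K V n := by
  have hup : ∀ s, IsUpperSet {e : σ →₀ ℕ | e ∈ V ∨ s ≤ e o} := by
    rintro s a b hab (h1 | h1)
    · exact Or.inl (hV hab h1)
    · exact Or.inr (h1.trans (hab o))
  have key : ∀ s ≤ D, PdU K {e | e ∈ V ∨ s ≤ e o} n := by
    intro s
    induction s with
    | zero => intro _; exact pdU_univ (Or.inr (Nat.zero_le _)) n
    | succ s ih =>
      intro hs
      refine pdU_colon (hup _) ?_ (hup s) (Finsupp.single o s) ?_ ?_ n (h s (by omega))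
        (ih (by omega))
      · rintro a b hab (h1 | h1)
        · exact Or.inl (h1.trans (hab o))
        · exact Or.inr (hV (by gcongr) h1)
      · intro e
        simp only [Set.mem_ofPred_eq, Finsupp.add_apply, Finsupp.single_eq_same]
        constructor
        · rintro (h1 | h1)
          · exact Or.inr (by omega)
          · exact Or.inl h1
        · rintro (h1 | h1)
          · exact Or.inr h1
          · exact Or.inl (by omega)
      · intro e
        simp only [Set.mem_ofPred_eq, Finsupp.single_le_iff]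
        constructor
        · rintro (h1 | h1)
          · exact Or.inl (Or.inl h1)
          · exact Or.inr h1
        · rintro ((h1 | h1) | h1)
          · exact Or.inl h1
          · exact Or.inr (by omega)
          · exact Or.inr h1
  have : {e | e ∈ V ∨ D ≤ e o} = V := by
    ext e
    simp only [Set.mem_ofPred_eq]
    constructor
    · rintro (h1 | h1)
      · exact h1
      · exact hV (Finsupp.single_le_iff.2 h1) hD
    · exact Or.inl
  rw [← this]
  exact key D le_rfl

theorem ofList_map_X (l : List σ) :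
    Ideal.ofList (l.map (X : σ → MvPolynomial σ K)) = Ideal.span (X '' {i | i ∈ l}) := by
  unfold Ideal.ofList
  congr 1
  ext f
  simp

theorem weaklyRegular_X (l : List σ) (hl : l.Nodup) :
    IsWeaklyRegular (MvPolynomial σ K) (l.map (X : σ → MvPolynomial σ K)) := by
  classical
  apply weaklyRegular_of_colon
  intro i hi a
  rw [← List.map_take, ofList_map_X, mem_ideal_span_X_image, mem_ideal_span_X_image]
  intro H m hm
  have hi' : i < l.length := by simpa using hi
  have hnot : l[i] ∉ l.take i := by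
    intro hmem
    obtain ⟨j, hj, hj'⟩ := List.mem_take_iff_getElem.1 hmem
    have hj2 : j < i := lt_of_lt_of_le hj (min_le_left _ _)
    have := (List.Nodup.getElem_inj_iff hl).1 hj'
    omega
  obtain ⟨j, hj, hne⟩ := H (Finsupp.single l[i] 1 + m) (by
    rw [List.getElem_map, mem_support_iff, coeff_X_mul]
    exact mem_support_iff.1 hm)
  refine ⟨j, hj, ?_⟩
  have : l[i] ≠ j := fun h => hnot (h ▸ hj)
  rwa [Finsupp.add_apply, Finsupp.single_eq_of_ne' this, zero_add] at hne

theorem not_pdU {V : Set (σ →₀ ℕ)} (hV : IsUpperSet V) (τ : Finset σ) (m : σ →₀ ℕ)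
    (hm : m ∉ V) (h : ∀ j ∈ τ, m + Finsupp.single j 1 ∈ V) : ¬ PdU K V τ.card := by
  have := not_pd_of_killed (R := MvPolynomial σ K) (M := MvPolynomial σ K ⧸ MI K V)
    (τ.toList.map X) (weaklyRegular_X _ τ.nodup_toList)
    (Submodule.Quotient.mk (monomial m 1)) (by
      rw [Ne, Submodule.Quotient.mk_eq_zero, monomial_mem_MI hV]; exact hm) (by
      intro r hr
      obtain ⟨j, hj, rfl⟩ := List.mem_map.1 hr
      rw [← Submodule.Quotient.mk_smul, Submodule.Quotient.mk_eq_zero, smul_eq_mul, mul_comm,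
        X, monomial_mul, mul_one, monomial_mem_MI hV]
      exact h j (Finset.mem_toList.1 hj))
  simpa using this

/-- the quotient by `(x_o) + u * (P_τ + (v))`, where `v` lies in `P_τ` when `τ` is nonempty -/
theorem pdU_shape (o : σ) (u v : σ →₀ ℕ) (hu : u o = 0) (hv : v o = 0) (τ : Finset σ)
    (hτ : o ∉ τ) (hvτ : ∀ j ∈ τ, 1 ≤ v j) (n : ℕ) (hn : τ.card ≤ n) (h1 : 1 ≤ n)
    (W : Set (σ →₀ ℕ))
    (hW : ∀ e, e ∈ W ↔ 1 ≤ e o ∨ (u ≤ e ∧ (u + v ≤ e ∨ ∃ j ∈ τ, u j + 1 ≤ e j))) :
    PdU K W (n + 2) := by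
  classical
  have hprin : ∀ (w : σ →₀ ℕ), w o = 0 → PdU K {e | 1 ≤ e o ∨ w ≤ e} 3 := by
    intro w hw
    have h0 := pdU_varSet (K := K) ({o} : Finset σ)
    rw [Finset.card_singleton] at h0
    refine pdU_nzd (varSet_upper _) ?_ w ?_ ?_ 2 h0
    · rintro a b hab (h1 | h1)
      · exact Or.inl (h1.trans (hab o))
      · exact Or.inr (h1.trans hab)
    · intro e
      simp [varSet, hw]
    · intro e
      simp [varSet]
  have hWup : IsUpperSet W := by
    intro a b hab ha
    rw [hW] at ha ⊢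
    rcases ha with h1 | ⟨h1, h2 | ⟨j, hj, h2⟩⟩
    · exact Or.inl (h1.trans (hab o))
    · exact Or.inr ⟨h1.trans hab, Or.inl (h2.trans hab)⟩
    · exact Or.inr ⟨h1.trans hab, Or.inr ⟨j, hj, h2.trans (hab j)⟩⟩
  rcases τ.eq_empty_or_nonempty with rfl | ⟨j0, hj0⟩
  · have : W = {e | 1 ≤ e o ∨ u + v ≤ e} := by
      ext e
      rw [hW]
      simp only [Finset.notMem_empty, false_and, exists_false, or_false, Set.mem_ofPred_eq]
      refine or_congr_right ⟨fun h => h.2, fun h => ⟨le_self_add.trans h, h⟩⟩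
    rw [this]
    exact pd_mono (by omega) (hprin (u + v) (by simp [hu, hv]))
  · refine pdU_colon hWup (varSet_upper (insert o τ)) (L := {e | 1 ≤ e o ∨ u ≤ e}) ?_ u ?_ ?_ _
      ?_ (pd_mono (by omega) (hprin u hu))
    · rintro a b hab (h1 | h1)
      · exact Or.inl (h1.trans (hab o))
      · exact Or.inr (h1.trans hab)
    · intro e
      rw [hW]
      simp only [varSet, Finset.mem_insert, Set.mem_ofPred_eq, Finsupp.add_apply, hu, add_zero,
        le_add_self, true_and]
      constructor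
      · rintro ⟨j, rfl | hj, h⟩
        · exact Or.inl h
        · exact Or.inr (Or.inr ⟨j, hj, by omega⟩)
      · rintro (h | h | ⟨j, hj, h⟩)
        · exact ⟨o, Or.inl rfl, h⟩
        · refine ⟨j0, Or.inr hj0, ?_⟩
          have h3 := h j0
          have h4 := hvτ j0 hj0
          simp only [Finsupp.add_apply] at h3
          omega
        · exact ⟨j, Or.inr hj, by omega⟩
    · intro e
      rw [hW]
      simp only [Set.mem_ofPred_eq]
      tauto
    · have := pdU_varSet (K := K) (insert o τ)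
      rw [Finset.card_insert_of_notMem hτ] at this
      exact pd_mono (by omega) this

end Pool.Agent.H79.Mono
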