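import Mathlib
import Pool.Agent.H79.Mono

set_option autoImplicit false

namespace Pool.Agent.H79.SymA

open CategoryTheory Abelian Pool.Agent.H79.PD

section ring
variable {R : Type} [CommRing R]

theorem pd_kerfactor {I L : Ideal R} (h : I ≤ L) (n : ℕ) (h1 : PdLT R (R ⧸ I) n)
    (h2 : PdLT R (R ⧸ L) n) : PdLT R (LinearMap.ker (Submodule.factor h)) n :=
  (ses _ _ (Submodule.injective_subtype _) (Submodule.factor_surjective h)
    (LinearMap.exact_subtype_ker_map _)).hasProjectiveDimensionLT_X₁ n h1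
    (pd_mono (Nat.le_succ n) h2)

theorem mem_kerfactor {I L : Ideal R} (h : I ≤ L) (r : R) :
    Submodule.Quotient.mk r ∈ LinearMap.ker (Submodule.factor h) ↔ r ∈ L :=
  Submodule.Quotient.mk_eq_zero L

theorem pd_sat (I J I' L : Ideal R) (u : R) (h : ∀ r, r ∈ J ↔ r * u ∈ I) (hIL : I ≤ L)
    (hJL : J ≤ L) (h' : ∀ r, r ∈ I' ↔ ∃ l ∈ L, r - l * u ∈ I) (n : ℕ)
    (h1 : PdLT R (R ⧸ J) n) (h2 : PdLT R (R ⧸ I') n) (h3 : PdLT R (R ⧸ L) n) :
    PdLT R (R ⧸ I) n := by
  have hII : I ≤ I' := fun r hr => (h' r).2 ⟨0, L.zero_mem, by simpa using hr⟩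
  have hI'L : I' ≤ L := fun r hr => by
    obtain ⟨l, hl, h4⟩ := (h' r).1 hr
    simpa using L.add_mem (hIL h4) (L.mul_mem_right u hl)
  let f : LinearMap.ker (Submodule.factor hJL) →ₗ[R] LinearMap.ker (Submodule.factor hIL) :=
    (mulQ I J u h).restrict (by
      intro a ha
      obtain ⟨r, rfl⟩ := Submodule.Quotient.mk_surjective J a
      rw [mem_kerfactor] at ha
      rw [mulQ_mk, mem_kerfactor]
      exact L.mul_mem_right u ha)
  let g : LinearMap.ker (Submodule.factor hIL) →ₗ[R] LinearMap.ker (Submodule.factor hI'L) :=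
    (Submodule.factor hII).restrict (by
      intro a ha
      obtain ⟨r, rfl⟩ := Submodule.Quotient.mk_surjective I a
      rw [mem_kerfactor] at ha
      exact (mem_kerfactor hI'L r).2 ha)
  have hf : Function.Injective f := fun a b hab =>
    Subtype.ext (mulQ_injective I J u h (congrArg Subtype.val hab))
  have hg : Function.Surjective g := by
    rintro ⟨a, ha⟩
    obtain ⟨r, rfl⟩ := Submodule.Quotient.mk_surjective I' a
    exact ⟨⟨Submodule.Quotient.mk r, (mem_kerfactor hIL r).2 ((mem_kerfactor hI'L r).1 ha)⟩, rfl⟩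
  have he : Function.Exact f g := by
    rintro ⟨a, ha⟩
    obtain ⟨r, rfl⟩ := Submodule.Quotient.mk_surjective I a
    rw [Subtype.ext_iff]
    change Submodule.Quotient.mk (p := I') r = 0 ↔ _
    rw [Submodule.Quotient.mk_eq_zero, h']
    constructor
    · rintro ⟨l, hl, h4⟩
      refine ⟨⟨Submodule.Quotient.mk l, (mem_kerfactor hJL l).2 hl⟩, Subtype.ext ?_⟩
      change Submodule.Quotient.mk (p := I) (l * u) = Submodule.Quotient.mk r
      rw [eq_comm, Submodule.Quotient.eq]; exact h4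
    · rintro ⟨⟨b, hb⟩, h4⟩
      obtain ⟨l, rfl⟩ := Submodule.Quotient.mk_surjective J b
      have h5 : Submodule.Quotient.mk (p := I) (l * u) = Submodule.Quotient.mk r :=
        congrArg Subtype.val h4
      rw [eq_comm, Submodule.Quotient.eq] at h5
      exact ⟨l, (mem_kerfactor hJL l).1 hb, h5⟩
  have h4 := (ses f g hf hg he).hasProjectiveDimensionLT_X₂ n (pd_kerfactor hJL n h1 h3)
    (pd_kerfactor hI'L n h2 h3)
  exact (ses _ _ (Submodule.injective_subtype _) (Submodule.factor_surjective hIL)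
    (LinearMap.exact_subtype_ker_map _)).hasProjectiveDimensionLT_X₂ n h4 h3

/-- first map of the Mayer-Vietoris sequence -/
noncomputable def mvF (I J A : Ideal R) (hA : A = I ⊓ J) : (R ⧸ A) →ₗ[R] (R ⧸ I) × (R ⧸ J) :=
  (Submodule.factor (hA ▸ inf_le_left)).prod (Submodule.factor (hA ▸ inf_le_right))

/-- second map of the Mayer-Vietoris sequence -/
noncomputable def mvG (I J B : Ideal R) (hB : B = I ⊔ J) : ((R ⧸ I) × (R ⧸ J)) →ₗ[R] (R ⧸ B) :=
  (Submodule.factor (hB ▸ le_sup_left)).coprod (-Submodule.factor (hB ▸ le_sup_right))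

theorem mv_exact (I J A B : Ideal R) (hA : A = I ⊓ J) (hB : B = I ⊔ J) :
    Function.Exact (mvF I J A hA) (mvG I J B hB) := by
  rintro ⟨a, b⟩
  obtain ⟨a, rfl⟩ := Submodule.Quotient.mk_surjective I a
  obtain ⟨b, rfl⟩ := Submodule.Quotient.mk_surjective J b
  change Submodule.Quotient.mk (p := B) a + -Submodule.Quotient.mk (p := B) b = 0 ↔ _
  rw [← sub_eq_add_neg, sub_eq_zero, Submodule.Quotient.eq]
  constructor
  · intro h
    rw [hB] at h
    obtain ⟨x, hx, y, hy, hxy⟩ := Submodule.mem_sup.1 h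
    refine ⟨Submodule.Quotient.mk (a - x), Prod.ext ?_ ?_⟩
    · change Submodule.Quotient.mk (p := I) (a - x) = Submodule.Quotient.mk a
      rw [Submodule.Quotient.eq]; simpa using hx
    · change Submodule.Quotient.mk (p := J) (a - x) = Submodule.Quotient.mk b
      rw [Submodule.Quotient.eq, show a - x - b = y by linear_combination -hxy]; exact hy
  · rintro ⟨c, hc⟩
    obtain ⟨c, rfl⟩ := Submodule.Quotient.mk_surjective A c
    have h1 : Submodule.Quotient.mk (p := I) c = Submodule.Quotient.mk a := congrArg Prod.fst hc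
    have h2 : Submodule.Quotient.mk (p := J) c = Submodule.Quotient.mk b := congrArg Prod.snd hc
    rw [Submodule.Quotient.eq] at h1 h2
    rw [hB, show a - b = -(c - a) + (c - b) by ring]
    exact Submodule.add_mem_sup (I.neg_mem h1) h2

theorem mvSES (I J A B : Ideal R) (hA : A = I ⊓ J) (hB : B = I ⊔ J) :
    (ModuleCat.shortComplexOfCompEqZero (mvF I J A hA) (mvG I J B hB)
      (mv_exact I J A B hA hB).linearMap_comp_eq_zero).ShortExact := by
  refine ses _ _ ?_ ?_ (mv_exact I J A B hA hB)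
  · rw [injective_iff_map_eq_zero]
    intro c hc
    obtain ⟨c, rfl⟩ := Submodule.Quotient.mk_surjective A c
    have h1 : Submodule.Quotient.mk (p := I) c = 0 := congrArg Prod.fst hc
    have h2 : Submodule.Quotient.mk (p := J) c = 0 := congrArg Prod.snd hc
    rw [Submodule.Quotient.mk_eq_zero] at h1 h2 ⊢
    rw [hA]; exact ⟨h1, h2⟩
  · intro c
    obtain ⟨c, rfl⟩ := Submodule.Quotient.mk_surjective B c
    exact ⟨(Submodule.Quotient.mk c, 0), by simp [mvG]⟩

theorem prodSES (M N : Type) [AddCommGroup M] [Module R M] [AddCommGroup N] [Module R N] :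
    (ModuleCat.shortComplexOfCompEqZero (LinearMap.inl R M N) (LinearMap.snd R M N)
      (Function.Exact.inl_snd).linearMap_comp_eq_zero).ShortExact :=
  ses _ _ LinearMap.inl_injective LinearMap.snd_surjective Function.Exact.inl_snd

theorem pd_inf (I J A B : Ideal R) (hA : A = I ⊓ J) (hB : B = I ⊔ J) (n : ℕ)
    (h1 : PdLT R (R ⧸ I) n) (h2 : PdLT R (R ⧸ J) n) (h3 : PdLT R (R ⧸ B) (n + 1)) :
    PdLT R (R ⧸ A) n :=
  (mvSES I J A B hA hB).hasProjectiveDimensionLT_X₁ n
    ((prodSES _ _).hasProjectiveDimensionLT_X₂ n h1 h2) h3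

theorem pd_sup (I J A B : Ideal R) (hA : A = I ⊓ J) (hB : B = I ⊔ J) (n : ℕ)
    (h1 : PdLT R (R ⧸ I) (n + 1)) (h2 : PdLT R (R ⧸ J) (n + 1)) (h3 : PdLT R (R ⧸ A) n) :
    PdLT R (R ⧸ B) (n + 1) :=
  (mvSES I J A B hA hB).hasProjectiveDimensionLT_X₃ n h3
    ((prodSES _ _).hasProjectiveDimensionLT_X₂ (n + 1) h1 h2)

theorem ext_sup (N : ModuleCat.{0} R) (I J A B : Ideal R) (hA : A = I ⊓ J) (hB : B = I ⊔ J) (i : ℕ)
    (h1 : Subsingleton (Ext N (ModuleCat.of R (R ⧸ I)) i))
    (h2 : Subsingleton (Ext N (ModuleCat.of R (R ⧸ J)) i))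
    (h3 : Subsingleton (Ext N (ModuleCat.of R (R ⧸ A)) (i + 1))) :
    Subsingleton (Ext N (ModuleCat.of R (R ⧸ B)) i) := by
  have h4 : ∀ e : Ext N (ModuleCat.of R ((R ⧸ I) × (R ⧸ J))) i, e = 0 := by
    intro e
    obtain ⟨x, hx⟩ := Ext.covariant_sequence_exact₂ N (prodSES (R := R) (R ⧸ I) (R ⧸ J)) e
      (Subsingleton.elim (α := Ext N (ModuleCat.of R (R ⧸ J)) i) _ _)
    have : x = 0 := Subsingleton.elim (α := Ext N (ModuleCat.of R (R ⧸ I)) i) _ _
    rw [← hx, this, Ext.zero_comp]
  refine ⟨fun e e' => ?_⟩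
  suffices H : ∀ e : Ext N (ModuleCat.of R (R ⧸ B)) i, e = 0 by rw [H e, H e']
  intro e
  obtain ⟨x, hx⟩ := Ext.covariant_sequence_exact₃ N (mvSES I J A B hA hB) e rfl
    (Subsingleton.elim (α := Ext N (ModuleCat.of R (R ⧸ A)) (i + 1)) _ _)
  rw [← hx, h4 x, Ext.zero_comp]

theorem proj_trans (A : Type) [CommRing A] [Algebra R A] [Module.Projective R A]
    (M : Type) [AddCommGroup M] [Module A M] [Module R M] [IsScalarTower R A M]
    [h : Module.Projective A M] : Module.Projective R M := by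
  classical
  obtain ⟨s, hs⟩ := Module.projective_def'.1 h
  have : Module.Projective R (M →₀ A) :=
    Module.Projective.of_equiv (finsuppLequivDFinsupp R (ι := M) (M := A)).symm
  exact Module.Projective.of_split (s.restrictScalars R)
    ((Finsupp.linearCombination A id).restrictScalars R)
    (LinearMap.ext fun x => LinearMap.congr_fun hs x)

theorem pd_restrict (A : Type) [CommRing A] [Algebra R A] [Module.Projective R A] (n : ℕ) :
    ∀ (M : Type) [AddCommGroup M] [Module A M] [Module R M] [IsScalarTower R A M],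
      PdLT A M (n + 1) → PdLT R M (n + 1) := by
  induction n with
  | zero =>
    intro M _ _ _ _ h
    have := proj_of_pd M h
    have : Module.Projective R M := proj_trans A M
    exact pd_proj M
  | succ n ih =>
    intro M _ _ _ _ h
    let f : (M →₀ A) →ₗ[A] M := Finsupp.linearCombination A id
    have hf : Function.Surjective f := Finsupp.linearCombination_id_surjective A M
    have h1 := ih _ ((pd_ker_iff f hf n).1 h)
    have : Module.Projective R (M →₀ A) := proj_trans A _
    exact (ses ((LinearMap.ker f).subtype.restrictScalars R) (f.restrictScalars R)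
      (Submodule.injective_subtype _) hf
      (LinearMap.exact_subtype_ker_map f)).hasProjectiveDimensionLT_X₃ (n + 1) h1
      (pd_mono (by omega) (pd_proj _))

theorem pd_retract {M N : Type} [AddCommGroup M] [Module R M] [AddCommGroup N] [Module R N]
    (i : M →ₗ[R] N) (p : N →ₗ[R] M) (h : p ∘ₗ i = LinearMap.id) (n : ℕ) (h1 : PdLT R N n) :
    PdLT R M n :=
  Retract.hasProjectiveDimensionLT (X := ModuleCat.of R M) (Y := ModuleCat.of R N)
    ⟨ModuleCat.ofHom i, ModuleCat.ofHom p, by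
      rw [← ModuleCat.ofHom_comp, h]; rfl⟩ n

end ring

end Pool.Agent.H79.SymA
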