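import Mathlib
import Pool.Agent.H79.PD
import Pool.Agent.H79.SymA

set_option autoImplicit false
set_option linter.unusedSectionVars false

namespace Pool.Agent.H79.HSyz

open CategoryTheory Pool.Agent.H79.PD Pool.Agent.H79.SymA TensorProduct

variable {R : Type} [CommRing R]

theorem pd_equiv {M N : Type} [AddCommGroup M] [Module R M] [AddCommGroup N] [Module R N]
    (e : M ≃ₗ[R] N) (n : ℕ) (h : PdLT R N n) : PdLT R M n :=
  pd_retract e.toLinearMap e.symm.toLinearMap (by ext; simp) n h

theorem bc_exact (A : Type) [CommRing A] [Algebra R A] {F M : Type} [AddCommGroup F] [Module R F]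
    [AddCommGroup M] [Module R M] (f : F →ₗ[R] M) (hf : Function.Surjective f) :
    Function.Exact ((LinearMap.ker f).subtype.baseChange A) (f.baseChange A) := by
  rw [LinearMap.baseChange_eq_ltensor, LinearMap.baseChange_eq_ltensor]
  exact lTensor_exact A (LinearMap.exact_subtype_ker_map f) hf

/-- flat base change does not raise projective dimension -/
theorem pd_baseChange (A : Type) [CommRing A] [Algebra R A] [Module.Flat R A] (n : ℕ) :
    ∀ (M : Type) [AddCommGroup M] [Module R M], PdLT R M (n + 1) → PdLT A (A ⊗[R] M) (n + 1) := by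
  induction n with
  | zero =>
    intro M _ _ h
    have := proj_of_pd M h
    exact pd_proj _
  | succ n ih =>
    intro M _ _ h
    let f : (M →₀ R) →ₗ[R] M := Finsupp.linearCombination R id
    have hf : Function.Surjective f := Finsupp.linearCombination_id_surjective R M
    have h1 := ih _ ((pd_ker_iff f hf n).1 h)
    refine (ses ((LinearMap.ker f).subtype.baseChange A) (f.baseChange A) ?_ ?_
      ?_).hasProjectiveDimensionLT_X₃ (n + 1) h1 (pd_mono (by omega) (pd_proj _))
    · rw [LinearMap.baseChange_eq_ltensor]
      exact Module.Flat.lTensor_preserves_injective_linearMap _ (Submodule.injective_subtype _)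
    · rw [LinearMap.baseChange_eq_ltensor]
      exact LinearMap.lTensor_surjective _ hf
    · exact bc_exact A f hf

/-- base change of a quotient of a finite free module -/
theorem pd_quot_baseChange (A : Type) [CommRing A] [Algebra R A] [Module.Flat R A] {ι : Type}
    [Fintype ι] [DecidableEq ι] (N : Submodule R (ι → R)) (N' : Submodule A (ι → A))
    (h1 : ∀ v ∈ N, (fun i => algebraMap R A (v i)) ∈ N')
    (h2 : N' ≤ Submodule.span A ((fun v i => algebraMap R A (v i)) '' (N : Set (ι → R))))
    (n : ℕ) (h : PdLT R ((ι → R) ⧸ N) (n + 1)) : PdLT A ((ι → A) ⧸ N') (n + 1) := by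
  have h3 := pd_baseChange A n _ h
  let e : A ⊗[R] (ι → R) ≃ₗ[A] (ι → A) := TensorProduct.piScalarRight R A A ι
  let G : (ι → A) →ₗ[A] A ⊗[R] ((ι → R) ⧸ N) := (N.mkQ.baseChange A) ∘ₗ e.symm.toLinearMap
  have he : ∀ (a : A) (v : ι → R), e (a ⊗ₜ v) = a • fun i => algebraMap R A (v i) := by
    intro a v
    funext i
    simp [e, Algebra.smul_def, mul_comm]
  have hG : Function.Surjective G := by
    refine Function.Surjective.comp (g := N.mkQ.baseChange A) ?_ e.symm.surjective
    rw [LinearMap.baseChange_eq_ltensor]
    exact LinearMap.lTensor_surjective _ N.mkQ_surjective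
  have hk : LinearMap.ker G = N' := by
    apply le_antisymm
    · intro v hv
      have hv' : (N.mkQ.lTensor A) (e.symm v) = 0 := hv
      obtain ⟨t, ht⟩ := (lTensor_exact A (LinearMap.exact_subtype_mkQ N) N.mkQ_surjective _).1 hv'
      have : v = e (N.subtype.lTensor A t) := by rw [ht]; simp
      rw [this]
      clear this ht
      induction t using TensorProduct.induction_on with
      | zero => simp
      | tmul a x =>
        rw [LinearMap.lTensor_tmul, he]
        exact N'.smul_mem _ (h1 _ x.2)
      | add x y hx hy => rw [map_add, map_add]; exact N'.add_mem hx hy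
    · refine h2.trans (Submodule.span_le.2 ?_)
      rintro _ ⟨v, hv, rfl⟩
      have : (fun i => algebraMap R A (v i)) = e (1 ⊗ₜ v) := by rw [he, one_smul]
      change G _ = 0
      simp only [this, G, LinearMap.comp_apply, LinearEquiv.coe_coe, LinearEquiv.symm_apply_apply,
        LinearMap.baseChange_tmul, Submodule.mkQ_apply]
      rw [(Submodule.Quotient.mk_eq_zero N).2 hv, tmul_zero]
  exact pd_equiv ((Submodule.quotEquivOfEq _ _ hk.symm).trans (G.quotKerEquivOfSurjective hG)) _ h3

section step

open Polynomial

variable (M : Type) [AddCommGroup M] [Module R[X] M] [Module R M] [IsScalarTower R R[X] M]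

/-- coefficient extraction -/
noncomputable def cf (i : ℕ) : R[X] ⊗[R] M →ₗ[R] M :=
  (TensorProduct.lid R M).toLinearMap ∘ₗ (lcoeff R i).rTensor M

theorem cf_tmul (i : ℕ) (a : R[X]) (m : M) : cf M i (a ⊗ₜ m) = a.coeff i • m := by
  simp [cf]

theorem cf_expand (u : R[X] ⊗[R] M) : ∃ N, ∀ N' ≥ N, cf M N' u = 0 ∧
    u = ∑ i ∈ Finset.range N', ((X : R[X]) ^ i) ⊗ₜ[R] cf M i u := by
  induction u using TensorProduct.induction_on with
  | zero => exact ⟨0, fun _ _ => by simp⟩
  | tmul a m =>
    refine ⟨a.natDegree + 1, fun N' hN => ⟨?_, ?_⟩⟩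
    · rw [cf_tmul, coeff_eq_zero_of_natDegree_lt (by omega), zero_smul]
    · conv_lhs => rw [a.as_sum_range' N' (by omega)]
      rw [sum_tmul]
      refine Finset.sum_congr rfl fun i _ => ?_
      rw [cf_tmul, ← smul_tmul, ← C_mul_X_pow_eq_monomial, smul_eq_C_mul]
  | add x y hx hy =>
    obtain ⟨a, ha⟩ := hx
    obtain ⟨b, hb⟩ := hy
    refine ⟨a + b, fun N' hN => ⟨?_, ?_⟩⟩
    · rw [map_add, (ha N' (by omega)).1, (hb N' (by omega)).1, add_zero]
    · conv_lhs => rw [(ha N' (by omega)).2, (hb N' (by omega)).2]
      rw [← Finset.sum_add_distrib]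
      simp [tmul_add]

/-- multiplication by the variable on `M`, as an `R`-linear map -/
noncomputable def mX : M →ₗ[R] M := (LinearMap.lsmul R[X] M X).restrictScalars R

/-- the first map of the characteristic sequence -/
noncomputable def chF : R[X] ⊗[R] M →ₗ[R[X]] R[X] ⊗[R] M :=
  (X : R[X]) • LinearMap.id - (mX M).baseChange R[X]

theorem chF_tmul (a : R[X]) (m : M) :
    chF M (a ⊗ₜ m) = (X * a) ⊗ₜ m - a ⊗ₜ ((X : R[X]) • m) := by
  simp [chF, mX, smul_tmul']

/-- the second map of the characteristic sequence -/
noncomputable def chG : R[X] ⊗[R] M →ₗ[R[X]] M := LinearMap.liftBaseChange R[X] LinearMap.id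

theorem chG_tmul (a : R[X]) (m : M) : chG M (a ⊗ₜ m) = a • m := by simp [chG]

theorem cf_chF (i : ℕ) (u : R[X] ⊗[R] M) :
    cf M (i + 1) (chF M u) = cf M i u - (X : R[X]) • cf M (i + 1) u := by
  induction u using TensorProduct.induction_on with
  | zero => simp
  | tmul a m =>
    rw [chF_tmul, map_sub, cf_tmul, cf_tmul, cf_tmul, cf_tmul, coeff_X_mul, smul_comm]
  | add x y hx hy => simp only [map_add, hx, hy, smul_add]; abel

theorem chF_inj : Function.Injective (chF (R := R) M) := by
  rw [injective_iff_map_eq_zero]
  intro u hu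
  obtain ⟨N, hN⟩ := cf_expand M u
  have h1 : ∀ i, cf M i u = (X : R[X]) • cf M (i + 1) u := fun i => by
    have := cf_chF M i u
    rw [hu, map_zero] at this
    exact sub_eq_zero.1 this.symm
  have h2 : ∀ k i, i + k = N → cf M i u = 0 := by
    intro k
    induction k with
    | zero => intro i hi; exact (hN i (by omega)).1
    | succ k ih => intro i hi; rw [h1, ih (i + 1) (by omega), smul_zero]
  rw [(hN N le_rfl).2]
  refine Finset.sum_eq_zero fun i hi => ?_
  rw [h2 (N - i) i (by have := Finset.mem_range.1 hi; omega), tmul_zero]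

theorem ch_exact : Function.Exact (chF (R := R) M) (chG M) := by
  have h1 : ∀ (a : R[X]) (m : M),
      a ⊗ₜ[R] m - 1 ⊗ₜ[R] (a • m) ∈ LinearMap.range (chF (R := R) M) := by
    intro a
    induction a using Polynomial.induction_on with
    | C r =>
      intro m
      rw [← algebraMap_eq, algebraMap_smul, Algebra.algebraMap_eq_smul_one, smul_tmul, sub_self]
      exact zero_mem _
    | add p q hp hq =>
      intro m
      have := add_mem (hp m) (hq m)
      rw [add_tmul, add_smul, tmul_add]
      convert this using 1; abel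
    | monomial k r ih =>
      intro m
      have h2 := add_mem (LinearMap.mem_range_self (chF (R := R) M) ((C r * X ^ k) ⊗ₜ m))
        (ih ((X : R[X]) • m))
      rw [chF_tmul, ← mul_smul] at h2
      have e1 : C r * X ^ (k + 1) = X * (C r * X ^ k) := by ring
      have e2 : C r * X ^ k * X = X * (C r * X ^ k) := by ring
      rw [e2] at h2
      rw [e1]
      convert h2 using 1; abel
  have h2 : ∀ u : R[X] ⊗[R] M, u - 1 ⊗ₜ[R] (chG M u) ∈ LinearMap.range (chF (R := R) M) := by
    intro u
    induction u using TensorProduct.induction_on with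
    | zero => simp
    | tmul a m => rw [chG_tmul]; exact h1 a m
    | add x y hx hy =>
      have := add_mem hx hy
      rw [map_add, tmul_add]
      convert this using 1; abel
  intro u
  constructor
  · intro hu
    have := h2 u
    rw [hu, tmul_zero, sub_zero] at this
    exact this
  · rintro ⟨v, rfl⟩
    induction v using TensorProduct.induction_on with
    | zero => simp
    | tmul a m => rw [chF_tmul, map_sub, chG_tmul, chG_tmul, mul_comm, mul_smul, sub_self]
    | add x y hx hy => rw [map_add, map_add, hx, hy, add_zero]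

end step

/-- every module has projective dimension at most `n` -/
def GD (R : Type) [CommRing R] (n : ℕ) : Prop :=
  ∀ (M : Type) [AddCommGroup M] [Module R M], PdLT R M (n + 1)

theorem gd_poly {n : ℕ} (h : GD R n) : GD (Polynomial R) (n + 1) := by
  intro M _ _
  let : Module R M := Module.compHom M (algebraMap R (Polynomial R))
  have : IsScalarTower R (Polynomial R) M := IsScalarTower.of_compHom R (Polynomial R) M
  have h1 := pd_baseChange (Polynomial R) n M (h M)
  refine (ses (chF M) (chG M) (chF_inj M) (fun m => ⟨1 ⊗ₜ m, by rw [chG_tmul, one_smul]⟩)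
    (ch_exact M)).hasProjectiveDimensionLT_X₃ (n + 1) h1 (pd_mono (by omega) h1)

theorem gd_equiv {A : Type} [CommRing A] (e : R ≃+* A) {n : ℕ} (h : GD A n) : GD R n := by
  intro M _ _
  let : Algebra R A := e.toRingHom.toAlgebra
  let : Module A M := Module.compHom M e.symm.toRingHom
  have : IsScalarTower R A M := ⟨fun r a m => by
    change e.symm (e r * a) • m = r • e.symm a • m
    rw [map_mul, e.symm_apply_apply, mul_smul]⟩
  let l : R ≃ₗ[R] A :=
    { e.toAddEquiv with map_smul' := fun r s => by change e (r * s) = e r * e s; rw [map_mul] }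
  have : Module.Projective R A := Module.Projective.of_equiv' l
  exact pd_restrict A n M (h M)

/-- the syzygy theorem -/
theorem hilbert (K : Type) [Field K] (n : ℕ) : GD (MvPolynomial (Fin n) K) n := by
  induction n with
  | zero =>
    refine gd_equiv (MvPolynomial.isEmptyRingEquiv K (Fin 0)) ?_
    intro M _ _
    exact pd_proj M
  | succ n ih => exact gd_equiv (MvPolynomial.finSuccEquiv K n).toRingEquiv (gd_poly ih)

end Pool.Agent.H79.HSyz
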