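import Mathlib
import Pool.Agent.H79.HSyz
import Pool.Agent.H79.ArrDefs

set_option autoImplicit false

namespace Pool.Agent.H79.Arr

open MvPolynomial CategoryTheory Pool.Agent.H79.PD Pool.Agent.H79.HSyz Pool.Agent.H79.ArrDefs

variable {K : Type} [Field K] {n d : ℕ}

/-- polynomial ring -/
abbrev PR (K : Type) [Field K] (n : ℕ) : Type := MvPolynomial (Fin n) K

/-- value of the derivation with coefficient vector `θ` on the linear form `a` -/
noncomputable def dv (a : Fin n → K) : (Fin n → PR K n) →ₗ[PR K n] PR K n :=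
  ∑ k, (C (a k) : PR K n) • LinearMap.proj k

theorem dv_apply (a : Fin n → K) (θ : Fin n → PR K n) : dv a θ = ∑ k, C (a k) * θ k := by
  simp [dv, LinearMap.sum_apply]

/-- derivations as coefficient vectors -/
noncomputable def evD : Derivation K (PR K n) (PR K n) ≃ₗ[PR K n] (Fin n → PR K n) where
  toFun D := fun i => D (X i)
  invFun := mkDerivation K
  map_add' _ _ := rfl
  map_smul' _ _ := rfl
  left_inv _ := derivation_ext <| mkDerivation_X _ _
  right_inv _ := funext <| mkDerivation_X _ _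

theorem der_lf (a : Fin n → K) (D : Derivation K (PR K n) (PR K n)) :
    D (lf a) = dv a (evD D) := by
  rw [dv_apply, lf, map_sum]
  refine Finset.sum_congr rfl fun k _ => ?_
  rw [C_mul', C_mul', Derivation.map_smul]
  rfl

theorem dv_X (a : Fin n → K) : dv a X = lf a := dv_apply _ _

theorem lf_ne_zero {a : Fin n → K} (h : a ≠ 0) : lf a ≠ 0 := by
  intro h0
  apply h
  funext k
  have := congrArg (eval (Pi.single k (1 : K))) h0
  simpa [lf, Pi.single_apply] using this

/-- the image module -/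
noncomputable def Nv (α : Fin d → Fin n → K) : Submodule (PR K n) (Fin d → PR K n) where
  carrier := {v | ∃ θ, ∀ j, v j - dv (α j) θ ∈ Ideal.span {lf (α j)}}
  add_mem' := by
    rintro v w ⟨θ, h⟩ ⟨η, h'⟩
    refine ⟨θ + η, fun j => ?_⟩
    have := Ideal.add_mem _ (h j) (h' j)
    rw [map_add, Pi.add_apply]; convert this using 1; ring
  zero_mem' := ⟨0, fun j => by simp⟩
  smul_mem' := by
    rintro c v ⟨θ, h⟩
    refine ⟨c • θ, fun j => ?_⟩
    have := Ideal.mul_mem_left _ c (h j)
    rw [map_smul, Pi.smul_apply, smul_eq_mul, smul_eq_mul]; convert this using 1; ring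

/-- the cokernel module -/
abbrev MM (α : Fin d → Fin n → K) : Type := (Fin d → PR K n) ⧸ Nv α

/-- the middle free module -/
abbrev FF (K : Type) [Field K] (n d : ℕ) : Type := (Fin n → PR K n) × (Fin d → PR K n)

/-- the presentation map -/
noncomputable def Phi (α : Fin d → Fin n → K) : FF K n d →ₗ[PR K n] Nv α :=
  LinearMap.codRestrict (Nv α) (LinearMap.pi fun j => (dv (α j)) ∘ₗ LinearMap.fst _ _ _ -
    lf (α j) • (LinearMap.proj j ∘ₗ LinearMap.snd _ _ _)) (fun x => ⟨x.1, fun j => by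
      refine Ideal.mem_span_singleton'.2 ⟨- x.2 j, ?_⟩
      simp; ring⟩)

theorem Phi_apply (α : Fin d → Fin n → K) (x : FF K n d) (j : Fin d) :
    (Phi α x).1 j = dv (α j) x.1 - lf (α j) * x.2 j := rfl

theorem Phi_surj (α : Fin d → Fin n → K) : Function.Surjective (Phi α) := by
  rintro ⟨v, θ, h⟩
  choose f hf using fun j => Ideal.mem_span_singleton'.1 (h j)
  refine ⟨(θ, -f), Subtype.ext (funext fun j => ?_)⟩
  rw [Phi_apply]
  have := hf j
  simp only [Pi.neg_apply]
  linear_combination this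

/-- the kernel of the presentation map is the module of logarithmic derivations -/
noncomputable def kerEquiv (α : Fin d → Fin n → K) (h : ∀ j, α j ≠ 0) :
    LinearMap.ker (Phi α) ≃ₗ[PR K n] logDer α :=
  LinearEquiv.ofBijective (LinearMap.codRestrict (logDer α)
    (evD.symm.toLinearMap ∘ₗ LinearMap.fst _ _ _ ∘ₗ (LinearMap.ker (Phi α)).subtype) (by
      rintro ⟨x, hx⟩ j
      have h1 : (Phi α x).1 j = 0 := by rw [LinearMap.mem_ker.1 hx]; rfl
      rw [Phi_apply] at h1
      rw [der_lf]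
      refine Ideal.mem_span_singleton'.2 ⟨x.2 j, ?_⟩
      simp only [LinearMap.comp_apply, LinearEquiv.coe_coe, LinearEquiv.apply_symm_apply,
        LinearMap.fst_apply, Submodule.subtype_apply]
      linear_combination -h1)) (by
    constructor
    · rw [injective_iff_map_eq_zero]
      rintro ⟨x, hx⟩ h0
      have h1 : evD.symm x.1 = 0 := congrArg Subtype.val h0
      have h2 : x.1 = 0 := by simpa using h1
      refine Subtype.ext (Prod.ext h2 (funext fun j => ?_))
      have h3 : (Phi α x).1 j = 0 := by rw [LinearMap.mem_ker.1 hx]; rfl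
      rw [Phi_apply, h2, map_zero, zero_sub, neg_eq_zero] at h3
      exact (mul_eq_zero.1 h3).resolve_left (lf_ne_zero (h j))
    · rintro ⟨D, hD⟩
      choose f hf using fun j => Ideal.mem_span_singleton'.1 (hD j)
      refine ⟨⟨(evD D, f), ?_⟩, Subtype.ext (by simp)⟩
      rw [LinearMap.mem_ker]
      refine Subtype.ext (funext fun j => ?_)
      rw [Phi_apply, ← der_lf, ← hf j]
      simp [mul_comm])

theorem pd_logDer_iff (α : Fin d → Fin n → K) (h : ∀ j, α j ≠ 0) (p : ℕ) :
    PdLT (PR K n) (MM α) (p + 3) ↔ PdLT (PR K n) (logDer α) (p + 1) := by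
  have h1 := pd_ker_iff (Nv α).mkQ (Nv α).mkQ_surjective (p + 1)
  have h2 := pd_ker_iff (Phi α) (Phi_surj α) p
  have e1 : LinearMap.ker (Nv α).mkQ ≃ₗ[PR K n] Nv α :=
    LinearEquiv.ofEq _ _ (Submodule.ker_mkQ _)
  refine h1.trans ⟨fun H => ?_, fun H => ?_⟩
  · exact pd_equiv (kerEquiv α h).symm _ (h2.1 (pd_equiv e1.symm _ H))
  · exact pd_equiv e1 _ (h2.2 (pd_equiv (kerEquiv α h) _ H))

theorem pdArr_eq (α : Fin d → Fin n → K) (h : ∀ j, α j ≠ 0) (p : ℕ)
    (h1 : PdLT (PR K n) (MM α) (p + 4)) (h2 : ¬ PdLT (PR K n) (MM α) (p + 3)) :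
    pdArr α = ((p + 1 : ℕ) : WithBot ℕ∞) := by
  apply le_antisymm
  · exact (projectiveDimension_le_iff _ _).2 ((pd_logDer_iff α h (p + 1)).1 h1)
  · exact (projectiveDimension_ge_iff _ _).2 fun H => h2 ((pd_logDer_iff α h p).2 H)

/-! ### adding a hyperplane -/

/-- annihilator of the new generator -/
noncomputable def addI (a : Fin n → K) (α : Fin d → Fin n → K) : Ideal (PR K n) :=
  (Nv (Fin.cons a α : Fin (d + 1) → Fin n → K)).comap
    (LinearMap.single (PR K n) (fun _ => PR K n) 0)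

theorem mem_Nv_cons (a : Fin n → K) (α : Fin d → Fin n → K) (v : Fin (d + 1) → PR K n) :
    v ∈ Nv (Fin.cons a α : Fin (d + 1) → Fin n → K) ↔ ∃ θ, v 0 - dv a θ ∈ Ideal.span {lf a} ∧
      ∀ j, v j.succ - dv (α j) θ ∈ Ideal.span {lf (α j)} :=
  exists_congr fun _ => Fin.forall_fin_succ

theorem mem_addI (a : Fin n → K) (α : Fin d → Fin n → K) (r : PR K n) :
    r ∈ addI a α ↔ ∃ θ, r - dv a θ ∈ Ideal.span {lf a} ∧
      ∀ j, dv (α j) θ ∈ Ideal.span {lf (α j)} := by
  rw [addI, Submodule.mem_comap, mem_Nv_cons]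
  refine exists_congr fun θ => and_congr (by simp) (forall_congr' fun j => ?_)
  simp [Fin.succ_ne_zero]

theorem pd_add (a : Fin n → K) (α : Fin d → Fin n → K) (p : ℕ)
    (h1 : PdLT (PR K n) (PR K n ⧸ addI a α) p) (h2 : PdLT (PR K n) (MM α) p) :
    PdLT (PR K n) (MM (Fin.cons a α : Fin (d + 1) → Fin n → K)) p := by
  let f := (addI a α).mapQ (Nv (Fin.cons a α : Fin (d + 1) → Fin n → K))
    (LinearMap.single (PR K n) (fun _ => PR K n) 0) le_rfl
  let g := (Nv (Fin.cons a α : Fin (d + 1) → Fin n → K)).mapQ (Nv α)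
    (LinearMap.funLeft (PR K n) (PR K n) Fin.succ) (fun v hv => by
      obtain ⟨θ, -, h⟩ := (mem_Nv_cons a α v).1 hv
      exact ⟨θ, h⟩)
  refine (ses f g ?_ ?_ ?_).hasProjectiveDimensionLT_X₂ p h1 h2
  · rw [injective_iff_map_eq_zero]
    intro x hx
    obtain ⟨r, rfl⟩ := Submodule.Quotient.mk_surjective _ x
    exact (Submodule.Quotient.mk_eq_zero _).2
      ((Submodule.Quotient.mk_eq_zero (Nv (Fin.cons a α : Fin (d + 1) → Fin n → K))).1 hx)
  · intro x
    obtain ⟨v, rfl⟩ := Submodule.Quotient.mk_surjective _ x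
    exact ⟨Submodule.Quotient.mk (Fin.cons 0 v), rfl⟩
  · intro x
    obtain ⟨v, rfl⟩ := Submodule.Quotient.mk_surjective _ x
    constructor
    · intro hx
      obtain ⟨θ, h⟩ := (Submodule.Quotient.mk_eq_zero _).1 hx
      refine ⟨Submodule.Quotient.mk (v 0 - dv a θ), ?_⟩
      refine ((Submodule.Quotient.eq _).2 ((mem_Nv_cons a α _).2 ⟨θ, by simp, fun j => ?_⟩)).symm
      simpa [Fin.succ_ne_zero] using h j
    · rintro ⟨y, hy⟩
      obtain ⟨r, rfl⟩ := Submodule.Quotient.mk_surjective _ y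
      rw [← hy]
      refine (Submodule.Quotient.mk_eq_zero _).2 ?_
      have : LinearMap.funLeft (PR K n) (PR K n) (Fin.succ (n := d))
          (LinearMap.single (PR K n) (fun _ => PR K n) 0 r) = 0 := by
        funext j; simp [LinearMap.funLeft_apply, Fin.succ_ne_zero]
      rw [this]; exact zero_mem _

/-! ### adding a variable -/

/-- the same forms in one more variable -/
def cone (α : Fin d → Fin n → K) : Fin d → Fin (n + 1) → K := fun j => Fin.cons 0 (α j)

/-- product with a coordinate hyperplane -/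
def ext (α : Fin d → Fin n → K) : Fin (d + 1) → Fin (n + 1) → K :=
  Fin.cons (Fin.cons 1 0) (cone α)

theorem lf_cons (c : K) (a : Fin n → K) :
    lf (Fin.cons c a : Fin (n + 1) → K) = C c * X 0 + rename Fin.succ (lf a) := by
  simp [lf, Fin.sum_univ_succ]

theorem dv_cons (c : K) (a : Fin n → K) (θ : Fin (n + 1) → PR K (n + 1)) :
    dv (Fin.cons c a : Fin (n + 1) → K) θ = C c * θ 0 + ∑ k, C (a k) * θ k.succ := by
  simp [dv_apply, Fin.sum_univ_succ]

theorem lf_cone (α : Fin d → Fin n → K) (j : Fin d) :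
    lf (cone α j) = rename Fin.succ (lf (α j)) := by simp [cone, lf_cons]

theorem dv_cone (α : Fin d → Fin n → K) (j : Fin d) (θ : Fin (n + 1) → PR K (n + 1)) :
    dv (cone α j) θ = ∑ k, C (α j k) * θ k.succ := by simp [cone, dv_cons]

theorem lf_e0 : lf (Fin.cons 1 0 : Fin (n + 1) → K) = X 0 := by simp [lf, Fin.sum_univ_succ]

theorem dv_e0 (θ : Fin (n + 1) → PR K (n + 1)) :
    dv (Fin.cons 1 0 : Fin (n + 1) → K) θ = θ 0 := by simp [dv_cons]

theorem mem_Nv_ext (α : Fin d → Fin n → K) (v : Fin (d + 1) → PR K (n + 1)) :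
    v ∈ Nv (ext α) ↔ (fun j => v j.succ) ∈ Nv (cone α) := by
  rw [ext, mem_Nv_cons]
  constructor
  · rintro ⟨θ, -, h⟩; exact ⟨θ, h⟩
  · rintro ⟨θ, h⟩
    refine ⟨Fin.cons (v 0) fun k => θ k.succ, by simp [dv_e0], fun j => ?_⟩
    simpa [dv_cone] using h j

theorem rename_mem_Nv (α : Fin d → Fin n → K) (v : Fin d → PR K n) (hv : v ∈ Nv α) :
    (fun j => rename Fin.succ (v j)) ∈ Nv (cone α) := by
  obtain ⟨θ, h⟩ := hv
  refine ⟨Fin.cons 0 fun k => rename Fin.succ (θ k), fun j => ?_⟩
  obtain ⟨c, hc⟩ := Ideal.mem_span_singleton'.1 (h j)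
  refine Ideal.mem_span_singleton'.2 ⟨rename Fin.succ c, ?_⟩
  have := congrArg (rename (R := K) (Fin.succ (n := n))) hc
  rw [lf_cone, dv_cone]
  simpa [dv_apply] using this

theorem fse_rename (f : PR K n) : finSuccEquiv K n (rename Fin.succ f) = Polynomial.C f := by
  induction f using MvPolynomial.induction_on with
  | C a => simp [finSuccEquiv_apply]
  | add p q hp hq => simp [hp, hq]
  | mul_X p i hp => simp [hp, finSuccEquiv_X_succ]

theorem pd_cone (α : Fin d → Fin n → K) (p : ℕ) (h : PdLT (PR K n) (MM α) (p + 1)) :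
    PdLT (PR K (n + 1)) (MM (cone α)) (p + 1) := by
  let _ : Algebra (PR K n) (PR K (n + 1)) := (rename (R := K) Fin.succ).toRingHom.toAlgebra
  let l : PR K (n + 1) ≃ₗ[PR K n] Polynomial (PR K n) :=
    { (finSuccEquiv K n).toAddEquiv with
      map_smul' := fun r s => by
        change finSuccEquiv K n (rename Fin.succ r * s) = r • finSuccEquiv K n s
        rw [map_mul, fse_rename, Polynomial.smul_eq_C_mul] }
  have : Module.Flat (PR K n) (PR K (n + 1)) := Module.Flat.of_linearEquiv l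
  refine pd_quot_baseChange (PR K (n + 1)) (Nv α) (Nv (cone α)) (rename_mem_Nv α) ?_ p h
  rintro v ⟨θ, hθ⟩
  choose c hc using fun j => Ideal.mem_span_singleton'.1 (hθ j)
  have : v = ∑ k : Fin n, θ k.succ • (fun j => rename Fin.succ (C (α j k) : PR K n)) +
      ∑ i, c i • fun j => rename Fin.succ ((Pi.single i (lf (α i)) : Fin d → PR K n) j) := by
    funext j
    have h1 := hc j
    rw [dv_cone, lf_cone] at h1
    simp only [Pi.add_apply, Finset.sum_apply, Pi.smul_apply, smul_eq_mul, rename_C]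
    rw [Finset.sum_eq_single j (fun i _ hi => by simp [Pi.single_eq_of_ne' hi]) (by simp)]
    simp only [Pi.single_eq_same, mul_comm (θ _)]
    linear_combination -h1
  rw [this]
  refine add_mem (Submodule.sum_mem _ fun k _ => Submodule.smul_mem _ _ (Submodule.subset_span
    ⟨fun j => C (α j k), ⟨Pi.single k 1, fun j => ?_⟩, rfl⟩))
    (Submodule.sum_mem _ fun i _ => Submodule.smul_mem _ _ (Submodule.subset_span
      ⟨Pi.single i (lf (α i)), ⟨0, fun j => ?_⟩, rfl⟩))
  · simp [dv_apply, Pi.single_apply]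
  · by_cases hij : j = i
    · subst hij; simp
    · simp [Pi.single_eq_of_ne hij]

theorem pd_ext (α : Fin d → Fin n → K) (p : ℕ) (h : PdLT (PR K n) (MM α) (p + 1)) :
    PdLT (PR K (n + 1)) (MM (ext α)) (p + 1) := by
  refine pd_add _ _ _ (pd_top _ ?_ _) (pd_cone α p h)
  rw [Ideal.eq_top_iff_one, mem_addI]
  exact ⟨Pi.single 0 1, by simp [dv_e0], fun j => by simp [dv_cone, Fin.succ_ne_zero]⟩

end Pool.Agent.H79.Arr
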