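import Mathlib
import Pool.Agent.H79.Arr1
import Pool.Agent.H79.Mono

set_option autoImplicit false

namespace Pool.Agent.H79.Arr

open MvPolynomial CategoryTheory Abelian RingTheory.Sequence Pool.Agent.H79.PD
  Pool.Agent.H79.HSyz Pool.Agent.H79.ArrDefs

section loc

variable {R : Type} [CommRing R]

theorem ext_of_wr (N M : ModuleCat.{0} R) (rs : List R)
    (mem : ∀ r ∈ rs, ∃ t, r ^ t ∈ Module.annihilator R N) (reg : IsWeaklyRegular M rs) :
    ∀ i < rs.length, Subsingleton (Ext N M i) := by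
  generalize len : rs.length = n
  induction n generalizing M rs with
  | zero => simp
  | succ n ih =>
    rintro i hi
    match rs with
    | [] => simp at len
    | a :: rs' =>
      simp only [isWeaklyRegular_cons_iff] at reg
      simp only [List.mem_cons, forall_eq_or_imp] at mem
      simp only [List.length_cons, Nat.add_left_inj] at len
      obtain ⟨t, ht⟩ := mem.1
      have hzero : ∀ e : Ext N M i, a ^ t • e = 0 := by
        intro e
        have h1 : a ^ t • 𝟙 N = 0 := by
          simp [← ModuleCat.lsmul_eq_smul_id, Module.mem_annihilator_iff_lsmul_eq_zero.mp ht]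
        have smul_eq : a ^ t • e = (Ext.mk₀ (a ^ t • 𝟙 N)).comp e (zero_add i) := by
          simp [Ext.mk₀_smul]
        simp [smul_eq, h1]
      have hS := reg.1.smulShortComplex_shortExact
      have hinj : ∀ e : Ext N M i, a • e = 0 → e = 0 := by
        intro e he
        have hcomp : e.comp (Ext.mk₀ (M.smulShortComplex a).f) (add_zero i) = 0 := by
          have h2 : e.comp (Ext.mk₀ (a • 𝟙 M)) (add_zero i) = a • e := by simp [Ext.mk₀_smul]
          exact h2.trans he
        match i with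
        | 0 =>
          have := hS.mono_f
          apply Ext.postcomp_mk₀_injective_of_mono N (M.smulShortComplex a).f
          exact hcomp.trans (map_zero _).symm
        | i + 1 =>
          obtain ⟨x, hx0⟩ := Ext.covariant_sequence_exact₁ N hS e hcomp rfl
          have := ih (ModuleCat.of R (QuotSMulTop a M)) rs' mem.2 reg.2 len i (by omega)
          have hx : x = 0 :=
            Subsingleton.elim (α := Ext N (ModuleCat.of R (QuotSMulTop a M)) i) _ _
          rw [← hx0, hx, Ext.zero_comp]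
          rfl
      have hpow : ∀ (k : ℕ) (e : Ext N M i), a ^ k • e = 0 → e = 0 := by
        intro k
        induction k with
        | zero => intro e he; simpa using he
        | succ k ihk => intro e he; rw [pow_succ, mul_smul] at he; exact hinj e (ihk _ he)
      exact ⟨fun e e' => by rw [hpow t e (hzero e), hpow t e' (hzero e')]⟩

theorem ext_of_pd' (N : ModuleCat.{0} R) (rs : List R)
    (mem : ∀ r ∈ rs, ∃ t, r ^ t ∈ Module.annihilator R N) (reg : IsWeaklyRegular R rs) (p : ℕ) :
    ∀ (M : ModuleCat.{0} R), HasProjectiveDimensionLT M (p + 1) →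
      ∀ i, i + p < rs.length → Subsingleton (Ext N M i) := by
  have hproj : ∀ F : ModuleCat.{0} R, Projective F →
      ∀ i < rs.length, Subsingleton (Ext N F i) := by
    intro F hF
    have : Module.Projective R F := (IsProjective.iff_projective F).2 hF
    exact ext_of_wr N F rs mem (weaklyRegular_flat F rs reg)
  induction p with
  | zero =>
    intro M hM i hi
    exact hproj M (projective_iff_hasProjectiveDimensionLT_one.2 hM) i (by omega)
  | succ p ih =>
    intro M hM i hi
    have hS := M.shortExact_projectiveShortComplex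
    have hP : Projective M.projectiveShortComplex.X₂ := inferInstance
    have h1 : HasProjectiveDimensionLT M.projectiveShortComplex.X₁ (p + 1) :=
      (hS.hasProjectiveDimensionLT_X₃_iff p hP).1 hM
    have h2 := ih _ h1 (i + 1) (by omega)
    have h3 := hproj _ hP i (by omega)
    refine ⟨fun e e' => ?_⟩
    suffices H : ∀ e : Ext N M i, e = 0 by rw [H e, H e']
    intro e
    obtain ⟨x, hx⟩ := Ext.covariant_sequence_exact₃ N hS e rfl (Subsingleton.elim _ _)
    rw [← hx, Subsingleton.elim x 0, Ext.zero_comp]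

theorem lc_mid (J : Ideal R) {S : ShortComplex (ModuleCat.{0} R)} (hS : S.ShortExact) (j : ℕ)
    (h3 : ∀ t, Subsingleton (Ext (ModuleCat.of R (R ⧸ J ^ t)) S.X₃ j))
    (h1 : LocCohZero J S.X₁ j) : LocCohZero J S.X₂ j := by
  intro t e
  have := h3 t
  obtain ⟨x, rfl⟩ := Ext.covariant_sequence_exact₂ _ hS e (Subsingleton.elim _ _)
  obtain ⟨s, h, hs⟩ := h1 t x
  exact ⟨s, h, by rw [← Ext.comp_assoc_of_third_deg_zero, hs, Ext.zero_comp]⟩

theorem lc_shift (J : Ideal R) {S : ShortComplex (ModuleCat.{0} R)} (hS : S.ShortExact) (j : ℕ)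
    (h2 : ∀ t, Subsingleton (Ext (ModuleCat.of R (R ⧸ J ^ t)) S.X₂ j))
    (h1 : LocCohZero J S.X₁ (j + 1)) : LocCohZero J S.X₃ j := by
  intro t e
  obtain ⟨s, h, hs⟩ := h1 t (e.comp hS.extClass rfl)
  refine ⟨s, h, ?_⟩
  rw [← Ext.comp_assoc (h₁₂ := zero_add j) (h := by omega)] at hs
  obtain ⟨x, hx⟩ := Ext.covariant_sequence_exact₃ _ hS _ rfl hs
  have := h2 s
  rw [← hx, Subsingleton.elim x 0, Ext.zero_comp]

theorem lc_zero (J : Ideal R) (M : Type) [AddCommGroup M] [Module R M]
    (h : LocCohZero J (ModuleCat.of R M) 0) (m : M) (hm : ∀ r ∈ J, r • m = 0) : m = 0 := by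
  let φ : (R ⧸ J ^ 1) →ₗ[R] M := (J ^ 1).liftQ (LinearMap.toSpanSingleton R M m) (by
    intro r hr
    rw [pow_one] at hr
    exact hm r hr)
  obtain ⟨s, hs, h0⟩ := h 1 (Ext.mk₀ (ModuleCat.ofHom φ))
  rw [Ext.mk₀_comp_mk₀, ← Ext.mk₀_zero] at h0
  have h1 := congrArg ModuleCat.Hom.hom ((Ext.mk₀_bijective _ _).1 h0)
  have h2 := LinearMap.congr_fun h1 (Submodule.Quotient.mk 1)
  have h3 : (1 : R) • m = 0 := h2
  rwa [one_smul] at h3

theorem pow_mem_ann (J : Ideal R) (t : ℕ) (r : R) (hr : r ∈ J) :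
    ∃ k, r ^ k ∈ Module.annihilator R (ModuleCat.of R (R ⧸ J ^ t)) := by
  refine ⟨t, ?_⟩
  change r ^ t ∈ Module.annihilator R (R ⧸ J ^ t)
  rw [Ideal.annihilator_quotient]
  exact Ideal.pow_mem_pow hr t

theorem lc_one (J : Ideal R) (M : Type) [AddCommGroup M] [Module R M]
    (h : LocCohZero J (ModuleCat.of R M) 1) (u : R) (hu : u ∈ J) (hreg : IsSMulRegular M u)
    (m : M) (hm : ∀ r ∈ J, ∃ m', r • m = u • m') : ∃ m', m = u • m' := by
  let f : M →ₗ[R] M := LinearMap.lsmul R M u
  have hS := ses f (LinearMap.range f).mkQ hreg (Submodule.mkQ_surjective _)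
    (LinearMap.exact_map_mkQ_range f)
  have h1 := lc_shift J hS 0 (fun t => ext_of_wr _ (ModuleCat.of R M) [u]
    (by simpa using pow_mem_ann J t u hu) (by simpa using hreg) 0 (by simp)) h
  have h2 := lc_zero J (M ⧸ LinearMap.range f) h1 (Submodule.Quotient.mk m) (fun r hr => by
    obtain ⟨m', hm'⟩ := hm r hr
    rw [← Submodule.Quotient.mk_smul, Submodule.Quotient.mk_eq_zero]
    exact ⟨m', hm'.symm⟩)
  obtain ⟨m', hm'⟩ := (Submodule.Quotient.mk_eq_zero _).1 h2
  exact ⟨m', hm'.symm⟩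

theorem lc_equiv (J : Ideal R) {M N : Type} [AddCommGroup M] [Module R M] [AddCommGroup N]
    [Module R N] (e : M ≃ₗ[R] N) (j : ℕ) (h : LocCohZero J (ModuleCat.of R M) j) :
    LocCohZero J (ModuleCat.of R N) j := by
  intro t x
  obtain ⟨s, hs, h0⟩ := h t (x.comp (Ext.mk₀ (ModuleCat.ofHom e.symm.toLinearMap)) (add_zero j))
  refine ⟨s, hs, ?_⟩
  have : x = (x.comp (Ext.mk₀ (ModuleCat.ofHom e.symm.toLinearMap)) (add_zero j)).comp
      (Ext.mk₀ (ModuleCat.ofHom e.toLinearMap)) (add_zero j) := by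
    rw [Ext.comp_assoc_of_third_deg_zero, Ext.mk₀_comp_mk₀, ← ModuleCat.ofHom_comp]
    simp
  rw [this, ← Ext.comp_assoc_of_third_deg_zero, h0, Ext.zero_comp]

end loc

variable {K : Type} [Field K] {n d : ℕ}

/-- the irrelevant ideal -/
noncomputable abbrev mI (K : Type) [Field K] (n : ℕ) : Ideal (PR K n) := Ideal.span (Set.range X)

theorem ext_vanish (M : Type) [AddCommGroup M] [Module (PR K n) M] (p : ℕ)
    (h : PdLT (PR K n) M (p + 1)) (i : ℕ) (hi : i + p < n) (t : ℕ) :
    Subsingleton (Ext (ModuleCat.of (PR K n) (PR K n ⧸ mI K n ^ t)) (ModuleCat.of (PR K n) M) i) := by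
  refine ext_of_pd' _ ((List.finRange n).map X) ?_
    (Mono.weaklyRegular_X _ (List.nodup_finRange n)) p _ h i (by simpa using hi)
  intro r hr
  obtain ⟨j, -, rfl⟩ := List.mem_map.1 hr
  exact pow_mem_ann _ t _ (Ideal.subset_span ⟨j, rfl⟩)

theorem der_prod (α : Fin d → Fin n → K) (D : Derivation K (PR K n) (PR K n))
    (f : Fin d → PR K n) (hf : ∀ j, D (lf (α j)) = f j * lf (α j)) (s : Finset (Fin d)) :
    D (∏ j ∈ s, lf (α j)) = (∑ j ∈ s, f j) * ∏ j ∈ s, lf (α j) := by
  induction s using Finset.induction_on with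
  | empty => simp
  | insert j s hj ih =>
    rw [Finset.prod_insert hj, Finset.sum_insert hj, Derivation.leibniz, ih, hf]
    simp only [smul_eq_mul]; ring

/-- the sequence `0 → D₀ → D → Q S → 0` -/
theorem ses_zero [CharZero K] (α : Fin d → Fin n → K) (h : ∀ j, α j ≠ 0) (hd : d ≠ 0) :
    ∃ (f : logDer0 α →ₗ[PR K n] logDer α) (g : logDer α →ₗ[PR K n] PR K n),
      Function.Injective f ∧ Function.Surjective g ∧ Function.Exact f g := by
  have hQ : (∏ j, lf (α j)) ≠ 0 := Finset.prod_ne_zero_iff.2 fun j _ => lf_ne_zero (h j)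
  have hex : ∀ D : logDer α, ∃ c, D.1 (∏ j, lf (α j)) = c * ∏ j, lf (α j) := by
    rintro ⟨D, hD⟩
    choose f hf using fun j => Ideal.mem_span_singleton'.1 (hD j)
    exact ⟨_, der_prod α D f (fun j => (hf j).symm) _⟩
  choose c hc using hex
  let g : logDer α →ₗ[PR K n] PR K n :=
    { toFun := c
      map_add' := fun x y => mul_right_cancel₀ hQ (by rw [← hc, add_mul, ← hc, ← hc]; rfl)
      map_smul' := fun r x => mul_right_cancel₀ hQ (by
        rw [← hc, RingHom.id_apply, smul_eq_mul, mul_assoc, ← hc]; rfl) }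
  refine ⟨Submodule.inclusion (fun _ hx => hx.1), g, Submodule.inclusion_injective _, ?_, ?_⟩
  · intro r
    have hE : ∀ j, (evD.symm X : Derivation K (PR K n) (PR K n)) (lf (α j)) = 1 * lf (α j) := by
      intro j; rw [der_lf, LinearEquiv.apply_symm_apply, dv_X, one_mul]
    let E : logDer α := ⟨evD.symm X, fun j => by
      rw [hE, one_mul]; exact Ideal.mem_span_singleton_self _⟩
    have h1 : g E = C (d : K) := mul_right_cancel₀ hQ (by
      refine (hc E).symm.trans ((der_prod α _ _ hE _).trans ?_)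
      simp)
    refine ⟨(r * C (d : K)⁻¹) • E, ?_⟩
    rw [map_smul, h1, smul_eq_mul, mul_assoc, ← C_mul, inv_mul_cancel₀ (by exact_mod_cast hd)]
    simp
  · intro x
    constructor
    · intro hx
      have hx' : c x = 0 := hx
      exact ⟨⟨x.1, x.2, by rw [hc, hx', zero_mul]⟩, rfl⟩
    · rintro ⟨y, rfl⟩
      exact mul_right_cancel₀ hQ (by
        rw [zero_mul]
        exact (hc _).symm.trans y.2.2)

theorem stablyFree_of_pd [CharZero K] (α : Fin d → Fin 5 → K) (h : ∀ j, α j ≠ 0) (hd : d ≠ 0)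
    (hp : PdLT (PR K 5) (MM α) 4) : StablyFree α := by
  obtain ⟨f, g, h1, h2, h3⟩ := ses_zero α h hd
  have h4 : PdLT (PR K 5) (logDer0 α) 2 := (ses f g h1 h2 h3).hasProjectiveDimensionLT_X₁ 2
    ((pd_logDer_iff α h 1).1 hp) (pd_mono (by omega) (pd_proj _))
  intro i hi hi' t e
  have := ext_vanish _ 1 h4 (i + 1) (by omega) t
  exact ⟨t, le_rfl, Subsingleton.elim _ _⟩

theorem lc_of_stablyFree [CharZero K] (α : Fin d → Fin 5 → K) (h : ∀ j, α j ≠ 0) (hd : d ≠ 0)
    (hs : StablyFree α) : LocCohZero (mI K 5) (ModuleCat.of _ (MM α)) 1 := by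
  obtain ⟨f, g, h1, h2, h3⟩ := ses_zero α h hd
  have hS := ses (R := PR K 5) (A := logDer0 α) (B := logDer α) (C := PR K 5) f g h1 h2 h3
  have a1 := lc_mid (mI K 5) hS 3
    (ext_vanish (PR K 5) 0 (pd_proj _) 3 (by omega)) (hs 2 le_rfl le_rfl)
  have a2 := lc_equiv (mI K 5) (kerEquiv α h).symm 3 a1
  have a3 := lc_shift (mI K 5) (ses _ _ (Submodule.injective_subtype _) (Phi_surj α)
    (LinearMap.exact_subtype_ker_map (Phi α))) 2
    (ext_vanish (FF K 5 d) 0 (pd_proj _) 2 (by omega)) a2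
  exact lc_shift (mI K 5) (ses _ _ (Submodule.injective_subtype _) (Submodule.mkQ_surjective _)
    (LinearMap.exact_subtype_mkQ (Nv α))) 1
    (ext_vanish (Fin d → PR K 5) 0 (pd_proj _) 1 (by omega)) a3

/-- setting the new variable to zero -/
noncomputable def kill0 : PR K (n + 1) →ₐ[K] PR K n := aeval (Fin.cons 0 X)

theorem kill0_X0 : kill0 (X 0 : PR K (n + 1)) = 0 := by simp [kill0]

theorem kill0_rename (f : PR K n) : kill0 (rename Fin.succ f) = f := by
  rw [kill0, aeval_rename]
  exact aeval_X_left_apply f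

theorem sub_kill0 (f : PR K (n + 1)) : ∃ g, f = rename Fin.succ (kill0 f) + X 0 * g := by
  induction f using MvPolynomial.induction_on with
  | C a => exact ⟨0, by simp [kill0]⟩
  | add p q hp hq =>
    obtain ⟨a, ha⟩ := hp
    obtain ⟨b, hb⟩ := hq
    exact ⟨a + b, by rw [map_add, map_add]; linear_combination ha + hb⟩
  | mul_X p i hp =>
    obtain ⟨a, ha⟩ := hp
    refine Fin.cases ⟨p, ?_⟩ (fun i => ⟨a * X i.succ, ?_⟩) i
    · rw [map_mul, kill0_X0]; simp [mul_comm]
    · have : kill0 (X i.succ : PR K (n + 1)) = X i := by simp [kill0]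
      rw [map_mul, this, map_mul, rename_X]
      linear_combination X i.succ * ha

theorem kill0_mem_Nv (α : Fin d → Fin n → K) (v : Fin d → PR K (n + 1)) (hv : v ∈ Nv (cone α)) :
    (fun j => kill0 (v j)) ∈ Nv α := by
  obtain ⟨θ, h⟩ := hv
  refine ⟨fun k => kill0 (θ k.succ), fun j => ?_⟩
  obtain ⟨c, hc⟩ := Ideal.mem_span_singleton'.1 (h j)
  refine Ideal.mem_span_singleton'.2 ⟨kill0 c, ?_⟩
  have := congrArg kill0 hc
  rw [lf_cone, dv_cone, map_mul, kill0_rename] at this
  simpa [dv_apply] using this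

theorem cone_regular (α : Fin d → Fin n → K) (v : Fin d → PR K (n + 1))
    (hv : (X 0 : PR K (n + 1)) • v ∈ Nv (cone α)) : v ∈ Nv (cone α) := by
  obtain ⟨θ, h⟩ := hv
  choose c hc using fun j => Ideal.mem_span_singleton'.1 (h j)
  choose θ' hθ' using fun k => sub_kill0 (θ k)
  choose c' hc' using fun j => sub_kill0 (c j)
  refine ⟨θ', fun j => Ideal.mem_span_singleton'.2 ⟨c' j, ?_⟩⟩
  have h1 := hc j
  rw [lf_cone, dv_cone, Pi.smul_apply, smul_eq_mul] at h1
  have h2 := congrArg (fun f => rename Fin.succ (kill0 f)) h1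
  simp only [map_mul, map_sub, kill0_rename, kill0_X0, map_sum, algHom_C, algebraMap_eq,
    map_zero, zero_mul] at h2
  have h3 : ∑ k, C (α j k) * θ k.succ = ∑ k, C (α j k) * rename Fin.succ (kill0 (θ k.succ)) +
      X 0 * ∑ k, C (α j k) * θ' k.succ := by
    rw [Finset.mul_sum, ← Finset.sum_add_distrib]
    exact Finset.sum_congr rfl fun k _ => by linear_combination C (α j k) * hθ' k.succ
  refine mul_left_cancel₀ (X_ne_zero (0 : Fin (n + 1))) ?_
  rw [lf_cone, dv_cone]
  linear_combination h1 - h2 - h3 - rename Fin.succ (lf (α j)) * hc' j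

theorem not_stablyFree [CharZero K] (α : Fin d → Fin 4 → K) (h : ∀ j, ext α j ≠ 0)
    (v : Fin d → PR K 4) (hv : v ∉ Nv α) (hk : ∀ k, (X k : PR K 4) • v ∈ Nv α) :
    ¬ StablyFree (ext α) := by
  intro hs
  have h1 := lc_of_stablyFree (ext α) h (by omega) hs
  let v' : Fin (d + 1) → PR K 5 := Fin.cons 0 fun j => rename Fin.succ (v j)
  obtain ⟨m', hm'⟩ := lc_one (mI K 5) _ h1 (X 0) (Ideal.subset_span ⟨0, rfl⟩) (by
    rw [isSMulRegular_iff_right_eq_zero_of_smul]
    intro m hm
    obtain ⟨w, rfl⟩ := Submodule.Quotient.mk_surjective _ m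
    rw [← Submodule.Quotient.mk_smul, Submodule.Quotient.mk_eq_zero, mem_Nv_ext] at hm
    rw [Submodule.Quotient.mk_eq_zero, mem_Nv_ext]
    exact cone_regular α _ hm) (Submodule.Quotient.mk v') (by
    intro r hr
    induction hr using Submodule.span_induction with
    | mem x hx =>
      obtain ⟨k, rfl⟩ := hx
      refine Fin.cases ⟨_, rfl⟩ (fun k => ⟨0, ?_⟩) k
      rw [smul_zero, ← Submodule.Quotient.mk_smul, Submodule.Quotient.mk_eq_zero, mem_Nv_ext]
      simpa [v'] using rename_mem_Nv α _ (hk k)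
    | zero => exact ⟨0, by simp⟩
    | add x y _ _ hx hy =>
      obtain ⟨a, ha⟩ := hx
      obtain ⟨b, hb⟩ := hy
      exact ⟨a + b, by rw [add_smul, ha, hb, smul_add]⟩
    | smul c x _ hx =>
      obtain ⟨a, ha⟩ := hx
      exact ⟨c • a, by rw [smul_eq_mul, mul_smul, ha, smul_comm]⟩)
  obtain ⟨w, rfl⟩ := Submodule.Quotient.mk_surjective _ m'
  rw [← Submodule.Quotient.mk_smul, Submodule.Quotient.eq, mem_Nv_ext] at hm'
  apply hv
  simpa [v', kill0_rename, kill0_X0] using kill0_mem_Nv α _ hm'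

/-! ### intersection lattices -/

/-- same incidences between flats and hyperplanes -/
def SameInc {n' : ℕ} (α : Fin d → Fin n → K) (β : Fin d → Fin n' → K) : Prop :=
  ∀ (s : Set (Fin d)) (j : Fin d),
    (⨅ i ∈ s, hyper (α i)) ≤ hyper (α j) ↔ (⨅ i ∈ s, hyper (β i)) ≤ hyper (β j)

theorem lattice_iso {α β : Fin d → Fin n → K} (h : SameInc α β) :
    Nonempty (InterLattice α ≃o InterLattice β) := by
  have key : ∀ s t : Set (Fin d), (⨅ i ∈ s, hyper (α i)) ≤ (⨅ i ∈ t, hyper (α i)) ↔
      (⨅ i ∈ s, hyper (β i)) ≤ ⨅ i ∈ t, hyper (β i) := by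
    intro s t
    simp only [le_iInf_iff]
    exact forall₂_congr fun j _ => h s j
  let f : {Y : Submodule K (Fin n → K) // ∃ s : Set (Fin d), Y = ⨅ j ∈ s, hyper (α j)} →
      {Y : Submodule K (Fin n → K) // ∃ s : Set (Fin d), Y = ⨅ j ∈ s, hyper (β j)} :=
    fun Y => ⟨⨅ j ∈ Y.2.choose, hyper (β j), _, rfl⟩
  have hf : ∀ a b, f a ≤ f b ↔ a ≤ b := by
    intro a b
    change (⨅ j ∈ a.2.choose, hyper (β j)) ≤ (⨅ j ∈ b.2.choose, hyper (β j)) ↔ a.1 ≤ b.1
    rw [← key, ← a.2.choose_spec, ← b.2.choose_spec]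
  have hs : Function.Surjective f := by
    rintro ⟨_, s, rfl⟩
    let a : {Y : Submodule K (Fin n → K) // ∃ s : Set (Fin d), Y = ⨅ j ∈ s, hyper (α j)} :=
      ⟨_, s, rfl⟩
    refine ⟨a, Subtype.ext (le_antisymm ((key _ _).1 ?_) ((key _ _).1 ?_))⟩
    · exact a.2.choose_spec.ge
    · exact a.2.choose_spec.le
  exact ⟨OrderIso.dual (RelIso.ofSurjective (OrderEmbedding.ofMapLEIff f hf) hs)⟩

theorem le_hyper_iff (α : Fin d → Fin n → K) (s : Set (Fin d)) (a : Fin n → K) :
    (⨅ i ∈ s, hyper (α i)) ≤ hyper a ↔ a ∈ Submodule.span K (α '' s) := by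
  constructor
  · intro h
    by_contra ha
    obtain ⟨f, hf, hf'⟩ := Submodule.exists_dual_map_eq_bot_of_notMem ha inferInstance
    have hfe : ∀ b : Fin n → K, f b = ∑ k, b k * f (Pi.single k 1) := by
      intro b
      rw [LinearMap.pi_apply_eq_sum_univ]
      refine Finset.sum_congr rfl fun k _ => ?_
      rw [smul_eq_mul]
      congr 2
      funext j
      simp [Pi.single_apply, eq_comm]
    apply hf
    rw [hfe]
    refine h (x := fun k => f (Pi.single k 1)) ?_
    simp only [Submodule.mem_iInf]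
    intro i hi
    change ∑ k, α i k * f (Pi.single k 1) = 0
    rw [← hfe, ← Submodule.mem_bot K, ← hf']
    exact Submodule.mem_map_of_mem (Submodule.subset_span ⟨i, hi, rfl⟩)
  · intro h p hp
    simp only [Submodule.mem_iInf] at hp
    change ∑ k, a k * p k = 0
    induction h using Submodule.span_induction with
    | mem x hx => obtain ⟨i, hi, rfl⟩ := hx; exact hp i hi
    | zero => simp
    | add x y _ _ hx hy => simp only [Pi.add_apply, add_mul, Finset.sum_add_distrib, hx, hy, add_zero]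
    | smul c x _ hx =>
      simp only [Pi.smul_apply, smul_eq_mul, mul_assoc, ← Finset.mul_sum, hx, mul_zero]

theorem span_transfer {α β : Fin d → Fin n → K}
    (h : ∀ s, LinearIndepOn K α s ↔ LinearIndepOn K β s) (s : Set (Fin d)) (j : Fin d)
    (hj : β j ∈ Submodule.span K (β '' s)) : α j ∈ Submodule.span K (α '' s) := by
  obtain ⟨b, hb, -, hb2, hb3⟩ := exists_linearIndepOn_extension (K := K) (v := β)
    (linearIndepOn_empty K β) (Set.empty_subset s)
  have h1 : β j ∈ Submodule.span K (β '' b) := Submodule.span_le.2 hb2 hj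
  by_contra hn
  have h2 : α j ∉ Submodule.span K (α '' b) := fun h0 =>
    hn (Submodule.span_mono (Set.image_mono hb) h0)
  have h3 := (h _).1 (((h b).2 hb3).insert h2)
  exact h2 (Submodule.subset_span ⟨j, (linearIndepOn_insert_iff.1 h3).2 h1, rfl⟩)

theorem ind_transfer {α β : Fin d → Fin n → K} (hα : ⊤ ≤ Submodule.span K (Set.range α))
    (h : ∀ g : Fin n → Fin d, (Matrix.of fun i => β (g i)).det = 0 →
      (Matrix.of fun i => α (g i)).det = 0) (s : Set (Fin d)) (hs : LinearIndepOn K α s) :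
    LinearIndepOn K β s := by
  classical
  obtain ⟨b, -, hb, hb2, hb3⟩ := exists_linearIndepOn_extension hs (Set.subset_univ s)
  have hsp : ⊤ ≤ Submodule.span K (Set.range fun i : b => α i) := by
    refine hα.trans (Submodule.span_le.2 ?_)
    rw [← Set.image_univ, ← Set.image_eq_range]
    exact hb2
  have hc : Fintype.card b = n := by
    rw [← Module.finrank_eq_card_basis (Module.Basis.mk hb3 hsp)]; simp
  let e := (Fintype.equivFinOfCardEq hc).symm
  have h1 : LinearIndependent K fun i => α (e i) := hb3.comp e e.injective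
  have h2 : (Matrix.of fun i => α (e i)).det ≠ 0 :=
    ((Matrix.isUnit_iff_isUnit_det _).1 (Matrix.linearIndependent_rows_iff_isUnit.1 h1)).ne_zero
  have h3 : LinearIndependent K fun i => β (e i) :=
    Matrix.linearIndependent_rows_of_det_ne_zero (A := Matrix.of fun i => β (e i))
      fun h0 => h2 (h (fun i => e i) h0)
  exact LinearIndepOn.mono (s := b) ((linearIndependent_equiv e).1 h3) hb

theorem sameInc_of_det {α β : Fin d → Fin n → K} (hα : ⊤ ≤ Submodule.span K (Set.range α))
    (hβ : ⊤ ≤ Submodule.span K (Set.range β))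
    (h : ∀ g : Fin n → Fin d, (Matrix.of fun i => α (g i)).det = 0 ↔
      (Matrix.of fun i => β (g i)).det = 0) : SameInc α β := by
  have hi : ∀ s, LinearIndepOn K α s ↔ LinearIndepOn K β s := fun s =>
    ⟨ind_transfer hα (fun g => (h g).2) s, ind_transfer hβ (fun g => (h g).1) s⟩
  intro s j
  rw [le_hyper_iff, le_hyper_iff]
  exact ⟨span_transfer (fun s => (hi s).symm) s j, span_transfer hi s j⟩

theorem mem_hyper (a p : Fin n → K) : p ∈ hyper a ↔ ∑ k, a k * p k = 0 := Iff.rfl

theorem ext_le_zero (α : Fin d → Fin n → K) (s : Set (Fin (d + 1))) :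
    (⨅ i ∈ s, hyper (ext α i)) ≤ hyper (ext α 0) ↔ 0 ∈ s := by
  refine ⟨fun h => ?_, fun h => biInf_le _ h⟩
  by_contra h0
  have := h (x := Fin.cons 1 0) (by
    simp only [Submodule.mem_iInf]
    intro i
    refine Fin.cases (fun hi => (h0 hi).elim) (fun i _ => ?_) i
    simp [mem_hyper, ext, cone, Fin.sum_univ_succ])
  simp [mem_hyper, ext, Fin.sum_univ_succ] at this

theorem ext_le_succ (α : Fin d → Fin n → K) (s : Set (Fin (d + 1))) (j : Fin d) :
    (⨅ i ∈ s, hyper (ext α i)) ≤ hyper (ext α j.succ) ↔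
      (⨅ i ∈ Fin.succ ⁻¹' s, hyper (α i)) ≤ hyper (α j) := by
  constructor
  · intro h p hp
    simp only [Submodule.mem_iInf] at hp
    have := h (x := Fin.cons 0 p) (by
      simp only [Submodule.mem_iInf]
      intro i
      refine Fin.cases (fun _ => ?_) (fun i hi => ?_) i
      · simp [mem_hyper, ext, Fin.sum_univ_succ]
      · simpa [mem_hyper, ext, cone, Fin.sum_univ_succ] using hp i hi)
    simpa [mem_hyper, ext, cone, Fin.sum_univ_succ] using this
  · intro h p hp
    simp only [Submodule.mem_iInf] at hp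
    have := h (x := fun k => p k.succ) (by
      simp only [Submodule.mem_iInf]
      intro i hi
      simpa [mem_hyper, ext, cone, Fin.sum_univ_succ] using hp i.succ hi)
    simpa [mem_hyper, ext, cone, Fin.sum_univ_succ] using this

theorem sameInc_ext {α β : Fin d → Fin n → K} (h : SameInc α β) : SameInc (ext α) (ext β) := by
  intro s j
  refine Fin.cases ?_ (fun j => ?_) j
  · rw [ext_le_zero, ext_le_zero]
  · rw [ext_le_succ, ext_le_succ]; exact h _ j

theorem isArr_iff (α : Fin d → Fin n → K) : IsArrangement α ↔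
    (∀ j, ¬ (⨅ i ∈ (∅ : Set (Fin d)), hyper (α i)) ≤ hyper (α j)) ∧
    ∀ i j, (⨅ k ∈ ({i} : Set (Fin d)), hyper (α k)) ≤ hyper (α j) →
      (⨅ k ∈ ({j} : Set (Fin d)), hyper (α k)) ≤ hyper (α i) → i = j := by
  refine and_congr (forall_congr' fun j => ?_) ?_
  · rw [le_hyper_iff]; simp
  · simp only [Set.mem_singleton_iff, iInf_iInf_eq_left]
    exact ⟨fun h i j h1 h2 => h (le_antisymm h1 h2), fun h i j h1 => h i j h1.le h1.ge⟩

theorem isArr_transfer {α β : Fin d → Fin n → K} (h : SameInc α β) (hα : IsArrangement α) :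
    IsArrangement β := by
  rw [isArr_iff] at hα ⊢
  exact ⟨fun j h0 => hα.1 j ((h _ _).2 h0), fun i j h1 h2 =>
    hα.2 i j ((h _ _).2 h1) ((h _ _).2 h2)⟩

theorem isArr_ext {α : Fin d → Fin n → K} (hα : IsArrangement α) : IsArrangement (ext α) := by
  rw [isArr_iff] at hα ⊢
  constructor
  · intro j
    refine Fin.cases ?_ (fun j => ?_) j
    · rw [ext_le_zero]; simp
    · rw [ext_le_succ]; exact hα.1 j
  · intro i j
    refine Fin.cases ?_ (fun j => ?_) j
    · rw [ext_le_zero]; exact fun h _ => h.symm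
    · refine Fin.cases ?_ (fun i => ?_) i
      · rw [ext_le_zero]; exact fun _ h => h
      · rw [ext_le_succ, ext_le_succ]
        have : ∀ i : Fin d, Fin.succ ⁻¹' ({i.succ} : Set (Fin (d + 1))) = {i} := fun i => by
          ext k; simp
        rw [this, this]
        exact fun h1 h2 => congrArg _ (hα.2 i j h1 h2)

end Pool.Agent.H79.Arr
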