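import Mathlib
import Pool.Agent.H79.Mono

set_option autoImplicit false

namespace Pool.Agent.H79.Depth

open CategoryTheory Abelian RingTheory.Sequence Pool.Agent.H79.PD Pool.Agent.H79.Mono
open scoped Pointwise

universe u

section general

variable {R : Type u} [CommRing R] [IsNoetherianRing R]

theorem exists_prime_ann {M : Type u} [AddCommGroup M] [Module R M] (m : Ideal R) [m.IsPrime]
    (z : M) (hz : ∀ r : R, r • z = 0 → r ∈ m) :
    ∃ (P : Ideal R) (c : R), P.IsPrime ∧ (∀ r, r ∈ P ↔ r • c • z = 0) ∧ P ≤ m := by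
  obtain ⟨J, ⟨c, hc, hJm⟩, hmax⟩ := set_has_maximal_iff_noetherian.2
    (inferInstance : IsNoetherian R R)
    {J : Ideal R | ∃ c : R, J = Ideal.torsionOf R M (c • z) ∧ J ≤ m}
    ⟨_, 1, rfl, fun r hr => hz r (by simpa using hr)⟩
  have hmem : ∀ r, r ∈ J ↔ r • c • z = 0 := fun r => by rw [hc, Ideal.mem_torsionOf_iff]
  refine ⟨J, c, ⟨fun h => ‹m.IsPrime›.ne_top (top_le_iff.1 (h ▸ hJm)), ?_⟩, hmem, hJm⟩
  intro a b hab
  by_contra hne
  rw [not_or] at hne
  have step : ∀ s : R, Ideal.torsionOf R M ((s * c) • z) ≤ m →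
      Ideal.torsionOf R M ((s * c) • z) ≤ J := by
    intro s hs
    have hle : J ≤ Ideal.torsionOf R M ((s * c) • z) := by
      intro r hr
      rw [Ideal.mem_torsionOf_iff, mul_smul, smul_comm, (hmem r).1 hr, smul_zero]
    by_contra h
    exact hmax _ ⟨s * c, rfl, hs⟩ (lt_of_le_of_ne hle fun h2 => h h2.ge)
  have h1 : ¬ Ideal.torsionOf R M ((a * c) • z) ≤ m := by
    intro h
    apply hne.2
    apply step a h
    rw [Ideal.mem_torsionOf_iff, mul_smul, ← mul_smul, mul_comm]
    exact (hmem _).1 hab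
  obtain ⟨s, hs, hsm⟩ := SetLike.not_le_iff_exists.1 h1
  rw [Ideal.mem_torsionOf_iff] at hs
  apply hne.1
  apply step s
  · intro r hr
    rw [Ideal.mem_torsionOf_iff, mul_smul, ← mul_smul] at hr
    exact (‹m.IsPrime›.mem_or_mem (hJm ((hmem _).2 hr))).resolve_right hsm
  · rw [Ideal.mem_torsionOf_iff, ← mul_smul, show a * (s * c) = s * (a * c) by ring, mul_smul]
    exact hs

theorem exists_ann_quot {M : Type u} [AddCommGroup M] [Module R M] [Module.Finite R M]
    (m : Ideal R) [m.IsMaximal] (P : Ideal R) (w : M) (hw : ∀ r ∈ P, r • w = 0)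
    (hwm : ∀ r : R, r • w = 0 → r ∈ m) (x : R) (hx : x ∈ m) (reg : IsSMulRegular M x) :
    ∃ w' : M, (∀ r ∈ P, r • w' = 0) ∧
      ∀ r : R, r • (Submodule.Quotient.mk w' : QuotSMulTop x M) = 0 → r ∈ m := by
  by_contra H
  push Not at H
  let W : Submodule R M := Submodule.torsionBySet R M P
  have hW : ∀ v, v ∈ W ↔ ∀ r ∈ P, r • v = 0 := fun v => by
    simp [W, Submodule.mem_torsionBySet_iff]
  have hle : W ≤ m • W := by
    intro v hv
    obtain ⟨s, hs, hsm⟩ := H v ((hW v).1 hv)
    rw [← Submodule.Quotient.mk_smul, Submodule.Quotient.mk_eq_zero,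
      Submodule.mem_smul_pointwise_iff_exists] at hs
    obtain ⟨v', -, hv'⟩ := hs
    have hv'W : v' ∈ W := by
      rw [hW]
      intro r hr
      apply reg
      change x • r • v' = x • (0 : M)
      rw [smul_comm, hv', smul_comm, (hW v).1 hv r hr, smul_zero, smul_zero]
    obtain ⟨y, i, hi, hyi⟩ := ‹m.IsMaximal›.exists_inv hsm
    have : v = y • x • v' + i • v := by
      rw [hv', ← mul_smul, ← add_smul, hyi, one_smul]
    rw [this]
    exact add_mem (Submodule.smul_mem _ _ (Submodule.smul_mem_smul hx hv'W))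
      (Submodule.smul_mem_smul hi hv)
  obtain ⟨r, hr1, hr⟩ := Submodule.exists_sub_one_mem_and_smul_eq_zero_of_fg_of_le_smul m W
    (IsNoetherian.noetherian W) hle
  have h1 := hwm r (hr w ((hW w).2 hw))
  apply ‹m.IsMaximal›.ne_top
  rw [Ideal.eq_top_iff_one]
  simpa using m.sub_mem h1 hr1

/-- depth is bounded by the coheight of annihilators of elements -/
theorem height_add_le (m : Ideal R) [m.IsMaximal] (rs : List R) :
    ∀ (M : Type u) [AddCommGroup M] [Module R M] [Module.Finite R M], (∀ r ∈ rs, r ∈ m) →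
      IsWeaklyRegular M rs → ∀ (z : M) (I : Ideal R), (∀ r ∈ I, r • z = 0) →
      (∀ r : R, r • z = 0 → r ∈ m) → I.height + rs.length ≤ m.height := by
  induction rs with
  | nil =>
    intro M _ _ _ _ _ z I h1 h2
    simpa using Ideal.height_mono fun r hr => h2 r (h1 r hr)
  | cons x rs ih =>
    intro M _ _ _ hmem reg z I h1 h2
    rw [isWeaklyRegular_cons_iff] at reg
    obtain ⟨P, c, hP, hPc, hPm⟩ := exists_prime_ann m z h2
    have hx : x ∈ m := hmem x List.mem_cons_self
    obtain ⟨w', h3, h4⟩ := exists_ann_quot m P (c • z) (fun r hr => (hPc r).1 hr)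
      (fun r hr => hPm ((hPc r).2 hr)) x hx reg.1
    have h5 := ih (QuotSMulTop x M) (fun r hr => hmem r (List.mem_cons_of_mem _ hr)) reg.2
      (Submodule.Quotient.mk w') (P ⊔ Ideal.span {x}) (by
        intro r hr
        obtain ⟨a, ha, b, hb, rfl⟩ := Submodule.mem_sup.1 hr
        obtain ⟨d, rfl⟩ := Ideal.mem_span_singleton'.1 hb
        rw [← Submodule.Quotient.mk_smul, Submodule.Quotient.mk_eq_zero, add_smul, h3 a ha,
          zero_add, mul_comm, mul_smul]
        exact Submodule.smul_mem_pointwise_smul _ _ _ trivial) h4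
    have hxP : x ∉ P := by
      intro h
      have h6 : c • z = 0 := reg.1 (by
        change x • c • z = x • (0 : M)
        rw [smul_zero]; exact (hPc x).1 h)
      exact hP.ne_top ((Ideal.eq_top_iff_one _).2 ((hPc 1).2 (by rw [h6, smul_zero])))
    have hlt : P < P ⊔ Ideal.span {x} := lt_of_le_of_ne le_sup_left fun h =>
      hxP (h ▸ Submodule.mem_sup_right (Ideal.mem_span_singleton_self x))
    have h7 : P.height < (P ⊔ Ideal.span {x}).height := Ideal.height_strict_mono_of_isPrime hlt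
    have h8 : I.height ≤ P.height := Ideal.height_mono fun r hr => by
      rw [hPc, smul_comm, h1 r hr, smul_zero]
    have h9 : P.height + 1 ≤ (P ⊔ Ideal.span {x}).height := Order.add_one_le_of_lt h7
    calc I.height + ((x :: rs).length : ℕ∞) = (I.height + 1) + rs.length := by
          rw [List.length_cons]; push_cast; ring
      _ ≤ (P.height + 1) + rs.length := by gcongr
      _ ≤ (P ⊔ Ideal.span {x}).height + rs.length := by gcongr
      _ ≤ m.height := h5

omit [IsNoetherianRing R] in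
theorem smul_top_lt (m J : Ideal R) (hm : m ≠ ⊤) (hJ : J ≤ m) :
    m • (⊤ : Submodule R (R ⧸ J)) < ⊤ := by
  rw [lt_top_iff_ne_top]
  intro h
  have h1 : ∀ v ∈ m • (⊤ : Submodule R (R ⧸ J)), ∀ r : R, Submodule.Quotient.mk r = v → r ∈ m := by
    intro v hv
    refine Submodule.smul_induction_on hv ?_ ?_
    · intro a ha b _ r hr
      obtain ⟨b, rfl⟩ := Submodule.Quotient.mk_surjective J b
      rw [← Submodule.Quotient.mk_smul, Submodule.Quotient.eq] at hr
      have := m.add_mem (hJ hr) (m.mul_mem_right b ha)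
      simpa using this
    · intro a b ha hb r hr
      obtain ⟨a, rfl⟩ := Submodule.Quotient.mk_surjective J a
      obtain ⟨b, rfl⟩ := Submodule.Quotient.mk_surjective J b
      rw [← Submodule.Quotient.mk_add, Submodule.Quotient.eq] at hr
      have := m.add_mem (hJ hr) (m.add_mem (ha a rfl) (hb b rfl))
      simpa using this
  exact hm ((Ideal.eq_top_iff_one _).2 (h1 _ (by rw [h]; exact Submodule.mem_top) 1 rfl))

theorem exists_regular (m J : Ideal R) (hm : m ≠ ⊤) (hJ : J ≤ m) (d : ℕ)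
    (h : ∀ i < d, Subsingleton (Ext (ModuleCat.of R (R ⧸ m)) (ModuleCat.of R (R ⧸ J)) i)) :
    ∃ rs : List R, (∀ r ∈ rs, r ∈ m) ∧ IsRegular (R ⧸ J) rs ∧ rs.length = d := by
  obtain ⟨rs, h1, h2, h3⟩ := ModuleCat.exists_isRegular_of_exists_subsingleton_ext m d
    (ModuleCat.of R (R ⧸ J)) (smul_top_lt m J hm hJ) (ModuleCat.of R (R ⧸ m))
    (by rw [Module.support_eq_zeroLocus, Ideal.annihilator_quotient]) h
  exact ⟨rs, h2, h3, h1⟩

omit [IsNoetherianRing R] in
theorem ext_coprime (m J : Ideal R) (h : J ⊔ m = ⊤) (i : ℕ) :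
    Subsingleton (Ext (ModuleCat.of R (R ⧸ m)) (ModuleCat.of R (R ⧸ J)) i) := by
  refine ⟨fun e e' => ?_⟩
  suffices H : ∀ e : Ext (ModuleCat.of R (R ⧸ m)) (ModuleCat.of R (R ⧸ J)) i, e = 0 by
    rw [H e, H e']
  intro e
  obtain ⟨a, ha, b, hb, hab⟩ := Submodule.mem_sup.1 (h ▸ Submodule.mem_top : (1 : R) ∈ J ⊔ m)
  have hid : ∀ (I : Ideal R) (r : R), r ∈ I → r • 𝟙 (ModuleCat.of R (R ⧸ I)) = 0 := by
    intro I r hr
    have : r ∈ Module.annihilator R (ModuleCat.of R (R ⧸ I)) := by
      change r ∈ Module.annihilator R (R ⧸ I)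
      rw [Ideal.annihilator_quotient]; exact hr
    simp [← ModuleCat.lsmul_eq_smul_id, Module.mem_annihilator_iff_lsmul_eq_zero.mp this]
  have h1 : b • e = 0 := by
    have smul_eq : b • e = (Ext.mk₀ (b • 𝟙 _)).comp e (zero_add i) := by simp [Ext.mk₀_smul]
    rw [smul_eq, hid m b hb]; simp
  have h2 : a • e = 0 := by
    have smul_eq : a • e = e.comp (Ext.mk₀ (a • 𝟙 _)) (add_zero i) := by simp [Ext.mk₀_smul]
    rw [smul_eq, hid J a ha]; simp
  rw [← one_smul R e, ← hab, add_smul, h1, h2, add_zero]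

omit [IsNoetherianRing R] in
theorem ext_colon (N : ModuleCat.{u} R) (I J L : Ideal R) (u : R) (h : ∀ r, r ∈ J ↔ r * u ∈ I)
    (hL : L = I ⊔ Ideal.span {u}) (i : ℕ)
    (h1 : Subsingleton (Ext N (ModuleCat.of R (R ⧸ J)) i))
    (h2 : Subsingleton (Ext N (ModuleCat.of R (R ⧸ L)) i)) :
    Subsingleton (Ext N (ModuleCat.of R (R ⧸ I)) i) := by
  refine ⟨fun e e' => ?_⟩
  suffices H : ∀ e : Ext N (ModuleCat.of R (R ⧸ I)) i, e = 0 by rw [H e, H e']
  intro e
  obtain ⟨x, hx⟩ := Ext.covariant_sequence_exact₂ N (colonSES I J L u h hL) e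
    (Subsingleton.elim (α := Ext N (ModuleCat.of R (R ⧸ L)) i) _ _)
  have : x = 0 := Subsingleton.elim (α := Ext N (ModuleCat.of R (R ⧸ J)) i) _ _
  rw [← hx, this, Ext.zero_comp]

theorem exists_content [IsDomain R] (Q : Ideal R) (hQ : Q ≠ ⊥) :
    ∃ (e : R) (Q' : Ideal R), Q = Ideal.span {e} * Q' ∧
      ∀ p : R, Q' ≤ Ideal.span {p} → Ideal.span {p} = ⊤ := by
  obtain ⟨Q', ⟨e, he⟩, hmax⟩ := set_has_maximal_iff_noetherian.2
    (inferInstance : IsNoetherian R R)
    {J : Ideal R | ∃ e : R, Q = Ideal.span {e} * J} ⟨Q, 1, by simp⟩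
  refine ⟨e, Q', he, fun p hp => ?_⟩
  let Q'' : Ideal R := Submodule.comap (LinearMap.toSpanSingleton R R p) Q'
  have hQ'' : ∀ r, r ∈ Q'' ↔ r * p ∈ Q' := fun r => Iff.rfl
  have h1 : Q' = Ideal.span {p} * Q'' := by
    apply le_antisymm
    · intro r hr
      obtain ⟨c, rfl⟩ := Ideal.mem_span_singleton'.1 (hp hr)
      rw [mul_comm c p]
      exact Ideal.mul_mem_mul (Ideal.mem_span_singleton_self p) ((hQ'' c).2 hr)
    · rw [Ideal.span_singleton_mul_le_iff]
      intro r hr
      rw [mul_comm]; exact hr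
  have h2 : Q' ≤ Q'' := fun r hr => Ideal.mul_mem_right p Q' hr
  have h3 : Q'' = Q' := by
    by_contra h
    refine hmax Q'' ⟨e * p, ?_⟩ (lt_of_le_of_ne h2 (Ne.symm h))
    rw [← Ideal.span_singleton_mul_span_singleton, mul_assoc, ← h1, he]
  rw [h3] at h1
  obtain ⟨r, hr1, hr⟩ := Submodule.exists_sub_one_mem_and_smul_eq_zero_of_fg_of_le_smul
    (Ideal.span {p}) Q' (IsNoetherian.noetherian Q') (by rw [smul_eq_mul]; exact h1.le)
  have h4 : Q' ≠ ⊥ := by rintro rfl; simp [hQ] at he
  obtain ⟨q, hq, hq0⟩ := Submodule.exists_mem_ne_zero_of_ne_bot h4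
  have h5 : r = 0 := (mul_eq_zero.1 (hr q hq)).resolve_right hq0
  rw [Ideal.eq_top_iff_one]
  simpa [h5] using hr1

end general

section poly

open MvPolynomial

variable {σ : Type} {K : Type} [Field K]

theorem varIdeal_prime (τ : Set σ) :
    (Ideal.span (X '' τ : Set (MvPolynomial σ K))).IsPrime := by
  classical
  let φ : MvPolynomial σ K →ₐ[K] MvPolynomial σ K := aeval fun i => if i ∈ τ then 0 else X i
  have h1 : ∀ f, f - φ f ∈ Ideal.span (X '' τ : Set (MvPolynomial σ K)) := by
    intro f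
    induction f using MvPolynomial.induction_on with
    | C a => simp [φ]
    | add p q hp hq =>
      have := Ideal.add_mem _ hp hq
      rw [map_add]; convert this using 1; ring
    | mul_X p i hp =>
      rw [map_mul]
      by_cases hi : i ∈ τ
      · simp only [φ, aeval_X, if_pos hi, mul_zero, sub_zero]
        exact Ideal.mul_mem_left _ _ (Ideal.subset_span ⟨i, hi, rfl⟩)
      · have : φ (X i) = X i := by simp [φ, hi]
        rw [this, ← sub_mul]
        exact Ideal.mul_mem_right _ _ hp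
  have h2 : Ideal.span (X '' τ : Set (MvPolynomial σ K)) = RingHom.ker φ.toRingHom := by
    apply le_antisymm
    · rw [Ideal.span_le]
      rintro _ ⟨i, hi, rfl⟩
      simp [φ, hi]
    · intro f hf
      have h3 : φ f = 0 := hf
      simpa [h3] using h1 f
  rw [h2]
  exact RingHom.ker_isPrime _

theorem card_le_height (τ : Finset σ) :
    (τ.card : ℕ∞) ≤ (Ideal.span (X '' (τ : Set σ) : Set (MvPolynomial σ K))).height := by
  classical
  induction τ using Finset.induction_on with
  | empty => simp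
  | insert j τ hj ih =>
    rw [Finset.card_insert_of_notMem hj]
    have := varIdeal_prime (K := K) (τ : Set σ)
    have := varIdeal_prime (K := K) ((insert j τ : Finset σ) : Set σ)
    have hlt : Ideal.span (X '' (τ : Set σ) : Set (MvPolynomial σ K)) <
        Ideal.span (X '' ((insert j τ : Finset σ) : Set σ)) := by
      refine lt_of_le_of_ne (Ideal.span_mono (Set.image_mono (by simp))) fun h => ?_
      have h1 : (X j : MvPolynomial σ K) ∈ Ideal.span (X '' (τ : Set σ)) := by
        rw [h]; exact Ideal.subset_span ⟨j, by simp, rfl⟩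
      rw [mem_ideal_span_X_image] at h1
      obtain ⟨i, hi, h2⟩ := h1 (Finsupp.single j 1) (by simp [support_X])
      have : j ≠ i := fun h => hj (h ▸ hi)
      exact h2 (Finsupp.single_eq_of_ne' this)
    calc ((τ.card + 1 : ℕ) : ℕ∞) = (τ.card : ℕ∞) + 1 := by push_cast; rfl
      _ ≤ _ := by gcongr
      _ ≤ _ := Ideal.height_add_one_le_of_lt_of_isPrime hlt

theorem mem_vars_iff (f : MvPolynomial σ K) :
    f ∈ Ideal.span (Set.range (X : σ → MvPolynomial σ K)) ↔ coeff 0 f = 0 := by
  rw [← Set.image_univ, mem_ideal_span_X_image]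
  constructor
  · intro h
    by_contra h0
    obtain ⟨i, -, hi⟩ := h 0 (mem_support_iff.2 h0)
    exact hi rfl
  · intro h m hm
    by_contra h2
    push Not at h2
    have : m = 0 := Finsupp.ext fun i => h2 i trivial
    exact mem_support_iff.1 hm (this ▸ h)

theorem vars_maximal : (Ideal.span (Set.range (X : σ → MvPolynomial σ K))).IsMaximal := by
  have : Ideal.span (Set.range (X : σ → MvPolynomial σ K)) = RingHom.ker constantCoeff := by
    ext f; rw [mem_vars_iff, RingHom.mem_ker, constantCoeff_eq]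
  rw [this]
  exact RingHom.ker_isMaximal_of_surjective _ fun c => ⟨C c, by simp⟩

theorem vars_height_le (n : ℕ) :
    (Ideal.span (Set.range (X : Fin n → MvPolynomial (Fin n) K))).height ≤ n := by
  have := (vars_maximal (σ := Fin n) (K := K)).isPrime
  have h1 := Ideal.height_le_ringKrullDim_of_isPrime
    (I := Ideal.span (Set.range (X : Fin n → MvPolynomial (Fin n) K)))
  rw [MvPolynomial.ringKrullDim_of_isNoetherianRing, ringKrullDim_eq_zero_of_field] at h1
  simp only [Nat.card_eq_fintype_card, Fintype.card_fin, zero_add] at h1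
  exact_mod_cast h1

theorem ext_vars_of_pd (n p : ℕ) (J : Ideal (MvPolynomial (Fin n) K))
    (h : PdLT (MvPolynomial (Fin n) K) (MvPolynomial (Fin n) K ⧸ J) (p + 1)) (i : ℕ)
    (hi : i + p < n) :
    Subsingleton (Ext (ModuleCat.of (MvPolynomial (Fin n) K) (MvPolynomial (Fin n) K ⧸
      Ideal.span (Set.range (X : Fin n → MvPolynomial (Fin n) K))))
      (ModuleCat.of (MvPolynomial (Fin n) K) (MvPolynomial (Fin n) K ⧸ J)) i) := by
  refine ext_of_pd _ ((List.finRange n).map X) ?_ (weaklyRegular_X _ (List.nodup_finRange n)) p _ h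
    i (by simpa using hi)
  intro r hr
  obtain ⟨j, -, rfl⟩ := List.mem_map.1 hr
  change X j ∈ Module.annihilator (MvPolynomial (Fin n) K) (MvPolynomial (Fin n) K ⧸ _)
  rw [Ideal.annihilator_quotient]
  exact Ideal.subset_span ⟨j, rfl⟩

end poly

end Pool.Agent.H79.Depth
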