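import Mathlib
import Pool.Agent.H79.Arr2
import Pool.Agent.H79.Depth

set_option autoImplicit false
set_option linter.unusedVariables false

namespace Pool.Agent.H79.Arr

open MvPolynomial CategoryTheory RingTheory.Sequence Pool.Agent.H79.PD
  Pool.Agent.H79.HSyz Pool.Agent.H79.ArrDefs

section ids

variable {A : Type} [CommRing A]

/-- second coefficient of the degree five derivation -/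
def pP (x y z ρ : A) : A :=
  18*x^5 + 3*x^4*y*ρ - 9*x^4*y - 6*x^4*z*ρ - 90*x^4*z - 6*x^3*y^2*ρ - 18*x^3*y^2 - 18*x^3*y*z*ρ
    + 18*x^3*y*z + 24*x^3*z^2*ρ + 144*x^3*z^2 - 4*x^2*y^3*ρ + 12*x^2*y^3 + 10*x^2*y^2*z*ρ + 78*x^2*y^2*z
    + 32*x^2*y*z^2*ρ - 24*x^2*y*z^2 - 24*x^2*z^3*ρ - 72*x^2*z^3 + 6*x*y^4*ρ + 18*x*y^3*z*ρ - 18*x*y^3*z
    - 24*x*y^2*z^2*ρ - 144*x*y^2*z^2 + y^5*ρ - 3*y^5 - 4*y^4*z*ρ + 12*y^4*z - 32*y^3*z^2*ρ + 24*y^3*z^2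
    + 24*y^2*z^3*ρ + 72*y^2*z^3

/-- third coefficient of the degree five derivation -/
def pR (x y z ρ : A) : A :=
  9*x^5 + 6*x^4*y*ρ + 6*x^4*z*ρ - 54*x^4*z - 12*x^3*y^2 - 30*x^3*y*z*ρ - 24*x^3*y*z - 30*x^3*z^2*ρ
    + 150*x^3*z^2 - 6*x^2*y^3*ρ - 10*x^2*y^2*z*ρ + 48*x^2*y^2*z + 76*x^2*y*z^2*ρ + 96*x^2*y*z^2
    + 32*x^2*z^3*ρ - 240*x^2*z^3 + 3*x*y^4 + 18*x*y^3*z*ρ - 12*x*y^3*z + 30*x*y^2*z^2*ρ - 78*x*y^2*z^2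
    - 108*x*y*z^3*ρ - 108*x*y*z^3 + 24*x*z^4*ρ + 216*x*z^4 - 6*y^4*z - 12*y^3*z^2*ρ + 24*y^3*z^2
    - 20*y^2*z^3*ρ + 60*y^2*z^3 + 56*y*z^4*ρ + 24*y*z^4 - 32*z^5*ρ - 96*z^5

/-- the degree five form -/
def pB (x y ρ : A) : A := x * (x - y) * (x + y) * (ρ * x - y) ^ 2

theorem id1 (x y z ρ : A) (h : ρ ^ 2 + 3 = 0) : (x - y) ∣ - pP x y z ρ :=
  ⟨- 18*x^4 - 3*x^3*y*ρ - 9*x^3*y + 6*x^3*z*ρ + 90*x^3*z + 3*x^2*y^2*ρ + 9*x^2*y^2 + 24*x^2*y*z*ρ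
      + 72*x^2*y*z - 24*x^2*z^2*ρ - 144*x^2*z^2 + 7*x*y^3*ρ - 3*x*y^3 + 14*x*y^2*z*ρ - 6*x*y^2*z
      - 56*x*y*z^2*ρ - 120*x*y*z^2 + 24*x*z^3*ρ + 72*x*z^3 + y^4*ρ - 3*y^4 - 4*y^3*z*ρ + 12*y^3*z
      - 32*y^2*z^2*ρ + 24*y^2*z^2 + 24*y*z^3*ρ + 72*y*z^3, by
    unfold pP
    linear_combination (0) * h⟩

theorem id2 (x y z ρ : A) (h : ρ ^ 2 + 3 = 0) : (x + y) ∣ pP x y z ρ :=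
  ⟨18*x^4 + 3*x^3*y*ρ - 27*x^3*y - 6*x^3*z*ρ - 90*x^3*z - 9*x^2*y^2*ρ + 9*x^2*y^2 - 12*x^2*y*z*ρ
      + 108*x^2*y*z + 24*x^2*z^2*ρ + 144*x^2*z^2 + 5*x*y^3*ρ + 3*x*y^3 + 22*x*y^2*z*ρ - 30*x*y^2*z
      + 8*x*y*z^2*ρ - 168*x*y*z^2 - 24*x*z^3*ρ - 72*x*z^3 + y^4*ρ - 3*y^4 - 4*y^3*z*ρ + 12*y^3*z
      - 32*y^2*z^2*ρ + 24*y^2*z^2 + 24*y*z^3*ρ + 72*y*z^3, by
    unfold pP
    linear_combination (0) * h⟩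

theorem id3 (x y z ρ : A) (h : ρ ^ 2 + 3 = 0) : (x - 2 * z) ∣ - 2 * pR x y z ρ :=
  ⟨- 18*x^4 - 12*x^3*y*ρ - 12*x^3*z*ρ + 72*x^3*z + 24*x^2*y^2 + 36*x^2*y*z*ρ + 48*x^2*y*z + 36*x^2*z^2*ρ
      - 156*x^2*z^2 + 12*x*y^3*ρ + 20*x*y^2*z*ρ - 48*x*y^2*z - 80*x*y*z^2*ρ - 96*x*y*z^2 + 8*x*z^3*ρ
      + 168*x*z^3 - 6*y^4 - 12*y^3*z*ρ + 24*y^3*z - 20*y^2*z^2*ρ + 60*y^2*z^2 + 56*y*z^3*ρ + 24*y*z^3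
      - 32*z^4*ρ - 96*z^4, by
    unfold pR
    linear_combination (0) * h⟩

theorem id4 (x y z ρ : A) (h : ρ ^ 2 + 3 = 0) : (x - y - 2 * z) ∣ - pP x y z ρ - 2 * pR x y z ρ :=
  ⟨- 36*x^4 - 15*x^3*y*ρ - 27*x^3*y - 6*x^3*z*ρ + 126*x^3*z - 9*x^2*y^2*ρ + 15*x^2*y^2 + 42*x^2*y*z*ρ
      + 102*x^2*y*z + 24*x^2*z^2*ρ - 192*x^2*z^2 + 7*x*y^3*ρ + 3*x*y^3 + 34*x*y^2*z*ρ - 42*x*y^2*z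
      - 76*x*y*z^2*ρ - 156*x*y*z^2 + 8*x*z^3*ρ + 168*x*z^3 + y^4*ρ - 3*y^4 - 6*y^3*z*ρ + 6*y^3*z
      - 44*y^2*z^2*ρ + 60*y^2*z^2 + 72*y*z^3*ρ + 72*y*z^3 - 32*z^4*ρ - 96*z^4, by
    unfold pP pR
    linear_combination (0) * h⟩

theorem id5 (x y z ρ : A) (h : ρ ^ 2 + 3 = 0) : (x + y - 2 * z) ∣ pP x y z ρ - 2 * pR x y z ρ :=
  ⟨- 9*x^3*y*ρ - 9*x^3*y - 18*x^3*z*ρ + 18*x^3*z + 3*x^2*y^2*ρ + 15*x^2*y^2 + 42*x^2*y*z*ρ + 30*x^2*y*z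
      + 48*x^2*z^2*ρ - 120*x^2*z^2 + 5*x*y^3*ρ - 3*x*y^3 - 6*x*y^2*z*ρ - 18*x*y^2*z - 84*x*y*z^2*ρ
      - 36*x*y*z^2 + 8*x*z^3*ρ + 168*x*z^3 + y^4*ρ - 3*y^4 - 2*y^3*z*ρ + 18*y^3*z - 12*y^2*z^2*ρ
      + 12*y^2*z^2 + 40*y*z^3*ρ - 24*y*z^3 - 32*z^4*ρ - 96*z^4, by
    unfold pP pR
    linear_combination (0) * h⟩

theorem id6 (x y z ρ : A) (h : ρ ^ 2 + 3 = 0) : (ρ * x - y + 2 * z) ∣ - pP x y z ρ + 2 * pR x y z ρ :=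
  ⟨- 3*x^3*y*ρ + 9*x^3*y + 6*x^3*z*ρ + 18*x^3*z - x^2*y^2*ρ + 3*x^2*y^2 + 22*x^2*y*z*ρ - 30*x^2*y*z
      - 40*x^2*z^2*ρ - 96*x^2*z^2 + 3*x*y^3*ρ - 9*x*y^3 + 6*x*y^2*z*ρ - 6*x*y^2*z - 60*x*y*z^2*ρ
      + 36*x*y*z^2 + 72*x*z^3*ρ + 168*x*z^3 + y^4*ρ - 3*y^4 - 2*y^3*z*ρ + 18*y^3*z - 12*y^2*z^2*ρ
      + 12*y^2*z^2 + 40*y*z^3*ρ - 24*y*z^3 - 32*z^4*ρ - 96*z^4, by
    unfold pP pR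
    linear_combination (3*x^4*y - 6*x^4*z + x^3*y^2 - 22*x^3*y*z + 40*x^3*z^2 - 3*x^2*y^3 - 6*x^2*y^2*z + 60*x^2*y*z^2
      - 72*x^2*z^3 - x*y^4 + 2*x*y^3*z + 12*x*y^2*z^2 - 40*x*y*z^3 + 32*x*z^4) * h⟩

theorem id7 (x y z ρ : A) (h : ρ ^ 2 + 3 = 0) : (ρ * x - y + (2 - 2 * ρ) * z) ∣ - pP x y z ρ + (2 - 2 * ρ) * pR x y z ρ :=
  ⟨- 18*x^4 - 9*x^3*y*ρ + 9*x^3*y - 18*x^3*z*ρ + 90*x^3*z - x^2*y^2*ρ + 21*x^2*y^2 + 40*x^2*y*z*ρ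
      + 24*x^2*y*z + 32*x^2*z^2*ρ - 168*x^2*z^2 + 9*x*y^3*ρ - 9*x*y^3 + 18*x*y^2*z*ρ - 42*x*y^2*z
      - 72*x*y*z^2*ρ - 72*x*y*z^2 + 24*x*z^3*ρ + 168*x*z^3 + y^4*ρ - 3*y^4 - 8*y^3*z*ρ + 24*y^3*z
      - 24*y^2*z^2*ρ + 48*y^2*z^2 + 40*y*z^3*ρ + 24*y*z^3 - 32*z^4*ρ - 96*z^4, by
    unfold pP pR
    linear_combination (- 3*x^4*y + 6*x^4*z + x^3*y^2 + 2*x^3*y*z - 8*x^3*z^2 + 3*x^2*y^3 - 24*x^2*z^3 - x*y^4 - 10*x*y^3*z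
      + 32*x*y*z^3 + 32*x*z^4 + 2*y^4*z + 8*y^3*z^2 - 8*y^2*z^3 - 32*y*z^4) * h⟩

theorem id8 (x y z ρ : A) (h : ρ ^ 2 + 3 = 0) : (ρ * x - y + (-ρ - 1) * z) ∣ - pP x y z ρ + (-ρ - 1) * pR x y z ρ :=
  ⟨9*x^4*ρ - 9*x^4 - 6*x^3*y*ρ - 42*x^3*z*ρ + 54*x^3*z - 10*x^2*y^2*ρ + 12*x^2*y^2 + 4*x^2*y*z*ρ
      + 24*x^2*y*z + 68*x^2*z^2*ρ - 132*x^2*z^2 + 6*x*y^3*ρ + 30*x*y^2*z*ρ - 42*x*y^2*z - 12*x*y*z^2*ρ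
      - 108*x*y*z^2 - 24*x*z^3*ρ + 168*x*z^3 + y^4*ρ - 3*y^4 - 8*y^3*z*ρ + 12*y^3*z - 24*y^2*z^2*ρ
      + 48*y^2*z^2 + 40*y*z^3*ρ + 72*y*z^3 - 32*z^4*ρ - 96*z^4, by
    unfold pP pR
    linear_combination (- 9*x^5 + 45*x^4*z + 10*x^3*y^2 + 20*x^3*y*z - 80*x^3*z^2 - 30*x^2*y^2*z - 60*x^2*y*z^2 + 60*x^2*z^3
      - x*y^4 - 4*x*y^3*z + 24*x*y^2*z^2 + 56*x*y*z^3 - 16*x*z^4 + y^4*z + 4*y^3*z^2 - 4*y^2*z^3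
      - 16*y*z^4) * h⟩

theorem idB (x y z ρ : A) (h : ρ ^ 2 + 3 = 0) : z ∣ pR x y z ρ + 3 * pB x y ρ :=
  ⟨6*x^4*ρ - 54*x^4 - 30*x^3*y*ρ - 24*x^3*y - 30*x^3*z*ρ + 150*x^3*z - 10*x^2*y^2*ρ + 48*x^2*y^2
      + 76*x^2*y*z*ρ + 96*x^2*y*z + 32*x^2*z^2*ρ - 240*x^2*z^2 + 18*x*y^3*ρ - 12*x*y^3 + 30*x*y^2*z*ρ
      - 78*x*y^2*z - 108*x*y*z^2*ρ - 108*x*y*z^2 + 24*x*z^3*ρ + 216*x*z^3 - 6*y^4 - 12*y^3*z*ρ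
      + 24*y^3*z - 20*y^2*z^2*ρ + 60*y^2*z^2 + 56*y*z^3*ρ + 24*y*z^3 - 32*z^4*ρ - 96*z^4, by
    unfold pR pB
    linear_combination (3*x^5 - 3*x^3*y^2) * h⟩

end ids

/-- dual certificate: hyperplane, point on it, weight -/
def cert : List (Fin 11 × (Fin 4 → ℤ) × ℤ) :=
  [(2, ![0, 0, 0, 1], 117895500),
    (2, ![0, 0, -1, 0], -60750000),
    (2, ![0, 0, -1, 1], 87480000),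
    (2, ![0, 0, 1, 1], -37980000),
    (2, ![0, 0, -1, 2], -4950000),
    (2, ![0, 0, -2, 1], -14928750),
    (3, ![0, 0, 0, 1], -37989000),
    (3, ![0, -1, -1, 0], -70402500),
    (3, ![0, -1, -1, 1], -20632500),
    (3, ![0, 1, 1, 1], 20527500),
    (3, ![0, -1, -1, 2], 1522500),
    (3, ![0, -2, -2, 1], 1627500),
    (4, ![0, 1, -1, 0], -5953500),
    (4, ![0, 1, -1, -1], -3685500),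
    (4, ![0, -1, 1, -1], 814500),
    (4, ![0, 1, -1, -2], 157500),
    (4, ![0, 2, -2, -1], 362250),
    (5, ![0, 0, -1, 0], 408240000),
    (5, ![0, 2, 0, 1], -1984500),
    (5, ![0, 2, -2, 1], 2835000),
    (5, ![0, -2, -2, -1], -2756250),
    (5, ![0, 2, -4, 1], -78750),
    (5, ![0, 2, -1, 1], -5040000),
    (6, ![0, 0, -2, 1], -2126250),
    (6, ![0, 2, 0, 1], -661500),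
    (6, ![0, 1, -1, 1], 9720000),
    (6, ![0, -1, -1, 0], 14280000),
    (6, ![0, 2, -4, 3], -13125),
    (6, ![0, 4, -2, 3], -26250),
    (7, ![0, 0, -2, -1], -1215000),
    (7, ![0, 1, -1, 0], -13608000),
    (7, ![0, -1, -1, -1], -8568000),
    (7, ![0, 2, -4, -1], 7875),
    (7, ![0, 4, -2, 1], 15750),
    (8, ![0, -1, 0, 2], -7431750),
    (8, ![0, -2, 2, 5], -162000),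
    (8, ![0, 2, 2, -3], -47250),
    (8, ![0, -1, 2, 3], 468000),
    (8, ![0, -4, 2, 9], 10500),
    (9, ![0, 0, -6, 1], -96250),
    (9, ![0, 3, 0, 2], 253750),
    (9, ![0, 6, -6, 5], -3500),
    (9, ![0, 1, -2, 1], -1260000),
    (9, ![0, 4, -2, 3], 52500),
    (10, ![0, 0, -5, 1], 248832),
    (10, ![0, 5, 0, 4], -15336),
    (10, ![0, -5, -5, -3], 10752),
    (10, ![0, 5, -10, 6], 768),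
    (0, ![0, 1, 0, 0], 53865000),
    (1, ![0, 1, 0, 0], -53865000)]

end Pool.Agent.H79.Arr
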