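import Mathlib
import Pool.Agent.H79.Arr3

set_option autoImplicit false

namespace Pool.Agent.H79.Arr

open MvPolynomial CategoryTheory RingTheory.Sequence Pool.Agent.H79.PD
  Pool.Agent.H79.HSyz Pool.Agent.H79.ArrDefs

variable {K : Type} [Field K]

/-- nine lines in the plane, depending on a parameter -/
def A9 {A : Type} [CommRing A] (r : A) : Fin 9 → Fin 3 → A :=
  ![![1, 0, 0], ![1, -1, 0], ![1, 1, 0], ![1, 0, -2], ![1, -1, -2], ![1, 1, -2],
    ![r, -1, 2], ![r, -1, 2 - 2 * r], ![r, -1, -r - 1]]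

/-- the form `w - z` -/
def wz : Fin 4 → K := ![1, 0, 0, -1]

/-- eleven hyperplanes in four-space -/
def C11 (r : K) : Fin 11 → Fin 4 → K := Fin.cons wz (ext (A9 r))

theorem ext_A9 (r : K) : ext (A9 r) = ![![1, 0, 0, 0], ![0, 1, 0, 0], ![0, 1, -1, 0], ![0, 1, 1, 0],
    ![0, 1, 0, -2], ![0, 1, -1, -2], ![0, 1, 1, -2], ![0, r, -1, 2], ![0, r, -1, 2 - 2 * r],
    ![0, r, -1, -r - 1]] := by
  funext j k
  fin_cases j <;> fin_cases k <;> rfl

theorem lf4 (a : Fin 4 → K) :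
    lf a = C (a 0) * X 0 + C (a 1) * X 1 + C (a 2) * X 2 + C (a 3) * X 3 := by
  simp [lf, Fin.sum_univ_four]

theorem dv4 (a : Fin 4 → K) (θ : Fin 4 → PR K 4) :
    dv a θ = C (a 0) * θ 0 + C (a 1) * θ 1 + C (a 2) * θ 2 + C (a 3) * θ 3 := by
  simp [dv_apply, Fin.sum_univ_four]

theorem C_two : (C (2 : K) : PR K 4) = 2 := rfl

theorem mem_I (r : K) (f : PR K 4) : f ∈ addI wz (ext (A9 r)) ↔ ∃ t0 t1 t2 t3 : PR K 4,
    X 0 - X 3 ∣ f - (t0 - t3) ∧ X 0 ∣ t0 ∧ X 1 ∣ t1 ∧ X 1 - X 2 ∣ t1 - t2 ∧ X 1 + X 2 ∣ t1 + t2 ∧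
    X 1 - 2 * X 3 ∣ t1 - 2 * t3 ∧ X 1 - X 2 - 2 * X 3 ∣ t1 - t2 - 2 * t3 ∧
    X 1 + X 2 - 2 * X 3 ∣ t1 + t2 - 2 * t3 ∧
    C r * X 1 - X 2 + 2 * X 3 ∣ C r * t1 - t2 + 2 * t3 ∧
    C r * X 1 - X 2 + (2 - 2 * C r) * X 3 ∣ C r * t1 - t2 + (2 - 2 * C r) * t3 ∧
    C r * X 1 - X 2 + (-C r - 1) * X 3 ∣ C r * t1 - t2 + (-C r - 1) * t3 := by
  have key : ∀ θ : Fin 4 → PR K 4, (f - dv wz θ ∈ Ideal.span {lf (wz : Fin 4 → K)} ∧
      ∀ j, dv (ext (A9 r) j) θ ∈ Ideal.span {lf (ext (A9 r) j)}) ↔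
    (X 0 - X 3 ∣ f - (θ 0 - θ 3) ∧ X 0 ∣ θ 0 ∧ X 1 ∣ θ 1 ∧ X 1 - X 2 ∣ θ 1 - θ 2 ∧
    X 1 + X 2 ∣ θ 1 + θ 2 ∧
    X 1 - 2 * X 3 ∣ θ 1 - 2 * θ 3 ∧ X 1 - X 2 - 2 * X 3 ∣ θ 1 - θ 2 - 2 * θ 3 ∧
    X 1 + X 2 - 2 * X 3 ∣ θ 1 + θ 2 - 2 * θ 3 ∧
    C r * X 1 - X 2 + 2 * X 3 ∣ C r * θ 1 - θ 2 + 2 * θ 3 ∧
    C r * X 1 - X 2 + (2 - 2 * C r) * X 3 ∣ C r * θ 1 - θ 2 + (2 - 2 * C r) * θ 3 ∧
    C r * X 1 - X 2 + (-C r - 1) * X 3 ∣ C r * θ 1 - θ 2 + (-C r - 1) * θ 3) := by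
    intro θ
    simp only [ext_A9, Fin.forall_fin_succ, Ideal.mem_span_singleton, lf4, dv4, IsEmpty.forall_iff]
    simp [wz, C_two, sub_eq_add_neg, dv_apply, Fin.sum_univ_four]
  rw [mem_addI]
  constructor
  · rintro ⟨θ, h⟩
    exact ⟨_, _, _, _, (key θ).1 h⟩
  · rintro ⟨t0, t1, t2, t3, h⟩
    exact ⟨![t0, t1, t2, t3], (key _).2 h⟩

/-- substitution of `g` for one variable -/
noncomputable def sb (i : Fin 4) (g : PR K 4) : PR K 4 →ₐ[K] PR K 4 :=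
  aeval (Function.update X i g)

theorem sb_dvd (i : Fin 4) (g f : PR K 4) : X i - g ∣ f - sb i g f := by
  induction f using MvPolynomial.induction_on with
  | C a => simp [sb]
  | add p q hp hq => rw [map_add]; convert dvd_add hp hq using 1; ring
  | mul_X p k hp =>
    have h1 : X i - g ∣ X k - sb i g (X k) := by
      by_cases hk : k = i
      · subst hk; simp [sb]
      · simp [sb, Function.update_of_ne hk]
    rw [map_mul]
    convert dvd_add (hp.mul_right (X k)) (h1.mul_left (sb i g p)) using 1; ring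

theorem dvd_cancel (i : Fin 4) (g a b : PR K 4) (hg : sb i g g = g) (ha : sb i g a ≠ 0)
    (h : X i - g ∣ a * b) : X i - g ∣ b := by
  obtain ⟨c, hc⟩ := h
  have h1 := congrArg (sb i g) hc
  have h2 : sb i g (X i) = g := by simp [sb]
  rw [map_mul, map_mul, map_sub, hg, h2, sub_self, zero_mul] at h1
  have h3 := sb_dvd i g b
  rwa [(mul_eq_zero.1 h1).resolve_left ha, sub_zero] at h3

theorem ne_of_eval (f : PR K 4) (p : Fin 4 → K) (h : eval p f ≠ 0) : f ≠ 0 := by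
  rintro rfl; simp at h

theorem unit_cancel {c : K} (hc : c ≠ 0) {a b : PR K 4} (h : a ∣ C c * b) : a ∣ b := by
  have := h.mul_left (C c⁻¹)
  rwa [← mul_assoc, ← C_mul, inv_mul_cancel₀ hc, C_1, one_mul] at this

/-- setting `w` and `z` to zero -/
noncomputable def kap : PR K 4 →ₐ[K] PR K 4 := (sb 0 0).comp (sb 3 0)

theorem kap0 : kap (X 0 : PR K 4) = 0 := by simp [kap, sb]
theorem kap1 : kap (X 1 : PR K 4) = X 1 := by simp [kap, sb]
theorem kap2 : kap (X 2 : PR K 4) = X 2 := by simp [kap, sb]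
theorem kap3 : kap (X 3 : PR K 4) = 0 := by simp [kap, sb]
theorem kapC (c : K) : kap (C c : PR K 4) = C c := by simp

theorem sub_kap (f : PR K 4) : ∃ a b, f = kap f + a * X 0 + b * X 3 := by
  obtain ⟨b, hb⟩ := sb_dvd 3 0 f
  obtain ⟨a, ha⟩ := sb_dvd 0 0 (sb 3 0 f)
  exact ⟨a, b, by change f = sb 0 0 (sb 3 0 f) + _ + _; linear_combination ha + hb⟩

theorem pencil2 [CharZero K] {l t s : PR K 4} (hl : kap l = l) (h1 : l ∣ s)
    (h2 : l - 2 * X 3 ∣ s - 2 * t) : l ∣ kap t := by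
  have a1 := map_dvd kap h1
  have a2 := map_dvd kap h2
  simp only [map_sub, map_mul, kap3, hl, mul_zero, sub_zero, map_ofNat] at a1 a2
  refine unit_cancel (c := 2) two_ne_zero ?_
  convert dvd_sub a1 a2 using 1
  rw [C_two]; ring

theorem pencil3 {l t s : PR K 4} (hl : kap l = l) (hl3 : sb 3 0 l ≠ 0) (c1 c2 c3 : K)
    (h12 : c1 - c2 ≠ 0) (h23 : c2 - c3 ≠ 0) (h31 : c3 - c1 ≠ 0)
    (h1 : l + C c1 * X 3 ∣ s + C c1 * t) (h2 : l + C c2 * X 3 ∣ s + C c2 * t)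
    (h3 : l + C c3 * X 3 ∣ s + C c3 * t) : l ^ 2 ∣ kap t := by
  obtain ⟨f1, h1⟩ := h1
  obtain ⟨f2, h2⟩ := h2
  obtain ⟨f3, h3⟩ := h3
  have e1 : l * ((C c2 - C c3) * f1 + (C c3 - C c1) * f2 + (C c1 - C c2) * f3) =
      (X 3 - 0) * -((C c2 - C c3) * C c1 * f1 + (C c3 - C c1) * C c2 * f2 +
        (C c1 - C c2) * C c3 * f3) := by
    linear_combination -(C c2 - C c3) * h1 - (C c3 - C c1) * h2 - (C c1 - C c2) * h3
  obtain ⟨G, hG⟩ := dvd_cancel 3 0 l _ (map_zero _) hl3 ⟨_, e1⟩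
  have e2 : l * G = -((C c2 - C c3) * C c1 * f1 + (C c3 - C c1) * C c2 * f2 +
      (C c1 - C c2) * C c3 * f3) := by
    refine mul_left_cancel₀ (X_ne_zero (3 : Fin 4)) ?_
    linear_combination e1 - l * hG
  have k1 := congrArg kap h1
  have k2 := congrArg kap h2
  have k3 := congrArg kap hG
  have k4 := congrArg kap e2
  simp only [map_add, map_mul, map_sub, map_neg, kapC, kap3, hl, map_zero] at k1 k2 k3 k4
  refine unit_cancel (mul_ne_zero h12 (mul_ne_zero h23 h31)) ⟨kap G, ?_⟩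
  simp only [C_mul, C_sub]
  linear_combination (C c2 - C c3) * (C c3 - C c1) * (k1 - k2) - l * k4 + l * C c3 * k3

theorem I_le [CharZero K] (r : K) (hr : r ^ 2 + 3 = 0) (f : PR K 4)
    (hf : f ∈ addI wz (ext (A9 r))) :
    ∃ a b c, f = a * X 0 + b * X 3 + c * pB (X 1) (X 2) (C r) := by
  obtain ⟨t0, t1, t2, t3, ⟨g, hg⟩, ⟨g0, h0⟩, h1, h2, h3, h4, h5, h6, h7, h8, h9⟩ :=
    (mem_I r f).1 hf
  have r0 : r ≠ 0 := by rintro rfl; norm_num at hr
  have r1 : r - 1 ≠ 0 := fun h => by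
    rw [show r = 1 by linear_combination h] at hr; norm_num at hr
  have r2 : r + 1 ≠ 0 := fun h => by
    rw [show r = -1 by linear_combination h] at hr; norm_num at hr
  have r3 : r - 3 ≠ 0 := fun h => by
    rw [show r = 3 by linear_combination h] at hr; norm_num at hr
  have r4 : r + 3 ≠ 0 := fun h => by
    rw [show r = -3 by linear_combination h] at hr; norm_num at hr
  have a1 := pencil2 kap1 h1 h4
  have a2 := pencil2 (by rw [map_sub, kap1, kap2]) h2 h5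
  have a3 := pencil2 (by rw [map_add, kap1, kap2]) h3 h6
  have a4 := pencil3 (l := C r * X 1 - X 2) (s := C r * t1 - t2) (t := t3)
    (by rw [map_sub, map_mul, kapC, kap1, kap2])
    (ne_of_eval _ ![0, 0, 1, 0] (by simp [sb])) 2 (2 - 2 * r) (-r - 1)
    (by intro h; apply r0; linear_combination (1 / 2 : K) * h)
    (by intro h; apply r3; linear_combination -h) (by intro h; apply r4; linear_combination -h)
    h7 (by simpa [C_two] using h8) (by simpa using h9)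
  obtain ⟨g1, hg1⟩ := a1
  obtain ⟨g2, hg2⟩ := dvd_cancel 2 (X 1) (X 1) g1 (by simp [sb]) (by simp [sb])
    (by rw [← hg1, ← neg_dvd]; simpa using a2)
  obtain ⟨g3, hg3⟩ := dvd_cancel 2 (-X 1) (X 1 * (X 2 - X 1)) g2 (by simp [sb])
    (ne_of_eval _ ![0, 1, 0, 0] (by simp [sb]; norm_num))
    (by rw [mul_assoc, ← hg2, ← hg1, sub_neg_eq_add, add_comm]; exact a3)
  have hne : sb 2 (C r * X 1) (X 1 * (X 2 - X 1) * (X 2 - -X 1)) ≠ (0 : PR K 4) :=
    ne_of_eval _ ![0, 1, 0, 0] (by simp [sb, r1, r2])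
  have hk : kap t3 = X 1 * (X 2 - X 1) * (X 2 - -X 1) * g3 := by rw [hg1, hg2, hg3]; ring
  have a5 : (X 2 - C r * X 1) * (X 2 - C r * X 1) ∣ kap t3 := by
    convert a4 using 1; ring
  obtain ⟨g4, hg4⟩ := dvd_cancel 2 (C r * X 1) _ g3 (by simp [sb]) hne
    (by rw [← hk]; exact (dvd_mul_right _ _).trans a5)
  obtain ⟨g5, hg5⟩ := dvd_cancel 2 (C r * X 1) _ g4 (by simp [sb]) hne (by
    have hp : (X 2 - C r * X 1 : PR K 4) ≠ 0 := ne_of_eval _ ![0, 0, 1, 0] (by simp)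
    rw [← mul_dvd_mul_iff_left hp]
    convert a5 using 1
    rw [hk, hg4]; ring)
  obtain ⟨a, b, hab⟩ := sub_kap t3
  refine ⟨g + g0 - a, -g - b, g5, ?_⟩
  rw [hk, hg4, hg5] at hab
  unfold pB
  linear_combination hg + h0 - hab

theorem w_mem (r : K) : X 0 ∈ addI wz (ext (A9 r)) :=
  (mem_I r _).2 ⟨X 0, 0, 0, 0, by simp⟩

theorem z_mem (r : K) : X 3 ∈ addI wz (ext (A9 r)) := by
  refine (mem_I r _).2 ⟨0, -X 1, -X 2, -X 3, by simp, by simp, by simp, ?_, ?_, ?_, ?_, ?_, ?_,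
    ?_, ?_⟩ <;> exact ⟨-1, by ring⟩

theorem B_mem [CharZero K] (r : K) (hr : r ^ 2 + 3 = 0) :
    pB (X 1) (X 2) (C r) ∈ addI wz (ext (A9 r)) := by
  have h : (C r : PR K 4) ^ 2 + 3 = 0 := by
    have := congrArg (C : K → PR K 4) hr
    simpa [map_ofNat] using this
  have h1 : -pR (X 1) (X 2) (X 3) (C r) ∈ addI wz (ext (A9 r)) :=
    (mem_I r _).2 ⟨0, 0, pP (X 1) (X 2) (X 3) (C r), pR (X 1) (X 2) (X 3) (C r), by simp, by simp,
      by simp, by simpa using id1 _ _ _ _ h, by simpa using id2 _ _ _ _ h,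
      by simpa using id3 _ _ _ _ h, by simpa using id4 _ _ _ _ h, by simpa using id5 _ _ _ _ h,
      by simpa using id6 _ _ _ _ h, by simpa using id7 _ _ _ _ h, by simpa using id8 _ _ _ _ h⟩
  obtain ⟨c, hc⟩ := idB (X 1) (X 2) (X 3) (C r : PR K 4) h
  have h2 := Ideal.mul_mem_left _ (C (3 : K)⁻¹) (add_mem h1 (Ideal.mul_mem_right c _ (z_mem r)))
  have h3 : (C (3 : K)⁻¹ : PR K 4) * 3 = 1 := by
    rw [← map_ofNat C 3, ← C_mul, inv_mul_cancel₀ (by norm_num), C_1]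
  convert h2 using 1
  linear_combination C (3 : K)⁻¹ * hc - pB (X 1) (X 2) (C r) * h3

theorem colon_prime {R : Type} [CommRing R] (P : Ideal R) (hP : P.IsPrime) (u : R) (hu : u ∉ P)
    (r : R) : r ∈ P ↔ r * u ∈ P :=
  ⟨fun h => P.mul_mem_right _ h, fun h => (hP.mem_or_mem h).resolve_right hu⟩

theorem notMem_of_eval (s : Set (PR K 4)) (f : PR K 4) (p : Fin 4 → K) (h : eval p f ≠ 0)
    (hs : ∀ g ∈ s, eval p g = 0) : f ∉ Ideal.span s := fun hf =>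
  h ((Ideal.span_le (I := RingHom.ker (eval p))).2 hs hf)

theorem special_MM [CharZero K] (r : K) (hr : r ^ 2 + 3 = 0) :
    PdLT (PR K 4) (MM (C11 r)) 4 ∧ ¬ PdLT (PR K 4) (MM (C11 r)) 3 := by
  have r0 : r ≠ 0 := by rintro rfl; norm_num at hr
  have p1 : (Ideal.span {(X 0 : PR K 4)}).IsPrime := by
    simpa using Depth.varIdeal_prime (K := K) ({0} : Set (Fin 4))
  have p2 : (Ideal.span {(X 0 : PR K 4), X 3}).IsPrime := by
    simpa [Set.image_insert_eq] using Depth.varIdeal_prime (K := K) ({0, 3} : Set (Fin 4))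
  have c0 := colon_prime (⊥ : Ideal (PR K 4)) Ideal.isPrime_bot (X 0) (by simp)
  have c1 := colon_prime _ p1 (X 3) (notMem_of_eval _ _ ![0, 0, 0, 1] (by simp) (by simp))
  have c2 := colon_prime _ p2 (pB (X 1) (X 2) (C r))
    (notMem_of_eval _ _ ![0, 1, 0, 0] (by simp [pB, r0]) (by simp))
  constructor
  · refine pd_add _ _ _ ?_ (pd_ext _ 3 (hilbert K 3 _))
    refine pd_nzd _ _ _ c2 ?_ 3 (pd_nzd _ _ _ c1 (Ideal.span_insert _ _) 2
      (pd_nzd _ _ _ c0 (by simp) 1 (pd_bot _ rfl)))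
    apply le_antisymm
    · intro f hf
      obtain ⟨a, b, c, rfl⟩ := I_le r hr f hf
      exact Submodule.add_mem_sup (Ideal.mem_span_pair.2 ⟨a, b, rfl⟩)
        (Ideal.mem_span_singleton'.2 ⟨c, rfl⟩)
    · refine sup_le (Ideal.span_le.2 ?_) (Ideal.span_le.2 ?_)
      · rintro _ (rfl | rfl)
        exacts [w_mem r, z_mem r]
      · rintro _ rfl
        exact B_mem r hr
  · refine not_pd_of_killed [X 0, X 3, pB (X 1) (X 2) (C r)] (weaklyRegular_of_colon _ ?_)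
      (Submodule.Quotient.mk (Pi.single 0 1)) ?_ ?_
    · intro i hi a
      have hi' : i < 3 := hi
      interval_cases i
      · simp
      · simpa [mul_comm, Ideal.ofList] using (c1 a).2
      · have : Ideal.ofList [(X 0 : PR K 4), X 3] = Ideal.span {X 0, X 3} := by
          unfold Ideal.ofList; congr 1; ext; simp
        simpa [mul_comm, this] using (c2 a).2
    · intro h
      obtain ⟨a, b, c, h1⟩ := I_le r hr 1 ((Submodule.Quotient.mk_eq_zero (Nv (C11 r))).1 h)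
      simpa [pB] using congrArg (eval (0 : Fin 4 → K)) h1
    · intro u hu
      rw [← Submodule.Quotient.mk_smul, Submodule.Quotient.mk_eq_zero, ← Pi.single_smul,
        smul_eq_mul, mul_one]
      simp only [List.mem_cons, List.not_mem_nil, or_false] at hu
      rcases hu with rfl | rfl | rfl
      exacts [w_mem r, z_mem r, B_mem r hr]

end Pool.Agent.H79.Arr
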