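import Mathlib
import Pool.Agent.H79.Arr4

set_option autoImplicit false

namespace Pool.Agent.H79.Arr

open MvPolynomial CategoryTheory RingTheory.Sequence Pool.Agent.H79.PD
  Pool.Agent.H79.HSyz Pool.Agent.H79.ArrDefs

variable {K : Type} [Field K]

theorem sb_mem (r : K) (f : PR K 4) (hf : f ∈ addI wz (ext (A9 r))) :
    sb 3 0 f ∈ addI wz (ext (A9 r)) := by
  obtain ⟨c, hc⟩ := sb_dvd 3 0 f
  have := sub_mem hf (Ideal.mul_mem_right c _ (z_mem r))
  convert this using 1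
  linear_combination -hc

theorem Bl_mem (r : K) :
    pB (X 1) (X 2) (C r) * (C r * X 1 - X 2) ∈ addI wz (ext (A9 r)) := by
  have h : (X 1 - 2 * X 3) * (X 1 - X 2 - 2 * X 3) * (X 1 + X 2 - 2 * X 3) *
      (C r * X 1 - X 2 + 2 * X 3) * (C r * X 1 - X 2 + (2 - 2 * C r) * X 3) *
      (C r * X 1 - X 2 + (-C r - 1) * X 3) ∈ addI wz (ext (A9 r)) := by
    set a := (X 1 - 2 * X 3 : PR K 4)
    set b := (X 1 - X 2 - 2 * X 3 : PR K 4)
    set c := (X 1 + X 2 - 2 * X 3 : PR K 4)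
    set d := (C r * X 1 - X 2 + 2 * X 3 : PR K 4)
    set e := (C r * X 1 - X 2 + (2 - 2 * C r) * X 3 : PR K 4)
    set f := (C r * X 1 - X 2 + (-C r - 1) * X 3 : PR K 4)
    exact (mem_I r _).2 ⟨0, 0, 0, -(a * b * c * d * e * f), by simp, by simp, by simp, by simp,
      by simp, ⟨2 * (b * c * d * e * f), by ring⟩, ⟨2 * (a * c * d * e * f), by ring⟩,
      ⟨2 * (a * b * d * e * f), by ring⟩, ⟨-2 * (a * b * c * e * f), by ring⟩,
      ⟨-(2 - 2 * C r) * (a * b * c * d * f), by ring⟩,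
      ⟨-(-C r - 1) * (a * b * c * d * e), by ring⟩⟩
  have h2 := sb_mem r _ h
  simp only [map_mul, map_sub, map_add, map_neg, map_one, map_ofNat, algHom_C, algebraMap_eq,
    show sb 3 0 (X 1 : PR K 4) = X 1 by simp [sb], show sb 3 0 (X 2 : PR K 4) = X 2 by simp [sb],
    show sb 3 0 (X 3 : PR K 4) = 0 by simp [sb]] at h2
  convert h2 using 1
  unfold pB
  ring

theorem Bm_mem (r : K) : pB (X 1) (X 2) (C r) * (X 1 - X 2) ∈ addI wz (ext (A9 r)) := by
  have h : (X 1 - X 2) * (X 1 + X 2) * (X 1 - 2 * X 3) * (X 1 - X 2 - 2 * X 3) *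
      (C r * X 1 - X 2 + (2 - 2 * C r) * X 3) *
      (C r * X 1 - X 2 + (-C r - 1) * X 3) ∈ addI wz (ext (A9 r)) := by
    set a := (X 1 - X 2 : PR K 4)
    set b := (X 1 + X 2 : PR K 4)
    set c := (X 1 - 2 * X 3 : PR K 4)
    set d := (a - 2 * X 3 : PR K 4)
    set e := (C r * X 1 - X 2 + (2 - 2 * C r) * X 3 : PR K 4)
    set f := (C r * X 1 - X 2 + (-C r - 1) * X 3 : PR K 4)
    exact (mem_I r _).2 ⟨0, 0, -2 * (a * b * c * d * e * f), -(a * b * c * d * e * f), by simp,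
      by simp, by simp, ⟨2 * (b * c * d * e * f), by ring⟩, ⟨-2 * (a * c * d * e * f), by ring⟩,
      ⟨2 * (a * b * d * e * f), by ring⟩, ⟨4 * (a * b * c * e * f), by ring⟩, ⟨0, by ring⟩,
      ⟨0, by ring⟩, ⟨2 * C r * (a * b * c * d * f), by ring⟩,
      ⟨(3 + C r) * (a * b * c * d * e), by ring⟩⟩
  convert sb_mem r _ h using 1
  simp [sb, pB]
  ring

theorem B_killed [CharZero K] (k : Fin 4) :
    X k * pB (X 1) (X 2) (C (4 : K)) ∈ addI wz (ext (A9 (4 : K))) := by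
  have h3 : (C (3 : K)⁻¹ : PR K 4) * 3 = 1 := by
    rw [← map_ofNat C 3, ← C_mul, inv_mul_cancel₀ (by norm_num), C_1]
  have h4 : (C (4 : K) : PR K 4) = 4 := rfl
  have hx : X 1 * pB (X 1) (X 2) (C (4 : K)) ∈ addI wz (ext (A9 (4 : K))) := by
    have := Ideal.mul_mem_left _ (C (3 : K)⁻¹) (sub_mem (Bl_mem (4 : K)) (Bm_mem 4))
    convert this using 1
    rw [h4]
    linear_combination -X 1 * pB (X 1) (X 2) 4 * h3
  fin_cases k
  · exact Ideal.mul_mem_right _ _ (w_mem _)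
  · exact hx
  · have := sub_mem hx (Bm_mem (4 : K))
    convert this using 1
    simp only [Fin.reduceFinMk]
    ring
  · exact Ideal.mul_mem_right _ _ (z_mem _)

/-- degree five part evaluated at a point -/
noncomputable def ev5 (q : Fin 4 → K) : PR K 4 →ₗ[K] K :=
  Polynomial.lcoeff K 5 ∘ₗ (aeval fun k => Polynomial.C (q k) * Polynomial.X).toLinearMap

theorem ev5_apply (q : Fin 4 → K) (f : PR K 4) :
    ev5 q f = (aeval (fun k => Polynomial.C (q k) * Polynomial.X) f).coeff 5 := rfl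

theorem ev5_lf (q a : Fin 4 → K) (h : ∑ k, a k * q k = 0) (g : PR K 4) : ev5 q (g * lf a) = 0 := by
  have : aeval (fun k => Polynomial.C (q k) * Polynomial.X) (lf a) = 0 := by
    have h2 := congrArg (fun c => Polynomial.C c * Polynomial.X) h
    simp only [map_sum, map_mul, Finset.sum_mul, map_zero, zero_mul, mul_assoc] at h2
    simpa [lf] using h2
  rw [ev5_apply, map_mul, this, mul_zero, Polynomial.coeff_zero]

theorem ev5_monomial (q : Fin 4 → K) (e : Fin 4 →₀ ℕ) (c : K) : ev5 q (monomial e c) =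
    if e 0 + e 1 + e 2 + e 3 = 5 then c * (q 0 ^ e 0 * q 1 ^ e 1 * q 2 ^ e 2 * q 3 ^ e 3)
    else 0 := by
  rw [ev5_apply, aeval_monomial, Finsupp.prod_fintype _ _ (by simp), Fin.prod_univ_four]
  have : algebraMap K (Polynomial K) c * ((Polynomial.C (q 0) * Polynomial.X) ^ e 0 *
      (Polynomial.C (q 1) * Polynomial.X) ^ e 1 * (Polynomial.C (q 2) * Polynomial.X) ^ e 2 *
      (Polynomial.C (q 3) * Polynomial.X) ^ e 3) =
      Polynomial.C (c * (q 0 ^ e 0 * q 1 ^ e 1 * q 2 ^ e 2 * q 3 ^ e 3)) *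
        Polynomial.X ^ (e 0 + e 1 + e 2 + e 3) := by
    simp only [map_mul, map_pow, Polynomial.algebraMap_apply, Algebra.algebraMap_self,
      RingHom.id_apply]
    ring
  rw [this, Polynomial.coeff_C_mul_X_pow]
  simp only [eq_comm]

theorem ev5_B (q : Fin 4 → K) (r : K) : ev5 q (pB (X 1) (X 2) (C r)) = pB (q 1) (q 2) r := by
  have : aeval (fun k => Polynomial.C (q k) * Polynomial.X) (pB (X 1) (X 2) (C r) : PR K 4) =
      Polynomial.C (pB (q 1) (q 2) r) * Polynomial.X ^ 5 := by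
    simp [pB]; ring
  rw [ev5_apply, this, Polynomial.coeff_C_mul_X_pow, if_pos rfl]

/-- coefficient matrix over any commutative ring -/
def CZ {A : Type} [CommRing A] (r : A) : Fin 11 → Fin 4 → A :=
  ![![1, 0, 0, -1], ![1, 0, 0, 0], ![0, 1, 0, 0], ![0, 1, -1, 0], ![0, 1, 1, 0],
    ![0, 1, 0, -2], ![0, 1, -1, -2], ![0, 1, 1, -2], ![0, r, -1, 2], ![0, r, -1, 2 - 2 * r],
    ![0, r, -1, -r - 1]]

theorem C11_eq {A : Type} [CommRing A] (φ : A →+* K) (r : A) (j : Fin 11) (k : Fin 4) :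
    C11 (φ r) j k = φ (CZ r j k) := by
  have : C11 (φ r) = CZ (φ r) := by
    funext j k
    fin_cases j <;> fin_cases k <;> rfl
  rw [this]
  fin_cases j <;> fin_cases k <;> simp [CZ, map_ofNat]

theorem cert_on : ∀ t ∈ cert, ∑ k, CZ (4 : ℤ) t.1 k * t.2.1 k = 0 := by decide +kernel

theorem cert_zero : ∀ k : Fin 4, ∀ a < 6, ∀ b < 6, ∀ c < 6, ∀ d < 6, a + b + c + d = 5 →
    (cert.map fun t => t.2.2 * CZ (4 : ℤ) t.1 k *
      (t.2.1 0 ^ a * t.2.1 1 ^ b * t.2.1 2 ^ c * t.2.1 3 ^ d)).sum = 0 := by decide +kernel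

theorem cert_ne : (cert.map fun t => t.2.2 *
    if t.1 = 0 then pB (t.2.1 1) (t.2.1 2) (4 : ℤ) else 0).sum ≠ 0 := by decide +kernel

theorem list_key (α : Fin 11 → Fin 4 → ℤ) (θ : Fin 4 → PR K 4) (v : Fin 11 → PR K 4)
    (hv : ∀ j, v j - dv (fun k => (α j k : K)) θ ∈ Ideal.span {lf fun k => (α j k : K)})
    (L : List (Fin 11 × (Fin 4 → ℤ) × ℤ)) (hL : ∀ t ∈ L, ∑ k, α t.1 k * t.2.1 k = 0) :
    (L.map fun t => (t.2.2 : K) * ev5 (fun k => (t.2.1 k : K)) (v t.1)).sum =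
      ∑ k, (L.map fun t => ((t.2.2 * α t.1 k : ℤ) : K) *
        ev5 (fun k => (t.2.1 k : K)) (θ k)).sum := by
  induction L with
  | nil => simp
  | cons t L ih =>
    simp only [List.map_cons, List.sum_cons, Finset.sum_add_distrib]
    rw [ih fun s hs => hL s (List.mem_cons_of_mem _ hs)]
    congr 1
    obtain ⟨g, hg⟩ := Ideal.mem_span_singleton'.1 (hv t.1)
    have h1 := ev5_lf (fun k => (t.2.1 k : K)) (fun k => (α t.1 k : K))
      (by exact_mod_cast congrArg (Int.cast : ℤ → K) (hL t List.mem_cons_self)) g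
    rw [hg, map_sub, sub_eq_zero, dv_apply, map_sum] at h1
    rw [h1, Finset.mul_sum]
    refine Finset.sum_congr rfl fun k _ => ?_
    rw [C_mul', map_smul, smul_eq_mul]
    push_cast; ring

theorem lam_zero (k : Fin 4) (f : PR K 4) :
    (cert.map fun t => ((t.2.2 * CZ (4 : ℤ) t.1 k : ℤ) : K) *
      ev5 (fun k => (t.2.1 k : K)) f).sum = 0 := by
  induction f using MvPolynomial.induction_on' with
  | add p q hp hq => simp only [map_add, mul_add, List.sum_map_add, hp, hq, add_zero]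
  | monomial e c =>
    simp only [ev5_monomial]
    split_ifs with h
    · have h1 := congrArg (fun z : ℤ => c * (z : K))
        (cert_zero k (e 0) (by omega) (e 1) (by omega) (e 2) (by omega) (e 3) (by omega) h)
      simp only [Int.cast_list_sum, List.map_map, Int.cast_zero, mul_zero,
        ← List.sum_map_mul_left] at h1
      rw [← h1]
      congr 1
      refine List.map_congr_left fun t _ => ?_
      simp only [Function.comp]
      push_cast; ring
    · simp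

theorem B_notMem [CharZero K] :
    (Pi.single 0 (pB (X 1) (X 2) (C (4 : K))) : Fin 11 → PR K 4) ∉ Nv (C11 (4 : K)) := by
  rintro ⟨θ, h⟩
  have hC : C11 (4 : K) = fun j k => ((CZ (4 : ℤ) j k : ℤ) : K) := by
    funext j k
    simpa using C11_eq (Int.castRingHom K) 4 j k
  rw [hC] at h
  have h1 := list_key (CZ (4 : ℤ)) θ _ h cert cert_on
  rw [Finset.sum_eq_zero fun k _ => lam_zero k (θ k)] at h1
  apply cert_ne
  apply Int.cast_injective (α := K)
  rw [Int.cast_zero, ← h1, Int.cast_list_sum, List.map_map]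
  congr 1
  refine List.map_congr_left fun t _ => ?_
  simp only [Function.comp, Int.cast_mul]
  congr 1
  split_ifs with h0
  · rw [h0, Pi.single_eq_same, ev5_B]; simp [pB]
  · rw [Pi.single_eq_of_ne h0]; simp

theorem B_smul_mem [CharZero K] (k : Fin 4) : (X k : PR K 4) •
    (Pi.single 0 (pB (X 1) (X 2) (C (4 : K))) : Fin 11 → PR K 4) ∈ Nv (C11 (4 : K)) := by
  rw [← Pi.single_smul, smul_eq_mul]
  exact B_killed k

theorem generic_MM [CharZero K] :
    PdLT (PR K 4) (MM (C11 (4 : K))) 5 ∧ ¬ PdLT (PR K 4) (MM (C11 (4 : K))) 4 := by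
  refine ⟨hilbert K 4 _, not_pd_of_killed ((List.finRange 4).map X)
    (Mono.weaklyRegular_X _ (List.nodup_finRange 4))
    (Submodule.Quotient.mk (Pi.single 0 (pB (X 1) (X 2) (C (4 : K))))) ?_ ?_⟩
  · exact fun h => B_notMem ((Submodule.Quotient.mk_eq_zero _).1 h)
  · intro u hu
    obtain ⟨k, -, rfl⟩ := List.mem_map.1 hu
    rw [← Submodule.Quotient.mk_smul, Submodule.Quotient.mk_eq_zero]
    exact B_smul_mem k

/-- explicit determinant -/
def d4 {A : Type} [CommRing A] (a b c d : Fin 4 → A) : A :=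
  (a 0 * b 1 - a 1 * b 0) * (c 2 * d 3 - c 3 * d 2) - (a 0 * b 2 - a 2 * b 0) * (c 1 * d 3 - c 3 * d 1)
  + (a 0 * b 3 - a 3 * b 0) * (c 1 * d 2 - c 2 * d 1)
  + (a 1 * b 2 - a 2 * b 1) * (c 0 * d 3 - c 3 * d 0)
  - (a 1 * b 3 - a 3 * b 1) * (c 0 * d 2 - c 2 * d 0)
  + (a 2 * b 3 - a 3 * b 2) * (c 0 * d 1 - c 1 * d 0)

theorem det_eq_d4 {A : Type} [CommRing A] (M : Fin 4 → Fin 4 → A) :
    (Matrix.of M).det = d4 (M 0) (M 1) (M 2) (M 3) := by
  simp [Matrix.det_succ_row_zero, Fin.sum_univ_succ, d4, Fin.succAbove]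
  ring

theorem det_map {A : Type} [CommRing A] (φ : A →+* K) (hφ : Function.Injective φ) (r : A)
    (g : Fin 4 → Fin 11) : (Matrix.of fun i => C11 (φ r) (g i)).det = 0 ↔
      d4 (CZ r (g 0)) (CZ r (g 1)) (CZ r (g 2)) (CZ r (g 3)) = 0 := by
  rw [det_eq_d4, ← map_eq_zero_iff φ hφ]
  simp [d4, C11_eq]

theorem det_check : ∀ i j k l : Fin 11,
    d4 (CZ (Zsqrtd.sqrtd : ℤ√(-3)) i) (CZ Zsqrtd.sqrtd j) (CZ Zsqrtd.sqrtd k)
      (CZ Zsqrtd.sqrtd l) = 0 ↔ d4 (CZ (4 : ℤ) i) (CZ 4 j) (CZ 4 k) (CZ 4 l) = 0 := by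
  decide +kernel

theorem span_top [CharZero K] (r : K) : ⊤ ≤ Submodule.span K (Set.range (C11 r)) := by
  intro p _
  have : p = (-p 3) • C11 r 0 + (p 0 + p 3) • C11 r 1 + (p 1 + p 2) • C11 r 2 +
      (-p 2) • C11 r 3 := by
    funext k
    simp only [Pi.add_apply, Pi.smul_apply, smul_eq_mul,
      show ∀ j k, C11 r j k = CZ r j k from C11_eq (RingHom.id K) r]
    fin_cases k <;> simp [CZ]
  rw [this]
  refine add_mem (add_mem (add_mem ?_ ?_) ?_) ?_ <;>
    exact Submodule.smul_mem _ _ (Submodule.subset_span ⟨_, rfl⟩)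

theorem sameInc [CharZero K] (r : K) (hr : r ^ 2 + 3 = 0) : SameInc (C11 r) (C11 (4 : K)) := by
  refine sameInc_of_det (span_top _) (span_top _) fun g => ?_
  let r' : {r : K // r * r = ((-3 : ℤ) : K)} := ⟨r, by push_cast; linear_combination hr⟩
  have h1 := det_map (Zsqrtd.lift r') (Zsqrtd.lift_injective r' fun n h => by nlinarith)
    Zsqrtd.sqrtd g
  have h2 := det_map (Int.castRingHom K) Int.cast_injective 4 g
  have e1 : Zsqrtd.lift r' Zsqrtd.sqrtd = r := by simp [r']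
  have e2 : Int.castRingHom K 4 = 4 := by simp
  rw [e1] at h1
  rw [e2] at h2
  rw [h1, h2]
  exact det_check _ _ _ _

theorem sep_check : ∀ i j : Fin 11, i ≠ j → ∃ a b : Fin 4,
    CZ (4 : ℤ) i a * CZ 4 j b ≠ CZ 4 i b * CZ 4 j a := by decide +kernel

theorem isArr_four [CharZero K] : IsArrangement (C11 (4 : K)) := by
  have hC : ∀ j k, C11 (4 : K) j k = ((CZ (4 : ℤ) j k : ℤ) : K) := fun j k => by
    simpa using C11_eq (Int.castRingHom K) 4 j k
  have key : ∀ i j, i ≠ j → ¬ hyper (C11 (4 : K) i) ≤ hyper (C11 (4 : K) j) := by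
    intro i j hij h
    obtain ⟨a, b, hab⟩ := sep_check i j hij
    have h1 := (le_hyper_iff (C11 (4 : K)) {i} (C11 4 j)).1 (by simpa using h)
    rw [Set.image_singleton, Submodule.mem_span_singleton] at h1
    obtain ⟨c, hc⟩ := h1
    apply hab
    apply Int.cast_injective (α := K)
    push_cast
    rw [← hC, ← hC, ← hC, ← hC, ← hc]
    simp only [Pi.smul_apply, smul_eq_mul]; ring
  constructor
  · intro j hj
    obtain ⟨i, hi⟩ := exists_ne j
    refine key i j hi fun p _ => ?_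
    rw [hj, mem_hyper]; simp
  · intro i j h
    by_contra hij
    exact key i j hij (le_of_eq h)

theorem exists_root : ∃ r : ℂ, r ^ 2 + 3 = 0 := by
  refine ⟨(Real.sqrt 3 : ℝ) * Complex.I, ?_⟩
  rw [mul_pow, Complex.I_sq, ← Complex.ofReal_pow, Real.sq_sqrt (by norm_num)]
  simp

end Pool.Agent.H79.Arr
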