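import Mathlib

set_option autoImplicit false

namespace Pool.Agent.H79.Asym

/-- multiplicity of the base semigroup -/
def aa (n : ℤ) : ℤ := 4*n^2+4*n+2
def uu (n : ℤ) : ℤ := 2*n+1
def vv (n : ℤ) : ℤ := 2*n-1
def FF (n : ℤ) : ℤ := (3*n-1) * aa n + 3*n * uu n + (n-1) * vv n
def dd (n : ℤ) : ℤ := 4*n^3+12*n^2+10*n+1
def f1 (n : ℤ) : ℤ := n * aa n + (n+1) * uu n + n * vv n
def f2 (n : ℤ) : ℤ := (2*n-1) * aa n + 2*n * vv n

/-- `s` is a sum of at least `c` generators of the base semigroup -/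
def InS (n c s : ℤ) : Prop :=
  ∃ k i l : ℤ, c ≤ k ∧ 0 ≤ i ∧ i ≤ k ∧ 0 ≤ l ∧ l ≤ k ∧ s = k * aa n + i * uu n + l * vv n

def DD (n i l : ℤ) : Prop :=
  (0 ≤ l ∧ l ≤ n-1 ∧ 0 ≤ i - l ∧ i - l ≤ 2*n+1) ∨
  (0 ≤ i ∧ i ≤ n+1 ∧ 0 ≤ l - i ∧ l - i ≤ 2*n-1) ∨ (i = n+1 ∧ l = n) ∨ (i = 0 ∧ l = 2*n)

lemma mk1 {n i l : ℤ} (h1 : 0 ≤ l) (h2 : l ≤ n-1) (h3 : 0 ≤ i - l) (h4 : i - l ≤ 2*n+1) :
    DD n i l := Or.inl ⟨h1, h2, h3, h4⟩
lemma mk2 {n i l : ℤ} (h1 : 0 ≤ i) (h2 : i ≤ n+1) (h3 : 0 ≤ l - i) (h4 : l - i ≤ 2*n-1) :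
    DD n i l := Or.inr (Or.inl ⟨h1, h2, h3, h4⟩)
lemma mk3 {n i l : ℤ} (h1 : i = n+1) (h2 : l = n) : DD n i l := Or.inr (Or.inr (Or.inl ⟨h1, h2⟩))
lemma mk4 {n i l : ℤ} (h1 : i = 0) (h2 : l = 2*n) : DD n i l := Or.inr (Or.inr (Or.inr ⟨h1, h2⟩))

lemma stepU {n i l : ℤ} (hn : 2 ≤ n) (h : DD n i l) :
    DD n (i+1) l ∨ DD n (i+1-(2*n-1)) (l+(2*n+1)) ∨ DD n (i+1-(n+2)) (l-n) ∨
      DD n (i+1-(n+2)-(2*n-1)) (l-n+(2*n+1)) := by
  rcases h with ⟨h1, h2, h3, h4⟩ | ⟨h1, h2, h3, h4⟩ | ⟨h1, h2⟩ | ⟨h1, h2⟩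
  · by_cases c1 : i - l ≤ 2*n
    · exact Or.inl (mk1 (by omega) (by omega) (by omega) (by omega))
    · by_cases c2 : l ≤ n - 2
      · exact Or.inr (Or.inl (mk2 (by omega) (by omega) (by omega) (by omega)))
      · exact Or.inr (Or.inr (Or.inr (mk4 (by omega) (by omega))))
  · by_cases c1 : i = n + 1
    · by_cases c2 : l - n ≤ 2*n-1
      · exact Or.inr (Or.inr (Or.inl (mk2 (by omega) (by omega) (by omega) (by omega))))
      · exact Or.inr (Or.inr (Or.inl (mk4 (by omega) (by omega))))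
    · by_cases c2 : l = i
      · by_cases c3 : i = n
        · exact Or.inl (mk3 (by omega) (by omega))
        · exact Or.inl (mk1 (by omega) (by omega) (by omega) (by omega))
      · exact Or.inl (mk2 (by omega) (by omega) (by omega) (by omega))
  · exact Or.inr (Or.inr (Or.inl (mk1 (by omega) (by omega) (by omega) (by omega))))
  · exact Or.inl (mk2 (by omega) (by omega) (by omega) (by omega))

lemma stepV {n i l : ℤ} (hn : 2 ≤ n) (h : DD n i l) :
    DD n i (l+1) ∨ DD n (i+(2*n-1)) (l+1-(2*n+1)) ∨ DD n (i-(n+2)) (l+1-n) ∨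
      DD n (i-(n+2)+(2*n-1)) (l+1-n-(2*n+1)) := by
  rcases h with ⟨h1, h2, h3, h4⟩ | ⟨h1, h2, h3, h4⟩ | ⟨h1, h2⟩ | ⟨h1, h2⟩
  · by_cases c1 : i = l
    · exact Or.inl (mk2 (by omega) (by omega) (by omega) (by omega))
    · by_cases c2 : l ≤ n - 2
      · exact Or.inl (mk1 (by omega) (by omega) (by omega) (by omega))
      · by_cases c3 : i = n
        · exact Or.inl (mk2 (by omega) (by omega) (by omega) (by omega))
        · by_cases c4 : i = n + 1
          · exact Or.inl (mk3 (by omega) (by omega))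
          · exact Or.inr (Or.inr (Or.inl (mk1 (by omega) (by omega) (by omega) (by omega))))
  · by_cases c1 : l - i ≤ 2*n-2
    · exact Or.inl (mk2 (by omega) (by omega) (by omega) (by omega))
    · by_cases c2 : i = 0
      · exact Or.inl (mk4 (by omega) (by omega))
      · by_cases c3 : i = n + 1
        · exact Or.inr (Or.inr (Or.inr (mk1 (by omega) (by omega) (by omega) (by omega))))
        · exact Or.inr (Or.inl (mk1 (by omega) (by omega) (by omega) (by omega)))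
  · exact Or.inl (mk2 (by omega) (by omega) (by omega) (by omega))
  · exact Or.inr (Or.inl (mk1 (by omega) (by omega) (by omega) (by omega)))

def Rep (n x : ℤ) : Prop := ∃ k i l : ℤ, DD n i l ∧ x = k * aa n + i * uu n + l * vv n

lemma rep_addU {n x : ℤ} (hn : 2 ≤ n) (h : Rep n x) : Rep n (x + uu n) := by
  obtain ⟨k, i, l, hD, rfl⟩ := h
  rcases stepU hn hD with h | h | h | h
  · exact ⟨k, _, _, h, by ring⟩
  · exact ⟨k, _, _, h, by unfold aa uu vv; ring⟩
  · exact ⟨k+1, _, _, h, by unfold aa uu vv; ring⟩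
  · exact ⟨k+1, _, _, h, by unfold aa uu vv; ring⟩

lemma rep_addV {n x : ℤ} (hn : 2 ≤ n) (h : Rep n x) : Rep n (x + vv n) := by
  obtain ⟨k, i, l, hD, rfl⟩ := h
  rcases stepV hn hD with h | h | h | h
  · exact ⟨k, _, _, h, by ring⟩
  · exact ⟨k, _, _, h, by unfold aa uu vv; ring⟩
  · exact ⟨k+1, _, _, h, by unfold aa uu vv; ring⟩
  · exact ⟨k+1, _, _, h, by unfold aa uu vv; ring⟩

lemma rep_nat {n : ℤ} (hn : 2 ≤ n) (k : ℤ) (i l : ℕ) :
    Rep n (k * aa n + i * uu n + l * vv n) := by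
  induction l with
  | zero =>
    induction i with
    | zero => exact ⟨k, 0, 0, by unfold DD; omega, by simp⟩
    | succ i ih =>
      have := rep_addU hn ih
      convert this using 1; push_cast; ring
  | succ l ih =>
    have := rep_addV hn ih
    convert this using 1; push_cast; ring

lemma rep_all {n : ℤ} (hn : 2 ≤ n) (x : ℤ) : Rep n x := by
  have h1 : 0 ≤ x * (1 - n) + |x| * n * (n+2) := by
    have := abs_nonneg x
    have h2 := le_abs_self x
    have h3 := neg_abs_le x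
    have : x * (1-n) ≥ -(|x| * (n-1)) := by nlinarith
    have h5 : |x| * (n-1) ≤ |x| * n * (n+2) := by
      have : n - 1 ≤ n * (n+2) := by nlinarith
      nlinarith
    linarith
  have h2 : 0 ≤ x * n + |x| * n * n := by
    have := abs_nonneg x
    have h3 := neg_abs_le x
    have h4 : 0 ≤ (x + |x|) * n := mul_nonneg (by linarith) (by linarith)
    have h5 : 0 ≤ |x| * n * (n - 1) := mul_nonneg (mul_nonneg this (by linarith)) (by linarith)
    nlinarith
  have := rep_nat hn (-(|x| * n)) (x * (1 - n) + |x| * n * (n+2)).toNat (x * n + |x| * n * n).toNat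
  rw [Int.toNat_of_nonneg h1, Int.toNat_of_nonneg h2] at this
  convert this using 1
  unfold aa uu vv; ring

lemma cover_base {n : ℤ} (hn : 2 ≤ n) (x : ℤ) :
    InS n 0 x ∨ InS n 0 (FF n - x) ∨ x = f1 n ∨ x = f2 n := by
  obtain ⟨k, i, l, hD, rfl⟩ := rep_all hn x
  rcases hD with h | h | ⟨rfl, rfl⟩ | ⟨rfl, rfl⟩
  · by_cases hk : i ≤ k
    · exact Or.inl ⟨k, i, l, by omega, by omega, by omega, by omega, by omega, rfl⟩
    · exact Or.inr (Or.inl ⟨3*n-1-k, 3*n-i, n-1-l, by omega, by omega, by omega, by omega,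
        by omega, by unfold FF; ring⟩)
  · by_cases hk : l ≤ k
    · exact Or.inl ⟨k, i, l, by omega, by omega, by omega, by omega, by omega, rfl⟩
    · exact Or.inr (Or.inl ⟨3*n-1-k, n+1-i, 3*n-l, by omega, by omega, by omega, by omega,
        by omega, by unfold FF aa uu vv; ring⟩)
  · rcases lt_trichotomy k l with hk | hk | hk
    · exact Or.inr (Or.inl ⟨3*l-1-k, 0, 2*l, by omega, by omega, by omega, by omega,
        by omega, by unfold FF aa uu vv; ring⟩)
    · exact Or.inr (Or.inr (Or.inl (by subst hk; unfold f1; ring)))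
    · exact Or.inl ⟨k, l+1, l, by omega, by omega, by omega, by omega, by omega, rfl⟩
  · rcases lt_trichotomy k (2*n-1) with hk | hk | hk
    · exact Or.inr (Or.inl ⟨3*n-1-k, n+1, n, by omega, by omega, by omega, by omega,
        by omega, by unfold FF aa uu vv; ring⟩)
    · exact Or.inr (Or.inr (Or.inr (by subst hk; unfold f2; ring)))
    · exact Or.inl ⟨k, 0, 2*n, by omega, by omega, by omega, by omega, by omega, rfl⟩

lemma F_not {n : ℤ} (hn : 2 ≤ n) : ¬ InS n 0 (FF n) := by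
  rintro ⟨k, i, l, -, h1, h2, h3, h4, h⟩
  set m := 3*n-1-k with hm
  have hk : k = 3*n-1-m := by omega
  have key : (i - 3*n - m*(n+2)) * (2*n+1) = -((l - n + 1 - m*n) * (2*n-1)) := by
    rw [hk] at h; unfold FF aa uu vv at h; linear_combination -h
  have hcop : IsCoprime (2*n-1) (2*n+1) := ⟨n, 1-n, by ring⟩
  have hdvd : (2*n-1) ∣ (i - 3*n - m*(n+2)) := by
    apply hcop.dvd_of_dvd_mul_right
    rw [key]; exact (Dvd.intro_left _ rfl).neg_right
  obtain ⟨r, hr⟩ := hdvd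
  have hr2 : l - n + 1 - m*n = -(r * (2*n+1)) := by
    have h0 : (2*n-1) ≠ 0 := by omega
    apply mul_right_cancel₀ h0
    rw [hr] at key; linear_combination key
  have hi : i = 3*n + m*(n+2) + (2*n-1)*r := by linarith
  have hl : l = n - 1 + m*n - r*(2*n+1) := by linarith
  have hrneg : r ≤ -1 := by
    by_contra hc
    have hr0 : 0 ≤ r := by omega
    rcases le_or_gt 0 m with hm0 | hm0
    · have : 0 ≤ m*(n+2) := by positivity
      have : 0 ≤ (2*n-1)*r := mul_nonneg (by omega) hr0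
      omega
    · have : 0 ≤ r*(2*n+1) := mul_nonneg hr0 (by omega)
      have : m*n ≤ -n := by nlinarith
      omega
  rcases le_or_gt 0 m with hm0 | hm0
  · have : 0 ≤ m*n := by positivity
    have : r*(2*n+1) ≤ -(2*n+1) := by nlinarith
    omega
  · have : m*(n+2) ≤ -(n+2) := by nlinarith
    have : (2*n-1)*r ≤ -(2*n-1) := by nlinarith
    omega

lemma f_sum (n : ℤ) : f1 n + f2 n = FF n := by unfold f1 f2 FF aa uu vv; ring

/-- adding a nonzero element of order `k` to `f1` gives order at least `k + n` -/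
lemma f1_add {n k i l : ℤ} (hn : 2 ≤ n) (hk : 1 ≤ k) (h1 : 0 ≤ i) (h2 : i ≤ k) (h3 : 0 ≤ l)
    (h4 : l ≤ k) : InS n (k + n) (f1 n + (k * aa n + i * uu n + l * vv n)) := by
  by_cases hi : i ≤ k - 1
  · exact ⟨k+n, n+1+i, n+l, by omega, by omega, by omega, by omega, by omega,
      by unfold f1; ring⟩
  · exact ⟨k+n+1, i-1, l, by omega, by omega, by omega, by omega, by omega,
      by unfold f1 aa uu vv; ring⟩

lemma f2_add {n k i l : ℤ} (hn : 2 ≤ n) (hk : 1 ≤ k) (h1 : 0 ≤ i) (h2 : i ≤ k) (h3 : 0 ≤ l)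
    (h4 : l ≤ k) : InS n (k + n) (f2 n + (k * aa n + i * uu n + l * vv n)) := by
  by_cases hi : l ≤ k - 1
  · exact ⟨k+2*n-1, i, 2*n+l, by omega, by omega, by omega, by omega, by omega,
      by unfold f2; ring⟩
  · exact ⟨k+2*n-1, i+2*n-1, l-1, by omega, by omega, by omega, by omega, by omega,
      by unfold f2 aa uu vv; ring⟩

/-- the lifted semigroup with eight generators -/
def InG (n x : ℤ) : Prop := ∃ j s : ℤ, 0 ≤ j ∧ InS n j s ∧ x = n * s + j * dd n

def PP (n : ℤ) : ℤ := n * FF n + (n-1) * dd n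

lemma aa_pos {n : ℤ} (hn : 2 ≤ n) : 0 < aa n := by unfold aa; positivity
lemma dd_pos {n : ℤ} (hn : 2 ≤ n) : 0 < dd n := by unfold dd; positivity

lemma InS.lower {n c s : ℤ} (hn : 2 ≤ n) (h : InS n c s) : c * aa n ≤ s := by
  obtain ⟨k, i, l, h0, h1, -, h3, -, rfl⟩ := h
  have : 0 ≤ i * uu n := mul_nonneg h1 (by unfold uu; omega)
  have : 0 ≤ l * vv n := mul_nonneg h3 (by unfold vv; omega)
  have := mul_le_mul_of_nonneg_right h0 (aa_pos hn).le
  linarith

lemma InS.mono {n c c' s : ℤ} (h : InS n c s) (hc : c' ≤ c) : InS n c' s := by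
  obtain ⟨k, i, l, h0, h⟩ := h
  exact ⟨k, i, l, hc.trans h0, h⟩

lemma InS.add {n c c' s s' : ℤ} (h : InS n c s) (h' : InS n c' s') : InS n (c + c') (s + s') := by
  obtain ⟨k, i, l, h0, h1, h2, h3, h4, rfl⟩ := h
  obtain ⟨k', i', l', h0', h1', h2', h3', h4', rfl⟩ := h'
  exact ⟨k+k', i+i', l+l', by omega, by omega, by omega, by omega, by omega, by ring⟩

lemma InG.zero (n : ℤ) : InG n 0 :=
  ⟨0, 0, le_rfl, ⟨0, 0, 0, le_rfl, le_rfl, le_rfl, le_rfl, le_rfl, by ring⟩, by ring⟩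

lemma InG.add {n x y : ℤ} (h : InG n x) (h' : InG n y) : InG n (x + y) := by
  obtain ⟨j, s, h0, h1, rfl⟩ := h
  obtain ⟨j', s', h0', h1', rfl⟩ := h'
  exact ⟨j+j', s+s', by omega, h1.add h1', by ring⟩

lemma InG.nonneg {n x : ℤ} (hn : 2 ≤ n) (h : InG n x) : 0 ≤ x := by
  obtain ⟨j, s, h0, h1, rfl⟩ := h
  have := h1.lower hn
  have h2 : 0 ≤ j * aa n := mul_nonneg h0 (aa_pos hn).le
  have h3 : 0 ≤ j * dd n := mul_nonneg h0 (dd_pos hn).le
  have : 0 ≤ n * s := mul_nonneg (by omega) (by linarith)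
  linarith

/-- uniqueness of the decomposition modulo `n` -/
lemma decomp_eq {n s j s' j' : ℤ} (hn : 2 ≤ n) (h : n * s + j * dd n = n * s' + j' * dd n) :
    ∃ t : ℤ, j' = j + t * n ∧ s = s' + t * dd n := by
  refine ⟨s - s' - (j' - j) * (4*n^2+12*n+10), ?_, ?_⟩
  · unfold dd at h; linear_combination -h
  · have h0 : n ≠ 0 := by omega
    apply mul_left_cancel₀ h0
    unfold dd at h ⊢; linear_combination (1 - (4*n^3+12*n^2+10*n+1)) * h

lemma P_not {n : ℤ} (hn : 2 ≤ n) : ¬ InG n (PP n) := by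
  rintro ⟨j, s, h0, h1, h⟩
  obtain ⟨t, hj, hs⟩ := decomp_eq hn h
  have ht : 0 ≤ t := by
    by_contra hc
    have : t * n ≤ -n := by nlinarith
    omega
  rcases eq_or_lt_of_le ht with rfl | ht1
  · simp at hs; exact F_not hn (hs ▸ h1.mono h0)
  · have h2 := h1.lower hn
    have h3 : 2*n-1 ≤ j := by nlinarith
    have h4 := mul_le_mul_of_nonneg_right h3 (aa_pos hn).le
    have h5 : dd n ≤ t * dd n := by nlinarith [dd_pos hn]
    have h6 : FF n - dd n < (2*n-1) * aa n := by unfold FF dd aa uu vv; nlinarith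
    linarith

lemma half_cover {n s j : ℤ} (h0 : 0 ≤ j) (h1 : j < n) (hs : InS n 0 s) :
    InG n (n * s + j * dd n) ∨ InG n (PP n - (n * s + j * dd n)) := by
  obtain ⟨k, i, l, h2, h3, h4, h5, h6, rfl⟩ := hs
  by_cases hk : j ≤ k
  · exact Or.inl ⟨j, _, h0, ⟨k, i, l, hk, h3, h4, h5, h6, rfl⟩, rfl⟩
  · exact Or.inr ⟨2*n-1-j, _, by omega, ⟨2*n-2-k, n-i, n-2-l, by omega, by omega, by omega,
      by omega, by omega, rfl⟩, by unfold PP FF dd aa uu vv; ring⟩

lemma cover {n : ℤ} (hn : 2 ≤ n) (x : ℤ) :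
    InG n x ∨ InG n (PP n - x) ∨
      ∃ j, 0 ≤ j ∧ j < n ∧ (x = n * f1 n + j * dd n ∨ x = n * f2 n + j * dd n) := by
  have h0 : 0 ≤ x % n := Int.emod_nonneg _ (by omega)
  have h1 : x % n < n := Int.emod_lt_of_pos _ (by omega)
  have hx : x = n * (x / n - (x % n) * (4*n^2+12*n+10)) + (x % n) * dd n := by
    have := Int.mul_ediv_add_emod x n
    unfold dd; linear_combination -this
  generalize x % n = j at *
  generalize x / n - j * (4*n^2+12*n+10) = s at *
  subst hx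
  rcases cover_base hn s with h | h | h | h
  · rcases half_cover h0 h1 h with h | h
    · exact Or.inl h
    · exact Or.inr (Or.inl h)
  · rcases half_cover (j := n-1-j) (by omega) (by omega) h with h | h
    · exact Or.inr (Or.inl (by convert h using 1; unfold PP; ring))
    · exact Or.inl (by convert h using 1; unfold PP; ring)
  · exact Or.inr (Or.inr ⟨j, h0, h1, Or.inl (by rw [h])⟩)
  · exact Or.inr (Or.inr ⟨j, h0, h1, Or.inr (by rw [h])⟩)

lemma pf_add {n f j y : ℤ} (hn : 2 ≤ n) (hf : f = f1 n ∨ f = f2 n) (h0 : 0 ≤ j) (h1 : j < n)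
    (hy : InG n y) (hy0 : y ≠ 0) : InG n (n * f + j * dd n + y) := by
  obtain ⟨j', s, h2, ⟨k, i, l, h3, h4, h5, h6, h7, rfl⟩, rfl⟩ := hy
  have hk : 1 ≤ k := by
    by_contra hc
    have e1 : k = 0 := by omega
    have e2 : i = 0 := by omega
    have e3 : l = 0 := by omega
    have e4 : j' = 0 := by omega
    subst e1 e2 e3 e4; simp at hy0
  refine ⟨j + j', f + (k * aa n + i * uu n + l * vv n), by omega, ?_, by ring⟩
  rcases hf with rfl | rfl
  · exact (f1_add hn hk h4 h5 h6 h7).mono (by omega)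
  · exact (f2_add hn hk h4 h5 h6 h7).mono (by omega)

end Pool.Agent.H79.Asym
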