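import Pool.Agent.H79.Asym1

set_option autoImplicit false

namespace Pool.Agent.H79.Asym

/-- the lifted semigroup with `r` pseudo-Frobenius numbers adjoined -/
def InH (n r x : ℤ) : Prop := InG n x ∨ ∃ j, 0 ≤ j ∧ j < r ∧ x = n * f2 n + j * dd n

lemma f1_pos {n : ℤ} (hn : 2 ≤ n) : 0 < f1 n := by
  unfold f1 aa uu vv
  obtain ⟨m, rfl⟩ : ∃ m, n = m + 2 := ⟨n - 2, by ring⟩
  have hm : 0 ≤ m := by omega
  ring_nf; positivity

lemma f12 {n : ℤ} (hn : 2 ≤ n) : f1 n < f2 n := by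
  unfold f1 f2 aa uu vv
  obtain ⟨m, rfl⟩ : ∃ m, n = m + 2 := ⟨n - 2, by ring⟩
  have hm : 0 ≤ m := by omega
  rw [← sub_pos]; ring_nf; positivity

lemma el_pos {n f j : ℤ} (hn : 2 ≤ n) (hf : f = f1 n ∨ f = f2 n) (h0 : 0 ≤ j) :
    0 < n * f + j * dd n := by
  have h1 := f1_pos hn
  have h2 := f12 hn
  have h3 : 0 < f := by rcases hf with rfl | rfl <;> linarith
  have : 0 < n * f := mul_pos (by omega) h3
  have : 0 ≤ j * dd n := mul_nonneg h0 (dd_pos hn).le
  linarith

lemma decomp_uniq {n s j s' j' : ℤ} (hn : 2 ≤ n) (h0 : 0 ≤ j) (h1 : j < n) (h0' : 0 ≤ j')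
    (h1' : j' < n) (h : n * s + j * dd n = n * s' + j' * dd n) : s = s' ∧ j = j' := by
  obtain ⟨t, hj, hs⟩ := decomp_eq hn h
  have ht : t = 0 := by
    rcases lt_trichotomy t 0 with ht | ht | ht
    · have : t * n ≤ -n := by nlinarith
      omega
    · exact ht
    · have : n ≤ t * n := by nlinarith
      omega
  subst ht; simp at hj hs; exact ⟨hs, hj.symm⟩

lemma el_notG {n f j : ℤ} (hn : 2 ≤ n) (hf : f = f1 n ∨ f = f2 n) (h0 : 0 ≤ j) (h1 : j < n) :
    ¬ InG n (n * f + j * dd n) := by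
  intro h
  have hp := (el_pos hn hf h0).ne'
  apply P_not hn
  rcases hf with rfl | rfl
  · have := pf_add hn (Or.inr rfl) (j := n-1-j) (by omega) (by omega) h hp
    convert this using 1; unfold PP; rw [← f_sum]; ring
  · have := pf_add hn (Or.inl rfl) (j := n-1-j) (by omega) (by omega) h hp
    convert this using 1; unfold PP; rw [← f_sum]; ring

lemma big {n y : ℤ} (hn : 2 ≤ n) (hy : PP n < y) : InG n y := by
  rcases cover hn y with h | h | ⟨j, h0, h1, h | h⟩
  · exact h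
  · have := h.nonneg hn; linarith
  · have := el_pos hn (Or.inr rfl) (j := n-1-j) (by omega)
    have e : PP n = y + (n * f2 n + (n-1-j) * dd n) := by rw [h]; unfold PP; rw [← f_sum]; ring
    linarith
  · have := el_pos hn (Or.inl rfl) (j := n-1-j) (by omega)
    have e : PP n = y + (n * f1 n + (n-1-j) * dd n) := by rw [h]; unfold PP; rw [← f_sum]; ring
    linarith

lemma add22 {n j j' : ℤ} (h0 : 0 ≤ j) (h1 : j < n) (h0' : 0 ≤ j') (h1' : j' < n) :
    InG n (n * f2 n + j * dd n + (n * f2 n + j' * dd n)) :=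
  ⟨j + j', _, by omega, ⟨4*n-2, 2*n-1, 2*n-1, by omega, by omega, by omega, by omega, by omega,
    rfl⟩, by unfold f2 uu vv; ring⟩

lemma add12 {n j j' : ℤ} (h0 : 0 ≤ j) (h0' : 0 ≤ j') (h1 : j + j' ≤ n - 2) :
    InG n (n * f1 n + j * dd n + (n * f2 n + j' * dd n)) :=
  ⟨j + j' + n, _, by omega, ⟨2*n-2, n, n-2, by omega, by omega, by omega, by omega, by omega,
    rfl⟩, by unfold f1 f2 dd aa uu vv; ring⟩

lemma InH.zero (n r : ℤ) : InH n r 0 := Or.inl (InG.zero n)

lemma InH.add {n r x y : ℤ} (hn : 2 ≤ n) (hr : r ≤ n) (h : InH n r x) (h' : InH n r y) :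
    InH n r (x + y) := by
  by_cases hx : x = 0
  · simpa [hx] using h'
  by_cases hy : y = 0
  · simpa [hy] using h
  left
  rcases h with h | ⟨j, h0, h1, rfl⟩ <;> rcases h' with h' | ⟨j', h0', h1', rfl⟩
  · exact h.add h'
  · rw [add_comm]; exact pf_add hn (Or.inr rfl) h0' (by omega) h hx
  · exact pf_add hn (Or.inr rfl) h0 (by omega) h' hy
  · exact add22 h0 (by omega) h0' (by omega)

lemma InH.add_G {n r x y : ℤ} (hn : 2 ≤ n) (hr : r ≤ n) {j : ℤ} (h0 : 0 ≤ j) (h1 : j < n)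
    (hx : x = n * f2 n + j * dd n) (h' : InH n r y) (hy : y ≠ 0) : InG n (x + y) := by
  subst hx
  rcases h' with h' | ⟨j', h0', h1', rfl⟩
  · exact pf_add hn (Or.inr rfl) h0 h1 h' hy
  · exact add22 h0 h1 h0' (by omega)

lemma InH.nonneg {n r x : ℤ} (hn : 2 ≤ n) (h : InH n r x) : 0 ≤ x := by
  rcases h with h | ⟨j, h0, -, rfl⟩
  · exact h.nonneg hn
  · exact (el_pos hn (Or.inr rfl) h0).le

lemma PH_not {n r : ℤ} (hn : 2 ≤ n) (hr : r ≤ n) : ¬ InH n r (PP n) := by
  rintro (h | ⟨j, h0, h1, h⟩)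
  · exact P_not hn h
  · have := (decomp_uniq hn (by omega) (by omega) h0 (by omega) h).1
    have h2 := f_sum n
    have h3 := f1_pos hn
    linarith

lemma f1_pf {n r j y : ℤ} (hn : 2 ≤ n) (h0 : 0 ≤ j) (h1 : j < n - r) (h1' : j < n)
    (hy : InH n r y) (hy0 : y ≠ 0) : InH n r (n * f1 n + j * dd n + y) := by
  left
  rcases hy with hy | ⟨j', h0', h1', rfl⟩
  · exact pf_add hn (Or.inl rfl) h0 h1' hy hy0
  · exact add12 h0 h0' (by omega)

lemma f1_notH {n r j : ℤ} (hn : 2 ≤ n) (hr : r ≤ n) (h0 : 0 ≤ j) (h1 : j < n) :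
    ¬ InH n r (n * f1 n + j * dd n) := by
  rintro (h | ⟨j', h0', h1', h⟩)
  · exact el_notG hn (Or.inl rfl) h0 h1 h
  · have := (decomp_uniq hn h0 h1 h0' (by omega) h).1
    have := f12 hn
    linarith

lemma as_core {n r x y : ℤ} (hn : 2 ≤ n) (hr : r ≤ n) (hx : ¬ InH n r x)
    (hx' : ¬ InH n r (PP n - x)) (hy : InH n r y) (hy0 : y ≠ 0) : InH n r (x + y) := by
  rcases cover hn x with h | h | ⟨j, h0, h1, h | h⟩
  · exact absurd (Or.inl h) hx
  · exact absurd (Or.inl h) hx'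
  · subst h
    apply f1_pf hn h0 _ h1 hy hy0
    by_contra hc
    exact hx' (Or.inr ⟨n-1-j, by omega, by omega, by unfold PP; rw [← f_sum]; ring⟩)
  · exact Or.inl (InH.add_G hn hr h0 h1 h hy hy0)

lemma G_pos {n y : ℤ} (hy : InG n y) (hy0 : y ≠ 0) :
    ∃ j s, 0 ≤ j ∧ InS n 1 s ∧ y = n * s + j * dd n := by
  obtain ⟨j', s, h2, ⟨k, i, l, h3, h4, h5, h6, h7, rfl⟩, rfl⟩ := hy
  have hk : 1 ≤ k := by
    by_contra hc
    have e1 : k = 0 := by omega
    have e2 : i = 0 := by omega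
    have e3 : l = 0 := by omega
    have e4 : j' = 0 := by omega
    subst e1 e2 e3 e4; simp at hy0
  exact ⟨j', _, h2, ⟨k, i, l, hk, h4, h5, h6, h7, rfl⟩, rfl⟩

lemma G_ne {n j s : ℤ} (hn : 2 ≤ n) (h0 : 0 ≤ j) (hs : InS n 1 s) : 0 < n * s + j * dd n := by
  have h1 := hs.lower hn
  have h2 := aa_pos hn
  have : 0 < n * s := mul_pos (by omega) (by linarith)
  have : 0 ≤ j * dd n := mul_nonneg h0 (dd_pos hn).le
  linarith

def AtomZ (n r s : ℤ) : Prop :=
  InH n r s ∧ s ≠ 0 ∧ ¬ ∃ a b, InH n r a ∧ InH n r b ∧ a ≠ 0 ∧ b ≠ 0 ∧ a + b = s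

lemma atom_iff {n r s : ℤ} (hn : 2 ≤ n) (hr : r ≤ n) : AtomZ n r s ↔
    (∃ i l j : ℤ, (i = 0 ∨ i = 1) ∧ (l = 0 ∨ l = 1) ∧ (j = 0 ∨ j = 1) ∧
      s = n * (aa n + i * uu n + l * vv n) + j * dd n) ∨
    ∃ j, 0 ≤ j ∧ j < r ∧ s = n * f2 n + j * dd n := by
  constructor
  · rintro ⟨h | h, h0, hd⟩
    · left
      obtain ⟨j, s, h2, ⟨k, i, l, h3, h4, h5, h6, h7, rfl⟩, rfl⟩ := h
      by_cases hk : 2 ≤ k
      · exfalso
        have a1 : InS n 1 (1 * aa n + min i 1 * uu n + min l 1 * vv n) :=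
          ⟨1, min i 1, min l 1, le_rfl, by omega, by omega, by omega, by omega, rfl⟩
        have a2 : InS n (k-1) ((k-1) * aa n + (i - min i 1) * uu n + (l - min l 1) * vv n) :=
          ⟨k-1, i - min i 1, l - min l 1, le_rfl, by omega, by omega, by omega, by omega, rfl⟩
        refine hd ⟨_, _, Or.inl ⟨min j 1, _, by omega, a1.mono (by omega), rfl⟩,
          Or.inl ⟨j - min j 1, _, by omega, a2.mono (by omega), rfl⟩,
          (G_ne hn (by omega) a1).ne', (G_ne hn (by omega) (a2.mono (by omega))).ne', by ring⟩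
      · have hk1 : k = 1 := by
          by_contra hc
          have e1 : k = 0 := by omega
          have e2 : i = 0 := by omega
          have e3 : l = 0 := by omega
          have e4 : j = 0 := by omega
          subst e1 e2 e3 e4; simp at h0
        subst hk1
        exact ⟨i, l, j, by omega, by omega, by omega, by ring⟩
    · exact Or.inr h
  · rintro (⟨i, l, j, hi, hl, hj, rfl⟩ | ⟨j, h0, h1, rfl⟩)
    · have a1 : InS n 1 (aa n + i * uu n + l * vv n) :=
        ⟨1, i, l, le_rfl, by omega, by omega, by omega, by omega, by ring⟩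
      have hub : aa n + i * uu n + l * vv n ≤ aa n + 4 * n := by
        unfold uu vv; rcases hi with rfl | rfl <;> rcases hl with rfl | rfl <;> omega
      have hsz : n * (aa n + i * uu n + l * vv n) + j * dd n < n * f2 n := by
        have b1 : n * (aa n + i * uu n + l * vv n) ≤ n * (aa n + 4 * n) :=
          mul_le_mul_of_nonneg_left hub (by omega)
        have b2 : j * dd n ≤ dd n := by
          have := dd_pos hn
          rcases hj with rfl | rfl <;> linarith
        have b3 : n * (aa n + 4 * n) + dd n < n * f2 n := by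
          unfold f2 dd aa vv
          obtain ⟨m, rfl⟩ : ∃ m, n = m + 2 := ⟨n - 2, by ring⟩
          have hm : 0 ≤ m := by omega
          rw [← sub_pos]; ring_nf; positivity
        linarith
      refine ⟨Or.inl ⟨j, _, by omega, a1.mono (by omega), rfl⟩, (G_ne hn (by omega) a1).ne', ?_⟩
      rintro ⟨a, b, ha, hb, ha0, hb0, hab⟩
      have hap := ha.nonneg hn
      have hbp := hb.nonneg hn
      rcases ha with ha | ⟨j', h0', -, rfl⟩
      · rcases hb with hb | ⟨j', h0', -, rfl⟩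
        · obtain ⟨j1, s1, c1, c2, rfl⟩ := G_pos ha ha0
          obtain ⟨j2, s2, c3, c4, rfl⟩ := G_pos hb hb0
          have e : n * (aa n + i * uu n + l * vv n) + j * dd n
              = n * (s1 + s2) + (j1 + j2) * dd n := by rw [← hab]; ring
          obtain ⟨t, ht1, ht2⟩ := decomp_eq hn e
          have ht : 0 ≤ t := by
            by_contra hc
            have : t * n ≤ -n := by nlinarith
            omega
          have := (c2.add c4).lower hn
          have : 0 ≤ t * dd n := mul_nonneg ht (dd_pos hn).le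
          have : 4 * n < aa n := by unfold aa; nlinarith
          linarith
        · have : 0 ≤ j' * dd n := mul_nonneg h0' (dd_pos hn).le
          linarith
      · have : 0 ≤ j' * dd n := mul_nonneg h0' (dd_pos hn).le
        linarith
    · refine ⟨Or.inr ⟨j, h0, h1, rfl⟩, (el_pos hn (Or.inr rfl) h0).ne', ?_⟩
      rintro ⟨a, b, ha, hb, ha0, hb0, hab⟩
      apply el_notG hn (Or.inr rfl) h0 (by omega : j < n)
      rw [← hab]
      rcases ha with ha | ⟨j', h0', h1', e⟩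
      · rcases hb with hb | ⟨j', h0', h1', e⟩
        · exact ha.add hb
        · rw [add_comm]; exact InH.add_G hn hr h0' (by omega) e (Or.inl ha) ha0
      · exact InH.add_G hn hr h0' (by omega) e hb hb0

lemma atom_card {n : ℤ} {r : ℕ} (hn : 2 ≤ n) (hr : (r:ℤ) ≤ n) :
    {s | AtomZ n r s}.ncard = 8 + r := by
  classical
  let T : Finset (ℤ × ℤ) :=
    (({aa n, aa n + uu n, aa n + vv n, aa n + uu n + vv n} : Finset ℤ) ×ˢ ({0, 1} : Finset ℤ)) ∪
      (({f2 n} : Finset ℤ) ×ˢ Finset.Ico (0:ℤ) r)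
  have hT : {s | AtomZ n r s} = ↑(T.image (fun p => n * p.1 + p.2 * dd n)) := by
    ext s
    simp only [Set.mem_ofPred_eq, atom_iff hn hr, Finset.coe_image, Set.mem_image, Finset.mem_coe, T,
      Finset.mem_union, Finset.mem_product, Finset.mem_insert, Finset.mem_singleton,
      Finset.mem_Ico, Prod.exists]
    constructor
    · rintro (⟨i, l, j, hi, hl, hj, rfl⟩ | ⟨j, h0, h1, rfl⟩)
      · refine ⟨_, j, Or.inl ⟨?_, hj⟩, rfl⟩
        rcases hi with rfl | rfl <;> rcases hl with rfl | rfl <;> simp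
      · exact ⟨_, j, Or.inr ⟨rfl, h0, h1⟩, rfl⟩
    · rintro ⟨a, j, ⟨h | h | h | h, hj⟩ | ⟨h, h0, h1⟩, rfl⟩
      · exact Or.inl ⟨0, 0, j, by simp, by simp, hj, by rw [h]; ring⟩
      · exact Or.inl ⟨1, 0, j, by simp, by simp, hj, by rw [h]; ring⟩
      · exact Or.inl ⟨0, 1, j, by simp, by simp, hj, by rw [h]; ring⟩
      · exact Or.inl ⟨1, 1, j, by simp, by simp, hj, by rw [h]; ring⟩
      · exact Or.inr ⟨j, h0, h1, by rw [h]⟩
  have hsz : aa n + 4 * n < f2 n := by
    unfold f2 aa vv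
    obtain ⟨m, rfl⟩ : ∃ m, n = m + 2 := ⟨n - 2, by ring⟩
    have hm : 0 ≤ m := by omega
    rw [← sub_pos]; ring_nf; positivity
  rw [hT, Set.ncard_coe_finset, Finset.card_image_of_injOn]
  · rw [Finset.card_union_of_disjoint, Finset.card_product, Finset.card_product]
    · have e1 : ({aa n, aa n + uu n, aa n + vv n, aa n + uu n + vv n} : Finset ℤ).card = 4 := by
        rw [Finset.card_insert_of_notMem, Finset.card_insert_of_notMem, Finset.card_pair]
        · unfold uu vv; omega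
        · simp only [Finset.mem_insert, Finset.mem_singleton]; unfold uu vv; omega
        · simp only [Finset.mem_insert, Finset.mem_singleton]; unfold uu vv; omega
      rw [e1]; simp
    · rw [Finset.disjoint_left]
      rintro ⟨a, j⟩ h1 h2
      simp only [Finset.mem_product, Finset.mem_insert, Finset.mem_singleton] at h1 h2
      obtain ⟨h1, -⟩ := h1
      obtain ⟨h2, -⟩ := h2
      unfold uu vv at h1
      omega
  · rintro ⟨a, j⟩ h1 ⟨a', j'⟩ h2 h
    have b : ∀ p ∈ T, 0 ≤ p.2 ∧ p.2 < n := by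
      rintro ⟨a, j⟩ h1
      simp only [T, Finset.mem_union, Finset.mem_product, Finset.mem_insert, Finset.mem_singleton,
        Finset.mem_Ico] at h1
      rcases h1 with ⟨-, h1⟩ | ⟨-, h1⟩ <;> dsimp only <;> omega
    have := decomp_uniq hn (b _ h1).1 (b _ h1).2 (b _ h2).1 (b _ h2).2 h
    exact Prod.ext this.1 this.2

/-- the semigroup as a submonoid of the naturals -/
def HN (n r : ℕ) (hn : 2 ≤ n) (hr : r ≤ n) : AddSubmonoid ℕ where
  carrier := {x | InH n r x}
  zero_mem' := InH.zero _ _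
  add_mem' := by
    intro a b ha hb
    have := InH.add (n := n) (r := r) (by exact_mod_cast hn) (by exact_mod_cast hr) ha hb
    simpa using this

lemma mem_HN {n r : ℕ} {hn : 2 ≤ n} {hr : r ≤ n} {x : ℕ} : x ∈ HN n r hn hr ↔ InH n r x := Iff.rfl

lemma mem_img {n r : ℕ} {hn : 2 ≤ n} {hr : r ≤ n} {x : ℤ} :
    x ∈ ((↑) : ℕ → ℤ) '' (HN n r hn hr : Set ℕ) ↔ InH n r x := by
  constructor
  · rintro ⟨y, hy, rfl⟩; exact hy
  · intro h
    have := h.nonneg (n := n) (by exact_mod_cast hn)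
    refine ⟨x.toNat, ?_, Int.toNat_of_nonneg this⟩
    show InH n r (x.toNat : ℤ)
    rwa [Int.toNat_of_nonneg this]

lemma HN_cofinite {n r : ℕ} {hn : 2 ≤ n} {hr : r ≤ n} : (HN n r hn hr : Set ℕ)ᶜ.Finite := by
  apply (Set.finite_Iic (PP n).toNat).subset
  intro x hx
  by_contra hc
  apply hx
  have h1 : (PP n).toNat < x := by simpa using hc
  exact Or.inl (big (by exact_mod_cast hn) (by omega))

lemma HN_atoms {n r : ℕ} {hn : 2 ≤ n} {hr : r ≤ n} :
    {s : ℕ | s ∈ HN n r hn hr ∧ s ≠ 0 ∧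
      ¬ ∃ a ∈ HN n r hn hr, ∃ b ∈ HN n r hn hr, a ≠ 0 ∧ b ≠ 0 ∧ a + b = s}
      = {s : ℕ | AtomZ n r s} := by
  have hn' : (2:ℤ) ≤ n := by exact_mod_cast hn
  ext s
  simp only [Set.mem_ofPred_eq, AtomZ, mem_HN]
  refine and_congr Iff.rfl (and_congr (by simp) (not_congr ?_))
  constructor
  · rintro ⟨a, ha, b, hb, h1, h2, rfl⟩
    exact ⟨a, b, ha, hb, by exact_mod_cast h1, by exact_mod_cast h2, by push_cast; ring⟩
  · rintro ⟨a, b, ha, hb, h1, h2, h⟩
    lift a to ℕ using ha.nonneg hn'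
    lift b to ℕ using hb.nonneg hn'
    exact ⟨a, ha, b, hb, by exact_mod_cast h1, by exact_mod_cast h2, by exact_mod_cast h⟩

lemma HN_edim {n r : ℕ} {hn : 2 ≤ n} {hr : r ≤ n} :
    {s : ℕ | s ∈ HN n r hn hr ∧ s ≠ 0 ∧
      ¬ ∃ a ∈ HN n r hn hr, ∃ b ∈ HN n r hn hr, a ≠ 0 ∧ b ≠ 0 ∧ a + b = s}.ncard = 8 + r := by
  have hn' : (2:ℤ) ≤ n := by exact_mod_cast hn
  rw [HN_atoms, ← atom_card hn' (r := r) (by exact_mod_cast hr),
    ← Set.ncard_image_of_injective _ (Nat.cast_injective (R := ℤ))]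
  congr 1
  ext x
  constructor
  · rintro ⟨y, hy, rfl⟩; exact hy
  · intro h
    have := h.1.nonneg hn'
    lift x to ℕ using this
    exact ⟨x, h, rfl⟩

lemma pfZ_finite {n r : ℤ} (hn : 2 ≤ n) :
    {x : ℤ | ¬ InH n r x ∧ ∀ s, InH n r s → s ≠ 0 → InH n r (x + s)}.Finite := by
  apply (Set.finite_Icc (-(PP n + 1)) (PP n)).subset
  rintro x ⟨h1, h2⟩
  have hP : 0 < PP n := by
    have := el_pos hn (Or.inl rfl) (j := 0) le_rfl
    have := el_pos hn (Or.inr rfl) (j := n-1) (by omega)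
    have e : PP n = (n * f1 n + 0 * dd n) + (n * f2 n + (n-1) * dd n) := by
      unfold PP; rw [← f_sum]; ring
    linarith
  constructor
  · have := (h2 (PP n + 1) (Or.inl (big hn (by omega))) (by omega)).nonneg hn
    linarith
  · by_contra hc
    exact h1 (Or.inl (big hn (by omega)))

lemma pfZ_card {n : ℤ} {r N : ℕ} (hn : 2 ≤ n) (hr : (r:ℤ) + N ≤ n) :
    N ≤ {x : ℤ | ¬ InH n r x ∧ ∀ s, InH n r s → s ≠ 0 → InH n r (x + s)}.ncard := by
  have h1 : (((Finset.Ico (0:ℤ) N).image (fun j => n * f1 n + j * dd n) : Finset ℤ) : Set ℤ).ncard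
      = N := by
    rw [Set.ncard_coe_finset, Finset.card_image_of_injective]
    · simp
    · intro a b h
      exact mul_right_cancel₀ (dd_pos hn).ne' (add_left_cancel h)
  rw [← h1]
  apply Set.ncard_le_ncard _ (pfZ_finite hn)
  intro x hx
  simp only [Finset.coe_image, Set.mem_image, Finset.mem_coe, Finset.mem_Ico] at hx
  obtain ⟨j, ⟨h0, h2⟩, rfl⟩ := hx
  exact ⟨f1_notH hn (by omega) h0 (by omega),
    fun s hs hs0 => f1_pf hn h0 (by omega) (by omega) hs hs0⟩

end Pool.Agent.H79.Asym
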