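import Mathlib

set_option autoImplicit false

namespace Pool.Agent.H79.Asym

open CategoryTheory MonoidalCategory TensorProduct

universe u

/-- If `I` kills `κ`, then `Tor_1(S/I, κ)` surjects onto `I ⊗ κ`. -/
lemma tor_surj {S : Type u} [CommRing S] (I : Ideal S) (κ : ModuleCat.{u} S)
    (hκ : ∀ f ∈ I, ∀ c : κ, f • c = 0) :
    ∃ ψ : ((Tor' (ModuleCat.{u} S) 1).obj (ModuleCat.of S (S ⧸ I))).obj κ ⟶
      (ModuleCat.of S I ⊗ κ), Function.Surjective ψ := by
  let Z : ModuleCat.{u} S := ModuleCat.of S (S ⧸ I)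
  let P : ProjectiveResolution Z := projectiveResolution Z
  let F := (tensoringRight (ModuleCat.{u} S)).obj κ
  let K := (F.mapHomologicalComplex (ComplexShape.down ℕ)).obj P.complex
  let π0 : P.complex.X 0 ⟶ Z := P.π.f 0
  let q : ModuleCat.of S S ⟶ Z := ModuleCat.ofHom I.mkQ
  have : Epi q := (ModuleCat.epi_iff_surjective _).2 I.mkQ_surjective
  have hπ : Function.Surjective π0 := (ModuleCat.epi_iff_surjective _).1
    (inferInstanceAs (Epi (P.π.f 0)))
  let β : P.complex.X 0 ⟶ ModuleCat.of S S := Projective.factorThru π0 q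
  have hβ : β ≫ q = π0 := Projective.factorThru_comp _ _
  have hβ' : ∀ x, I.mkQ (β x) = π0 x := fun x => by
    rw [← hβ]; rfl
  have hd : P.complex.d 1 0 ≫ π0 = 0 := P.complex_d_comp_π_f_zero
  have hmem : ∀ p, β (P.complex.d 1 0 p) ∈ I := fun p => by
    have h1 : I.mkQ (β (P.complex.d 1 0 p)) = 0 := by
      rw [hβ', ← ModuleCat.comp_apply, hd]; rfl
    exact (Submodule.Quotient.mk_eq_zero I).1 h1
  let δ : P.complex.X 1 ⟶ ModuleCat.of S I :=
    ModuleCat.ofHom (LinearMap.codRestrict I (β.hom ∘ₗ (P.complex.d 1 0).hom) hmem)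
  have hδ : P.complex.d 2 1 ≫ δ = 0 := by
    ext p
    have : P.complex.d 1 0 (P.complex.d 2 1 p) = 0 := by
      rw [← ModuleCat.comp_apply, P.complex.d_comp_d]; rfl
    show (β (P.complex.d 1 0 (P.complex.d 2 1 p)) : S) = 0
    rw [this, map_zero]
  let Ψ : K.X 1 ⟶ (ModuleCat.of S I ⊗ κ) := δ ▷ κ
  have hΨ : K.d 2 1 ≫ Ψ = 0 := by
    show P.complex.d 2 1 ▷ κ ≫ δ ▷ κ = 0
    rw [← comp_whiskerRight, hδ, MonoidalPreadditive.zero_whiskerRight]
  let ψ0 : K.homology 1 ⟶ (ModuleCat.of S I ⊗ κ) :=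
    K.homologyι 1 ≫ K.descOpcycles Ψ 2 (by simp) hΨ
  have key : ∀ z : K.X 1, K.d 1 0 z = 0 → ∃ h, ψ0 h = Ψ z := by
    intro z hz
    let σ : ModuleCat.of S S ⟶ K.X 1 := ModuleCat.ofHom (LinearMap.toSpanSingleton S _ z)
    have hσ : σ ≫ K.d 1 0 = 0 := by
      ext
      show K.d 1 0 (LinearMap.toSpanSingleton S _ z 1) = 0
      rw [LinearMap.toSpanSingleton_apply_one, hz]
    refine ⟨(K.liftCycles σ 0 (by simp) hσ ≫ K.homologyπ 1) (1 : S), ?_⟩
    have e : (K.liftCycles σ 0 (by simp) hσ ≫ K.homologyπ 1) ≫ ψ0 = σ ≫ Ψ := by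
      simp only [ψ0, Category.assoc, HomologicalComplex.homology_π_ι_assoc,
        HomologicalComplex.p_descOpcycles, HomologicalComplex.liftCycles_i_assoc]
    rw [← ModuleCat.comp_apply, e]
    show Ψ (LinearMap.toSpanSingleton S _ z 1) = _
    rw [LinearMap.toSpanSingleton_apply_one]
  have hsurj : Function.Surjective ψ0 := by
    obtain ⟨e0, he0⟩ := hπ (I.mkQ 1)
    have hb : β e0 - 1 ∈ I := by
      have : I.mkQ (β e0 - 1) = 0 := by rw [map_sub, hβ', he0, sub_self]
      exact (Submodule.Quotient.mk_eq_zero I).1 this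
    have hex := (ShortComplex.moduleCat_exact_iff _).1 P.exact₀
    intro w
    induction w using TensorProduct.induction_on with
    | zero => exact ⟨0, map_zero _⟩
    | add x y hx hy =>
      obtain ⟨a, ha⟩ := hx
      obtain ⟨b, hb⟩ := hy
      exact ⟨a + b, by rw [map_add, ha, hb]⟩
    | tmul f c =>
      obtain ⟨p, hp⟩ := hex ((f : S) • e0) (by
        show π0 ((f : S) • e0) = 0
        rw [map_smul, he0, ← map_smul, smul_eq_mul, mul_one]
        exact (Submodule.Quotient.mk_eq_zero I).2 f.2)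
      have hp' : P.complex.d 1 0 p = (f : S) • e0 := hp
      obtain ⟨h, hh⟩ := key (p ⊗ₜ[S] c) (by
        show (P.complex.d 1 0 ▷ κ) (p ⊗ₜ[S] c) = 0
        rw [ModuleCat.MonoidalCategory.whiskerRight_apply, hp', TensorProduct.smul_tmul,
          hκ _ f.2, TensorProduct.tmul_zero])
      refine ⟨h, hh.trans ?_⟩
      show (δ ▷ κ) (p ⊗ₜ[S] c) = _
      rw [ModuleCat.MonoidalCategory.whiskerRight_apply]
      have e1 : δ p = (β e0 : S) • f := by
        apply Subtype.ext
        show (β (P.complex.d 1 0 p) : S) = (β e0 : S) * (f : S)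
        rw [hp', map_smul, smul_eq_mul, mul_comm]
      have e2 : (β e0 : S) • c = c := by
        have := hκ _ hb c
        rwa [sub_smul, one_smul, sub_eq_zero] at this
      rw [e1, TensorProduct.smul_tmul, e2]
  refine ⟨(P.isoLeftDerivedObj F 1).hom ≫ ψ0, ?_⟩
  have h2 : Function.Surjective (P.isoLeftDerivedObj F 1).hom :=
    (ModuleCat.epi_iff_surjective _).1 inferInstance
  exact hsurj.comp h2

end Pool.Agent.H79.Asym
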