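import Pool.Agent.H79.Asym2
import Pool.Agent.H79.Asym3

set_option autoImplicit false

namespace Pool.Agent.H79.Asym

open MvPowerSeries

universe u

def cI : Fin 8 → ℤ := ![0, 0, 1, 1, 0, 0, 1, 1]
def cL : Fin 8 → ℤ := ![0, 1, 0, 1, 0, 1, 0, 1]
def cJ : Fin 8 → ℤ := ![0, 0, 0, 0, 1, 1, 1, 1]

def gz (n : ℤ) (x : Fin 8) : ℤ := n * (aa n + cI x * uu n + cL x * vv n) + cJ x * dd n
def gen (n : ℕ) (x : Fin 8) : ℕ := (gz n x).toNat

lemma gz_atom {n : ℤ} (hn : 2 ≤ n) (x : Fin 8) : AtomZ n ((0:ℕ):ℤ) (gz n x) := by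
  rw [atom_iff hn (by simp; omega)]
  left
  refine ⟨cI x, cL x, cJ x, ?_, ?_, ?_, rfl⟩ <;> fin_cases x <;> simp [cI, cL, cJ]

lemma gen_cast {n : ℕ} (hn : 2 ≤ n) (x : Fin 8) : (gen n x : ℤ) = gz n x :=
  Int.toNat_of_nonneg ((gz_atom (n := n) (by exact_mod_cast hn) x).1.nonneg (by exact_mod_cast hn))

lemma gen_ne {n : ℕ} (hn : 2 ≤ n) (x : Fin 8) : gen n x ≠ 0 := by
  intro h
  have h1 := gen_cast hn x
  rw [h] at h1
  exact (gz_atom (n := n) (by exact_mod_cast hn) x).2.1 (by simpa using h1.symm)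

lemma gen_mono {n : ℕ} (hn : 2 ≤ n) : StrictMono (gen n) := by
  have hn' : (2:ℤ) ≤ n := by exact_mod_cast hn
  rw [Fin.strictMono_iff_lt_succ]
  intro i
  have : gz n i.castSucc < gz n i.succ := by
    have h1 : (0:ℤ) < n * n := by positivity
    have h2 : (0:ℤ) < n * n * n := by positivity
    fin_cases i <;> simp [gz, cI, cL, cJ, uu, vv, dd] <;> nlinarith
  rw [← gen_cast hn, ← gen_cast hn] at this
  exact_mod_cast this

lemma gen_range {n : ℕ} (hn : 2 ≤ n) : Set.range (gen n) = {s : ℕ | AtomZ n ((0:ℕ):ℤ) s} := by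
  have hn' : (2:ℤ) ≤ n := by exact_mod_cast hn
  ext s
  constructor
  · rintro ⟨x, rfl⟩
    show AtomZ _ _ _
    rw [gen_cast hn]; exact gz_atom hn' x
  · intro h
    have h' : AtomZ n ((0:ℕ):ℤ) s := h
    rw [atom_iff hn' (by simp)] at h'
    rcases h' with ⟨i, l, j, hi, hl, hj, h⟩ | ⟨j, h0, h1, -⟩
    · have : ∃ x, cI x = i ∧ cL x = l ∧ cJ x = j := by
        rcases hi with rfl | rfl <;> rcases hl with rfl | rfl <;> rcases hj with rfl | rfl <;> decide
      obtain ⟨x, rfl, rfl, rfl⟩ := this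
      refine ⟨x, ?_⟩
      have := gen_cast hn x
      unfold gz at this
      omega
    · simp at h1; omega

def wt (n : ℕ) (γ : Fin 8 → ℕ) : ℕ := ∑ x, gen n x * γ x

/-- the degrees of the relations -/
def deg (n l : ℕ) : ℕ := gen n 4 * (n - l) + gen n 5 * l

lemma deg_cast {n l : ℕ} (hn : 2 ≤ n) (hl : l ≤ n) :
    (deg n l : ℤ) = n * (n * aa n + l * vv n) + n * dd n := by
  unfold deg; push_cast [Nat.cast_sub hl, gen_cast hn]; simp [gz, cI, cL, cJ]; ring

lemma deg_alt {n l : ℕ} (hn : 2 ≤ n) (hl : l ≤ n) :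
    gen n 1 + gen n 3 * l + gen n 2 * (2 * n - l) = deg n l := by
  have h : l ≤ 2 * n := by omega
  zify [h]
  rw [deg_cast hn hl, gen_cast hn, gen_cast hn, gen_cast hn]
  simp [gz, cI, cL, cJ, aa, uu, vv, dd]; ring

lemma deg_inj {n l l' : ℕ} (hn : 2 ≤ n) (hl : l ≤ n) (hl' : l' ≤ n) (h : deg n l = deg n l') :
    l = l' := by
  have h1 : (deg n l : ℤ) = deg n l' := by rw [h]
  rw [deg_cast hn hl, deg_cast hn hl'] at h1
  have h2 : (n : ℤ) * vv n ≠ 0 := mul_ne_zero (by omega) (by unfold vv; omega)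
  have : (l : ℤ) = l' := mul_right_cancel₀ h2 (by linarith)
  exact_mod_cast this

lemma split {n l : ℕ} (hn : 2 ≤ n) (hl : l ≤ n) (γ : Fin 8 → ℕ) (h : wt n γ = deg n l) :
    (γ 0 = 0 ∧ γ 1 = 0 ∧ γ 2 = 0 ∧ γ 3 = 0) ∨ (γ 4 = 0 ∧ γ 5 = 0 ∧ γ 6 = 0 ∧ γ 7 = 0) := by
  have hn' : (2:ℤ) ≤ n := by exact_mod_cast hn
  have h1 : (wt n γ : ℤ) = deg n l := by rw [h]
  rw [deg_cast hn hl] at h1
  have h2 : (wt n γ : ℤ) = n * (((γ 0 : ℤ) + γ 1 + γ 2 + γ 3 + γ 4 + γ 5 + γ 6 + γ 7) * aa n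
      + ((γ 2 : ℤ) + γ 3 + γ 6 + γ 7) * uu n + ((γ 1 : ℤ) + γ 3 + γ 5 + γ 7) * vv n)
      + ((γ 4 : ℤ) + γ 5 + γ 6 + γ 7) * dd n := by
    unfold wt; rw [Fin.sum_univ_eight]; push_cast [gen_cast hn]; simp [gz, cI, cL, cJ]; ring
  have h3 : InS n ((γ 0 : ℤ) + γ 1 + γ 2 + γ 3 + γ 4 + γ 5 + γ 6 + γ 7)
      (((γ 0 : ℤ) + γ 1 + γ 2 + γ 3 + γ 4 + γ 5 + γ 6 + γ 7) * aa n
      + ((γ 2 : ℤ) + γ 3 + γ 6 + γ 7) * uu n + ((γ 1 : ℤ) + γ 3 + γ 5 + γ 7) * vv n) :=
    ⟨_, _, _, le_rfl, by omega, by omega, by omega, by omega, rfl⟩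
  have h4 := h3.lower hn'
  rw [h2] at h1
  obtain ⟨t, ht1, ht2⟩ := decomp_eq hn' h1
  rw [ht2] at h4
  have hl' : (l : ℤ) ≤ n := by exact_mod_cast hl
  have h5 : (l : ℤ) * vv n < aa n := by unfold vv aa; nlinarith
  have ha := aa_pos hn'
  generalize hk : (γ 0 : ℤ) + γ 1 + γ 2 + γ 3 + γ 4 + γ 5 + γ 6 + γ 7 = k at *
  have hk0 : 0 ≤ k := by omega
  rcases lt_trichotomy t 0 with ht | ht | ht
  · exfalso
    have h6 : t * dd n ≤ -dd n := by nlinarith [dd_pos hn']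
    have h7 : (n + 1) * aa n ≤ dd n := by unfold aa dd; nlinarith
    have : 0 ≤ k * aa n := mul_nonneg hk0 ha.le
    linarith
  · subst ht
    have h6 : k * aa n < (n + 1) * aa n := by linarith
    have h7 := lt_of_mul_lt_mul_right h6 ha.le
    left; omega
  · have : (n : ℤ) ≤ t * n := by nlinarith
    right; omega

variable {k : Type u} [Field k]

noncomputable def sa (k : Type u) [Field k] (n : ℕ) (x : Fin 8) : MvPowerSeries Unit k :=
  (PowerSeries.X : PowerSeries k) ^ gen n x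

noncomputable def sb (k : Type u) [Field k] (n : ℕ) (x : Fin 8) : MvPowerSeries Unit k :=
  if 4 ≤ x.val then sa k n x else 0

lemma sa_cc {n : ℕ} (hn : 2 ≤ n) (x : Fin 8) : constantCoeff (sa k n x) = 0 := by
  unfold sa
  rw [map_pow]
  have : constantCoeff (PowerSeries.X : PowerSeries k) = 0 := PowerSeries.constantCoeff_X
  rw [this, zero_pow (gen_ne hn x)]

lemma sb_cc {n : ℕ} (hn : 2 ≤ n) (x : Fin 8) : constantCoeff (sb k n x) = 0 := by
  unfold sb; split_ifs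
  · exact sa_cc hn x
  · simp

lemma sa_has {n : ℕ} (hn : 2 ≤ n) : HasSubst (sa k n) := hasSubst_of_constantCoeff_zero (sa_cc hn)
lemma sb_has {n : ℕ} (hn : 2 ≤ n) : HasSubst (sb k n) := hasSubst_of_constantCoeff_zero (sb_cc hn)

lemma prod_sa (n : ℕ) (γ : Fin 8 →₀ ℕ) :
    (γ.prod fun s e => (sa k n s) ^ e) = (PowerSeries.X : PowerSeries k) ^ wt n γ := by
  rw [Finsupp.prod_fintype _ _ (by simp)]
  unfold sa wt
  simp only [← pow_mul]
  exact Finset.prod_pow_eq_pow_sum _ _ _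

lemma prod_sb (n : ℕ) (γ : Fin 8 →₀ ℕ) :
    (γ.prod fun s e => (sb k n s) ^ e) =
      if γ 0 = 0 ∧ γ 1 = 0 ∧ γ 2 = 0 ∧ γ 3 = 0 then (PowerSeries.X : PowerSeries k) ^ wt n γ
      else 0 := by
  split_ifs with h
  · rw [← prod_sa, Finsupp.prod_fintype _ _ (by simp), Finsupp.prod_fintype _ _ (by simp)]
    obtain ⟨h0, h1, h2, h3⟩ := h
    simp [Fin.prod_univ_eight, sb, h0, h1, h2, h3]
  · rw [Finsupp.prod_fintype _ _ (by simp)]
    have : ∃ x : Fin 8, x.val < 4 ∧ γ x ≠ 0 := by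
      by_contra hc
      push Not at hc
      exact h ⟨hc 0 (by simp), hc 1 (by simp), hc 2 (by simp), hc 3 (by simp)⟩
    obtain ⟨x, hx, hx'⟩ := this
    apply Finset.prod_eq_zero (Finset.mem_univ x)
    unfold sb
    rw [if_neg (by omega), zero_pow hx']

lemma coeff_sub_b {n : ℕ} (hn : 2 ≤ n) (f : MvPowerSeries (Fin 8) k) (q : ℕ) :
    PowerSeries.coeff q (subst (sb k n) f) = finsum (fun γ : Fin 8 →₀ ℕ => coeff γ f •
      (if (γ 0 = 0 ∧ γ 1 = 0 ∧ γ 2 = 0 ∧ γ 3 = 0) ∧ q = wt n γ then (1:k) else 0)) := by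
  have := coeff_subst (sb_has (k := k) hn) f (Finsupp.single () q)
  refine this.trans (congrArg finsum (funext fun γ => ?_))
  congr 1
  rw [prod_sb]
  by_cases h : γ 0 = 0 ∧ γ 1 = 0 ∧ γ 2 = 0 ∧ γ 3 = 0
  · rw [if_pos h]
    have := PowerSeries.coeff_X_pow (R := k) q (wt n γ)
    simp only [h, true_and]
    exact this
  · rw [if_neg h, if_neg (fun h' => h h'.1)]; simp

lemma coeff_sub_a {n : ℕ} (hn : 2 ≤ n) (f : MvPowerSeries (Fin 8) k) (q : ℕ) :
    PowerSeries.coeff q (subst (sa k n) f) = finsum (fun γ : Fin 8 →₀ ℕ => coeff γ f •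
      (if q = wt n γ then (1:k) else 0)) := by
  have := coeff_subst (sa_has (k := k) hn) f (Finsupp.single () q)
  refine this.trans (congrArg finsum (funext fun γ => ?_))
  congr 1
  rw [prod_sa]
  exact PowerSeries.coeff_X_pow (R := k) q (wt n γ)

lemma phi_mul {n l : ℕ} (hn : 2 ≤ n) (hl : l ≤ n) (c h : MvPowerSeries (Fin 8) k)
    (hh : subst (sa k n) h = 0) :
    PowerSeries.coeff (deg n l) (subst (sb k n) (c * h)) =
      constantCoeff c * PowerSeries.coeff (deg n l) (subst (sb k n) h) := by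
  rw [subst_mul (sb_has hn), PowerSeries.coeff_mul, Finset.sum_eq_single (0, deg n l)]
  · congr 1
    have h1 : constantCoeff (subst (sb k n) (c - algebraMap k _ (constantCoeff c))) = 0 :=
      constantCoeff_subst_eq_zero (sb_has hn) (sb_cc hn) (by simp [MvPowerSeries.algebraMap_apply])
    rw [← substAlgHom_apply (sb_has hn), map_sub, AlgHom.commutes, map_sub, sub_eq_zero,
      substAlgHom_apply] at h1
    simp only [PowerSeries.coeff_zero_eq_constantCoeff]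
    exact h1.trans (by rw [MvPowerSeries.algebraMap_apply, MvPowerSeries.constantCoeff_C]; rfl)
  · rintro ⟨p, q⟩ hpq hne
    rw [Finset.HasAntidiagonal.mem_antidiagonal] at hpq
    dsimp only at hpq ⊢
    by_cases hb : ∃ β : Fin 8 →₀ ℕ, (β 0 = 0 ∧ β 1 = 0 ∧ β 2 = 0 ∧ β 3 = 0) ∧ p = wt n β
    · obtain ⟨β, hβ, hp⟩ := hb
      apply mul_eq_zero_of_right
      have h0 : PowerSeries.coeff q (subst (sa k n) h) = 0 := by rw [hh]; simp
      rw [← h0, coeff_sub_a hn, coeff_sub_b hn]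
      refine congrArg finsum (funext fun γ => ?_)
      congr 1
      by_cases hq : q = wt n γ
      · rw [if_pos hq, if_pos]
        refine ⟨?_, hq⟩
        have h2 : wt n (fun x => β x + γ x) = deg n l := by
          rw [← hpq, hp, hq]; unfold wt; simp only [mul_add, Finset.sum_add_distrib]
        rcases split hn hl _ h2 with h3 | h3
        · omega
        · exfalso
          apply hne
          have : p = 0 := by
            rw [hp]; unfold wt; rw [Fin.sum_univ_eight]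
            have e4 : β 4 = 0 := by omega
            have e5 : β 5 = 0 := by omega
            have e6 : β 6 = 0 := by omega
            have e7 : β 7 = 0 := by omega
            simp [hβ.1, hβ.2.1, hβ.2.2.1, hβ.2.2.2, e4, e5, e6, e7]
          subst this
          simp at hpq; simp [hpq]
      · rw [if_neg hq, if_neg (fun h' => hq h'.2)]
    · apply mul_eq_zero_of_left
      rw [coeff_sub_b hn, finsum_eq_zero_of_forall_eq_zero]
      intro β
      rw [if_neg (fun h' => hb ⟨β, h'⟩), smul_zero]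
  · intro h; simp at h

/-- the binomial relations -/
noncomputable def bin (k : Type u) [Field k] (n l : ℕ) : MvPowerSeries (Fin 8) k :=
  X 4 ^ (n - l) * X 5 ^ l - X 1 * X 3 ^ l * X 2 ^ (2 * n - l)

lemma bin_a {n l : ℕ} (hn : 2 ≤ n) (hl : l ≤ n) : subst (sa k n) (bin k n l) = 0 := by
  rw [← substAlgHom_apply (sa_has hn)]
  simp only [bin, map_sub, map_mul, map_pow, substAlgHom_X, sa, ← pow_mul, ← pow_add]
  rw [deg_alt hn hl, sub_eq_zero]; rfl

lemma bin_b {n l : ℕ} (hn : 2 ≤ n) :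
    subst (sb k n) (bin k n l) = (PowerSeries.X : PowerSeries k) ^ deg n l := by
  rw [← substAlgHom_apply (sb_has hn)]
  simp only [bin, map_sub, map_mul, map_pow, substAlgHom_X]
  simp [sb, sa, ← pow_mul, ← pow_add, deg]

end Pool.Agent.H79.Asym
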