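import Mathlib

set_option autoImplicit false

namespace Pool.Agent.H79.BC1

open Submodule

variable {S : Type*} [CommRing S] {N N₂ : Type*} [AddCommGroup N] [Module S N]
  [AddCommGroup N₂] [Module S N₂]

/-- relative length of `P` modulo `Q` -/
noncomputable def rl (P Q : Submodule S N) : ℕ∞ := Module.length S (P ⧸ Q.comap P.subtype)

noncomputable def indMap (f : N →ₗ[S] N₂) (P Q : Submodule S N) (P₂ Q₂ : Submodule S N₂)
    (h1 : ∀ x ∈ P, f x ∈ P₂) (h3 : ∀ x ∈ P, x ∈ Q → f x ∈ Q₂) :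
    (P ⧸ Q.comap P.subtype) →ₗ[S] (P₂ ⧸ Q₂.comap P₂.subtype) :=
  Submodule.mapQ _ _ (f.restrict h1) (fun x hx => h3 x.1 x.2 hx)

theorem indMap_mk (f : N →ₗ[S] N₂) (P Q : Submodule S N) (P₂ Q₂ : Submodule S N₂)
    (h1 : ∀ x ∈ P, f x ∈ P₂) (h3 : ∀ x ∈ P, x ∈ Q → f x ∈ Q₂) (x : P) :
    indMap f P Q P₂ Q₂ h1 h3 (Submodule.Quotient.mk x) =
      Submodule.Quotient.mk ⟨f x.1, h1 x.1 x.2⟩ := rfl

theorem indMap_surj (f : N →ₗ[S] N₂) (P Q : Submodule S N) (P₂ Q₂ : Submodule S N₂)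
    (h1 : ∀ x ∈ P, f x ∈ P₂) (h3 : ∀ x ∈ P, x ∈ Q → f x ∈ Q₂)
    (h2 : ∀ y ∈ P₂, ∃ x ∈ P, y - f x ∈ Q₂) : Function.Surjective (indMap f P Q P₂ Q₂ h1 h3) := by
  intro y
  obtain ⟨y, rfl⟩ := Submodule.Quotient.mk_surjective _ y
  obtain ⟨x, hx, hxy⟩ := h2 y.1 y.2
  refine ⟨Submodule.Quotient.mk ⟨x, hx⟩, ?_⟩
  rw [indMap_mk, eq_comm, Submodule.Quotient.eq]
  exact hxy

theorem indMap_inj (f : N →ₗ[S] N₂) (P Q : Submodule S N) (P₂ Q₂ : Submodule S N₂)
    (h1 : ∀ x ∈ P, f x ∈ P₂) (h3 : ∀ x ∈ P, x ∈ Q → f x ∈ Q₂)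
    (h4 : ∀ x ∈ P, f x ∈ Q₂ → x ∈ Q) : Function.Injective (indMap f P Q P₂ Q₂ h1 h3) := by
  rw [injective_iff_map_eq_zero]
  intro x hx
  obtain ⟨x, rfl⟩ := Submodule.Quotient.mk_surjective _ x
  rw [indMap_mk] at hx
  rw [Submodule.Quotient.mk_eq_zero] at hx ⊢
  exact h4 x.1 x.2 hx

theorem rl_le_of_surj (f : N →ₗ[S] N₂) {P Q : Submodule S N} {P₂ Q₂ : Submodule S N₂}
    (h1 : ∀ x ∈ P, f x ∈ P₂) (h3 : ∀ x ∈ P, x ∈ Q → f x ∈ Q₂)
    (h2 : ∀ y ∈ P₂, ∃ x ∈ P, y - f x ∈ Q₂) : rl P₂ Q₂ ≤ rl P Q :=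
  Module.length_le_of_surjective _ (indMap_surj f P Q P₂ Q₂ h1 h3 h2)

theorem rl_eq (f : N →ₗ[S] N₂) {P Q : Submodule S N} {P₂ Q₂ : Submodule S N₂}
    (h1 : ∀ x ∈ P, f x ∈ P₂) (h3 : ∀ x ∈ P, x ∈ Q → f x ∈ Q₂)
    (h2 : ∀ y ∈ P₂, ∃ x ∈ P, y - f x ∈ Q₂) (h4 : ∀ x ∈ P, f x ∈ Q₂ → x ∈ Q) :
    rl P Q = rl P₂ Q₂ :=
  (LinearEquiv.ofBijective (indMap f P Q P₂ Q₂ h1 h3)
    ⟨indMap_inj f P Q P₂ Q₂ h1 h3 h4, indMap_surj f P Q P₂ Q₂ h1 h3 h2⟩).length_eq

theorem rl_chain {P P' Q : Submodule S N} (h1 : Q ≤ P') (h2 : P' ≤ P) :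
    rl P Q = rl P' Q + rl P P' := by
  refine Module.length_eq_add_of_exact
    (indMap LinearMap.id P' Q P Q (fun x hx => h2 hx) (fun x _ hx => hx))
    (indMap LinearMap.id P Q P P' (fun x hx => hx) (fun x _ hx => h1 hx))
    (indMap_inj _ _ _ _ _ _ _ (fun x _ hx => hx))
    (indMap_surj _ _ _ _ _ _ _ (fun y hy => ⟨y, hy, by simp⟩)) ?_
  intro y
  obtain ⟨y, rfl⟩ := Submodule.Quotient.mk_surjective _ y
  rw [indMap_mk, Submodule.Quotient.mk_eq_zero]
  constructor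
  · intro hy
    exact ⟨Submodule.Quotient.mk ⟨y.1, hy⟩, rfl⟩
  · rintro ⟨x, hx⟩
    obtain ⟨x, rfl⟩ := Submodule.Quotient.mk_surjective _ x
    rw [indMap_mk, Submodule.Quotient.eq] at hx
    have hx' : x.1 - y.1 ∈ Q := hx
    have : y.1 = x.1 - (x.1 - y.1) := by abel
    show y.1 ∈ P'
    rw [this]
    exact P'.sub_mem x.2 (h1 hx')

theorem rl_top (Q : Submodule S N) : rl ⊤ Q = Module.length S (N ⧸ Q) := by
  refine (Submodule.Quotient.equiv _ _ Submodule.topEquiv ?_).length_eq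
  ext x
  simp only [mem_map, mem_comap, coe_subtype, LinearEquiv.coe_coe, topEquiv_apply]
  constructor
  · rintro ⟨y, hy, rfl⟩; exact hy
  · intro hx; exact ⟨⟨x, trivial⟩, hx, rfl⟩

theorem rl_top_bot : rl (⊤ : Submodule S N) ⊥ = Module.length S N := by
  rw [rl_top]; exact (Submodule.quotEquivOfEqBot _ rfl).length_eq

theorem rl_anti {P Q Q' : Submodule S N} (h : Q ≤ Q') : rl P Q' ≤ rl P Q :=
  rl_le_of_surj LinearMap.id (fun _ hx => hx) (fun _ _ hx => h hx) (fun y hy => ⟨y, hy, by simp⟩)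

theorem rl_eq_zero {P Q : Submodule S N} (h : P ≤ Q) : rl P Q = 0 := by
  rw [rl, Module.length_eq_zero_iff, Submodule.Quotient.subsingleton_iff, eq_top_iff]
  intro x _
  exact h x.2

theorem one_le_rl {P Q : Submodule S N} {v : N} (hv : v ∈ P) (hq : v ∉ Q) : 1 ≤ rl P Q := by
  rw [Order.one_le_iff_pos, rl, Module.length_pos_iff]
  refine ⟨Submodule.Quotient.mk ⟨v, hv⟩, 0, ?_⟩
  rw [Ne, Submodule.Quotient.mk_eq_zero]
  exact hq

/-- elements killed by `a` -/
def Zk (a : S) (N : Type*) [AddCommGroup N] [Module S N] : Submodule S N :=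
  LinearMap.ker (LinearMap.lsmul S N a)

/-- multiples of `b` -/
def Bm (b : S) (N : Type*) [AddCommGroup N] [Module S N] : Submodule S N :=
  LinearMap.range (LinearMap.lsmul S N b)

theorem mem_Zk {a : S} {n : N} : n ∈ Zk a N ↔ a • n = 0 := Iff.rfl

theorem mem_Bm {b : S} {n : N} : n ∈ Bm b N ↔ ∃ m : N, b • m = n := Iff.rfl

noncomputable def hh (a b : S) (N : Type*) [AddCommGroup N] [Module S N] : ℕ∞ :=
  rl (Zk a N) (Bm b N)

def Bal (a b : S) (N : Type*) [AddCommGroup N] [Module S N] : Prop :=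
  hh a b N ≠ ⊤ ∧ hh a b N = hh b a N

theorem Bm_le_Zk {a b : S} (hab : a * b = 0) : Bm b N ≤ Zk a N := by
  rintro _ ⟨m, rfl⟩
  rw [mem_Zk]
  show a • b • m = 0
  rw [smul_smul, hab, zero_smul]

theorem hh_equiv (a b : S) (e : N ≃ₗ[S] N₂) : hh a b N = hh a b N₂ := by
  refine rl_eq e.toLinearMap ?_ ?_ ?_ ?_
  · intro x hx
    rw [mem_Zk] at hx ⊢
    rw [← map_smul, hx, map_zero]
  · rintro x _ ⟨m, rfl⟩
    exact ⟨e m, by simp⟩
  · intro y hy
    refine ⟨e.symm y, ?_, by simp⟩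
    rw [mem_Zk] at hy ⊢
    rw [← map_smul, hy, map_zero]
  · rintro x _ ⟨m, hm⟩
    refine ⟨e.symm m, e.injective ?_⟩
    simpa using hm

theorem Bal.equiv {a b : S} (e : N ≃ₗ[S] N₂) (h : Bal a b N) : Bal a b N₂ := by
  unfold Bal at *
  rwa [← hh_equiv a b e, ← hh_equiv b a e]

section exact

variable {N₁ N₃ : Type*} [AddCommGroup N₁] [Module S N₁] [AddCommGroup N₃] [Module S N₃]
  (f : N₁ →ₗ[S] N₂) (g : N₂ →ₗ[S] N₃) (hf : Function.Injective f) (hg : Function.Surjective g)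
  (H : Function.Exact f g)

noncomputable def al (c : S) (K : Submodule S N) : ℕ∞ :=
  rl (Bm c N ⊓ K) (K.map (LinearMap.lsmul S N c))

noncomputable def be (a b : S) (K : Submodule S N) : ℕ∞ :=
  rl (Bm b N ⊔ (Zk a N ⊓ K)) (Bm b N)

noncomputable def ga (a b : S) (K : Submodule S N) : ℕ∞ :=
  rl (Zk a N) (Bm b N ⊔ (Zk a N ⊓ K))

include hf in
theorem hh_left {a b : S} (hab : a * b = 0) :
    hh a b N₁ = al b (LinearMap.range f) + be a b (LinearMap.range f) := by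
  have e1 : hh a b N₁ = rl (Zk a N₂ ⊓ LinearMap.range f)
      ((LinearMap.range f).map (LinearMap.lsmul S N₂ b)) := by
    refine rl_eq f ?_ ?_ ?_ ?_
    · intro x hx
      refine ⟨?_, x, rfl⟩
      rw [mem_Zk] at hx
      show a • f x = 0
      rw [← map_smul, hx, map_zero]
    · rintro x _ ⟨m, rfl⟩
      exact ⟨f m, ⟨m, rfl⟩, by simp⟩
    · rintro _ ⟨hy, x, rfl⟩
      refine ⟨x, ?_, by simp⟩
      have hy' : a • f x = 0 := hy
      rw [mem_Zk]
      apply hf
      rw [map_smul, hy', map_zero]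
    · rintro x _ ⟨_, ⟨m, rfl⟩, hm⟩
      exact ⟨m, hf (by simpa using hm)⟩
  have e2 : rl (Zk a N₂ ⊓ LinearMap.range f) (Bm b N₂ ⊓ LinearMap.range f) =
      be a b (LinearMap.range f) := by
    refine rl_eq LinearMap.id ?_ ?_ ?_ ?_
    · intro x hx; exact mem_sup_right hx
    · intro x _ hx; exact hx.1
    · intro y hy
      obtain ⟨u, hu, v, hv, rfl⟩ := mem_sup.mp hy
      exact ⟨v, hv, by simpa using hu⟩
    · intro x hx hx'; exact ⟨hx', hx.2⟩
  rw [e1, rl_chain (P' := Bm b N₂ ⊓ LinearMap.range f), e2]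
  · rfl
  · rintro _ ⟨m, hm, rfl⟩
    exact ⟨⟨m, rfl⟩, (LinearMap.range f).smul_mem b hm⟩
  · exact inf_le_inf_right _ (Bm_le_Zk hab)

theorem hh_mid {a b : S} (hab : a * b = 0) (K : Submodule S N) :
    hh a b N = be a b K + ga a b K :=
  rl_chain le_sup_left (sup_le (Bm_le_Zk hab) inf_le_left)

include hg H in
theorem hh_right {a b : S} (hab : a * b = 0) :
    hh a b N₃ = ga a b (LinearMap.range f) + al a (LinearMap.range f) := by
  set K := LinearMap.range f with hK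
  have hk : ∀ x, g x = 0 ↔ x ∈ K := fun x => H x
  have e1 : rl (K.comap (LinearMap.lsmul S N₂ a)) (Bm b N₂ ⊔ K) = hh a b N₃ := by
    refine rl_eq g ?_ ?_ ?_ ?_
    · intro x hx
      rw [mem_Zk, ← map_smul, hk]
      exact hx
    · intro x _ hx
      obtain ⟨_, ⟨m, rfl⟩, v, hv, rfl⟩ := mem_sup.mp hx
      exact ⟨g m, by simp [(hk v).mpr hv]⟩
    · intro y hy
      obtain ⟨x, rfl⟩ := hg y
      refine ⟨x, ?_, by simp⟩
      rw [mem_Zk, ← map_smul, hk] at hy
      exact hy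
    · rintro x _ ⟨m, hm⟩
      obtain ⟨m, rfl⟩ := hg m
      have : x - b • m ∈ K := by
        rw [← hk, map_sub, map_smul, sub_eq_zero]
        exact hm.symm
      have e : x = b • m + (x - b • m) := by abel
      rw [e]
      exact add_mem (mem_sup_left ⟨m, rfl⟩) (mem_sup_right this)
  have e2 : ga a b K = rl (Zk a N₂ ⊔ K) (Bm b N₂ ⊔ K) := by
    refine rl_eq LinearMap.id ?_ ?_ ?_ ?_
    · intro x hx; exact mem_sup_left hx
    · intro x _ hx
      exact (sup_le_sup_left inf_le_right _ : Bm b N₂ ⊔ (Zk a N₂ ⊓ K) ≤ Bm b N₂ ⊔ K) hx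
    · intro y hy
      obtain ⟨u, hu, v, hv, rfl⟩ := mem_sup.mp hy
      exact ⟨u, hu, by simpa using mem_sup_right hv⟩
    · intro x hx hx'
      obtain ⟨u, hu, v, hv, huv⟩ := mem_sup.mp hx'
      have huv' : u + v = x := huv
      have : v = x - u := by rw [← huv']; abel
      rw [← huv']
      refine add_mem (mem_sup_left hu) (mem_sup_right ⟨?_, hv⟩)
      rw [this]
      exact sub_mem hx (Bm_le_Zk hab hu)
  have e3 : rl (K.comap (LinearMap.lsmul S N₂ a)) (Zk a N₂ ⊔ K) = al a K := by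
    refine rl_eq (LinearMap.lsmul S N₂ a) ?_ ?_ ?_ ?_
    · intro x hx; exact ⟨⟨x, rfl⟩, hx⟩
    · intro x _ hx
      obtain ⟨u, hu, v, hv, rfl⟩ := mem_sup.mp hx
      refine ⟨v, hv, ?_⟩
      have hu' : a • u = 0 := hu
      simp [hu']
    · rintro _ ⟨⟨m, rfl⟩, hm⟩
      exact ⟨m, hm, by simp⟩
    · rintro x _ ⟨k, hk', hkx⟩
      have e : x = (x - k) + k := by abel
      rw [e]
      refine add_mem (mem_sup_left ?_) (mem_sup_right hk')
      have : a • k = a • x := hkx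
      rw [mem_Zk, smul_sub, this, sub_self]
  rw [← e1, rl_chain (P' := Zk a N₂ ⊔ K), e2, e3]
  · exact sup_le_sup_right (Bm_le_Zk hab) _
  · refine sup_le ?_ ?_
    · intro x hx
      have hx' : a • x = 0 := hx
      show a • x ∈ K
      rw [hx']; exact K.zero_mem
    · intro x hx
      exact K.smul_mem a hx

include hf hg H in
theorem Bal.exact {a b : S} (hab : a * b = 0) (h1 : Bal a b N₁) (h3 : Bal a b N₃) :
    Bal a b N₂ := by
  have hba : b * a = 0 := by rw [mul_comm, hab]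
  unfold Bal at *
  rw [hh_left f hf hab, hh_left f hf hba] at h1
  rw [hh_right f g hg H hab, hh_right f g hg H hba] at h3
  rw [hh_mid hab (LinearMap.range f), hh_mid hba (LinearMap.range f)]
  generalize al a (LinearMap.range f) = a1 at *
  generalize al b (LinearMap.range f) = a2 at *
  generalize be a b (LinearMap.range f) = b1 at *
  generalize be b a (LinearMap.range f) = b2 at *
  generalize ga a b (LinearMap.range f) = c1 at *
  generalize ga b a (LinearMap.range f) = c2 at *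
  obtain ⟨h11, h12⟩ := h1
  obtain ⟨h31, h32⟩ := h3
  have h13 := h12 ▸ h11
  have h33 := h32 ▸ h31
  rw [Ne, ENat.add_eq_top, not_or] at h11 h13 h31 h33
  lift a1 to ℕ using h13.1
  lift a2 to ℕ using h11.1
  lift b1 to ℕ using h11.2
  lift b2 to ℕ using h13.2
  lift c1 to ℕ using h31.1
  lift c2 to ℕ using h33.1
  norm_cast at h12 h32 ⊢
  exact ⟨ENat.coe_ne_top _, by omega⟩

end exact

theorem Bal.of_finite {a b : S} (hab : a * b = 0) (h : Module.length S N ≠ ⊤) : Bal a b N := by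
  have hba : b * a = 0 := by rw [mul_comm, hab]
  have key : ∀ c d : S, c * d = 0 →
      Module.length S N = rl (Bm d N) ⊥ + hh c d N + rl (Bm c N) ⊥ := by
    intro c d hcd
    have e : rl ⊤ (Zk c N) = rl (Bm c N) ⊥ := by
      refine rl_eq (LinearMap.lsmul S N c) ?_ ?_ ?_ ?_
      · intro x _; exact ⟨x, rfl⟩
      · intro x _ hx; exact hx
      · rintro _ ⟨m, rfl⟩; exact ⟨m, trivial, by simp⟩
      · intro x _ hx; exact hx
    rw [← rl_top_bot, rl_chain (P' := Zk c N) bot_le le_top,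
      rl_chain (P' := Bm d N) bot_le (Bm_le_Zk hcd), e]
    rfl
  have k1 := key a b hab
  have k2 := key b a hba
  unfold Bal
  generalize rl (Bm a N) ⊥ = u at *
  generalize rl (Bm b N) ⊥ = v at *
  generalize hh a b N = p at *
  generalize hh b a N = q at *
  have h1 := k1 ▸ h
  have h2 := k2 ▸ h
  rw [Ne, ENat.add_eq_top, ENat.add_eq_top, not_or, not_or] at h1 h2
  lift u to ℕ using h1.2
  lift v to ℕ using h2.2
  lift p to ℕ using h1.1.2
  lift q to ℕ using h2.1.2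
  rw [k1] at k2
  norm_cast at k2 ⊢
  exact ⟨ENat.coe_ne_top _, by omega⟩

theorem Bal.of_acyclic {a b : S} (h1 : Zk a N ≤ Bm b N) (h2 : Zk b N ≤ Bm a N) : Bal a b N := by
  unfold Bal hh
  rw [rl_eq_zero h1, rl_eq_zero h2]
  exact ⟨by simp, rfl⟩

theorem Bm_pow_le (r : S) (n : ℕ) : Bm (r ^ (n + 1)) N ≤ Bm (r ^ n) N := by
  rintro _ ⟨m, rfl⟩
  exact ⟨r • m, by simp [smul_smul, pow_succ, mul_comm]⟩

theorem rl_pow_le (P : Submodule S N) (r : S) (n : ℕ) :
    rl ⊤ (P ⊔ Bm (r ^ n) N) ≤ n * rl ⊤ (P ⊔ Bm r N) := by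
  induction n with
  | zero =>
    rw [rl_eq_zero]
    · simp
    · intro x _
      exact mem_sup_right ⟨x, by simp⟩
  | succ n ih =>
    rw [rl_chain (P' := P ⊔ Bm (r ^ n) N) (sup_le_sup_left (Bm_pow_le r n) _) le_top]
    have : rl (P ⊔ Bm (r ^ n) N) (P ⊔ Bm (r ^ (n + 1)) N) ≤ rl ⊤ (P ⊔ Bm r N) := by
      refine rl_le_of_surj (LinearMap.lsmul S N (r ^ n)) ?_ ?_ ?_
      · intro x _; exact mem_sup_right ⟨x, rfl⟩
      · intro x _ hx
        obtain ⟨u, hu, _, ⟨m, rfl⟩, rfl⟩ := mem_sup.mp hx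
        rw [map_add]
        exact add_mem (mem_sup_left (P.smul_mem _ hu))
          (mem_sup_right ⟨m, by simp [smul_smul, pow_succ, mul_comm]⟩)
      · intro y hy
        obtain ⟨u, hu, _, ⟨m, rfl⟩, rfl⟩ := mem_sup.mp hy
        exact ⟨m, trivial, by simpa using mem_sup_left hu⟩
    calc _ ≤ rl ⊤ (P ⊔ Bm r N) + n * rl ⊤ (P ⊔ Bm r N) := add_le_add this ih
      _ = _ := by push_cast; ring

theorem reg_pow {P : Submodule S N} {r : S} (hr : ∀ v, r • v ∈ P → v ∈ P) (n : ℕ) :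
    ∀ v, r ^ n • v ∈ P → v ∈ P := by
  induction n with
  | zero => simp
  | succ n ih =>
    intro v hv
    rw [pow_succ, mul_smul] at hv
    exact hr _ (ih _ hv)

theorem rl_pow_eq (P : Submodule S N) (r : S) (hr : ∀ v, r • v ∈ P → v ∈ P) (n : ℕ) :
    rl ⊤ (P ⊔ Bm (r ^ n) N) = n * rl ⊤ (P ⊔ Bm r N) := by
  induction n with
  | zero =>
    rw [rl_eq_zero]
    · simp
    · intro x _
      exact mem_sup_right ⟨x, by simp⟩
  | succ n ih =>
    rw [rl_chain (P' := P ⊔ Bm (r ^ n) N) (sup_le_sup_left (Bm_pow_le r n) _) le_top]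
    have : rl ⊤ (P ⊔ Bm r N) = rl (P ⊔ Bm (r ^ n) N) (P ⊔ Bm (r ^ (n + 1)) N) := by
      refine rl_eq (LinearMap.lsmul S N (r ^ n)) ?_ ?_ ?_ ?_
      · intro x _; exact mem_sup_right ⟨x, rfl⟩
      · intro x _ hx
        obtain ⟨u, hu, _, ⟨m, rfl⟩, rfl⟩ := mem_sup.mp hx
        rw [map_add]
        exact add_mem (mem_sup_left (P.smul_mem _ hu))
          (mem_sup_right ⟨m, by simp [smul_smul, pow_succ, mul_comm]⟩)
      · intro y hy
        obtain ⟨u, hu, _, ⟨m, rfl⟩, rfl⟩ := mem_sup.mp hy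
        exact ⟨m, trivial, by simpa using mem_sup_left hu⟩
      · intro x _ hx
        obtain ⟨u, hu, _, ⟨m, rfl⟩, h⟩ := mem_sup.mp hx
        have h' : u + r ^ (n + 1) • m = r ^ n • x := h
        have : r ^ n • (x - r • m) ∈ P := by
          rw [smul_sub, ← h', smul_smul, ← pow_succ]
          simpa using hu
        have e : x = (x - r • m) + r • m := by abel
        rw [e]
        exact add_mem (mem_sup_left (reg_pow hr n _ this)) (mem_sup_right ⟨m, rfl⟩)
    rw [← this, ih]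
    push_cast; ring

/-- `u, v` is a weakly regular sequence -/
def Reg2 (u v : S) (N : Type*) [AddCommGroup N] [Module S N] : Prop :=
  (∀ n : N, u • n = 0 → n = 0) ∧ ∀ n : N, v • n ∈ Bm u N → n ∈ Bm u N

theorem Reg2.pow {u v : S} (h : Reg2 u v N) (i : ℕ) :
    ∀ n : N, v • n ∈ Bm (u ^ i) N → n ∈ Bm (u ^ i) N := by
  induction i with
  | zero => intro n _; exact ⟨n, by simp⟩
  | succ i ih =>
    rintro n ⟨m, hm⟩
    have hm' : u ^ (i + 1) • m = v • n := hm
    obtain ⟨n', hn'⟩ := h.2 n ⟨u ^ i • m, by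
      show u • u ^ i • m = v • n
      rw [← hm', smul_smul, pow_succ']⟩
    have hn'' : u • n' = n := hn'
    have : v • n' = u ^ i • m := by
      rw [← sub_eq_zero]
      apply h.1
      rw [smul_sub, smul_comm u v, hn'', smul_smul, ← pow_succ', hm', sub_self]
    obtain ⟨n'', hn3⟩ := ih n' ⟨m, this.symm⟩
    have hn4 : u ^ i • n'' = n' := hn3
    refine ⟨n'', ?_⟩
    show u ^ (i + 1) • n'' = n
    rw [pow_succ', mul_smul, hn4, hn'']

theorem rl_sq_eq {u v : S} (h : Reg2 u v N) (h' : Reg2 v u N) (i : ℕ) :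
    rl ⊤ (Bm (u ^ i) N ⊔ Bm (v ^ i) N) = i * (i * rl ⊤ (Bm u N ⊔ Bm v N)) := by
  rw [rl_pow_eq _ v (h.pow i), sup_comm, rl_pow_eq _ u h'.2, sup_comm]

theorem rl_sq_le (u v : S) (i : ℕ) :
    rl ⊤ (Bm (u ^ i) N ⊔ Bm (v ^ i) N) ≤ i * (i * rl ⊤ (Bm u N ⊔ Bm v N)) := by
  refine (rl_pow_le _ v i).trans ?_
  rw [sup_comm]
  gcongr
  refine (rl_pow_le _ u i).trans ?_
  rw [sup_comm]

theorem rl_le_card [IsLocalRing S] (Q : Submodule S N) (s : Finset N)
    (hs : ∀ v ∈ s, ∀ c ∈ IsLocalRing.maximalIdeal S, c • v ∈ Q) :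
    rl (Q ⊔ span S (s : Set N)) Q ≤ s.card := by
  classical
  induction s using Finset.induction_on with
  | empty => rw [rl_eq_zero] <;> simp
  | insert v s hv ih =>
    have hle : Q ⊔ span S (s : Set N) ≤ Q ⊔ span S ((insert v s : Finset N) : Set N) :=
      sup_le_sup_left (span_mono (by simp)) _
    rw [rl_chain (P' := Q ⊔ span S (s : Set N)) le_sup_left hle, Finset.card_insert_of_notMem hv]
    have h1 : rl (Q ⊔ span S ((insert v s : Finset N) : Set N)) (Q ⊔ span S (s : Set N)) ≤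
        rl (⊤ : Submodule S S) (IsLocalRing.maximalIdeal S) := by
      refine rl_le_of_surj (LinearMap.toSpanSingleton S N v) ?_ ?_ ?_
      · intro c _
        exact mem_sup_right (smul_mem _ c (subset_span (by simp)))
      · intro c _ hc
        exact mem_sup_left (hs v (by simp) c hc)
      · intro y hy
        obtain ⟨q, hq, w, hw, rfl⟩ := mem_sup.mp hy
        rw [Finset.coe_insert, span_insert] at hw
        obtain ⟨w1, hw1, w2, hw2, rfl⟩ := mem_sup.mp hw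
        obtain ⟨c, rfl⟩ := mem_span_singleton.mp hw1
        refine ⟨c, trivial, ?_⟩
        have : q + (c • v + w2) - (LinearMap.toSpanSingleton S N v) c = q + w2 := by
          simp only [LinearMap.toSpanSingleton_apply]; abel
        rw [this]
        exact add_mem (mem_sup_left hq) (mem_sup_right hw2)
    have h2 : rl (⊤ : Submodule S S) (IsLocalRing.maximalIdeal S) = 1 := by
      rw [rl_top, Module.length_eq_one_iff]
      exact isSimpleModule_iff_isCoatom.mpr (Ideal.isMaximal_def.mp inferInstance)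
    rw [h2] at h1
    rw [Nat.cast_add, Nat.cast_one]
    exact add_le_add (ih fun w hw => hs w (by simp [hw])) h1

theorem exists_gen (k : ℕ) : ∀ Q : Submodule S N, rl ⊤ Q ≤ k →
    ∃ s : Finset N, s.card ≤ k ∧ Q ⊔ span S (s : Set N) = ⊤ := by
  classical
  induction k with
  | zero =>
    intro Q hQ
    refine ⟨∅, le_rfl, ?_⟩
    by_contra h
    have : ∃ v, v ∉ Q := by
      by_contra h'
      push Not at h'
      exact h (by simpa using eq_top_iff'.mpr h')
    obtain ⟨v, hv⟩ := this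
    have := (one_le_rl (P := ⊤) trivial hv).trans hQ
    simp at this
  | succ k ih =>
    intro Q hQ
    by_cases h : Q = ⊤
    · exact ⟨∅, by simp, by simp [h]⟩
    · have : ∃ v, v ∉ Q := by
        by_contra h'
        push Not at h'
        exact h (eq_top_iff'.mpr h')
      obtain ⟨v, hv⟩ := this
      rw [rl_chain (P' := Q ⊔ span S {v}) le_sup_left le_top] at hQ
      have h1 : 1 ≤ rl (Q ⊔ span S {v}) Q :=
        one_le_rl (mem_sup_right (mem_span_singleton_self v)) hv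
      have h2 : rl ⊤ (Q ⊔ span S {v}) ≤ k := by
        have : 1 + rl ⊤ (Q ⊔ span S {v}) ≤ 1 + (k : ℕ∞) := by
          calc _ ≤ _ := add_le_add h1 le_rfl
            _ ≤ _ := hQ
            _ = _ := by push_cast; ring
        exact (ENat.add_le_add_iff_left (by simp)).mp this
      obtain ⟨s, hs, hs'⟩ := ih _ h2
      refine ⟨insert v s, (Finset.card_insert_le _ _).trans (by omega), ?_⟩
      rw [Finset.coe_insert, span_insert, ← sup_assoc, hs']

theorem le_rl_of_pow [IsLocalRing S] {x : S} (hx : x ∈ IsLocalRing.maximalIdeal S)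
    {P : Submodule S N} {w : N} (hw : w ∈ P) (j : ℕ) :
    ∀ Q : Submodule S N, Q ≤ P → x ^ j • w ∉ Q → ((j + 1 : ℕ) : ℕ∞) ≤ rl P Q := by
  induction j with
  | zero =>
    intro Q _ h
    simpa using one_le_rl hw (by simpa using h)
  | succ j ih =>
    intro Q hQ h
    have hle : Q ⊔ span S {x ^ (j + 1) • w} ≤ P :=
      sup_le hQ ((span_singleton_le_iff_mem _ _).mpr (P.smul_mem _ hw))
    rw [rl_chain (P' := Q ⊔ span S {x ^ (j + 1) • w}) le_sup_left hle]
    have h1 : 1 ≤ rl (Q ⊔ span S {x ^ (j + 1) • w}) Q :=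
      one_le_rl (mem_sup_right (mem_span_singleton_self _)) h
    have h2 := ih _ hle (by
      intro hm
      obtain ⟨q, hq, _, hw1, e⟩ := mem_sup.mp hm
      obtain ⟨c, rfl⟩ := mem_span_singleton.mp hw1
      have hu : IsUnit (1 - c * x) := by
        apply IsLocalRing.isUnit_one_sub_self_of_mem_nonunits
        exact (IsLocalRing.maximalIdeal S).mul_mem_left c hx
      obtain ⟨u, hu⟩ := hu
      apply h
      have : x ^ (j + 1) • w = (x * ↑u⁻¹) • q := by
        have e2 : q = (1 - c * x) • x ^ j • w := by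
          rw [sub_smul, one_smul, mul_smul, smul_smul x, ← pow_succ', eq_sub_iff_add_eq, e]
        rw [e2, ← hu, smul_smul, smul_smul]
        congr 1
        rw [mul_assoc x, Units.inv_mul, mul_one, pow_succ']
      rw [this]
      exact Q.smul_mem _ hq)
    calc ((j + 1 + 1 : ℕ) : ℕ∞) = 1 + ((j + 1 : ℕ) : ℕ∞) := by push_cast; ring
      _ ≤ _ := add_le_add h1 h2

end Pool.Agent.H79.BC1
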