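import Pool.Agent.H79.BC1

set_option autoImplicit false

namespace Pool.Agent.H79.BC2

open Submodule BC1 IsLocalRing

theorem ext_graph {O : Type*} [CommRing O] [IsDomain O] [IsPrincipalIdealRing O]
    {ι : Type*} [Finite ι] (Γ : Submodule O ((ι → O) × O))
    (h : ∀ p ∈ Γ, ∀ (c : O) (v : ι → O), p.1 = c • v → c ∣ p.2) :
    ∃ l : (ι → O) →ₗ[O] O, ∀ p ∈ Γ, l p.1 = p.2 := by
  classical
  let U := Γ.map (LinearMap.fst O _ _)
  obtain ⟨n, bM, bN, f, a, snf⟩ := Submodule.smithNormalForm (Pi.basisFun O ι) U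
  have h1 : ∀ j, ∃ c : O, ((bN j : ι → O), a j * c) ∈ Γ := by
    intro j
    obtain ⟨p, hp, e⟩ := (bN j).2
    have e' : p.1 = bN j := e
    obtain ⟨c, hc⟩ := h p hp (a j) (bM (f j)) (by rw [e', snf])
    exact ⟨c, by rw [← e', ← hc]; exact hp⟩
  choose c hc using h1
  refine ⟨bM.constr O (Function.extend f c 0), ?_⟩
  intro p hp
  have hu : p.1 ∈ U := ⟨p, hp, rfl⟩
  have hsum : p.1 = ∑ j, bN.repr ⟨p.1, hu⟩ j • (bN j : ι → O) := by
    have := congrArg (fun u : U => (u : ι → O)) (bN.sum_repr ⟨p.1, hu⟩)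
    simp only [AddSubmonoidClass.coe_finset_sum, SetLike.val_smul] at this
    exact this.symm
  have hq : p - ∑ j, bN.repr ⟨p.1, hu⟩ j • ((bN j : ι → O), a j * c j) ∈ Γ :=
    sub_mem hp (sum_mem fun j _ => Γ.smul_mem _ (hc j))
  have h0 := h _ hq 0 0 (by
    rw [Prod.fst_sub, Prod.fst_sum]
    simp only [Prod.smul_fst, smul_zero]
    rw [← hsum, sub_self])
  rw [zero_dvd_iff, Prod.snd_sub, Prod.snd_sum, sub_eq_zero] at h0
  rw [h0]
  conv_lhs => rw [hsum]
  rw [map_sum]
  refine Finset.sum_congr rfl fun j _ => ?_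
  rw [map_smul, snf, map_smul, Module.Basis.constr_basis, f.injective.extend_apply]
  simp

structure TH {T : Type*} [CommRing T] [IsLocalRing T] (x Y : T) : Prop where
  hx : x ∈ maximalIdeal T
  hY : Y ∈ maximalIdeal T
  hdvr : ∀ t : T, t ∈ Ideal.span {Y} ∨ ∃ (i : ℕ) (u : T), IsUnit u ∧ t - x ^ i * u ∈ Ideal.span {Y}
  hxY : x ∉ Ideal.span {Y}
  h2 : IsUnit (2 : T)
  dom : IsDomain (T ⧸ Ideal.span {Y})
  pid : IsPrincipalIdealRing (T ⧸ Ideal.span {Y})

variable {T : Type*} [CommRing T] [IsLocalRing T] [IsNoetherianRing T] {x Y : T}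

omit [IsNoetherianRing T] in
theorem jac {c : T} (hc : c ∈ maximalIdeal T) : c ∈ (⊥ : Ideal T).jacobson := by
  rwa [jacobson_eq_maximalIdeal ⊥ bot_ne_top]

omit [IsNoetherianRing T] in
theorem TH.max (h : TH x Y) {t : T} (ht : t ∈ maximalIdeal T) : ∃ c d, t = c * x + d * Y := by
  rcases h.hdvr t with h1 | ⟨i, u, hu, h1⟩
  · obtain ⟨d, rfl⟩ := Ideal.mem_span_singleton'.mp h1
    exact ⟨0, d, by ring⟩
  · obtain ⟨d, hd⟩ := Ideal.mem_span_singleton'.mp h1
    cases i with
    | zero =>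
      exfalso
      have : u ∈ maximalIdeal T := by
        have e : u = t - d * Y := by rw [hd]; ring
        rw [e]
        exact sub_mem ht (Ideal.mul_mem_left _ _ h.hY)
      exact this hu
    | succ i => exact ⟨x ^ i * u, d, by rw [hd]; ring⟩

open Pointwise in
theorem free_of_reg (h : TH x Y) (P : Type*) [AddCommGroup P] [Module T P] [Module.Finite T P]
    (hr : Reg2 Y x P) : Module.Free T P := by
  have := h.dom
  have := h.pid
  have := Module.finitePresentation_of_finite T P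
  have hreg : IsSMulRegular P Y := IsSMulRegular.of_right_eq_zero_of_smul hr.1
  rw [← Module.free_quotSMulTop_iff_free T P (jac h.hY) hreg]
  have := Module.Finite.of_restrictScalars_finite T (T ⧸ Ideal.span {Y}) (QuotSMulTop Y P)
  have : Module.IsTorsionFree (T ⧸ Ideal.span {Y}) (QuotSMulTop Y P) := by
    apply Module.IsTorsionFree.of_smul_eq_zero
    intro c v hcv
    obtain ⟨t, rfl⟩ := Ideal.Quotient.mk_surjective c
    obtain ⟨v, rfl⟩ := Submodule.Quotient.mk_surjective _ v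
    have hcv' : t • v ∈ Y • (⊤ : Submodule T P) := by
      rw [← Submodule.Quotient.mk_eq_zero]
      exact hcv
    obtain ⟨w, -, hw⟩ := (Submodule.mem_smul_pointwise_iff_exists _ _ _).mp hcv'
    rcases h.hdvr t with h1 | ⟨i, u, hu, h1⟩
    · left; exact Ideal.Quotient.eq_zero_iff_mem.mpr h1
    · right
      obtain ⟨d, hd⟩ := Ideal.mem_span_singleton'.mp h1
      obtain ⟨u, rfl⟩ := hu
      have h3 : x ^ i • ((u : T) • v) ∈ Bm Y P := by
        refine ⟨w - d • v, ?_⟩
        show Y • (w - d • v) = _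
        rw [smul_sub, hw, smul_smul, smul_smul, mul_comm Y d, hd, ← sub_smul]
        congr 1; ring
      obtain ⟨w', hw'⟩ := reg_pow hr.2 i _ h3
      have hw'' : Y • w' = (u : T) • v := hw'
      rw [Submodule.Quotient.mk_eq_zero]
      refine (Submodule.mem_smul_pointwise_iff_exists _ _ _).mpr ⟨((u⁻¹ : Tˣ) : T) • w', trivial, ?_⟩
      rw [smul_comm, hw'', smul_smul, Units.inv_mul, one_smul]
  infer_instance

omit [IsNoetherianRing T] in
theorem exists_fun (h : TH x Y) {P : Type*} [AddCommGroup P] [Module T P] [Module.Finite T P]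
    [Module.Free T P] (v : P) (hv : ¬∃ w w' : P, v = x • w + Y • w') :
    ∃ l : P →ₗ[T] T, l v = 1 := by
  let b := Module.Free.chooseBasis T P
  by_cases hc : ∀ i, b.repr v i ∈ maximalIdeal T
  · exfalso
    apply hv
    choose c d hcd using fun i => h.max (hc i)
    refine ⟨∑ i, c i • b i, ∑ i, d i • b i, ?_⟩
    conv_lhs => rw [← b.sum_repr v]
    rw [Finset.smul_sum, Finset.smul_sum, ← Finset.sum_add_distrib]
    refine Finset.sum_congr rfl fun i _ => ?_
    rw [hcd, smul_smul, smul_smul, ← add_smul]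
    congr 1; ring
  · push Not at hc
    obtain ⟨i, hi⟩ := hc
    obtain ⟨u, hu⟩ : IsUnit (b.repr v i) := by
      by_contra h'
      exact hi h'
    refine ⟨((u⁻¹ : Tˣ) : T) • b.coord i, ?_⟩
    simp [← hu]

omit [IsNoetherianRing T] in
theorem exists_ext (h : TH x Y) {P W : Type*} [AddCommGroup P] [Module T P] [Module.Finite T P]
    [Module.Free T P] [AddCommGroup W] [Module T W] (f : W →ₗ[T] P) (μ : W →ₗ[T] T)
    (H : ∀ (m : W) (i : ℕ) (w w' : P), f m = x ^ i • w + Y • w' →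
      ∃ t, μ m - x ^ i * t ∈ Ideal.span {Y})
    (H0 : ∀ (m : W) (w' : P), f m = Y • w' → μ m ∈ Ideal.span {Y}) :
    ∃ l : P →ₗ[T] T, ∀ m, l (f m) - μ m ∈ Ideal.span {Y} := by
  classical
  have := h.dom
  have := h.pid
  let b := Module.Free.chooseBasis T P
  let q := Ideal.Quotient.mk (Ideal.span {Y})
  have hq : Function.Surjective q := Ideal.Quotient.mk_surjective
  have hq0 : ∀ t, q t = 0 ↔ t ∈ Ideal.span {Y} := fun t => Ideal.Quotient.eq_zero_iff_mem
  let Γ : Submodule (T ⧸ Ideal.span {Y})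
      ((Module.Free.ChooseBasisIndex T P → T ⧸ Ideal.span {Y}) × (T ⧸ Ideal.span {Y})) :=
    { carrier := {p | ∃ m : W, p = (fun i => q (b.repr (f m) i), q (μ m))}
      add_mem' := by
        rintro _ _ ⟨m, rfl⟩ ⟨m', rfl⟩
        exact ⟨m + m', by ext <;> simp⟩
      zero_mem' := ⟨0, by ext <;> simp⟩
      smul_mem' := by
        rintro c _ ⟨m, rfl⟩
        obtain ⟨t, rfl⟩ := hq c
        exact ⟨t • m, by ext <;> simp⟩ }
  obtain ⟨l, hl⟩ := ext_graph Γ (by
    rintro _ ⟨m, rfl⟩ c v hv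
    obtain ⟨t, rfl⟩ := hq c
    choose v' hv' using fun i => hq (v i)
    have h1 : ∀ i, ∃ d, b.repr (f m) i = t * v' i + Y * d := by
      intro i
      have := congrFun hv i
      simp only [Pi.smul_apply, smul_eq_mul] at this
      rw [← hv', ← map_mul, ← sub_eq_zero, ← map_sub, hq0] at this
      obtain ⟨d, hd⟩ := Ideal.mem_span_singleton'.mp this
      exact ⟨d, by rw [mul_comm Y, hd]; ring⟩
    choose d hd using h1
    have h2 : f m = t • ∑ i, v' i • b i + Y • ∑ i, d i • b i := by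
      conv_lhs => rw [← b.sum_repr (f m)]
      rw [Finset.smul_sum, Finset.smul_sum, ← Finset.sum_add_distrib]
      refine Finset.sum_congr rfl fun i _ => ?_
      rw [hd, smul_smul, smul_smul, ← add_smul]
    show q t ∣ q (μ m)
    rcases h.hdvr t with h3 | ⟨i, u, hu, h3⟩
    · obtain ⟨e, rfl⟩ := Ideal.mem_span_singleton'.mp h3
      have := H0 m (e • ∑ i, v' i • b i + ∑ i, d i • b i) (by
        rw [h2, smul_add, smul_smul, mul_comm])
      rw [(hq0 _).mpr this]
      exact dvd_zero _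
    · obtain ⟨e, he⟩ := Ideal.mem_span_singleton'.mp h3
      have ht : t = x ^ i * u + e * Y := by rw [he]; ring
      obtain ⟨s, hs⟩ := H m i (u • ∑ i, v' i • b i) (e • ∑ i, v' i • b i + ∑ i, d i • b i) (by
        rw [h2, smul_add, smul_smul, smul_smul, ← add_assoc, ← add_smul, ht, mul_comm e])
      rw [← hq0, map_sub, sub_eq_zero] at hs
      rw [← hq0, map_sub, sub_eq_zero] at h3
      obtain ⟨u, rfl⟩ := hu
      rw [hs, h3]
      refine ⟨q ((u⁻¹ : Tˣ) * s), ?_⟩
      rw [← map_mul]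
      congr 1
      rw [mul_assoc, ← mul_assoc (u : T), Units.mul_inv, one_mul])
  choose c hc using fun i => hq (l (Pi.single i 1))
  refine ⟨b.constr T c, fun m => ?_⟩
  rw [← hq0, map_sub, sub_eq_zero]
  have := hl _ ⟨m, rfl⟩
  simp only at this
  rw [← this, Module.Basis.constr_apply_fintype, map_sum]
  have e : (fun i => q (b.repr (f m) i)) = ∑ i, q (b.repr (f m) i) • Pi.single i (1 : T ⧸ Ideal.span {Y}) := by
    ext j
    simp [Finset.sum_apply, Pi.single_apply]
  rw [e, map_sum]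
  refine Finset.sum_congr rfl fun i _ => ?_
  rw [l.map_smul, ← hc, smul_eq_mul, smul_eq_mul, map_mul]
  simp

end Pool.Agent.H79.BC2
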