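import Mathlib

set_option autoImplicit false

namespace Pool.Agent.H79.BCDefs

open IsLocalRing

variable (R : Type) [CommRing R] [IsLocalRing R] (M : Type) [AddCommGroup M] [Module R M]

/-- Depth: the supremum of the lengths of `M`-regular sequences in the maximal ideal. -/
noncomputable def depth : ℕ∞ :=
  ⨆ (rs : List R) (_ : (∀ r ∈ rs, r ∈ maximalIdeal R) ∧ RingTheory.Sequence.IsRegular M rs),
    (rs.length : ℕ∞)

/-- `M` is a nonzero finitely generated module with `depth M = dim R`. -/
def IsMCM : Prop :=
  Module.Finite R M ∧ Nontrivial M ∧ ((depth R M : ℕ∞) : WithBot ℕ∞) = ringKrullDim R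

/-- `M` is nonzero and is not the direct sum of two nonzero submodules. -/
def Indec : Prop :=
  Nontrivial M ∧ ∀ A B : Submodule R M, IsCompl A B → A = ⊥ ∨ B = ⊥

/-- The Krull dimension as a natural number (it is finite for Noetherian local rings). -/
noncomputable def dimN : ℕ := ((ringKrullDim R).unbotD 0).toNat

/-- The multiplicity `e(M) = lim d! * length(M / m^n M) / n^d`, `d = dim R`. -/
noncomputable def mult : ENNReal :=
  Filter.limsup (fun n : ℕ => ((dimN R).factorial : ENNReal) *
    (Module.length R (M ⧸ (maximalIdeal R ^ n • ⊤ : Submodule R M)) : ℕ∞) /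
      (n : ENNReal) ^ dimN R) Filter.atTop

/-- Bounded Cohen-Macaulay type. -/
def BoundedCM : Prop :=
  ∃ B : ℕ, ∀ (N : Type) [AddCommGroup N] [Module R N], IsMCM R N → Indec R N → mult R N ≤ B

end Pool.Agent.H79.BCDefs
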