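import Pool.Agent.H79.BC2
import Pool.Agent.H79.BCDefs

set_option autoImplicit false

namespace Pool.Agent.H79.BC3

open Submodule BC1 BC2 IsLocalRing

variable {T : Type*} [CommRing T] {S : Type*} [CommRing S] [Algebra T S]

structure SH (Y : T) (a b : S) : Prop where
  hab : a * b = 0
  hsum : a + b = algebraMap T S (2 * Y)
  hgen : ∀ s : S, ∃ t t' : T, s = algebraMap T S t + algebraMap T S t' * a

theorem SH.symm {Y : T} {a b : S} (h : SH Y a b) : SH Y b a where
  hab := by rw [mul_comm, h.hab]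
  hsum := by rw [add_comm, h.hsum]
  hgen s := by
    obtain ⟨t, t', rfl⟩ := h.hgen s
    refine ⟨t + t' * (2 * Y), -t', ?_⟩
    rw [map_add, map_mul, ← h.hsum, map_neg]; ring

variable {M : Type*} [AddCommGroup M] [Module S M] [Module T M] [IsScalarTower T S M]
  {x Y : T} {a b : S}

omit [Module T M] [IsScalarTower T S M] in
theorem SH.ab (h : SH Y a b) (m : M) : a • b • m = 0 := by rw [smul_smul, h.hab, zero_smul]

theorem SH.sum (h : SH Y a b) (m : M) : a • m + b • m = (2 * Y) • m := by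
  rw [← add_smul, h.hsum, algebraMap_smul]

theorem SH.onZ (h : SH Y a b) {w : M} (hw : a • w = 0) : b • w = (2 * Y) • w := by
  rw [← h.sum, hw, zero_add]

theorem SH.actZ (h : SH Y a b) {w : M} (hw : a • w = 0) (s : S) : ∃ t : T, s • w = t • w := by
  obtain ⟨t, t', rfl⟩ := h.hgen s
  exact ⟨t, by rw [add_smul, mul_smul, hw, smul_zero, add_zero, algebraMap_smul]⟩

theorem reg_Zk {u v : T} (hr : Reg2 u v M) (c : S) : Reg2 u v (Zk c M) := by
  refine ⟨fun n hn => Subtype.ext (hr.1 n.1 (congrArg Subtype.val hn)), ?_⟩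
  rintro n ⟨w, hw⟩
  obtain ⟨n', hn'⟩ := hr.2 n.1 ⟨w.1, congrArg Subtype.val hw⟩
  have hn'' : u • n' = n.1 := hn'
  refine ⟨⟨n', ?_⟩, Subtype.ext hn''⟩
  rw [mem_Zk]
  apply hr.1
  rw [smul_comm, hn'']
  exact n.2

def AA (x Y : T) (c d : S) (i : ℕ) (m : M) : Prop :=
  ∃ w w' : M, c • w = 0 ∧ c • w' = 0 ∧ d • m = x ^ i • w + Y • w'

theorem AA_zero (h : SH Y a b) (m : M) : AA x Y a b 0 m :=
  ⟨b • m, 0, h.ab m, smul_zero _, by simp⟩

theorem AA_mono {i j : ℕ} (hij : i ≤ j) {m : M} (h : AA x Y a b j m) : AA x Y a b i m := by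
  obtain ⟨w, w', h1, h2, h3⟩ := h
  obtain ⟨k, rfl⟩ := Nat.exists_eq_add_of_le hij
  exact ⟨x ^ k • w, w', by rw [smul_comm, h1, smul_zero], h2, by rw [h3, pow_add, mul_smul]⟩

theorem AA_div (h : SH Y a b) {hf : T} (h2 : hf * 2 = 1) (hr : Reg2 Y x M) {m : M}
    (h1 : AA x Y a b 1 m) (h1' : AA x Y b a 1 m) :
    ∃ m' m1 m2 : M, a • m1 = 0 ∧ b • m2 = 0 ∧ m = x • m' + m1 + m2 := by
  obtain ⟨w1, w1', -, ha, e1⟩ := h1
  obtain ⟨w2, w2', -, hb, e2⟩ := h1'
  rw [pow_one] at e1 e2
  have e3 := h.sum m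
  rw [e1, e2] at e3
  obtain ⟨m'', hm''⟩ := hr.2 (w1 + w2) ⟨(2 : T) • m - w1' - w2', by
    show Y • ((2 : T) • m - w1' - w2') = x • (w1 + w2)
    rw [smul_sub, smul_sub, smul_smul, mul_comm Y, ← e3, smul_add]; abel⟩
  have hm3 : Y • m'' = w1 + w2 := hm''
  have e4 : (2 : T) • m = x • m'' + w1' + w2' := by
    rw [← sub_eq_zero]
    apply hr.1
    rw [smul_sub, smul_smul, mul_comm Y, ← e3, smul_add, smul_add, smul_comm Y x, hm3, smul_add]
    abel
  refine ⟨hf • m'', hf • w1', hf • w2', by rw [smul_comm, ha, smul_zero],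
    by rw [smul_comm, hb, smul_zero], ?_⟩
  rw [smul_comm x, ← smul_add, ← smul_add, ← e4, smul_smul, h2, one_smul]

theorem AA_down (h : SH Y a b) (hr : Reg2 Y x M) {m m' m1 m2 : M} (ha : a • m1 = 0)
    (hb : b • m2 = 0) (e : m = x • m' + m1 + m2) {i : ℕ} (h1 : AA x Y a b (i + 1) m) :
    AA x Y a b i m' := by
  obtain ⟨w, w', hw, hw', e1⟩ := h1
  rw [e, smul_add, smul_add, hb, add_zero, h.onZ ha, smul_comm b x] at e1
  obtain ⟨v, hv⟩ := hr.2 (b • m' - x ^ i • w) ⟨w' - (2 : T) • m1, by
    show Y • (w' - (2 : T) • m1) = x • (b • m' - x ^ i • w)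
    rw [smul_sub, smul_sub, smul_smul, smul_smul x, ← pow_succ', mul_comm Y,
      eq_sub_of_add_eq e1]
    abel⟩
  have hv' : Y • v = b • m' - x ^ i • w := hv
  refine ⟨w, v, hw, ?_, by rw [hv']; abel⟩
  apply hr.1
  rw [smul_comm, hv', smul_sub, h.ab, smul_comm, hw, smul_zero, sub_zero]

theorem AA_up (h : SH Y a b) {m m' m1 m2 : M} (ha : a • m1 = 0)
    (hb : b • m2 = 0) (e : m = x • m' + m1 + m2) {k : ℕ} (h1 : AA x Y b a k m') :
    AA x Y b a (k + 1) m := by
  obtain ⟨w, w', hw, hw', e1⟩ := h1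
  refine ⟨w, x • w' + (2 : T) • m2, hw, ?_, ?_⟩
  · rw [smul_add, smul_comm, hw', smul_comm, hb]; simp
  · rw [e, smul_add, smul_add, ha, add_zero, h.symm.onZ hb, smul_comm a x, e1, smul_add, smul_add,
      smul_smul, ← pow_succ', smul_comm x Y, smul_smul Y 2, mul_comm Y, add_assoc]

theorem AA_bound [IsNoetherian T M] (h : SH Y a b) {hf : T} (h2 : hf * 2 = 1) :
    ∃ N, ∀ m : M, AA x Y a b (N + 1) m → AA x Y b a 1 m := by
  let C : ℕ →o Submodule T M :=
    ⟨fun i => ((Bm b M).restrictScalars T).comap (LinearMap.lsmul T M (x ^ i)), by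
      apply monotone_nat_of_le_succ
      rintro i w ⟨m, hm⟩
      have hm' : b • m = x ^ i • w := hm
      refine ⟨x • m, ?_⟩
      show b • x • m = x ^ (i + 1) • w
      rw [smul_comm, hm', smul_smul, pow_succ']⟩
  obtain ⟨N, hN⟩ := monotone_stabilizes_iff_noetherian.mpr inferInstance C
  refine ⟨N, ?_⟩
  rintro m ⟨w, w', hw, hw', e⟩
  have e1 : b • (m - hf • w') = x ^ (N + 1) • w := by
    rw [smul_sub, e, smul_comm b hf, h.onZ hw', smul_smul, ← mul_assoc, h2, one_mul]; abel
  have h3 : w ∈ C (N + 1) := ⟨_, e1⟩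
  rw [← hN (N + 1) (by omega)] at h3
  obtain ⟨m', hm'⟩ := h3
  have hm'' : b • m' = x ^ N • w := hm'
  have e2 : b • (m - hf • w' - x • m') = 0 := by
    rw [smul_sub, e1, smul_comm b x, hm'', smul_smul, ← pow_succ', sub_self]
  have := AA_up (x := x) (m := m) (m' := m') (m1 := hf • w') (m2 := m - hf • w' - x • m') h
    (by rw [smul_comm, hw', smul_zero]) e2 (by abel) (AA_zero h.symm m')
  simpa using this

variable [IsLocalRing T] [IsNoetherianRing T] [Module.Finite T M]

theorem gen_two (hT : TH x Y) (h : SH Y a b) (hr : Reg2 Y x M)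
    (hI : ∀ A B : Submodule S M, IsCompl A B → A = ⊥ ∨ B = ⊥)
    (hex : ∃ m : M, ¬AA x Y b a 1 m) : ∃ u v : M, span S {u, v} = ⊤ := by
  classical
  obtain ⟨hf, h2⟩ := hT.h2.exists_left_inv
  have := hT.dom
  have hP : ∃ i, ∀ m : M, AA x Y a b i m → AA x Y b a 1 m := by
    obtain ⟨N, hN⟩ := AA_bound (x := x) (M := M) h h2
    exact ⟨N + 1, hN⟩
  have h0 : Nat.find hP ≠ 0 := by
    intro h0
    have := Nat.find_spec hP
    rw [h0] at this
    obtain ⟨m, hm⟩ := hex
    exact hm (this m (AA_zero h m))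
  obtain ⟨n, hn⟩ := Nat.exists_eq_succ_of_ne_zero h0
  have hP1 := Nat.find_spec hP
  rw [hn] at hP1
  have hP0 := Nat.find_min hP (show n < Nat.find hP by omega)
  push Not at hP0
  obtain ⟨m0', ⟨e, w', he, hw', e0⟩, hm0⟩ := hP0
  have key : ∀ k (m : M), AA x Y a b (n + k) m → AA x Y b a k m := by
    intro k
    induction k with
    | zero => intro m _; exact AA_zero h.symm m
    | succ k ih =>
      intro m hm
      obtain ⟨m', m1, m2, ha, hb, em⟩ := AA_div h h2 hr (AA_mono (by omega) hm)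
        (hP1 m (AA_mono (by omega) hm))
      exact AA_up h ha hb em (ih m' (AA_down h hr ha hb em hm))
  set m0 := m0' - hf • w' with hm0def
  have e1 : b • m0 = x ^ n • e := by
    rw [smul_sub, e0, smul_comm b hf, h.onZ hw', smul_smul, ← mul_assoc, h2, one_mul]; abel
  have e2 : a • m0 = a • m0' := by rw [smul_sub, smul_comm a hf, hw', smul_zero, sub_zero]
  have fin : ∀ c : S, Module.Finite T (Zk c M) := fun c =>
    Module.Finite.of_injective ((Zk c M).subtype.restrictScalars T) Subtype.val_injective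
  have := fin a
  have := fin b
  have := free_of_reg hT _ (reg_Zk hr a)
  have := free_of_reg hT _ (reg_Zk hr b)
  let fb : M →ₗ[T] Zk a M :=
    (((LinearMap.lsmul S M b).codRestrict (Zk a M) (fun m => h.ab m)).restrictScalars T)
  let fa : M →ₗ[T] Zk b M :=
    (((LinearMap.lsmul S M a).codRestrict (Zk b M) (fun m => h.symm.ab m)).restrictScalars T)
  have hfb : ∀ m, (fb m : M) = b • m := fun m => rfl
  have hfa : ∀ m, (fa m : M) = a • m := fun m => rfl
  obtain ⟨l2, hl2⟩ := exists_fun hT (fa m0) (by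
    rintro ⟨w, w', hww⟩
    apply hm0
    refine ⟨w, w', w.2, w'.2, ?_⟩
    rw [← e2, pow_one]
    exact congrArg Subtype.val hww)
  have hB : ∀ k (m : M), AA x Y b a k m → ∃ t, l2 (fa m) - x ^ k * t ∈ Ideal.span {Y} := by
    rintro k m ⟨w, w', hw, hw', ew⟩
    have : fa m = x ^ k • (⟨w, hw⟩ : Zk b M) + Y • (⟨w', hw'⟩ : Zk b M) := Subtype.ext ew
    refine ⟨l2 ⟨w, hw⟩, ?_⟩
    rw [this, map_add, map_smul, map_smul, smul_eq_mul, smul_eq_mul, add_sub_cancel_left]
    exact Ideal.mul_mem_right _ _ (Ideal.mem_span_singleton_self Y)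
  obtain ⟨l1', hl1'⟩ := exists_ext hT fb (x ^ n • (l2 ∘ₗ fa)) (by
    intro m i w w' hw
    have hA : AA x Y a b i m := ⟨w, w', w.2, w'.2, congrArg Subtype.val hw⟩
    simp only [LinearMap.smul_apply, LinearMap.comp_apply, smul_eq_mul]
    rcases le_total i n with hi | hi
    · obtain ⟨k, rfl⟩ := Nat.exists_eq_add_of_le hi
      exact ⟨x ^ k * l2 (fa m), by rw [pow_add, mul_assoc, sub_self]; exact zero_mem _⟩
    · obtain ⟨k, rfl⟩ := Nat.exists_eq_add_of_le hi
      obtain ⟨t, ht⟩ := hB k m (key k m hA)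
      refine ⟨t, ?_⟩
      rw [pow_add, mul_assoc, ← mul_sub]
      exact Ideal.mul_mem_left _ _ ht) (by
    intro m w' hw
    have hw1 : b • m = Y • (w' : M) := congrArg Subtype.val hw
    have hw2 : a • (w' : M) = 0 := w'.2
    have hb : b • (m - hf • (w' : M)) = 0 := by
      rw [smul_sub, hw1, smul_comm b hf, h.onZ hw2, smul_smul, ← mul_assoc, h2, one_mul, sub_self]
    have : fa m = Y • (2 : T) • (⟨_, hb⟩ : Zk b M) := by
      apply Subtype.ext
      show a • m = Y • (2 : T) • (m - hf • (w' : M))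
      rw [smul_smul, mul_comm, ← h.symm.onZ hb, smul_sub, smul_comm a hf, hw2, smul_zero, sub_zero]
    simp only [LinearMap.smul_apply, LinearMap.comp_apply, smul_eq_mul]
    rw [this, map_smul, smul_eq_mul]
    exact Ideal.mul_mem_left _ _ (Ideal.mul_mem_right _ _ (Ideal.mem_span_singleton_self Y)))
  simp only [LinearMap.smul_apply, LinearMap.comp_apply, smul_eq_mul] at hl1'
  let e' : Zk a M := ⟨e, he⟩
  have hprime : (Ideal.span {Y}).IsPrime := (Ideal.Quotient.isDomain_iff_prime _).mp hT.dom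
  have hu1 : l1' e' - 1 ∈ Ideal.span {Y} := by
    have h3 := hl1' m0
    have : fb m0 = x ^ n • e' := Subtype.ext e1
    rw [this, hl2, map_smul, smul_eq_mul, ← mul_sub] at h3
    exact (hprime.mem_or_mem h3).resolve_left (fun h4 => hT.hxY (hprime.mem_of_pow_mem _ h4))
  obtain ⟨d1, hd1⟩ := Ideal.mem_span_singleton'.mp hu1
  have hunit : IsUnit (l1' e') := by
    have : l1' e' = 1 - (-(d1 * Y)) := by rw [hd1]; ring
    rw [this]
    apply isUnit_one_sub_self_of_mem_nonunits
    exact neg_mem (Ideal.mul_mem_left _ _ hT.hY)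
  obtain ⟨ui, hui⟩ := hunit.exists_left_inv
  let l1 := ui • l1'
  have hl1e : l1 e' = 1 := hui
  have hl1 : ∀ m, l1 (fb m) - x ^ n * l2 (fa m) ∈ Ideal.span {Y} := by
    intro m
    have : l1 (fb m) - x ^ n * l2 (fa m) = ui * (l1' (fb m) - x ^ n * l2 (fa m)) -
        ui * (x ^ n * l2 (fa m)) * (l1' e' - 1) := by
      show ui * l1' (fb m) - _ = _
      linear_combination (x ^ n * l2 (fa m)) * hui
    rw [this]
    exact sub_mem (Ideal.mul_mem_left _ _ (hl1' m)) (Ideal.mul_mem_left _ _ hu1)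
  have inj : ∀ m : M, a • m = 0 → b • m = 0 → m = 0 := by
    intro m ha hb
    have := h.sum m
    rw [ha, hb, add_zero, mul_comm, mul_smul] at this
    have h5 := hr.1 _ this.symm
    rw [← one_smul T m, ← h2, mul_smul, h5, smul_zero]
  let N' : Submodule S M :=
    { carrier := {m | l1 (fb m) = 0 ∧ l2 (fa m) = 0}
      add_mem' := by
        rintro m m' ⟨h1, h2⟩ ⟨h3, h4⟩
        exact ⟨by rw [map_add, map_add, h1, h3, add_zero], by rw [map_add, map_add, h2, h4, add_zero]⟩
      zero_mem' := ⟨by simp, by simp⟩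
      smul_mem' := by
        rintro s m ⟨h1, h2⟩
        obtain ⟨t, ht⟩ := h.actZ (h.ab m) s
        obtain ⟨t', ht'⟩ := h.symm.actZ (h.symm.ab m) s
        have e1 : fb (s • m) = t • fb m := Subtype.ext (by
          show b • s • m = t • b • m
          rw [smul_comm, ht])
        have e2 : fa (s • m) = t' • fa m := Subtype.ext (by
          show a • s • m = t' • a • m
          rw [smul_comm, ht'])
        exact ⟨by rw [e1, map_smul, h1, smul_zero], by rw [e2, map_smul, h2, smul_zero]⟩ }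
  have hc : IsCompl (span S {m0, e}) N' := by
    constructor
    · rw [Submodule.disjoint_def]
      rintro m hm ⟨h1, h3⟩
      obtain ⟨s, s', rfl⟩ := mem_span_pair.mp hm
      obtain ⟨t, ht⟩ := h.actZ he s
      obtain ⟨t', ht'⟩ := h.actZ he s'
      obtain ⟨t'', ht''⟩ := h.symm.actZ (h.symm.ab m0) s
      have e3 : fb (s • m0 + s' • e) = (x ^ n * t + 2 * Y * t') • e' := Subtype.ext (by
        show b • (s • m0 + s' • e) = (x ^ n * t + 2 * Y * t') • e
        rw [smul_add, smul_comm b s, e1, smul_comm s, ht, ht', smul_comm b t', h.onZ he,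
          smul_smul, smul_smul, ← add_smul, mul_comm t'])
      have e4 : fa (s • m0 + s' • e) = t'' • fa m0 := Subtype.ext (by
        show a • (s • m0 + s' • e) = t'' • a • m0
        rw [smul_add, smul_comm a s, ht'', smul_comm a s', he, smul_zero, add_zero])
      rw [e3, map_smul, hl1e, smul_eq_mul, mul_one] at h1
      rw [e4, map_smul, hl2, smul_eq_mul, mul_one] at h3
      rw [h1, zero_smul] at e3
      rw [h3, zero_smul] at e4
      exact inj _ (congrArg Subtype.val e4) (congrArg Subtype.val e3)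
    · rw [codisjoint_iff, eq_top_iff]
      intro m _
      obtain ⟨t, ht⟩ := Ideal.mem_span_singleton'.mp (hl1 m)
      set m1 := l2 (fa m) • m0 + (t * hf) • e with hm1
      have e3 : fb m1 = l1 (fb m) • e' := Subtype.ext (by
        show b • m1 = l1 (fb m) • e
        rw [hm1, smul_add, smul_comm b, e1, smul_comm b, h.onZ he, smul_smul, smul_smul,
          ← add_smul]
        congr 1
        linear_combination ht + t * Y * h2)
      have e4 : fa m1 = l2 (fa m) • fa m0 := Subtype.ext (by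
        show a • m1 = l2 (fa m) • a • m0
        rw [hm1, smul_add, smul_comm a, smul_comm a (t * hf), he, smul_zero, add_zero])
      have em : m = m1 + (m - m1) := by abel
      rw [em]
      refine add_mem (mem_sup_left ?_) (mem_sup_right ⟨?_, ?_⟩)
      · refine mem_span_pair.mpr ⟨algebraMap T S (l2 (fa m)), algebraMap T S (t * hf), ?_⟩
        rw [algebraMap_smul, algebraMap_smul]
      · rw [map_sub, map_sub, e3, map_smul, hl1e, smul_eq_mul, mul_one, sub_self]
      · rw [map_sub, map_sub, e4, map_smul, hl2, smul_eq_mul, mul_one, sub_self]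
  rcases hI _ _ hc with h5 | h5
  · exfalso
    have : m0 = 0 := by
      have : m0 ∈ span S {m0, e} := subset_span (by simp)
      rwa [h5] at this
    rw [this, map_zero, map_zero] at hl2
    exact zero_ne_one hl2
  · refine ⟨m0, e, ?_⟩
    have := hc.sup_eq_top
    rwa [h5, sup_bot_eq] at this

theorem gen_one (hT : TH x Y) (h : SH Y a b) (hr : Reg2 Y x M)
    (hI : ∀ A B : Submodule S M, IsCompl A B → A = ⊥ ∨ B = ⊥)
    (ha : ∀ m : M, a • m = 0) : ∃ u v : M, span S {u, v} = ⊤ := by
  have := free_of_reg hT M hr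
  by_cases hv : ∃ v : M, ¬∃ w w' : M, v = x • w + Y • w'
  · obtain ⟨v, hv⟩ := hv
    obtain ⟨l, hl⟩ := exists_fun hT v hv
    let N' : Submodule S M :=
      { carrier := {m | l m = 0}
        add_mem' := by
          intro m m' h1 h3
          show l (m + m') = 0
          rw [map_add, h1, h3, add_zero]
        zero_mem' := by simp
        smul_mem' := by
          intro s m h1
          obtain ⟨t, ht⟩ := h.actZ (ha m) s
          show l (s • m) = 0
          rw [ht, map_smul, h1, smul_zero] }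
    have hc : IsCompl (span S {v}) N' := by
      constructor
      · rw [Submodule.disjoint_def]
        intro m hm h1
        obtain ⟨s, rfl⟩ := mem_span_singleton.mp hm
        obtain ⟨t, ht⟩ := h.actZ (ha v) s
        have h2 : l (s • v) = 0 := h1
        rw [ht, map_smul, hl, smul_eq_mul, mul_one] at h2
        rw [ht, h2, zero_smul]
      · rw [codisjoint_iff, eq_top_iff]
        intro m _
        have em : m = l m • v + (m - l m • v) := by abel
        rw [em]
        refine add_mem (mem_sup_left ?_) (mem_sup_right ?_)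
        · exact mem_span_singleton.mpr ⟨algebraMap T S (l m), algebraMap_smul _ _ _⟩
        · show l (m - l m • v) = 0
          rw [map_sub, map_smul, hl, smul_eq_mul, mul_one, sub_self]
    rcases hI _ _ hc with h5 | h5
    · exfalso
      have : v = 0 := by
        have : v ∈ span S {v} := subset_span (by simp)
        rwa [h5] at this
      rw [this, map_zero] at hl
      exact zero_ne_one hl
    · refine ⟨v, v, ?_⟩
      have := hc.sup_eq_top
      rw [h5, sup_bot_eq] at this
      simpa using this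
  · push Not at hv
    have : (⊤ : Submodule T M) = ⊥ := by
      apply eq_bot_of_le_smul_of_le_jacobson_bot (maximalIdeal T) _ Module.Finite.fg_top
      · intro v _
        obtain ⟨w, w', rfl⟩ := hv v
        exact add_mem (smul_mem_smul hT.hx trivial) (smul_mem_smul hT.hY trivial)
      · intro c hc; exact jac hc
    refine ⟨0, 0, eq_top_iff.mpr fun m _ => ?_⟩
    have hm : m ∈ (⊤ : Submodule T M) := trivial
    rw [this, mem_bot] at hm
    rw [hm]; exact zero_mem _

theorem gen (hT : TH x Y) (h : SH Y a b) (hr : Reg2 Y x M)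
    (hI : ∀ A B : Submodule S M, IsCompl A B → A = ⊥ ∨ B = ⊥) : ∃ u v : M, span S {u, v} = ⊤ := by
  by_cases h1 : ∃ m : M, ¬AA x Y b a 1 m
  · exact gen_two hT h hr hI h1
  by_cases h2 : ∃ m : M, ¬AA x Y a b 1 m
  · exact gen_two hT h.symm hr hI h2
  push Not at h1 h2
  obtain ⟨hf, hh⟩ := hT.h2.exists_left_inv
  have hle : (⊤ : Submodule T M) ≤ (Zk a M ⊔ Zk b M).restrictScalars T := by
    apply le_of_le_smul_of_le_jacobson_bot (I := maximalIdeal T) Module.Finite.fg_top
      (fun c hc => jac hc)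
    intro m _
    obtain ⟨m', m1, m2, ha, hb, rfl⟩ := AA_div h hh hr (h2 m) (h1 m)
    rw [add_assoc]
    exact add_mem (mem_sup_right (smul_mem_smul hT.hx trivial))
      (mem_sup_left (add_mem (mem_sup_left ha : m1 ∈ Zk a M ⊔ Zk b M) (mem_sup_right hb)))
  have hc : IsCompl (Zk a M) (Zk b M) := by
    constructor
    · rw [Submodule.disjoint_def]
      intro m ha hb
      have := h.sum m
      rw [mem_Zk.mp ha, mem_Zk.mp hb, add_zero, mul_comm, mul_smul] at this
      have h5 := hr.1 _ this.symm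
      rw [← one_smul T m, ← hh, mul_smul, h5, smul_zero]
    · rw [codisjoint_iff, eq_top_iff]
      intro m _
      exact hle (mem_top (x := m))
  have hs := hc.sup_eq_top
  rcases hI _ _ hc with h5 | h5
  · rw [h5, bot_sup_eq] at hs
    exact gen_one hT h.symm hr hI (fun m => by rw [← mem_Zk, hs]; trivial)
  · rw [h5, sup_bot_eq] at hs
    exact gen_one hT h hr hI (fun m => by rw [← mem_Zk, hs]; trivial)

end Pool.Agent.H79.BC3
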