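import Pool.Agent.H79.BC3

set_option autoImplicit false

namespace Pool.Agent.H79.BC4

open Submodule BC1 BC2 BC3 BCDefs IsLocalRing RingTheory.Sequence

section depth

variable {R : Type} [CommRing R] [IsLocalRing R] {M : Type} [AddCommGroup M] [Module R M]

open Pointwise in
theorem mem_smul_iff {R : Type*} [CommRing R] {M : Type*} [AddCommGroup M] [Module R M]
    (r : R) (v : M) : v ∈ r • (⊤ : Submodule R M) ↔ v ∈ Bm r M := by
  rw [Submodule.mem_smul_pointwise_iff_exists, mem_Bm]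
  simp

omit [IsLocalRing R] in
theorem reg2_iff (r1 r2 : R) : IsWeaklyRegular M [r1, r2] ↔ Reg2 r1 r2 M := by
  rw [isWeaklyRegular_cons_iff, isWeaklyRegular_singleton_iff]
  constructor
  · rintro ⟨h1, h2⟩
    refine ⟨fun n hn => h1.right_eq_zero_of_smul hn, fun n hn => ?_⟩
    rw [← mem_smul_iff, ← Submodule.Quotient.mk_eq_zero] at hn ⊢
    exact h2.right_eq_zero_of_smul hn
  · rintro ⟨h1, h2⟩
    refine ⟨IsSMulRegular.of_right_eq_zero_of_smul h1, IsSMulRegular.of_right_eq_zero_of_smul ?_⟩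
    intro v hv
    obtain ⟨v, rfl⟩ := Submodule.Quotient.mk_surjective _ v
    rw [← Submodule.Quotient.mk_smul, Submodule.Quotient.mk_eq_zero, mem_smul_iff] at hv
    rw [Submodule.Quotient.mk_eq_zero, mem_smul_iff]
    exact h2 v hv

theorem exists_reg2 (h : (2 : ℕ∞) ≤ depth R M) :
    ∃ r1 ∈ maximalIdeal R, ∃ r2 ∈ maximalIdeal R, Reg2 r1 r2 M := by
  have : (1 : ℕ∞) < depth R M := lt_of_lt_of_le (by norm_num) h
  unfold depth at this
  rw [lt_iSup_iff] at this
  obtain ⟨rs, hrs⟩ := this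
  rw [lt_iSup_iff] at hrs
  obtain ⟨⟨h1, h2⟩, h3⟩ := hrs
  match rs, h1, h2, h3 with
  | [], _, _, h3 => simp at h3
  | [_], _, _, h3 => simp at h3
  | r1 :: r2 :: rs, h1, h2, _ =>
    refine ⟨r1, h1 _ (by simp), r2, h1 _ (by simp), (reg2_iff r1 r2).mp ?_⟩
    have := h2.toIsWeaklyRegular
    rw [show r1 :: r2 :: rs = [r1, r2] ++ rs from rfl, isWeaklyRegular_append_iff] at this
    exact this.1

theorem isRegular_of_reg2 [Module.Finite R M] [Nontrivial M] {r1 r2 : R}
    (h1 : r1 ∈ maximalIdeal R) (h2 : r2 ∈ maximalIdeal R) (h : Reg2 r1 r2 M) :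
    IsRegular M [r1, r2] :=
  (IsLocalRing.isRegular_iff_isWeaklyRegular_of_subset_maximalIdeal (by
    intro r hr
    simp only [List.mem_cons, List.not_mem_nil, or_false] at hr
    rcases hr with rfl | rfl <;> assumption)).mpr ((reg2_iff r1 r2).mpr h)

theorem depth_le [IsNoetherianRing R] [Module.Finite R M] :
    ((depth R M : ℕ∞) : WithBot ℕ∞) ≤ ringKrullDim R := by
  have hne : ringKrullDim R ≠ ⊥ := by
    have := ringKrullDim_nonneg_of_nontrivial (R := R)
    intro h; rw [h] at this; simp at this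
  obtain ⟨d, hd⟩ := WithBot.ne_bot_iff_exists.mp hne
  rw [← hd, WithBot.coe_le_coe]
  refine iSup_le fun rs => iSup_le fun h => ?_
  have h1 := Module.supportDim_add_length_eq_supportDim_of_isRegular rs h.2
  have h2 : Nontrivial (M ⧸ Ideal.ofList rs • (⊤ : Submodule R M)) :=
    Submodule.Quotient.nontrivial_iff.mpr h.2.top_ne_smul.symm
  obtain ⟨e, he⟩ := WithBot.ne_bot_iff_exists.mp
    (Module.supportDim_ne_bot_of_nontrivial R (M ⧸ Ideal.ofList rs • (⊤ : Submodule R M)))
  have h3 := Module.supportDim_le_ringKrullDim R M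
  rw [← h1, ← he, ← hd] at h3
  have h4 : e + (rs.length : ℕ∞) ≤ d := by exact_mod_cast h3
  exact le_add_self.trans h4

theorem isMCM_of_reg2 [IsNoetherianRing R] [Module.Finite R M] [Nontrivial M] {r1 r2 : R}
    (h1 : r1 ∈ maximalIdeal R) (h2 : r2 ∈ maximalIdeal R) (h : Reg2 r1 r2 M)
    (hd : ringKrullDim R = 2) : IsMCM R M := by
  refine ⟨inferInstance, inferInstance, le_antisymm depth_le ?_⟩
  rw [hd]
  have : (2 : ℕ∞) ≤ depth R M := by
    refine le_iSup_of_le [r1, r2] (le_iSup_of_le ⟨?_, isRegular_of_reg2 h1 h2 h⟩ (by simp))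
    intro r hr
    simp only [List.mem_cons, List.not_mem_nil, or_false] at hr
    rcases hr with rfl | rfl <;> assumption
  exact WithBot.coe_le_coe.mpr this

omit [IsLocalRing R] in
theorem dimN_eq (hd : ringKrullDim R = 2) : dimN R = 2 := by
  unfold dimN
  rw [hd]
  rfl

theorem mult_le (hd : ringKrullDim R = 2) (c : ℕ)
    (h : ∀ n : ℕ, rl ⊤ (maximalIdeal R ^ n • ⊤ : Submodule R M) ≤ n * (n * c)) :
    mult R M ≤ (2 * c : ℕ) := by
  unfold mult
  rw [dimN_eq hd]
  refine Filter.limsup_le_of_le (by isBoundedDefault) (Filter.Eventually.of_forall fun n => ?_)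
  apply ENNReal.div_le_of_le_mul
  rw [← rl_top]
  have := ENat.toENNReal_le.mpr (h n)
  simp only [ENat.toENNReal_mul, ENat.toENNReal_coe] at this
  calc _ ≤ ((Nat.factorial 2 : ℕ) : ENNReal) * (n * (n * c)) := by gcongr
    _ = _ := by simp [Nat.factorial]; ring

theorem le_mult (hd : ringKrullDim R = 2) (c : ℕ)
    (h : ∀ i : ℕ, (i * (i * (8 * c)) : ℕ∞) ≤ rl ⊤ (maximalIdeal R ^ (4 * i) • ⊤ : Submodule R M)) :
    (c : ENNReal) ≤ mult R M := by
  unfold mult
  rw [dimN_eq hd]
  refine Filter.le_limsup_of_frequently_le' (Filter.frequently_atTop.mpr fun n => ?_)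
  refine ⟨4 * (n + 1), by omega, ?_⟩
  rw [ENNReal.le_div_iff_mul_le (Or.inl (by simp)) (Or.inl (by simp; finiteness)), ← rl_top]
  have := ENat.toENNReal_le.mpr (h (n + 1))
  simp only [ENat.toENNReal_mul, ENat.toENNReal_coe, ENat.toENNReal_ofNat] at this
  calc _ = ((Nat.factorial 2 : ℕ) : ENNReal) * ((n + 1 : ℕ) * ((n + 1 : ℕ) * (8 * c))) := by
        simp [Nat.factorial]; ring
    _ ≤ _ := by gcongr

end depth

variable {T : Type*} [CommRing T] [IsLocalRing T] [IsNoetherianRing T]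
  {S : Type} [CommRing S] [IsLocalRing S] [Algebra T S] {x Y : T} {a b : S}

/-- hypotheses on the complete ring -/
structure CH (x Y : T) (a b : S) : Prop extends TH x Y, SH Y a b where
  hxm : algebraMap T S x ∈ maximalIdeal S
  hYm : algebraMap T S Y ∈ maximalIdeal S
  hm : ∀ s ∈ maximalIdeal S, ∃ c d e : S, s = c * algebraMap T S x + d * algebraMap T S Y + e * a

omit [IsLocalRing T] [IsNoetherianRing T] [IsLocalRing S] in
theorem fin_S (h : SH Y a b) : Module.Finite T S := by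
  classical
  refine ⟨⟨{1, a}, eq_top_iff.mpr fun s _ => ?_⟩⟩
  obtain ⟨t, t', rfl⟩ := h.hgen s
  rw [Finset.coe_pair]
  exact mem_span_pair.mpr ⟨t, t', by simp [Algebra.smul_def]⟩

omit [IsLocalRing T] [IsNoetherianRing T] [IsLocalRing S] in
theorem a_sq (h : SH Y a b) : a * a = algebraMap T S (2 * Y) * a := by
  rw [← h.hsum, add_mul, mul_comm b, h.hab, add_zero]

section mod

variable {M : Type*} [AddCommGroup M] [Module S M] [Module T M] [IsScalarTower T S M]

theorem reg_Yx [Module.Finite T M] (h : CH x Y a b) {r1 r2 : S} (h1 : r1 ∈ maximalIdeal S)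
    (h2 : r2 ∈ maximalIdeal S) (hr : Reg2 r1 r2 M) : Reg2 Y x M := by
  have hN : IsNoetherian S M := isNoetherian_of_tower T inferInstance
  have haa : ∀ v : M, a • a • v = (2 * Y) • a • v := fun v => by
    rw [smul_smul, a_sq h.toSH, mul_smul, algebraMap_smul]
  have hY : ∀ m : M, Y • m = 0 → m = 0 := by
    let Z : Submodule S M := Zk a M ⊓ Zk (algebraMap T S Y) M
    have hZ : ∀ v, v ∈ Z ↔ a • v = 0 ∧ Y • v = 0 := fun v => by
      rw [mem_inf, mem_Zk, mem_Zk, algebraMap_smul]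
    have hZ0 : Z = ⊥ := by
      apply eq_bot_of_le_smul_of_le_jacobson_bot (maximalIdeal S) _ (IsNoetherian.noetherian Z) _
        (fun c hc => jac hc)
      intro v hv
      obtain ⟨ha, hy⟩ := (hZ v).mp hv
      obtain ⟨t, t', ht⟩ := h.hgen r1
      have e1 : r1 • v = t • v := by
        rw [ht, add_smul, mul_smul, ha, smul_zero, add_zero, algebraMap_smul]
      rcases h.hdvr t with h3 | ⟨i, u, hu, h3⟩
      · obtain ⟨d, rfl⟩ := Ideal.mem_span_singleton'.mp h3
        rw [mul_smul, hy, smul_zero] at e1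
        rw [hr.1 v e1]
        exact zero_mem _
      · obtain ⟨d, hd⟩ := Ideal.mem_span_singleton'.mp h3
        obtain ⟨ui, hui⟩ := hu.exists_left_inv
        have e2 : x ^ i • v = r1 • ui • v := by
          have : t = x ^ i * u + d * Y := by rw [hd]; ring
          rw [smul_comm, e1, this, add_smul, mul_smul d, hy, smul_zero, add_zero, smul_smul]
          congr 1
          linear_combination (-x ^ i) * hui
        obtain ⟨c, d', e, hc⟩ := h.hm r2 h2
        have e3 : ∀ k : ℕ, r2 ^ k • v = c ^ k • x ^ k • v := by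
          intro k
          induction k with
          | zero => simp
          | succ k ih =>
            have : r2 • v = c • x • v := by
              rw [hc, add_smul, add_smul, mul_smul, mul_smul, mul_smul, ha, algebraMap_smul,
                algebraMap_smul, hy]
              simp
            rw [pow_succ', mul_smul, ih, smul_comm r2, smul_comm r2, this, pow_succ, pow_succ,
              mul_smul, mul_smul, smul_comm c (x ^ k)]
        obtain ⟨v', hv'⟩ := reg_pow hr.2 i v ⟨c ^ i • ui • v, by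
          show r1 • c ^ i • ui • v = r2 ^ i • v
          rw [e3, e2, smul_comm]⟩
        have hv'' : r1 • v' = v := hv'
        rw [← hv'']
        refine smul_mem_smul h1 ((hZ v').mpr ⟨hr.1 _ ?_, hr.1 _ ?_⟩)
        · rw [smul_comm, hv'', ha]
        · rw [smul_comm, hv'', hy]
    intro m hm
    have h3 : a • m = 0 := by
      have : a • m ∈ Z := (hZ _).mpr ⟨by
        rw [haa, mul_smul, smul_comm Y a, hm, smul_zero, smul_zero], by
        rw [smul_comm, hm, smul_zero]⟩
      rwa [hZ0] at this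
    have : m ∈ Z := (hZ _).mpr ⟨h3, hm⟩
    rwa [hZ0] at this
  have key : ∀ v : M, x • v ∈ Bm Y M → a • v ∈ Bm Y M → v ∈ Bm Y M := by
    rintro v ⟨w1, hw1⟩ ⟨w2, hw2⟩
    have hw1' : Y • w1 = x • v := hw1
    have hw2' : Y • w2 = a • v := hw2
    have hs : ∀ s ∈ maximalIdeal S, ∃ w : M, s • v = Y • w := by
      intro s hs
      obtain ⟨c, d, e, rfl⟩ := h.hm s hs
      refine ⟨c • w1 + d • v + e • w2, ?_⟩
      rw [add_smul, add_smul, mul_smul, mul_smul, mul_smul, algebraMap_smul, algebraMap_smul,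
        ← hw1', ← hw2', smul_add, smul_add, smul_comm Y c, smul_comm Y d, smul_comm Y e]
    obtain ⟨v1, hv1⟩ := hs r1 h1
    obtain ⟨v2, hv2⟩ := hs r2 h2
    obtain ⟨v3, hv3⟩ := hr.2 v1 ⟨v2, by
      show r1 • v2 = r2 • v1
      rw [← sub_eq_zero]
      apply hY
      rw [smul_sub, smul_comm Y r1, smul_comm Y r2, ← hv1, ← hv2, smul_comm, sub_self]⟩
    have hv3' : r1 • v3 = v1 := hv3
    refine ⟨v3, ?_⟩
    show Y • v3 = v
    rw [← sub_eq_zero]
    apply hr.1
    rw [smul_sub, smul_comm, hv3', hv1, sub_self]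
  refine ⟨hY, fun v hv => key v hv (key _ ?_ ?_)⟩
  · obtain ⟨w, hw⟩ := hv
    have hw' : Y • w = x • v := hw
    exact ⟨a • w, by
      show Y • a • w = x • a • v
      rw [smul_comm, hw', smul_comm]⟩
  · exact ⟨(2 : T) • a • v, by
      show Y • (2 : T) • a • v = a • a • v
      rw [haa, smul_smul, mul_comm]⟩

end mod

theorem bounded (h : CH x Y a b) (hd : ringKrullDim S = 2) : BoundedCM S := by
  classical
  refine ⟨2 * 4, fun M _ _ hM hI => ?_⟩
  let _ : Module T M := Module.compHom M (algebraMap T S)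
  have : IsScalarTower T S M := IsScalarTower.of_algebraMap_smul fun _ _ => rfl
  have := hM.1
  have := fin_S h.toSH
  have : Module.Finite T M := Module.Finite.trans S M
  have h2 : (2 : ℕ∞) ≤ depth S M := by
    have := hM.2.2
    rw [hd] at this
    have : depth S M = 2 := WithBot.coe_injective this
    exact this.ge
  obtain ⟨r1, h1, r2, h2, hr⟩ := exists_reg2 h2
  obtain ⟨u, v, huv⟩ := gen h.toTH h.toSH (reg_Yx h h1 h2 hr) hI.2
  apply mult_le hd
  intro n
  set X' := algebraMap T S x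
  set Y' := algebraMap T S Y
  have e1 : rl ⊤ (maximalIdeal S ^ n • ⊤ : Submodule S M) ≤
      rl ⊤ (Bm (X' ^ n) M ⊔ Bm (Y' ^ n) M) := by
    apply rl_anti
    refine sup_le ?_ ?_
    · rintro _ ⟨m, rfl⟩
      exact smul_mem_smul (Ideal.pow_mem_pow h.hxm n) trivial
    · rintro _ ⟨m, rfl⟩
      exact smul_mem_smul (Ideal.pow_mem_pow h.hYm n) trivial
  have e2 : rl ⊤ (Bm X' M ⊔ Bm Y' M) ≤ rl ⊤ ((Bm X' M ⊔ Bm Y' M) ⊔ Bm (a ^ 2) M) := by
    apply le_of_eq
    congr 1
    symm
    rw [sup_eq_left]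
    rintro _ ⟨m, rfl⟩
    refine mem_sup_right ⟨(2 * a) • m, ?_⟩
    show Y' • (2 * a) • m = a ^ 2 • m
    rw [smul_smul, pow_two, a_sq h.toSH, map_mul, map_ofNat]
    congr 1; ring
  have e3 : rl ⊤ ((Bm X' M ⊔ Bm Y' M) ⊔ Bm a M) ≤ 2 := by
    have := rl_le_card ((Bm X' M ⊔ Bm Y' M) ⊔ Bm a M) {u, v} (by
      intro w _ c hc
      obtain ⟨c, d, e, rfl⟩ := h.hm c hc
      rw [add_smul, add_smul, mul_comm c, mul_comm d, mul_comm e, mul_smul, mul_smul, mul_smul]
      exact add_mem (mem_sup_left (add_mem (mem_sup_left ⟨_, rfl⟩) (mem_sup_right ⟨_, rfl⟩)))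
        (mem_sup_right ⟨_, rfl⟩))
    rw [Finset.coe_pair, huv, sup_top_eq] at this
    exact this.trans (by exact_mod_cast Finset.card_le_two)
  refine e1.trans ((rl_sq_le X' Y' n).trans ?_)
  gcongr
  refine e2.trans ((rl_pow_le _ a 2).trans ?_)
  calc _ ≤ ((2 : ℕ) : ℕ∞) * 2 := by gcongr
    _ = _ := by norm_num

end Pool.Agent.H79.BC4
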