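import Pool.Agent.H79.BC4

set_option autoImplicit false

namespace Pool.Agent.H79.BC5

open Submodule BC1 BC2 BC3 BC4 BCDefs IsLocalRing TensorProduct

section gen

variable {S : Type*} [CommRing S] {N₁ N₂ N₃ : Type*} [AddCommGroup N₁] [Module S N₁]
  [AddCommGroup N₂] [Module S N₂] [AddCommGroup N₃] [Module S N₃]

def PP (X a b : S) (N : Type*) [AddCommGroup N] [Module S N] : Prop :=
  ∀ w : N, a • w = 0 → X • w ∈ Bm b N

def QQ (X a b : S) (j : ℕ) (N : Type*) [AddCommGroup N] [Module S N] : Prop :=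
  ∃ w : N, a • w = 0 ∧ X ^ j • w ∉ Bm b N

theorem PP.retract {X a b : S} (i : N₁ →ₗ[S] N₂) (p : N₂ →ₗ[S] N₁) (h : ∀ n, p (i n) = n)
    (hP : PP X a b N₂) : PP X a b N₁ := by
  intro w hw
  obtain ⟨v, hv⟩ := hP (i w) (by rw [← map_smul, hw, map_zero])
  have hv' : b • v = X • i w := hv
  refine ⟨p v, ?_⟩
  show b • p v = X • w
  rw [← map_smul, hv', map_smul, h]

theorem QQ.retract {X a b : S} {j : ℕ} (i : N₁ →ₗ[S] N₂) (p : N₂ →ₗ[S] N₁) (h : ∀ n, p (i n) = n)
    (hQ : QQ X a b j N₁) : QQ X a b j N₂ := by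
  obtain ⟨w, hw, hw'⟩ := hQ
  refine ⟨i w, by rw [← map_smul, hw, map_zero], ?_⟩
  rintro ⟨v, hv⟩
  have hv' : b • v = X ^ j • i w := hv
  refine hw' ⟨p v, ?_⟩
  show b • p v = X ^ j • w
  rw [← map_smul, hv', map_smul, h]

theorem Zk_retract {a b : S} (i : N₁ →ₗ[S] N₂) (p : N₂ →ₗ[S] N₁) (h : ∀ n, p (i n) = n)
    (hP : Zk a N₂ ≤ Bm b N₂) : Zk a N₁ ≤ Bm b N₁ := by
  intro w hw
  have := PP.retract (X := 1) i p h (fun w hw => by rw [one_smul]; exact hP hw) w hw
  rwa [one_smul] at this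

theorem Zk_pi {a b : S} {ι : Type*} (hP : Zk a S ≤ Bm b S) : Zk a (ι → S) ≤ Bm b (ι → S) := by
  intro w hw
  choose v hv using fun i => hP (show w i ∈ Zk a S from congrFun hw i)
  exact ⟨v, funext hv⟩

theorem reg2_retract {u v : S} (i : N₁ →ₗ[S] N₂) (p : N₂ →ₗ[S] N₁) (h : ∀ n, p (i n) = n)
    (hr : Reg2 u v N₂) : Reg2 u v N₁ := by
  refine ⟨fun n hn => ?_, ?_⟩
  · rw [← h n, hr.1 (i n) (by rw [← map_smul, hn, map_zero]), map_zero]
  · rintro n ⟨w, hw⟩
    have hw' : u • w = v • n := hw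
    obtain ⟨w', hw2⟩ := hr.2 (i n) ⟨i w, by
      show u • i w = v • i n
      rw [← map_smul, hw', map_smul]⟩
    have hw3 : u • w' = i n := hw2
    refine ⟨p w', ?_⟩
    show u • p w' = n
    rw [← map_smul, hw3, h]

theorem reg2_pi {u v : S} {ι : Type*} (hr : Reg2 u v S) : Reg2 u v (ι → S) := by
  refine ⟨fun n hn => funext fun i => hr.1 (n i) (congrFun hn i), ?_⟩
  rintro n ⟨w, hw⟩
  choose w' hw' using fun i => hr.2 (n i) ⟨w i, congrFun hw i⟩
  exact ⟨w', funext hw'⟩

variable (f : N₁ →ₗ[S] N₂) (g : N₂ →ₗ[S] N₃) (hf : Function.Injective f)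
  (hg : Function.Surjective g) (H : Function.Exact f g)

include hf H in
theorem reg2_ker {u v : S} (hr : Reg2 u v N₂) (h3 : ∀ n : N₃, u • n = 0 → n = 0) :
    Reg2 u v N₁ := by
  refine ⟨fun n hn => hf ?_, ?_⟩
  · rw [map_zero]
    exact hr.1 _ (by rw [← map_smul, hn, map_zero])
  · rintro n ⟨w, hw⟩
    have hw' : u • w = v • n := hw
    obtain ⟨w', hw2⟩ := hr.2 (f n) ⟨f w, by
      show u • f w = v • f n
      rw [← map_smul, hw', map_smul]⟩
    have hw3 : u • w' = f n := hw2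
    obtain ⟨k, rfl⟩ := (H w').mp (h3 _ (by rw [← map_smul, hw3, H.apply_apply_eq_zero]))
    exact ⟨k, hf (by rw [← hw3, ← map_smul]; rfl)⟩

include hf hg H in
theorem PP.shift {X a b : S} (hab : a * b = 0) (hZ : Zk b N₂ ≤ Bm a N₂) (hP : PP X a b N₃) :
    PP X b a N₁ := by
  intro w hw
  obtain ⟨v, hv⟩ := hZ (show f w ∈ Zk b N₂ by rw [mem_Zk, ← map_smul, hw, map_zero])
  have hv' : a • v = f w := hv
  obtain ⟨u, hu⟩ := hP (g v) (by rw [← map_smul, hv', H.apply_apply_eq_zero])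
  obtain ⟨v', rfl⟩ := hg u
  have hu' : b • g v' = X • g v := hu
  obtain ⟨k, hk⟩ := (H (X • v - b • v')).mp (by rw [map_sub, map_smul, map_smul, hu', sub_self])
  refine ⟨k, hf ?_⟩
  show f (a • k) = f (X • w)
  rw [map_smul, hk, map_smul, ← hv', smul_sub, smul_smul a b, hab, zero_smul, sub_zero, smul_comm]

include hf hg H in
theorem QQ.shift {X a b : S} {j : ℕ} (hab : a * b = 0) (hZ : Zk b N₂ ≤ Bm a N₂)
    (hQ : QQ X b a j N₃) : QQ X a b j N₁ := by
  obtain ⟨u, hu, hu'⟩ := hQ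
  obtain ⟨v, rfl⟩ := hg u
  obtain ⟨w, hw⟩ := (H (b • v)).mp (by rw [map_smul, hu])
  refine ⟨w, hf (by rw [map_smul, hw, smul_smul, hab, zero_smul, map_zero]), ?_⟩
  rintro ⟨k, hk⟩
  have hk' : b • k = X ^ j • w := hk
  obtain ⟨v', hv'⟩ := hZ (show X ^ j • v - f k ∈ Zk b N₂ by
    rw [mem_Zk, smul_sub, ← map_smul, hk', map_smul, hw, smul_comm, sub_self])
  have hv2 : a • v' = X ^ j • v - f k := hv'
  refine hu' ⟨g v', ?_⟩
  show a • g v' = X ^ j • g v
  rw [← map_smul, hv2, map_sub, H.apply_apply_eq_zero, sub_zero, map_smul]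

theorem QQ.split {X a b : S} {j : ℕ} (i₁ : N₁ →ₗ[S] N₂) (p₁ : N₂ →ₗ[S] N₁) (i₃ : N₃ →ₗ[S] N₂)
    (p₃ : N₂ →ₗ[S] N₃) (h : ∀ n, i₁ (p₁ n) + i₃ (p₃ n) = n) (hQ : QQ X a b j N₂) :
    QQ X a b j N₁ ∨ QQ X a b j N₃ := by
  obtain ⟨w, hw, hw'⟩ := hQ
  by_contra hc
  rw [not_or] at hc
  unfold QQ at hc
  push Not at hc
  obtain ⟨v1, hv1⟩ := hc.1 (p₁ w) (by rw [← map_smul, hw, map_zero])
  obtain ⟨v3, hv3⟩ := hc.2 (p₃ w) (by rw [← map_smul, hw, map_zero])
  have e1 : b • v1 = X ^ j • p₁ w := hv1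
  have e3 : b • v3 = X ^ j • p₃ w := hv3
  refine hw' ⟨i₁ v1 + i₃ v3, ?_⟩
  show b • (i₁ v1 + i₃ v3) = X ^ j • w
  rw [smul_add, ← map_smul, ← map_smul, e1, e3, map_smul, map_smul, ← smul_add, h]

/-- the ideals `(b) + (X, a)^j` -/
def II (X a b : S) : ℕ → Ideal S
  | 0 => ⊤
  | j + 1 => Ideal.span {b} ⊔ Ideal.span {X ^ (j + 1)} ⊔ Ideal.span {a} * II X a b j

theorem mem_II {X a b s : S} {j : ℕ} :
    s ∈ II X a b (j + 1) ↔ ∃ c c' d, d ∈ II X a b j ∧ s = c * b + c' * X ^ (j + 1) + a * d := by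
  rw [II]
  constructor
  · intro h
    obtain ⟨u, hu, v, hv, rfl⟩ := mem_sup.mp h
    obtain ⟨u1, hu1, u2, hu2, rfl⟩ := mem_sup.mp hu
    obtain ⟨c, rfl⟩ := Ideal.mem_span_singleton'.mp hu1
    obtain ⟨c', rfl⟩ := Ideal.mem_span_singleton'.mp hu2
    obtain ⟨d, hd, rfl⟩ := Ideal.mem_span_singleton_mul.mp hv
    exact ⟨c, c', d, hd, rfl⟩
  · rintro ⟨c, c', d, hd, rfl⟩
    exact add_mem (mem_sup_left (add_mem (mem_sup_left (Ideal.mem_span_singleton'.mpr ⟨c, rfl⟩))
      (mem_sup_right (Ideal.mem_span_singleton'.mpr ⟨c', rfl⟩))))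
      (mem_sup_right (Ideal.mem_span_singleton_mul.mpr ⟨d, hd, rfl⟩))

theorem X_mul_II {X a b : S} (j : ℕ) : ∀ s ∈ II X a b j, X * s ∈ II X a b (j + 1) := by
  induction j with
  | zero => intro s _; exact mem_II.mpr ⟨0, s, 0, zero_mem _, by ring⟩
  | succ j ih =>
    intro s hs
    obtain ⟨c, c', d, hd, rfl⟩ := mem_II.mp hs
    exact mem_II.mpr ⟨X * c, c', X * d, ih d hd, by ring⟩

theorem pow_le_II {X a b : S} (m : Ideal S) (hm : ∀ s ∈ m, ∃ c d e, s = c * X + d * a + e * b)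
    (j : ℕ) : m ^ j ≤ II X a b j := by
  induction j with
  | zero => exact le_top
  | succ j ih =>
    rw [pow_succ']
    refine Ideal.mul_le.mpr fun s hs t ht => ?_
    obtain ⟨c, d, e, rfl⟩ := hm s hs
    have : (c * X + d * a + e * b) * t = c * (X * t) + (d * (a * t) + e * t * b) := by ring
    rw [this]
    exact add_mem (Ideal.mul_mem_left _ _ (X_mul_II j t (ih ht)))
      (mem_II.mpr ⟨e * t, 0, d * t, Ideal.mul_mem_left _ _ (ih ht), by ring⟩)

theorem PP_II {X a b : S} (hr : Reg2 X a (S ⧸ Ideal.span {b})) (j : ℕ) :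
    PP X a b (S ⧸ II X a b (j + 1)) := by
  intro w hw
  obtain ⟨s, rfl⟩ := Ideal.Quotient.mk_surjective w
  have hw' : a * s ∈ II X a b (j + 1) := Ideal.Quotient.eq_zero_iff_mem.mp hw
  obtain ⟨c, c', d, hd, e⟩ := mem_II.mp hw'
  obtain ⟨t, ht⟩ := hr.pow (j + 1) (Ideal.Quotient.mk _ (s - d)) ⟨Ideal.Quotient.mk _ c', by
    apply Ideal.Quotient.eq.mpr
    show X ^ (j + 1) * c' - a * (s - d) ∈ Ideal.span {b}
    exact Ideal.mem_span_singleton'.mpr ⟨-c, by linear_combination e⟩⟩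
  obtain ⟨t, rfl⟩ := Ideal.Quotient.mk_surjective t
  have ht' : X ^ (j + 1) * t - (s - d) ∈ Ideal.span {b} := Ideal.Quotient.eq.mp ht
  obtain ⟨c2, hc2⟩ := Ideal.mem_span_singleton'.mp ht'
  have : X * s ∈ II X a b (j + 1) := by
    have e2 : X * s = X * d + ((-X * c2) * b + X * t * X ^ (j + 1) + a * 0) := by
      linear_combination X * hc2
    rw [e2]
    exact add_mem (X_mul_II j d hd) (mem_II.mpr ⟨_, _, 0, zero_mem _, rfl⟩)
  have h0 : X • Ideal.Quotient.mk (II X a b (j + 1)) s = 0 :=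
    Ideal.Quotient.eq_zero_iff_mem.mpr this
  rw [h0]
  exact zero_mem _

theorem QQ_II [IsLocalRing S] {X a b : S} (hX : X ∈ maximalIdeal S) (j : ℕ)
    (hj : ∀ c d, X ^ j ≠ c * a + d * b) : QQ X b a j (S ⧸ II X a b (j + 1)) := by
  refine ⟨Ideal.Quotient.mk _ 1, Ideal.Quotient.eq_zero_iff_mem.mpr
    (mem_II.mpr ⟨1, 0, 0, zero_mem _, by simp⟩), ?_⟩
  rintro ⟨t, ht⟩
  obtain ⟨t, rfl⟩ := Ideal.Quotient.mk_surjective t
  have ht' : a * t - X ^ j * 1 ∈ II X a b (j + 1) := Ideal.Quotient.eq.mp ht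
  obtain ⟨c, c', d, -, e⟩ := mem_II.mp ht'
  have hu : IsUnit (1 - (-c' * X)) :=
    isUnit_one_sub_self_of_mem_nonunits _ ((maximalIdeal S).mul_mem_left _ hX)
  obtain ⟨u, hu⟩ := hu.exists_left_inv
  exact hj (u * (t - d)) (-u * c) (by linear_combination (-X ^ j) * hu - u * e)

end gen

variable {T : Type*} [CommRing T] [IsLocalRing T] [IsNoetherianRing T]
  {S : Type} [CommRing S] [IsLocalRing S] [Algebra T S] {x Y : T} {a b : S}

theorem rank_bound (h : CH x Y a b) {N : Type*} [AddCommGroup N] [Module S N]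
    (hr : Reg2 (algebraMap T S Y) (algebraMap T S x) N) (s : Finset N)
    (hs : span S (s : Set N) = ⊤) (hP : PP (algebraMap T S x) a b N) :
    hh a b N ≤ (2 * s.card : ℕ) := by
  classical
  let _ : Module T N := Module.compHom N (algebraMap T S)
  have : IsScalarTower T S N := IsScalarTower.of_algebraMap_smul fun _ _ => rfl
  have : Module.Finite S N := ⟨⟨s, hs⟩⟩
  have := fin_S h.toSH
  have : Module.Finite T N := Module.Finite.trans S N
  have hr' : Reg2 Y x N := hr
  have : Module.Finite T (Zk a N) :=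
    Module.Finite.of_injective ((Zk a N).subtype.restrictScalars T) Subtype.val_injective
  have := free_of_reg h.toTH _ (reg_Zk hr' a)
  have h1 : Module.finrank T N ≤ 2 * s.card := by
    have := finrank_le_of_span_eq_top (R := T) (ι := s ⊕ s)
      (v := Sum.elim (fun v => v.1) (fun v => a • v.1)) (by
        rw [eq_top_iff]
        intro n _
        have hn : n ∈ span S (s : Set N) := by rw [hs]; trivial
        obtain ⟨c, rfl⟩ := (mem_span_finset'.mp hn)
        refine sum_mem fun v _ => ?_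
        obtain ⟨t, t', e⟩ := h.hgen (c v)
        rw [e, add_smul, mul_smul, algebraMap_smul, algebraMap_smul]
        exact add_mem (smul_mem _ _ (subset_span ⟨Sum.inl v, rfl⟩))
          (smul_mem _ _ (subset_span ⟨Sum.inr v, rfl⟩)))
    simpa [two_mul] using this
  have h2 : Module.finrank T (Zk a N) ≤ Module.finrank T N :=
    LinearMap.finrank_le_finrank_of_injective (f := (Zk a N).subtype.restrictScalars T)
      Subtype.val_injective
  let β := Module.finBasis T (Zk a N)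
  let s' : Finset N := Finset.univ.image fun i => (β i : N)
  have h3 : s'.card ≤ 2 * s.card := by
    refine Finset.card_image_le.trans ?_
    simpa using h2.trans h1
  obtain ⟨hf, hhf⟩ := h.h2.exists_left_inv
  have h4 := rl_le_card (Bm b N) s' (by
    intro v hv c hc
    obtain ⟨i, -, rfl⟩ := Finset.mem_image.mp hv
    have ha : a • (β i : N) = 0 := (β i).2
    obtain ⟨c, d, e, rfl⟩ := h.hm c hc
    rw [add_smul, add_smul, mul_smul, mul_smul, mul_smul, ha, smul_zero, add_zero]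
    refine add_mem (smul_mem _ _ (hP _ ha)) (smul_mem _ _ ⟨hf • (β i : N), ?_⟩)
    show b • hf • (β i : N) = _
    rw [smul_comm, h.toSH.onZ ha, smul_smul, ← mul_assoc, hhf, one_mul, algebraMap_smul])
  have h5 : Bm b N ⊔ span S (s' : Set N) = Zk a N := by
    refine le_antisymm (sup_le (Bm_le_Zk h.hab) (span_le.mpr ?_)) ?_
    · intro v hv
      obtain ⟨i, -, rfl⟩ := Finset.mem_image.mp hv
      exact (β i).2
    · intro v hv
      have e := congrArg Subtype.val (β.sum_repr ⟨v, hv⟩)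
      simp only [AddSubmonoidClass.coe_finsetSum] at e
      rw [← e]
      refine mem_sup_right (sum_mem fun i _ => ?_)
      show algebraMap T S _ • (β i : N) ∈ _
      exact smul_mem _ _ (subset_span (Finset.mem_image.mpr ⟨i, Finset.mem_univ _, rfl⟩))
  rw [h5] at h4
  exact h4.trans (by exact_mod_cast h3)

variable {R : Type} [CommRing R] [IsLocalRing R] [IsNoetherianRing R] [Algebra R S]

/-- hypotheses on the pair of rings -/
structure DH (x Y : T) (a b : S) (x' y' : R) : Prop extends CH x Y a b where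
  hza : Zk a S ≤ Bm b S
  hzb : Zk b S ≤ Bm a S
  hreg : Reg2 (algebraMap T S Y) (algebraMap T S x) S
  hregb : Reg2 (algebraMap T S x) a (S ⧸ Ideal.span {b})
  hxab : ∀ (j : ℕ) (c d : S), algebraMap T S x ^ j ≠ c * a + d * b
  hx' : x' ∈ maximalIdeal R
  hy' : y' ∈ maximalIdeal R
  r1 : Reg2 x' y' R
  r2 : Reg2 y' x' R
  hm2 : maximalIdeal R ^ 2 ≤ Ideal.span {x'} ⊔ Ideal.span {y'}
  hmap : (maximalIdeal R).map (algebraMap R S) = maximalIdeal S
  dense : ∀ (s : S) (n : ℕ), ∃ r : R, s - algebraMap R S r ∈ maximalIdeal S ^ n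
  primes : ∀ p : Ideal R, p.IsPrime → p = maximalIdeal R ∨ p = ⊥ ∨ ∃ f : R, p = Ideal.span {f} ∧
    (∀ s, algebraMap R S f * s ∈ Ideal.span {a} → s ∈ Ideal.span {a}) ∧
    (∀ s, algebraMap R S f * s ∈ Ideal.span {b} → s ∈ Ideal.span {b})

theorem acyc_quot {S : Type*} [CommRing S] {a b f : S} (hz : Zk a S ≤ Bm b S)
    (hf : f = 0 ∨ ∀ s, f * s ∈ Ideal.span {a} → s ∈ Ideal.span {a}) :
    Zk a (S ⧸ Ideal.span {f}) ≤ Bm b (S ⧸ Ideal.span {f}) := by
  intro w hw
  obtain ⟨s, rfl⟩ := Ideal.Quotient.mk_surjective w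
  have hw' : a * s ∈ Ideal.span {f} := Ideal.Quotient.eq_zero_iff_mem.mp hw
  obtain ⟨t, ht⟩ := Ideal.mem_span_singleton'.mp hw'
  have : ∃ t', a * (s - t' * f) = 0 := by
    rcases hf with rfl | hf
    · exact ⟨0, by linear_combination -ht⟩
    · obtain ⟨t', rfl⟩ := Ideal.mem_span_singleton'.mp
        (hf t (Ideal.mem_span_singleton'.mpr ⟨s, by rw [mul_comm f, ht, mul_comm]⟩))
      exact ⟨t', by linear_combination -ht⟩
  obtain ⟨t', ht'⟩ := this
  obtain ⟨u, hu⟩ := hz (show s - t' * f ∈ Zk a S from ht')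
  have hu' : b * u = s - t' * f := hu
  refine ⟨Ideal.Quotient.mk _ u, Ideal.Quotient.eq.mpr ?_⟩
  show b * u - s ∈ _
  exact Ideal.mem_span_singleton'.mpr ⟨-t', by rw [hu']; ring⟩

omit [IsNoetherianRing T] in
theorem bal_all [Module.Flat R S] {x' y' : R} (h : DH x Y a b x' y') (N : Type) [AddCommGroup N]
    [Module R N] (hN : Module.Finite R N) : Bal a b (S ⊗[R] N) := by
  induction hN using IsNoetherianRing.induction_on_isQuotientEquivQuotientPrime R with
  | subsingleton N =>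
    exact Bal.of_finite h.hab (by rw [Module.length_eq_zero]; simp)
  | quotient N p e =>
    refine Bal.equiv (((Algebra.TensorProduct.quotIdealMapEquivTensorQuot S p.1).toLinearEquiv).trans
      (e.symm.baseChange R S _ _)) ?_
    rcases h.primes p.1 p.2 with hp | hp | ⟨f, hp, h1, h2⟩
    · rw [hp, h.hmap]
      refine Bal.of_finite h.hab ?_
      rw [Module.length_eq_one_iff.mpr
        (isSimpleModule_iff_isCoatom.mpr (Ideal.isMaximal_def.mp inferInstance))]
      simp
    · rw [hp, Ideal.map_bot, ← Ideal.span_singleton_zero]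
      exact Bal.of_acyclic (acyc_quot h.hza (Or.inl rfl)) (acyc_quot h.hzb (Or.inl rfl))
    · rw [hp, Ideal.map_span, Set.image_singleton]
      exact Bal.of_acyclic (acyc_quot h.hza (Or.inr h1)) (acyc_quot h.hzb (Or.inr h2))
  | exact N₁ N₂ N₃ f g hf hg H h1 h3 =>
    exact Bal.exact (f.baseChange S) (g.baseChange S)
      (Module.Flat.lTensor_preserves_injective_linearMap f hf) (LinearMap.lTensor_surjective S hg)
      (Module.Flat.lTensor_exact S H) h.hab h1 h3

omit [IsLocalRing S] [IsLocalRing R] in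
theorem exists_indec {X a b : S} {j : ℕ} {M : Type} [AddCommGroup M] [Module R M]
    [Module.Finite R M] (K : Submodule R M) : ∀ (N : Type) [AddCommGroup N] [Module R N]
    (i : N →ₗ[R] M) (p : M →ₗ[R] N), p ∘ₗ i = LinearMap.id → LinearMap.ker p = K →
    QQ X a b j (S ⊗[R] N) → ∃ (N' : Type) (_ : AddCommGroup N') (_ : Module R N')
      (i' : N' →ₗ[R] M) (p' : M →ₗ[R] N'), p' ∘ₗ i' = LinearMap.id ∧ QQ X a b j (S ⊗[R] N') ∧
        Indec R N' := by
  induction K using IsNoetherian.induction with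
  | hgt K ih =>
    intro N _ _ i p hpi hK hQ
    by_cases hI : Indec R N
    · exact ⟨N, _, _, i, p, hpi, hQ, hI⟩
    have hnt : Nontrivial N := by
      by_contra hn
      rw [not_nontrivial_iff_subsingleton] at hn
      obtain ⟨w, -, hw⟩ := hQ
      exact hw (by rw [Subsingleton.elim (X ^ j • w) 0]; exact zero_mem _)
    have hpi' : ∀ n, p (i n) = n := fun n => LinearMap.congr_fun hpi n
    have step : ∀ A B : Submodule R N, IsCompl A B → B ≠ ⊥ → QQ X a b j (S ⊗[R] A) →
        ∃ (N' : Type) (_ : AddCommGroup N') (_ : Module R N')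
        (i' : N' →ₗ[R] M) (p' : M →ₗ[R] N'), p' ∘ₗ i' = LinearMap.id ∧ QQ X a b j (S ⊗[R] N') ∧
          Indec R N' := by
      intro A B hAB hB hQA
      refine ih _ ?_ A (i ∘ₗ A.subtype) (projectionOnto A B hAB ∘ₗ p) ?_ rfl hQA
      · rw [← hK]
        refine lt_of_le_of_ne (fun m hm => ?_) ?_
        · rw [LinearMap.mem_ker] at hm ⊢
          simp [hm]
        · obtain ⟨v, hv, hv0⟩ := (Submodule.ne_bot_iff B).mp hB
          intro he
          have : i v ∈ LinearMap.ker (projectionOnto A B hAB ∘ₗ p) := by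
            rw [LinearMap.mem_ker, LinearMap.comp_apply, hpi']
            exact (projectionOnto_apply_eq_zero_iff hAB).mpr hv
          rw [← he, LinearMap.mem_ker, hpi'] at this
          exact hv0 this
      · ext v
        simp [hpi']
    unfold Indec at hI
    push Not at hI
    obtain ⟨A, B, hAB, hA, hB⟩ := hI hnt
    have hsum : A.subtype ∘ₗ projectionOnto A B hAB + B.subtype ∘ₗ projectionOnto B A hAB.symm =
        LinearMap.id := by
      ext v
      exact projection_add_projection_eq_self hAB v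
    rcases QQ.split (A.subtype.baseChange S) ((projectionOnto A B hAB).baseChange S)
      (B.subtype.baseChange S) ((projectionOnto B A hAB.symm).baseChange S) (fun n => by
        have := congrArg (fun F => LinearMap.baseChange S F n) hsum
        simp only [LinearMap.baseChange_add, LinearMap.baseChange_comp,
          LinearMap.baseChange_id] at this
        exact this) hQ with h1 | h1
    · exact step A B hAB hB h1
    · exact step B A hAB.symm hA h1

theorem unbounded [Module.Flat R S] {x' y' : R} (h : DH x Y a b x' y')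
    (hd : ringKrullDim R = 2) : ¬BoundedCM R := by
  classical
  rintro ⟨B, hB⟩
  set X' := algebraMap T S x with hX'
  set j := 16 * (B + 1) with hj
  obtain ⟨hf, hhf⟩ := h.h2.exists_left_inv
  have hmI : maximalIdeal S ^ (j + 1) ≤ II X' a b (j + 1) := by
    apply pow_le_II
    intro s hs
    obtain ⟨c, d, e, rfl⟩ := h.hm s hs
    refine ⟨c, d * algebraMap T S hf + e, d * algebraMap T S hf, ?_⟩
    have : algebraMap T S Y = algebraMap T S hf * (a + b) := by
      rw [h.hsum, ← map_mul, ← mul_assoc, hhf, one_mul]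
    rw [this]; ring
  let J : Ideal R := (II X' a b (j + 1)).comap (algebraMap R S)
  have hJ : J.map (algebraMap R S) = II X' a b (j + 1) := by
    refine le_antisymm Ideal.map_comap_le fun s hs => ?_
    obtain ⟨r, hr⟩ := h.dense s (j + 1)
    have e : s = algebraMap R S r + (s - algebraMap R S r) := by ring
    rw [e]
    refine add_mem (Ideal.mem_map_of_mem _ ?_) ?_
    · show algebraMap R S r ∈ II X' a b (j + 1)
      have e' : algebraMap R S r = s - (s - algebraMap R S r) := by ring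
      rw [e']
      exact sub_mem hs (hmI hr)
    · rw [← h.hmap, ← Ideal.map_pow] at hr
      refine Ideal.map_mono ?_ hr
      rw [← Ideal.map_le_iff_le_comap, Ideal.map_pow, h.hmap]
      exact hmI
  let e0 : (S ⧸ II X' a b (j + 1)) ≃ₗ[S] S ⊗[R] (R ⧸ J) :=
    (Submodule.quotEquivOfEq _ _ hJ.symm).trans
      (Algebra.TensorProduct.quotIdealMapEquivTensorQuot S J).toLinearEquiv
  have P0 : PP X' a b (S ⊗[R] (R ⧸ J)) :=
    PP.retract e0.symm.toLinearMap e0.toLinearMap (fun n => by simp) (PP_II h.hregb j)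
  have Q0 : QQ X' b a j (S ⊗[R] (R ⧸ J)) :=
    QQ.retract e0.toLinearMap e0.symm.toLinearMap (fun n => by simp) (QQ_II h.hxm j (h.hxab j))
  have hba : b * a = 0 := by rw [mul_comm, h.hab]
  let eR := TensorProduct.AlgebraTensorModule.rid R S S
  have zR : Zk b (S ⊗[R] R) ≤ Bm a (S ⊗[R] R) :=
    Zk_retract eR.toLinearMap eR.symm.toLinearMap (fun n => by simp) h.hzb
  have i1 : Function.Injective (J.subtype.baseChange S) :=
    Module.Flat.lTensor_preserves_injective_linearMap _ Subtype.val_injective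
  have s1 : Function.Surjective (J.mkQ.baseChange S) :=
    LinearMap.lTensor_surjective S (mkQ_surjective J)
  have x1 : Function.Exact (J.subtype.baseChange S) (J.mkQ.baseChange S) :=
    Module.Flat.lTensor_exact S (LinearMap.exact_subtype_mkQ J)
  have P1 := PP.shift _ _ i1 s1 x1 h.hab zR P0
  have Q1 := QQ.shift _ _ i1 s1 x1 h.hab zR Q0
  obtain ⟨k, φ, hφ⟩ := Module.Finite.exists_fin' R J
  let M := LinearMap.ker φ
  let eF := TensorProduct.piScalarRight R S S (Fin k)
  have zF : Zk a (S ⊗[R] (Fin k → R)) ≤ Bm b (S ⊗[R] (Fin k → R)) :=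
    Zk_retract eF.toLinearMap eF.symm.toLinearMap (fun n => by simp) (Zk_pi h.hza)
  have i2 : Function.Injective (M.subtype.baseChange S) :=
    Module.Flat.lTensor_preserves_injective_linearMap _ Subtype.val_injective
  have s2 : Function.Surjective (φ.baseChange S) := LinearMap.lTensor_surjective S hφ
  have x2' : Function.Exact M.subtype φ := LinearMap.exact_subtype_ker_map φ
  have x2 : Function.Exact (M.subtype.baseChange S) (φ.baseChange S) :=
    Module.Flat.lTensor_exact S x2'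
  have P2 := PP.shift _ _ i2 s2 x2 hba zF P1
  have Q2 := QQ.shift _ _ i2 s2 x2 hba zF Q1
  have R2 : Reg2 (algebraMap T S Y) X' (S ⊗[R] M) := by
    refine reg2_ker _ _ i2 x2
      (reg2_retract eF.toLinearMap eF.symm.toLinearMap (fun n => by simp) (reg2_pi h.hreg)) ?_
    intro n hn
    apply i1
    apply eR.injective
    rw [map_zero, map_zero]
    apply h.hreg.1
    rw [← map_smul, ← map_smul, hn, map_zero, map_zero]
  have RM : ∀ u v : R, Reg2 u v R → Reg2 u v M := fun u v huv =>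
    reg2_ker _ _ Subtype.val_injective x2' (reg2_pi huv)
      (fun n hn => Subtype.ext (huv.1 n.1 (congrArg Subtype.val hn)))
  obtain ⟨N, _, _, i, p, hpi, hQ, hI⟩ := exists_indec (R := R) (M := M) _ M LinearMap.id
    LinearMap.id rfl rfl Q2
  have hpi' : ∀ n, p (i n) = n := fun n => LinearMap.congr_fun hpi n
  have hpi'' : ∀ n, p.baseChange S (i.baseChange S n) = n := fun n => by
    have := congrArg (fun F => LinearMap.baseChange S F n) hpi
    simp only [LinearMap.baseChange_comp, LinearMap.baseChange_id] at this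
    exact this
  have hN : Module.Finite R N := Module.Finite.of_surjective p fun n => ⟨i n, hpi' n⟩
  have := hI.1
  have rN1 : Reg2 x' y' N := reg2_retract i p hpi' (RM _ _ h.r1)
  have rN2 : Reg2 y' x' N := reg2_retract i p hpi' (RM _ _ h.r2)
  have hb := hB N (isMCM_of_reg2 h.hx' h.hy' rN1 hd) hI
  have hL : ((8 * (B + 1) : ℕ) : ℕ∞) ≤ rl ⊤ (Bm x' N ⊔ Bm y' N) := by
    by_cases hT : rl ⊤ (Bm x' N ⊔ Bm y' N) = ⊤
    · rw [hT]; exact le_top
    obtain ⟨L, hL⟩ := ENat.ne_top_iff_exists.mp hT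
    obtain ⟨s, hs1, hs2⟩ := exists_gen L _ hL.symm.le
    have hs3 : span R (s : Set N) = ⊤ := by
      rw [eq_top_iff]
      apply le_of_le_smul_of_le_jacobson_bot (I := maximalIdeal R) Module.Finite.fg_top
        (fun c hc => jac hc)
      rw [← hs2, sup_comm]
      refine sup_le_sup_left (sup_le ?_ ?_) _
      · rintro _ ⟨m, rfl⟩
        exact smul_mem_smul h.hx' (by rw [sup_comm, hs2]; trivial)
      · rintro _ ⟨m, rfl⟩
        exact smul_mem_smul h.hy' (by rw [sup_comm, hs2]; trivial)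
    have hs4 : span S ((s.image fun n => (1 : S) ⊗ₜ[R] n : Finset (S ⊗[R] N)) : Set (S ⊗[R] N)) =
        ⊤ := by
      rw [← Submodule.baseChange_top, ← hs3, Submodule.baseChange_span, Finset.coe_image]
      rfl
    have h1 := rank_bound h.toCH (reg2_retract _ _ hpi'' R2) _ hs4 (PP.retract _ _ hpi'' P2)
    obtain ⟨w, hw, hw'⟩ := hQ
    have h2 := le_rl_of_pow h.hxm (P := Zk b (S ⊗[R] N)) hw j _ (Bm_le_Zk hba) hw'
    have h3 := (bal_all h N hN).2
    have h4 : ((j + 1 : ℕ) : ℕ∞) ≤ (2 * (s.image fun n => (1 : S) ⊗ₜ[R] n).card : ℕ) :=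
      h2.trans (h3.symm.le.trans h1)
    have h5 : (s.image fun n => (1 : S) ⊗ₜ[R] n).card ≤ s.card := Finset.card_image_le
    rw [← hL]
    have h6 : j + 1 ≤ 2 * (s.image fun n => (1 : S) ⊗ₜ[R] n).card := by exact_mod_cast h4
    exact_mod_cast (by omega : 8 * (B + 1) ≤ L)
  have hmult := le_mult (M := N) hd (B + 1) (fun n => by
    have e1 : (maximalIdeal R ^ (4 * n) • ⊤ : Submodule R N) ≤ Bm (x' ^ n) N ⊔ Bm (y' ^ n) N := by
      have : maximalIdeal R ^ (4 * n) ≤ Ideal.span {x' ^ n} ⊔ Ideal.span {y' ^ n} := by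
        rw [show 4 * n = 2 * (n + n) by ring, pow_mul, ← Ideal.span_singleton_pow,
          ← Ideal.span_singleton_pow]
        exact (Ideal.pow_right_mono h.hm2 _).trans Ideal.sup_pow_add_le_pow_sup_pow
      refine smul_le.mpr fun r hr m _ => ?_
      obtain ⟨u, hu, v, hv, rfl⟩ := mem_sup.mp (this hr)
      obtain ⟨c, rfl⟩ := Ideal.mem_span_singleton'.mp hu
      obtain ⟨d, rfl⟩ := Ideal.mem_span_singleton'.mp hv
      rw [add_smul, mul_comm c, mul_comm d, mul_smul, mul_smul]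
      exact add_mem (mem_sup_left ⟨_, rfl⟩) (mem_sup_right ⟨_, rfl⟩)
    refine le_trans ?_ (rl_anti e1)
    rw [rl_sq_eq rN1 rN2]
    gcongr
    exact_mod_cast hL)
  have : ((B + 1 : ℕ) : ENNReal) ≤ B := hmult.trans hb
  have : B + 1 ≤ B := by exact_mod_cast this
  omega

end Pool.Agent.H79.BC5
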