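import Pool.Agent.H79.BC5

set_option autoImplicit false

namespace Pool.Agent.H79.BC6

open Submodule BC1 BC2 BC3 BC4 BCDefs IsLocalRing Polynomial

theorem dim_two {R : Type} [CommRing R] [IsLocalRing R] [IsNoetherianRing R] {u v : R}
    (hu : u ∈ maximalIdeal R) (hv : v ∈ maximalIdeal R) (hr : Reg2 u v R)
    (hm : maximalIdeal R ^ 2 ≤ Ideal.span {u} ⊔ Ideal.span {v}) : ringKrullDim R = 2 := by
  have h1 := ringKrullDim_add_length_eq_ringKrullDim_of_isRegular [u, v]
    (isRegular_of_reg2 hu hv hr)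
  have hle : Ideal.ofList [u, v] ≤ maximalIdeal R := by
    rw [Ideal.ofList, Ideal.span_le]
    intro r hr
    simp only [List.mem_cons, List.not_mem_nil, or_false, Set.mem_ofPred_eq] at hr
    rcases hr with rfl | rfl <;> assumption
  have hle' : maximalIdeal R ^ 2 ≤ Ideal.ofList [u, v] :=
    hm.trans (sup_le (Ideal.span_mono (by simp)) (Ideal.span_mono (by simp)))
  have : Nontrivial (R ⧸ Ideal.ofList [u, v]) :=
    Ideal.Quotient.nontrivial_iff.mpr (ne_top_of_le_ne_top (maximalIdeal.isMaximal R).ne_top hle)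
  have h2 : Ring.KrullDimLE 0 (R ⧸ Ideal.ofList [u, v]) := by
    refine Ring.krullDimLE_zero_iff.mpr fun J hJ =>
      Ideal.isMaximal_of_isIntegral_of_isMaximal_comap (R := R) _ ?_
    have hp := hJ.comap (algebraMap R (R ⧸ Ideal.ofList [u, v]))
    have h3 : maximalIdeal R ≤ J.comap (algebraMap R (R ⧸ Ideal.ofList [u, v])) := by
      apply hp.le_of_pow_le (n := 2)
      refine hle'.trans fun r hr => ?_
      show Ideal.Quotient.mk _ r ∈ J
      rw [Ideal.Quotient.eq_zero_iff_mem.mpr hr]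
      exact J.zero_mem
    rw [← (maximalIdeal.isMaximal R).eq_of_le hp.ne_top h3]
    infer_instance
  rw [ringKrullDimZero_iff_ringKrullDim_eq_zero.mp h2] at h1
  rw [← h1]
  simp

theorem reg2_swap {S N : Type*} [CommRing S] [AddCommGroup N] [Module S N] {u v : S}
    (h : Reg2 u v N) (hv : ∀ n : N, v • n = 0 → n = 0) : Reg2 v u N := by
  refine ⟨hv, ?_⟩
  rintro n ⟨w, hw⟩
  have hw' : v • w = u • n := hw
  obtain ⟨w', hw2⟩ := h.2 w ⟨n, hw'.symm⟩
  have hw3 : u • w' = w := hw2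
  refine ⟨w', ?_⟩
  show v • w' = n
  rw [← sub_eq_zero]
  apply h.1
  rw [smul_sub, smul_comm, hw3, hw', sub_self]

section pair

variable {R S : Type*} [CommRing R] [CommRing S] (φ : R →+* S)

def Contr (u v : R) : Prop :=
  ∀ (r : R) (s s' : S), φ r = φ u * s + φ v * s' → ∃ c d : R, r = u * c + v * d

theorem Contr.symm {φ : R →+* S} {u v : R} (h : Contr φ u v) : Contr φ v u := by
  intro r s s' e
  obtain ⟨c, d, rfl⟩ := h r s' s (by rw [e, add_comm])
  exact ⟨d, c, add_comm _ _⟩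

theorem Contr.pow {φ : R →+* S} {u v : R} (h : Contr φ u v)
    (hr : ∀ n : S, φ v • n ∈ Bm (φ u) S → n ∈ Bm (φ u) S) (i : ℕ) : Contr φ u (v ^ i) := by
  induction i with
  | zero => intro r _ _ _; exact ⟨0, r, by simp⟩
  | succ i ih =>
    intro r s s' e
    obtain ⟨c, d, rfl⟩ := h r s (φ v ^ i * s') (by rw [e, map_pow]; ring)
    obtain ⟨t, ht⟩ := hr (φ d - φ v ^ i * s') ⟨s - φ c, by
      show φ u * (s - φ c) = φ v * (φ d - φ v ^ i * s')
      rw [map_add, map_mul, map_mul, map_pow] at e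
      linear_combination -e⟩
    have ht' : φ u * t = φ d - φ v ^ i * s' := ht
    obtain ⟨c', d', rfl⟩ := ih d t s' (by rw [ht', map_pow]; ring)
    exact ⟨c + v * c', d', by ring⟩

end pair

section compl

variable {R S : Type} [CommRing R] [CommRing S] [IsLocalRing R] [IsLocalRing S] [Algebra R S]

theorem approx (hmap : (maximalIdeal R).map (algebraMap R S) = maximalIdeal S) (k : ℕ)
    (W : Ideal S) (hW : ∀ s : S, ∃ r : R, ∀ c ∈ maximalIdeal R ^ k,
      (s - algebraMap R S r) * algebraMap R S c ∈ W) :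
    ∀ s ∈ maximalIdeal S ^ k, ∃ r ∈ maximalIdeal R ^ k, s - algebraMap R S r ∈ W := by
  intro s hs
  rw [← hmap, ← Ideal.map_pow] at hs
  refine Submodule.span_induction ?_ ?_ ?_ ?_ hs
  · rintro _ ⟨r, hr, rfl⟩
    exact ⟨r, hr, by simp⟩
  · exact ⟨0, zero_mem _, by simp⟩
  · rintro s t - - ⟨r, hr, h⟩ ⟨r', hr', h'⟩
    refine ⟨r + r', add_mem hr hr', ?_⟩
    have : s + t - algebraMap R S (r + r') = (s - algebraMap R S r) + (t - algebraMap R S r') := by
      rw [map_add]; ring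
    rw [this]
    exact add_mem h h'
  · rintro s t - ⟨r, hr, h⟩
    obtain ⟨r', hr'⟩ := hW s
    refine ⟨r' * r, Ideal.mul_mem_left _ _ hr, ?_⟩
    have : s • t - algebraMap R S (r' * r) = s * (t - algebraMap R S r) +
        (s - algebraMap R S r') * algebraMap R S r := by
      rw [map_mul, smul_eq_mul]; ring
    rw [this]
    exact add_mem (Ideal.mul_mem_left _ _ h) (hr' r hr)

theorem dense_of (hmap : (maximalIdeal R).map (algebraMap R S) = maximalIdeal S)
    (h1 : ∀ s : S, ∃ r : R, s - algebraMap R S r ∈ maximalIdeal S) (s : S) (n : ℕ) :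
    ∃ r : R, s - algebraMap R S r ∈ maximalIdeal S ^ n := by
  induction n with
  | zero => exact ⟨0, by simp⟩
  | succ n ih =>
    obtain ⟨r, hr⟩ := ih
    obtain ⟨r', -, hr'⟩ := approx hmap n (maximalIdeal S ^ (n + 1)) (fun s => by
      obtain ⟨r, hr⟩ := h1 s
      refine ⟨r, fun c hc => ?_⟩
      rw [pow_succ']
      refine Ideal.mul_mem_mul hr ?_
      rw [← hmap, ← Ideal.map_pow]
      exact Ideal.mem_map_of_mem _ hc) _ hr
    exact ⟨r + r', by rw [map_add, ← sub_sub]; exact hr'⟩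

theorem comap_pow (hmap : (maximalIdeal R).map (algebraMap R S) = maximalIdeal S)
    (dense : ∀ (s : S) (n : ℕ), ∃ r : R, s - algebraMap R S r ∈ maximalIdeal S ^ n)
    {u v : R} (hu : u ∈ maximalIdeal R) (hv : v ∈ maximalIdeal R)
    (hm : maximalIdeal R ^ 2 ≤ Ideal.span {u} ⊔ Ideal.span {v})
    (hc : ∀ i, Contr (algebraMap R S) (u ^ i) (v ^ i)) (i : ℕ) (r : R)
    (hr : algebraMap R S r ∈ maximalIdeal S ^ i) : r ∈ maximalIdeal R ^ i := by
  have h1 : maximalIdeal R ^ (4 * i) ≤ Ideal.span {u ^ i} ⊔ Ideal.span {v ^ i} := by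
    rw [show 4 * i = 2 * (i + i) by ring, pow_mul, ← Ideal.span_singleton_pow,
      ← Ideal.span_singleton_pow]
    exact (Ideal.pow_right_mono hm _).trans Ideal.sup_pow_add_le_pow_sup_pow
  obtain ⟨r', hr', h⟩ := approx hmap i
    ((Ideal.span {u ^ i} ⊔ Ideal.span {v ^ i}).map (algebraMap R S)) (fun s => by
      obtain ⟨r, hr⟩ := dense s (4 * i)
      refine ⟨r, fun c _ => Ideal.mul_mem_right _ _ ?_⟩
      rw [← hmap, ← Ideal.map_pow] at hr
      exact Ideal.map_mono h1 hr) _ hr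
  rw [Ideal.map_sup, Ideal.map_span, Ideal.map_span, Set.image_singleton, Set.image_singleton,
    ← map_sub] at h
  obtain ⟨p, hp, q, hq, e⟩ := mem_sup.mp h
  obtain ⟨s, rfl⟩ := Ideal.mem_span_singleton'.mp hp
  obtain ⟨s', rfl⟩ := Ideal.mem_span_singleton'.mp hq
  obtain ⟨c, d, hcd⟩ := hc i (r - r') s s' (by rw [← e]; ring)
  have : r = r' + (u ^ i * c + v ^ i * d) := by rw [← hcd]; ring
  rw [this]
  exact add_mem hr' (add_mem (Ideal.mul_mem_right _ _ (Ideal.pow_mem_pow hu i))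
    (Ideal.mul_mem_right _ _ (Ideal.pow_mem_pow hv i)))

theorem compl_equiv [IsNoetherianRing S]
    (hmap : (maximalIdeal R).map (algebraMap R S) = maximalIdeal S)
    (dense : ∀ (s : S) (n : ℕ), ∃ r : R, s - algebraMap R S r ∈ maximalIdeal S ^ n)
    (hc : ∀ (i : ℕ) (r : R), algebraMap R S r ∈ maximalIdeal S ^ i → r ∈ maximalIdeal R ^ i)
    (hp : IsPrecomplete (maximalIdeal S) S) :
    Nonempty (S ≃ₐ[R] AdicCompletion (maximalIdeal R) R) := by
  have hle : ∀ n, maximalIdeal R ^ n ≤ (maximalIdeal S ^ n).comap (algebraMap R S) := fun n => by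
    rw [← Ideal.map_le_iff_le_comap, Ideal.map_pow, hmap]
  let q : ∀ n, R ⧸ maximalIdeal R ^ n →+* S ⧸ maximalIdeal S ^ n := fun n =>
    Ideal.quotientMap _ (algebraMap R S) (hle n)
  have hq : ∀ n, Function.Bijective (q n) := fun n =>
    ⟨Ideal.quotientMap_injective' (fun r hr => hc n r hr), fun s => by
      obtain ⟨s, rfl⟩ := Ideal.Quotient.mk_surjective s
      obtain ⟨r, hr⟩ := dense s n
      exact ⟨Ideal.Quotient.mk _ r, (Ideal.Quotient.eq.mpr hr).symm⟩⟩
  let f : ∀ n, S →+* R ⧸ maximalIdeal R ^ n := fun n =>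
    (RingEquiv.ofBijective (q n) (hq n)).symm.toRingHom.comp (Ideal.Quotient.mk _)
  have hf : ∀ n (s : S) (r : R), f n s = Ideal.Quotient.mk _ r ↔
      s - algebraMap R S r ∈ maximalIdeal S ^ n := by
    intro n s r
    rw [← Ideal.Quotient.eq]
    exact (RingEquiv.ofBijective (q n) (hq n)).symm_apply_eq
  have hcomp : ∀ {m n : ℕ} (hle : m ≤ n),
      (Ideal.Quotient.factorPow (maximalIdeal R) hle).comp (f n) = f m := by
    intro m n hmn
    ext s
    obtain ⟨r, hr⟩ := dense s n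
    rw [RingHom.comp_apply, (hf n s r).mpr hr,
      (hf m s r).mpr (Ideal.pow_le_pow_right hmn hr)]
    rfl
  let Φ := AdicCompletion.liftRingHom (maximalIdeal R) f hcomp
  have hΦ : ∀ n s, AdicCompletion.evalₐ (maximalIdeal R) n (Φ s) = f n s := fun n s =>
    AdicCompletion.evalₐ_liftRingHom _ f hcomp n s
  have hinj : Function.Injective Φ := by
    rw [injective_iff_map_eq_zero]
    intro s hs
    have : s ∈ ⨅ n : ℕ, maximalIdeal S ^ n := by
      rw [Submodule.mem_iInf]
      intro n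
      have := (hf n s 0).mp (by rw [← hΦ, hs, map_zero, map_zero])
      simpa using this
    rwa [Ideal.iInf_pow_eq_bot_of_isLocalRing _ (maximalIdeal.isMaximal S).ne_top] at this
  have hsurj : Function.Surjective Φ := by
    intro ρ
    choose r hr using fun n =>
      Ideal.Quotient.mk_surjective (AdicCompletion.evalₐ (maximalIdeal R) n ρ)
    obtain ⟨L, hL⟩ := hp.prec (f := fun n => algebraMap R S (r n)) (by
      intro m n hmn
      rw [SModEq.sub_mem, smul_eq_mul, Ideal.mul_top, ← map_sub]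
      apply hle
      rw [← Ideal.Quotient.eq, hr]
      obtain ⟨c, rfl⟩ := AdicCompletion.mk_surjective _ _ ρ
      have h1 := hr n
      rw [AdicCompletion.evalₐ_mk] at h1 ⊢
      rw [← AdicCompletion.Ideal.mk_eq_mk _ hmn c]
      exact (Ideal.Quotient.eq.mpr (Ideal.pow_le_pow_right hmn (Ideal.Quotient.eq.mp h1))).symm)
    refine ⟨L, AdicCompletion.ext_evalₐ fun n => ?_⟩
    rw [hΦ, ← hr, hf]
    have := (hL n).symm
    rwa [SModEq.sub_mem, smul_eq_mul, Ideal.mul_top] at this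
  refine ⟨AlgEquiv.ofRingEquiv (f := RingEquiv.ofBijective Φ ⟨hinj, hsurj⟩) fun r => ?_⟩
  refine AdicCompletion.ext_evalₐ fun n => ?_
  rw [AlgHom.commutes]
  exact (hΦ n _).trans ((hf n _ r).mpr (by simp))

end compl

theorem alg_poly {B A D : Type*} [CommRing B] [IsDomain B] [CommRing A] [CommRing D] [Algebra B D]
    (φ : A[X] →+* D) (h1 : ∀ c, IsAlgebraic B (φ (C c))) (h2 : IsAlgebraic B (φ X)) (f : A[X]) :
    IsAlgebraic B (φ f) := by
  induction f using Polynomial.induction_on' with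
  | add p q hp hq => rw [map_add]; exact hp.add hq
  | monomial n c =>
    rw [← C_mul_X_pow_eq_monomial, map_mul, map_pow]
    exact (h1 c).mul (h2.pow n)

theorem principal_of {B : Type*} [CommRing B] [IsDomain B] [UniqueFactorizationMonoid B]
    (q : Ideal B[X]) (hq : q.IsPrime) (h : ∀ c : B, C c ∈ q → c = 0) :
    ∃ g, q = Ideal.span {g} := by
  by_cases h0 : q = ⊥
  · exact ⟨0, by rw [h0, Ideal.span_singleton_zero]⟩
  obtain ⟨g, hg, hp⟩ := hq.exists_mem_prime_of_ne_bot h0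
  refine ⟨g, le_antisymm (fun f hf => ?_) ((Ideal.span_singleton_le_iff_mem _).mpr hg)⟩
  by_contra hn
  have := (Ideal.span_singleton_prime hp.ne_zero).mpr hp
  have hX : IsAlgebraic B (Ideal.Quotient.mk (Ideal.span {g}) X) := by
    refine ⟨g, hp.ne_zero, ?_⟩
    have : aeval (Ideal.Quotient.mk (Ideal.span {g}) X) g =
        Ideal.Quotient.mkₐ B (Ideal.span {g}) (aeval X g) :=
      aeval_algHom_apply (Ideal.Quotient.mkₐ B (Ideal.span {g})) X g
    rw [this, aeval_X_left_apply]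
    exact Ideal.Quotient.eq_zero_iff_mem.mpr (Ideal.mem_span_singleton_self g)
  have hf' := alg_poly (B := B) (Ideal.Quotient.mk (Ideal.span {g}))
    (fun c => isAlgebraic_algebraMap (A := B[X] ⧸ Ideal.span {g}) c) hX f
  obtain ⟨c, hc, k, hk⟩ := hf'.exists_nonzero_dvd (mem_nonZeroDivisors_of_ne_zero
    (fun h1 => hn (Ideal.Quotient.eq_zero_iff_mem.mp h1)))
  obtain ⟨k, rfl⟩ := Ideal.Quotient.mk_surjective k
  have h2 : C c - f * k ∈ Ideal.span {g} := Ideal.Quotient.eq.mp hk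
  apply hc
  apply h
  have : C c = (C c - f * k) + f * k := by ring
  rw [this]
  exact add_mem ((Ideal.span_singleton_le_iff_mem _).mpr hg h2) (Ideal.mul_mem_right _ _ hf)

end Pool.Agent.H79.BC6
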