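import Pool.Agent.H79.BC6

set_option autoImplicit false

namespace Pool.Agent.H79.BC7

open BC1 BC2 BC3 BC4 BC6 IsLocalRing PowerSeries

variable (k : Type) [Field k]

abbrev O := PowerSeries k

abbrev T := PowerSeries (O k)

noncomputable abbrev xT : T k := C X

noncomputable abbrev kap : T k →+* O k := PowerSeries.map constantCoeff

variable {k}

theorem kap_zero_iff (t : T k) : kap k t = 0 ↔ xT k ∣ t := by
  constructor
  · intro h
    have : ∀ n, ∃ c, coeff n t = X * c := fun n => X_dvd_iff.mpr (by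
      have := congrArg (coeff n) h
      simpa using this)
    choose c hc using this
    refine ⟨mk c, ?_⟩
    ext1 n
    rw [coeff_C_mul, coeff_mk, hc]
  · rintro ⟨c, rfl⟩
    rw [map_mul, map_C, constantCoeff_X, map_zero, zero_mul]

theorem unit_T (t : T k) : IsUnit t ↔ constantCoeff (constantCoeff t) ≠ 0 := by
  rw [isUnit_iff_constantCoeff, isUnit_iff_constantCoeff, isUnit_iff_ne_zero]

theorem mem_max_T (t : T k) : t ∈ maximalIdeal (T k) ↔ constantCoeff (constantCoeff t) = 0 := by
  rw [mem_maximalIdeal, mem_nonunits_iff, unit_T, not_not]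

theorem x_ne : xT k ≠ 0 := fun h => X_ne_zero (R := k) (C_injective (h.trans (map_zero _).symm))

theorem dvr_O {t : O k} (ht : t ≠ 0) : ∃ (i : ℕ) (u : O k), IsUnit u ∧ t = X ^ i * u := by
  refine ⟨_, divXPowOrder t, ?_, X_pow_order_mul_divXPowOrder.symm⟩
  rw [isUnit_iff_constantCoeff, isUnit_iff_ne_zero, Ne, constantCoeff_divXPowOrder_eq_zero_iff]
  exact ht

noncomputable def quotY : (T k ⧸ Ideal.span {(X : T k)}) ≃+* O k :=
  (Ideal.quotEquivOfEq (by
    ext t
    rw [Ideal.mem_span_singleton, X_dvd_iff, RingHom.mem_ker])).trans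
    (RingHom.quotientKerEquivOfSurjective (f := constantCoeff) constantCoeff_surj)

theorem th [CharZero k] : TH (xT k) X where
  hx := by rw [mem_max_T]; simp
  hY := by rw [mem_max_T]; simp
  hdvr t := by
    simp only [Ideal.mem_span_singleton, X_dvd_iff]
    by_cases h : constantCoeff t = 0
    · exact Or.inl h
    · obtain ⟨i, u, hu, e⟩ := dvr_O h
      exact Or.inr ⟨i, C u, hu.map _, by simp [e]⟩
  hxY := by simp [Ideal.mem_span_singleton, X_dvd_iff, X_ne_zero]
  h2 := by
    rw [unit_T, map_ofNat, map_ofNat]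
    exact two_ne_zero
  dom := quotY.toMulEquiv.isDomain
  pid := IsPrincipalIdealRing.of_surjective quotY.symm.toRingHom quotY.symm.surjective

theorem max_T : maximalIdeal (T k) = Ideal.span {X, xT k} := by
  refine le_antisymm (fun t ht => ?_) ?_
  · rw [mem_max_T, ← X_dvd_iff] at ht
    obtain ⟨c, hc⟩ := ht
    obtain ⟨d, hd⟩ : (X : T k) ∣ t - xT k * C c := by
      rw [X_dvd_iff, map_sub, map_mul, constantCoeff_C, constantCoeff_C, hc, sub_self]
    exact Ideal.mem_span_pair.mpr ⟨d, C c, by linear_combination -hd⟩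
  · rw [Ideal.span_le]
    rintro _ (rfl | rfl) <;> exact (mem_max_T _).mpr (by simp)

theorem complete_T : IsAdicComplete (maximalIdeal (T k)) (T k) := by
  have h := (IsAdicComplete.congr_ringEquiv
    (Ideal.span (Set.range (MvPowerSeries.X : Option Unit → MvPowerSeries (Option Unit) k)))
    (MvPowerSeries.optionEquivLeft Unit k).toRingEquiv).mpr inferInstance
  rw [Ideal.map_span, ← Set.range_comp] at h
  have e : Set.range (⇑(MvPowerSeries.optionEquivLeft Unit k).toRingEquiv ∘ MvPowerSeries.X) =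
      ({X, xT k} : Set (T k)) := by
    ext t
    constructor
    · rintro ⟨_ | i, rfl⟩
      · exact Or.inl MvPowerSeries.optionEquivLeft_X_none
      · exact Or.inr (MvPowerSeries.optionEquivLeft_X_some ())
    · rintro (rfl | rfl)
      · exact ⟨none, MvPowerSeries.optionEquivLeft_X_none⟩
      · exact ⟨some (), MvPowerSeries.optionEquivLeft_X_some ()⟩
  rw [e] at h
  rw [max_T]
  exact h

theorem exists_sqrt [CharZero k] {y : T k} (hy : y ∈ maximalIdeal (T k)) :
    ∃ ρ : T k, ρ ^ 2 = 1 + y := by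
  have := complete_T (k := k)
  obtain ⟨ρ, hρ, -⟩ := HenselianRing.is_henselian (I := maximalIdeal (T k))
    (Polynomial.X ^ 2 - Polynomial.C (1 + y)) (Polynomial.monic_X_pow_sub_C _ two_ne_zero) 1
    (by simpa using hy) (by
      apply IsUnit.map
      have : Polynomial.eval 1 (Polynomial.derivative
        (Polynomial.X ^ 2 - Polynomial.C (1 + y) : Polynomial (T k))) = 2 := by
        simp; norm_num
      rw [this]
      exact th.h2)
  exact ⟨ρ, by simpa [sub_eq_zero] using hρ⟩

theorem exists_trans [Countable k] : ∃ σ : O k, Transcendental (Polynomial k) σ := by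
  by_contra h
  push Not at h
  have : Module.IsTorsionFree (Polynomial k) (O k) := by
    rw [Module.isTorsionFree_iff_algebraMap_injective]
    intro p q hpq
    rw [algebraMap_apply', algebraMap_apply'] at hpq
    simpa using hpq
  have : Countable (Polynomial k) := Cardinal.mk_le_aleph0_iff.mp
    (Polynomial.cardinalMk_le_max.trans (max_le Cardinal.mk_le_aleph0 le_rfl))
  have h1 := Algebraic.countable (Polynomial k) (O k)
  have h2 : {x : O k | IsAlgebraic (Polynomial k) x} = Set.univ :=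
    Set.eq_univ_of_forall fun x => not_not.mp (h x)
  rw [h2, Set.countable_univ_iff] at h1
  obtain ⟨f, hf⟩ := exists_surjective_nat (O k)
  classical
  obtain ⟨n, hn⟩ := hf (mk fun n => coeff n (f n) + 1)
  have := congrArg (coeff n) hn
  simp at this

theorem reg_xY : Reg2 (xT k) (X : T k) (T k) := by
  refine ⟨fun n hn => (mul_eq_zero.mp hn).resolve_left x_ne, ?_⟩
  rintro n ⟨w, hw⟩
  have hw' : xT k * w = X * n := hw
  have h1 : kap k (X * n) = 0 := (kap_zero_iff _).mpr ⟨w, hw'.symm⟩
  rw [map_mul, map_X] at h1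
  obtain ⟨c, hc⟩ := (kap_zero_iff _).mp ((mul_eq_zero.mp h1).resolve_left X_ne_zero)
  exact ⟨c, hc.symm⟩

variable (k)

abbrev S := QuadraticAlgebra (T k) (X ^ 2) 0

/-- the two branches -/
noncomputable def eps (e : T k) (he : e * e = 1) : S k →+* T k where
  toFun s := s.re + e * X * s.im
  map_one' := by simp [QuadraticAlgebra.re_one, QuadraticAlgebra.im_one]
  map_mul' s t := by
    simp only [QuadraticAlgebra.re_mul, QuadraticAlgebra.im_mul]
    linear_combination (-X ^ 2 * s.im * t.im) * he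
  map_zero' := by simp
  map_add' s t := by
    simp only [QuadraticAlgebra.re_add, QuadraticAlgebra.im_add]; ring

noncomputable def br (e : T k) : S k := ⟨X, -e⟩

variable {k}

theorem eps_apply {e : T k} (he : e * e = 1) (s : S k) : eps k e he s = s.re + e * X * s.im := rfl

theorem eps_alg {e : T k} (he : e * e = 1) (t : T k) : eps k e he (algebraMap _ _ t) = t := by
  simp [eps_apply]

theorem eps_zero_iff {e : T k} (he : e * e = 1) (s : S k) :
    eps k e he s = 0 ↔ s ∈ Ideal.span {br k e} := by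
  rw [Ideal.mem_span_singleton']
  constructor
  · intro h
    rw [eps_apply] at h
    refine ⟨algebraMap _ _ (-e * s.im), ?_⟩
    ext
    · simp only [br, QuadraticAlgebra.re_mul, QuadraticAlgebra.algebraMap_re,
        QuadraticAlgebra.algebraMap_im]
      congr 2
      linear_combination -h
    · simp only [br, QuadraticAlgebra.im_mul, QuadraticAlgebra.algebraMap_re,
        QuadraticAlgebra.algebraMap_im]
      congr 2
      linear_combination s.im * he
  · rintro ⟨c, rfl⟩
    have : eps k e he (br k e) = 0 := by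
      rw [eps_apply]
      show X + e * X * -e = 0
      linear_combination (-X) * he
    rw [map_mul, this, mul_zero]

theorem eps_br {e : T k} (he : e * e = 1) : eps k e he (br k (-e)) = 2 * X := by
  rw [eps_apply]
  show X + e * X * - -e = 2 * X
  linear_combination X * he

theorem unit_S (s : S k) : IsUnit s ↔ IsUnit s.re := by
  rw [QuadraticAlgebra.isUnit_iff_norm_isUnit, QuadraticAlgebra.norm_def, unit_T, unit_T]
  simp

instance : IsLocalRing (S k) := by
  refine IsLocalRing.of_nonunits_add fun a b ha hb => ?_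
  rw [mem_nonunits_iff, unit_S] at *
  exact (maximalIdeal (T k)).add_mem ha hb

instance : IsNoetherianRing (S k) := IsNoetherianRing.of_finite (T k) (S k)

theorem mem_max_S (s : S k) : s ∈ maximalIdeal (S k) ↔ s.re ∈ maximalIdeal (T k) := by
  rw [mem_maximalIdeal, mem_nonunits_iff, unit_S]; rfl

theorem reg2_S {u v : T k} (h : Reg2 u v (T k)) :
    Reg2 (algebraMap _ (S k) u) (algebraMap _ (S k) v) (S k) := by
  refine ⟨fun n hn => ?_, ?_⟩
  · rw [algebraMap_smul] at hn
    exact QuadraticAlgebra.ext (h.1 _ (congrArg QuadraticAlgebra.re hn))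
      (h.1 _ (congrArg QuadraticAlgebra.im hn))
  · rintro n ⟨w, hw⟩
    have hw' : algebraMap _ (S k) u • w = algebraMap _ (S k) v • n := hw
    rw [algebraMap_smul, algebraMap_smul] at hw'
    obtain ⟨c, hc⟩ := h.2 n.re ⟨w.re, congrArg QuadraticAlgebra.re hw'⟩
    obtain ⟨d, hd⟩ := h.2 n.im ⟨w.im, congrArg QuadraticAlgebra.im hw'⟩
    refine ⟨⟨c, d⟩, ?_⟩
    show algebraMap _ (S k) u • (⟨c, d⟩ : S k) = n
    rw [algebraMap_smul]
    exact QuadraticAlgebra.ext hc hd

theorem decomp (s : S k) :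
    s = algebraMap _ (S k) s.re + algebraMap _ (S k) s.im * QuadraticAlgebra.omega := by
  ext <;> simp

theorem ch [CharZero k] : CH (xT k) X (br k (-1)) (br k 1) where
  toTH := th
  hab := by
    apply QuadraticAlgebra.ext <;> simp [br]; ring
  hsum := by
    apply QuadraticAlgebra.ext <;> simp [br]; ring
  hgen s := ⟨s.re - s.im * X, s.im, by
    apply QuadraticAlgebra.ext <;> simp [br]⟩
  hxm := (mem_max_S _).mpr th.hx
  hYm := (mem_max_S _).mpr th.hY
  hm s hs := by
    rw [mem_max_S] at hs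
    obtain ⟨c, d, e⟩ := th.max hs
    refine ⟨algebraMap _ _ c, algebraMap _ _ (d - s.im), algebraMap _ _ s.im, ?_⟩
    apply QuadraticAlgebra.ext <;> simp [br, e]; ring

theorem omega_sq : (QuadraticAlgebra.omega : S k) ^ 2 = algebraMap _ _ (X : T k) ^ 2 := by
  apply QuadraticAlgebra.ext <;> simp [pow_two]

theorem max_S [CharZero k] {s : S k} (hs : s ∈ maximalIdeal (S k)) : ∃ c d e : S k,
    s = c * algebraMap _ _ (xT k) + d * algebraMap _ _ (X : T k) + e * QuadraticAlgebra.omega := by
  rw [mem_max_S] at hs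
  obtain ⟨c, d, e⟩ := th.max hs
  refine ⟨algebraMap _ _ c, algebraMap _ _ d, algebraMap _ _ s.im, ?_⟩
  apply QuadraticAlgebra.ext <;> simp [e]

theorem sq_le {R : Type*} [CommRing R] {m : Ideal R} {u v w : R}
    (h : ∀ s ∈ m, ∃ c d e, s = c * u + d * v + e * w)
    (hw : w ^ 2 ∈ Ideal.span {u} ⊔ Ideal.span {v}) : m ^ 2 ≤ Ideal.span {u} ⊔ Ideal.span {v} := by
  rw [pow_two]
  refine Ideal.mul_le.mpr fun s hs t ht => ?_
  obtain ⟨c, d, e, rfl⟩ := h s hs
  obtain ⟨c', d', e', rfl⟩ := h t ht
  have : (c * u + d * v + e * w) * (c' * u + d' * v + e' * w) =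
      (c * (c' * u + d' * v + e' * w) + e * w * c') * u +
      (d * (c' * u + d' * v + e' * w) + e * w * d') * v + e * e' * w ^ 2 := by ring
  rw [this]
  exact add_mem (add_mem (Submodule.mem_sup_left (Ideal.mem_span_singleton'.mpr ⟨_, rfl⟩))
    (Submodule.mem_sup_right (Ideal.mem_span_singleton'.mpr ⟨_, rfl⟩))) (Ideal.mul_mem_left _ _ hw)

theorem max_S_sq [CharZero k] : maximalIdeal (S k) ^ 2 ≤
    Ideal.span {algebraMap _ _ (xT k)} ⊔ Ideal.span {algebraMap _ _ (X : T k)} :=
  sq_le (fun _ hs => max_S hs) (by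
    rw [omega_sq]
    exact Submodule.mem_sup_right (Ideal.mem_span_singleton'.mpr ⟨_, (pow_two _).symm⟩))

theorem dim_S [CharZero k] : ringKrullDim (S k) = 2 :=
  dim_two ch.hxm ch.hYm (reg2_S reg_xY) max_S_sq

theorem mem_map_pow (n : ℕ) (s : S k) :
    s ∈ (maximalIdeal (T k) ^ n).map (algebraMap _ (S k)) ↔
      s.re ∈ maximalIdeal (T k) ^ n ∧ s.im ∈ maximalIdeal (T k) ^ n := by
  constructor
  · intro hs
    refine Submodule.span_induction ?_ ?_ ?_ ?_ hs
    · rintro _ ⟨t, ht, rfl⟩
      exact ⟨ht, zero_mem _⟩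
    · exact ⟨zero_mem _, zero_mem _⟩
    · rintro s t - - h h'
      exact ⟨add_mem h.1 h'.1, add_mem h.2 h'.2⟩
    · rintro s t - h
      rw [smul_eq_mul, QuadraticAlgebra.re_mul, QuadraticAlgebra.im_mul]
      exact ⟨add_mem (Ideal.mul_mem_left _ _ h.1) (Ideal.mul_mem_left _ _ h.2),
        add_mem (add_mem (Ideal.mul_mem_left _ _ h.2) (Ideal.mul_mem_left _ _ h.1))
          (Ideal.mul_mem_left _ _ h.2)⟩
  · rintro ⟨h1, h2⟩
    rw [decomp s]
    exact add_mem (Ideal.mem_map_of_mem _ h1) (Ideal.mul_mem_right _ _ (Ideal.mem_map_of_mem _ h2))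

theorem precomplete_S [CharZero k] : IsPrecomplete (maximalIdeal (S k)) (S k) := by
  have hc := complete_T (k := k)
  have h1 : (maximalIdeal (T k)).map (algebraMap _ (S k)) ≤ maximalIdeal (S k) := by
    rw [Ideal.map_le_iff_le_comap]
    intro t ht
    exact (mem_max_S _).mpr ht
  have h2 : ∀ n, maximalIdeal (S k) ^ (2 * n) ≤ (maximalIdeal (T k) ^ n).map (algebraMap _ (S k)) := by
    intro n
    rw [pow_mul, Ideal.map_pow]
    refine Ideal.pow_right_mono (max_S_sq.trans (sup_le ?_ ?_)) n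
    · exact (Ideal.span_singleton_le_iff_mem _).mpr (Ideal.mem_map_of_mem _ th.hx)
    · exact (Ideal.span_singleton_le_iff_mem _).mpr (Ideal.mem_map_of_mem _ th.hY)
  refine ⟨fun f hf => ?_⟩
  simp only [SModEq.sub_mem, smul_eq_mul, Ideal.mul_top] at hf ⊢
  have h3 : ∀ {m n}, m ≤ n → (f (2 * m) - f (2 * n)).re ∈ maximalIdeal (T k) ^ m ∧
      (f (2 * m) - f (2 * n)).im ∈ maximalIdeal (T k) ^ m := fun {m n} h =>
    (mem_map_pow m _).mp (h2 m (hf (by omega)))
  obtain ⟨L1, hL1⟩ := hc.toIsPrecomplete.prec (f := fun n => (f (2 * n)).re) (by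
    intro m n h
    rw [SModEq.sub_mem, smul_eq_mul, Ideal.mul_top]
    exact (h3 h).1)
  obtain ⟨L2, hL2⟩ := hc.toIsPrecomplete.prec (f := fun n => (f (2 * n)).im) (by
    intro m n h
    rw [SModEq.sub_mem, smul_eq_mul, Ideal.mul_top]
    exact (h3 h).2)
  simp only [SModEq.sub_mem, smul_eq_mul, Ideal.mul_top] at hL1 hL2
  refine ⟨⟨L1, L2⟩, fun n => ?_⟩
  have e : f n - ⟨L1, L2⟩ = (f n - f (2 * n)) + (f (2 * n) - ⟨L1, L2⟩) := by ring
  rw [e]
  refine add_mem (hf (by omega)) ?_
  have := (mem_map_pow n (f (2 * n) - ⟨L1, L2⟩)).mpr ⟨hL1 n, hL2 n⟩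
  rw [Ideal.map_pow] at this
  exact Ideal.pow_right_mono h1 n this

end Pool.Agent.H79.BC7
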