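import Pool.Agent.H79.BC7

set_option autoImplicit false

namespace Pool.Agent.H79.BC8

open BC1 BC2 BC3 BC4 BC6 BC7 IsLocalRing Polynomial

theorem inj_of {B D : Type*} [CommRing B] [IsDomain B] [CommRing D] [IsDomain D] (φ : B →+* D)
    (β : B) (Y w : D) (hw : w ^ 2 = (1 + φ β) * Y ^ 2) (h1 : 1 + φ β ≠ 0)
    (h : Function.Injective (eval₂RingHom φ (Y - φ β))) :
    Function.Injective (eval₂RingHom φ w) := by
  let _ := φ.toAlgebra
  rw [injective_iff_map_eq_zero] at h ⊢
  intro G hG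
  by_contra hG0
  have a1 : IsAlgebraic B w := ⟨G, hG0, hG⟩
  have a2 : IsAlgebraic B (φ β) := isAlgebraic_algebraMap β
  have a3 : IsAlgebraic B (Y ^ 2) :=
    IsAlgebraic.of_mul (mem_nonZeroDivisors_of_ne_zero h1) (isAlgebraic_one.add a2)
      (hw ▸ a1.pow 2)
  obtain ⟨F, hF, hF'⟩ := (a3.of_pow two_pos).sub a2
  exact hF (h F hF')

noncomputable def hp {L : Type*} [CommRing L] (p : L) : L[X][X] :=
  X ^ 2 - C ((1 + X) * (X + C p) ^ 2)

theorem map_hp {L D : Type*} [CommRing L] [CommRing D] (φ : L[X][X] →+* D) (p : L) :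
    φ (hp p) = φ X ^ 2 - (1 + φ (C X)) * (φ (C X) + φ (C (C p))) ^ 2 := by
  refine (map_sub φ _ _).trans ?_
  simp only [map_pow, map_mul, map_add, map_one]

theorem caseC' {L D : Type*} [CommRing L] [IsDomain L] [CommRing D] [IsDomain D] [Algebra L D]
    (π : L[X][X] →ₐ[L] D) (hπ : Function.Surjective π)
    {g g' : L[X]} (hg : g ≠ 0) (hg' : g' ≠ 0) (h1 : π (C g) = 0) (h2 : π (g'.map C) = 0)
    (h3 : π (1 + C X) ≠ 0) :
    ∃ N : L[X], N ≠ 0 ∧ ∀ p : L, ∃ K, π (C (C (N.eval p))) = π (hp p * K) := by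
  have hc : ∀ c, π (C (C c)) = algebraMap L D c := fun c => π.commutes c
  have ay : IsAlgebraic L (π (C X)) := by
    refine ⟨g, hg, ?_⟩
    rw [aeval_algHom_apply]
    have : aeval (C X : L[X][X]) g = CAlgHom (aeval X g) :=
      aeval_algHom_apply (CAlgHom : L[X] →ₐ[L] L[X][X]) X g
    rw [this, aeval_X_left_apply]
    exact h1
  have az : IsAlgebraic L (π X) := by
    refine ⟨g', hg', ?_⟩
    rw [aeval_algHom_apply]
    exact h2
  have : Algebra.IsAlgebraic L D := ⟨fun d => by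
    obtain ⟨G, rfl⟩ := hπ d
    refine alg_poly π.toRingHom (fun c => ?_) az G
    exact alg_poly (π.toRingHom.comp C)
      (fun c => (hc c).symm ▸ isAlgebraic_algebraMap (A := D) c) ay c⟩
  have hH : (C (π X ^ 2) - C (1 + π (C X)) * (X + C (π (C X))) ^ 2 : D[X]) ≠ 0 := by
    intro h
    rw [map_add, map_one] at h3
    have := congrArg natDegree (sub_eq_zero.mp h)
    rw [natDegree_C, natDegree_C_mul h3, natDegree_pow, natDegree_X_add_C] at this
    omega
  obtain ⟨N, hN, K, hK⟩ := exists_dvd_map_of_isAlgebraic (R := L) hH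
  refine ⟨N, hN, fun p => ?_⟩
  obtain ⟨K', hK'⟩ := hπ (K.eval (algebraMap L _ p))
  refine ⟨K', ?_⟩
  have e := congrArg (eval (algebraMap L D p)) hK
  rw [eval_map_algebraMap, aeval_algebraMap_apply, eval_mul, ← hK', eval_sub, eval_C, eval_mul,
    eval_C, eval_pow, eval_add, eval_X, eval_C, add_comm (algebraMap _ _ _), ← hc p] at e
  rw [map_mul, hc]
  refine e.trans ?_
  congr 1
  exact (map_hp π.toRingHom p).symm

theorem caseC {L : Type*} [CommRing L] [IsDomain L] (q : Ideal L[X][X]) (hq : q.IsPrime)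
    {g g' : L[X]} (hg : g ≠ 0) (hg' : g' ≠ 0) (h1 : C g ∈ q) (h2 : g'.map C ∈ q)
    (h3 : 1 + C X ∉ q) : ∃ N : L[X], N ≠ 0 ∧ ∀ p : L, ∃ K, C (C (N.eval p)) - hp p * K ∈ q := by
  have hπ : ∀ G, Ideal.Quotient.mkₐ L q G = 0 ↔ G ∈ q := fun G => by
    rw [Ideal.Quotient.mkₐ_eq_mk, Ideal.Quotient.eq_zero_iff_mem]
  obtain ⟨N, hN, h⟩ := caseC' (D := L[X][X] ⧸ q) (Ideal.Quotient.mkₐ L q)
    (Ideal.Quotient.mkₐ_surjective L q) hg hg' ((hπ _).mpr h1) ((hπ _).mpr h2)
    (fun h => h3 ((hπ _).mp h))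
  refine ⟨N, hN, fun p => ?_⟩
  obtain ⟨K, hK⟩ := h p
  rw [Ideal.Quotient.mkₐ_eq_mk] at hK
  exact ⟨K, Ideal.Quotient.eq.mp hK⟩

theorem parity {k : Type*} [Field k] {p q : k[X]} (h : p ^ 2 = (1 + X) * X ^ 2 * q ^ 2) :
    p = 0 ∧ q = 0 := by
  have hq : q = 0 := by
    by_contra hq
    have h1 : (1 + X : k[X]) ≠ 0 := by rw [add_comm, ← C_1]; exact X_add_C_ne_zero 1
    have := congrArg natDegree h
    rw [natDegree_mul (mul_ne_zero h1 (pow_ne_zero _ X_ne_zero)) (pow_ne_zero _ hq),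
      natDegree_mul h1 (pow_ne_zero _ X_ne_zero), natDegree_pow, natDegree_pow, natDegree_pow,
      add_comm 1, ← C_1, natDegree_X_add_C, natDegree_X] at this
    omega
  rw [hq] at h
  exact ⟨by simpa using h, hq⟩

variable (k : Type) [Field k] [CharZero k] [Countable k]

noncomputable def sig : O k := Classical.choose (exists_trans (k := k))

noncomputable def tau : O k := PowerSeries.X * sig k

omit [CharZero k] [Countable k] in
theorem alg_O (p : k[X]) : algebraMap k[X] (O k) p = (p : O k) := by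
  rw [PowerSeries.algebraMap_apply']; simp

omit [CharZero k] in
theorem tau_trans : Transcendental k[X] (tau k) := by
  intro h
  refine Classical.choose_spec (exists_trans (k := k)) (IsAlgebraic.of_mul
    (mem_nonZeroDivisors_of_ne_zero PowerSeries.X_ne_zero) ?_ h)
  have := isAlgebraic_algebraMap (A := O k) (X : k[X])
  rwa [alg_O, coe_X] at this

noncomputable def yT : T k := PowerSeries.X - PowerSeries.C (tau k)

omit [CharZero k] in
theorem y_max : yT k ∈ maximalIdeal (T k) := by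
  rw [mem_max_T]; simp [yT, tau]

noncomputable def rho : T k := Classical.choose (exists_sqrt (y_max k))

theorem rho_sq : rho k ^ 2 = 1 + yT k := Classical.choose_spec (exists_sqrt (y_max k))

omit [CharZero k] in
theorem one_add_y : IsUnit (1 + yT k) := by
  rw [unit_T]; simp [yT, tau]

theorem rho_unit : IsUnit (rho k) := (isUnit_pow_iff two_ne_zero).mp (rho_sq k ▸ one_add_y k)

noncomputable def psi0 : k[X][X] →+* T k :=
  eval₂RingHom (PowerSeries.C.comp coeToPowerSeries.ringHom) (yT k)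

noncomputable def zS : S k := ⟨0, rho k⟩

noncomputable def psi : k[X][X][X] →+* S k :=
  eval₂RingHom ((algebraMap (T k) (S k)).comp (psi0 k)) (zS k)

noncomputable abbrev xS : S k := algebraMap (T k) (S k) (xT k)

omit [CharZero k] in
theorem psi0_C (c : k[X]) : psi0 k (C c) = PowerSeries.C (c : O k) := by simp [psi0]

omit [CharZero k] in
theorem psi0_X : psi0 k X = yT k := by simp [psi0]

theorem psi_C (g : k[X][X]) : psi k (C g) = algebraMap (T k) (S k) (psi0 k g) := by simp [psi]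

theorem psi_X : psi k X = zS k := by simp [psi]

theorem psi_x : psi k (C (C X)) = xS k := by rw [psi_C, psi0_C, coe_X]

omit [CharZero k] [Countable k] in
theorem xS_reg {n : ℕ} {s t : S k} (h : xS k ^ n * s = xS k ^ n * t) : s = t := by
  rw [← sub_eq_zero, ← mul_sub] at h
  exact sub_eq_zero.mp (reg_pow (P := ⊥) (reg2_S reg_xY).1 n _ h)

omit [CharZero k] in
theorem kap_psi0 (g : k[X][X]) : kap k (psi0 k g) = (g.map constantCoeff : k[X]) := by
  have : (kap k).comp (psi0 k) = coeToPowerSeries.ringHom.comp (mapRingHom constantCoeff) := by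
    apply Polynomial.ringHom_ext
    · intro c; simp [psi0_C]
    · simp [psi0_X, yT, tau]
  exact RingHom.congr_fun this g

omit [CharZero k] [Countable k] in
theorem map_cc {g : k[X][X]} (h : g.map constantCoeff = 0) : ∃ g', g = C X * g' := by
  refine (C_dvd_iff_dvd_coeff _ _).mpr fun i => X_dvd_iff.mpr ?_
  have := congrArg (fun p => coeff p i) h
  simpa using this

omit [CharZero k] in
theorem psi0_pow (n : ℕ) : ∀ (t : T k) (g : k[X][X]), xT k ^ n * t = psi0 k g →
    ∃ g', t = psi0 k g' := by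
  induction n with
  | zero => intro t g h; exact ⟨g, by simpa using h⟩
  | succ n ih =>
    intro t g h
    have h1 : kap k (psi0 k g) = 0 := (kap_zero_iff _).mpr ⟨xT k ^ n * t, by rw [← h]; ring⟩
    rw [kap_psi0, coe_eq_zero_iff] at h1
    obtain ⟨g', rfl⟩ := map_cc k h1
    rw [map_mul, psi0_C, coe_X, pow_succ', mul_assoc] at h
    exact ih t g' (mul_left_cancel₀ x_ne h)

theorem z_sq : zS k ^ 2 = algebraMap (T k) (S k) ((1 + yT k) * PowerSeries.X ^ 2) := by
  rw [← rho_sq]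
  apply QuadraticAlgebra.ext <;> simp [zS, pow_two]; ring

theorem psi_hp {p : k[X]} {N : ℕ} (h : PowerSeries.X ^ N ∣ tau k - (p : O k)) :
    ∃ d, psi k (hp p) = xS k ^ N * d := by
  obtain ⟨c, hc⟩ := h
  refine ⟨algebraMap (T k) (S k) (PowerSeries.C c * (1 + yT k) *
    (PowerSeries.X + yT k + PowerSeries.C (p : O k))), ?_⟩
  rw [map_hp, psi_X, z_sq, psi_C, psi_C, psi0_X, psi0_C, ← map_pow, ← map_mul, ← map_add,
    ← map_pow, ← map_one (algebraMap (T k) (S k)), ← map_add, ← map_mul, ← map_sub]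
  congr 1
  have : xT k ^ N * PowerSeries.C c = PowerSeries.X - yT k - PowerSeries.C (p : O k) := by
    rw [← map_pow, ← map_mul, ← hc, yT, map_sub]; ring
  linear_combination (-(1 + yT k) * (PowerSeries.X + yT k + PowerSeries.C (p : O k))) * this

omit [CharZero k] in
theorem trunc_dvd (N : ℕ) :
    PowerSeries.X ^ N ∣ tau k - ((PowerSeries.trunc N (tau k) : k[X]) : O k) :=
  ⟨_, sub_eq_of_eq_add (PowerSeries.eq_X_pow_mul_shift_add_trunc N (tau k))⟩

theorem nf0 {n : ℕ} {t : S k} {G : k[X][X][X]} (h : xS k ^ n * t = psi k G) :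
    ∃ g0 g1 s, t = psi k (C g0) + psi k (C g1) * zS k + xS k * s := by
  obtain ⟨d, hd⟩ := psi_hp k (trunc_dvd k (n + 1))
  set h0 := hp (PowerSeries.trunc (n + 1) (tau k)) with hh0
  have hm : h0.Monic := monic_X_pow_sub_C _ two_ne_zero
  have hdeg : (G %ₘ h0).degree ≤ 1 := by
    have := degree_modByMonic_lt G hm
    rw [hh0, hp, degree_X_pow_sub_C two_pos] at this
    exact Order.le_of_lt_succ this
  have e1 := modByMonic_add_div G h0
  rw [eq_X_add_C_of_degree_le_one hdeg] at e1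
  set r0 := (G %ₘ h0).coeff 0
  set r1 := (G %ₘ h0).coeff 1
  set t' := t - xS k * (d * psi k (G /ₘ h0)) with ht'
  have e2 : xS k ^ n * t' = psi k (C r0) + psi k (C r1) * zS k := by
    rw [← e1, map_add, map_add, map_mul, map_mul, hd, psi_X] at h
    rw [ht']
    linear_combination h
  rw [psi_C, psi_C, ← map_pow] at e2
  have e3 : xT k ^ n * t'.re = psi0 k r0 := by
    simpa [zS, -map_pow] using congrArg QuadraticAlgebra.re e2
  have e4 : xT k ^ n * t'.im = psi0 k r1 * rho k := by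
    simpa [zS, -map_pow] using congrArg QuadraticAlgebra.im e2
  obtain ⟨ri, hri⟩ := (rho_unit k).exists_right_inv
  obtain ⟨g0, hg0⟩ := psi0_pow k n _ _ e3
  obtain ⟨g1, hg1⟩ := psi0_pow k n (t'.im * ri) r1 (by
    rw [← mul_assoc, e4, mul_assoc, hri, mul_one])
  refine ⟨g0, g1, d * psi k (G /ₘ h0), ?_⟩
  rw [← sub_eq_iff_eq_add, ← ht', psi_C, psi_C, ← hg0, ← hg1]
  apply QuadraticAlgebra.ext
  · simp [zS]
  · simp [zS, mul_assoc, mul_comm ri, hri]

def Good (H : k[X][X][X]) : Prop := ∃ (n : ℕ) (v : S k), IsUnit v ∧ psi k H = xS k ^ n * v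

theorem Good.mul {H H' : k[X][X][X]} (h : Good k H) (h' : Good k H') : Good k (H * H') := by
  obtain ⟨n, v, hv, e⟩ := h
  obtain ⟨n', v', hv', e'⟩ := h'
  exact ⟨n + n', v * v', hv.mul hv', by rw [map_mul, e, e']; ring⟩

theorem good_pow (n : ℕ) : Good k (C (C X) ^ n) := ⟨n, 1, isUnit_one, by rw [map_pow, psi_x, mul_one]⟩

/-- the ring -/
def R : Subring (S k) where
  carrier := {s | ∃ G H, Good k H ∧ psi k H * s = psi k G}
  mul_mem' := by
    rintro s t ⟨G, H, h, e⟩ ⟨G', H', h', e'⟩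
    exact ⟨G * G', H * H', h.mul k h', by rw [map_mul, map_mul, ← e, ← e']; ring⟩
  one_mem' := ⟨1, _, good_pow k 0, by simp⟩
  add_mem' := by
    rintro s t ⟨G, H, h, e⟩ ⟨G', H', h', e'⟩
    exact ⟨G * H' + G' * H, H * H', h.mul k h', by
      rw [map_add, map_mul, map_mul, map_mul, ← e, ← e']; ring⟩
  zero_mem' := ⟨0, _, good_pow k 0, by simp⟩
  neg_mem' := by
    rintro s ⟨G, H, h, e⟩
    exact ⟨-G, H, h, by rw [mul_neg, e]; exact (map_neg (psi k) G).symm⟩

noncomputable def psiR : k[X][X][X] →+* R k :=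
  (psi k).codRestrict (R k) fun G => ⟨G, _, good_pow k 0, by simp⟩

theorem psiR_val (G : k[X][X][X]) : (psiR k G : S k) = psi k G := rfl

noncomputable def x' : R k := psiR k (C (C X))

noncomputable def y' : R k := psiR k (C X)

noncomputable def z' : R k := psiR k X

theorem x'_val : (x' k : S k) = xS k := psi_x k

theorem y'_val : (y' k : S k) = algebraMap (T k) (S k) (yT k) := by
  rw [y', psiR_val, psi_C, psi0_X]

theorem z'_val : (z' k : S k) = zS k := psi_X k

variable {k}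

theorem div_mem {n : ℕ} {s : S k} (h : xS k ^ n * s ∈ R k) : s ∈ R k := by
  obtain ⟨G, H, hH, e⟩ := h
  exact ⟨G, H * C (C X) ^ n, hH.mul k (good_pow k n), by
    rw [map_mul, map_pow, psi_x, mul_assoc, e]⟩

theorem dvd_R {n : ℕ} {r : R k} {s : S k} (h : (r : S k) = xS k ^ n * s) :
    ∃ d : R k, r = x' k ^ n * d :=
  ⟨⟨s, div_mem (h ▸ r.2)⟩, Subtype.ext (by
    rw [Subring.coe_mul, SubmonoidClass.coe_pow, x'_val]; exact h)⟩

theorem unit_R (r : R k) : IsUnit r ↔ IsUnit (r : S k) := by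
  refine ⟨fun h => h.map (R k).subtype, fun h => ?_⟩
  obtain ⟨G, H, ⟨n, v, hv, e⟩, e'⟩ := r.2
  obtain ⟨u, hu⟩ := h.exists_right_inv
  refine IsUnit.of_mul_eq_one ⟨u, H, G, ⟨n, v * r, hv.mul h, by rw [← e', e, mul_assoc]⟩, ?_⟩
    (Subtype.ext hu)
  rw [← e', mul_assoc, hu, mul_one]

instance : IsLocalRing (R k) := by
  refine IsLocalRing.of_nonunits_add fun a b ha hb => ?_
  rw [mem_nonunits_iff, unit_R] at *
  exact (maximalIdeal (S k)).add_mem ha hb

theorem mem_max_R (r : R k) : r ∈ maximalIdeal (R k) ↔ (r : S k) ∈ maximalIdeal (S k) := by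
  rw [mem_maximalIdeal, mem_nonunits_iff, unit_R]; rfl

theorem frac (r : R k) : ∃ (n : ℕ) (v : R k) (G : k[X][X][X]), IsUnit v ∧
    x' k ^ n * (v * r) = psiR k G := by
  obtain ⟨G, H, ⟨n, v, hv, e⟩, e'⟩ := r.2
  refine ⟨n, ⟨v, div_mem (n := n) (by rw [← e]; exact (psiR k H).2)⟩, G, (unit_R _).mpr hv, Subtype.ext ?_⟩
  rw [Subring.coe_mul, SubmonoidClass.coe_pow, x'_val, psiR_val]
  show xS k ^ n * (v * r) = psi k G
  rw [← e', e, mul_assoc]

theorem nf (r : R k) : ∃ (v s : R k) (g0 g1 : k[X][X]), IsUnit v ∧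
    v * r = psiR k (C g0) + psiR k (C g1) * z' k + x' k * s := by
  obtain ⟨n, v, G, hv, e⟩ := frac r
  have e' := congrArg Subtype.val e
  rw [Subring.coe_mul, SubmonoidClass.coe_pow, x'_val, psiR_val] at e'
  obtain ⟨g0, g1, s, hs⟩ := nf0 k e'
  obtain ⟨d, hd⟩ := dvd_R (n := 1) (r := v * r - psiR k (C g0) - psiR k (C g1) * z' k) (s := s) (by
    simp only [AddSubgroupClass.coe_sub, psiR_val]
    rw [hs, Subring.coe_mul, psiR_val, z'_val]; ring)
  exact ⟨v, d, g0, g1, hv, by linear_combination hd⟩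

theorem zrel : ∃ d : R k, z' k ^ 2 = (1 + y' k) * y' k ^ 2 + x' k * d := by
  obtain ⟨d, hd⟩ := psi_hp k (p := 0) (N := 1) ⟨sig k, by simp [tau]⟩
  obtain ⟨d', hd'⟩ := dvd_R (r := psiR k (hp 0)) hd
  refine ⟨d', ?_⟩
  rw [map_hp, map_zero, map_zero, map_zero, add_zero, pow_one] at hd'
  rw [y', z']
  linear_combination hd'

theorem eps_psi_inj {e : T k} (he : e * e = 1) :
    Function.Injective ((eps k e he).comp (psi k)) := by
  have h1 : (eps k e he).comp (psi k) = eval₂RingHom (psi0 k) (e * PowerSeries.X * rho k) := by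
    apply Polynomial.ringHom_ext
    · intro c; simp [psi_C, eps_alg]
    · simp [psi_X, eps_apply, zS]
  rw [h1]
  refine inj_of _ X PowerSeries.X _ ?_ ?_ ?_
  · rw [psi0_X, ← rho_sq]
    linear_combination (PowerSeries.X ^ 2 * rho k ^ 2) * he
  · rw [psi0_X]; exact (one_add_y k).ne_zero
  · have h2 : eval₂RingHom (psi0 k) (PowerSeries.X - psi0 k X) =
        coeToPowerSeries.ringHom.comp ((taylorAlgHom (-tau k)).toRingHom.comp
          ((mapRingHom (aeval (tau k) : k[X][X] →ₐ[k[X]] O k).toRingHom).comp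
            (Bivariate.swap (R := k[X])).toRingEquiv.toRingHom)) := by
      apply Polynomial.ringHom_ext'
      · apply Polynomial.ringHom_ext
        · intro c
          simp [psi0_C, Bivariate.swap_C_C, alg_O]
        · simp [psi0_X, Bivariate.swap_X, yT, sub_eq_add_neg]
      · simp [psi0_X, Bivariate.swap_Y, yT]
    rw [h2]
    exact (coe_injective _).comp ((taylor_injective _).comp ((map_injective _
      (transcendental_iff_injective.mp (tau_trans k))).comp Bivariate.swap.injective))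

theorem eps_R {e : T k} (he : e * e = 1) {r : R k} (h : eps k e he r = 0) : r = 0 := by
  obtain ⟨G, H, ⟨n, v, hv, e1⟩, e2⟩ := r.2
  have : G = 0 := eps_psi_inj he (by rw [RingHom.comp_apply, ← e2, map_mul, h, mul_zero, map_zero])
  rw [this, map_zero, e1, mul_assoc, ← mul_zero (xS k ^ n)] at e2
  exact Subtype.ext (hv.mul_right_eq_zero.mp (xS_reg k e2))

instance : IsDomain (R k) :=
  Function.Injective.isDomain ((eps k 1 (mul_one 1)).comp (R k).subtype)
    ((injective_iff_map_eq_zero _).mpr fun _ h => eps_R (mul_one 1) h)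

end Pool.Agent.H79.BC8
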