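import Pool.Agent.H79.BC8

set_option autoImplicit false

namespace Pool.Agent.H79.BC9

open BC1 BC2 BC3 BC4 BC5 BC6 BC7 BC8 IsLocalRing Polynomial

variable {k : Type} [Field k] [CharZero k] [Countable k]

theorem dvd_C {g : k[X][X]} (h : g.map constantCoeff = 0) : x' k ∣ psiR k (C g) := by
  obtain ⟨g', rfl⟩ := map_cc k h
  exact ⟨psiR k (C g'), by rw [C_mul, map_mul]; rfl⟩

omit [CharZero k] [Countable k] in
theorem lift_cc (u : k[X]) : (u.map C).map (constantCoeff : k[X] →+* k) = u := by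
  rw [Polynomial.map_map]
  have : (constantCoeff : k[X] →+* k).comp C = RingHom.id k := by ext; simp
  rw [this, Polynomial.map_id]

theorem unit_C {g : k[X][X]} (h : (g.map constantCoeff).coeff 0 ≠ 0) : IsUnit (psiR k (C g)) := by
  rw [unit_R, psiR_val, psi_C, unit_S, QuadraticAlgebra.algebraMap_re, unit_T]
  have := congrArg PowerSeries.constantCoeff (kap_psi0 k g)
  rw [constantCoeff_coe] at this
  rw [← this] at h
  rwa [← PowerSeries.coeff_zero_eq_constantCoeff_apply, PowerSeries.coeff_map,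
    PowerSeries.coeff_zero_eq_constantCoeff_apply] at h

theorem split_C (g : k[X][X]) {j : ℕ} {u : k[X]} (h : g.map constantCoeff = X ^ j * u) :
    ∃ d, psiR k (C g) = y' k ^ j * psiR k (C (u.map C)) + x' k * d := by
  obtain ⟨d, hd⟩ := dvd_C (g := g - X ^ j * u.map C) (by
    rw [Polynomial.map_sub, Polynomial.map_mul, Polynomial.map_pow, map_X, lift_cc, h, sub_self])
  refine ⟨d, ?_⟩
  have e : psiR k (C (g - X ^ j * u.map C)) = psiR k (C g) - y' k ^ j * psiR k (C (u.map C)) := by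
    refine (map_sub ((psiR k).comp C) _ _).trans ?_
    rw [map_mul, map_pow]; rfl
  rw [← hd, e]; ring

theorem x'_max : x' k ∈ maximalIdeal (R k) := by
  rw [mem_max_R, x'_val]; exact ch.hxm

theorem y'_max : y' k ∈ maximalIdeal (R k) := by
  rw [mem_max_R, y'_val, mem_max_S]; exact y_max k

theorem z'_max : z' k ∈ maximalIdeal (R k) := by
  rw [mem_max_R, z'_val, mem_max_S]; exact zero_mem _

theorem cc_zero {g : k[X][X]} (h : psiR k (C g) ∈ maximalIdeal (R k)) :
    ∃ c d, psiR k (C g) = y' k * c + x' k * d := by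
  have : (g.map constantCoeff).coeff 0 = 0 := by
    by_contra h0
    exact h (unit_C h0)
  obtain ⟨u, hu⟩ := X_dvd_iff.mpr this
  obtain ⟨d, hd⟩ := split_C g (j := 1) (u := u) (by rw [pow_one, hu])
  exact ⟨_, d, by rw [hd, pow_one]⟩

theorem max_R {r : R k} (h : r ∈ maximalIdeal (R k)) :
    ∃ c d e, r = c * x' k + d * y' k + e * z' k := by
  obtain ⟨v, s, g0, g1, hv, e⟩ := nf r
  obtain ⟨u, hu⟩ := hv.exists_left_inv
  have : psiR k (C g0) ∈ maximalIdeal (R k) := by
    have e' : psiR k (C g0) = v * r - psiR k (C g1) * z' k - x' k * s := by rw [e]; ring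
    rw [e']
    exact sub_mem (sub_mem (Ideal.mul_mem_left _ _ h) (Ideal.mul_mem_left _ _ z'_max))
      (Ideal.mul_mem_right _ _ x'_max)
  obtain ⟨c, d, hcd⟩ := cc_zero this
  exact ⟨u * (d + s), u * c, u * psiR k (C g1), by
    linear_combination (-r) * hu + u * e + u * hcd⟩

theorem max_R_sq : maximalIdeal (R k) ^ 2 ≤ Ideal.span {x' k} ⊔ Ideal.span {y' k} :=
  sq_le (fun _ hs => max_R hs) (by
    obtain ⟨d, hd⟩ := zrel (k := k)
    rw [hd]
    exact add_mem (Submodule.mem_sup_right (Ideal.mem_span_singleton'.mpr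
      ⟨(1 + y' k) * y' k, by ring⟩))
      (Submodule.mem_sup_left (Ideal.mem_span_singleton'.mpr ⟨d, by ring⟩)))

theorem kap_eps {r : R k} (h : kap k (eps k 1 (mul_one 1) r) = 0) : x' k ∣ r := by
  obtain ⟨v, s, g0, g1, hv, e⟩ := nf r
  let F := (kap k).comp ((eps k 1 (mul_one 1)).comp (R k).subtype)
  have hF : ∀ g, F (psiR k (C g)) = (g.map constantCoeff : k[X]) := fun g => by
    show kap k (eps k 1 (mul_one 1) (psi k (C g))) = _
    rw [psi_C, eps_alg, kap_psi0]
  have hx : F (x' k) = 0 := by rw [x', hF]; simp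
  have hz : F (z' k) ^ 2 = (1 + PowerSeries.X) * PowerSeries.X ^ 2 := by
    obtain ⟨d, hd⟩ := zrel (k := k)
    have hy : F (y' k) = PowerSeries.X := by rw [y', hF]; simp
    rw [← map_pow, hd, map_add, map_mul, map_mul, hx, map_add, map_pow, hy, map_one]; ring
  have e1 := congrArg F e
  have hr : F r = 0 := h
  rw [map_mul, hr, map_add, map_add, map_mul, map_mul, hx, hF, hF] at e1
  obtain ⟨h0, h1⟩ := parity (p := g0.map constantCoeff) (q := g1.map constantCoeff) (by
    apply coe_injective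
    simp only [coe_mul, coe_pow, coe_add, coe_one, coe_X]
    rw [← hz]
    linear_combination (((g1.map constantCoeff : k[X]) : O k) * F (z' k) -
      ((g0.map constantCoeff : k[X]) : O k)) * e1)
  rw [← hv.dvd_mul_left, e]
  exact dvd_add (dvd_add (dvd_C h0) ((dvd_C h1).mul_right _)) (dvd_mul_right _ _)

theorem x'_ne : x' k ≠ 0 := by
  intro h
  have := congrArg (fun r : R k => (r : S k).re) h
  simp only [x'_val] at this
  exact x_ne this

theorem x'_prime : Prime (x' k) := by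
  refine ⟨x'_ne, x'_max, fun r s h => ?_⟩
  obtain ⟨c, hc⟩ := h
  let F := (kap k).comp ((eps k 1 (mul_one 1)).comp (R k).subtype)
  have hx : F (x' k) = 0 := by
    show kap k (eps k 1 (mul_one 1) (x' k)) = 0
    rw [x'_val, eps_alg, kap_zero_iff]
  have := congrArg F hc
  rw [map_mul, map_mul, hx, zero_mul] at this
  exact (mul_eq_zero.mp this).imp kap_eps kap_eps

theorem prime_x {p : Ideal (R k)} (hp : p.IsPrime) (hx : x' k ∈ p) :
    p = maximalIdeal (R k) ∨ p = Ideal.span {x' k} := by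
  by_cases h : p ≤ Ideal.span {x' k}
  · exact Or.inr (le_antisymm h ((Ideal.span_singleton_le_iff_mem _).mpr hx))
  left
  obtain ⟨r, hr, hr'⟩ := Set.not_subset.mp h
  obtain ⟨v, s, g0, g1, hv, e⟩ := nf r
  obtain ⟨d, hd⟩ := zrel (k := k)
  set n : k[X][X] := g0 ^ 2 - (1 + X) * X ^ 2 * g1 ^ 2 with hn
  have e1 : psiR k (C n) = psiR k (C g0) ^ 2 - (1 + y' k) * y' k ^ 2 * psiR k (C g1) ^ 2 := by
    refine (map_sub ((psiR k).comp C) _ _).trans ?_
    rw [map_mul, map_mul, map_pow, map_pow, map_pow, map_add, map_one]; rfl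
  have h1 : psiR k (C n) ∈ p := by
    have : psiR k (C n) = (psiR k (C g0) - psiR k (C g1) * z' k) * v * r +
        (d * psiR k (C g1) ^ 2 - (psiR k (C g0) - psiR k (C g1) * z' k) * s) * x' k := by
      rw [e1]
      linear_combination (psiR k (C g1) * z' k - psiR k (C g0)) * e + psiR k (C g1) ^ 2 * hd
    rw [this]
    exact add_mem (Ideal.mul_mem_left _ _ hr) (Ideal.mul_mem_left _ _ hx)
  have h2 : n.map constantCoeff ≠ 0 := by
    intro h0
    rw [hn, Polynomial.map_sub, sub_eq_zero] at h0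
    simp only [Polynomial.map_mul, Polynomial.map_pow, Polynomial.map_add, Polynomial.map_one,
      map_X] at h0
    obtain ⟨h0, h1⟩ := parity h0
    apply hr'
    rw [SetLike.mem_coe, Ideal.mem_span_singleton, ← hv.dvd_mul_left, e]
    exact dvd_add (dvd_add (dvd_C h0) ((dvd_C h1).mul_right _)) (dvd_mul_right _ _)
  obtain ⟨u, hu, hu'⟩ := exists_eq_pow_rootMultiplicity_mul_and_not_dvd _ h2 0
  rw [C_0, sub_zero] at hu hu'
  obtain ⟨d', hd'⟩ := split_C n hu
  have hy : y' k ∈ p := by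
    have h3 : y' k ^ rootMultiplicity 0 (n.map constantCoeff) * psiR k (C (u.map C)) ∈ p := by
      rw [← sub_eq_iff_eq_add.mpr hd']
      exact sub_mem h1 (Ideal.mul_mem_right _ _ hx)
    rw [Ideal.mul_unit_mem_iff_mem _ (unit_C (by rwa [lift_cc, Ne, ← X_dvd_iff]))] at h3
    exact hp.mem_of_pow_mem _ h3
  refine ((maximalIdeal.isMaximal _).eq_of_le hp.ne_top (hp.le_of_pow_le (n := 2) ?_)).symm
  exact max_R_sq.trans (sup_le ((Ideal.span_singleton_le_iff_mem _).mpr hx)
    ((Ideal.span_singleton_le_iff_mem _).mpr hy))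

theorem comap_span {A B : Type*} [CommRing A] [CommRing B] (φ : A →+* B) {p : Ideal B} {G : A}
    (hG : p.comap φ = Ideal.span {G}) : φ G ∈ p ∧ ∀ G', φ G' ∈ p → ∃ K, φ G' = φ G * K := by
  constructor
  · rw [← Ideal.mem_comap, hG]
    exact Ideal.mem_span_singleton_self G
  · intro G' h
    rw [← Ideal.mem_comap, hG] at h
    obtain ⟨K, rfl⟩ := Ideal.mem_span_singleton.mp h
    exact ⟨φ K, map_mul _ _ _⟩

theorem pstep {B : Type*} [CommRing B] [IsDomain B] {x g : B} (hxp : Prime x) {p : Ideal B}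
    (hp : p.IsPrime) (hx : x ∉ p) (hg : g ∈ p) (hfin : g ≠ 0 → FiniteMultiplicity x g)
    (key : ∀ r ∈ p, ∃ (n : ℕ) (v K : B), IsUnit v ∧ x ^ n * (v * r) = g * K) :
    ∃ f, p = Ideal.span {f} := by
  by_cases h0 : g = 0
  · refine ⟨0, le_antisymm (fun r hr => ?_) (by simp)⟩
    obtain ⟨n, v, K, hv, e⟩ := key r hr
    rw [h0, zero_mul] at e
    rw [hv.mul_right_eq_zero.mp ((mul_eq_zero.mp e).resolve_left (pow_ne_zero _ hxp.ne_zero))]
    exact zero_mem _
  obtain ⟨f, hf, hf'⟩ := (hfin h0).exists_eq_pow_mul_and_not_dvd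
  generalize multiplicity x g = j at hf
  have hfp : f ∈ p := by
    rw [hf] at hg
    exact (hp.mem_or_mem hg).resolve_left fun h => hx (hp.mem_of_pow_mem _ h)
  refine ⟨f, le_antisymm (fun r hr => ?_) ((Ideal.span_singleton_le_iff_mem _).mpr hfp)⟩
  obtain ⟨n, v, K, hv, e⟩ := key r hr
  rw [hf, mul_comm _ f, mul_assoc] at e
  obtain ⟨w, hw⟩ := hxp.pow_dvd_of_dvd_mul_left n hf' ⟨_, e.symm⟩
  rw [hw, mul_left_comm f] at e
  rw [Ideal.mem_span_singleton, ← hv.dvd_mul_left]
  exact ⟨w, mul_left_cancel₀ (pow_ne_zero _ hxp.ne_zero) e⟩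

theorem gen_cases {L B : Type*} [CommRing L] [IsDomain L] [UniqueFactorizationMonoid L]
    [CommRing B] (φ : L[X][X] →+* B) {p : Ideal B} (hp : p.IsPrime) (h : 1 + φ (C X) ∉ p) :
    (∃ g ∈ p, ∀ G', φ G' ∈ p → ∃ K, φ G' = g * K) ∨
      ∃ N : L[X], N ≠ 0 ∧ ∀ c : L, ∃ K, φ (C (C (N.eval c))) - φ (BC8.hp c) * K ∈ p := by
  have hq := hp.comap φ
  by_cases hA : ∀ g, C g ∈ p.comap φ → g = 0
  · obtain ⟨G, hG⟩ := principal_of _ hq hA
    exact Or.inl ⟨_, comap_span _ hG⟩
  by_cases hB : ∀ g : L[X], g.map C ∈ p.comap φ → g = 0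
  · let σ := (Bivariate.swap (R := L)).toRingEquiv.toRingHom
    have hσ : Function.Surjective σ := Bivariate.swap.surjective
    obtain ⟨G, hG⟩ := principal_of _ (hq.comap σ) (fun g hg => hB g (by
      rw [← Bivariate.swap_C]; exact hg))
    refine Or.inl ⟨_, comap_span _ (G := σ G) ?_⟩
    rw [← Ideal.map_comap_of_surjective σ hσ (p.comap φ), hG, Ideal.map_span,
      Set.image_singleton]
  right
  push Not at hA hB
  obtain ⟨g, hg, hg0⟩ := hA
  obtain ⟨g', hg', hg0'⟩ := hB
  obtain ⟨N, hN, h⟩ := caseC _ hq hg0 hg0' hg hg' (by rwa [Ideal.mem_comap, map_add, map_one])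
  refine ⟨N, hN, fun c => ?_⟩
  obtain ⟨K, hK⟩ := h c
  have h2 := Ideal.mem_comap.mp hK
  replace h2 := (map_sub φ _ _) ▸ h2
  rw [map_mul] at h2
  exact ⟨_, h2⟩

theorem fin_mult {g : R k} (h0 : g ≠ 0) : FiniteMultiplicity (x' k) g := by
  by_contra h
  rw [FiniteMultiplicity.not_iff_forall] at h
  apply h0
  apply Subtype.ext
  have : (g : S k) ∈ ⨅ n : ℕ, maximalIdeal (S k) ^ n := by
    rw [Submodule.mem_iInf]
    intro n
    obtain ⟨c, hc⟩ := h n
    rw [hc, Subring.coe_mul, SubmonoidClass.coe_pow, x'_val]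
    exact Ideal.mul_mem_right _ _ (Ideal.pow_mem_pow ch.hxm n)
  rwa [Ideal.iInf_pow_eq_bot_of_isLocalRing _ (maximalIdeal.isMaximal _).ne_top] at this

theorem prime_not_x {p : Ideal (R k)} (hp : p.IsPrime) (hx : x' k ∉ p) :
    ∃ f, p = Ideal.span {f} := by
  rcases gen_cases (psiR k) hp (by
    intro h1
    refine hp.ne_top (Ideal.eq_top_of_isUnit_mem _ h1 ?_)
    rw [← sub_neg_eq_add]
    exact isUnit_one_sub_self_of_mem_nonunits _ (neg_mem y'_max)) with ⟨g, hg, h⟩ | ⟨N, hN, h⟩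
  · refine pstep x'_prime hp hx hg fin_mult fun r hr => ?_
    obtain ⟨n, v, G', hv, e⟩ := frac r
    obtain ⟨K, hK⟩ := h G' (by
      rw [← e]
      exact Ideal.mul_mem_left _ _ (Ideal.mul_mem_left _ _ hr))
    exact ⟨n, v, K, hv, e.trans hK⟩
  exfalso
  have h1 : ∀ n : ℕ, PowerSeries.X ^ n ∣
      ((N.eval (PowerSeries.trunc n (tau k)) : k[X]) : O k) := by
    intro n
    obtain ⟨K, hK⟩ := h (PowerSeries.trunc n (tau k))
    obtain ⟨d, hd⟩ := psi_hp k (trunc_dvd k n)
    obtain ⟨d', hd'⟩ := dvd_R (r := psiR k (BC8.hp _)) hd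
    set c := N.eval (PowerSeries.trunc n (tau k))
    by_cases hc : (c : O k) = 0
    · rw [hc]; exact dvd_zero _
    obtain ⟨m, u, hu, e⟩ := dvr_O hc
    rcases le_or_gt n m with hnm | hnm
    · rw [e]; exact (pow_dvd_pow _ hnm).mul_right _
    exfalso
    obtain ⟨l, rfl⟩ := Nat.exists_eq_add_of_lt hnm
    have e1 : (psiR k (C (C c)) : S k) = xS k ^ m * algebraMap (T k) (S k) (PowerSeries.C u) := by
      rw [psiR_val, psi_C, psi0_C, e, map_mul, map_mul, map_pow, map_pow]
    obtain ⟨v, hv⟩ := dvd_R e1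
    have hvu : IsUnit v := by
      rw [hv, Subring.coe_mul, SubmonoidClass.coe_pow, x'_val] at e1
      rw [unit_R, xS_reg k e1]
      exact (hu.map _).map _
    have h2 := hK
    rw [hv, hd'] at h2
    have h3 : x' k ^ m * (v - x' k * (x' k ^ l * d' * K)) ∈ p := by
      convert h2 using 1; ring
    rcases hp.mem_or_mem h3 with h4 | h4
    · exact hx (hp.mem_of_pow_mem _ h4)
    · have h5 := le_maximalIdeal hp.ne_top h4
      have : v ∈ maximalIdeal (R k) := by
        rw [← sub_add_cancel v (x' k * (x' k ^ l * d' * K))]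
        exact add_mem h5 (Ideal.mul_mem_right _ _ x'_max)
      exact this hvu
  refine tau_trans k ⟨N, hN, ?_⟩
  ext n
  have h2 := sub_dvd_eval_sub (tau k) ((PowerSeries.trunc (n + 1) (tau k) : k[X]) : O k)
    (N.map (algebraMap k[X] (O k)))
  rw [eval_map_algebraMap, ← alg_O, eval_map_algebraMap, aeval_algebraMap_apply, alg_O,
    alg_O] at h2
  have h3 := dvd_add ((trunc_dvd k (n + 1)).trans h2) (h1 (n + 1))
  rw [coe_aeval_eq_eval, sub_add_cancel] at h3
  exact PowerSeries.X_pow_dvd_iff.mp h3 n (by omega)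

theorem primes_R {p : Ideal (R k)} (hp : p.IsPrime) :
    p = maximalIdeal (R k) ∨ ∃ f, p = Ideal.span {f} := by
  by_cases hx : x' k ∈ p
  · exact (prime_x hp hx).imp id fun h => ⟨_, h⟩
  · exact Or.inr (prime_not_x hp hx)

instance : IsNoetherianRing (R k) := by
  classical
  refine IsNoetherianRing.of_prime fun p hp => ?_
  rcases primes_R hp with rfl | ⟨f, rfl⟩
  · refine ⟨{x' k, y' k, z' k}, le_antisymm ?_ fun r hr => ?_⟩
    · rw [Ideal.span_le]
      intro r hr
      simp only [Finset.coe_insert, Finset.coe_singleton, Set.mem_insert_iff,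
        Set.mem_singleton_iff] at hr
      rcases hr with rfl | rfl | rfl
      exacts [x'_max, y'_max, z'_max]
    · obtain ⟨c, d, e, rfl⟩ := max_R hr
      exact add_mem (add_mem (Ideal.mul_mem_left _ _ (Ideal.subset_span (by simp)))
        (Ideal.mul_mem_left _ _ (Ideal.subset_span (by simp))))
        (Ideal.mul_mem_left _ _ (Ideal.subset_span (by simp)))
  · exact ⟨{f}, by simp⟩

omit [CharZero k] in
theorem X_eq : (PowerSeries.X : T k) = yT k + xT k * PowerSeries.C (sig k) := by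
  rw [yT, tau, map_mul]; ring

omit [CharZero k] in
theorem reg_xy : Reg2 (xT k) (yT k) (T k) := by
  refine ⟨reg_xY.1, ?_⟩
  rintro n ⟨w, hw⟩
  have hw' : xT k * w = yT k * n := hw
  refine reg_xY.2 n ⟨w + PowerSeries.C (sig k) * n, ?_⟩
  show xT k * (w + PowerSeries.C (sig k) * n) = PowerSeries.X * n
  linear_combination hw' - n * X_eq (k := k)

omit [CharZero k] in
theorem y_ne : yT k ≠ 0 := by
  intro h
  have := congrArg (PowerSeries.coeff 1) h
  simp [yT] at this

omit [CharZero k] in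
theorem reg_yx : Reg2 (yT k) (xT k) (T k) :=
  reg2_swap reg_xy fun _ h => (mul_eq_zero.mp h).resolve_left y_ne

theorem alg_R (r : R k) : algebraMap (R k) (S k) r = r := rfl

theorem hmap : (maximalIdeal (R k)).map (algebraMap (R k) (S k)) = maximalIdeal (S k) := by
  refine le_antisymm (Ideal.map_le_iff_le_comap.mpr fun r hr => (mem_max_R r).mp hr)
    fun s hs => ?_
  obtain ⟨c, d, e, rfl⟩ := max_S hs
  obtain ⟨ri, hri⟩ := (rho_unit k).exists_left_inv
  have hx := Ideal.mem_map_of_mem (algebraMap (R k) (S k)) x'_max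
  have hy := Ideal.mem_map_of_mem (algebraMap (R k) (S k)) y'_max
  have hz := Ideal.mem_map_of_mem (algebraMap (R k) (S k)) z'_max
  rw [alg_R] at hx hy hz
  rw [x'_val] at hx
  rw [y'_val] at hy
  rw [z'_val] at hz
  have e1 : (QuadraticAlgebra.omega : S k) = algebraMap (T k) (S k) ri * zS k := by
    apply QuadraticAlgebra.ext <;> simp [zS, hri]
  have e2 : algebraMap (T k) (S k) PowerSeries.X = algebraMap (T k) (S k) (yT k) +
      xS k * algebraMap (T k) (S k) (PowerSeries.C (sig k)) := by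
    rw [← map_mul, ← map_add, ← X_eq]
  rw [e1, e2]
  exact add_mem (add_mem (Ideal.mul_mem_left _ _ hx) (Ideal.mul_mem_left _ _
    (add_mem hy (Ideal.mul_mem_right _ _ hx)))) (Ideal.mul_mem_left _ _ (Ideal.mul_mem_left _ _ hz))

theorem dense (s : S k) (n : ℕ) :
    ∃ r : R k, s - algebraMap (R k) (S k) r ∈ maximalIdeal (S k) ^ n := by
  refine dense_of hmap (fun s => ?_) s n
  refine ⟨psiR k (C (C (C (PowerSeries.constantCoeff (PowerSeries.constantCoeff s.re))))), ?_⟩
  rw [alg_R, psiR_val, psi_C, psi0_C, mem_max_S, mem_max_T]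
  simp

theorem contr_xy : Contr (algebraMap (R k) (S k)) (x' k) (y' k) := by
  intro r s s' h
  obtain ⟨v, t, g0, g1, hv, e⟩ := nf r
  obtain ⟨u, hu⟩ := hv.exists_left_inv
  have e1 := congrArg Subtype.val e
  rw [alg_R, alg_R, alg_R, x'_val, y'_val] at h
  simp only [Subring.coe_mul, Subring.coe_add, psiR_val, psi_C, x'_val, z'_val, h] at e1
  have e2 : algebraMap (T k) (S k) (psi0 k g0) + algebraMap (T k) (S k) (psi0 k g1) * zS k =
      xS k * (v * s - t) + algebraMap (T k) (S k) (yT k) * (v * s') := by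
    linear_combination -e1
  have hm : ∀ g : k[X][X], psi0 k g ∈ maximalIdeal (T k) → psiR k (C g) ∈ maximalIdeal (R k) :=
    fun g hg => by rw [mem_max_R, psiR_val, psi_C, mem_max_S]; exact hg
  obtain ⟨c0, d0, h0⟩ := cc_zero (hm g0 (by
    have := congrArg QuadraticAlgebra.re e2
    simp only [zS, QuadraticAlgebra.re_add, QuadraticAlgebra.re_mul,
      QuadraticAlgebra.algebraMap_re, QuadraticAlgebra.algebraMap_im, mul_zero, zero_mul,
      add_zero] at this
    rw [this]
    exact add_mem (Ideal.mul_mem_right _ _ th.hx) (Ideal.mul_mem_right _ _ (y_max k))))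
  obtain ⟨c1, d1, h1⟩ := cc_zero (hm g1 (by
    have := congrArg QuadraticAlgebra.im e2
    simp only [zS, QuadraticAlgebra.im_add, QuadraticAlgebra.im_mul,
      QuadraticAlgebra.algebraMap_re, QuadraticAlgebra.algebraMap_im, mul_zero, zero_mul,
      add_zero, zero_add] at this
    rw [← Ideal.mul_unit_mem_iff_mem _ (rho_unit k), this]
    exact add_mem (Ideal.mul_mem_right _ _ th.hx) (Ideal.mul_mem_right _ _ (y_max k))))
  exact ⟨u * (d0 + d1 * z' k + t), u * (c0 + c1 * z' k), by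
    linear_combination (-r) * hu + u * e + u * h0 + u * z' k * h1⟩

theorem contr_pow (i : ℕ) : Contr (algebraMap (R k) (S k)) (x' k ^ i) (y' k ^ i) := by
  have h1 := (contr_xy (k := k)).pow (by
    rw [alg_R, alg_R, x'_val, y'_val]; exact (reg2_S reg_xy).2) i
  refine (h1.symm.pow ?_ i).symm
  rw [map_pow, alg_R, alg_R, x'_val, y'_val]
  exact (reg2_S reg_yx).pow i

theorem reg_R : Reg2 (x' k) (y' k) (R k) := by
  refine ⟨fun _ h => (mul_eq_zero.mp h).resolve_left x'_ne, ?_⟩
  rintro n ⟨w, hw⟩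
  have hw' : x' k * w = y' k * n := hw
  obtain ⟨c, hc⟩ := (reg2_S reg_xy).2 (n : S k) ⟨w, by
    have := congrArg Subtype.val hw'
    rw [Subring.coe_mul, Subring.coe_mul, x'_val, y'_val] at this
    exact this⟩
  obtain ⟨d, hd⟩ := dvd_R (n := 1) (r := n) (s := c) (by rw [pow_one]; exact hc.symm)
  exact ⟨d, by rw [hd, pow_one]; rfl⟩

theorem y'_ne : y' k ≠ 0 := by
  intro h
  have := congrArg (fun r : R k => (r : S k).re) h
  simp only [y'_val] at this
  exact y_ne this

theorem dim_R : ringKrullDim (R k) = 2 := dim_two x'_max y'_max reg_R max_R_sq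

theorem iso : Nonempty (S k ≃ₐ[R k] AdicCompletion (maximalIdeal (R k)) (R k)) :=
  compl_equiv hmap dense (comap_pow hmap dense x'_max y'_max max_R_sq contr_pow) precomplete_S

omit [Countable k] in
theorem ann {e : T k} (he : e * e = 1) : Zk (br k (-e)) (S k) ≤ Bm (br k e) (S k) := by
  intro s hs
  have hs' : br k (-e) * s = 0 := hs
  have := congrArg (eps k e he) hs'
  rw [map_mul, eps_br, map_zero] at this
  have h2 := (mul_eq_zero.mp this).resolve_left (mul_ne_zero th.h2.ne_zero PowerSeries.X_ne_zero)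
  obtain ⟨c, hc⟩ := Ideal.mem_span_singleton.mp ((eps_zero_iff he s).mp h2)
  exact ⟨c, hc.symm⟩

theorem reg_br {e : T k} (he : e * e = 1) {f : R k} (hf : f ≠ 0) (s : S k)
    (h : algebraMap (R k) (S k) f * s ∈ Ideal.span {br k e}) : s ∈ Ideal.span {br k e} := by
  rw [← eps_zero_iff he] at h ⊢
  rw [map_mul] at h
  exact (mul_eq_zero.mp h).resolve_left fun h => hf (eps_R he h)

theorem dh : DH (xT k) PowerSeries.X (br k (-1)) (br k 1) (x' k) (y' k) where
  toCH := ch
  hza := ann (mul_one 1)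
  hzb := by simpa using ann (k := k) (e := -1) (by simp)
  hreg := reg2_S (reg2_swap reg_xY
    fun _ h => (mul_eq_zero.mp h).resolve_left PowerSeries.X_ne_zero)
  hregb := by
    have he : (1 : T k) * 1 = 1 := mul_one 1
    constructor
    · intro n hn
      obtain ⟨s, rfl⟩ := Ideal.Quotient.mk_surjective n
      have h1 : xS k * s ∈ Ideal.span {br k 1} := Ideal.Quotient.eq_zero_iff_mem.mp hn
      rw [← eps_zero_iff he, map_mul, eps_alg] at h1
      exact Ideal.Quotient.eq_zero_iff_mem.mpr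
        ((eps_zero_iff he s).mp ((mul_eq_zero.mp h1).resolve_left x_ne))
    · rintro n ⟨w, hw⟩
      obtain ⟨s, rfl⟩ := Ideal.Quotient.mk_surjective n
      obtain ⟨w, rfl⟩ := Ideal.Quotient.mk_surjective w
      have h1 : xS k * w - br k (-1) * s ∈ Ideal.span {br k 1} := Ideal.Quotient.eq.mp hw
      rw [← eps_zero_iff he, map_sub, map_mul, map_mul, eps_alg, eps_br] at h1
      obtain ⟨hf, hhf⟩ := (th (k := k)).h2.exists_left_inv
      obtain ⟨t, ht⟩ := reg_xY.2 (eps k 1 he s) ⟨hf * eps k 1 he w, by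
        show xT k * (hf * eps k 1 he w) = PowerSeries.X * eps k 1 he s
        linear_combination hf * h1 + PowerSeries.X * eps k 1 he s * hhf⟩
      have ht' : xT k * t = eps k 1 he s := ht
      refine ⟨Ideal.Quotient.mk _ (algebraMap _ _ t), Ideal.Quotient.eq.mpr ?_⟩
      show xS k * algebraMap _ _ t - s ∈ _
      rw [← eps_zero_iff he, map_sub, map_mul, eps_alg, eps_alg, ht', sub_self]
  hxab j c d h := by
    rw [← map_pow] at h
    have := congrArg (fun s : S k => PowerSeries.constantCoeff s.re) h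
    simp [br, -map_pow] at this
    simp [PowerSeries.X_ne_zero] at this
  hx' := x'_max
  hy' := y'_max
  r1 := reg_R
  r2 := reg2_swap reg_R fun _ h => (mul_eq_zero.mp h).resolve_left y'_ne
  hm2 := max_R_sq
  hmap := hmap
  dense := dense
  primes p hp := by
    rcases primes_R hp with h | ⟨f, rfl⟩
    · exact Or.inl h
    by_cases hf : f = 0
    · exact Or.inr (Or.inl (by simp [hf]))
    · exact Or.inr (Or.inr ⟨f, rfl, reg_br (by simp) hf, reg_br (by simp) hf⟩)

theorem ch_equiv {T S S' : Type} [CommRing T] [IsLocalRing T] [IsNoetherianRing T] [CommRing S]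
    [IsLocalRing S] [CommRing S'] [IsLocalRing S'] [Algebra T S] {x Y : T} {a b : S}
    (h : CH x Y a b) (hd : ringKrullDim S = 2) (e : S ≃+* S') : BCDefs.BoundedCM S' := by
  let _ : Algebra T S' := (e.toRingHom.comp (algebraMap T S)).toAlgebra
  have ha : ∀ t, algebraMap T S' t = e (algebraMap T S t) := fun _ => rfl
  have hm : ∀ s, e s ∈ maximalIdeal S' ↔ s ∈ maximalIdeal S := fun s => by
    rw [mem_maximalIdeal, mem_maximalIdeal, mem_nonunits_iff, mem_nonunits_iff,
      MulEquiv.isUnit_map]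
  refine bounded (x := x) (Y := Y) (a := e a) (b := e b) ⟨h.toTH, ⟨?_, ?_, ?_⟩, ?_, ?_, ?_⟩ ?_
  · rw [← map_mul, h.hab, map_zero]
  · rw [← map_add, h.hsum, ha]
  · intro s
    obtain ⟨s, rfl⟩ := e.surjective s
    obtain ⟨t, t', rfl⟩ := h.hgen s
    exact ⟨t, t', by rw [map_add, map_mul, ha, ha]⟩
  · rw [ha, hm]; exact h.hxm
  · rw [ha, hm]; exact h.hYm
  · intro s hs
    obtain ⟨s, rfl⟩ := e.surjective s
    obtain ⟨c, d, f, rfl⟩ := h.hm s ((hm s).mp hs)
    exact ⟨e c, e d, e f, by simp only [map_add, map_mul, ha]⟩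
  · rw [← ringKrullDim_eq_of_ringEquiv e, hd]

theorem main : BCDefs.IsMCM (R k) (R k) ∧ IsNoetherianRing (AdicCompletion (maximalIdeal (R k)) (R k)) ∧
    BCDefs.BoundedCM (AdicCompletion (maximalIdeal (R k)) (R k)) ∧ ¬BCDefs.BoundedCM (R k) := by
  obtain ⟨e⟩ := iso (k := k)
  have : Module.Flat (R k) (S k) := Module.Flat.of_linearEquiv e.toLinearEquiv
  exact ⟨isMCM_of_reg2 x'_max y'_max reg_R dim_R,
    isNoetherianRing_of_ringEquiv _ e.toRingEquiv, ch_equiv ch dim_S e.toRingEquiv,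
    unbounded dh dim_R⟩

end Pool.Agent.H79.BC9
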