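import Mathlib

set_option autoImplicit false

namespace Pool.Agent.H79.Bres

def FF (n : ℤ) : ℤ := (2*n-2) * (2*n^2) + (2*n-1) * n + (n-1) * (n+1)

def InS (n c s : ℤ) : Prop :=
  ∃ k i l : ℤ, c ≤ k ∧ 0 ≤ i ∧ i ≤ k ∧ 0 ≤ l ∧ l ≤ k ∧ s = k * (2*n^2) + i * n + l * (n+1)

lemma cover_base {n : ℤ} (hn : 2 ≤ n) (x : ℤ) : InS n 0 x ∨ InS n 0 (FF n - x) := by
  have h0 : 0 ≤ x % n := Int.emod_nonneg _ (by omega)
  have h1 : x % n < n := Int.emod_lt_of_pos _ (by omega)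
  have h2 : 0 ≤ (x / n - x % n) % (2*n) := Int.emod_nonneg _ (by omega)
  have h3 : (x / n - x % n) % (2*n) < 2*n := Int.emod_lt_of_pos _ (by omega)
  have hx : x = ((x / n - x % n) / (2*n)) * (2*n^2) + ((x / n - x % n) % (2*n)) * n
      + (x % n) * (n+1) := by
    have e1 := Int.mul_ediv_add_emod x n
    have e2 := Int.mul_ediv_add_emod (x / n - x % n) (2*n)
    linear_combination -e1 - n * e2
  generalize (x / n - x % n) / (2*n) = q at *
  generalize (x / n - x % n) % (2*n) = r at *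
  generalize x % n = l at *
  subst hx
  by_cases c1 : r ≤ q
  · by_cases c2 : l ≤ q
    · exact Or.inl ⟨q, r, l, by omega, by omega, by omega, by omega, by omega, rfl⟩
    · exact Or.inr ⟨2*n-2-q, n-2-r, 2*n-1-l, by omega, by omega, by omega, by omega, by omega,
        by unfold FF; ring⟩
  · by_cases c2 : q ≤ n - 1 + l
    · exact Or.inr ⟨2*n-2-q, 2*n-1-r, n-1-l, by omega, by omega, by omega, by omega, by omega,
        by unfold FF; ring⟩
    · exact Or.inl ⟨q, r-(n+1), l+n, by omega, by omega, by omega, by omega, by omega, by ring⟩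

lemma F_not {n : ℤ} (hn : 2 ≤ n) : ¬ InS n 0 (FF n) := by
  rintro ⟨k, i, l, -, h1, h2, h3, h4, h⟩
  unfold FF at h
  have h0 : n ≠ 0 := by omega
  obtain ⟨t, ht⟩ : ∃ t, l = n - 1 + t * n :=
    ⟨(2*n-2-k) * (2*n) + (2*n-1-i) + (n-1-l), by linear_combination -h⟩
  have e : k * (2*n) + i + t * (n+1) = (2*n-2) * (2*n) + (2*n-1) := by
    apply mul_left_cancel₀ h0
    rw [ht] at h; linear_combination -h
  have ht0 : 0 ≤ t := by
    by_contra hc
    have : t * n ≤ -n := by nlinarith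
    omega
  rcases eq_or_lt_of_le ht0 with rfl | ht1
  · rcases le_or_gt k (2*n-2) with hk | hk
    · nlinarith
    · nlinarith
  · have : n ≤ t * n := by nlinarith
    have hk : 2*n-1 ≤ k := by omega
    nlinarith

def InG (n x : ℤ) : Prop := ∃ j s : ℤ, 0 ≤ j ∧ InS n j s ∧ x = n * s + j * (n^2+1)

def PP (n : ℤ) : ℤ := n * FF n + (n-1) * (n^2+1)

lemma InS.lower {n c s : ℤ} (hn : 2 ≤ n) (h : InS n c s) : c * (2*n^2) ≤ s := by
  obtain ⟨k, i, l, h0, h1, -, h3, -, rfl⟩ := h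
  have : 0 ≤ i * n := mul_nonneg h1 (by omega)
  have : 0 ≤ l * (n+1) := mul_nonneg h3 (by omega)
  have := mul_le_mul_of_nonneg_right h0 (by positivity : 0 ≤ 2*n^2)
  linarith

lemma InS.mono {n c c' s : ℤ} (h : InS n c s) (hc : c' ≤ c) : InS n c' s := by
  obtain ⟨k, i, l, h0, h⟩ := h
  exact ⟨k, i, l, hc.trans h0, h⟩

lemma InS.add {n c c' s s' : ℤ} (h : InS n c s) (h' : InS n c' s') : InS n (c + c') (s + s') := by
  obtain ⟨k, i, l, h0, h1, h2, h3, h4, rfl⟩ := h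
  obtain ⟨k', i', l', h0', h1', h2', h3', h4', rfl⟩ := h'
  exact ⟨k+k', i+i', l+l', by omega, by omega, by omega, by omega, by omega, by ring⟩

lemma InG.add {n x y : ℤ} (h : InG n x) (h' : InG n y) : InG n (x + y) := by
  obtain ⟨j, s, h0, h1, rfl⟩ := h
  obtain ⟨j', s', h0', h1', rfl⟩ := h'
  exact ⟨j+j', s+s', by omega, h1.add h1', by ring⟩

lemma decomp_eq {n s j s' j' : ℤ} (hn : 2 ≤ n)
    (h : n * s + j * (n^2+1) = n * s' + j' * (n^2+1)) :
    ∃ t : ℤ, j' = j + t * n ∧ s = s' + t * (n^2+1) := by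
  refine ⟨s - s' - (j' - j) * n, ?_, ?_⟩
  · linear_combination -h
  · have h0 : n ≠ 0 := by omega
    apply mul_left_cancel₀ h0
    linear_combination (-n^2) * h

lemma P_not {n : ℤ} (hn : 2 ≤ n) : ¬ InG n (PP n) := by
  rintro ⟨j, s, h0, h1, h⟩
  obtain ⟨t, hj, hs⟩ := decomp_eq hn h
  have ht : 0 ≤ t := by
    by_contra hc
    have : t * n ≤ -n := by nlinarith
    omega
  rcases eq_or_lt_of_le ht with rfl | ht1
  · simp at hs; exact F_not hn (hs ▸ h1.mono h0)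
  · have h2 := h1.lower hn
    have h3 : 2*n-1 ≤ j := by nlinarith
    have h4 := mul_le_mul_of_nonneg_right h3 (by positivity : 0 ≤ 2*n^2)
    have h5 : n^2+1 ≤ t * (n^2+1) := by nlinarith [sq_nonneg n]
    have h6 : FF n - (n^2+1) < (2*n-1) * (2*n^2) := by unfold FF; nlinarith
    linarith

lemma half_cover {n s j : ℤ} (h0 : 0 ≤ j) (h1 : j < n) (hs : InS n 0 s) :
    InG n (n * s + j * (n^2+1)) ∨ InG n (PP n - (n * s + j * (n^2+1))) := by
  obtain ⟨k, i, l, h2, h3, h4, h5, h6, rfl⟩ := hs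
  by_cases hk : j ≤ k
  · exact Or.inl ⟨j, _, h0, ⟨k, i, l, hk, h3, h4, h5, h6, rfl⟩, rfl⟩
  · exact Or.inr ⟨2*n-1-j, _, by omega, ⟨2*n-2-k, n-i, n-2-l, by omega, by omega, by omega,
      by omega, by omega, rfl⟩, by unfold PP FF; ring⟩

lemma cover {n : ℤ} (hn : 2 ≤ n) (x : ℤ) : InG n x ∨ InG n (PP n - x) := by
  have h0 : 0 ≤ x % n := Int.emod_nonneg _ (by omega)
  have h1 : x % n < n := Int.emod_lt_of_pos _ (by omega)
  have hx : x = n * (x / n - (x % n) * n) + (x % n) * (n^2+1) := by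
    have := Int.mul_ediv_add_emod x n
    linear_combination -this
  generalize x % n = j at *
  generalize x / n - j * n = s at *
  subst hx
  rcases cover_base hn s with h | h
  · exact half_cover h0 h1 h
  · rcases half_cover (j := n-1-j) (by omega) (by omega) h with h | h
    · exact Or.inr (by convert h using 1; unfold PP; ring)
    · exact Or.inl (by convert h using 1; unfold PP; ring)

lemma symm {n : ℤ} (hn : 2 ≤ n) (x : ℤ) : InG n x ↔ ¬ InG n (PP n - x) := by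
  constructor
  · intro h h'
    exact P_not hn (by simpa using h.add h')
  · intro h
    exact (cover hn x).resolve_right h

/-- the eight generators -/
def gen (n : ℕ) : Fin 8 → ℕ :=
  ![2*n^3, 2*n^3+n^2, 2*n^3+n^2+1, 2*n^3+n^2+n, 2*n^3+2*n^2+1, 2*n^3+2*n^2+n,
    2*n^3+2*n^2+n+1, 2*n^3+3*n^2+n+1]

lemma wt_cast (n : ℕ) (γ : Fin 8 → ℕ) : ((∑ x, γ x * gen n x : ℕ) : ℤ) =
    n * (((γ 0 : ℤ) + γ 1 + γ 2 + γ 3 + γ 4 + γ 5 + γ 6 + γ 7) * (2*(n:ℤ)^2)
      + ((γ 1 : ℤ) + γ 4 + γ 5 + γ 7) * n + ((γ 3 : ℤ) + γ 5 + γ 6 + γ 7) * (n+1))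
      + ((γ 2 : ℤ) + γ 4 + γ 6 + γ 7) * ((n:ℤ)^2+1) := by
  rw [Fin.sum_univ_eight]; simp [gen]; ring

lemma exists_fact (k : ℕ) : ∀ i l j : ℕ, i ≤ k → l ≤ k → j ≤ k → ∃ γ : Fin 8 → ℕ,
    γ 0 + γ 1 + γ 2 + γ 3 + γ 4 + γ 5 + γ 6 + γ 7 = k ∧ γ 1 + γ 4 + γ 5 + γ 7 = i ∧
      γ 3 + γ 5 + γ 6 + γ 7 = l ∧ γ 2 + γ 4 + γ 6 + γ 7 = j := by
  induction k with
  | zero => intro i l j h1 h2 h3; exact ⟨0, by simp, by simp; omega, by simp; omega, by simp; omega⟩
  | succ k ih =>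
    intro i l j h1 h2 h3
    obtain ⟨γ, e1, e2, e3, e4⟩ := ih (i-1) (l-1) (j-1) (by omega) (by omega) (by omega)
    rcases Nat.eq_zero_or_pos i with hi | hi <;> rcases Nat.eq_zero_or_pos l with hl | hl <;>
      rcases Nat.eq_zero_or_pos j with hj | hj
    · exact ⟨γ + Pi.single 0 1, by simp; omega, by simp; omega, by simp; omega, by simp; omega⟩
    · exact ⟨γ + Pi.single 2 1, by simp; omega, by simp; omega, by simp; omega, by simp; omega⟩
    · exact ⟨γ + Pi.single 3 1, by simp; omega, by simp; omega, by simp; omega, by simp; omega⟩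
    · exact ⟨γ + Pi.single 6 1, by simp; omega, by simp; omega, by simp; omega, by simp; omega⟩
    · exact ⟨γ + Pi.single 1 1, by simp; omega, by simp; omega, by simp; omega, by simp; omega⟩
    · exact ⟨γ + Pi.single 4 1, by simp; omega, by simp; omega, by simp; omega, by simp; omega⟩
    · exact ⟨γ + Pi.single 5 1, by simp; omega, by simp; omega, by simp; omega, by simp; omega⟩
    · exact ⟨γ + Pi.single 7 1, by simp; omega, by simp; omega, by simp; omega, by simp; omega⟩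

lemma mem_iff (n : ℕ) (z : ℤ) :
    (∃ c : Fin 8 → ℕ, ((∑ j, c j * gen n j : ℕ) : ℤ) = z) ↔ InG n z := by
  constructor
  · rintro ⟨c, rfl⟩
    rw [wt_cast]
    exact ⟨_, _, by omega, ⟨_, _, _, by omega, by omega, by omega, by omega, by omega, rfl⟩, rfl⟩
  · rintro ⟨j, s, h0, ⟨k, i, l, h1, h2, h3, h4, h5, rfl⟩, rfl⟩
    lift j to ℕ using h0
    lift i to ℕ using h2
    lift l to ℕ using h4
    lift k to ℕ using (by omega)
    obtain ⟨γ, e1, e2, e3, e4⟩ := exists_fact k i l j (by omega) (by omega) (by omega)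
    refine ⟨γ, ?_⟩
    rw [wt_cast, ← e1, ← e2, ← e3, ← e4]; push_cast; ring

/-- A symmetric minimal system of generators with `N` certified relations. -/
structure Good (e N : ℕ) (a : Fin e → ℕ) : Prop where
  mono : StrictMono a
  minimal : ∀ i : Fin e, ∀ c : Fin e → ℕ, c i = 0 → ∑ j, c j * a j ≠ a i
  sym : ∃ F : ℤ, ∀ z : ℤ, (∃ c : Fin e → ℕ, ((∑ j, c j * a j : ℕ) : ℤ) = z) ↔
    ¬ ∃ c : Fin e → ℕ, ((∑ j, c j * a j : ℕ) : ℤ) = F - z
  cert : ∃ (D : Fin e → Prop) (deg : Fin N → ℕ) (α β : Fin N → Fin e → ℕ),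
    Function.Injective deg ∧ (∀ l, ∑ j, α l j * a j = deg l) ∧ (∀ l, ∑ j, β l j * a j = deg l) ∧
    (∀ l j, ¬ D j → α l j = 0) ∧ (∀ l, ¬ ∀ j, ¬ D j → β l j = 0) ∧
    ∀ l (γ : Fin e → ℕ), ∑ j, γ j * a j = deg l → (∀ j, ¬ D j → γ j = 0) ∨ (∀ j, D j → γ j = 0)

lemma gen_mono {n : ℕ} (hn : 2 ≤ n) : StrictMono (gen n) := by
  rw [Fin.strictMono_iff_lt_succ]
  intro i
  have : n + 1 < n ^ 2 := by nlinarith
  fin_cases i <;> simp [gen] <;> omega

lemma wt_single {e : ℕ} (a : Fin e → ℕ) (i : Fin e) :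
    ∑ x, (Pi.single i 1 : Fin e → ℕ) x * a x = a i := by
  simp [Pi.single_apply]

lemma gen_big {n : ℕ} (hn : 2 ≤ n) (i : Fin 8) (c : Fin 8 → ℕ)
    (h : ∑ j, c j * gen n j = gen n i) :
    c 0 + c 1 + c 2 + c 3 + c 4 + c 5 + c 6 + c 7 ≤ 1 := by
  by_contra hk
  have hn' : (2:ℤ) ≤ n := by exact_mod_cast hn
  have h1 := wt_cast n c
  have h2 := wt_cast n (Pi.single i 1)
  rw [wt_single, ← h, h1] at h2
  obtain ⟨t, ht1, ht2⟩ := decomp_eq hn' h2.symm
  have hs : InS n ((c 0 : ℤ) + c 1 + c 2 + c 3 + c 4 + c 5 + c 6 + c 7) _ :=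
    ⟨_, (c 1 : ℤ) + c 4 + c 5 + c 7, (c 3 : ℤ) + c 5 + c 6 + c 7, le_rfl, by omega, by omega,
      by omega, by omega, rfl⟩
  have hl := hs.lower hn'
  have hk' : (2:ℤ) ≤ (c 0 : ℤ) + c 1 + c 2 + c 3 + c 4 + c 5 + c 6 + c 7 := by omega
  have h5 := mul_le_mul_of_nonneg_right hk' (by positivity : 0 ≤ 2*(n:ℤ)^2)
  have ht : 0 ≤ t := by
    by_contra hc
    have : t * n ≤ -n := by nlinarith
    clear ht2 h1 h2 hs hl h5 h
    fin_cases i <;> simp at ht1 <;> omega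
  have h6 : 0 ≤ t * ((n:ℤ)^2+1) := by positivity
  have h7 : 2 * (n:ℤ) + 1 < 2 * (n:ℤ)^2 := by nlinarith
  clear h1 h2 hs h ht1
  generalize ((c 0 : ℤ) + c 1 + c 2 + c 3 + c 4 + c 5 + c 6 + c 7) * (2*(n:ℤ)^2)
    + ((c 1 : ℤ) + c 4 + c 5 + c 7) * n + ((c 3 : ℤ) + c 5 + c 6 + c 7) * (n+1) = s at *
  fin_cases i <;> simp at ht2 <;> linarith

lemma gen_min {n : ℕ} (hn : 2 ≤ n) (i : Fin 8) (c : Fin 8 → ℕ) (hc : c i = 0) :
    ∑ j, c j * gen n j ≠ gen n i := by
  intro h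
  have hpos : 0 < gen n i := by
    have := (gen_mono hn).monotone (Fin.zero_le i)
    have h4 : 0 < gen n 0 := by show 0 < 2*n^3; positivity
    omega
  have hk1 : c 0 + c 1 + c 2 + c 3 + c 4 + c 5 + c 6 + c 7 = 1 := by
    rcases Nat.lt_trichotomy (c 0 + c 1 + c 2 + c 3 + c 4 + c 5 + c 6 + c 7) 1 with hk | hk | hk
    · exfalso
      rw [Fin.sum_univ_eight, show c 0 = 0 by omega, show c 1 = 0 by omega, show c 2 = 0 by omega,
        show c 3 = 0 by omega, show c 4 = 0 by omega, show c 5 = 0 by omega,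
        show c 6 = 0 by omega, show c 7 = 0 by omega] at h
      omega
    · exact hk
    · have := gen_big hn i c h
      omega
  obtain ⟨x, hx⟩ : ∃ x, c x ≠ 0 := by
    by_contra hh
    push Not at hh
    simp [hh] at hk1
  have hcx : c = Pi.single x 1 := by
    have hsum : ∑ y, c y = 1 := by rw [Fin.sum_univ_eight]; exact hk1
    funext y
    by_cases hy : y = x
    · subst hy
      have := Finset.single_le_sum (f := c) (fun _ _ => Nat.zero_le _) (Finset.mem_univ y)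
      rw [Pi.single_eq_same]; omega
    · have := Finset.add_le_sum (f := c) (fun _ _ => Nat.zero_le _) (Finset.mem_univ y)
        (Finset.mem_univ x) hy
      rw [Pi.single_eq_of_ne hy]; omega
  have h4 := wt_single (gen n) x
  rw [hcx, h4] at h
  have := (gen_mono hn).injective h
  subst this
  exact hx hc

lemma good8 {n : ℕ} (hn : 2 ≤ n) : Good 8 n (gen n) where
  mono := gen_mono hn
  minimal := gen_min hn
  sym := ⟨PP n, fun z => by
    rw [mem_iff, mem_iff]; exact symm (by exact_mod_cast hn) z⟩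
  cert := by
    have hn' : (2:ℤ) ≤ n := by exact_mod_cast hn
    have hd : ∀ l : Fin n, (((n - l) * gen n 2 + l * gen n 6 : ℕ) : ℤ) =
        n * (n * (2*(n:ℤ)^2) + l * (n+1)) + n * ((n:ℤ)^2+1) := by
      intro l
      push_cast [Nat.cast_sub l.2.le]; simp [gen]; ring
    refine ⟨fun j => j = 2 ∨ j = 4 ∨ j = 6 ∨ j = 7, fun l => (n - l) * gen n 2 + l * gen n 6,
      fun l => ![0, 0, n - l, 0, 0, 0, l, 0], fun l => ![0, n - 1 - l, 0, 1, 0, l, 0, 0],
      ?_, ?_, ?_, ?_, ?_, ?_⟩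
    · intro l l' h
      have h1 : (((n - l) * gen n 2 + l * gen n 6 : ℕ) : ℤ) =
        (((n - l') * gen n 2 + l' * gen n 6 : ℕ) : ℤ) := by exact_mod_cast h
      rw [hd, hd] at h1
      have h2 : (n:ℤ) * (n+1) ≠ 0 := by positivity
      have : ((l:ℕ):ℤ) = (l':ℕ) := mul_right_cancel₀ h2 (by linarith)
      exact Fin.ext (by exact_mod_cast this)
    · intro l; simp [Fin.sum_univ_eight]
    · intro l
      have h1 := hd l
      have h2 := wt_cast n ![0, n - 1 - l, 0, 1, 0, l, 0, 0]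
      have h3 : ((n - 1 - l : ℕ) : ℤ) = n - 1 - l := by have := l.2; omega
      have : ((∑ x, ![0, n - 1 - l, 0, 1, 0, l, 0, 0] x * gen n x : ℕ) : ℤ) =
          (((n - l) * gen n 2 + l * gen n 6 : ℕ) : ℤ) := by
        rw [h1, h2]; simp [h3]; ring
      exact_mod_cast this
    · intro l j hj
      fin_cases j <;> simp at hj ⊢
    · intro l h
      have := h 3 (by decide)
      simp at this
    · intro l γ h
      have h1 : ((∑ j, γ j * gen n j : ℕ) : ℤ) =
        (((n - l) * gen n 2 + l * gen n 6 : ℕ) : ℤ) := by exact_mod_cast h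
      rw [hd, wt_cast] at h1
      obtain ⟨t, ht1, ht2⟩ := decomp_eq hn' h1
      have hs : InS n ((γ 0 : ℤ) + γ 1 + γ 2 + γ 3 + γ 4 + γ 5 + γ 6 + γ 7) _ :=
        ⟨_, (γ 1 : ℤ) + γ 4 + γ 5 + γ 7, (γ 3 : ℤ) + γ 5 + γ 6 + γ 7, le_rfl, by omega, by omega,
          by omega, by omega, rfl⟩
      have h4 := hs.lower hn'
      rw [ht2] at h4
      have hl' : ((l:ℕ):ℤ) + 1 ≤ n := by have := l.2; omega
      have h5 : ((l:ℕ):ℤ) * (n+1) < 2*(n:ℤ)^2 := by nlinarith
      generalize hk : (γ 0 : ℤ) + γ 1 + γ 2 + γ 3 + γ 4 + γ 5 + γ 6 + γ 7 = k at *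
      rcases lt_trichotomy t 0 with ht | ht | ht
      · exfalso
        have h6 : t * ((n:ℤ)^2+1) ≤ 0 := by nlinarith [sq_nonneg (n:ℤ)]
        have h7 : t * n ≤ -n := by nlinarith
        have h8 : (n:ℤ) + 1 ≤ k := by omega
        have := mul_le_mul_of_nonneg_right h8 (by positivity : 0 ≤ 2*(n:ℤ)^2)
        linarith
      · subst ht
        have h6 : k * (2*(n:ℤ)^2) < (n + 1) * (2*(n:ℤ)^2) := by linarith
        have h7 := lt_of_mul_lt_mul_right h6 (by positivity)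
        left
        intro j hj
        fin_cases j <;> simp at hj ⊢ <;> omega
      · have : (n : ℤ) ≤ t * n := by nlinarith
        right
        intro j hj
        fin_cases j <;> simp at hj ⊢ <;> omega

end Pool.Agent.H79.Bres
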