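import Pool.Agent.H79.Bres1

set_option autoImplicit false

namespace Pool.Agent.H79.Bres

open MvPolynomial

lemma Good.big {e N : ℕ} {a : Fin e → ℕ} (h : Good e N a) :
    ∃ M : ℕ, ∀ z : ℕ, M ≤ z → ∃ c : Fin e → ℕ, ∑ j, c j * a j = z := by
  obtain ⟨F, hF⟩ := h.sym
  refine ⟨F.toNat + 1, fun z hz => ?_⟩
  obtain ⟨c, hc⟩ := (hF z).2 (by
    rintro ⟨c, hc⟩
    have : (0:ℤ) ≤ ((∑ j, c j * a j : ℕ) : ℤ) := Int.natCast_nonneg _
    omega)
  exact ⟨c, by exact_mod_cast hc⟩

lemma Good.gcd {e N : ℕ} {a : Fin e → ℕ} (h : Good e N a) : Finset.univ.gcd a = 1 := by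
  obtain ⟨M, hM⟩ := h.big
  have key : ∀ z, M ≤ z → Finset.univ.gcd a ∣ z := by
    intro z hz
    obtain ⟨c, rfl⟩ := hM z hz
    exact Finset.dvd_sum fun j _ => Dvd.dvd.mul_left (Finset.gcd_dvd (Finset.mem_univ j)) _
  exact Nat.dvd_one.1 ((Nat.dvd_add_right (key M le_rfl)).1 (key (M+1) (by omega)))

lemma sum_snoc {e : ℕ} (a : Fin e → ℕ) (b : ℕ) (c : Fin (e+1) → ℕ) :
    ∑ j, c j * (Fin.snoc (fun i => 2 * a i) b : Fin (e+1) → ℕ) j =
      2 * ∑ j : Fin e, c j.castSucc * a j + c (Fin.last e) * b := by
  rw [Fin.sum_univ_castSucc]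
  simp only [Fin.snoc_castSucc, Fin.snoc_last, Finset.mul_sum]
  congr 1
  exact Finset.sum_congr rfl fun j _ => by ring

lemma Good.glue {e N : ℕ} {a : Fin e → ℕ} (h : Good e N a) : ∃ a', Good (e+1) N a' := by
  obtain ⟨M, hM⟩ := h.big
  obtain ⟨F, hF⟩ := h.sym
  obtain ⟨D, deg, α, β, h1, h2, h3, h4, h5, h6⟩ := h.cert
  obtain ⟨b, hb1, hb2, hb3, hb4⟩ : ∃ b : ℕ, b % 2 = 1 ∧ M ≤ b ∧ (∀ i, 2 * a i < b) ∧
      ∀ l, 2 * deg l < b := by
    refine ⟨2 * (M + ∑ i, a i + ∑ l, deg l) + 1, by omega, by omega, fun i => ?_, fun l => ?_⟩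
    · have := Finset.single_le_sum (f := a) (fun _ _ => Nat.zero_le _) (Finset.mem_univ i)
      omega
    · have := Finset.single_le_sum (f := deg) (fun _ _ => Nat.zero_le _) (Finset.mem_univ l)
      omega
  obtain ⟨cb, hcb⟩ := hM b hb2
  have small : ∀ (c : Fin (e+1) → ℕ) (y : ℕ), 2 * y < b →
      ∑ j, c j * (Fin.snoc (fun i => 2 * a i) b : Fin (e+1) → ℕ) j = 2 * y →
      c (Fin.last e) = 0 ∧ ∑ j : Fin e, c j.castSucc * a j = y := by
    intro c y hy hc
    rw [sum_snoc] at hc
    have : c (Fin.last e) = 0 := by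
      by_contra h0
      have : b ≤ c (Fin.last e) * b := Nat.le_mul_of_pos_left _ (by omega)
      omega
    rw [this] at hc
    exact ⟨this, by omega⟩
  have memE : ∀ (r : ℕ) (y : ℤ), r ≤ 1 → ((∃ c : Fin (e+1) → ℕ,
      ((∑ j, c j * (Fin.snoc (fun i => 2 * a i) b : Fin (e+1) → ℕ) j : ℕ) : ℤ) = 2 * y + r * b) ↔
      ∃ c : Fin e → ℕ, ((∑ j, c j * a j : ℕ) : ℤ) = y) := by
    intro r y hr
    constructor
    · rintro ⟨c, hc⟩
      rw [sum_snoc] at hc
      obtain ⟨q, hq⟩ : ∃ q, c (Fin.last e) = 2 * q + r := by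
        refine ⟨c (Fin.last e) / 2, ?_⟩
        obtain ⟨b', rfl⟩ : ∃ b', b = 2 * b' + 1 := ⟨b / 2, by omega⟩
        have e1 : c (Fin.last e) * (2 * b' + 1) = 2 * (c (Fin.last e) * b') + c (Fin.last e) := by
          ring
        have e2 : (r:ℤ) * ((2 * b' + 1 : ℕ) : ℤ) = 2 * (r * b') + r := by push_cast; ring
        rw [e1, e2] at hc
        omega
      refine ⟨fun j => c j.castSucc + q * cb j, ?_⟩
      have e1 : ∑ j, (c j.castSucc + q * cb j) * a j = ∑ j : Fin e, c j.castSucc * a j + q * b := by
        rw [← hcb, Finset.mul_sum, ← Finset.sum_add_distrib]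
        exact Finset.sum_congr rfl fun j _ => by ring
      rw [e1]
      rw [hq] at hc
      push_cast at hc ⊢
      linarith
    · rintro ⟨c, rfl⟩
      refine ⟨Fin.snoc c r, ?_⟩
      rw [sum_snoc]
      simp only [Fin.snoc_castSucc, Fin.snoc_last]
      push_cast; ring
  refine ⟨Fin.snoc (fun i => 2 * a i) b, ?_, ?_, ⟨2 * F + b, fun z => ?_⟩,
    ⟨Fin.snoc D False, fun l => 2 * deg l, fun l => Fin.snoc (α l) 0, fun l => Fin.snoc (β l) 0,
      ?_, ?_, ?_, ?_, ?_, ?_⟩⟩
  · intro i j hij
    induction j using Fin.lastCases with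
    | last =>
      induction i using Fin.lastCases with
      | last => exact absurd hij (lt_irrefl _)
      | cast i => simpa using hb3 i
    | cast j =>
      induction i using Fin.lastCases with
      | last => exact absurd hij (not_lt.2 (Fin.le_last _))
      | cast i =>
        have := h.mono (Fin.castSucc_lt_castSucc_iff.1 hij)
        simp only [Fin.snoc_castSucc]; omega
  · intro i c hc hs
    induction i using Fin.lastCases with
    | last =>
      rw [sum_snoc, hc, Fin.snoc_last] at hs
      omega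
    | cast i =>
      rw [Fin.snoc_castSucc] at hs
      exact h.minimal i (fun j => c j.castSucc) hc (small c _ (hb3 i) hs).2
  · rcases Int.emod_two_eq_zero_or_one z with hz | hz
    · have e1 : z = 2 * (z / 2) + ((0:ℕ):ℤ) * b := by omega
      have e2 : 2 * F + b - z = 2 * (F - z / 2) + ((1:ℕ):ℤ) * b := by omega
      rw [e2, memE 1 _ le_rfl, ← hF, ← memE 0 _ (by omega), ← e1]
    · have e1 : z = 2 * ((z - b) / 2) + ((1:ℕ):ℤ) * b := by omega
      have e2 : 2 * F + b - z = 2 * (F - (z - b) / 2) + ((0:ℕ):ℤ) * b := by omega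
      rw [e2, memE 0 _ (by omega), ← hF, ← memE 1 _ le_rfl, ← e1]
  · intro l l' hl
    apply h1
    have : 2 * deg l = 2 * deg l' := hl
    omega
  · intro l
    rw [sum_snoc]; simp [h2]
  · intro l
    rw [sum_snoc]; simp [h3]
  · intro l j hj
    induction j using Fin.lastCases with
    | last => simp
    | cast j => simp only [Fin.snoc_castSucc] at hj ⊢; exact h4 l j hj
  · intro l hh
    apply h5 l
    intro j hj
    have := hh j.castSucc (by simpa using hj)
    simpa using this
  · intro l γ hγ
    obtain ⟨g1, g2⟩ := small γ _ (hb4 l) hγ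
    rcases h6 l _ g2 with g | g
    · left
      intro j hj
      induction j using Fin.lastCases with
      | last => exact g1
      | cast j => exact g j (by simpa using hj)
    · right
      intro j hj
      induction j using Fin.lastCases with
      | last => exact g1
      | cast j => exact g j (by simpa using hj)

lemma good_all (r N : ℕ) (hN : 2 ≤ N) : ∃ a, Good (8 + r) N a := by
  induction r with
  | zero => exact ⟨_, good8 hN⟩
  | succ r ih => obtain ⟨a, ha⟩ := ih; exact ha.glue

section poly
variable {k : Type*} [Field k] {e : ℕ}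

open Classical in
noncomputable def th (k : Type*) [Field k] {e : ℕ} (a : Fin e → ℕ) (D : Fin e → Prop) :
    MvPolynomial (Fin e) k →ₐ[k] Polynomial k :=
  aeval (fun i => if D i then (Polynomial.X : Polynomial k) ^ a i else 0)

lemma ps_mon (a : Fin e → ℕ) (γ : Fin e →₀ ℕ) (r : k) :
    aeval (fun i => (Polynomial.X : Polynomial k) ^ a i) (monomial γ r) =
      Polynomial.C r * Polynomial.X ^ (∑ j, γ j * a j) := by
  rw [aeval_monomial, Finsupp.prod_fintype _ _ (by simp)]
  simp only [← pow_mul, Finset.prod_pow_eq_pow_sum, mul_comm (a _)]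
  rfl

open Classical in
lemma th_mon (a : Fin e → ℕ) (D : Fin e → Prop) (γ : Fin e →₀ ℕ) (r : k) :
    th k a D (monomial γ r) = if ∀ j, ¬ D j → γ j = 0 then
      Polynomial.C r * Polynomial.X ^ (∑ j, γ j * a j) else 0 := by
  unfold th
  split_ifs with h
  · rw [← ps_mon, aeval_monomial, aeval_monomial, Finsupp.prod_fintype _ _ (by simp),
      Finsupp.prod_fintype _ _ (by simp)]
    congr 1
    refine Finset.prod_congr rfl fun j _ => ?_
    by_cases hj : D j
    · rw [if_pos hj]
    · rw [h j hj, pow_zero, pow_zero]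
  · push Not at h
    obtain ⟨j, hj, hj'⟩ := h
    rw [aeval_monomial, Finsupp.prod_fintype _ _ (by simp),
      Finset.prod_eq_zero (Finset.mem_univ j), mul_zero]
    rw [if_neg hj, zero_pow hj']

lemma th_coeff (a : Fin e → ℕ) (D : Fin e → Prop) (q : ℕ)
    (hq : ∀ γ : Fin e →₀ ℕ, ∑ j, γ j * a j = q → ∀ j, ¬ D j → γ j = 0)
    (h : MvPolynomial (Fin e) k) :
    (th k a D h).coeff q = (aeval (fun i => (Polynomial.X : Polynomial k) ^ a i) h).coeff q := by
  induction h using MvPolynomial.induction_on' with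
  | monomial γ r =>
    rw [th_mon, ps_mon]
    split_ifs with hγ
    · rfl
    · rw [Polynomial.coeff_zero, Polynomial.coeff_C_mul, Polynomial.coeff_X_pow, if_neg, mul_zero]
      intro h2
      exact hγ (hq γ h2.symm)
  | add p q hp hq => simp only [map_add, Polynomial.coeff_add, hp, hq]

lemma th_mul (a : Fin e → ℕ) (D : Fin e → Prop) (x : ℕ)
    (hx : ∀ γ : Fin e → ℕ, ∑ j, γ j * a j = x → (∀ j, ¬ D j → γ j = 0) ∨ (∀ j, D j → γ j = 0))
    (c h : MvPolynomial (Fin e) k)
    (hh : aeval (fun i => (Polynomial.X : Polynomial k) ^ a i) h = 0) :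
    (th k a D (c * h)).coeff x = constantCoeff c * (th k a D h).coeff x := by
  induction c using MvPolynomial.induction_on' with
  | monomial β r =>
    rw [map_mul, th_mon]
    by_cases hβ : β = 0
    · subst hβ
      simp
    · rw [constantCoeff_monomial, if_neg hβ, zero_mul]
      split_ifs with hD
      · rw [mul_assoc, Polynomial.coeff_C_mul, Polynomial.coeff_X_pow_mul']
        split_ifs with hle
        · rw [th_coeff, hh, Polynomial.coeff_zero, mul_zero]
          intro γ hγ j hj
          have h1 : ∑ j, (β j + γ j) * a j = x := by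
            simp only [add_mul, Finset.sum_add_distrib]; omega
          rcases hx _ h1 with h2 | h2
          · have := h2 j hj
            omega
          · exfalso
            apply hβ
            ext i
            by_cases hi : D i
            · have := h2 i hi
              simp; omega
            · simpa using hD i hi
        · rw [mul_zero]
      · simp
  | add p q hp hq => simp only [add_mul, map_add, Polynomial.coeff_add, hp, hq]

lemma Good.card_ge {N : ℕ} {a : Fin e → ℕ} (h : Good e N a) (s : Finset (MvPolynomial (Fin e) k))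
    (hs : Ideal.span (s : Set (MvPolynomial (Fin e) k)) =
      RingHom.ker (aeval (R := k) (fun i => (Polynomial.X : Polynomial k) ^ a i))) :
    N ≤ s.card := by
  classical
  obtain ⟨D, deg, α, β, h1, h2, h3, h4, h5, h6⟩ := h.cert
  let Φ : MvPolynomial (Fin e) k → (Fin N → k) := fun f l => (th k a D f).coeff (deg l)
  have key : ∀ f ∈ Ideal.span (s : Set (MvPolynomial (Fin e) k)),
      Φ f ∈ Submodule.span k ((s.image Φ : Finset (Fin N → k)) : Set (Fin N → k)) := by
    intro f hf
    induction hf using Submodule.span_induction with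
    | mem x hx => exact Submodule.subset_span (by simpa using ⟨x, hx, rfl⟩)
    | zero =>
      have : Φ 0 = 0 := by funext l; simp [Φ]
      rw [this]; exact zero_mem _
    | add x y _ _ hx hy =>
      have : Φ (x + y) = Φ x + Φ y := by funext l; simp [Φ]
      rw [this]; exact add_mem hx hy
    | smul c x hx ih =>
      have hx' : x ∈ RingHom.ker (aeval (R := k) (fun i => (Polynomial.X : Polynomial k) ^ a i)) :=
        hs ▸ hx
      have : Φ (c • x) = constantCoeff c • Φ x := by
        funext l
        exact th_mul a D (deg l) (h6 l) c x hx'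
      rw [this]; exact Submodule.smul_mem _ _ ih
  have htop : Submodule.span k ((s.image Φ : Finset (Fin N → k)) : Set (Fin N → k)) = ⊤ := by
    rw [eq_top_iff, ← (Pi.basisFun k (Fin N)).span_eq, Submodule.span_le]
    rintro _ ⟨l, rfl⟩
    have hm : monomial (Finsupp.equivFunOnFinite.symm (α l)) (1:k) -
        monomial (Finsupp.equivFunOnFinite.symm (β l)) (1:k) ∈
        Ideal.span (s : Set (MvPolynomial (Fin e) k)) := by
      rw [hs, RingHom.mem_ker, map_sub, ps_mon, ps_mon]
      simp [h2, h3]
    have := key _ hm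
    refine (?_ : Pi.basisFun k (Fin N) l = Φ _) ▸ this
    funext l'
    simp only [Φ, map_sub, th_mon, Finsupp.equivFunOnFinite_symm_apply_apply]
    rw [if_pos (h4 l), if_neg (h5 l), h2]
    simp [Pi.single_apply, Polynomial.coeff_X_pow, h1.eq_iff]
  have h7 := finrank_span_finset_le_card (R := k) (s.image Φ)
  unfold Set.finrank at h7
  rw [htop, finrank_top, Module.finrank_fin_fun] at h7
  exact h7.trans Finset.card_image_le

end poly

lemma Good.pres_ge {e N : ℕ} {a : Fin e → ℕ} (h : Good e N a)
    (ρ : Finset ((Fin e → ℕ) × (Fin e → ℕ)))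
    (hρ : ∀ u v : Fin e → ℕ, addConGen (fun u v : Fin e → ℕ => (u, v) ∈ ρ) u v ↔
      ∑ i, u i * a i = ∑ i, v i * a i) : N ≤ ρ.card := by
  classical
  obtain ⟨D, deg, α, β, h1, h2, h3, h4, h5, h6⟩ := h.cert
  have hadd : ∀ u v : Fin e → ℕ, ∑ i, (u + v) i * a i = ∑ i, u i * a i + ∑ i, v i * a i := by
    intro u v
    simp only [Pi.add_apply, add_mul, Finset.sum_add_distrib]
  have key : ∀ l, ∃ p ∈ ρ, ∑ i, p.1 i * a i = deg l := by
    intro l
    by_contra hc
    push Not at hc
    let c : AddCon (Fin e → ℕ) :=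
      { r := fun u v => ∑ i, u i * a i = ∑ i, v i * a i ∧ ∀ w : Fin e → ℕ,
          ∑ i, (u + w) i * a i = deg l →
            ((∀ j, ¬ D j → (u + w) j = 0) ↔ (∀ j, ¬ D j → (v + w) j = 0))
        iseqv := ⟨fun _ => ⟨rfl, fun _ _ => Iff.rfl⟩,
          fun {u v} huv => ⟨huv.1.symm, fun w hw =>
            (huv.2 w (by rw [hadd] at hw ⊢; rw [huv.1]; exact hw)).symm⟩,
          fun {u v x} huv hvx => ⟨huv.1.trans hvx.1, fun w hw =>
            (huv.2 w hw).trans (hvx.2 w (by rw [hadd] at hw ⊢; rw [← huv.1]; exact hw))⟩⟩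
        add' := by
          rintro u v x y ⟨e1, e2⟩ ⟨e3, e4⟩
          refine ⟨by rw [hadd, hadd, e1, e3], fun w hw => ?_⟩
          have a1 := e2 (x + w) (by rw [← add_assoc]; exact hw)
          have a2 := e4 (v + w) (by
            rw [hadd, hadd] at hw ⊢; omega)
          rw [add_assoc, a1, show v + (x + w) = x + (v + w) by ring, a2,
            show y + (v + w) = v + y + w by ring] }
    have hle : addConGen (fun u v : Fin e → ℕ => (u, v) ∈ ρ) ≤ c := by
      apply AddCon.addConGen_le.2
      intro u v huv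
      have e1 := (hρ u v).1 (AddConGen.Rel.of _ _ huv)
      refine ⟨e1, fun w hw => ?_⟩
      have hw' : ∑ i, (v + w) i * a i = deg l := by rw [hadd] at hw ⊢; omega
      obtain ⟨i, hi⟩ : ∃ i, w i ≠ 0 := by
        by_contra h0
        push Not at h0
        have : w = 0 := funext h0
        subst this
        exact hc (u, v) huv (by simpa using hw)
      by_cases hD : D i
      · have b1 := (h6 l _ hw).resolve_right (fun g => by have := g i hD; simp at this; omega)
        have b2 := (h6 l _ hw').resolve_right (fun g => by have := g i hD; simp at this; omega)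
        exact ⟨fun _ => b2, fun _ => b1⟩
      · constructor
        · intro g; have := g i hD; simp at this; omega
        · intro g; have := g i hD; simp at this; omega
    have := (hle ((hρ (α l) (β l)).2 (by rw [h2, h3]))).2 0 (by simpa using h2 l)
    simp only [add_zero] at this
    exact h5 l (this.1 (h4 l))
  choose p hp hp' using key
  have : (Finset.univ : Finset (Fin N)).card ≤ ρ.card :=
    Finset.card_le_card_of_injOn p (fun l _ => hp l) (fun l _ l' _ hl => h1 (by
      rw [← hp', ← hp', hl]))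
  simpa using this

end Pool.Agent.H79.Bres
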