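import Mathlib

set_option autoImplicit false

namespace Pool.Agent.H79.CBCube
open MvPolynomial Finset Module

section general
variable {σ K : Type} [Field K] [Finite σ]

instance fd (t : ℕ) : FiniteDimensional K (homogeneousSubmodule σ K t) :=
  Module.Finite.iff_fg.2 (homogeneousSubmodule_fg σ K t)

omit [Finite σ] in
theorem eval_smul_hom {f : MvPolynomial σ K} {d : ℕ} (hf : f.IsHomogeneous d) (t : K)
    (x : σ → K) : eval (t • x) f = t ^ d * eval x f := by
  rw [eval_eq, eval_eq, Finset.mul_sum]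
  refine Finset.sum_congr rfl fun m hm => ?_
  rw [hf.degree_eq_sum_deg_support hm, ← Finset.prod_pow_eq_pow_sum, mul_left_comm,
    ← Finset.prod_mul_distrib]
  simp [mul_pow]

theorem bezout {ι : Type} [Fintype ι] (v : ι → σ → K) (I : Ideal (MvPolynomial σ K))
    (Q : MvPolynomial σ K) (a t : ℕ) (hQ : Q.IsHomogeneous a) (hQ0 : Q ≠ 0)
    (hnzd : ∀ f, Q * f ∈ I → f ∈ I) (hI : ∀ i, ∀ f ∈ I, f.IsHomogeneous (a + t) → eval (v i) f = 0)
    (hQv : ∀ i, eval (v i) Q = 0)
    (hsurj : ∀ y : ι → K, ∃ f : MvPolynomial σ K, f.IsHomogeneous (a + t) ∧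
      ∀ i, eval (v i) f = y i) :
    Fintype.card ι + finrank K ↥(I.restrictScalars K ⊓ homogeneousSubmodule σ K (a + t))
      + finrank K (homogeneousSubmodule σ K t) ≤ finrank K (homogeneousSubmodule σ K (a + t))
      + finrank K ↥(I.restrictScalars K ⊓ homogeneousSubmodule σ K t) := by
  let ev : MvPolynomial σ K →ₗ[K] (ι → K) :=
    LinearMap.pi fun i => (aeval (R := K) (v i)).toLinearMap
  have hev : ∀ f i, ev f i = eval (v i) f := fun f i => by
    simp [ev, aeval_eq_eval]
  let mQ : MvPolynomial σ K →ₗ[K] MvPolynomial σ K := LinearMap.mulLeft K Q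
  have hinj : Function.Injective mQ := fun f g h => mul_left_cancel₀ hQ0 h
  set W := homogeneousSubmodule σ K (a + t) with hW
  set A := I.restrictScalars K ⊓ W with hA
  set B := (homogeneousSubmodule σ K t).map mQ with hB
  have hBW : B ≤ W := by
    rintro _ ⟨f, hf, rfl⟩
    exact hQ.mul hf
  have : FiniteDimensional K A := Submodule.finiteDimensional_of_le inf_le_right
  have : FiniteDimensional K B := Submodule.finiteDimensional_of_le hBW
  have hAB : A ⊓ B = (I.restrictScalars K ⊓ homogeneousSubmodule σ K t).map mQ := by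
    apply le_antisymm
    · rintro _ ⟨h1, f, hf, rfl⟩
      exact ⟨f, ⟨hnzd f h1.1, hf⟩, rfl⟩
    · rintro _ ⟨f, hf, rfl⟩
      exact ⟨⟨I.mul_mem_left Q hf.1, hQ.mul hf.2⟩, f, hf.2, rfl⟩
  have h1 := Submodule.finrank_sup_add_finrank_inf_eq A B
  have h2 : finrank K B = finrank K (homogeneousSubmodule σ K t) :=
    (Submodule.equivMapOfInjective mQ hinj _).finrank_eq.symm
  have h3 : finrank K ↥(A ⊓ B) =
      finrank K ↥(I.restrictScalars K ⊓ homogeneousSubmodule σ K t) := by
    rw [hAB]; exact (Submodule.equivMapOfInjective mQ hinj _).finrank_eq.symm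
  have h4 := LinearMap.finrank_range_add_finrank_ker (ev.domRestrict W)
  have h5 : LinearMap.range (ev.domRestrict W) = ⊤ := by
    rw [LinearMap.range_eq_top]
    intro y
    obtain ⟨f, hf, hy⟩ := hsurj y
    exact ⟨⟨f, hf⟩, funext fun i => by simp [hev, hy]⟩
  rw [h5, finrank_top, Module.finrank_fintype_fun_eq_card] at h4
  have h6 : finrank K ↥(A ⊔ B) ≤ finrank K (LinearMap.ker (ev.domRestrict W)) := by
    rw [(Submodule.equivMapOfInjective W.subtype W.injective_subtype
      (LinearMap.ker (ev.domRestrict W))).finrank_eq]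
    have : FiniteDimensional K ((LinearMap.ker (ev.domRestrict W)).map W.subtype) :=
      Submodule.finiteDimensional_of_le (Submodule.map_subtype_le _ _)
    apply Submodule.finrank_mono
    refine sup_le ?_ ?_
    · intro f hf
      exact ⟨⟨f, hf.2⟩, funext fun i => by simpa [hev] using hI i f hf.1 hf.2, rfl⟩
    · intro f hf
      refine ⟨⟨f, hBW hf⟩, funext fun i => ?_, rfl⟩
      obtain ⟨g, -, rfl⟩ := hf
      simp [hev, mQ, hQv]
  omega

theorem dim_le_of_integral {R A : Type} [CommRing R] [CommRing A] [Algebra R A]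
    [Algebra.IsIntegral R A] : ringKrullDim A ≤ ringKrullDim R := by
  refine Order.krullDim_le_of_strictMono (PrimeSpectrum.comap (algebraMap R A)) ?_
  intro p q h
  exact Ideal.IsIntegral.comap_lt_comap (R := R) (I := p.asIdeal) (J := q.asIdeal) h

end general

abbrev S : Type := MvPolynomial (Fin (4 + 1)) ℂ

noncomputable def q (i : Fin 4) : S := X i.succ ^ 2 - X 0 ^ 2

theorem dim_le (P : Ideal S) (h : ∀ i, q i ∈ P) : ringKrullDim (S ⧸ P) ≤ 1 := by
  letI : Algebra (Polynomial ℂ) (S ⧸ P) :=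
    (Polynomial.aeval (R := ℂ) (Ideal.Quotient.mk P (X 0))).toRingHom.toAlgebra
  have hX : algebraMap (Polynomial ℂ) (S ⧸ P) Polynomial.X = Ideal.Quotient.mk P (X 0) := by
    simp [RingHom.algebraMap_toAlgebra]
  have : Algebra.IsIntegral (Polynomial ℂ) (S ⧸ P) := ⟨fun x => by
    obtain ⟨f, rfl⟩ := Ideal.Quotient.mk_surjective x
    induction f using MvPolynomial.induction_on with
    | C c =>
      have : Ideal.Quotient.mk P (C c) = algebraMap (Polynomial ℂ) (S ⧸ P) (Polynomial.C c) := by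
        simp [RingHom.algebraMap_toAlgebra]; rfl
      rw [this]; exact isIntegral_algebraMap
    | add f g hf hg => rw [map_add]; exact hf.add hg
    | mul_X f i hf =>
      rw [map_mul]
      refine hf.mul ?_
      refine Fin.cases ?_ (fun i => ?_) i
      · rw [← hX]; exact isIntegral_algebraMap
      · refine IsIntegral.of_pow (n := 2) (by norm_num) ?_
        have : Ideal.Quotient.mk P (X i.succ) ^ 2 = Ideal.Quotient.mk P (X 0) ^ 2 := by
          rw [← map_pow, ← map_pow, Ideal.Quotient.eq]; exact h i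
        rw [this, ← hX]; exact isIntegral_algebraMap.pow 2⟩
  refine (dim_le_of_integral (R := Polynomial ℂ)).trans ?_
  rw [Polynomial.ringKrullDim_of_isNoetherianRing, ringKrullDim_eq_zero_of_field]
  rfl

def sg (b : Bool) : ℂ := if b then 1 else -1

def v (ε : Fin 4 → Bool) : Fin (4 + 1) → ℂ := Fin.cons 1 fun i => sg (ε i)

theorem v_ne (ε : Fin 4 → Bool) : v ε ≠ 0 := fun h => by
  have := congrFun h 0
  simp [v] at this

theorem sg_sq (b : Bool) : sg b ^ 2 = 1 := by cases b <;> simp [sg]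

theorem exists_Q (I : Ideal S) (hI : I.IsRadical)
    (hd : ∀ P ∈ I.minimalPrimes, ringKrullDim (S ⧸ P) = 2) (hne : I ≠ ⊤) :
    ∃ Q : S, Q.IsHomogeneous 2 ∧ Q ≠ 0 ∧ (∀ f, Q * f ∈ I → f ∈ I) ∧ ∀ ε, eval (v ε) Q = 0 := by
  have hfin := Ideal.finite_minimalPrimes_of_isNoetherianRing S I
  have := hfin.to_subtype
  let L : (Fin 4 → ℂ) →ₗ[ℂ] S := Fintype.linearCombination ℂ q
  obtain ⟨c, hc⟩ := Submodule.exists_forall_notMem_of_forall_ne_top
    (fun P : I.minimalPrimes => (P.1.restrictScalars ℂ).comap L) (fun P hP => by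
      have h1 : ∀ i, q i ∈ P.1 := fun i => by
        have : Pi.single i (1 : ℂ) ∈ (P.1.restrictScalars ℂ).comap L := by rw [hP]; trivial
        simpa [L] using this
      have h2 := dim_le P.1 h1
      rw [hd P.1 P.2] at h2
      exact absurd h2 (by decide))
  have hnzd : ∀ f, L c * f ∈ I → f ∈ I := by
    intro f hf
    apply hI
    rw [← Ideal.sInf_minimalPrimes, Ideal.mem_sInf]
    intro P hP
    exact (hP.1.1.mem_or_mem (hP.1.2 hf)).resolve_left (hc ⟨P, hP⟩)
  refine ⟨L c, ?_, ?_, hnzd, fun ε => ?_⟩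
  · change L c ∈ homogeneousSubmodule _ _ 2
    simp only [L, Fintype.linearCombination_apply]
    refine Submodule.sum_mem _ fun i _ => Submodule.smul_mem _ _ ?_
    exact Submodule.sub_mem _ (isHomogeneous_X_pow _ _) (isHomogeneous_X_pow _ _)
  · intro h0
    exact hne ((Ideal.eq_top_iff_one I).2 (hnzd 1 (by rw [h0, zero_mul]; exact I.zero_mem)))
  · simp [L, Fintype.linearCombination_apply, q, v, sg_sq]

theorem surj (t : ℕ) (y : (Fin 4 → Bool) → ℂ) : ∃ f : S, f.IsHomogeneous (2 + (t + 2)) ∧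
    ∀ ε, eval (v ε) f = y ε := by
  refine ⟨∑ δ, C (y δ / 16) * (X 0 ^ t * ∏ i : Fin 4, (X 0 + C (sg (δ i)) * X i.succ)), ?_, ?_⟩
  · refine IsHomogeneous.sum _ _ _ fun δ _ => ?_
    have h1 : (∏ i : Fin 4, (X 0 + C (sg (δ i)) * X i.succ : S)).IsHomogeneous (∑ _i : Fin 4, 1) :=
      IsHomogeneous.prod _ _ _ fun i _ =>
        (isHomogeneous_X _ _).add ((isHomogeneous_X _ _).C_mul _)
    have := ((isHomogeneous_X_pow (0 : Fin (4 + 1)) t).mul h1).C_mul (y δ / 16)
    convert this using 1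
    simp; ring
  · intro ε
    simp only [map_sum, map_mul, map_pow, map_prod, map_add, eval_C, eval_X, v, Fin.cons_zero,
      Fin.cons_succ, one_pow, one_mul]
    rw [Finset.sum_eq_single ε]
    · have : ∀ i, 1 + sg (ε i) * sg (ε i) = 2 := fun i => by rw [← sq, sg_sq]; norm_num
      simp only [this, prod_const, card_univ, Fintype.card_fin]; ring
    · intro δ _ hδ
      obtain ⟨i, hi⟩ := Function.ne_iff.1 hδ
      rw [Finset.prod_eq_zero (mem_univ i), mul_zero]
      revert hi
      cases δ i <;> cases ε i <;> simp [sg]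
    · simp

theorem cb (f : S) (hf : f.IsHomogeneous 3) : ∑ ε, (∏ i, sg (ε i)) * eval (v ε) f = 0 := by
  simp only [eval_eq', Finset.mul_sum]
  rw [Finset.sum_comm]
  refine Finset.sum_eq_zero fun α hα => ?_
  have hdeg : 3 = ∑ i, α i := by
    rw [hf.degree_eq_sum_deg_support hα]
    exact Finset.sum_subset (subset_univ _) fun i _ hi => by simpa using hi
  have h0 : ∃ i : Fin 4, α i.succ = 0 := by
    by_contra hc
    push Not at hc
    rw [Fin.sum_univ_succ] at hdeg
    have : ∑ _i : Fin 4, 1 ≤ ∑ i : Fin 4, α i.succ :=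
      Finset.sum_le_sum fun i _ => Nat.one_le_iff_ne_zero.2 (hc i)
    simp only [sum_const, card_univ, Fintype.card_fin, smul_eq_mul] at this
    omega
  have h1 : ∀ ε : Fin 4 → Bool, (∏ i, sg (ε i)) * (coeff α f * ∏ i, v ε i ^ α i) =
      coeff α f * ∏ i : Fin 4, (sg (ε i) * sg (ε i) ^ α i.succ) := fun ε => by
    rw [Fin.prod_univ_succ (fun i => v ε i ^ α i), Finset.prod_mul_distrib]
    simp only [v, Fin.cons_zero, Fin.cons_succ, one_pow, one_mul]; ring
  rw [Finset.sum_congr rfl fun ε _ => h1 ε, ← Finset.mul_sum,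
    ← Fintype.piFinset_univ, ← Finset.prod_univ_sum (fun _ => (univ : Finset Bool))
      (fun (i : Fin 4) b => sg b * sg b ^ α i.succ)]
  obtain ⟨i, hi⟩ := h0
  rw [Finset.prod_eq_zero (mem_univ i), mul_zero]
  simp [hi, sg]

noncomputable def pt (ε : Fin 4 → Bool) : Projectivization ℂ (Fin (4 + 1) → ℂ) :=
  Projectivization.mk ℂ (v ε) (v_ne ε)

theorem pt_inj : Function.Injective pt := by
  intro ε δ h
  obtain ⟨a, ha⟩ := (Projectivization.mk_eq_mk_iff' ℂ _ _ _ _).1 h
  have h0 : a = 1 := by simpa [v] using congrFun ha 0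
  funext i
  have := congrFun ha i.succ
  simp only [h0, one_smul, v, Fin.cons_succ] at this
  revert this
  cases δ i <;> cases ε i <;> simp [sg] <;> norm_num

theorem eval_rep (ε : Fin 4 → Bool) {f : S} {d : ℕ} (hf : f.IsHomogeneous d) :
    eval (pt ε).rep f = 0 ↔ eval (v ε) f = 0 := by
  obtain ⟨a, ha⟩ := Projectivization.exists_smul_eq_mk_rep ℂ (v ε) (v_ne ε)
  unfold pt
  rw [← ha, Units.smul_def, eval_smul_hom hf]
  simp

end Pool.Agent.H79.CBCube
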