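import Mathlib

set_option autoImplicit false

namespace Pool.Agent.H79.CMD

open RingTheory.Sequence

variable (R : Type) [CommRing R]

/-- finitely generated with `depth M_p ≥ dim R_p` at every prime (zero module allowed) -/
def IsMCM (M : ModuleCat.{0} R) : Prop :=
  Module.Finite R M ∧ ∀ (p : PrimeSpectrum R) (n : ℕ),
    (n : WithBot ℕ∞) ≤ ringKrullDim (Localization.AtPrime p.asIdeal) →
    ∃ rs : List (Localization.AtPrime p.asIdeal), rs.length = n ∧
      (∀ r ∈ rs, r ∈ IsLocalRing.maximalIdeal (Localization.AtPrime p.asIdeal)) ∧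
      IsWeaklyRegular (LocalizedModule p.asIdeal.primeCompl M) rs

variable {R}

/-- nonzero and not a direct sum of two nonzero submodules -/
def Indec (M : ModuleCat.{0} R) : Prop :=
  Nontrivial M ∧ ∀ N N' : Submodule R M, IsCompl N N' → N = ⊥ ∨ N' = ⊥

/-- direct summands of finite direct sums of members of `C` -/
def addC (C : ModuleCat.{0} R → Prop) (M : ModuleCat.{0} R) : Prop :=
  ∃ (n : ℕ) (Y : Fin n → ModuleCat.{0} R), (∀ i, C (Y i)) ∧
    ∃ (f : M →ₗ[R] (∀ i, Y i)) (g : (∀ i, Y i) →ₗ[R] M), ∀ m, g (f m) = m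

/-- extensions -/
def circ (C D : ModuleCat.{0} R → Prop) (M : ModuleCat.{0} R) : Prop :=
  ∃ X Y : ModuleCat.{0} R, C X ∧ D Y ∧ ∃ (f : X →ₗ[R] M) (g : M →ₗ[R] Y),
    Function.Injective f ∧ Function.Surjective g ∧ Function.Exact f g

variable [IsLocalRing R]

/-- `N` is the first syzygy of `M`: the kernel of a minimal free cover -/
def IsSyz (M N : ModuleCat.{0} R) : Prop :=
  ∃ (n : ℕ) (f : (Fin n → R) →ₗ[R] M), Function.Surjective f ∧
    LinearMap.ker f ≤ IsLocalRing.maximalIdeal R • ⊤ ∧ Nonempty (N ≃ₗ[R] LinearMap.ker f)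

/-- `N` is the `i`-th syzygy of `M` -/
def IsSyzN : ℕ → ModuleCat.{0} R → ModuleCat.{0} R → Prop
  | 0, M, N => Nonempty (N ≃ₗ[R] M)
  | i + 1, M, N => ∃ L, IsSyzN i M L ∧ IsSyz L N

/-- the class `[C]` -/
def br (C : ModuleCat.{0} R → Prop) : ModuleCat.{0} R → Prop :=
  addC fun Y => Nonempty (Y ≃ₗ[R] R) ∨ ∃ (X : ModuleCat.{0} R) (i : ℕ), C X ∧ IsSyzN i X Y

/-- the classes `[C]_r` -/
def brN (C : ModuleCat.{0} R → Prop) : ℕ → ModuleCat.{0} R → Prop
  | 0 => fun M => Subsingleton M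
  | 1 => br C
  | r + 2 => br (circ (brN C (r + 1)) (br C))

end Pool.Agent.H79.CMD
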