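import Mathlib
import Pool.Agent.H79.CMDDefs

set_option autoImplicit false

namespace Pool.Agent.H79.CMD

variable {R : Type} [CommRing R]

/-- maps factoring through a finite free module -/
def TT (R : Type) [CommRing R] (M N : Type) [AddCommGroup M] [Module R M] [AddCommGroup N]
    [Module R N] : Submodule R (M →ₗ[R] N) :=
  Submodule.span R {h | ∃ (φ : M →ₗ[R] R) (n : N), h = φ.smulRight n}

section
variable {L M N : Type} [AddCommGroup L] [Module R L] [AddCommGroup M] [Module R M]
  [AddCommGroup N] [Module R N]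

theorem TT_mk (φ : M →ₗ[R] R) (n : N) : φ.smulRight n ∈ TT R M N :=
  Submodule.subset_span ⟨φ, n, rfl⟩

theorem TT_left (g : M →ₗ[R] N) {h : L →ₗ[R] M} (hh : h ∈ TT R L M) : g ∘ₗ h ∈ TT R L N := by
  induction hh using Submodule.span_induction with
  | mem h hh =>
    obtain ⟨φ, m, rfl⟩ := hh
    have : g ∘ₗ φ.smulRight m = φ.smulRight (g m) := by ext x; simp
    rw [this]; exact TT_mk _ _
  | zero => simp
  | add a b _ _ ha hb => rw [LinearMap.comp_add]; exact Submodule.add_mem _ ha hb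
  | smul r a _ ha => rw [LinearMap.comp_smul]; exact Submodule.smul_mem _ _ ha

theorem TT_right {g : M →ₗ[R] N} (h : L →ₗ[R] M) (hg : g ∈ TT R M N) : g ∘ₗ h ∈ TT R L N := by
  induction hg using Submodule.span_induction with
  | mem g hg =>
    obtain ⟨φ, m, rfl⟩ := hg
    have : φ.smulRight m ∘ₗ h = (φ ∘ₗ h).smulRight m := by ext x; simp
    rw [this]; exact TT_mk _ _
  | zero => simp
  | add a b _ _ ha hb => rw [LinearMap.add_comp]; exact Submodule.add_mem _ ha hb
  | smul r a _ ha => rw [LinearMap.smul_comp]; exact Submodule.smul_mem _ _ ha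

theorem TT_lift (g : M →ₗ[R] N) (hg : Function.Surjective g) {h : L →ₗ[R] N}
    (hh : h ∈ TT R L N) : ∃ h' ∈ TT R L M, g ∘ₗ h' = h := by
  induction hh using Submodule.span_induction with
  | mem h hh =>
    obtain ⟨φ, n, rfl⟩ := hh
    obtain ⟨m, rfl⟩ := hg n
    exact ⟨φ.smulRight m, TT_mk _ _, by ext x; simp⟩
  | zero => exact ⟨0, Submodule.zero_mem _, by simp⟩
  | add a b _ _ ha hb =>
    obtain ⟨a', h1, rfl⟩ := ha
    obtain ⟨b', h2, rfl⟩ := hb
    exact ⟨a' + b', Submodule.add_mem _ h1 h2, LinearMap.comp_add _ _ _⟩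
  | smul r a _ ha =>
    obtain ⟨a', h1, rfl⟩ := ha
    exact ⟨r • a', Submodule.smul_mem _ _ h1, LinearMap.comp_smul _ _ _⟩

end

/-- multiplication by `s` factors through a finite free module -/
def PP (s : R) (M : Type) [AddCommGroup M] [Module R M] : Prop :=
  s • (LinearMap.id : M →ₗ[R] M) ∈ TT R M M

section
variable {L M N : Type} [AddCommGroup L] [Module R L] [AddCommGroup M] [Module R M]
  [AddCommGroup N] [Module R N]

theorem PP_retract {s : R} (f : M →ₗ[R] N) (g : N →ₗ[R] M) (h : ∀ m, g (f m) = m)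
    (hN : PP s N) : PP s M := by
  have h1 := TT_right f (TT_left g hN)
  have : (g ∘ₗ (s • (LinearMap.id : N →ₗ[R] N))) ∘ₗ f = s • LinearMap.id := by ext m; simp [h]
  rwa [this] at h1

theorem PP_equiv {s : R} (e : M ≃ₗ[R] N) (hN : PP s N) : PP s M :=
  PP_retract e.toLinearMap e.symm.toLinearMap (by simp) hN

theorem PP_mul {s : R} (r : R) (h : PP s M) : PP (r * s) M := by
  unfold PP
  rw [mul_smul]; exact Submodule.smul_mem _ _ h

theorem PP_self (s : R) : PP s R := by
  have : s • (LinearMap.id : R →ₗ[R] R) = LinearMap.smulRight LinearMap.id s := by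
    ext; simp
  unfold PP
  rw [this]; exact TT_mk _ _

theorem PP_pi {s : R} {n : ℕ} (Y : Fin n → Type) [∀ i, AddCommGroup (Y i)]
    [∀ i, Module R (Y i)] (h : ∀ i, PP s (Y i)) : PP s (∀ i, Y i) := by
  have : s • (LinearMap.id : (∀ i, Y i) →ₗ[R] (∀ i, Y i)) =
      ∑ i, (LinearMap.single R Y i ∘ₗ (s • LinearMap.id)) ∘ₗ LinearMap.proj i := by
    apply LinearMap.ext
    intro x
    simp only [LinearMap.smul_apply, LinearMap.id_apply, LinearMap.sum_apply, LinearMap.comp_apply,
      LinearMap.proj_apply, LinearMap.single_apply]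
    exact (Finset.univ_sum_single (s • x)).symm
  unfold PP
  rw [this]
  exact Submodule.sum_mem _ fun i _ => TT_right _ (TT_left _ (h i))

theorem PP_ext {a b : R} (f : L →ₗ[R] M) (g : M →ₗ[R] N) (hf : Function.Injective f)
    (hg : Function.Surjective g) (he : Function.Exact f g) (hL : PP a L) (hN : PP b N) :
    PP (a * b) M := by
  obtain ⟨h', h1, h2⟩ := TT_lift g hg (TT_right g hN)
  have h3 : ∀ m, (b • LinearMap.id - h' : M →ₗ[R] M) m ∈ LinearMap.range f := by
    intro m
    have := LinearMap.congr_fun h2 m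
    apply (he _).1
    simp only [LinearMap.comp_apply, LinearMap.smul_apply, LinearMap.id_apply] at this
    simp [this]
  let ψ : M →ₗ[R] L := (LinearEquiv.ofInjective f hf).symm.toLinearMap ∘ₗ
    LinearMap.codRestrict _ _ h3
  have hψ : ∀ m, f (ψ m) = b • m - h' m := fun m =>
    LinearEquiv.ofInjective_symm_apply f (h := hf) (LinearMap.codRestrict _ _ h3 m)
  have h4 := TT_right ψ (TT_left f hL)
  have : (a * b) • (LinearMap.id : M →ₗ[R] M) =
      (f ∘ₗ (a • (LinearMap.id : L →ₗ[R] L))) ∘ₗ ψ + a • h' := by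
    ext m; simp [hψ, smul_sub, mul_smul]
  unfold PP
  rw [this]
  exact Submodule.add_mem _ h4 (Submodule.smul_mem _ _ h1)

theorem PP_ker {s : R} {n : ℕ} (f : (Fin n → R) →ₗ[R] M) (hf : Function.Surjective f)
    (hM : PP s M) : PP s (LinearMap.ker f) := by
  obtain ⟨h', -, h2⟩ := TT_lift f hf hM
  have h3 : ∀ m, (s • LinearMap.id - h' ∘ₗ f : (Fin n → R) →ₗ[R] (Fin n → R)) m ∈
      LinearMap.ker f := by
    intro m
    have := LinearMap.congr_fun h2 (f m)
    simp only [LinearMap.comp_apply, LinearMap.smul_apply, LinearMap.id_apply] at this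
    simp [this]
  have h4 : PP (1 : R) (Fin n → R) := PP_pi (fun _ => R) fun _ => PP_self 1
  have h5 := TT_right (LinearMap.ker f).subtype (TT_left (LinearMap.codRestrict _ _ h3) h4)
  have : (LinearMap.codRestrict _ _ h3 ∘ₗ ((1 : R) • (LinearMap.id : (Fin n → R) →ₗ[R] _))) ∘ₗ
      (LinearMap.ker f).subtype = s • LinearMap.id := by
    apply LinearMap.ext
    rintro ⟨m, hm⟩
    apply Subtype.ext
    rw [LinearMap.mem_ker] at hm
    simp [hm]
  rwa [this] at h5

theorem PP_exists [IsDomain R] [Module.Finite R M] : ∃ s : R, s ≠ 0 ∧ PP s M := by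
  classical
  obtain ⟨n, v, hv⟩ := Module.Finite.exists_fin (R := R) (M := M)
  obtain ⟨I, hI, hmax⟩ := exists_maximal_linearIndepOn R v
  choose! a ha0 ha using hmax
  let s : R := ∏ i ∈ Finset.univ.filter (· ∉ I), a i
  have hs0 : s ≠ 0 := Finset.prod_ne_zero_iff.2 fun i hi => ha0 i (Finset.mem_filter.1 hi).2
  let F := Submodule.span R (Set.range fun i : I => v i)
  have hF : Submodule.span R (v '' I) = F := by
    congr 1; ext x; simp
  have h1 : ∀ m, (s • LinearMap.id : M →ₗ[R] M) m ∈ F := by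
    intro m
    have hm : m ∈ Submodule.span R (Set.range v) := hv ▸ Submodule.mem_top
    simp only [LinearMap.smul_apply, LinearMap.id_apply]
    induction hm using Submodule.span_induction with
    | mem x hx =>
      obtain ⟨i, rfl⟩ := hx
      by_cases hi : i ∈ I
      · exact F.smul_mem _ (Submodule.subset_span ⟨⟨i, hi⟩, rfl⟩)
      · obtain ⟨c, hc⟩ : a i ∣ s := Finset.dvd_prod_of_mem _ (by simpa using hi)
        rw [hc, mul_comm, mul_smul]
        exact F.smul_mem _ (hF ▸ ha i hi)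
    | zero => simp
    | add x y _ _ hx hy => rw [smul_add]; exact F.add_mem hx hy
    | smul r x _ hx => rw [smul_comm]; exact F.smul_mem _ hx
  let b := Module.Basis.span hI
  have h2 : PP (1 : R) F :=
    PP_equiv (b.reindex (Fintype.equivFin I)).equivFun (PP_pi (fun _ => R) fun _ => PP_self 1)
  refine ⟨s, hs0, ?_⟩
  have h5 := TT_right (LinearMap.codRestrict _ _ h1) (TT_left F.subtype h2)
  have : (F.subtype ∘ₗ ((1 : R) • (LinearMap.id : F →ₗ[R] F))) ∘ₗ LinearMap.codRestrict _ _ h1 =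
      s • LinearMap.id := by
    ext m; simp
  rwa [this] at h5

end

variable [IsLocalRing R]

theorem PP_syzN {s : R} (i : ℕ) (M : ModuleCat.{0} R) (hM : PP s M) :
    ∀ N, IsSyzN i M N → PP s N := by
  induction i with
  | zero => rintro N ⟨e⟩; exact PP_equiv e hM
  | succ i ih =>
    rintro N ⟨L, h1, n, f, hf, -, ⟨e⟩⟩
    exact PP_equiv e (PP_ker f hf (ih L h1))

theorem PP_br {s : R} {C : ModuleCat.{0} R → Prop} (h : ∀ X, C X → PP s X) :
    ∀ M, br C M → PP s M := by
  rintro M ⟨n, Y, hY, f, g, hfg⟩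
  refine PP_retract f g hfg (PP_pi (fun i => Y i) fun i => ?_)
  rcases hY i with ⟨⟨e⟩⟩ | ⟨X, j, hX, hj⟩
  · exact PP_equiv e (PP_self s)
  · exact PP_syzN j X (h X hX) _ hj

theorem PP_brN {s : R} {C : ModuleCat.{0} R → Prop} (h : ∀ X, C X → PP s X) (r : ℕ) :
    ∀ M, brN C (r + 1) M → PP (s ^ (r + 1)) M := by
  induction r with
  | zero => intro M hM; simpa using PP_br h M hM
  | succ r ih =>
    refine PP_br ?_
    rintro M ⟨X, Y, hX, hY, f, g, hf, hg, he⟩
    rw [pow_succ]
    exact PP_ext f g hf hg he (ih X hX) (PP_br h Y hY)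

end Pool.Agent.H79.CMD
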