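import Mathlib
import Pool.Agent.H79.CMD1

set_option autoImplicit false
set_option linter.unusedSectionVars false

namespace Pool.Agent.H79.CMD

open QuadraticAlgebra RingTheory.Sequence

/-- data of an element which is a square in the completion only -/
structure Dat (A : Type) [CommRing A] where
  t : A
  a : A
  p : ℕ → A
  b : ℕ → A
  c : ℕ → A
  irr : Irreducible t
  two : (2 : A) = 0
  hb : ∀ j, a = p j ^ 2 + t ^ (2 * j + 2) * b j
  hc : ∀ j, p (j + 1) = p j + t ^ (j + 1) * c j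
  nsq : ∀ s, s ^ 2 ≠ a

variable {A : Type} [CommRing A] [IsDomain A] [IsDiscreteValuationRing A] (D : Dat A)

/-- the quadratic order -/
abbrev Dat.R : Type := QuadraticAlgebra A D.a 0

/-- the uniformizer in `R` -/
noncomputable def Dat.T : D.R := algebraMap A D.R D.t

/-- the approximately nilpotent elements -/
def Dat.e (j : ℕ) : D.R := ⟨D.p j, 1⟩

/-- the linear form -/
def Dat.nu (j : ℕ) (z : D.R) : A := z.re + z.im * D.p j

namespace Dat

theorem e_sq (j : ℕ) : D.e j * D.e j = algebraMap A D.R (D.t ^ (2 * j + 2) * D.b j) := by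
  ext
  · simp only [e, re_mul, algebraMap_re]
    linear_combination D.hb j + D.p j ^ 2 * D.two
  · simp only [e, im_mul, algebraMap_im]
    linear_combination D.p j * D.two

theorem e_succ (j : ℕ) : D.e (j + 1) = D.e j + algebraMap A D.R (D.t ^ (j + 1) * D.c j) := by
  ext
  · simp only [e, re_add, algebraMap_re, D.hc j]
  · simp only [e, im_add, algebraMap_im, add_zero]

theorem decomp (j : ℕ) (z : D.R) :
    z = algebraMap A D.R (D.nu j z) + algebraMap A D.R z.im * D.e j := by
  ext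
  · simp only [e, nu, re_add, re_mul, algebraMap_re, algebraMap_im]
    linear_combination (-(z.im * D.p j)) * D.two
  · simp [e]

theorem nu_mul (j : ℕ) (z w : D.R) : D.nu j (z * w) =
    D.nu j z * D.nu j w + D.t ^ (2 * j + 2) * (D.b j * z.im * w.im) := by
  simp only [nu, re_mul, im_mul]
  linear_combination z.im * w.im * D.hb j

theorem nu_add (j : ℕ) (z w : D.R) : D.nu j (z + w) = D.nu j z + D.nu j w := by
  simp only [nu, re_add, im_add]; ring

theorem nu_alg (j : ℕ) (s : A) : D.nu j (algebraMap A D.R s) = s := by simp [nu]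

theorem nu_e (j : ℕ) : D.nu j (D.e j) = 0 := by
  simp only [nu, e]; linear_combination D.p j * D.two

theorem norm_eq (j : ℕ) (z : D.R) :
    norm z = D.nu j z ^ 2 + D.t ^ (2 * j + 2) * (D.b j * z.im ^ 2) := by
  simp only [norm_def, nu]
  linear_combination (-z.im ^ 2) * D.hb j +
    (-(D.t ^ (2 * j + 2) * D.b j * z.im ^ 2) - z.re * z.im * D.p j - z.im ^ 2 * D.p j ^ 2) * D.two

theorem norm_ne {z : D.R} (hz : z ≠ 0) : norm z ≠ 0 := by
  intro h
  have h1 : z.re ^ 2 = D.a * z.im ^ 2 := by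
    rw [norm_def] at h; linear_combination h
  by_cases h0 : z.im = 0
  · apply hz
    rw [h0] at h1
    ext
    · simpa using h1
    · exact h0
  · have h2 : z.im ^ 2 ∣ z.re ^ 2 := ⟨D.a, by rw [h1, mul_comm]⟩
    obtain ⟨s, hs⟩ := (IsIntegrallyClosed.pow_dvd_pow_iff two_ne_zero).1 h2
    apply D.nsq s
    apply mul_left_cancel₀ (pow_ne_zero 2 h0)
    rw [← mul_pow, ← hs, h1, mul_comm]

instance : NoZeroDivisors D.R := ⟨fun {z w} h => by
  by_contra h0
  push Not at h0
  have := congrArg QuadraticAlgebra.norm h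
  rw [map_mul, QuadraticAlgebra.norm_zero] at this
  exact mul_ne_zero (D.norm_ne h0.1) (D.norm_ne h0.2) this⟩

instance : IsDomain D.R := NoZeroDivisors.to_isDomain _

instance : IsNoetherianRing D.R := isNoetherian_of_tower A inferInstance

theorem nonunit_iff (s : A) : ¬ IsUnit s ↔ D.t ∣ s := by
  rw [← Ideal.mem_span_singleton, ← D.irr.maximalIdeal_eq, IsLocalRing.mem_maximalIdeal,
    mem_nonunits_iff]

theorem unit_iff (z : D.R) : ¬ IsUnit z ↔ D.t ∣ D.nu 0 z := by
  rw [isUnit_iff_norm_isUnit, D.nonunit_iff, D.norm_eq 0,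
    dvd_add_left (Dvd.dvd.mul_right (dvd_pow_self _ (by omega)) _),
    D.irr.prime.dvd_pow_iff_dvd two_ne_zero]

instance : IsLocalRing D.R := IsLocalRing.of_nonunits_add fun z w hz hw => by
  rw [mem_nonunits_iff, D.unit_iff] at *
  rw [nu_add]; exact dvd_add hz hw

theorem dvd_T {z : D.R} (hz : z ≠ 0) : ∃ n : ℕ, z ∣ D.T ^ n := by
  obtain ⟨n, u, hu⟩ := IsDiscreteValuationRing.associated_pow_irreducible (D.norm_ne hz) D.irr
  refine ⟨n, star z * algebraMap A D.R u, ?_⟩
  rw [T, ← map_pow, ← hu, map_mul, algebraMap_norm_eq_mul_star, mul_assoc]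

theorem T_pow (n : ℕ) : D.T ^ n = algebraMap A D.R (D.t ^ n) := (map_pow _ _ _).symm

theorem T_ne : D.T ≠ 0 := fun h => D.irr.ne_zero (by simpa [T] using congrArg re h)

theorem sq_max {z : D.R} (hz : z ∈ IsLocalRing.maximalIdeal D.R) : D.T ∣ z * z := by
  rw [IsLocalRing.mem_maximalIdeal, mem_nonunits_iff, D.unit_iff] at hz
  obtain ⟨s, hs⟩ := hz
  have h1 := D.decomp 0 z
  have h2 := D.e_sq 0
  refine ⟨algebraMap A D.R s * (z + algebraMap A D.R z.im * D.e 0) +
    algebraMap A D.R (z.im ^ 2 * D.t * D.b 0), ?_⟩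
  rw [hs] at h1
  simp only [T, map_mul, map_pow] at *
  linear_combination (z + algebraMap A D.R z.im * D.e 0) * h1 + algebraMap A D.R z.im ^ 2 * h2

theorem T_max : D.T ∈ IsLocalRing.maximalIdeal D.R := by
  rw [IsLocalRing.mem_maximalIdeal, mem_nonunits_iff, D.unit_iff, T, nu_alg]

theorem T_mem (P : Ideal D.R) [hP : P.IsPrime] (h : P ≠ ⊥) : D.T ∈ P := by
  obtain ⟨z, hz, h0⟩ := Submodule.exists_mem_ne_zero_of_ne_bot h
  obtain ⟨n, w, hw⟩ := D.dvd_T h0
  exact hP.mem_of_pow_mem n (hw ▸ P.mul_mem_right w hz)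

instance : Ring.KrullDimLE 1 D.R := Ring.krullDimLE_one_iff_of_noZeroDivisors.2 fun P h hP => by
  have : IsLocalRing.maximalIdeal D.R = P := by
    refine le_antisymm (fun z hz => ?_) (IsLocalRing.le_maximalIdeal hP.ne_top)
    obtain ⟨w, hw⟩ := D.sq_max hz
    exact (hP.mem_or_mem (hw ▸ P.mul_mem_right w (D.T_mem P h))).elim id id
  exact this ▸ inferInstance

theorem mcm_of_reg (M : ModuleCat.{0} D.R) [hM : Module.Finite D.R M]
    (h : IsSMulRegular M D.T) : IsMCM D.R M := by
  refine ⟨hM, fun p n hn => ?_⟩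
  rw [IsLocalization.AtPrime.ringKrullDim_eq_height p.asIdeal] at hn
  have h1 : (p.asIdeal.height : WithBot ℕ∞) ≤ 1 :=
    (Ideal.height_le_ringKrullDim_of_ne_top p.isPrime.ne_top).trans
      (Ring.krullDimLE_iff.1 inferInstance)
  have h2 : n ≤ 1 := by exact_mod_cast hn.trans h1
  rcases Nat.le_one_iff_eq_zero_or_eq_one.1 h2 with rfl | rfl
  · exact ⟨[], rfl, by simp, IsWeaklyRegular.nil _ _⟩
  have h3 : p.asIdeal ≠ ⊥ := by
    intro h0
    rw [h0, Ideal.height_bot] at hn
    exact absurd hn (by decide)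
  refine ⟨[algebraMap D.R _ D.T], rfl, ?_, ?_⟩
  · intro r hr
    rw [List.mem_singleton.1 hr, IsLocalization.AtPrime.to_map_mem_maximal_iff _ p.asIdeal]
    exact D.T_mem _ h3
  · rw [isWeaklyRegular_singleton_iff, isSMulRegular_iff_right_eq_zero_of_smul]
    intro m hm
    induction m using LocalizedModule.induction_on with
    | h m s =>
      rw [algebraMap_smul, LocalizedModule.smul'_mk, ← LocalizedModule.zero_mk 1,
        LocalizedModule.mk_eq] at hm
      obtain ⟨u, hu⟩ := hm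
      rw [← LocalizedModule.zero_mk 1, LocalizedModule.mk_eq]
      refine ⟨u, ?_⟩
      simp only [one_smul, smul_zero] at hu ⊢
      apply h.right_eq_zero_of_smul
      rw [smul_comm]; exact hu

theorem reg_of_mcm (M : ModuleCat.{0} D.R) (h : IsMCM D.R M) : IsSMulRegular M D.T := by
  obtain ⟨rs, h1, h2, h3⟩ := h.2 ⟨IsLocalRing.maximalIdeal D.R, inferInstance⟩ 1 (by
    rw [IsLocalization.AtPrime.ringKrullDim_eq_height (IsLocalRing.maximalIdeal D.R)]
    have hlt : (⊥ : Ideal D.R) < IsLocalRing.maximalIdeal D.R :=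
      bot_lt_iff_ne_bot.2 fun h0 => D.T_ne (by simpa [h0] using D.T_max)
    have := Ideal.height_add_one_le_of_lt_of_isPrime hlt
    rw [Ideal.height_bot, zero_add] at this
    exact_mod_cast this)
  obtain ⟨r, rfl⟩ := List.length_eq_one_iff.1 h1
  rw [isWeaklyRegular_singleton_iff] at h3
  obtain ⟨⟨x, s⟩, rfl⟩ := IsLocalization.mk'_surjective
    (IsLocalRing.maximalIdeal D.R).primeCompl r
  have hx : x ∈ IsLocalRing.maximalIdeal D.R :=
    (IsLocalization.AtPrime.mk'_mem_maximal_iff _ (IsLocalRing.maximalIdeal D.R) x s).1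
      (h2 _ (List.mem_singleton_self _))
  have hreg : IsSMulRegular M x := by
    rw [isSMulRegular_iff_right_eq_zero_of_smul]
    intro m hm
    have h4 : (LocalizedModule.mk m 1 :
        LocalizedModule (IsLocalRing.maximalIdeal D.R).primeCompl M) = 0 := by
      apply h3.right_eq_zero_of_smul
      rw [← Localization.mk_eq_mk', LocalizedModule.mk_smul_mk, hm, LocalizedModule.zero_mk]
    rw [← LocalizedModule.zero_mk 1, LocalizedModule.mk_eq] at h4
    obtain ⟨u, hu⟩ := h4
    simp only [one_smul, smul_zero] at hu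
    have hu' : IsUnit (u : D.R) := by
      by_contra h5
      exact u.2 ((IsLocalRing.mem_maximalIdeal _).2 h5)
    exact (hu'.isSMulRegular M).right_eq_zero_of_smul hu
  obtain ⟨w, hw⟩ := D.sq_max hx
  have h6 := hreg.mul hreg
  rw [hw, mul_comm] at h6
  exact h6.of_mul

/-- the ideals `(t^j, e_j)` -/
def I (j : ℕ) : Ideal D.R where
  carrier := {z | D.t ^ j ∣ D.nu j z}
  add_mem' hz hw := by
    simp only [Set.mem_ofPred_eq, nu_add] at *
    exact dvd_add hz hw
  zero_mem' := by simp [nu]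
  smul_mem' r z hz := by
    simp only [Set.mem_ofPred_eq, smul_eq_mul, nu_mul] at *
    exact dvd_add (hz.mul_left _) ((pow_dvd_pow _ (by omega)).mul_right _)

theorem mem_I (j : ℕ) (z : D.R) : z ∈ D.I j ↔ D.t ^ j ∣ D.nu j z := Iff.rfl

theorem Tj_mem (j : ℕ) : D.T ^ j ∈ D.I j := by rw [mem_I, T, ← map_pow, nu_alg]

theorem e_mem (j : ℕ) : D.e j ∈ D.I j := by rw [mem_I, nu_e]; exact dvd_zero _

theorem mcm_I (j : ℕ) : IsMCM D.R (ModuleCat.of D.R (D.I j)) := by
  apply D.mcm_of_reg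
  rw [isSMulRegular_iff_right_eq_zero_of_smul]
  rintro ⟨z, hz⟩ h
  have : D.T * z = 0 := congrArg Subtype.val h
  exact Subtype.ext ((mul_eq_zero.1 this).resolve_left D.T_ne)

theorem not_PP (N : ℕ) : ¬ PP (D.T ^ N) (D.I (N + 1)) := by
  set j := N + 1 with hj
  have key : ∀ h ∈ TT D.R (D.I j) (D.I j),
      D.t ^ (2 * j) ∣ D.nu j (h ⟨_, D.Tj_mem j⟩ : D.I j) := by
    intro h hh
    induction hh using Submodule.span_induction with
    | mem h hh =>
      obtain ⟨φ, n, rfl⟩ := hh
      have h1 : D.e j * φ ⟨_, D.Tj_mem j⟩ = D.T ^ j * φ ⟨_, D.e_mem j⟩ := by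
        rw [← smul_eq_mul, ← smul_eq_mul, ← map_smul, ← map_smul]
        congr 1
        exact Subtype.ext (mul_comm _ _)
      have h2 : D.t ^ j ∣ D.nu j (φ ⟨_, D.Tj_mem j⟩) := by
        generalize φ ⟨_, D.Tj_mem j⟩ = z at h1 ⊢
        generalize φ ⟨_, D.e_mem j⟩ = y at h1
        have h3 := congrArg im h1
        rw [D.T_pow j] at h3
        simp only [e, im_mul, algebraMap_re, algebraMap_im] at h3
        refine ⟨y.im, ?_⟩
        simp only [nu]
        linear_combination h3
      have h4 : (φ.smulRight n ⟨_, D.Tj_mem j⟩ : D.I j).1 = φ ⟨_, D.Tj_mem j⟩ * n.1 := rfl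
      rw [h4, nu_mul, two_mul, pow_add]
      refine dvd_add (mul_dvd_mul h2 n.2) (Dvd.dvd.mul_right ?_ _)
      rw [← pow_add]; exact pow_dvd_pow _ (by omega)
    | zero => simp [nu]
    | add a b _ _ ha hb =>
      rw [LinearMap.add_apply, Submodule.coe_add, nu_add]; exact dvd_add ha hb
    | smul r a hmem ha =>
      rw [LinearMap.smul_apply, Submodule.coe_smul, smul_eq_mul, nu_mul]
      exact dvd_add (ha.mul_left _) ((pow_dvd_pow _ (by omega)).mul_right _)
  intro h
  have h1 := key _ h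
  have h2 : ((D.T ^ N • (LinearMap.id : D.I j →ₗ[D.R] D.I j)) ⟨_, D.Tj_mem j⟩ : D.I j).1 =
      algebraMap A D.R (D.t ^ (N + j)) := by
    rw [← D.T_pow, pow_add D.T N j]; rfl
  rw [h2, nu_alg, pow_dvd_pow_iff D.irr.ne_zero D.irr.not_isUnit] at h1
  omega

end Dat

end Pool.Agent.H79.CMD
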