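import Mathlib
import Pool.Agent.H79.CMD2

set_option autoImplicit false
set_option linter.unusedSectionVars false

namespace Pool.Agent.H79.CMD

open QuadraticAlgebra RingTheory.Sequence

theorem exists_div {R X M : Type} [CommRing R] [AddCommGroup X] [Module R X] [AddCommGroup M]
    [Module R M] (s : R) (hs : IsSMulRegular M s) (f : X →ₗ[R] M)
    (h : ∀ x, ∃ y, s • y = f x) : ∃ g : X →ₗ[R] M, ∀ x, s • g x = f x := by
  choose g hg using h
  refine ⟨⟨⟨g, fun x y => hs ?_⟩, fun r x => hs ?_⟩, hg⟩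
  · simp only [smul_add, hg, map_add]
  · simp only [RingHom.id_apply, hg, map_smul]
    rw [smul_comm, hg]

variable {A : Type} [CommRing A] [IsDomain A] [IsDiscreteValuationRing A] (D : Dat A)

namespace Dat

variable {M : Type} [AddCommGroup M] [Module D.R M] [Module A M] [IsScalarTower A D.R M]
  [Module.Finite D.R M]

theorem exists_coord (hreg : IsSMulRegular M D.T) (m : M) (hm : ∀ y, D.T • y ≠ m) :
    ∃ l : M →ₗ[A] A, l m = 1 := by
  have : Module.Finite A M := Module.Finite.trans D.R M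
  have : Module.IsTorsionFree A M := by
    refine Module.IsTorsionFree.of_smul_eq_zero fun s y h => ?_
    by_cases hs : s = 0
    · exact Or.inl hs
    right
    obtain ⟨n, u, hu⟩ := IsDiscreteValuationRing.associated_pow_irreducible hs D.irr
    apply (hreg.pow n).right_eq_zero_of_smul
    rw [D.T_pow, algebraMap_smul, ← hu, mul_comm, mul_smul, h, smul_zero]
  let b := Module.Free.chooseBasis A M
  by_contra hno
  have h1 : ∀ i, D.t ∣ b.repr m i := by
    intro i
    rw [← D.nonunit_iff]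
    rintro ⟨u, hu⟩
    exact hno ⟨(↑u⁻¹ : A) • b.coord i, by simp [← hu]⟩
  choose c hc using h1
  apply hm (∑ i, c i • b i)
  rw [T, algebraMap_smul, Finset.smul_sum]
  conv_rhs => rw [← b.sum_repr m]
  exact Finset.sum_congr rfl fun i _ => by rw [hc, mul_smul]

theorem exists_level (hreg : IsSMulRegular M D.T) [Nontrivial M] :
    ∃ j : ℕ, ∃ m : M, ∀ y, D.T ^ (j + 1) • y ≠ D.e j • m := by
  by_contra hno
  push Not at hno
  obtain ⟨m, hm⟩ : ∃ m : M, ∀ y, D.T • y ≠ m := by
    by_contra h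
    push Not at h
    have h1 : (⊤ : Submodule D.R M) ≤ IsLocalRing.maximalIdeal D.R • ⊤ := by
      intro m _
      obtain ⟨y, rfl⟩ := h m
      exact Submodule.smul_mem_smul D.T_max trivial
    have h2 := Submodule.eq_bot_of_le_smul_of_le_jacobson_bot _ _ Module.Finite.fg_top h1
      (IsLocalRing.jacobson_eq_maximalIdeal ⊥ bot_ne_top).ge
    exact top_ne_bot h2
  obtain ⟨l, hl⟩ := D.exists_coord hreg m hm
  let s := l ((ω : D.R) • m)
  apply D.nsq s
  have h1 : ∀ j, D.t ^ j ∣ s ^ 2 - D.a := by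
    intro j
    obtain ⟨y, hy⟩ := hno j m
    have h2 : D.e j = algebraMap A D.R (D.p j) + ω := by ext <;> simp [e]
    have h3 := congrArg l hy
    rw [D.T_pow, h2, add_smul, algebraMap_smul, algebraMap_smul, map_add, map_smul, map_smul,
      hl, smul_eq_mul, smul_eq_mul, mul_one] at h3
    have h4 : s = D.t ^ (j + 1) * l y - D.p j := by simp only [s]; linear_combination -h3
    refine ⟨D.t ^ (j + 2) * (l y ^ 2 - D.b j), ?_⟩
    rw [h4, D.hb j]
    linear_combination (-(D.t ^ (j + 1) * l y * D.p j)) * D.two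
  by_contra hne
  obtain ⟨n, u, hu⟩ := IsDiscreteValuationRing.associated_pow_irreducible (sub_ne_zero.2 hne) D.irr
  have h5 : D.t ^ (n + 1) ∣ D.t ^ n := hu ▸ (h1 (n + 1)).mul_right _
  rw [pow_dvd_pow_iff D.irr.ne_zero D.irr.not_isUnit] at h5
  omega

theorem exists_split (hreg : IsSMulRegular M D.T) [Nontrivial M] :
    ∃ (j : ℕ) (ψ : D.I j →ₗ[D.R] M) (φ : M →ₗ[D.R] D.I j), ∀ z, φ (ψ z) = z := by
  classical
  have hex := D.exists_level hreg
  let j := Nat.find hex
  obtain ⟨m, hm⟩ : ∃ m : M, ∀ y, D.T ^ (j + 1) • y ≠ D.e j • m := Nat.find_spec hex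
  have hdiv : ∀ x : M, ∃ y, D.T ^ j • y = D.e j • x := by
    intro x
    rcases hj : j with _ | i
    · exact ⟨_, by rw [pow_zero, one_smul]⟩
    have h1 := Nat.find_min hex (show i < j by omega)
    push Not at h1
    obtain ⟨y, hy⟩ := h1 x
    refine ⟨y + algebraMap A D.R (D.c i) • x, ?_⟩
    rw [smul_add, hy, D.e_succ, add_smul, map_mul, mul_smul, D.T_pow]
  obtain ⟨U, hU⟩ := exists_div (D.T ^ j) (hreg.pow j) (D.e j • LinearMap.id) hdiv
  simp only [LinearMap.smul_apply, LinearMap.id_apply] at hU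
  have hUA : ∀ (s : A) (x : M), U (s • x) = s • U x := fun s x => by
    rw [← algebraMap_smul D.R, map_smul, algebraMap_smul]
  have hUU : ∀ x, U (U x) = (D.t ^ 2 * D.b j) • x := by
    intro x
    apply (hreg.pow j).mul (hreg.pow j)
    simp only
    rw [mul_smul, hU, smul_comm, hU, ← mul_smul, D.e_sq, ← pow_add, D.T_pow, algebraMap_smul,
      algebraMap_smul, ← mul_smul]
    congr 1; ring
  obtain ⟨l0, hl0⟩ := D.exists_coord hreg (U m) (by
    intro y hy
    apply hm y
    rw [pow_succ, mul_smul, hy, hU])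
  have hun : IsUnit (1 - l0 m * (D.t ^ 2 * D.b j * l0 m)) := by
    by_contra h
    rw [D.nonunit_iff] at h
    have h2 : D.t ∣ l0 m * (D.t ^ 2 * D.b j * l0 m) := ⟨l0 m * D.t * D.b j * l0 m, by ring⟩
    exact D.irr.not_isUnit (isUnit_of_dvd_one (by simpa using dvd_add h h2))
  obtain ⟨u, hu⟩ := hun
  let UA : M →ₗ[A] M := ⟨⟨U, map_add U⟩, hUA⟩
  let l : M →ₗ[A] A := (↑u⁻¹ : A) • (l0 - l0 m • (l0 ∘ₗ UA))
  have hl : ∀ x, l x = ↑u⁻¹ * (l0 x - l0 m * l0 (U x)) := fun x => rfl
  have hlm : l m = 0 := by rw [hl, hl0]; simp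
  have hlU : l (U m) = 1 := by
    rw [hl, hl0, hUU, map_smul, smul_eq_mul, ← hu, Units.inv_mul]
  let F : M → D.R := fun x => algebraMap A D.R (l (U x)) * D.T ^ j + algebraMap A D.R (l x) * D.e j
  have hFadd : ∀ x y, F (x + y) = F x + F y := fun x y => by
    simp only [F, map_add]; ring
  have hFA : ∀ (s : A) x, F (s • x) = algebraMap A D.R s * F x := fun s x => by
    simp only [F, hUA, map_smul, smul_eq_mul, map_mul]; ring
  have hFe : ∀ x, F (D.e j • x) = D.e j * F x := fun x => by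
    rw [← hU, D.T_pow, algebraMap_smul, hFA]
    have h2 := D.e_sq j
    simp only [F, hUU, map_smul, smul_eq_mul, map_mul, map_pow, T] at h2 ⊢
    linear_combination (-algebraMap A D.R (l x)) * h2
  have hFR : ∀ (r : D.R) x, F (r • x) = r * F x := fun r x => by
    conv_lhs => rw [D.decomp j r, add_smul, mul_smul, algebraMap_smul, algebraMap_smul, hFadd,
      hFA, hFA, hFe]
    conv_rhs => rw [D.decomp j r]
    ring
  have hFI : ∀ x, F x ∈ D.I j := fun x =>
    Ideal.add_mem _ (Ideal.mul_mem_left _ _ (D.Tj_mem j)) (Ideal.mul_mem_left _ _ (D.e_mem j))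
  let φ : M →ₗ[D.R] D.I j :=
    { toFun := fun x => ⟨F x, hFI x⟩
      map_add' := fun x y => Subtype.ext (hFadd x y)
      map_smul' := fun r x => Subtype.ext (hFR r x) }
  obtain ⟨ψ, hψ⟩ := exists_div (D.T ^ j) (hreg.pow j)
    ((D.I j).subtype.smulRight m) (by
      rintro ⟨z, s, hs⟩
      refine ⟨s • m + z.im • U m, ?_⟩
      change _ = z • m
      conv_rhs => rw [D.decomp j z, hs, add_smul, mul_smul, algebraMap_smul, algebraMap_smul,
        ← hU]
      rw [smul_add, D.T_pow, algebraMap_smul, algebraMap_smul, algebraMap_smul, mul_smul,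
        smul_comm z.im])
  refine ⟨j, ψ, φ, fun z => Subtype.ext ?_⟩
  apply mul_left_cancel₀ (pow_ne_zero j D.T_ne)
  change D.T ^ j * F (ψ z) = _
  rw [← hFR, hψ]
  change F (z.1 • m) = _
  rw [hFR]
  simp only [F, hlm, hlU, map_one, map_zero]
  ring

end Dat

theorem Dat.classify (M : ModuleCat.{0} D.R) (hM : IsMCM D.R M) (hI : Indec M) :
    ∃ j, Nonempty (M ≃ₗ[D.R] D.I j) := by
  let : Module A M := Module.compHom M (algebraMap A D.R)
  have : IsScalarTower A D.R M := IsScalarTower.of_algebraMap_smul fun _ _ => rfl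
  have := hM.1
  have := hI.1
  obtain ⟨j, ψ, φ, h⟩ := D.exists_split (D.reg_of_mcm M hM)
  have hc : IsCompl (LinearMap.range ψ) (LinearMap.ker φ) := by
    constructor
    · rw [Submodule.disjoint_def]
      rintro _ ⟨z, rfl⟩ hz
      rw [LinearMap.mem_ker, h] at hz
      rw [hz, map_zero]
    · rw [codisjoint_iff, eq_top_iff]
      intro x _
      have : x = ψ (φ x) + (x - ψ (φ x)) := by abel
      rw [this]
      exact Submodule.add_mem_sup ⟨_, rfl⟩ (by rw [LinearMap.mem_ker, map_sub, h, sub_self])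
  rcases hI.2 _ _ hc with h1 | h1
  · exfalso
    have h2 : ψ ⟨_, D.Tj_mem j⟩ = 0 := by
      rw [← Submodule.mem_bot D.R, ← h1]; exact ⟨_, rfl⟩
    have h3 := h ⟨_, D.Tj_mem j⟩
    rw [h2, map_zero] at h3
    exact pow_ne_zero j D.T_ne (congrArg Subtype.val h3).symm
  · exact ⟨j, ⟨LinearEquiv.ofBijective φ ⟨LinearMap.ker_eq_bot.1 h1, fun z => ⟨ψ z, h z⟩⟩⟩⟩

theorem Dat.not_gen (G : ModuleCat.{0} D.R) (hG : IsMCM D.R G) (n : ℕ) :
    ∃ M, IsMCM D.R M ∧ ¬ brN (fun X => Nonempty (X ≃ₗ[D.R] G)) (n + 1) M := by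
  have := hG.1
  obtain ⟨s, hs0, hs⟩ := PP_exists (R := D.R) (M := G)
  obtain ⟨N, w, hw⟩ := D.dvd_T (pow_ne_zero (n + 1) hs0)
  refine ⟨ModuleCat.of D.R (D.I (N + 1)), D.mcm_I _, fun h => D.not_PP N ?_⟩
  rw [hw, mul_comm]
  exact PP_mul w (PP_brN (fun X ⟨e⟩ => PP_equiv e hs) n _ h)

end Pool.Agent.H79.CMD
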