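import Mathlib
import Pool.Agent.H79.CMD3

set_option autoImplicit false
set_option linter.unusedSectionVars false

namespace Pool.Agent.H79.CMD

open PowerSeries

variable (k : Type) [Field k] [CharP k 2]

/-- the subfield of squares -/
noncomputable abbrev K2 : Subfield k := (frobenius k 2).fieldRange

/-- power series whose coefficients generate a finite extension of the squares -/
noncomputable def Nag : Subring k⟦X⟧ where
  carrier := {f | ∃ E : IntermediateField (K2 k) k, FiniteDimensional (K2 k) E ∧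
    ∀ n, coeff n f ∈ E}
  mul_mem' := by
    rintro f g ⟨E, hE, hf⟩ ⟨F, hF, hg⟩
    refine ⟨E ⊔ F, inferInstance, fun n => ?_⟩
    rw [coeff_mul]
    exact sum_mem fun x _ => mul_mem ((le_sup_left : E ≤ E ⊔ F) (hf _))
      ((le_sup_right : F ≤ E ⊔ F) (hg _))
  one_mem' := ⟨⊥, inferInstance, fun n => by
    rw [coeff_one]; split_ifs; exacts [one_mem _, zero_mem _]⟩
  add_mem' := by
    rintro f g ⟨E, hE, hf⟩ ⟨F, hF, hg⟩
    refine ⟨E ⊔ F, inferInstance, fun n => ?_⟩
    rw [map_add]
    exact add_mem ((le_sup_left : E ≤ E ⊔ F) (hf _)) ((le_sup_right : F ≤ E ⊔ F) (hg _))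
  zero_mem' := ⟨⊥, inferInstance, fun n => by simp⟩
  neg_mem' := by
    rintro f ⟨E, hE, hf⟩
    exact ⟨E, hE, fun n => by rw [map_neg]; exact neg_mem (hf n)⟩

variable {k}

theorem C_mem (c : k) : C c ∈ Nag k := by
  have hc : IsIntegral (K2 k) c := by
    apply IsIntegral.of_pow two_pos
    exact isIntegral_algebraMap (A := k) (x := (⟨c ^ 2, c, rfl⟩ : K2 k))
  refine ⟨IntermediateField.adjoin (K2 k) {c}, IntermediateField.adjoin.finiteDimensional hc,
    fun n => ?_⟩
  rw [coeff_C]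
  split_ifs
  · exact IntermediateField.mem_adjoin_simple_self _ c
  · exact zero_mem _

theorem X_mem : (X : k⟦X⟧) ∈ Nag k := ⟨⊥, inferInstance, fun n => by
  rw [coeff_X]; split_ifs; exacts [one_mem _, zero_mem _]⟩

theorem sq_mem (f : k⟦X⟧) : f ^ 2 ∈ Nag k := by
  refine ⟨⊥, inferInstance, fun n => ?_⟩
  have h := MvPowerSeries.map_frobenius_expand (σ := Unit) (R := k) 2 two_ne_zero (f := f)
  have h2 : f ^ 2 = PowerSeries.map (frobenius k 2) (MvPowerSeries.expand 2 two_ne_zero f) :=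
    h.symm
  rw [h2, coeff_map]
  exact IntermediateField.algebraMap_mem ⊥ (⟨_, _, rfl⟩ : K2 k)

theorem exists_map {f : k⟦X⟧} (hf : f ∈ Nag k) : ∃ E : IntermediateField (K2 k) k,
    FiniteDimensional (K2 k) E ∧ ∃ g : E⟦X⟧, PowerSeries.map (algebraMap E k) g = f := by
  obtain ⟨E, hE, h⟩ := hf
  exact ⟨E, hE, mk fun n => ⟨_, h n⟩, by ext n; simp⟩

theorem map_mem (E : IntermediateField (K2 k) k) [hE : FiniteDimensional (K2 k) E] (g : E⟦X⟧) :
    PowerSeries.map (algebraMap E k) g ∈ Nag k :=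
  ⟨E, hE, fun n => by rw [coeff_map]; exact (coeff n g).2⟩

/-- the uniformizer -/
noncomputable def tt (k : Type) [Field k] [CharP k 2] : Nag k := ⟨X, X_mem⟩

theorem assoc (f : Nag k) (hf : f ≠ 0) : ∃ n : ℕ, Associated (tt k ^ n) f := by
  obtain ⟨E, hE, g, hg⟩ := exists_map f.2
  have hg0 : g ≠ 0 := by
    rintro rfl
    exact hf (Subtype.ext (by rw [← hg, map_zero]; rfl))
  obtain ⟨u, hu⟩ := isUnit_divided_by_X_pow_order hg0
  refine ⟨g.order.toNat, ⟨⟨_, map_mem E u⟩, ⟨_, map_mem E ↑u⁻¹⟩, Subtype.ext ?_,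
    Subtype.ext ?_⟩, Subtype.ext ?_⟩
  · change PowerSeries.map _ _ * PowerSeries.map _ _ = 1
    rw [← map_mul, Units.mul_inv, map_one]
  · change PowerSeries.map _ _ * PowerSeries.map _ _ = 1
    rw [← map_mul, Units.inv_mul, map_one]
  · change X ^ _ * PowerSeries.map _ _ = _
    rw [← hg, hu]
    conv_rhs => rw [← X_pow_order_mul_divXPowOrder (f := g), map_mul, map_pow, map_X]

theorem tt_irr : Irreducible (tt k) := by
  have hnu : ¬ IsUnit (tt k) := fun h => X_irreducible.not_isUnit (h.map (Nag k).subtype)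
  have h0 : tt k ≠ 0 := fun h => X_ne_zero (congrArg Subtype.val h)
  refine ⟨hnu, fun a b hab => ?_⟩
  have ha0 : a ≠ 0 := by rintro rfl; exact h0 (by simpa using hab)
  have hb0 : b ≠ 0 := by rintro rfl; exact h0 (by simpa using hab)
  obtain ⟨m, hm⟩ := assoc a ha0
  obtain ⟨n, hn⟩ := assoc b hb0
  have h1 : tt k ^ (m + n) ∣ tt k ^ 1 := by
    rw [pow_add, pow_one]
    exact ((hm.mul_mul hn).dvd).trans (dvd_of_eq hab.symm)
  rw [pow_dvd_pow_iff h0 hnu] at h1
  rcases Nat.eq_zero_or_pos m with rfl | h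
  · left; exact (hm.isUnit_iff).1 (by simp)
  · obtain rfl : n = 0 := by omega
    right; exact (hn.isUnit_iff).1 (by simp)

instance : IsDiscreteValuationRing (Nag k) :=
  IsDiscreteValuationRing.ofHasUnitMulPowIrreducibleFactorization
    ⟨tt k, tt_irr, fun {x} hx => assoc x hx⟩

/-- truncations -/
noncomputable def pp (c : ℕ → k) : ℕ → Nag k
  | 0 => ⟨C (c 0), C_mem _⟩
  | j + 1 => pp c j + tt k ^ (j + 1) * ⟨C (c (j + 1)), C_mem _⟩

theorem tail (c : ℕ → k) (j : ℕ) :
    mk c = (pp c j : k⟦X⟧) + X ^ (j + 1) * mk fun n => c (n + (j + 1)) := by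
  induction j with
  | zero =>
    have := eq_X_mul_shift_add_const (mk c)
    simp only [coeff_mk, constantCoeff_mk] at this
    rw [this, pp]; simp [add_comm]
  | succ j ih =>
    have := eq_X_mul_shift_add_const (mk fun n => c (n + (j + 1)))
    simp only [coeff_mk, constantCoeff_mk, zero_add] at this
    rw [ih, this, pp]
    have h2 : (fun n => c (n + 1 + (j + 1))) = fun n => c (n + (j + 1 + 1)) := by
      funext n; congr 1; omega
    rw [h2]
    change _ = (pp c j : k⟦X⟧) + X ^ (j + 1) * C _ + _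
    ring

theorem two_ps : (2 : k⟦X⟧) = 0 := by
  rw [← map_ofNat C 2, CharTwo.two_eq_zero, map_zero]

/-- the data for Nagata's ring -/
noncomputable def nagDat (c : ℕ → k) (hc : LinearIndependent (K2 k) c) : Dat (Nag k) where
  t := tt k
  a := ⟨mk c ^ 2, sq_mem _⟩
  p := pp c
  b j := ⟨(mk fun n => c (n + (j + 1))) ^ 2, sq_mem _⟩
  c j := ⟨C (c (j + 1)), C_mem _⟩
  irr := tt_irr
  two := Subtype.ext two_ps
  hb j := Subtype.ext (by
    change mk c ^ 2 = (pp c j : k⟦X⟧) ^ 2 + X ^ (2 * j + 2) * (mk fun n => c (n + (j + 1))) ^ 2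
    rw [tail c j]
    linear_combination ((pp c j : k⟦X⟧) * X ^ (j + 1) * mk fun n => c (n + (j + 1))) *
      two_ps (k := k))
  hc _ := rfl
  nsq s hs := by
    have h1 : (s : k⟦X⟧) ^ 2 = mk c ^ 2 := congrArg Subtype.val hs
    have h2 : ((s : k⟦X⟧) - mk c) ^ 2 = 0 := by
      linear_combination h1 + (mk c ^ 2 - (s : k⟦X⟧) * mk c) * two_ps (k := k)
    have h3 : (s : k⟦X⟧) = mk c := sub_eq_zero.1 (pow_eq_zero_iff two_ne_zero |>.1 h2)
    obtain ⟨E, hE, h⟩ := s.2
    rw [h3] at h
    simp only [coeff_mk] at h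
    have h4 : LinearIndependent (K2 k) fun n => (⟨c n, h n⟩ : E) :=
      LinearIndependent.of_comp E.val.toLinearMap hc
    exact not_finite_iff_infinite.2 inferInstance h4.finite

/-- the coefficient field -/
abbrev kk : Type := FractionRing (MvPolynomial ℝ (ZMod 2))

theorem indep : LinearIndependent (K2 kk)
    fun n : ℕ => algebraMap (MvPolynomial ℝ (ZMod 2)) kk (MvPolynomial.X (n : ℝ)) := by
  classical
  rw [linearIndependent_iff']
  intro s g hg i hi
  choose r hr using fun n => (g n).2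
  obtain ⟨d, hd⟩ := IsLocalization.exist_integer_multiples
    (nonZeroDivisors (MvPolynomial ℝ (ZMod 2))) s r
  choose! q hq using hd
  have h1 : ∑ n ∈ s, q n ^ 2 * MvPolynomial.X (n : ℝ) = 0 := by
    apply IsFractionRing.injective _ kk
    rw [map_sum, map_zero]
    have : ∀ n ∈ s, algebraMap (MvPolynomial ℝ (ZMod 2)) kk (q n ^ 2 * MvPolynomial.X (n : ℝ)) =
        algebraMap (MvPolynomial ℝ (ZMod 2)) kk d.1 ^ 2 *
          (g n • algebraMap (MvPolynomial ℝ (ZMod 2)) kk (MvPolynomial.X (n : ℝ))) := by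
      intro n hn
      rw [map_mul, map_pow, hq n hn, Algebra.smul_def, Subfield.smul_def, ← hr n, frobenius_def,
        smul_eq_mul]
      ring
    rw [Finset.sum_congr rfl this, ← Finset.mul_sum, hg, mul_zero]
  have h2 := congrArg (MvPolynomial.pderiv (i : ℝ)) h1
  rw [map_sum, map_zero, Finset.sum_eq_single i] at h2
  · have h3 : q i = 0 := by
      simpa [Derivation.leibniz, Derivation.leibniz_pow, CharTwo.two_eq_zero] using h2
    have h4 := hq i hi
    rw [h3, map_zero, eq_comm, Algebra.smul_def, mul_eq_zero] at h4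
    have h5 : r i = 0 := h4.resolve_left
      (IsFractionRing.to_map_ne_zero_of_mem_nonZeroDivisors d.2)
    apply Subtype.ext
    rw [← hr i, h5, map_zero]; rfl
  · intro n _ hn
    have : (n : ℝ) ≠ i := by exact_mod_cast hn
    simp [Derivation.leibniz, Derivation.leibniz_pow, CharTwo.two_eq_zero,
      MvPolynomial.pderiv_X_of_ne this]
  · intro h; exact absurd hi h

instance : Uncountable kk :=
  ((IsFractionRing.injective (MvPolynomial ℝ (ZMod 2)) kk).comp
    MvPolynomial.X_injective).uncountable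

end Pool.Agent.H79.CMD
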