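import Mathlib

set_option autoImplicit false

/-! Euler derivations and squares on iterated Laurent series in characteristic two. -/

namespace Pool.Agent.H79.Car

open HahnSeries

/-- exponents -/
abbrev G : Type := Lex (Fin 3 → ℤ)

/-- iterated Laurent series -/
abbrev H : Type := HahnSeries G (ZMod 2)

/-- Euler derivation -/
noncomputable def Eh (i : Fin 3) (f : H) : H where
  coeff g := ((ofLex g i : ℤ) : ZMod 2) * f.coeff g
  isPWO_support' := f.isPWO_support.mono fun _ hg => right_ne_zero_of_mul hg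

theorem Eh_coeff (i : Fin 3) (f : H) (g : G) :
    (Eh i f).coeff g = ((ofLex g i : ℤ) : ZMod 2) * f.coeff g := rfl

theorem Eh_supp (i : Fin 3) (f : H) : (Eh i f).support ⊆ f.support :=
  fun _ hg => right_ne_zero_of_mul hg

theorem Eh_add (i : Fin 3) (f f' : H) : Eh i (f + f') = Eh i f + Eh i f' := by
  ext g; simp [Eh_coeff, mul_add]

theorem Eh_mul (i : Fin 3) (f f' : H) : Eh i (f * f') = f * Eh i f' + f' * Eh i f := by
  ext g
  rw [coeff_add, mul_comm f', coeff_mul_right' f'.isPWO_support (Eh_supp i f'),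
    coeff_mul_left' f.isPWO_support (Eh_supp i f), Eh_coeff, coeff_mul, Finset.mul_sum,
    ← Finset.sum_add_distrib]
  refine Finset.sum_congr rfl fun p hp => ?_
  obtain ⟨-, -, h⟩ := Finset.mem_antidiagonal.1 hp
  rw [Eh_coeff, Eh_coeff, ← h, ofLex_add, Pi.add_apply, Int.cast_add]
  ring

theorem Eh_comm (i j : Fin 3) (f : H) : Eh i (Eh j f) = Eh j (Eh i f) := by
  ext g; simp only [Eh_coeff]; ring

theorem Eh_single (i : Fin 3) (g : G) :
    Eh i (single g 1) = single g ((ofLex g i : ℤ) : ZMod 2) := by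
  ext g'
  rw [Eh_coeff]
  by_cases h : g' = g
  · simp [h]
  · simp [coeff_single_of_ne h]

theorem sq_coeff (f : H) (g : G) : (f ^ 2).coeff g = ∑ p ∈
    (Finset.antidiagonal f.isPWO_support f.isPWO_support g).filter (fun p => p.1 = p.2),
      f.coeff p.1 * f.coeff p.2 := by
  rw [sq, coeff_mul, ← Finset.sum_filter_add_sum_filter_not _ (fun p => p.1 = p.2),
    add_eq_left]
  refine Finset.sum_involution (fun p _ => p.swap) (fun p _ => ?_) (fun p hp _ h => ?_)
    (fun p hp => ?_) (fun p _ => rfl)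
  · rw [Prod.fst_swap, Prod.snd_swap, mul_comm]
    exact CharTwo.add_self_eq_zero _
  · exact (Finset.mem_filter.1 hp).2 (congrArg Prod.snd h)
  · obtain ⟨h1, h2⟩ := Finset.mem_filter.1 hp
    obtain ⟨h3, h4, h5⟩ := Finset.mem_antidiagonal.1 h1
    exact Finset.mem_filter.2 ⟨Finset.mem_antidiagonal.2 ⟨h4, h3, (add_comm _ _).trans h5⟩,
      fun h => h2 h.symm⟩

theorem dbl_inj {a b : G} (h : a + a = b + b) : a = b := by
  refine ofLex.injective (funext fun i => ?_)
  have := congrFun (congrArg ofLex h) i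
  simp only [ofLex_add, Pi.add_apply] at this
  omega

theorem z2 (a : ZMod 2) : a * a = a := by revert a; decide

theorem sq_dbl (f : H) (m : G) : (f ^ 2).coeff (m + m) = f.coeff m := by
  rw [sq_coeff, Finset.sum_eq_single (m, m), z2]
  · rintro ⟨a, b⟩ hp hne
    obtain ⟨h1, h2⟩ := Finset.mem_filter.1 hp
    obtain ⟨-, -, h5⟩ := Finset.mem_antidiagonal.1 h1
    dsimp only at h2 h5
    subst h2
    exact (hne (by rw [dbl_inj h5])).elim
  · intro h
    by_contra h0
    have := left_ne_zero_of_mul h0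
    exact h (Finset.mem_filter.2 ⟨Finset.mem_antidiagonal.2 ⟨this, this, rfl⟩, rfl⟩)

theorem sq_ne (f : H) (g : G) (h : ¬ ∃ m, g = m + m) : (f ^ 2).coeff g = 0 := by
  rw [sq_coeff]
  refine Finset.sum_eq_zero fun p hp => ?_
  obtain ⟨h1, h2⟩ := Finset.mem_filter.1 hp
  obtain ⟨-, -, h5⟩ := Finset.mem_antidiagonal.1 h1
  exact (h ⟨p.1, by rw [← h5, h2]⟩).elim

theorem Eh_dbl (i : Fin 3) (f : H) (m : G) : (Eh i f).coeff (m + m) = 0 := by
  rw [Eh_coeff, ofLex_add, Pi.add_apply, Int.cast_add, CharTwo.add_self_eq_zero, zero_mul]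

theorem iter_coeff (f : H) (m : G) (h : ∀ k : ℕ, f.coeff (2 ^ k • m + 2 ^ k • m) = f.coeff (2 ^ k • m))
    (k : ℕ) : f.coeff (2 ^ k • m) = f.coeff m := by
  induction k with
  | zero => simp
  | succ k ih => rw [pow_succ, mul_nsmul, two_nsmul, h, ih]

theorem descend (f : H) (m : G) (hm : m < 0)
    (h : ∀ k : ℕ, f.coeff (2 ^ k • m + 2 ^ k • m) = f.coeff (2 ^ k • m)) : f.coeff m = 0 := by
  by_contra h0
  have hs : StrictAnti fun k : ℕ => 2 ^ k • m := strictAnti_nat_of_succ_lt fun k => by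
    rw [pow_succ, mul_nsmul, two_nsmul]
    exact add_lt_of_neg_left _ (nsmul_neg hm (by positivity))
  exact (Set.isWF_iff_no_descending_seq.1 f.isWF_support) _ hs fun k => by
    rw [mem_support, iter_coeff f m h]; exact h0

theorem fin_zero (f : H) (hf : f.support.Finite) (h0 : f.coeff 0 = 0)
    (h : ∀ m, f.coeff (m + m) = f.coeff m) : f = 0 := by
  ext m
  by_contra hm
  have hm0 : m ≠ 0 := by rintro rfl; exact hm h0
  refine Set.infinite_of_injective_forall_mem (f := fun k : ℕ => 2 ^ k • m) (fun a b hab => ?_)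
    (fun k => ?_) hf
  · obtain ⟨i, hi⟩ := Function.ne_iff.1 (show ofLex m ≠ 0 from hm0)
    have : 2 ^ a • ofLex m i = 2 ^ b • ofLex m i := congrFun (congrArg ofLex hab) i
    simp only [nsmul_eq_mul] at this
    exact Nat.pow_right_injective le_rfl (by exact_mod_cast mul_right_cancel₀ hi this)
  · rw [mem_support, iter_coeff f m fun _ => h _]; exact hm

theorem neg_lt (m : G) (h : ∀ i, ofLex m i ≤ 0) (h0 : m ≠ 0) : m < 0 :=
  lt_of_le_of_ne (Pi.toLex_monotone (show ofLex m ≤ 0 from h)) h0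

end Pool.Agent.H79.Car
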