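import Mathlib
import Pool.Agent.H79.Car1

set_option autoImplicit false

/-! Logarithmic charts on rational function fields in characteristic two. -/

namespace Pool.Agent.H79.Car

open HahnSeries

/-- derivations -/
abbrev Der (K : Type) [Field K] : Type := Derivation ℤ K K

/-- the exponent of the `j`-th variable -/
def ex (j : Fin 3) : G := toLex (-Pi.single j 1)

theorem ex_apply (j i : Fin 3) : ofLex (ex j) i = if i = j then -1 else 0 := by
  change -(Pi.single j (1 : ℤ) : Fin 3 → ℤ) i = _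
  split_ifs with h <;> simp [h]

/-- coordinates on a field, with an expansion in iterated Laurent series -/
structure Chart (K : Type) [Field K] where
  x : Fin 3 → K
  ι : K →+* H
  E : Fin 3 → Der K
  hx : ∀ j, ι (x j) = single (ex j) 1
  hE : ∀ i f, ι (E i f) = Eh i (ι f)
  gen : Subfield.closure (Set.range x) = ⊤

/-- expansion of polynomials -/
noncomputable def gP : MvPolynomial (Fin 3) (ZMod 2) →+* H :=
  MvPolynomial.eval₂Hom HahnSeries.C fun j => single (ex j) 1

theorem single_prod (m : Fin 3 → ℤ) :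
    ∏ j, (single (ex j) (1 : ZMod 2) : H) ^ (m j) = single (toLex (-m)) 1 := by
  have key : ∀ (g : G) (n : ℤ), (single g (1 : ZMod 2) : H) ^ n = single (n • g) 1 := by
    intro g n
    obtain ⟨k, rfl | rfl⟩ := n.eq_nat_or_neg <;> simp [single_pow]
  simp only [key, Fin.prod_univ_three, single_mul_single, mul_one]
  congr 2
  refine ofLex.injective (funext fun i => ?_)
  change m 0 • ofLex (ex 0) i + m 1 • ofLex (ex 1) i + m 2 • ofLex (ex 2) i = - m i
  simp only [ex_apply]
  fin_cases i <;> simp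

theorem gP_mono (m : Fin 3 →₀ ℕ) (c : ZMod 2) :
    gP (MvPolynomial.monomial m c) = single (toLex (-fun i => (m i : ℤ))) c := by
  rw [gP, MvPolynomial.eval₂Hom_monomial, Finsupp.prod_fintype _ _ (by simp)]
  have := single_prod fun i => (m i : ℤ)
  simp only [zpow_natCast] at this
  rw [this, HahnSeries.C_apply, single_mul_single, zero_add, mul_one]

theorem gP_inj : Function.Injective gP := by
  rw [injective_iff_map_eq_zero]
  intro p hp
  ext m
  have := congrArg (fun f : H => f.coeff (toLex (-fun i => (m i : ℤ)))) hp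
  rw [p.as_sum, map_sum] at this
  simp only [gP_mono, coeff_sum, coeff_zero] at this
  rw [Finset.sum_eq_single m] at this
  · simpa using this
  · intro b _ hb
    refine coeff_single_of_ne fun h => hb (Finsupp.ext fun i => ?_)
    have := congrFun (toLex.injective h) i
    simp only [Pi.neg_apply] at this
    omega
  · intro h
    simp [MvPolynomial.notMem_support_iff.1 h]

theorem Eh_one (i : Fin 3) : Eh i 1 = 0 := by
  have := Eh_mul i 1 1
  simpa using this

theorem Eh_zero (i : Fin 3) : Eh i 0 = 0 := by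
  have := Eh_add i 0 0
  simpa using this

theorem exists_chart {K : Type} [Field K] (φ : MvPolynomial (Fin 3) (ZMod 2) →+* K)
    (hφ : Function.Injective φ) (hs : ∀ z : K, ∃ a b, z = φ a / φ b) :
    ∃ C : Chart K, ∀ j, C.x j = φ (.X j) := by
  let _ := φ.toAlgebra
  have : FaithfulSMul (MvPolynomial (Fin 3) (ZMod 2)) K :=
    (faithfulSMul_iff_algebraMap_injective _ _).2 hφ
  have : IsFractionRing (MvPolynomial (Fin 3) (ZMod 2)) K := IsFractionRing.of_field _ _ hs
  let ι : K →+* H := IsFractionRing.lift gP_inj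
  have hι : ∀ j, ι (φ (.X j)) = single (ex j) 1 := fun j =>
    (IsFractionRing.lift_algebraMap gP_inj _).trans (by simp [gP])
  have hp : ∀ a, φ a ∈ Subfield.closure (Set.range fun j => φ (.X j)) := by
    intro a
    induction a using MvPolynomial.induction_on with
    | C c =>
      have : c = 0 ∨ c = 1 := by revert c; decide
      rcases this with rfl | rfl <;> simp
    | add p q hp hq => rw [map_add]; exact add_mem hp hq
    | mul_X p j hp => rw [map_mul]; exact mul_mem hp (Subfield.subset_closure ⟨j, rfl⟩)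
  have gen : Subfield.closure (Set.range fun j => φ (.X j)) = ⊤ := by
    rw [eq_top_iff]
    intro z _
    obtain ⟨a, b, rfl⟩ := hs z
    exact div_mem (hp a) (hp b)
  have hex : ∀ i f, ∃ g, ι g = Eh i (ι f) := by
    intro i f
    have hf : f ∈ Subfield.closure (Set.range fun j => φ (.X j)) := gen ▸ trivial
    induction hf using Subfield.closure_induction with
    | mem _ h =>
      obtain ⟨j, rfl⟩ := h
      refine ⟨(ofLex (ex j) i : ℤ) * φ (.X j), ?_⟩
      rw [map_mul, hι, Eh_single, map_intCast, ← map_intCast (HahnSeries.C (Γ := G) (R := ZMod 2)),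
        HahnSeries.C_apply, single_mul_single, zero_add, mul_one]
    | one => exact ⟨0, by rw [map_one, Eh_one, map_zero]⟩
    | add a b _ _ ha hb =>
      obtain ⟨a', ha⟩ := ha
      obtain ⟨b', hb⟩ := hb
      exact ⟨a' + b', by rw [map_add, map_add, Eh_add, ha, hb]⟩
    | neg a _ ha =>
      obtain ⟨a', ha⟩ := ha
      refine ⟨-a', ?_⟩
      have := Eh_add i (ι a) (ι (-a))
      rw [← map_add, add_neg_cancel, map_zero, Eh_zero, ← ha] at this
      rw [map_neg]
      linear_combination this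
    | inv a _ ha =>
      obtain ⟨a', ha⟩ := ha
      refine ⟨-(a⁻¹ * a⁻¹ * a'), ?_⟩
      by_cases h0 : a = 0
      · simp [h0, Eh_zero]
      have h1 : ι a ≠ 0 := (map_ne_zero ι).2 h0
      have := Eh_mul i (ι a) (ι a⁻¹)
      rw [← map_mul, mul_inv_cancel₀ h0, map_one, Eh_one, ← ha] at this
      apply mul_left_cancel₀ h1
      simp only [map_neg, map_mul, map_inv₀] at this ⊢
      field_simp at this ⊢
      linear_combination this
    | mul a b _ _ ha hb =>
      obtain ⟨a', ha⟩ := ha
      obtain ⟨b', hb⟩ := hb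
      exact ⟨a * b' + b * a', by rw [map_add, map_mul, map_mul, map_mul, Eh_mul, ha, hb]⟩
  choose E hE using hex
  let E' : Fin 3 → Der K := fun i => Derivation.mk'
    (AddMonoidHom.mk' (E i) fun a b => ι.injective (by
      rw [map_add, hE, hE, hE, map_add, Eh_add])).toIntLinearMap fun a b => ι.injective (by
      change ι (E i (a * b)) = ι (a * E i b + b * E i a)
      rw [map_add, map_mul, map_mul, hE, hE, hE, map_mul, Eh_mul])
  exact ⟨⟨_, ι, E', hι, hE, gen⟩, fun _ => rfl⟩

variable {K : Type} [Field K] (C : Chart K)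

namespace Chart

theorem x_ne (j : Fin 3) : C.x j ≠ 0 := fun h => by
  have := C.hx j
  rw [h, map_zero] at this
  exact one_ne_zero (single_eq_zero_iff.1 this.symm)

include C in
theorem two : (2 : K) = 0 := C.ι.injective (by
  rw [map_ofNat, map_zero, ← map_ofNat (HahnSeries.C (Γ := G) (R := ZMod 2))]
  exact (congrArg _ (by decide)).trans (map_zero _))

theorem E_x (i j : Fin 3) : C.E i (C.x j) = if i = j then C.x j else 0 := by
  apply C.ι.injective
  rw [C.hE, C.hx, Eh_single, ex_apply]
  split_ifs with h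
  · rw [C.hx]
    congr 1
  · simp

theorem E_comm (i j : Fin 3) (f : K) : C.E i (C.E j f) = C.E j (C.E i f) :=
  C.ι.injective (by simp only [C.hE, Eh_comm i j])

theorem expand (D : Der K) (f : K) : D f = ∑ i, D (C.x i) / C.x i * C.E i f := by
  have hf : f ∈ Subfield.closure (Set.range C.x) := C.gen ▸ trivial
  induction hf using Subfield.closure_induction with
  | mem _ h =>
    obtain ⟨j, rfl⟩ := h
    simp [C.E_x, C.x_ne]
  | one => simp
  | add a b _ _ ha hb => simp only [map_add, ha, hb, mul_add, Finset.sum_add_distrib]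
  | neg a _ ha => simp only [map_neg, ha, mul_neg, Finset.sum_neg_distrib]
  | inv a _ ha =>
    simp only [Derivation.leibniz_inv, ha, smul_eq_mul, Finset.mul_sum]
    exact Finset.sum_congr rfl fun _ _ => by ring
  | mul a b _ _ ha hb =>
    simp only [Derivation.leibniz, ha, hb, smul_eq_mul, Finset.mul_sum, ← Finset.sum_add_distrib]
    exact Finset.sum_congr rfl fun _ _ => by ring

include C in
theorem D_sq (D : Der K) (a : K) : D (a ^ 2) = 0 := by
  rw [sq, D.leibniz]
  simp only [smul_eq_mul]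
  linear_combination (a * D a) * C.two

theorem cartier (b : K) : ∃ θ, ∀ i, b * C.E i b = C.E i b ^ 2 + C.E i θ := by
  have hf : b ∈ Subfield.closure (Set.range C.x) := C.gen ▸ trivial
  have hsq : ∀ u b, (∃ θ, ∀ i, b * C.E i b = C.E i b ^ 2 + C.E i θ) →
      ∃ θ, ∀ i, u ^ 2 * b * C.E i (u ^ 2 * b) = C.E i (u ^ 2 * b) ^ 2 + C.E i θ := by
    rintro u b ⟨θ, h⟩
    refine ⟨u ^ 2 * (u ^ 2 * θ), fun i => ?_⟩
    simp only [Derivation.leibniz, C.D_sq, smul_eq_mul]
    linear_combination u ^ 4 * h i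
  induction hf using Subfield.closure_induction with
  | mem _ h =>
    obtain ⟨j, rfl⟩ := h
    refine ⟨0, fun i => ?_⟩
    rw [C.E_x]
    split_ifs <;> simp [sq]
  | one => exact ⟨0, by simp⟩
  | add a b _ _ ha hb =>
    obtain ⟨θ, ha⟩ := ha
    obtain ⟨θ', hb⟩ := hb
    refine ⟨θ + θ' + a * b, fun i => ?_⟩
    simp only [map_add, Derivation.leibniz, smul_eq_mul]
    linear_combination ha i + hb i - (C.E i a * C.E i b) * C.two
  | neg a _ ha =>
    obtain ⟨θ, ha⟩ := ha
    exact ⟨θ, fun i => by rw [map_neg]; linear_combination ha i⟩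
  | inv a _ ha =>
    by_cases h0 : a = 0
    · rwa [h0, inv_zero, ← h0]
    have := hsq a⁻¹ a ha
    rwa [show a⁻¹ ^ 2 * a = a⁻¹ by field_simp] at this
  | mul a b _ _ ha hb =>
    obtain ⟨θ, ha⟩ := ha
    obtain ⟨θ', hb⟩ := hb
    refine ⟨a ^ 2 * θ' + b ^ 2 * θ, fun i => ?_⟩
    simp only [map_add, Derivation.leibniz, C.D_sq, smul_eq_mul]
    linear_combination b ^ 2 * ha i + a ^ 2 * hb i - (a * b * C.E i a * C.E i b) * C.two

/-- finite expansion, nonpositive exponents on `I`, negative ones on `I ∩ J` -/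
def Sup (I J : Set (Fin 3)) (f : K) : Prop :=
  (C.ι f).support.Finite ∧ ∀ g ∈ (C.ι f).support, ∀ l ∈ I, ofLex g l ≤ 0 ∧ (l ∈ J → ofLex g l < 0)

variable {C} {I J J' : Set (Fin 3)}

theorem Sup.zero : C.Sup I J 0 := ⟨by simp, by simp⟩

theorem Sup.add {f g : K} (h : C.Sup I J f) (h' : C.Sup I J g) : C.Sup I J (f + g) := by
  have := support_add_subset (x := C.ι f) (y := C.ι g)
  rw [← map_add] at this
  exact ⟨(h.1.union h'.1).subset this, fun m hm => (this hm).elim (h.2 m) (h'.2 m)⟩

theorem Sup.neg {f : K} (h : C.Sup I J f) : C.Sup I J (-f) := by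
  unfold Sup
  rwa [map_neg, support_neg]

theorem Sup.sub {f g : K} (h : C.Sup I J f) (h' : C.Sup I J g) : C.Sup I J (f - g) :=
  sub_eq_add_neg f g ▸ h.add h'.neg

theorem Sup.mul {f g : K} {J'' : Set (Fin 3)} (h : C.Sup I J f) (h' : C.Sup I J' g)
    (hJ : J'' ⊆ J ∪ J') : C.Sup I J'' (f * g) := by
  have := support_mul_subset (x := C.ι f) (y := C.ι g)
  rw [← map_mul] at this
  refine ⟨(h.1.add h'.1).subset this, fun m hm l hl => ?_⟩
  obtain ⟨a, ha, b, hb, rfl⟩ := this hm
  have h1 := h.2 a ha l hl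
  have h2 := h'.2 b hb l hl
  simp only [ofLex_add, Pi.add_apply]
  refine ⟨by omega, fun hl => ?_⟩
  rcases hJ hl with h3 | h3
  · have := h1.2 h3; omega
  · have := h2.2 h3; omega

theorem Sup.E {f : K} (h : C.Sup I ∅ f) (i : Fin 3) : C.Sup I {i} (C.E i f) := by
  unfold Sup
  rw [C.hE]
  refine ⟨h.1.subset (Eh_supp i _), fun m hm l hl => ⟨(h.2 m (Eh_supp i _ hm) l hl).1, ?_⟩⟩
  rintro rfl
  refine lt_of_le_of_ne (h.2 m (Eh_supp l _ hm) l hl).1 fun h0 => hm ?_
  simp [Eh_coeff, h0]

theorem Sup.single {f : K} {g : G} (h : C.ι f = single g 1) (hg : ∀ l ∈ I, ofLex g l ≤ 0) :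
    C.Sup I ∅ f := by
  unfold Sup
  rw [h, support_single_of_ne one_ne_zero]
  refine ⟨Set.finite_singleton _, ?_⟩
  rintro _ rfl l hl
  exact ⟨hg l hl, fun h => h.elim⟩

theorem Sup.x (j : Fin 3) : C.Sup I ∅ (C.x j) := Sup.single (C.hx j) fun l _ => by
  rw [ex_apply]; split_ifs <;> simp

theorem Sup.one : C.Sup I ∅ 1 := Sup.single (g := 0) (by simp) fun _ _ => le_rfl

theorem Sup.poly {f : K} (hf : f ∈ Subring.closure (Set.range C.x)) : C.Sup I ∅ f := by
  induction hf using Subring.closure_induction with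
  | mem _ h => obtain ⟨j, rfl⟩ := h; exact Sup.x j
  | zero => exact Sup.zero
  | one => exact Sup.one
  | add _ _ _ _ ha hb => exact ha.add hb
  | neg _ _ ha => exact ha.neg
  | mul _ _ _ _ ha hb => exact ha.mul hb (by simp)

theorem trunc (C : Chart K) (f : H) (T : Set G) (hT : (f.support ∩ T).Finite) (S : Set K)
    (hS : ∀ g ∈ f.support ∩ T, ∏ j, C.x j ^ (-ofLex g j) ∈ S) :
    ∃ y ∈ AddSubgroup.closure S, (∀ g ∈ T, (C.ι y).coeff g = f.coeff g) ∧
      ∀ g ∉ T, (C.ι y).coeff g = 0 := by
  have key : ∀ g : G, C.ι (∏ j, C.x j ^ (-ofLex g j)) = HahnSeries.single g 1 := fun g => by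
    simp only [map_prod, map_zpow₀, C.hx]
    rw [single_prod fun j => -ofLex g j]
    congr 2
    exact ofLex.injective (funext fun i => neg_neg _)
  have h1 : ∀ a : ZMod 2, a ≠ 0 → a = 1 := by decide
  have h2 : ∀ g, (C.ι (∑ g ∈ hT.toFinset, ∏ j, C.x j ^ (-ofLex g j))).coeff g =
      if g ∈ hT.toFinset then 1 else 0 := fun g => by
    simp only [map_sum, key, coeff_sum, coeff_single]
    convert Finset.sum_ite_eq hT.toFinset g fun _ => (1 : ZMod 2)
  refine ⟨∑ g ∈ hT.toFinset, ∏ j, C.x j ^ (-ofLex g j),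
    sum_mem fun g hg => AddSubgroup.subset_closure (hS g (hT.mem_toFinset.1 hg)),
    fun g hg => ?_, fun g hg => ?_⟩
  · rw [h2]
    split_ifs with h
    · exact (h1 _ (hT.mem_toFinset.1 h).1).symm
    · by_contra h0
      exact h (hT.mem_toFinset.2 ⟨Ne.symm h0, hg⟩)
  · rw [h2, if_neg fun h => hg (hT.mem_toFinset.1 h).2]

end Chart

end Pool.Agent.H79.Car
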