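import Mathlib
import Pool.Agent.H79.Car2

set_option autoImplicit false

/-! Two-forms and the graph of the Cartier operator in characteristic two. -/

namespace Pool.Agent.H79.Car

open HahnSeries Chart

/-- functions of two derivations -/
abbrev Form (K : Type) [Field K] : Type := Der K → Der K → K

variable {K : Type} [Field K]

/-- the form `a db dc` -/
def w (a b c : K) : Form K := fun D1 D2 => a * (D1 b * D2 c - D2 b * D1 c)

/-- forms with entries in `S` -/
def W (S : Set K) : AddSubgroup (Form K) :=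
  AddSubgroup.closure {η | ∃ a ∈ S, ∃ b ∈ S, ∃ c ∈ S, η = w a b c}

/-- graph of the Cartier operator -/
def Gam (K : Type) [Field K] : AddSubgroup (Form K × Form K) :=
  AddSubgroup.closure ({p | ∃ a b c, p = (w (a ^ 2 * b * c) b c, w a b c)} ∪
    {p | ∃ b c, p = (w 1 b c, 0)})

theorem w_mem {S : Set K} {a b c : K} (ha : a ∈ S) (hb : b ∈ S) (hc : c ∈ S) : w a b c ∈ W S :=
  AddSubgroup.subset_closure ⟨a, ha, b, hb, c, hc, rfl⟩

theorem gam1 (a b c : K) : (w (a ^ 2 * b * c) b c, w a b c) ∈ Gam K :=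
  AddSubgroup.subset_closure (Or.inl ⟨a, b, c, rfl⟩)

theorem gam2 (b c : K) : (w 1 b c, 0) ∈ Gam K :=
  AddSubgroup.subset_closure (Or.inr ⟨b, c, rfl⟩)

theorem W_mono {S S' : Set K} (h : S ⊆ S') : W S ≤ W S' := AddSubgroup.closure_mono (by
  rintro _ ⟨a, ha, b, hb, c, hc, rfl⟩
  exact ⟨a, h ha, b, h hb, c, h hc, rfl⟩)

theorem gam_W {p : Form K × Form K} (h : p ∈ Gam K) : p.1 ∈ W Set.univ ∧ p.2 ∈ W Set.univ := by
  induction h using AddSubgroup.closure_induction with
  | mem _ h =>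
    rcases h with ⟨a, b, c, rfl⟩ | ⟨b, c, rfl⟩
    · exact ⟨w_mem trivial trivial trivial, w_mem trivial trivial trivial⟩
    · exact ⟨w_mem trivial trivial trivial, zero_mem _⟩
  | zero => exact ⟨zero_mem _, zero_mem _⟩
  | add _ _ _ _ ha hb => exact ⟨add_mem ha.1 hb.1, add_mem ha.2 hb.2⟩
  | neg _ _ ha => exact ⟨neg_mem ha.1, neg_mem ha.2⟩

theorem form_ext (C : Chart K) {η : Form K} (h : η ∈ W Set.univ)
    (h0 : ∀ i j, i < j → η (C.E i) (C.E j) = 0) : η = 0 := by
  have key : ∀ D1 D2, η D1 D2 =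
      (D1 (C.x 0) / C.x 0 * (D2 (C.x 1) / C.x 1) - D1 (C.x 1) / C.x 1 * (D2 (C.x 0) / C.x 0)) *
        η (C.E 0) (C.E 1) +
      (D1 (C.x 0) / C.x 0 * (D2 (C.x 2) / C.x 2) - D1 (C.x 2) / C.x 2 * (D2 (C.x 0) / C.x 0)) *
        η (C.E 0) (C.E 2) +
      (D1 (C.x 1) / C.x 1 * (D2 (C.x 2) / C.x 2) - D1 (C.x 2) / C.x 2 * (D2 (C.x 1) / C.x 1)) *
        η (C.E 1) (C.E 2) := by
    clear h0
    intro D1 D2
    induction h using AddSubgroup.closure_induction with
    | mem _ h =>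
      obtain ⟨a, -, b, -, c, -, rfl⟩ := h
      simp only [w]
      rw [C.expand D1 b, C.expand D1 c, C.expand D2 b, C.expand D2 c]
      simp only [Fin.sum_univ_three]
      ring
    | zero => simp
    | add _ _ _ _ ha hb => simp only [Pi.add_apply]; linear_combination ha + hb
    | neg _ _ ha => simp only [Pi.neg_apply]; linear_combination -ha
  funext D1 D2
  rw [key, h0 0 1 (by decide), h0 0 2 (by decide), h0 1 2 (by decide)]
  simp

theorem rel (C : Chart K) {p : Form K × Form K} (h : p ∈ Gam K) : ∃ θ : Fin 3 → K, ∀ i j,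
    p.1 (C.E i) (C.E j) = p.2 (C.E i) (C.E j) ^ 2 + C.E i (θ j) - C.E j (θ i) := by
  induction h using AddSubgroup.closure_induction with
  | mem _ h =>
    rcases h with ⟨a, b, c, rfl⟩ | ⟨b, c, rfl⟩
    · obtain ⟨θ, hb⟩ := C.cartier b
      obtain ⟨θ', hc⟩ := C.cartier c
      refine ⟨fun j => a ^ 2 * (θ * (c * C.E j c) - C.E j b ^ 2 * θ'), fun i j => ?_⟩
      simp only [w, Derivation.leibniz, map_sub, C.D_sq, smul_eq_mul, C.E_comm i j c]
      linear_combination (a ^ 2 * c * C.E j c) * hb i - (a ^ 2 * c * C.E i c) * hb j +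
        (a ^ 2 * C.E i b ^ 2) * hc j - (a ^ 2 * C.E j b ^ 2) * hc i +
        (a ^ 2 * (C.E i b * C.E j c * (C.E j b * C.E i c) - C.E j b ^ 2 * C.E i c ^ 2)) * C.two
    · refine ⟨fun j => b * C.E j c, fun i j => ?_⟩
      simp only [w, Derivation.leibniz, smul_eq_mul, C.E_comm i j c, Pi.zero_apply]
      ring
  | zero => exact ⟨0, by simp⟩
  | add p q _ _ ha hb =>
    obtain ⟨θ, ha⟩ := ha
    obtain ⟨θ', hb⟩ := hb
    refine ⟨θ + θ', fun i j => ?_⟩
    simp only [Prod.fst_add, Prod.snd_add, Pi.add_apply, map_add]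
    linear_combination ha i j + hb i j - (p.2 (C.E i) (C.E j) * q.2 (C.E i) (C.E j)) * C.two
  | neg p _ ha =>
    obtain ⟨θ, ha⟩ := ha
    refine ⟨-θ, fun i j => ?_⟩
    simp only [Prod.fst_neg, Prod.snd_neg, Pi.neg_apply, map_neg]
    linear_combination -ha i j - p.2 (C.E i) (C.E j) ^ 2 * C.two

theorem rel_dbl (C : Chart K) {a s b c : K} {i j : Fin 3} (h : a = s ^ 2 + C.E i b - C.E j c)
    (m : G) : (C.ι a).coeff (m + m) = (C.ι s).coeff m := by
  rw [h, map_sub, map_add, map_pow, coeff_sub, coeff_add, sq_dbl, C.hE, C.hE, Eh_dbl, Eh_dbl]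
  simp

theorem W_sup (C : Chart K) (I : Set (Fin 3)) {η : Form K} (h : η ∈ W {f | C.Sup I ∅ f})
    (i j : Fin 3) : C.Sup I {i, j} (η (C.E i) (C.E j)) := by
  induction h using AddSubgroup.closure_induction with
  | mem _ h =>
    obtain ⟨a, ha, b, hb, c, hc, rfl⟩ := h
    refine Sup.mul ha (Sup.sub ((Sup.E hb i).mul (Sup.E hc j) ?_)
      ((Sup.E hb j).mul (Sup.E hc i) ?_)) (J' := {i, j}) (by simp)
    · rintro _ (rfl | rfl) <;> simp
    · rintro _ (rfl | rfl) <;> simp
  | zero => exact Sup.zero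
  | add _ _ _ _ ha hb => exact ha.add hb
  | neg _ _ ha => exact ha.neg

theorem log_zero (C : Chart K) {ζ : Form K} (h : (ζ, ζ) ∈ Gam K)
    (hs : ζ ∈ W {f | C.Sup {1, 2} ∅ f}) : ζ = 0 := by
  obtain ⟨θ, hθ⟩ := rel C h
  refine form_ext C (gam_W h).1 fun i j hij => C.ι.injective ?_
  have h1 := W_sup C _ hs i j
  rw [map_zero]
  refine fin_zero _ h1.1 ?_ (rel_dbl C (hθ i j))
  by_contra h0
  have hj : j ∈ ({1, 2} : Set (Fin 3)) := by
    fin_cases j
    · simp at hij
    · simp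
    · simp
  exact lt_irrefl _ ((h1.2 0 h0 j hj).2 (by simp))

/-- the negative cone -/
def Ng : Set G := {g | (∀ l, ofLex g l ≤ 0) ∧ g ≠ 0}

theorem Ng_dbl (m : G) : m + m ∈ Ng ↔ m ∈ Ng := by
  refine and_congr (forall_congr' fun l => ?_) (not_congr ⟨fun h => dbl_inj (by simpa using h),
    fun h => by simp [h]⟩)
  simp only [ofLex_add, Pi.add_apply]
  omega

theorem cone (s e o : H) (J : Set (Fin 3)) (h1 : ∀ m, e.coeff (m + m) = s.coeff m)
    (h2 : e = s + o) (h3 : o.support.Finite) (h4 : ∀ g ∈ o.support, ∀ l ∈ J, ofLex g l < 0) :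
    (s.support ∩ Ng).Finite ∧ ∀ g ∈ s.support ∩ Ng, ∀ l ∈ J, ofLex g l < 0 := by
  have key : ∀ m ∈ s.support ∩ Ng, ∃ k : ℕ, 2 ^ (k + 1) • m ∈ o.support := by
    rintro m ⟨hm, hN⟩
    by_contra hc
    push Not at hc
    refine hm (descend s m (neg_lt m hN.1 hN.2) fun k => ?_)
    have := hc k
    rw [mem_support, not_not, pow_succ, mul_nsmul, two_nsmul] at this
    rw [← h1 (2 ^ k • m), h2, coeff_add, this, add_zero]
  have co : ∀ (k : ℕ) (m : G) (l : Fin 3), ofLex (k • m) l = k * ofLex m l := fun k m l => by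
    change k • ofLex m l = _
    simp
  constructor
  · refine (h3.biUnion fun g _ => (Set.finite_Icc (ofLex g) 0).image toLex).subset fun m hm => ?_
    obtain ⟨k, hk⟩ := key m hm
    refine Set.mem_biUnion hk ⟨ofLex m, ⟨fun l => ?_, hm.2.1⟩, rfl⟩
    rw [co]
    have := hm.2.1 l
    have h5 : (1 : ℤ) ≤ (2 ^ (k + 1) : ℕ) := by exact_mod_cast Nat.one_le_two_pow
    nlinarith
  · intro m hm l hl
    obtain ⟨k, hk⟩ := key m hm
    have := h4 _ hk l hl
    rw [co] at this
    exact neg_of_mul_neg_right this (by positivity)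

theorem main (C C' : Chart K) {η ξ : Form K} (h : (η, ξ) ∈ Gam K)
    (hω : η - ξ ∈ W (Subring.closure (Set.range C.x) : Set K))
    (hA : ∀ f ∈ Subring.closure (Set.range C.x), C'.Sup {1, 2} ∅ f)
    (hξ : ξ ∈ W {f | C'.Sup {1, 2} ∅ f}) (i j : Fin 3) (hij : i < j) :
    ∃ p ∈ Subring.closure (Set.range C.x), ξ (C.E i) (C.E j) = C.x i * C.x j * p := by
  obtain ⟨θ, hθ⟩ := rel C h
  dsimp only at hθ
  have ho := W_sup C Set.univ (W_mono (fun f hf => Sup.poly hf) hω)
  have hc := fun i j => cone (C.ι (ξ (C.E i) (C.E j))) (C.ι (η (C.E i) (C.E j)))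
    (C.ι ((η - ξ) (C.E i) (C.E j))) {i, j} (rel_dbl C (hθ i j))
    (by rw [← map_add]; simp) (ho i j).1 fun g hg l hl => ((ho i j).2 g hg l trivial).2 hl
  have hp : ∀ i j, ∃ p ∈ Subring.closure (Set.range C.x), i < j →
      (∀ g ∈ Ng, (C.ι (C.x i * C.x j * p)).coeff g = (C.ι (ξ (C.E i) (C.E j))).coeff g) ∧
      ∀ g ∉ Ng, (C.ι (C.x i * C.x j * p)).coeff g = 0 := by
    intro i j
    by_cases hij : i < j
    swap
    · exact ⟨0, zero_mem _, fun h => (hij h).elim⟩
    obtain ⟨y, hy, hy'⟩ := C.trunc _ Ng (hc i j).1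
      {y | ∃ p ∈ Subring.closure (Set.range C.x), y = C.x i * C.x j * p} (fun g hg => by
        refine ⟨∏ l, C.x l ^ (-ofLex g l - (if l = i then 1 else 0) -
          (if l = j then 1 else 0)).toNat, prod_mem fun l _ =>
            pow_mem (Subring.subset_closure (Set.mem_range_self l)) _, ?_⟩
        have e1 : C.x i * C.x j = ∏ l, C.x l ^ (if l = i then 1 else 0) *
            C.x l ^ (if l = j then 1 else 0) := by
          rw [Finset.prod_mul_distrib]
          simp
        rw [e1, ← Finset.prod_mul_distrib]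
        refine Finset.prod_congr rfl fun l _ => ?_
        rw [← _root_.pow_add, ← _root_.pow_add, ← zpow_natCast]
        congr 1
        have a1 := hg.2.1 l
        have a2 := (hc i j).2 g hg l
        by_cases b1 : l = i
        · have := a2 (Or.inl b1)
          have b2 : l ≠ j := by omega
          simp only [if_pos b1, if_neg b2]
          omega
        by_cases b2 : l = j
        · have := a2 (Or.inr b2)
          simp only [if_pos b2, if_neg b1]
          omega
        · simp only [if_neg b2, if_neg b1]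
          omega)
    have : ∃ p ∈ Subring.closure (Set.range C.x), y = C.x i * C.x j * p := by
      clear hy'
      induction hy using AddSubgroup.closure_induction with
      | mem _ h => exact h
      | zero => exact ⟨0, zero_mem _, by simp⟩
      | add _ _ _ _ ha hb =>
        obtain ⟨a, ha, rfl⟩ := ha
        obtain ⟨b, hb, rfl⟩ := hb
        exact ⟨a + b, add_mem ha hb, by ring⟩
      | neg _ _ ha =>
        obtain ⟨a, ha, rfl⟩ := ha
        exact ⟨-a, neg_mem ha, by ring⟩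
    obtain ⟨p, hp, rfl⟩ := this
    exact ⟨p, hp, fun _ => hy'⟩
  choose p hp hp' using hp
  let T : Set G := {g | g ∈ Ng ∧ ∃ i j, g ∈ (C.ι (η (C.E i) (C.E j))).support}
  have hT : T.Finite := by
    refine (Set.finite_iUnion fun i => Set.finite_iUnion fun j =>
      (hc i j).1.union (ho i j).1).subset ?_
    rintro g ⟨hg, i, j, hg'⟩
    simp only [Set.mem_iUnion]
    refine ⟨i, j, ?_⟩
    have e1 : C.ι (η (C.E i) (C.E j)) =
        C.ι (ξ (C.E i) (C.E j)) + C.ι ((η - ξ) (C.E i) (C.E j)) := by rw [← map_add]; simp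
    rw [e1] at hg'
    exact (support_add_subset _ _ hg').imp_left fun h => ⟨h, hg⟩
  choose θ' _ hθ' using fun l => C.trunc (C.ι (θ l)) T (hT.inter_of_right _) Set.univ
    fun _ _ => trivial
  let ξ' : Form K := w (p 0 1) (C.x 0) (C.x 1) + w (p 0 2) (C.x 0) (C.x 2) +
    w (p 1 2) (C.x 1) (C.x 2)
  let η' : Form K := w (p 0 1 ^ 2 * C.x 0 * C.x 1) (C.x 0) (C.x 1) +
    w (p 0 2 ^ 2 * C.x 0 * C.x 2) (C.x 0) (C.x 2) +
    w (p 1 2 ^ 2 * C.x 1 * C.x 2) (C.x 1) (C.x 2) +
    (w 1 (θ' 0 / C.x 0) (C.x 0) + w 1 (θ' 1 / C.x 1) (C.x 1) + w 1 (θ' 2 / C.x 2) (C.x 2))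
  have hG : (η', ξ') ∈ Gam K := by
    have := add_mem (add_mem (add_mem (gam1 (p 0 1) (C.x 0) (C.x 1)) (gam1 (p 0 2) (C.x 0) (C.x 2)))
      (gam1 (p 1 2) (C.x 1) (C.x 2))) (add_mem (add_mem (gam2 (θ' 0 / C.x 0) (C.x 0))
      (gam2 (θ' 1 / C.x 1) (C.x 1))) (gam2 (θ' 2 / C.x 2) (C.x 2)))
    simpa only [Prod.mk_add_mk, add_zero] using this
  have hx0 := C.x_ne 0
  have hx1 := C.x_ne 1
  have hx2 := C.x_ne 2
  have c1 : ∀ i j, i < j → ξ' (C.E i) (C.E j) = C.x i * C.x j * p i j := by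
    intro i j hij
    fin_cases i <;> fin_cases j <;> simp at hij <;> simp [ξ', w, C.E_x] <;> ring
  have c2 : ∀ i j, i < j → η' (C.E i) (C.E j) =
      (C.x i * C.x j * p i j) ^ 2 + C.E i (θ' j) - C.E j (θ' i) := by
    intro i j hij
    fin_cases i <;> fin_cases j <;> simp at hij <;>
      simp [η', w, C.E_x, Derivation.leibniz_div] <;> field_simp <;> ring
  have e1 : η - η' - (ξ - ξ') = 0 := by
    have hm := gam_W (sub_mem h hG)
    refine form_ext C (sub_mem hm.1 hm.2) fun i j hij => C.ι.injective ?_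
    ext g
    have a1 := hp' i j hij
    have a2 : ∀ g ∈ Ng, (C.ι ((C.x i * C.x j * p i j) ^ 2)).coeff g =
        (C.ι (ξ (C.E i) (C.E j) ^ 2)).coeff g := by
      intro g hg
      rw [map_pow, map_pow]
      by_cases hm : ∃ m, g = m + m
      · obtain ⟨m, rfl⟩ := hm
        rw [sq_dbl, sq_dbl, a1.1 m ((Ng_dbl m).1 hg)]
      · rw [sq_ne _ _ hm, sq_ne _ _ hm]
    have a3 : g ∉ T → (C.ι (η' (C.E i) (C.E j))).coeff g = 0 := by
      intro hg
      rw [c2 i j hij, map_sub, map_add, coeff_sub, coeff_add, C.hE, C.hE, Eh_coeff, Eh_coeff,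
        (hθ' _).2 g hg, (hθ' _).2 g hg, map_pow]
      by_cases hm : ∃ m, g = m + m
      · obtain ⟨m, rfl⟩ := hm
        by_cases hN : m ∈ Ng
        · rw [sq_dbl, a1.1 m hN, ← rel_dbl C (hθ i j)]
          by_contra h0
          exact hg ⟨(Ng_dbl m).2 hN, i, j, by simpa using h0⟩
        · simp [sq_dbl, a1.2 m hN, -map_mul]
      · simp [sq_ne _ _ hm, -map_mul]
    simp only [Pi.sub_apply, map_sub, coeff_sub, map_zero, coeff_zero, c1 i j hij]
    by_cases hg : g ∈ Ng
    · rw [a1.1 g hg, sub_self, sub_zero, sub_eq_zero]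
      by_cases hg' : g ∈ T
      · rw [c2 i j hij, hθ i j]
        simp only [map_sub, map_add, coeff_sub, coeff_add, C.hE, Eh_coeff, (hθ' _).1 g hg',
          a2 g hg]
      · rw [a3 hg']
        by_contra h0
        exact hg' ⟨hg, i, j, h0⟩
    · rw [a3 fun h => hg h.1, a1.2 g hg, sub_zero, sub_zero, ← coeff_sub, ← map_sub]
      by_contra h0
      have := (ho i j).2 g h0
      refine hg ⟨fun l => (this l trivial).1, ?_⟩
      rintro rfl
      exact lt_irrefl _ ((this i trivial).2 (by simp))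
  have e2 : ξ - ξ' = 0 := by
    refine log_zero C' ?_ (sub_mem hξ ?_)
    · have := sub_mem h hG
      rwa [Prod.mk_sub_mk, sub_eq_zero.1 e1] at this
    · have hx : ∀ l, C.x l ∈ {f | C'.Sup {1, 2} ∅ f} := fun l =>
        hA _ (Subring.subset_closure ⟨l, rfl⟩)
      exact add_mem (add_mem (w_mem (hA _ (hp _ _)) (hx _) (hx _))
        (w_mem (hA _ (hp _ _)) (hx _) (hx _))) (w_mem (hA _ (hp _ _)) (hx _) (hx _))
  exact ⟨p i j, hp i j, by rw [sub_eq_zero.1 e2, c1 i j hij]⟩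

end Pool.Agent.H79.Car
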