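import Mathlib

/-! Actions of the additive group on an algebra and exponential automorphisms. -/

namespace Pool.Agent.H79.Ga

open Polynomial

variable {k B : Type*} [Field k] [CommRing B] [Algebra k B]

/-- `ε : B → B[T]` is a `G_a`-action: writing `ε b = ∑ bᵢ Tⁱ`, (A1) `b₀ = b`, and (A2)
`∑ ε(bᵢ) Uⁱ = ∑ bᵢ (T + U)ⁱ` in `B[T][U]` (inner variable `T`, outer variable `U`). -/
def IsGaAction (ε : B →ₐ[k] B[X]) : Prop :=
  ∀ b : B, (ε b).coeff 0 = b ∧
    (ε b).sum (fun i c => C (ε c) * (X : B[X][X]) ^ i) =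
      (ε b).sum (fun i c => C (C c) * (C X + X : B[X][X]) ^ i)

/-- `φ` is exponential: `φ = ε_a` for a `G_a`-action `ε` and an invariant `a` of `ε`. -/
def IsExponential (φ : B ≃ₐ[k] B) : Prop :=
  ∃ (ε : B →ₐ[k] B[X]) (a : B), IsGaAction ε ∧ ε a = C a ∧ ∀ b, φ b = (ε b).eval a

end Pool.Agent.H79.Ga
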