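import Mathlib

/-! Invariant ring and plinth ideal of an automorphism. -/

namespace Pool.Agent.H79.Ga

variable {k B : Type*} [Field k] [CommRing B] [Algebra k B]

/-- The invariant ring `B^φ = {f : φ f = f}`. -/
def invRing (φ : B ≃ₐ[k] B) : Subalgebra k B := AlgHom.equalizer (φ : B →ₐ[k] B) (AlgHom.id k B)

/-- The plinth ideal `(φ - id)(B) ∩ B^φ` of `B^φ`. -/
def plinth (φ : B ≃ₐ[k] B) : Ideal (invRing φ) where
  carrier := {a | ∃ b : B, φ b - b = a}
  add_mem' := by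
    rintro a a' ⟨b, hb⟩ ⟨b', hb'⟩
    exact ⟨b + b', by rw [map_add, Subalgebra.coe_add, ← hb, ← hb']; ring⟩
  zero_mem' := ⟨0, by simp⟩
  smul_mem' := by
    rintro c a ⟨b, hb⟩
    have hc : φ c = c := c.2
    exact ⟨c * b, by rw [map_mul, hc, smul_eq_mul, Subalgebra.coe_mul, ← hb]; ring⟩

end Pool.Agent.H79.Ga
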