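import Mathlib
import Pool.Agent.H79.GaDefs
import Pool.Agent.H79.GaPl

set_option autoImplicit false

/-! An exponential automorphism of order two with principal plinth ideal. -/

namespace Pool.Agent.H79.Car

open Pool.Agent.H79.Ga Polynomial

/-- the polynomial ring -/
abbrev B : Type := MvPolynomial (Fin 3) (ZMod 2)

noncomputable section

/-- first variable -/
def t : B := .X 0
/-- second variable -/
def x : B := .X 1
/-- third variable -/
def y : B := .X 2
/-- `v = t y + x ^ 2` -/
def v : B := t * y + x ^ 2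
/-- `w = t x + v ^ 3` -/
def ww : B := t * x + v ^ 3
/-- increment -/
def hT : B[X] := C v ^ 2 * X + C t ^ 2 * C v * X ^ 2 + C t ^ 4 * X ^ 3
/-- the action -/
def eps : B →ₐ[ZMod 2] B[X] :=
  MvPolynomial.aeval ![C t, C x + C t * hT, C y + C t * (X + hT ^ 2)]
/-- increment at `1` -/
def h : B := v ^ 2 + t ^ 2 * v + t ^ 4
/-- the automorphism -/
def ph : B →ₐ[ZMod 2] B := MvPolynomial.aeval ![t, x + t * h, y + t * (1 + h ^ 2)]

theorem two : (2 : B) = 0 := CharTwo.two_eq_zero
theorem t_ne : t ≠ 0 := MvPolynomial.X_ne_zero 0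

theorem eps_t : eps t = C t := MvPolynomial.aeval_X _ _
theorem eps_x : eps x = C x + C t * hT := MvPolynomial.aeval_X _ _
theorem eps_y : eps y = C y + C t * (X + hT ^ 2) := MvPolynomial.aeval_X _ _
theorem ph_t : ph t = t := MvPolynomial.aeval_X _ _
theorem ph_x : ph x = x + t * h := MvPolynomial.aeval_X _ _
theorem ph_y : ph y = y + t * (1 + h ^ 2) := MvPolynomial.aeval_X _ _

theorem eps_v : eps v = C v + C t ^ 2 * X := by
  have h2 : (2 : B[X]) = 0 := CharTwo.two_eq_zero
  rw [v, map_add, map_mul, map_pow, eps_t, eps_x, eps_y, map_add, map_mul, map_pow]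
  linear_combination (C t ^ 2 * hT ^ 2 + C x * C t * hT) * h2

theorem eps_w : eps ww = C ww := by
  have h2 : (2 : B[X]) = 0 := CharTwo.two_eq_zero
  rw [ww, map_add, map_mul, map_pow, eps_t, eps_x, eps_v, map_add, map_mul, map_pow, hT]
  linear_combination (2 * C t ^ 2 * C v ^ 2 * X + 2 * C t ^ 4 * C v * X ^ 2 + C t ^ 6 * X ^ 3) * h2

theorem hom_ext {S : Type} [CommRing S] [IsDomain S] (f g : B →+* S) (h0 : f t ≠ 0)
    (h1 : f t = g t) (h2 : f v = g v) (h3 : f ww = g ww) : f = g := by
  have hx : f x = g x := by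
    apply mul_left_cancel₀ h0
    simp only [ww, map_add, map_mul, map_pow] at h3
    rw [h2, ← h1] at h3
    exact add_right_cancel h3
  have hy : f y = g y := by
    apply mul_left_cancel₀ h0
    simp only [v, map_add, map_mul, map_pow] at h2
    rw [hx, ← h1] at h2
    exact add_right_cancel h2
  refine MvPolynomial.ringHom_ext (fun r => ?_) fun i => ?_
  · have : r = 0 ∨ r = 1 := by revert r; decide
    rcases this with rfl | rfl <;> simp
  · fin_cases i
    exacts [h1, hx, hy]

theorem eps_eval (b : B) : (eps b).eval 1 = ph b := by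
  have : ((aeval (1 : B)).restrictScalars (ZMod 2)).comp eps = ph := by
    refine MvPolynomial.algHom_ext fun i => ?_
    fin_cases i <;> simp [eps, ph, hT, h]
  simpa using DFunLike.congr_fun this b

theorem isGa : IsGaAction eps := by
  intro b
  constructor
  · have := hom_ext ((evalRingHom (0 : B)).comp (eps : B →+* B[X])) (RingHom.id B)
      (by simp [eps_t, t_ne]) (by simp [eps_t]) (by simp [eps_v]) (by simp [eps_w])
    rw [coeff_zero_eq_eval_zero]
    exact DFunLike.congr_fun this b
  · have := hom_ext (S := B[X][X]) ((mapRingHom (eps : B →+* B[X])).comp (eps : B →+* B[X]))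
      ((eval₂RingHom (C.comp C) (C X + X : B[X][X])).comp (eps : B →+* B[X]))
      (by simp [eps_t, t_ne]) (by simp [eps_t]) (by
        simp only [RingHom.comp_apply, RingHom.coe_coe, eps_v, map_add, map_mul, map_pow]
        simp [eps_v, eps_t]
        ring) (by simp [eps_w])
    have e := DFunLike.congr_fun this b
    simp only [RingHom.comp_apply, coe_mapRingHom, coe_eval₂RingHom, RingHom.coe_coe] at e
    rw [Polynomial.map, eval₂_eq_sum, eval₂_eq_sum] at e
    exact e

theorem ph_v : ph v = v + t ^ 2 := by rw [← eps_eval, eps_v]; simp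
theorem ph_w : ph ww = ww := by rw [← eps_eval, eps_w]; simp

theorem ph_h : ph h = h := by
  simp only [h, map_add, map_mul, map_pow, ph_v, ph_t]
  linear_combination (v * t ^ 2 + t ^ 4) * two

theorem ph_ph : ph.comp ph = AlgHom.id _ _ := by
  have := hom_ext (ph.comp ph : B →+* B) (RingHom.id B) (by simp [ph_t, t_ne]) (by simp [ph_t])
    (by simp only [AlgHom.coe_comp, RingHom.coe_coe, Function.comp, ph_v, map_add, map_pow, ph_t,
          RingHom.id_apply]
        linear_combination t ^ 2 * two) (by simp [ph_w])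
  exact AlgHom.ext fun b => DFunLike.congr_fun this b

/-- the automorphism as an equivalence -/
def phi : B ≃ₐ[ZMod 2] B := AlgEquiv.ofAlgHom ph ph ph_ph ph_ph

theorem phi_exp : IsExponential phi :=
  ⟨eps, 1, isGa, by simp, fun b => (eps_eval b).symm⟩

/-- the infinitesimal generator -/
def D : Derivation (ZMod 2) B B := MvPolynomial.mkDerivation _ ![0, h, 1 + h ^ 2]

theorem D_t : D t = 0 := MvPolynomial.mkDerivation_X _ _ _
theorem D_x : D x = h := MvPolynomial.mkDerivation_X _ _ _
theorem D_y : D y = 1 + h ^ 2 := MvPolynomial.mkDerivation_X _ _ _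

theorem taylor (b : B) : ∃ R, ph b = b + t * D b + t ^ 2 * R := by
  induction b using MvPolynomial.induction_on with
  | C c => exact ⟨0, by simp [ph]⟩
  | add p q hp hq =>
    obtain ⟨R, hp⟩ := hp
    obtain ⟨R', hq⟩ := hq
    exact ⟨R + R', by rw [map_add, map_add, hp, hq]; ring⟩
  | mul_X p j hp =>
    obtain ⟨R, hp⟩ := hp
    have : ph (.X j) = .X j + t * D (.X j) := by
      fin_cases j
      · exact ph_t.trans (show t = t + t * D t by rw [D_t]; ring)
      · exact ph_x.trans (by rw [← D_x]; rfl)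
      · exact ph_y.trans (by rw [← D_y]; rfl)
    refine ⟨D p * D (.X j) + R * (.X j + t * D (.X j)), ?_⟩
    rw [map_mul, hp, this, D.leibniz]
    simp only [smul_eq_mul]
    ring

/-- slice -/
def r : B := y + h * x

theorem ph_r : ph r = r + t := by
  simp only [r, map_add, map_mul, ph_x, ph_y, ph_h]
  linear_combination t * h ^ 2 * two

/-- the invariant ring -/
abbrev A : Type := invRing phi

/-- an invariant -/
def mk (b : B) (hb : ph b = b) : A := ⟨b, hb⟩

theorem inv (a : A) : ph a.1 = a.1 := a.2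

theorem D_dvd (a : A) : t ∣ D a.1 := by
  obtain ⟨R, hR⟩ := taylor a.1
  rw [inv] at hR
  exact ⟨-R, mul_left_cancel₀ t_ne (by linear_combination -hR)⟩

/-- `t` -/
def tA : A := mk t ph_t
/-- `w` -/
def wA : A := mk ww ph_w
/-- `n` -/
def nA : A := mk (v ^ 2 + t ^ 2 * v) (by
  simp only [map_add, map_mul, map_pow, ph_v, ph_t]
  linear_combination (v * t ^ 2 + t ^ 4) * two)
/-- `u` -/
def uA : A := mk (v + t * r) (by
  simp only [map_add, map_mul, ph_v, ph_t, ph_r]
  linear_combination t ^ 2 * two)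
/-- `c` -/
def cA : A := mk (r ^ 2 + t * r) (by
  simp only [map_add, map_mul, map_pow, ph_t, ph_r]
  linear_combination (r * t + t ^ 2) * two)
/-- `x'` -/
def xA : A := mk (x + h * r) (by
  simp only [map_add, map_mul, ph_x, ph_h, ph_r]
  linear_combination t * h * two)
/-- `h` -/
def hA : A := mk h ph_h

theorem principal : (plinth phi).IsPrincipal := by
  refine ⟨tA, le_antisymm ?_ ?_⟩
  · rintro a ⟨b, hb⟩
    obtain ⟨R, hR⟩ := taylor b
    have e : a.1 = (D b + t * R) * t := by
      rw [← hb]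
      change ph b - b = _
      linear_combination hR
    have e2 := inv a
    rw [e, map_mul, ph_t] at e2
    exact Submodule.mem_span_singleton.2 ⟨mk _ (mul_right_cancel₀ t_ne e2), Subtype.ext e.symm⟩
  · rw [Submodule.span_singleton_le_iff_mem]
    exact ⟨r, by change ph r - r = t; rw [ph_r]; ring⟩

theorem relA : uA * (1 + uA ^ 3 * cA) =
    xA ^ 2 + tA * (hA * xA + tA ^ 3 * (uA + cA + tA ^ 2) ^ 2 * cA) := by
  apply Subtype.ext
  change (v + t * r) * (1 + (v + t * r) ^ 3 * (r ^ 2 + t * r)) = (x + h * r) ^ 2 +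
    t * (h * (x + h * r) + t ^ 3 * (v + t * r + (r ^ 2 + t * r) + t ^ 2) ^ 2 * (r ^ 2 + t * r))
  have e1 : v + t * r = x ^ 2 + t * h * x := by
    rw [v, r]; linear_combination (t * y) * two
  have e2 : h = (v + t * r) ^ 2 + t ^ 2 * (v + t * r + (r ^ 2 + t * r) + t ^ 2) := by
    rw [h]; linear_combination (-(v * t * r + t ^ 2 * r ^ 2 + t ^ 3 * r)) * two
  generalize v + t * r = u at *
  generalize u + (r ^ 2 + t * r) + t ^ 2 = z at *
  linear_combination e1 - (r ^ 2 + t * r) * (h + u ^ 2 + t ^ 2 * z) * e2 +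
    (-(x * h * r) - (r ^ 2 + t * r) * (u ^ 2 * t ^ 2 * z + t ^ 4 * z ^ 2)) * two

/-- coordinates on the open set `t ≠ 0` -/
def co : B →ₐ[ZMod 2] A := MvPolynomial.aeval ![tA, wA, nA]

theorem loc (a : A) : ∃ (m : ℕ) (q : B), tA ^ m * a = co q := by
  let c : B →ₐ[ZMod 2] B := (invRing phi).val.comp co
  have ct : c t = t := congrArg Subtype.val (MvPolynomial.aeval_X ![tA, wA, nA] 0)
  have cw : c x = ww := congrArg Subtype.val (MvPolynomial.aeval_X ![tA, wA, nA] 1)
  have cn : c y = v ^ 2 + t ^ 2 * v := congrArg Subtype.val (MvPolynomial.aeval_X ![tA, wA, nA] 2)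
  let P : B → Prop := fun b => ∃ (m : ℕ) (q q' : B), t ^ m * b = c q + c q' * v
  have hadd : ∀ a b, P a → P b → P (a + b) := by
    rintro a b ⟨m, q, q', e⟩ ⟨m', p, p', e'⟩
    refine ⟨m + m', t ^ m' * q + t ^ m * p, t ^ m' * q' + t ^ m * p', ?_⟩
    simp only [map_add, map_mul, map_pow, ct]
    linear_combination t ^ m' * e + t ^ m * e'
  have hmul : ∀ a b, P a → P b → P (a * b) := by
    rintro a b ⟨m, q, q', e⟩ ⟨m', p, p', e'⟩
    refine ⟨m + m', q * p + q' * p' * y, q * p' + q' * p + t ^ 2 * q' * p', ?_⟩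
    simp only [map_add, map_mul, map_pow, ct, cn]
    linear_combination (t ^ m' * b) * e + (c q + c q' * v) * e' - (c q' * c p' * t ^ 2 * v) * two
  have hdiv : ∀ a, P (t * a) → P a := by
    rintro a ⟨m, q, q', e⟩
    exact ⟨m + 1, q, q', by linear_combination e⟩
  have hv : P v := ⟨0, 0, 1, by simp⟩
  have hx : P x := hdiv _ (by
    have := hadd _ _ (⟨0, x, 0, by simp [cw]⟩ : P ww) (hmul _ _ hv (hmul _ _ hv hv))
    rwa [show ww + v * (v * v) = t * x by rw [ww]; linear_combination v ^ 3 * two] at this)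
  have hy : P y := hdiv _ (by
    have := hadd _ _ hv (hmul _ _ hx hx)
    rwa [show v + x * x = t * y by rw [v]; linear_combination x ^ 2 * two] at this)
  have hall : ∀ b, P b := by
    intro b
    induction b using MvPolynomial.induction_on with
    | C c' => exact ⟨0, .C c', 0, by simp [c, co]⟩
    | add p q hp hq => exact hadd _ _ hp hq
    | mul_X p j hp =>
      refine hmul _ _ hp ?_
      fin_cases j
      exacts [(⟨0, t, 0, by simp [ct]⟩ : P t), hx, hy]
  obtain ⟨m, q, q', e⟩ := hall a.1
  have e2 := congrArg ph e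
  have i1 : ∀ q, ph (c q) = c q := fun q => inv (co q)
  rw [map_mul, map_pow, ph_t, inv, map_add, map_mul, i1, i1, ph_v, e] at e2
  have e3 : c q' = 0 := mul_right_cancel₀ (pow_ne_zero 2 t_ne) (by linear_combination -e2)
  refine ⟨m, q, Subtype.ext ?_⟩
  change t ^ m * a.1 = c q
  rw [e, e3]; ring

end

end Pool.Agent.H79.Car
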