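import Mathlib

set_option autoImplicit false

namespace Pool.Agent.H79.Circ
open Finset

/-- A polynomial vanishing on the image of a map with onto strict derivative is zero. -/
theorem poly_zero_of_surj {X : Type} [NormedAddCommGroup X] [NormedSpace ℂ X] [CompleteSpace X]
    {σ : Type} [Fintype σ] (f : X → σ → ℂ) (f' : X →L[ℂ] (σ → ℂ)) (a : X)
    (hf : HasStrictFDerivAt f f' a) (h : f'.range = ⊤) (P : MvPolynomial σ ℂ)
    (hP : ∀ x, MvPolynomial.eval (f x) P = 0) : P = 0 := by
  have h1 : Set.range f ∈ nhds (f a) := by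
    rw [← hf.map_nhds_eq_of_surj h]; exact Filter.range_mem_map
  obtain ⟨ε, hε, hb⟩ := Metric.mem_nhds_iff.1 h1
  refine MvPolynomial.funext_set (fun e => Metric.ball (f a e) ε)
    (fun e => infinite_of_mem_nhds _ (Metric.ball_mem_nhds _ hε)) fun y hy => ?_
  rw [← ball_pi _ hε] at hy
  obtain ⟨x, rfl⟩ := hb hy
  simpa using hP x

def φ (n r b : ℕ) : ℕ := (b + 1) * r / n - b * r / n

theorem sum_φ (n r x k : ℕ) : ∑ t ∈ range k, φ n r (x + t) + x * r / n = (x + k) * r / n := by
  induction k with
  | zero => simp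
  | succ k ih =>
    rw [sum_range_succ, φ, add_right_comm, ih, ← add_assoc x k 1]
    have : (x + k) * r / n ≤ (x + k + 1) * r / n :=
      Nat.div_le_div_right (Nat.mul_le_mul_right _ (by omega))
    omega

theorem φ_le {n r : ℕ} (hn : 0 < n) (hr : r ≤ n) (b : ℕ) : φ n r b ≤ 1 := by
  have : (b + 1) * r / n ≤ (b * r + n) / n := Nat.div_le_div_right (by nlinarith)
  rw [Nat.add_div_right _ hn] at this
  unfold φ; omega

theorem φ_mod {n r : ℕ} (hn : 0 < n) (b : ℕ) : φ n r (b % n) = φ n r b := by
  conv_rhs => rw [← Nat.mod_add_div b n]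
  unfold φ
  rw [show (b % n + n * (b / n) + 1) * r = (b % n + 1) * r + n * (b / n * r) by ring,
    show (b % n + n * (b / n)) * r = (b % n) * r + n * (b / n * r) by ring,
    Nat.add_mul_div_left _ _ hn, Nat.add_mul_div_left _ _ hn]
  omega

theorem card_φ {n r : ℕ} (hn : 0 < n) (hr : r ≤ n) (x k : ℕ) :
    #{t ∈ range k | φ n r (x + t) = 1} = ∑ t ∈ range k, φ n r (x + t) := by
  rw [card_filter]
  refine sum_congr rfl fun t _ => ?_
  have := φ_le hn hr (x + t)
  split_ifs <;> omega

variable {n : ℕ} [NeZero n]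

def BB (n r : ℕ) [NeZero n] : Finset (ZMod n) := {b | φ n r b.val = 1}

theorem card_BB {r : ℕ} (hr : r ≤ n) : #(BB n r) = r := by
  have hn : 0 < n := Nat.pos_of_neZero n
  have h1 := sum_φ n r 0 n
  rw [← card_φ hn hr] at h1
  simp only [zero_mul, Nat.zero_div, add_zero, zero_add, Nat.mul_div_cancel_left _ hn] at h1
  refine Eq.trans ?_ h1
  refine card_bij (fun b _ => b.val) (fun b hb => ?_)
    (fun a _ b _ h => ZMod.val_injective n h) (fun t ht => ?_)
  · simpa [BB, ZMod.val_lt] using hb
  · simp only [mem_filter, mem_range] at ht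
    exact ⟨t, by simp [BB, ZMod.val_natCast_of_lt ht.1, ht.2], ZMod.val_natCast_of_lt ht.1⟩

theorem card_good {l r : ℕ} (hr : r ≤ n) (h : n * l ≤ r * (2 * n - r)) (ρ : ZMod n) :
    l ≤ #{b : ZMod n | b ∈ BB n r ∨ (ρ - b).val < r} := by
  have hn : 0 < n := Nat.pos_of_neZero n
  obtain ⟨k, hk⟩ : ∃ k, n = r + k := ⟨n - r, by omega⟩
  set x := (ρ + 1).val with hx
  have h1 : l ≤ r + k * r / n := by
    rw [add_comm, ← Nat.add_mul_div_left _ _ hn, Nat.le_div_iff_mul_le hn]
    rw [show 2 * n - r = n + k by omega] at h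
    nlinarith
  have h2 : k * r / n ≤ #{t ∈ range k | φ n r (x + t) = 1} := by
    rw [card_φ hn hr]
    have := sum_φ n r x k
    have h3 : x * r / n + k * r / n ≤ (x + k) * r / n := by
      rw [add_mul]; exact Nat.div_add_div_le_add_div
    omega
  have h3 : #({t ∈ range k | φ n r (x + t) = 1} ∪ Ico k n) =
      #{t ∈ range k | φ n r (x + t) = 1} + r := by
    rw [card_union_of_disjoint, Nat.card_Ico]
    · omega
    · rw [disjoint_left]
      intro t ht ht'
      simp only [mem_filter, mem_range, mem_Ico] at ht ht'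
      omega
  have h4 : #({t ∈ range k | φ n r (x + t) = 1} ∪ Ico k n) ≤
      #{b : ZMod n | b ∈ BB n r ∨ (ρ - b).val < r} := by
    refine card_le_card_of_injOn (fun t => ((x + t : ℕ) : ZMod n)) (fun t ht => ?_) ?_
    · simp only [coe_union, coe_filter, mem_range, Set.mem_union, Set.mem_ofPred_eq, coe_Ico,
        Set.mem_Ico, mem_univ, true_and] at ht ⊢
      rcases ht with ht | ht
      · left
        simp only [BB, mem_filter, mem_univ, true_and, ZMod.val_natCast, φ_mod hn]
        exact ht.2
      · right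
        have : ρ - ((x + t : ℕ) : ZMod n) = ((n - 1 - t : ℕ) : ZMod n) := by
          have h5 : ((n - 1 - t : ℕ) : ZMod n) + 1 + t = 0 := by
            rw [← ZMod.natCast_self n, ← Nat.cast_succ, ← Nat.cast_add]
            congr 1; omega
          rw [Nat.cast_add, hx, ZMod.natCast_zmod_val]
          linear_combination -h5
        rw [this, ZMod.val_natCast_of_lt (by omega)]
        omega
    · intro s hs t ht hst
      have hs' : s < n := by
        simp only [coe_union, coe_filter, mem_range, Set.mem_union, Set.mem_ofPred_eq, coe_Ico,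
          Set.mem_Ico] at hs
        omega
      have ht' : t < n := by
        simp only [coe_union, coe_filter, mem_range, Set.mem_union, Set.mem_ofPred_eq, coe_Ico,
          Set.mem_Ico] at ht
        omega
      simp only [Nat.cast_add, add_right_inj] at hst
      have := congrArg ZMod.val hst
      rwa [ZMod.val_natCast_of_lt hs', ZMod.val_natCast_of_lt ht'] at this
  omega

open ZMod in
theorem core {l r : ℕ} (hr : r ≤ n) (h : n * l ≤ r * (2 * n - r))
    (Y : ZMod n → ZMod n → ℂ) (hY : ∀ i j, ¬ (j - i).val < l → Y i j = 0)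
    (h1 : ∀ i, ∀ b ∈ BB n r, ∑ j, Y i j * stdAddChar (j * b) = 0)
    (h2 : ∀ j, ∀ a : ZMod n, a.val < r → ∑ i, Y i j * stdAddChar (i * a) = 0) : Y = 0 := by
  classical
  have key : ∀ ρ δ : ZMod n, ∑ i, Y i (i + δ) * stdAddChar (i * ρ) = 0 := by
    intro ρ
    let g : Polynomial ℂ := ∑ δ : ZMod n,
      Polynomial.monomial δ.val (∑ i, Y i (i + δ) * stdAddChar (i * ρ))
    have hg : g = 0 := by
      refine Polynomial.eq_zero_of_degree_lt_of_eval_finset_eq_zero
        (({b : ZMod n | b ∈ BB n r ∨ (ρ - b).val < r} : Finset _).image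
          fun b => stdAddChar b) ?_ ?_
      · rw [card_image_of_injective _ injective_stdAddChar]
        refine lt_of_lt_of_le (b := (l : WithBot ℕ)) ?_ (by exact_mod_cast card_good hr h ρ)
        rw [← Polynomial.mem_degreeLT]
        refine Submodule.sum_mem _ fun δ _ => ?_
        by_cases hδ : δ.val < l
        · rw [Polynomial.mem_degreeLT]
          exact (Polynomial.degree_monomial_le _ _).trans_lt (by exact_mod_cast hδ)
        · rw [sum_eq_zero fun i _ => by rw [hY i _ (by simpa using hδ), zero_mul], map_zero]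
          exact Submodule.zero_mem _
      · intro y hy
        obtain ⟨b, hb, rfl⟩ := mem_image.1 hy
        have e : g.eval (stdAddChar b) =
            ∑ i, ∑ j, Y i j * stdAddChar (j * b) * stdAddChar (i * (ρ - b)) := by
          simp only [g, Polynomial.eval_finsetSum, Polynomial.eval_monomial, sum_mul]
          rw [sum_comm]
          refine sum_congr rfl fun i _ => ?_
          refine Fintype.sum_equiv (Equiv.addLeft i) _ _ fun δ => ?_
          rw [← AddChar.map_nsmul_eq_pow, mul_assoc, mul_assoc, ← AddChar.map_add_eq_mul,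
            ← AddChar.map_add_eq_mul]
          congr 2
          simp only [nsmul_eq_mul, natCast_zmod_val, Equiv.coe_addLeft]; ring
        rw [e]
        rcases (mem_filter.1 hb).2 with hb | hb
        · exact sum_eq_zero fun i _ => by rw [← sum_mul, h1 i b hb, zero_mul]
        · rw [sum_comm]
          refine sum_eq_zero fun j _ => ?_
          have := h2 j _ hb
          rw [← mul_zero (stdAddChar (j * b)), ← this, mul_sum]
          exact sum_congr rfl fun i _ => by ring
    intro δ
    have := congrArg (Polynomial.coeff · δ.val) hg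
    simp only [g, Polynomial.finsetSum_coeff, Polynomial.coeff_monomial,
      Polynomial.coeff_zero] at this
    rw [sum_eq_single δ (fun b _ hb => if_neg fun h => hb (val_injective n h)) (by simp),
      if_pos rfl] at this
    exact this
  funext i j
  have h3 : ∀ δ, (fun i => Y i (i + δ)) = 0 := fun δ => by
    rw [← dft.map_eq_zero_iff]
    funext k
    rw [dft_apply, Pi.zero_apply, ← key (-k) δ]
    exact sum_congr rfl fun i _ => by rw [smul_eq_mul, mul_comm, mul_neg]
  simpa using congrFun (h3 (j - i)) i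

open ZMod in
theorem main {l r : ℕ} (hr : r ≤ n) (h : n * l ≤ r * (2 * n - r))
    (P : MvPolynomial {p : ZMod n × ZMod n // (p.2 - p.1).val < l} ℂ)
    (hP : ∀ M : Matrix (ZMod n) (ZMod n) ℂ, M.rank ≤ r →
      MvPolynomial.eval (fun e => M e.1.1 e.1.2) P = 0) : P = 0 := by
  classical
  let X := (ZMod n → Fin r → ℂ) × (Fin r → ZMod n → ℂ)
  let pU : ZMod n → Fin r → X →L[ℂ] ℂ := fun i s =>
    (ContinuousLinearMap.proj (R := ℂ) (φ := fun _ : Fin r => ℂ) s).comp
      ((ContinuousLinearMap.proj (R := ℂ) (φ := fun _ : ZMod n => Fin r → ℂ) i).comp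
      (ContinuousLinearMap.fst ℂ _ _))
  let pV : Fin r → ZMod n → X →L[ℂ] ℂ := fun s j =>
    (ContinuousLinearMap.proj (R := ℂ) (φ := fun _ : ZMod n => ℂ) j).comp
      ((ContinuousLinearMap.proj (R := ℂ) (φ := fun _ : Fin r => ZMod n → ℂ) s).comp
      (ContinuousLinearMap.snd ℂ _ _))
  let β : Fin r ≃ BB n r := (Finset.equivFinOfCardEq (card_BB hr)).symm
  let a : X := (fun i s => stdAddChar (i * ((s : ℕ) : ZMod n)),
    fun s j => stdAddChar (j * (β s).1))
  let f : X → {p : ZMod n × ZMod n // (p.2 - p.1).val < l} → ℂ :=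
    fun x e => ∑ s, pU e.1.1 s x * pV s e.1.2 x
  have hf : HasStrictFDerivAt f (ContinuousLinearMap.pi fun e =>
      ∑ s, (pU e.1.1 s a • pV s e.1.2 + pV s e.1.2 a • pU e.1.1 s)) a :=
    hasStrictFDerivAt_pi.2 fun e => HasStrictFDerivAt.fun_sum fun s _ =>
      (pU e.1.1 s).hasStrictFDerivAt.fun_mul (pV s e.1.2).hasStrictFDerivAt
  refine poly_zero_of_surj f _ a hf ?_ P fun x => ?_
  · by_contra hne
    obtain ⟨ψ, hψ0, hψ⟩ := Submodule.exists_le_ker_of_lt_top _ (lt_top_iff_ne_top.2 hne)
    let Y : ZMod n → ZMod n → ℂ := fun i j =>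
      if h : (j - i).val < l then ψ (Pi.single ⟨(i, j), h⟩ 1) else 0
    have hψY : ∀ W : ZMod n → ZMod n → ℂ, ψ (fun e => W e.1.1 e.1.2) = ∑ i, ∑ j, Y i j * W i j := by
      intro W
      rw [LinearMap.pi_apply_eq_sum_univ, ← Fintype.sum_prod_type',
        ← Fintype.sum_subtype_add_sum_subtype (fun p : ZMod n × ZMod n => (p.2 - p.1).val < l)]
      rw [sum_eq_zero (s := univ) (f := fun p : {p : ZMod n × ZMod n // ¬ (p.2 - p.1).val < l} =>
        Y p.1.1 p.1.2 * W p.1.1 p.1.2) (fun p _ => by simp [Y, p.2]), add_zero]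
      refine sum_congr rfl fun e _ => ?_
      simp only [Y, dif_pos e.2, smul_eq_mul]
      rw [mul_comm]
      congr 2
      funext e'
      simp [Pi.single_apply, eq_comm]
    have hk : ∀ x : X, ∑ i, ∑ j, Y i j * ∑ s, (a.1 i s * x.2 s j + a.2 s j * x.1 i s) = 0 := by
      intro x
      rw [← hψY]
      have := hψ (LinearMap.mem_range_self _ x)
      rw [LinearMap.mem_ker] at this
      rw [← this]
      congr 1
      funext e
      simp [pU, pV]
      rfl
    have hY0 : Y = 0 := by
      refine core hr h Y (fun i j hij => dif_neg hij) (fun i b hb => ?_) (fun j c hc => ?_)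
      · have := hk (Pi.single i (Pi.single (β.symm ⟨b, hb⟩) 1), 0)
        rw [sum_eq_single i (fun i' _ hi => by simp [Pi.single_eq_of_ne hi]) (by simp)] at this
        simpa [Pi.single_apply, a] using this
      · have := hk (0, Pi.single ⟨c.val, hc⟩ (Pi.single j 1))
        rw [← this]
        refine sum_congr rfl fun i _ => ?_
        rw [sum_eq_single j]
        · rw [sum_eq_single ⟨c.val, hc⟩ (fun s _ hs => by simp [Pi.single_eq_of_ne hs]) (by simp)]
          simp [a]
        · intro j' _ hj
          rw [sum_eq_zero, mul_zero]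
          intro s _
          by_cases hs : s = ⟨c.val, hc⟩
          · subst hs; simp [Pi.single_eq_of_ne hj]
          · simp [Pi.single_eq_of_ne hs]
        · simp
    apply hψ0
    refine LinearMap.pi_ext' fun e => LinearMap.ext_ring ?_
    have := congrFun (congrFun hY0 e.1.1) e.1.2
    simpa [Y, e.2] using this
  · have := hP (Matrix.of x.1 * Matrix.of x.2)
      ((Matrix.rank_mul_le_left _ _).trans (by simpa using Matrix.rank_le_card_width (Matrix.of x.1)))
    exact this

end Pool.Agent.H79.Circ
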