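import Mathlib

set_option autoImplicit false

namespace Pool.Agent.H79.DG

open MvPolynomial

variable {K : Type} [Field K] {n : ℕ}

/-- The differential operator `∂_1^(m_1) ⋯ ∂_n^(m_n)`. -/
noncomputable def dop (m : Fin n →₀ ℕ) : Module.End K (MvPolynomial (Fin n) K) :=
  (List.ofFn fun i : Fin n =>
    ((pderiv i : Derivation K (MvPolynomial (Fin n) K) _).toLinearMap :
      Module.End K (MvPolynomial (Fin n) K)) ^ m i).prod

/-- The action `g ∘ F` of `R` on `S` by differentiation. -/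
noncomputable def act (g F : MvPolynomial (Fin n) K) : MvPolynomial (Fin n) K :=
  ∑ m ∈ g.support, coeff m g • dop m F

/-- The annihilator `Ann_R(F)`. -/
def ann (F : MvPolynomial (Fin n) K) : Set (MvPolynomial (Fin n) K) := {g | act g F = 0}

/-- The ideal `I = (x_1 x_2, x_3 x_4)`. -/
noncomputable def I0 (K : Type) [Field K] : Ideal (MvPolynomial (Fin 4) K) :=
  Ideal.span {X 0 * X 1, X 2 * X 3}

/-- The ideal `J = I + (x_1^3, x_2^5, x_3^3, x_4^5)`. -/
noncomputable def J0 (K : Type) [Field K] : Ideal (MvPolynomial (Fin 4) K) :=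
  I0 K ⊔ Ideal.span {X 0 ^ 3, X 1 ^ 5, X 2 ^ 3, X 3 ^ 5}

end Pool.Agent.H79.DG
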