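import Mathlib

set_option autoImplicit false

namespace Pool.Agent.H79.DP

/-- Structure constants of an algebra `D` that is free on `x^[0] = 1, x^[1], …` with
`x^[n] x^[m] = c n m • x^[n+m]`. -/
structure Coc (k : Type) [CommRing k] where
  c : ℕ → ℕ → k
  c0 : ∀ m, c 0 m = 1
  c0' : ∀ n, c n 0 = 1
  assoc : ∀ n m a, c n (m + a) * c m a = c n m * c (n + m) a

/-- The classical divided power algebra over `ℤ`. -/
def classical : Coc ℤ where
  c n m := (n + m).choose n
  c0 m := by simp
  c0' n := by simp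
  assoc n m a := by
    have h := Nat.choose_mul (n := n + m + a) (k := n + m) (s := n) (by omega)
    rw [show n + m + a - n = m + a by omega, show n + m - n = m by omega] at h
    rw [← add_assoc, mul_comm ((n + m).choose n : ℤ)]
    exact_mod_cast h.symm

/-- The generalized divided power algebra `D(π; k)`: `c n m = C(n+m, n)`; the factors with
`d > n + m` have exponent `0`. -/
def gdp {k : Type} [CommRing k] (π : ℕ → k) : Coc k where
  c n m := ∏ d ∈ Finset.Icc 2 (n + m), π d ^ ((n + m) / d - n / d - m / d)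
  c0 m := by simp
  c0' n := by simp
  assoc n m a := by
    have key : ∀ x y, x + y ≤ n + m + a →
        ∏ d ∈ Finset.Icc 2 (x + y), π d ^ ((x + y) / d - x / d - y / d) =
        ∏ d ∈ Finset.Icc 2 (n + m + a), π d ^ ((x + y) / d - x / d - y / d) := by
      intro x y h
      refine Finset.prod_subset (Finset.Icc_subset_Icc_right h) fun d h1 h2 => ?_
      rw [Finset.mem_Icc] at h1 h2
      rw [Nat.div_eq_of_lt (show x + y < d by omega)]
      simp
    rw [key n (m + a) (by omega), key m a (by omega), key n m (by omega), key (n + m) a le_rfl,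
      ← Finset.prod_mul_distrib, ← Finset.prod_mul_distrib]
    refine Finset.prod_congr rfl fun d _ => ?_
    rw [← pow_add, ← pow_add, ← add_assoc]
    congr 1
    have h1 := Nat.div_add_div_le_add_div (x := n) (y := m + a) (z := d)
    have h2 := Nat.div_add_div_le_add_div (x := m) (y := a) (z := d)
    have h3 := Nat.div_add_div_le_add_div (x := n) (y := m) (z := d)
    have h4 := Nat.div_add_div_le_add_div (x := n + m) (y := a) (z := d)
    rw [← add_assoc] at h1
    omega

variable {k : Type} [CommRing k]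

/-- A `ℤ`-graded `D`-module: `k`-modules `X j`, with `T n` the action of `x^[n]`. -/
structure GM (C : Coc k) where
  X : ℤ → Type
  [acg : ∀ j, AddCommGroup (X j)]
  [mod : ∀ j, Module k (X j)]
  T : ∀ (n : ℕ) (i j : ℤ), i + n = j → X i →ₗ[k] X j
  T0 : ∀ (i : ℤ) (h : i + (0 : ℕ) = i) (x : X i), T 0 i i h x = x
  Tmul : ∀ (n m : ℕ) (i j l : ℤ) (h1 : i + m = j) (h2 : j + n = l) (h3 : i + (n + m : ℕ) = l)
    (x : X i), T n j l h2 (T m i j h1 x) = C.c n m • T (n + m) i l h3 x

attribute [instance] GM.acg GM.mod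

variable {C : Coc k}

/-- Degree-preserving `D`-linear maps. -/
structure Hom (M N : GM C) where
  f : ∀ j, M.X j →ₗ[k] N.X j
  comm : ∀ (n : ℕ) (i j : ℤ) (h : i + n = j) (x : M.X i), f j (M.T n i j h x) = N.T n i j h (f i x)

/-- Isomorphic graded modules. -/
def Iso (M N : GM C) : Prop := ∃ φ : Hom M N, ∀ j, Function.Bijective (φ.f j)

/-- `τ_{≥ n}(M) ≅ τ_{≥ n}(N)`: linear maps that are bijective in each degree `j ≥ n` and commute
with the action on the degrees `≥ n`. -/
def TailIso (n : ℤ) (M N : GM C) : Prop :=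
  ∃ g : ∀ j, M.X j →ₗ[k] N.X j, (∀ j, n ≤ j → Function.Bijective (g j)) ∧
    ∀ (m : ℕ) (i j : ℤ) (h : i + m = j), n ≤ i → ∀ x, g j (M.T m i j h x) = N.T m i j h (g i x)

/-- `M → N → Q → 0` is exact, so `Q` is the cokernel of `φ`. -/
def IsCoker {M N Q : GM C} (φ : Hom M N) (p : Hom N Q) : Prop :=
  ∀ j, Function.Surjective (p.f j) ∧ ∀ y, p.f j y = 0 ↔ ∃ x, φ.f j x = y

theorem deg_eq {a j : ℤ} (h : a ≤ j) : a + ((j - a).toNat : ℕ) = j := by omega

/-- `F` is a finite direct sum of shifted free modules `D[-d a]`: it has elements `e a` of degree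
`d a` such that the `x^[j - d a] e a` with `d a ≤ j` form a basis of `F_j`, for every `j`. -/
def IsFree (F : GM C) : Prop :=
  ∃ (r : ℕ) (d : Fin r → ℤ) (e : ∀ a, F.X (d a)), ∀ (j : ℤ) (x : F.X j),
    ∃! c : {a // d a ≤ j} → k, x = ∑ a, c a • F.T (j - d a).toNat (d a) j (deg_eq a.2) (e a)

/-- Finitely presented: the cokernel of a degree-preserving map between finite direct sums of
shifted free modules. -/
def FP (M : GM C) : Prop :=
  ∃ (F1 F0 : GM C) (φ : Hom F1 F0) (p : Hom F0 M), IsFree F1 ∧ IsFree F0 ∧ IsCoker φ p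

/-- Nearly finitely presented. -/
def NFP (M : GM C) : Prop :=
  (∀ j, Module.Finite k (M.X j)) ∧ (∃ b : ℤ, ∀ j < b, ∀ x : M.X j, x = 0) ∧
    ∃ (N : GM C) (n : ℤ), FP N ∧ TailIso n M N

end Pool.Agent.H79.DP
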