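import Mathlib
import Pool.Agent.H79.DPDefs

set_option autoImplicit false

namespace Pool.Agent.H79.DP

variable {k : Type} [CommRing k] {C : Coc k}

/-- A graded submodule. -/
def sub (M : GM C) (P : ∀ j, Submodule k (M.X j))
    (hP : ∀ (n : ℕ) (i j : ℤ) (h : i + n = j), ∀ x ∈ P i, M.T n i j h x ∈ P j) : GM C where
  X j := P j
  T n i j h := (M.T n i j h).restrict (hP n i j h)
  T0 i h x := Subtype.ext (M.T0 i h x.1)
  Tmul n m i j l h1 h2 h3 x := Subtype.ext (M.Tmul n m i j l h1 h2 h3 x.1)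

/-- The quotient by a graded submodule. -/
def quot (M : GM C) (P : ∀ j, Submodule k (M.X j))
    (hP : ∀ (n : ℕ) (i j : ℤ) (h : i + n = j), ∀ x ∈ P i, M.T n i j h x ∈ P j) : GM C where
  X j := M.X j ⧸ P j
  T n i j h := (P i).mapQ (P j) (M.T n i j h) (hP n i j h)
  T0 i h x := by
    obtain ⟨y, rfl⟩ := (P i).mkQ_surjective x
    simp [M.T0]
  Tmul n m i j l h1 h2 h3 x := by
    obtain ⟨y, rfl⟩ := (P i).mkQ_surjective x
    simp [M.Tmul n m i j l h1 h2 h3]

/-- The truncation `τ_{≥ n}(M)`. -/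
def trunc (n : ℤ) (M : GM C) : GM C :=
  sub M (fun j => if n ≤ j then ⊤ else ⊥) (by
    intro m i j h x hx
    by_cases hi : n ≤ i
    · rw [if_pos (by omega)]; trivial
    · rw [if_neg hi, Submodule.mem_bot] at hx
      rw [hx, map_zero]; exact Submodule.zero_mem _)

/-- The cokernel of a map. -/
def coker {M N : GM C} (φ : Hom M N) : GM C :=
  quot N (fun j => LinearMap.range (φ.f j)) (by
    rintro n i j h _ ⟨x, rfl⟩
    exact ⟨_, φ.comm n i j h x⟩)

/-- The degree `j` part of `⊕_a D[-d a]`: the coordinate `a` is the coefficient of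
`x^[j - d a] e_a`, and is `0` if `j < d a`. -/
def freeX (k : Type) [CommRing k] {r : ℕ} (d : Fin r → ℤ) (j : ℤ) : Submodule k (Fin r → k) where
  carrier := {v | ∀ a, j < d a → v a = 0}
  add_mem' := by
    intro v w hv hw a ha
    simp [hv a ha, hw a ha]
  zero_mem' := fun _ _ => rfl
  smul_mem' := by
    intro c v hv a ha
    simp [hv a ha]

/-- The free graded module `⊕_a D[-d a]`. -/
def free (C : Coc k) {r : ℕ} (d : Fin r → ℤ) : GM C where
  X j := freeX k d j
  T n i j h :=
    { toFun := fun v => ⟨fun a => C.c n (i - d a).toNat * v.1 a, fun a ha => by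
        simp [v.2 a (by omega)]⟩
      map_add' := fun v w => Subtype.ext (funext fun a => by simp [mul_add])
      map_smul' := fun c v => Subtype.ext (funext fun a => by simp [mul_left_comm]) }
  T0 i h x := Subtype.ext (funext fun a => by simp [C.c0])
  Tmul n m i j l h1 h2 h3 x := Subtype.ext (funext fun a => by
    by_cases ha : i < d a
    · simp [x.2 a ha]
    · have : (j - d a).toNat = m + (i - d a).toNat := by omega
      simp [this, ← mul_assoc, C.assoc])

/-- linear maps between graded pieces -/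
abbrev LM (M N : GM C) (j : ℤ) : Type := M.X j →ₗ[k] N.X j

/-- coordinates -/
def co (C : Coc k) {r : ℕ} (d : Fin r → ℤ) (j : ℤ) (a : Fin r) : (free C d).X j →ₗ[k] k :=
  (LinearMap.proj a : (Fin r → k) →ₗ[k] k) ∘ₗ (freeX k d j).subtype

/-- element with given coordinates -/
def mkv (C : Coc k) {r : ℕ} (d : Fin r → ℤ) (j : ℤ) (v : Fin r → k)
    (h : ∀ a, j < d a → v a = 0) : (free C d).X j := ⟨v, h⟩

@[simp] theorem co_mkv {r : ℕ} (d : Fin r → ℤ) (j : ℤ) (v : Fin r → k)
    (h : ∀ a, j < d a → v a = 0) (a : Fin r) : co C d j a (mkv C d j v h) = v a := rfl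

theorem co_zero {r : ℕ} {d : Fin r → ℤ} {j : ℤ} (v : (free C d).X j) (a : Fin r) (h : j < d a) :
    co C d j a v = 0 := v.2 a h

theorem free_ext {r : ℕ} {d : Fin r → ℤ} {j : ℤ} {v w : (free C d).X j}
    (h : ∀ a, co C d j a v = co C d j a w) : v = w := Subtype.ext (funext h)

theorem co_T {r : ℕ} (d : Fin r → ℤ) (n : ℕ) (i j : ℤ) (h : i + n = j) (v : (free C d).X i)
    (a : Fin r) : co C d j a ((free C d).T n i j h v) = C.c n (i - d a).toNat * co C d i a v := rfl

/-- the map of free modules given by a matrix -/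
def matHom (C : Coc k) {r s : ℕ} (d : Fin r → ℤ) (d' : Fin s → ℤ) (R : Fin r → Fin s → k)
    (hR : ∀ a b, d' b < d a → R a b = 0) : Hom (free C d') (free C d) where
  f j :=
    { toFun := fun v => mkv C d j
        (fun a => ∑ b, C.c (j - d' b).toNat (d' b - d a).toNat * R a b * co C d' j b v)
        fun a ha => Finset.sum_eq_zero fun b _ => by
          by_cases h : d' b < d a
          · simp [hR a b h]
          · simp [co_zero v b (by omega)]
      map_add' := fun v w => free_ext fun a => by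
        simp only [map_add, co_mkv, mul_add, Finset.sum_add_distrib]
      map_smul' := fun c v => free_ext fun a => by
        simp only [map_smul, co_mkv, smul_eq_mul, RingHom.id_apply, Finset.mul_sum, mul_left_comm] }
  comm n i j h v := free_ext fun a => by
    simp only [LinearMap.coe_mk, AddHom.coe_mk, co_T, co_mkv, Finset.mul_sum]
    refine Finset.sum_congr rfl fun b _ => ?_
    by_cases h1 : d' b < d a
    · simp [hR a b h1]
    by_cases h2 : i < d' b
    · simp [co_zero v b h2]
    have e1 : (j - d' b).toNat = n + (i - d' b).toNat := by omega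
    have e2 : (i - d a).toNat = (i - d' b).toNat + (d' b - d a).toNat := by omega
    rw [e1, e2]
    linear_combination (-(R a b * co C d' i b v)) *
      C.assoc n (i - d' b).toNat (d' b - d a).toNat

theorem co_matHom {r s : ℕ} (d : Fin r → ℤ) (d' : Fin s → ℤ) (R : Fin r → Fin s → k)
    (hR : ∀ a b, d' b < d a → R a b = 0) (j : ℤ) (v : (free C d').X j) (a : Fin r) :
    co C d j a ((matHom C d d' R hR).f j v) =
      ∑ b, C.c (j - d' b).toNat (d' b - d a).toNat * R a b * co C d' j b v := rfl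

theorem exists_mat {r s : ℕ} (d : Fin r → ℤ) (d' : Fin s → ℤ) (φ : Hom (free C d') (free C d)) :
    ∃ R : Fin r → Fin s → k, ∀ (j : ℤ), (∀ b, d' b ≤ j) → ∀ (v : (free C d').X j) (a : Fin r),
      co C d j a (φ.f j v) =
        ∑ b, C.c (j - d' b).toNat (d' b - d a).toNat * R a b * co C d' j b v := by
  classical
  let g : ∀ b, (free C d').X (d' b) := fun b => mkv C d' _ (Pi.single b 1) fun a ha => by
    have : a ≠ b := by rintro rfl; omega
    simp [this]
  refine ⟨fun a b => co C d _ a (φ.f (d' b) (g b)), fun j hj v a => ?_⟩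
  have hT : ∀ b, d' b + ((j - d' b).toNat : ℤ) = j := fun b => by have := hj b; omega
  have hv : v = ∑ b, co C d' j b v • (free C d').T _ _ _ (hT b) (g b) := by
    refine free_ext fun a => ?_
    rw [map_sum, Finset.sum_eq_single a]
    · simp [co_T, g, C.c0']
    · intro b _ hb
      simp [co_T, g, Ne.symm hb]
    · simp
  conv_lhs => rw [hv]
  rw [map_sum, map_sum]
  refine Finset.sum_congr rfl fun b _ => ?_
  rw [map_smul, φ.comm, map_smul, co_T, smul_eq_mul]
  ring

theorem Iso.refl (M : GM C) : Iso M M :=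
  ⟨⟨fun _ => LinearMap.id, fun _ _ _ _ _ => rfl⟩, fun _ => Function.bijective_id⟩

theorem mem_tr {M : GM C} {n j : ℤ} (h : n ≤ j) (x : M.X j) :
    x ∈ (if n ≤ j then ⊤ else ⊥ : Submodule k (M.X j)) := by rw [if_pos h]; trivial

theorem tr_zero {M : GM C} {n j : ℤ} (h : ¬ n ≤ j) (x : (trunc n M).X j) : x.1 = 0 := by
  have := x.2
  simpa only [if_neg h, Submodule.mem_bot] using this

/-- the projection to the cokernel -/
def cmk {M N : GM C} (φ : Hom M N) (j : ℤ) : N.X j →ₗ[k] (coker φ).X j :=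
  (LinearMap.range (φ.f j)).mkQ

theorem cmk_surj {M N : GM C} (φ : Hom M N) (j : ℤ) : Function.Surjective (cmk φ j) :=
  Submodule.mkQ_surjective _

theorem cmk_eq_zero {M N : GM C} (φ : Hom M N) (j : ℤ) (x : N.X j) :
    cmk φ j x = 0 ↔ ∃ y, φ.f j y = x := Submodule.Quotient.mk_eq_zero _

theorem cmk_T {M N : GM C} (φ : Hom M N) (n : ℕ) (i j : ℤ) (h : i + n = j) (x : N.X i) :
    (coker φ).T n i j h (cmk φ i x) = cmk φ j (N.T n i j h x) := rfl

/-- maps out of the cokernel -/
def clift {M N : GM C} (φ : Hom M N) (j : ℤ) {W : Type} [AddCommGroup W] [Module k W]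
    (g : N.X j →ₗ[k] W) (h : ∀ y, g (φ.f j y) = 0) : (coker φ).X j →ₗ[k] W :=
  (LinearMap.range (φ.f j)).liftQ g (by rintro _ ⟨y, rfl⟩; exact h y)

@[simp] theorem clift_cmk {M N : GM C} (φ : Hom M N) (j : ℤ) {W : Type} [AddCommGroup W]
    [Module k W] (g : N.X j →ₗ[k] W) (h : ∀ y, g (φ.f j y) = 0) (x : N.X j) :
    clift φ j g h (cmk φ j x) = g x := rfl

/-- the projection as a map of graded modules -/
def cpr {M N : GM C} (φ : Hom M N) : Hom N (coker φ) where
  f := cmk φ
  comm _ _ _ _ _ := rfl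

theorem isCoker_cpr {M N : GM C} (φ : Hom M N) : IsCoker φ (cpr φ) :=
  fun j => ⟨cmk_surj φ j, cmk_eq_zero φ j⟩

/-- the generators of a free module -/
def gen (C : Coc k) {r : ℕ} (d : Fin r → ℤ) (b : Fin r) : (free C d).X (d b) :=
  mkv C d _ (Pi.single b 1) fun a ha => by
    have : a ≠ b := by rintro rfl; omega
    simp [this]

theorem co_sum_gen {r : ℕ} (d : Fin r → ℤ) (j : ℤ) (c : {a // d a ≤ j} → k) (a : {a // d a ≤ j}) :
    co C d j a (∑ b : {a // d a ≤ j},
      c b • (free C d).T (j - d b).toNat (d b) j (deg_eq b.2) (gen C d b)) = c a := by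
  rw [map_sum, Finset.sum_eq_single a]
  · simp [co_T, gen, C.c0']
  · intro b _ hb
    have : a.1 ≠ b.1 := fun h => hb (Subtype.ext h.symm)
    simp [co_T, gen, this]
  · simp

theorem isFree_free {r : ℕ} (d : Fin r → ℤ) : IsFree (free C d) := by
  refine ⟨r, d, gen C d, fun j x => ⟨fun a => co C d j a x, ?_, fun c hc => ?_⟩⟩
  · refine free_ext fun a => ?_
    by_cases h : d a ≤ j
    · exact (co_sum_gen d j (fun a => co C d j a x) ⟨a, h⟩).symm
    · rw [co_zero _ a (by omega), co_zero _ a (by omega)]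
  · funext a
    rw [hc, co_sum_gen]

theorem fp_coker {r s : ℕ} {d : Fin r → ℤ} {d' : Fin s → ℤ} (φ : Hom (free C d') (free C d)) :
    FP (coker φ) := ⟨_, _, φ, cpr φ, isFree_free _, isFree_free _, isCoker_cpr φ⟩

end Pool.Agent.H79.DP
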