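import Mathlib
import Pool.Agent.H79.DPDefs
import Pool.Agent.H79.DP1

set_option autoImplicit false

namespace Pool.Agent.H79.DP

variable {k : Type} [CommRing k] {C : Coc k}

theorem T_congr (M : GM C) {n n' : ℕ} (h : n = n') (i j : ℤ) (h1 : i + n = j) (h2 : i + n' = j)
    (x : M.X i) : M.T n i j h1 x = M.T n' i j h2 x := by
  subst h; rfl

theorem basis_all {F : GM C} {r : ℕ} {d : Fin r → ℤ} {e : ∀ a, F.X (d a)} {j : ℤ}
    (hj : ∀ a, d a ≤ j) (x : F.X j)
    (h : ∃! c : {a // d a ≤ j} → k,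
      x = ∑ a, c a • F.T (j - d a).toNat (d a) j (deg_eq a.2) (e a)) :
    ∃! c : Fin r → k, x = ∑ a, c a • F.T (j - d a).toNat (d a) j (deg_eq (hj a)) (e a) := by
  have key : ∀ c : Fin r → k, ∑ a : {a // d a ≤ j},
      c a • F.T (j - d a).toNat (d a) j (deg_eq a.2) (e a) =
      ∑ a, c a • F.T (j - d a).toNat (d a) j (deg_eq (hj a)) (e a) := fun c =>
    Fintype.sum_equiv (Equiv.subtypeUnivEquiv hj) _ _ fun a => rfl
  obtain ⟨c, h1, h2⟩ := h
  refine ⟨fun a => c ⟨a, hj a⟩, h1.trans (key fun a => c ⟨a, hj a⟩), fun c' hc' => ?_⟩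
  funext a
  exact congrFun (h2 (fun a => c' a) (hc'.trans (key c').symm)) ⟨a, hj a⟩

theorem FP.mat {N : GM C} (h : FP N) : ∃ (r s : ℕ) (d : Fin r → ℤ) (d' : Fin s → ℤ)
    (R : Fin r → Fin s → k), ∀ j : ℤ, (∀ a, d a ≤ j) → (∀ b, d' b ≤ j) →
    ∃ q : (Fin r → k) →ₗ[k] N.X j, Function.Surjective q ∧ ∀ v, q v = 0 ↔
      ∃ x : Fin s → k, ∀ a, v a = ∑ b, C.c (j - d' b).toNat (d' b - d a).toNat * R a b * x b := by
  obtain ⟨F1, F0, φ, p, ⟨s, d', e', h1⟩, ⟨r, d, e, h0⟩, hc⟩ := h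
  choose cb hcb using fun b => (h0 (d' b) (φ.f _ (e' b))).exists
  let R : Fin r → Fin s → k := fun a b => if h : d a ≤ d' b then cb b ⟨a, h⟩ else 0
  refine ⟨r, s, d, d', R, fun j hj hj' => ?_⟩
  let u : Fin r → F0.X j := fun a => F0.T (j - d a).toNat (d a) j (deg_eq (hj a)) (e a)
  let u' : Fin s → F1.X j := fun b => F1.T (j - d' b).toNat (d' b) j (deg_eq (hj' b)) (e' b)
  have hu : ∀ x, ∃! c : Fin r → k, x = ∑ a, c a • u a := fun x => basis_all hj x (h0 j x)
  have hu' : ∀ x, ∃! c : Fin s → k, x = ∑ a, c a • u' a := fun x => basis_all hj' x (h1 j x)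
  have hφ : ∀ b, φ.f j (u' b) =
      ∑ a, (C.c (j - d' b).toNat (d' b - d a).toNat * R a b) • u a := by
    intro b
    rw [← Fintype.sum_subtype_add_sum_subtype (fun a => d a ≤ d' b), φ.comm, hcb b, map_sum]
    have z : ∑ a : {a // ¬ d a ≤ d' b},
        (C.c (j - d' b).toNat (d' b - d a).toNat * R a b) • u a = 0 :=
      Finset.sum_eq_zero fun a _ => by simp [R, a.2]
    rw [z, add_zero]
    refine Finset.sum_congr rfl fun a _ => ?_
    have e1 : (j - d' b).toNat + (d' b - d a).toNat = (j - d a).toNat := by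
      have := a.2; have := hj' b; omega
    rw [map_smul, F0.Tmul _ _ _ _ _ _ _ (by rw [e1]; exact deg_eq (hj a)),
      T_congr F0 e1 _ _ _ (deg_eq (hj a)), smul_smul, mul_comm]
    simp [R, a.2, u]
  have hφ' : ∀ x : Fin s → k, φ.f j (∑ b, x b • u' b) =
      ∑ a, (∑ b, C.c (j - d' b).toNat (d' b - d a).toNat * R a b * x b) • u a := by
    intro x
    simp only [map_sum, map_smul, hφ, Finset.smul_sum, Finset.sum_smul, smul_smul]
    rw [Finset.sum_comm]
    refine Finset.sum_congr rfl fun a _ => Finset.sum_congr rfl fun b _ => ?_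
    rw [mul_comm]
  refine ⟨p.f j ∘ₗ Fintype.linearCombination k u, fun y => ?_, fun v => ?_⟩
  · obtain ⟨x, rfl⟩ := (hc j).1 y
    obtain ⟨c, rfl⟩ := (hu x).exists
    exact ⟨c, by simp [Fintype.linearCombination_apply]⟩
  · rw [LinearMap.comp_apply, (hc j).2, Fintype.linearCombination_apply]
    constructor
    · rintro ⟨y, hy⟩
      obtain ⟨x, rfl⟩ := (hu' y).exists
      rw [hφ'] at hy
      exact ⟨x, congrFun ((hu _).unique rfl hy.symm)⟩
    · rintro ⟨x, hx⟩
      refine ⟨_, (hφ' x).trans ?_⟩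
      simp only [hx]

open Filter in
theorem limit_key [IsDomain k] [IsNoetherianRing k] (h2 : ¬ IsUnit (2 : k))
    (h3 : ¬ IsUnit (3 : k)) {r s : ℕ} (R : Fin r → Fin s → k) (e : ℕ → Fin r → Fin s → ℕ) (t0 : ℕ)
    (H1 : ∀ t, t0 ≤ t → ∀ v : Fin r → k, ∃ (x : Fin s → k) (y : Fin r → k),
      ∀ a, v a = ∑ b, 6 ^ e t a b * R a b * x b + 3 * y a)
    (H2 : ∀ t, t0 ≤ t → ∃ l : (Fin r → k) →ₗ[k] k ⧸ Ideal.span {(2 : k) ^ t},
      Function.Surjective l ∧ ∀ x : Fin s → k, l (fun a => ∑ b, 6 ^ e t a b * R a b * x b) = 0) :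
    False := by
  have hL : ∀ a b, ∃ L : k, ∀ m, ∀ᶠ t in (hyperfilter ℕ : Filter ℕ),
      (6 : k) ^ m ∣ 6 ^ e t a b * R a b - L := by
    intro a b
    by_cases h : ∃ e0, ∀ᶠ t in (hyperfilter ℕ : Filter ℕ), e t a b = e0
    · obtain ⟨e0, h⟩ := h
      exact ⟨6 ^ e0 * R a b, fun m => h.mono fun t ht => by simp [ht]⟩
    · push Not at h
      refine ⟨0, fun m => ?_⟩
      have : ∀ᶠ t in (hyperfilter ℕ : Filter ℕ), ∀ i ∈ Finset.range m, e t a b ≠ i :=
        (Finset.eventually_all _).2 fun i _ => h i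
      refine this.mono fun t ht => ?_
      rw [sub_zero]
      refine Dvd.dvd.mul_right (pow_dvd_pow _ ?_) _
      by_contra hlt
      exact ht _ (Finset.mem_range.2 (by omega)) rfl
  choose L hL using hL
  have hT : ∀ m, ∃ t, t0 ≤ t ∧ m ≤ t ∧ ∃ Z : Fin r → Fin s → k,
      ∀ a b, 6 ^ e t a b * R a b = L a b + 6 ^ m * Z a b := by
    intro m
    have a1 : ∀ᶠ t in (hyperfilter ℕ : Filter ℕ), t0 ≤ t ∧ m ≤ t :=
      Nat.hyperfilter_le_atTop ((eventually_ge_atTop t0).and (eventually_ge_atTop m))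
    have a2 : ∀ᶠ t in (hyperfilter ℕ : Filter ℕ), ∀ a b, (6 : k) ^ m ∣ 6 ^ e t a b * R a b - L a b :=
      eventually_all.2 fun a => eventually_all.2 fun b => hL a b m
    obtain ⟨t, ⟨b1, b2⟩, b3⟩ := (a1.and a2).exists
    choose Z hZ using b3
    exact ⟨t, b1, b2, Z, fun a b => by linear_combination hZ a b⟩
  let P : Submodule k (Fin r → k) := LinearMap.range (Matrix.mulVecLin (Matrix.of L))
  have hP : ∀ v, v ∈ P ↔ ∃ x : Fin s → k, ∀ a, v a = ∑ b, L a b * x b := by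
    intro v
    simp only [P, LinearMap.mem_range, Matrix.mulVecLin_apply]
    exact exists_congr fun x => ⟨fun h a => by rw [← h]; rfl, fun h => funext fun a => (h a).symm⟩
  obtain ⟨δ, hδ1, hδ⟩ := Submodule.exists_sub_one_mem_and_smul_le_of_fg_of_le_sup
    (I := Ideal.span {(3 : k)}) (N := P) (N' := ⊤) (P := ⊤) Module.Finite.fg_top le_rfl (by
      intro v _
      obtain ⟨t, b1, -, Z, hZ⟩ := hT 1
      obtain ⟨x, y, hxy⟩ := H1 t b1 v
      have : v = (fun a => ∑ b, L a b * x b) +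
          (3 : k) • (fun a => y a + ∑ b, 2 * Z a b * x b) := by
        funext a
        simp only [hxy a, hZ, Pi.add_apply, Pi.smul_apply, smul_eq_mul, mul_add, Finset.mul_sum,
          add_mul, Finset.sum_add_distrib]
        rw [add_assoc, add_comm (3 * y a)]
        congr 2
        exact Finset.sum_congr rfl fun b _ => by ring
      rw [this]
      exact Submodule.add_mem_sup ((hP _).2 ⟨x, fun a => rfl⟩)
        (Submodule.smul_mem_smul (Ideal.mem_span_singleton_self _) trivial))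
  have hδ0 : δ ∈ ⨅ m : ℕ, Ideal.span {(2 : k)} ^ m := by
    refine Ideal.mem_iInf.2 fun m => ?_
    obtain ⟨t, b1, b2, Z, hZ⟩ := hT m
    obtain ⟨l, l1, l2⟩ := H2 t b1
    obtain ⟨v, hv⟩ := l1 (Ideal.Quotient.mk _ 1)
    obtain ⟨x, hx⟩ := (hP _).1 (hδ (Submodule.smul_mem_pointwise_smul v δ ⊤ trivial))
    have e1 : δ • v + (6 : k) ^ m • (fun a => ∑ b, Z a b * x b) =
        fun a => ∑ b, 6 ^ e t a b * R a b * x b := by
      funext a
      rw [Pi.add_apply, hx a]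
      simp only [hZ, Pi.smul_apply, smul_eq_mul, Finset.mul_sum, add_mul, Finset.sum_add_distrib,
        mul_assoc]
    have e2 := l2 x
    obtain ⟨z, hz⟩ := Ideal.Quotient.mk_surjective (l fun a => ∑ b, Z a b * x b)
    rw [← e1, map_add, map_smul, map_smul, hv, ← hz] at e2
    have e3 : Ideal.Quotient.mk (Ideal.span {(2 : k) ^ t}) (δ * 1 + 6 ^ m * z) = 0 := e2
    rw [Ideal.Quotient.eq_zero_iff_mem, Ideal.mem_span_singleton] at e3
    rw [Ideal.span_singleton_pow, Ideal.mem_span_singleton]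
    have e4 : (2 : k) ^ m ∣ 6 ^ m * z :=
      Dvd.dvd.mul_right (pow_dvd_pow_of_dvd ⟨3, by norm_num⟩ m) z
    have e5 := (Dvd.dvd.trans (pow_dvd_pow 2 b2) e3).sub e4
    simpa using e5
  rw [Ideal.iInf_pow_eq_bot_of_isDomain _ (by rwa [Ne, Ideal.span_singleton_eq_top]),
    Ideal.mem_bot] at hδ0
  rw [hδ0, Ideal.mem_span_singleton] at hδ1
  exact h3 (isUnit_of_dvd_one (by simpa using hδ1))

theorem fin_free [IsNoetherianRing k] {r : ℕ} (d : Fin r → ℤ) (j : ℤ) :
    Module.Finite k ((free C d).X j) :=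
  Module.Finite.of_injective (freeX k d j).subtype Subtype.val_injective

theorem fin_coker {M N : GM C} (φ : Hom M N) (j : ℤ) (h : Module.Finite k (N.X j)) :
    Module.Finite k ((coker φ).X j) := Module.Finite.of_surjective _ (cmk_surj φ j)

/-- inclusion of the truncation -/
def tinc (n : ℤ) (M : GM C) (j : ℤ) : (trunc n M).X j →ₗ[k] M.X j :=
  Submodule.subtype (if n ≤ j then ⊤ else ⊥ : Submodule k (M.X j))

theorem tinc_inj (n : ℤ) (M : GM C) (j : ℤ) : Function.Injective (tinc n M j) :=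
  Subtype.val_injective

theorem tinc_surj (n : ℤ) (M : GM C) (j : ℤ) (h : n ≤ j) : Function.Surjective (tinc n M j) :=
  fun y => ⟨⟨y, mem_tr h y⟩, rfl⟩

theorem nfp_trunc [IsNoetherianRing k] (n : ℤ) {M : GM C} (h : FP M)
    (hf : ∀ j, Module.Finite k (M.X j)) : NFP (trunc n M) :=
  ⟨fun j => have := hf j; Module.Finite.of_injective _ (tinc_inj n M j),
    ⟨n, fun _ hj x => Subtype.ext (tr_zero (by omega) x)⟩,
    M, n, h, tinc n M, fun j hj => ⟨tinc_inj n M j, tinc_surj n M j hj⟩, fun _ _ _ _ _ _ => rfl⟩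

end Pool.Agent.H79.DP
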