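import Mathlib

set_option autoImplicit false

namespace Pool.Agent.H79.DepthDefs

/-- `depth S/J = d` for `S = K[x_1..x_n]`: `d` is the largest length of an `S/J`-regular sequence
contained in the homogeneous maximal ideal `(x_1, ..., x_n)`. -/
def HasDepth {K : Type} [Field K] {n : ℕ} (J : Ideal (MvPolynomial (Fin n) K)) (d : ℕ) : Prop :=
  IsGreatest {l : ℕ | ∃ rs : List (MvPolynomial (Fin n) K),
    (∀ r ∈ rs, r ∈ Ideal.span (Set.range (MvPolynomial.X : Fin n → MvPolynomial (Fin n) K))) ∧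
    RingTheory.Sequence.IsRegular (MvPolynomial (Fin n) K ⧸ J) rs ∧ rs.length = l} d

/-- `f` is the depth function of a proper nonzero homogeneous ideal of `K[x_1..x_n]`. -/
def RealizedIn (K : Type) [Field K] (f : ℕ → ℕ) (n : ℕ) : Prop :=
  ∃ Q : Ideal (MvPolynomial (Fin n) K),
    (∃ s : Set (MvPolynomial (Fin n) K),
      (∀ p ∈ s, ∃ d : ℕ, MvPolynomial.IsHomogeneous p d) ∧ Q = Ideal.span s) ∧
    Q ≠ ⊥ ∧ Q ≠ ⊤ ∧ ∀ t : ℕ, 1 ≤ t → HasDepth (Q ^ t) (f t)

end Pool.Agent.H79.DepthDefs
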