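import Mathlib
import Pool.Agent.H79.Mono

set_option autoImplicit false

namespace Pool.Agent.H79.PowAbs

open MvPolynomial Pool.Agent.H79.PD Pool.Agent.H79.Mono
open scoped Pointwise

variable {k : ℕ}

/-- weight of an exponent vector in direction `j` -/
def w (j : Fin k) (e : Fin (k + 1) →₀ ℕ) : ℕ := 2 * e 0 + e j.succ

/-- all weights are at least `c` -/
def lvl (c : ℕ) (e : Fin (k + 1) →₀ ℕ) : Prop := ∀ j : Fin k, c ≤ w j e

theorem w_add (j : Fin k) (e f : Fin (k + 1) →₀ ℕ) : w j (e + f) = w j e + w j f := by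
  simp only [w, Finsupp.add_apply]; ring

theorem lvl_add {c d x : ℕ} {e f : Fin (k + 1) →₀ ℕ} (h1 : lvl c e) (h2 : lvl d f)
    (h : x ≤ c + d) : lvl x (e + f) := fun j => by
  rw [w_add]; have := h1 j; have := h2 j; omega

theorem lvl_mono {c d : ℕ} {e : Fin (k + 1) →₀ ℕ} (h1 : lvl c e) (h : d ≤ c) : lvl d e :=
  fun j => h.trans (h1 j)

variable (N : ℕ) (A : Set ℕ) (U : ℕ → Prop) (lab : ℕ → Fin k → Prop)

/-- exponent set of the ideal -/
def G : Set (Fin (k + 1) →₀ ℕ) :=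
  {e | (e 0 ∈ A ∧ lvl (2 * N) e) ∨
    (lvl (2 * N + 1) e ∧ (U (e 0) → ∃ j, lab (e 0) j ∧ 2 * N + 2 ≤ w j e)) ∨ lvl (2 * N + 2) e}

/-- explicit description of the exponent set of the `(n+1)`-st power -/
def desc (n : ℕ) : Set (Fin (k + 1) →₀ ℕ) :=
  {e | (e 0 ∈ (n + 1) • A ∧ lvl (2 * ((n + 1) * N)) e) ∨
    (lvl (2 * ((n + 1) * N) + 1) e ∧ ∃ i ≤ N, ∃ α ∈ n • A, i + α = e 0 ∧
      (U i → ∃ j, lab i j ∧ 2 * ((n + 1) * N) + 2 ≤ w j e)) ∨ lvl (2 * ((n + 1) * N) + 2) e}

variable {N A U lab}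

theorem G_cases {e : Fin (k + 1) →₀ ℕ} (he : e ∈ G N A U lab) :
    (e 0 ∈ A ∧ lvl (2 * N) e) ∨
    (lvl (2 * N + 1) e ∧ e 0 ≤ N ∧ (U (e 0) → ∃ j, lab (e 0) j ∧ 2 * N + 2 ≤ w j e)) ∨
      lvl (2 * N + 2) e := by
  rcases he with h | ⟨h1, h2⟩ | h
  · exact Or.inl h
  · by_cases hN : e 0 ≤ N
    · exact Or.inr (Or.inl ⟨h1, hN, h2⟩)
    · refine Or.inr (Or.inr fun j => ?_)
      simp only [w]; omega
  · exact Or.inr (Or.inr h)

theorem desc_of_mem (n : ℕ) : ∀ e ∈ (n + 1) • G N A U lab, e ∈ desc N A U lab n := by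
  induction n with
  | zero =>
    intro e he
    rw [zero_add, one_smul] at he
    simp only [desc, zero_add, one_smul, one_mul, zero_smul, Set.mem_ofPred_eq]
    rcases G_cases he with h | ⟨h1, h2, h3⟩ | h
    · exact Or.inl h
    · exact Or.inr (Or.inl ⟨h1, e 0, h2, 0, rfl, rfl, h3⟩)
    · exact Or.inr (Or.inr h)
  | succ n ih =>
    intro e he
    rw [succ_nsmul] at he
    obtain ⟨e1, he1, e2, he2, rfl⟩ := Set.mem_add.1 he
    have hN : (n + 1 + 1) * N = (n + 1) * N + N := by ring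
    simp only [desc, Set.mem_ofPred_eq, hN, Finsupp.add_apply]
    rcases ih e1 he1 with ⟨h1, h2⟩ | ⟨h1, i, hi, α, hα, h2, h3⟩ | h1
    · rcases G_cases he2 with ⟨g1, g2⟩ | ⟨g1, g2, g3⟩ | g1
      · exact Or.inl ⟨by rw [succ_nsmul]; exact Set.add_mem_add h1 g1, lvl_add h2 g2 (by omega)⟩
      · refine Or.inr (Or.inl ⟨lvl_add h2 g1 (by omega), e2 0, g2, e1 0, h1, add_comm _ _,
          fun hU => ?_⟩)
        obtain ⟨j, hj, hj2⟩ := g3 hU
        refine ⟨j, hj, ?_⟩
        rw [w_add]; have := h2 j; omega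
      · exact Or.inr (Or.inr (lvl_add h2 g1 (by omega)))
    · rcases G_cases he2 with ⟨g1, g2⟩ | ⟨g1, g2, g3⟩ | g1
      · refine Or.inr (Or.inl ⟨lvl_add h1 g2 (by omega), i, hi, α + e2 0,
          by rw [succ_nsmul]; exact Set.add_mem_add hα g1, by omega, fun hU => ?_⟩)
        obtain ⟨j, hj, hj2⟩ := h3 hU
        refine ⟨j, hj, ?_⟩
        rw [w_add]; have := g2 j; omega
      · exact Or.inr (Or.inr (lvl_add h1 g1 (by omega)))
      · exact Or.inr (Or.inr (lvl_add h1 g1 (by omega)))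
    · rcases G_cases he2 with ⟨g1, g2⟩ | ⟨g1, g2, g3⟩ | g1
      · exact Or.inr (Or.inr (lvl_add h1 g2 (by omega)))
      · exact Or.inr (Or.inr (lvl_add h1 g1 (by omega)))
      · exact Or.inr (Or.inr (lvl_add h1 g1 (by omega)))

/-- the vector with first entry `s` and all other entries `c` -/
noncomputable def vec (s c : ℕ) : Fin (k + 1) →₀ ℕ :=
  Finsupp.equivFunOnFinite.symm (Fin.cons s fun _ => c)

@[simp] theorem vec_zero (s c : ℕ) : (vec s c : Fin (k + 1) →₀ ℕ) 0 = s := by simp [vec]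
@[simp] theorem vec_succ (s c : ℕ) (j : Fin k) : (vec s c : Fin (k + 1) →₀ ℕ) j.succ = c := by
  simp [vec]

theorem vec_le_iff (s c : ℕ) (e : Fin (k + 1) →₀ ℕ) :
    vec s c ≤ e ↔ s ≤ e 0 ∧ ∀ j : Fin k, c ≤ e j.succ := by
  rw [Finsupp.le_def, Fin.forall_fin_succ]
  simp

theorem exists_base (hA : ∀ a ∈ A, a ≤ N) (n : ℕ) : ∀ α ∈ n • A, α ≤ n * N ∧
    ∃ E ∈ n • G N A U lab, E 0 = α ∧ ∀ j : Fin k, 2 * α + E j.succ = 2 * (n * N) := by
  induction n with
  | zero =>
    intro α hα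
    rw [zero_smul, Set.mem_zero] at hα
    subst hα
    exact ⟨by simp, 0, by rw [zero_smul]; rfl, rfl, by simp⟩
  | succ n ih =>
    intro α hα
    rw [succ_nsmul] at hα
    obtain ⟨β, hβ, a, ha, rfl⟩ := Set.mem_add.1 hα
    obtain ⟨h1, E, hE, hE0, hE1⟩ := ih β hβ
    have h2 := hA a ha
    have hN : (n + 1) * N = n * N + N := by ring
    refine ⟨by omega, E + vec a (2 * (N - a)), ?_, by simp [hE0], fun j => ?_⟩
    · rw [succ_nsmul]
      refine Set.add_mem_add hE (Or.inl ⟨by simpa using ha, fun j => ?_⟩)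
      simp only [w, vec_zero, vec_succ]; omega
    · have := hE1 j
      simp only [Finsupp.add_apply, vec_succ]; omega

theorem split (hA : ∀ a ∈ A, a ≤ N) {n α : ℕ} (hα : α ∈ n • A) (e : Fin (k + 1) →₀ ℕ)
    (h0 : α ≤ e 0) (h1 : ∀ j : Fin k, 2 * (n * N) ≤ 2 * α + e j.succ)
    (h : ∀ e' : Fin (k + 1) →₀ ℕ, e' 0 + α = e 0 → (∀ j, w j e' + 2 * (n * N) = w j e) →
      e' ∈ G N A U lab) : e ∈ (n + 1) • G N A U lab := by
  obtain ⟨-, E, hE, hE0, hE1⟩ := exists_base (U := U) (lab := lab) hA n α hα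
  have hle : E ≤ e := by
    rw [Finsupp.le_def, Fin.forall_fin_succ]
    refine ⟨by omega, fun j => ?_⟩
    have := h1 j; have := hE1 j; omega
  obtain ⟨e', rfl⟩ := le_iff_exists_add.1 hle
  rw [succ_nsmul]
  refine Set.add_mem_add hE (h e' ?_ fun j => ?_)
  · simp only [Finsupp.add_apply]; omega
  · have := hE1 j
    simp only [w, Finsupp.add_apply]; omega

theorem mul_mem_nsmul (h0 : 0 ∈ A) {a : ℕ} (ha : a ∈ A) (n : ℕ) :
    ∀ j ≤ n, j * a ∈ n • A := by
  induction n with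
  | zero => intro j hj; rw [Nat.le_zero.1 hj, zero_smul, zero_mul]; rfl
  | succ n ih =>
    intro j hj
    rw [succ_nsmul]
    rcases j with _ | j
    · exact Set.mem_add.2 ⟨0 * a, ih 0 (Nat.zero_le _), 0, h0, by simp⟩
    · exact Set.mem_add.2 ⟨j * a, ih j (by omega), a, ha, by ring⟩

theorem exists_rep (n s : ℕ) (hs : s ≤ (n + 1) * N) : ∃ i ≤ N, ∃ j ≤ n, i + j * N = s := by
  induction n generalizing s with
  | zero => exact ⟨s, by simpa using hs, 0, le_rfl, by simp⟩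
  | succ n ih =>
    by_cases h : s ≤ (n + 1) * N
    · obtain ⟨i, hi, j, hj, h⟩ := ih s h
      exact ⟨i, hi, j, by omega, h⟩
    · have hN : (n + 1 + 1) * N = (n + 1) * N + N := by ring
      exact ⟨s - (n + 1) * N, by omega, n + 1, le_rfl, by omega⟩

theorem mem_of_desc (hA : ∀ a ∈ A, a ≤ N) (h0 : 0 ∈ A) (hN : N ∈ A) (n : ℕ) :
    ∀ e ∈ desc N A U lab n, e ∈ (n + 1) • G N A U lab := by
  intro e he
  have hn : (n + 1) * N = n * N + N := by ring
  rcases he with ⟨h1, h2⟩ | ⟨h1, i, hi, α, hα, h2, h3⟩ | h1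
  · rw [succ_nsmul] at h1
    obtain ⟨α, hα, a, ha, h3⟩ := Set.mem_add.1 h1
    have := hA a ha
    refine split hA hα e (by omega) (fun j => ?_) fun e' h4 h5 => Or.inl ⟨?_, fun j => ?_⟩
    · have := h2 j; simp only [w] at this; omega
    · have : e' 0 = a := by omega
      rw [this]; exact ha
    · have := h2 j; have := h5 j; omega
  · refine split hA hα e (by omega) (fun j => ?_) fun e' h4 h5 =>
      Or.inr (Or.inl ⟨fun j => ?_, fun hU => ?_⟩)
    · have := h1 j; simp only [w] at this; omega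
    · have := h1 j; have := h5 j; omega
    · have h6 : e' 0 = i := by omega
      rw [h6] at hU ⊢
      obtain ⟨j, hj, hj2⟩ := h3 hU
      exact ⟨j, hj, by have := h5 j; omega⟩
  · by_cases hs : e 0 ≤ (n + 1) * N
    · obtain ⟨i, hi, j, hj, h2⟩ := exists_rep n _ hs
      refine split hA (mul_mem_nsmul h0 hN n j hj) e (by omega) (fun l => ?_) fun e' h4 h5 =>
        Or.inr (Or.inr fun l => ?_)
      · have := h1 l; simp only [w] at this; omega
      · have := h1 l; have := h5 l; omega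
    · refine split hA (mul_mem_nsmul h0 hN n n le_rfl) e (by omega) (fun l => by omega)
        fun e' h4 h5 => Or.inr (Or.inr fun l => ?_)
      have := h1 l; have := h5 l; omega

theorem nsmul_eq (hA : ∀ a ∈ A, a ≤ N) (h0 : 0 ∈ A) (hN : N ∈ A) (n : ℕ) :
    (n + 1) • G N A U lab = desc N A U lab n :=
  Set.Subset.antisymm (desc_of_mem n) (mem_of_desc hA h0 hN n)

theorem desc_upper (n : ℕ) : IsUpperSet (desc N A U lab n) := by
  intro a b hab ha
  have hw : ∀ j, w j a ≤ w j b := fun j => by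
    have := hab 0; have := hab j.succ; simp only [w]; omega
  by_cases h0 : a 0 = b 0
  · rcases ha with ⟨h1, h2⟩ | ⟨h1, i, hi, α, hα, h2, h3⟩ | h1
    · exact Or.inl ⟨h0 ▸ h1, fun j => (h2 j).trans (hw j)⟩
    · refine Or.inr (Or.inl ⟨fun j => (h1 j).trans (hw j), i, hi, α, hα, h0 ▸ h2, fun hU => ?_⟩)
      obtain ⟨j, hj, hj2⟩ := h3 hU
      exact ⟨j, hj, hj2.trans (hw j)⟩
    · exact Or.inr (Or.inr fun j => (h1 j).trans (hw j))
  · have h1 : lvl (2 * ((n + 1) * N)) a := by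
      rcases ha with ⟨h1, h2⟩ | ⟨h1, -⟩ | h1
      · exact h2
      · exact lvl_mono h1 (by omega)
      · exact lvl_mono h1 (by omega)
    refine Or.inr (Or.inr fun j => ?_)
    have := hab 0; have := hab j.succ; have := h1 j
    simp only [w] at *; omega

variable (N A U lab)

/-- the position `s` is alive at level `n + 1` -/
def alive (n s : ℕ) : Prop := ∀ i ≤ N, ∀ α ∈ n • A, i + α = s → U i

open Classical in
/-- the labels seen from position `s` at level `n + 1` -/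
noncomputable def labs (n s : ℕ) : Finset (Fin k) :=
  Finset.univ.filter fun j => ∃ i ≤ N, ∃ α ∈ n • A, i + α = s ∧ lab i j

variable {N A U lab}

theorem mem_labs {n s : ℕ} {j : Fin k} :
    j ∈ labs N A lab n s ↔ ∃ i ≤ N, ∃ α ∈ n • A, i + α = s ∧ lab i j := by
  simp [labs]

theorem upper (K : Type) [Field K] (h0 : 0 ∈ A) (hN : N ∈ A) (n g : ℕ) (hg : 1 ≤ g)
    (h : ∀ s < (n + 1) * N, alive N A U n s → (labs N A lab n s).card ≤ g) :
    PdU K (desc N A U lab n) (g + 2) := by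
  classical
  refine pdU_filtration (desc_upper n) 0 ((n + 1) * N) _ (Or.inl ⟨?_, fun j => ?_⟩) ?_
  · rw [Finsupp.single_eq_same]
    exact mul_mem_nsmul h0 hN _ _ le_rfl
  · simp [w]
  intro s hs
  obtain ⟨d, hd⟩ : ∃ d, (n + 1) * N = s + d := ⟨(n + 1) * N - s, by omega⟩
  have hw : ∀ (e : Fin (k + 1) →₀ ℕ) (j : Fin k), e 0 = 0 →
      w j (e + Finsupp.single 0 s) = 2 * s + e j.succ := by
    intro e j he
    simp [w, he]
  have hred : ∀ (e : Fin (k + 1) →₀ ℕ) (X : Prop),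
      (e 0 = 0 → (e + Finsupp.single 0 s ∈ desc N A U lab n ↔ X)) →
      (e ∈ {e : Fin (k + 1) →₀ ℕ | 1 ≤ e 0 ∨ e + Finsupp.single 0 s ∈ desc N A U lab n} ↔
        1 ≤ e 0 ∨ X) := by
    intro e X hX
    rw [Set.mem_ofPred_eq]
    by_cases he : e 0 = 0
    · rw [hX he]
    · have : 1 ≤ e 0 := by omega
      simp [this]
  by_cases h1 : s ∈ (n + 1) • A
  · refine pdU_shape 0 (vec 0 (2 * d)) 0 (by simp) rfl ∅ (by simp) (by simp) g (by simp) hg _
      fun e => hred e _ fun he => ?_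
    simp only [add_zero, Finset.notMem_empty, false_and, exists_false, or_false, and_self,
      vec_le_iff, zero_le, true_and]
    constructor
    · rintro (⟨-, h2⟩ | ⟨h2, -⟩ | h2) <;> intro j <;> have := h2 j <;> rw [hw e j he] at this <;>
        omega
    · intro h2
      refine Or.inl ⟨by simpa [he] using h1, fun j => ?_⟩
      have := h2 j; rw [hw e j he]; omega
  by_cases h2 : alive N A U n s
  · refine pdU_shape 0 (vec 0 (2 * d + 1)) (vec 0 1) (by simp) (by simp)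
      ((labs N A lab n s).map ⟨Fin.succ, Fin.succ_injective _⟩) (by simp [Fin.succ_ne_zero])
      ?_ g (by rw [Finset.card_map]; exact h s hs h2) hg _ fun e => hred e _ fun he => ?_
    · intro j hj
      obtain ⟨l, -, rfl⟩ := Finset.mem_map.1 hj
      simp
    have hv : (vec 0 (2 * d + 1) + vec 0 1 ≤ e) ↔ ∀ j : Fin k, 2 * d + 2 ≤ e j.succ := by
      rw [Finsupp.le_def, Fin.forall_fin_succ]
      simp only [Finsupp.add_apply, vec_zero, vec_succ, add_zero, zero_le, true_and]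
    rw [hv, vec_le_iff]
    constructor
    · rintro (⟨h3, -⟩ | ⟨h3, i, hi, α, hα, h4, h5⟩ | h3)
      · exact absurd (by simpa [he] using h3) h1
      · have h6 : i + α = s := by simpa [he] using h4
        obtain ⟨j, hj, hj2⟩ := h5 (h2 i hi α hα h6)
        refine ⟨⟨Nat.zero_le _, fun l => ?_⟩, Or.inr ⟨j.succ, Finset.mem_map.2
          ⟨j, mem_labs.2 ⟨i, hi, α, hα, h6, hj⟩, rfl⟩, ?_⟩⟩
        · have := h3 l; rw [hw e l he] at this; omega
        · rw [hw e j he] at hj2; rw [vec_succ]; omega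
      · refine ⟨⟨Nat.zero_le _, fun l => ?_⟩, Or.inl fun l => ?_⟩ <;>
          have := h3 l <;> rw [hw e l he] at this <;> omega
    · rintro ⟨⟨-, h3⟩, h4 | ⟨j, hj, h4⟩⟩
      · refine Or.inr (Or.inr fun l => ?_)
        have := h4 l; rw [hw e l he]; omega
      · obtain ⟨l, hl, rfl⟩ := Finset.mem_map.1 hj
        obtain ⟨i, hi, α, hα, h6, hj⟩ := mem_labs.1 hl
        refine Or.inr (Or.inl ⟨fun l => ?_, i, hi, α, hα, by simpa [he] using h6,
          fun _ => ⟨l, hj, ?_⟩⟩)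
        · have := h3 l; rw [hw e l he]; omega
        · simp only [Function.Embedding.coeFn_mk, vec_succ] at h4
          rw [hw e l he]; omega
  · simp only [alive, not_forall] at h2
    obtain ⟨i, hi, α, hα, h3, h4⟩ := h2
    refine pdU_shape 0 (vec 0 (2 * d + 1)) 0 (by simp) rfl ∅ (by simp) (by simp) g (by simp) hg _
      fun e => hred e _ fun he => ?_
    simp only [add_zero, Finset.notMem_empty, false_and, exists_false, or_false, and_self,
      vec_le_iff, zero_le, true_and]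
    constructor
    · rintro (⟨h2, -⟩ | ⟨h2, -⟩ | h2)
      · exact absurd (by simpa [he] using h2) h1
      · intro j; have := h2 j; rw [hw e j he] at this; omega
      · intro j; have := h2 j; rw [hw e j he] at this; omega
    · intro h2
      refine Or.inr (Or.inl ⟨fun j => ?_, i, hi, α, hα, by simpa [he] using h3,
        fun hU => absurd hU h4⟩)
      have := h2 j; rw [hw e j he]; omega

theorem lower (hk : 0 < k) (hA : ∀ a ∈ A, a ≤ N) (hU : ∀ a ∈ A, ¬ U a)
    (n s : ℕ) (hs : s ≤ (n + 1) * N) (h : alive N A U n s) :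
    ∃ (m : Fin (k + 1) →₀ ℕ) (τ : Finset (Fin (k + 1))), τ.card = (labs N A lab n s).card + 1 ∧
      m ∉ desc N A U lab n ∧ ∀ j ∈ τ, m + Finsupp.single j 1 ∈ desc N A U lab n := by
  classical
  obtain ⟨d, hd⟩ : ∃ d, (n + 1) * N = s + d := ⟨(n + 1) * N - s, by omega⟩
  refine ⟨vec s (2 * d + 1), insert 0 ((labs N A lab n s).map ⟨Fin.succ, Fin.succ_injective _⟩),
    ?_, ?_, ?_⟩
  · rw [Finset.card_insert_of_notMem (by simp [Fin.succ_ne_zero]), Finset.card_map]
  · rintro (⟨h1, -⟩ | ⟨-, i, hi, α, hα, h2, h3⟩ | h1)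
    · rw [vec_zero, succ_nsmul] at h1
      obtain ⟨α, hα, a, ha, h3⟩ := Set.mem_add.1 h1
      exact hU a ha (h a (hA a ha) α hα (by omega))
    · rw [vec_zero] at h2
      obtain ⟨j, -, hj⟩ := h3 (h i hi α hα h2)
      simp only [w, vec_zero, vec_succ] at hj
      omega
    · have := h1 ⟨0, hk⟩
      simp only [w, vec_zero, vec_succ] at this
      omega
  · intro j hj
    rcases Finset.mem_insert.1 hj with rfl | hj
    · refine Or.inr (Or.inr fun l => ?_)
      simp only [w, Finsupp.add_apply, vec_zero, vec_succ, Finsupp.single_eq_same]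
      omega
    · obtain ⟨l, hl, rfl⟩ := Finset.mem_map.1 hj
      obtain ⟨i, hi, α, hα, h6, hj⟩ := mem_labs.1 hl
      have h7 : (Finsupp.single l.succ 1 : Fin (k + 1) →₀ ℕ) 0 = 0 :=
        Finsupp.single_eq_of_ne (Fin.succ_ne_zero l).symm
      refine Or.inr (Or.inl ⟨fun l' => ?_, i, hi, α, hα, ?_, fun _ => ⟨l, hj, ?_⟩⟩)
      · simp only [w, Finsupp.add_apply, vec_zero, vec_succ]; omega
      · simp only [Function.Embedding.coeFn_mk, Finsupp.add_apply, vec_zero, h7]; omega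
      · simp only [Function.Embedding.coeFn_mk, w, Finsupp.add_apply, vec_zero, vec_succ,
          Finsupp.single_eq_same]
        omega

end Pool.Agent.H79.PowAbs
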