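import Mathlib
import Pool.Agent.H79.PowAbs

set_option autoImplicit false

namespace Pool.Agent.H79.PowCons

open MvPolynomial Pool.Agent.H79.PD Pool.Agent.H79.Mono Pool.Agent.H79.PowAbs
open scoped Pointwise

/-- numerical parameters of the construction -/
structure Par (k T : ℕ) where
  W : ℕ
  P : ℕ
  a : Fin k → ℕ
  m : Fin k → ℕ
  hW : T < W
  hWP : W ∣ P
  hWa : ∀ j, W ∣ a j
  hP : 0 < P
  haP : ∀ j, a j ≤ P
  hmP : ∀ j, m j ∣ P
  hma : ∀ j l, j ≠ l → m j ∣ a l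
  hcop : ∀ j, Nat.Coprime (m j) (a j)
  hm : ∀ j, 2 * T < m j

theorem exists_par (k T : ℕ) : Nonempty (Par k T) := by
  classical
  let p : ℕ → ℕ := fun i => Nat.nth Nat.Prime (2 * T + i)
  have hp : ∀ i, (p i).Prime := fun i => Nat.prime_nth_prime _
  have hinj : Function.Injective p := fun i j h => by
    have := Nat.nth_injective Nat.infinite_setOfPred_prime h
    omega
  have hge : ∀ i, 2 * T < p i := fun i => by
    have := Nat.add_two_le_nth_prime (2 * T + i)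
    simp only [p]; omega
  have hpos : ∀ s : Finset ℕ, 0 < ∏ i ∈ s, p i := fun s => Finset.prod_pos fun i _ => (hp i).pos
  refine ⟨⟨p k, ∏ i ∈ Finset.range (k + 1), p i,
    fun j => ∏ i ∈ (Finset.range (k + 1)).erase j, p i, fun j => p j, ?_, ?_, ?_, hpos _, ?_, ?_,
    ?_, ?_, fun j => hge j⟩⟩
  · have := hge k; omega
  · exact Finset.dvd_prod_of_mem _ (by simp)
  · intro j
    refine Finset.dvd_prod_of_mem _ ?_
    have := j.2
    simp only [Finset.mem_erase, Finset.mem_range]; omega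
  · intro j
    exact Nat.le_of_dvd (hpos _) (Finset.prod_dvd_prod_of_subset _ _ _ (Finset.erase_subset _ _))
  · intro j
    refine Finset.dvd_prod_of_mem _ ?_
    have := j.2
    simp only [Finset.mem_range]; omega
  · intro j l hjl
    refine Finset.dvd_prod_of_mem _ ?_
    have := j.2
    have : (j : ℕ) ≠ l := fun h => hjl (Fin.ext h)
    simp only [Finset.mem_erase, Finset.mem_range]; omega
  · intro j
    refine Nat.Coprime.prod_right fun i hi => ?_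
    rw [Nat.coprime_primes (hp _) (hp _)]
    intro h
    exact (Finset.mem_erase.1 hi).1 (hinj h).symm

variable {k T : ℕ} (π : Par k T) (g : ℕ → ℕ)

/-- the small generators -/
def A0 : Set ℕ := {e | e = 0 ∨ e = π.P ∨ ∃ j, e = π.a j}

/-- the set `A` -/
def AA : Set ℕ := {i | ∃ e ∈ A0 π, i = e ∨ i = e + (2 * T + 1) * π.P}

/-- the top degree -/
def NN : ℕ := (2 * T + 2) * π.P

/-- non-killing positions -/
def UU (i : ℕ) : Prop :=
  1 ≤ i % π.W ∧ i % π.W ≤ T ∧ i ≤ 2 * T * π.P + i % π.W ∧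
    (i % π.W = T ∨ 2 * T * π.P + i % π.W + π.P ≤ i + i % π.W * π.P)

/-- labels -/
def LL (i : ℕ) (j : Fin k) : Prop :=
  (j : ℕ) < g (i % π.W) ∧ i + i % π.W * π.a j = 2 * T * π.P + i % π.W + π.a j

theorem A0_le {e : ℕ} (he : e ∈ A0 π) : e ≤ π.P := by
  rcases he with rfl | rfl | ⟨j, rfl⟩
  · exact Nat.zero_le _
  · exact le_rfl
  · exact π.haP j

theorem A0_dvd {e : ℕ} (he : e ∈ A0 π) : π.W ∣ e := by
  rcases he with rfl | rfl | ⟨j, rfl⟩
  · exact dvd_zero _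
  · exact π.hWP
  · exact π.hWa j

theorem AA_le : ∀ a ∈ AA π, a ≤ NN π := by
  rintro a ⟨e, he, rfl | rfl⟩ <;> have := A0_le π he <;> simp only [NN] <;> nlinarith

theorem zero_mem_AA : 0 ∈ AA π := ⟨0, Or.inl rfl, Or.inl rfl⟩

theorem NN_mem_AA : NN π ∈ AA π := ⟨π.P, Or.inr (Or.inl rfl), Or.inr (by simp only [NN]; ring)⟩

theorem AA_dvd {a : ℕ} (ha : a ∈ AA π) : π.W ∣ a := by
  obtain ⟨e, he, rfl | rfl⟩ := ha
  · exact A0_dvd π he
  · exact dvd_add (A0_dvd π he) (Dvd.dvd.mul_left π.hWP _)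

theorem F1 (n : ℕ) : ∀ α ∈ n • AA π, π.W ∣ α := by
  induction n with
  | zero => intro α hα; rw [zero_smul, Set.mem_zero] at hα; rw [hα]; exact dvd_zero _
  | succ n ih =>
    intro α hα
    rw [succ_nsmul] at hα
    obtain ⟨β, hβ, a, ha, rfl⟩ := Set.mem_add.1 hα
    exact dvd_add (ih β hβ) (AA_dvd π ha)

theorem F2 (l : Fin k) (n : ℕ) : ∀ α ∈ n • AA π, ∃ c ≤ n, α ≡ c * π.a l [MOD π.m l] := by
  induction n with
  | zero =>
    intro α hα; rw [zero_smul, Set.mem_zero] at hα; rw [hα]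
    exact ⟨0, le_rfl, by rw [zero_mul]⟩
  | succ n ih =>
    intro α hα
    rw [succ_nsmul] at hα
    obtain ⟨β, hβ, a, ha, rfl⟩ := Set.mem_add.1 hα
    obtain ⟨c, hc, h⟩ := ih β hβ
    have h1 : ∀ e ∈ A0 π, ∃ c ≤ 1, e ≡ c * π.a l [MOD π.m l] := by
      rintro e (rfl | rfl | ⟨j, rfl⟩)
      · exact ⟨0, by omega, by rw [zero_mul]⟩
      · exact ⟨0, by omega, by rw [zero_mul]; exact (Nat.modEq_zero_iff_dvd).2 (π.hmP l)⟩
      · by_cases hj : l = j
        · subst hj; exact ⟨1, le_rfl, by rw [one_mul]⟩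
        · exact ⟨0, by omega, by rw [zero_mul]; exact (Nat.modEq_zero_iff_dvd).2 (π.hma l j hj)⟩
    have h2 : ∃ c ≤ 1, a ≡ c * π.a l [MOD π.m l] := by
      obtain ⟨e, he, rfl | rfl⟩ := ha
      · exact h1 _ he
      · obtain ⟨c, hc, h⟩ := h1 _ he
        refine ⟨c, hc, ?_⟩
        have : (2 * T + 1) * π.P ≡ 0 [MOD π.m l] :=
          (Nat.modEq_zero_iff_dvd).2 (Dvd.dvd.mul_left (π.hmP l) _)
        simpa using h.add this
    obtain ⟨c', hc', h'⟩ := h2
    exact ⟨c + c', by omega, by rw [add_mul]; exact h.add h'⟩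

theorem F3 (n : ℕ) : ∀ α ∈ n • AA π, α < (2 * T + 1) * π.P → α ≤ n * π.P := by
  induction n with
  | zero => intro α hα; rw [zero_smul, Set.mem_zero] at hα; rw [hα]; simp
  | succ n ih =>
    intro α hα hlt
    rw [succ_nsmul] at hα
    obtain ⟨β, hβ, a, ha, rfl⟩ := Set.mem_add.1 hα
    have h1 := ih β hβ (by omega)
    obtain ⟨e, he, rfl | rfl⟩ := ha
    · have := A0_le π he
      rw [add_mul]; omega
    · omega

theorem F4 {e : ℕ} (he : e ∈ A0 π) (n : ℕ) : ∀ j ≤ n, ∀ c ≤ n,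
    j * ((2 * T + 1) * π.P) + c * e ∈ n • AA π := by
  induction n with
  | zero =>
    intro j hj c hc
    rw [Nat.le_zero.1 hj, Nat.le_zero.1 hc, zero_smul]
    simp
  | succ n ih =>
    intro j hj c hc
    rw [succ_nsmul]
    rcases j with _ | j <;> rcases c with _ | c
    · exact Set.mem_add.2 ⟨_, ih 0 (by omega) 0 (by omega), 0, zero_mem_AA π, by simp⟩
    · exact Set.mem_add.2 ⟨_, ih 0 (by omega) c (by omega), e, ⟨e, he, Or.inl rfl⟩, by ring⟩
    · exact Set.mem_add.2 ⟨_, ih j (by omega) 0 (by omega), _, ⟨0, Or.inl rfl, Or.inr rfl⟩,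
        by ring⟩
    · exact Set.mem_add.2 ⟨_, ih j (by omega) c (by omega), _, ⟨e, he, Or.inr rfl⟩, by ring⟩

theorem mod_eq {n i α s : ℕ} (hα : α ∈ n • AA π) (h : i + α = s) : i % π.W = s % π.W := by
  obtain ⟨c, rfl⟩ := F1 π n α hα
  rw [← h, Nat.add_mul_mod_self_left]

theorem not_UU : ∀ a ∈ AA π, ¬ UU π a := by
  intro a ha h
  have := Nat.mod_eq_zero_of_dvd (AA_dvd π ha)
  have := h.1
  omega

theorem card_lt (c : ℕ) (hc : c ≤ k) :
    (Finset.univ.filter fun j : Fin k => (j : ℕ) < c).card = c := by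
  rw [Fin.card_filter_val_lt]
  omega

theorem T_le_P : T < π.P := lt_of_lt_of_le π.hW (Nat.le_of_dvd π.hP π.hWP)

theorem dead {n s : ℕ} (hs : s ≤ (n + 1) * NN π) (h : alive (NN π) (AA π) (UU π) n s)
    (h1 : s % π.W ≤ n) (h2 : s % π.W < T) : False := by
  obtain ⟨i, hi, j, hj, hij⟩ := exists_rep n s hs
  have hPmem : π.P ∈ A0 π := Or.inr (Or.inl rfl)
  have hTP := T_le_P π
  set ρ := s % π.W with hρ
  have hwin : ∀ c ≤ n, ∀ i' ≤ NN π, i' + (j * ((2 * T + 1) * π.P) + c * π.P) = s →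
      i' ≤ 2 * T * π.P + ρ ∧ 2 * T * π.P + ρ + π.P ≤ i' + ρ * π.P := by
    intro c hc i' hi' h3
    have hα := F4 π hPmem n j hj c hc
    obtain ⟨-, -, h5, h6⟩ := h i' hi' _ hα h3
    rw [mod_eq π hα h3, ← hρ] at h5 h6
    exact ⟨h5, h6.resolve_left (by omega)⟩
  have hNN : NN π = 2 * T * π.P + π.P + π.P := by simp only [NN]; ring
  have hρP : ρ * π.P ≤ T * π.P := Nat.mul_le_mul_right _ h2.le
  have h2T : 2 * T * π.P = T * π.P + T * π.P := by ring
  have hstart : i + (j * ((2 * T + 1) * π.P) + j * π.P) = s := by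
    rw [← hij]; simp only [NN]; ring
  have hup : ∀ d, j + d ≤ n → ∃ i' ≤ NN π,
      i' + (j * ((2 * T + 1) * π.P) + (j + d) * π.P) = s := by
    intro d
    induction d with
    | zero => intro _; exact ⟨i, hi, hstart⟩
    | succ d ih =>
      intro hd
      obtain ⟨i', hi', h3⟩ := ih (by omega)
      have := hwin _ (by omega) i' hi' h3
      refine ⟨i' - π.P, by omega, ?_⟩
      have h4 : (j + (d + 1)) * π.P = (j + d) * π.P + π.P := by ring
      omega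
  have hdown : ∀ d c, c + d = j → ∃ i' ≤ NN π,
      i' + (j * ((2 * T + 1) * π.P) + c * π.P) = s := by
    intro d
    induction d with
    | zero => intro c hc; rw [show c = j by omega]; exact ⟨i, hi, hstart⟩
    | succ d ih =>
      intro c hc
      obtain ⟨i', hi', h3⟩ := ih (c + 1) (by omega)
      have := hwin _ (by omega) i' hi' h3
      refine ⟨i' + π.P, by omega, ?_⟩
      have h4 : (c + 1) * π.P = c * π.P + π.P := by ring
      omega
  obtain ⟨i1, hi1, h3⟩ := hup (n - j) (by omega)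
  obtain ⟨i2, hi2, h4⟩ := hdown j 0 (by omega)
  have h5 := hwin _ (by omega) i1 hi1 h3
  have h6 := hwin _ (by omega) i2 hi2 h4
  rw [show j + (n - j) = n by omega] at h3
  have h7 : ρ * π.P ≤ n * π.P := Nat.mul_le_mul_right _ h1
  have := π.hP
  omega

theorem labs_unique {n s : ℕ} (h1 : n + 1 < s % π.W) (h2 : s % π.W ≤ T) {j l : Fin k}
    (hj : j ∈ labs (NN π) (AA π) (LL π g) n s) (hl : l ∈ labs (NN π) (AA π) (LL π g) n s) :
    j = l := by
  by_contra hne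
  obtain ⟨i, -, α, hα, h3, -, h4⟩ := mem_labs.1 hj
  obtain ⟨i', -, α', hα', h3', -, h4'⟩ := mem_labs.1 hl
  rw [mod_eq π hα h3] at h4
  rw [mod_eq π hα' h3'] at h4'
  obtain ⟨r, hr⟩ : ∃ r, s % π.W = r + 1 := ⟨s % π.W - 1, by omega⟩
  rw [hr, add_mul, one_mul] at h4 h4'
  obtain ⟨c, hc, hcα⟩ := F2 π j n α hα
  obtain ⟨c', hc', hcα'⟩ := F2 π j n α' hα'
  have e1 : r * π.a j + α' = r * π.a l + α := by omega
  have e2 : r * π.a l ≡ 0 [MOD π.m j] :=
    (Nat.modEq_zero_iff_dvd).2 (Dvd.dvd.mul_left (π.hma j l hne) _)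
  have e3 : (r + c') * π.a j ≡ c * π.a j [MOD π.m j] := by
    have h5 : r * π.a j + c' * π.a j ≡ r * π.a j + α' [MOD π.m j] :=
      (Nat.ModEq.refl _).add hcα'.symm
    rw [e1] at h5
    have h6 := h5.trans (e2.add hcα)
    rw [zero_add] at h6
    rw [add_mul]; exact h6
  have e4 : r + c' ≡ c [MOD π.m j] := Nat.ModEq.cancel_right_of_coprime (π.hcop j) e3
  have := π.hm j
  have e5 := Nat.ModEq.eq_of_lt_of_lt e4 (by omega) (by omega)
  omega

theorem card_labs_le (hg1 : ∀ t, 1 ≤ t → 1 ≤ g t) (hgk : ∀ t, 1 ≤ t → g t ≤ k)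
    (hgT : ∀ t, T ≤ t → g t = g T) {n s : ℕ}
    (hs : s ≤ (n + 1) * NN π) (h : alive (NN π) (AA π) (UU π) n s) :
    (labs (NN π) (AA π) (LL π g) n s).card ≤ g (n + 1) := by
  obtain ⟨i, hi, j, hj, hij⟩ := exists_rep n s hs
  have hα := mul_mem_nsmul (zero_mem_AA π) (NN_mem_AA π) n j hj
  obtain ⟨h1, h2, -⟩ := h i hi _ hα hij
  rw [mod_eq π hα hij] at h1 h2
  have hsub : (labs (NN π) (AA π) (LL π g) n s).card ≤ g (s % π.W) := by
    rw [← card_lt (g (s % π.W)) (hgk _ h1)]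
    refine Finset.card_le_card fun l hl => ?_
    obtain ⟨i', -, α', hα', h3', h4', -⟩ := mem_labs.1 hl
    rw [mod_eq π hα' h3'] at h4'
    simpa using h4'
  rcases lt_trichotomy (s % π.W) (n + 1) with h3 | h3 | h3
  · by_cases h4 : s % π.W = T
    · rw [hgT (n + 1) (by omega)]; rw [h4] at hsub; exact hsub
    · exact (dead π hs h (by omega) (by omega)).elim
  · rw [← h3]; exact hsub
  · refine le_trans ?_ (hg1 (n + 1) (by omega))
    exact Finset.card_le_one.2 fun a ha b hb => labs_unique π g h3 h2 ha hb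

theorem exists_alive (hT : 1 ≤ T) (hgk : ∀ t, 1 ≤ t → g t ≤ k)
    (hgT : ∀ t, T ≤ t → g t = g T) (n : ℕ) :
    ∃ s ≤ (n + 1) * NN π, alive (NN π) (AA π) (UU π) n s ∧
      g (n + 1) ≤ (labs (NN π) (AA π) (LL π g) n s).card := by
  obtain ⟨ρ, hρ1, hρT, hρn, hρ, hgρ⟩ : ∃ ρ, 1 ≤ ρ ∧ ρ ≤ T ∧ ρ ≤ n + 1 ∧ (ρ = T ∨ ρ = n + 1) ∧
      g (n + 1) = g ρ := by
    by_cases h : T ≤ n + 1
    · exact ⟨T, hT, le_rfl, h, Or.inl rfl, hgT _ h⟩
    · exact ⟨n + 1, by omega, by omega, le_rfl, Or.inr rfl, rfl⟩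
  have hTP := T_le_P π
  have hNN : NN π = 2 * T * π.P + π.P + π.P := by simp only [NN]; ring
  have hmod : (2 * T * π.P + ρ) % π.W = ρ := by
    obtain ⟨c, hc⟩ := π.hWP
    have := π.hW
    rw [hc, show 2 * T * (π.W * c) + ρ = ρ + π.W * (2 * T * c) by ring, Nat.add_mul_mod_self_left,
      Nat.mod_eq_of_lt (by omega)]
  refine ⟨2 * T * π.P + ρ, ?_, ?_, ?_⟩
  · have : NN π ≤ (n + 1) * NN π := Nat.le_mul_of_pos_left _ (by omega)
    omega
  · intro i hi α hα h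
    have h1 := mod_eq π hα h
    rw [hmod] at h1
    have h2 := F3 π n α hα (by rw [add_mul]; omega)
    refine ⟨by omega, by omega, by omega, ?_⟩
    rw [h1]
    rcases hρ with h3 | h3
    · exact Or.inl h3
    · right
      have h5 : ρ * π.P = n * π.P + π.P := by rw [h3]; ring
      omega
  · rw [hgρ, ← card_lt (g ρ) (hgk _ hρ1)]
    refine Finset.card_le_card fun l hl => ?_
    obtain ⟨r, rfl⟩ : ∃ r, ρ = r + 1 := ⟨ρ - 1, by omega⟩
    have hα := F4 π (Or.inr (Or.inr ⟨l, rfl⟩)) n 0 (by omega) r (by omega)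
    rw [zero_mul, zero_add] at hα
    have h1 : r * π.a l ≤ T * π.P := Nat.mul_le_mul (by omega) (π.haP l)
    have h2T : 2 * T * π.P = T * π.P + T * π.P := by ring
    have h3 : 2 * T * π.P + (r + 1) - r * π.a l + r * π.a l = 2 * T * π.P + (r + 1) := by omega
    refine mem_labs.2 ⟨2 * T * π.P + (r + 1) - r * π.a l, by omega, _, hα, h3, ?_, ?_⟩
    · rw [mod_eq π hα h3, hmod]
      simpa using hl
    · rw [mod_eq π hα h3, hmod, add_mul]
      omega

/-- main existence theorem -/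
theorem exists_ideal (k T : ℕ) (g : ℕ → ℕ) (hT : 1 ≤ T) (hg1 : ∀ t, 1 ≤ t → 1 ≤ g t)
    (hgk : ∀ t, 1 ≤ t → g t ≤ k) (hgT : ∀ t, T ≤ t → g t = g T) :
    ∃ s : Set (Fin (k + 1) →₀ ℕ), ∀ t, 1 ≤ t → IsUpperSet (t • s) ∧
      (∀ (K : Type) [Field K], PdU K (t • s) (g t + 2)) ∧
      ∃ (m : Fin (k + 1) →₀ ℕ) (τ : Finset (Fin (k + 1))), τ.card = g t + 1 ∧
        m ∉ t • s ∧ ∀ j ∈ τ, m + Finsupp.single j 1 ∈ t • s := by
  obtain ⟨π⟩ := exists_par k T
  refine ⟨G (NN π) (AA π) (UU π) (LL π g), fun t ht => ?_⟩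
  obtain ⟨n, rfl⟩ : ∃ n, t = n + 1 := ⟨t - 1, by omega⟩
  rw [nsmul_eq (AA_le π) (zero_mem_AA π) (NN_mem_AA π)]
  refine ⟨desc_upper n, fun K _ => ?_, ?_⟩
  · exact upper K (zero_mem_AA π) (NN_mem_AA π) n _ (hg1 _ ht)
      fun s hs h => card_labs_le π g hg1 hgk hgT hs.le h
  · obtain ⟨s, hs, h1, h2⟩ := exists_alive π g hT hgk hgT n
    have hk : 0 < k := lt_of_lt_of_le (hg1 1 le_rfl) (hgk 1 le_rfl)
    obtain ⟨m, τ, h3, h4, h5⟩ := lower (lab := LL π g) hk (AA_le π) (not_UU π) n s hs h1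
    refine ⟨m, τ, ?_, h4, h5⟩
    have := card_labs_le π g hg1 hgk hgT hs h1
    omega

end Pool.Agent.H79.PowCons
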