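import Mathlib
import Pool.Agent.H79.Depth
import Pool.Agent.H79.DepthDefs
import Pool.Agent.H79.PowCons

set_option autoImplicit false

namespace Pool.Agent.H79.DepthMain

open CategoryTheory Abelian RingTheory.Sequence MvPolynomial
open Pool.Agent.H79.PD Pool.Agent.H79.Mono Pool.Agent.H79.Depth Pool.Agent.H79.DepthDefs
open Pool.Agent.H79.PowCons
open scoped Pointwise

variable {K : Type} [Field K] {n : ℕ}

/-- the homogeneous maximal ideal -/
noncomputable abbrev mm (K : Type) [Field K] (n : ℕ) : Ideal (MvPolynomial (Fin n) K) :=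
  Ideal.span (Set.range (X : Fin n → MvPolynomial (Fin n) K))

instance : (mm K n).IsMaximal := vars_maximal

theorem bound (J I : Ideal (MvPolynomial (Fin n) K)) (z : MvPolynomial (Fin n) K)
    (h1 : ∀ r ∈ I, r * z ∈ J) (h2 : ∀ r, r * z ∈ J → r ∈ mm K n)
    (rs : List (MvPolynomial (Fin n) K)) (hrs : ∀ r ∈ rs, r ∈ mm K n)
    (reg : IsRegular (MvPolynomial (Fin n) K ⧸ J) rs) : I.height + rs.length ≤ n := by
  refine le_trans (height_add_le (mm K n) rs (MvPolynomial (Fin n) K ⧸ J) hrs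
    reg.toIsWeaklyRegular (Submodule.Quotient.mk z) I ?_ ?_) (vars_height_le n)
  · intro r hr
    rw [← Submodule.Quotient.mk_smul, Submodule.Quotient.mk_eq_zero]
    exact h1 r hr
  · intro r hr
    rw [← Submodule.Quotient.mk_smul, Submodule.Quotient.mk_eq_zero] at hr
    exact h2 r hr

theorem length_lt (J : Ideal (MvPolynomial (Fin n) K)) (hJ : J ≠ ⊥) (hJm : J ≤ mm K n)
    (rs : List (MvPolynomial (Fin n) K)) (hrs : ∀ r ∈ rs, r ∈ mm K n)
    (reg : IsRegular (MvPolynomial (Fin n) K ⧸ J) rs) : rs.length + 1 ≤ n := by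
  have h := bound J J 1 (by simp) (fun r hr => hJm (by simpa using hr)) rs hrs reg
  have h1 : 1 ≤ J.height := Order.one_le_iff_ne_zero.2 fun h0 =>
    hJ (Ideal.height_eq_zero_iff_eq_bot.1 h0)
  have h2 : (1 : ℕ∞) + rs.length ≤ n := le_trans (by gcongr) h
  have h3 : 1 + rs.length ≤ n := by exact_mod_cast h2
  omega

theorem depth_principal (u : MvPolynomial (Fin (n + 1)) K) (hu : u ≠ 0) (hum : u ∈ mm K (n + 1))
    (J' : Ideal (MvPolynomial (Fin (n + 1)) K)) (hJ' : J' ⊔ mm K (n + 1) = ⊤) :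
    HasDepth (Ideal.span {u} * J') n := by
  have hm : mm K (n + 1) ≠ ⊤ := Ideal.IsMaximal.ne_top inferInstance
  have hle : Ideal.span {u} * J' ≤ mm K (n + 1) :=
    Ideal.mul_le_left.trans ((Ideal.span_singleton_le_iff_mem _).2 hum)
  have hne : Ideal.span {u} * J' ≠ ⊥ := by
    rw [Ne, Ideal.mul_eq_bot, not_or]
    refine ⟨by simpa using hu, ?_⟩
    rintro rfl
    exact hm (by simpa using hJ')
  constructor
  · refine exists_regular _ _ hm hle n fun i hi => ?_
    refine ext_colon _ _ J' (Ideal.span {u}) u (fun r => ?_) ?_ i (ext_coprime _ _ hJ' i) ?_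
    · rw [Ideal.mem_span_singleton_mul]
      constructor
      · intro hr; exact ⟨r, hr, mul_comm _ _⟩
      · rintro ⟨z, hz, h⟩
        rw [mul_comm r u] at h
        rw [← mul_left_cancel₀ hu h]; exact hz
    · exact (sup_eq_right.2 Ideal.mul_le_left).symm
    · refine ext_vars_of_pd (n + 1) 1 _ ?_ i (by omega)
      refine pd_nzd ⊥ _ u (fun r => ?_) (by simp) 1 (pd_bot _ rfl)
      simp [hu]
  · rintro l ⟨rs, h1, h2, rfl⟩
    have := length_lt _ hne hle rs h1 h2
    omega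

theorem le_mm (Q : Ideal (MvPolynomial (Fin n) K))
    (h : ∃ s : Set (MvPolynomial (Fin n) K),
      (∀ p ∈ s, ∃ d : ℕ, MvPolynomial.IsHomogeneous p d) ∧ Q = Ideal.span s) (hQ : Q ≠ ⊤) :
    Q ≤ mm K n := by
  obtain ⟨s, hs, rfl⟩ := h
  rw [Ideal.span_le]
  intro p hp
  obtain ⟨d, hd⟩ := hs p hp
  rw [SetLike.mem_coe, mem_vars_iff]
  by_contra h0
  have h1 : d = 0 := by
    have := hd h0
    simpa using this.symm
  subst h1
  apply hQ
  have h2 : p = C (coeff 0 p) := by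
    rw [← totalDegree_zero_iff_isHomogeneous, totalDegree_eq_zero_iff_eq_C] at hd
    exact hd
  refine Ideal.eq_top_of_isUnit_mem _ (Ideal.subset_span hp) ?_
  rw [h2]
  exact (IsUnit.mk0 _ h0).map C

theorem const_of_max (Q : Ideal (MvPolynomial (Fin (n + 1)) K)) (hQ : Q ≠ ⊥)
    (hQm : Q ≤ mm K (n + 1)) (t0 : ℕ) (ht0 : 1 ≤ t0) (h : HasDepth (Q ^ t0) n) (t : ℕ)
    (ht : 1 ≤ t) : HasDepth (Q ^ t) n := by
  obtain ⟨e, Q', he, hQ'⟩ := exists_content Q hQ
  have hprime : (mm K (n + 1)).IsPrime := Ideal.IsMaximal.isPrime inferInstance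
  have he0 : e ≠ 0 := by rintro rfl; simp [hQ] at he
  have hQ'0 : Q' ≠ ⊥ := by rintro rfl; simp [hQ] at he
  have hnot : ¬ Q' ≤ mm K (n + 1) := by
    intro hle
    obtain ⟨rs, h1, h2, h3⟩ := h.1
    have hcol : ∀ r, r * e ^ t0 ∈ Q ^ t0 ↔ r ∈ Q' ^ t0 := by
      intro r
      rw [he, mul_pow, Ideal.span_singleton_pow, Ideal.mem_span_singleton_mul]
      constructor
      · rintro ⟨z, hz, h⟩
        rw [mul_comm r] at h
        rw [← mul_left_cancel₀ (pow_ne_zero _ he0) h]; exact hz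
      · intro hr; exact ⟨r, hr, mul_comm _ _⟩
    have hb := bound (Q ^ t0) (Q' ^ t0) (e ^ t0) (fun r hr => (hcol r).2 hr)
      (fun r hr => hle (Ideal.pow_le_self (by omega) ((hcol r).1 hr))) rs h1 h2
    rw [h3] at hb
    have hfin : (Q' ^ t0).height ≤ 1 := by
      have : (Q' ^ t0).height + n ≤ 1 + n := by
        rw [add_comm 1]; exact_mod_cast hb
      exact (ENat.add_le_add_iff_right (ENat.natCast_ne_top n)).1 this
    have hne : (Q' ^ t0).height ≠ 0 := fun h0 =>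
      hQ'0 (eq_zero_of_pow_eq_zero (Ideal.height_eq_zero_iff_eq_bot.1 h0))
    have h1' : (Q' ^ t0).height = (1 : ℕ) :=
      le_antisymm hfin (Order.one_le_iff_ne_zero.2 hne)
    obtain ⟨P, hP, hPle, hPh⟩ := Ideal.exists_isPrime_height_eq h1'
    obtain ⟨p, hp⟩ := UniqueFactorizationMonoid.isPrincipal_of_height_eq_one (p := P) hPh
    have h4 : Q' ≤ P := (Ideal.IsPrime.pow_le_iff (by omega)).1 hPle
    have h5 : P = Ideal.span {p} := hp
    exact hP.ne_top (h5 ▸ hQ' p (h5 ▸ h4))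
  have hem : e ∈ mm K (n + 1) := by
    rw [he] at hQm
    exact (Ideal.span_singleton_le_iff_mem _).1 ((hprime.mul_le.1 hQm).resolve_right hnot)
  have hsup : Q' ^ t ⊔ mm K (n + 1) = ⊤ := by
    by_contra hne
    have := Ideal.IsMaximal.eq_of_le (inferInstance : (mm K (n + 1)).IsMaximal) hne le_sup_right
    exact hnot ((Ideal.IsPrime.pow_le_iff (by omega)).1 (le_sup_left.trans this.ge))
  rw [he, mul_pow, Ideal.span_singleton_pow]
  exact depth_principal _ (pow_ne_zero _ he0) (Ideal.pow_mem_of_mem _ hem t (by omega)) _ hsup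

theorem depth_monomial (V : Set (Fin n →₀ ℕ)) (hV : IsUpperSet V) (g d : ℕ) (hd : d + g + 1 = n)
    (h1 : PdU K V (g + 2)) (m : Fin n →₀ ℕ) (τ : Finset (Fin n)) (hτ : τ.card = g + 1)
    (hm : m ∉ V) (h2 : ∀ j ∈ τ, m + Finsupp.single j 1 ∈ V) : HasDepth (MI K V) d := by
  have hann : ∀ r : MvPolynomial (Fin n) K, r * monomial m 1 ∈ MI K V → r ∈ mm K n := by
    intro r hr
    rw [mem_vars_iff]
    by_contra h0
    rw [mem_MI hV] at hr
    apply hm
    apply hr
    have := coeff_mul_monomial 0 m (1 : K) r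
    rw [zero_add, mul_one] at this
    rw [mem_support_iff, this]
    exact h0
  constructor
  · refine exists_regular _ _ (Ideal.IsMaximal.ne_top inferInstance)
      (fun r hr => hann r (Ideal.mul_mem_right _ _ hr)) d fun i hi => ?_
    exact ext_vars_of_pd n (g + 1) _ h1 i (by omega)
  · rintro l ⟨rs, h3, h4, rfl⟩
    have hb := bound (MI K V) (Ideal.span (X '' (τ : Set (Fin n)))) (monomial m 1) ?_ hann rs h3 h4
    · have h5 := card_le_height (K := K) τ
      have h6 : (τ.card : ℕ∞) + rs.length ≤ n := le_trans (by gcongr) hb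
      have h7 : τ.card + rs.length ≤ n := by exact_mod_cast h6
      omega
    · intro r hr
      refine Submodule.span_induction ?_ ?_ ?_ ?_ hr
      · rintro _ ⟨j, hj, rfl⟩
        rw [mul_comm, X, monomial_mul, mul_one, monomial_mem_MI hV]
        exact h2 j hj
      · simp
      · intro a b _ _ ha hb
        rw [add_mul]; exact Ideal.add_mem _ ha hb
      · intro a b _ hb
        rw [smul_eq_mul, mul_assoc]; exact Ideal.mul_mem_left _ _ hb

theorem realized_two (K : Type) [Field K] (f : ℕ → ℕ) (hc : ∃ c T, ∀ t, T ≤ t → f t = c) (m : ℕ)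
    (hm : ∀ t, 1 ≤ t → f t ≤ m) : RealizedIn K f (m + 2) := by
  obtain ⟨c, T, hT⟩ := hc
  obtain ⟨s, hs⟩ := exists_ideal (m + 1) (T + 1) (fun t => m + 1 - f t) (by omega)
    (fun t ht => by have := hm t ht; omega) (fun t _ => by omega)
    (fun t ht => by rw [hT t (by omega), hT (T + 1) (by omega)])
  obtain ⟨hup1, -, e1, τ1, hτ1, he1, h1⟩ := hs 1 le_rfl
  rw [one_smul] at hup1 he1 h1
  refine ⟨MI K s, ⟨_, ?_, rfl⟩, ?_, ?_, fun t ht => ?_⟩
  · rintro _ ⟨e, -, rfl⟩
    exact ⟨_, isHomogeneous_monomial _ rfl⟩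
  · obtain ⟨j, hj⟩ : τ1.Nonempty := Finset.card_pos.1 (by omega)
    intro h0
    have := (monomial_mem_MI (K := K) hup1 _).2 (h1 j hj)
    rw [h0] at this
    simp at this
  · intro h0
    exact he1 ((monomial_mem_MI (K := K) hup1 _).1 (h0 ▸ Submodule.mem_top))
  · obtain ⟨hup, h2, e, τ, hτ, he, h3⟩ := hs t ht
    rw [MI_pow]
    exact depth_monomial _ hup _ _ (by have := hm t ht; omega) (h2 K) e τ hτ he h3

theorem realized_one (K : Type) [Field K] (f : ℕ → ℕ) (m : ℕ) (hm : ∀ t, 1 ≤ t → f t = m) :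
    RealizedIn K f (m + 1) := by
  have hX : (X 0 : MvPolynomial (Fin (m + 1)) K) ∈ mm K (m + 1) := Ideal.subset_span ⟨0, rfl⟩
  refine ⟨Ideal.span {X 0}, ⟨_, ?_, rfl⟩, by simp [X_ne_zero], ?_, fun t ht => ?_⟩
  · rintro _ rfl
    exact ⟨1, isHomogeneous_X _ _⟩
  · intro h
    exact Ideal.IsMaximal.ne_top (inferInstance : (mm K (m + 1)).IsMaximal)
      (top_le_iff.1 (h ▸ (Ideal.span_singleton_le_iff_mem _).2 hX))
  · rw [hm t ht, Ideal.span_singleton_pow]
    have := depth_principal (X 0 ^ t) (pow_ne_zero _ (X_ne_zero 0))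
      (Ideal.pow_mem_of_mem _ hX t (by omega)) ⊤ (by simp)
    rwa [Ideal.mul_top] at this

theorem lower_one {f : ℕ → ℕ} (h : RealizedIn K f n) (t : ℕ) (ht : 1 ≤ t) : f t + 1 ≤ n := by
  obtain ⟨Q, hQ, h0, h1, h2⟩ := h
  obtain ⟨rs, h3, h4, h5⟩ := (h2 t ht).1
  rw [← h5]
  exact length_lt _ (pow_ne_zero _ h0) ((Ideal.pow_le_self (by omega)).trans (le_mm Q hQ h1)) rs
    h3 h4

theorem lower_two {f : ℕ → ℕ} (h : RealizedIn K f (n + 1)) (t0 : ℕ) (ht0 : 1 ≤ t0)
    (hf : f t0 = n) (t : ℕ) (ht : 1 ≤ t) : f t = n := by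
  obtain ⟨Q, hQ, h0, h1, h2⟩ := h
  exact (h2 t ht).unique (const_of_max Q h0 (le_mm Q hQ h1) t0 ht0 (hf ▸ h2 t0 ht0) t ht)

open Classical in
theorem main (K : Type) [Field K] (f : ℕ → ℕ) (hc : ∃ c T, ∀ t, T ≤ t → f t = c) (m : ℕ)
    (hm : IsGreatest {v : ℕ | ∃ t, 1 ≤ t ∧ f t = v} m) :
    IsLeast {n : ℕ | RealizedIn K f n} (if ∀ t, 1 ≤ t → f t = m then m + 1 else m + 2) := by
  obtain ⟨⟨t0, ht0, hf⟩, hub⟩ := hm
  split_ifs with h
  · exact ⟨realized_one K f m h, fun n hn => hf ▸ lower_one hn t0 ht0⟩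
  · refine ⟨realized_two K f hc m fun t ht => hub ⟨t, ht, rfl⟩, fun n hn => ?_⟩
    have h1 := lower_one hn t0 ht0
    by_contra h2
    obtain rfl : n = m + 1 := by omega
    exact h (lower_two hn t0 ht0 hf)

end Pool.Agent.H79.DepthMain
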