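import Mathlib

set_option autoImplicit false

namespace Pool.Agent.H79.EDProb
open Polynomial Finset

noncomputable def Fp {R : Type*} [CommRing R] (D E B : R) : R[X] :=
  (X - C D) * (1 + X ^ 2) ^ 2 + C E * X + C B * (X ^ 2 - 1)

noncomputable def Gp {R : Type*} [CommRing R] (D E B : R) : R[X] := Fp D E B * (1 + X ^ 2)

lemma Gp_map {R S : Type*} [CommRing R] [CommRing S] (φ : R →+* S) (D E B : R) :
    (Gp D E B).map φ = Gp (φ D) (φ E) (φ B) := by
  simp [Gp, Fp, Polynomial.map_mul, Polynomial.map_add, Polynomial.map_sub, Polynomial.map_pow]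

lemma Fp_natDegree (D E B : ℂ) : (Fp D E B).natDegree = 5 := by
  unfold Fp; compute_degree!

lemma Gp_natDegree (D E B : ℂ) : (Gp D E B).natDegree = 7 := by
  unfold Gp Fp; compute_degree!

lemma Gp_deriv_natDegree (D E B : ℂ) : (derivative (Gp D E B)).natDegree = 6 := by
  rw [natDegree_derivative, Gp_natDegree]

noncomputable def res {R : Type*} [CommRing R] (D E B : R) : R :=
  resultant (Gp D E B) (derivative (Gp D E B)) 7 6

lemma res_map {R S : Type*} [CommRing R] [CommRing S] (φ : R →+* S) (D E B : R) :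
    φ (res D E B) = res (φ D) (φ E) (φ B) := by
  unfold res
  rw [← resultant_map_map, ← derivative_map, Gp_map]

lemma sep_of_res {D E B : ℂ} (h : res D E B ≠ 0) : (Gp D E B).Separable := by
  obtain ⟨p, q, -, -, e⟩ := exists_mul_add_mul_eq_C_resultant (m := 7) (n := 6) (Gp D E B)
    (derivative (Gp D E B)) (Gp_natDegree D E B).le (Gp_deriv_natDegree D E B).le (by simp)
  refine ⟨C (res D E B)⁻¹ * p, C (res D E B)⁻¹ * q, ?_⟩
  have : C (res D E B)⁻¹ * C (res D E B) = (1 : ℂ[X]) := by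
    rw [← C_mul, inv_mul_cancel₀ h, C_1]
  rw [← this]
  unfold res
  rw [← e]; ring

lemma res_ne : res (1 : ℂ) 0 25 ≠ 0 := by
  have h : IsCoprime (Gp (1 : ℂ) 0 25) (derivative (Gp (1 : ℂ) 0 25)) := by
    rw [isCoprime_iff_aeval_ne_zero_of_isAlgClosed ℂ ℂ]
    intro u
    by_contra hc
    push Not at hc
    obtain ⟨h1, h2⟩ := hc
    simp [Gp, Fp, derivative_pow] at h1 h2
    have h1' : ((u - 1) * (1 + u ^ 2) ^ 2 + 25 * (u ^ 2 - 1)) * (1 + u ^ 2) = 0 := by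
      simpa using h1
    have : (559507500 : ℂ) = 0 := by
      linear_combination (-(21568375 + 300379 * u - 597074 * u ^ 2 + 4447757 * u ^ 3
        - 1242199 * u ^ 4 + 446978 * u ^ 5)) * h1' - (1270250 - 6137021 * u + 626446 * u ^ 2
        - 355367 * u ^ 3 - 707658 * u ^ 4 + 186579 * u ^ 5 - 63854 * u ^ 6) * h2
    norm_num at this
  have := resultant_ne_zero _ _ h
  rwa [Gp_natDegree, Gp_deriv_natDegree] at this

def f (D E B u : ℂ) : ℂ := (u - D) * (1 + u ^ 2) ^ 2 + E * u + B * (u ^ 2 - 1)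

lemma roots_of_res {D E B : ℂ} (h : res D E B ≠ 0) :
    {u | f D E B u = 0}.Finite ∧ {u | f D E B u = 0}.ncard = 5 ∧
      ∀ u, f D E B u = 0 → 1 + u ^ 2 ≠ 0 := by
  have hs := sep_of_res h
  have hF : (Fp D E B).Separable := hs.of_mul_left
  have hF0 : Fp D E B ≠ 0 := by
    intro h0; have := Fp_natDegree D E B; rw [h0] at this; simp at this
  have hset : {u | f D E B u = 0} = (Fp D E B).rootSet ℂ := by
    ext u
    rw [mem_rootSet_of_ne hF0]
    simp [f, Fp]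
  refine ⟨hset ▸ Set.toFinite _, ?_, ?_⟩
  · rw [hset, ← Set.fintypeCard_eq_ncard, card_rootSet_eq_natDegree hF (IsAlgClosed.splits _),
      Fp_natDegree]
  · intro u hu h1
    obtain ⟨a, b, hab⟩ := hs.isCoprime
    have := congrArg (eval u) hab
    have hu' : eval u (Fp D E B) = 0 := by simpa [f, Fp] using hu
    simp [hu', h1] at this


section rows
variable {ι : Type*} [Fintype ι]

def CritR (t0 t1 x0 x1 : ι → ℂ) : Prop :=
  ∑ j, (x0 j + x1 j) = 1 ∧ ∃ (p0 p1 : ℂ) (q : ι → ℂ), (∀ j, x0 j = p0 * q j) ∧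
    (∀ j, x1 j = p1 * q j) ∧ ∀ (b0 b1 : ℂ) (c : ι → ℂ),
      ∑ j, ((b0 * q j + c j * p0) + (b1 * q j + c j * p1)) = 0 →
      ∑ j, ((x0 j - t0 j) * (b0 * q j + c j * p0) + (x1 j - t1 j) * (b1 * q j + c j * p1)) = 0

def cD {R : Type*} [CommRing R] (t0 t1 : ι → R) : R := ∑ j, (t0 j - t1 j)
def cT {R : Type*} [CommRing R] (t0 t1 : ι → R) : R := ∑ j, (t0 j + t1 j)
def cE {R : Type*} [CommRing R] (t0 t1 : ι → R) : R :=
  (Fintype.card ι : R) * ∑ j, ((t0 j + t1 j) ^ 2 - (t0 j - t1 j) ^ 2) - cT t0 t1 ^ 2 + cD t0 t1 ^ 2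
def cB {R : Type*} [CommRing R] (t0 t1 : ι → R) : R :=
  (Fintype.card ι : R) * ∑ j, ((t0 j + t1 j) * (t0 j - t1 j)) - cT t0 t1 * cD t0 t1

noncomputable def w (t0 t1 : ι → ℂ) (u : ℂ) (j : ι) : ℂ :=
  (t0 j + t1 j) + u * (t0 j - t1 j) + (1 + u ^ 2 - cT t0 t1 - u * cD t0 t1) / Fintype.card ι

lemma sum_w (hm : (Fintype.card ι : ℂ) ≠ 0) (t0 t1 : ι → ℂ) (u : ℂ) :
    ∑ j, w t0 t1 u j = 1 + u ^ 2 := by
  simp only [w, sum_add_distrib (f := fun j => (t0 j + t1 j) + u * (t0 j - t1 j)),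
    sum_add_distrib (f := fun j => (t0 j + t1 j)), ← mul_sum, sum_const, card_univ, nsmul_eq_mul]
  simp only [cT, cD]
  field_simp
  ring

lemma key (hm : (Fintype.card ι : ℂ) ≠ 0) (t0 t1 : ι → ℂ) (u : ℂ) :
    (Fintype.card ι : ℂ) * ∑ j, (u * w t0 t1 u j - (1 + u ^ 2) * (t0 j - t1 j)) * w t0 t1 u j
      = f (cD t0 t1) (cE t0 t1) (cB t0 t1) u := by
  set κ := (1 + u ^ 2 - cT t0 t1 - u * cD t0 t1) / Fintype.card ι with hκ
  have h1 : ∀ j, (u * w t0 t1 u j - (1 + u ^ 2) * (t0 j - t1 j)) * w t0 t1 u j =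
      u * ((t0 j + t1 j) ^ 2 - (t0 j - t1 j) ^ 2) + (u ^ 2 - 1) * ((t0 j + t1 j) * (t0 j - t1 j))
       + (2 * u * κ) * (t0 j + t1 j) + ((u ^ 2 - 1) * κ) * (t0 j - t1 j) + u * κ ^ 2 := by
    intro j; simp only [w, ← hκ]; ring
  rw [Finset.sum_congr rfl fun j _ => h1 j]
  rw [sum_add_distrib, sum_add_distrib, sum_add_distrib, sum_add_distrib, ← mul_sum, ← mul_sum,
    ← mul_sum, ← mul_sum, sum_const, card_univ, nsmul_eq_mul]
  have hκ' : (Fintype.card ι : ℂ) * κ = 1 + u ^ 2 - cT t0 t1 - u * cD t0 t1 := by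
    rw [hκ]; field_simp
  unfold f cE cB
  change _ * (u * _ + (u ^ 2 - 1) * _ + 2 * u * κ * cT t0 t1 + (u ^ 2 - 1) * κ * cD t0 t1 + _) = _
  linear_combination (2 * u * cT t0 t1 + (u ^ 2 - 1) * cD t0 t1
    + u * ((Fintype.card ι : ℂ) * κ + (1 + u ^ 2 - cT t0 t1 - u * cD t0 t1))) * hκ'

lemma critR_iff (hm : (Fintype.card ι : ℂ) ≠ 0) (t0 t1 x0 x1 : ι → ℂ)
    (H : ∀ u, f (cD t0 t1) (cE t0 t1) (cB t0 t1) u = 0 → 1 + u ^ 2 ≠ 0) :
    CritR t0 t1 x0 x1 ↔ ∃ u, f (cD t0 t1) (cE t0 t1) (cB t0 t1) u = 0 ∧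
      (∀ j, x0 j = (1 + u) / 2 * (w t0 t1 u j / (1 + u ^ 2))) ∧
      (∀ j, x1 j = (1 - u) / 2 * (w t0 t1 u j / (1 + u ^ 2))) := by
  classical
  constructor
  · rintro ⟨hs, p0, p1, q, h0, h1, h⟩
    have hσ : (p0 + p1) * ∑ j, q j = 1 := by
      rw [← hs, mul_sum]; exact sum_congr rfl fun j _ => by rw [h0, h1]; ring
    have hσ0 : p0 + p1 ≠ 0 := left_ne_zero_of_mul_eq_one hσ
    set u := (p0 - p1) / (p0 + p1) with hu
    have hp0 : p0 = (1 + u) / 2 * (p0 + p1) := by rw [hu]; field_simp; ring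
    have hp1 : p1 = (1 - u) / 2 * (p0 + p1) := by rw [hu]; field_simp; ring
    set σ := p0 + p1 with hσdef
    set l : ι → ℂ := fun j => (1 + u ^ 2) * (σ * q j) - ((t0 j + t1 j) + u * (t0 j - t1 j))
      with hl
    have hl' : ∀ j, (x0 j - t0 j) * p0 + (x1 j - t1 j) * p1 = σ / 2 * l j := by
      intro j
      rw [h0, h1, hl]
      conv_lhs => rw [hp0, hp1]
      ring
    have hsl : ∑ j, l j = 1 + u ^ 2 - cT t0 t1 - u * cD t0 t1 := by
      simp only [hl, sum_sub_distrib (f := fun j => (1 + u ^ 2) * (σ * q j)),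
        sum_add_distrib (f := fun j => (t0 j + t1 j)), ← mul_sum, hσ]
      simp only [cT, cD]; ring
    have hlj : ∀ k, l k = (∑ j, l j) / Fintype.card ι := by
      intro k
      have := h 0 0 (fun j => (if j = k then 1 else 0) - (Fintype.card ι : ℂ)⁻¹) (by
        have : ∀ j, (0 * q j + ((if j = k then 1 else 0) - (Fintype.card ι : ℂ)⁻¹) * p0) +
          (0 * q j + ((if j = k then 1 else 0) - (Fintype.card ι : ℂ)⁻¹) * p1) =
          σ * ((if j = k then 1 else 0) - (Fintype.card ι : ℂ)⁻¹) := fun j => by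
            rw [hσdef]; ring
        rw [sum_congr rfl fun j _ => this j, ← mul_sum, sum_sub_distrib]
        simp [hm])
      have h2 : ∀ j, (x0 j - t0 j) * (0 * q j + ((if j = k then 1 else 0)
          - (Fintype.card ι : ℂ)⁻¹) * p0) + (x1 j - t1 j) * (0 * q j + ((if j = k then 1 else 0)
          - (Fintype.card ι : ℂ)⁻¹) * p1) = σ / 2 * ((if j = k then l j else 0)
          - (Fintype.card ι : ℂ)⁻¹ * l j) := fun j => by
        have := hl' j
        split_ifs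
        · linear_combination (1 - (Fintype.card ι : ℂ)⁻¹) * this
        · linear_combination (0 - (Fintype.card ι : ℂ)⁻¹) * this
      rw [sum_congr rfl fun j _ => h2 j, ← mul_sum, sum_sub_distrib, ← mul_sum] at this
      have h3 := (mul_eq_zero.1 this).resolve_left (by simpa using hσ0)
      simp only [sum_ite_eq', mem_univ, if_true] at h3
      rw [div_eq_inv_mul]; exact sub_eq_zero.1 h3
    have hw : ∀ j, w t0 t1 u j = (1 + u ^ 2) * (σ * q j) := by
      intro j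
      have := hlj j
      rw [hsl] at this
      unfold w
      rw [← this, hl]; ring
    have hf : f (cD t0 t1) (cE t0 t1) (cB t0 t1) u = 0 := by
      rw [← key hm]
      have := h 1 (-1) 0 (by simp)
      have h2 : ∀ j, (u * w t0 t1 u j - (1 + u ^ 2) * (t0 j - t1 j)) * w t0 t1 u j =
          ((1 + u ^ 2) ^ 2 * σ) * ((x0 j - t0 j) * (1 * q j + (0 : ι → ℂ) j * p0) +
            (x1 j - t1 j) * (-1 * q j + (0 : ι → ℂ) j * p1)) := fun j => by
        rw [hw, h0, h1]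
        conv_rhs => rw [hp0, hp1]
        simp only [Pi.zero_apply]
        ring
      rw [sum_congr rfl fun j _ => h2 j, ← mul_sum, this]; simp
    have hn := H u hf
    refine ⟨u, hf, fun j => ?_, fun j => ?_⟩
    · rw [hw, h0]
      conv_lhs => rw [hp0]
      field_simp
    · rw [hw, h1]
      conv_lhs => rw [hp1]
      field_simp
  · rintro ⟨u, hf, h0, h1⟩
    have hn := H u hf
    have hq : ∑ j, w t0 t1 u j / (1 + u ^ 2) = 1 := by
      rw [← sum_div, sum_w hm, div_self hn]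
    refine ⟨?_, (1 + u) / 2, (1 - u) / 2, fun j => w t0 t1 u j / (1 + u ^ 2), h0, h1, ?_⟩
    · rw [← hq]; exact sum_congr rfl fun j _ => by rw [h0, h1]; ring
    · intro b0 b1 c hbc
      set κ := (1 + u ^ 2 - cT t0 t1 - u * cD t0 t1) / Fintype.card ι with hκ
      have hbc' : b0 + b1 + ∑ j, c j = 0 := by
        rw [← hbc]
        have : ∀ j, (b0 * (w t0 t1 u j / (1 + u ^ 2)) + c j * ((1 + u) / 2)) +
          (b1 * (w t0 t1 u j / (1 + u ^ 2)) + c j * ((1 - u) / 2)) =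
          (b0 + b1) * (w t0 t1 u j / (1 + u ^ 2)) + c j := fun j => by ring
        rw [sum_congr rfl fun j _ => this j, sum_add_distrib, ← mul_sum, hq, mul_one]
      have hk : ∑ j, (u * w t0 t1 u j - (1 + u ^ 2) * (t0 j - t1 j)) * w t0 t1 u j = 0 := by
        have := key hm t0 t1 u
        rw [hf] at this
        exact (mul_eq_zero.1 this).resolve_left hm
      have h2 : ∀ j, (x0 j - t0 j) * (b0 * (w t0 t1 u j / (1 + u ^ 2)) + c j * ((1 + u) / 2)) +
          (x1 j - t1 j) * (b1 * (w t0 t1 u j / (1 + u ^ 2)) + c j * ((1 - u) / 2)) =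
          κ / 2 * c j + (b0 + b1) * (κ / 2) * (w t0 t1 u j / (1 + u ^ 2))
            + ((b0 - b1) - u * (b0 + b1)) / (2 * (1 + u ^ 2) ^ 2) *
            ((u * w t0 t1 u j - (1 + u ^ 2) * (t0 j - t1 j)) * w t0 t1 u j) := fun j => by
        rw [h0, h1]
        have : t0 j = (w t0 t1 u j - κ - (1 - u) * t1 j - u * t0 j) := by
          simp only [w, ← hκ]; ring
        have hκ2 : κ = w t0 t1 u j - (t0 j + t1 j) - u * (t0 j - t1 j) := by
          simp only [w, ← hκ]; ring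
        rw [hκ2]
        field_simp
        ring
      rw [sum_congr rfl fun j _ => h2 j, sum_add_distrib, sum_add_distrib, ← mul_sum, ← mul_sum,
        ← mul_sum, hk, hq]
      linear_combination (κ / 2) * hbc'

end rows


abbrev mm : Fin 2 → ℕ := ![2, 26]
abbrev II : Type := (k : Fin 2) → Fin (mm k)

def ix (i : Fin 2) (j : Fin 26) : II := (piFinTwoEquiv fun k => Fin (mm k)).symm (i, j)

lemma ix_zero (i : Fin 2) (j : Fin 26) : ix i j 0 = i := rfl
lemma ix_one (i : Fin 2) (j : Fin 26) : ix i j 1 = j := rfl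

lemma ix_eta (I : II) : ix (I 0) (I 1) = I :=
  (piFinTwoEquiv fun k => Fin (mm k)).symm_apply_apply I

lemma sum_II (g : II → ℂ) : ∑ I, g I = ∑ j : Fin 26, (g (ix 0 j) + g (ix 1 j)) := by
  rw [← (piFinTwoEquiv fun k => Fin (mm k)).symm.sum_comp]
  change ∑ p : Fin 2 × Fin 26, g (ix p.1 p.2) = _
  rw [Fintype.sum_prod_type_right]
  exact sum_congr rfl fun j _ => Fin.sum_univ_two _

def Crit (T : II → ℂ) : Set (II → ℂ) := {x |
     ((∑ I : II, x I) = 1 ∧ ∃ a : (k : Fin 2) → Fin (mm k) → ℂ,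
        (∀ I : II, x I = ∏ k : Fin 2, a k (I k)) ∧
        ∀ b : (k : Fin 2) → Fin (mm k) → ℂ,
          (∑ I : II, (∑ k : Fin 2, b k (I k) * ∏ j ∈ Finset.univ.erase k, a j (I j))) = 0 →
          (∑ I : II, (x I - T I) *
              (∑ k : Fin 2, b k (I k) * ∏ j ∈ Finset.univ.erase k, a j (I j))) = 0)}

lemma tang (a b : (k : Fin 2) → Fin (mm k) → ℂ) (I : II) :
    (∑ k : Fin 2, b k (I k) * ∏ j ∈ Finset.univ.erase k, a j (I j)) =
      b 0 (I 0) * a 1 (I 1) + b 1 (I 1) * a 0 (I 0) := by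
  have h0 : (Finset.univ : Finset (Fin 2)).erase 0 = {1} := by decide
  have h1 : (Finset.univ : Finset (Fin 2)).erase 1 = {0} := by decide
  rw [Fin.sum_univ_two, h0, h1, prod_singleton, prod_singleton]

def pair (p : Fin 2 → ℂ) (q : Fin 26 → ℂ) : (k : Fin 2) → Fin (mm k) → ℂ :=
  (piFinTwoEquiv fun k => Fin (mm k) → ℂ).symm (p, q)

lemma mem_Crit (T x : II → ℂ) : x ∈ Crit T ↔
    CritR (fun j => T (ix 0 j)) (fun j => T (ix 1 j)) (fun j => x (ix 0 j))
      (fun j => x (ix 1 j)) := by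
  unfold Crit CritR
  simp only [Set.mem_ofPred_eq, tang, sum_II, Fin.prod_univ_two]
  refine and_congr Iff.rfl ⟨?_, ?_⟩
  · rintro ⟨a, ha, h⟩
    exact ⟨a 0 (0 : Fin 2), a 0 (1 : Fin 2), a 1, fun j => ha _, fun j => ha _,
      fun b0 b1 c hc => h (pair ![b0, b1] c) hc⟩
  · rintro ⟨p0, p1, q, h0, h1, h⟩
    refine ⟨pair ![p0, p1] q, fun I => ?_,
      fun b hb => h (b 0 (0 : Fin 2)) (b 0 (1 : Fin 2)) (b 1) hb⟩
    rw [← ix_eta I]
    generalize I 0 = i
    generalize I 1 = j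
    revert i
    change ∀ i : Fin 2, _
    intro i
    fin_cases i
    · exact h0 j
    · exact h1 j

noncomputable def pt (T : II → ℂ) (u : ℂ) : II → ℂ := fun I =>
  (![(1 + u) / 2, (1 - u) / 2] : Fin 2 → ℂ) (I 0) *
    (w (fun j : Fin 26 => T (ix 0 j)) (fun j => T (ix 1 j)) u (I 1) / (1 + u ^ 2))

noncomputable def resT {R : Type*} [CommRing R] (T : II → R) : R :=
  res (cD (fun j : Fin 26 => T (ix 0 j)) (fun j => T (ix 1 j)))
    (cE (fun j : Fin 26 => T (ix 0 j)) (fun j => T (ix 1 j)))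
    (cB (fun j : Fin 26 => T (ix 0 j)) (fun j => T (ix 1 j)))

def fT (T : II → ℂ) (u : ℂ) : ℂ :=
  f (cD (fun j : Fin 26 => T (ix 0 j)) (fun j => T (ix 1 j)))
    (cE (fun j : Fin 26 => T (ix 0 j)) (fun j => T (ix 1 j)))
    (cB (fun j : Fin 26 => T (ix 0 j)) (fun j => T (ix 1 j))) u

lemma hm26 : (Fintype.card (Fin 26) : ℂ) ≠ 0 := by simp

lemma crit_eq {T : II → ℂ} (h : resT T ≠ 0) : Crit T = pt T '' {u | fT T u = 0} := by
  ext x
  rw [mem_Crit, critR_iff hm26 _ _ _ _ (roots_of_res h).2.2]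
  constructor
  · rintro ⟨u, hu, h0, h1⟩
    refine ⟨u, hu, funext fun I => ?_⟩
    rw [← ix_eta I]
    generalize I 0 = i
    generalize I 1 = j
    revert i
    change ∀ i : Fin 2, _
    intro i
    fin_cases i
    · exact (h0 j).symm
    · exact (h1 j).symm
  · rintro ⟨u, hu, rfl⟩
    exact ⟨u, hu, fun j => rfl, fun j => rfl⟩

lemma pt_inj {T : II → ℂ} (h : resT T ≠ 0) : Set.InjOn (pt T) {u | fT T u = 0} := by
  have key : ∀ u, fT T u = 0 → ∑ j : Fin 26, (pt T u (ix 0 j) - pt T u (ix 1 j)) = u := by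
    intro u hu
    have hn := (roots_of_res h).2.2 u hu
    have : ∀ j : Fin 26, pt T u (ix 0 j) - pt T u (ix 1 j) =
        u / (1 + u ^ 2) * w (fun j : Fin 26 => T (ix 0 j)) (fun j => T (ix 1 j)) u j := by
      intro j
      change (1 + u) / 2 * (w _ _ u j / _) - (1 - u) / 2 * (w _ _ u j / _) = _
      ring
    rw [sum_congr rfl fun j _ => this j, ← mul_sum, sum_w hm26]
    field_simp
  intro u hu v hv huv
  rw [← key u hu, ← key v hv, huv]

lemma crit_card {T : II → ℂ} (h : resT T ≠ 0) : (Crit T).Finite ∧ (Crit T).ncard = 5 := by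
  rw [crit_eq h]
  exact ⟨(roots_of_res h).1.image _, ((pt_inj h).ncard_image).trans (roots_of_res h).2.1⟩

lemma eval_resT (T : II → ℂ) :
    MvPolynomial.eval T (resT (MvPolynomial.X : II → MvPolynomial II ℂ)) = resT T := by
  unfold resT
  rw [res_map]
  simp [cD, cE, cB, cT]

noncomputable def T0 : II → ℝ := fun I => if I = ix 0 0 then 1 else 0

lemma T0_0 (j : Fin 26) : ((T0 (ix 0 j) : ℝ) : ℂ) = if j = 0 then 1 else 0 := by
  unfold T0
  by_cases hj : j = 0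
  · simp [hj]
  · rw [if_neg, if_neg hj]; · simp
    intro h; exact hj (congrFun h 1)

lemma T0_1 (j : Fin 26) : ((T0 (ix 1 j) : ℝ) : ℂ) = 0 := by
  unfold T0
  rw [if_neg]; · simp
  intro h
  have : (1 : Fin 2) = 0 := congrFun h 0
  exact absurd this (by decide)

lemma cT0 : cT (fun j : Fin 26 => ((T0 (ix 0 j) : ℝ) : ℂ)) (fun j => T0 (ix 1 j)) = 1 := by
  simp [cT, T0_0, T0_1]
lemma cD0 : cD (fun j : Fin 26 => ((T0 (ix 0 j) : ℝ) : ℂ)) (fun j => T0 (ix 1 j)) = 1 := by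
  simp [cD, T0_0, T0_1]
lemma cE0 : cE (fun j : Fin 26 => ((T0 (ix 0 j) : ℝ) : ℂ)) (fun j => T0 (ix 1 j)) = 0 := by
  rw [cE, cT0, cD0]; simp [T0_0, T0_1]
lemma cB0 : cB (fun j : Fin 26 => ((T0 (ix 0 j) : ℝ) : ℂ)) (fun j => T0 (ix 1 j)) = 25 := by
  rw [cB, cT0, cD0]; simp [T0_0, T0_1]; norm_num

lemma resT0 : resT (fun I => ((T0 I : ℝ) : ℂ)) ≠ 0 := by
  unfold resT; rw [cD0, cE0, cB0]; exact res_ne

lemma fT0 (u : ℂ) : fT (fun I => ((T0 I : ℝ) : ℂ)) u = f 1 0 25 u := by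
  unfold fT; rw [cD0, cE0, cB0]

lemma pt_real (r : ℝ) (I : II) : (pt (fun I => ((T0 I : ℝ) : ℂ)) r I).im = 0 := by
  have h : ∃ s : ℝ, pt (fun I => ((T0 I : ℝ) : ℂ)) r I = s := by
    unfold pt w
    rw [cT0, cD0]
    refine ⟨(![(1 + r) / 2, (1 - r) / 2] : Fin 2 → ℝ) (I 0) * (((T0 (ix 0 (I 1)) + T0 (ix 1 (I 1)))
      + r * (T0 (ix 0 (I 1)) - T0 (ix 1 (I 1))) + (1 + r ^ 2 - 1 - r * 1) / 26) / (1 + r ^ 2)), ?_⟩
    generalize I 0 = i
    revert i
    change ∀ i : Fin 2, _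
    intro i
    fin_cases i <;> simp
  obtain ⟨s, hs⟩ := h
  rw [hs]; simp

theorem main : ¬ ({x : II → ℂ | x ∈ Crit (fun I => ((T0 I : ℝ) : ℂ)) ∧
    ∀ I, (x I).im = 0}.ncard = 1) := by
  intro h
  obtain ⟨a, ha⟩ := Set.ncard_eq_one.1 h
  have h1 : fT (fun I => ((T0 I : ℝ) : ℂ)) (1 : ℝ) = 0 := by rw [fT0]; simp [f]
  have h2 : fT (fun I => ((T0 I : ℝ) : ℂ)) (-2 : ℝ) = 0 := by rw [fT0]; simp [f]; norm_num
  have m1 : pt (fun I => ((T0 I : ℝ) : ℂ)) (1 : ℝ) ∈ ({a} : Set _) := by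
    rw [← ha, crit_eq resT0]; exact ⟨⟨_, h1, rfl⟩, pt_real 1⟩
  have m2 : pt (fun I => ((T0 I : ℝ) : ℂ)) (-2 : ℝ) ∈ ({a} : Set _) := by
    rw [← ha, crit_eq resT0]; exact ⟨⟨_, h2, rfl⟩, pt_real (-2)⟩
  have := pt_inj resT0 h1 h2 (m1.trans m2.symm)
  have h3 : (1 : ℝ) = -2 := by exact_mod_cast this
  norm_num at h3

end Pool.Agent.H79.EDProb
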