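import Mathlib
import Pool.Agent.H79.Depth

set_option autoImplicit false

namespace Pool.Agent.H79.LocQ

open MvPolynomial Pool.Agent.H79.Depth

variable {σ : Type} {K : Type} [Field K]

/-- ideal of the origin -/
noncomputable abbrev mm (σ K : Type) [Field K] : Ideal (MvPolynomial σ K) :=
  Ideal.span (Set.range (X : σ → MvPolynomial σ K))

variable (J : Ideal (MvPolynomial σ K))

/-- ideal of the origin in the quotient -/
noncomputable def nn : Ideal (MvPolynomial σ K ⧸ J) := (mm σ K).map (Ideal.Quotient.mk J)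

variable [hJ : Fact (J ≤ mm σ K)]

theorem mk_mem_nn (s : MvPolynomial σ K) : Ideal.Quotient.mk J s ∈ nn J ↔ coeff 0 s = 0 := by
  rw [nn, Ideal.mem_quotient_iff_mem_sup, sup_eq_left.2 hJ.out, mem_vars_iff]

instance nn_max : (nn J).IsMaximal := by
  have := vars_maximal (σ := σ) (K := K)
  rcases Ideal.map_eq_top_or_isMaximal_of_surjective (Ideal.Quotient.mk J)
    Ideal.Quotient.mk_surjective this with h | h
  · exfalso
    have h1 : Ideal.Quotient.mk J 1 ∈ nn J := by rw [nn, h]; trivial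
    rw [mk_mem_nn] at h1
    simp at h1
  · exact h

/-- the local ring at the origin -/
def RR : Type := Localization.AtPrime (nn J)

noncomputable instance : CommRing (RR J) :=
  inferInstanceAs (CommRing (Localization.AtPrime (nn J)))

noncomputable instance : Algebra (MvPolynomial σ K ⧸ J) (RR J) :=
  inferInstanceAs (Algebra (MvPolynomial σ K ⧸ J) (Localization.AtPrime (nn J)))

instance : IsLocalization.AtPrime (RR J) (nn J) :=
  inferInstanceAs (IsLocalization.AtPrime (Localization.AtPrime (nn J)) (nn J))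

instance : IsLocalRing (RR J) := IsLocalization.AtPrime.isLocalRing (RR J) (nn J)

instance [Finite σ] : IsNoetherianRing (RR J) :=
  IsLocalization.isNoetherianRing (nn J).primeCompl (RR J) inferInstance

/-- the structure map -/
noncomputable def ι : MvPolynomial σ K →+* RR J :=
  (algebraMap (MvPolynomial σ K ⧸ J) (RR J)).comp (Ideal.Quotient.mk J)

theorem ι_of_mem {s : MvPolynomial σ K} (hs : s ∈ J) : ι J s = 0 := by
  simp [ι, Ideal.Quotient.eq_zero_iff_mem.2 hs]

theorem exists_lift {T : Type} [CommRing T] (ψ : MvPolynomial σ K →+* T)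
    (h1 : ∀ s ∈ J, ψ s = 0) (h2 : ∀ s, coeff 0 s ≠ 0 → IsUnit (ψ s)) :
    ∃ ψ' : RR J →+* T, ∀ s, ψ' (ι J s) = ψ s := by
  refine ⟨IsLocalization.lift (M := (nn J).primeCompl) (g := Ideal.Quotient.lift J ψ h1) ?_,
    fun s => ?_⟩
  · rintro ⟨y, hy⟩
    obtain ⟨s, rfl⟩ := Ideal.Quotient.mk_surjective y
    exact h2 s fun h => hy ((mk_mem_nn J s).2 h)
  · simp [ι]

theorem isUnit_of_jac {T : Type} [CommRing T] (ψ : MvPolynomial σ K →+* T)
    (h : ∀ i, ψ (X i) ∈ Ideal.jacobson (⊥ : Ideal T)) (s : MvPolynomial σ K)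
    (hs : coeff 0 s ≠ 0) : IsUnit (ψ s) := by
  have h1 : s - C (coeff 0 s) ∈ mm σ K := by rw [mem_vars_iff]; simp
  have h2 : mm σ K ≤ (Ideal.jacobson (⊥ : Ideal T)).comap ψ := by
    rw [Ideal.span_le]; rintro _ ⟨i, rfl⟩; exact h i
  have h3 : ψ (s - C (coeff 0 s)) ∈ Ideal.jacobson (⊥ : Ideal T) := h2 h1
  have h4 : IsUnit (ψ (C (coeff 0 s)⁻¹ * s)) := by
    apply Ideal.isUnit_of_sub_one_mem_jacobson_bot
    have : ψ (C (coeff 0 s)⁻¹ * s) - 1 = ψ (C (coeff 0 s)⁻¹) * ψ (s - C (coeff 0 s)) := by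
      rw [← map_mul, mul_sub, ← C_mul, inv_mul_cancel₀ hs, map_sub, C_1, map_one]
    rw [this]
    exact Ideal.mul_mem_left _ _ h3
  rw [map_mul] at h4
  exact isUnit_of_mul_isUnit_right h4

theorem hom_ext {T : Type} [CommRing T] (f g : RR J →+* T) (h : ∀ s, f (ι J s) = g (ι J s)) :
    f = g := by
  apply IsLocalization.ringHom_ext (nn J).primeCompl
  apply Ideal.Quotient.ringHom_ext
  exact RingHom.ext h

theorem ι_mem_max (s : MvPolynomial σ K) :
    ι J s ∈ IsLocalRing.maximalIdeal (RR J) ↔ coeff 0 s = 0 := by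
  rw [← mk_mem_nn J]
  exact IsLocalization.AtPrime.to_map_mem_maximal_iff (RR J) (nn J) _

theorem isUnit_ι (s : MvPolynomial σ K) (hs : coeff 0 s ≠ 0) : IsUnit (ι J s) := by
  by_contra h
  exact hs ((ι_mem_max J s).1 h)

theorem exists_frac (r : RR J) : ∃ a s : MvPolynomial σ K, coeff 0 s ≠ 0 ∧ r * ι J s = ι J a := by
  obtain ⟨⟨a, s, hs⟩, h⟩ := IsLocalization.surj (nn J).primeCompl r
  obtain ⟨a, rfl⟩ := Ideal.Quotient.mk_surjective a
  obtain ⟨s, rfl⟩ := Ideal.Quotient.mk_surjective s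
  exact ⟨a, s, fun h0 => hs ((mk_mem_nn J s).2 h0), h⟩

theorem max_eq : IsLocalRing.maximalIdeal (RR J) = Ideal.span (Set.range fun i => ι J (X i)) := by
  rw [← IsLocalization.AtPrime.map_eq_maximalIdeal (nn J) (RR J)]
  change ((mm σ K).map (Ideal.Quotient.mk J)).map _ = _
  rw [Ideal.map_map, Ideal.map_span, ← Set.range_comp]
  rfl

theorem exists_const (r : RR J) :
    ∃ c : K, r - ι J (C c) ∈ IsLocalRing.maximalIdeal (RR J) := by
  obtain ⟨a, s, hs, h⟩ := exists_frac J r
  refine ⟨coeff 0 a / coeff 0 s, ?_⟩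
  have h1 : (r - ι J (C (coeff 0 a / coeff 0 s))) * ι J s ∈ IsLocalRing.maximalIdeal (RR J) := by
    rw [sub_mul, h, ← map_mul, ← map_sub, ι_mem_max, coeff_sub, coeff_C_mul]
    field_simp
    ring
  exact (Ideal.mul_unit_mem_iff_mem _ (isUnit_ι J s hs)).1 h1

theorem card_le_dim (τ0 τ : Finset σ) (hd : Disjoint τ0 τ)
    (h : J ≤ Ideal.span (X '' (τ0 : Set σ))) : (τ.card : WithBot ℕ∞) ≤ ringKrullDim (RR J) := by
  classical
  have hle : ∀ τ : Finset σ, J ≤ Ideal.span (X '' ((τ0 ∪ τ : Finset σ) : Set σ)) := fun τ =>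
    h.trans (Ideal.span_mono (Set.image_mono (by simp)))
  have hp : ∀ τ : Finset σ, ((Ideal.span (X '' ((τ0 ∪ τ : Finset σ) : Set σ))).map
      (Ideal.Quotient.mk J)).IsPrime := by
    intro τ
    have := varIdeal_prime (K := K) ((τ0 ∪ τ : Finset σ) : Set σ)
    exact Ideal.map_isPrime_of_surjective Ideal.Quotient.mk_surjective (by
      rw [Ideal.mk_ker]; exact hle τ)
  have key : ∀ τ : Finset σ, Disjoint τ0 τ → (τ.card : ℕ∞) ≤
      ((Ideal.span (X '' ((τ0 ∪ τ : Finset σ) : Set σ))).map (Ideal.Quotient.mk J)).height := by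
    intro τ
    induction τ using Finset.induction_on with
    | empty => simp
    | insert j τ hj ih =>
      intro hd
      rw [Finset.card_insert_of_notMem hj]
      have := hp τ
      have := hp (insert j τ)
      have hj0 : j ∉ τ0 := fun h => Finset.disjoint_left.1 hd h (Finset.mem_insert_self _ _)
      have hlt : (Ideal.span (X '' ((τ0 ∪ τ : Finset σ) : Set σ))).map (Ideal.Quotient.mk J) <
          (Ideal.span (X '' ((τ0 ∪ insert j τ : Finset σ) : Set σ))).map
            (Ideal.Quotient.mk J) := by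
        refine lt_of_le_of_ne (Ideal.map_mono (Ideal.span_mono (Set.image_mono ?_))) fun h => ?_
        · intro x; simp only [Finset.coe_union, Set.mem_union, Finset.mem_coe, Finset.coe_insert,
            Set.mem_insert_iff]; tauto
        have h1 : Ideal.Quotient.mk J (X j) ∈
            (Ideal.span (X '' ((τ0 ∪ τ : Finset σ) : Set σ))).map (Ideal.Quotient.mk J) := by
          rw [h]; exact Ideal.mem_map_of_mem _ (Ideal.subset_span ⟨j, by simp, rfl⟩)
        rw [Ideal.mem_quotient_iff_mem_sup, sup_eq_left.2 (hle τ), mem_ideal_span_X_image] at h1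
        obtain ⟨i, hi, h2⟩ := h1 (Finsupp.single j 1) (by simp [support_X])
        have : j ≠ i := by
          rintro rfl
          simp [hj, hj0] at hi
        exact h2 (Finsupp.single_eq_of_ne' this)
      have ih' := ih (hd.mono_right (Finset.subset_insert _ _))
      calc ((τ.card + 1 : ℕ) : ℕ∞) = (τ.card : ℕ∞) + 1 := by push_cast; rfl
        _ ≤ _ := by gcongr
        _ ≤ _ := Ideal.height_add_one_le_of_lt_of_isPrime hlt
  rw [IsLocalization.AtPrime.ringKrullDim_eq_height (nn J) (RR J)]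
  have h2 : ((Ideal.span (X '' ((τ0 ∪ τ : Finset σ) : Set σ))).map (Ideal.Quotient.mk J)).height ≤
      (nn J).height := Ideal.height_mono (Ideal.map_mono (Ideal.span_mono (by
        rintro _ ⟨i, -, rfl⟩; exact ⟨i, rfl⟩)))
  exact_mod_cast (key τ hd).trans h2

theorem dim_le_of_radical {R : Type} [CommRing R] [IsLocalRing R] [IsNoetherianRing R] (d : ℕ)
    (x : Fin d → R) (h : (Ideal.span (Set.range x)).radical = IsLocalRing.maximalIdeal R) :
    ringKrullDim R ≤ d := by
  rw [← IsLocalRing.maximalIdeal_height_eq_ringKrullDim]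
  have h1 : IsLocalRing.maximalIdeal R ∈ (Ideal.span (Set.range x)).minimalPrimes := by
    rw [← Ideal.radical_minimalPrimes, h, Ideal.minimalPrimes_eq_subsingleton_self]
    rfl
  have h2 := Ideal.height_le_card_of_mem_minimalPrimes_span (Set.finite_range x) h1
  have h3 : (Set.range x).ncard ≤ d := by
    rw [← Set.image_univ]
    exact (Set.ncard_image_le Set.finite_univ).trans (by simp)
  exact_mod_cast h2.trans (by exact_mod_cast h3)

end Pool.Agent.H79.LocQ
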