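import Mathlib
import Pool.Agent.H79.LocQ

set_option autoImplicit false

namespace Pool.Agent.H79.FDeform

open MvPolynomial Pool.Agent.H79.Mono Pool.Agent.H79.Depth Pool.Agent.H79.LocQ

/-- the polynomial ring in U, V, Y, Z (indices 0, 1, 2, 3) -/
abbrev S : Type := MvPolynomial (Fin 4) (ZMod 2)

/-- the standard monomial splitting -/
noncomputable def Φ : S →+ S :=
  AddMonoidAlgebra.comapDomainAddMonoidHom (fun e : Fin 4 →₀ ℕ => 2 • e) (by
    intro a b h
    ext i
    have := DFunLike.congr_fun h i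
    simp only [Finsupp.coe_smul, Pi.smul_apply, smul_eq_mul] at this
    omega)

theorem coeff_Φ (f : S) (e : Fin 4 →₀ ℕ) : coeff e (Φ f) = coeff (2 • e) f := rfl

theorem Φ_sq_mul (a b : S) : Φ (a ^ 2 * b) = a * Φ b := by
  classical
  induction a using MvPolynomial.induction_on' with
  | add p q hp hq => rw [CharTwo.add_sq, add_mul, map_add, hp, hq, add_mul]
  | monomial d c =>
    ext e
    have hc : c ^ 2 = c := ZMod.pow_card c
    rw [coeff_Φ, monomial_pow, hc, coeff_monomial_mul', coeff_monomial_mul']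
    have h1 : 2 • d ≤ 2 • e ↔ d ≤ e := by
      simp only [Finsupp.le_def, Finsupp.coe_smul, Pi.smul_apply, smul_eq_mul]
      exact forall_congr' fun i => by omega
    simp only [h1]
    split_ifs with h
    · rw [coeff_Φ]
      congr 2
      ext i
      simp only [Finsupp.coe_smul, Finsupp.coe_tsub, Pi.smul_apply, Pi.sub_apply, smul_eq_mul]
      omega
    · rfl

theorem Φ_one : Φ 1 = 1 := by
  classical
  ext e
  rw [coeff_Φ, coeff_one, coeff_one]
  have : (0 = 2 • e) ↔ (0 = e) := by
    constructor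
    · intro h; ext i
      have := DFunLike.congr_fun h i
      simp only [Finsupp.coe_smul, Pi.smul_apply, smul_eq_mul, Finsupp.coe_zero,
        Pi.zero_apply] at this ⊢
      omega
    · rintro rfl; simp
  simp only [this]

theorem Φ_mem {V : Set (Fin 4 →₀ ℕ)} (hV : IsUpperSet V) (h : ∀ e, 2 • e ∈ V → e ∈ V) (f : S)
    (hf : f ∈ MI (ZMod 2) V) : Φ f ∈ MI (ZMod 2) V := by
  rw [mem_MI hV] at hf ⊢
  intro e he
  apply h
  apply hf
  rwa [mem_support_iff, ← coeff_Φ, ← mem_support_iff]

theorem Φ_Y (f : S) (hf : f ∈ Ideal.span {(X 2 : S)}) : Φ f ∈ Ideal.span {(X 2 : S)} := by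
  rw [← Set.image_singleton, mem_ideal_span_X_image] at hf ⊢
  intro e he
  obtain ⟨i, hi, h⟩ := hf (2 • e) (by rwa [mem_support_iff, ← coeff_Φ, ← mem_support_iff])
  refine ⟨i, hi, fun h0 => h ?_⟩
  simp [h0]

/-- Fedder's ideal -/
noncomputable def I : Ideal S := Ideal.span {X 0 * X 1, X 0 * X 3, X 3 * (X 1 - X 2 ^ 2)}

theorem g1 : (X 0 * X 1 : S) ∈ I := Ideal.subset_span (by simp)
theorem g2 : (X 0 * X 3 : S) ∈ I := Ideal.subset_span (by simp)
theorem g3 : (X 3 * (X 1 - X 2 ^ 2) : S) ∈ I := Ideal.subset_span (by simp)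

theorem I_le (J : Ideal S) (h1 : (X 0 * X 1 : S) ∈ J) (h2 : (X 0 * X 3 : S) ∈ J)
    (h3 : (X 3 * (X 1 - X 2 ^ 2) : S) ∈ J) : I ≤ J := by
  rw [I, Ideal.span_le]
  rintro _ (rfl | rfl | rfl) <;> assumption

theorem I_le_mm : I ≤ mm (Fin 4) (ZMod 2) := by
  apply I_le <;> exact Ideal.mul_mem_right _ _ (Ideal.subset_span ⟨_, rfl⟩)

/-- exponent set of `I + (Y)` -/
def V' : Set (Fin 4 →₀ ℕ) :=
  {e | (1 ≤ e 0 ∧ 1 ≤ e 1) ∨ (1 ≤ e 0 ∧ 1 ≤ e 3) ∨ (1 ≤ e 1 ∧ 1 ≤ e 3) ∨ 1 ≤ e 2}

theorem V'_upper : IsUpperSet V' := by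
  intro e f hef he
  have := hef 0; have := hef 1; have := hef 2; have := hef 3
  simp only [V', Set.mem_ofPred_eq] at he ⊢
  omega

theorem I'_eq : I ⊔ Ideal.span {(X 2 : S)} = MI (ZMod 2) V' := by
  have hXX : ∀ i j : Fin 4, Finsupp.single i 1 + Finsupp.single j 1 ∈ V' →
      (X i * X j : S) ∈ MI (ZMod 2) V' := by
    intro i j h
    rw [X, X, monomial_mul, mul_one, monomial_mem_MI V'_upper]; exact h
  have hY : (X 2 : S) ∈ MI (ZMod 2) V' := by
    rw [X, monomial_mem_MI V'_upper]; simp [V']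
  apply le_antisymm
  · refine sup_le (I_le _ (hXX _ _ (by simp [V'])) (hXX _ _ (by simp [V'])) ?_)
      ((Ideal.span_singleton_le_iff_mem _).2 hY)
    have := Ideal.sub_mem _ (hXX 3 1 (by simp [V'])) (Ideal.mul_mem_left _ (X 3 * X 2) hY)
    convert this using 1; ring
  · rw [Ideal.span_le]
    rintro _ ⟨e, he, rfl⟩
    have hY' : (X 2 : S) ∈ I ⊔ Ideal.span {(X 2 : S)} :=
      Ideal.mem_sup_right (Ideal.mem_span_singleton_self _)
    have hdiv : ∀ i j : Fin 4, i ≠ j → 1 ≤ e i → 1 ≤ e j →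
        (X i * X j : S) ∈ I ⊔ Ideal.span {(X 2 : S)} →
        (monomial e 1 : S) ∈ I ⊔ Ideal.span {(X 2 : S)} := by
      intro i j hij hi hj h
      refine Ideal.mem_of_dvd _ ?_ h
      rw [X, X, monomial_mul, monomial_dvd_monomial]
      refine ⟨Or.inr ?_, by simp⟩
      intro l
      simp only [Finsupp.coe_add, Pi.add_apply, Finsupp.single_apply]
      split_ifs with h1 h2 h2
      · exact absurd (h1.trans h2.symm) hij
      · subst h1; omega
      · subst h2; omega
      · omega
    rcases he with ⟨h1, h2⟩ | ⟨h1, h2⟩ | ⟨h1, h2⟩ | h1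
    · exact hdiv 0 1 (by decide) h1 h2 (Ideal.mem_sup_left g1)
    · exact hdiv 0 3 (by decide) h1 h2 (Ideal.mem_sup_left g2)
    · refine hdiv 1 3 (by decide) h1 h2 ?_
      have := Ideal.add_mem _ (Ideal.mem_sup_left g3) (Ideal.mul_mem_left _ (X 3 * X 2) hY')
      convert this using 1; ring
    · refine Ideal.mem_of_dvd _ ?_ hY'
      rw [X, monomial_dvd_monomial]
      exact ⟨Or.inr (Finsupp.single_le_iff.2 h1), by simp⟩

theorem Φ_I (f : S) (hf : f ∈ I) : Φ f ∈ I ⊔ Ideal.span {(X 2 : S)} := by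
  rw [I'_eq]
  refine Φ_mem V'_upper ?_ f (I'_eq ▸ Ideal.mem_sup_left hf)
  intro e he
  simp only [V', Set.mem_ofPred_eq, Finsupp.coe_smul, Pi.smul_apply, smul_eq_mul] at he ⊢
  omega

theorem sub_aeval_mem (v : Fin 4 → S) (J : Ideal S) (h : ∀ i, X i - v i ∈ J) (f : S) :
    f - aeval v f ∈ J := by
  induction f using MvPolynomial.induction_on with
  | C a => simp
  | add p q hp hq =>
    have := Ideal.add_mem _ hp hq
    rw [map_add]; convert this using 1; ring
  | mul_X p i hp =>
    rw [map_mul, aeval_X]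
    have := Ideal.add_mem _ (Ideal.mul_mem_right (X i) _ hp)
      (Ideal.mul_mem_left _ (aeval v p) (h i))
    convert this using 1; ring

theorem aeval_sub_mem (v w : Fin 4 → S) (J : Ideal S) (h : ∀ i, v i - w i ∈ J) (f : S) :
    aeval v f - aeval w f ∈ J := by
  induction f using MvPolynomial.induction_on with
  | C a => simp
  | add p q hp hq =>
    have := Ideal.add_mem _ hp hq
    rw [map_add, map_add]; convert this using 1; ring
  | mul_X p i hp =>
    rw [map_mul, map_mul, aeval_X, aeval_X]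
    have := Ideal.add_mem _ (Ideal.mul_mem_right (v i) _ hp)
      (Ideal.mul_mem_left _ (aeval w p) (h i))
    convert this using 1; ring

/-- the five retractions -/
noncomputable def v1 : Fin 4 → S := ![X 0, 0, X 2, 0]
/-- second -/
noncomputable def v2 : Fin 4 → S := ![0, X 1, X 2, 0]
/-- third -/
noncomputable def v3 : Fin 4 → S := ![0, X 2 ^ 2, X 2, X 3]
/-- first and second -/
noncomputable def v12 : Fin 4 → S := ![0, 0, X 2, 0]
/-- second and third -/
noncomputable def v23 : Fin 4 → S := ![0, X 2 ^ 2, X 2, 0]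

theorem mul_mem_of (J : Ideal S) (t : S) (v w : Fin 4 → S) (h : ∀ i, t * (v i - w i) ∈ J) (f : S) :
    t * (aeval v f - aeval w f) ∈ J :=
  aeval_sub_mem v w (J.colon {t}) (fun i => by
    rw [Submodule.mem_colon_singleton, smul_eq_mul, mul_comm]; exact h i) f |> fun h => by
    rw [Submodule.mem_colon_singleton, smul_eq_mul, mul_comm] at h; exact h

theorem T_mem (f : S) :
    f - (aeval v1 f + aeval v2 f + aeval v3 f - aeval v12 f - aeval v23 f) ∈ I := by
  induction f using MvPolynomial.induction_on with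
  | C a => simp
  | add p q hp hq =>
    have := Ideal.add_mem _ hp hq
    simp only [map_add]; convert this using 1; ring
  | mul_X p i hp =>
    simp only [map_mul, aeval_X]
    fin_cases i
    · have := mul_mem_of I (X 0) X v1 (fun i => by
        fin_cases i <;> simp [v1, g1, g2]) p
      rw [aeval_X_left_apply] at this
      convert this using 1
      simp [v1, v2, v3, v12, v23]; ring
    · have h1 := mul_mem_of I (X 1) v1 v12 (fun i => by
        fin_cases i <;> simp [v1, v12, mul_comm (X 1 : S), g1]) p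
      have h2 := mul_mem_of I (X 1 - X 2 ^ 2) v3 v23 (fun i => by
        fin_cases i <;> simp [v3, v23, mul_comm (X 1 - X 2 ^ 2 : S), g3]) p
      have := Ideal.add_mem _ (Ideal.add_mem _ (Ideal.mul_mem_right (X 1) _ hp) h1) h2
      convert this using 1
      simp [v1, v2, v3, v12, v23]; ring
    · have := Ideal.mul_mem_right (X 2) _ hp
      convert this using 1
      simp [v1, v2, v3, v12, v23]; ring
    · have := mul_mem_of I (X 3) X v3 (fun i => by
        fin_cases i <;> simp [v3, mul_comm (X 3 : S) (X 0), g2, g3]) p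
      rw [aeval_X_left_apply] at this
      convert this using 1
      simp [v1, v2, v3, v12, v23]; ring

theorem Y_nzd (f : S) (h : X 2 * f ∈ I) : f ∈ I := by
  have key : ∀ v : Fin 4 → S, v 2 = X 2 → v 0 * v 1 = 0 → v 0 * v 3 = 0 →
      v 3 * (v 1 - v 2 ^ 2) = 0 → aeval v f = 0 := by
    intro v h2 h01 h03 h3
    have : I ≤ RingHom.ker (aeval v : S →ₐ[ZMod 2] S).toRingHom := by
      apply I_le <;> rw [RingHom.mem_ker] <;>
        simp only [AlgHom.toRingHom_eq_coe, RingHom.coe_coe, map_mul, map_sub, map_pow,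
          aeval_X] <;> assumption
    have h4 : aeval v (X 2 * f) = 0 := this h
    rw [map_mul, aeval_X, h2] at h4
    exact (mul_eq_zero.1 h4).resolve_left (X_ne_zero _)
  have := T_mem f
  rw [key v1, key v2, key v3, key v12, key v23] at this
  · simpa using this
  all_goals simp [v1, v2, v3, v12, v23]

end Pool.Agent.H79.FDeform
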