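import Mathlib
import Pool.Agent.H79.FDeform1

set_option autoImplicit false

namespace Pool.Agent.H79.FDeform

open MvPolynomial Pool.Agent.H79.Mono Pool.Agent.H79.Depth Pool.Agent.H79.LocQ

/-- localization at a prime, as a new type -/
def Loc {A : Type} [CommRing A] (n : Ideal A) [n.IsPrime] : Type := Localization.AtPrime n

section
variable {A : Type} [CommRing A] (n : Ideal A) [n.IsPrime]

noncomputable instance : CommRing (Loc n) := inferInstanceAs (CommRing (Localization.AtPrime n))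

noncomputable instance : Algebra A (Loc n) :=
  inferInstanceAs (Algebra A (Localization.AtPrime n))

instance : IsLocalization.AtPrime (Loc n) n :=
  inferInstanceAs (IsLocalization.AtPrime (Localization.AtPrime n) n)

instance : IsLocalRing (Loc n) := IsLocalization.AtPrime.isLocalRing (Loc n) n

instance [IsNoetherianRing A] : IsNoetherianRing (Loc n) :=
  IsLocalization.isNoetherianRing n.primeCompl (Loc n) inferInstance

instance [IsDomain A] : IsDomain (Loc n) :=
  IsLocalization.isDomain_of_le_nonZeroDivisors (Loc n) n.primeCompl_le_nonZeroDivisors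

end

/-- two copies of affine space glued along Fedder's ring -/
noncomputable def R0 : Subalgebra S (S × S) where
  carrier := {p | p.1 - p.2 ∈ I}
  mul_mem' := by
    intro a b ha hb
    have := Ideal.add_mem I (Ideal.mul_mem_right b.1 I ha) (Ideal.mul_mem_left I a.2 hb)
    simp only [Set.mem_ofPred_eq, Prod.fst_mul, Prod.snd_mul]
    convert this using 1; ring
  add_mem' := by
    intro a b ha hb
    have := Ideal.add_mem I ha hb
    simp only [Set.mem_ofPred_eq, Prod.fst_add, Prod.snd_add]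
    convert this using 1; ring
  algebraMap_mem' := by intro r; simp

theorem mem_R0 (p : S × S) : p ∈ R0 ↔ p.1 - p.2 ∈ I := Iff.rfl

instance : IsNoetherianRing R0 :=
  isNoetherian_of_tower S (isNoetherian_of_submodule_of_noetherian S (S × S) R0.toSubmodule
    inferInstance)

/-- first projection -/
noncomputable def p1 : R0 →+* S := (RingHom.fst S S).comp R0.val.toRingHom
/-- second projection -/
noncomputable def p2 : R0 →+* S := (RingHom.snd S S).comp R0.val.toRingHom

theorem ext12 {a b : R0} (h1 : p1 a = p1 b) (h2 : p2 a = p2 b) : a = b :=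
  Subtype.ext (Prod.ext h1 h2)

@[simp] theorem p1_alg (s : S) : p1 (algebraMap S R0 s) = s := rfl
@[simp] theorem p2_alg (s : S) : p2 (algebraMap S R0 s) = s := rfl

theorem p12 (a : R0) : p1 a - p2 a ∈ I := a.2

/-- the element `(i, 0)` -/
noncomputable def z1 (i : S) (hi : i ∈ I) : R0 := ⟨(i, 0), by simpa [mem_R0] using hi⟩
@[simp] theorem p1_z1 (i : S) (hi : i ∈ I) : p1 (z1 i hi) = i := rfl
@[simp] theorem p2_z1 (i : S) (hi : i ∈ I) : p2 (z1 i hi) = 0 := rfl

instance : (mm (Fin 4) (ZMod 2)).IsMaximal := vars_maximal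

/-- the maximal ideal -/
noncomputable def n0 : Ideal R0 := (mm (Fin 4) (ZMod 2)).comap p1

instance : n0.IsMaximal :=
  Ideal.comap_isMaximal_of_surjective p1 fun s => ⟨algebraMap S R0 s, rfl⟩

theorem mem_n0 (a : R0) : a ∈ n0 ↔ p1 a ∈ mm (Fin 4) (ZMod 2) := Iff.rfl

theorem mem_n0' (a : R0) : a ∈ n0 ↔ p2 a ∈ mm (Fin 4) (ZMod 2) := by
  rw [mem_n0]
  have := I_le_mm (p12 a)
  constructor
  · intro h; simpa using Ideal.sub_mem _ h this
  · intro h; simpa using Ideal.add_mem _ this h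

/-- the diagonal element Y -/
noncomputable def x0 : R0 := algebraMap S R0 (X 2)

theorem mem_x0 (a : R0) (h1 : p1 a ∈ Ideal.span {(X 2 : S)}) (h2 : p2 a ∈ Ideal.span {(X 2 : S)}) :
    a ∈ Ideal.span {x0} := by
  obtain ⟨b, hb⟩ := Ideal.mem_span_singleton'.1 h1
  obtain ⟨c, hc⟩ := Ideal.mem_span_singleton'.1 h2
  have : b - c ∈ I := Y_nzd _ (by
    have := p12 a
    rw [← hb, ← hc] at this
    convert this using 1; ring)
  exact Ideal.mem_span_singleton'.2 ⟨⟨(b, c), this⟩, ext12 hb hc⟩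

theorem step (J : Ideal R0) (hx : x0 ∈ J) (r : R0)
    (h : r ^ 2 ∈ Ideal.span ((fun a => a ^ 2) '' (J : Set R0)) ⊔ Ideal.span {x0}) : r ∈ J := by
  have key : ∀ z ∈ Ideal.span ((fun a => a ^ 2) '' (J : Set R0)) ⊔ Ideal.span {x0}, ∀ a : R0,
      ∃ j ∈ J, Φ (p1 (a * z)) - p1 j ∈ Ideal.span {(X 2 : S)} ∧
        Φ (p2 (a * z)) - p2 j ∈ Ideal.span {(X 2 : S)} := by
    intro z hz
    rw [← Ideal.span_union] at hz
    induction hz using Submodule.span_induction with
    | mem z hz =>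
      intro a
      rcases hz with ⟨j, hj, rfl⟩ | rfl
      · have h1 := Φ_I _ (p12 a)
        rw [map_sub] at h1
        obtain ⟨i, hi, y, hy, hiy⟩ := Submodule.mem_sup.1 h1
        refine ⟨(algebraMap S R0 (Φ (p2 a)) + z1 i hi) * j, Ideal.mul_mem_left _ _ hj, ?_, ?_⟩
        · simp only [map_mul, map_pow, map_add, p1_alg, p1_z1]
          rw [mul_comm, Φ_sq_mul]
          convert Ideal.mul_mem_left _ (p1 j) hy using 1
          linear_combination (-p1 j) * hiy
        · simp only [map_mul, map_pow, map_add, p2_alg, p2_z1]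
          rw [mul_comm, Φ_sq_mul, add_zero, mul_comm, sub_self]
          exact Ideal.zero_mem _
      · refine ⟨0, J.zero_mem, ?_, ?_⟩ <;> rw [map_zero, sub_zero] <;> apply Φ_Y <;>
          rw [map_mul] <;> exact Ideal.mul_mem_left _ _ (Ideal.mem_span_singleton_self _)
    | zero => intro a; exact ⟨0, J.zero_mem, by simp, by simp⟩
    | add x y _ _ hx hy =>
      intro a
      obtain ⟨j, hj, h1, h2⟩ := hx a
      obtain ⟨j', hj', h1', h2'⟩ := hy a
      refine ⟨j + j', J.add_mem hj hj', ?_, ?_⟩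
      · rw [mul_add, map_add, map_add, map_add]
        convert Ideal.add_mem _ h1 h1' using 1; ring
      · rw [mul_add, map_add, map_add, map_add]
        convert Ideal.add_mem _ h2 h2' using 1; ring
    | smul c x _ hx =>
      intro a
      rw [smul_eq_mul, ← mul_assoc]
      exact hx _
  obtain ⟨j, hj, h1, h2⟩ := key _ h 1
  rw [one_mul, map_pow, ← mul_one (_ ^ 2), Φ_sq_mul, Φ_one, mul_one, ← map_sub] at h1 h2
  have := (Ideal.span_singleton_le_iff_mem _).2 hx (mem_x0 _ h1 h2)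
  simpa using J.add_mem this hj

theorem closed0 (J : Ideal R0) (hx : x0 ∈ J) (e : ℕ) : ∀ r : R0,
    r ^ 2 ^ e ∈ Ideal.span ((fun a => a ^ 2 ^ e) '' (J : Set R0)) ⊔ Ideal.span {x0} → r ∈ J := by
  induction e with
  | zero =>
    intro r hr
    simp only [pow_zero, pow_one, Set.image_id', Ideal.span_eq] at hr
    rwa [sup_eq_left.2 ((Ideal.span_singleton_le_iff_mem _).2 hx)] at hr
  | succ e ih =>
    intro r hr
    apply ih
    apply step _ (Ideal.mem_sup_right (Ideal.mem_span_singleton_self _))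
    rw [← pow_mul, ← pow_succ]
    refine SetLike.le_def.1 (sup_le_sup_right ?_ _) hr
    apply Ideal.span_mono
    rintro _ ⟨j, hj, rfl⟩
    exact ⟨j ^ 2 ^ e, Ideal.mem_sup_left (Ideal.subset_span ⟨j, hj, rfl⟩), by
      simp only [← pow_mul, ← pow_succ]⟩

/-- the local ring -/
abbrev R : Type := Loc n0

/-- the regular element -/
noncomputable def x : R := algebraMap R0 R x0

theorem closed (J' : Ideal (R ⧸ Ideal.span {x})) (r : R ⧸ Ideal.span {x}) (e : ℕ)
    (h : r ^ 2 ^ e ∈ Ideal.span ((fun a => a ^ 2 ^ e) '' (J' : Set (R ⧸ Ideal.span {x})))) :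
    r ∈ J' := by
  let θ : R0 →+* R ⧸ Ideal.span {x} := (Ideal.Quotient.mk _).comp (algebraMap R0 R)
  have hsurj : ∀ r : R ⧸ Ideal.span {x}, ∃ a s : R0, IsUnit (θ s) ∧ r * θ s = θ a := by
    intro r
    obtain ⟨r, rfl⟩ := Ideal.Quotient.mk_surjective r
    obtain ⟨⟨a, s⟩, h⟩ := IsLocalization.surj n0.primeCompl r
    refine ⟨a, s, (IsLocalization.map_units R s).map (Ideal.Quotient.mk _), ?_⟩
    simp only [θ, RingHom.comp_apply, ← map_mul, h]
  let J := J'.comap θ
  have hx : x0 ∈ J := by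
    have : θ x0 = 0 := Ideal.Quotient.eq_zero_iff_mem.2 (Ideal.mem_span_singleton_self _)
    simp [J, this]
  have h1 : Ideal.span ((fun a => a ^ 2 ^ e) '' (J' : Set (R ⧸ Ideal.span {x}))) ≤
      (Ideal.span ((fun a => a ^ 2 ^ e) '' (J : Set R0))).map θ := by
    rw [Ideal.span_le]
    rintro _ ⟨b, hb, rfl⟩
    obtain ⟨a, s, hs, hb'⟩ := hsurj b
    have ha : a ∈ J := by
      change θ a ∈ J'
      rw [← hb']; exact Ideal.mul_mem_right _ _ hb
    rw [SetLike.mem_coe, ← Ideal.mul_unit_mem_iff_mem _ (hs.pow (2 ^ e)), ← mul_pow, hb',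
      ← map_pow]
    exact Ideal.mem_map_of_mem _ (Ideal.subset_span ⟨a, ha, rfl⟩)
  obtain ⟨a, s, hs, hr⟩ := hsurj r
  have h2 : θ (a ^ 2 ^ e) ∈ (Ideal.span ((fun a => a ^ 2 ^ e) '' (J : Set R0))).map θ := by
    rw [map_pow, ← hr, mul_pow]
    exact Ideal.mul_mem_right _ _ (h1 h)
  rw [← Ideal.map_map, RingHom.comp_apply, Ideal.mem_quotient_iff_mem_sup] at h2
  have h3 : Ideal.span {x} = (Ideal.span {x0}).map (algebraMap R0 R) := by
    rw [Ideal.map_span, Set.image_singleton]; rfl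
  rw [h3, ← Ideal.map_sup, IsLocalization.mem_map_algebraMap_iff n0.primeCompl] at h2
  obtain ⟨⟨⟨i, hi⟩, t⟩, ht⟩ := h2
  rw [← map_mul, IsLocalization.eq_iff_exists n0.primeCompl] at ht
  obtain ⟨u, hu⟩ := ht
  have h4 : (u * t * a) ^ 2 ^ e ∈
      Ideal.span ((fun a => a ^ 2 ^ e) '' (J : Set R0)) ⊔ Ideal.span {x0} := by
    obtain ⟨m, hm⟩ : ∃ m, 2 ^ e = m + 1 := ⟨2 ^ e - 1, by have := Nat.one_le_two_pow (n := e); omega⟩
    have : ((u : R0) * t * a) ^ 2 ^ e = ((u : R0) * t) ^ m * (u * (a ^ 2 ^ e * t)) := by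
      rw [mul_pow, hm]; ring
    rw [this, hu]
    exact Ideal.mul_mem_left _ _ (Ideal.mul_mem_left _ _ hi)
  have h5 : θ (u * t * a) ∈ J' := closed0 J hx e _ h4
  have hu' : IsUnit (θ (u * t)) := by
    rw [map_mul]
    exact ((IsLocalization.map_units R u).map (Ideal.Quotient.mk _)).mul
      ((IsLocalization.map_units R t).map (Ideal.Quotient.mk _))
  rw [map_mul, Ideal.unit_mul_mem_iff_mem _ hu', ← hr, Ideal.mul_unit_mem_iff_mem _ hs] at h5
  exact h5

instance : CharP R 2 :=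
  charP_of_injective_ringHom (f := ((algebraMap R0 R).comp (algebraMap S R0)).comp C)
    (RingHom.injective _) 2

theorem x_mem : x ∈ IsLocalRing.maximalIdeal R :=
  (IsLocalization.AtPrime.to_map_mem_maximal_iff R n0 x0).2 (Ideal.subset_span ⟨2, rfl⟩)

theorem x_nzd : x ∈ nonZeroDivisors R := by
  apply (IsLocalization.toLocalizationMap n0.primeCompl R).nonZeroDivisors_le_comap
  rw [mem_nonZeroDivisors_iff_right]
  intro a ha
  have h1 := congrArg p1 ha
  have h2 := congrArg p2 ha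
  rw [map_mul, map_zero] at h1 h2
  exact ext12 ((mul_eq_zero.1 h1).resolve_right (X_ne_zero _))
    ((mul_eq_zero.1 h2).resolve_right (X_ne_zero _))

/-- parameters in `S` -/
noncomputable def ys : Fin 4 → S := ![X 0 + X 3, X 0 * X 3, X 1, X 2 ^ 2]

/-- parameters in `R` -/
noncomputable def y : Fin 4 → R := fun i => algebraMap R0 R (algebraMap S R0 (ys i))

theorem span_y : Ideal.span (Set.range y) =
    ((Ideal.span (Set.range ys)).map (algebraMap S R0)).map (algebraMap R0 R) := by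
  rw [Ideal.map_map, Ideal.map_span, ← Set.range_comp]; rfl

theorem mm_le : mm (Fin 4) (ZMod 2) ≤ (Ideal.span (Set.range ys)).radical := by
  have h : ∀ i, ys i ∈ Ideal.span (Set.range ys) := fun i => Ideal.subset_span ⟨i, rfl⟩
  rw [Ideal.span_le]
  rintro _ ⟨i, rfl⟩
  fin_cases i
  · refine ⟨2, ?_⟩
    convert Ideal.sub_mem _ (Ideal.mul_mem_left _ (X 0) (h 0)) (h 1) using 1
    simp [ys]; ring
  · exact ⟨1, by simpa [ys] using h 2⟩
  · exact ⟨2, by simpa [ys] using h 3⟩
  · refine ⟨2, ?_⟩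
    convert Ideal.sub_mem _ (Ideal.mul_mem_left _ (X 3) (h 0)) (h 1) using 1
    simp [ys]; ring

theorem n0_le : n0 ≤ ((Ideal.span (Set.range ys)).map (algebraMap S R0)).radical := by
  intro a ha
  have h1 : a = algebraMap S R0 (p2 a) + z1 _ (p12 a) := ext12 (by simp) (by simp)
  rw [h1]
  refine Ideal.add_mem _ ?_ ?_
  · obtain ⟨n, hn⟩ := mm_le ((mem_n0' a).1 ha)
    exact ⟨n, by rw [← map_pow]; exact Ideal.mem_map_of_mem _ hn⟩
  · obtain ⟨n, hn⟩ := mm_le (I_le_mm (p12 a))
    refine ⟨n + 1, ?_⟩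
    have : z1 _ (p12 a) ^ (n + 1) = algebraMap S R0 ((p1 a - p2 a) ^ n) * z1 _ (p12 a) :=
      ext12 (by simp [pow_succ]) (by simp)
    rw [this]
    exact Ideal.mul_mem_right _ _ (Ideal.mem_map_of_mem _ hn)

theorem radical_y : (Ideal.span (Set.range y)).radical = IsLocalRing.maximalIdeal R := by
  apply le_antisymm
  · rw [Ideal.IsPrime.radical_le_iff inferInstance, Ideal.span_le]
    rintro _ ⟨i, rfl⟩
    refine (IsLocalization.AtPrime.to_map_mem_maximal_iff R n0 _).2 ?_
    rw [mem_n0, p1_alg, mem_vars_iff]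
    fin_cases i <;> simp [ys, ← constantCoeff_eq]
  · rw [← IsLocalization.AtPrime.map_eq_maximalIdeal n0 R, span_y]
    exact (Ideal.map_mono n0_le).trans (Ideal.map_radical_le _)

/-- the local ring of affine space -/
abbrev L : Type := Loc (mm (Fin 4) (ZMod 2))

theorem dim_L : ((4 : ℕ) : WithBot ℕ∞) ≤ ringKrullDim L := by
  rw [IsLocalization.AtPrime.ringKrullDim_eq_height (mm (Fin 4) (ZMod 2)) L]
  have := card_le_height (K := ZMod 2) (Finset.univ : Finset (Fin 4))
  rw [Finset.coe_univ, Set.image_univ, Finset.card_univ, Fintype.card_fin] at this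
  exact WithBot.coe_le_coe.2 this

theorem exists_proj (p : R0 →+* S) (hp : ∀ a, a ∈ n0 ↔ p a ∈ mm (Fin 4) (ZMod 2))
    (hd : ∀ s, p (algebraMap S R0 s) = s) :
    ∃ q : R →+* L, Function.Surjective q ∧
      ∀ a, q (algebraMap R0 R a) = algebraMap S L (p a) := by
  have hu : ∀ s : n0.primeCompl, IsUnit (((algebraMap S L).comp p) s) := fun s =>
    IsLocalization.map_units L (⟨p s, fun h => s.2 ((hp _).2 h)⟩ :
      (mm (Fin 4) (ZMod 2)).primeCompl)
  have hq : ∀ a, IsLocalization.lift hu (algebraMap R0 R a) = algebraMap S L (p a) := fun a => by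
    simp
  refine ⟨IsLocalization.lift hu, fun l => ?_, hq⟩
  obtain ⟨⟨a, s⟩, h⟩ := IsLocalization.surj (mm (Fin 4) (ZMod 2)).primeCompl l
  have hs : algebraMap S R0 s ∈ n0.primeCompl := fun h => s.2 (by
    have := (hp _).1 h
    rwa [hd] at this)
  obtain ⟨u, hu'⟩ := IsLocalization.map_units R (⟨_, hs⟩ : n0.primeCompl)
  refine ⟨algebraMap R0 R (algebraMap S R0 a) * ↑u⁻¹, ?_⟩
  apply (IsLocalization.map_units L s).mul_right_cancel
  rw [h, ← hd s, ← hq, ← map_mul, ← hu', mul_assoc, Units.inv_mul, mul_one, hq, hd]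

theorem dim_R : ringKrullDim R = ((4 : ℕ) : WithBot ℕ∞) := by
  apply le_antisymm (dim_le_of_radical 4 y radical_y)
  obtain ⟨q, hq, -⟩ := exists_proj p1 mem_n0 p1_alg
  exact dim_L.trans (ringKrullDim_le_of_surjective q hq)

theorem equidim (P : Ideal R) (hP : P ∈ minimalPrimes R) :
    ringKrullDim (R ⧸ P) = ringKrullDim R := by
  apply le_antisymm (ringKrullDim_quotient_le P)
  obtain ⟨q1, hq1, h1⟩ := exists_proj p1 mem_n0 p1_alg
  obtain ⟨q2, hq2, h2⟩ := exists_proj p2 mem_n0' p2_alg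
  have hinj : Function.Injective (algebraMap S L) :=
    IsLocalization.injective L (mm (Fin 4) (ZMod 2)).primeCompl_le_nonZeroDivisors
  have hinf : RingHom.ker q1 ⊓ RingHom.ker q2 ≤ P := by
    rintro r ⟨hr1, hr2⟩
    obtain ⟨⟨a, s⟩, h⟩ := IsLocalization.surj n0.primeCompl r
    have e1 := congrArg q1 h
    have e2 := congrArg q2 h
    rw [map_mul, (RingHom.mem_ker).1 hr1, zero_mul, h1, eq_comm, map_eq_zero_iff _ hinj] at e1
    rw [map_mul, (RingHom.mem_ker).1 hr2, zero_mul, h2, eq_comm, map_eq_zero_iff _ hinj] at e2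
    have : a = 0 := ext12 e1 e2
    simp only [this, map_zero] at h
    rw [(IsLocalization.map_units R s).mul_left_eq_zero.1 h]
    exact P.zero_mem
  have key : ∀ q : R →+* L, Function.Surjective q → RingHom.ker q ≤ P →
      ringKrullDim R ≤ ringKrullDim (R ⧸ P) := by
    intro q hq hle
    have : P = RingHom.ker q := le_antisymm (hP.2 ⟨RingHom.ker_isPrime q, bot_le⟩ hle) hle
    rw [this, ringKrullDim_eq_of_ringEquiv (RingHom.quotientKerEquivOfSurjective hq), dim_R]
    exact dim_L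
  rcases hP.1.1.inf_le.1 hinf with h | h
  · exact key q1 hq1 h
  · exact key q2 hq2 h

/-- the bad element -/
noncomputable def w0 : R0 := z1 (X 0 * X 3 * (X 2 * X 3)) (Ideal.mul_mem_right _ _ g2)

theorem w_sq : (algebraMap R0 R w0) ^ 2 ^ 1 ∈
    Ideal.span ((fun a => a ^ 2 ^ 1) '' ((Ideal.span (Set.range y) : Ideal R) : Set R)) := by
  have hy : ∀ i, y i ^ 2 ^ 1 ∈
      Ideal.span ((fun a => a ^ 2 ^ 1) '' ((Ideal.span (Set.range y) : Ideal R) : Set R)) :=
    fun i => Ideal.subset_span ⟨y i, Ideal.subset_span ⟨i, rfl⟩, rfl⟩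
  have hi : ((X 2 * X 3) ^ 2 - X 1 * (X 0 + X 3) ^ 2 : S) ∈ I := by
    have := Ideal.sub_mem _ (Ideal.mul_mem_left _ (-X 3) g3)
      (Ideal.mul_mem_left _ (X 0 + 2 * X 3) g1)
    convert this using 1; ring
  have hj : (X 1 * (X 0 * X 3) ^ 2 : S) ∈ I :=
    Ideal.mul_mem_left _ _ (Ideal.pow_mem_of_mem _ g2 2 (by omega))
  have : w0 ^ 2 = z1 _ hi * algebraMap S R0 (ys 1) ^ 2 + z1 _ hj * algebraMap S R0 (ys 0) ^ 2 :=
    ext12 (by simp [w0, ys]; ring) (by simp [w0])
  rw [pow_one, ← map_pow, this, map_add, map_mul, map_mul, map_pow, map_pow]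
  exact Ideal.add_mem _ (Ideal.mul_mem_left _ _ (hy 1)) (Ideal.mul_mem_left _ _ (hy 0))

theorem w_not : algebraMap R0 R w0 ∉ Ideal.span (Set.range y) := by
  rw [span_y, IsLocalization.mem_map_algebraMap_iff n0.primeCompl]
  rintro ⟨⟨⟨i, hi⟩, t⟩, ht⟩
  rw [← map_mul, IsLocalization.eq_iff_exists n0.primeCompl] at ht
  obtain ⟨u, hu⟩ := ht
  have h1 : (u : R0) * (w0 * t) ∈ (Ideal.span (Set.range ys)).map (algebraMap S R0) := by
    rw [hu]; exact Ideal.mul_mem_left _ _ hi
  rw [Ideal.map_span, ← Set.range_comp, Ideal.mem_span_range_iff_exists_fun] at h1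
  obtain ⟨c, hc⟩ := h1
  have e1 := congrArg p1 hc
  have e2 := congrArg p2 hc
  simp only [Fin.sum_univ_four, map_add, map_mul, Function.comp_apply, p1_alg, p2_alg, w0, p1_z1,
    p2_z1] at e1 e2
  let V : Set (Fin 2 →₀ ℕ) := {e | 4 ≤ e 0 ∨ 2 ≤ e 1}
  have hV : IsUpperSet V := by
    intro e f hef he
    have := hef 0; have := hef 1
    simp only [V, Set.mem_ofPred_eq] at he ⊢
    omega
  let φ := Ideal.Quotient.mk (MI (ZMod 2) V)
  have hpow : ∀ (i : Fin 2) (n : ℕ), Finsupp.single i n ∈ V → φ (X i) ^ n = 0 := by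
    intro i n hn
    rw [← map_pow, Ideal.Quotient.eq_zero_iff_mem, X_pow_eq_monomial, monomial_mem_MI hV]
    exact hn
  have h0 : φ (X 0) ^ 4 = 0 := hpow _ _ (by simp [V])
  have h1 : φ (X 1) ^ 2 = 0 := hpow _ _ (by simp [V])
  let ψ : S →+* _ := eval₂Hom (φ.comp C) ![φ (X 0), 0, φ (X 1), -φ (X 0)]
  have hX : ∀ i, ψ (X i) = ![φ (X 0), 0, φ (X 1), -φ (X 0)] i := fun i => by simp [ψ]
  have hI : ∀ d ∈ I, ψ (d * (X 0 * X 3)) = 0 := by
    have : I ≤ (RingHom.ker ψ).colon {X 0 * X 3} := by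
      apply I_le <;> rw [Submodule.mem_colon_singleton, smul_eq_mul, RingHom.mem_ker] <;>
        simp only [map_mul, map_sub, map_pow, hX] <;> simp
      · linear_combination h0
      · linear_combination (-φ (X 0) ^ 3) * h1
    intro d hd
    exact Submodule.mem_colon_singleton.1 (this hd)
  have hunit : ∀ s : n0.primeCompl, IsUnit (ψ (p1 s)) := fun s =>
    isUnit_of_jac ψ (fun i => by
      apply Ideal.radical_le_jacobson
      refine ⟨4, ?_⟩
      rw [hX, Ideal.mem_bot]
      fin_cases i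
      · exact h0
      · simp
      · change φ (X 1) ^ 4 = 0
        linear_combination φ (X 1) ^ 2 * h1
      · change (-φ (X 0)) ^ 4 = 0
        linear_combination h0) _ fun h => s.2 ((mem_vars_iff _).2 h)
  have e3 : p1 u * (X 0 * X 3 * (X 2 * X 3) * p1 t) = (p1 (c 0) - p2 (c 0)) * ys 0 +
      (p1 (c 1) - p2 (c 1)) * (X 0 * X 3) + (p1 (c 2) - p2 (c 2)) * ys 2 +
      (p1 (c 3) - p2 (c 3)) * ys 3 := by
    have : ys 1 = X 0 * X 3 := rfl
    rw [this] at e1 e2
    linear_combination e2 - e1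
  have e4 := congrArg ψ e3
  have y0 : ψ (ys 0) = 0 := by simp [ys, hX]
  have y2 : ψ (ys 2) = 0 := by simp [ys, hX]
  have y3 : ψ (ys 3) = 0 := by simp [ys, hX, h1]
  rw [map_add, map_add, map_add, hI _ (p12 _), map_mul, map_mul, map_mul ψ _ (ys 0),
    map_mul ψ _ (ys 2), map_mul ψ _ (ys 3), y0, y2, y3, mul_zero, mul_zero, mul_zero, add_zero,
    add_zero, add_zero, (hunit u).mul_right_eq_zero, (hunit t).mul_left_eq_zero] at e4
  have e5 : φ (X 0 ^ 3 * X 1) = 0 := by
    simp only [map_mul, hX] at e4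
    simp only [map_mul, map_pow]
    simp at e4
    linear_combination e4
  rw [Ideal.Quotient.eq_zero_iff_mem, X_pow_eq_monomial, X, monomial_mul, mul_one,
    monomial_mem_MI hV] at e5
  simp [V] at e5

end Pool.Agent.H79.FDeform
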