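import Mathlib
import Pool.Agent.H79.LocQ

set_option autoImplicit false

namespace Pool.Agent.H79.FrobPar

open MvPolynomial Pool.Agent.H79.Mono Pool.Agent.H79.Depth Pool.Agent.H79.LocQ

variable {K : Type} [Field K] (a : K)

/-- the defining ideal -/
noncomputable def JJ : Ideal (MvPolynomial (Fin 5) K) :=
  Ideal.span {X 0 * X 3, X 0 * X 4, X 1 * X 3, X 1 * X 4, X 2 * X 3, X 2 * X 4,
    X 2 ^ 2 - C a * X 0 ^ 2}

theorem JJ_le_ker {T : Type} [CommRing T] (ψ : MvPolynomial (Fin 5) K →+* T)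
    (h1 : ψ (X 0) * ψ (X 3) = 0) (h2 : ψ (X 0) * ψ (X 4) = 0) (h3 : ψ (X 1) * ψ (X 3) = 0)
    (h4 : ψ (X 1) * ψ (X 4) = 0) (h5 : ψ (X 2) * ψ (X 3) = 0) (h6 : ψ (X 2) * ψ (X 4) = 0)
    (h7 : ψ (X 2) ^ 2 = ψ (C a) * ψ (X 0) ^ 2) : ∀ s ∈ JJ a, ψ s = 0 := by
  have : JJ a ≤ RingHom.ker ψ := by
    rw [JJ, Ideal.span_le]
    intro s hs
    simp only [Set.mem_insert_iff, Set.mem_singleton_iff] at hs
    rw [SetLike.mem_coe, RingHom.mem_ker]
    rcases hs with rfl | rfl | rfl | rfl | rfl | rfl | rfl <;>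
      simp only [map_mul, map_sub, map_pow, *, sub_self]
  exact fun s hs => this hs

theorem JJ_le : JJ a ≤ Ideal.span (X '' (({0, 1, 2} : Finset (Fin 5)) : Set (Fin 5))) := by
  intro s hs
  rw [← Ideal.Quotient.eq_zero_iff_mem]
  have h : ∀ i ∈ ({0, 1, 2} : Finset (Fin 5)), Ideal.Quotient.mk (Ideal.span
      (X '' (({0, 1, 2} : Finset (Fin 5)) : Set (Fin 5)) : Set (MvPolynomial (Fin 5) K))) (X i)
      = 0 := fun i hi => Ideal.Quotient.eq_zero_iff_mem.2 (Ideal.subset_span ⟨i, hi, rfl⟩)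
  have h0 := h 0 (by simp)
  have h1 := h 1 (by simp)
  have h2 := h 2 (by simp)
  refine JJ_le_ker a _ ?_ ?_ ?_ ?_ ?_ ?_ ?_ s hs <;> simp [h0, h1, h2]

instance : Fact (JJ a ≤ mm (Fin 5) K) :=
  ⟨(JJ_le a).trans (Ideal.span_mono (by rintro _ ⟨i, -, rfl⟩; exact ⟨i, rfl⟩))⟩

/-- coordinates -/
noncomputable abbrev xx (i : Fin 5) : RR (JJ a) := ι (JJ a) (X i)

theorem rels : xx a 0 * xx a 3 = 0 ∧ xx a 0 * xx a 4 = 0 ∧ xx a 1 * xx a 3 = 0 ∧
    xx a 1 * xx a 4 = 0 ∧ xx a 2 * xx a 3 = 0 ∧ xx a 2 * xx a 4 = 0 ∧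
    xx a 2 ^ 2 = ι (JJ a) (C a) * xx a 0 ^ 2 := by
  refine ⟨?_, ?_, ?_, ?_, ?_, ?_, ?_⟩
  all_goals first
    | (rw [← map_mul]; exact ι_of_mem _ (Ideal.subset_span (by simp)))
    | (rw [← sub_eq_zero, ← map_pow, ← map_pow, ← map_mul, ← map_sub]
       exact ι_of_mem _ (Ideal.subset_span (by simp)))

/-- the parameters -/
noncomputable def par : Fin 2 → RR (JJ a) := ![xx a 0 + xx a 3, xx a 1 + xx a 4]

theorem span_par : Ideal.span (Set.range (par a)) =
    Ideal.span {xx a 0 + xx a 3, xx a 1 + xx a 4} := by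
  simp [par, Set.pair_comm]

theorem sq_le : ∀ r ∈ IsLocalRing.maximalIdeal (RR (JJ a)),
    ∀ s ∈ IsLocalRing.maximalIdeal (RR (JJ a)), r * s ∈ Ideal.span (Set.range (par a)) := by
  have : IsLocalRing.maximalIdeal (RR (JJ a)) * IsLocalRing.maximalIdeal (RR (JJ a)) ≤
      Ideal.span (Set.range (par a)) := by
    rw [max_eq, Ideal.span_mul_span', Ideal.span_le, span_par]
    rintro _ ⟨_, ⟨i, rfl⟩, _, ⟨j, rfl⟩, rfl⟩
    obtain ⟨h1, h2, h3, h4, h5, h6, h7⟩ := rels a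
    rw [SetLike.mem_coe, Ideal.mem_span_pair]
    change ∃ u v, _ = xx a i * xx a j
    have key : ∀ i j : Fin 5, i ≤ j → ∃ u v, u * (xx a 0 + xx a 3) + v * (xx a 1 + xx a 4) =
        xx a i * xx a j := by
      intro i j hij
      fin_cases i <;> fin_cases j <;> simp only [Fin.zero_eta, Fin.mk_one, Fin.reduceFinMk] <;>
        first
        | exact absurd hij (by decide)
        | (refine ⟨0, 0, ?_⟩; simp [*]; done)
        | (refine ⟨xx a 0, 0, ?_⟩; linear_combination h1)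
        | (refine ⟨0, xx a 0, ?_⟩; linear_combination h2)
        | (refine ⟨xx a 2, 0, ?_⟩; linear_combination h5)
        | (refine ⟨0, xx a 1, ?_⟩; linear_combination h4)
        | (refine ⟨0, xx a 2, ?_⟩; linear_combination h6)
        | (refine ⟨ι (JJ a) (C a) * xx a 0, 0, ?_⟩; linear_combination ι (JJ a) (C a) * h1 - h7)
        | (refine ⟨xx a 3, 0, ?_⟩; linear_combination h1)
        | (refine ⟨0, xx a 3, ?_⟩; linear_combination h3)
        | (refine ⟨0, xx a 4, ?_⟩; linear_combination h4)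
    rcases le_total i j with h | h
    · exact key i j h
    · rw [mul_comm (xx a i)]; exact key j i h
  exact fun r hr s hs => this (Ideal.mul_mem_mul hr hs)

theorem xx_mem (i : Fin 5) : xx a i ∈ IsLocalRing.maximalIdeal (RR (JJ a)) := by
  rw [max_eq]; exact Ideal.subset_span ⟨i, rfl⟩

theorem radical_par : (Ideal.span (Set.range (par a))).radical =
    IsLocalRing.maximalIdeal (RR (JJ a)) := by
  apply le_antisymm
  · rw [Ideal.IsPrime.radical_le_iff inferInstance, span_par, Ideal.span_le]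
    rintro _ (rfl | rfl) <;> exact Ideal.add_mem _ (xx_mem a _) (xx_mem a _)
  · intro r hr
    exact ⟨2, by rw [pow_two]; exact sq_le a r hr r hr⟩

theorem dim_eq : ringKrullDim (RR (JJ a)) = ((2 : ℕ) : WithBot ℕ∞) := by
  apply le_antisymm (dim_le_of_radical 2 (par a) (radical_par a))
  have := card_le_dim (JJ a) {0, 1, 2} {3, 4} (by decide) (JJ_le a)
  simpa using this

theorem normal_form (r : RR (JJ a)) : ∃ c0 c1 c2 c3 : K,
    r - (ι (JJ a) (C c0) + ι (JJ a) (C c1) * xx a 0 + ι (JJ a) (C c2) * xx a 1 +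
      ι (JJ a) (C c3) * xx a 2) ∈ Ideal.span (Set.range (par a)) := by
  obtain ⟨c0, h0⟩ := exists_const (JJ a) r
  rw [max_eq, Ideal.mem_span_range_iff_exists_fun] at h0
  obtain ⟨f, hf⟩ := h0
  choose c hc using fun i => exists_const (JJ a) (f i)
  refine ⟨c0, c 0 - c 3, c 1 - c 4, c 2, ?_⟩
  have h1 := fun i => sq_le a _ (hc i) _ (xx_mem a i)
  have hu : xx a 0 + xx a 3 ∈ Ideal.span (Set.range (par a)) := Ideal.subset_span ⟨0, rfl⟩
  have hv : xx a 1 + xx a 4 ∈ Ideal.span (Set.range (par a)) := Ideal.subset_span ⟨1, rfl⟩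
  have := add_mem (add_mem (add_mem (add_mem (add_mem (add_mem (h1 0) (h1 1)) (h1 2)) (h1 3))
    (h1 4)) (Ideal.mul_mem_left _ (ι (JJ a) (C (c 3))) hu))
    (Ideal.mul_mem_left _ (ι (JJ a) (C (c 4))) hv)
  rw [Fin.sum_univ_five] at hf
  convert this using 1
  simp only [map_sub, xx] at *
  linear_combination -hf

variable [CharP K 2]

instance : CharP (RR (JJ a)) 2 :=
  charP_of_injective_ringHom (f := (ι (JJ a)).comp C) (RingHom.injective _) 2

instance : ExpChar (RR (JJ a)) 2 := ExpChar.prime Nat.prime_two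

theorem map_frob (e : ℕ) (u v : RR (JJ a)) :
    Ideal.map (iterateFrobenius (RR (JJ a)) 2 e) (Ideal.span {u, v}) =
      Ideal.span {u ^ 2 ^ e, v ^ 2 ^ e} := by
  rw [Ideal.map_span, Set.image_pair]
  rfl

/-- test maps to power series -/
noncomputable def tst (γ : Fin 5 → K) : MvPolynomial (Fin 5) K →+* PowerSeries K :=
  eval₂Hom (PowerSeries.C.comp (frobenius K 2)) fun i => PowerSeries.C (γ i) * PowerSeries.X

theorem test (α β : RR (JJ a)) : ∃ α0 β0 : K, ∀ (γ : Fin 5 → K), γ 0 * γ 3 = 0 → γ 0 * γ 4 = 0 →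
    γ 1 * γ 3 = 0 → γ 1 * γ 4 = 0 → γ 2 * γ 3 = 0 → γ 2 * γ 4 = 0 → γ 2 ^ 2 = a ^ 2 * γ 0 ^ 2 →
    ∀ (c1 c2 c3 : K) (q : ℕ),
    α * (xx a 0 + xx a 3) ^ q + β * (xx a 1 + xx a 4) ^ q =
      (ι (JJ a) (C c1) * xx a 0 + ι (JJ a) (C c2) * xx a 1 + ι (JJ a) (C c3) * xx a 2) ^ q →
    α0 * (γ 0 + γ 3) ^ q + β0 * (γ 1 + γ 4) ^ q =
      (c1 ^ 2 * γ 0 + c2 ^ 2 * γ 1 + c3 ^ 2 * γ 2) ^ q := by
  obtain ⟨α0, hα⟩ := exists_const (JJ a) α
  obtain ⟨β0, hβ⟩ := exists_const (JJ a) β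
  refine ⟨α0 ^ 2, β0 ^ 2, fun γ h1 h2 h3 h4 h5 h6 h7 c1 c2 c3 q h => ?_⟩
  have hX : ∀ i, tst γ (X i) = PowerSeries.C (γ i) * PowerSeries.X := fun i => by simp [tst]
  have hC : ∀ c, tst γ (C c) = PowerSeries.C (c ^ 2) := fun c => by simp [tst, frobenius_def]
  have hz : ∀ i j, γ i * γ j = 0 → tst γ (X i) * tst γ (X j) = 0 := by
    intro i j hij
    rw [hX, hX, mul_mul_mul_comm, ← map_mul, hij, map_zero, zero_mul]
  obtain ⟨ψ, hψ⟩ := exists_lift (JJ a) (tst γ)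
    (JJ_le_ker a _ (hz _ _ h1) (hz _ _ h2) (hz _ _ h3) (hz _ _ h4) (hz _ _ h5) (hz _ _ h6) (by
      rw [hX, hX, hC, mul_pow, mul_pow, ← map_pow, h7, map_mul, mul_assoc, map_pow _ (γ 0)]))
    (isUnit_of_jac _ fun i => by
      rw [IsLocalRing.jacobson_eq_maximalIdeal _ bot_ne_top, hX]
      refine Ideal.mul_mem_left _ _ ?_
      rw [IsLocalRing.mem_maximalIdeal, mem_nonunits_iff, PowerSeries.isUnit_iff_constantCoeff]
      simp)
  have hm : ∀ r ∈ IsLocalRing.maximalIdeal (RR (JJ a)), PowerSeries.constantCoeff (ψ r) = 0 := by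
    have : IsLocalRing.maximalIdeal (RR (JJ a)) ≤
        RingHom.ker (PowerSeries.constantCoeff.comp ψ) := by
      rw [max_eq, Ideal.span_le]
      rintro _ ⟨i, rfl⟩
      simp [hψ, hX]
    exact fun r hr => this hr
  have hα' := hm _ hα
  have hβ' := hm _ hβ
  rw [map_sub, map_sub, hψ, hC, PowerSeries.constantCoeff_C, sub_eq_zero] at hα' hβ'
  have h8 := congrArg ψ h
  simp only [map_add, map_mul, map_pow, hψ, hX, hC] at h8
  have h9 : (ψ α * PowerSeries.C (γ 0 + γ 3) ^ q + ψ β * PowerSeries.C (γ 1 + γ 4) ^ q) *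
      PowerSeries.X ^ q = PowerSeries.C (c1 ^ 2 * γ 0 + c2 ^ 2 * γ 1 + c3 ^ 2 * γ 2) ^ q *
      PowerSeries.X ^ q := by
    rw [add_mul, mul_assoc, mul_assoc, ← mul_pow, ← mul_pow, ← mul_pow]
    simp only [map_add, map_mul, map_pow]
    convert h8 using 2 <;> ring
  have h10 := congrArg PowerSeries.constantCoeff
    (mul_right_cancel₀ (pow_ne_zero q PowerSeries.X_ne_zero) h9)
  simpa only [map_add, map_mul, map_pow, PowerSeries.constantCoeff_C, hα', hβ'] using h10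

theorem closed (ha : ∀ c1 c3 : K, c1 ^ 2 + c3 ^ 2 * a = 0 → c3 = 0) (r : RR (JJ a)) (e : ℕ)
    (h : r ^ (2 ^ e) ∈ Ideal.map (iterateFrobenius (RR (JJ a)) 2 e)
      (Ideal.span (Set.range (par a)))) : r ∈ Ideal.span (Set.range (par a)) := by
  obtain ⟨c0, c1, c2, c3, h0⟩ := normal_form a r
  have hq : 2 ^ e ≠ 0 := by positivity
  have h1 := Ideal.mem_map_of_mem (iterateFrobenius (RR (JJ a)) 2 e) h0
  rw [map_sub, iterateFrobenius_def, iterateFrobenius_def] at h1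
  have h2 := Ideal.sub_mem _ h h1
  rw [sub_sub_cancel] at h2
  have hc0 : c0 = 0 := by
    have h3 : Ideal.map (iterateFrobenius (RR (JJ a)) 2 e) (Ideal.span (Set.range (par a))) ≤
        IsLocalRing.maximalIdeal _ := by
      rw [Ideal.map_le_iff_le_comap]
      intro s hs
      rw [Ideal.mem_comap, iterateFrobenius_def]
      exact Ideal.pow_mem_of_mem _ (radical_par a ▸ Ideal.le_radical hs) _ (Nat.pos_of_ne_zero hq)
    have h4 := (inferInstance : (IsLocalRing.maximalIdeal (RR (JJ a))).IsPrime).mem_of_pow_mem _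
      (h3 h2)
    have h5 : ι (JJ a) (C c0) ∈ IsLocalRing.maximalIdeal (RR (JJ a)) := by
      have := Ideal.sub_mem _ (Ideal.sub_mem _ (Ideal.sub_mem _ h4
        (Ideal.mul_mem_left _ (ι (JJ a) (C c3)) (xx_mem a 2)))
        (Ideal.mul_mem_left _ (ι (JJ a) (C c2)) (xx_mem a 1)))
        (Ideal.mul_mem_left _ (ι (JJ a) (C c1)) (xx_mem a 0))
      simpa using this
    rw [ι_mem_max] at h5
    simpa using h5
  subst hc0
  rw [span_par, map_frob, Ideal.mem_span_pair] at h2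
  obtain ⟨α, β, h2⟩ := h2
  rw [C_0, map_zero, zero_add] at h2
  obtain ⟨α0, β0, H⟩ := test a α β
  have t1 := H ![0, 0, 0, 1, 0] (by simp) (by simp) (by simp) (by simp) (by simp) (by simp)
    (by simp) _ _ _ _ h2
  have t2 := H ![0, 0, 0, 0, 1] (by simp) (by simp) (by simp) (by simp) (by simp) (by simp)
    (by simp) _ _ _ _ h2
  have t3 := H ![0, 1, 0, 0, 0] (by simp) (by simp) (by simp) (by simp) (by simp) (by simp)
    (by simp) _ _ _ _ h2
  have t4 := H ![1, 0, a, 0, 0] (by simp) (by simp) (by simp) (by simp) (by simp) (by simp)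
    (by simp) _ _ _ _ h2
  simp [zero_pow hq] at t1 t2 t3 t4
  rw [t2, eq_comm] at t3
  rw [t1, eq_comm] at t4
  have hc2 : c2 = 0 := pow_eq_zero_iff two_ne_zero |>.1 (pow_eq_zero_iff hq |>.1 t3)
  have h5 := pow_eq_zero_iff hq |>.1 t4
  have hc3 := ha _ _ h5
  have hc1 : c1 = 0 := by simpa [hc3] using h5
  simpa [hc1, hc2, hc3] using h0

theorem w_sq : (xx a 0 * xx a 1 * xx a 2) ^ (2 ^ 1) ∈ Ideal.map (iterateFrobenius (RR (JJ a)) 2 1)
    (Ideal.map (iterateFrobenius (RR (JJ a)) 2 1) (Ideal.span (Set.range (par a)))) := by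
  rw [span_par, map_frob, map_frob, Ideal.mem_span_pair]
  obtain ⟨h1, h2, h3, h4, h5, h6, h7⟩ := rels a
  refine ⟨ι (JJ a) (C a) * xx a 1 ^ 2, 0, ?_⟩
  rw [add_pow_char_pow, add_pow_char_pow]
  linear_combination (ι (JJ a) (C a) * xx a 1 * xx a 3 ^ 3) * h3 - xx a 0 ^ 2 * xx a 1 ^ 2 * h7

omit [CharP K 2] in
theorem eps_jac {T : Type} [CommRing T] (t : T) (h : t * t = 0) :
    t ∈ Ideal.jacobson (⊥ : Ideal T) :=
  Ideal.radical_le_jacobson ⟨2, by rw [pow_two, h]; exact Ideal.zero_mem _⟩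

theorem w_not : xx a 0 * xx a 1 * xx a 2 ∉
    Ideal.map (iterateFrobenius (RR (JJ a)) 2 1) (Ideal.span (Set.range (par a))) := by
  rw [span_par, map_frob, Ideal.mem_span_pair]
  rintro ⟨α, β, h⟩
  let V : Set (Fin 5 →₀ ℕ) := {e | 2 ≤ e 0 ∨ 2 ≤ e 1 ∨ 2 ≤ e 2 ∨ 1 ≤ e 3 ∨ 1 ≤ e 4}
  have hV : IsUpperSet V := by
    intro e f hef he
    have := hef 0; have := hef 1; have := hef 2; have := hef 3; have := hef 4
    simp only [V, Set.mem_ofPred_eq] at he ⊢
    omega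
  let φ := Ideal.Quotient.mk (MI K V)
  have hpow : ∀ (i : Fin 5) (n : ℕ), Finsupp.single i n ∈ V → φ (X i) ^ n = 0 := by
    intro i n hn
    rw [← map_pow, Ideal.Quotient.eq_zero_iff_mem, X_pow_eq_monomial, monomial_mem_MI hV]
    exact hn
  have h0 : φ (X 0) ^ 2 = 0 := hpow _ _ (by simp [V])
  have h1 : φ (X 1) ^ 2 = 0 := hpow _ _ (by simp [V])
  have h2 : φ (X 2) ^ 2 = 0 := hpow _ _ (by simp [V])
  have h3 : φ (X 3) = 0 := by simpa using hpow 3 1 (by simp [V])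
  have h4 : φ (X 4) = 0 := by simpa using hpow 4 1 (by simp [V])
  obtain ⟨ψ, hψ⟩ := exists_lift (JJ a) φ
    (JJ_le_ker a _ (by simp [h3]) (by simp [h4]) (by simp [h3]) (by simp [h4]) (by simp [h3])
      (by simp [h4]) (by simp [h0, h2]))
    (isUnit_of_jac _ fun i => by
      apply eps_jac
      rw [← pow_two]
      fin_cases i <;> simp [h0, h1, h2, h3, h4])
  have h5 := congrArg ψ h
  simp only [map_add, map_mul, map_pow, hψ, h3, h4, add_zero, pow_one, h0, h1, mul_zero] at h5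
  rw [← map_mul, ← map_mul, eq_comm, Ideal.Quotient.eq_zero_iff_mem, X, X, X, monomial_mul,
    monomial_mul, mul_one, mul_one, monomial_mem_MI hV] at h5
  simp [V] at h5

theorem not_sq (c1 c3 : RatFunc (ZMod 2)) (h : c1 ^ 2 + c3 ^ 2 * RatFunc.X = 0) : c3 = 0 := by
  by_contra h3
  have h1 : c1 ≠ 0 := by
    rintro rfl
    simp [h3, RatFunc.X_ne_zero] at h
  have h2 : c1 * c1 = -(c3 * c3 * RatFunc.X) := by linear_combination h
  have h4 := congrArg RatFunc.intDegree h2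
  rw [RatFunc.intDegree_neg, RatFunc.intDegree_mul h1 h1,
    RatFunc.intDegree_mul (mul_ne_zero h3 h3) RatFunc.X_ne_zero, RatFunc.intDegree_mul h3 h3,
    RatFunc.intDegree_X] at h4
  omega

end Pool.Agent.H79.FrobPar
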