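import Pool.Agent.H79.GNDefs

set_option autoImplicit false

namespace Pool.Agent.H79.GN1

open MvPolynomial GNDefs

variable {F : Type} [Field F]

open scoped Classical

abbrev K (F : Type) [Field F] := AlgebraicClosure F

noncomputable def pt (s u v : K F) : Fin 3 → K F := ![s * u, s * v, s]

theorem act_eq (y : Fin 3 → K F) : act (T0 F) y =
    fun i => y 0 * y 1 * y 2 * (y 0 - y 2) * ![y 0 * y 1, y 1 * y 2, y 2 ^ 2] i := by
  funext i
  fin_cases i <;> simp [act, T0]

theorem act_zero : act (T0 F) 0 = 0 := by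
  rw [act_eq]; funext i; simp

theorem act_pt (s u v : K F) :
    act (T0 F) (pt s u v) = pt (s ^ 6 * (u * v * (u - 1))) (u * v) v := by
  rw [act_eq]
  funext i
  fin_cases i <;> simp [pt] <;> ring

theorem pt_zero (u v : K F) : pt 0 u v = 0 := by
  funext i
  fin_cases i <;> simp [pt]

theorem act_of {y : Fin 3 → K F} (h : y 2 = 0) : act (T0 F) y = 0 := by
  rw [act_eq]; funext i; simp [h]

theorem eq_pt {y : Fin 3 → K F} (h : y 2 ≠ 0) : y = pt (y 2) (y 0 / y 2) (y 1 / y 2) := by
  funext i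
  fin_cases i <;> simp [pt] <;> field_simp

noncomputable def cf (u v : K F) : ℕ → K F
  | 0 => 1
  | k + 1 => cf u v k ^ 6 * (u * v ^ k * v * (u * v ^ k - 1))

theorem iter_pt (s u v : K F) (k : ℕ) :
    (act (T0 F))^[k] (pt s u v) = pt (s ^ 6 ^ k * cf u v k) (u * v ^ k) v := by
  induction k with
  | zero => simp [cf]
  | succ k ih =>
    rw [Function.iterate_succ_apply', ih, act_pt, cf]
    congr 1 <;> ring

theorem cf_ne {u v : K F} (hu : u ≠ 0) (hv : v ≠ 0) {k : ℕ} (h : ∀ j < k, u * v ^ j ≠ 1) :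
    cf u v k ≠ 0 := by
  induction k with
  | zero => simp [cf]
  | succ k ih =>
    exact mul_ne_zero (pow_ne_zero _ (ih fun j hj => h j (by omega))) (mul_ne_zero
      (mul_ne_zero (mul_ne_zero hu (pow_ne_zero _ hv)) hv) (sub_ne_zero.mpr (h k (by omega))))

theorem iter_zero (k : ℕ) : (act (T0 F))^[k] 0 = 0 := Function.iterate_fixed act_zero k

noncomputable def par (F : Type) [Field F] (N : ℕ) : MvPolynomial (Fin 3) F →ₐ[F]
    MvPolynomial (Fin 2) F := aeval ![X 0 * X 1, X 0 * X 1 ^ N, X 0]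

theorem mem_pts (N : ℕ) (s t : K F) : pt s t (t ^ N) ∈ pts (RingHom.ker (par F N)) := by
  intro f hf
  have h1 : (aeval ![s, t] : MvPolynomial (Fin 2) F →ₐ[F] K F).comp (par F N) =
      aeval (pt s t (t ^ N)) := by
    ext i
    fin_cases i <;> simp [par, pt]
  rw [← h1, AlgHom.comp_apply, (RingHom.mem_ker).mp hf, map_zero]

theorem tors [Finite F] {t : K F} (ht : t ≠ 0) (p e : ℕ) [Fact p.Prime] [CharP F p] :
    ∃ j, t * (t ^ p ^ e) ^ j = 1 := by
  have : CharP (K F) p := charP_of_injective_algebraMap (algebraMap F (K F)).injective p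
  have hfin : IsOfFinOrder t := by
    have h1 : FiniteDimensional F (IntermediateField.adjoin F {t}) :=
      IntermediateField.adjoin.finiteDimensional (Algebra.IsIntegral.isIntegral t)
    have h2 : Finite (IntermediateField.adjoin F {t}) := Module.finite_of_finite F
    let t' : IntermediateField.adjoin F {t} := ⟨t, IntermediateField.mem_adjoin_simple_self F t⟩
    have h3 : t' ≠ 0 := fun h => ht (congrArg Subtype.val h)
    obtain ⟨n, hn, h4⟩ := isOfFinOrder_iff_pow_eq_one.mp (isOfFinOrder_of_finite (Units.mk0 t' h3))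
    exact isOfFinOrder_iff_pow_eq_one.mpr ⟨n, hn, congrArg (fun a => (a.1.1 : K F)) h4⟩
  have hpos := hfin.orderOf_pos
  have hcop : Nat.Coprime (p ^ e) (orderOf t) := by
    apply Nat.Coprime.pow_left
    rw [Nat.Prime.coprime_iff_not_dvd Fact.out]
    rintro ⟨m, hm⟩
    have h1 : (t ^ m - 1) ^ p = 0 := by
      rw [sub_pow_char, one_pow, ← pow_mul, mul_comm, ← hm, pow_orderOf_eq_one, sub_self]
    have h2 := orderOf_dvd_of_pow_eq_one (sub_eq_zero.mp (pow_eq_zero_iff
      (Fact.out : p.Prime).ne_zero |>.mp h1))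
    have h3 : 0 < m := Nat.pos_of_ne_zero fun h => by rw [h] at hm; omega
    have h4 := Nat.le_of_dvd h3 h2
    have h5 := (Fact.out : p.Prime).two_le
    nlinarith
  obtain ⟨a, ha⟩ : ∃ a, p ^ e * a ≡ 1 [MOD orderOf t] := by
    obtain ⟨a, -, ha⟩ := Nat.exists_mul_mod_eq_of_coprime 1 hcop hpos.ne'
    exact ⟨a, ha⟩
  refine ⟨a * (orderOf t - 1), ?_⟩
  rw [pow_mul, ← pow_mul t, pow_eq_pow_of_modEq ha (pow_orderOf_eq_one t), pow_one, ← pow_succ',
    Nat.sub_add_cancel hpos, pow_orderOf_eq_one]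

theorem gn_Z [Finite F] (p e : ℕ) [Fact p.Prime] [CharP F p] :
    GeomNil (T0 F) (RingHom.ker (par F (p ^ e))) := by
  intro 𝔭 h𝔭
  have : (RingHom.ker (par F (p ^ e))).IsPrime := RingHom.ker_isPrime _
  rw [Ideal.minimalPrimes_eq_subsingleton_self] at h𝔭
  obtain rfl := h𝔭
  refine ⟨0, act_zero, fun y hy => ?_⟩
  by_cases h2 : y 2 = 0
  · exact ⟨1, le_rfl, act_of h2⟩
  have h1 : y 1 / y 2 = (y 0 / y 2) ^ p ^ e := by
    have := hy (X 0 ^ p ^ e * X 2 - X 1 * X 2 ^ p ^ e) (by
      rw [RingHom.mem_ker]; simp [par]; ring)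
    simp only [map_sub, map_mul, map_pow, aeval_X] at this
    rw [div_pow, div_eq_div_iff h2 (pow_ne_zero _ h2)]
    linear_combination -this
  rw [eq_pt h2, h1]
  by_cases h0 : y 0 / y 2 = 0
  · exact ⟨1, le_rfl, by rw [Function.iterate_one, act_pt, h0]; simp [pt_zero]⟩
  obtain ⟨j, hj⟩ := tors h0 p e
  exact ⟨j + 1, by omega, by rw [iter_pt, cf, hj]; simp [pt_zero]⟩

theorem ne_bot {I : Ideal (MvPolynomial (Fin 3) F)} (h : GeomNil (T0 F) I) : I ≠ ⊥ := by
  rintro rfl
  obtain ⟨P, h1, h2⟩ := h ⊥ (by rw [Ideal.minimalPrimes_eq_subsingleton_self]; rfl)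
  have h3 : ∀ y : Fin 3 → K F, y ∈ pts (⊥ : Ideal (MvPolynomial (Fin 3) F)) := fun y f hf => by
    rw [Ideal.mem_bot.mp hf, map_zero]
  obtain ⟨k, -, hk⟩ := h2 0 (h3 _)
  rw [iter_zero] at hk
  obtain ⟨c, hc⟩ := Infinite.exists_notMem_finset ({0, 1} : Finset (K F))
  simp only [Finset.mem_insert, Finset.mem_singleton, not_or] at hc
  obtain ⟨j, -, hj⟩ := h2 (pt 1 c 1) (h3 _)
  rw [iter_pt, ← hk] at hj
  have := congrFun hj 2
  simp only [pt, one_pow, one_mul] at this
  exact cf_ne hc.1 one_ne_zero (fun j _ => by simpa using hc.2) this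

open Polynomial in
theorem nonvanish {g : MvPolynomial (Fin 3) F} (hg : g ≠ 0) {N : ℕ} (hN : g.totalDegree < N)
    (k m : ℕ) {S : Set (K F)} (hS : S.Infinite)
    (h : ∀ t ∈ S, {s : K F | aeval ![s * t ^ (1 + k * N), s * t ^ ((1 + m) * N), s * t ^ (m * N)]
      g = 0}.Infinite) : False := by
  let ex : (Fin 3 →₀ ℕ) → ℕ := fun d => d 0 * (1 + k * N) + d 1 * ((1 + m) * N) + d 2 * (m * N)
  let G : (K F)[X][X] := ∑ d ∈ g.support, Polynomial.monomial (d 0 + d 1 + d 2)
    (Polynomial.monomial (ex d) (algebraMap F (K F) (g.coeff d)))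
  have h1 : ∀ s t : K F, (G.map (evalRingHom t)).eval s =
      aeval ![s * t ^ (1 + k * N), s * t ^ ((1 + m) * N), s * t ^ (m * N)] g := by
    intro s t
    rw [MvPolynomial.aeval_def, MvPolynomial.eval₂_eq']
    simp only [G, Polynomial.map_sum, Polynomial.map_monomial, eval_finsetSum,
      Polynomial.eval_monomial, coe_evalRingHom, Fin.prod_univ_three, Matrix.cons_val_zero,
      Matrix.cons_val_one, Matrix.cons_val, ex]
    refine Finset.sum_congr rfl fun d _ => ?_
    ring
  have h2 : G = 0 := by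
    ext1 j
    apply Polynomial.eq_zero_of_infinite_isRoot
    refine hS.mono fun t ht => ?_
    have h3 : G.map (evalRingHom t) = 0 := Polynomial.eq_zero_of_infinite_isRoot _
      (by simpa only [IsRoot, h1] using h t ht)
    have := congrArg (fun r => Polynomial.coeff r j) h3
    simpa using this
  obtain ⟨d, hd⟩ := MvPolynomial.ne_zero_iff.mp hg
  have hlt : ∀ d ∈ g.support, d 0 < N := fun d hd =>
    lt_of_le_of_lt ((monomial_le_degreeOf 0 hd).trans (degreeOf_le_totalDegree g 0)) hN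
  have h3 := congrArg (fun r => (Polynomial.coeff r (d 0 + d 1 + d 2)).coeff (ex d)) h2
  simp only [G, finsetSum_coeff, Polynomial.coeff_zero] at h3
  rw [Finset.sum_eq_single d] at h3
  · simp only [Polynomial.coeff_monomial, if_true] at h3
    exact hd ((_root_.map_eq_zero _).mp h3)
  · intro d' hd' hne
    rw [Polynomial.coeff_monomial]
    split_ifs with e1
    · rw [Polynomial.coeff_monomial, if_neg]
      intro e2
      apply hne
      have a1 := hlt d (mem_support_iff.mpr hd)
      have a2 := hlt d' hd'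
      have e3 : d' 0 + N * (d' 0 * k + d' 1 * (1 + m) + d' 2 * m) =
          d 0 + N * (d 0 * k + d 1 * (1 + m) + d 2 * m) := by
        simp only [ex] at e2
        linear_combination e2
      have e4 : d' 0 = d 0 := by
        have := congrArg (· % N) e3
        simpa [Nat.add_mul_mod_self_left, Nat.mod_eq_of_lt a1, Nat.mod_eq_of_lt a2] using this
      rw [e4] at e3 e1
      have e5 := Nat.eq_of_mul_eq_mul_left (by omega : 0 < N) (Nat.add_left_cancel e3)
      have e6 : d' 1 = d 1 := by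
        have e7 : d' 1 + d' 2 = d 1 + d 2 := by omega
        have e8 : d' 1 + (d' 1 + d' 2) * m = d 1 + (d 1 + d 2) * m := by linear_combination e5
        rw [e7] at e8
        omega
      ext i
      fin_cases i
      · exact e4
      · exact e6
      · show d' 2 = d 2
        omega
    · simp
  · intro h; exact absurd (mem_support_iff.mpr hd) h

theorem main [Finite F] {I : Ideal (MvPolynomial (Fin 3) F)} (h : GeomNil (T0 F) I) :
    ∃ J : Ideal (MvPolynomial (Fin 3) F), J.IsPrime ∧ GeomNil (T0 F) J ∧ ∀ k m : ℕ,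
      ¬pts J ⊆ (act (T0 F))^[k] ⁻¹' ((act (T0 F))^[m] '' pts I) := by
  obtain ⟨p, hc⟩ := CharP.exists F
  have hp : Fact p.Prime := ⟨CharP.char_is_prime F p⟩
  obtain ⟨g, hgI, hg⟩ := Submodule.exists_mem_ne_zero_of_ne_bot (ne_bot h)
  refine ⟨_, RingHom.ker_isPrime _, gn_Z p g.totalDegree, fun k m hsub => ?_⟩
  set N := p ^ g.totalDegree
  have hN : g.totalDegree < N := Nat.lt_pow_self hp.out.one_lt
  have hfin : ({0} ∪ ⋃ j ∈ Finset.range k, {t : K F | t ^ (1 + j * N) = 1}).Finite := by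
    refine (Set.finite_singleton 0).union (Set.Finite.biUnion (Finset.finite_toSet _) fun j _ => ?_)
    refine (Polynomial.nthRootsFinset (1 + j * N) (1 : K F)).finite_toSet.subset fun t ht => ?_
    exact (Polynomial.mem_nthRootsFinset (by omega) _).mpr ht
  refine nonvanish hg hN k m hfin.infinite_compl fun t ht => ?_
  simp only [Set.mem_compl_iff, Set.mem_union, Set.mem_singleton_iff, Set.mem_iUnion, not_or,
    not_exists, Finset.mem_range, Set.mem_ofPred_eq] at ht
  have hc := cf_ne (k := k) ht.1 (pow_ne_zero N ht.1) fun j hj e => ht.2 j hj (by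
    rw [← e]; ring)
  have key : ∀ r : K F, r ≠ 0 → ∃ s c : K F, aeval ![s * t ^ (1 + k * N), s * t ^ ((1 + m) * N),
      s * t ^ (m * N)] g = 0 ∧ (s * t ^ (m * N)) ^ 6 ^ m *
        cf (t ^ (1 + k * N) / t ^ (m * N)) (t ^ N) m = r := by
    intro r hr
    obtain ⟨s, hs⟩ := IsAlgClosed.exists_pow_nat_eq (r / cf t (t ^ N) k) (n := 6 ^ k) (by positivity)
    obtain ⟨y, hy, e⟩ := hsub (mem_pts N s t)
    rw [iter_pt, hs, div_mul_cancel₀ _ hc] at e
    have y2 : y 2 ≠ 0 := by
      intro h0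
      cases m with
      | zero => exact hr ((congrFun e 2).symm.trans h0)
      | succ m =>
        rw [Function.iterate_succ_apply, act_of h0, iter_zero] at e
        exact hr (congrFun e 2).symm
    rw [eq_pt y2, iter_pt] at e
    have e0 := congrFun e 0
    have e1 := congrFun e 1
    have e2 := congrFun e 2
    simp only [pt, Matrix.cons_val_zero, Matrix.cons_val_one, Matrix.cons_val] at e0 e1 e2
    rw [e2] at e0 e1
    have f1 := mul_left_cancel₀ hr e1
    have f0 := mul_left_cancel₀ hr e0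
    have tn := pow_ne_zero (m * N) ht.1
    have f2 : y 0 / y 2 = t ^ (1 + k * N) / t ^ (m * N) := by
      rw [eq_div_iff tn]
      rw [f1] at f0
      linear_combination f0
    refine ⟨y 2 / t ^ (m * N), 0, ?_, ?_⟩
    · rw [← hy g hgI]
      congr 2
      funext i
      rw [div_eq_iff y2] at f1 f2
      fin_cases i
      · show _ = y 0
        rw [f2]; simp; ring
      · show _ = y 1
        rw [f1]; simp; field_simp; ring
      · show _ = y 2
        simp; field_simp
    · rw [div_mul_cancel₀ _ tn, ← f2, ← f1, e2]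
  intro hfin'
  refine (Set.finite_singleton (0 : K F)).infinite_compl ((hfin'.image fun s =>
    (s * t ^ (m * N)) ^ 6 ^ m * cf (t ^ (1 + k * N) / t ^ (m * N)) (t ^ N) m).subset fun r hr => ?_)
  obtain ⟨s, -, h1, h2⟩ := key r hr
  exact ⟨s, h1, h2⟩

end Pool.Agent.H79.GN1
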