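import Mathlib

set_option autoImplicit false

namespace Pool.Agent.H79.GNDefs

open MvPolynomial

variable {F : Type} [Field F] {n : ℕ}

/-- Geometric points of the closed subvariety of affine `n`-space cut out by `I`. -/
def pts (I : Ideal (MvPolynomial (Fin n) F)) : Set (Fin n → AlgebraicClosure F) :=
  {y | ∀ f ∈ I, aeval y f = 0}

/-- The map on geometric points given by the polynomial map `T`. -/
noncomputable def act (T : Fin n → MvPolynomial (Fin n) F) (y : Fin n → AlgebraicClosure F) :
    Fin n → AlgebraicClosure F := fun i => aeval y (T i)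

/-- Each irreducible component (minimal prime over `I`) has a fixed point `P` of `T` that every
geometric point of the component reaches after finitely many steps. -/
def GeomNil (T : Fin n → MvPolynomial (Fin n) F) (I : Ideal (MvPolynomial (Fin n) F)) : Prop :=
  ∀ 𝔭 ∈ I.minimalPrimes, ∃ P, act T P = P ∧ ∀ y ∈ pts 𝔭, ∃ k ≥ 1, (act T)^[k] y = P

/-- `T(x, y, z) = x y z (x - z) · (x y, y z, z²)`. -/
noncomputable def T0 (F : Type) [Field F] : Fin 3 → MvPolynomial (Fin 3) F :=
  fun i => X 0 * X 1 * X 2 * (X 0 - X 2) * ![X 0 * X 1, X 1 * X 2, X 2 ^ 2] i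

end Pool.Agent.H79.GNDefs
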