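import Pool.Agent.H79.GaDefs

/-! An automorphism of order `p` of the polynomial ring that is not exponential. -/

namespace Pool.Agent.H79.Ga

open Polynomial

section general

variable {k B : Type*} [Field k] [CommRing B] [Algebra k B] {ε : B →ₐ[k] B[X]}

theorem IsGaAction.map_eq (h : IsGaAction ε) (b : B) :
    (ε b).map (ε : B →+* B[X]) = ((ε b).map C).comp (C X + X) := by
  have e1 : (ε b).map (ε : B →+* B[X]) = (ε b).sum (fun i c => C (ε c) * (X : B[X][X]) ^ i) := by
    rw [Polynomial.map, eval₂_eq_sum]; rfl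
  have e2 : ((ε b).map C).comp (C X + X) =
      (ε b).sum (fun i c => C (C c) * (C X + X : B[X][X]) ^ i) := by
    rw [comp, eval₂_map, eval₂_eq_sum]; rfl
  rw [e1, e2, (h b).2]

theorem IsGaAction.ne_zero (h : IsGaAction ε) {b : B} (hb : b ≠ 0) : ε b ≠ 0 := fun e =>
  hb (by rw [← (h b).1, e, coeff_zero])

theorem IsGaAction.eq_C (h : IsGaAction ε) {b : B} (hb : (ε b).natDegree = 0) : ε b = C b := by
  rw [eq_C_of_natDegree_eq_zero hb, (h b).1]

/-- The leading coefficient is invariant. -/
theorem IsGaAction.lead (h : IsGaAction ε) [Nontrivial B] (b : B) :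
    ε (ε b).leadingCoeff = C (ε b).leadingCoeff := by
  have e := congrArg (fun q => q.coeff (ε b).natDegree) (h.map_eq b)
  simp only [coeff_map] at e
  have hd : ((ε b).map (C : B →+* B[X])).natDegree = (ε b).natDegree :=
    natDegree_map_eq_of_injective C_injective _
  have e2 := coeff_taylor_natDegree (X : B[X]) ((ε b).map (C : B →+* B[X]))
  rw [taylor_apply, hd, add_comm, leadingCoeff_map_of_injective C_injective] at e2
  rw [e2] at e
  exact e

theorem IsGaAction.factor (h : IsGaAction ε) [IsDomain B] {b c : B} (hb : b ≠ 0) (hc : c ≠ 0)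
    (e : ε (b * c) = C (b * c)) : ε b = C b ∧ ε c = C c := by
  have := congrArg natDegree e
  rw [map_mul, natDegree_mul (h.ne_zero hb) (h.ne_zero hc), natDegree_C] at this
  exact ⟨h.eq_C (by omega), h.eq_C (by omega)⟩

theorem IsGaAction.comm (h : IsGaAction ε) {a : B} (ha : ε a = C a) (b : B) :
    ε ((ε b).eval a) = (ε b).map ((evalRingHom a).comp (ε : B →+* B[X])) := by
  have e := h.map_eq b
  have e1 := congrArg (eval (C a)) e
  have e2 := congrArg (Polynomial.map (evalRingHom a)) e
  rw [eval_map, ← ha] at e1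
  erw [eval₂_hom] at e1
  rw [Polynomial.map_map] at e2
  rw [e2]
  erw [e1]
  rw [ha, eval_comp, map_comp, Polynomial.map_map]
  have : (evalRingHom a).comp C = RingHom.id B := by ext; simp
  rw [this, Polynomial.map_id, eval_map]
  simp [comp, add_comm]

/-- If `φ = ε_a` is the identity modulo `c = φ x - x`, then `c` is an invariant of `ε`. -/
theorem IsGaAction.inv_of_dvd (h : IsGaAction ε) [IsDomain B] {a x c : B} (ha : ε a = C a)
    (hx : (ε x).eval a = x + c) (hd : ∀ b, c ∣ (ε b).eval a - b) : ε c = C c := by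
  by_cases hc : c = 0
  · simp [hc]
  have e : ε c = (ε x).map ((evalRingHom a).comp (ε : B →+* B[X])) - ε x := by
    rw [← h.comm ha, hx, map_add]; ring
  have hl : c ∣ (ε c).leadingCoeff := by
    rw [leadingCoeff]
    generalize (ε c).natDegree = n
    rw [e, coeff_sub, coeff_map]
    exact hd _
  obtain ⟨d, hd'⟩ := hl
  have h0 : c * d ≠ 0 := hd' ▸ leadingCoeff_ne_zero.2 (h.ne_zero hc)
  exact (h.factor hc (right_ne_zero_of_mul h0) (hd' ▸ h.lead c)).1

end general

section example_

variable (k : Type*) [Field k] (p : ℕ) (m : ℕ)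

/-- The invariant `u = x₁ x₃ + x₂^p - x₂`. -/
noncomputable def uu : MvPolynomial (Fin (m + 3)) k :=
  .X 0 * .X 2 + .X 1 ^ p - .X 1

/-- The invariant `c = 1 + x₁ u`. -/
noncomputable def cc : MvPolynomial (Fin (m + 3)) k := 1 + .X 0 * uu k p m

/-- The invariant `(c^p - c) / x₁`. -/
noncomputable def ww : MvPolynomial (Fin (m + 3)) k :=
  .X 0 ^ (p - 1) * uu k p m ^ p - uu k p m

/-- The `j`-th power of the automorphism. -/
noncomputable def psi (j : ℕ) : MvPolynomial (Fin (m + 3)) k →ₐ[k] MvPolynomial (Fin (m + 3)) k :=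
  MvPolynomial.aeval fun i =>
    if i = 1 then .X 1 + j * cc k p m else if i = 2 then .X 2 - j * ww k p m else .X i

variable [hp : Fact p.Prime] [CharP k p]

theorem t_ww : .X 0 * ww k p m = cc k p m ^ p - cc k p m := by
  have : (MvPolynomial.X 0 : MvPolynomial (Fin (m + 3)) k) ^ p = .X 0 * .X 0 ^ (p - 1) := by
    rw [← pow_succ', Nat.sub_add_cancel hp.out.one_le]
  rw [cc, ww, add_pow_char, mul_pow, this]; ring

omit hp [CharP k p] in
theorem psi_0 (j : ℕ) : psi k p m j (.X 0) = .X 0 := by
  have h1 : (0 : Fin (m + 3)) ≠ 1 := by simp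
  have h2 : (0 : Fin (m + 3)) ≠ 2 := by
    simp [Fin.ext_iff, Nat.mod_eq_of_lt (show 2 < m + 3 by omega)]
  simp [psi, h1, h2]

omit hp [CharP k p] in
theorem psi_1 (j : ℕ) : psi k p m j (.X 1) = .X 1 + j * cc k p m := by simp [psi]

omit hp [CharP k p] in
theorem psi_2 (j : ℕ) : psi k p m j (.X 2) = .X 2 - j * ww k p m := by
  have h2 : (2 : Fin (m + 3)) ≠ 1 := by
    simp [Fin.ext_iff, Nat.mod_eq_of_lt (show 2 < m + 3 by omega)]
  simp [psi, h2]

theorem psi_u (j : ℕ) : psi k p m j (uu k p m) = uu k p m := by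
  have h : ((j : MvPolynomial (Fin (m + 3)) k)) ^ p = j := map_natCast (frobenius _ p) j
  have e := t_ww k p m
  conv_lhs => rw [uu]
  rw [map_sub, map_add, map_mul, map_pow, psi_0, psi_1, psi_2, add_pow_char, mul_pow, h]
  conv_rhs => rw [uu]
  linear_combination (-j : MvPolynomial (Fin (m + 3)) k) * e

theorem psi_c (j : ℕ) : psi k p m j (cc k p m) = cc k p m := by
  rw [cc, map_add, map_mul, map_one, psi_0, psi_u]

theorem psi_w (j : ℕ) : psi k p m j (ww k p m) = ww k p m := by
  rw [ww, map_sub, map_mul, map_pow, map_pow, psi_0, psi_u]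

theorem psi_add (j l : ℕ) : (psi k p m j).comp (psi k p m l) = psi k p m (j + l) := by
  refine MvPolynomial.algHom_ext fun i => ?_
  by_cases h1 : i = 1
  · subst h1
    rw [AlgHom.comp_apply, psi_1, psi_1, map_add, map_mul, psi_1, psi_c, map_natCast]
    push_cast; ring
  by_cases h2 : i = 2
  · subst h2
    rw [AlgHom.comp_apply, psi_2, psi_2, map_sub, map_mul, psi_2, psi_w, map_natCast]
    push_cast; ring
  simp [psi, h1, h2]

omit hp in
theorem psi_p : psi k p m p = AlgHom.id k _ := by
  refine MvPolynomial.algHom_ext fun i => ?_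
  have : ((p : ℕ) : MvPolynomial (Fin (m + 3)) k) = 0 := CharP.cast_eq_zero _ p
  simp only [psi, this, MvPolynomial.aeval_X, zero_mul, add_zero, sub_zero, AlgHom.id_apply]
  split_ifs with h1 h2 <;> simp [*]

/-- The automorphism `x₂ ↦ x₂ + c`, `x₃ ↦ x₃ - (c^p - c) / x₁`. -/
noncomputable def phi : MvPolynomial (Fin (m + 3)) k ≃ₐ[k] MvPolynomial (Fin (m + 3)) k :=
  AlgEquiv.ofAlgHom (psi k p m 1) (psi k p m (p - 1))
    (by rw [psi_add, Nat.add_sub_cancel' hp.out.one_le, psi_p])
    (by rw [psi_add, Nat.sub_add_cancel hp.out.one_le, psi_p])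

theorem phi_apply (b) : phi k p m b = psi k p m 1 b := rfl

theorem phi_pow (j : ℕ) (b) : (phi k p m ^ (j + 1)) b = psi k p m (j + 1) b := by
  induction j generalizing b with
  | zero => simp [phi_apply]
  | succ j ih => rw [pow_succ, AlgEquiv.mul_apply, ih, phi_apply, ← psi_add k p m (j + 1) 1]; rfl

/-- Reduction modulo `x₁`. -/
noncomputable def red : MvPolynomial (Fin (m + 3)) k →ₐ[k] MvPolynomial (Fin (m + 3)) k :=
  MvPolynomial.aeval fun i => if i = 0 then 0 else .X i

omit hp [CharP k p] in
theorem red_c : red k m (cc k p m) = 1 := by simp [cc, red]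

omit hp [CharP k p] in
theorem cc_ne : cc k p m ≠ 0 := fun h => by
  have := red_c k p m
  rw [h, map_zero] at this
  exact zero_ne_one this

omit [CharP k p] in
theorem uu_ne : uu k p m ≠ 0 := fun h => by
  have h1 : (0 : Fin (m + 3)) ≠ 1 := by simp
  have h2 : (2 : Fin (m + 3)) ≠ 1 := by
    simp [Fin.ext_iff, Nat.mod_eq_of_lt (show 2 < m + 3 by omega)]
  have := congrArg (MvPolynomial.eval fun i => if i = 1 then (0 : k) else 1) h
  simp [uu, h1, h2, hp.out.ne_zero] at this

theorem order_phi : orderOf (phi k p m) = p := by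
  refine orderOf_eq_prime (AlgEquiv.ext fun b => ?_) fun h => cc_ne k p m ?_
  · have := phi_pow k p m (p - 1) b
    rw [Nat.sub_add_cancel hp.out.one_le, psi_p] at this
    exact this
  · have := congrArg (fun f => f (.X 1)) h
    simpa [phi_apply, psi_1] using this

theorem c_dvd (b) : cc k p m ∣ phi k p m b - b := by
  have hw : cc k p m ∣ ww k p m := by
    have h1 : cc k p m ∣ .X 0 * ww k p m := by
      rw [t_ww]; exact (dvd_pow_self _ hp.out.ne_zero).sub dvd_rfl
    have h2 : ww k p m = cc k p m * ww k p m - uu k p m * (.X 0 * ww k p m) := by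
      rw [cc]; ring
    rw [h2]
    exact (dvd_mul_right _ _).sub (h1.mul_left _)
  rw [phi_apply]
  induction b using MvPolynomial.induction_on with
  | C a => simp
  | add f g hf hg =>
    have := hf.add hg
    rwa [map_add, show ∀ a b c d : MvPolynomial (Fin (m + 3)) k, a + b - (c + d) = a - c + (b - d)
      from fun _ _ _ _ => by ring]
  | mul_X f i hf =>
    have hi : cc k p m ∣ psi k p m 1 (.X i) - .X i := by
      by_cases h1 : i = 1
      · subst h1; simp [psi_1]
      by_cases h2 : i = 2
      · subst h2; simpa [psi_2] using hw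
      simp [psi, h1, h2]
    have := (hf.mul_right (psi k p m 1 (.X i))).add (hi.mul_left f)
    rw [map_mul]
    convert this using 1
    ring

theorem not_exp : ¬ IsExponential (phi k p m) := by
  rintro ⟨ε, a, h, ha, he⟩
  have hx : (ε (.X 1)).eval a = .X 1 + cc k p m := by rw [← he, phi_apply, psi_1]; simp
  have hc := h.inv_of_dvd ha hx fun b => he b ▸ c_dvd k p m b
  have htu : ε (.X 0 * uu k p m) = C (.X 0 * uu k p m) := by
    rw [cc, map_add, map_one, C_add, C_1] at hc
    exact add_left_cancel hc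
  obtain ⟨ht, hu⟩ := h.factor (MvPolynomial.X_ne_zero 0) (uu_ne k p m) htu
  set P := (ε (.X 1) - C (MvPolynomial.X 1)).map (red k m).toRingHom with hP
  have e1 : P ^ p = P := by
    have := congrArg (Polynomial.map (red k m).toRingHom) hu
    rw [uu, map_sub, map_add, map_mul, map_pow, ht] at this
    simp only [Polynomial.map_sub, Polynomial.map_add, Polynomial.map_mul, Polynomial.map_pow,
      map_C, C_sub, C_add, C_mul, C_pow] at this
    have h0 : (red k m).toRingHom (.X 0) = 0 := by simp [red]
    rw [h0, C_0] at this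
    rw [hP, Polynomial.map_sub, map_C, sub_pow_char]
    linear_combination this
  have e2 : P.eval 0 = 0 := by
    rw [← coeff_zero_eq_eval_zero, hP, coeff_map, coeff_sub, (h _).1, coeff_C_zero, sub_self,
      map_zero]
  have e3 : P = 0 := by
    have : P * (P ^ (p - 1) - 1) = 0 := by
      rw [mul_sub, ← pow_succ', Nat.sub_add_cancel hp.out.one_le, e1]; ring
    refine (mul_eq_zero.1 this).resolve_right fun h0 => ?_
    have := congrArg (eval 0) h0
    have hp1 : p - 1 ≠ 0 := by have := hp.out.two_le; omega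
    simp [e2, hp1] at this
  have e4 : P.eval ((red k m).toRingHom a) = 1 := by
    rw [hP, eval_map, eval₂_hom, eval_sub, hx, eval_C, add_sub_cancel_left]
    exact red_c k p m
  rw [e3, eval_zero] at e4
  exact zero_ne_one e4

end example_

end Pool.Agent.H79.Ga
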