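import Mathlib

set_option autoImplicit false

namespace Pool.Agent.H79.Gin
open MvPolynomial

/-- exponent vectors of the monomials of degree `d` in `n` variables -/
abbrev Mon (n d : ℕ) : Type := {m : Fin n →₀ ℕ // m ∈ Finset.finsuppAntidiag Finset.univ d}

/-- the form of degree `d i` whose coefficients are the coordinates `a ⟨i, m⟩` of the point `a` -/
noncomputable def form {k : Type*} [Field k] {n s : ℕ} (d : Fin s → ℕ)
    (a : (Σ i : Fin s, Mon n (d i)) → k) (i : Fin s) : MvPolynomial (Fin n) k :=
  ∑ m : Mon n (d i), monomial m.1 (a ⟨i, m⟩)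

/-- the initial ideal for the lexicographic order with `x_0 > x_1 > ...` -/
noncomputable def lexInitial {k : Type*} [Field k] {n : ℕ} (I : Ideal (MvPolynomial (Fin n) k)) :
    Ideal (MvPolynomial (Fin n) k) :=
  Ideal.span {g | ∃ f ∈ I, f ≠ 0 ∧ g = monomial (MonomialOrder.lex.degree f) 1}

/-- every monomial of the same degree as, and lex-larger than, a monomial of `L` is in `L` -/
def IsLexSegment {k : Type*} [Field k] {n : ℕ} (L : Ideal (MvPolynomial (Fin n) k)) : Prop :=
  ∀ u v : Fin n →₀ ℕ, u.degree = v.degree → toLex u < toLex v →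
    monomial u (1 : k) ∈ L → monomial v (1 : k) ∈ L

end Pool.Agent.H79.Gin
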