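import Mathlib
import Pool.Agent.H79.GinDefs

set_option autoImplicit false

namespace Pool.Agent.H79.Gin
open MvPolynomial Finset

variable {k : Type*} [Field k]

theorem li_of_degree {σ ι : Type*} (m : MonomialOrder σ) (g : ι → MvPolynomial σ k)
    (h0 : ∀ i, g i ≠ 0) (hi : Function.Injective fun i => m.degree (g i)) :
    LinearIndependent k g := by
  classical
  rw [linearIndependent_iff']
  intro s c hs
  by_contra hc
  push Not at hc
  obtain ⟨i, hi1, hi2⟩ := (s.filter fun i => c i ≠ 0).exists_max_image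
    (fun i => m.toSyn (m.degree (g i))) (by obtain ⟨i, h1, h2⟩ := hc; exact ⟨i, by simp [h1, h2]⟩)
  rw [mem_filter] at hi1
  have := congrArg (coeff (m.degree (g i))) hs
  rw [coeff_sum, sum_eq_single i, coeff_smul, coeff_zero, smul_eq_mul, mul_eq_zero] at this
  · exact this.elim hi1.2 (m.coeff_degree_ne_zero_iff.2 (h0 i))
  · intro j hj hji
    by_cases hcj : c j = 0
    · simp [hcj]
    · rw [coeff_smul, m.coeff_eq_zero_of_lt, smul_zero]
      refine lt_of_le_of_ne (hi2 j (mem_filter.2 ⟨hj, hcj⟩)) fun h => hji (hi ?_)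
      exact m.toSyn.injective h
  · intro h; exact absurd hi1.1 h

theorem hc_mul {σ : Type*} {q : MvPolynomial σ k} {d : ℕ} (hq : q.IsHomogeneous d) (t : ℕ)
    (c : MvPolynomial σ k) :
    homogeneousComponent (t + d) (c * q) = homogeneousComponent t c * q := by
  induction c using MvPolynomial.induction_on' with
  | monomial u r =>
    have h1 : (monomial u r : MvPolynomial σ k).IsHomogeneous u.degree :=
      isHomogeneous_monomial r rfl
    rw [homogeneousComponent_of_mem (h1.mul hq), homogeneousComponent_of_mem h1]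
    by_cases h : t = u.degree <;> simp [h]
  | add f g hf hg => rw [add_mul, map_add, map_add, hf, hg, add_mul]

theorem exists_hom {n : ℕ} {I : Ideal (MvPolynomial (Fin n) k)} {u : Fin n →₀ ℕ}
    (hu : monomial u (1 : k) ∈ lexInitial I) :
    ∃ g ∈ I, homogeneousComponent u.degree g ≠ 0 ∧
      MonomialOrder.lex.degree (homogeneousComponent u.degree g) = u := by
  have h1 : lexInitial I = Ideal.span ((fun s => monomial s (1 : k)) ''
      {s | ∃ f ∈ I, f ≠ 0 ∧ s = MonomialOrder.lex.degree f}) := by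
    unfold lexInitial; congr 1; ext g
    constructor
    · rintro ⟨f, h1, h2, rfl⟩; exact ⟨_, ⟨f, h1, h2, rfl⟩, rfl⟩
    · rintro ⟨_, ⟨f, h1, h2, rfl⟩, rfl⟩; exact ⟨f, h1, h2, rfl⟩
  rw [h1, mem_ideal_span_monomial_image] at hu
  obtain ⟨_, ⟨f, hf, hf0, rfl⟩, hle⟩ := hu u (by simp)
  obtain ⟨t, rfl⟩ := exists_add_of_le hle
  have hm : (monomial t (1 : k) : MvPolynomial (Fin n) k) ≠ 0 := by simp
  have hd : MonomialOrder.lex.degree (f * monomial t (1 : k)) = MonomialOrder.lex.degree f + t := by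
    classical
    rw [MonomialOrder.degree_mul hf0 hm, MonomialOrder.degree_monomial, if_neg one_ne_zero]
  rw [← hd]
  set g := f * monomial t (1 : k)
  have hc : coeff (MonomialOrder.lex.degree g)
      (homogeneousComponent (MonomialOrder.lex.degree g).degree g) ≠ 0 := by
    rw [coeff_homogeneousComponent, if_pos rfl]
    exact MonomialOrder.lex.coeff_degree_ne_zero_iff.2 (mul_ne_zero hf0 hm)
  refine ⟨g, I.mul_mem_right _ hf, fun h => hc (by rw [h, coeff_zero]), ?_⟩
  refine MonomialOrder.lex.toSyn.injective (le_antisymm ?_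
    (MonomialOrder.lex.le_degree (mem_support_iff.2 hc)))
  refine MonomialOrder.degree_le_iff.2 fun c hc => MonomialOrder.lex.le_degree ?_
  rw [mem_support_iff, coeff_homogeneousComponent] at hc
  rw [mem_support_iff]
  intro h; simp [h] at hc

noncomputable def m4 (a : ℕ × ℕ × ℕ × ℕ) : Fin 4 →₀ ℕ :=
  Finsupp.equivFunOnFinite.symm ![a.1, a.2.1, a.2.2.1, a.2.2.2]

theorem m4_eta (d : Fin 4 →₀ ℕ) : d = m4 (d 0, d 1, d 2, d 3) := by
  ext i; fin_cases i <;> rfl

theorem m4_inj : Function.Injective m4 := fun _ _ h =>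
  Prod.ext (DFunLike.congr_fun h 0) (Prod.ext (DFunLike.congr_fun h 1)
    (Prod.ext (DFunLike.congr_fun h 2) (DFunLike.congr_fun h 3)))

theorem m4_degree (a : ℕ × ℕ × ℕ × ℕ) : (m4 a).degree = a.1 + a.2.1 + a.2.2.1 + a.2.2.2 := by
  rw [Finsupp.degree_eq_sum, Fin.sum_univ_four]; rfl

theorem monomial_m4 (a : ℕ × ℕ × ℕ × ℕ) (c : k) : (monomial (m4 a) c : MvPolynomial (Fin 4) k) =
    C c * (X 0 ^ a.1 * X 1 ^ a.2.1 * X 2 ^ a.2.2.1 * X 3 ^ a.2.2.2) := by
  rw [monomial_eq, Finsupp.prod_fintype _ _ (by simp), Fin.prod_univ_four]; rfl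

def e2 : Fin 10 → ℕ × ℕ × ℕ × ℕ := ![(2,0,0,0), (1,1,0,0), (1,0,1,0), (1,0,0,1), (0,2,0,0),
  (0,1,1,0), (0,1,0,1), (0,0,2,0), (0,0,1,1), (0,0,0,2)]

def e4 : Fin 21 → ℕ × ℕ × ℕ × ℕ := ![(0,4,0,0), (4,0,0,0), (3,1,0,0), (3,0,1,0), (3,0,0,1),
  (2,2,0,0), (2,1,1,0), (2,1,0,1), (2,0,2,0), (2,0,1,1), (2,0,0,2), (1,3,0,0), (1,2,1,0), (1,2,0,1),
  (1,1,2,0), (1,1,1,1), (1,1,0,2), (1,0,3,0), (1,0,2,1), (1,0,1,2), (1,0,0,3)]

noncomputable def quad : (Fin 10 → k) →ₗ[k] MvPolynomial (Fin 4) k :=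
  ∑ j, (monomial (m4 (e2 j))).comp (LinearMap.proj j)

theorem quad_apply (c : Fin 10 → k) : quad c = ∑ j, monomial (m4 (e2 j)) (c j) := by
  simp [quad]

theorem hom2 {q : MvPolynomial (Fin 4) k} (hq : q.IsHomogeneous 2) :
    q = quad fun j => coeff (m4 (e2 j)) q := by
  classical
  rw [quad_apply]
  ext d
  rw [coeff_sum]
  simp only [coeff_monomial]
  by_cases h : ∃ j, m4 (e2 j) = d
  · obtain ⟨j, rfl⟩ := h
    rw [sum_eq_single j, if_pos rfl]
    · intro i _ hij
      rw [if_neg]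
      intro h; exact hij ((by decide : Function.Injective e2) (m4_inj h))
    · simp
  · push Not at h
    rw [sum_eq_zero fun j _ => if_neg (h j)]
    refine hq.coeff_eq_zero fun hd => ?_
    rw [m4_eta d] at hd h
    rw [m4_degree] at hd
    simp only [ne_eq, m4_inj.eq_iff] at h hd
    generalize d 0 = a, d 1 = b, d 2 = c, d 3 = e at *
    have : ∀ a b c e : Fin 3, a.1 + b.1 + c.1 + e.1 = 2 → ∃ j, e2 j = (a.1, b.1, c.1, e.1) := by
      decide
    obtain ⟨j, hj⟩ := this ⟨a, by omega⟩ ⟨b, by omega⟩ ⟨c, by omega⟩ ⟨e, by omega⟩ hd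
    exact h j hj

theorem not_all {f : Fin 3 → MvPolynomial (Fin 4) k} (h0 : (f 0).IsHomogeneous 2)
    (h1 : (f 1).IsHomogeneous 2) (h2 : (f 2).IsHomogeneous 4) (hne : f 0 ≠ 0)
    (h : ∀ j, monomial (m4 (e4 j)) (1 : k) ∈ lexInitial (Ideal.span (Set.range f))) : False := by
  let φ : ((Fin 10 → k) × (Fin 10 → k) × k) →ₗ[k] MvPolynomial (Fin 4) k :=
    ((LinearMap.mulRight k (f 0)).comp quad).coprod
      (((LinearMap.mulRight k (f 1)).comp quad).coprod (LinearMap.toSpanSingleton k _ (f 2)))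
  have hφ : ∀ g ∈ Ideal.span (Set.range f), homogeneousComponent 4 g ∈ LinearMap.range φ := by
    intro g hg
    obtain ⟨c, rfl⟩ := (Submodule.mem_span_range_iff_exists_fun _).1 hg
    rw [Fin.sum_univ_three, map_add, map_add, smul_eq_mul, smul_eq_mul, smul_eq_mul,
      hc_mul h0 2, hc_mul h1 2, hc_mul h2 0, hom2 (homogeneousComponent_isHomogeneous 2 (c 0)),
      hom2 (homogeneousComponent_isHomogeneous 2 (c 1)), homogeneousComponent_zero]
    refine ⟨(fun j => coeff (m4 (e2 j)) (homogeneousComponent 2 (c 0)),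
      fun j => coeff (m4 (e2 j)) (homogeneousComponent 2 (c 1)), coeff 0 (c 2)), ?_⟩
    simp only [φ, LinearMap.coprod_apply, LinearMap.comp_apply, LinearMap.mulRight_apply,
      LinearMap.toSpanSingleton_apply, smul_eq_C_mul]
    rw [add_assoc]
  have hd : ∀ j, (m4 (e4 j)).degree = 4 := fun j => by rw [m4_degree]; revert j; decide
  choose g hg1 hg2 hg3 using fun j => exists_hom (h j)
  simp only [hd] at hg2 hg3
  have hli := li_of_degree MonomialOrder.lex (fun j => homogeneousComponent 4 (g j)) hg2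
    (fun i j hij => by
      simp only [hg3] at hij
      exact (by decide : Function.Injective e4) (m4_inj hij))
  have hli2 : LinearIndependent k
      (fun j => (⟨homogeneousComponent 4 (g j), hφ _ (hg1 j)⟩ : LinearMap.range φ)) :=
    LinearIndependent.of_comp (LinearMap.range φ).subtype hli
  have h3 := hli2.fintype_card_le_finrank
  have h4 := φ.finrank_range_add_finrank_ker
  simp only [Fintype.card_fin, Module.finrank_prod, Module.finrank_fintype_fun_eq_card,
    Module.finrank_self] at h3 h4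
  have h5 : LinearMap.ker φ = ⊥ := Submodule.finrank_eq_zero.1 (by omega)
  have h6 : ((fun j => coeff (m4 (e2 j)) (f 1)), (-fun j => coeff (m4 (e2 j)) (f 0)), (0 : k)) ∈
      LinearMap.ker φ := by
    simp only [φ, LinearMap.mem_ker, LinearMap.coprod_apply, LinearMap.comp_apply,
      LinearMap.mulRight_apply, map_zero, map_neg, ← hom2 h0, ← hom2 h1]
    ring
  rw [h5, Submodule.mem_bot, Prod.mk_eq_zero, Prod.mk_eq_zero, neg_eq_zero] at h6
  apply hne
  rw [hom2 h0, h6.2.1, map_zero]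

theorem x14_mem (a b : Fin 10 → k) {I : Ideal (MvPolynomial (Fin 4) k)} (ha : quad a ∈ I)
    (hb : quad b ∈ I)
    (hP : (a 0 * b 4 - a 4 * b 0) ^ 2 - (a 0 * b 1 - a 1 * b 0) * (a 1 * b 4 - a 4 * b 1) ≠ 0) :
    monomial (m4 (0, 4, 0, 0)) (1 : k) ∈ lexInitial I := by
  let A1 : (Fin 10 → k) → MvPolynomial (Fin 3) k := fun a =>
    C (a 1) * X 0 + C (a 2) * X 1 + C (a 3) * X 2
  let A2 : (Fin 10 → k) → MvPolynomial (Fin 3) k := fun a =>
    C (a 4) * (X 0 * X 0) + C (a 5) * (X 0 * X 1) + C (a 6) * (X 0 * X 2) + C (a 7) * (X 1 * X 1) +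
      C (a 8) * (X 1 * X 2) + C (a 9) * (X 2 * X 2)
  have hA1 : ∀ a, (A1 a).IsHomogeneous 1 := fun a =>
    (((isHomogeneous_X k _).C_mul _).add ((isHomogeneous_X k _).C_mul _)).add
      ((isHomogeneous_X k _).C_mul _)
  have hXX : ∀ i j : Fin 3, (X i * X j : MvPolynomial (Fin 3) k).IsHomogeneous 2 := fun i j =>
    (isHomogeneous_X k i).mul (isHomogeneous_X k j)
  have hA2 : ∀ a, (A2 a).IsHomogeneous 2 := fun a =>
    ((((((hXX _ _).C_mul _).add ((hXX _ _).C_mul _)).add ((hXX _ _).C_mul _)).add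
      ((hXX _ _).C_mul _)).add ((hXX _ _).C_mul _)).add ((hXX _ _).C_mul _)
  have hq : ∀ a, quad a = C (a 0) * X 0 ^ 2 + rename Fin.succ (A1 a) * X 0 +
      rename Fin.succ (A2 a) := by
    intro a
    rw [quad_apply]
    simp [Fin.sum_univ_succ, monomial_m4, e2, A1, A2]
    ring
  let R : MvPolynomial (Fin 3) k := (C (a 0) * A2 b - C (b 0) * A2 a) ^ 2 -
    (C (a 0) * A1 b - C (b 0) * A1 a) * (A1 a * A2 b - A2 a * A1 b)
  have hR : R.IsHomogeneous 4 :=
    ((((hA2 b).C_mul _).sub ((hA2 a).C_mul _)).pow 2).sub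
      ((((hA1 b).C_mul _).sub ((hA1 a).C_mul _)).mul
        (((hA1 a).mul (hA2 b)).sub ((hA2 a).mul (hA1 b))))
  have hR4 : (rename Fin.succ R : MvPolynomial (Fin 4) k).IsHomogeneous 4 := hR.rename_isHomogeneous
  have hRI : rename Fin.succ R ∈ I := by
    rw [hq] at ha hb
    simp only [R, map_sub, map_mul, map_pow, rename_C]
    generalize rename Fin.succ (A1 a) = a1 at *
    generalize rename Fin.succ (A1 b) = b1 at *
    generalize rename Fin.succ (A2 a) = a2 at *
    generalize rename Fin.succ (A2 b) = b2 at *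
    generalize (C (a 0) : MvPolynomial (Fin 4) k) = a0 at *
    generalize (C (b 0) : MvPolynomial (Fin 4) k) = b0 at *
    have := I.add_mem
      (I.mul_mem_left (b0 * (a0 * b1 - b0 * a1) * X 0 + (b1 * (a0 * b1 - b0 * a1) -
        b0 * (a0 * b2 - b0 * a2))) ha)
      (I.mul_mem_left (-(a0 * (a0 * b1 - b0 * a1) * X 0) - (a1 * (a0 * b1 - b0 * a1) -
        a0 * (a0 * b2 - b0 * a2))) hb)
    convert this using 1
    ring
  have hev : eval ![0, 1, 0, 0] (rename Fin.succ R : MvPolynomial (Fin 4) k) ≠ 0 := by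
    rw [eval_rename]
    convert hP using 1
    simp [R, A1, A2]
    ring
  have hs : m4 (0, 4, 0, 0) ∈ (rename Fin.succ R : MvPolynomial (Fin 4) k).support := by
    rw [eval_eq'] at hev
    obtain ⟨d, hd, hd0⟩ := exists_ne_zero_of_sum_ne_zero hev
    have h1 := right_ne_zero_of_mul hd0
    rw [Fin.prod_univ_four] at h1
    have h2 : d.degree = 4 := by
      by_contra h; exact mem_support_iff.1 hd (hR4.coeff_eq_zero h)
    rw [m4_eta d, m4_degree] at h2
    simp at h1 h2
    rw [m4_eta d] at hd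
    convert hd <;> omega
  refine Ideal.subset_span ⟨_, hRI, fun h => by simp [h] at hs, ?_⟩
  congr 2
  refine MonomialOrder.lex.toSyn.injective (le_antisymm (MonomialOrder.lex.le_degree hs) ?_)
  refine MonomialOrder.degree_le_iff.2 fun c hc => ?_
  have h2 : c.degree = 4 := by
    by_contra h; exact mem_support_iff.1 hc (hR4.coeff_eq_zero h)
  obtain ⟨u, hu, -⟩ := coeff_rename_ne_zero _ _ _ (mem_support_iff.1 hc)
  have h3 : c 0 = 0 := by
    rw [← hu]; exact Finsupp.mapDomain_of_notMem_range _ _ (by simp)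
  rw [m4_eta c, m4_degree] at h2
  simp only at h2
  by_cases h4 : c 1 = 4
  · apply le_of_eq; congr 1
    rw [m4_eta c]; congr <;> omega
  · refine le_of_lt ⟨1, fun j hj => ?_, ?_⟩
    · obtain rfl : j = 0 := by omega
      exact h3
    · change c 1 < 4; omega

theorem coeff_form {n s : ℕ} (d : Fin s → ℕ) (a : (Σ i : Fin s, Mon n (d i)) → k) (i : Fin s)
    (m : Mon n (d i)) : coeff m.1 (form d a i) = a ⟨i, m⟩ := by
  classical
  rw [form, coeff_sum, sum_eq_single m, coeff_monomial, if_pos rfl]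
  · intro j _ hj
    rw [coeff_monomial, if_neg fun h => hj (Subtype.ext h)]
  · simp

theorem form_hom {n s : ℕ} (d : Fin s → ℕ) (a : (Σ i : Fin s, Mon n (d i)) → k) (i : Fin s) :
    (form d a i).IsHomogeneous (d i) := by
  refine IsHomogeneous.sum _ _ _ fun m _ => isHomogeneous_monomial _ ?_
  rw [Finsupp.degree_eq_sum]
  exact (mem_finsuppAntidiag.1 m.2).1

theorem mem2 (j : Fin 10) : m4 (e2 j) ∈ finsuppAntidiag (univ : Finset (Fin 4)) 2 := by
  rw [mem_finsuppAntidiag, ← Finsupp.degree_eq_sum, m4_degree]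
  exact ⟨by revert j; decide, subset_univ _⟩

theorem main (k : Type*) [Field k] :
    ∃ P : MvPolynomial (Σ i : Fin 3, Mon 4 (![2, 2, 4] i)) k, P ≠ 0 ∧
      ∀ a : (Σ i : Fin 3, Mon 4 (![2, 2, 4] i)) → k, eval a P ≠ 0 →
        ¬ IsLexSegment (lexInitial (Ideal.span (Set.range (form ![2, 2, 4] a)))) := by
  classical
  let x : Fin 10 → MvPolynomial (Σ i : Fin 3, Mon 4 (![2, 2, 4] i)) k :=
    fun j => X ⟨0, ⟨m4 (e2 j), mem2 j⟩⟩
  let y : Fin 10 → MvPolynomial (Σ i : Fin 3, Mon 4 (![2, 2, 4] i)) k :=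
    fun j => X ⟨1, ⟨m4 (e2 j), mem2 j⟩⟩
  refine ⟨(x 0 * y 4 - x 4 * y 0) ^ 2 - (x 0 * y 1 - x 1 * y 0) * (x 1 * y 4 - x 4 * y 1), ?_, ?_⟩
  · intro h
    have := congrArg (eval fun p : (Σ i : Fin 3, Mon 4 (![2, 2, 4] i)) =>
      if p.2.1 p.1.castSucc = 2 then (1 : k) else 0) h
    simp [x, y, m4, e2] at this
  · intro a ha hL
    have h0 : (form ![2, 2, 4] a 0).IsHomogeneous 2 := form_hom _ a 0
    have h1 : (form ![2, 2, 4] a 1).IsHomogeneous 2 := form_hom _ a 1
    have h2 : (form ![2, 2, 4] a 2).IsHomogeneous 4 := form_hom _ a 2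
    have hx : ∀ j, eval a (x j) = coeff (m4 (e2 j)) (form ![2, 2, 4] a 0) := fun j => by
      rw [eval_X]; exact (coeff_form _ a 0 ⟨m4 (e2 j), mem2 j⟩).symm
    have hy : ∀ j, eval a (y j) = coeff (m4 (e2 j)) (form ![2, 2, 4] a 1) := fun j => by
      rw [eval_X]; exact (coeff_form _ a 1 ⟨m4 (e2 j), mem2 j⟩).symm
    simp only [map_sub, map_mul, map_pow, hx, hy] at ha
    have h3 := x14_mem (I := Ideal.span (Set.range (form ![2, 2, 4] a)))
      (fun j => coeff (m4 (e2 j)) (form ![2, 2, 4] a 0))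
      (fun j => coeff (m4 (e2 j)) (form ![2, 2, 4] a 1))
      (by rw [← hom2 h0]; exact Ideal.subset_span ⟨0, rfl⟩)
      (by rw [← hom2 h1]; exact Ideal.subset_span ⟨1, rfl⟩) ha
    refine not_all h0 h1 h2 (fun h => ha (by simp [h])) fun j => ?_
    by_cases hj : j = 0
    · subst hj; exact h3
    · refine hL _ _ ?_ ⟨0, fun i hi => by simp at hi, ?_⟩ h3
      · rw [m4_degree, m4_degree]; clear hj; revert j; decide
      · change 0 < (e4 j).1
        revert j; decide

end Pool.Agent.H79.Gin
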