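import Mathlib

set_option autoImplicit false

namespace Pool.Agent.H79.HW

open CategoryTheory Abelian RingTheory.Sequence TensorProduct

/-- depth: supremum of the lengths of `N`-regular sequences in the maximal ideal -/
noncomputable def depth (A : Type) [CommRing A] [IsLocalRing A] (N : Type) [AddCommGroup N]
    [Module A N] : ℕ∞ :=
  ⨆ (rs : List A) (_ : ∀ r ∈ rs, r ∈ IsLocalRing.maximalIdeal A) (_ : IsRegular N rs),
    (rs.length : ℕ∞)

/-- codimension: infimum of the heights of the primes in the support -/
noncomputable def cod (A : Type) [CommRing A] (N : Type) [AddCommGroup N] [Module A N] : ℕ∞ :=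
  ⨅ p ∈ Module.support A N, p.asIdeal.height

/-- nonzero Cohen-Macaulay module of codimension `t` -/
def IsCMCod (A : Type) [CommRing A] [IsLocalRing A] (N : Type) [AddCommGroup N] [Module A N]
    (t : ℕ) : Prop :=
  Nontrivial N ∧ ((depth A N : ℕ∞) : WithBot ℕ∞) = Module.supportDim A N ∧ cod A N = t

end Pool.Agent.H79.HW

namespace Pool.Agent.H79.HW

open CategoryTheory Abelian TensorProduct

/-- `R` is the quotient of a regular local ring by a regular element of the square of the
maximal ideal -/
def IsHypersurface (R : Type) [CommRing R] : Prop :=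
  ∃ (S : Type) (_ : CommRing S) (_ : IsRegularLocalRing S) (x : S),
    x ∈ IsLocalRing.maximalIdeal S ^ 2 ∧ RingTheory.Sequence.IsRegular S [x] ∧
    Nonempty (R ≃+* S ⧸ Ideal.span {x})

end Pool.Agent.H79.HW
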