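import Mathlib
import Pool.Agent.H79.PD
import Pool.Agent.H79.HWDefs

set_option autoImplicit false

namespace Pool.Agent.H79.HW

open CategoryTheory Abelian RingTheory.Sequence TensorProduct Pool.Agent.H79.PD

variable {R : Type} [CommRing R]

theorem ext_killed (N M : ModuleCat.{0} R) (a : R) (ha : a ∈ Module.annihilator R N) (i : ℕ)
    (e : Ext N M i) : a • e = 0 := by
  have h1 : a • 𝟙 N = 0 := by
    simp [← ModuleCat.lsmul_eq_smul_id, Module.mem_annihilator_iff_lsmul_eq_zero.mp ha]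
  have smul_eq : a • e = (Ext.mk₀ (a • 𝟙 N)).comp e (zero_add i) := by simp [Ext.mk₀_smul]
  simp [smul_eq, h1]

/-- Rees isomorphism -/
theorem rees (N : ModuleCat.{0} R) (rs : List R) :
    ∀ (M : ModuleCat.{0} R), (∀ r ∈ rs, r ∈ Module.annihilator R N) → IsWeaklyRegular M rs →
      Nonempty (Ext N M rs.length ≃ₗ[R]
        (N →ₗ[R] (M ⧸ Ideal.ofList rs • (⊤ : Submodule R M)))) := by
  induction rs with
  | nil =>
    intro M _ _
    have e1 : Ext N M 0 ≃ₗ[R] (N ⟶ M) := Ext.linearEquiv₀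
    have e2 : (N ⟶ M) ≃ₗ[R] (N →ₗ[R] M) := ModuleCat.homLinearEquiv
    have e3 : M ≃ₗ[R] (M ⧸ Ideal.ofList ([] : List R) • (⊤ : Submodule R M)) :=
      (Submodule.quotEquivOfEqBot _ (by simp)).symm
    exact ⟨e1 ≪≫ₗ e2 ≪≫ₗ LinearEquiv.congrRight e3⟩
  | cons a rs ih =>
    intro M mem reg
    have hvan := ext_of_weaklyRegular N M (a :: rs) mem reg rs.length (by simp)
    rw [isWeaklyRegular_cons_iff] at reg
    obtain ⟨e1⟩ := ih (ModuleCat.of R (QuotSMulTop a M))
      (fun r hr => mem r (List.mem_cons_of_mem _ hr)) reg.2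
    have hS := reg.1.smulShortComplex_shortExact
    let δ : Ext N (ModuleCat.of R (QuotSMulTop a M)) rs.length →ₗ[R] Ext N M (rs.length + 1) :=
      { toFun := fun x => x.comp hS.extClass rfl
        map_add' := fun x y => Ext.add_comp _ _ _ _
        map_smul' := fun r x => Ext.smul_comp _ _ _ _ }
    have hδ : Function.Bijective δ := by
      constructor
      · rw [injective_iff_map_eq_zero]
        intro x hx
        obtain ⟨y, hy⟩ := Ext.covariant_sequence_exact₃ N hS x rfl hx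
        have : y = 0 := Subsingleton.elim (α := Ext N M rs.length) _ _
        rw [← hy, this, Ext.zero_comp]
        rfl
      · intro e
        have hcomp : e.comp (Ext.mk₀ (M.smulShortComplex a).f) (add_zero _) = 0 := by
          have h2 : e.comp (Ext.mk₀ (a • 𝟙 M)) (add_zero _) = a • e := by simp [Ext.mk₀_smul]
          exact h2.trans (ext_killed N M a (mem a List.mem_cons_self) _ e)
        obtain ⟨x, hx0⟩ := Ext.covariant_sequence_exact₁ N hS e hcomp rfl
        exact ⟨x, hx0⟩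
    exact ⟨(LinearEquiv.ofBijective δ hδ).symm ≪≫ₗ e1 ≪≫ₗ LinearEquiv.congrRight
      (Submodule.quotOfListConsSMulTopEquivQuotSMulTopInner M a rs).symm⟩

theorem smul_top_eq (I J : Ideal R) :
    J • (⊤ : Submodule R (R ⧸ I)) = Submodule.map (Submodule.mkQ I) J := by
  have : (⊤ : Submodule R (R ⧸ I)) = Submodule.map (Submodule.mkQ I) ⊤ := by
    rw [Submodule.map_top, Submodule.range_mkQ]
  rw [this, ← Submodule.map_smul'', smul_eq_mul, Ideal.mul_top]

/-- double quotient -/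
noncomputable def qq (I J : Ideal R) :
    ((R ⧸ I) ⧸ J • (⊤ : Submodule R (R ⧸ I))) ≃ₗ[R] (R ⧸ (I ⊔ J)) :=
  Submodule.quotEquivOfEq _ _ (smul_top_eq I J) ≪≫ₗ
    Submodule.quotientQuotientEquivQuotientSup I J

theorem weaklyRegular_quot (I : Ideal R) (rs : List R)
    (h : ∀ (i : ℕ) (hi : i < rs.length) (a : R),
      rs[i] * a ∈ I ⊔ Ideal.ofList (rs.take i) → a ∈ I ⊔ Ideal.ofList (rs.take i)) :
    IsWeaklyRegular (R ⧸ I) rs := by
  rw [isWeaklyRegular_iff]
  intro i hi
  rw [(qq I (Ideal.ofList (rs.take i))).isSMulRegular_congr,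
    isSMulRegular_iff_right_eq_zero_of_smul]
  intro m hm
  obtain ⟨a, rfl⟩ := Submodule.Quotient.mk_surjective _ m
  rw [← Submodule.Quotient.mk_smul, Submodule.Quotient.mk_eq_zero] at hm
  rw [Submodule.Quotient.mk_eq_zero]
  exact h i hi a hm

/-- `Hom(R/P, R/Q) = R/P` when `P = Q + (a) = (Q : a)` -/
theorem hom_equiv (P Q : Ideal R) (a : R) (hP : P = Q ⊔ Ideal.span {a})
    (h : ∀ r, r ∈ P ↔ r * a ∈ Q) : Nonempty ((R ⧸ P) ≃ₗ[R] ((R ⧸ P) →ₗ[R] (R ⧸ Q))) := by
  let φ : (R ⧸ P) →ₗ[R] (R ⧸ Q) := mulQ Q P a h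
  let ψ : (R ⧸ P) →ₗ[R] ((R ⧸ P) →ₗ[R] (R ⧸ Q)) :=
    Submodule.liftQ P (LinearMap.toSpanSingleton R _ φ) (by
      intro r hr
      rw [LinearMap.mem_ker, LinearMap.toSpanSingleton_apply]
      apply LinearMap.ext
      intro x
      obtain ⟨s, rfl⟩ := Submodule.Quotient.mk_surjective _ x
      rw [LinearMap.smul_apply, ← map_smul, ← Submodule.Quotient.mk_smul, smul_eq_mul,
        (Submodule.Quotient.mk_eq_zero _).2 (P.mul_mem_right s hr), map_zero,
        LinearMap.zero_apply])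
  have hψ : ∀ r s : R, ψ (Submodule.Quotient.mk r) (Submodule.Quotient.mk s) =
      Submodule.Quotient.mk (r * (s * a)) := fun r s => rfl
  refine ⟨LinearEquiv.ofBijective ψ ⟨?_, ?_⟩⟩
  · rw [injective_iff_map_eq_zero]
    intro x hx
    obtain ⟨r, rfl⟩ := Submodule.Quotient.mk_surjective _ x
    have h1 := hψ r 1
    rw [hx, LinearMap.zero_apply, eq_comm, Submodule.Quotient.mk_eq_zero, one_mul] at h1
    exact (Submodule.Quotient.mk_eq_zero _).2 ((h r).2 h1)
  · intro f
    obtain ⟨t, ht⟩ := Submodule.Quotient.mk_surjective _ (f (Submodule.Quotient.mk 1))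
    have haP : a ∈ P := hP ▸ Submodule.mem_sup_right (Ideal.mem_span_singleton_self a)
    have h1 : t * a ∈ Q := by
      rw [← Submodule.Quotient.mk_eq_zero, mul_comm, ← smul_eq_mul, Submodule.Quotient.mk_smul,
        ht, ← map_smul, ← Submodule.Quotient.mk_smul,
        (Submodule.Quotient.mk_eq_zero _).2 (by simpa using haP), map_zero]
    have h2 := (h t).2 h1
    rw [hP] at h2
    obtain ⟨q, hq, y, hy, rfl⟩ := Submodule.mem_sup.1 h2
    obtain ⟨r, rfl⟩ := Ideal.mem_span_singleton'.1 hy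
    refine ⟨Submodule.Quotient.mk r, LinearMap.ext fun x => ?_⟩
    obtain ⟨s, rfl⟩ := Submodule.Quotient.mk_surjective _ x
    have h3 : (Submodule.Quotient.mk s : R ⧸ P) = s • Submodule.Quotient.mk 1 := by
      rw [← Submodule.Quotient.mk_smul]; simp
    rw [hψ, h3, map_smul, ← ht, ← Submodule.Quotient.mk_smul, Submodule.Quotient.eq]
    have : r * (s * a) - s • (q + r * a) = -(s * q) := by simp only [smul_eq_mul]; ring
    rw [this]
    exact Q.neg_mem (Q.mul_mem_left s hq)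

theorem isCMCod_congr [IsLocalRing R] {M N : Type} [AddCommGroup M] [Module R M]
    [AddCommGroup N] [Module R N] (e : M ≃ₗ[R] N) (t : ℕ) (h : IsCMCod R M t) :
    IsCMCod R N t := by
  obtain ⟨h1, h2, h3⟩ := h
  refine ⟨e.symm.surjective.nontrivial, ?_, ?_⟩
  · rw [← Module.supportDim_eq_of_equiv e, ← h2]
    simp only [depth, e.isRegular_congr]
  · rw [← h3]
    simp only [cod, e.support_eq]

/-- a two-generated projective ideal of a local domain is generated by one of the generators -/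
theorem not_proj [IsDomain R] [IsLocalRing R] (a b : R) (hab : a ∉ Ideal.span {b})
    (hba : b ∉ Ideal.span {a}) (I : Ideal R) (hI : I = Ideal.span {b} ⊔ Ideal.span {a}) :
    ¬ Module.Projective R I := by
  intro hp
  have ha : a ∈ I := hI ▸ Submodule.mem_sup_right (Ideal.mem_span_singleton_self a)
  have hb : b ∈ I := hI ▸ Submodule.mem_sup_left (Ideal.mem_span_singleton_self b)
  let f : (R × R) →ₗ[R] I := (LinearMap.toSpanSingleton R I ⟨a, ha⟩).coprod
    (LinearMap.toSpanSingleton R I ⟨b, hb⟩)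
  have hf : Function.Surjective f := by
    rintro ⟨x, hx⟩
    have hx' := hx
    rw [hI] at hx'
    obtain ⟨u, hu, v, hv, rfl⟩ := Submodule.mem_sup.1 hx'
    obtain ⟨u, rfl⟩ := Ideal.mem_span_singleton'.1 hu
    obtain ⟨v, rfl⟩ := Ideal.mem_span_singleton'.1 hv
    exact ⟨(v, u), Subtype.ext (by simp [f, add_comm])⟩
  obtain ⟨g, hg⟩ := Module.projective_lifting_property f LinearMap.id hf
  have h1 : (g ⟨a, ha⟩).1 * a + (g ⟨a, ha⟩).2 * b = a := by
    have := congrArg Subtype.val (LinearMap.congr_fun hg ⟨a, ha⟩)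
    simpa [f] using this
  have h2 : b • g ⟨a, ha⟩ = a • g ⟨b, hb⟩ := by
    rw [← map_smul, ← map_smul]
    congr 1
    exact Subtype.ext (mul_comm b a)
  have h3 : b * (g ⟨a, ha⟩).1 = a * (g ⟨b, hb⟩).1 := congrArg Prod.fst h2
  have h4 : b * (g ⟨a, ha⟩).2 = a * (g ⟨b, hb⟩).2 := congrArg Prod.snd h2
  have ha0 : a ≠ 0 := by rintro rfl; exact hab (Ideal.zero_mem _)
  have h5 : (g ⟨a, ha⟩).1 + (g ⟨b, hb⟩).2 = 1 := by
    apply mul_left_cancel₀ ha0
    linear_combination h1 - h4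
  rcases IsLocalRing.isUnit_or_isUnit_of_add_one h5 with ⟨u, hu⟩ | ⟨u, hu⟩
  · apply hba
    rw [Ideal.mem_span_singleton']
    refine ⟨(g ⟨b, hb⟩).1 * ↑u⁻¹, ?_⟩
    rw [← hu] at h3
    have := u.mul_inv
    linear_combination (-(↑u⁻¹ : R)) * h3 + b * this
  · apply hab
    rw [Ideal.mem_span_singleton']
    refine ⟨(g ⟨a, ha⟩).2 * ↑u⁻¹, ?_⟩
    rw [← hu] at h4
    have := u.mul_inv
    linear_combination (↑u⁻¹ : R) * h4 + a * this

theorem not_pd_base [IsDomain R] [IsLocalRing R] (a b : R) (hab : a ∉ Ideal.span {b})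
    (hba : b ∉ Ideal.span {a}) (I : Ideal R) (hI : I = Ideal.span {b} ⊔ Ideal.span {a})
    (h : ∀ r, r ∈ I ↔ r * a ∈ Ideal.span {b}) (n : ℕ) : ¬ PdLT R (R ⧸ I) n := by
  have hb0 : b ≠ 0 := by rintro rfl; exact hba (Ideal.zero_mem _)
  have h2 : PdLT R (R ⧸ Ideal.span {b}) 2 :=
    pd_nzd ⊥ _ b (fun r => by simp [hb0]) (by simp) 1 (pd_bot ⊥ rfl)
  have key : ∀ m, ¬ PdLT R (R ⧸ I) (m + 2) := by
    intro m
    induction m with
    | zero =>
      intro hh
      exact not_proj a b hab hba I hI (proj_of_pd _ ((pd_quot_iff I 0).1 hh))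
    | succ m ih =>
      intro hh
      exact ih ((colonSES _ I I a h hI).hasProjectiveDimensionLT_X₁ (m + 2)
        (pd_mono (by omega) h2) hh)
  intro hh
  exact key n (pd_mono (by omega) hh)

end Pool.Agent.H79.HW
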