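import Mathlib
import Pool.Agent.H79.HW1

set_option autoImplicit false
set_option linter.unusedSectionVars false

namespace Pool.Agent.H79.HW

open CategoryTheory Abelian RingTheory.Sequence TensorProduct Pool.Agent.H79.PD

variable {R : Type} [CommRing R]

/-- ideal generated by the `x j` with `a ≤ j < b` -/
def seg (x : ℕ → R) (a b : ℕ) : Ideal R := Ideal.span (x '' {j | a ≤ j ∧ j < b})

/-- the list of the `x j` with `a ≤ j < a + m` -/
def lst (x : ℕ → R) (a m : ℕ) : List R := (List.range' a m).map x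

theorem lst_length (x : ℕ → R) (a m : ℕ) : (lst x a m).length = m := by simp [lst]

theorem ofList_lst (x : ℕ → R) (a m : ℕ) : Ideal.ofList (lst x a m) = seg x a (a + m) := by
  unfold Ideal.ofList seg lst
  congr 1
  ext r
  simp [List.mem_range'_1]

theorem take_lst (x : ℕ → R) (a m i : ℕ) (h : i ≤ m) : (lst x a m).take i = lst x a i := by
  simp [lst, ← List.map_take, List.take_range'_of_length_ge h]

theorem get_lst (x : ℕ → R) (a m i : ℕ) (h : i < (lst x a m).length) :
    (lst x a m)[i] = x (a + i) := by simp [lst]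

theorem seg_sup (x : ℕ → R) (a b c : ℕ) (h1 : a ≤ b) (h2 : b ≤ c) :
    seg x a b ⊔ seg x b c = seg x a c := by
  unfold seg
  rw [← Ideal.span_union, ← Set.image_union]
  congr 2
  ext j
  simp only [Set.mem_union, Set.mem_ofPred_eq]
  omega

theorem seg_one (x : ℕ → R) (a : ℕ) : seg x a (a + 1) = Ideal.span {x a} := by
  unfold seg
  congr 1
  have : {j | a ≤ j ∧ j < a + 1} = {a} := by
    ext j; simp only [Set.mem_ofPred_eq, Set.mem_singleton_iff]; omega
  rw [this, Set.image_singleton]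

theorem seg_self (x : ℕ → R) (a : ℕ) : seg x a a = ⊥ := by
  unfold seg
  have : {j | a ≤ j ∧ j < a} = ∅ := by
    ext j; simp only [Set.mem_ofPred_eq, Set.mem_empty_iff_false, iff_false]; omega
  rw [this]; simp

theorem seg_mono (x : ℕ → R) {a b a' b' : ℕ} (h1 : a' ≤ a) (h2 : b ≤ b') :
    seg x a b ≤ seg x a' b' :=
  Ideal.span_mono (Set.image_mono fun j hj => ⟨h1.trans hj.1, hj.2.trans_le h2⟩)

theorem mem_seg (x : ℕ → R) {a b j : ℕ} (h1 : a ≤ j) (h2 : j < b) : x j ∈ seg x a b :=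
  Ideal.subset_span ⟨j, ⟨h1, h2⟩, rfl⟩

/-- hypotheses on the ring -/
structure Good (R : Type) [CommRing R] [IsLocalRing R] (x : ℕ → R) (n : ℕ) : Prop where
  prime : ∀ k, 2 ≤ k → k ≤ n → (seg x 0 k).IsPrime
  notMem : ∀ k i, 2 ≤ k → k ≤ i → i < n → x i ∉ seg x 0 k
  colon : ∀ k, 2 ≤ k → k ≤ n → ∀ u, u ∈ seg x 0 k ↔ u * x 0 ∈ seg x 1 k
  max : IsLocalRing.maximalIdeal R = seg x 0 n
  h10 : x 1 ∉ Ideal.span {x 0}

variable [IsLocalRing R] {x : ℕ → R} {n : ℕ}

theorem seg_split (x : ℕ → R) (k : ℕ) (hk : 1 ≤ k) :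
    seg x 0 k = seg x 1 k ⊔ Ideal.span {x 0} := by
  rw [sup_comm, ← seg_one x 0, seg_sup x 0 1 k (by omega) hk]

theorem Good.reg_quot (h : Good R x n) (k m : ℕ) (hk : 2 ≤ k) (hm : k + m ≤ n) :
    IsWeaklyRegular (R ⧸ seg x 0 k) (lst x k m) := by
  apply weaklyRegular_quot
  intro i hi a ha
  have hi' : i < m := by rwa [lst_length] at hi
  rw [take_lst x k m i hi'.le, ofList_lst, seg_sup x 0 k (k + i) (by omega) (by omega)] at ha ⊢
  rw [get_lst] at ha
  exact ((h.prime (k + i) (by omega) (by omega)).mem_or_mem ha).resolve_left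
    (h.notMem (k + i) (k + i) (by omega) le_rfl (by omega))

theorem Good.reg_self [IsDomain R] (h : Good R x n) (m : ℕ) (hm : 1 + m ≤ n) :
    IsWeaklyRegular R (lst x 1 m) := by
  apply weaklyRegular_of_colon
  intro i hi a ha
  have hi' : i < m := by rwa [lst_length] at hi
  rw [take_lst x 1 m i hi'.le, ofList_lst] at ha ⊢
  rw [get_lst] at ha
  rcases Nat.eq_zero_or_pos i with rfl | hpos
  · rw [seg_self] at ha ⊢
    have h0 : x 1 ≠ 0 := fun h0 => h.h10 (h0 ▸ Ideal.zero_mem _)
    simpa [h0] using ha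
  have hp := h.prime (1 + i) (by omega) (by omega)
  have hn := h.notMem (1 + i) (1 + i) (by omega) le_rfl (by omega)
  have hc := h.colon (1 + i) (by omega) (by omega)
  have h1 : a ∈ seg x 0 (1 + i) :=
    (hp.mem_or_mem (seg_mono x (Nat.zero_le 1) le_rfl ha)).resolve_left hn
  rw [seg_split x _ (by omega)] at h1
  obtain ⟨q, hq, y, hy, rfl⟩ := Submodule.mem_sup.1 h1
  obtain ⟨w, rfl⟩ := Ideal.mem_span_singleton'.1 hy
  have h2 : (x (1 + i) * w) * x 0 ∈ seg x 1 (1 + i) := by
    have := (seg x 1 (1 + i)).sub_mem ha ((seg x 1 (1 + i)).mul_mem_left (x (1 + i)) hq)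
    convert this using 1
    ring
  have h3 := (hp.mem_or_mem ((hc _).2 h2)).resolve_left hn
  exact (seg x 1 (1 + i)).add_mem hq ((hc _).1 h3)

theorem Good.le_max (h : Good R x n) (a b : ℕ) (hb : b ≤ n) :
    seg x a b ≤ IsLocalRing.maximalIdeal R := by
  rw [h.max]; exact seg_mono x (Nat.zero_le _) hb

theorem Good.pd_top [IsDomain R] [IsNoetherianRing R] (h : Good R x n) (k : ℕ) (hk : 2 ≤ k)
    (hkn : k ≤ n) : projectiveDimension (ModuleCat.of R (R ⧸ seg x 0 k)) = ⊤ := by
  have hI : seg x 0 2 = Ideal.span {x 1} ⊔ Ideal.span {x 0} := by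
    rw [seg_split x 2 (by omega), seg_one x 1]
  have hc := h.colon 2 le_rfl (by omega)
  rw [seg_one x 1] at hc
  have hp := h.prime 2 le_rfl (by omega)
  have h01 : x 0 ∉ Ideal.span {x 1} := by
    intro h0
    exact hp.ne_top ((Ideal.eq_top_iff_one _).2 ((hc 1).2 (by simpa using h0)))
  have hb : projectiveDimension (ModuleCat.of R (R ⧸ seg x 0 2)) = ⊤ := by
    by_contra hne
    obtain ⟨m, hm⟩ := (projectiveDimension_ne_top_iff _).1 hne
    exact not_pd_base (x 0) (x 1) h01 h.h10 _ hI hc (m + 1) hm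
  have : Nontrivial (R ⧸ seg x 0 2) := Ideal.Quotient.nontrivial_iff.2 hp.ne_top
  obtain ⟨m, rfl⟩ := Nat.exists_eq_add_of_le hk
  have h1 := ModuleCat.projectiveDimension_quotient_eq_add_length_of_isWeaklyRegular
    (ModuleCat.of R (R ⧸ seg x 0 2)) (lst x 2 m) (h.reg_quot 2 m le_rfl hkn) (by
      intro r hr
      exact h.le_max 2 (2 + m) hkn (ofList_lst x 2 m ▸ Ideal.subset_span hr))
  rw [hb] at h1
  have e := qq (seg x 0 2) (Ideal.ofList (lst x 2 m))
  rw [ofList_lst, seg_sup x 0 2 (2 + m) (by omega) (by omega)] at e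
  rw [ofList_lst] at h1
  rw [← projectiveDimension_eq_of_iso e.toModuleIso, h1]
  rfl

theorem Good.dim [IsNoetherianRing R] (h : Good R x n) (k e : ℕ) (hk : 2 ≤ k) (hn : k + e = n) :
    IsRegular (R ⧸ seg x 0 k) (lst x k e) ∧ Module.supportDim R (R ⧸ seg x 0 k) = e := by
  have e1 := qq (seg x 0 k) (Ideal.ofList (lst x k e))
  rw [ofList_lst, seg_sup x 0 k (k + e) (by omega) (by omega), hn, ← h.max] at e1
  have hreg : IsRegular (R ⧸ seg x 0 k) (lst x k e) := by
    refine ⟨h.reg_quot k e hk hn.le, fun htop => ?_⟩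
    rw [ofList_lst, hn] at htop
    have : Subsingleton ((R ⧸ seg x 0 k) ⧸ seg x k n • (⊤ : Submodule R (R ⧸ seg x 0 k))) :=
      Submodule.Quotient.subsingleton_iff.2 htop.symm
    have h2 : Subsingleton (R ⧸ IsLocalRing.maximalIdeal R) := e1.symm.injective.subsingleton
    exact (IsLocalRing.maximalIdeal.isMaximal R).ne_top (Ideal.Quotient.subsingleton_iff.1 h2)
  refine ⟨hreg, ?_⟩
  have h1 := Module.supportDim_add_length_eq_supportDim_of_isRegular _ hreg
  rw [ofList_lst, hn, Module.supportDim_eq_of_equiv e1, Module.supportDim_quotient_eq_ringKrullDim,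
    lst_length] at h1
  have h2 : ringKrullDim (R ⧸ IsLocalRing.maximalIdeal R) = 0 :=
    ringKrullDim_eq_zero_of_isField
      ((Ideal.Quotient.maximal_ideal_iff_isField_quotient _).1 inferInstance)
  rw [← h1, h2, zero_add]

theorem Good.height [IsDomain R] [IsNoetherianRing R] (h : Good R x n) (d : ℕ) (hd : 1 ≤ d)
    (hn : d + 1 ≤ n) : (seg x 0 (d + 1)).height = d := by
  apply le_antisymm
  · have hp := h.prime (d + 1) (by omega) hn
    have hc := h.colon (d + 1) (by omega) hn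
    have hmin : seg x 0 (d + 1) ∈ (Ideal.span (x '' {j | 1 ≤ j ∧ j < d + 1})).minimalPrimes := by
      refine ⟨⟨hp, seg_mono x (Nat.zero_le 1) le_rfl⟩, fun q hq _ => ?_⟩
      rw [seg_split x _ (by omega), sup_le_iff, Ideal.span_singleton_le_iff_mem]
      refine ⟨hq.2, ?_⟩
      have := hq.2 ((hc (x 0)).1 (mem_seg x le_rfl (by omega)))
      exact (hq.1.mem_or_mem this).elim id id
    have hfin : {j | 1 ≤ j ∧ j < d + 1} = (Finset.Ico 1 (d + 1) : Set ℕ) := by
      ext j; simp
    have h2 := Ideal.height_le_card_of_mem_minimalPrimes_span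
      (by rw [hfin]; exact (Finset.finite_toSet _).image x) hmin
    refine h2.trans ?_
    have h3 : (x '' {j | 1 ≤ j ∧ j < d + 1}).ncard ≤ d := by
      rw [hfin]
      refine (Set.ncard_image_le (Finset.finite_toSet _)).trans ?_
      rw [Set.ncard_coe_finset]; simp
    exact_mod_cast h3
  · induction d, hd using Nat.le_induction with
    | base =>
      have hp := h.prime 2 le_rfl hn
      have hlt : (⊥ : Ideal R) < seg x 0 2 := by
        rw [bot_lt_iff_ne_bot]
        intro h0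
        have h1 : x 1 ∈ seg x 0 2 := mem_seg x (by omega) (by omega)
        rw [h0, Ideal.mem_bot] at h1
        exact h.h10 (h1 ▸ Ideal.zero_mem _)
      have := Ideal.height_add_one_le_of_lt_of_isPrime hlt
      simpa using this
    | succ d hd ih =>
      have hp := h.prime (d + 1) (by omega) (by omega)
      have hp' := h.prime (d + 1 + 1) (by omega) hn
      have hlt : seg x 0 (d + 1) < seg x 0 (d + 1 + 1) :=
        lt_of_le_of_ne (seg_mono x le_rfl (by omega)) fun h0 =>
          h.notMem (d + 1) (d + 1) (by omega) le_rfl (by omega)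
            (h0 ▸ mem_seg x (by omega) (by omega))
      have h1 := Ideal.height_add_one_le_of_lt_of_isPrime hlt
      have h2 := ih (by omega)
      calc ((d + 1 : ℕ) : ℕ∞) = (d : ℕ∞) + 1 := by push_cast; rfl
        _ ≤ _ := by gcongr
        _ ≤ _ := h1

theorem Good.cm [IsDomain R] [IsNoetherianRing R] (h : Good R x n) (d e : ℕ) (hd : 1 ≤ d)
    (hn : d + 1 + e = n) : IsCMCod R (R ⧸ seg x 0 (d + 1)) d := by
  have hp := h.prime (d + 1) (by omega) (by omega)
  obtain ⟨hreg, hdim⟩ := h.dim (d + 1) e (by omega) hn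
  refine ⟨Ideal.Quotient.nontrivial_iff.2 hp.ne_top, ?_, ?_⟩
  · rw [hdim]
    have : depth R (R ⧸ seg x 0 (d + 1)) = e := by
      apply le_antisymm
      · refine iSup_le fun rs => iSup_le fun _ => iSup_le fun hrs => ?_
        have h1 := Module.supportDim_add_length_eq_supportDim_of_isRegular _ hrs
        rw [hdim] at h1
        have : Nontrivial ((R ⧸ seg x 0 (d + 1)) ⧸
            Ideal.ofList rs • (⊤ : Submodule R (R ⧸ seg x 0 (d + 1)))) :=
          Submodule.Quotient.nontrivial_iff.2 hrs.2.symm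
        have h2 := Module.supportDim_ne_bot_of_nontrivial R ((R ⧸ seg x 0 (d + 1)) ⧸
            Ideal.ofList rs • (⊤ : Submodule R (R ⧸ seg x 0 (d + 1))))
        obtain ⟨t, ht⟩ := WithBot.ne_bot_iff_exists.1 h2
        rw [← ht] at h1
        have h3 : t + (rs.length : ℕ∞) = e := by exact_mod_cast h1
        rw [← h3]
        exact le_add_self
      · refine le_iSup_of_le (lst x (d + 1) e) (le_iSup_of_le ?_ (le_iSup_of_le hreg ?_))
        · intro r hr
          exact h.le_max (d + 1) (d + 1 + e) hn.le (ofList_lst x (d + 1) e ▸ Ideal.subset_span hr)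
        · rw [lst_length]
    rw [this]; rfl
  · rw [← h.height d hd (by omega)]
    unfold cod
    rw [Module.support_eq_zeroLocus, Ideal.annihilator_quotient]
    apply le_antisymm
    · exact iInf₂_le_of_le ⟨_, hp⟩ (by simp) le_rfl
    · exact le_iInf₂ fun p hp' => Ideal.height_mono (by simpa using hp')

theorem Good.tensor [IsDomain R] (h : Good R x n) (d : ℕ) (hd : 1 ≤ d) (hn : d + 1 ≤ n) :
    Nonempty ((R ⧸ seg x 0 (d + 1)) ≃ₗ[R] ((R ⧸ seg x 0 (d + 1)) ⊗[R]
      Ext (ModuleCat.of R (R ⧸ seg x 0 (d + 1))) (ModuleCat.of R R) d)) := by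
  obtain ⟨e1⟩ := rees (ModuleCat.of R (R ⧸ seg x 0 (d + 1))) (lst x 1 d) (ModuleCat.of R R)
    (by
      intro r hr
      change r ∈ Module.annihilator R (R ⧸ seg x 0 (d + 1))
      rw [Ideal.annihilator_quotient]
      have h1 : r ∈ seg x 1 (1 + d) := ofList_lst x 1 d ▸ Ideal.subset_span hr
      exact seg_mono x (Nat.zero_le 1) (by omega) h1)
    (h.reg_self d (by omega))
  rw [lst_length] at e1
  have e2 : (R ⧸ Ideal.ofList (lst x 1 d) • (⊤ : Submodule R R)) ≃ₗ[R] (R ⧸ seg x 1 (d + 1)) :=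
    Submodule.quotEquivOfEq _ _ (by rw [ofList_lst, smul_eq_mul, Ideal.mul_top, add_comm])
  obtain ⟨e3⟩ := hom_equiv (seg x 0 (d + 1)) (seg x 1 (d + 1)) (x 0) (seg_split x _ (by omega))
    (h.colon (d + 1) (by omega) hn)
  have e4 := e1 ≪≫ₗ LinearEquiv.congrRight e2 ≪≫ₗ e3.symm
  have e5 := qq (seg x 0 (d + 1)) (seg x 0 (d + 1))
  rw [sup_idem] at e5
  exact ⟨(LinearEquiv.lTensor _ e4 ≪≫ₗ TensorProduct.quotTensorEquivQuotSMul _ _ ≪≫ₗ e5).symm⟩

end Pool.Agent.H79.HW
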