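import Mathlib
import Pool.Agent.H79.HW2
import Pool.Agent.H79.Depth

set_option autoImplicit false
set_option linter.unusedSectionVars false

namespace Pool.Agent.H79.HW

open MvPolynomial Pool.Agent.H79.Depth

theorem seg_map {S T : Type} [CommRing S] [CommRing T] (φ : S →+* T) (y : ℕ → S) (a b : ℕ) :
    seg (fun j => φ (y j)) a b = (seg y a b).map φ := by
  unfold seg
  rw [Ideal.map_span, Set.image_image]

/-- passing to the cusp hypersurface -/
theorem good_quot {S : Type} [CommRing S] [IsLocalRing S] (y : ℕ → S) (n : ℕ) (hn : 2 ≤ n)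
    (hp : ∀ a b, b ≤ n → (seg y a b).IsPrime)
    (hm : ∀ a b i, b ≤ n → i < n → ¬ (a ≤ i ∧ i < b) → y i ∉ seg y a b)
    (hmax : IsLocalRing.maximalIdeal S = seg y 0 n) (f : S) (hf : f = y 0 ^ 2 - y 1 ^ 3)
    [IsLocalRing (S ⧸ Ideal.span {f})] :
    Good (S ⧸ Ideal.span {f}) (fun j => Ideal.Quotient.mk _ (y j)) n := by
  have hle : ∀ k, 2 ≤ k → Ideal.span {f} ≤ seg y 0 k := by
    intro k hk
    rw [Ideal.span_singleton_le_iff_mem, hf]
    exact Ideal.sub_mem _ (Ideal.pow_mem_of_mem _ (mem_seg y le_rfl (by omega)) _ (by norm_num))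
      (Ideal.pow_mem_of_mem _ (mem_seg y (by omega) (by omega)) _ (by norm_num))
  have hmem : ∀ k, 2 ≤ k → ∀ u : S, Ideal.Quotient.mk (Ideal.span {f}) u ∈
      seg (fun j => Ideal.Quotient.mk (Ideal.span {f}) (y j)) 0 k ↔ u ∈ seg y 0 k := by
    intro k hk u
    rw [seg_map, Ideal.mem_quotient_iff_mem_sup, sup_eq_left.2 (hle k hk)]
  refine ⟨fun k hk hkn => ?_, fun k i hk hki hi => ?_, fun k hk hkn u => ?_, ?_, ?_⟩
  · rw [seg_map]
    have := hp 0 k hkn
    exact Ideal.map_isPrime_of_surjective Ideal.Quotient.mk_surjective (by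
      rw [Ideal.mk_ker]; exact hle k hk)
  · rw [hmem k hk]
    exact hm 0 k i (by omega) hi (by omega)
  · obtain ⟨u, rfl⟩ := Ideal.Quotient.mk_surjective u
    have h1 : y 1 ∈ seg y 1 k := mem_seg y le_rfl (by omega)
    rw [hmem k hk, seg_map, ← map_mul, Ideal.mem_quotient_iff_mem_sup, seg_split y k (by omega)]
    constructor
    · intro hu
      obtain ⟨q, hq, z, hz, rfl⟩ := Submodule.mem_sup.1 hu
      obtain ⟨w, rfl⟩ := Ideal.mem_span_singleton'.1 hz
      have : (q + w * y 0) * y 0 = (q * y 0 + (w * y 1 ^ 2) * y 1) + w * f := by rw [hf]; ring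
      rw [this]
      exact Submodule.add_mem_sup (Ideal.add_mem _ (Ideal.mul_mem_right _ _ hq)
        (Ideal.mul_mem_left _ _ h1)) (Ideal.mem_span_singleton'.2 ⟨w, rfl⟩)
    · intro hu
      obtain ⟨q, hq, z, hz, h2⟩ := Submodule.mem_sup.1 hu
      obtain ⟨w, rfl⟩ := Ideal.mem_span_singleton'.1 hz
      have h3 : y 0 * (u - w * y 0) ∈ seg y 1 k := by
        have : y 0 * (u - w * y 0) = q - (w * y 1 ^ 2) * y 1 := by
          rw [hf] at h2; linear_combination -h2
        rw [this]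
        exact Ideal.sub_mem _ hq (Ideal.mul_mem_left _ _ h1)
      have h4 := ((hp 1 k hkn).mem_or_mem h3).resolve_left (hm 1 k 0 hkn (by omega) (by omega))
      have : u = (u - w * y 0) + w * y 0 := by ring
      rw [this]
      exact Submodule.add_mem_sup h4 (Ideal.mem_span_singleton'.2 ⟨w, rfl⟩)
  · rw [seg_map, ← hmax]
    exact (IsLocalRing.map_maximalIdeal_of_surjective _ Ideal.Quotient.mk_surjective).symm
  · intro h
    rw [← seg_one (fun j => Ideal.Quotient.mk (Ideal.span {f}) (y j)) 0, seg_map,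
      Ideal.mem_quotient_iff_mem_sup] at h
    obtain ⟨q, hq, z, hz, h2⟩ := Submodule.mem_sup.1 h
    obtain ⟨w, rfl⟩ := Ideal.mem_span_singleton'.1 hz
    have h0 : y 0 ∈ seg y 0 (0 + 1) := mem_seg y le_rfl (by omega)
    have h3 : y 1 * (1 + w * y 1 ^ 2) ∈ seg y 0 (0 + 1) := by
      have : y 1 * (1 + w * y 1 ^ 2) = q + (w * y 0) * y 0 := by
        rw [hf] at h2; linear_combination -h2
      rw [this]
      exact Ideal.add_mem _ hq (Ideal.mul_mem_left _ _ h0)
    have h4 := ((hp 0 (0 + 1) (by omega)).mem_or_mem h3).resolve_left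
      (hm 0 (0 + 1) 1 (by omega) (by omega) (by omega))
    have h5 : 1 + w * y 1 ^ 2 ∈ seg y 0 n := seg_mono y le_rfl (by omega) h4
    have h6 : w * y 1 ^ 2 ∈ seg y 0 n := Ideal.mul_mem_left _ _
      (Ideal.pow_mem_of_mem _ (mem_seg y (by omega) (by omega)) _ (by norm_num))
    have h7 := Ideal.sub_mem _ h5 h6
    rw [add_sub_cancel_right, ← hmax] at h7
    exact (IsLocalRing.maximalIdeal.isMaximal S).ne_top ((Ideal.eq_top_iff_one _).2 h7)

variable {K : Type} [Field K]

theorem cusp_prime (m : ℕ) :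
    Prime (X 0 ^ 2 - X 1 ^ 3 : MvPolynomial (Fin (m + 2)) K) := by
  rw [← MulEquiv.prime_iff (finSuccEquiv K (m + 1))]
  have h1 : finSuccEquiv K (m + 1) (X 0 ^ 2 - X 1 ^ 3) =
      Polynomial.X ^ 2 - Polynomial.C (X 0 ^ 3) := by
    have : (X 1 : MvPolynomial (Fin (m + 2)) K) = X (Fin.succ 0) := rfl
    rw [map_sub, map_pow, map_pow, finSuccEquiv_X_zero, this, finSuccEquiv_X_succ, map_pow]
  rw [h1]
  apply Irreducible.prime
  have hd : (Polynomial.X ^ 2 - Polynomial.C (X 0 ^ 3 : MvPolynomial (Fin (m + 1)) K)).natDegree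
      = 2 := Polynomial.natDegree_X_pow_sub_C
  rw [(Polynomial.monic_X_pow_sub_C _ (by norm_num)).irreducible_iff_roots_eq_zero_of_degree_le_three
    (by omega) (by omega)]
  apply Multiset.eq_zero_of_forall_notMem
  intro a ha
  have h2 := (Polynomial.mem_roots (Polynomial.X_pow_sub_C_ne_zero (by norm_num) _)).1 ha
  simp only [Polynomial.IsRoot.def, Polynomial.eval_sub, Polynomial.eval_pow, Polynomial.eval_X,
    Polynomial.eval_C, sub_eq_zero] at h2
  have ha0 : a ≠ 0 := by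
    rintro rfl
    exact pow_ne_zero 3 (X_ne_zero (R := K) (0 : Fin (m + 1))) (by simpa using h2.symm)
  have h3 := congrArg (degreeOf 0) h2
  rw [degreeOf_pow_eq _ _ _ ha0, degreeOf_pow_eq _ _ _ (X_ne_zero _), degreeOf_X_self] at h3
  omega

/-- the origin -/
noncomputable def org (K : Type) [Field K] (n : ℕ) : Ideal (MvPolynomial (Fin n) K) :=
  Ideal.span (Set.range X)

instance (n : ℕ) : (org K n).IsMaximal := vars_maximal

/-- coordinates in the local ring of the origin -/
noncomputable def yy (K : Type) [Field K] (n : ℕ) (j : ℕ) : Localization.AtPrime (org K n) :=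
  if h : j < n then algebraMap (MvPolynomial (Fin n) K) _ (X ⟨j, h⟩) else 0

theorem seg_yy (n a b : ℕ) (hb : b ≤ n) : seg (yy K n) a b =
    (Ideal.span (X '' {i : Fin n | a ≤ i.1 ∧ i.1 < b})).map
      (algebraMap (MvPolynomial (Fin n) K) (Localization.AtPrime (org K n))) := by
  unfold seg
  rw [Ideal.map_span, Set.image_image]
  congr 1
  ext r
  constructor
  · rintro ⟨j, hj, rfl⟩
    have : j < n := hj.2.trans_le hb
    exact ⟨⟨j, this⟩, hj, by simp [yy, this]⟩
  · rintro ⟨i, hi, rfl⟩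
    exact ⟨i.1, hi, by simp [yy]⟩

theorem disj (n : ℕ) (I : Ideal (MvPolynomial (Fin n) K)) (h : I ≤ org K n) :
    Disjoint ((org K n).primeCompl : Set (MvPolynomial (Fin n) K)) I :=
  Set.disjoint_left.2 fun _ h1 h2 => h1 (h h2)

theorem vars_le (n : ℕ) (τ : Set (Fin n)) :
    Ideal.span (X '' τ : Set (MvPolynomial (Fin n) K)) ≤ org K n :=
  Ideal.span_mono (Set.image_subset_range _ _)

theorem yy_prime (n a b : ℕ) (hb : b ≤ n) : (seg (yy K n) a b).IsPrime := by
  rw [seg_yy n a b hb]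
  exact IsLocalization.isPrime_of_isPrime_disjoint _ _ _ (varIdeal_prime _)
    (disj n _ (vars_le n _))

theorem yy_notMem (n a b i : ℕ) (hb : b ≤ n) (hi : i < n) (h : ¬ (a ≤ i ∧ i < b)) :
    yy K n i ∉ seg (yy K n) a b := by
  classical
  rw [seg_yy n a b hb]
  intro h0
  have h1 : (X ⟨i, hi⟩ : MvPolynomial (Fin n) K) ∈
      Ideal.span (X '' {i : Fin n | a ≤ i.1 ∧ i.1 < b}) := by
    rw [← IsLocalization.under_map_of_isPrime_disjoint (org K n).primeCompl
      (Localization.AtPrime (org K n)) (varIdeal_prime _) (disj n _ (vars_le n _))]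
    simpa [yy, hi] using h0
  rw [mem_ideal_span_X_image] at h1
  obtain ⟨j, hj, h2⟩ := h1 (Finsupp.single ⟨i, hi⟩ 1) (by simp [support_X])
  have : (⟨i, hi⟩ : Fin n) ≠ j := by rintro rfl; exact h hj
  exact h2 (Finsupp.single_eq_of_ne' this)

theorem yy_max (n : ℕ) :
    IsLocalRing.maximalIdeal (Localization.AtPrime (org K n)) = seg (yy K n) 0 n := by
  rw [seg_yy n 0 n le_rfl, ← Localization.AtPrime.map_eq_maximalIdeal]
  congr 1
  unfold org
  congr 1
  ext r
  simp

theorem cusp_loc (m : ℕ) :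
    (Ideal.span {yy K (m + 2) 0 ^ 2 - yy K (m + 2) 1 ^ 3}).IsPrime ∧
      yy K (m + 2) 0 ^ 2 - yy K (m + 2) 1 ^ 3 ≠ 0 := by
  have h1 : yy K (m + 2) 0 ^ 2 - yy K (m + 2) 1 ^ 3 =
      algebraMap (MvPolynomial (Fin (m + 2)) K) _ (X 0 ^ 2 - X 1 ^ 3) := by
    simp [yy]
  have hp := cusp_prime (K := K) m
  rw [h1]
  constructor
  · rw [← Set.image_singleton, ← Ideal.map_span]
    refine IsLocalization.isPrime_of_isPrime_disjoint _ _ _
      ((Ideal.span_singleton_prime hp.ne_zero).2 hp) (disj _ _ ?_)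
    rw [Ideal.span_singleton_le_iff_mem]
    exact Ideal.sub_mem _
      (Ideal.pow_mem_of_mem _ (Ideal.subset_span (Set.mem_range_self 0)) _ (by norm_num))
      (Ideal.pow_mem_of_mem _ (Ideal.subset_span (Set.mem_range_self 1)) _ (by norm_num))
  · intro h0
    exact hp.ne_zero (IsLocalization.injective (Localization.AtPrime (org K (m + 2)))
      (org K (m + 2)).primeCompl_le_nonZeroDivisors (by rw [h0, map_zero]))

end Pool.Agent.H79.HW
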