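import Mathlib

set_option autoImplicit false

namespace Pool.Agent.H79.Hensel
open MvPolynomial Finset

variable {A V Q : Type} [CommRing A]

theorem eval_congr (c : A) (a b : V → A) (h : ∀ v, c ∣ a v - b v) (f : MvPolynomial V A) :
    c ∣ eval a f - eval b f := by
  induction f using MvPolynomial.induction_on with
  | C r => simp
  | add f g hf hg =>
    have := hf.add hg
    simp only [map_add]; convert this using 1; ring
  | mul_X f i hf =>
    have := (hf.mul_right (a i)).add ((h i).mul_left (eval b f))
    simp only [map_mul, eval_X]; convert this using 1; ring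

theorem taylor [Fintype V] [DecidableEq V] (π : A) (x1 a b : V → A) (n : ℕ)
    (ha : ∀ v, π ∣ a v - x1 v) (hb : ∀ v, π ∣ b v - x1 v) (hab : ∀ v, π ^ n ∣ a v - b v)
    (f : MvPolynomial V A) :
    π ^ (n + 1) ∣ eval a f - eval b f - ∑ v, eval x1 (pderiv v f) * (a v - b v) := by
  induction f using MvPolynomial.induction_on with
  | C r => simp
  | add f g hf hg =>
    have := hf.add hg
    simp only [map_add, add_mul, sum_add_distrib]; convert this using 1; ring
  | mul_X f i hf =>
    have h1 : π ^ n ∣ ∑ v, eval x1 (pderiv v f) * (a v - b v) :=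
      Finset.dvd_sum fun v _ => (hab v).mul_left _
    have h2 := mul_dvd_mul h1 (ha i)
    have h3 := mul_dvd_mul (hab i) (eval_congr π b x1 hb f)
    rw [← pow_succ] at h2 h3
    have h4 : ∑ v, eval x1 (pderiv v (f * X i)) * (a v - b v) =
        (∑ v, eval x1 (pderiv v f) * (a v - b v)) * x1 i + eval x1 f * (a i - b i) := by
      simp only [Derivation.leibniz, smul_eq_mul, map_add, map_mul, eval_X, add_mul,
        sum_add_distrib, Finset.sum_mul]
      rw [add_comm]
      congr 1
      · exact sum_congr rfl fun v _ => by ring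
      · rw [Finset.sum_eq_single i]
        · simp
        · intro v _ hv
          simp [pderiv_X, hv.symm]
        · simp
    rw [h4]
    have := ((hf.mul_right (a i)).add h2).add h3
    simp only [map_mul, eval_X]; convert this using 1; ring

theorem hensel [Fintype V] [DecidableEq V] [Fintype Q] [DecidableEq Q] (π : A)
    [hc : IsAdicComplete (Ideal.span {π}) A] (Φ : Q → MvPolynomial V A) (x1 : V → A)
    (R : V → Q → A)
    (hJ : ∀ q q', π ∣ ∑ v, eval x1 (pderiv v (Φ q)) * R v q' - if q = q' then 1 else 0)
    (m : ℕ) (h0 : ∀ q, π ^ (m + 1) ∣ eval x1 (Φ q)) :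
    ∃ x : V → A, (∀ v, π ^ (m + 1) ∣ x v - x1 v) ∧ ∀ q, eval x (Φ q) = 0 := by
  let T : (V → A) → V → A := fun x v => x v - ∑ q, R v q * eval x (Φ q)
  let y : ℕ → V → A := fun n => T^[n] x1
  have hy : ∀ n, y (n + 1) = T (y n) := fun n => Function.iterate_succ_apply' T n x1
  have key : ∀ n, (∀ v, π ^ (m + 1) ∣ y n v - x1 v) ∧ ∀ q, π ^ (m + 1 + n) ∣ eval (y n) (Φ q) := by
    intro n
    induction n with
    | zero => exact ⟨fun v => by simp [y], h0⟩
    | succ n ih =>
      have hd : ∀ v, π ^ (m + 1 + n) ∣ T (y n) v - y n v := fun v => by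
        have : T (y n) v - y n v = -∑ q, R v q * eval (y n) (Φ q) := by simp [T]
        rw [this]
        exact (Finset.dvd_sum fun q _ => (ih.2 q).mul_left _).neg_right
      have h1 : ∀ v, π ^ (m + 1) ∣ T (y n) v - x1 v := fun v => by
        have := ((pow_dvd_pow π (Nat.le_add_right (m + 1) n)).trans (hd v)).add (ih.1 v)
        convert this using 1; ring
      have hπ : π ∣ π ^ (m + 1) := dvd_pow_self π (by omega)
      rw [hy]
      refine ⟨h1, fun q => ?_⟩
      have h2 := taylor π x1 (T (y n)) (y n) (m + 1 + n) (fun v => hπ.trans (h1 v))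
        (fun v => hπ.trans (ih.1 v)) hd (Φ q)
      have h3 : π ^ (m + 1 + n + 1) ∣ ∑ q', eval (y n) (Φ q') *
          (∑ v, eval x1 (pderiv v (Φ q)) * R v q' - if q = q' then 1 else 0) :=
        Finset.dvd_sum fun q' _ => by rw [pow_succ]; exact mul_dvd_mul (ih.2 q') (hJ q q')
      have h4 : ∑ q', eval (y n) (Φ q') *
          (∑ v, eval x1 (pderiv v (Φ q)) * R v q' - if q = q' then 1 else 0) =
          -(∑ v, eval x1 (pderiv v (Φ q)) * (T (y n) v - y n v)) - eval (y n) (Φ q) := by
        simp only [T, mul_sub, sum_sub_distrib, sub_sub_cancel_left, mul_neg, sum_neg_distrib,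
          neg_neg, Finset.mul_sum, mul_ite, mul_one, mul_zero, sum_ite_eq, mem_univ, if_true]
        rw [sum_comm]
        congr 1
        exact sum_congr rfl fun v _ => sum_congr rfl fun q' _ => by ring
      rw [h4] at h3
      have := h2.sub h3
      rw [← add_assoc]
      convert this using 1; ring
  have hstep : ∀ n v, π ^ n ∣ y (n + 1) v - y n v := fun n v => by
    have : y (n + 1) v - y n v = -∑ q, R v q * eval (y n) (Φ q) := by rw [hy]; simp [T]
    rw [this]
    exact (Finset.dvd_sum fun q _ => ((pow_dvd_pow π (by omega)).trans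
      ((key n).2 q)).mul_left _).neg_right
  have hsm : ∀ (n : ℕ) (a b : A), (a ≡ b [SMOD ((Ideal.span {π}) ^ n • ⊤ : Submodule A A)]) ↔
      π ^ n ∣ a - b := fun n a b => by
    rw [SModEq.sub_mem, Ideal.span_singleton_pow, smul_eq_mul, Ideal.mul_top,
      Ideal.mem_span_singleton]
  have hcau : ∀ v {a b : ℕ}, a ≤ b → π ^ a ∣ y a v - y b v := by
    intro v a b hab
    induction b, hab using Nat.le_induction with
    | base => simp
    | succ b hab ih =>
      have := ih.sub ((pow_dvd_pow π hab).trans (hstep b v))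
      convert this using 1; ring
  have hlim : ∀ v, ∃ L, ∀ n, π ^ n ∣ y n v - L := fun v => by
    obtain ⟨L, hL⟩ := hc.toIsPrecomplete.prec (f := fun n => y n v)
      (fun {a b} hab => (hsm _ _ _).2 (hcau v hab))
    exact ⟨L, fun n => (hsm _ _ _).1 (hL n)⟩
  choose L hL using hlim
  refine ⟨L, fun v => ?_, fun q => ?_⟩
  · have := ((key (m + 1)).1 v).sub (hL v (m + 1))
    convert this using 1; ring
  · refine hc.toIsHausdorff.haus _ fun n => (hsm _ _ _).2 ?_
    have := ((pow_dvd_pow π (by omega : n ≤ m + 1 + n)).trans ((key n).2 q)).sub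
      (eval_congr (π ^ n) (y n) L (fun v => hL v n) (Φ q))
    convert this using 1; ring

/-- dot product of lists -/
def dot : List ℕ → List ℕ → ℕ
  | a :: l, b :: l' => a * b + dot l l'
  | _, _ => 0

theorem dot_eq (l l' : List ℕ) (n : ℕ) (h : l.length ≤ n) :
    dot l l' = ∑ i ∈ range n, l.getD i 0 * l'.getD i 0 := by
  induction l generalizing l' n with
  | nil => simp [dot]
  | cons a l ih =>
    cases l' with
    | nil => simp [dot]
    | cons b l' =>
      obtain ⟨n, rfl⟩ : ∃ k, n = k + 1 := ⟨n - 1, by simp at h; omega⟩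
      rw [dot, ih l' n (by simpa using h), sum_range_succ', add_comm]
      simp

/-- digit `l` of `z` in base `B` -/
def dig (B z l : ℕ) : ℕ := z / B ^ l % B

/-- the first `n` digits are below `D` -/
def small (B D : ℕ) : ℕ → ℕ → Bool
  | 0, _ => true
  | n + 1, z => Nat.blt (z % B) D && small B D n (z / B)

theorem dig_succ (B z l : ℕ) : dig B z (l + 1) = dig B (z / B) l := by
  simp [dig, pow_succ', Nat.div_div_eq_div_mul]

theorem small_spec {B D n z : ℕ} (h : small B D n z = true) : ∀ l < n, dig B z l < D := by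
  induction n generalizing z with
  | zero => simp
  | succ n ih =>
    simp only [small, Bool.and_eq_true, Nat.blt_eq] at h
    intro l hl
    cases l with
    | zero => simpa [dig] using h.1
    | succ l => rw [dig_succ]; exact ih h.2 l (by omega)

/-- digit `l` is `c` mod `M` for `l = q` and `0` otherwise -/
def rowOK (B M c q : ℕ) : ℕ → ℕ → ℕ → Bool
  | 0, _, _ => true
  | n + 1, s, z => Nat.beq (z % B % M) (cond (Nat.beq s q) c 0) && rowOK B M c q n (s + 1) (z / B)

theorem rowOK_spec {B M c q n s z : ℕ} (h : rowOK B M c q n s z = true) :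
    ∀ l < n, dig B z l % M = if s + l = q then c else 0 := by
  induction n generalizing z s with
  | zero => simp
  | succ n ih =>
    simp only [rowOK, Bool.and_eq_true, Nat.beq_eq] at h
    intro l hl
    cases l with
    | zero =>
      have := h.1
      by_cases hs : s = q
      · simpa [dig, hs] using this
      · have h' : Nat.beq s q = false := by
          rw [Bool.eq_false_iff]; intro h''; exact hs (Nat.eq_of_beq_eq_true h'')
        simpa [dig, hs, h'] using this
    | succ l => rw [dig_succ, ih h.2 l (by omega), show s + 1 + l = s + (l + 1) by omega]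

theorem dig_sum {ι : Type} (s : Finset ι) (a z : ι → ℕ) (B D n : ℕ)
    (hz : ∀ i ∈ s, ∀ l < n, dig B (z i) l < D) (ha : (∑ i ∈ s, a i) * D < B) :
    ∀ l < n, dig B (∑ i ∈ s, a i * z i) l = ∑ i ∈ s, a i * dig B (z i) l := by
  induction n generalizing z with
  | zero => simp
  | succ n ih =>
    have h1 : ∑ i ∈ s, a i * (z i % B) < B := by
      refine lt_of_le_of_lt ?_ ha
      rw [Finset.sum_mul]
      exact sum_le_sum fun i hi => Nat.mul_le_mul_left _
        (by simpa [dig] using (hz i hi 0 (by omega)).le)
    have h2 : ∑ i ∈ s, a i * z i = ∑ i ∈ s, a i * (z i % B) + B * ∑ i ∈ s, a i * (z i / B) := by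
      rw [Finset.mul_sum, ← sum_add_distrib]
      exact sum_congr rfl fun i _ => by
        conv_lhs => rw [← Nat.mod_add_div (z i) B]
        ring
    have hB : 0 < B := by omega
    intro l hl
    cases l with
    | zero =>
      simp only [dig, pow_zero, Nat.div_one]
      rw [h2, Nat.add_mul_mod_self_left, Nat.mod_eq_of_lt h1]
    | succ l =>
      simp only [dig_succ]
      rw [h2, Nat.add_mul_div_left _ _ hB, Nat.div_eq_of_lt h1, zero_add]
      exact ih (fun i => z i / B) (fun i hi l hl => by
        rw [← dig_succ]; exact hz i hi _ (by omega)) l (by omega)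

end Pool.Agent.H79.Hensel
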