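import Mathlib

/-! Hopf structure from an anti-homomorphism on generators; characteristic two helpers. -/

set_option autoImplicit false

namespace Pool.Agent.H79.HopfKit

open TensorProduct Coalgebra

variable {k : Type} [Field k]

/-- the antipode identities are inherited by products -/
def Anti {B : Type} [Ring B] [Bialgebra k B] (S : B →ₐ[k] Bᵐᵒᵖ) (b : B) : Prop :=
  LinearMap.mul' k B (((MulOpposite.opLinearEquiv k).symm.toLinearMap ∘ₗ S.toLinearMap).rTensor B
    (comul b)) = algebraMap k B (counit b) ∧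
  LinearMap.mul' k B (((MulOpposite.opLinearEquiv k).symm.toLinearMap ∘ₗ S.toLinearMap).lTensor B
    (comul b)) = algebraMap k B (counit b)

lemma Anti.mul {B : Type} [Ring B] [Bialgebra k B] {S : B →ₐ[k] Bᵐᵒᵖ} {a b : B} (ha : Anti S a)
    (hb : Anti S b) : Anti S (a * b) := by
  set T := (MulOpposite.opLinearEquiv k).symm.toLinearMap ∘ₗ S.toLinearMap with hT
  have hm : ∀ u v, T (u * v) = T v * T u := fun u v => by simp [hT]
  have h1 : ∀ (s t : B ⊗[k] B) (c : k), LinearMap.mul' k B (T.rTensor B s) = algebraMap k B c →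
      LinearMap.mul' k B (T.rTensor B (s * t)) = c • LinearMap.mul' k B (T.rTensor B t) := by
    intro s t c hs
    induction t with
    | zero => simp
    | add t₁ t₂ i₁ i₂ => simp only [mul_add, map_add, i₁, i₂, smul_add]
    | tmul u v =>
      have : ∀ s : B ⊗[k] B, LinearMap.mul' k B (T.rTensor B (s * u ⊗ₜ v)) =
          T u * LinearMap.mul' k B (T.rTensor B s) * v := fun s => by
        induction s with
        | zero => simp
        | add s₁ s₂ i₁ i₂ => simp only [add_mul, map_add, i₁, i₂, mul_add]
        | tmul p q => simp [hm, mul_assoc]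
      rw [this, hs, ← Algebra.commutes, mul_assoc, ← Algebra.smul_def]; simp
  have h2 : ∀ (s t : B ⊗[k] B) (c : k), LinearMap.mul' k B (T.lTensor B t) = algebraMap k B c →
      LinearMap.mul' k B (T.lTensor B (s * t)) = c • LinearMap.mul' k B (T.lTensor B s) := by
    intro s t c ht
    induction s with
    | zero => simp
    | add t₁ t₂ i₁ i₂ => simp only [add_mul, map_add, i₁, i₂, smul_add]
    | tmul u v =>
      have : ∀ t : B ⊗[k] B, LinearMap.mul' k B (T.lTensor B (u ⊗ₜ v * t)) =
          u * LinearMap.mul' k B (T.lTensor B t) * T v := fun t => by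
        induction t with
        | zero => simp
        | add s₁ s₂ i₁ i₂ => simp only [add_mul, map_add, i₁, i₂, mul_add]
        | tmul p q => simp [hm, mul_assoc]
      rw [this, ht, ← Algebra.commutes, mul_assoc, ← Algebra.smul_def]; simp
  constructor
  · rw [Bialgebra.comul_mul, h1 _ _ _ ha.1, hb.1, Bialgebra.counit_mul, map_mul, Algebra.smul_def]
  · rw [Bialgebra.comul_mul, h2 _ _ _ hb.2, ha.2, Bialgebra.counit_mul, mul_comm (counit a), map_mul,
      Algebra.smul_def]

/-- Hopf structure from an anti-homomorphism that works on generators -/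
noncomputable abbrev hopf {B : Type} [Ring B] [Bialgebra k B] (S : B →ₐ[k] Bᵐᵒᵖ) (s : Set B)
    (hs : Algebra.adjoin k s = ⊤) (h : ∀ b ∈ s, Anti S b) : HopfAlgebra k B :=
  have key : ∀ b, Anti S b := fun b => by
    have hb : b ∈ Algebra.adjoin k s := hs ▸ trivial
    induction hb using Algebra.adjoin_induction with
    | mem x hx => exact h x hx
    | algebraMap r =>
      simp [Anti, Algebra.algebraMap_eq_smul_one, Algebra.TensorProduct.one_def]
    | add x y _ _ h1 h2 => exact ⟨by simp only [map_add, h1.1, h2.1], by simp only [map_add, h1.2, h2.2]⟩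
    | mul x y _ _ h1 h2 => exact h1.mul h2
  { antipode := (MulOpposite.opLinearEquiv k).symm.toLinearMap ∘ₗ S.toLinearMap
    mul_antipode_rTensor_comul := LinearMap.ext fun b => (key b).1
    mul_antipode_lTensor_comul := LinearMap.ext fun b => (key b).2 }

variable [CharP k 2]

lemma two0 {B : Type} [AddCommGroup B] [Module k B] (b : B) : b + b = 0 := by
  rw [← two_smul k b, show (2 : k) = 0 from CharTwo.two_eq_zero, zero_smul]

lemma sq_add {B : Type} [Ring B] [Algebra k B] {a b : B} (h : Commute a b) :
    (a + b) ^ 2 = a ^ 2 + b ^ 2 := by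
  rw [sq, add_mul, mul_add, mul_add, ← h.eq, add_assoc, ← add_assoc (a * b), two0 (k := k), zero_add,
    sq, sq]

lemma prim_sq {B : Type} [Ring B] [Algebra k B] (x : B) :
    (x ⊗ₜ[k] (1 : B) + (1 : B) ⊗ₜ[k] x) ^ 2 = (x ^ 2) ⊗ₜ[k] (1 : B) + (1 : B) ⊗ₜ[k] (x ^ 2) := by
  rw [sq_add (k := k)]
  · simp
  · simp [Commute, SemiconjBy]

end Pool.Agent.H79.HopfKit
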