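import Mathlib

set_option autoImplicit false

namespace Pool.Agent.H79.JT

open IsLocalRing

/-- `P` is the Jordan type of `f`: there is a basis made of Jordan strings of `f`, and `P` is the
multiset of their lengths. -/
def IsJordanType {k V : Type} [Field k] [AddCommGroup V] [Module k V] (f : V →ₗ[k] V)
    (P : Multiset ℕ) : Prop :=
  ∃ (n : ℕ) (p : Fin n → ℕ) (b : Module.Basis (Σ i, Fin (p i)) k V), (∀ i, 0 < p i) ∧
    P = Finset.univ.val.map p ∧
    ∀ (i : Fin n) (s : Fin (p i)),
      f (b ⟨i, s⟩) = if h : s.1 + 1 < p i then b ⟨i, ⟨s.1 + 1, h⟩⟩ else 0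

/-- The sum of the `n` largest parts of `P`. -/
def topSum (n : ℕ) (P : Multiset ℕ) : ℕ := ((P.sort (· ≥ ·)).take n).sum

/-- The dominance order on partitions, written as multisets of parts. -/
def Dominates (P Q : Multiset ℕ) : Prop := P.sum = Q.sum ∧ ∀ n, topSum n Q ≤ topSum n P

/-- The triples `(t, a, b)` such that the columns `a, …, b` form a maximal run of consecutive
columns in row `t ≥ 1` of the bar graph of `H`; `N` bounds the width and the height of the graph. -/
def runs (H : ℕ → ℕ) (N : ℕ) : Finset (ℕ × ℕ × ℕ) :=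
  (Finset.Icc 1 N ×ˢ Finset.range N ×ˢ Finset.range N).filter fun x =>
    x.2.1 ≤ x.2.2 ∧ (∀ i ∈ Finset.Icc x.2.1 x.2.2, x.1 ≤ H i) ∧
      (x.2.1 = 0 ∨ H (x.2.1 - 1) < x.1) ∧ H (x.2.2 + 1) < x.1

/-- The contiguous partition: the lengths of all maximal runs in all rows. -/
def contig (H : ℕ → ℕ) (N : ℕ) : Multiset ℕ :=
  (runs H N).val.map fun x => x.2.2 + 1 - x.2.1

/-- `H` weakly increases and then weakly decreases. -/
def Unimodal (H : ℕ → ℕ) : Prop :=
  ∃ p, (∀ i < p, H i ≤ H (i + 1)) ∧ ∀ i, p ≤ i → H (i + 1) ≤ H i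

/-- The `i`-th power of the maximal ideal, as a vector space. -/
noncomputable def mpow (k A : Type) [Field k] [CommRing A] [Algebra k A] [IsLocalRing A] (i : ℕ) :
    Submodule k A := (maximalIdeal A ^ i).restrictScalars k

/-- The Hilbert function `h_i = dim_k m^i / m^(i+1)`. -/
noncomputable def hilb (k A : Type) [Field k] [CommRing A] [Algebra k A] [IsLocalRing A] (i : ℕ) :
    ℕ := Module.finrank k (mpow k A i ⧸ (mpow k A (i + 1)).submoduleOf (mpow k A i))

/-- The contiguous partition `P_c(H(A))`.  All `h_i` are at most `dim A` and vanish for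
`i ≥ dim A`. -/
noncomputable def contigA (k A : Type) [Field k] [CommRing A] [Algebra k A] [IsLocalRing A] :
    Multiset ℕ := contig (hilb k A) (Module.finrank k A)

example : contig (fun i => [1, 3, 5, 2, 3].getD i 0) 6 = {5, 4, 2, 1, 1, 1} := by decide

end Pool.Agent.H79.JT
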