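import Mathlib
import Pool.Agent.H79.JTDefs

set_option autoImplicit false

namespace Pool.Agent.H79.JT

open IsLocalRing Module

theorem sum_le_take : ∀ (l : List ℕ), l.Pairwise (· ≥ ·) → ∀ (n : ℕ) (S : Multiset ℕ),
    S ≤ (l : Multiset ℕ) → S.card ≤ n → S.sum ≤ (l.take n).sum
  | [], _, _, S, h, _ => by
    have : S = 0 := by simpa using h
    simp [this]
  | x :: l, hl, 0, S, _, h => by
    have : S = 0 := by simpa using h
    simp [this]
  | x :: l, hl, n + 1, S, h, hc => by
    rw [List.pairwise_cons] at hl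
    rw [List.take_succ_cons, List.sum_cons]
    rw [← Multiset.cons_coe] at h
    by_cases hx : x ∈ S
    · obtain ⟨S', rfl⟩ := Multiset.exists_cons_of_mem hx
      have := sum_le_take l hl.2 n S' ((Multiset.cons_le_cons_iff x).1 h) (by simpa using hc)
      rw [Multiset.sum_cons]; omega
    · have h1 : S ≤ (l : Multiset ℕ) := (Multiset.le_cons_of_notMem hx).1 h
      by_cases h0 : S = 0
      · simp [h0]
      obtain ⟨y, hy⟩ := Multiset.exists_mem_of_ne_zero h0
      obtain ⟨S', rfl⟩ := Multiset.exists_cons_of_mem hy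
      have h2 := sum_le_take l hl.2 n S' ((Multiset.le_cons_self _ _).trans h1) (by simpa using hc)
      have h3 : x ≥ y := hl.1 y (by simpa using Multiset.mem_of_le h1 hy)
      rw [Multiset.sum_cons]; omega

theorem le_topSum {Q S : Multiset ℕ} {n : ℕ} (h : S ≤ Q) (hc : S.card ≤ n) :
    S.sum ≤ topSum n Q :=
  sum_le_take _ (Multiset.pairwise_sort _ _) n S (by rwa [Multiset.sort_eq]) hc

theorem exists_le_map {α : Type} [DecidableEq α] (p : α → ℕ) (S : Multiset ℕ) :
    ∀ s : Multiset α, S ≤ s.map p → ∃ t ≤ s, t.map p = S := by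
  induction S using Multiset.induction_on with
  | empty => exact fun s _ => ⟨0, zero_le, rfl⟩
  | cons y S ih =>
    intro s h
    obtain ⟨x, hx, rfl⟩ := Multiset.mem_map.1 (Multiset.mem_of_le h (Multiset.mem_cons_self _ _))
    obtain ⟨s', rfl⟩ := Multiset.exists_cons_of_mem hx
    rw [Multiset.map_cons, Multiset.cons_le_cons_iff] at h
    obtain ⟨t, ht, rfl⟩ := ih s' h
    exact ⟨x ::ₘ t, Multiset.cons_le_cons x ht, by simp⟩

theorem exists_topSum {m : ℕ} (p : Fin m → ℕ) (n : ℕ) :
    ∃ I : Finset (Fin m), I.card ≤ n ∧ topSum n (Finset.univ.val.map p) = ∑ i ∈ I, p i := by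
  obtain ⟨t, ht, h⟩ := exists_le_map p
    ((((Finset.univ.val.map p).sort (· ≥ ·)).take n : List ℕ) : Multiset ℕ) Finset.univ.val (by
      conv_rhs => rw [← Multiset.sort_eq (Finset.univ.val.map p) (· ≥ ·)]
      exact Multiset.coe_le.2 (List.take_sublist _ _).subperm)
  refine ⟨⟨t, Multiset.nodup_of_le ht Finset.univ.nodup⟩, ?_, ?_⟩
  · have := congrArg Multiset.card h
    simp only [Multiset.card_map, Multiset.coe_card, List.length_take] at this
    change t.card ≤ n
    omega
  · change _ = (t.map p).sum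
    rw [h, Multiset.sum_coe, topSum]

theorem list_eq_of_take : ∀ l l' : List ℕ, (∀ x ∈ l, 0 < x) → (∀ x ∈ l', 0 < x) →
    (∀ n, (l.take n).sum = (l'.take n).sum) → l = l'
  | [], [], _, _, _ => rfl
  | [], y :: _, _, h, h1 => by
    have := h1 1
    have := h y List.mem_cons_self
    simp at *; omega
  | x :: _, [], h, _, h1 => by
    have := h1 1
    have := h x List.mem_cons_self
    simp at *; omega
  | x :: l, y :: l', h, h', h1 => by
    have h2 : x = y := by simpa using h1 1
    subst h2
    rw [list_eq_of_take l l' (fun z hz => h z (List.mem_cons_of_mem _ hz))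
      (fun z hz => h' z (List.mem_cons_of_mem _ hz)) (fun n => by simpa using h1 (n + 1))]

theorem eq_of_topSum {P Q : Multiset ℕ} (hP : ∀ x ∈ P, 0 < x) (hQ : ∀ x ∈ Q, 0 < x)
    (h : ∀ n, topSum n P = topSum n Q) : P = Q := by
  rw [← Multiset.sort_eq P (· ≥ ·), ← Multiset.sort_eq Q (· ≥ ·),
    list_eq_of_take _ _ (by simpa using hP) (by simpa using hQ) h]

theorem contig_pos (H : ℕ → ℕ) (N : ℕ) : ∀ x ∈ contig H N, 0 < x := by
  intro x hx
  obtain ⟨y, hy, rfl⟩ := Multiset.mem_map.1 hx
  have := (Finset.mem_filter.1 hy).2.1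
  omega

theorem sum_min_le_topSum (H : ℕ → ℕ) (N n : ℕ) (hN : ∀ i, H i ≤ N) (hN' : ∀ i, N ≤ i → H i = 0)
    (hv : ∀ a b c, a < b → b < c → H b < H a → H b < H c → n ≤ H b) :
    ∑ d ∈ Finset.range N, min (H d) n ≤ topSum n (contig H N) := by
  classical
  let row : ℕ → Finset ℕ := fun t => (Finset.range N).filter fun d => t ≤ H d
  have hex : ∀ t, ∃ x : ℕ × ℕ × ℕ, t ∈ Finset.Icc 1 n → (row t).Nonempty →
      x ∈ runs H N ∧ x.1 = t ∧ (row t).card ≤ x.2.2 + 1 - x.2.1 := by
    intro t
    by_cases h : (row t).Nonempty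
    swap
    · exact ⟨0, fun _ h' => absurd h' h⟩
    refine ⟨(t, (row t).min' h, (row t).max' h), fun ht _ => ⟨?_, rfl, ?_⟩⟩
    · obtain ⟨ht1, ht2⟩ := Finset.mem_Icc.1 ht
      obtain ⟨a1, a2⟩ := Finset.mem_filter.1 ((row t).min'_mem h)
      obtain ⟨b1, b2⟩ := Finset.mem_filter.1 ((row t).max'_mem h)
      have hmin : ∀ d, t ≤ H d → (row t).min' h ≤ d ∧ d ≤ (row t).max' h := by
        intro d hd
        have : d ∈ row t := Finset.mem_filter.2 ⟨Finset.mem_range.2 (by
          by_contra h1
          have := hN' d (by omega)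
          omega), hd⟩
        exact ⟨(row t).min'_le d this, (row t).le_max' d this⟩
      refine Finset.mem_filter.2 ⟨Finset.mem_product.2 ⟨Finset.mem_Icc.2 ⟨ht1, a2.trans (hN _)⟩,
        Finset.mem_product.2 ⟨a1, b1⟩⟩, (hmin _ a2).2, fun i hi => ?_, ?_, ?_⟩
      · obtain ⟨i1, i2⟩ := Finset.mem_Icc.1 hi
        simp only at i1 i2 ⊢
        by_contra h1
        have h2 : (row t).min' h ≠ i := fun e => h1 (e ▸ a2)
        have h3 : (row t).max' h ≠ i := fun e => h1 (e ▸ b2)
        have := hv ((row t).min' h) i ((row t).max' h) (by omega) (by omega) (by omega) (by omega)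
        omega
      · simp only
        by_contra h1
        push Not at h1
        have := (hmin _ h1.2).1
        omega
      · simp only
        by_contra h1
        have := (hmin _ (not_lt.1 h1)).2
        omega
    · have : row t ⊆ Finset.Icc ((row t).min' h) ((row t).max' h) := fun d hd =>
        Finset.mem_Icc.2 ⟨(row t).min'_le d hd, (row t).le_max' d hd⟩
      simpa using Finset.card_le_card this
  choose r hr using hex
  let T := (Finset.Icc 1 n).filter fun t => (row t).Nonempty
  have hT : ∀ t ∈ T, r t ∈ runs H N ∧ (r t).1 = t ∧ (row t).card ≤ (r t).2.2 + 1 - (r t).2.1 :=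
    fun t ht => hr t (Finset.mem_filter.1 ht).1 (Finset.mem_filter.1 ht).2
  have h1 : ∑ d ∈ Finset.range N, min (H d) n = ∑ t ∈ Finset.Icc 1 n, (row t).card := by
    simp only [row, Finset.card_filter]
    rw [Finset.sum_comm]
    refine Finset.sum_congr rfl fun d _ => ?_
    rw [← Finset.card_filter]
    have : (Finset.Icc 1 n).filter (fun t => t ≤ H d) = Finset.Icc 1 (min (H d) n) := by
      ext t; simp only [Finset.mem_filter, Finset.mem_Icc]; omega
    rw [this]; simp
  have h2 : ∑ t ∈ Finset.Icc 1 n, (row t).card = ∑ t ∈ T, (row t).card := by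
    refine (Finset.sum_filter_of_ne fun t _ ht => ?_).symm
    exact Finset.card_ne_zero.1 ht
  have hinj : Set.InjOn r T := fun a ha b hb hab => by
    rw [← (hT a ha).2.1, hab, (hT b hb).2.1]
  have h3 := le_topSum (Q := contig H N) (n := n)
    (S := (T.image r).val.map fun x => x.2.2 + 1 - x.2.1)
    (Multiset.map_le_map (Finset.val_le_iff.2 (Finset.image_subset_iff.2 fun t ht => (hT t ht).1)))
    (by
      rw [Multiset.card_map]
      refine Finset.card_image_le.trans ((Finset.card_filter_le _ _).trans ?_)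
      simp)
  change ∑ x ∈ T.image r, (x.2.2 + 1 - x.2.1) ≤ _ at h3
  rw [Finset.sum_image hinj] at h3
  rw [h1, h2]
  exact (Finset.sum_le_sum fun t ht => (hT t ht).2.2).trans h3

theorem unimodal_of_no_valley (H : ℕ → ℕ) (N : ℕ) (hN : ∀ i, H i ≤ N)
    (hv : ∀ a b c, a < b → b < c → H b < H a → ¬ H b < H c) : Unimodal H := by
  obtain ⟨p, hp⟩ : ∃ p, ∀ i, H i ≤ H p := by
    have hb : BddAbove (Set.range H) := ⟨N, by rintro _ ⟨i, rfl⟩; exact hN i⟩
    obtain ⟨p, hp⟩ := Nat.sSup_mem (Set.range_nonempty H) hb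
    exact ⟨p, fun i => hp ▸ le_csSup hb ⟨i, rfl⟩⟩
  refine ⟨p, fun i hi => ?_, fun i hi => ?_⟩
  · by_contra h
    have h1 := hp i
    have h2 : i + 1 ≠ p := by rintro rfl; omega
    exact hv i (i + 1) p (by omega) (by omega) (by omega) (by omega)
  · by_contra h
    have h1 := hp (i + 1)
    have h2 : i ≠ p := by rintro rfl; omega
    exact hv p i (i + 1) (by omega) (by omega) (by omega) (by omega)

section lin

variable {k V W : Type} [Field k] [AddCommGroup V] [Module k V] [AddCommGroup W] [Module k W]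
  [FiniteDimensional k V]

theorem rank_null (f : V →ₗ[k] W) (U : Submodule k V) :
    finrank k (U.map f) + finrank k (U ⊓ LinearMap.ker f : Submodule k V) = finrank k U := by
  have h := LinearMap.finrank_range_add_finrank_ker (f.domRestrict U)
  rw [LinearMap.range_domRestrict, LinearMap.ker_domRestrict,
    ← Submodule.finrank_map_subtype_eq, Submodule.map_comap_subtype] at h
  exact h

theorem exists_sub {f : V →ₗ[k] V} {P : Multiset ℕ} (h : IsJordanType f P) (n : ℕ) :
    ∃ M : Submodule k V, M.map f ≤ M ∧ finrank k M = topSum n P ∧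
      finrank k (M ⊓ LinearMap.ker f : Submodule k V) ≤ n := by
  classical
  obtain ⟨m, p, b, hp, rfl, hb⟩ := h
  obtain ⟨I, hI, hs⟩ := exists_topSum p n
  let J : Finset (Σ i, Fin (p i)) := I.sigma fun _ => Finset.univ
  let M : Submodule k V := Submodule.span k (J.image b : Set V)
  have hM : finrank k M = ∑ i ∈ I, p i := by
    rw [finrank_span_finset_eq_card, Finset.card_image_of_injective _ b.injective]
    · simp [J]
    · refine b.linearIndependent.linearIndepOn_id.mono ?_
      intro x hx
      obtain ⟨y, _, rfl⟩ := Finset.mem_image.1 hx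
      exact ⟨y, rfl⟩
  have hmem : ∀ (i : Fin m) (s : Fin (p i)), i ∈ I → b ⟨i, s⟩ ∈ M := fun i s hi =>
    Submodule.subset_span (Finset.mem_coe.2 (Finset.mem_image_of_mem _ (by simp [J, hi])))
  refine ⟨M, ?_, by rw [hM, hs], ?_⟩
  · rw [Submodule.map_span, Submodule.span_le]
    rintro _ ⟨x, hx, rfl⟩
    obtain ⟨⟨i, s⟩, hy, rfl⟩ := Finset.mem_image.1 hx
    rw [hb]
    split_ifs
    · exact hmem _ _ (by simpa [J] using hy)
    · exact Submodule.zero_mem _
  · let G : Submodule k V := Submodule.span k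
      (I.image (fun i => b ⟨i, ⟨0, hp i⟩⟩) : Set V)
    have h1 : finrank k G ≤ n :=
      (finrank_span_finset_le_card _).trans (Finset.card_image_le.trans hI)
    have h2 : M ≤ M.map f ⊔ G := by
      rw [Submodule.span_le]
      intro x hx
      obtain ⟨⟨i, ⟨s, hs⟩⟩, hy, rfl⟩ := Finset.mem_image.1 hx
      have hi : i ∈ I := by simpa [J] using hy
      rcases s with _ | s
      · exact Submodule.mem_sup_right (Submodule.subset_span
          (Finset.mem_coe.2 (Finset.mem_image.2 ⟨i, hi, rfl⟩)))
      · refine Submodule.mem_sup_left ⟨b ⟨i, ⟨s, by omega⟩⟩, hmem _ _ hi, ?_⟩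
        rw [hb, dif_pos hs]
    have h3 := Submodule.finrank_mono h2
    have h4 := Submodule.finrank_sup_add_finrank_inf_eq (M.map f) G
    have h5 := rank_null f M
    omega

theorem step_le (M F F' : Submodule k V) (h : F' ≤ F) :
    finrank k (M ⊓ F : Submodule k V) + finrank k F' =
      finrank k ((M ⊓ F) ⊔ F' : Submodule k V) + finrank k (M ⊓ F' : Submodule k V) := by
  rw [← Submodule.finrank_sup_add_finrank_inf_eq, inf_assoc, inf_eq_right.2 h]

end lin

end Pool.Agent.H79.JT
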