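import Mathlib
import Pool.Agent.H79.JT1

set_option autoImplicit false

namespace Pool.Agent.H79.JT

open IsLocalRing Module

variable {k A : Type} [Field k] [CommRing A] [Algebra k A] [IsLocalRing A] [Module.Finite k A]

omit [Module.Finite k A] in
theorem mem_mpow {i : ℕ} {x : A} : x ∈ mpow k A i ↔ x ∈ maximalIdeal A ^ i := Iff.rfl

omit [Module.Finite k A] in
theorem mpow_succ_le (i : ℕ) : mpow k A (i + 1) ≤ mpow k A i := fun _ hx =>
  Ideal.pow_le_pow_right (Nat.le_succ i) hx

theorem hilb_add (i : ℕ) :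
    hilb k A i + finrank k (mpow k A (i + 1)) = finrank k (mpow k A i) := by
  rw [hilb, ← (Submodule.submoduleOfEquivOfLe (mpow_succ_le (k := k) (A := A) i)).finrank_eq]
  exact Submodule.finrank_quotient_add_finrank _

theorem hilb_le (i : ℕ) : hilb k A i ≤ finrank k A := by
  have := hilb_add (k := k) (A := A) i
  have := Submodule.finrank_le (mpow k A i)
  omega

theorem mpow_eq_bot (i : ℕ) (hi : finrank k A ≤ i) : finrank k (mpow k A i) = 0 := by
  have : IsNoetherianRing A := Algebra.FiniteType.isNoetherianRing k A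
  have key : ∀ d, finrank k (mpow k A d) + d ≤ finrank k A ∨ finrank k (mpow k A d) = 0 := by
    intro d
    induction d with
    | zero => exact Or.inl (Submodule.finrank_le _)
    | succ d ih =>
      have h1 := hilb_add (k := k) (A := A) d
      by_cases h2 : hilb k A d = 0
      · right
        have h3 : mpow k A (d + 1) = mpow k A d :=
          Submodule.eq_of_le_of_finrank_eq (mpow_succ_le d) (by omega)
        have h4 : maximalIdeal A ^ d = ⊥ := by
          refine Submodule.eq_bot_of_le_smul_of_le_jacobson_bot (maximalIdeal A) _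
            (IsNoetherian.noetherian _) ?_ (maximalIdeal_le_jacobson _)
          intro x hx
          rw [smul_eq_mul, ← pow_succ']
          exact mem_mpow.1 (h3.symm ▸ mem_mpow.2 hx)
        have h5 : mpow k A d = ⊥ := by rw [mpow, h4]; rfl
        rw [h3, h5, finrank_bot]
      · omega
  have := key i
  omega

theorem hilb_eq_zero (i : ℕ) (hi : finrank k A ≤ i) : hilb k A i = 0 := by
  have := hilb_add (k := k) (A := A) i
  have := mpow_eq_bot (k := k) (A := A) i hi
  omega

omit [Module.Finite k A] in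
theorem map_mpow_le {l : A} (hl : l ∈ maximalIdeal A) (i : ℕ) :
    (mpow k A i).map (LinearMap.mulLeft k l) ≤ mpow k A (i + 1) := by
  rintro _ ⟨x, hx, rfl⟩
  rw [mem_mpow, pow_succ']
  exact Ideal.mul_mem_mul hl hx

theorem hilb_succ_le {l : A} (hl : l ∈ maximalIdeal A) (d : ℕ)
    (h : maximalIdeal A ^ (d + 1) ≤ Ideal.span {l} * maximalIdeal A ^ d ⊔
      maximalIdeal A ^ (d + 2)) : hilb k A (d + 1) ≤ hilb k A d := by
  let π := (mpow k A (d + 2)).mkQ
  have h1 := rank_null π (mpow k A (d + 1))
  rw [Submodule.ker_mkQ, inf_eq_right.2 (mpow_succ_le _)] at h1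
  have h2 := rank_null (π ∘ₗ LinearMap.mulLeft k l) (mpow k A d)
  have h3 : mpow k A (d + 1) ≤ mpow k A d ⊓ LinearMap.ker (π ∘ₗ LinearMap.mulLeft k l) := by
    refine le_inf (mpow_succ_le d) fun x hx => ?_
    rw [LinearMap.mem_ker, LinearMap.comp_apply, Submodule.mkQ_apply,
      Submodule.Quotient.mk_eq_zero]
    exact map_mpow_le hl _ ⟨x, hx, rfl⟩
  have h4 : (mpow k A (d + 1)).map π ≤ (mpow k A d).map (π ∘ₗ LinearMap.mulLeft k l) := by
    rintro _ ⟨x, hx, rfl⟩
    obtain ⟨y, hy, z, hz, rfl⟩ := Submodule.mem_sup.1 (h hx)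
    obtain ⟨w, hw, rfl⟩ := Ideal.mem_span_singleton_mul.1 hy
    refine ⟨w, hw, ?_⟩
    have : π z = 0 := (Submodule.Quotient.mk_eq_zero _).2 hz
    simp [this]
  have h5 := Submodule.finrank_mono h3
  have h6 := Submodule.finrank_mono h4
  have h7 := hilb_add (k := k) (A := A) d
  have h8 := hilb_add (k := k) (A := A) (d + 1)
  change _ + finrank k (mpow k A (d + 2)) = _ at h1 h8
  omega

theorem main_aux {l : A} (hl : l ∈ maximalIdeal A) {P : Multiset ℕ}
    (hP : IsJordanType (LinearMap.mulLeft k l) P) (n : ℕ) :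
    topSum n P ≤ ∑ d ∈ Finset.range (finrank k A), min (hilb k A d) n ∧
    (∑ d ∈ Finset.range (finrank k A), min (hilb k A d) n ≤ topSum n P →
      ∀ b c, n ≤ hilb k A b → hilb k A (b + 1) = n → b + 1 ≤ c → hilb k A c ≤ n) := by
  obtain ⟨M, hM1, hM2, hM3⟩ := exists_sub hP n
  let g : ℕ → ℕ := fun d => finrank k (M ⊓ mpow k A d : Submodule k A)
  have hg : ∀ d, g (d + 1) ≤ g d := fun d =>
    Submodule.finrank_mono (inf_le_inf_left _ (mpow_succ_le d))
  have hmap : ∀ d, (M ⊓ mpow k A d).map (LinearMap.mulLeft k l) ≤ M ⊓ mpow k A (d + 1) := fun d =>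
    le_inf ((Submodule.map_mono inf_le_left).trans hM1)
      ((Submodule.map_mono inf_le_right).trans (map_mpow_le hl d))
  have hrk : ∀ d, g d ≤ finrank k ((M ⊓ mpow k A d).map (LinearMap.mulLeft k l)) + n := by
    intro d
    have h1 := rank_null (LinearMap.mulLeft k l) (M ⊓ mpow k A d)
    have h2 := Submodule.finrank_mono (inf_le_inf_right (LinearMap.ker (LinearMap.mulLeft k l))
      (inf_le_left : M ⊓ mpow k A d ≤ M))
    change _ = g d at h1
    omega
  have hsup : ∀ d, (M ⊓ mpow k A d) ⊔ mpow k A (d + 1) ≤ mpow k A d := fun d =>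
    sup_le inf_le_right (mpow_succ_le d)
  have hle : ∀ d, g d - g (d + 1) ≤ min (hilb k A d) n := by
    intro d
    have h1 := step_le M _ _ (mpow_succ_le (k := k) (A := A) d)
    have h2 := Submodule.finrank_mono (hsup d)
    have h3 := hilb_add (k := k) (A := A) d
    have h4 := hrk d
    have h5 := Submodule.finrank_mono (hmap d)
    change g d + _ = _ + g (d + 1) at h1
    change _ ≤ g (d + 1) at h5
    omega
  have htel : ∀ N, ∑ d ∈ Finset.range N, (g d - g (d + 1)) + g N = g 0 := by
    intro N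
    induction N with
    | zero => simp
    | succ N ih =>
      have := hg N
      rw [Finset.sum_range_succ]; omega
  have h0 : g 0 = topSum n P := by
    have : mpow k A 0 = ⊤ := by rw [mpow, pow_zero, Ideal.one_eq_top]; rfl
    rw [← hM2]
    change finrank k (M ⊓ mpow k A 0 : Submodule k A) = _
    rw [this, inf_top_eq]
  have hN : g (finrank k A) = 0 := by
    have h1 := Submodule.finrank_mono (inf_le_right : M ⊓ mpow k A (finrank k A) ≤ _)
    have h2 := mpow_eq_bot (k := k) (A := A) _ le_rfl
    change g _ ≤ _ at h1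
    omega
  have hsum := htel (finrank k A)
  rw [hN, add_zero, h0] at hsum
  refine ⟨hsum ▸ Finset.sum_le_sum fun d _ => hle d, fun h b c hb hb' hc => ?_⟩
  have heq : ∀ d, g d - g (d + 1) = min (hilb k A d) n := by
    intro d
    by_cases hd : d < finrank k A
    · exact (Finset.sum_eq_sum_iff_of_le (fun d _ => hle d)).1
        (le_antisymm (Finset.sum_le_sum fun d _ => hle d) (hsum ▸ h)) d (Finset.mem_range.2 hd)
    · have := hle d
      have := hilb_eq_zero (k := k) (A := A) d (by omega)
      omega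
  have e1 : (M ⊓ mpow k A b).map (LinearMap.mulLeft k l) = M ⊓ mpow k A (b + 1) := by
    refine Submodule.eq_of_le_of_finrank_le (hmap b) ?_
    have h1 := heq b
    have h2 := hrk b
    have h3 := hg b
    change g (b + 1) ≤ _
    omega
  have e2 : (M ⊓ mpow k A (b + 1)) ⊔ mpow k A (b + 1 + 1) = mpow k A (b + 1) := by
    refine Submodule.eq_of_le_of_finrank_le (hsup _) ?_
    have h1 := step_le M _ _ (mpow_succ_le (k := k) (A := A) (b + 1))
    have h2 := heq (b + 1)
    have h3 := hilb_add (k := k) (A := A) (b + 1)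
    have h4 := hg (b + 1)
    change g (b + 1) + _ = _ + g (b + 1 + 1) at h1
    omega
  have e3 : ∀ d, b ≤ d → maximalIdeal A ^ (d + 1) ≤ Ideal.span {l} * maximalIdeal A ^ d ⊔
      maximalIdeal A ^ (d + 2) := by
    intro d hd
    induction d, hd using Nat.le_induction with
    | base =>
      intro x hx
      have h1 : x ∈ (M ⊓ mpow k A (b + 1)) ⊔ mpow k A (b + 1 + 1) := e2.symm ▸ mem_mpow.2 hx
      rw [← e1] at h1
      obtain ⟨_, ⟨w, hw, rfl⟩, z, hz, rfl⟩ := Submodule.mem_sup.1 h1
      exact Submodule.add_mem_sup (Ideal.mem_span_singleton_mul.2 ⟨w, hw.2, rfl⟩) hz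
    | succ d _ ih =>
      have := Ideal.mul_mono_left (K := maximalIdeal A) ih
      rwa [Ideal.sup_mul, mul_assoc, ← pow_succ, ← pow_succ] at this
  induction c, hc using Nat.le_induction with
  | base => exact hb'.le
  | succ c hc ih => exact (hilb_succ_le hl c (e3 c (by omega))).trans ih

/-- If the Jordan type dominates the contiguous partition, then the Hilbert function is unimodal
and the two partitions agree. -/
theorem main {l : A} (hl : l ∈ maximalIdeal A) {P : Multiset ℕ}
    (hP : IsJordanType (LinearMap.mulLeft k l) P)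
    (h : ∀ n, topSum n (contigA k A) ≤ topSum n P) :
    Unimodal (hilb k A) ∧ P = contigA k A := by
  classical
  have hv : ∀ a b c, a < b → b < c → hilb k A b < hilb k A a → ¬ hilb k A b < hilb k A c := by
    by_contra h1
    push Not at h1
    have hex : ∃ n, ∃ a b c, a < b ∧ b < c ∧ hilb k A b < hilb k A a ∧
        hilb k A b < hilb k A c ∧ hilb k A b = n := by
      obtain ⟨a, b, c, h2, h3, h4, h5⟩ := h1
      exact ⟨_, a, b, c, h2, h3, h4, h5, rfl⟩
    obtain ⟨a, b, c, h2, h3, h4, h5, h6⟩ := Nat.find_spec hex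
    have hmin : ∀ a b c, a < b → b < c → hilb k A b < hilb k A a → hilb k A b < hilb k A c →
        Nat.find hex ≤ hilb k A b := fun a b c h2 h3 h4 h5 =>
      Nat.find_min' hex ⟨a, b, c, h2, h3, h4, h5, rfl⟩
    generalize Nat.find hex = n at h6 hmin
    obtain ⟨b, rfl⟩ : ∃ b', b = b' + 1 := ⟨b - 1, by omega⟩
    have h7 := (main_aux hl hP n).2
      ((sum_min_le_topSum _ _ n hilb_le hilb_eq_zero hmin).trans (h n)) b c (by
        by_contra h8
        have h9 : a ≠ b := by rintro rfl; omega
        have := hmin a b c (by omega) (by omega) (by omega) (by omega)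
        omega) h6 h3.le
    omega
  refine ⟨unimodal_of_no_valley _ _ hilb_le hv, eq_of_topSum ?_ (contig_pos _ _) fun n => ?_⟩
  · obtain ⟨m, p, b, hp, rfl, -⟩ := hP
    intro x hx
    obtain ⟨i, _, rfl⟩ := Multiset.mem_map.1 hx
    exact hp i
  · refine le_antisymm ((main_aux hl hP n).1.trans ?_) (h n)
    exact sum_min_le_topSum _ _ n hilb_le hilb_eq_zero
      fun a b c h2 h3 h4 h5 => absurd h5 (hv a b c h2 h3 h4)

end Pool.Agent.H79.JT
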