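import Mathlib
import Pool.Agent.H79.Arr2
import Pool.Agent.H79.LocQ

set_option autoImplicit false

namespace Pool.Agent.H79.Jac

open MvPolynomial Pool.Agent.H79.PD Pool.Agent.H79.HSyz Pool.Agent.H79.ArrDefs
  Pool.Agent.H79.Arr Pool.Agent.H79.SymA

section ring

variable {R : Type} [CommRing R]

theorem mem_span_prod {ι : Type} (h : R) (g : ι → R) (D : Finset ι)
    (hp : ∀ k ∈ D, (Ideal.span {h, g k}).IsPrime)
    (hn : ∀ k ∈ D, ∀ k' ∈ D, k ≠ k' → g k' ∉ Ideal.span {h, g k}) (z : R)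
    (hz : ∀ k ∈ D, z ∈ Ideal.span {h, g k}) : z ∈ Ideal.span {h, ∏ k ∈ D, g k} := by
  classical
  induction D using Finset.induction_on generalizing z with
  | empty => exact Ideal.mem_span_pair.2 ⟨0, z, by simp⟩
  | insert k D hk ih =>
    obtain ⟨a, b, hab⟩ := Ideal.mem_span_pair.1 (hz k (Finset.mem_insert_self _ _))
    have hb := ih (fun j hj => hp j (Finset.mem_insert_of_mem hj))
      (fun j hj j' hj' => hn j (Finset.mem_insert_of_mem hj) j' (Finset.mem_insert_of_mem hj')) b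
      (fun j hj => by
        have h1 := hz j (Finset.mem_insert_of_mem hj)
        have h2 : b * g k ∈ Ideal.span {h, g j} := by
          have := Ideal.sub_mem _ h1 (Ideal.mul_mem_left _ a
            (Ideal.subset_span (by simp) : h ∈ Ideal.span {h, g j}))
          rw [← hab] at this
          simpa using this
        refine ((hp j (Finset.mem_insert_of_mem hj)).mem_or_mem h2).resolve_right ?_
        exact hn j (Finset.mem_insert_of_mem hj) k (Finset.mem_insert_self _ _)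
          (fun e => hk (e ▸ hj)))
    obtain ⟨c, e, hce⟩ := Ideal.mem_span_pair.1 hb
    rw [Finset.prod_insert hk]
    exact Ideal.mem_span_pair.2 ⟨a + c * g k, e, by rw [← hab, ← hce]; ring⟩

theorem span_prod_le {ι : Type} (h : R) (g : ι → R) (D : Finset ι) (k : ι) (hk : k ∈ D) :
    Ideal.span {h, ∏ k ∈ D, g k} ≤ Ideal.span {h, g k} := by
  intro z hz
  obtain ⟨a, b, rfl⟩ := Ideal.mem_span_pair.1 hz
  obtain ⟨c, hc⟩ := Finset.dvd_prod_of_mem g hk
  exact Ideal.mem_span_pair.2 ⟨a, b * c, by rw [hc]; ring⟩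

theorem pd_ci [IsDomain R] (h g : R) (h0 : h ≠ 0) (hp : (Ideal.span {h}).IsPrime)
    (hg : g ∉ Ideal.span {h}) : PdLT R (R ⧸ Ideal.span {h, g}) 3 := by
  refine pd_nzd (Ideal.span {h}) _ g (fun r => ⟨fun hr => Ideal.mul_mem_right _ _ hr,
    fun hr => (hp.mem_or_mem hr).resolve_right hg⟩) (Ideal.span_insert _ _) 2 ?_
  refine pd_nzd ⊥ _ h (fun r => ?_) (by simp) 1 (pd_bot _ rfl)
  simp [h0]

/-- failure of regularity of the pair `a, b` on the quotient by `I`, localized at `m` -/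
def Bad (m I : Ideal R) (a b : R) : Prop :=
  ∃ x y, b * x - a * y ∈ I ∧ ∀ u z, u ∉ m → u * x - a * z ∉ I

theorem bad_leaf {m I J L : Ideal R} {a b h : R} (hc : ∀ r, r ∈ J ↔ r * h ∈ I)
    (hL : L = I ⊔ Ideal.span {h}) (ha : ∀ z, a * z ∈ L → z ∈ L) (H : Bad m J a b) :
    Bad m I a b := by
  obtain ⟨x, y, h1, h2⟩ := H
  refine ⟨x * h, y * h, by convert (hc _).1 h1 using 1; ring, fun u z hu h3 => ?_⟩
  have h4 : a * z ∈ L := by
    rw [hL, show a * z = -(u * (x * h) - a * z) + (u * x) * h by ring]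
    exact Submodule.add_mem_sup (I.neg_mem h3)
      (Ideal.mul_mem_left _ _ (Ideal.mem_span_singleton_self h))
  have h5 := ha z h4
  rw [hL] at h5
  obtain ⟨i, hi, j, hj, rfl⟩ := Submodule.mem_sup.1 h5
  obtain ⟨c, rfl⟩ := Ideal.mem_span_singleton'.1 hj
  refine h2 u c hu ((hc _).2 ?_)
  convert I.add_mem h3 (I.mul_mem_left a hi) using 1; ring

end ring

variable {K : Type} [Field K] {n : ℕ}

theorem sub_aeval_mem (J : Ideal (PR K n)) (g : Fin n → PR K n) (hg : ∀ k, X k - g k ∈ J)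
    (f : PR K n) : f - aeval g f ∈ J := by
  induction f using MvPolynomial.induction_on with
  | C a => simp
  | add p q hp hq => rw [map_add]; convert J.add_mem hp hq using 1; ring
  | mul_X p i hp =>
    rw [map_mul, aeval_X]
    convert J.add_mem (J.mul_mem_right (X i) hp) (J.mul_mem_left (aeval g p) (hg i)) using 1; ring

theorem prime_of_aeval (s : Set (PR K n)) (g : Fin n → PR K n)
    (hg : ∀ k, X k - g k ∈ Ideal.span s) (hs : ∀ f ∈ s, aeval g f = 0) :
    (Ideal.span s).IsPrime := by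
  have : Ideal.span s = RingHom.ker (aeval g : PR K n →ₐ[K] PR K n) := by
    refine le_antisymm (Ideal.span_le.2 hs) fun f hf => ?_
    have h3 : aeval g f = 0 := hf
    have h4 := sub_aeval_mem _ g hg f
    rwa [h3, sub_zero] at h4
  rw [this]
  exact RingHom.ker_isPrime _

/-- pairing of a form with a vector -/
def pr (t p : Fin n → K) : K := ∑ k, t k * p k

theorem aeval_lf (t p q : Fin n → K) (a b : PR K n) :
    aeval (fun k => X k - C (p k) * a - C (q k) * b) (lf t) =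
      lf t - C (pr t p) * a - C (pr t q) * b := by
  simp only [lf, pr, map_sum, map_mul, aeval_X, algHom_C, algebraMap_eq, Finset.sum_mul,
    ← Finset.sum_sub_distrib]
  exact Finset.sum_congr rfl fun k _ => by ring

theorem eval_lf (t p : Fin n → K) : eval p (lf t) = pr t p := by simp [lf, pr]

theorem lf_comb (a b : K) (u v : Fin n → K) : lf (a • u + b • v) = C a * lf u + C b * lf v := by
  simp only [lf, Finset.mul_sum, ← Finset.sum_add_distrib, Pi.add_apply, Pi.smul_apply,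
    smul_eq_mul, map_add, map_mul]
  exact Finset.sum_congr rfl fun k _ => by ring

theorem lf_prime {u : Fin n → K} (hu : u ≠ 0) : (Ideal.span {lf u}).IsPrime := by
  obtain ⟨a, ha⟩ := Function.ne_iff.1 hu
  have ha' : u a ≠ 0 := ha
  refine prime_of_aeval _ (fun k => X k - C ((Pi.single a (u a)⁻¹ : Fin n → K) k) * lf u -
    C ((0 : Fin n → K) k) * 0) (fun k => ?_) ?_
  · simpa using Ideal.mul_mem_left _ _ (Ideal.mem_span_singleton_self _)
  · rintro _ rfl
    rw [aeval_lf]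
    simp [pr, Pi.single_apply, ha']

/-- ideal of a codimension two flat -/
noncomputable def LI (u v : Fin n → K) : Ideal (PR K n) := Ideal.span {lf u, lf v}

/-- independence of two forms -/
def Ind {A : Type} [CommRing A] (u v : Fin n → A) : Prop := ∃ a b, u a * v b - u b * v a ≠ 0

/-- a minor of size three -/
def m3 {A : Type} [CommRing A] (u v t : Fin n → A) (a b c : Fin n) : A :=
  t c * (u a * v b - u b * v a) - u c * (t a * v b - t b * v a) - v c * (u a * t b - u b * t a)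

theorem LI_comm (u v : Fin n → K) : LI u v = LI v u := by rw [LI, LI, Set.pair_comm]

theorem left_mem (u v : Fin n → K) : lf u ∈ LI u v := Ideal.subset_span (by simp)

theorem right_mem (u v : Fin n → K) : lf v ∈ LI u v := Ideal.subset_span (by simp)

theorem Ind.ne_zero {u v : Fin n → K} (h : Ind u v) : u ≠ 0 := by
  rintro rfl
  obtain ⟨a, b, h⟩ := h
  simp at h

theorem Ind.dual {u v : Fin n → K} (h : Ind u v) :
    ∃ p q, pr u p = 1 ∧ pr v p = 0 ∧ pr u q = 0 ∧ pr v q = 1 := by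
  obtain ⟨a, b, h⟩ := h
  have h1 := mul_inv_cancel₀ h
  generalize (u a * v b - u b * v a)⁻¹ = e at h1
  refine ⟨Pi.single a (v b * e) - Pi.single b (v a * e),
    Pi.single b (u a * e) - Pi.single a (u b * e), ?_, ?_, ?_, ?_⟩ <;>
  simp only [pr, Pi.sub_apply, mul_sub, Finset.sum_sub_distrib, Pi.single_apply, mul_ite,
      mul_zero, Finset.sum_ite_eq', Finset.mem_univ, if_true]
  · linear_combination h1
  · ring
  · ring
  · linear_combination h1

theorem LI_prime {u v : Fin n → K} (h : Ind u v) : (LI u v).IsPrime := by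
  obtain ⟨p, q, h1, h2, h3, h4⟩ := h.dual
  refine prime_of_aeval _ (fun k => X k - C (p k) * lf u - C (q k) * lf v) (fun k => ?_) ?_
  · exact Ideal.mem_span_pair.2 ⟨C (p k), C (q k), by ring⟩
  · rintro _ (rfl | rfl) <;> rw [aeval_lf] <;> simp [*]

theorem mem_LI_iff {u v : Fin n → K} (h : Ind u v) (t : Fin n → K) :
    lf t ∈ LI u v ↔ ∀ a b c, m3 u v t a b c = 0 := by
  constructor
  · intro ht a b c
    obtain ⟨x, y, hxy⟩ := Ideal.mem_span_pair.1 ht
    have := congrArg (eval (Pi.single c (u a * v b - u b * v a) +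
      Pi.single a (u b * v c - u c * v b) + Pi.single b (u c * v a - u a * v c))) hxy
    simp only [map_add, map_mul, eval_lf, pr, Pi.add_apply, mul_add, Finset.sum_add_distrib,
      Pi.single_apply, mul_ite, mul_zero, Finset.sum_ite_eq', Finset.mem_univ, if_true] at this
    rw [m3]
    linear_combination -this
  · intro ht
    obtain ⟨a, b, hab⟩ := h
    have h1 := mul_inv_cancel₀ hab
    generalize (u a * v b - u b * v a)⁻¹ = e at h1
    have : t = ((t a * v b - t b * v a) * e) • u + ((u a * t b - u b * t a) * e) • v := by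
      funext c
      have := ht a b c
      rw [m3] at this
      simp only [Pi.add_apply, Pi.smul_apply, smul_eq_mul]
      linear_combination e * this - t c * h1
    rw [this, lf_comb]
    exact Ideal.mem_span_pair.2 ⟨_, _, rfl⟩

theorem Ind.notMem {u v : Fin n → K} (h : Ind u v) : lf v ∉ Ideal.span {lf u} := by
  obtain ⟨p, q, h1, h2, h3, h4⟩ := h.dual
  intro hv
  obtain ⟨c, hc⟩ := Ideal.mem_span_singleton'.1 hv
  have := congrArg (eval q) hc
  simp [eval_lf, h3, h4] at this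

theorem two_le_height {u v : Fin n → K} (h : Ind u v) : 2 ≤ (LI u v).height := by
  have := LI_prime h
  have := lf_prime h.ne_zero
  have h1 : (⊥ : Ideal (PR K n)) < Ideal.span {lf u} :=
    bot_lt_iff_ne_bot.2 (by simpa using lf_ne_zero h.ne_zero)
  have h2 : Ideal.span {lf u} < LI u v :=
    lt_of_le_of_ne (Ideal.span_mono (by simp)) fun e => h.notMem (e ▸ right_mem u v)
  have a1 := Ideal.height_add_one_le_of_lt_of_isPrime h1
  have a2 := Ideal.height_add_one_le_of_lt_of_isPrime h2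
  rw [Ideal.height_bot, zero_add] at a1
  calc (2 : ℕ∞) = 1 + 1 := rfl
    _ ≤ _ := by gcongr
    _ ≤ _ := a2

theorem height_le_two {u v : Fin n → K} (h : Ind u v) : (LI u v).height ≤ 2 := by
  have := LI_prime h
  have h1 : LI u v ∈ (Ideal.span {lf u, lf v}).minimalPrimes := by
    change LI u v ∈ (LI u v).minimalPrimes
    rw [Ideal.minimalPrimes_eq_subsingleton_self]; rfl
  refine (Ideal.height_le_card_of_mem_minimalPrimes_span (Set.toFinite _) h1).trans ?_
  exact_mod_cast (Set.ncard_insert_le _ _).trans (by simp)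

theorem LI_eq_of_le {u v u' v' : Fin n → K} (h : Ind u v) (h' : Ind u' v')
    (hle : LI u v ≤ LI u' v') : LI u v = LI u' v' := by
  by_contra hne
  have := LI_prime h
  have := LI_prime h'
  have h1 := Ideal.height_add_one_le_of_lt_of_isPrime (lt_of_le_of_ne hle hne)
  have h2 : (2 : ℕ∞) + 1 ≤ 2 := ((add_le_add_left (two_le_height h) 1).trans h1).trans
    (height_le_two h')
  exact absurd h2 (by decide)

theorem pd_LI {u v : Fin n → K} (h : Ind u v) : PdLT (PR K n) (PR K n ⧸ LI u v) 3 :=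
  pd_ci _ _ (lf_ne_zero h.ne_zero) (lf_prime h.ne_zero) h.notMem

/-! ### families of flats -/

variable {d : ℕ}

/-- the ideal of a union of codimension two flats -/
noncomputable def IE (ℓ : Fin d → Fin n → K) (E : Fin d → Fin d → Prop) : Ideal (PR K n) :=
  ⨅ i, ⨅ j, ⨅ _ : E i j, LI (ℓ i) (ℓ j)

theorem mem_IE {ℓ : Fin d → Fin n → K} {E : Fin d → Fin d → Prop} {f : PR K n} :
    f ∈ IE ℓ E ↔ ∀ i j, E i j → f ∈ LI (ℓ i) (ℓ j) := by simp [IE]

theorem exists_le_of_IE_le {ℓ : Fin d → Fin n → K} {E : Fin d → Fin d → Prop}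
    {P : Ideal (PR K n)} (hP : P.IsPrime) (h : IE ℓ E ≤ P) :
    ∃ i j, E i j ∧ LI (ℓ i) (ℓ j) ≤ P := by
  classical
  have h1 : (Finset.univ.filter fun p : Fin d × Fin d => E p.1 p.2).inf
      (fun p => LI (ℓ p.1) (ℓ p.2)) ≤ P := by
    refine le_trans (fun f hf => mem_IE.2 fun i j hij => ?_) h
    exact (Finset.inf_le (f := fun p : Fin d × Fin d => LI (ℓ p.1) (ℓ p.2)) (b := (i, j))
      (by simpa using hij)) hf
  obtain ⟨p, hp, h2⟩ := hP.inf_le'.1 h1
  exact ⟨p.1, p.2, by simpa using hp, h2⟩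

/-- combinatorial data for removing all flats in the hyperplane `h` -/
structure Leaf (inc : Fin d → Fin d → Fin d → Prop) (E E' : Fin d → Fin d → Prop) (h : Fin d)
    (D : Finset (Fin d)) : Prop where
  ne : ∀ i j, E i j → i ≠ j
  iff : ∀ i j, E' i j ↔ E i j ∧ ¬ inc i j h
  cov : ∀ i j, E i j → ∃ k ∈ D, inc i j k
  mem : ∀ k ∈ D, E h k
  sep : ∀ k ∈ D, ∀ k' ∈ D, k ≠ k' → ¬ inc h k k'

section leaf

variable {ℓ : Fin d → Fin n → K} {inc : Fin d → Fin d → Fin d → Prop}
  (hI : ∀ i j, i ≠ j → Ind (ℓ i) (ℓ j))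
  (hinc : ∀ i j k, i ≠ j → (lf (ℓ k) ∈ LI (ℓ i) (ℓ j) ↔ inc i j k))

include hI hinc in
theorem mem_ci {h : Fin d} {D : Finset (Fin d)} (h1 : ∀ k ∈ D, h ≠ k)
    (h2 : ∀ k ∈ D, ∀ k' ∈ D, k ≠ k' → ¬ inc h k k') (z : PR K n) :
    z ∈ Ideal.span {lf (ℓ h), ∏ k ∈ D, lf (ℓ k)} ↔ ∀ k ∈ D, z ∈ LI (ℓ h) (ℓ k) :=
  ⟨fun hz k hk => span_prod_le _ (fun k => lf (ℓ k)) D k hk hz,
    mem_span_prod _ _ D (fun k hk => LI_prime (hI _ _ (h1 k hk)))
      (fun k hk k' hk' hne hm => h2 k hk k' hk' hne ((hinc _ _ _ (h1 k hk)).1 hm)) z⟩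

include hI in
theorem pd_ci' {h : Fin d} {D : Finset (Fin d)} (h0 : ℓ h ≠ 0) (h1 : ∀ k ∈ D, h ≠ k) :
    PdLT (PR K n) (PR K n ⧸ Ideal.span {lf (ℓ h), ∏ k ∈ D, lf (ℓ k)}) 3 := by
  have := lf_prime h0
  refine pd_ci _ _ (lf_ne_zero h0) this fun hm => ?_
  obtain ⟨k, hk, h2⟩ := Ideal.IsPrime.prod_mem_iff.1 hm
  exact (hI _ _ (h1 k hk)).notMem h2

variable {E E' : Fin d → Fin d → Prop} {h : Fin d} {D : Finset (Fin d)} (H : Leaf inc E E' h D)

include hI hinc H in
theorem leaf_colon (r : PR K n) : r ∈ IE ℓ E' ↔ r * lf (ℓ h) ∈ IE ℓ E := by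
  rw [mem_IE, mem_IE]
  constructor
  · intro hr i j hij
    by_cases hc : inc i j h
    · exact Ideal.mul_mem_left _ _ ((hinc _ _ _ (H.ne _ _ hij)).2 hc)
    · exact Ideal.mul_mem_right _ _ (hr i j ((H.iff _ _).2 ⟨hij, hc⟩))
  · intro hr i j hij
    obtain ⟨h1, h2⟩ := (H.iff _ _).1 hij
    exact ((LI_prime (hI _ _ (H.ne _ _ h1))).mem_or_mem (hr i j h1)).resolve_right
      fun hm => h2 ((hinc _ _ _ (H.ne _ _ h1)).1 hm)

include hI hinc H in
theorem leaf_sup : Ideal.span {lf (ℓ h), ∏ k ∈ D, lf (ℓ k)} = IE ℓ E ⊔ Ideal.span {lf (ℓ h)} := by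
  apply le_antisymm
  · rw [Ideal.span_insert, sup_comm]
    refine sup_le_sup_right ?_ _
    rw [Ideal.span_singleton_le_iff_mem, mem_IE]
    intro i j hij
    obtain ⟨k, hk, h1⟩ := H.cov i j hij
    exact Ideal.mem_of_dvd _ (Finset.dvd_prod_of_mem _ hk) ((hinc _ _ _ (H.ne _ _ hij)).2 h1)
  · refine sup_le (fun z hz => ?_) (Ideal.span_mono (by simp))
    exact (mem_ci hI hinc (fun k hk => H.ne _ _ (H.mem k hk)) H.sep z).2
      fun k hk => mem_IE.1 hz _ _ (H.mem k hk)

include hI hinc H in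
theorem leaf_pd (h0 : ℓ h ≠ 0) (h1 : PdLT (PR K n) (PR K n ⧸ IE ℓ E') 3) :
    PdLT (PR K n) (PR K n ⧸ IE ℓ E) 3 :=
  pd_colon _ _ _ _ (leaf_colon hI hinc H) (leaf_sup hI hinc H) 3 h1
    (pd_ci' hI h0 fun k hk => H.ne _ _ (H.mem k hk))

include hI hinc H in
theorem leaf_bad {m : Ideal (PR K n)} {a b : PR K n}
    (ha : ∀ i j, i ≠ j → a ∉ LI (ℓ i) (ℓ j)) (h1 : Bad m (IE ℓ E') a b) : Bad m (IE ℓ E) a b := by
  refine bad_leaf (leaf_colon hI hinc H) (leaf_sup hI hinc H) (fun z hz => ?_) h1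
  rw [mem_ci hI hinc (fun k hk => H.ne _ _ (H.mem k hk)) H.sep] at hz ⊢
  intro k hk
  have h2 := H.ne _ _ (H.mem k hk)
  exact ((LI_prime (hI _ _ h2)).mem_or_mem (hz k hk)).resolve_left (ha _ _ h2)

end leaf

end Pool.Agent.H79.Jac
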