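import Mathlib
import Pool.Agent.H79.Jac1

set_option autoImplicit false

namespace Pool.Agent.H79.Jac

open MvPolynomial Pool.Agent.H79.PD Pool.Agent.H79.HSyz Pool.Agent.H79.ArrDefs
  Pool.Agent.H79.Arr Pool.Agent.H79.SymA Pool.Agent.H79.LocQ Pool.Agent.H79.Depth
  RingTheory.Sequence

/-- every localization at a prime has a regular sequence of length its dimension -/
def CM (R : Type) [CommRing R] : Prop :=
  ∀ (p : Ideal R) [p.IsPrime], ∃ rs : List (Localization.AtPrime p),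
    (∀ r ∈ rs, r ∈ IsLocalRing.maximalIdeal (Localization.AtPrime p)) ∧
    IsRegular (Localization.AtPrime p) rs ∧
    (rs.length : WithBot ℕ∞) = ringKrullDim (Localization.AtPrime p)

variable {K : Type} [Field K] {n d : ℕ}

theorem height_comap {R : Type} [CommRing R] (I : Ideal R) (c : ℕ∞)
    (h : ∀ P : Ideal R, P.IsPrime → I ≤ P → c ≤ P.height) (k : ℕ) :
    ∀ (p : Ideal (R ⧸ I)) [p.IsPrime], (k : ℕ∞) ≤ p.height →
      c + k ≤ (p.comap (Ideal.Quotient.mk I)).height := by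
  induction k with
  | zero =>
    intro p _ _
    simpa using h _ (Ideal.comap_isPrime _ p) fun r hr => by
      rw [Ideal.mem_comap, Ideal.Quotient.eq_zero_iff_mem.2 hr]; exact p.zero_mem
  | succ k ih =>
    intro p _ hk
    have h1 : ¬ p.height ≤ k := fun h0 => by
      have := hk.trans h0
      norm_cast at this
      omega
    rw [Ideal.height_le_iff] at h1
    push Not at h1
    obtain ⟨q, hq, hqp, h2⟩ := h1
    have h3 := ih q h2
    have h4 : q.comap (Ideal.Quotient.mk I) < p.comap (Ideal.Quotient.mk I) :=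
      lt_of_le_of_ne (Ideal.comap_mono hqp.le) fun e => hqp.ne
        (Ideal.comap_injective_of_surjective _ Ideal.Quotient.mk_surjective e)
    calc c + ((k + 1 : ℕ) : ℕ∞) = (c + k) + 1 := by push_cast; ring
      _ ≤ _ := by gcongr
      _ ≤ _ := Ideal.height_add_one_le_of_lt_of_isPrime h4

theorem height_le_n (P : Ideal (PR K n)) [P.IsPrime] : P.height ≤ n := by
  have h1 := Ideal.height_le_ringKrullDim_of_isPrime (I := P)
  rw [MvPolynomial.ringKrullDim_of_isNoetherianRing, ringKrullDim_eq_zero_of_field] at h1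
  simp only [Nat.card_eq_fintype_card, Fintype.card_fin, zero_add] at h1
  exact_mod_cast h1

theorem weaklyRegular_shift (a : Fin n → K) :
    IsWeaklyRegular (PR K n) ((List.finRange n).map fun i => (X i - C (a i) : PR K n)) := by
  let e : PR K n ≃ₐ[K] PR K n := AlgEquiv.ofAlgHom (aeval fun i => X i - C (a i))
    (aeval fun i => X i + C (a i)) (by ext i : 1; simp) (by ext i : 1; simp)
  refine (AddEquiv.isWeaklyRegular_congr (e := e.toAddEquiv) ?_).1
    (Mono.weaklyRegular_X (List.finRange n) (List.nodup_finRange n))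
  rw [List.forall₂_map_left_iff, List.forall₂_map_right_iff, List.forall₂_same]
  intro i _ x
  change e (X i * x) = (X i - C (a i)) * e x
  rw [map_mul]
  simp [e]

theorem cm_of_pd [IsAlgClosed K] (I : Ideal (PR K 4))
    (h1 : ∀ P : Ideal (PR K 4), P.IsPrime → I ≤ P → 2 ≤ P.height)
    (h2 : ∀ P : Ideal (PR K 4), P.IsPrime → I ≤ P → 3 ≤ P.height →
      ∃ a ∈ P, ∀ z, a * z ∈ I → z ∈ I)
    (h3 : PdLT (PR K 4) (PR K 4 ⧸ I) 3) : CM (PR K 4 ⧸ I) := by
  intro p _
  have hk := fun k => height_comap I 2 h1 k p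
  have hP := height_le_n (p.comap (Ideal.Quotient.mk I))
  have hIP : I ≤ p.comap (Ideal.Quotient.mk I) := fun r hr => by
    rw [Ideal.mem_comap, Ideal.Quotient.eq_zero_iff_mem.2 hr]; exact p.zero_mem
  obtain ⟨e, he⟩ := ENat.ne_top_iff_exists.1 (Ideal.height_ne_top_of_isPrime (I := p))
  have he2 : e ≤ 2 := by
    have := (hk e he.le).trans hP
    norm_cast at this
    omega
  suffices H : ∃ rs : List (PR K 4), (∀ r ∈ rs, r ∈ p.comap (Ideal.Quotient.mk I)) ∧
      IsWeaklyRegular (PR K 4 ⧸ I) rs ∧ rs.length = e by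
    obtain ⟨rs, a1, a2, a3⟩ := H
    have a4 := (isWeaklyRegular_map_algebraMap_iff (PR K 4 ⧸ I) (PR K 4 ⧸ I) rs).2 a2
    have a5 : ∀ r ∈ rs.map (algebraMap (PR K 4) (PR K 4 ⧸ I)), r ∈ p := by
      intro r hr
      obtain ⟨s, hs, rfl⟩ := List.mem_map.1 hr
      exact a1 s hs
    refine ⟨_, ?_, a4.isRegular_of_isLocalization_of_mem (Localization.AtPrime p) p a5, ?_⟩
    · intro r hr
      obtain ⟨s, hs, rfl⟩ := List.mem_map.1 hr
      exact (IsLocalization.AtPrime.to_map_mem_maximal_iff _ p s).2 (a5 s hs)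
    · rw [IsLocalization.AtPrime.ringKrullDim_eq_height p, ← he]
      simp [a3]
  interval_cases e
  · exact ⟨[], by simp, IsWeaklyRegular.nil _ _, rfl⟩
  · obtain ⟨a, ha, h4⟩ := h2 _ inferInstance hIP (hk 1 he.le)
    refine ⟨[a], by simpa using ha, ?_, rfl⟩
    rw [isWeaklyRegular_singleton_iff, isSMulRegular_iff_right_eq_zero_of_smul]
    intro m hm
    obtain ⟨z, rfl⟩ := Submodule.Quotient.mk_surjective I m
    rw [← Submodule.Quotient.mk_smul, Submodule.Quotient.mk_eq_zero] at hm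
    exact (Submodule.Quotient.mk_eq_zero I).2 (h4 z hm)
  · have h4 := hk 2 he.le
    have hPp : (p.comap (Ideal.Quotient.mk I)).IsPrime := inferInstance
    generalize p.comap (Ideal.Quotient.mk I) = P at *
    have hmax : P.IsMaximal := by
      obtain ⟨M, hM, hPM⟩ := Ideal.exists_le_maximal P hPp.ne_top
      rcases hPM.eq_or_lt with rfl | hlt
      · exact hM
      · have := ((add_le_add_left h4 1).trans
          (Ideal.height_add_one_le_of_lt_of_isPrime hlt)).trans (height_le_n M)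
        exact absurd this (by decide)
    obtain ⟨a, rfl⟩ := isMaximal_iff_eq_vanishingIdeal_singleton.1 hmax
    obtain ⟨rs, a1, a2, a3⟩ := exists_regular _ I hPp.ne_top hIP 2 fun i hi =>
      ext_of_pd _ _ (by
        intro r hr
        obtain ⟨j, -, rfl⟩ := List.mem_map.1 hr
        change _ ∈ Module.annihilator (PR K 4) (PR K 4 ⧸ _)
        rw [Ideal.annihilator_quotient]
        simp) (weaklyRegular_shift a) 2 _ h3 i (by simp; omega)
    exact ⟨rs, a1, a2.1, a3⟩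

theorem cm_IE [IsAlgClosed K] {ℓ : Fin d → Fin 4 → K} {E : Fin d → Fin d → Prop}
    (hI : ∀ i j, E i j → Ind (ℓ i) (ℓ j)) (h3 : PdLT (PR K 4) (PR K 4 ⧸ IE ℓ E) 3) :
    CM (PR K 4 ⧸ IE ℓ E) := by
  classical
  refine cm_of_pd _ (fun P hP h => ?_) (fun P hP h h4 => ?_) h3
  · obtain ⟨i, j, hij, h5⟩ := exists_le_of_IE_le hP h
    exact (two_le_height (hI i j hij)).trans (Ideal.height_mono h5)
  · have h5 : ¬ (P : Set (PR K 4)) ⊆ ⋃ p ∈ ((Finset.univ.filter fun p : Fin d × Fin d =>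
        E p.1 p.2 : Finset (Fin d × Fin d)) : Set (Fin d × Fin d)),
        (LI (ℓ p.1) (ℓ p.2) : Set (PR K 4)) := by
      obtain ⟨i, j, hij, -⟩ := exists_le_of_IE_le hP h
      rw [Ideal.subset_union_prime (i, j) (i, j)
        fun p hp _ _ => LI_prime (hI _ _ (by simpa using hp))]
      rintro ⟨p, hp, h6⟩
      have := (h4.trans (Ideal.height_mono h6)).trans (height_le_two (hI _ _ (by simpa using hp)))
      exact absurd this (by decide)
    obtain ⟨a, ha, h6⟩ := Set.not_subset.1 h5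
    refine ⟨a, ha, fun z hz => mem_IE.2 fun i j hij => ?_⟩
    refine ((LI_prime (hI i j hij)).mem_or_mem (mem_IE.1 hz i j hij)).resolve_left fun h7 => h6 ?_
    exact Set.mem_biUnion (x := (i, j)) (by simpa using hij) h7

theorem ι_eq_zero (J : Ideal (PR K n)) [Fact (J ≤ mm (Fin n) K)] (c : PR K n) (hc : ι J c = 0) :
    ∃ u, u ∉ mm (Fin n) K ∧ u * c ∈ J := by
  obtain ⟨⟨u, hu⟩, h⟩ := (IsLocalization.map_eq_zero_iff (nn J).primeCompl (RR J) _).1 hc
  obtain ⟨u, rfl⟩ := Ideal.Quotient.mk_surjective u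
  refine ⟨u, fun h0 => hu ((mk_mem_nn J u).2 ((mem_vars_iff u).1 h0)), ?_⟩
  rw [← Ideal.Quotient.eq_zero_iff_mem, map_mul]
  exact h

theorem pair_of_cm (J : Ideal (PR K n)) [Fact (J ≤ mm (Fin n) K)] (h : CM (PR K n ⧸ J))
    (hd : 2 ≤ ringKrullDim (RR J)) : ∃ a ∈ mm (Fin n) K, ∃ b ∈ mm (Fin n) K,
      (∀ c, a * c ∈ J → ∃ u, u ∉ mm (Fin n) K ∧ u * c ∈ J) ∧ ¬ Bad (mm (Fin n) K) J a b := by
  obtain ⟨rs, h1, h2, h3⟩ : ∃ rs : List (RR J), (∀ r ∈ rs, r ∈ IsLocalRing.maximalIdeal (RR J)) ∧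
      IsRegular (RR J) rs ∧ (rs.length : WithBot ℕ∞) = ringKrullDim (RR J) := h (nn J)
  rw [← h3] at hd
  have hp := (vars_maximal (σ := Fin n) (K := K)).isPrime
  have hu : ∀ s : PR K n, coeff 0 s ≠ 0 → s ∉ mm (Fin n) K := fun s hs h0 =>
    hs ((mem_vars_iff s).1 h0)
  match rs, h1, h2, hd with
  | [], _, _, hd => exact absurd hd (by simp)
  | [_], _, _, hd => exact absurd hd (by simp)
  | r1 :: r2 :: t, h1, h2, _ =>
    have h4 := h2.1
    rw [isWeaklyRegular_cons_iff, isWeaklyRegular_cons_iff] at h4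
    obtain ⟨h5, h6, -⟩ := h4
    obtain ⟨a, s1, hs1, e1⟩ := exists_frac J r1
    obtain ⟨b, s2, hs2, e2⟩ := exists_frac J r2
    refine ⟨a, ?_, b, ?_, fun c hc => ?_, ?_⟩
    · rw [mem_vars_iff, ← ι_mem_max J, ← e1]
      exact Ideal.mul_mem_right _ _ (h1 _ (by simp))
    · rw [mem_vars_iff, ← ι_mem_max J, ← e2]
      exact Ideal.mul_mem_right _ _ (h1 _ (by simp))
    · have h7 : ι J (s1 * c) = 0 := h5 (by
        change r1 * _ = r1 * 0
        rw [map_mul, ← mul_assoc, e1, ← map_mul, ι_of_mem J hc, mul_zero])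
      obtain ⟨u, h8, h9⟩ := ι_eq_zero J _ h7
      exact ⟨u * s1, fun h0 => (hp.mem_or_mem h0).elim h8 (hu _ hs1), by rwa [mul_assoc]⟩
    · rintro ⟨x, y, h7, h8⟩
      have h9 := ι_of_mem J h7
      rw [map_sub, map_mul, map_mul, ← e1, ← e2] at h9
      have h10 : (Submodule.Quotient.mk (ι J s2 * ι J x) : QuotSMulTop r1 (RR J)) = 0 := h6 (by
        change r2 • _ = r2 • (0 : QuotSMulTop r1 (RR J))
        rw [smul_zero, ← Submodule.Quotient.mk_smul, Submodule.Quotient.mk_eq_zero,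
          Submodule.mem_smul_pointwise_iff_exists]
        exact ⟨ι J s1 * ι J y, trivial, by simp only [smul_eq_mul]; linear_combination -h9⟩)
      rw [Submodule.Quotient.mk_eq_zero, Submodule.mem_smul_pointwise_iff_exists] at h10
      obtain ⟨w, -, hw⟩ := h10
      obtain ⟨z, s3, hs3, e3⟩ := exists_frac J w
      rw [smul_eq_mul] at hw
      obtain ⟨u, h11, h12⟩ := ι_eq_zero J (s1 * s2 * s3 * x - a * z) (by
        simp only [map_sub, map_mul, ← e1, ← e3]
        linear_combination (-ι J s1 * ι J s3) * hw)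
      refine h8 (u * (s1 * s2 * s3)) (u * z) (fun h0 => ?_) (by convert h12 using 1; ring)
      exact (hp.mem_or_mem h0).elim h11 fun h0 => (hp.mem_or_mem h0).elim
        (fun h0 => (hp.mem_or_mem h0).elim (hu _ hs1) (hu _ hs2)) (hu _ hs3)

theorem lf_mem_mm (u : Fin n → K) : lf u ∈ mm (Fin n) K :=
  Ideal.sum_mem _ fun k _ => Ideal.mul_mem_left _ _ (Ideal.subset_span ⟨k, rfl⟩)

theorem LI_le_mm (u v : Fin n → K) : LI u v ≤ mm (Fin n) K := by
  rw [LI, Ideal.span_le]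
  rintro _ (rfl | rfl) <;> exact lf_mem_mm _

theorem not_cm_IE {ℓ : Fin d → Fin 4 → K} (hI : ∀ i j, i ≠ j → Ind (ℓ i) (ℓ j))
    (i0 j0 : Fin d) (h0 : i0 ≠ j0) (e1 : lf (ℓ i0) = X 0) (e2 : lf (ℓ j0) = X 1)
    (H : ∀ a ∈ mm (Fin 4) K, ∀ b ∈ mm (Fin 4) K, (∀ i j, i ≠ j → a ∉ LI (ℓ i) (ℓ j)) →
      Bad (mm (Fin 4) K) (IE ℓ (· ≠ ·)) a b) : ¬ CM (PR K 4 ⧸ IE ℓ (· ≠ ·)) := by
  classical
  intro h
  have : Fact (IE ℓ (· ≠ ·) ≤ mm (Fin 4) K) :=
    ⟨fun f hf => LI_le_mm _ _ (mem_IE.1 hf i0 j0 h0)⟩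
  have hdim := card_le_dim (IE ℓ (· ≠ ·)) {0, 1} {2, 3} (by decide) (by
    intro f hf
    have := mem_IE.1 hf i0 j0 h0
    rw [LI, e1, e2] at this
    simpa [Set.image_insert_eq] using this)
  obtain ⟨a, ha, b, hb, h1, h2⟩ := pair_of_cm _ h hdim
  refine h2 (H a ha b hb fun i j hij hm => ?_)
  have hp := LI_prime (hI i j hij)
  obtain ⟨u, hu, h3⟩ := h1 (∏ k ∈ Finset.univ.filter fun k => lf (ℓ k) ∉ LI (ℓ i) (ℓ j), lf (ℓ k))
    (mem_IE.2 fun i' j' hij' => by
      by_cases c1 : lf (ℓ i') ∈ LI (ℓ i) (ℓ j)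
      · by_cases c2 : lf (ℓ j') ∈ LI (ℓ i) (ℓ j)
        · rw [LI_eq_of_le (hI _ _ hij') (hI _ _ hij) (by
            rw [LI, Ideal.span_le]; rintro _ (rfl | rfl) <;> assumption)]
          exact Ideal.mul_mem_right _ _ hm
        · exact Ideal.mul_mem_left _ _ (Ideal.mem_of_dvd _
            (Finset.dvd_prod_of_mem _ (by simpa using c2)) (right_mem _ _))
      · exact Ideal.mul_mem_left _ _ (Ideal.mem_of_dvd _
          (Finset.dvd_prod_of_mem _ (by simpa using c1)) (left_mem _ _)))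
  rcases hp.mem_or_mem (mem_IE.1 h3 i j hij) with h4 | h4
  · exact hu (LI_le_mm _ _ h4)
  · obtain ⟨k, hk, h5⟩ := Ideal.IsPrime.prod_mem_iff.1 h4
    exact (Finset.mem_filter.1 hk).2 h5

theorem pderiv_lf (k : Fin n) (u : Fin n → K) : pderiv k (lf u) = C (u k) := by
  classical
  simp [lf, Pi.single_apply]

theorem radical_jac [CharZero K] {ℓ : Fin d → Fin n → K} (hd : d ≠ 0) (h0 : ∀ i, ℓ i ≠ 0)
    (hI : ∀ i j, i ≠ j → Ind (ℓ i) (ℓ j)) :
    (Ideal.span (Set.range fun k : Fin n => pderiv (R := K) k (∏ a, lf (ℓ a)))).radical =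
      IE ℓ (· ≠ ·) := by
  classical
  have hsplit : ∀ i k, pderiv (R := K) k (∏ a, lf (ℓ a)) =
      lf (ℓ i) * pderiv k (∏ a ∈ Finset.univ.erase i, lf (ℓ a)) +
        C (ℓ i k) * ∏ a ∈ Finset.univ.erase i, lf (ℓ a) := by
    intro i k
    rw [← Finset.mul_prod_erase _ _ (Finset.mem_univ i), Derivation.leibniz, pderiv_lf]
    simp only [smul_eq_mul]; ring
  apply le_antisymm
  · intro f hf
    refine mem_IE.2 fun i j hij => ?_
    refine (LI_prime (hI i j hij)).radical_le_iff.2 ?_ hf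
    rw [Ideal.span_le]
    rintro _ ⟨k, rfl⟩
    simp only [hsplit i k]
    exact Ideal.add_mem _ (Ideal.mul_mem_right _ _ (left_mem _ _)) (Ideal.mul_mem_left _ _
      (Ideal.mem_of_dvd _ (Finset.dvd_prod_of_mem _ (by simpa using hij.symm)) (right_mem _ _)))
  · rw [Ideal.radical_eq_sInf]
    refine le_sInf ?_
    rintro P ⟨h1, hP⟩ f hf
    have h2 : ∀ k, pderiv (R := K) k (∏ a, lf (ℓ a)) ∈ P := fun k =>
      h1 (Ideal.subset_span ⟨k, rfl⟩)
    have hh : (∏ a, lf (ℓ a)).IsHomogeneous d := by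
      have := IsHomogeneous.prod Finset.univ (fun a => lf (ℓ a)) (fun _ => 1) fun a _ =>
        IsHomogeneous.sum _ _ _ fun k _ => (isHomogeneous_X K k).C_mul _
      simpa using this
    have h3 : (∏ a, lf (ℓ a)) ∈ P := by
      have h4 := P.mul_mem_left (C (d : K)⁻¹)
        (P.sum_mem fun k (_ : k ∈ Finset.univ) => P.mul_mem_left (X k) (h2 k))
      rw [hh.sum_X_mul_pderiv, nsmul_eq_mul, ← mul_assoc, ← map_natCast (C : K →+* PR K n),
        ← C_mul, inv_mul_cancel₀ (by exact_mod_cast hd)] at h4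
      simpa using h4
    obtain ⟨i, -, hi⟩ := Ideal.IsPrime.prod_mem_iff.1 h3
    obtain ⟨k, hk⟩ := Function.ne_iff.1 (h0 i)
    have h5 := P.sub_mem (h2 k) (P.mul_mem_right (pderiv k (∏ a ∈ Finset.univ.erase i, lf (ℓ a))) hi)
    rw [hsplit i k, add_sub_cancel_left] at h5
    have h6 := (hP.mem_or_mem h5).resolve_left fun h7 =>
      hP.ne_top (Ideal.eq_top_of_isUnit_mem _ h7 ((IsUnit.mk0 _ hk).map C))
    obtain ⟨j, hj, h7⟩ := Ideal.IsPrime.prod_mem_iff.1 h6
    refine (show LI (ℓ i) (ℓ j) ≤ P from ?_) (mem_IE.1 hf i j (Finset.ne_of_mem_erase hj).symm)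
    rw [LI, Ideal.span_le]
    rintro _ (rfl | rfl) <;> assumption

theorem lattice_iso' {α β : Fin d → Fin n → K} (h : SameInc α β) :
    Nonempty (↥{W : Set (Fin n → K) | ∃ S : Finset (Fin d),
        W = {x : Fin n → K | ∀ i ∈ S, ∑ j : Fin n, α i j * x j = 0}} ≃o
      ↥{W : Set (Fin n → K) | ∃ S : Finset (Fin d),
        W = {x : Fin n → K | ∀ i ∈ S, ∑ j : Fin n, β i j * x j = 0}}) := by
  have e : ∀ (γ : Fin d → Fin n → K) (s t : Finset (Fin d)),
      {x : Fin n → K | ∀ i ∈ s, ∑ j : Fin n, γ i j * x j = 0} ⊆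
        {x : Fin n → K | ∀ i ∈ t, ∑ j : Fin n, γ i j * x j = 0} ↔
      ∀ j ∈ t, (⨅ i ∈ (s : Set (Fin d)), hyper (γ i)) ≤ hyper (γ j) := by
    intro γ s t
    refine ⟨fun H j hj x hx => H (fun i hi => ?_) j hj, fun H x hx j hj => H j hj ?_⟩
    · simp only [Submodule.mem_iInf] at hx
      exact hx i hi
    · simp only [Submodule.mem_iInf]
      exact hx
  have key : ∀ s t : Finset (Fin d),
      {x : Fin n → K | ∀ i ∈ s, ∑ j : Fin n, α i j * x j = 0} ⊆
        {x : Fin n → K | ∀ i ∈ t, ∑ j : Fin n, α i j * x j = 0} ↔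
      {x : Fin n → K | ∀ i ∈ s, ∑ j : Fin n, β i j * x j = 0} ⊆
        {x : Fin n → K | ∀ i ∈ t, ∑ j : Fin n, β i j * x j = 0} := by
    intro s t
    rw [e, e]
    exact forall₂_congr fun j _ => h _ j
  let f : ↥{W : Set (Fin n → K) | ∃ S : Finset (Fin d),
        W = {x : Fin n → K | ∀ i ∈ S, ∑ j : Fin n, α i j * x j = 0}} →
      ↥{W : Set (Fin n → K) | ∃ S : Finset (Fin d),
        W = {x : Fin n → K | ∀ i ∈ S, ∑ j : Fin n, β i j * x j = 0}} :=
    fun Y => ⟨_, Y.2.choose, rfl⟩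
  have hf : ∀ a b, f a ≤ f b ↔ a ≤ b := by
    intro a b
    refine (key _ _).symm.trans ?_
    rw [← a.2.choose_spec, ← b.2.choose_spec]
    rfl
  have hs : Function.Surjective f := by
    rintro ⟨_, s, rfl⟩
    let a : ↥{W : Set (Fin n → K) | ∃ S : Finset (Fin d),
        W = {x : Fin n → K | ∀ i ∈ S, ∑ j : Fin n, α i j * x j = 0}} := ⟨_, s, rfl⟩
    refine ⟨a, Subtype.ext (Set.Subset.antisymm ((key _ _).1 ?_) ((key _ _).1 ?_))⟩
    · exact a.2.choose_spec.ge
    · exact a.2.choose_spec.le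
  exact ⟨RelIso.ofSurjective (OrderEmbedding.ofMapLEIff f hf) hs⟩

theorem Ind.linInd {u v : Fin n → K} (h : Ind u v) : LinearIndependent K ![u, v] := by
  obtain ⟨p, q, h1, h2, h3, h4⟩ := h.dual
  rw [LinearIndependent.pair_iff]
  intro s t hst
  have a1 := congrArg (fun w => pr w p) hst
  have a2 := congrArg (fun w => pr w q) hst
  have e : ∀ r, pr (s • u + t • v) r = s * pr u r + t * pr v r := fun r => by
    simp [pr, add_mul, Finset.sum_add_distrib, Finset.mul_sum, mul_assoc]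
  simp only [e, h1, h2, h3, h4] at a1 a2
  simp only [pr, Pi.zero_apply, zero_mul, Finset.sum_const_zero] at a1 a2
  exact ⟨by simpa using a1, by simpa using a2⟩

end Pool.Agent.H79.Jac
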