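import Mathlib
import Pool.Agent.H79.Jac2

set_option autoImplicit false

namespace Pool.Agent.H79.Jac

open MvPolynomial Pool.Agent.H79.PD Pool.Agent.H79.HSyz Pool.Agent.H79.ArrDefs
  Pool.Agent.H79.Arr Pool.Agent.H79.SymA Pool.Agent.H79.LocQ Pool.Agent.H79.Depth

variable {K : Type} [Field K] {n d : ℕ}

/-- extension of an ideal to one more variable -/
noncomputable def up (J : Ideal (PR K n)) : Ideal (PR K (n + 1)) :=
  J.map (rename (R := K) Fin.succ).toRingHom

theorem mem_up (J : Ideal (PR K n)) (f : PR K (n + 1)) :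
    f ∈ up J ↔ ∀ i, (finSuccEquiv K n f).coeff i ∈ J := by
  rw [← Ideal.mem_map_C_iff]
  have h1 : Ideal.map (Polynomial.C : PR K n →+* Polynomial (PR K n)) J =
      (up J).map (finSuccEquiv K n).toRingEquiv.toRingHom := by
    rw [up, Ideal.map_map]
    congr 1
    exact RingHom.ext fun f => (fse_rename f).symm
  rw [h1]
  exact (Ideal.apply_mem_of_equiv_iff (f := (finSuccEquiv K n).toRingEquiv)).symm

theorem rename_mem_up {J : Ideal (PR K n)} {f : PR K n} (h : f ∈ J) : rename Fin.succ f ∈ up J :=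
  Ideal.mem_map_of_mem (rename (R := K) Fin.succ).toRingHom h

theorem up_LI (α : Fin d → Fin n → K) (i j : Fin d) :
    up (LI (α i) (α j)) = LI (cone α i) (cone α j) := by
  rw [up, LI, LI, Ideal.map_span, Set.image_pair, lf_cone, lf_cone]
  rfl

theorem up_IE (α : Fin d → Fin n → K) (E : Fin d → Fin d → Prop) :
    up (IE α E) = IE (cone α) E := by
  ext f
  simp only [mem_IE, ← up_LI, mem_up]
  exact ⟨fun h i j hij k => h k i j hij, fun h k i j hij => h i j hij k⟩

theorem up_colon (J : Ideal (PR K n)) (r : PR K (n + 1)) : r ∈ up J ↔ r * X 0 ∈ up J := by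
  refine ⟨fun h => Ideal.mul_mem_right _ _ h, fun h => ?_⟩
  rw [mem_up] at h ⊢
  intro i
  have := h (i + 1)
  rwa [map_mul, finSuccEquiv_X_zero, Polynomial.coeff_mul_X] at this

theorem pd_up (J : Ideal (PR K n)) (p : ℕ) (h : PdLT (PR K n) (PR K n ⧸ J) (p + 1)) :
    PdLT (PR K (n + 1)) (PR K (n + 1) ⧸ up J) (p + 1) := by
  let _ : Algebra (PR K n) (PR K (n + 1)) := (rename (R := K) Fin.succ).toRingHom.toAlgebra
  let l : PR K (n + 1) ≃ₗ[PR K n] Polynomial (PR K n) :=
    { (finSuccEquiv K n).toAddEquiv with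
      map_smul' := fun r s => by
        change finSuccEquiv K n (rename Fin.succ r * s) = r • finSuccEquiv K n s
        rw [map_mul, fse_rename, Polynomial.smul_eq_C_mul] }
  have : Module.Flat (PR K n) (PR K (n + 1)) := Module.Flat.of_linearEquiv l
  exact pd_equiv (Algebra.TensorProduct.quotIdealMapEquivTensorQuot (PR K (n + 1)) J).toLinearEquiv
    _ (pd_baseChange (PR K (n + 1)) p _ h)

theorem pd_points (α : Fin d → Fin 3 → K) (E : Fin d → Fin d → Prop)
    (hI : ∀ i j, E i j → Ind (α i) (α j)) : PdLT (PR K 3) (PR K 3 ⧸ IE α E) 3 := by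
  classical
  have key : ∀ s : Finset (Fin d × Fin d), (∀ p ∈ s, E p.1 p.2) →
      PdLT (PR K 3) (PR K 3 ⧸ s.inf fun p => LI (α p.1) (α p.2)) 3 := by
    intro s
    induction s using Finset.induction_on with
    | empty => exact fun _ => pd_top _ (by simp) 3
    | insert p s hp ih =>
      intro h
      exact pd_inf _ _ _ _ Finset.inf_insert rfl 3 (pd_LI (hI _ _ (h p (by simp))))
        (ih fun q hq => h q (by simp [hq])) (hilbert K 3 _)
  have h1 : IE α E = (Finset.univ.filter fun p : Fin d × Fin d => E p.1 p.2).inf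
      fun p => LI (α p.1) (α p.2) := by
    ext f
    simp [mem_IE, Submodule.mem_finsetInf]
  rw [h1]
  exact key _ fun p hp => by simpa using hp

/-- restriction to the line spanned by `q` -/
noncomputable def ev (q : Fin n → K) : PR K n →ₐ[K] Polynomial K :=
  aeval fun k => Polynomial.C (q k) * Polynomial.X

theorem ev_X (q : Fin n → K) (k : Fin n) : ev q (X k) = Polynomial.C (q k) * Polynomial.X :=
  aeval_X _ _

theorem ev_C (q : Fin n → K) (c : K) : ev q (C c) = Polynomial.C c := aeval_C _ _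

theorem ev_lf (q t : Fin n → K) : ev q (lf t) = Polynomial.C (pr t q) * Polynomial.X := by
  simp only [lf, pr, map_sum, map_mul, ev_X, ev_C, Finset.sum_mul, mul_assoc]

theorem ev_coeff_zero (q : Fin n → K) (u : PR K n) : (ev q u).coeff 0 = coeff 0 u := by
  induction u using MvPolynomial.induction_on with
  | C a => simp
  | add p r hp hr => simp [hp, hr]
  | mul_X p i hp =>
    rw [map_mul, ev_X, ← mul_assoc, Polynomial.coeff_mul_X_zero, ← constantCoeff_eq]
    simp

theorem ev_rename (q : Fin n → K) (f : PR K n) :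
    ev (Fin.cons 0 q : Fin (n + 1) → K) (rename Fin.succ f) = ev q f := by
  rw [ev, aeval_rename]; rfl

theorem exists_pr {q : Fin n → K} (hq : q ≠ 0) : ∃ t, pr t q = 1 := by
  obtain ⟨a, ha⟩ := Function.ne_iff.1 hq
  have ha' : q a ≠ 0 := ha
  exact ⟨Pi.single a (q a)⁻¹, by simp [pr, Pi.single_apply, ha']⟩

theorem ev_surj {q : Fin n → K} (hq : q ≠ 0) (r : Polynomial K) : ∃ g, ev q g = r := by
  obtain ⟨t, ht⟩ := exists_pr hq
  refine ⟨Polynomial.aeval (lf t) r, ?_⟩
  rw [← Polynomial.aeval_algHom_apply, ev_lf, ht]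
  simp

/-- cross product -/
def cr {A : Type} [CommRing A] (u v : Fin 3 → A) : Fin 3 → A :=
  ![u 1 * v 2 - u 2 * v 1, u 2 * v 0 - u 0 * v 2, u 0 * v 1 - u 1 * v 0]

theorem cr_ne {u v : Fin 3 → K} (h : Ind u v) : cr u v ≠ 0 := by
  intro h0
  obtain ⟨a, b, h⟩ := h
  have h1 : u 1 * v 2 - u 2 * v 1 = 0 := congrFun h0 0
  have h2 : u 2 * v 0 - u 0 * v 2 = 0 := congrFun h0 1
  have h3 : u 0 * v 1 - u 1 * v 0 = 0 := congrFun h0 2
  apply h
  fin_cases a <;> fin_cases b <;> simp only [Fin.zero_eta, Fin.mk_one, Fin.reduceFinMk] <;>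
    first | ring1 | linear_combination h1 | linear_combination -h1 | linear_combination h2 |
      linear_combination -h2 | linear_combination h3 | linear_combination -h3

theorem lf_mem_LI3 {u v : Fin 3 → K} (h : Ind u v) (t : Fin 3 → K) (ht : pr t (cr u v) = 0) :
    lf t ∈ LI u v := by
  rw [mem_LI_iff h]
  simp only [pr, cr, Fin.sum_univ_three, Matrix.cons_val_zero, Matrix.cons_val_one,
    Matrix.cons_val] at ht
  intro a b c
  fin_cases a <;> fin_cases b <;> fin_cases c <;>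
    simp only [m3, Fin.zero_eta, Fin.mk_one, Fin.reduceFinMk] <;>
    first | ring1 | linear_combination ht | linear_combination -ht

theorem mem_LI3 {u v : Fin 3 → K} (h : Ind u v) (f : PR K 3) :
    f ∈ LI u v ↔ ev (cr u v) f = 0 := by
  constructor
  · intro hf
    obtain ⟨a, b, rfl⟩ := Ideal.mem_span_pair.1 hf
    have h1 : pr u (cr u v) = 0 := by simp [pr, cr, Fin.sum_univ_three]; ring
    have h2 : pr v (cr u v) = 0 := by simp [pr, cr, Fin.sum_univ_three]; ring
    simp [ev_lf, h1, h2]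
  · intro hf
    obtain ⟨t, ht⟩ := exists_pr (cr_ne h)
    have h1 := sub_aeval_mem (LI u v) (fun k => C (cr u v k) * lf t) (fun k => by
      have := lf_mem_LI3 h ((1 : K) • Pi.single k 1 + (- cr u v k) • t) (by
        have e : pr ((1 : K) • Pi.single k 1 + (- cr u v k) • t) (cr u v) =
            cr u v k - cr u v k * pr t (cr u v) := by
          simp [pr, add_mul, Finset.sum_add_distrib, Finset.mul_sum, Pi.single_apply, mul_assoc,
            sub_eq_add_neg]
        rw [e, ht]; ring)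
      rw [lf_comb] at this
      convert this using 1
      simp [lf, Pi.single_apply, apply_ite, sub_eq_add_neg]) f
    have h2 : (aeval fun k => C (cr u v k) * lf t : PR K 3 →ₐ[K] PR K 3) =
        (Polynomial.aeval (lf t)).comp (ev (cr u v)) := by
      ext k : 1
      simp [ev_X]
    rwa [h2, AlgHom.comp_apply, hf, map_zero, sub_zero] at h1

theorem coeff_ev_monomial (q : Fin 3 → K) (e : Fin 3 →₀ ℕ) (c : K) (D : ℕ) :
    (ev q (monomial e c)).coeff D =
      if e 0 + e 1 + e 2 = D then c * (q 0 ^ e 0 * q 1 ^ e 1 * q 2 ^ e 2) else 0 := by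
  rw [ev, aeval_monomial, Finsupp.prod_fintype _ _ (by simp), Fin.prod_univ_three]
  have : algebraMap K (Polynomial K) c * ((Polynomial.C (q 0) * Polynomial.X) ^ e 0 *
      (Polynomial.C (q 1) * Polynomial.X) ^ e 1 * (Polynomial.C (q 2) * Polynomial.X) ^ e 2) =
      Polynomial.C (c * (q 0 ^ e 0 * q 1 ^ e 1 * q 2 ^ e 2)) *
        Polynomial.X ^ (e 0 + e 1 + e 2) := by
    simp only [map_mul, map_pow, Polynomial.algebraMap_apply, Algebra.algebraMap_self,
      RingHom.id_apply]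
    ring
  rw [this, Polynomial.coeff_C_mul_X_pow]
  simp only [eq_comm]

theorem dvd_of_cert {ι : Type} [Fintype ι] (q : ι → Fin 3 → K) (c : ι → K) (D : ℕ)
    (hc : ∀ a b e, a + b + e = D → ∑ i, c i * (q i 0 ^ a * q i 1 ^ b * q i 2 ^ e) = 0)
    (i0 : ι) (h0 : c i0 ≠ 0) (hq : q i0 ≠ 0) (f : PR K 3) (hf : ∀ i, i ≠ i0 → ev (q i) f = 0) :
    Polynomial.X ^ (D + 1) ∣ ev (q i0) f := by
  have key : ∀ g : PR K 3, ∑ i, c i * (ev (q i) g).coeff D = 0 := by
    intro g
    induction g using MvPolynomial.induction_on' with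
    | monomial e r =>
      simp only [coeff_ev_monomial]
      split_ifs with h
      · have := congrArg (r * ·) (hc _ _ _ h)
        simp only [Finset.mul_sum, mul_zero] at this
        rw [← this]
        exact Finset.sum_congr rfl fun i _ => by ring
      · simp
    | add p r hp hr => simp [mul_add, Finset.sum_add_distrib, hp, hr]
  rw [Polynomial.X_pow_dvd_iff]
  intro t ht
  obtain ⟨l, hl⟩ := exists_pr hq
  have h1 := key (f * lf l ^ (D - t))
  rw [Finset.sum_eq_single i0 (fun i _ hi => by simp [hf i hi]) (by simp), map_mul, map_pow,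
    ev_lf, hl, Polynomial.C_1, one_mul] at h1
  have h2 := Polynomial.coeff_mul_X_pow (ev (q i0) f) (D - t) t
  rw [show t + (D - t) = D by omega] at h2
  rw [h2] at h1
  exact (mul_eq_zero.1 h1).resolve_left h0

section core

variable {α : Fin d → Fin 3 → K} (hI : ∀ i j, i ≠ j → Ind (α i) (α j)) {i0 j0 : Fin d}
  (h0 : i0 ≠ j0) {N : Finset (Fin d)}

/-- all pairs except one -/
def E2 (i0 j0 i j : Fin d) : Prop := i ≠ j ∧ ¬ (i = i0 ∧ j = j0) ∧ ¬ (i = j0 ∧ j = i0)

variable (hG : ∀ i j, E2 i0 j0 i j → ∃ k ∈ N, lf (α k) ∈ LI (α i) (α j))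
  (hp : ∀ k ∈ N, lf (α k) ∉ LI (α i0) (α j0))

include hG in
theorem G_mem : ∏ k ∈ N, lf (α k) ∈ IE α (E2 i0 j0) := mem_IE.2 fun i j hij => by
  obtain ⟨k, hk, h1⟩ := hG i j hij
  exact Ideal.mem_of_dvd _ (Finset.dvd_prod_of_mem _ hk) h1

theorem ev_G (q : Fin 3 → K) : ev q (∏ k ∈ N, lf (α k)) =
    Polynomial.C (∏ k ∈ N, pr (α k) q) * Polynomial.X ^ N.card := by
  simp [ev_lf, Finset.prod_mul_distrib]

include hI h0 hG hp in
theorem reduce (f : PR K 3) (hf : f ∈ IE α (E2 i0 j0))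
    (h1 : Polynomial.X ^ N.card ∣ ev (cr (α i0) (α j0)) f) :
    f ∈ IE α (· ≠ ·) ⊔ Ideal.span {∏ k ∈ N, lf (α k)} := by
  obtain ⟨r, hr⟩ := h1
  obtain ⟨g, hg⟩ := ev_surj (cr_ne (hI _ _ h0)) r
  have hγ : ∏ k ∈ N, pr (α k) (cr (α i0) (α j0)) ≠ 0 :=
    Finset.prod_ne_zero_iff.2 fun k hk h => hp k hk (lf_mem_LI3 (hI _ _ h0) _ h)
  set γ := ∏ k ∈ N, pr (α k) (cr (α i0) (α j0)) with hγ'
  have h2 : f - (C γ⁻¹ * g) * ∏ k ∈ N, lf (α k) ∈ LI (α i0) (α j0) := by
    rw [mem_LI3 (hI _ _ h0), map_sub, map_mul, map_mul, ev_G, ev_C, hg, hr, ← hγ']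
    have : Polynomial.C γ⁻¹ * Polynomial.C γ = 1 := by
      rw [← Polynomial.C_mul, inv_mul_cancel₀ hγ, Polynomial.C_1]
    linear_combination (-r * Polynomial.X ^ N.card) * this
  have h3 := mem_IE.1 (Ideal.sub_mem _ hf (Ideal.mul_mem_left _ (C γ⁻¹ * g) (G_mem hG)))
  rw [← sub_add_cancel f ((C γ⁻¹ * g) * ∏ k ∈ N, lf (α k))]
  refine Submodule.add_mem_sup (mem_IE.2 fun i j hij => ?_)
    (Ideal.mul_mem_left _ _ (Ideal.mem_span_singleton_self _))
  by_cases c1 : i = i0 ∧ j = j0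
  · rw [c1.1, c1.2]; exact h2
  by_cases c2 : i = j0 ∧ j = i0
  · rw [c2.1, c2.2, LI_comm]; exact h2
  exact h3 i j ⟨hij, c1, c2⟩

theorem prod_cone : ∏ k ∈ N, lf (cone α k) = rename Fin.succ (∏ k ∈ N, lf (α k)) := by
  simp [lf_cone]

include hI h0 hG hp in
theorem core_pd (hW : PdLT (PR K 4) (PR K 4 ⧸ Ideal.span {X 0, ∏ k ∈ N, lf (cone α k)}) 3)
    (H : ∀ f ∈ IE α (E2 i0 j0), Polynomial.X ^ N.card ∣ ev (cr (α i0) (α j0)) f) :
    PdLT (PR K 4) (PR K 4 ⧸ (IE (cone α) (· ≠ ·) ⊓ Ideal.span {X 0, ∏ k ∈ N, lf (cone α k)})) 3 := by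
  have h1 : IE α (E2 i0 j0) = IE α (· ≠ ·) ⊔ Ideal.span {∏ k ∈ N, lf (α k)} := by
    refine le_antisymm (fun f hf => reduce hI h0 hG hp f hf (H f hf)) (sup_le ?_ ?_)
    · exact fun f hf => mem_IE.2 fun i j hij => mem_IE.1 hf i j hij.1
    · rw [Ideal.span_singleton_le_iff_mem]; exact G_mem hG
  refine pd_inf _ _ _ _ rfl rfl 3 ?_ hW ?_
  · rw [← up_IE]
    exact pd_up _ 2 (pd_points α _ hI)
  · refine pd_nzd (up (IE α (E2 i0 j0))) _ (X 0) (up_colon _) ?_ 3
      (pd_up _ 2 (pd_points α _ fun i j h => hI i j h.1))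
    rw [h1, ← up_IE, up, up, Ideal.map_sup, Ideal.map_span, Set.image_singleton, prod_cone,
      Ideal.span_insert, sup_assoc, sup_comm (Ideal.span {X 0})]
    rfl

include hI h0 hG hp in
theorem core_bad {D : ℕ} (hD : N.card = D + 1) (f : PR K 3) (hf : f ∈ IE α (E2 i0 j0)) (c : K)
    (hc : c ≠ 0) (h1 : ev (cr (α i0) (α j0)) f = Polynomial.C c * Polynomial.X ^ D)
    (a b : PR K 4) (ha : a ∈ mm (Fin 4) K) (hb : b ∈ mm (Fin 4) K)
    (h2 : ∀ z, a * z ∈ Ideal.span {X 0, ∏ k ∈ N, lf (cone α k)} →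
      z ∈ Ideal.span {X 0, ∏ k ∈ N, lf (cone α k)})
    (hpr : (LI (cone α i0) (cone α j0)).IsPrime) (h3 : a ∉ LI (cone α i0) (cone α j0)) :
    Bad (mm (Fin 4) K) (IE (cone α) (· ≠ ·) ⊓ Ideal.span {X 0, ∏ k ∈ N, lf (cone α k)}) a b := by
  set W : Ideal (PR K 4) := Ideal.span {X 0, ∏ k ∈ N, lf (cone α k)} with hW
  have key : ∀ s ∈ mm (Fin 4) K, s * rename Fin.succ f ∈ IE (cone α) (· ≠ ·) ⊔ W := by
    intro s hs
    induction hs using Submodule.span_induction with
    | mem x hx =>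
      obtain ⟨k, rfl⟩ := hx
      refine Fin.cases ?_ (fun k => ?_) k
      · exact Ideal.mem_sup_right (Ideal.mul_mem_right _ _ (Ideal.subset_span (by simp)))
      · have h4 := reduce hI h0 hG hp (X k * f) (Ideal.mul_mem_left _ _ hf) (by
          rw [map_mul, h1, ev_X, hD]
          exact ⟨Polynomial.C (cr (α i0) (α j0) k) * Polynomial.C c, by ring⟩)
        obtain ⟨x, hx, y, hy, hxy⟩ := Submodule.mem_sup.1 h4
        obtain ⟨g, rfl⟩ := Ideal.mem_span_singleton'.1 hy
        rw [← rename_X, ← map_mul, ← hxy, map_add, map_mul, ← prod_cone, ← up_IE]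
        exact Submodule.add_mem_sup (rename_mem_up hx)
          (Ideal.mul_mem_left _ _ (Ideal.subset_span (by simp)))
    | zero => simp
    | add x y _ _ hx hy => rw [add_mul]; exact add_mem hx hy
    | smul r x _ hx => rw [smul_eq_mul, mul_assoc]; exact Ideal.mul_mem_left _ _ hx
  obtain ⟨x', hx', x, hx, e1⟩ := Submodule.mem_sup.1 (key a ha)
  obtain ⟨y', hy', y, hy, e2⟩ := Submodule.mem_sup.1 (key b hb)
  refine ⟨x, y, ⟨?_, W.sub_mem (W.mul_mem_left _ hx) (W.mul_mem_left _ hy)⟩, ?_⟩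
  · rw [show b * x - a * y = a * y' - b * x' by linear_combination b * e1 - a * e2]
    exact Ideal.sub_mem _ (Ideal.mul_mem_left _ _ hy') (Ideal.mul_mem_left _ _ hx')
  · rintro u z hu ⟨h4, h5⟩
    have h6 : z ∈ W := h2 z (by simpa using W.sub_mem (W.mul_mem_left u hx) h5)
    have h7 : a * (u * rename Fin.succ f - z) ∈ LI (cone α i0) (cone α j0) := by
      rw [show a * (u * rename Fin.succ f - z) = (u * x - a * z) + u * x' by
        linear_combination -u * e1]
      exact mem_IE.1 (Ideal.add_mem _ h4 (Ideal.mul_mem_left _ _ hx')) i0 j0 h0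
    have h8 := (hpr.mem_or_mem h7).resolve_left h3
    obtain ⟨r, s, h9⟩ := Ideal.mem_span_pair.1 h8
    obtain ⟨r', s', h10⟩ := Ideal.mem_span_pair.1 h6
    have h11 := congrArg (fun g => (ev (Fin.cons 0 (cr (α i0) (α j0)) : Fin 4 → K) g).coeff D) h9
    have z1 := (mem_LI3 (hI _ _ h0) _).1 (left_mem (α i0) (α j0))
    have z2 := (mem_LI3 (hI _ _ h0) _).1 (right_mem (α i0) (α j0))
    rw [prod_cone] at h10
    simp only [← h10, map_add, map_mul, map_sub, lf_cone, ev_rename, z1, z2, h1, ev_G,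
      ev_X, Fin.cons_zero, map_zero, zero_mul, mul_zero, zero_add, Polynomial.coeff_zero,
      Polynomial.coeff_sub, ← mul_assoc, hD] at h11
    have h12 := Polynomial.coeff_mul_X_pow
      (ev (Fin.cons 0 (cr (α i0) (α j0)) : Fin 4 → K) u * Polynomial.C c) D 0
    rw [zero_add] at h12
    rw [h12, Polynomial.coeff_mul_X_pow', if_neg (by omega), Polynomial.coeff_mul_C,
      ev_coeff_zero, sub_zero] at h11
    exact hu ((mem_vars_iff u).2 ((mul_eq_zero.1 h11.symm).resolve_right hc))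

end core

end Pool.Agent.H79.Jac
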