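import Mathlib
import Pool.Agent.H79.Jac3
import Pool.Agent.H79.Arr5

set_option autoImplicit false

namespace Pool.Agent.H79.Jac

open MvPolynomial Pool.Agent.H79.PD Pool.Agent.H79.HSyz Pool.Agent.H79.ArrDefs
  Pool.Agent.H79.Arr Pool.Agent.H79.SymA Pool.Agent.H79.LocQ Pool.Agent.H79.Depth

variable {K : Type} [Field K]

/-- triples of planes sharing a line -/
def tr : List (List ℕ) :=
  [[0, 1, 4], [0, 2, 5], [0, 3, 7], [4, 7, 10], [4, 8, 11], [4, 9, 12],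
    [5, 7, 13], [5, 8, 10], [5, 9, 11], [6, 7, 12], [6, 8, 13], [6, 9, 14]]

/-- plane `k` contains the line cut out by planes `i` and `j` -/
def inc (i j k : Fin 15) : Prop := k = i ∨ k = j ∨ ∃ t ∈ tr, i.val ∈ t ∧ j.val ∈ t ∧ k.val ∈ t

instance (i j k : Fin 15) : Decidable (inc i j k) := by unfold inc; infer_instance

instance (i0 j0 i j : Fin 11) : Decidable (E2 i0 j0 i j) := by unfold E2; infer_instance

/-- lines not in the first leaf -/
abbrev F1 (i j : Fin 15) : Prop := i ≠ j ∧ ¬ inc i j 1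

/-- lines not in the first two leaves -/
abbrev F2 (i j : Fin 15) : Prop := F1 i j ∧ ¬ inc i j 2

/-- lines not in the three leaves -/
abbrev F3 (i j : Fin 15) : Prop := F2 i j ∧ ¬ inc i j 3

theorem leaf1 : Leaf inc (· ≠ ·) F1 1 (Finset.univ.filter fun k => 2 ≤ k.val) :=
  ⟨fun _ _ h => h, fun _ _ => Iff.rfl, by decide +kernel, by decide +kernel, by decide +kernel⟩

theorem leaf2 : Leaf inc F1 F2 2 (Finset.univ.filter fun k => 3 ≤ k.val) :=
  ⟨fun _ _ h => h.1, fun _ _ => Iff.rfl, by decide +kernel, by decide +kernel, by decide +kernel⟩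

theorem leaf3 : Leaf inc F2 F3 3 (Finset.univ.filter fun k => 4 ≤ k.val) :=
  ⟨fun _ _ h => h.1.1, fun _ _ => Iff.rfl, by decide +kernel, by decide +kernel, by decide +kernel⟩

/-- the unlabelled lines -/
def NN : Finset (Fin 11) := {2, 4, 5, 6, 7, 8, 9, 10}

theorem F3_cases : ∀ i j, F3 i j → (∃ i' j' : Fin 11, i' ≠ j' ∧ i = i'.addNat 4 ∧ j = j'.addNat 4) ∨
    (∃ k ∈ NN, i = 0 ∧ j = k.addNat 4) ∨ ∃ k ∈ NN, j = 0 ∧ i = k.addNat 4 := by decide +kernel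

theorem F3_cone : ∀ i j : Fin 11, i ≠ j → F3 (i.addNat 4) (j.addNat 4) := by decide +kernel

theorem F3_w : ∀ k ∈ NN, F3 0 (k.addNat 4) := by decide +kernel

theorem w_sep : ∀ k k' : Fin 11, k ≠ k' → ¬ inc 0 (k.addNat 4) (k'.addNat 4) := by decide +kernel

theorem w_ne : ∀ k : Fin 11, (0 : Fin 15) ≠ k.addNat 4 := by decide

theorem add_ne : ∀ i j : Fin 11, i ≠ j → i.addNat 4 ≠ j.addNat 4 := by decide

theorem G_cov : ∀ i j, E2 0 1 i j → ∃ k ∈ NN, inc (i.addNat 4) (j.addNat 4) (k.addNat 4) := by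
  decide +kernel

theorem G_not : ∀ k ∈ NN, ¬ inc ((0 : Fin 11).addNat 4) ((1 : Fin 11).addNat 4) (k.addNat 4) := by
  decide +kernel

section main

variable {ℓ : Fin 15 → Fin 4 → K} {α : Fin 11 → Fin 3 → K}
  (hI : ∀ i j, i ≠ j → Ind (ℓ i) (ℓ j))
  (hinc : ∀ i j k, i ≠ j → (lf (ℓ k) ∈ LI (ℓ i) (ℓ j) ↔ inc i j k))
  (hw : lf (ℓ 0) = X 0) (hα : ∀ j : Fin 11, ℓ (j.addNat 4) = cone α j)

include hI hα in
theorem ind3 (i j : Fin 11) (h : i ≠ j) : Ind (α i) (α j) := by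
  obtain ⟨a, b, hab⟩ := hI _ _ (add_ne i j h)
  rw [hα, hα] at hab
  revert hab
  refine Fin.cases ?_ (fun a => ?_) a
  · simp [cone]
  · refine Fin.cases ?_ (fun b => ?_) b
    · simp [cone]
    · exact fun hab => ⟨a, b, hab⟩

include hinc hα in
theorem inc3 (i j k : Fin 11) (h : i ≠ j) :
    lf (α k) ∈ LI (α i) (α j) ↔ inc (i.addNat 4) (j.addNat 4) (k.addNat 4) := by
  rw [← hinc _ _ _ (add_ne i j h), hα, hα, hα, ← up_LI, lf_cone]
  refine ⟨rename_mem_up, fun h => ?_⟩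
  have := (mem_up _ _).1 h 0
  rwa [fse_rename, Polynomial.coeff_C_zero] at this

include hI hinc hw hα in
theorem mem_W (z : PR K 4) : z ∈ Ideal.span {X 0, ∏ k ∈ NN, lf (cone α k)} ↔
    ∀ k ∈ NN, z ∈ LI (ℓ 0) (ℓ (k.addNat 4)) := by
  simp only [← hw, ← hα]
  exact ⟨fun hz k hk => span_prod_le _ (fun k : Fin 11 => lf (ℓ (k.addNat 4))) NN k hk hz,
    mem_span_prod _ _ NN (fun k _ => LI_prime (hI _ _ (w_ne k)))
      (fun k _ k' _ hne hm => w_sep k k' hne ((hinc _ _ _ (w_ne k)).1 hm)) z⟩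

include hI hinc hw hα in
theorem I3_eq : IE ℓ F3 = IE (cone α) (· ≠ ·) ⊓ Ideal.span {X 0, ∏ k ∈ NN, lf (cone α k)} := by
  ext f
  rw [Ideal.mem_inf, mem_W hI hinc hw hα, mem_IE, mem_IE]
  constructor
  · intro h
    exact ⟨fun i j hij => by rw [← hα, ← hα]; exact h _ _ (F3_cone i j hij),
      fun k hk => h _ _ (F3_w k hk)⟩
  · rintro ⟨h1, h2⟩ i j hij
    rcases F3_cases i j hij with ⟨i, j, h, rfl, rfl⟩ | ⟨k, hk, rfl, rfl⟩ | ⟨k, hk, rfl, rfl⟩
    · rw [hα, hα]; exact h1 i j h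
    · exact h2 k hk
    · rw [LI_comm]; exact h2 k hk

include hI hinc hw hα in
theorem main_pd (H : ∀ f ∈ IE α (E2 0 1), Polynomial.X ^ 8 ∣ ev (cr (α 0) (α 1)) f) :
    PdLT (PR K 4) (PR K 4 ⧸ IE ℓ (· ≠ ·)) 3 := by
  refine leaf_pd hI hinc leaf1 (hI 1 0 (by decide)).ne_zero ?_
  refine leaf_pd hI hinc leaf2 (hI 2 0 (by decide)).ne_zero ?_
  refine leaf_pd hI hinc leaf3 (hI 3 0 (by decide)).ne_zero ?_
  rw [I3_eq hI hinc hw hα]
  refine core_pd (ind3 hI hα) (by decide : (0 : Fin 11) ≠ 1) (fun i j h => ?_) (fun k hk h => ?_)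
    ?_ H
  · obtain ⟨k, hk, h1⟩ := G_cov i j h
    exact ⟨k, hk, (inc3 hinc hα _ _ _ h.1).2 h1⟩
  · exact G_not k hk ((inc3 hinc hα _ _ _ (by decide)).1 h)
  · have h0 := (hI 0 1 (by decide)).ne_zero
    have := lf_prime h0
    rw [← hw]
    refine pd_ci _ _ (lf_ne_zero h0) this fun hm => ?_
    obtain ⟨k, -, h2⟩ := Ideal.IsPrime.prod_mem_iff.1 hm
    rw [← hα] at h2
    exact (hI _ _ (w_ne k)).notMem h2

include hI hinc hw hα in
theorem main_bad (e2 : lf (ℓ 4) = X 1) (f : PR K 3) (hf : f ∈ IE α (E2 0 1)) (c : K) (hc : c ≠ 0)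
    (h1 : ev (cr (α 0) (α 1)) f = Polynomial.C c * Polynomial.X ^ 7) :
    ¬ CM (PR K 4 ⧸ IE ℓ (· ≠ ·)) := by
  refine not_cm_IE hI 0 4 (by decide) hw e2 fun a ha b hb hn => ?_
  refine leaf_bad hI hinc leaf1 hn (leaf_bad hI hinc leaf2 hn (leaf_bad hI hinc leaf3 hn ?_))
  rw [I3_eq hI hinc hw hα]
  refine core_bad (ind3 hI hα) (by decide : (0 : Fin 11) ≠ 1) (fun i j h => ?_) (fun k hk h => ?_)
    (by decide) f hf c hc h1 a b ha hb (fun z hz => ?_) ?_ ?_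
  · obtain ⟨k, hk, h1⟩ := G_cov i j h
    exact ⟨k, hk, (inc3 hinc hα _ _ _ h.1).2 h1⟩
  · exact G_not k hk ((inc3 hinc hα _ _ _ (by decide)).1 h)
  · rw [mem_W hI hinc hw hα] at hz ⊢
    exact fun k hk => ((LI_prime (hI _ _ (w_ne k))).mem_or_mem (hz k hk)).resolve_left
      (hn _ _ (w_ne k))
  · rw [← hα, ← hα]; exact LI_prime (hI _ _ (by decide))
  · rw [← hα, ← hα]; exact hn _ _ (by decide)

end main

/-- cast of an integer table -/
def cs {d n : ℕ} (K : Type) [Field K] (L : Fin d → Fin n → ℤ) : Fin d → Fin n → K :=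
  fun i k => (L i k : K)

theorem ind_cs [CharZero K] {d n : ℕ} {L : Fin d → Fin n → ℤ} {i j : Fin d}
    (h : ∃ a b, L i a * L j b - L i b * L j a ≠ 0) : Ind (cs K L i) (cs K L j) := by
  obtain ⟨a, b, h⟩ := h
  exact ⟨a, b, by simp only [cs]; exact_mod_cast h⟩

theorem m3_cs [CharZero K] {d n : ℕ} (L : Fin d → Fin n → ℤ) (i j k : Fin d) (a b c : Fin n) :
    m3 (cs K L i) (cs K L j) (cs K L k) a b c = 0 ↔ m3 (L i) (L j) (L k) a b c = 0 := by
  simp only [m3, cs]; exact_mod_cast Iff.rfl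

theorem cr_cs {d : ℕ} (L : Fin d → Fin 3 → ℤ) (i j : Fin d) (k : Fin 3) :
    cr (cs K L i) (cs K L j) k = ((cr (L i) (L j) k : ℤ) : K) := by
  fin_cases k <;> simp [cr, cs]

theorem det_cs [CharZero K] {d : ℕ} (L : Fin d → Fin 4 → ℤ) (g : Fin 4 → Fin d) :
    (Matrix.of fun i => cs K L (g i)).det = 0 ↔ d4 (L (g 0)) (L (g 1)) (L (g 2)) (L (g 3)) = 0 := by
  rw [det_eq_d4]; simp only [d4, cs]; exact_mod_cast Iff.rfl

theorem span_cs [CharZero K] {d : ℕ} (L : Fin d → Fin 4 → ℤ) (g : Fin 4 → Fin d)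
    (h : d4 (L (g 0)) (L (g 1)) (L (g 2)) (L (g 3)) ≠ 0) :
    ⊤ ≤ Submodule.span K (Set.range (cs K L)) := by
  have h1 : LinearIndependent K fun i => cs K L (g i) :=
    Matrix.linearIndependent_rows_of_det_ne_zero (A := Matrix.of fun i => cs K L (g i))
      fun h0 => h ((det_cs L g).1 h0)
  rw [← h1.span_eq_top_of_card_eq_finrank (by simp)]
  exact Submodule.span_mono (by rintro _ ⟨i, rfl⟩; exact ⟨_, rfl⟩)

/-- the special arrangement -/
def LA : Fin 15 → Fin 4 → ℤ :=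
  ![![1, 0, 0, 0], ![1, -1, 0, 0], ![1, -4, -4, 2], ![1, 1, -1, 0],
    ![0, 1, 0, 0], ![0, 2, 2, -1], ![0, 0, 1, -1], ![0, 1, -1, 0],
    ![0, 1, 0, 2], ![0, 1, 1, 2], ![0, 5, 4, 0], ![0, 0, 0, 1],
    ![0, 3, -1, -2], ![0, 1, 3, -1], ![0, 2, 1, 5]]

/-- its eleven lines -/
def aA : Fin 11 → Fin 3 → ℤ :=
  ![![1, 0, 0], ![2, 2, -1], ![0, 1, -1], ![1, -1, 0], ![1, 0, 2], ![1, 1, 2],
    ![5, 4, 0], ![0, 0, 1], ![3, -1, -2], ![1, 3, -1], ![2, 1, 5]]

/-- the general arrangement -/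
def LB : Fin 15 → Fin 4 → ℤ :=
  ![![1, 0, 0, 0], ![1, -1, 0, 0], ![1, 0, -1, -2], ![1, 0, -2, -6],
    ![0, 1, 0, 0], ![0, 0, 1, 2], ![0, 1, -1, 1], ![0, 0, 1, 3],
    ![0, 2, 0, 1], ![0, 1, 1, 1], ![0, 2, 1, 3], ![0, 1, 0, -1],
    ![0, 1, -2, -2], ![0, 0, 2, -1], ![0, 1, -3, 1]]

/-- its eleven lines -/
def aB : Fin 11 → Fin 3 → ℤ :=
  ![![1, 0, 0], ![0, 1, 2], ![1, -1, 1], ![0, 1, 3], ![2, 0, 1], ![1, 1, 1],
    ![2, 1, 3], ![1, 0, -1], ![1, -2, -2], ![0, 2, -1], ![1, -3, 1]]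

theorem sym4 {ι : Type} [LinearOrder ι] (P : ι → ι → ι → ι → Prop)
    (h1 : ∀ a b c e, P a b c e → P b a c e) (h2 : ∀ a b c e, P a b c e → P a c b e)
    (h3 : ∀ a b c e, P a b c e → P a b e c)
    (h : ∀ a b, a ≤ b → ∀ c, b ≤ c → ∀ e, c ≤ e → P a b c e) (a b c e : ι) : P a b c e := by
  have s1 : ∀ a b c e, a ≤ b → b ≤ c → P a b c e := by
    intro a b c e ab bc
    rcases le_total c e with ce | ce
    · exact h a b ab c bc e ce
    rcases le_total b e with be | be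
    · exact h3 _ _ _ _ (h a b ab e be c ce)
    rcases le_total a e with ae | ae
    · exact h3 _ _ _ _ (h2 _ _ _ _ (h a e ae b be c bc))
    · exact h3 _ _ _ _ (h2 _ _ _ _ (h1 _ _ _ _ (h e a ae b ab c bc)))
  have s2 : ∀ a b c e, a ≤ b → P a b c e := by
    intro a b c e ab
    rcases le_total b c with bc | bc
    · exact s1 a b c e ab bc
    rcases le_total a c with ac | ac
    · exact h2 _ _ _ _ (s1 a c b e ac bc)
    · exact h2 _ _ _ _ (h1 _ _ _ _ (s1 c a b e ac ab))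
  rcases le_total a b with ab | ab
  · exact s2 a b c e ab
  · exact h1 _ _ _ _ (s2 b a c e ab)

theorem det_sym {d : ℕ} (L M : Fin d → Fin 4 → ℤ)
    (h : ∀ a b, a ≤ b → ∀ c, b ≤ c → ∀ e, c ≤ e →
      (d4 (L a) (L b) (L c) (L e) = 0 ↔ d4 (M a) (M b) (M c) (M e) = 0)) (a b c e : Fin d) :
    d4 (L a) (L b) (L c) (L e) = 0 ↔ d4 (M a) (M b) (M c) (M e) = 0 := by
  have e1 : ∀ a b c e : Fin 4 → ℤ, d4 b a c e = - d4 a b c e := fun _ _ _ _ => by
    simp only [d4]; ring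
  have e2 : ∀ a b c e : Fin 4 → ℤ, d4 a c b e = - d4 a b c e := fun _ _ _ _ => by
    simp only [d4]; ring
  have e3 : ∀ a b c e : Fin 4 → ℤ, d4 a b e c = - d4 a b c e := fun _ _ _ _ => by
    simp only [d4]; ring
  refine sym4 (fun a b c e => d4 (L a) (L b) (L c) (L e) = 0 ↔ d4 (M a) (M b) (M c) (M e) = 0)
    (fun a b c e H => ?_) (fun a b c e H => ?_) (fun a b c e H => ?_) h a b c e
  · rwa [e1 (L a), e1 (M a), neg_eq_zero, neg_eq_zero]
  · rwa [e2 (L a) (L b), e2 (M a) (M b), neg_eq_zero, neg_eq_zero]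
  · rwa [e3 (L a) (L b) (L c), e3 (M a) (M b) (M c), neg_eq_zero, neg_eq_zero]

theorem det_AB : ∀ i j k l : Fin 15, d4 (LA i) (LA j) (LA k) (LA l) = 0 ↔
    d4 (LB i) (LB j) (LB k) (LB l) = 0 := det_sym LA LB (by decide +kernel)

theorem m3_four (u v t : Fin 4 → ℤ) : (∀ a b c, m3 u v t a b c = 0) ↔
    m3 u v t 0 1 2 = 0 ∧ m3 u v t 0 1 3 = 0 ∧ m3 u v t 0 2 3 = 0 ∧ m3 u v t 1 2 3 = 0 := by
  refine ⟨fun h => ⟨h _ _ _, h _ _ _, h _ _ _, h _ _ _⟩, fun ⟨h1, h2, h3, h4⟩ a b c => ?_⟩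
  simp only [m3] at *
  fin_cases a <;> fin_cases b <;> fin_cases c <;>
    simp only [Fin.zero_eta, Fin.mk_one, Fin.reduceFinMk] <;>
    first | ring1 | linear_combination h1 | linear_combination -h1 | linear_combination h2 |
      linear_combination -h2 | linear_combination h3 | linear_combination -h3 |
      linear_combination h4 | linear_combination -h4

theorem ind_A : ∀ i j, i ≠ j → ∃ a b, LA i a * LA j b - LA i b * LA j a ≠ 0 := by decide +kernel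

theorem ind_B : ∀ i j, i ≠ j → ∃ a b, LB i a * LB j b - LB i b * LB j a ≠ 0 := by decide +kernel

theorem inc_A : ∀ i j k, i ≠ j → ((∀ a b c, m3 (LA i) (LA j) (LA k) a b c = 0) ↔ inc i j k) := by
  simp only [m3_four]
  decide +kernel

theorem inc_B : ∀ i j k, i ≠ j → ((∀ a b c, m3 (LB i) (LB j) (LB k) a b c = 0) ↔ inc i j k) := by
  simp only [m3_four]
  decide +kernel

theorem cone_A : ∀ (j : Fin 11) (k : Fin 3), LA (j.addNat 4) 0 = 0 ∧ LA (j.addNat 4) k.succ = aA j k := by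
  decide +kernel

theorem cone_B : ∀ (j : Fin 11) (k : Fin 3), LB (j.addNat 4) 0 = 0 ∧ LB (j.addNat 4) k.succ = aB j k := by
  decide +kernel

theorem cone_cs {L : Fin 15 → Fin 4 → ℤ} {a : Fin 11 → Fin 3 → ℤ}
    (h : ∀ (j : Fin 11) (k : Fin 3), L (j.addNat 4) 0 = 0 ∧ L (j.addNat 4) k.succ = a j k)
    (j : Fin 11) : cs K L (j.addNat 4) = cone (cs K a) j := by
  funext k
  refine Fin.cases ?_ (fun k => ?_) k
  · simp [cs, cone, (h j 0).1]
  · simp [cs, cone, (h j k).2]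

/-- one pair of lines for each of the thirty-seven points -/
def prs : Fin 37 → Fin 11 × Fin 11 :=
  ![(0, 1), (0, 2), (0, 3), (0, 4), (0, 5), (0, 9), (0, 10), (1, 2), (1, 3),
    (1, 4), (1, 5), (1, 8), (1, 10), (2, 3), (2, 4), (2, 5), (2, 6), (2, 7),
    (3, 4), (3, 5), (3, 7), (3, 10), (4, 5), (4, 8), (4, 10), (5, 6), (5, 9),
    (6, 7), (6, 8), (6, 9), (6, 10), (7, 8), (7, 9), (7, 10), (8, 9), (8, 10),
    (9, 10)]

/-- a linear dependency between the points in degree seven -/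
def cA : Fin 37 → ℤ :=
  ![2544519779802000000, -38874607746975000000, -139948587889110000000, -1822247238139453125,
    1110703078485000000, -297509753165625000, -88351381243125000, 460736091816000000,
    -8346668330000000, -3917823910000000, 1791341924980608, -23986677000000,
    184308696000000, -1439800286925000000, -5759201147700000000, 2827244199780000000,
    793278395000000, 186598117185480000000, -959866857950000000, -48593259683718750,
    25916405164650000000, 0, -2332476464818500000, -699611412500000,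
    4080133757700000000, -69842989125000, 8278532262000000, -27718080390000000,
    60878125000, 5612337500000, -1662727500000, 274408995861000000,
    0, -62199372395160000000, -4636478000000, 3832191000000,
    0]

theorem prs_E : ∀ i, i ≠ 0 → E2 0 1 (prs i).1 (prs i).2 := by decide +kernel

theorem cert_A : ∀ a < 8, ∀ b < 8, ∀ e < 8, a + b + e = 7 → ∑ i, cA i *
    (cr (aA (prs i).1) (aA (prs i).2) 0 ^ a * cr (aA (prs i).1) (aA (prs i).2) 1 ^ b *
      cr (aA (prs i).1) (aA (prs i).2) 2 ^ e) = 0 := by decide +kernel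

/-- a form of degree seven -/
def fB : List (ℕ × ℕ × ℕ × ℤ) :=
  [(0, 0, 7, -258), (0, 1, 6, 1114), (0, 2, 5, -440), (0, 3, 4, -2020), (0, 4, 3, 518),
    (0, 5, 2, 906), (0, 6, 1, 180), (1, 0, 6, -853), (1, 1, 5, 2016), (1, 2, 4, 2714),
    (1, 3, 3, -4348), (1, 4, 2, -3953), (1, 5, 1, -1284), (1, 6, 0, -180), (2, 0, 5, 161),
    (2, 1, 4, -2988), (2, 2, 3, 2208), (2, 3, 2, 4962), (2, 4, 1, 2383), (2, 5, 0, 378),
    (3, 0, 4, 1115), (3, 1, 3, -1758), (3, 2, 2, -2325), (3, 3, 1, 2236), (3, 4, 0, 1052),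
    (4, 0, 3, 113), (4, 1, 2, 1086), (4, 2, 1, -2209), (4, 3, 0, -830), (5, 0, 2, -262),
    (5, 1, 1, 498), (5, 2, 0, 52), (6, 0, 1, -16), (6, 1, 0, 32)]

/-- value of a form -/
def valL {A : Type} [CommRing A] (L : List (ℕ × ℕ × ℕ × ℤ)) (q : Fin 3 → A) : A :=
  (L.map fun t => (t.2.2.2 : A) * (q 0 ^ t.1 * q 1 ^ t.2.1 * q 2 ^ t.2.2.1)).sum

theorem ev_valL (L : List (ℕ × ℕ × ℕ × ℤ)) (D : ℕ) (h : ∀ t ∈ L, t.1 + t.2.1 + t.2.2.1 = D)
    (q : Fin 3 → ℤ) : ev (fun k => (q k : K)) (valL L X) =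
      Polynomial.C ((valL L q : ℤ) : K) * Polynomial.X ^ D := by
  induction L with
  | nil => simp [valL]
  | cons t L ih =>
    have h1 := ih fun s hs => h s (List.mem_cons_of_mem _ hs)
    simp only [valL, List.map_cons, List.sum_cons, map_add, Int.cast_add, add_mul] at h1 ⊢
    rw [h1, ← h t List.mem_cons_self]
    simp only [map_mul, map_pow, ev_X, map_intCast, Int.cast_mul, Int.cast_pow, Int.cast_id]
    ring

theorem fB_deg : ∀ t ∈ fB, t.1 + t.2.1 + t.2.2.1 = 7 := by decide +kernel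

theorem fB_zero : ∀ i j, E2 0 1 i j → valL fB (cr (aB i) (aB j)) = 0 := by decide +kernel

theorem fB_ne : valL fB (cr (aB 0) (aB 1)) ≠ 0 := by decide +kernel

theorem cm_A [CharZero K] [IsAlgClosed K] : CM (PR K 4 ⧸ IE (cs K LA) (· ≠ ·)) := by
  have hI : ∀ i j, i ≠ j → Ind (cs K LA i) (cs K LA j) := fun i j h => ind_cs (ind_A i j h)
  refine cm_IE hI (main_pd hI (fun i j k h => ?_) ?_ (cone_cs cone_A) fun f hf => ?_)
  · rw [mem_LI_iff (hI i j h), ← inc_A i j k h]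
    simp only [m3_cs]
  · simp [lf, cs, LA, Fin.sum_univ_four]
  · have h3 := ind3 hI (cone_cs cone_A)
    refine dvd_of_cert (fun i => cr (cs K aA (prs i).1) (cs K aA (prs i).2)) (fun i => (cA i : K)) 7
      (fun a b e h => ?_) 0 ?_ (cr_ne (h3 0 1 (by decide))) f fun i hi => ?_
    · simp only [cr_cs]
      exact_mod_cast cert_A a (by omega) b (by omega) e (by omega) h
    · exact Int.cast_ne_zero.2 (by decide +kernel)
    · exact (mem_LI3 (h3 _ _ (prs_E i hi).1) f).1 (mem_IE.1 hf _ _ (prs_E i hi))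

theorem not_cm_B [CharZero K] : ¬ CM (PR K 4 ⧸ IE (cs K LB) (· ≠ ·)) := by
  have hI : ∀ i j, i ≠ j → Ind (cs K LB i) (cs K LB j) := fun i j h => ind_cs (ind_B i j h)
  have h3 := ind3 hI (cone_cs cone_B)
  have e : ∀ i j, cr (cs K aB i) (cs K aB j) = fun k => ((cr (aB i) (aB j) k : ℤ) : K) :=
    fun i j => funext (cr_cs aB i j)
  refine main_bad hI (fun i j k h => ?_) ?_ (cone_cs cone_B) ?_ (valL fB X)
    (mem_IE.2 fun i j h => ?_) _ (Int.cast_ne_zero.2 fB_ne) ?_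
  · rw [mem_LI_iff (hI i j h), ← inc_B i j k h]
    simp only [m3_cs]
  · simp [lf, cs, LB, Fin.sum_univ_four]
  · simp [lf, cs, LB, Fin.sum_univ_four]
  · rw [mem_LI3 (h3 _ _ h.1), e, ev_valL fB 7 fB_deg, fB_zero i j h]
    simp
  · rw [e, ev_valL fB 7 fB_deg]

theorem same_AB [CharZero K] : SameInc (cs K LA) (cs K LB) :=
  sameInc_of_det (span_cs LA ![0, 4, 5, 6] (by decide +kernel))
    (span_cs LB ![0, 4, 5, 6] (by decide +kernel)) fun g => by
      rw [det_cs, det_cs]; exact det_AB _ _ _ _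

end Pool.Agent.H79.Jac
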