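import Mathlib

set_option autoImplicit false

namespace Pool.Agent.H79.UKDefs2

open MvPolynomial

variable {K : Type} [Field K] {n : ℕ}

/-- `r` is an element of degree `d` of `R = S/I`. -/
def IsDeg (I : Ideal (MvPolynomial (Fin n) K)) (d : ℕ) (r : MvPolynomial (Fin n) K ⧸ I) : Prop :=
  ∃ f : MvPolynomial (Fin n) K, f.IsHomogeneous d ∧ Ideal.Quotient.mk I f = r

/-- The ideal `J` of `R = S/I` has a free resolution `... → R^(b 1) → R^(b 0) → J → 0` in which the
basis of `R^(b 0)` goes to forms of degree `d` generating `J` and all matrices have linear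
entries. -/
def HasLinRes (I : Ideal (MvPolynomial (Fin n) K)) (d : ℕ)
    (J : Ideal (MvPolynomial (Fin n) K ⧸ I)) : Prop :=
  ∃ (b : ℕ → ℕ) (g : Fin (b 0) → MvPolynomial (Fin n) K ⧸ I)
    (A : ∀ i, Matrix (Fin (b i)) (Fin (b (i + 1))) (MvPolynomial (Fin n) K ⧸ I)),
    (∀ k, IsDeg I d (g k)) ∧ Ideal.span (Set.range g) = J ∧ (∀ i k l, IsDeg I 1 (A i k l)) ∧
    Function.Exact (A 0).mulVec (fun w => ∑ k, g k * w k) ∧
    ∀ i, Function.Exact (A (i + 1)).mulVec (A i).mulVec

/-- Every ideal of `S/I` generated by linear forms has a linear resolution. -/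
def UnivKoszul (I : Ideal (MvPolynomial (Fin n) K)) : Prop :=
  ∀ s : Set (MvPolynomial (Fin n) K ⧸ I), (∀ r ∈ s, IsDeg I 1 r) → HasLinRes I 1 (Ideal.span s)

end Pool.Agent.H79.UKDefs2
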