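import Mathlib
import Pool.Agent.H79.UKDefs2
import Pool.Agent.H79.Gin

set_option autoImplicit false

namespace Pool.Agent.H79.KFilt

open Submodule

/-- colon property: colons of ideals generated by linear forms are generated by linear forms -/
def CP {R : Type} [CommRing R] (Lin : R → Prop) : Prop :=
  ∀ s : Set R, (∀ v ∈ s, Lin v) → ∀ l, Lin l → l ∉ Ideal.span s →
    ∃ t : Set R, (∀ w ∈ t, Lin w) ∧ ∀ f, f * l ∈ Ideal.span s ↔ f ∈ Ideal.span t

/-- coefficients of a quadratic relation can be chosen linear -/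
def LP {R : Type} [CommRing R] (Lin : R → Prop) : Prop :=
  ∀ (β s : ℕ) (x : R) (y : Fin β → R) (g : Fin s → Fin β → R) (c : Fin s → R), Lin x →
    (∀ j, Lin (y j)) → (∀ k j, Lin (g k j)) → x • y = ∑ k, c k • g k →
    ∃ c' : Fin s → R, (∀ k, Lin (c' k)) ∧ (∀ k, c k = 0 → c' k = 0) ∧ x • y = ∑ k, c' k • g k

variable {R : Type} [CommRing R] {Lin : R → Prop}

def LQ (Lin : R → Prop) {β : ℕ} : List (Fin β → R) → Prop
  | [] => True
  | y :: L => LQ Lin L ∧ (∀ j, Lin (y j)) ∧ ∃ t : Set R, (∀ w ∈ t, Lin w) ∧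
      ∀ f : R, f • y ∈ span R {x | x ∈ L} ↔ f ∈ Ideal.span t

def Ind : List R → Prop
  | [] => True
  | x :: xs => Ind xs ∧ x ∉ Ideal.span {z | z ∈ xs}

lemma LQ.lin {β : ℕ} : ∀ {L : List (Fin β → R)}, LQ Lin L → ∀ y ∈ L, ∀ j, Lin (y j)
  | [], _, y, hy => by simp at hy
  | z :: L, h, y, hy => by
    rcases List.mem_cons.mp hy with rfl | hy
    · exact h.2.1
    · exact LQ.lin h.1 y hy

lemma setOf_cons {α : Type} (a : α) (L : List α) : {x | x ∈ a :: L} = insert a {x | x ∈ L} := by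
  ext x; simp

lemma exists_ind_list (l : List R) : ∃ xs : List R, Ind xs ∧ (∀ x ∈ xs, x ∈ l) ∧
    Ideal.span {z | z ∈ xs} = Ideal.span {z | z ∈ l} := by
  induction l with
  | nil => exact ⟨[], trivial, by simp, rfl⟩
  | cons a l ih =>
    obtain ⟨xs, h1, h2, h3⟩ := ih
    by_cases ha : a ∈ Ideal.span {z | z ∈ xs}
    · refine ⟨xs, h1, fun x hx => List.mem_cons_of_mem _ (h2 x hx), ?_⟩
      rw [setOf_cons, Ideal.span_insert, ← h3]
      exact (sup_eq_right.mpr ((Ideal.span_singleton_le_iff_mem _).mpr ha)).symm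
    · refine ⟨a :: xs, ⟨h1, ha⟩, ?_, ?_⟩
      · intro x hx
        rcases List.mem_cons.mp hx with rfl | hx
        · exact List.mem_cons_self
        · exact List.mem_cons_of_mem _ (h2 x hx)
      · rw [setOf_cons, setOf_cons, Ideal.span_insert, Ideal.span_insert, h3]

lemma exists_ind [IsNoetherianRing R] (t : Set R) : ∃ xs : List R, Ind xs ∧ (∀ x ∈ xs, x ∈ t) ∧
    Ideal.span {z | z ∈ xs} = Ideal.span t := by
  obtain ⟨s', h1, h2⟩ := (fg_span_iff_fg_span_finset_subset t).mp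
    (IsNoetherian.noetherian (span R t))
  obtain ⟨xs, h3, h4, h5⟩ := exists_ind_list s'.toList
  refine ⟨xs, h3, fun x hx => h1 (by simpa using h4 x hx), ?_⟩
  rw [h5]
  change span R _ = span R t
  rw [h2]
  congr 1
  ext x; simp

lemma append (hCP : CP Lin) {β : ℕ} (i : Fin β) (Z : Submodule R (Fin β → R))
    (L0 : List (Fin β → R)) (h0 : LQ Lin L0)
    (hZ : ∀ z, z ∈ span R {x | x ∈ L0} ↔ z ∈ Z ∧ z i = 0) (y : R → Fin β → R) :
    ∀ xs : List R, Ind xs → (∀ x ∈ xs, y x ∈ Z ∧ y x i = x ∧ ∀ j, Lin (y x j)) →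
      LQ Lin (xs.map y ++ L0) ∧ ∀ z, z ∈ span R {x | x ∈ xs.map y ++ L0} ↔
        z ∈ Z ∧ z i ∈ Ideal.span {w | w ∈ xs} := by
  intro xs
  induction xs with
  | nil =>
    intro _ _
    refine ⟨h0, fun z => ?_⟩
    simpa using hZ z
  | cons a xs ih =>
    intro hI hy
    obtain ⟨h1, h2⟩ := ih hI.1 fun x hx => hy x (List.mem_cons_of_mem _ hx)
    obtain ⟨ha1, ha2, ha3⟩ := hy a List.mem_cons_self
    have hla : Lin a := ha2 ▸ ha3 i
    have hlx : ∀ v ∈ {w | w ∈ xs}, Lin v := fun v hv => by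
      obtain ⟨-, h3, h4⟩ := hy v (List.mem_cons_of_mem _ hv)
      exact h3 ▸ h4 i
    obtain ⟨t, ht1, ht2⟩ := hCP _ hlx a hla hI.2
    refine ⟨⟨h1, ha3, t, ht1, fun f => ?_⟩, fun z => ?_⟩
    · refine (h2 _).trans ?_
      rw [← ht2, Pi.smul_apply, ha2, smul_eq_mul]
      exact ⟨fun h => h.2, fun h => ⟨Z.smul_mem _ ha1, h⟩⟩
    · rw [List.map_cons, List.cons_append, setOf_cons, setOf_cons, mem_span_insert,
        Ideal.mem_span_insert]
      constructor
      · rintro ⟨c, w, hw, rfl⟩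
        obtain ⟨h3, h4⟩ := (h2 w).mp hw
        exact ⟨Z.add_mem (Z.smul_mem _ ha1) h3, c, w i, h4, by simp [ha2]⟩
      · rintro ⟨h3, c, w, hw, h4⟩
        refine ⟨c, z - c • y a, (h2 _).mpr ⟨Z.sub_mem h3 (Z.smul_mem _ ha1), ?_⟩, by simp⟩
        simpa [ha2, h4] using hw

def syz {β s : ℕ} (g : Fin s → Fin β → R) (T : List (Fin s)) : Submodule R (Fin s → R) where
  carrier := {z | ∑ k, z k • g k = 0 ∧ ∀ k, k ∉ T → z k = 0}
  add_mem' := by
    rintro a b ⟨ha, ha'⟩ ⟨hb, hb'⟩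
    refine ⟨?_, fun k hk => by simp [ha' k hk, hb' k hk]⟩
    simp only [Pi.add_apply, add_smul, Finset.sum_add_distrib, ha, hb, add_zero]
  zero_mem' := by simp
  smul_mem' := by
    rintro c a ⟨ha, ha'⟩
    refine ⟨?_, fun k hk => by simp [ha' k hk]⟩
    simp only [Pi.smul_apply, smul_eq_mul, mul_smul, ← Finset.smul_sum, ha, smul_zero]

lemma mem_span_map {β s : ℕ} (g : Fin s → Fin β → R) (T : List (Fin s)) (v : Fin β → R) :
    v ∈ span R {x | x ∈ T.map g} ↔
      ∃ c : Fin s → R, (∀ k, k ∉ T → c k = 0) ∧ v = ∑ k, c k • g k := by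
  constructor
  · intro hv
    induction hv using span_induction with
    | mem x hx =>
      obtain ⟨k, hk, rfl⟩ := List.mem_map.mp hx
      refine ⟨Pi.single k 1, fun j hj => ?_, ?_⟩
      · rw [Pi.single_apply, if_neg]
        rintro rfl
        exact hj hk
      · simp [Pi.single_apply]
    | zero => exact ⟨0, by simp, by simp⟩
    | add a b _ _ ha hb =>
      obtain ⟨c, hc, rfl⟩ := ha
      obtain ⟨d, hd, rfl⟩ := hb
      exact ⟨c + d, fun k hk => by simp [hc k hk, hd k hk], by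
        simp [add_smul, Finset.sum_add_distrib]⟩
    | smul r a _ ha =>
      obtain ⟨c, hc, rfl⟩ := ha
      exact ⟨r • c, fun k hk => by simp [hc k hk], by simp [Finset.smul_sum, mul_smul]⟩
  · rintro ⟨c, hc, rfl⟩
    refine sum_mem fun k _ => ?_
    by_cases hk : k ∈ T
    · exact smul_mem _ _ (subset_span (List.mem_map.mpr ⟨k, hk, rfl⟩))
    · rw [hc k hk, zero_smul]; exact zero_mem _

lemma step_aux [IsNoetherianRing R] (hCP : CP Lin) (hLP : LP Lin) (hneg : ∀ x, Lin x → Lin (-x))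
    {β s : ℕ} (g : Fin s → Fin β → R) (hg : ∀ k j, Lin (g k j)) :
    ∀ T : List (Fin s), T.Nodup → LQ Lin (T.map g) →
      ∃ L : List (Fin s → R), LQ Lin L ∧ ∀ z, z ∈ span R {x | x ∈ L} ↔ z ∈ syz g T := by
  intro T
  induction T with
  | nil =>
    intro _ _
    refine ⟨[], trivial, fun z => ?_⟩
    simp only [List.not_mem_nil, Set.ofPred_false, span_empty, mem_bot]
    constructor
    · rintro rfl; exact zero_mem _
    · intro h; funext k; exact h.2 k (by simp)
  | cons i T ih =>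
    intro hnd hLQ
    obtain ⟨hi, hnd'⟩ := List.nodup_cons.mp hnd
    obtain ⟨hL, -, t, ht1, ht2⟩ := hLQ
    obtain ⟨L0, h0, hZ⟩ := ih hnd' hL
    obtain ⟨xs, hx1, hx2, hx3⟩ := exists_ind t
    have hy : ∀ x : R, ∃ y : Fin s → R, x ∈ xs →
        y ∈ syz g (i :: T) ∧ y i = x ∧ ∀ j, Lin (y j) := by
      intro x
      by_cases hx : x ∈ xs
      swap
      · exact ⟨0, fun h => absurd h hx⟩
      have hlx := ht1 x (hx2 x hx)
      obtain ⟨c, hc1, hc2⟩ := (mem_span_map g T _).mp ((ht2 x).mpr (Ideal.subset_span (hx2 x hx)))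
      obtain ⟨c', h1, h2, h3⟩ := hLP β s x (g i) g c hlx (hg i) hg hc2
      refine ⟨Function.update (-c') i x, fun _ => ⟨⟨?_, ?_⟩, by simp, ?_⟩⟩
      · have h4 : Function.update (-c') i x = Pi.single i x - c' := by
          funext k
          by_cases hk : k = i
          · subst hk; simp [h2 k (hc1 k hi)]
          · simp [hk]
        rw [h4]
        simp only [Pi.sub_apply, sub_smul, Finset.sum_sub_distrib, ← h3]
        simp [Pi.single_apply]
      · intro k hk
        rw [List.mem_cons, not_or] at hk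
        simp [hk.1, h2 k (hc1 k hk.2)]
      · intro j
        by_cases hj : j = i
        · subst hj; simpa using hlx
        · simpa [hj] using hneg _ (h1 j)
    choose y hy using hy
    obtain ⟨h1, h2⟩ := append hCP i (syz g (i :: T)) L0 h0 (fun z => by
      rw [hZ]
      constructor
      · rintro ⟨h1, h2⟩
        exact ⟨⟨h1, fun k hk => h2 k fun h => hk (List.mem_cons_of_mem _ h)⟩, h2 i hi⟩
      · rintro ⟨⟨h1, h2⟩, h3⟩
        refine ⟨h1, fun k hk => ?_⟩
        by_cases hki : k = i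
        · rw [hki, h3]
        · exact h2 k (by simp [hki, hk])) y xs hx1 hy
    refine ⟨_, h1, fun z => ?_⟩
    rw [h2, hx3]
    refine ⟨fun h => h.1, fun h => ⟨h, ?_⟩⟩
    rw [← ht2, mem_span_map]
    refine ⟨Pi.single i (z i) - z, fun k hk => ?_, ?_⟩
    · by_cases hki : k = i
      · subst hki; simp
      · simp [hki, h.2 k (by simp [hki, hk])]
    · simp only [Pi.sub_apply, sub_smul, Finset.sum_sub_distrib, h.1]
      simp [Pi.single_apply]

lemma step [IsNoetherianRing R] (hCP : CP Lin) (hLP : LP Lin) (hneg : ∀ x, Lin x → Lin (-x))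
    {β : ℕ} (L : List (Fin β → R)) (hL : LQ Lin L) :
    ∃ L' : List (Fin L.length → R), LQ Lin L' ∧
      ∀ z, z ∈ span R {x | x ∈ L'} ↔ ∑ k, z k • L.get k = 0 := by
  obtain ⟨L', h1, h2⟩ := step_aux hCP hLP hneg L.get (fun k => hL.lin _ (List.get_mem _ _))
    (List.finRange L.length) (List.nodup_finRange _) (by rwa [List.map_get_finRange])
  refine ⟨L', h1, fun z => ?_⟩
  rw [h2]
  exact ⟨fun h => h.1, fun h => ⟨h, fun k hk => absurd (List.mem_finRange k) hk⟩⟩

lemma range_mulVec {β : ℕ} (L : List (Fin β → R)) (z : Fin β → R) :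
    z ∈ Set.range (Matrix.mulVec (Matrix.of fun k l => L.get l k)) ↔ z ∈ span R {x | x ∈ L} := by
  rw [← Set.range_list_get, mem_span_range_iff_exists_fun]
  refine exists_congr fun c => ?_
  refine Eq.congr_left ?_
  funext k
  simp [Matrix.mulVec, dotProduct, mul_comm]

theorem resolution [IsNoetherianRing R] (hCP : CP Lin) (hLP : LP Lin)
    (hneg : ∀ x, Lin x → Lin (-x)) (s : Set R) (hs : ∀ r ∈ s, Lin r) :
    ∃ (b : ℕ → ℕ) (g : Fin (b 0) → R) (A : ∀ i, Matrix (Fin (b i)) (Fin (b (i + 1))) R),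
      (∀ k, Lin (g k)) ∧ Ideal.span (Set.range g) = Ideal.span s ∧ (∀ i k l, Lin (A i k l)) ∧
      Function.Exact (A 0).mulVec (fun w => ∑ k, g k * w k) ∧
      ∀ i, Function.Exact (A (i + 1)).mulVec (A i).mulVec := by
  obtain ⟨xs, hx1, hx2, hx3⟩ := exists_ind s
  obtain ⟨h1, -⟩ := append hCP (0 : Fin 1) ⊤ [] trivial (fun z => by
    simp only [List.not_mem_nil, Set.ofPred_false, span_empty, mem_bot, mem_top, true_and]
    exact ⟨fun h => by rw [h]; rfl, fun h => funext fun k => by rw [Subsingleton.elim k 0, h]; rfl⟩)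
    (fun x _ => x) xs hx1 (fun x hx => ⟨trivial, rfl, fun _ => hs x (hx2 x hx)⟩)
  rw [List.append_nil] at h1
  let St := Σ β : ℕ, {L : List (Fin β → R) // LQ Lin L}
  let nx : St → St := fun σ => ⟨σ.2.1.length, (step hCP hLP hneg σ.2.1 σ.2.2).choose,
    (step hCP hLP hneg σ.2.1 σ.2.2).choose_spec.1⟩
  let st : ℕ → St := fun i => Nat.rec ⟨1, xs.map (fun x _ => x), h1⟩ (fun _ σ => nx σ) i
  have key : ∀ i (z : Fin (st i).2.1.length → R),
      z ∈ Set.range (Matrix.mulVec (Matrix.of fun k l => (st (i + 1)).2.1.get l k)) ↔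
        ∑ k, z k • (st i).2.1.get k = 0 := fun i z =>
    (range_mulVec _ z).trans ((step hCP hLP hneg (st i).2.1 (st i).2.2).choose_spec.2 z)
  refine ⟨fun i => (st i).2.1.length, fun k => (st 0).2.1.get k (0 : Fin 1),
    fun i => Matrix.of fun k l => (st (i + 1)).2.1.get l k,
    fun k => (st 0).2.2.lin _ (List.get_mem _ _) _, ?_,
    fun i k l => (st (i + 1)).2.2.lin _ (List.get_mem _ _) _, ?_, ?_⟩
  · rw [← hx3]
    congr 1
    ext x
    constructor
    · rintro ⟨k, rfl⟩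
      obtain ⟨a, ha, h⟩ := List.mem_map.mp (List.get_mem (xs.map fun x (_ : Fin 1) => x) k)
      have h' : a = (xs.map fun x (_ : Fin 1) => x).get k 0 := congrFun h 0
      rw [h'] at ha
      exact ha
    · intro hx
      obtain ⟨k, hk⟩ := List.get_of_mem (List.mem_map_of_mem (f := fun x (_ : Fin 1) => x) hx)
      exact ⟨k, congrFun hk 0⟩
  · intro w
    refine Iff.trans ?_ (key 0 w).symm
    constructor
    · intro h
      funext j
      rw [Fin.fin_one_eq_zero j, Finset.sum_apply]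
      simpa [mul_comm] using h
    · intro h
      have := congrFun h (0 : Fin 1)
      rw [Finset.sum_apply] at this
      simpa [mul_comm] using this
  · intro i w
    refine Iff.trans ?_ (key (i + 1) w).symm
    refine Eq.congr_left ?_
    funext k
    simp [Matrix.mulVec, dotProduct, mul_comm]

section graded

open MvPolynomial UKDefs2

variable {K : Type} [Field K] {n : ℕ} {I : Ideal (MvPolynomial (Fin n) K)}

lemma coef_deg (hI : ∀ f ∈ I, ∀ d, homogeneousComponent d f ∈ I) {ι : Type} [Fintype ι]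
    (c : ι → MvPolynomial (Fin n) K ⧸ I) (e : ℕ) :
    ∃ c' : ι → MvPolynomial (Fin n) K ⧸ I, (∀ k, IsDeg I e (c' k)) ∧ (∀ k, c k = 0 → c' k = 0) ∧
      ∀ (d : ℕ) (g : ι → MvPolynomial (Fin n) K ⧸ I) (w : MvPolynomial (Fin n) K ⧸ I),
        (∀ k, IsDeg I d (g k)) → IsDeg I (e + d) w → w = ∑ k, c k * g k → w = ∑ k, c' k * g k := by
  choose C hC using fun k => Ideal.Quotient.mk_surjective (c k)
  refine ⟨fun k => Ideal.Quotient.mk I (homogeneousComponent e (C k)),
    fun k => ⟨_, homogeneousComponent_isHomogeneous _ _, rfl⟩, fun k hk => ?_, ?_⟩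
  · rw [Ideal.Quotient.eq_zero_iff_mem]
    apply hI
    rw [← Ideal.Quotient.eq_zero_iff_mem, hC, hk]
  · rintro d g w hg ⟨W, hW, rfl⟩ h
    choose G hG1 hG2 using hg
    have h1 : W - ∑ k, C k * G k ∈ I := by
      rw [← Ideal.Quotient.eq, h, map_sum]
      simp only [map_mul, hC, hG2]
    have h2 := hI _ h1 (e + d)
    rw [map_sub, map_sum, homogeneousComponent_of_mem hW, if_pos rfl] at h2
    simp only [fun k => Gin.hc_mul (hG1 k) e (C k)] at h2
    rw [← Ideal.Quotient.eq, map_sum] at h2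
    simpa only [map_mul, hG2] using h2

lemma IsDeg.mul {d e : ℕ} {a b : MvPolynomial (Fin n) K ⧸ I} (ha : IsDeg I d a) (hb : IsDeg I e b) :
    IsDeg I (d + e) (a * b) := by
  obtain ⟨f, hf, rfl⟩ := ha
  obtain ⟨g, hg, rfl⟩ := hb
  exact ⟨f * g, hf.mul hg, rfl⟩

theorem univKoszul (hI : ∀ f ∈ I, ∀ d, homogeneousComponent d f ∈ I) (hCP : CP (IsDeg I 1)) :
    UnivKoszul I := by
  intro s hs
  refine resolution hCP ?_ ?_ s hs
  · intro β s x y g c hx hy hg h
    obtain ⟨c', h1, h2, h3⟩ := coef_deg hI c 1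
    refine ⟨c', h1, h2, ?_⟩
    funext j
    have := h3 1 (fun k => g k j) (x * y j) (fun k => hg k j) (IsDeg.mul hx (hy j)) (by
      have := congrFun h j
      rw [Finset.sum_apply] at this
      exact this)
    rw [Finset.sum_apply]
    exact this
  · rintro x ⟨f, hf, rfl⟩
    exact ⟨-f, hf.neg, rfl⟩

end graded

end Pool.Agent.H79.KFilt
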