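import Mathlib

set_option autoImplicit false

namespace Pool.Agent.H79.LSSDefs

open MvPolynomial

/-- The Lovasz-Saks-Schrijver ideal `LSS(d, G)` in `K[x_{i,j} : i < d, j < n]`. -/
noncomputable def LSS (K : Type) [Field K] (d : ℕ) {n : ℕ} (G : SimpleGraph (Fin n)) :
    Ideal (MvPolynomial (Fin d × Fin n) K) :=
  Ideal.span {f | ∃ j k : Fin n, G.Adj j k ∧ f = ∑ i : Fin d, X (i, j) * X (i, k)}

end Pool.Agent.H79.LSSDefs
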