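import Mathlib
import Pool.Agent.H79.LSSDefs

set_option autoImplicit false

namespace Pool.Agent.H79.LSSEmb

open MvPolynomial Pool.Agent.H79.LSSDefs

section ids

variable {A : Type} [CommRing A]

/-- dot product -/
def dot (u v : Fin 3 → A) : A := u 0 * v 0 + u 1 * v 1 + u 2 * v 2

/-- determinant -/
def det3 (a b c : Fin 3 → A) : A :=
  a 0 * (b 1 * c 2 - b 2 * c 1) - a 1 * (b 0 * c 2 - b 2 * c 0) + a 2 * (b 0 * c 1 - b 1 * c 0)

theorem dot_comm (u v : Fin 3 → A) : dot u v = dot v u := by simp only [dot]; ring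

theorem cramer (a b c r z : Fin 3 → A) :
    dot r z * det3 a b c = dot a z * det3 r b c + dot b z * det3 a r c + dot c z * det3 a b r := by
  simp only [dot, det3]; ring

theorem cramer_coord (a w q e : Fin 3 → A) (h1 : dot e a = 0) (h2 : dot e w = 0)
    (h3 : dot e q = 0) (i : Fin 3) : det3 a w q * e i = 0 := by
  simp only [dot, det3] at *
  fin_cases i
  · change _ * e 0 = 0
    linear_combination (w 1 * q 2 - w 2 * q 1) * h1 + (q 1 * a 2 - q 2 * a 1) * h2 +
      (a 1 * w 2 - a 2 * w 1) * h3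
  · change _ * e 1 = 0
    linear_combination (w 2 * q 0 - w 0 * q 2) * h1 + (q 2 * a 0 - q 0 * a 2) * h2 +
      (a 2 * w 0 - a 0 * w 2) * h3
  · change _ * e 2 = 0
    linear_combination (w 0 * q 1 - w 1 * q 0) * h1 + (q 0 * a 1 - q 1 * a 0) * h2 +
      (a 0 * w 1 - a 1 * w 0) * h3

theorem gram3 (a b c x y z : Fin 3 → A) :
    det3 a b c * det3 x y z =
      dot a x * (dot b y * dot c z - dot b z * dot c y) -
      dot a y * (dot b x * dot c z - dot b z * dot c x) +
      dot a z * (dot b x * dot c y - dot b y * dot c x) := by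
  simp only [dot, det3]; ring

theorem id1 (a b c q r : Fin 3 → A) (hab : dot a b = 0) (hac : dot a c = 0) (hbc : dot b c = 0)
    (hrq : dot r q = 0) (hbq : dot b q = 0) (hcr : dot c r = 0) :
    dot b b * dot c c * dot a r * dot a q = 0 := by
  have h1 := cramer a b c r q
  have h2 := gram3 r b c a b c
  have h3 := gram3 a b r a b c
  rw [dot_comm b a, dot_comm c a, dot_comm c b, dot_comm r c, dot_comm r a, hab, hac, hbc, hcr]
    at h2
  rw [dot_comm b a, dot_comm r c, dot_comm r a, hab, hac, hbc, hcr] at h3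
  rw [hrq, hbq] at h1
  linear_combination (-det3 a b c) * h1 - dot a q * h2 - dot c q * h3

theorem id2 (w r q p a : Fin 3 → A) (hwr : dot w r = 0) (hwq : dot w q = 0) (hrq : dot r q = 0)
    (hpa : dot p a = 0) (hpw : dot p w = 0) :
    dot w w * (dot q q * dot p r * dot a r + dot r r * dot p q * dot a q) = 0 := by
  have h1 := cramer w r q p a
  have h2 := gram3 p r q w r q
  have h3 := gram3 w p q w r q
  have h4 := gram3 w r p w r q
  rw [dot_comm r w, dot_comm q w, dot_comm q r, hwr, hwq, hrq, hpw] at h2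
  rw [dot_comm q w, dot_comm q r, hwr, hwq, hrq, hpw] at h3
  rw [dot_comm r w, hwr, hwq, hrq, hpw] at h4
  rw [hpa, dot_comm r a, dot_comm q a] at h1
  linear_combination (-det3 w r q) * h1 - dot w a * h2 - dot a r * h3 - dot a q * h4

theorem id3 (a w q r : Fin 3 → A) (hwr : dot w r = 0) (hrq : dot r q = 0) :
    dot r r * det3 a w q = dot a r * det3 r w q := by
  have h1 := cramer a w q r r
  rw [dot_comm q r, hwr, hrq] at h1
  linear_combination h1

/-- the element with large annihilator -/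
def ff (v : Fin 8 → Fin 3 → A) : A :=
  dot (v 6) (v 6) * dot (v 4) (v 4) * dot (v 1) (v 1) * dot (v 2) (v 2) * dot (v 3) (v 5) *
    dot (v 5) (v 5) ^ 2 * det3 (v 0) (v 6) (v 4)

end ids

/-- edges; vertices a b c p q r w e are 0 1 2 3 4 5 6 7 -/
def edges : List (Fin 8 × Fin 8) :=
  [(0, 1), (0, 2), (1, 2), (6, 5), (6, 4), (5, 4), (1, 4), (2, 5), (3, 0), (3, 6),
    (7, 0), (7, 6), (7, 4)]

/-- the graph -/
def GG : SimpleGraph (Fin 8) := SimpleGraph.fromRel fun j k => (j, k) ∈ edges

theorem le_ker {K : Type} [Field K] {A : Type} [CommRing A] [Algebra K A]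
    (v : Fin 8 → Fin 3 → A) (h : ∀ e ∈ edges, dot (v e.1) (v e.2) = 0) :
    LSS K 3 GG ≤ RingHom.ker (aeval (R := K) fun x : Fin 3 × Fin 8 => v x.2 x.1).toRingHom := by
  rw [LSS, Ideal.span_le]
  rintro _ ⟨j, k, hjk, rfl⟩
  rw [SetLike.mem_coe, RingHom.mem_ker]
  have : (aeval (R := K) fun x : Fin 3 × Fin 8 => v x.2 x.1).toRingHom
      (∑ i : Fin 3, X (i, j) * X (i, k)) = dot (v j) (v k) := by
    simp [Fin.sum_univ_three, dot]
  rw [this]
  rcases ((SimpleGraph.fromRel_adj _ _ _).1 hjk).2 with h1 | h1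
  · exact h _ h1
  · rw [dot_comm]; exact h _ h1

theorem dot_mem {K : Type} [Field K] (e : Fin 8 × Fin 8) (he : e ∈ edges) :
    dot (fun i => (X (i, e.1) : MvPolynomial (Fin 3 × Fin 8) K)) (fun i => X (i, e.2)) ∈
      LSS K 3 GG := by
  refine Ideal.subset_span ⟨e.1, e.2, (SimpleGraph.fromRel_adj _ _ _).2 ⟨?_, Or.inl he⟩, ?_⟩
  · revert e; decide
  · simp [Fin.sum_univ_three, dot]

theorem map_dot {A B : Type} [CommRing A] [CommRing B] (φ : A →+* B) (u v : Fin 3 → A) :
    φ (dot u v) = dot (fun i => φ (u i)) (fun i => φ (v i)) := by simp [dot]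

theorem map_det3 {A B : Type} [CommRing A] [CommRing B] (φ : A →+* B) (u v w : Fin 3 → A) :
    φ (det3 u v w) = det3 (fun i => φ (u i)) (fun i => φ (v i)) (fun i => φ (w i)) := by
  simp [det3]

theorem map_ff {A B : Type} [CommRing A] [CommRing B] (φ : A →+* B) (v : Fin 8 → Fin 3 → A) :
    φ (ff v) = ff (fun j i => φ (v j i)) := by
  simp only [ff, map_mul, map_pow, map_dot, map_det3]

theorem ff_kill {A : Type} [CommRing A] (v : Fin 8 → Fin 3 → A)
    (h : ∀ e ∈ edges, dot (v e.1) (v e.2) = 0) :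
    det3 (v 0) (v 6) (v 4) * ff v = 0 ∧ ∀ i, v 7 i * ff v = 0 := by
  simp only [edges, List.mem_cons, forall_eq_or_imp, List.not_mem_nil, false_imp_iff,
    implies_true, and_true] at h
  obtain ⟨hab, hac, hbc, hwr, hwq, hrq, hbq, hcr, hpa, hpw, hea, hew, heq⟩ := h
  constructor
  · have h1 := id1 _ _ _ _ _ hab hac hbc hrq hbq hcr
    have h2 := id2 _ _ _ _ _ hwr hwq hrq hpa hpw
    have h3 := id3 (v 0) _ _ _ hwr hrq
    simp only [ff]
    generalize dot (v 6) (v 6) = Nw at *
    generalize dot (v 4) (v 4) = Nq at *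
    generalize dot (v 1) (v 1) = Nb at *
    generalize dot (v 2) (v 2) = Nc at *
    generalize dot (v 5) (v 5) = Nr at *
    generalize dot (v 3) (v 5) = pr at *
    generalize dot (v 3) (v 4) = pq at *
    generalize dot (v 0) (v 5) = x at *
    generalize dot (v 0) (v 4) = y at *
    generalize det3 (v 0) (v 6) (v 4) = D at *
    generalize det3 (v 5) (v 6) (v 4) = E at *
    linear_combination (Nw * Nq * Nb * Nc * pr * (Nr * D + x * E)) * h3 +
      (Nb * Nc * x * E ^ 2) * h2 - (Nw * Nr * pq * E ^ 2) * h1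
  · intro i
    have h1 := cramer_coord _ _ _ _ hea hew heq i
    simp only [ff]
    linear_combination (dot (v 6) (v 6) * dot (v 4) (v 4) * dot (v 1) (v 1) * dot (v 2) (v 2) *
      dot (v 3) (v 5) * dot (v 5) (v 5) ^ 2) * h1

/-- the tangent vector witnessing non-membership -/
noncomputable def pt (K : Type) [Field K] : Fin 8 → Fin 3 → DualNumber K :=
  ![![1, DualNumber.eps, -DualNumber.eps], ![-DualNumber.eps, 1, 0], ![DualNumber.eps, 0, 1],
    ![0, 1, 1], ![0, 0, 1], ![0, 1, 0], ![1, 0, 0], ![0, 0, 0]]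

theorem ff_not_mem (K : Type) [Field K] :
    ff (fun j i => (X (i, j) : MvPolynomial (Fin 3 × Fin 8) K)) ∉ LSS K 3 GG := by
  intro h
  have h1 := le_ker (K := K) (pt K) (by
    simp [edges, dot, pt, DualNumber.eps_mul_eps]) h
  rw [RingHom.mem_ker, map_ff] at h1
  have h2 : ff (pt K) = 0 := by
    rw [← h1]; congr 1; ext j i : 2; simp
  have h3 : ff (pt K) = -DualNumber.eps := by
    simp [ff, dot, det3, pt, DualNumber.eps_mul_eps]
  rw [h3] at h2
  have := congrArg TrivSqZeroExt.snd h2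
  simp at this

theorem main (K : Type) [Field K] : ∃ P : Ideal (MvPolynomial (Fin 3 × Fin 8) K),
    IsAssociatedPrime P (MvPolynomial (Fin 3 × Fin 8) K ⧸ LSS K 3 GG) ∧
      P ∉ (LSS K 3 GG).minimalPrimes := by
  set S := MvPolynomial (Fin 3 × Fin 8) K
  let xv : Fin 8 → Fin 3 → S := fun j i => X (i, j)
  obtain ⟨P, hP, hle⟩ := exists_le_isAssociatedPrime_of_isNoetherianRing S
    (Ideal.Quotient.mk (LSS K 3 GG) (ff xv)) (by
      rw [Ne, Ideal.Quotient.eq_zero_iff_mem]; exact ff_not_mem K)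
  refine ⟨P, hP, fun hmin => ?_⟩
  have hPp := hP.isPrime
  have hk := ff_kill (fun j i => Ideal.Quotient.mk (LSS K 3 GG) (xv j i)) (by
    intro e he
    rw [← map_dot, Ideal.Quotient.eq_zero_iff_mem]
    exact dot_mem e he)
  rw [← map_ff, ← map_det3] at hk
  have hann : ∀ r : S, Ideal.Quotient.mk (LSS K 3 GG) r *
      Ideal.Quotient.mk (LSS K 3 GG) (ff xv) = 0 → r ∈ P := by
    intro r hr
    apply hle
    rw [Submodule.mem_colon_singleton, Submodule.mem_bot]
    exact hr
  have hD : det3 (xv 0) (xv 6) (xv 4) ∈ P := hann _ hk.1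
  have he : ∀ i, xv 7 i ∈ P := fun i => hann _ (hk.2 i)
  let yv : Fin 8 → Fin 3 → S ⧸ P := fun j i => Ideal.Quotient.mk P (xv j i)
  have hy : ∀ e ∈ edges, dot (yv e.1) (yv e.2) = 0 := by
    intro e he
    rw [← map_dot, Ideal.Quotient.eq_zero_iff_mem]
    exact hmin.1.2 (dot_mem e he)
  obtain ⟨κ, hκ0, hκ⟩ := (Matrix.exists_mulVec_eq_zero_iff
    (M := Matrix.of ![yv 0, yv 6, yv 4])).2 (by
      have : det3 (yv 0) (yv 6) (yv 4) = 0 := by
        rw [← map_det3, Ideal.Quotient.eq_zero_iff_mem]; exact hD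
      rw [← this, Matrix.det_fin_three]
      simp [det3]; ring)
  have hκ1 : dot κ (yv 0) = 0 ∧ dot κ (yv 6) = 0 ∧ dot κ (yv 4) = 0 := by
    have h0 := congrFun hκ 0
    have h1 := congrFun hκ 1
    have h2 := congrFun hκ 2
    simp only [Matrix.mulVec, dotProduct, Fin.sum_univ_three, Matrix.of_apply, Pi.zero_apply]
      at h0 h1 h2
    refine ⟨?_, ?_, ?_⟩
    · rw [dot_comm]; exact h0
    · rw [dot_comm]; exact h1
    · rw [dot_comm]; exact h2
  let zv : Fin 8 → Fin 3 → Polynomial (S ⧸ P) := fun j i =>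
    if j = 7 then Polynomial.C (κ i) * Polynomial.X else Polynomial.C (yv j i)
  have hz : ∀ e ∈ edges, dot (zv e.1) (zv e.2) = 0 := by
    have hC : ∀ j k : Fin 8, j ≠ 7 → k ≠ 7 → dot (yv j) (yv k) = 0 → dot (zv j) (zv k) = 0 := by
      intro j k hj hk h
      simp only [zv, if_neg hj, if_neg hk]
      rw [← map_dot, h, map_zero]
    have hC' : ∀ k : Fin 8, k ≠ 7 → dot κ (yv k) = 0 → dot (zv 7) (zv k) = 0 := by
      intro k hk h
      have h2 := map_dot Polynomial.C κ (yv k)
      rw [h, map_zero, eq_comm] at h2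
      simp only [zv, if_neg hk, if_true, dot] at h2 ⊢
      linear_combination Polynomial.X * h2
    intro e he
    by_cases h7 : e.1 = 7
    · have : e = (7, 0) ∨ e = (7, 6) ∨ e = (7, 4) := by revert e; decide
      rcases this with rfl | rfl | rfl
      · exact hC' _ (by decide) hκ1.1
      · exact hC' _ (by decide) hκ1.2.1
      · exact hC' _ (by decide) hκ1.2.2
    · exact hC _ _ h7 (by revert e; decide) (hy e he)
  let φ := (aeval (R := K) fun x : Fin 3 × Fin 8 => zv x.2 x.1).toRingHom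
  have hφ : LSS K 3 GG ≤ RingHom.ker φ := le_ker zv hz
  have hφP : RingHom.ker φ ≤ P := by
    have : (Polynomial.evalRingHom 0).comp φ = Ideal.Quotient.mk P := by
      apply MvPolynomial.ringHom_ext
      · intro r
        simp only [φ, RingHom.comp_apply, AlgHom.toRingHom_eq_coe, RingHom.coe_coe, aeval_C,
          Polynomial.algebraMap_apply, Polynomial.coe_evalRingHom, Polynomial.eval_C]
        rfl
      · rintro ⟨i, j⟩
        by_cases hj : j = 7
        · subst hj
          have := Ideal.Quotient.eq_zero_iff_mem.2 (he i)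
          simp only [φ, RingHom.comp_apply, AlgHom.toRingHom_eq_coe, RingHom.coe_coe, aeval_X,
            zv, if_true, Polynomial.coe_evalRingHom, Polynomial.eval_mul, Polynomial.eval_X,
            mul_zero]
          exact this.symm
        · simp only [φ, RingHom.comp_apply, AlgHom.toRingHom_eq_coe, RingHom.coe_coe, aeval_X,
            zv, if_neg hj, Polynomial.coe_evalRingHom, Polynomial.eval_C]
          rfl
    intro r hr
    rw [← Ideal.Quotient.eq_zero_iff_mem, ← this, RingHom.comp_apply, (RingHom.mem_ker).1 hr,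
      map_zero]
  have hPφ : P ≤ RingHom.ker φ := hmin.2 ⟨RingHom.ker_isPrime φ, hφ⟩ hφP
  apply hκ0
  funext i
  have h1 : φ (xv 7 i) = 0 := hPφ (he i)
  have h2 : φ (xv 7 i) = Polynomial.C (κ i) * Polynomial.X := by
    simp [φ, xv, zv]
  rw [h2] at h1
  simpa using h1

end Pool.Agent.H79.LSSEmb
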