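import Mathlib

set_option autoImplicit false

namespace Pool.Agent.H79.LV

open MvPolynomial

variable {K : Type} [Field K] {n : ℕ}

/-- `I` is generated by monomials. -/
def IsMonomialIdeal (I : Ideal (MvPolynomial (Fin n) K)) : Prop :=
  ∃ S : Set (Fin n →₀ ℕ), I = Ideal.span ((fun m => monomial m (1 : K)) '' S)

/-- The degree `i` piece `A_i` of `A = R/I`: the image of the forms of degree `i`. -/
noncomputable def piece (I : Ideal (MvPolynomial (Fin n) K)) (i : ℕ) :
    Submodule K (MvPolynomial (Fin n) K ⧸ I) :=
  (homogeneousSubmodule (Fin n) K i).map (Ideal.Quotient.mkₐ K I).toLinearMap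

/-- The socle of `A = R/I`: the elements killed by all the variables.  It is the top Koszul
homology `H_n(x; A) = Tor_n^R(K, A)`, shifted by `n`. -/
noncomputable def socle (I : Ideal (MvPolynomial (Fin n) K)) :
    Submodule K (MvPolynomial (Fin n) K ⧸ I) where
  carrier := {a | ∀ j, Ideal.Quotient.mk I (X j) * a = 0}
  add_mem' := by
    intro a b ha hb j
    rw [mul_add, ha j, hb j, add_zero]
  zero_mem' := by
    intro j
    rw [mul_zero]
  smul_mem' := by
    intro c a ha j
    rw [mul_smul_comm, ha j, smul_zero]

/-- The weak Lefschetz property: for some linear form `L`, each map `L : A_i → A_{i+1}` is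
injective or surjective. -/
def HasWLP (I : Ideal (MvPolynomial (Fin n) K)) : Prop :=
  ∃ L ∈ homogeneousSubmodule (Fin n) K 1, ∀ i : ℕ,
    (∀ a ∈ piece I i, Ideal.Quotient.mk I L * a = 0 → a = 0) ∨
    (∀ b ∈ piece I (i + 1), ∃ a ∈ piece I i, Ideal.Quotient.mk I L * a = b)

/-- `A = R/I` is level of type `t` with last syzygy module generated in degree `d`, that is
`F_n = R(-d)^t`: the socle lies in the single degree `d - n` and has dimension `t`. -/
def IsLevel (I : Ideal (MvPolynomial (Fin n) K)) (t d : ℕ) : Prop :=
  ∃ e : ℕ, d = n + e ∧ socle I ≤ piece I e ∧ Module.finrank K (socle I) = t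

/-- The degrees `d` for which some Artinian monomial level algebra in `n` variables of type `t`,
with last syzygy module generated in degree `d`, fails the WLP; `d(n,t)` is its least element. -/
def failDegrees (K : Type) [Field K] (n t : ℕ) : Set ℕ :=
  {d | ∃ I : Ideal (MvPolynomial (Fin n) K), IsMonomialIdeal I ∧
    Module.Finite K (MvPolynomial (Fin n) K ⧸ I) ∧ IsLevel I t d ∧ ¬ HasWLP I}

end Pool.Agent.H79.LV
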