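import Mathlib
import Pool.Agent.H79.LVDefs

set_option autoImplicit false
set_option linter.unusedSectionVars false

namespace Pool.Agent.H79.LV

open MvPolynomial Finsupp

variable {K : Type} [Field K] {σ : Type} [Fintype σ] [DecidableEq σ]

/-- failure of injectivity in degree `i` -/
def NI (D : (σ →₀ ℕ) → Prop) (a : σ → K) (i : ℕ) : Prop :=
  ∃ c : (σ →₀ ℕ) → K, (∃ u, c u ≠ 0) ∧ (∀ u, c u ≠ 0 → D u ∧ u.degree = i) ∧
    ∀ m, D m → ∑ j, (if m j ≠ 0 then a j * c (m - single j 1) else 0) = 0

/-- failure of surjectivity in degree `i` -/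
def NS (D : (σ →₀ ℕ) → Prop) (a : σ → K) (i : ℕ) : Prop :=
  ∃ φ : (σ →₀ ℕ) → K, (∃ m, φ m ≠ 0) ∧ (∀ m, φ m ≠ 0 → D m ∧ m.degree = i + 1) ∧
    ∀ u, ∑ j, a j * φ (u + single j 1) = 0

/-- the linear form with coefficients `a` -/
noncomputable def lin (a : σ → K) : MvPolynomial σ K := ∑ j, C (a j) * X j

/-- failure of injectivity, polynomial form -/
def NIp (D : (σ →₀ ℕ) → Prop) (a : σ → K) (i : ℕ) : Prop :=
  ∃ g : MvPolynomial σ K, g.IsHomogeneous i ∧ (∃ u, D u ∧ coeff u g ≠ 0) ∧
    ∀ m, D m → coeff m (lin a * g) = 0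

theorem coeff_lin_mul (a : σ → K) (g : MvPolynomial σ K) (m : σ →₀ ℕ) :
    coeff m (lin a * g) = ∑ j, (if m j ≠ 0 then a j * coeff (m - single j 1) g else 0) := by
  rw [lin, Finset.sum_mul, coeff_sum]
  refine Finset.sum_congr rfl fun j _ => ?_
  rw [mul_assoc, coeff_C_mul, coeff_X_mul']
  by_cases h : m j = 0 <;> simp [h]

theorem NI_of_NIp {D : (σ →₀ ℕ) → Prop} (hD : ∀ u m, u ≤ m → D m → D u) {a : σ → K} {i : ℕ}
    (h : NIp D a i) : NI D a i := by
  classical
  obtain ⟨g, hg, ⟨u, hu, hu'⟩, h0⟩ := h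
  refine ⟨fun v => if D v then coeff v g else 0, ⟨u, by simpa [hu] using hu'⟩, ?_, ?_⟩
  · intro v hv
    by_cases h1 : D v
    · refine ⟨h1, ?_⟩
      by_contra h2
      exact hv (by simp [h1, hg.coeff_eq_zero h2])
    · simp [h1] at hv
  · intro m hm
    refine Eq.trans ?_ (h0 m hm)
    rw [coeff_lin_mul]
    refine Finset.sum_congr rfl fun j _ => ?_
    have : D (m - single j 1) := hD _ _ tsub_le_self hm
    simp [this]

/-- the form of degree `i` with coefficients `c` -/
noncomputable def ofFun (c : (σ →₀ ℕ) → K) (i : ℕ) : MvPolynomial σ K :=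
  ∑ u ∈ Finset.univ.finsuppAntidiag i, monomial u (c u)

theorem mem_anti (u : σ →₀ ℕ) (i : ℕ) :
    u ∈ (Finset.univ : Finset σ).finsuppAntidiag i ↔ u.degree = i := by
  rw [Finset.mem_finsuppAntidiag, degree_eq_sum]
  simp

theorem coeff_ofFun (c : (σ →₀ ℕ) → K) (i : ℕ) (hc : ∀ u, c u ≠ 0 → u.degree = i)
    (m : σ →₀ ℕ) : coeff m (ofFun c i) = c m := by
  rw [ofFun, coeff_sum]
  simp only [coeff_monomial]
  rw [Finset.sum_ite_eq']
  split_ifs with h
  · rfl
  · by_contra h2
    exact h ((mem_anti _ _).2 (hc m (Ne.symm h2)))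

theorem ofFun_hom (c : (σ →₀ ℕ) → K) (i : ℕ) : (ofFun c i).IsHomogeneous i :=
  IsHomogeneous.sum _ _ _ fun _ hu => isHomogeneous_monomial _ ((mem_anti _ _).1 hu)

theorem NIp_of_NI {D : (σ →₀ ℕ) → Prop} {a : σ → K} {i : ℕ}
    (h : NI D a i) : NIp D a i := by
  obtain ⟨c, ⟨u, hu⟩, h1, h2⟩ := h
  have hc := coeff_ofFun c i fun u hu => (h1 u hu).2
  refine ⟨ofFun c i, ofFun_hom c i, ⟨u, (h1 u hu).1, by rwa [hc]⟩, fun m hm => ?_⟩
  rw [coeff_lin_mul]
  simp only [hc]
  exact h2 m hm

theorem NI_all {D : (σ →₀ ℕ) → Prop} {i : ℕ} (h : NI D (fun _ => (1 : K)) i) (a : σ → K) :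
    NI D a i := by
  classical
  obtain ⟨c, hu, h1, h2⟩ := h
  let w : (σ →₀ ℕ) → ℕ := fun m => ∑ j with a j = 0, m j
  let p : (σ →₀ ℕ) → K := fun m => ∏ j with a j ≠ 0, a j ^ m j
  have hp : ∀ m, p m ≠ 0 := fun m =>
    Finset.prod_ne_zero_iff.2 fun j hj => pow_ne_zero _ (Finset.mem_filter.1 hj).2
  have hex : ∃ k, ∃ u, c u ≠ 0 ∧ w u = k := by
    obtain ⟨u, hu⟩ := hu
    exact ⟨_, u, hu, rfl⟩
  obtain ⟨u0, hu0, hw0⟩ := Nat.find_spec hex
  have hmin : ∀ u, c u ≠ 0 → Nat.find hex ≤ w u := fun u hu => Nat.find_min' hex ⟨u, hu, rfl⟩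
  have hadd : ∀ (v : σ →₀ ℕ) (j : σ), w (v + single j 1) = w v + if a j = 0 then 1 else 0 := by
    intro v j
    simp only [w, Finsupp.add_apply, Finset.sum_add_distrib, single_apply]
    rw [Finset.sum_ite_eq]
    simp
  have hpadd : ∀ (v : σ →₀ ℕ) (j : σ), a j ≠ 0 → p (v + single j 1) = a j * p v := by
    intro v j hj
    simp only [p, Finsupp.add_apply, pow_add, Finset.prod_mul_distrib, single_apply]
    rw [mul_comm]
    congr 1
    rw [Finset.prod_eq_single j]
    · simp
    · intro b _ hb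
      simp [Ne.symm hb]
    · intro hb
      simp [hj] at hb
  refine ⟨fun u => if w u = Nat.find hex then p u * c u else 0,
    ⟨u0, by simp [hw0, hp, hu0]⟩, ?_, ?_⟩
  · intro u hu
    apply h1
    intro h
    simp [h] at hu
  · intro m hm
    by_cases hwm : w m = Nat.find hex
    · have := h2 m hm
      refine Eq.trans ?_ ((congrArg (p m * ·) this).trans (mul_zero _))
      rw [Finset.mul_sum]
      refine Finset.sum_congr rfl fun j _ => ?_
      by_cases hj : m j = 0
      · simp [hj]
      have e1 : m - single j 1 + single j 1 = m := by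
        apply tsub_add_cancel_of_le
        rw [single_le_iff]; omega
      have e2 := hadd (m - single j 1) j
      rw [e1] at e2
      by_cases haj : a j = 0
      · have : c (m - single j 1) = 0 := by
          by_contra h
          have := hmin _ h
          rw [if_pos haj] at e2
          omega
        simp [this]
      · have e3 := hpadd (m - single j 1) j haj
        rw [e1] at e3
        rw [if_neg haj] at e2
        have : w (m - single j 1) = Nat.find hex := by omega
        simp only [hj, ne_eq, not_false_eq_true, if_true, this, e3]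
        ring
    · refine Finset.sum_eq_zero fun j _ => ?_
      by_cases hj : m j = 0
      · simp [hj]
      have e1 : m - single j 1 + single j 1 = m := by
        apply tsub_add_cancel_of_le
        rw [single_le_iff]; omega
      have e2 := hadd (m - single j 1) j
      rw [e1] at e2
      by_cases haj : a j = 0
      · simp [haj]
      · rw [if_neg haj] at e2
        have : w (m - single j 1) ≠ Nat.find hex := by omega
        simp [this]

theorem NS_all {D : (σ →₀ ℕ) → Prop} {i : ℕ} (h : NS D (fun _ => (1 : K)) i) (a : σ → K) :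
    NS D a i := by
  classical
  obtain ⟨c, hu, h1, h2⟩ := h
  let w : (σ →₀ ℕ) → ℕ := fun m => ∑ j with a j ≠ 0, m j
  let p : (σ →₀ ℕ) → K := fun m => ∏ j with a j ≠ 0, (a j)⁻¹ ^ m j
  have hp : ∀ m, p m ≠ 0 := fun m =>
    Finset.prod_ne_zero_iff.2 fun j hj => pow_ne_zero _ (inv_ne_zero (Finset.mem_filter.1 hj).2)
  have hex : ∃ k, ∃ u, c u ≠ 0 ∧ w u = k := by
    obtain ⟨u, hu⟩ := hu
    exact ⟨_, u, hu, rfl⟩
  obtain ⟨u0, hu0, hw0⟩ := Nat.find_spec hex
  have hmin : ∀ u, c u ≠ 0 → Nat.find hex ≤ w u := fun u hu => Nat.find_min' hex ⟨u, hu, rfl⟩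
  have hadd : ∀ (v : σ →₀ ℕ) (j : σ), w (v + single j 1) = w v + if a j ≠ 0 then 1 else 0 := by
    intro v j
    simp only [w, Finsupp.add_apply, Finset.sum_add_distrib, single_apply]
    rw [Finset.sum_ite_eq]
    simp
  have hpadd : ∀ (v : σ →₀ ℕ) (j : σ), a j ≠ 0 → p (v + single j 1) = (a j)⁻¹ * p v := by
    intro v j hj
    simp only [p, Finsupp.add_apply, pow_add, Finset.prod_mul_distrib, single_apply]
    rw [mul_comm]
    congr 1
    rw [Finset.prod_eq_single j]
    · simp
    · intro b _ hb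
      simp [Ne.symm hb]
    · intro hb
      simp [hj] at hb
  refine ⟨fun u => if w u = Nat.find hex then p u * c u else 0,
    ⟨u0, by simp [hw0, hp, hu0]⟩, ?_, ?_⟩
  · intro u hu
    apply h1
    intro h
    simp [h] at hu
  · intro m
    by_cases hwm : w m + 1 = Nat.find hex
    · have := h2 m
      refine Eq.trans ?_ ((congrArg (p m * ·) this).trans (mul_zero _))
      rw [Finset.mul_sum]
      refine Finset.sum_congr rfl fun j _ => ?_
      have e2 := hadd m j
      by_cases haj : a j = 0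
      · have : c (m + single j 1) = 0 := by
          by_contra h
          have := hmin _ h
          rw [if_neg (not_not.2 haj)] at e2
          omega
        simp [this]
      · have e3 := hpadd m j haj
        rw [if_pos haj] at e2
        have : w (m + single j 1) = Nat.find hex := by omega
        simp only [this, if_true, e3]
        field_simp
    · refine Finset.sum_eq_zero fun j _ => ?_
      have e2 := hadd m j
      by_cases haj : a j = 0
      · simp [haj]
      · rw [if_pos haj] at e2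
        have : w (m + single j 1) ≠ Nat.find hex := by omega
        simp [this]

end Pool.Agent.H79.LV
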