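import Mathlib
import Pool.Agent.H79.LV1

set_option autoImplicit false
set_option linter.unusedSectionVars false

namespace Pool.Agent.H79.LV

open MvPolynomial Finsupp

variable {K : Type} [Field K] {n : ℕ}

/-- `D` is the set of exponents of the monomials outside `I`, and `I` is monomial -/
def Std (I : Ideal (MvPolynomial (Fin n) K)) (D : (Fin n →₀ ℕ) → Prop) : Prop :=
  ∀ f, f ∈ I ↔ ∀ m, D m → coeff m f = 0

theorem std_span (S : Set (Fin n →₀ ℕ)) :
    Std (Ideal.span ((fun m => monomial m (1 : K)) '' S)) (fun m => ¬ ∃ s ∈ S, s ≤ m) := by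
  intro f
  rw [mem_ideal_span_monomial_image]
  constructor
  · intro h m hm
    by_contra h1
    exact hm (h m (MvPolynomial.mem_support_iff.2 h1))
  · intro h m hm
    by_contra h1
    exact MvPolynomial.mem_support_iff.1 hm (h m h1)

theorem Std.mono_mem {I : Ideal (MvPolynomial (Fin n) K)} {D : (Fin n →₀ ℕ) → Prop}
    (h : Std I D) (m : Fin n →₀ ℕ) : monomial m (1 : K) ∈ I ↔ ¬ D m := by
  rw [h]
  constructor
  · intro h1 h2
    simpa using h1 m h2
  · intro h1 m' h2
    rw [coeff_monomial, if_neg]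
    rintro rfl
    exact h1 h2

theorem Std.down {I : Ideal (MvPolynomial (Fin n) K)} {D : (Fin n →₀ ℕ) → Prop}
    (h : Std I D) (u m : Fin n →₀ ℕ) (hum : u ≤ m) (hm : D m) : D u := by
  by_contra h1
  have h2 := I.mul_mem_left (monomial (m - u) 1) ((h.mono_mem u).2 h1)
  rw [monomial_mul, tsub_add_cancel_of_le hum, one_mul] at h2
  exact (h.mono_mem m).1 h2 hm

theorem mem_piece {I : Ideal (MvPolynomial (Fin n) K)} {i : ℕ}
    {a : MvPolynomial (Fin n) K ⧸ I} :
    a ∈ piece I i ↔ ∃ g : MvPolynomial (Fin n) K, g.IsHomogeneous i ∧ Ideal.Quotient.mk I g = a := by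
  simp [piece, Submodule.mem_map]

theorem exists_lin {L : MvPolynomial (Fin n) K} (hL : L ∈ homogeneousSubmodule (Fin n) K 1) :
    ∃ a, L = lin a := by
  rw [homogeneousSubmodule_one_eq_span_X, Submodule.mem_span_range_iff_exists_fun] at hL
  obtain ⟨a, rfl⟩ := hL
  exact ⟨a, by simp [lin, smul_eq_C_mul]⟩

theorem lin_mem (a : Fin n → K) : lin a ∈ homogeneousSubmodule (Fin n) K 1 :=
  IsHomogeneous.sum _ _ _ fun j _ => isHomogeneous_C_mul_X _ j

theorem inj_iff {I : Ideal (MvPolynomial (Fin n) K)} {D : (Fin n →₀ ℕ) → Prop}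
    (h : Std I D) (a : Fin n → K) (i : ℕ) :
    (∀ x ∈ piece I i, Ideal.Quotient.mk I (lin a) * x = 0 → x = 0) ↔ ¬ NI D a i := by
  constructor
  · intro h1 h2
    obtain ⟨g, hg, ⟨u, hu, hu'⟩, h0⟩ := NIp_of_NI h2
    have := h1 _ (mem_piece.2 ⟨g, hg, rfl⟩) (by
      rw [← map_mul, Ideal.Quotient.eq_zero_iff_mem, h]; exact h0)
    rw [Ideal.Quotient.eq_zero_iff_mem, h] at this
    exact hu' (this u hu)
  · intro h1 x hx h2
    obtain ⟨g, hg, rfl⟩ := mem_piece.1 hx
    rw [← map_mul, Ideal.Quotient.eq_zero_iff_mem, h] at h2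
    rw [Ideal.Quotient.eq_zero_iff_mem, h]
    intro m hm
    by_contra h3
    exact h1 (NI_of_NIp h.down ⟨g, hg, ⟨m, hm, h3⟩, h2⟩)

theorem lin_mul_monomial (a : Fin n → K) (u : Fin n →₀ ℕ) :
    lin a * monomial u (1 : K) = ∑ j, a j • monomial (u + single j 1) (1 : K) := by
  rw [lin, Finset.sum_mul]
  refine Finset.sum_congr rfl fun j _ => ?_
  rw [mul_assoc, smul_eq_C_mul, X, monomial_mul, add_comm, one_mul]

theorem as_sum_smul (f : MvPolynomial (Fin n) K) :
    f = ∑ m ∈ f.support, coeff m f • monomial m (1 : K) := by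
  conv_lhs => rw [f.as_sum]
  refine Finset.sum_congr rfl fun m _ => ?_
  rw [smul_monomial, smul_eq_mul, mul_one]

theorem surj_iff {I : Ideal (MvPolynomial (Fin n) K)} {D : (Fin n →₀ ℕ) → Prop}
    (h : Std I D) (a : Fin n → K) (i : ℕ) :
    (∀ b ∈ piece I (i + 1), ∃ x ∈ piece I i, Ideal.Quotient.mk I (lin a) * x = b) ↔
      ¬ NS D a i := by
  classical
  constructor
  · rintro h1 ⟨φ, ⟨m, hm⟩, h2, h3⟩
    let Φ : MvPolynomial (Fin n) K →ₗ[K] K := (basisMonomials (Fin n) K).constr K φ
    have hΦ : ∀ u, Φ (monomial u 1) = φ u := fun u => by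
      have := (basisMonomials (Fin n) K).constr_basis K φ u
      rwa [coe_basisMonomials] at this
    have hI : ∀ f ∈ I, Φ f = 0 := by
      intro f hf
      rw [as_sum_smul f, map_sum]
      refine Finset.sum_eq_zero fun u hu => ?_
      rw [map_smul, hΦ]
      by_cases h4 : φ u = 0
      · simp [h4]
      · exact absurd ((h f).1 hf u (h2 u h4).1) (MvPolynomial.mem_support_iff.1 hu)
    have hL : ∀ g, Φ (lin a * g) = 0 := by
      intro g
      rw [as_sum_smul g, Finset.mul_sum, map_sum]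
      refine Finset.sum_eq_zero fun u _ => ?_
      rw [mul_smul_comm, map_smul, lin_mul_monomial, map_sum]
      simp only [map_smul, hΦ, smul_eq_mul, h3, mul_zero]
    obtain ⟨x, hx, hx'⟩ := h1 _ (mem_piece.2 ⟨monomial m 1,
      isHomogeneous_monomial _ (h2 m hm).2, rfl⟩)
    obtain ⟨g, -, rfl⟩ := mem_piece.1 hx
    rw [← map_mul, Ideal.Quotient.eq] at hx'
    have := hI _ hx'
    rw [map_sub, hL, hΦ, zero_sub, neg_eq_zero] at this
    exact hm this
  · intro h1 b hb
    by_contra h2
    let W : Submodule K (MvPolynomial (Fin n) K ⧸ I) :=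
      (piece I i).map (LinearMap.mulLeft K (Ideal.Quotient.mk I (lin a)))
    have hbW : b ∉ W := by
      rintro ⟨x, hx, hx'⟩
      exact h2 ⟨x, hx, hx'⟩
    obtain ⟨Ψ, hΨ, hW⟩ := W.exists_dual_map_eq_bot_of_notMem hbW inferInstance
    have hW' : ∀ x ∈ W, Ψ x = 0 := fun x hx => by
      have : Ψ x ∈ W.map Ψ := Submodule.mem_map_of_mem hx
      rwa [hW, Submodule.mem_bot] at this
    apply h1
    refine ⟨fun m => if m.degree = i + 1 then Ψ (Ideal.Quotient.mkₐ K I (monomial m 1)) else 0,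
      ?_, ?_, ?_⟩
    · obtain ⟨f, hf, rfl⟩ := mem_piece.1 hb
      by_contra h3
      push Not at h3
      apply hΨ
      change Ψ (Ideal.Quotient.mkₐ K I f) = 0
      rw [as_sum_smul f, map_sum, map_sum]
      refine Finset.sum_eq_zero fun u hu => ?_
      have h4 : u.degree = i + 1 := by
        by_contra h5
        exact MvPolynomial.mem_support_iff.1 hu (hf.coeff_eq_zero h5)
      have := h3 u
      rw [if_pos h4] at this
      rw [map_smul, map_smul, this, smul_zero]
    · intro m hm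
      by_cases h4 : m.degree = i + 1
      · refine ⟨?_, h4⟩
        by_contra h5
        apply hm
        have : Ideal.Quotient.mkₐ K I (monomial m 1) = 0 :=
          Ideal.Quotient.eq_zero_iff_mem.2 ((h.mono_mem m).2 h5)
        simp only [this, map_zero, ite_self]
      · simp [h4] at hm
    · intro u
      by_cases h4 : u.degree = i
      · have h5 := hW' _ ⟨_, mem_piece.2 ⟨monomial u 1, isHomogeneous_monomial _ h4, rfl⟩, rfl⟩
        rw [LinearMap.mulLeft_apply, ← map_mul, lin_mul_monomial] at h5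
        change Ψ (Ideal.Quotient.mkₐ K I _) = 0 at h5
        rw [map_sum, map_sum] at h5
        refine Eq.trans (Finset.sum_congr rfl fun j _ => ?_) h5
        have h6 : (u + single j 1).degree = i + 1 := by rw [map_add, degree_single, h4]
        simp only [map_smul, if_pos h6, smul_eq_mul]
      · refine Finset.sum_eq_zero fun j _ => ?_
        have h6 : ¬ (u + single j 1).degree = i + 1 := by rw [map_add, degree_single]; omega
        simp only [if_neg h6, mul_zero]

theorem wlp_iff {I : Ideal (MvPolynomial (Fin n) K)} {D : (Fin n →₀ ℕ) → Prop}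
    (h : Std I D) :
    ¬ HasWLP I ↔ ∃ i, NI D (fun _ => (1 : K)) i ∧ NS D (fun _ => (1 : K)) i := by
  constructor
  · intro h1
    by_contra h2
    apply h1
    refine ⟨lin fun _ => 1, lin_mem _, fun i => ?_⟩
    rw [inj_iff h, surj_iff h]
    by_contra h3
    push Not at h3
    exact h2 ⟨i, h3⟩
  · rintro ⟨i, h1, h2⟩ ⟨L, hL, h3⟩
    obtain ⟨a, rfl⟩ := exists_lin hL
    have := h3 i
    rw [inj_iff h, surj_iff h] at this
    rcases this with h4 | h4
    · exact h4 (NI_all h1 a)
    · exact h4 (NS_all h2 a)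

/-- divisors of the monomials in `T` -/
def Dn {σ : Type} (T : Finset (σ →₀ ℕ)) (m : σ →₀ ℕ) : Prop := ∃ τ ∈ T, m ≤ τ

theorem eq_of_le_of_degree {σ : Type} {u m : σ →₀ ℕ} (h : u ≤ m) (hd : m.degree ≤ u.degree) :
    u = m := by
  obtain ⟨v, rfl⟩ := exists_add_of_le h
  rw [map_add] at hd
  have : v.degree = 0 := by omega
  rw [degree_eq_zero_iff] at this
  rw [this, add_zero]

theorem exists_succ_le {σ : Type} {u m : σ →₀ ℕ} (h : u ≤ m) (hd : u ≠ m) :
    ∃ j, u + single j 1 ≤ m := by
  obtain ⟨v, rfl⟩ := exists_add_of_le h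
  have : v ≠ 0 := by rintro rfl; simp at hd
  obtain ⟨j, hj⟩ := Finsupp.ne_iff.1 this
  refine ⟨j, ?_⟩
  gcongr
  rw [single_le_iff]
  simp only [Finsupp.coe_zero, Pi.zero_apply] at hj
  omega

theorem Std.linInd {I : Ideal (MvPolynomial (Fin n) K)} {D : (Fin n →₀ ℕ) → Prop}
    (h : Std I D) : LinearIndependent K
      (fun m : {m // D m} => Ideal.Quotient.mkₐ K I (monomial m.1 (1 : K))) := by
  classical
  rw [linearIndependent_iff']
  intro s c hs m hm
  have h1 : Ideal.Quotient.mkₐ K I (∑ m ∈ s, c m • monomial m.1 (1 : K)) = 0 := by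
    rw [map_sum]; simpa only [map_smul] using hs
  have h2 := (h _).1 (Ideal.Quotient.eq_zero_iff_mem.1 h1) m.1 m.2
  rw [coeff_sum, Finset.sum_eq_single m] at h2
  · simpa using h2
  · intro b _ hb
    rw [coeff_smul, coeff_monomial, if_neg (fun h => hb (Subtype.ext h)), smul_zero]
  · intro h; exact absurd hm h

theorem socle_eq {I : Ideal (MvPolynomial (Fin n) K)} {T : Finset (Fin n →₀ ℕ)} {e : ℕ}
    (h : Std I (Dn T)) (hT : ∀ τ ∈ T, τ.degree = e) :
    socle I = Submodule.span K
      (Set.range fun m : T => Ideal.Quotient.mkₐ K I (monomial m.1 (1 : K))) := by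
  classical
  apply le_antisymm
  · intro x hx
    obtain ⟨f, rfl⟩ := Ideal.Quotient.mkₐ_surjective K I x
    rw [as_sum_smul f, map_sum]
    refine Submodule.sum_mem _ fun m hm => ?_
    rw [map_smul]
    apply Submodule.smul_mem
    by_cases h1 : Dn T m
    · obtain ⟨τ, hτ, h2⟩ := h1
      by_cases h3 : m = τ
      · exact Submodule.subset_span ⟨⟨m, h3 ▸ hτ⟩, rfl⟩
      · obtain ⟨j, hj⟩ := exists_succ_le h2 h3
        have h4 : X j * f ∈ I := by
          rw [← Ideal.Quotient.eq_zero_iff_mem, map_mul]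
          exact hx j
        have h5 := (h _).1 h4 _ ⟨τ, hτ, hj⟩
        rw [add_comm, coeff_X_mul] at h5
        exact absurd h5 (MvPolynomial.mem_support_iff.1 hm)
    · have : Ideal.Quotient.mkₐ K I (monomial m 1) = 0 :=
        Ideal.Quotient.eq_zero_iff_mem.2 ((h.mono_mem m).2 h1)
      rw [this]
      exact Submodule.zero_mem _
  · rw [Submodule.span_le]
    rintro _ ⟨m, rfl⟩ j
    change Ideal.Quotient.mk I (X j) * Ideal.Quotient.mk I (monomial m.1 1) = 0
    rw [← map_mul, Ideal.Quotient.eq_zero_iff_mem, X, monomial_mul, one_mul, h.mono_mem]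
    rintro ⟨τ, hτ, h1⟩
    have := degree_mono h1
    rw [map_add, degree_single, hT _ m.2, hT _ hτ] at this
    omega

theorem finrank_socle {I : Ideal (MvPolynomial (Fin n) K)} {T : Finset (Fin n →₀ ℕ)} {e : ℕ}
    (h : Std I (Dn T)) (hT : ∀ τ ∈ T, τ.degree = e) :
    Module.finrank K (socle I) = T.card := by
  rw [socle_eq h hT, finrank_span_eq_card, Fintype.card_coe]
  exact h.linInd.comp (fun m : T => (⟨m.1, m.1, m.2, le_rfl⟩ : {m // Dn T m}))
    (fun a b hab => Subtype.ext (congrArg (fun x : {m // Dn T m} => x.1) hab))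

/-- the combinatorial form of failure -/
def Bad (K : Type) [Field K] {σ : Type} [Fintype σ] [DecidableEq σ] (T : Finset (σ →₀ ℕ)) :
    Prop :=
  ∃ i, NI (Dn T) (fun _ => (1 : K)) i ∧ NS (Dn T) (fun _ => (1 : K)) i

theorem mem_failDegrees {t d : ℕ} : d ∈ failDegrees K n t ↔
    ∃ e, d = n + e ∧ ∃ T : Finset (Fin n →₀ ℕ), T.card = t ∧ (∀ τ ∈ T, τ.degree = e) ∧
      Bad K T := by
  classical
  constructor
  · rintro ⟨I, ⟨S, hS⟩, hfin, ⟨e, rfl, hsoc, hrk⟩, hw⟩
    have h0 := std_span (K := K) S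
    rw [← hS] at h0
    generalize (fun m => ¬ ∃ s ∈ S, s ≤ m) = D at h0
    have hD : {m | D m}.Finite := by
      have : Finite {m // D m} := h0.linInd.finite
      exact this
    let T : Finset (Fin n →₀ ℕ) := hD.toFinset.filter (fun m => m.degree = e)
    have hT : ∀ τ ∈ T, τ.degree = e := fun τ hτ => (Finset.mem_filter.1 hτ).2
    have hDT : D = Dn T := by
      funext m
      apply propext
      constructor
      · intro hm
        obtain ⟨b, hb, hmax⟩ := hD.exists_le_maximal (a := m) hm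
        refine ⟨b, Finset.mem_filter.2 ⟨hD.mem_toFinset.2 hmax.1, ?_⟩, hb⟩
        have h1 : Ideal.Quotient.mk I (monomial b 1) ∈ socle I := by
          intro j
          rw [← map_mul, Ideal.Quotient.eq_zero_iff_mem, X, monomial_mul, one_mul, h0.mono_mem]
          intro h2
          have := degree_mono (hmax.2 h2 le_add_self)
          rw [map_add, degree_single] at this
          omega
        obtain ⟨g, hg, h2⟩ := mem_piece.1 (hsoc h1)
        rw [Ideal.Quotient.eq] at h2
        have h3 := (h0 _).1 h2 b hmax.1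
        by_contra h4
        rw [coeff_sub, hg.coeff_eq_zero h4] at h3
        simp at h3
      · rintro ⟨τ, hτ, h1⟩
        exact h0.down _ _ h1 (hD.mem_toFinset.1 (Finset.mem_filter.1 hτ).1)
    have h0' : Std I (Dn T) := hDT ▸ h0
    refine ⟨e, rfl, T, ?_, hT, (wlp_iff h0').1 hw⟩
    rw [← hrk, finrank_socle h0' hT]
  · rintro ⟨e, rfl, T, rfl, hT, hb⟩
    have h0 := std_span (K := K) {m | ¬ Dn T m}
    have h1 : (fun m => ¬ ∃ s ∈ {m | ¬ Dn T m}, s ≤ m) = Dn T := by
      funext m
      apply propext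
      constructor
      · intro h
        by_contra h2
        exact h ⟨m, h2, le_rfl⟩
      · rintro ⟨τ, hτ, h2⟩ ⟨s, hs, h3⟩
        exact hs ⟨τ, hτ, h3.trans h2⟩
    rw [h1] at h0
    refine ⟨_, ⟨_, rfl⟩, ?_, ⟨e, rfl, ?_, finrank_socle h0 hT⟩, (wlp_iff h0).2 hb⟩
    · generalize Ideal.span ((fun m => monomial m (1 : K)) '' {m | ¬ Dn T m}) = I at h0
      have hfin : {m | Dn T m}.Finite := by
        refine (finite_of_degree_le (σ := Fin n) e).subset ?_
        rintro m ⟨τ, hτ, h2⟩
        exact (degree_mono h2).trans (hT τ hτ).le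
      refine ⟨Submodule.fg_def.2 ⟨(fun m => Ideal.Quotient.mkₐ K I (monomial m (1 : K))) ''
        {m | Dn T m}, hfin.image _, ?_⟩⟩
      rw [eq_top_iff]
      intro x _
      obtain ⟨f, rfl⟩ := Ideal.Quotient.mkₐ_surjective K I x
      rw [as_sum_smul f, map_sum]
      refine Submodule.sum_mem _ fun m _ => ?_
      rw [map_smul]
      apply Submodule.smul_mem
      by_cases h1 : Dn T m
      · exact Submodule.subset_span ⟨m, h1, rfl⟩
      · have : Ideal.Quotient.mkₐ K I (monomial m 1) = 0 :=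
          Ideal.Quotient.eq_zero_iff_mem.2 ((h0.mono_mem m).2 h1)
        rw [this]
        exact Submodule.zero_mem _
    · rw [socle_eq h0 hT, Submodule.span_le]
      rintro _ ⟨m, rfl⟩
      exact mem_piece.2 ⟨_, isHomogeneous_monomial _ (hT _ m.2), rfl⟩

end Pool.Agent.H79.LV
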