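import Mathlib
import Pool.Agent.H79.LV2

set_option autoImplicit false
set_option linter.unusedSectionVars false

namespace Pool.Agent.H79.LV

open MvPolynomial Finsupp

variable {K : Type} [Field K] {σ : Type} [Fintype σ] [DecidableEq σ]

/-- the terms of `f` with exponent `k` in the variable `i` -/
noncomputable def prt (i : σ) (k : ℕ) (f : MvPolynomial σ K) : MvPolynomial σ K :=
  ∑ m ∈ f.support with m i = k, monomial m (coeff m f)

theorem coeff_prt (i : σ) (k : ℕ) (f : MvPolynomial σ K) (m : σ →₀ ℕ) :
    coeff m (prt i k f) = if m i = k then coeff m f else 0 := by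
  rw [prt, coeff_sum]
  simp only [coeff_monomial]
  rw [Finset.sum_ite_eq']
  by_cases h1 : m i = k <;> by_cases h2 : coeff m f = 0 <;> simp [h1, h2]

theorem support_prt (i : σ) (k : ℕ) (f : MvPolynomial σ K) :
    (prt i k f).support = f.support.filter (fun m => m i = k) := by
  ext m
  simp only [MvPolynomial.mem_support_iff, coeff_prt, Finset.mem_filter]
  by_cases h1 : m i = k <;> simp [h1]

theorem support_sub_prt (i : σ) (k : ℕ) (f : MvPolynomial σ K) :
    (f - prt i k f).support = f.support.filter (fun m => ¬ m i = k) := by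
  ext m
  simp only [MvPolynomial.mem_support_iff, coeff_sub, coeff_prt, Finset.mem_filter]
  by_cases h1 : m i = k <;> simp [h1]

/-- sum of the variables in `s` -/
noncomputable def Ls (K : Type) [Field K] (s : Finset σ) : MvPolynomial σ K := ∑ j ∈ s, X j

theorem prt_Ls_mul {i : σ} {s : Finset σ} (hi : i ∉ s) (k : ℕ) (g : MvPolynomial σ K) :
    prt i k (Ls K s * g) = Ls K s * prt i k g := by
  ext m
  rw [coeff_prt, Ls, Finset.sum_mul, Finset.sum_mul, coeff_sum, coeff_sum]
  have : ∀ j ∈ s, coeff m (X j * prt i k g) = if m i = k then coeff m (X j * g) else 0 := by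
    intro j hj
    have hij : j ≠ i := fun h => hi (h ▸ hj)
    rw [coeff_X_mul', coeff_X_mul', coeff_prt]
    simp only [Finsupp.coe_tsub, Pi.sub_apply, single_apply, if_neg hij, Nat.sub_zero]
    split_ifs <;> rfl
  rw [Finset.sum_congr rfl this]
  split_ifs <;> simp

theorem prt_X_mul (i : σ) (k : ℕ) (g : MvPolynomial σ K) :
    prt i (k + 1) (X i * g) = X i * prt i k g := by
  ext m
  rw [coeff_prt, coeff_X_mul', coeff_X_mul', coeff_prt]
  simp only [Finsupp.coe_tsub, Pi.sub_apply, single_eq_same, Finsupp.mem_support_iff]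
  by_cases h1 : m i = 0
  · simp [h1]
  · by_cases h2 : m i = k + 1
    · simp [h2]
    · rw [if_neg h2, if_pos h1, if_neg (by omega)]

theorem prt_X_mul_zero (i : σ) (g : MvPolynomial σ K) : prt i 0 (X i * g) = 0 := by
  ext m
  rw [coeff_prt, coeff_X_mul']
  by_cases h1 : m i = 0 <;> simp [h1]

theorem prt_add (i : σ) (k : ℕ) (f g : MvPolynomial σ K) :
    prt i k (f + g) = prt i k f + prt i k g := by
  ext m
  simp only [coeff_prt, coeff_add]
  split_ifs <;> simp

theorem Ls_insert {i : σ} {s : Finset σ} (hi : i ∉ s) :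
    Ls K (insert i s) = X i + Ls K s := Finset.sum_insert hi

theorem prt_succ {i : σ} {s : Finset σ} (hi : i ∉ s) (k : ℕ) (g : MvPolynomial σ K) :
    prt i (k + 1) (Ls K (insert i s) * g) = X i * prt i k g + Ls K s * prt i (k + 1) g := by
  rw [Ls_insert hi, add_mul, prt_add, prt_X_mul, prt_Ls_mul hi]

theorem prt_low {i : σ} {s : Finset σ} (hi : i ∉ s) (a : ℕ) (g : MvPolynomial σ K)
    (h : ∀ k < a, prt i k g = 0) :
    prt i a (Ls K (insert i s) * g) = Ls K s * prt i a g := by
  rcases a with _ | a
  · rw [Ls_insert hi, add_mul, prt_add, prt_X_mul_zero, prt_Ls_mul hi, zero_add]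
  · rw [prt_succ hi, h a (by omega), mul_zero, zero_add]

theorem card_monomial_mul (v : σ →₀ ℕ) {c : K} (hc : c ≠ 0) (h : MvPolynomial σ K) :
    (monomial v c * h).support.card = h.support.card := by
  have : (monomial v c * h).support = h.support.image (v + ·) := by
    ext m
    simp only [MvPolynomial.mem_support_iff, coeff_monomial_mul', Finset.mem_image]
    constructor
    · intro h1
      by_cases h2 : v ≤ m
      · rw [if_pos h2] at h1
        exact ⟨m - v, right_ne_zero_of_mul h1, add_tsub_cancel_of_le h2⟩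
      · simp [h2] at h1
    · rintro ⟨a, ha, rfl⟩
      simp [hc, ha]
  rw [this, Finset.card_image_of_injective _ (add_right_injective v)]

theorem card_X_mul (i : σ) (h : MvPolynomial σ K) :
    (X i * h).support.card = h.support.card := card_monomial_mul _ one_ne_zero h

theorem exists_ab (i : σ) {g : MvPolynomial σ K} (hg : g ≠ 0) :
    ∃ a b, a ≤ b ∧ prt i a g ≠ 0 ∧ prt i b g ≠ 0 ∧ (∀ k < a, prt i k g = 0) ∧
      (∀ k, b < k → prt i k g = 0) := by
  have hne : g.support.Nonempty := by
    rw [Finset.nonempty_iff_ne_empty]; simpa using hg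
  obtain ⟨u, hu, hu'⟩ := g.support.exists_min_image (fun m => m i) hne
  obtain ⟨v, hv, hv'⟩ := g.support.exists_max_image (fun m => m i) hne
  refine ⟨u i, v i, hu' v hv, ?_, ?_, ?_, ?_⟩
  · intro h
    have := congrArg (coeff u) h
    simp [coeff_prt, MvPolynomial.mem_support_iff.1 hu] at this
  · intro h
    have := congrArg (coeff v) h
    simp [coeff_prt, MvPolynomial.mem_support_iff.1 hv] at this
  · intro k hk
    ext m
    rw [coeff_prt, coeff_zero]
    split_ifs with h
    · by_contra h1
      have := hu' m (MvPolynomial.mem_support_iff.2 h1)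
      omega
    · rfl
  · intro k hk
    ext m
    rw [coeff_prt, coeff_zero]
    split_ifs with h
    · by_contra h1
      have := hv' m (MvPolynomial.mem_support_iff.2 h1)
      omega
    · rfl

theorem card_pos_of_ne {g : MvPolynomial σ K} (hg : g ≠ 0) : 1 ≤ g.support.card := by
  rw [Nat.succ_le_iff, Finset.card_pos, Finset.nonempty_iff_ne_empty]; simpa using hg

theorem card_prt_le (i : σ) (f : MvPolynomial σ K) (S : Finset ℕ) :
    ∑ k ∈ S, (prt i k f).support.card ≤ f.support.card := by
  simp only [support_prt]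
  rw [← Finset.card_biUnion]
  · exact Finset.card_le_card (Finset.biUnion_subset.2 fun _ _ => Finset.filter_subset _ _)
  · intro a _ b _ hab
    exact Finset.disjoint_filter.2 fun m _ h1 h2 => hab (h1.symm.trans h2)

theorem card_Ls_mul (s : Finset σ) : ∀ g : MvPolynomial σ K, g ≠ 0 →
    s.card ≤ (Ls K s * g).support.card := by
  induction s using Finset.induction_on with
  | empty => simp
  | insert i s hi ih =>
    intro g hg
    obtain ⟨a, b, hab, ha, hb, ha', hb'⟩ := exists_ab i hg
    have h1 := card_prt_le i (Ls K (insert i s) * g) {a, b + 1}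
    rw [Finset.sum_pair (by omega), prt_low hi a g ha', prt_succ hi, hb' (b + 1) (by omega),
      mul_zero, add_zero, card_X_mul] at h1
    have h2 := ih _ ha
    have h3 := card_pos_of_ne hb
    rw [Finset.card_insert_of_notMem hi]
    omega

theorem coeff_Ls_pow [CharZero K] (s : Finset σ) (m : σ →₀ ℕ) (hm : m.support ⊆ s) :
    coeff m (Ls K s ^ m.degree) ≠ 0 := by
  have : Ls K s = ∑ j, (if j ∈ s then (1 : K) else 0) • X j := by
    simp [Ls, ite_smul]
  rw [this, coeff_linearCombination_X_pow_of_fintype, if_pos (by rfl)]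
  refine mul_ne_zero ?_ ?_
  · rw [Nat.cast_ne_zero, Finsupp.multinomial_eq]
    exact (Nat.multinomial_pos _ _).ne'
  · refine Finset.prod_ne_zero_iff.2 fun j hj => ?_
    simp [hm hj]

theorem card_Ls_pow [CharZero K] (s : Finset σ) (hs : 2 ≤ s.card) (r : ℕ) (hr : 1 ≤ r) :
    2 * s.card ≤ (Ls K s ^ (r + 1)).support.card + 1 := by
  obtain ⟨x, hx, y, hy, hxy⟩ := Finset.one_lt_card.1 hs
  have hinj : ∀ z : σ, Function.Injective fun j => single z r + single j 1 := by
    intro z j j' h
    exact single_left_injective one_ne_zero (add_left_cancel h)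
  have hsub : ∀ z ∈ s, s.image (fun j => single z r + single j 1) ⊆
      (Ls K s ^ (r + 1)).support := by
    intro z hz m hm
    obtain ⟨j, hj, rfl⟩ := Finset.mem_image.1 hm
    have := coeff_Ls_pow (K := K) s (single z r + single j 1) (by
      refine support_add.trans (Finset.union_subset ?_ ?_)
      · exact support_single_subset.trans (by simpa using hz)
      · exact support_single_subset.trans (by simpa using hj))
    rw [map_add, degree_single, degree_single] at this
    exact MvPolynomial.mem_support_iff.2 this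
  have h1 := Finset.card_union_add_card_inter (s.image (fun j => single x r + single j 1))
    (s.image (fun j => single y r + single j 1))
  rw [Finset.card_image_of_injective _ (hinj x), Finset.card_image_of_injective _ (hinj y)] at h1
  have h2 := Finset.card_le_card (Finset.union_subset (hsub x hx) (hsub y hy))
  have h3 : (s.image (fun j => single x r + single j 1)) ∩
      (s.image (fun j => single y r + single j 1)) ⊆ {single x r + single y 1} := by
    intro m hm
    obtain ⟨h4, h5⟩ := Finset.mem_inter.1 hm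
    obtain ⟨j, _, rfl⟩ := Finset.mem_image.1 h4
    obtain ⟨j', _, h6⟩ := Finset.mem_image.1 h5
    have h7 := DFunLike.congr_fun h6 y
    simp only [Finsupp.add_apply, single_apply, if_neg hxy, if_true] at h7
    have : j = y := by
      by_contra h8
      rw [if_neg h8] at h7
      omega
    simp [this]
  have h4 := Finset.card_le_card h3
  rw [Finset.card_singleton] at h4
  omega

theorem eq_monomial_of_card {g : MvPolynomial σ K} (hg : g ≠ 0) (h : ¬ 2 ≤ g.support.card) :
    ∃ v c, c ≠ 0 ∧ g = monomial v c := by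
  have h1 := card_pos_of_ne hg
  obtain ⟨v, hv⟩ := Finset.card_eq_one.1 (show g.support.card = 1 by omega)
  refine ⟨v, coeff v g, MvPolynomial.mem_support_iff.1 (by simp [hv]), ?_⟩
  conv_lhs => rw [g.as_sum, hv, Finset.sum_singleton]

theorem card_Ls_mul_two [CharZero K] (s : Finset σ) : ∀ g : MvPolynomial σ K,
    2 ≤ g.support.card → 2 * s.card ≤ (Ls K s * g).support.card + 2 := by
  induction s using Finset.induction_on with
  | empty => simp
  | insert i s hi ih =>
    intro g hg2
    have hg : g ≠ 0 := by rintro rfl; simp at hg2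
    by_cases hs : ¬ 2 ≤ s.card
    · have := card_Ls_mul (insert i s) g hg
      rw [Finset.card_insert_of_notMem hi] at this ⊢
      omega
    rw [not_not] at hs
    rw [Finset.card_insert_of_notMem hi]
    obtain ⟨a, b, hab, ha, hb, ha', hb'⟩ := exists_ab i hg
    have hlow := prt_low hi a g ha'
    have htop : prt i (b + 1) (Ls K (insert i s) * g) = X i * prt i b g := by
      rw [prt_succ hi, hb' (b + 1) (by omega), mul_zero, add_zero]
    by_cases h1 : ¬ 2 ≤ (prt i a g).support.card
    · have h2 : g - prt i a g ≠ 0 := by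
        intro h
        rw [sub_eq_zero] at h
        rw [← h] at h1
        exact h1 hg2
      have h3 := card_Ls_mul (insert i s) _ h2
      have h4 := Finset.card_filter_add_card_filter_not (s := (Ls K (insert i s) * g).support)
        (fun m => m i = a)
      rw [← support_prt, ← support_sub_prt, hlow] at h4
      have h5 : Ls K (insert i s) * (g - prt i a g) =
          (Ls K (insert i s) * g - Ls K s * prt i a g) - X i * prt i a g := by
        rw [Ls_insert hi]; ring
      have h6 := Finset.card_le_card (MvPolynomial.support_sub σ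
        (Ls K (insert i s) * g - Ls K s * prt i a g) (X i * prt i a g))
      have h7 := Finset.card_union_le (Ls K (insert i s) * g - Ls K s * prt i a g).support
        (X i * prt i a g).support
      rw [card_X_mul] at h7
      rw [← h5] at h6
      have h8 := card_Ls_mul s _ ha
      rw [Finset.card_insert_of_notMem hi] at h3
      omega
    rw [not_not] at h1
    have h2 := ih _ h1
    have h3 := card_prt_le i (Ls K (insert i s) * g) {a, b + 1}
    rw [Finset.sum_pair (by omega), hlow, htop, card_X_mul] at h3
    by_cases h4 : 2 ≤ (prt i b g).support.card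
    · omega
    have h5 := card_pos_of_ne hb
    by_cases h6 : ∃ k, a < k ∧ k ≤ b ∧ prt i k (Ls K (insert i s) * g) ≠ 0
    · obtain ⟨k, hk1, hk2, hk3⟩ := h6
      have h7 := card_prt_le i (Ls K (insert i s) * g) {k, a, b + 1}
      rw [Finset.sum_insert (by simp; omega), Finset.sum_pair (by omega), hlow, htop,
        card_X_mul] at h7
      have h8 := card_pos_of_ne hk3
      omega
    push Not at h6
    have hlt : a < b := by
      rcases hab.lt_or_eq with h | h
      · exact h
      · subst h; exact absurd h1 h4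
    have h7 : ∀ r, r ≤ b - a → X i ^ r * prt i (b - r) g = (- Ls K s) ^ r * prt i b g := by
      intro r
      induction r with
      | zero => simp
      | succ r ihr =>
        intro hr
        have e1 := h6 (b - (r + 1) + 1) (by omega) (by omega)
        rw [prt_succ hi, show b - (r + 1) + 1 = b - r by omega] at e1
        have e2 := ihr (by omega)
        linear_combination X i ^ r * e1 - Ls K s * e2
    have h8 := h7 (b - a) le_rfl
    rw [show b - (b - a) = a by omega] at h8
    obtain ⟨v, c, hc, hv⟩ := eq_monomial_of_card hb h4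
    have h9 : monomial (single i (b - a)) (1 : K) * (Ls K s * prt i a g) =
        monomial v ((-1) ^ (b - a) * c) * Ls K s ^ (b - a + 1) := by
      rw [← X_pow_eq_monomial, ← C_mul_monomial, ← hv, map_pow, map_neg, map_one]
      rw [neg_pow] at h8
      linear_combination Ls K s * h8
    have h10 := congrArg (fun f : MvPolynomial σ K => f.support.card) h9
    rw [card_monomial_mul _ one_ne_zero, card_monomial_mul _ (by simp [hc])] at h10
    have h11 := card_Ls_pow (K := K) s hs (b - a) (by omega)
    omega

theorem lin_one : lin (fun _ : σ => (1 : K)) = Ls K Finset.univ := by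
  simp [lin, Ls]

theorem NIp_succ {T : Finset (σ →₀ ℕ)} {e : ℕ} (hT : ∀ τ ∈ T, τ.degree = e) {a : σ → K} {i : ℕ}
    (hi : i < e) (h : NIp (Dn T) a i) : NIp (Dn T) a (i + 1) := by
  obtain ⟨g, hg, ⟨u, ⟨τ, hτ, hu⟩, hu'⟩, h0⟩ := h
  have hd : u.degree = i := by
    by_contra h1
    exact hu' (hg.coeff_eq_zero h1)
  obtain ⟨j, hj⟩ := exists_succ_le hu (by
    rintro rfl
    have := hT _ hτ
    omega)
  refine ⟨X j * g, by simpa [add_comm] using (isHomogeneous_X K j).mul hg,
    ⟨_, ⟨τ, hτ, hj⟩, by rwa [add_comm, coeff_X_mul]⟩, ?_⟩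
  rintro m ⟨τ', hτ', hm⟩
  rw [mul_left_comm, coeff_X_mul']
  split_ifs
  · exact h0 _ ⟨τ', hτ', tsub_le_self.trans hm⟩
  · rfl

theorem Dn_down (T : Finset (σ →₀ ℕ)) (u m : σ →₀ ℕ) (h : u ≤ m) (hm : Dn T m) : Dn T u := by
  obtain ⟨τ, hτ, h1⟩ := hm
  exact ⟨τ, hτ, h.trans h1⟩

/-- the lower bound -/
theorem bound_of_bad [CharZero K] {T : Finset (σ →₀ ℕ)} {e : ℕ} (hT : ∀ τ ∈ T, τ.degree = e)
    (h : Bad K T) :
    T.card + 2 * Fintype.card σ ≤ (Fintype.card σ + e - 1).choose e + 2 := by
  obtain ⟨i, h1, ⟨φ, ⟨m, hm⟩, h2, -⟩⟩ := h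
  have hie : i + 1 ≤ e := by
    obtain ⟨⟨τ, hτ, h3⟩, h4⟩ := h2 m hm
    rw [← h4, ← hT τ hτ]
    exact degree_mono h3
  obtain ⟨k, rfl⟩ : ∃ k, e = k + 1 := ⟨e - 1, by omega⟩
  have h3 : ∀ j, i ≤ j → j ≤ k → NIp (Dn T) (fun _ => (1 : K)) j := by
    intro j hj
    induction j, hj using Nat.le_induction with
    | base => exact fun _ => NIp_of_NI h1
    | succ j _ ih => exact fun hjk => NIp_succ hT (by omega) (ih (by omega))
  obtain ⟨c, ⟨u, hu⟩, hc1, hc2⟩ := NI_of_NIp (Dn_down T) (h3 k (by omega) le_rfl)
  have hc := coeff_ofFun c k fun u hu => (hc1 u hu).2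
  have hg0 : ∀ m, Dn T m → coeff m (lin (fun _ => (1 : K)) * ofFun c k) = 0 := by
    intro m hm
    rw [coeff_lin_mul]
    simp only [hc]
    exact hc2 m hm
  have hne : ofFun c k ≠ 0 := by
    intro h
    have := hc u
    rw [h, coeff_zero] at this
    exact hu this.symm
  have h2c : 2 ≤ (ofFun c k).support.card := by
    by_contra h
    obtain ⟨v, d, hd, hv⟩ := eq_monomial_of_card hne h
    have hcv : c v ≠ 0 := by rw [← hc, hv]; simpa using hd
    obtain ⟨⟨τ, hτ, h4⟩, h5⟩ := hc1 v hcv
    obtain ⟨j, hj⟩ := exists_succ_le h4 (by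
      rintro rfl
      have := hT _ hτ
      omega)
    have := hg0 _ ⟨τ, hτ, hj⟩
    rw [hv, mul_comm, coeff_monomial_mul, lin_one, Ls, coeff_sum, Finset.sum_eq_single j] at this
    · simp [hd] at this
    · intro b _ hb
      rw [coeff_X, if_neg]
      exact fun h => hb (single_left_injective one_ne_zero h)
    · simp
  have h4 := card_Ls_mul_two Finset.univ _ h2c
  rw [← lin_one, Finset.card_univ] at h4
  have hhom : (lin (fun _ => (1 : K)) * ofFun c k).IsHomogeneous (k + 1) := by
    have h5 : (lin (fun _ : σ => (1 : K))).IsHomogeneous 1 :=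
      IsHomogeneous.sum _ _ _ fun j _ => isHomogeneous_C_mul_X _ j
    simpa [add_comm] using h5.mul (ofFun_hom c k)
  have h5 : T ∪ (lin (fun _ => (1 : K)) * ofFun c k).support ⊆
      (Finset.univ : Finset σ).finsuppAntidiag (k + 1) := by
    refine Finset.union_subset (fun τ hτ => (mem_anti _ _).2 (hT τ hτ)) fun m hm => ?_
    rw [mem_anti]
    by_contra h
    exact MvPolynomial.mem_support_iff.1 hm (hhom.coeff_eq_zero h)
  have h6 := Finset.card_le_card h5
  rw [Finset.card_union_of_disjoint, Finset.card_finsuppAntidiag_nat_eq_choose,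
    Finset.card_univ] at h6
  · omega
  · exact Finset.disjoint_left.2 fun τ hτ h =>
      MvPolynomial.mem_support_iff.1 h (hg0 τ ⟨τ, hτ, le_rfl⟩)

end Pool.Agent.H79.LV
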