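import Mathlib
import Pool.Agent.H79.LV3

set_option autoImplicit false
set_option linter.unusedSectionVars false

namespace Pool.Agent.H79.LV

open MvPolynomial Finsupp

variable {K : Type} [Field K] {n : ℕ}

/-- the general construction -/
theorem exists_bad (x y p q : Fin n) (hxy : x ≠ y) (hpq : p ≠ q) (k : ℕ) (u : Fin n →₀ ℕ)
    (hu : u.degree = k)
    (hdis : ∀ j z : Fin n, (z = x ∨ z = y) → ¬ (u + single z 1 + single j 1).support ⊆ {p, q})
    (t : ℕ) (h1 : k + 4 ≤ t) (h2 : t + 2 * n ≤ (n + (k + 2) - 1).choose (k + 2) + 2) :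
    ∃ T : Finset (Fin n →₀ ℕ), T.card = t ∧ (∀ τ ∈ T, τ.degree = k + 2) ∧ Bad K T := by
  classical
  let A : Finset (Fin n →₀ ℕ) := Finset.univ.finsuppAntidiag (k + 2)
  let F : Finset (Fin n →₀ ℕ) :=
    (Finset.univ.erase y).image (fun j => u + single x 1 + single j 1) ∪
    (Finset.univ.erase x).image (fun j => u + single y 1 + single j 1)
  let P : Finset (Fin n →₀ ℕ) := ({p, q} : Finset (Fin n)).finsuppAntidiag (k + 2)
  have hP : ∀ m, m ∈ P ↔ m.degree = k + 2 ∧ m.support ⊆ {p, q} := by
    intro m
    rw [Finset.mem_finsuppAntidiag]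
    refine and_congr_left fun h => ?_
    rw [degree_apply, Finset.sum_subset h (fun j _ hj => by simpa using hj)]
  have hPc : P.card = k + 3 := by
    rw [Finset.card_finsuppAntidiag_nat_eq_choose, Finset.card_pair hpq,
      show 2 + (k + 2) - 1 = k + 2 + 1 by omega, Nat.choose_succ_self_right]
  have hFc : F.card + 2 ≤ 2 * n := by
    have e1 := Finset.card_union_le
      ((Finset.univ.erase y).image (fun j => u + single x 1 + single j 1))
      ((Finset.univ.erase x).image (fun j => u + single y 1 + single j 1))
    have e2 := Finset.card_image_le (s := Finset.univ.erase y)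
      (f := fun j => u + single x 1 + single j 1)
    have e3 := Finset.card_image_le (s := Finset.univ.erase x)
      (f := fun j => u + single y 1 + single j 1)
    rw [Finset.card_erase_of_mem (Finset.mem_univ _), Finset.card_univ, Fintype.card_fin] at e2 e3
    have := x.pos
    change F.card ≤ _ at e1
    omega
  have hAc : A.card = (n + (k + 2) - 1).choose (k + 2) := by
    rw [Finset.card_finsuppAntidiag_nat_eq_choose, Finset.card_univ, Fintype.card_fin]
  have hdeg : ∀ z j : Fin n, (u + single z 1 + single j 1).degree = k + 2 := by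
    intro z j
    rw [map_add, map_add, degree_single, degree_single, hu]
  have hsub : insert (u + single x 1 + single y 1) P ⊆ A \ F := by
    intro m hm
    rcases Finset.mem_insert.1 hm with rfl | hm
    · refine Finset.mem_sdiff.2 ⟨(mem_anti _ _).2 (hdeg _ _), fun h => ?_⟩
      rcases Finset.mem_union.1 h with h | h
      · obtain ⟨j, hj, h⟩ := Finset.mem_image.1 h
        exact (Finset.mem_erase.1 hj).1 (single_left_injective one_ne_zero (add_left_cancel h))
      · obtain ⟨j, hj, h⟩ := Finset.mem_image.1 h
        rw [add_right_comm u (single x 1)] at h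
        exact (Finset.mem_erase.1 hj).1 (single_left_injective one_ne_zero (add_left_cancel h))
    · refine Finset.mem_sdiff.2 ⟨(mem_anti _ _).2 ((hP m).1 hm).1, fun h => ?_⟩
      rcases Finset.mem_union.1 h with h | h
      · obtain ⟨j, _, rfl⟩ := Finset.mem_image.1 h
        exact hdis j x (Or.inl rfl) ((hP _).1 hm).2
      · obtain ⟨j, _, rfl⟩ := Finset.mem_image.1 h
        exact hdis j y (Or.inr rfl) ((hP _).1 hm).2
  obtain ⟨T, hT1, hT2, hT3⟩ := Finset.exists_subsuperset_card_eq hsub (n := t)
    ((Finset.card_insert_le _ _).trans (by omega))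
    (by have := Finset.le_card_sdiff F A; omega)
  have hT : ∀ τ ∈ T, τ.degree = k + 2 := fun τ hτ =>
    (mem_anti _ _).1 (Finset.mem_sdiff.1 (hT2 hτ)).1
  have hF : ∀ m ∈ F, ¬ Dn T m := by
    rintro m hm ⟨τ, hτ, h⟩
    have hd : m.degree = k + 2 := by
      rcases Finset.mem_union.1 hm with h | h <;>
      · obtain ⟨j, _, rfl⟩ := Finset.mem_image.1 h
        exact hdeg _ _
    have := eq_of_le_of_degree h (by rw [hd, hT τ hτ])
    exact (Finset.mem_sdiff.1 (hT2 hτ)).2 (this ▸ hm)
  refine ⟨T, hT3, hT, k + 1, NI_of_NIp (Dn_down T) ⟨monomial (u + single x 1) 1 -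
    monomial (u + single y 1) 1, ?_, ⟨u + single x 1, ⟨_, hT1 (Finset.mem_insert_self _ _),
      le_self_add⟩, ?_⟩, ?_⟩, ?_⟩
  · exact (isHomogeneous_monomial _ (by rw [map_add, degree_single, hu])).sub
      (isHomogeneous_monomial _ (by rw [map_add, degree_single, hu]))
  · rw [coeff_sub, coeff_monomial, coeff_monomial, if_pos rfl, if_neg]
    · simp
    · exact fun h => hxy (single_left_injective one_ne_zero (add_left_cancel h)).symm
  · intro m hm
    rw [mul_sub, lin_mul_monomial, lin_mul_monomial, coeff_sub, coeff_sum, coeff_sum,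
      Finset.sum_eq_single y, Finset.sum_eq_single x, add_right_comm, sub_self]
    · intro j _ hj
      rw [one_smul, coeff_monomial, if_neg]
      rintro rfl
      exact hF _ (Finset.mem_union_right _ (Finset.mem_image.2 ⟨j, by simp [hj], rfl⟩)) hm
    · simp
    · intro j _ hj
      rw [one_smul, coeff_monomial, if_neg]
      rintro rfl
      exact hF _ (Finset.mem_union_left _ (Finset.mem_image.2 ⟨j, by simp [hj], rfl⟩)) hm
    · simp
  · refine ⟨fun m => if m ∈ P then (-1) ^ m p else 0, ⟨single p (k + 2), ?_⟩, ?_, ?_⟩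
    · have : single p (k + 2) ∈ P :=
        (hP _).2 ⟨degree_single _ _, support_single_subset.trans (by simp)⟩
      simp only [this, if_true]
      exact pow_ne_zero _ (by simp)
    · intro m hm
      have : m ∈ P := by
        by_contra h
        simp [h] at hm
      exact ⟨⟨m, hT1 (Finset.mem_insert_of_mem this), le_rfl⟩, ((hP m).1 this).1⟩
    · intro v
      have e1 : ∀ j, v + single j 1 ∈ P ↔
          (v.degree = k + 1 ∧ v.support ⊆ {p, q}) ∧ j ∈ ({p, q} : Finset (Fin n)) := by
        intro j
        rw [hP, map_add, degree_single, Finsupp.support_add_eq_union, support_single _ one_ne_zero,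
          Finset.union_subset_iff, Finset.singleton_subset_iff, and_assoc]
        exact and_congr_left fun _ => by omega
      rw [← Finset.sum_subset (Finset.subset_univ {p, q}), Finset.sum_pair hpq]
      · by_cases h : v.degree = k + 1 ∧ v.support ⊆ {p, q}
        · simp [e1, h, pow_succ, hpq]
        · simp [e1, h]
      · intro j _ hj
        simp only [e1, hj, and_false, if_false, mul_zero]

end Pool.Agent.H79.LV
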