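import Mathlib

set_option autoImplicit false

namespace Pool.Agent.H79.LV

/-- raise one exponent -/
def ups : List ℕ → List (List ℕ)
  | [] => []
  | x :: a => ((x + 1) :: a) :: (ups a).map (x :: ·)

/-- lower one exponent -/
def downs : List ℕ → List (List ℕ)
  | [] => []
  | 0 :: a => (downs a).map (0 :: ·)
  | (x + 1) :: a => (x :: a) :: (downs a).map ((x + 1) :: ·)

/-- all entrywise smaller lists with entry sum `d` -/
def below : List ℕ → ℕ → List (List ℕ)
  | [], d => if d = 0 then [[]] else []
  | x :: a, d => (List.range (min x d + 1)).flatMap fun y => (below a (d - y)).map (y :: ·)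

def eqL : List ℕ → List ℕ → Bool
  | [], [] => true
  | x :: a, y :: b => Nat.beq x y && eqL a b
  | _, _ => false

def cnt (m : List ℕ) : List (List ℕ) → ℕ
  | [] => 0
  | a :: l => bif eqL m a then cnt m l + 1 else cnt m l

def dd : List (List ℕ) → List (List ℕ)
  | [] => []
  | a :: l => bif Nat.beq (cnt a l) 0 then a :: dd l else dd l

def lev (Tl : List (List ℕ)) (d : ℕ) : List (List ℕ) := dd (Tl.flatMap (below · d))

def pick : List (List ℤ) → Option (ℤ × List ℤ)
  | [] => none
  | [] :: M => pick M
  | (h :: s) :: M => if h = 0 then pick M else some (h, s)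

def red (p : ℤ) (r : List ℤ) : List ℤ → List ℤ
  | [] => []
  | h :: s => if h = 0 then s else List.zipWith (fun x y => p * x - h * y) s r

def triv : ℕ → List (List ℤ) → Bool
  | 0, _ => true
  | k + 1, M => match pick M with
    | none => false
    | some (p, r) => triv k (M.map (red p r))

def rowOf (U A : List (List ℕ)) : List ℤ := U.map fun m => (cnt m A : ℤ)

def chkNI (U V : List (List ℕ)) : Bool := triv U.length (V.map fun m => rowOf U (downs m))

def chkNS (U V : List (List ℕ)) : Bool := triv V.length (U.map fun u => rowOf V (ups u))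

def chkAt (U V : List (List ℕ)) : Bool :=
  bif Nat.ble U.length V.length then (chkNI U V || chkNS U V) else (chkNS U V || chkNI U V)

def good (Tl : List (List ℕ)) (e : ℕ) : Bool :=
  (List.range e).all fun i => chkAt (lev Tl i) (lev Tl (i + 1))

def code : List ℕ → ℕ
  | [] => 0
  | x :: a => x + 8 * code a

/-- all entrywise smaller lists -/
def box : List ℕ → List (List ℕ)
  | [] => [[]]
  | x :: a => (List.range (x + 1)).flatMap fun y => (box a).map (y :: ·)

/-- lists of nonzero columns, of non-increasing code, with prescribed row sums -/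
def gen : ℕ → List ℕ → ℕ → List (List (List ℕ))
  | 0, rem, _ => bif Nat.beq rem.sum 0 then [[]] else []
  | f + 1, rem, b => bif Nat.beq rem.sum 0 then [[]] else
      (box rem).flatMap fun c =>
        bif Nat.ble 1 c.sum && Nat.ble (code c) b then
          (gen f (List.zipWith (· - ·) rem c) (code c)).map (c :: ·) else []

def rowsOf (t : ℕ) (cs : List (List ℕ)) : List (List ℕ) :=
  (List.range t).map fun k => cs.map (·.getD k 0)

def allGood (t e : ℕ) : Bool :=
  (gen (t * e) (List.replicate t e) (code (List.replicate t e))).all fun cs => good (rowsOf t cs) e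

end Pool.Agent.H79.LV
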