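import Mathlib
import Pool.Agent.H79.LV3
import Pool.Agent.H79.LVChk

set_option autoImplicit false
set_option linter.unusedSectionVars false

namespace Pool.Agent.H79.LV

open Finsupp

variable {K : Type} [Field K]

/-! ### soundness of the checker -/

theorem mem_below (τ : List ℕ) : ∀ (d : ℕ) (a : List ℕ),
    a ∈ below τ d ↔ List.Forall₂ (· ≤ ·) a τ ∧ a.sum = d := by
  induction τ with
  | nil =>
    intro d a
    by_cases h : d = 0
    · simp +contextual [below, h]
    · simp only [below, if_neg h, List.not_mem_nil, List.forall₂_nil_right_iff, false_iff]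
      rintro ⟨rfl, h1⟩
      exact h h1.symm
  | cons x τ ih =>
    intro d a
    simp only [below, List.mem_flatMap, List.mem_range, List.mem_map, ih,
      List.forall₂_cons_right_iff]
    constructor
    · rintro ⟨y, hy, b, ⟨h1, h2⟩, rfl⟩
      refine ⟨⟨y, b, by omega, h1, rfl⟩, ?_⟩
      rw [List.sum_cons]; omega
    · rintro ⟨⟨y, b, h1, h2, rfl⟩, h3⟩
      rw [List.sum_cons] at h3
      exact ⟨y, by omega, b, ⟨h2, by omega⟩, rfl⟩

theorem eqL_iff : ∀ a b : List ℕ, eqL a b = true ↔ a = b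
  | [], [] => by simp [eqL]
  | [], _ :: _ => by simp [eqL]
  | _ :: _, [] => by simp [eqL]
  | x :: a, y :: b => by simp [eqL, eqL_iff a b]

theorem cnt_eq (m : List ℕ) (l : List (List ℕ)) : cnt m l = l.count m := by
  induction l with
  | nil => rfl
  | cons a l ih =>
    by_cases h : m = a
    · subst h
      simp [cnt, (eqL_iff m m).2 rfl, ih]
    · have : eqL m a = false := by
        rw [← Bool.not_eq_true, eqL_iff]; exact h
      simp [cnt, this, ih, Ne.symm h]

theorem dd_spec (l : List (List ℕ)) : (dd l).Nodup ∧ ∀ a, a ∈ dd l ↔ a ∈ l := by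
  induction l with
  | nil => simp [dd]
  | cons b l ih =>
    by_cases h : b ∈ l
    · have : Nat.beq (cnt b l) 0 = false := by
        rw [← Bool.not_eq_true, Nat.beq_eq, cnt_eq, List.count_eq_zero]; simpa using h
      simp only [dd, this, cond_false]
      refine ⟨ih.1, fun a => ?_⟩
      rw [ih.2, List.mem_cons]
      exact ⟨Or.inr, fun h1 => h1.elim (fun h2 => h2 ▸ h) id⟩
    · have : Nat.beq (cnt b l) 0 = true := by
        rw [Nat.beq_eq, cnt_eq, List.count_eq_zero]; exact h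
      simp only [dd, this, cond_true]
      refine ⟨List.nodup_cons.2 ⟨by rwa [ih.2], ih.1⟩, fun a => ?_⟩
      simp [ih.2]

/-- divisors, as lists of exponents -/
def DL (Tl : List (List ℕ)) (a : List ℕ) : Prop := ∃ b ∈ Tl, List.Forall₂ (· ≤ ·) a b

theorem mem_lev (Tl : List (List ℕ)) (d : ℕ) (a : List ℕ) :
    a ∈ lev Tl d ↔ DL Tl a ∧ a.sum = d := by
  simp only [lev, (dd_spec _).2, List.mem_flatMap, mem_below, DL]
  constructor
  · rintro ⟨b, h1, h2, h3⟩
    exact ⟨⟨b, h1, h2⟩, h3⟩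
  · rintro ⟨⟨b, h1, h2⟩, h3⟩
    exact ⟨b, h1, h2, h3⟩

/-- scalar product -/
def dot (r : List ℤ) (v : List K) : K := (List.zipWith (fun (a : ℤ) x => (a : K) * x) r v).sum

theorem dot_rowOf (U A : List (List ℕ)) (hU : U.Nodup) (ψ : List ℕ → K)
    (h : ∀ a, ψ a ≠ 0 → a ∈ U) : dot (rowOf U A) (U.map ψ) = (A.map ψ).sum := by
  rw [dot, rowOf, List.zipWith_map, List.zipWith_self]
  induction A with
  | nil => simp [cnt]
  | cons a A ih =>
    rw [List.map_cons, List.sum_cons, ← ih]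
    have : ∀ m, (((cnt m (a :: A) : ℕ) : ℤ) : K) * ψ m =
        (if m = a then ψ a else 0) + (((cnt m A : ℕ) : ℤ) : K) * ψ m := by
      intro m
      rw [cnt_eq, cnt_eq]
      by_cases h1 : m = a
      · subst h1; simp; ring
      · simp [h1, Ne.symm h1]
    simp only [this, List.sum_map_add]
    congr 1
    rw [← List.sum_toFinset _ hU, Finset.sum_ite_eq']
    split_ifs with h1
    · rfl
    · by_contra h2
      exact h1 (List.mem_toFinset.2 (h a (Ne.symm h2)))

theorem pick_spec : ∀ (M : List (List ℤ)) (p : ℤ) (r : List ℤ), pick M = some (p, r) →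
    p ≠ 0 ∧ p :: r ∈ M
  | [], _, _, h => by simp [pick] at h
  | [] :: M, p, r, h => by
    have := pick_spec M p r h
    exact ⟨this.1, List.mem_cons_of_mem _ this.2⟩
  | (a :: s) :: M, p, r, h => by
    by_cases h1 : a = 0
    · rw [pick, if_pos h1] at h
      have := pick_spec M p r h
      exact ⟨this.1, List.mem_cons_of_mem _ this.2⟩
    · rw [pick, if_neg h1] at h
      obtain ⟨rfl, rfl⟩ := Prod.mk.inj (Option.some.inj h)
      exact ⟨h1, List.mem_cons_self⟩

theorem dot_zip (p h : ℤ) : ∀ (s r : List ℤ) (v : List K), s.length = v.length →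
    r.length = v.length →
    dot (List.zipWith (fun x y => p * x - h * y) s r) v = p * dot s v - h * dot r v
  | [], [], [], _, _ => by simp [dot]
  | x :: s, y :: r, z :: v, h1, h2 => by
    have := dot_zip p h s r v (by simpa using h1) (by simpa using h2)
    simp only [dot, List.zipWith_cons_cons, List.sum_cons] at this ⊢
    rw [this]; push_cast; ring
  | [], _ :: _, [], _, h2 => by simp at h2
  | _ :: _, _, [], h1, _ => by simp at h1
  | [], _, _ :: _, h1, _ => by simp at h1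
  | _ :: _, [], _ :: _, _, h2 => by simp at h2

theorem triv_sound [CharZero K] : ∀ (k : ℕ) (M : List (List ℤ)) (v : List K), triv k M = true →
    v.length = k → (∀ r ∈ M, r.length = k ∧ dot r v = 0) → ∀ x ∈ v, x = 0
  | 0, _, v, _, hv, _ => by simp [List.length_eq_zero_iff.1 hv]
  | k + 1, M, [], _, hv, _ => by simp
  | k + 1, M, z :: v, h, hv, hM => by
    rw [triv] at h
    rcases hp : pick M with _ | ⟨p, r⟩
    · simp [hp] at h
    rw [hp] at h
    obtain ⟨hp0, hr⟩ := pick_spec M p r hp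
    obtain ⟨h1, h2⟩ := hM _ hr
    simp only [List.length_cons, Nat.add_right_cancel_iff] at h1 hv
    simp only [dot, List.zipWith_cons_cons, List.sum_cons] at h2
    have h3 := triv_sound k _ v h hv (by
      intro s hs
      obtain ⟨s', hs', rfl⟩ := List.mem_map.1 hs
      obtain ⟨h4, h5⟩ := hM _ hs'
      rcases s' with _ | ⟨a, s'⟩
      · simp at h4
      simp only [List.length_cons, Nat.add_right_cancel_iff] at h4
      simp only [dot, List.zipWith_cons_cons, List.sum_cons] at h5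
      by_cases ha : a = 0
      · rw [red, if_pos ha]
        refine ⟨h4, ?_⟩
        simpa [ha, dot] using h5
      · rw [red, if_neg ha]
        refine ⟨by simp [h4, h1], ?_⟩
        rw [dot_zip p a s' r v (by omega) (by omega), dot, dot]
        linear_combination (p : K) * h5 - (a : K) * h2)
    have h4 : (List.zipWith (fun (a : ℤ) x => (a : K) * x) r v).sum = 0 := by
      apply List.sum_eq_zero
      intro x hx
      obtain ⟨i, hi, rfl⟩ := List.mem_iff_getElem.1 hx
      rw [List.getElem_zipWith, h3 _ (List.getElem_mem _), mul_zero]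
    rw [h4, add_zero, mul_eq_zero, Int.cast_eq_zero] at h2
    intro x hx
    rcases List.mem_cons.1 hx with rfl | hx
    · exact h2.resolve_left hp0
    · exact h3 x hx

/-- list form of `NI` -/
def LNI (K : Type) [Field K] (Tl : List (List ℕ)) (i : ℕ) : Prop :=
  ∃ ψ : List ℕ → K, (∃ a, ψ a ≠ 0) ∧ (∀ a, ψ a ≠ 0 → a ∈ lev Tl i) ∧
    ∀ m ∈ lev Tl (i + 1), ((downs m).map ψ).sum = 0

/-- list form of `NS` -/
def LNS (K : Type) [Field K] (Tl : List (List ℕ)) (i : ℕ) : Prop :=
  ∃ ψ : List ℕ → K, (∃ a, ψ a ≠ 0) ∧ (∀ a, ψ a ≠ 0 → a ∈ lev Tl (i + 1)) ∧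
    ∀ m ∈ lev Tl i, ((ups m).map ψ).sum = 0

theorem chk_sound [CharZero K] (U V : List (List ℕ)) (hU : U.Nodup) (f : List ℕ → List (List ℕ))
    (h : triv U.length (V.map fun m => rowOf U (f m)) = true) (ψ : List ℕ → K)
    (h1 : ∀ a, ψ a ≠ 0 → a ∈ U) (h2 : ∀ m ∈ V, ((f m).map ψ).sum = 0) (a : List ℕ) : ψ a = 0 := by
  by_contra h3
  refine h3 (triv_sound _ _ (U.map ψ) h (by simp) ?_ _ (List.mem_map_of_mem (h1 a h3)))
  intro r hr
  obtain ⟨m, hm, rfl⟩ := List.mem_map.1 hr
  exact ⟨by simp [rowOf], by rw [dot_rowOf U _ hU ψ h1, h2 m hm]⟩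

theorem good_sound [CharZero K] (Tl : List (List ℕ)) (e : ℕ) (h : good Tl e = true) (i : ℕ)
    (hi : i < e) : ¬ (LNI K Tl i ∧ LNS K Tl i) := by
  rintro ⟨⟨ψ, ⟨a, ha⟩, h1, h2⟩, ⟨ψ', ⟨a', ha'⟩, h1', h2'⟩⟩
  have h3 := List.all_eq_true.1 h i (List.mem_range.2 hi)
  have h4 : chkNI (lev Tl i) (lev Tl (i + 1)) = true ∨
      chkNS (lev Tl i) (lev Tl (i + 1)) = true := by
    unfold chkAt at h3
    cases h5 : Nat.ble (lev Tl i).length (lev Tl (i + 1)).length <;>
      simp only [h5, cond_true, cond_false, Bool.or_eq_true] at h3 <;> tauto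
  rcases h4 with h4 | h4
  · exact ha (chk_sound _ _ (dd_spec _).1 downs h4 ψ h1 h2 a)
  · exact ha' (chk_sound _ _ (dd_spec _).1 ups h4 ψ' h1' h2' a')

/-! ### from exponent vectors to lists -/

variable {σ : Type} [Fintype σ] [DecidableEq σ]

theorem exists_map_eq : ∀ (l : List σ) (a : List ℕ), l.Nodup → a.length = l.length →
    ∃ m : σ →₀ ℕ, m.support ⊆ l.toFinset ∧ l.map m = a
  | [], [], _, _ => ⟨0, by simp, rfl⟩
  | [], _ :: _, _, h => by simp at h
  | _ :: _, [], _, h => by simp at h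
  | j :: l, x :: a, hl, h => by
    obtain ⟨hj, hl⟩ := List.nodup_cons.1 hl
    obtain ⟨m, h1, h2⟩ := exists_map_eq l a hl (by simpa using h)
    have h3 : m j = 0 := by
      by_contra h4
      exact hj (List.mem_toFinset.1 (h1 (mem_support_iff.2 h4)))
    refine ⟨single j x + m, ?_, ?_⟩
    · rw [List.toFinset_cons]
      refine support_add.trans (Finset.union_subset ?_ (h1.trans (Finset.subset_insert _ _)))
      exact support_single_subset.trans (by simp)
    · rw [List.map_cons, ← h2]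
      congr 1
      · simp [h3]
      · refine List.map_congr_left fun k hk => ?_
        have : j ≠ k := fun h => hj (h ▸ hk)
        simp [this]

theorem map_inj {l : List σ} {m m' : σ →₀ ℕ} (h : m.support ⊆ l.toFinset)
    (h' : m'.support ⊆ l.toFinset) (e : l.map m = l.map m') : m = m' := by
  ext j
  by_cases hj : j ∈ l
  · exact List.map_inj_left.1 e j hj
  · rw [notMem_support_iff.1 fun h1 => hj (List.mem_toFinset.1 (h h1)),
      notMem_support_iff.1 fun h1 => hj (List.mem_toFinset.1 (h' h1))]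

theorem sum_map_eq {l : List σ} (hl : l.Nodup) {m : σ →₀ ℕ} (h : m.support ⊆ l.toFinset) :
    (l.map m).sum = m.degree := by
  rw [← List.sum_toFinset _ hl, degree_apply]
  exact (Finset.sum_subset h fun j _ hj => by simpa using hj).symm

theorem ups_map (u : σ →₀ ℕ) : ∀ l : List σ, l.Nodup →
    ups (l.map u) = l.map fun j => l.map (u + single j 1 : σ →₀ ℕ)
  | [], _ => rfl
  | j :: l, hl => by
    obtain ⟨hj, hl⟩ := List.nodup_cons.1 hl
    rw [List.map_cons, ups, ups_map u l hl, List.map_cons, List.map_map]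
    congr 1
    · rw [List.map_cons]
      congr 1
      · simp
      · refine List.map_congr_left fun k hk => ?_
        have : j ≠ k := fun h => hj (h ▸ hk)
        simp [this]
    · refine List.map_congr_left fun k hk => ?_
      have : k ≠ j := fun h => hj (h ▸ hk)
      simp [this]

theorem downs_map (u : σ →₀ ℕ) : ∀ (l : List σ) (ψ : List ℕ → K), l.Nodup →
    ((downs (l.map u)).map ψ).sum =
      (l.map fun j => if u j ≠ 0 then ψ (l.map (u - single j 1 : σ →₀ ℕ)) else 0).sum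
  | [], _, _ => rfl
  | j :: l, ψ, hl => by
    obtain ⟨hj, hl⟩ := List.nodup_cons.1 hl
    have e1 : (l.map fun k => if u k ≠ 0 then
        ψ ((j :: l).map (u - single k 1 : σ →₀ ℕ)) else 0) =
        l.map fun k => if u k ≠ 0 then
          (ψ ∘ (u j :: ·)) (l.map (u - single k 1 : σ →₀ ℕ)) else 0 := by
      refine List.map_congr_left fun k hk => ?_
      have : k ≠ j := fun h => hj (h ▸ hk)
      simp [this]
    have e2 : l.map (u - single j 1 : σ →₀ ℕ) = l.map u := by
      refine List.map_congr_left fun k hk => ?_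
      have : j ≠ k := fun h => hj (h ▸ hk)
      simp [this]
    rw [List.map_cons (f := fun k => if u k ≠ 0 then
        ψ ((j :: l).map (u - single k 1 : σ →₀ ℕ)) else 0), List.sum_cons, e1,
      ← downs_map u l _ hl, List.map_cons, List.map_cons, e2]
    rcases h : u j with _ | x
    · simp [downs, List.map_map]
    · simp [downs, List.map_map, h]

theorem lev_map {T : Finset (σ →₀ ℕ)} {l : List σ} (hl : l.Nodup)
    (hs : ∀ τ ∈ T, τ.support ⊆ l.toFinset) {Tl : List (List ℕ)}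
    (hT : ∀ b, b ∈ Tl ↔ ∃ τ ∈ T, l.map τ = b) (a : List ℕ) (i : ℕ) :
    a ∈ lev Tl i ↔ ∃ m : σ →₀ ℕ, (Dn T m ∧ m.degree = i) ∧ l.map m = a := by
  rw [mem_lev]
  constructor
  · rintro ⟨⟨b, hb, h1⟩, h2⟩
    obtain ⟨τ, hτ, rfl⟩ := (hT b).1 hb
    obtain ⟨m, h3, rfl⟩ := exists_map_eq l a hl (by simpa using h1.length_eq)
    refine ⟨m, ⟨⟨τ, hτ, fun j => ?_⟩, by rw [← sum_map_eq hl h3, h2]⟩, rfl⟩
    rw [List.forall₂_map_left_iff, List.forall₂_map_right_iff, List.forall₂_same] at h1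
    by_cases hj : j ∈ l
    · exact h1 j hj
    · rw [notMem_support_iff.1 fun h1 => hj (List.mem_toFinset.1 (h3 h1))]
      exact Nat.zero_le _
  · rintro ⟨m, ⟨⟨τ, hτ, h1⟩, h2⟩, rfl⟩
    refine ⟨⟨_, (hT _).2 ⟨τ, hτ, rfl⟩, ?_⟩, ?_⟩
    · rw [List.forall₂_map_left_iff, List.forall₂_map_right_iff, List.forall₂_same]
      exact fun j _ => h1 j
    · rw [sum_map_eq hl ((support_mono h1).trans (hs τ hτ)), h2]

theorem sum_univ_eq {l : List σ} (hl : l.Nodup) (f : σ → K) (h : ∀ j, j ∉ l → f j = 0) :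
    ∑ j, f j = (l.map f).sum := by
  rw [← List.sum_toFinset _ hl]
  exact (Finset.sum_subset (Finset.subset_univ _) fun j _ hj => h j (by simpa using hj)).symm

theorem exists_psi {l : List σ} (c : (σ →₀ ℕ) → K) : ∃ ψ : List ℕ → K,
    (∀ m : σ →₀ ℕ, m.support ⊆ l.toFinset → ψ (l.map m) = c m) ∧
    ∀ a, ψ a ≠ 0 → ∃ m : σ →₀ ℕ, c m ≠ 0 ∧ l.map m = a := by
  classical
  refine ⟨fun a => if h : ∃ m : σ →₀ ℕ, m.support ⊆ l.toFinset ∧ l.map m = a then c h.choose
    else 0, fun m hm => ?_, fun a ha => ?_⟩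
  · have h : ∃ m' : σ →₀ ℕ, m'.support ⊆ l.toFinset ∧ l.map m' = l.map m := ⟨m, hm, rfl⟩
    simp only [dif_pos h]
    rw [map_inj h.choose_spec.1 hm h.choose_spec.2]
  · by_cases h : ∃ m : σ →₀ ℕ, m.support ⊆ l.toFinset ∧ l.map m = a
    · simp only [dif_pos h] at ha
      exact ⟨_, ha, h.choose_spec.2⟩
    · simp [dif_neg h] at ha

theorem Dn_supp {T : Finset (σ →₀ ℕ)} {l : List σ} (hs : ∀ τ ∈ T, τ.support ⊆ l.toFinset)
    {m : σ →₀ ℕ} (hm : Dn T m) : m.support ⊆ l.toFinset := by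
  obtain ⟨τ, hτ, h⟩ := hm
  exact (support_mono h).trans (hs τ hτ)

theorem supp_add {l : List σ} {m : σ →₀ ℕ} {j : σ} :
    (m + single j 1).support ⊆ l.toFinset ↔ m.support ⊆ l.toFinset ∧ j ∈ l := by
  rw [Finsupp.support_add_eq_union, support_single _ one_ne_zero, Finset.union_subset_iff,
    Finset.singleton_subset_iff, List.mem_toFinset]

theorem NI_iff {T : Finset (σ →₀ ℕ)} {l : List σ} (hl : l.Nodup)
    (hs : ∀ τ ∈ T, τ.support ⊆ l.toFinset) {Tl : List (List ℕ)}
    (hT : ∀ b, b ∈ Tl ↔ ∃ τ ∈ T, l.map τ = b) (i : ℕ) :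
    NI (Dn T) (fun _ => (1 : K)) i ↔ LNI K Tl i := by
  have key : ∀ (c : (σ →₀ ℕ) → K) (ψ : List ℕ → K),
      (∀ m : σ →₀ ℕ, m.support ⊆ l.toFinset → ψ (l.map m) = c m) → ∀ m, Dn T m →
      ((downs (l.map m)).map ψ).sum =
        ∑ j, (if m j ≠ 0 then (1 : K) * c (m - single j 1) else 0) := by
    intro c ψ h m hm
    rw [downs_map m l ψ hl, sum_univ_eq hl]
    · congr 1
      refine List.map_congr_left fun j _ => ?_
      rw [h _ (Dn_supp hs (Dn_down T _ _ tsub_le_self hm)), one_mul]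
    · intro j hj
      rw [if_neg]
      exact fun h1 => hj (List.mem_toFinset.1 (Dn_supp hs hm (mem_support_iff.2 h1)))
  constructor
  · rintro ⟨c, ⟨u, hu⟩, h1, h2⟩
    obtain ⟨ψ, h3, h4⟩ := exists_psi (l := l) c
    refine ⟨ψ, ⟨l.map u, by rwa [h3 u (Dn_supp hs (h1 u hu).1)]⟩, fun a ha => ?_, fun a ha => ?_⟩
    · obtain ⟨m, h5, rfl⟩ := h4 a ha
      exact (lev_map hl hs hT _ _).2 ⟨m, h1 m h5, rfl⟩
    · obtain ⟨m, h5, rfl⟩ := (lev_map hl hs hT _ _).1 ha
      rw [key c ψ h3 m h5.1]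
      exact h2 m h5.1
  · rintro ⟨ψ, ⟨a, ha⟩, h1, h2⟩
    have h3 : ∀ m : σ →₀ ℕ, (if m.support ⊆ l.toFinset then ψ (l.map m) else 0) ≠ 0 →
        Dn T m ∧ m.degree = i := by
      intro m hm
      by_cases h : m.support ⊆ l.toFinset
      · rw [if_pos h] at hm
        obtain ⟨m', h4, h5⟩ := (lev_map hl hs hT _ _).1 (h1 _ hm)
        rwa [← map_inj (Dn_supp hs h4.1) h h5]
      · simp [h] at hm
    refine ⟨fun m => if m.support ⊆ l.toFinset then ψ (l.map m) else 0, ?_, h3, fun m hm => ?_⟩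
    · obtain ⟨m, h4, rfl⟩ := (lev_map hl hs hT _ _).1 (h1 a ha)
      exact ⟨m, by simpa only [if_pos (Dn_supp hs h4.1)] using ha⟩
    · by_cases hd : m.degree = i + 1
      · refine Eq.trans (key (fun m => if m.support ⊆ l.toFinset then ψ (l.map m) else 0) ψ
          (fun m hm => by simp only [if_pos hm]) m hm).symm ?_
        exact h2 _ ((lev_map hl hs hT _ _).2 ⟨m, ⟨hm, hd⟩, rfl⟩)
      · refine Finset.sum_eq_zero fun j _ => ?_
        by_cases hj : m j = 0
        · simp [hj]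
        rw [if_pos hj, one_mul]
        by_contra h4
        have h5 := (h3 _ h4).2
        have e1 : m - single j 1 + single j 1 = m := by
          apply tsub_add_cancel_of_le
          rw [single_le_iff]; omega
        apply hd
        rw [← e1, map_add, degree_single, h5]

theorem NS_iff {T : Finset (σ →₀ ℕ)} {l : List σ} (hl : l.Nodup)
    (hs : ∀ τ ∈ T, τ.support ⊆ l.toFinset) {Tl : List (List ℕ)}
    (hT : ∀ b, b ∈ Tl ↔ ∃ τ ∈ T, l.map τ = b) (i : ℕ) :
    NS (Dn T) (fun _ => (1 : K)) i ↔ LNS K Tl i := by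
  have key : ∀ (c : (σ →₀ ℕ) → K) (ψ : List ℕ → K),
      (∀ m : σ →₀ ℕ, m.support ⊆ l.toFinset → ψ (l.map m) = c m) → (∀ m, c m ≠ 0 → Dn T m) →
      ∀ m, Dn T m → ((ups (l.map m)).map ψ).sum = ∑ j, (1 : K) * c (m + single j 1) := by
    intro c ψ h hc m hm
    rw [ups_map m l hl, sum_univ_eq hl, List.map_map]
    · congr 1
      refine List.map_congr_left fun j hj => ?_
      rw [Function.comp_apply, h _ (supp_add.2 ⟨Dn_supp hs hm, hj⟩), one_mul]
    · intro j hj
      rw [one_mul]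
      by_contra h1
      exact hj (supp_add.1 (Dn_supp hs (hc _ h1))).2
  constructor
  · rintro ⟨c, ⟨u, hu⟩, h1, h2⟩
    obtain ⟨ψ, h3, h4⟩ := exists_psi (l := l) c
    refine ⟨ψ, ⟨l.map u, by rwa [h3 u (Dn_supp hs (h1 u hu).1)]⟩, fun a ha => ?_, fun a ha => ?_⟩
    · obtain ⟨m, h5, rfl⟩ := h4 a ha
      exact (lev_map hl hs hT _ _).2 ⟨m, h1 m h5, rfl⟩
    · obtain ⟨m, h5, rfl⟩ := (lev_map hl hs hT _ _).1 ha
      rw [key c ψ h3 (fun m hm => (h1 m hm).1) m h5.1]
      exact h2 m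
  · rintro ⟨ψ, ⟨a, ha⟩, h1, h2⟩
    have h3 : ∀ m : σ →₀ ℕ, (if m.support ⊆ l.toFinset then ψ (l.map m) else 0) ≠ 0 →
        Dn T m ∧ m.degree = i + 1 := by
      intro m hm
      by_cases h : m.support ⊆ l.toFinset
      · rw [if_pos h] at hm
        obtain ⟨m', h4, h5⟩ := (lev_map hl hs hT _ _).1 (h1 _ hm)
        rwa [← map_inj (Dn_supp hs h4.1) h h5]
      · simp [h] at hm
    refine ⟨fun m => if m.support ⊆ l.toFinset then ψ (l.map m) else 0, ?_, h3, fun m => ?_⟩
    · obtain ⟨m, h4, rfl⟩ := (lev_map hl hs hT _ _).1 (h1 a ha)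
      exact ⟨m, by simpa only [if_pos (Dn_supp hs h4.1)] using ha⟩
    · by_cases hd : Dn T m ∧ m.degree = i
      · rw [← key _ ψ (fun m hm => by simp only [if_pos hm]) (fun m hm => (h3 m hm).1) m hd.1]
        exact h2 _ ((lev_map hl hs hT _ _).2 ⟨m, hd, rfl⟩)
      · refine Finset.sum_eq_zero fun j _ => ?_
        rw [one_mul]
        by_contra h4
        obtain ⟨h5, h6⟩ := h3 _ h4
        rw [map_add, degree_single] at h6
        exact hd ⟨Dn_down T _ _ le_self_add h5, by omega⟩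

theorem not_bad_of_good [CharZero K] {T : Finset (σ →₀ ℕ)} {l : List σ} (hl : l.Nodup)
    (hs : ∀ τ ∈ T, τ.support ⊆ l.toFinset) {Tl : List (List ℕ)}
    (hT : ∀ b, b ∈ Tl ↔ ∃ τ ∈ T, l.map τ = b) {e : ℕ} (he : ∀ τ ∈ T, τ.degree = e)
    (h : good Tl e = true) : ¬ Bad K T := by
  rintro ⟨i, h1, h2⟩
  have hie : i < e := by
    obtain ⟨φ, ⟨m, hm⟩, h3, -⟩ := h2
    obtain ⟨⟨τ, hτ, h4⟩, h5⟩ := h3 m hm
    have := degree_mono h4
    rw [he τ hτ] at this
    omega
  exact good_sound Tl e h i hie ⟨(NI_iff hl hs hT i).1 h1, (NS_iff hl hs hT i).1 h2⟩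

end Pool.Agent.H79.LV
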