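import Mathlib
import Pool.Agent.H79.LV5

set_option autoImplicit false
set_option linter.unusedSectionVars false

namespace Pool.Agent.H79.LV

open Finsupp

variable {K : Type} [Field K]

theorem box_spec : ∀ c rem : List ℕ, c.length = rem.length →
    (∀ k, c.getD k 0 ≤ rem.getD k 0) →
    c ∈ box rem ∧ (List.zipWith (· - ·) rem c).sum + c.sum = rem.sum ∧ code c ≤ code rem ∧
      ∀ k, (List.zipWith (· - ·) rem c).getD k 0 = rem.getD k 0 - c.getD k 0
  | [], [], _, _ => by simp [box]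
  | [], _ :: _, h, _ => by simp at h
  | _ :: _, [], h, _ => by simp at h
  | x :: c, y :: rem, h, h1 => by
    obtain ⟨h2, h3, h4, h5⟩ := box_spec c rem (by simpa using h) (fun k => by simpa using h1 (k + 1))
    have h6 : x ≤ y := by simpa using h1 0
    refine ⟨?_, ?_, ?_, fun k => ?_⟩
    · simp only [box, List.mem_flatMap, List.mem_range, List.mem_map]
      exact ⟨x, by omega, c, h2, rfl⟩
    · simp only [List.zipWith_cons_cons, List.sum_cons]; omega
    · simp only [code]; omega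
    · rcases k with _ | k
      · simp
      · simpa using h5 k

theorem sum_zero_of_getD : ∀ rem : List ℕ, (∀ k, 0 = rem.getD k 0) → rem.sum = 0
  | [], _ => rfl
  | x :: rem, h => by
    have h1 := sum_zero_of_getD rem (fun k => by simpa using h (k + 1))
    have h2 : 0 = x := by simpa using h 0
    simp [h1, ← h2]

theorem mem_gen : ∀ (cs : List (List ℕ)) (f : ℕ) (rem : List ℕ) (b : ℕ), rem.sum ≤ f →
    (∀ c ∈ cs, c.length = rem.length ∧ 1 ≤ c.sum ∧ code c ≤ b) →
    cs.Pairwise (fun c c' => code c' ≤ code c) →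
    (∀ k, (cs.map (·.getD k 0)).sum = rem.getD k 0) → cs ∈ gen f rem b
  | [], f, rem, b, _, _, _, h => by
    have := sum_zero_of_getD rem (by simpa using h)
    rcases f with _ | f <;> simp [gen, this]
  | c :: cs, f, rem, b, h0, h1, h2, h3 => by
    obtain ⟨h4, h5, h6⟩ := h1 c List.mem_cons_self
    simp only [List.map_cons, List.sum_cons] at h3
    obtain ⟨e1, e2, -, e4⟩ := box_spec c rem h4 (fun k => by have := h3 k; omega)
    obtain ⟨f, rfl⟩ : ∃ g, f = g + 1 := ⟨f - 1, by omega⟩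
    have h7 : Nat.beq rem.sum 0 = false := by
      rw [← Bool.not_eq_true, Nat.beq_eq]; omega
    have h8 : (Nat.ble 1 c.sum && Nat.ble (code c) b) = true := by
      simp [h5, h6]
    rw [List.pairwise_cons] at h2
    simp only [gen, h7, cond_false, List.mem_flatMap]
    refine ⟨c, e1, ?_⟩
    simp only [h8, cond_true, List.mem_map]
    refine ⟨cs, mem_gen cs f _ _ (by omega) (fun c' hc' => ?_) h2.2 (fun k => ?_), rfl⟩
    · obtain ⟨a1, a2, -⟩ := h1 c' (List.mem_cons_of_mem _ hc')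
      exact ⟨by simp [a1, h4], a2, h2.1 c' hc'⟩
    · have := h3 k
      rw [e4]; omega

variable {σ : Type} [Fintype σ] [DecidableEq σ]

theorem not_bad_of_allGood [CharZero K] {T : Finset (σ →₀ ℕ)} {e : ℕ}
    (he : ∀ τ ∈ T, τ.degree = e) (h : allGood T.card e = true) : ¬ Bad K T := by
  classical
  let col : σ → List ℕ := fun j => T.toList.map (· j)
  let r : σ → σ → Prop := fun j j' => code (col j') ≤ code (col j)
  have : Std.Total r := ⟨fun a b => le_total _ _⟩
  have : IsTrans σ r := ⟨fun a b c h1 h2 => le_trans h2 h1⟩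
  let l : List σ := (T.biUnion support).toList.insertionSort r
  have hperm : l.Perm (T.biUnion support).toList := List.perm_insertionSort _ _
  have hl : l.Nodup := hperm.nodup_iff.2 (Finset.nodup_toList _)
  have hmem : ∀ j, j ∈ l ↔ ∃ τ ∈ T, τ j ≠ 0 := by
    intro j
    simp [hperm.mem_iff]
  have hs : ∀ τ ∈ T, τ.support ⊆ l.toFinset := fun τ hτ j hj =>
    List.mem_toFinset.2 ((hmem j).2 ⟨τ, hτ, mem_support_iff.1 hj⟩)
  have hrow : ∀ k (hk : k < T.toList.length),
      (l.map col).map (·.getD k 0) = l.map (T.toList[k]) := by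
    intro k hk
    rw [List.map_map]
    refine List.map_congr_left fun j _ => ?_
    simp [col, List.getElem?_eq_getElem hk]
  have hcol : ∀ j k, (col j).getD k 0 ≤ (List.replicate T.card e).getD k 0 := by
    intro j k
    by_cases hk : k < T.toList.length
    · have h1 : k < T.card := by simpa using hk
      have h2 := he _ (Finset.mem_toList.1 (List.getElem_mem hk))
      have h3 := le_degree j (T.toList[k])
      simp [col, h1]
      omega
    · simp [col, List.getElem?_eq_none (not_lt.1 hk)]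
  have hgen : l.map col ∈ gen (T.card * e) (List.replicate T.card e)
      (code (List.replicate T.card e)) := by
    refine mem_gen _ _ _ _ (by simp) ?_ ?_ ?_
    · intro c hc
      obtain ⟨j, hj, rfl⟩ := List.mem_map.1 hc
      refine ⟨by simp [col], ?_, (box_spec _ _ (by simp [col]) (hcol j)).2.2.1⟩
      obtain ⟨τ, hτ, h1⟩ := (hmem j).1 hj
      have : τ j ≤ (col j).sum :=
        List.le_sum_of_mem (List.mem_map.2 ⟨τ, Finset.mem_toList.2 hτ, rfl⟩)
      omega
    · rw [List.pairwise_map]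
      exact List.pairwise_insertionSort r _
    · intro k
      by_cases hk : k < T.toList.length
      · have h1 : k < T.card := by simpa using hk
        have h2 := Finset.mem_toList.1 (List.getElem_mem hk)
        rw [hrow k hk, sum_map_eq hl (hs _ h2), he _ h2]
        simp [h1]
      · have h1 : ¬ k < T.card := by simpa using hk
        rw [List.map_map, List.sum_eq_zero]
        · simp [h1]
        · intro x hx
          obtain ⟨j, _, rfl⟩ := List.mem_map.1 hx
          simp [col, List.getElem?_eq_none (not_lt.1 hk)]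
  refine not_bad_of_good hl hs (fun b => ?_) he (List.all_eq_true.1 h _ hgen)
  simp only [rowsOf, List.mem_map, List.mem_range]
  constructor
  · rintro ⟨k, hk, rfl⟩
    have hk' : k < T.toList.length := by simpa using hk
    exact ⟨_, Finset.mem_toList.1 (List.getElem_mem hk'), (hrow k hk').symm⟩
  · rintro ⟨τ, hτ, rfl⟩
    obtain ⟨k, hk, rfl⟩ := List.mem_iff_getElem.1 (Finset.mem_toList.2 hτ)
    exact ⟨k, by simpa using hk, hrow k hk⟩

/-- sublists of given length -/
def subs : ℕ → List (List ℕ) → List (List (List ℕ))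
  | 0, _ => [[]]
  | _ + 1, [] => []
  | k + 1, a :: l => (subs k l).map (a :: ·) ++ subs (k + 1) l

theorem mem_subs {s l : List (List ℕ)} (h : s.Sublist l) : s ∈ subs s.length l := by
  induction h with
  | slnil => simp [subs]
  | @cons s l a _ ih =>
    rcases s with _ | ⟨b, s⟩
    · simp [subs]
    · exact List.mem_append_right _ ih
  | @cons_cons s l a _ ih =>
    exact List.mem_append_left _ (List.mem_map.2 ⟨s, ih, rfl⟩)

theorem not_bad_three [CharZero K] {T : Finset (Fin 3 →₀ ℕ)} {e : ℕ}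
    (he : ∀ τ ∈ T, τ.degree = e)
    (h : (subs T.card (lev [[e, e, e]] e)).all (good · e) = true) : ¬ Bad K T := by
  classical
  let l : List (Fin 3) := [0, 1, 2]
  have hl : l.Nodup := by decide
  have hs' : ∀ τ : Fin 3 →₀ ℕ, τ.support ⊆ l.toFinset := fun τ j _ => by
    fin_cases j <;> simp [l]
  let Tl := (lev [[e, e, e]] e).filter (fun b => ∃ τ ∈ T, l.map τ = b)
  have hT : ∀ b, b ∈ Tl ↔ ∃ τ ∈ T, l.map τ = b := by
    intro b
    simp only [Tl, List.mem_filter, decide_eq_true_eq, and_iff_right_iff_imp]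
    rintro ⟨τ, hτ, rfl⟩
    rw [mem_lev, sum_map_eq hl (hs' τ)]
    refine ⟨⟨_, List.mem_singleton.2 rfl, ?_⟩, he τ hτ⟩
    have := fun j => (le_degree j τ).trans (he τ hτ).le
    simp [l, this]
  have hlen : Tl.length = T.card := by
    have h1 : Tl.Nodup := (dd_spec _).1.filter _
    have h2 : Tl.toFinset = T.image (fun τ : Fin 3 →₀ ℕ => l.map τ) := by
      ext b
      rw [List.mem_toFinset, hT, Finset.mem_image]
    rw [← List.toFinset_card_of_nodup h1, h2, Finset.card_image_of_injective]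
    exact fun a b hab => map_inj (hs' a) (hs' b) hab
  have h1 := mem_subs (List.filter_sublist (l := lev [[e, e, e]] e)
    (p := fun b => ∃ τ ∈ T, l.map τ = b))
  change Tl ∈ subs Tl.length _ at h1
  rw [hlen] at h1
  exact not_bad_of_good hl (fun τ _ => hs' τ) hT he (List.all_eq_true.1 h _ h1)

/-- value of a finitely supported integer function -/
def lk : List (List ℕ × ℤ) → List ℕ → ℤ
  | [], _ => 0
  | w :: W, a => if a = w.1 then w.2 else lk W a

theorem lk_mem : ∀ (W : List (List ℕ × ℤ)) (a : List ℕ), lk W a ≠ 0 → a ∈ W.map Prod.fst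
  | [], _, h => by simp [lk] at h
  | w :: W, a, h => by
    by_cases h1 : a = w.1
    · simp [h1]
    · rw [lk, if_neg h1] at h
      exact List.mem_cons_of_mem _ (lk_mem W a h)

theorem exists_of_lk [CharZero K] (W : List (List ℕ × ℤ)) (U V : List (List ℕ))
    (f : List ℕ → List (List ℕ)) (h : (∃ a ∈ U, lk W a ≠ 0) ∧ (∀ a ∈ W.map Prod.fst, a ∈ U) ∧
      ∀ m ∈ V, ((f m).map (lk W)).sum = 0) :
    ∃ ψ : List ℕ → K, (∃ a, ψ a ≠ 0) ∧ (∀ a, ψ a ≠ 0 → a ∈ U) ∧
      ∀ m ∈ V, ((f m).map ψ).sum = 0 := by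
  obtain ⟨⟨a, -, ha⟩, h1, h2⟩ := h
  refine ⟨fun a => (lk W a : K), ⟨a, Int.cast_ne_zero.2 ha⟩, fun a ha => ?_, fun m hm => ?_⟩
  · exact h1 a (lk_mem W a (Int.cast_ne_zero.1 ha))
  · have := congrArg (Int.cast : ℤ → K) (h2 m hm)
    rw [Int.cast_list_sum, List.map_map, Int.cast_zero] at this
    exact this

theorem bad_of_lists {n N : ℕ} (hN : N ≤ n) (Tl : List (List ℕ)) (e i : ℕ) (h0 : Tl.Nodup)
    (h1 : ∀ b ∈ Tl, b.length = N ∧ b.sum = e) (h2 : LNI K Tl i) (h3 : LNS K Tl i) :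
    ∃ T : Finset (Fin n →₀ ℕ), T.card = Tl.length ∧ (∀ τ ∈ T, τ.degree = e) ∧ Bad K T := by
  classical
  let l : List (Fin n) := (List.finRange N).map (Fin.castLE hN)
  have hl : l.Nodup := (List.nodup_finRange N).map (Fin.castLE_injective hN)
  have hex : ∀ b : List ℕ, ∃ m : Fin n →₀ ℕ, b.length = N →
      m.support ⊆ l.toFinset ∧ l.map m = b := by
    intro b
    by_cases hb : b.length = N
    · obtain ⟨m, hm⟩ := exists_map_eq l b hl (by simp [l, hb])
      exact ⟨m, fun _ => hm⟩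
    · exact ⟨0, fun h => absurd h hb⟩
  choose F hF using hex
  have hs : ∀ τ ∈ Tl.toFinset.image F, τ.support ⊆ l.toFinset := by
    intro τ hτ
    obtain ⟨b, hb, rfl⟩ := Finset.mem_image.1 hτ
    exact (hF b (h1 b (List.mem_toFinset.1 hb)).1).1
  have hT : ∀ b, b ∈ Tl ↔ ∃ τ ∈ Tl.toFinset.image F, l.map τ = b := by
    intro b
    constructor
    · intro hb
      exact ⟨F b, Finset.mem_image_of_mem _ (List.mem_toFinset.2 hb), (hF b (h1 b hb).1).2⟩
    · rintro ⟨τ, hτ, rfl⟩
      obtain ⟨b, hb, rfl⟩ := Finset.mem_image.1 hτ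
      rw [(hF b (h1 b (List.mem_toFinset.1 hb)).1).2]
      exact List.mem_toFinset.1 hb
  refine ⟨Tl.toFinset.image F, ?_, ?_, i, (NI_iff hl hs hT i).2 h2, (NS_iff hl hs hT i).2 h3⟩
  · rw [Finset.card_image_of_injOn, List.toFinset_card_of_nodup h0]
    intro a ha b hb hab
    rw [← (hF a (h1 a (List.mem_toFinset.1 ha)).1).2, hab,
      (hF b (h1 b (List.mem_toFinset.1 hb)).1).2]
  · intro τ hτ
    rw [← sum_map_eq hl (hs τ hτ)]
    exact (h1 _ ((hT _).2 ⟨τ, hτ, rfl⟩)).2

theorem ex_two [CharZero K] {n : ℕ} (hn : 4 ≤ n) :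
    ∃ T : Finset (Fin n →₀ ℕ), T.card = 2 ∧ (∀ τ ∈ T, τ.degree = 6) ∧ Bad K T :=
  bad_of_lists hn [[2, 2, 1, 1], [1, 1, 2, 2]] 6 3 (by decide) (by decide)
    (exists_of_lk [([0, 0, 1, 2], 1), ([0, 0, 2, 1], -1), ([0, 1, 0, 2], -1), ([0, 1, 2, 0], 1),
      ([0, 2, 0, 1], -2), ([0, 2, 1, 0], 2), ([1, 0, 0, 2], -1), ([1, 0, 2, 0], 1),
      ([1, 1, 0, 1], 2), ([1, 1, 1, 0], -2), ([2, 0, 0, 1], -2), ([2, 0, 1, 0], 2)]
      _ _ downs (by decide +kernel))
    (exists_of_lk [([0, 0, 2, 2], 2), ([0, 1, 1, 2], -1), ([0, 1, 2, 1], -1), ([0, 2, 1, 1], 1),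
      ([1, 0, 1, 2], -1), ([1, 0, 2, 1], -1), ([1, 1, 0, 2], 1), ([1, 1, 1, 1], 1),
      ([1, 1, 2, 0], 1), ([1, 2, 0, 1], -1), ([1, 2, 1, 0], -1), ([2, 0, 1, 1], 1),
      ([2, 1, 0, 1], -1), ([2, 1, 1, 0], -1), ([2, 2, 0, 0], 2)]
      _ _ ups (by decide +kernel))

theorem ex_three [CharZero K] {n : ℕ} (hn : 3 ≤ n) :
    ∃ T : Finset (Fin n →₀ ℕ), T.card = 3 ∧ (∀ τ ∈ T, τ.degree = 4) ∧ Bad K T :=
  bad_of_lists hn [[2, 2, 0], [2, 0, 2], [0, 2, 2]] 4 2 (by decide) (by decide)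
    (exists_of_lk [([0, 0, 2], 1), ([0, 1, 1], -1), ([0, 2, 0], 1), ([1, 0, 1], -1),
      ([1, 1, 0], -1), ([2, 0, 0], 1)] _ _ downs (by decide +kernel))
    (exists_of_lk [([0, 1, 2], -1), ([0, 2, 1], 1), ([1, 0, 2], 1), ([1, 2, 0], -1),
      ([2, 0, 1], -1), ([2, 1, 0], 1)] _ _ ups (by decide +kernel))

theorem ex_four [CharZero K] :
    ∃ T : Finset (Fin 3 →₀ ℕ), T.card = 4 ∧ (∀ τ ∈ T, τ.degree = 5) ∧ Bad K T :=
  bad_of_lists le_rfl [[5, 0, 0], [3, 2, 0], [2, 2, 1], [1, 4, 0]] 5 3 (by decide) (by decide)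
    (exists_of_lk [([0, 2, 1], 1), ([1, 1, 1], -1), ([2, 0, 1], 1)] _ _ downs
      (by decide +kernel))
    (exists_of_lk [([0, 4, 0], 1), ([1, 3, 0], -1), ([2, 2, 0], 1), ([3, 1, 0], -1),
      ([4, 0, 0], 1)] _ _ ups (by decide +kernel))

end Pool.Agent.H79.LV
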