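import Mathlib
import Pool.Agent.H79.LV6

set_option autoImplicit false

namespace Pool.Agent.H79.LV

theorem all_of_chunks {α : Type} (L : List α) (p : α → Bool) (s k : ℕ) (hs : 0 < s)
    (hL : L.length ≤ s * k) (h : ∀ i < k, ((L.drop (s * i)).take s).all p = true) :
    L.all p = true := by
  rw [List.all_eq_true]
  intro x hx
  obtain ⟨j, hj, rfl⟩ := List.mem_iff_getElem.1 hx
  have h1 : j / s < k := Nat.div_lt_of_lt_mul (by omega)
  have h2 := Nat.div_add_mod j s
  have h3 := Nat.mod_lt j hs
  refine List.all_eq_true.1 (h _ h1) _ (List.mem_iff_getElem.2 ⟨j % s, ?_, ?_⟩)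
  · simp only [List.length_take, List.length_drop]; omega
  · simp only [List.getElem_take, List.getElem_drop, h2]

/-- one chunk of `allGood` -/
def chA (t e s i : ℕ) : Bool :=
  (((gen (t * e) (List.replicate t e) (code (List.replicate t e))).drop (s * i)).take s).all
    fun cs => good (rowsOf t cs) e

/-- one chunk of the check in three variables -/
def chB (e s i : ℕ) : Bool :=
  (((subs 4 (lev [[e, e, e]] e)).drop (s * i)).take s).all (good · e)

end Pool.Agent.H79.LV
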