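import Mathlib
import Pool.Agent.H79.LVc0

set_option autoImplicit false

namespace Pool.Agent.H79.LV

theorem c25_0 : chA 2 5 20 0 = true := by decide +kernel
theorem c25_1 : chA 2 5 20 1 = true := by decide +kernel
theorem c25_2 : chA 2 5 20 2 = true := by decide +kernel
theorem c25_3 : chA 2 5 20 3 = true := by decide +kernel
theorem c25_4 : chA 2 5 20 4 = true := by decide +kernel
theorem c25_5 : chA 2 5 20 5 = true := by decide +kernel
theorem c25_6 : chA 2 5 20 6 = true := by decide +kernel
theorem c25_7 : chA 2 5 20 7 = true := by decide +kernel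
theorem c25_8 : chA 2 5 20 8 = true := by decide +kernel
theorem c25_9 : chA 2 5 20 9 = true := by decide +kernel
theorem c25_10 : chA 2 5 20 10 = true := by decide +kernel
theorem c25_11 : chA 2 5 20 11 = true := by decide +kernel
theorem c25_12 : chA 2 5 20 12 = true := by decide +kernel
theorem c25_13 : chA 2 5 20 13 = true := by decide +kernel
theorem c25_14 : chA 2 5 20 14 = true := by decide +kernel
theorem c25_15 : chA 2 5 20 15 = true := by decide +kernel
theorem c25_16 : chA 2 5 20 16 = true := by decide +kernel
theorem c25 : allGood 2 5 = true := by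
  refine all_of_chunks _ _ 20 17 (by decide) (by decide +kernel) fun i hi => ?_
  interval_cases i
  exacts [c25_0, c25_1, c25_2, c25_3, c25_4, c25_5, c25_6, c25_7, c25_8, c25_9, c25_10, c25_11, c25_12, c25_13, c25_14, c25_15, c25_16]

end Pool.Agent.H79.LV
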