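import Mathlib
import Pool.Agent.H79.LVc1

set_option autoImplicit false

namespace Pool.Agent.H79.LV

theorem c20 : allGood 2 0 = true := by decide +kernel
theorem c21 : allGood 2 1 = true := by decide +kernel
theorem c22 : allGood 2 2 = true := by decide +kernel
theorem c23 : allGood 2 3 = true := by decide +kernel
theorem c30 : allGood 3 0 = true := by decide +kernel
theorem c31 : allGood 3 1 = true := by decide +kernel
theorem c32 : allGood 3 2 = true := by decide +kernel
theorem c24_0 : chA 2 4 40 0 = true := by decide +kernel
theorem c24_1 : chA 2 4 40 1 = true := by decide +kernel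
theorem c24_2 : chA 2 4 40 2 = true := by decide +kernel
theorem c24 : allGood 2 4 = true := by
  refine all_of_chunks _ _ 40 3 (by decide) (by decide +kernel) fun i hi => ?_
  interval_cases i
  exacts [c24_0, c24_1, c24_2]
theorem c33_0 : chA 3 3 70 0 = true := by decide +kernel
theorem c33_1 : chA 3 3 70 1 = true := by decide +kernel
theorem c33_2 : chA 3 3 70 2 = true := by decide +kernel
theorem c33_3 : chA 3 3 70 3 = true := by decide +kernel
theorem c33_4 : chA 3 3 70 4 = true := by decide +kernel
theorem c33_5 : chA 3 3 70 5 = true := by decide +kernel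
theorem c33_6 : chA 3 3 70 6 = true := by decide +kernel
theorem c33_7 : chA 3 3 70 7 = true := by decide +kernel
theorem c33_8 : chA 3 3 70 8 = true := by decide +kernel
theorem c33_9 : chA 3 3 70 9 = true := by decide +kernel
theorem c33 : allGood 3 3 = true := by
  refine all_of_chunks _ _ 70 10 (by decide) (by decide +kernel) fun i hi => ?_
  interval_cases i
  exacts [c33_0, c33_1, c33_2, c33_3, c33_4, c33_5, c33_6, c33_7, c33_8, c33_9]

end Pool.Agent.H79.LV
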