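import Mathlib
import Pool.Agent.H79.LVc2

set_option autoImplicit false

namespace Pool.Agent.H79.LV

theorem c43 : (subs 4 (lev [[3, 3, 3]] 3)).all (good · 3) = true := by decide +kernel
theorem c44_0 : chB 4 200 0 = true := by decide +kernel
theorem c44_1 : chB 4 200 1 = true := by decide +kernel
theorem c44_2 : chB 4 200 2 = true := by decide +kernel
theorem c44_3 : chB 4 200 3 = true := by decide +kernel
theorem c44_4 : chB 4 200 4 = true := by decide +kernel
theorem c44_5 : chB 4 200 5 = true := by decide +kernel
theorem c44_6 : chB 4 200 6 = true := by decide +kernel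
theorem c44 : (subs 4 (lev [[4, 4, 4]] 4)).all (good · 4) = true := by
  refine all_of_chunks _ _ 200 7 (by decide) (by decide +kernel) fun i hi => ?_
  interval_cases i
  exacts [c44_0, c44_1, c44_2, c44_3, c44_4, c44_5, c44_6]

end Pool.Agent.H79.LV
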