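import Mathlib

set_option autoImplicit false

namespace Pool.Agent.H79.Lovasz

open Module

variable {K : Type} [Field K]

theorem finrank_map_add {X Y : Type} [AddCommGroup X] [Module K X] [FiniteDimensional K X]
    [AddCommGroup Y] [Module K Y] (q : X →ₗ[K] Y) (S : Submodule K X) :
    finrank K (S.map q) + finrank K (S ⊓ LinearMap.ker q : Submodule K X) = finrank K S := by
  have h := LinearMap.finrank_range_add_finrank_ker (q.domRestrict S)
  rw [LinearMap.range_domRestrict, LinearMap.ker_domRestrict,
    ← Submodule.finrank_map_subtype_eq, Submodule.map_comap_subtype] at h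
  exact h

theorem finrank_map_mkQ {X : Type} [AddCommGroup X] [Module K X] [FiniteDimensional K X]
    (a : X) (ha : a ≠ 0) (S : Submodule K X) :
    (a ∈ S → finrank K (S.map (Submodule.span K {a}).mkQ) + 1 = finrank K S) ∧
    (a ∉ S → finrank K (S.map (Submodule.span K {a}).mkQ) = finrank K S) := by
  have h := finrank_map_add (Submodule.span K {a}).mkQ S
  rw [Submodule.ker_mkQ] at h
  constructor
  · intro hS
    rw [inf_eq_right.2 ((Submodule.span_singleton_le_iff_mem _ _).2 hS),
      finrank_span_singleton ha] at h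
    exact h
  · intro hS
    rw [((Submodule.disjoint_span_singleton' ha).2 hS).eq_bot, finrank_bot, add_zero] at h
    exact h

theorem merge {X : Type} [AddCommGroup X] [Module K X] [FiniteDimensional K X] {α : Type}
    (V : α → Submodule K X) (W : Submodule K X) (hW : 2 ≤ finrank K W) (Q : Finset α)
    (hQ : Q.Nonempty) (h : ∀ T ∈ Q, W ≤ V T) :
    finrank K (Q.sup V : Submodule K X) + 2 * Q.card ≤ ∑ T ∈ Q, finrank K (V T) + 2 := by
  induction hQ using Finset.Nonempty.cons_induction with
  | singleton a => rw [Finset.sup_singleton]; simp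
  | cons a s ha hs ih =>
    rw [Finset.sup_cons, Finset.card_cons, Finset.sum_cons]
    have h1 := ih fun T hT => h T (Finset.mem_cons_of_mem hT)
    have h2 := Submodule.finrank_sup_add_finrank_inf_eq (V a) (s.sup V)
    obtain ⟨b, hb⟩ := hs
    have h3 : W ≤ V a ⊓ s.sup V := le_inf (h a (Finset.mem_cons_self _ _))
      ((h b (Finset.mem_cons_of_mem hb)).trans (Finset.le_sup hb))
    have h4 := Submodule.finrank_mono h3
    omega

/-- lower bound in the Dilworth truncation theorem for hyperplane sections of subspaces -/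
theorem lovasz [Infinite K] {ι : Type} [Fintype ι] [DecidableEq ι] (N : ℕ) :
    ∀ (X : Type) [AddCommGroup X] [Module K X] [FiniteDimensional K X], finrank K X ≤ N →
    ∀ (W : ι → Submodule K X), (∀ i, W i ≠ ⊥) →
    ∃ φ : X →ₗ[K] K, (∀ i, ¬ W i ≤ LinearMap.ker φ) ∧ ∃ 𝒯 : Finset (Finset ι),
      (∀ T ∈ 𝒯, T.Nonempty) ∧ (∀ i, ∃ T ∈ 𝒯, i ∈ T) ∧
      ∑ T ∈ 𝒯, finrank K (T.sup W : Submodule K X) ≤
        finrank K (Finset.univ.sup fun i => W i ⊓ LinearMap.ker φ : Submodule K X) + 𝒯.card := by
  classical
  induction N with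
  | zero =>
    intro X _ _ _ hN W hW
    have : Subsingleton X := finrank_zero_iff.1 (Nat.le_zero.1 hN)
    have : IsEmpty ι := ⟨fun i => hW i (Subsingleton.elim _ _)⟩
    exact ⟨0, fun i => isEmptyElim i, ∅, by simp, fun i => isEmptyElim i, by simp⟩
  | succ N ih =>
    intro X _ _ _ hN W hW
    by_cases hall : ∀ i, finrank K (W i) ≤ 1
    · choose v hv hv0 using fun i => Submodule.exists_mem_ne_zero_of_ne_bot (hW i)
      obtain ⟨φ, hφ⟩ := Module.exists_dual_forall_apply_ne_zero (K := K) v hv0
      refine ⟨φ, fun i h => hφ i (h (hv i)), Finset.univ.image fun i => {i}, ?_, ?_, ?_⟩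
      · simp
      · intro i; exact ⟨{i}, by simp, by simp⟩
      · refine le_trans ?_ (Nat.le_add_left _ _)
        rw [Finset.card_eq_sum_ones]
        refine Finset.sum_le_sum fun T hT => ?_
        obtain ⟨i, -, rfl⟩ := Finset.mem_image.1 hT
        rw [Finset.sup_singleton]; exact hall i
    push Not at hall
    obtain ⟨i0, hi0⟩ := hall
    obtain ⟨⟨a, ha0⟩, ha⟩ := Submodule.exists_forall_notMem_of_forall_ne_top
      (fun T : {T : Finset ι // ¬ W i0 ≤ T.sup W} => (T.1.sup W).comap (W i0).subtype)
      (fun T h => T.2 (Submodule.comap_subtype_eq_top.1 h))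
    have hiff : ∀ T : Finset ι, a ∈ T.sup W ↔ W i0 ≤ T.sup W := fun T =>
      ⟨fun h => by_contra fun h2 => ha ⟨T, h2⟩ h, fun h => h ha0⟩
    have hane : a ≠ 0 := by
      rintro rfl
      have := (hiff ∅).1 (Submodule.zero_mem _)
      exact hW i0 (by simpa using this)
    set q := (Submodule.span K {a}).mkQ with hq
    have hdim : finrank K (X ⧸ Submodule.span K {a}) ≤ N := by
      have := Submodule.finrank_quotient_add_finrank (Submodule.span K {a})
      rw [finrank_span_singleton hane] at this
      omega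
    obtain ⟨ψ, hψ, 𝒯, hne, hcov, hsum⟩ := ih _ hdim (fun i => (W i).map q) (by
      intro i h
      have h1 : W i ≤ Submodule.span K {a} := by
        rw [← Submodule.ker_mkQ (Submodule.span K {a})]
        exact LinearMap.le_ker_iff_map.2 h
      by_cases h2 : a ∈ W i
      · have h3 := (hiff {i}).1 (by simpa using h2)
        rw [Finset.sup_singleton] at h3
        have := Submodule.finrank_mono (h3.trans h1)
        rw [finrank_span_singleton hane] at this
        omega
      · exact hW i (((Submodule.disjoint_span_singleton' hane).2 h2).eq_bot_of_le h1))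
    have hmap : ∀ T : Finset ι, (T.sup fun i => (W i).map q) = (T.sup W).map q := fun T => by
      rw [Finset.sup_eq_iSup, Finset.sup_eq_iSup]; simp only [Submodule.map_iSup]
    have hker : LinearMap.ker (ψ.comp q) = (LinearMap.ker ψ).comap q := LinearMap.ker_comp _ _
    let Q := 𝒯.filter fun T => W i0 ≤ T.sup W
    let Q' := 𝒯.filter fun T => ¬ W i0 ≤ T.sup W
    obtain ⟨T0, hT0, hiT0⟩ := hcov i0
    have hQ : Q.Nonempty := ⟨T0, Finset.mem_filter.2 ⟨hT0, Finset.le_sup hiT0⟩⟩
    refine ⟨ψ.comp q, fun i h => hψ i ?_, insert (Q.biUnion id) Q', ?_, ?_, ?_⟩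
    · rw [Submodule.map_le_iff_le_comap, ← hker]; exact h
    · intro T hT
      rcases Finset.mem_insert.1 hT with rfl | hT
      · exact ⟨i0, Finset.mem_biUnion.2 ⟨T0, Finset.mem_filter.2 ⟨hT0, Finset.le_sup hiT0⟩, hiT0⟩⟩
      · exact hne T (Finset.mem_filter.1 hT).1
    · intro i
      obtain ⟨T, hT, hi⟩ := hcov i
      by_cases h : W i0 ≤ T.sup W
      · exact ⟨_, Finset.mem_insert_self _ _,
          Finset.mem_biUnion.2 ⟨T, Finset.mem_filter.2 ⟨hT, h⟩, hi⟩⟩
      · exact ⟨T, Finset.mem_insert_of_mem (Finset.mem_filter.2 ⟨hT, h⟩), hi⟩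
    · have hnot : Q.biUnion id ∉ Q' := by
        intro h
        apply (Finset.mem_filter.1 h).2
        exact Finset.le_sup (f := W) (Finset.mem_biUnion.2
          ⟨T0, Finset.mem_filter.2 ⟨hT0, Finset.le_sup hiT0⟩, hiT0⟩)
      rw [Finset.sum_insert hnot, Finset.card_insert_of_notMem hnot, Finset.sup_biUnion]
      have h1 := merge (fun T : Finset ι => T.sup W) (W i0) hi0 Q hQ
        fun T hT => (Finset.mem_filter.1 hT).2
      have h2 : (Finset.univ.sup fun i => (W i).map q ⊓ LinearMap.ker ψ) =
          (Finset.univ.sup fun i => W i ⊓ LinearMap.ker (ψ.comp q)).map q := by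
        rw [Finset.sup_eq_iSup, Finset.sup_eq_iSup]
        simp only [Submodule.map_iSup, hker, ← Submodule.map_inf_eq_map_inf_comap]
      have h3 := (finrank_map_mkQ a hane
        (Finset.univ.sup fun i => W i ⊓ LinearMap.ker (ψ.comp q))).1
        (Finset.le_sup (f := fun i => W i ⊓ LinearMap.ker (ψ.comp q)) (Finset.mem_univ i0)
          ⟨ha0, by
            have : q a = 0 := (Submodule.Quotient.mk_eq_zero _).2
              (Submodule.mem_span_singleton_self a)
            simp [this]⟩)
      rw [h2, ← Finset.sum_filter_add_sum_filter_not 𝒯 (fun T => W i0 ≤ T.sup W)] at hsum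
      have h4 : ∑ T ∈ Q, finrank K (T.sup fun i => (W i).map q :
          Submodule K (X ⧸ Submodule.span K {a})) + Q.card =
          ∑ T ∈ Q, finrank K (T.sup W : Submodule K X) := by
        rw [Finset.card_eq_sum_ones, ← Finset.sum_add_distrib]
        refine Finset.sum_congr rfl fun T hT => ?_
        rw [hmap]
        exact (finrank_map_mkQ a hane _).1 ((hiff T).2 (Finset.mem_filter.1 hT).2)
      have h5 : ∑ T ∈ Q', finrank K (T.sup fun i => (W i).map q :
          Submodule K (X ⧸ Submodule.span K {a})) =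
          ∑ T ∈ Q', finrank K (T.sup W : Submodule K X) := by
        refine Finset.sum_congr rfl fun T hT => ?_
        rw [hmap]
        exact (finrank_map_mkQ a hane _).2 fun h => (Finset.mem_filter.1 hT).2 ((hiff T).1 h)
      have h6 : Q.card + Q'.card = 𝒯.card := Finset.card_filter_add_card_filter_not _
      change ∑ T ∈ Q, _ + ∑ T ∈ Q', _ ≤ _ at hsum
      simp only [id] at *
      rw [← hq] at h3
      omega

end Pool.Agent.H79.Lovasz
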