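import Mathlib

set_option autoImplicit false

namespace Pool.Agent.H79.MH
open MvPolynomial

universe u

/-- `M` is a locally free `T`-module of rank `r`: finitely generated, projective, and of rank `r`
at every prime. -/
def IsLocFreeOfRank (T : Type u) [CommRing T] (M : Type u) [AddCommGroup M] [Module T M]
    (r : ℕ) : Prop :=
  Module.Finite T M ∧ Module.Projective T M ∧ ∀ p : PrimeSpectrum T, Module.rankAtStalk M p = r

/-- `I` is a `T`-point of the Haiman-Sturmfels multigraded Hilbert functor for the grading
`deg x_i = w i` and the function `h`: `I` is a homogeneous ideal of `T[x_1, ..., x_n]`, and for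
every degree `a` the `T`-module `T[x]_a / I_a` is locally free of rank `h a`. -/
def IsHilbPoint {n : ℕ} {A : Type} [AddCommGroup A] (w : Fin n → A) (h : A → ℕ)
    (T : Type u) [CommRing T] (I : Ideal (MvPolynomial (Fin n) T)) : Prop :=
  (∀ f ∈ I, ∀ a, weightedHomogeneousComponent w a f ∈ I) ∧
  ∀ a, IsLocFreeOfRank T (weightedHomogeneousSubmodule T w a ⧸
    (I.restrictScalars T).comap (weightedHomogeneousSubmodule T w a).subtype) (h a)

/-- `Spec B`, with the universal ideal `U`, represents the multigraded Hilbert functor over `k`:
for every commutative `k`-algebra `T`, the map sending a `k`-algebra map `φ : B → T` to the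
extension of `U` along `φ` is a bijection onto the `T`-points of the functor. -/
def Represents (k : Type u) [Field k] {n : ℕ} {A : Type} [AddCommGroup A] (w : Fin n → A)
    (h : A → ℕ) (B : Type u) [CommRing B] [Algebra k B] (U : Ideal (MvPolynomial (Fin n) B)) :
    Prop :=
  ∀ (T : Type u) [CommRing T] [Algebra k T],
    (∀ φ : B →ₐ[k] T, IsHilbPoint w h T (U.map (MvPolynomial.map (φ : B →+* T)))) ∧
    ∀ I : Ideal (MvPolynomial (Fin n) T), IsHilbPoint w h T I →
      ∃! φ : B →ₐ[k] T, U.map (MvPolynomial.map (φ : B →+* T)) = I

end Pool.Agent.H79.MH
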