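import Mathlib
import Pool.Agent.H79.MHDefs

set_option autoImplicit false

namespace Pool.Agent.H79.MH
open MvPolynomial Finset

universe u

section rankone
variable {T M : Type u} [CommRing T] [AddCommGroup M] [Module T M]

theorem exists_unit (h : IsLocFreeOfRank T M 1) (m : Ideal T) [hm : m.IsMaximal] :
    ∃ (l : M →ₗ[T] T) (x : M), l x ∉ m := by
  obtain ⟨hf, hp, hr⟩ := h
  by_contra hc
  push Not at hc
  obtain ⟨s, hs⟩ := Module.projective_def.1 hp
  have h1 : (⊤ : Submodule T M) ≤ m • ⊤ := by
    intro x _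
    rw [← hs x, Finsupp.linearCombination_apply, Finsupp.sum]
    exact Submodule.sum_mem _ fun g _ =>
      Submodule.smul_mem_smul (hc ((Finsupp.lapply g).comp s) x) trivial
  obtain ⟨r, hr1, hr2⟩ := Submodule.exists_sub_one_mem_and_smul_eq_zero_of_fg_of_le_smul m ⊤
    Module.Finite.fg_top h1
  have h2 : (⟨m, inferInstance⟩ : PrimeSpectrum T) ∉ Module.support T M :=
    Module.notMem_support_iff'.2 fun x => ⟨r, fun h => hm.ne_top ((Ideal.eq_top_iff_one m).2
      (by simpa using m.sub_mem h hr1)), hr2 x trivial⟩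
  rw [← Module.rankAtStalk_eq_zero_iff_notMem_support, hr] at h2
  exact one_ne_zero h2

theorem symm_prop (h : IsLocFreeOfRank T M 1) (l : M →ₗ[T] T) (x y : M) :
    l x • y = l y • x := by
  obtain ⟨hf, hp, hr⟩ := h
  refine Module.eq_of_localization_maximal (R := T)
    (fun (P : Ideal T) [P.IsMaximal] => LocalizedModule P.primeCompl M)
    (fun (P : Ideal T) [P.IsMaximal] => LocalizedModule.mkLinearMap P.primeCompl M) _ _
    fun P hP => ?_
  have : Module.Free (Localization.AtPrime P) (LocalizedModule P.primeCompl M) :=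
    Module.free_of_flat_of_isLocalRing
  have h1 : Module.finrank (Localization.AtPrime P) (LocalizedModule P.primeCompl M) =
      Module.finrank (Localization.AtPrime P) (Localization.AtPrime P) := by
    rw [Module.finrank_self]; exact hr ⟨P, inferInstance⟩
  let e := LinearEquiv.ofFinrankEq _ _ h1
  let l' := IsLocalizedModule.mapExtendScalars P.primeCompl
    (LocalizedModule.mkLinearMap P.primeCompl M) (Algebra.linearMap T (Localization.AtPrime P))
    (Localization.AtPrime P) l
  have h2 : ∀ z, l' (LocalizedModule.mkLinearMap P.primeCompl M z) = algebraMap _ _ (l z) :=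
    fun z => IsLocalizedModule.map_apply P.primeCompl (LocalizedModule.mkLinearMap P.primeCompl M)
      (Algebra.linearMap T (Localization.AtPrime P)) l z
  have h3 : ∀ a b, l' a • b = l' b • a := by
    intro a b
    have ha : a = e a • e.symm 1 := by rw [← map_smul, smul_eq_mul, mul_one, e.symm_apply_apply]
    have hb : b = e b • e.symm 1 := by rw [← map_smul, smul_eq_mul, mul_one, e.symm_apply_apply]
    rw [ha, hb, map_smul, map_smul, smul_smul, smul_smul, smul_eq_mul, smul_eq_mul]
    congr 1; ring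
  rw [map_smul, map_smul, ← algebraMap_smul (Localization.AtPrime P) (l x),
    ← algebraMap_smul (Localization.AtPrime P) (l y), ← h2, ← h2, h3]

end rankone

variable {n : ℕ} {A : Type} [AddCommGroup A] {w : Fin n → A} {h : A → ℕ}
  {T : Type u} [CommRing T] {I J : Ideal (MvPolynomial (Fin n) T)}

theorem mem_of_zero (hI : IsHilbPoint w h T I) {a : A} (ha : h a = 0) {f : MvPolynomial (Fin n) T}
    (hf : IsWeightedHomogeneous w f a) : f ∈ I := by
  obtain ⟨h1, h2, h3⟩ := hI.2 a
  have := Module.rankAtStalk_eq_zero_iff_subsingleton.1 (funext fun p => (h3 p).trans ha)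
  exact (Submodule.Quotient.mk_eq_zero ((I.restrictScalars T).comap
      (weightedHomogeneousSubmodule T w a).subtype) (x := ⟨f, hf⟩)).1 (Subsingleton.elim _ 0)

theorem exists_func (hI : IsHilbPoint w h T I) {a : A} (ha : h a = 1) (m : Ideal T) [m.IsMaximal]
    (u v : Fin n →₀ ℕ)
    (huv : ∀ d, Finsupp.weight w d = a → d = u ∨ d = v ∨ monomial d (1 : T) ∈ I) :
    ∃ l : MvPolynomial (Fin n) T →ₗ[T] T, (∀ f ∈ I, l f = 0) ∧
      (∀ f g, IsWeightedHomogeneous w f a → IsWeightedHomogeneous w g a →
        l f • g - l g • f ∈ I) ∧ (l (monomial u 1) ∉ m ∨ l (monomial v 1) ∉ m) := by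
  have hM := hI.2 a
  rw [ha] at hM
  obtain ⟨l, x, hx⟩ := exists_unit hM m
  let π : MvPolynomial (Fin n) T →ₗ[T] _ := (Submodule.mkQ ((I.restrictScalars T).comap
    (weightedHomogeneousSubmodule T w a).subtype)).comp
    ((weightedHomogeneousComponent w a).codRestrict _ (weightedHomogeneousComponent_mem w · a))
  have hπ : ∀ f (hf : IsWeightedHomogeneous w f a), π f = Submodule.Quotient.mk ⟨f, hf⟩ := by
    intro f hf
    simp only [π, LinearMap.comp_apply, Submodule.mkQ_apply]
    congr 1
    exact Subtype.ext hf.weightedHomogeneousComponent_same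
  have h0 : ∀ f ∈ I, (l.comp π) f = 0 := fun f hf => by
    have : π f = 0 := (Submodule.Quotient.mk_eq_zero _).2 (hI.1 f hf a)
    rw [LinearMap.comp_apply, this, map_zero]
  refine ⟨l.comp π, h0, fun f g hf hg => ?_, ?_⟩
  · have h1 : π (l (π f) • g - l (π g) • f) = 0 := by
      rw [map_sub, map_smul, map_smul, symm_prop hM l (π f) (π g), sub_self]
    have h2 : IsWeightedHomogeneous w (l (π f) • g - l (π g) • f) a :=
      (weightedHomogeneousSubmodule T w a).sub_mem
        ((weightedHomogeneousSubmodule T w a).smul_mem _ hg)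
        ((weightedHomogeneousSubmodule T w a).smul_mem _ hf)
    rw [hπ _ h2] at h1
    exact (Submodule.Quotient.mk_eq_zero ((I.restrictScalars T).comap
      (weightedHomogeneousSubmodule T w a).subtype)).1 h1
  · by_contra hc
    push Not at hc
    obtain ⟨⟨f, hf⟩, rfl⟩ := Submodule.Quotient.mk_surjective _ x
    apply hx
    rw [← hπ f hf, f.as_sum, map_sum, map_sum]
    refine Ideal.sum_mem _ fun d hd => ?_
    rw [← mul_one (coeff d f), ← smul_eq_mul, ← smul_monomial, map_smul, map_smul]
    refine m.mul_mem_left _ ?_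
    rcases huv d (hf (mem_support_iff.1 hd)) with rfl | rfl | h1
    · exact hc.1
    · exact hc.2
    · rw [show l (π (monomial d 1)) = 0 from h0 _ h1]; exact m.zero_mem

theorem eq_of_le (hI : IsHilbPoint w h T I) (hJ : IsHilbPoint w h T J) (hle : J ≤ I) : J = I := by
  classical
  refine le_antisymm hle fun f hf => ?_
  rw [← finsum_weightedHomogeneousComponent w f, finsum_eq_sum _
    (weightedHomogeneousComponent_finsupp f)]
  refine Ideal.sum_mem _ fun a _ => ?_
  obtain ⟨h1, h2, h3⟩ := hI.2 a
  obtain ⟨h4, h5, h6⟩ := hJ.2 a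
  have hle' : (J.restrictScalars T).comap (weightedHomogeneousSubmodule T w a).subtype ≤
      (I.restrictScalars T).comap (weightedHomogeneousSubmodule T w a).subtype :=
    Submodule.comap_mono hle
  have hb := Module.bijective_of_surjective_of_rankAtStalk_eq
    (Submodule.factor_surjective hle') (fun m _ => by rw [h3, h6])
  have : (Submodule.Quotient.mk (p := (J.restrictScalars T).comap
      (weightedHomogeneousSubmodule T w a).subtype)
      ⟨_, weightedHomogeneousComponent_mem w f a⟩) = 0 := by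
    apply hb.1
    rw [map_zero]
    exact (Submodule.Quotient.mk_eq_zero _).2 (hI.1 f hf a)
  exact (Submodule.Quotient.mk_eq_zero ((J.restrictScalars T).comap
      (weightedHomogeneousSubmodule T w a).subtype)).1 this

theorem isHilbPoint_of_func {ι : Type} [Fintype ι] [DecidableEq ι] [DecidableEq A] (deg : ι → A)
    (b : ι → MvPolynomial (Fin n) T) (hb : ∀ i, IsWeightedHomogeneous w (b i) (deg i))
    (l : ι → MvPolynomial (Fin n) T →ₗ[T] T) (hl : ∀ i j, l i (b j) = if i = j then 1 else 0)
    (hl' : ∀ i d, Finsupp.weight w d ≠ deg i → l i (monomial d 1) = 0)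
    (hJ : ∀ f, f ∈ J ↔ ∀ i, l i f = 0) :
    IsHilbPoint w (fun a => Fintype.card {i // deg i = a}) T J := by
  have key : ∀ i a f, l i (weightedHomogeneousComponent w a f) = if deg i = a then l i f else 0 := by
    intro i a f
    induction f using MvPolynomial.induction_on' with
    | monomial d c =>
      rw [weightedHomogeneousComponent_of_mem (isWeightedHomogeneous_monomial w d c rfl)]
      have : l i (monomial d c) = c * l i (monomial d 1) := by
        rw [← smul_eq_mul, ← map_smul, smul_monomial, smul_eq_mul, mul_one]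
      by_cases h1 : a = Finsupp.weight w d
      · by_cases h2 : deg i = a
        · simp [h1, h2]
        · rw [if_pos h1, if_neg h2, this, hl' i d (fun h3 => h2 (h3.symm.trans h1.symm)), mul_zero]
      · by_cases h2 : deg i = a
        · rw [if_neg h1, if_pos h2, this, hl' i d (fun h3 => h1 (h3.trans h2).symm), mul_zero,
            map_zero]
        · simp [h1, h2]
    | add f g hf hg => rw [map_add, map_add, hf, hg]; split_ifs <;> simp
  refine ⟨fun f hf a => (hJ _).2 fun i => by rw [key, (hJ f).1 hf i, ite_self], fun a => ?_⟩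
  let L : weightedHomogeneousSubmodule T w a →ₗ[T] ({i // deg i = a} → T) :=
    LinearMap.pi fun i => (l i.1).comp (weightedHomogeneousSubmodule T w a).subtype
  have hs : Function.Surjective L := fun y => by
    refine ⟨∑ j : {i // deg i = a}, y j • ⟨b j.1, by have := hb j.1; rwa [j.2] at this⟩, funext fun i => ?_⟩
    simp [L, hl, Subtype.val_inj]
  have hk : (J.restrictScalars T).comap (weightedHomogeneousSubmodule T w a).subtype =
      LinearMap.ker L := by
    ext f
    simp only [Submodule.mem_comap, Submodule.subtype_apply, Submodule.restrictScalars_mem, hJ,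
      LinearMap.mem_ker]
    refine ⟨fun h => funext fun i => h i.1, fun h i => ?_⟩
    by_cases hi : deg i = a
    · exact congrFun h ⟨i, hi⟩
    · have := key i a f
      rwa [if_neg hi, IsWeightedHomogeneous.weightedHomogeneousComponent_same f.2] at this
  let e := (Submodule.quotEquivOfEq _ _ hk).trans (L.quotKerEquivOfSurjective hs)
  refine ⟨Module.Finite.equiv e.symm, Module.Projective.of_equiv e.symm, fun p => ?_⟩
  have : Nontrivial T := p.nontrivial
  rw [Module.rankAtStalk_eq_of_equiv e, Module.rankAtStalk_eq_finrank_of_free]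
  simp

/-- exponent vector in three variables -/
noncomputable def mm (i j k : ℕ) : Fin 3 →₀ ℕ := Finsupp.equivFunOnFinite.symm ![i, j, k]

theorem mm_eta (d : Fin 3 →₀ ℕ) : d = mm (d 0) (d 1) (d 2) := by
  ext i; fin_cases i <;> rfl

theorem mm_inj {i j k i' j' k' : ℕ} : mm i j k = mm i' j' k' ↔ i = i' ∧ j = j' ∧ k = k' := by
  refine ⟨fun h => ⟨DFunLike.congr_fun h 0, DFunLike.congr_fun h 1, DFunLike.congr_fun h 2⟩, ?_⟩
  rintro ⟨rfl, rfl, rfl⟩; rfl

theorem weight_mm (w : Fin 3 → A) (i j k : ℕ) :
    Finsupp.weight w (mm i j k) = i • w 0 + j • w 1 + k • w 2 := by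
  rw [Finsupp.weight_eq_sum, Fin.sum_univ_three]; rfl

theorem monomial_mm (i j k : ℕ) :
    (monomial (mm i j k) 1 : MvPolynomial (Fin 3) T) = X 0 ^ i * X 1 ^ j * X 2 ^ k := by
  rw [monomial_eq, Finsupp.prod_fintype _ _ (by simp), Fin.prod_univ_three, C_1, one_mul]; rfl

theorem coeff_X0 (i j k : ℕ) (f : MvPolynomial (Fin 3) T) :
    coeff (mm i j k) (X 0 * f) = if i = 0 then 0 else coeff (mm (i - 1) j k) f := by
  rw [coeff_X_mul']
  have : mm i j k - Finsupp.single 0 1 = mm (i - 1) j k := by
    ext a; fin_cases a <;> simp [mm]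
  rw [this]
  simp [mm]

theorem coeff_X1 (i j k : ℕ) (f : MvPolynomial (Fin 3) T) :
    coeff (mm i j k) (X 1 * f) = if j = 0 then 0 else coeff (mm i (j - 1) k) f := by
  rw [coeff_X_mul']
  have : mm i j k - Finsupp.single 1 1 = mm i (j - 1) k := by
    ext a; fin_cases a <;> simp [mm]
  rw [this]
  simp [mm]

theorem coeff_X2 (i j k : ℕ) (f : MvPolynomial (Fin 3) T) :
    coeff (mm i j k) (X 2 * f) = if k = 0 then 0 else coeff (mm i j (k - 1)) f := by
  rw [coeff_X_mul']
  have : mm i j k - Finsupp.single 2 1 = mm i j (k - 1) := by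
    ext a; fin_cases a <;> simp [mm]
  rw [this]
  simp [mm]

/-- a submodule stable under the variables is an ideal -/
def idealOf (K : Submodule T (MvPolynomial (Fin n) T)) (hK : ∀ i, ∀ f ∈ K, X i * f ∈ K) :
    Ideal (MvPolynomial (Fin n) T) where
  carrier := K
  add_mem' := K.add_mem
  zero_mem' := K.zero_mem
  smul_mem' := by
    intro p f hf
    rw [smul_eq_mul]
    induction p using MvPolynomial.induction_on generalizing f with
    | C c => rw [← smul_eq_C_mul]; exact K.smul_mem c hf
    | add p q hp hq => rw [add_mul]; exact K.add_mem (hp hf) (hq hf)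
    | mul_X p i hp => rw [mul_assoc]; exact hp (hK i f hf)

theorem kill (hI : IsHilbPoint w h T I) {a : A} (ha : h a = 1) (u v : Fin n →₀ ℕ)
    (huv : ∀ d, Finsupp.weight w d = a → d = u ∨ d = v ∨ monomial d (1 : T) ∈ I) (t : T)
    (hu : t • monomial u (1 : T) ∈ I) (hv : t • monomial v (1 : T) ∈ I) : t = 0 := by
  by_contra ht
  have hne : LinearMap.ker (LinearMap.toSpanSingleton T T t) ≠ ⊤ := by
    intro h1
    have : (1 : T) ∈ LinearMap.ker (LinearMap.toSpanSingleton T T t) := h1 ▸ trivial
    exact ht (by simpa using this)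
  obtain ⟨m, hm, hle⟩ := Ideal.exists_le_maximal _ hne
  obtain ⟨l, h0, -, h2⟩ := exists_func hI ha m u v huv
  have h3 := h0 _ hu
  have h4 := h0 _ hv
  rw [map_smul, smul_eq_mul, mul_comm] at h3 h4
  rcases h2 with h2 | h2
  · exact h2 (hle (by simpa using h3))
  · exact h2 (hle (by simpa using h4))

theorem gen_of (hI : IsHilbPoint w h T I) {a : A} (ha : h a = 1) (u v : Fin n →₀ ℕ)
    (hu : Finsupp.weight w u = a) (hv : Finsupp.weight w v = a)
    (huv : ∀ d, Finsupp.weight w d = a → d = u ∨ d = v ∨ monomial d (1 : T) ∈ I)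
    (H : ∀ s t : T, (∀ c : T, c • monomial u (1 : T) ∈ I → c * s = 0) →
      s • monomial v (1 : T) - t • monomial u (1 : T) ∈ I → s * s = 0) :
    ∃ c : T, monomial u (1 : T) - c • monomial v (1 : T) ∈ I := by
  let N : Ideal T := ((I.restrictScalars T) ⊔ T ∙ (monomial v (1 : T))).comap
    (LinearMap.toSpanSingleton T _ (monomial u (1 : T)))
  have hN : N = ⊤ := by
    by_contra hne
    obtain ⟨m, hm, hle⟩ := Ideal.exists_le_maximal _ hne
    obtain ⟨l, h0, h1, h2⟩ := exists_func hI ha m u v huv
    have h3 := h1 _ _ (isWeightedHomogeneous_monomial w u 1 hu)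
      (isWeightedHomogeneous_monomial w v 1 hv)
    have h4 := H _ _ (fun c hc => by simpa using h0 _ hc) h3
    rcases h2 with h2 | h2
    · exact h2 ((hm.isPrime.mem_or_mem (h4 ▸ m.zero_mem)).elim id id)
    · refine h2 (hle (Submodule.mem_sup.2 ⟨_, I.neg_mem h3,
        l (monomial u 1) • monomial v (1 : T),
        Submodule.smul_mem _ _ (Submodule.mem_span_singleton_self _), ?_⟩))
      simp
  have h1 : (1 : T) ∈ N := hN ▸ trivial
  obtain ⟨y, hy, z, hz, hyz⟩ := Submodule.mem_sup.1 h1
  obtain ⟨c, rfl⟩ := Submodule.mem_span_singleton.1 hz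
  refine ⟨c, ?_⟩
  have : y = monomial u (1 : T) - c • monomial v (1 : T) := by
    rw [eq_sub_iff_add_eq, hyz]; simp
  exact this ▸ hy

theorem mem_iff_func {ι : Type} [Fintype ι] [DecidableEq ι]
    (b : ι → MvPolynomial (Fin n) T)
    (l : ι → MvPolynomial (Fin n) T →ₗ[T] T) (hl : ∀ i j, l i (b j) = if i = j then 1 else 0)
    (h1 : ∀ f ∈ J, ∀ i, l i f = 0)
    (h2 : ∀ d, monomial d (1 : T) ∈ J.restrictScalars T ⊔ Submodule.span T (Set.range b))
    (f : MvPolynomial (Fin n) T) : f ∈ J ↔ ∀ i, l i f = 0 := by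
  refine ⟨h1 f, fun hf => ?_⟩
  have h3 : f ∈ J.restrictScalars T ⊔ Submodule.span T (Set.range b) := by
    rw [f.as_sum]
    refine Submodule.sum_mem _ fun d _ => ?_
    rw [← mul_one (coeff d f), ← smul_eq_mul, ← smul_monomial]
    exact Submodule.smul_mem _ _ (h2 d)
  obtain ⟨y, hy, z, hz, rfl⟩ := Submodule.mem_sup.1 h3
  obtain ⟨c, rfl⟩ := (Submodule.mem_span_range_iff_exists_fun T).1 hz
  have h4 : ∀ i, c i = 0 := fun i => by
    have := hf i
    rw [map_add, h1 y hy i, map_sum] at this
    simpa [hl] using this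
  simpa [h4] using hy

theorem mono_mem {J : Ideal (MvPolynomial (Fin 3) T)} {i j k i' j' k' : ℕ} {t : T} (hm : t • monomial (mm i j k) (1 : T) ∈ J)
    (hi : i ≤ i') (hj : j ≤ j') (hk : k ≤ k') : t • monomial (mm i' j' k') (1 : T) ∈ J := by
  obtain ⟨a, rfl⟩ := Nat.exists_eq_add_of_le hi
  obtain ⟨b, rfl⟩ := Nat.exists_eq_add_of_le hj
  obtain ⟨c, rfl⟩ := Nat.exists_eq_add_of_le hk
  have := J.mul_mem_left (monomial (mm a b c) (1 : T)) hm
  simp only [monomial_mm] at this ⊢
  convert this using 1
  simp only [smul_eq_C_mul]; ring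

theorem mono_mem' {J : Ideal (MvPolynomial (Fin 3) T)} {i j k i' j' k' : ℕ} (hm : monomial (mm i j k) (1 : T) ∈ J)
    (hi : i ≤ i') (hj : j ≤ j') (hk : k ≤ k') : monomial (mm i' j' k') (1 : T) ∈ J := by
  have := mono_mem (J := J) (t := (1 : T)) (by rwa [one_smul]) hi hj hk
  rwa [one_smul] at this

theorem binom_mem {J : Ideal (MvPolynomial (Fin 3) T)} {i j k i' j' k' : ℕ} {s t : T}
    (hm : s • monomial (mm i j k) (1 : T) - t • monomial (mm i' j' k') (1 : T) ∈ J) (a b c : ℕ) :
    s • monomial (mm (i + a) (j + b) (k + c)) (1 : T) -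
      t • monomial (mm (i' + a) (j' + b) (k' + c)) (1 : T) ∈ J := by
  have := J.mul_mem_left (monomial (mm a b c) (1 : T)) hm
  simp only [monomial_mm] at this ⊢
  convert this using 1
  simp only [smul_eq_C_mul]; ring

theorem smul_mem_of (t : T) {f : MvPolynomial (Fin n) T} (hf : f ∈ J) : t • f ∈ J :=
  (J.restrictScalars T).smul_mem t hf

end Pool.Agent.H79.MH
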