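import Mathlib
import Pool.Agent.H79.MHGen

set_option autoImplicit false
set_option linter.unusedSimpArgs false

namespace Pool.Agent.H79.MH.Dis
open MvPolynomial Finset Pool.Agent.H79.MH

universe u
variable {T : Type u} [CommRing T]

def wD : Fin 3 → ℤ := ![3, 4, 5]

def eU : Fin 10 → ℕ × ℕ × ℕ := ![(0,0,0), (1,0,0), (0,1,0), (0,0,1), (2,0,0), (0,0,2),
  (1,0,1), (3,0,0), (4,0,0), (1,0,2)]

def eV : Fin 10 → ℕ × ℕ × ℕ := ![(0,0,0), (1,0,0), (0,1,0), (0,0,1), (2,0,0), (0,0,2),
  (0,2,0), (0,1,1), (0,3,0), (0,2,1)]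

def dg (i : Fin 10) : ℤ := 3 * (eU i).1 + 4 * (eU i).2.1 + 5 * (eU i).2.2

def hD (a : ℤ) : ℕ := Fintype.card {i // dg i = a}

noncomputable abbrev mo (T : Type u) [CommRing T] (i j k : ℕ) : MvPolynomial (Fin 3) T :=
  monomial (mm i j k) 1

noncomputable def JD (e : T) : Ideal (MvPolynomial (Fin 3) T) :=
  Ideal.span {mo T 1 1 0, mo T 2 0 1, mo T 0 1 2, mo T 5 0 0, mo T 0 0 3, mo T 0 4 0, mo T 0 3 1,
    e • mo T 0 2 0, e • mo T 0 1 1, (1 - e) • mo T 3 0 0, (1 - e) • mo T 1 0 1}

theorem wt (i j k : ℕ) : Finsupp.weight wD (mm i j k) = (3 * i + 4 * j + 5 * k : ℤ) := by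
  rw [weight_mm]; simp [wD]; ring

noncomputable def lD (e : T) (i : Fin 10) : MvPolynomial (Fin 3) T →ₗ[T] T :=
  e • lcoeff T (mm (eU i).1 (eU i).2.1 (eU i).2.2) +
    (1 - e) • lcoeff T (mm (eV i).1 (eV i).2.1 (eV i).2.2)

noncomputable def bD (e : T) (s : Fin 10) : MvPolynomial (Fin 3) T :=
  e • mo T (eU s).1 (eU s).2.1 (eU s).2.2 + (1 - e) • mo T (eV s).1 (eV s).2.1 (eV s).2.2

theorem lD_mo (e : T) (s : Fin 10) (i j k : ℕ) : lD e s (mo T i j k) =
    e * (if (i, j, k) = eU s then 1 else 0) + (1 - e) * (if (i, j, k) = eV s then 1 else 0) := by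
  simp only [lD, LinearMap.add_apply, LinearMap.smul_apply, lcoeff_apply, coeff_monomial, mm_inj,
    Prod.ext_iff, smul_eq_mul]

theorem JD_ker {e : T} (he : e * e = e) : ∀ f ∈ JD e, ∀ s, lD e s f = 0 := by
  have he1 : e * (1 - e) = 0 := by rw [mul_sub, he, mul_one, sub_self]
  have he2 : (1 - e) * e = 0 := by rw [mul_comm, he1]
  have hK : ∀ i, ∀ f ∈ (⨅ s, LinearMap.ker (lD e s)), X i * f ∈ (⨅ s, LinearMap.ker (lD e s)) := by
    intro i f hf
    simp only [Submodule.mem_iInf, LinearMap.mem_ker] at hf ⊢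
    have hU : ∀ s, e * coeff (mm (eU s).1 (eU s).2.1 (eU s).2.2) f = 0 := fun s => by
      have := hf s
      simp only [lD, LinearMap.add_apply, LinearMap.smul_apply, lcoeff_apply, smul_eq_mul] at this
      linear_combination e * this - coeff (mm (eU s).1 (eU s).2.1 (eU s).2.2) f * he -
        coeff (mm (eV s).1 (eV s).2.1 (eV s).2.2) f * he1
    have hV : ∀ s, (1 - e) * coeff (mm (eV s).1 (eV s).2.1 (eV s).2.2) f = 0 := fun s => by
      have := hf s
      simp only [lD, LinearMap.add_apply, LinearMap.smul_apply, lcoeff_apply, smul_eq_mul] at this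
      linear_combination this - hU s
    have h0 := hU 0; have h1 := hU 1; have h2 := hU 2; have h3 := hU 3; have h4 := hU 4
    have h5 := hU 5; have h6 := hU 6; have h7 := hU 7; have h8 := hU 8; have h9 := hU 9
    have k0 := hV 0; have k1 := hV 1; have k2 := hV 2; have k3 := hV 3; have k4 := hV 4
    have k5 := hV 5; have k6 := hV 6; have k7 := hV 7; have k8 := hV 8; have k9 := hV 9
    simp [eU, eV] at h0 h1 h2 h3 h4 h5 h6 h7 h8 h9 k0 k1 k2 k3 k4 k5 k6 k7 k8 k9
    intro s
    fin_cases i <;> fin_cases s <;>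
      simp [lD, eU, eV, coeff_X0, coeff_X1, coeff_X2, h0, h1, h2, h3, h4, h5, h6, h7, h8, h9,
        k0, k1, k2, k3, k4, k5, k6, k7, k8, k9]
    all_goals first
      | linear_combination h0 + k0 | linear_combination h1 + k1 | linear_combination h3 + k3
  have : JD e ≤ idealOf _ hK := by
    rw [JD, Ideal.span_le]
    intro f hf
    change f ∈ (⨅ s, LinearMap.ker (lD e s))
    simp only [Submodule.mem_iInf, LinearMap.mem_ker]
    intro s
    simp only [Set.mem_insert_iff, Set.mem_singleton_iff] at hf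
    rcases hf with rfl | rfl | rfl | rfl | rfl | rfl | rfl | rfl | rfl | rfl | rfl <;>
      fin_cases s <;> simp [lD_mo, eU, eV, he1, he2]
  intro f hf s
  have h1 : f ∈ (⨅ s, LinearMap.ker (lD e s)) := this hf
  exact (Submodule.mem_iInf _).1 h1 s

theorem dgV (s : Fin 10) : (3 * (eV s).1 + 4 * (eV s).2.1 + 5 * (eV s).2.2 : ℤ) = dg s := by
  revert s; decide

theorem JD_point {e : T} (he : e * e = e) : IsHilbPoint wD hD T (JD e) := by
  have he1 : e * (1 - e) = 0 := by rw [mul_sub, he, mul_one, sub_self]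
  have he2 : (1 - e) * e = 0 := by rw [mul_comm, he1]
  have he3 : (1 - e) * (1 - e) = 1 - e := by rw [mul_sub, he2, mul_one, sub_zero]
  have hl : ∀ i j, lD e i (bD e j) = if i = j then 1 else 0 := by
    intro i j
    rw [bD, map_add, map_smul, map_smul, lD_mo, lD_mo]
    fin_cases i <;> fin_cases j <;> simp [eU, eV, he, he1, he2, he3]
  refine isHilbPoint_of_func dg (bD e) (fun s => ?_) (lD e) hl ?_ ?_
  · exact (weightedHomogeneousSubmodule T wD _).add_mem
      ((weightedHomogeneousSubmodule T wD _).smul_mem _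
        (isWeightedHomogeneous_monomial _ _ _ (wt _ _ _)))
      ((weightedHomogeneousSubmodule T wD _).smul_mem _
        (isWeightedHomogeneous_monomial _ _ _ ((wt _ _ _).trans (dgV s))))
  · intro s d hd
    rw [mm_eta d] at hd ⊢
    rw [wt] at hd
    rw [lD_mo, if_neg, if_neg]
    · simp
    · intro h; apply hd
      rw [← dgV, ← h]
    · intro h; apply hd
      rw [dg, ← h]
  · refine mem_iff_func _ _ hl (JD_ker he) fun d => ?_
    rw [mm_eta d]
    generalize d 0 = i, d 1 = j, d 2 = k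
    have g : ∀ f ∈ ({mo T 1 1 0, mo T 2 0 1, mo T 0 1 2, mo T 5 0 0, mo T 0 0 3, mo T 0 4 0,
      mo T 0 3 1, e • mo T 0 2 0, e • mo T 0 1 1, (1 - e) • mo T 3 0 0, (1 - e) • mo T 1 0 1} :
      Set _), f ∈ JD e := fun f hf => Ideal.subset_span hf
    have g1 := g (mo T 1 1 0) (by simp)
    have g2 := g (mo T 2 0 1) (by simp)
    have g3 := g (mo T 0 1 2) (by simp)
    have g4 := g (mo T 5 0 0) (by simp)
    have g5 := g (mo T 0 0 3) (by simp)
    have g6 := g (mo T 0 4 0) (by simp)
    have g7 := g (mo T 0 3 1) (by simp)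
    have g8 := g (e • mo T 0 2 0) (by simp)
    have g9 := g (e • mo T 0 1 1) (by simp)
    have g10 := g ((1 - e) • mo T 3 0 0) (by simp)
    have g11 := g ((1 - e) • mo T 1 0 1) (by simp)
    have hb : ∀ s : Fin 10, bD e s ∈ (JD e).restrictScalars T ⊔
        Submodule.span T (Set.range (bD e)) :=
      fun s => Submodule.mem_sup_right (Submodule.subset_span ⟨s, rfl⟩)
    have hb0 : ∀ (s : Fin 10) (i j k : ℕ), eU s = (i, j, k) → eV s = (i, j, k) → mo T i j k ∈
        (JD e).restrictScalars T ⊔ Submodule.span T (Set.range (bD e)) := fun s i j k h1 h2 => by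
      have := hb s
      rwa [bD, h1, h2, ← add_smul, add_sub_cancel, one_smul] at this
    have hb1 : ∀ (s : Fin 10) (i j k : ℕ), eU s = (i, j, k) → (1 - e) • mo T i j k ∈ JD e →
        mo T i j k ∈
        (JD e).restrictScalars T ⊔ Submodule.span T (Set.range (bD e)) := fun s i j k h1 hs => by
      have := Submodule.add_mem _ (Submodule.mem_sup_left (S := (JD e).restrictScalars T) hs)
        (Submodule.smul_mem _ e (hb s))
      rwa [bD, h1, smul_add, smul_smul, smul_smul, he, he1, zero_smul, add_zero, ← add_smul,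
        sub_add_cancel, one_smul] at this
    have hb2 : ∀ (s : Fin 10) (i j k : ℕ), eV s = (i, j, k) → e • mo T i j k ∈ JD e →
        mo T i j k ∈
        (JD e).restrictScalars T ⊔ Submodule.span T (Set.range (bD e)) := fun s i j k h1 hs => by
      have := Submodule.add_mem _ (Submodule.mem_sup_left (S := (JD e).restrictScalars T) hs)
        (Submodule.smul_mem _ (1 - e) (hb s))
      rwa [bD, h1, smul_add, smul_smul, smul_smul, he2, he3, zero_smul, zero_add, ← add_smul,
        add_sub_cancel, one_smul] at this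
    by_cases c1 : 5 ≤ i
    · exact Submodule.mem_sup_left (mono_mem' g4 c1 (by omega) (by omega))
    by_cases c2 : 4 ≤ j
    · exact Submodule.mem_sup_left (mono_mem' g6 (by omega) c2 (by omega))
    by_cases c3 : 3 ≤ k
    · exact Submodule.mem_sup_left (mono_mem' g5 (by omega) (by omega) c3)
    by_cases c4 : 1 ≤ i ∧ 1 ≤ j
    · exact Submodule.mem_sup_left (mono_mem' g1 c4.1 c4.2 (by omega))
    by_cases c5 : 2 ≤ i ∧ 1 ≤ k
    · exact Submodule.mem_sup_left (mono_mem' g2 c5.1 (by omega) c5.2)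
    by_cases c6 : 1 ≤ j ∧ 2 ≤ k
    · exact Submodule.mem_sup_left (mono_mem' g3 (by omega) c6.1 c6.2)
    by_cases c7 : 3 ≤ j ∧ 1 ≤ k
    · exact Submodule.mem_sup_left (mono_mem' g7 (by omega) c7.1 c7.2)
    push Not at c1 c2 c3
    have b0 : mo T 0 0 0 ∈ (JD e).restrictScalars T ⊔ Submodule.span T (Set.range (bD e)) :=
      hb0 0 _ _ _ rfl rfl
    have b1 : mo T 1 0 0 ∈ (JD e).restrictScalars T ⊔ Submodule.span T (Set.range (bD e)) :=
      hb0 1 _ _ _ rfl rfl
    have b2 : mo T 0 1 0 ∈ (JD e).restrictScalars T ⊔ Submodule.span T (Set.range (bD e)) :=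
      hb0 2 _ _ _ rfl rfl
    have b3 : mo T 0 0 1 ∈ (JD e).restrictScalars T ⊔ Submodule.span T (Set.range (bD e)) :=
      hb0 3 _ _ _ rfl rfl
    have b4 : mo T 2 0 0 ∈ (JD e).restrictScalars T ⊔ Submodule.span T (Set.range (bD e)) :=
      hb0 4 _ _ _ rfl rfl
    have b5 : mo T 0 0 2 ∈ (JD e).restrictScalars T ⊔ Submodule.span T (Set.range (bD e)) :=
      hb0 5 _ _ _ rfl rfl
    have b6 : mo T 1 0 1 ∈ (JD e).restrictScalars T ⊔ Submodule.span T (Set.range (bD e)) :=
      hb1 6 _ _ _ rfl g11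
    have b7 : mo T 3 0 0 ∈ (JD e).restrictScalars T ⊔ Submodule.span T (Set.range (bD e)) :=
      hb1 7 _ _ _ rfl g10
    have b8 : mo T 4 0 0 ∈ (JD e).restrictScalars T ⊔ Submodule.span T (Set.range (bD e)) :=
      hb1 8 _ _ _ rfl (mono_mem g10 (by decide) (by decide) (by decide))
    have b9 : mo T 1 0 2 ∈ (JD e).restrictScalars T ⊔ Submodule.span T (Set.range (bD e)) :=
      hb1 9 _ _ _ rfl (mono_mem g11 (by decide) (by decide) (by decide))
    have b10 : mo T 0 2 0 ∈ (JD e).restrictScalars T ⊔ Submodule.span T (Set.range (bD e)) :=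
      hb2 6 _ _ _ rfl g8
    have b11 : mo T 0 1 1 ∈ (JD e).restrictScalars T ⊔ Submodule.span T (Set.range (bD e)) :=
      hb2 7 _ _ _ rfl g9
    have b12 : mo T 0 3 0 ∈ (JD e).restrictScalars T ⊔ Submodule.span T (Set.range (bD e)) :=
      hb2 8 _ _ _ rfl (mono_mem g8 (by decide) (by decide) (by decide))
    have b13 : mo T 0 2 1 ∈ (JD e).restrictScalars T ⊔ Submodule.span T (Set.range (bD e)) :=
      hb2 9 _ _ _ rfl (mono_mem g8 (by decide) (by decide) (by decide))
    interval_cases i <;> interval_cases j <;> interval_cases k <;>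
      first | omega | with_reducible assumption

theorem exists_JD {I : Ideal (MvPolynomial (Fin 3) T)} (hI : IsHilbPoint wD hD T I) :
    ∃ e : T, e * e = e ∧ JD e = I := by
  have z : ∀ i j k : ℕ, hD (3 * i + 4 * j + 5 * k) = 0 → mo T i j k ∈ I := fun i j k h =>
    mem_of_zero hI h (isWeightedHomogeneous_monomial _ _ _ (wt i j k))
  have g1 := z 1 1 0 (by decide)
  have dd : ∀ (a : ℤ) (u v : ℕ × ℕ × ℕ), (∀ i j k : ℕ, 3 * (i : ℤ) + 4 * j + 5 * k = a →
      (i = u.1 ∧ j = u.2.1 ∧ k = u.2.2) ∨ (i = v.1 ∧ j = v.2.1 ∧ k = v.2.2) ∨ (1 ≤ i ∧ 1 ≤ j)) →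
      ∀ d, Finsupp.weight wD d = a → d = mm u.1 u.2.1 u.2.2 ∨ d = mm v.1 v.2.1 v.2.2 ∨
      monomial d (1 : T) ∈ I := by
    intro a u v H d hd
    rw [mm_eta d] at hd ⊢
    rw [wt] at hd
    rw [mm_inj, mm_inj]
    rcases H _ _ _ hd with h | h | h
    · exact Or.inl h
    · exact Or.inr (Or.inl h)
    · exact Or.inr (Or.inr (mono_mem' g1 h.1 h.2 (by omega)))
  have d8 := dd 8 (1, 0, 1) (0, 2, 0) (by intro i j k h; simp only; omega)
  have d9 := dd 9 (3, 0, 0) (0, 1, 1) (by intro i j k h; simp only; omega)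
  have d12 := dd 12 (4, 0, 0) (0, 3, 0) (by intro i j k h; simp only; omega)
  have d13 := dd 13 (1, 0, 2) (0, 2, 1) (by intro i j k h; simp only; omega)
  simp only at d8 d9 d12 d13
  let a : Ideal T := (I.restrictScalars T).comap (LinearMap.toSpanSingleton T _ (mo T 0 2 0)) ⊓
    (I.restrictScalars T).comap (LinearMap.toSpanSingleton T _ (mo T 0 1 1))
  let b : Ideal T := (I.restrictScalars T).comap (LinearMap.toSpanSingleton T _ (mo T 3 0 0)) ⊓
    (I.restrictScalars T).comap (LinearMap.toSpanSingleton T _ (mo T 1 0 1))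
  have hab : a ⊔ b = ⊤ := by
    by_contra hne
    obtain ⟨m, hm, hle⟩ := Ideal.exists_le_maximal _ hne
    obtain ⟨l, -, h1, h2⟩ := exists_func hI (a := 8) (by decide) m _ _ d8
    obtain ⟨l', -, h3, h4⟩ := exists_func hI (a := 9) (by decide) m _ _ d9
    have r8 := h1 (mo T 1 0 1) (mo T 0 2 0) (isWeightedHomogeneous_monomial _ _ _ (wt _ _ _))
      (isWeightedHomogeneous_monomial _ _ _ (wt _ _ _))
    have r9 := h3 (mo T 3 0 0) (mo T 0 1 1) (isWeightedHomogeneous_monomial _ _ _ (wt _ _ _))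
      (isWeightedHomogeneous_monomial _ _ _ (wt _ _ _))
    generalize l (mo T 1 0 1) = p at *
    generalize l (mo T 0 2 0) = q at *
    generalize l' (mo T 3 0 0) = r at *
    generalize l' (mo T 0 1 1) = s at *
    have g111 : mo T 1 1 1 ∈ I := mono_mem' g1 le_rfl le_rfl (by omega)
    have g310 : mo T 3 1 0 ∈ I := mono_mem' g1 (by omega) le_rfl le_rfl
    have e1 : p • mo T 0 3 0 ∈ I := by
      simpa using I.add_mem (binom_mem r8 0 1 0) (smul_mem_of q g111)
    have e2 : s • mo T 4 0 0 ∈ I := by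
      simpa using I.sub_mem (smul_mem_of r g111) (binom_mem r9 1 0 0)
    have e3 : r • mo T 0 2 1 ∈ I := by
      simpa using I.add_mem (binom_mem r9 0 1 0) (smul_mem_of s g310)
    have hps : p * s = 0 := kill hI (a := 12) (by decide) _ _ d12 _
      (by rw [mul_smul]; exact smul_mem_of p e2)
      (by rw [mul_comm, mul_smul]; exact smul_mem_of s e1)
    have hqr : q * r = 0 := kill hI (a := 13) (by decide) _ _ d13 _
      (by
        have := I.sub_mem (smul_mem_of p e3) (smul_mem_of r (binom_mem r8 0 0 1))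
        convert this using 1
        simp only [smul_eq_C_mul, map_mul]; ring)
      (by rw [mul_smul]; exact smul_mem_of q e3)
    have ha : p * r ∈ m := by
      refine hle (Submodule.mem_sup_left ⟨?_, ?_⟩)
      · change (p * r) • mo T 0 2 0 ∈ I
        have := smul_mem_of r r8
        rwa [smul_sub, smul_smul, smul_smul, mul_comm r q, hqr, zero_smul, sub_zero,
          mul_comm r p] at this
      · change (p * r) • mo T 0 1 1 ∈ I
        have := smul_mem_of p r9
        rwa [smul_sub, smul_smul, smul_smul, hps, zero_smul, sub_zero] at this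
    have hb : q * s ∈ m := by
      refine hle (Submodule.mem_sup_right ⟨?_, ?_⟩)
      · change (q * s) • mo T 3 0 0 ∈ I
        have := I.neg_mem (smul_mem_of q r9)
        rwa [smul_sub, smul_smul, smul_smul, hqr, zero_smul, zero_sub, neg_neg] at this
      · change (q * s) • mo T 1 0 1 ∈ I
        have := I.neg_mem (smul_mem_of s r8)
        rwa [smul_sub, smul_smul, smul_smul, mul_comm s p, hps, zero_smul, zero_sub, neg_neg,
          mul_comm s q] at this
    have c1 := hm.isPrime.mem_or_mem ha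
    have c2 := hm.isPrime.mem_or_mem hb
    have c3 := hm.isPrime.mem_or_mem (hps ▸ m.zero_mem : p * s ∈ m)
    have c4 := hm.isPrime.mem_or_mem (hqr ▸ m.zero_mem : q * r ∈ m)
    tauto
  obtain ⟨e, he, f, hf, hef⟩ := Submodule.mem_sup.1 (hab ▸ Submodule.mem_top : (1 : T) ∈ a ⊔ b)
  obtain rfl : f = 1 - e := by rw [← hef]; ring
  have he1 : e • mo T 0 2 0 ∈ I := he.1
  have he2 : e • mo T 0 1 1 ∈ I := he.2
  have hf1 : (1 - e) • mo T 3 0 0 ∈ I := hf.1
  have hf2 : (1 - e) • mo T 1 0 1 ∈ I := hf.2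
  have hee : e * e = e := by
    have := kill hI (a := 8) (by decide) _ _ d8 (e * (1 - e))
      (by rw [mul_smul]; exact smul_mem_of e hf2)
      (by rw [mul_comm, mul_smul]; exact smul_mem_of _ he1)
    linear_combination -this
  refine ⟨e, hee, eq_of_le hI (JD_point hee) ?_⟩
  rw [JD, Ideal.span_le]
  intro f hf
  simp only [Set.mem_insert_iff, Set.mem_singleton_iff] at hf
  rcases hf with rfl | rfl | rfl | rfl | rfl | rfl | rfl | rfl | rfl | rfl | rfl
  · exact g1
  · exact z 2 0 1 (by decide)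
  · exact z 0 1 2 (by decide)
  · exact z 5 0 0 (by decide)
  · exact z 0 0 3 (by decide)
  · exact z 0 4 0 (by decide)
  · exact z 0 3 1 (by decide)
  · exact he1
  · exact he2
  · exact hf1
  · exact hf2

theorem JD_inj {a c : T} (ha : a * a = a) (h : JD a = JD c) : a = c := by
  have h1 : c • mo T 0 2 0 ∈ JD a := h ▸ Ideal.subset_span (by simp)
  have h2 : (1 - c) • mo T 1 0 1 ∈ JD a := h ▸ Ideal.subset_span (by simp)
  have h3 := JD_ker ha _ h1 6
  have h4 := JD_ker ha _ h2 6
  simp [lD_mo, eU, eV] at h3 h4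
  linear_combination h4 - h3

theorem JD_map {B : Type u} [CommRing B] (φ : B →+* T) (a : B) :
    (JD a).map (MvPolynomial.map φ) = JD (φ a) := by
  simp only [JD, Ideal.map_span, Set.image_insert_eq, Set.image_singleton, map_sub, smul_eq_C_mul,
    map_mul, map_C, mo, map_monomial, map_one]

theorem represents (k : Type u) [Field k] :
    Represents k wD hD (k × k) (JD (1, 0)) := by
  intro T _ _
  refine ⟨fun φ => ?_, fun I hI => ?_⟩
  · rw [JD_map]
    exact JD_point (by rw [← map_mul]; simp)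
  · obtain ⟨e, he, rfl⟩ := exists_JD hI
    let φ : k × k →ₐ[k] T :=
      { toFun := fun x => algebraMap k T x.1 * e + algebraMap k T x.2 * (1 - e)
        map_one' := by simp
        map_mul' := fun x y => by
          simp only [Prod.fst_mul, Prod.snd_mul, map_mul]
          linear_combination (-(algebraMap k T x.1 * algebraMap k T y.1) +
            algebraMap k T x.1 * algebraMap k T y.2 + algebraMap k T x.2 * algebraMap k T y.1 -
            algebraMap k T x.2 * algebraMap k T y.2) * he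
        map_zero' := by simp
        map_add' := fun x y => by
          simp only [Prod.fst_add, Prod.snd_add, map_add]; ring
        commutes' := fun x => by
          simp only [Prod.algebraMap_apply, Algebra.algebraMap_self, RingHom.id_apply]; ring }
    have hφ : φ (1, 0) = e := by simp [φ]
    refine ⟨φ, by simp only; rw [JD_map]; exact congrArg JD hφ, fun ψ hψ => ?_⟩
    simp only at hψ
    rw [JD_map] at hψ
    have h1 : ψ (1, 0) = φ (1, 0) := by rw [hφ]; exact (JD_inj he hψ.symm).symm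
    refine AlgHom.ext fun x => ?_
    have hx : x = x.1 • ((1, 0) : k × k) + x.2 • (1 - (1, 0)) := by ext <;> simp
    rw [hx]
    simp only [map_add, map_smul, map_sub, map_one, h1]

end Pool.Agent.H79.MH.Dis
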