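import Mathlib
import Pool.Agent.H79.MHGen

set_option autoImplicit false

namespace Pool.Agent.H79.MH.Fat
open MvPolynomial Finset Pool.Agent.H79.MH

universe u
variable {T : Type u} [CommRing T]

def wF : Fin 3 → ℤ × ℤ := ![(1, 0), (0, 1), (1, 1)]

def eU : Fin 12 → ℕ × ℕ × ℕ := ![(0,0,0), (1,0,0), (0,1,0), (0,0,1), (1,1,0), (1,0,1), (0,2,0),
  (0,3,0), (0,1,1), (0,0,2), (0,2,1), (0,1,2)]

def eV : Fin 12 → ℕ × ℕ × ℕ := ![(0,0,0), (1,0,0), (0,1,0), (0,0,1), (1,1,0), (1,0,1), (0,2,0),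
  (0,3,0), (1,2,0), (1,1,1), (1,3,0), (1,2,1)]

def dg (i : Fin 12) : ℤ × ℤ := ((eU i).1 + (eU i).2.2, (eU i).2.1 + (eU i).2.2)

def hF (a : ℤ × ℤ) : ℕ := Fintype.card {i // dg i = a}

noncomputable abbrev mo (T : Type u) [CommRing T] (i j k : ℕ) : MvPolynomial (Fin 3) T :=
  monomial (mm i j k) 1

noncomputable def JF (a : T) : Ideal (MvPolynomial (Fin 3) T) :=
  Ideal.span {mo T 2 0 0, mo T 1 2 0 - a • mo T 0 1 1, mo T 1 1 1 - a • mo T 0 0 2, mo T 1 0 2,
    mo T 0 4 0, mo T 0 3 1, mo T 0 2 2, mo T 0 0 3}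

theorem wt (i j k : ℕ) : Finsupp.weight wF (mm i j k) = ((i + k : ℤ), (j + k : ℤ)) := by
  rw [weight_mm]; simp [wF]

noncomputable def lF (a : T) (i : Fin 12) : MvPolynomial (Fin 3) T →ₗ[T] T :=
  lcoeff T (mm (eU i).1 (eU i).2.1 (eU i).2.2) +
    (if 8 ≤ i.1 then a else 0) • lcoeff T (mm (eV i).1 (eV i).2.1 (eV i).2.2)

theorem lF_mo (a : T) (s : Fin 12) (i j k : ℕ) : lF a s (mo T i j k) =
    (if (i, j, k) = eU s then 1 else 0) +
      (if 8 ≤ s.1 then a else 0) * (if (i, j, k) = eV s then 1 else 0) := by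
  simp only [lF, LinearMap.add_apply, LinearMap.smul_apply, lcoeff_apply, coeff_monomial, mm_inj,
    Prod.ext_iff, smul_eq_mul]

theorem JF_ker {a : T} (ha : a * a = 0) : ∀ f ∈ JF a, ∀ s, lF a s f = 0 := by
  have hK : ∀ i, ∀ f ∈ (⨅ s, LinearMap.ker (lF a s)), X i * f ∈ (⨅ s, LinearMap.ker (lF a s)) := by
    intro i f hf
    simp only [Submodule.mem_iInf, LinearMap.mem_ker] at hf ⊢
    have h0 := hf 0; have h1 := hf 1; have h2 := hf 2; have h3 := hf 3; have h4 := hf 4
    have h5 := hf 5; have h6 := hf 6; have h7 := hf 7; have h8 := hf 8; have h9 := hf 9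
    have h10 := hf 10; have h11 := hf 11
    simp [lF, eU, eV] at h0 h1 h2 h3 h4 h5 h6 h7 h8 h9 h10 h11
    intro s
    fin_cases i <;> fin_cases s <;>
      simp [lF, eU, eV, coeff_X0, coeff_X1, coeff_X2, h0, h1, h2, h3, h4, h5, h6, h7, h8, h9]
    · linear_combination a * h8 - coeff (mm 1 2 0) f * ha
    · linear_combination a * h10 - coeff (mm 1 3 0) f * ha
  have : JF a ≤ idealOf _ hK := by
    rw [JF, Ideal.span_le]
    intro f hf
    change f ∈ (⨅ s, LinearMap.ker (lF a s))
    simp only [Submodule.mem_iInf, LinearMap.mem_ker]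
    intro s
    simp only [Set.mem_insert_iff, Set.mem_singleton_iff] at hf
    rcases hf with rfl | rfl | rfl | rfl | rfl | rfl | rfl | rfl <;> fin_cases s <;>
      simp [lF_mo, eU, eV]
  intro f hf s
  have h1 : f ∈ (⨅ s, LinearMap.ker (lF a s)) := this hf
  exact (Submodule.mem_iInf _).1 h1 s

theorem JF_point {a : T} (ha : a * a = 0) : IsHilbPoint wF hF T (JF a) := by
  have hl : ∀ i j, lF a i (mo T (eU j).1 (eU j).2.1 (eU j).2.2) = if i = j then 1 else 0 := by
    intro i j
    rw [lF_mo]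
    fin_cases i <;> fin_cases j <;> simp [eU, eV]
  refine isHilbPoint_of_func dg (fun s => mo T (eU s).1 (eU s).2.1 (eU s).2.2)
    (fun s => isWeightedHomogeneous_monomial _ _ _ (wt _ _ _)) (lF a) hl ?_ ?_
  · intro s d hd
    rw [mm_eta d] at hd ⊢
    rw [wt] at hd
    rw [lF_mo, if_neg, if_neg (c := _ = eV s)]
    · simp
    · intro h; apply hd
      obtain ⟨h1, h2, h3⟩ : d 0 = (eV s).1 ∧ d 1 = (eV s).2.1 ∧ d 2 = (eV s).2.2 := by
        simp [← h]
      rw [h1, h2, h3]; clear hd h h1 h2 h3; revert s; decide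
    · intro h; apply hd
      simp [dg, ← h]
  · refine mem_iff_func _ _ hl (JF_ker ha) fun d => ?_
    rw [mm_eta d]
    generalize d 0 = i, d 1 = j, d 2 = k
    have g : ∀ f ∈ ({mo T 2 0 0, mo T 1 2 0 - a • mo T 0 1 1, mo T 1 1 1 - a • mo T 0 0 2,
      mo T 1 0 2, mo T 0 4 0, mo T 0 3 1, mo T 0 2 2, mo T 0 0 3} : Set _), f ∈ JF a :=
      fun f hf => Ideal.subset_span hf
    have g1 := g (mo T 2 0 0) (by simp)
    have g2 := g (mo T 1 2 0 - a • mo T 0 1 1) (by simp)
    have g3 := g (mo T 1 1 1 - a • mo T 0 0 2) (by simp)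
    have g4 := g (mo T 1 0 2) (by simp)
    have g5 := g (mo T 0 4 0) (by simp)
    have g6 := g (mo T 0 3 1) (by simp)
    have g7 := g (mo T 0 2 2) (by simp)
    have g8 := g (mo T 0 0 3) (by simp)
    rw [← one_smul T (mo T 1 2 0)] at g2
    have g9 : mo T 1 3 1 ∈ JF a := by
      simpa using (JF a).add_mem (binom_mem g2 0 1 1) (smul_mem_of a g7)
    have hb : ∀ s : Fin 12, mo T (eU s).1 (eU s).2.1 (eU s).2.2 ∈ (JF a).restrictScalars T ⊔
        Submodule.span T (Set.range fun s => mo T (eU s).1 (eU s).2.1 (eU s).2.2) :=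
      fun s => Submodule.mem_sup_right (Submodule.subset_span ⟨s, rfl⟩)
    have hc : ∀ (s : Fin 12) (f : MvPolynomial (Fin 3) T),
        f - a • mo T (eU s).1 (eU s).2.1 (eU s).2.2 ∈ JF a → f ∈ (JF a).restrictScalars T ⊔
        Submodule.span T (Set.range fun s => mo T (eU s).1 (eU s).2.1 (eU s).2.2) := by
      intro s f hf
      simpa using Submodule.add_mem _ (Submodule.mem_sup_left (S := (JF a).restrictScalars T) hf)
        (Submodule.smul_mem _ a (hb s))
    by_cases c1 : 2 ≤ i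
    · exact Submodule.mem_sup_left (mono_mem' g1 c1 (by omega) (by omega))
    by_cases c2 : 4 ≤ j
    · exact Submodule.mem_sup_left (mono_mem' g5 (by omega) c2 (by omega))
    by_cases c3 : 3 ≤ k
    · exact Submodule.mem_sup_left (mono_mem' g8 (by omega) (by omega) c3)
    by_cases c4 : 1 ≤ i ∧ 2 ≤ k
    · exact Submodule.mem_sup_left (mono_mem' g4 c4.1 (by omega) c4.2)
    by_cases c5 : 3 ≤ j ∧ 1 ≤ k
    · exact Submodule.mem_sup_left (mono_mem' g6 (by omega) c5.1 c5.2)
    by_cases c6 : 2 ≤ j ∧ 2 ≤ k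
    · exact Submodule.mem_sup_left (mono_mem' g7 (by omega) c6.1 c6.2)
    push Not at c1 c2 c3
    interval_cases i <;> interval_cases j <;> interval_cases k <;>
      first
      | omega
      | exact hb 0 | exact hb 1 | exact hb 2 | exact hb 3 | exact hb 4 | exact hb 5 | exact hb 6
      | exact hb 7 | exact hb 8 | exact hb 9 | exact hb 10 | exact hb 11
      | exact hc 9 _ g3
      | exact hc 8 _ (by simpa [eU] using g2)
      | exact hc 10 _ (by simpa [eU] using binom_mem g2 0 1 0)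
      | exact hc 11 _ (by simpa [eU] using binom_mem g2 0 0 1)

theorem exists_JF {I : Ideal (MvPolynomial (Fin 3) T)} (hI : IsHilbPoint wF hF T I) :
    ∃ a : T, a * a = 0 ∧ JF a = I := by
  have z : ∀ i j k : ℕ, hF (i + k, j + k) = 0 → mo T i j k ∈ I := fun i j k h =>
    mem_of_zero hI h (isWeightedHomogeneous_monomial _ _ _ (wt i j k))
  have g1 := z 2 0 0 (by decide)
  have d12 : ∀ d, Finsupp.weight wF d = (1, 2) → d = mm 1 2 0 ∨ d = mm 0 1 1 ∨
      monomial d (1 : T) ∈ I := by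
    intro d hd
    rw [mm_eta d] at hd ⊢
    rw [wt, Prod.mk.injEq] at hd
    rw [mm_inj, mm_inj]; omega
  have d22 : ∀ d, Finsupp.weight wF d = (2, 2) → d = mm 1 1 1 ∨ d = mm 0 0 2 ∨
      monomial d (1 : T) ∈ I := by
    intro d hd
    rw [mm_eta d] at hd ⊢
    rw [wt, Prod.mk.injEq] at hd
    rw [mm_inj, mm_inj]
    by_cases c : 2 ≤ d 0
    · exact Or.inr (Or.inr (mono_mem' g1 c (by omega) (by omega)))
    · omega
  have d23 : ∀ d, Finsupp.weight wF d = (2, 3) → d = mm 1 2 1 ∨ d = mm 0 1 2 ∨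
      monomial d (1 : T) ∈ I := by
    intro d hd
    rw [mm_eta d] at hd ⊢
    rw [wt, Prod.mk.injEq] at hd
    rw [mm_inj, mm_inj]
    by_cases c : 2 ≤ d 0
    · exact Or.inr (Or.inr (mono_mem' g1 c (by omega) (by omega)))
    · omega
  have g220 : mo T 2 2 0 ∈ I := mono_mem' g1 le_rfl (by omega) le_rfl
  obtain ⟨a, ha⟩ := gen_of hI (a := (1, 2)) (by decide) _ _ (by rw [wt]; rfl) (by rw [wt]; rfl) d12
    (fun s t _ h => by
      have h1 : s • mo T 1 1 1 ∈ I := by
        simpa using I.add_mem (binom_mem h 1 0 0) (smul_mem_of t g220)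
      have h2 : s • mo T 1 2 1 ∈ I := mono_mem h1 le_rfl (by omega) le_rfl
      refine kill hI (a := (2, 3)) (by decide) _ _ d23 _ (by
        rw [mul_smul]; exact smul_mem_of s h2) ?_
      have := I.add_mem (smul_mem_of s (binom_mem h 0 0 1)) (smul_mem_of t h2)
      convert this using 1
      simp only [smul_eq_C_mul, map_mul]; ring)
  rw [← one_smul T (monomial (mm 1 2 0) (1 : T))] at ha
  have ha1 : a • mo T 1 1 1 ∈ I := by
    simpa using I.sub_mem g220 (binom_mem ha 1 0 0)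
  obtain ⟨c, hc⟩ := gen_of hI (a := (2, 2)) (by decide) _ _ (by rw [wt]; rfl) (by rw [wt]; rfl) d22
    (fun s t h0 h => by
      have h1 := h0 a ha1
      have h2 : s • mo T 1 2 1 ∈ I := by
        have := smul_mem_of s (binom_mem ha 0 0 1)
        rwa [smul_sub, smul_smul, smul_smul, mul_comm s a, h1, zero_smul, sub_zero, mul_one] at this
      refine kill hI (a := (2, 3)) (by decide) _ _ d23 _ (by
        rw [mul_smul]; exact smul_mem_of s h2) ?_
      have := I.add_mem (smul_mem_of s (binom_mem h 0 1 0)) (smul_mem_of t h2)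
      convert this using 1
      simp only [smul_eq_C_mul, map_mul]; ring)
  rw [← one_smul T (monomial (mm 1 1 1) (1 : T))] at hc
  have hac : a - c = 0 := by
    have h1 : (a - c) • mo T 0 1 2 ∈ I := by
      have := I.sub_mem (binom_mem hc 0 1 0) (binom_mem ha 0 0 1)
      convert this using 1
      simp only [smul_eq_C_mul, map_sub]; ring
    refine kill hI (a := (2, 3)) (by decide) _ _ d23 _ ?_ h1
    have := I.add_mem (smul_mem_of (a - c) (binom_mem ha 0 0 1)) (smul_mem_of a h1)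
    convert this using 1
    simp only [smul_eq_C_mul, map_sub, map_one]; ring
  obtain rfl : a = c := sub_eq_zero.1 hac
  have haa : a * a = 0 := by
    refine kill hI (a := (2, 2)) (by decide) _ _ d22 _ (by
      rw [mul_smul]; exact smul_mem_of a ha1) ?_
    have := I.sub_mem ha1 (smul_mem_of a hc)
    convert this using 1
    simp only [smul_eq_C_mul, map_mul, map_one]; ring
  refine ⟨a, haa, eq_of_le hI (JF_point haa) ?_⟩
  rw [JF, Ideal.span_le]
  intro f hf
  simp only [Set.mem_insert_iff, Set.mem_singleton_iff] at hf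
  rw [one_smul] at ha hc
  rcases hf with rfl | rfl | rfl | rfl | rfl | rfl | rfl | rfl
  · exact g1
  · exact ha
  · exact hc
  · exact z 1 0 2 (by decide)
  · exact z 0 4 0 (by decide)
  · exact z 0 3 1 (by decide)
  · exact z 0 2 2 (by decide)
  · exact z 0 0 3 (by decide)

theorem JF_inj {a c : T} (ha : a * a = 0) (h : JF a = JF c) : a = c := by
  have h1 : mo T 1 2 0 - c • mo T 0 1 1 ∈ JF a := h ▸ Ideal.subset_span (by simp)
  have := JF_ker ha _ h1 8
  simp [lF_mo, eU, eV] at this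
  exact sub_eq_zero.1 this

theorem JF_map {B : Type u} [CommRing B] (φ : B →+* T) (a : B) :
    (JF a).map (MvPolynomial.map φ) = JF (φ a) := by
  simp only [JF, Ideal.map_span, Set.image_insert_eq, Set.image_singleton, map_sub, smul_eq_C_mul,
    map_mul, map_C, mo, map_monomial, map_one]

theorem represents (k : Type u) [Field k] :
    Represents k wF hF (DualNumber k) (JF DualNumber.eps) := by
  intro T _ _
  refine ⟨fun φ => ?_, fun I hI => ?_⟩
  · rw [JF_map]
    exact JF_point (by rw [← map_mul, DualNumber.eps_mul_eps, map_zero])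
  · obtain ⟨a, ha, rfl⟩ := exists_JF hI
    let φ : DualNumber k →ₐ[k] T :=
      DualNumber.lift ⟨(Algebra.ofId k T, a), ha, fun _ => Commute.all _ _⟩
    have hφ : φ DualNumber.eps = a := DualNumber.lift_apply_eps _
    refine ⟨φ, by simp only; rw [JF_map]; exact congrArg JF hφ, fun ψ hψ => ?_⟩
    simp only at hψ
    rw [JF_map] at hψ
    refine DualNumber.algHom_ext ?_
    rw [hφ]
    exact (JF_inj ha hψ.symm).symm

end Pool.Agent.H79.MH.Fat
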