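import Mathlib

set_option autoImplicit false
set_option linter.unusedSectionVars false
set_option linter.unusedSimpArgs false

namespace Pool.Agent.H79.Mg

open MonoidAlgebra PowerSeries

variable (k : Type) [Field k] {Y N : Type} [Monoid N]

/-- series over a monoid algebra -/
abbrev B (N : Type) [Monoid N] := PowerSeries (MonoidAlgebra k N)

/-- the unit `1 + T y` -/
noncomputable def uy (y : N) : (B k N)ˣ where
  val := 1 + X * C (single y 1)
  inv := mk fun n => single (y ^ n) ((-1) ^ n)
  val_inv := by
    ext1 n
    cases n with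
    | zero => simp [add_mul, mul_assoc, one_def]
    | succ n =>
      rw [add_mul, one_mul, mul_assoc, map_add, coeff_succ_X_mul, coeff_C_mul, coeff_mk, coeff_mk,
        single_mul_single, PowerSeries.coeff_one, if_neg (Nat.succ_ne_zero n), ← pow_succ',
        ← single_add]
      simp [pow_succ]
  inv_val := by
    ext1 n
    cases n with
    | zero => simp [mul_add, one_def]
    | succ n =>
      rw [mul_add, mul_one, X_mul, ← mul_assoc, map_add, coeff_succ_mul_X, coeff_mul_C, coeff_mk,
        coeff_mk, single_mul_single, PowerSeries.coeff_one, if_neg (Nat.succ_ne_zero n), ← pow_succ,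
        ← single_add]
      simp [pow_succ]

/-- constants -/
noncomputable def cst : N →* B k N :=
  ((C : MonoidAlgebra k N →+* B k N) : MonoidAlgebra k N →* B k N).comp (of k N)

theorem cst_apply (w : N) : cst k w = C (single w 1) := rfl

/-- twisted Magnus map on the group -/
noncomputable def mag (u : Y → Nˣ) (y : Y → N) : FreeGroup Y →* (B k N)ˣ :=
  FreeGroup.lift fun i => uy k (y i) * Units.map (cst k) (u i)

/-- twisted Magnus map on the group algebra -/
noncomputable def mu (u : Y → Nˣ) (y : Y → N) : MonoidAlgebra k (FreeGroup Y) →ₐ[k] B k N :=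
  MonoidAlgebra.lift k _ _ ((Units.coeHom _).comp (mag k u y))

theorem mu_single (u : Y → Nˣ) (y : Y → N) (g : FreeGroup Y) (c : k) :
    mu k u y (single g c) = c • (mag k u y g : B k N) := by
  simp [mu]

theorem mu_apply (u : Y → Nˣ) (y : Y → N) (r : MonoidAlgebra k (FreeGroup Y)) :
    mu k u y r = ∑ g ∈ r.coeff.support, r.coeff g • (mag k u y g : B k N) := by
  rw [mu, lift_apply]; rfl

section Fox
variable [DecidableEq Y]

/-- plain Magnus map -/
noncomputable abbrev mu0 : MonoidAlgebra k (FreeGroup Y) →ₐ[k] B k (FreeMonoid Y) :=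
  mu k (fun _ => 1) FreeMonoid.of

theorem cons_inj (j : Y) : Function.Injective fun w : FreeMonoid Y => FreeMonoid.of j * w :=
  fun _ _ h => mul_left_cancel h

/-- left division by a letter -/
noncomputable def dv (j : Y) : B k (FreeMonoid Y) →ₗ[k] B k (FreeMonoid Y) where
  toFun f := mk fun m => comapDomain _ (cons_inj j) (PowerSeries.coeff (m + 1) f)
  map_add' f g := by ext m w; simp
  map_smul' c f := by ext m w; simp

theorem dv_coeff (j : Y) (f : B k (FreeMonoid Y)) (m : ℕ) (w : FreeMonoid Y) :
    (PowerSeries.coeff m (dv k j f)).coeff w =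
      (PowerSeries.coeff (m + 1) f).coeff (FreeMonoid.of j * w) := by
  simp [dv]

theorem dv_one (j : Y) : dv k j 1 = 0 := by
  ext m w
  rw [dv_coeff, PowerSeries.coeff_one, if_neg (Nat.succ_ne_zero m)]
  simp

theorem dv_uy (i j : Y) (f : B k (FreeMonoid Y)) :
    dv k j ((uy k (FreeMonoid.of i) : B k _) * f) = dv k j f + if i = j then f else 0 := by
  ext m w
  have : (uy k (FreeMonoid.of i) : B k _) = 1 + X * C (single (FreeMonoid.of i) 1) := rfl
  rw [dv_coeff, this, add_mul, one_mul, mul_assoc, map_add, coeff_succ_X_mul, coeff_C_mul,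
    map_add, coeff_add, coeff_add, Finsupp.add_apply, Finsupp.add_apply, dv_coeff]
  congr 1
  split_ifs with h
  · subst h
    rw [coeff_single_mul_mul, one_mul]
  · rw [coeff_single_mul_of_forall_mul_ne]
    · simp
    · intro d hd
      apply h
      have := congrArg FreeMonoid.toList hd
      simp only [FreeMonoid.toList_mul, FreeMonoid.toList_of, List.singleton_append,
        List.cons.injEq] at this
      exact this.1

/-- Fox derivative of a word -/
noncomputable def dl (j : Y) : List (Y × Bool) → MonoidAlgebra k (FreeGroup Y)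
  | [] => 0
  | (i, true) :: L => dl j L + if i = j then single (FreeGroup.mk L) 1 else 0
  | (i, false) :: L => dl j L - if i = j then single (FreeGroup.mk ((i, false) :: L)) 1 else 0

theorem mk_true (i : Y) (L : List (Y × Bool)) :
    FreeGroup.mk ((i, true) :: L) = FreeGroup.of i * FreeGroup.mk L := by
  rw [FreeGroup.of, FreeGroup.mul_mk]; rfl

theorem mk_false (i : Y) (L : List (Y × Bool)) :
    FreeGroup.of i * FreeGroup.mk ((i, false) :: L) = FreeGroup.mk L := by
  have : FreeGroup.mk ((i, false) :: L) = (FreeGroup.of i)⁻¹ * FreeGroup.mk L := by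
    rw [FreeGroup.of, FreeGroup.inv_mk, FreeGroup.mul_mk]; rfl
  rw [this, mul_inv_cancel_left]

theorem mu0_of (i : Y) (g : FreeGroup Y) :
    mu0 k (single (FreeGroup.of i * g) 1) =
      (uy k (FreeMonoid.of i) : B k _) * mu0 k (single g 1) := by
  simp [mu_single, mag]

theorem dv_word (j : Y) (L : List (Y × Bool)) :
    dv k j (mu0 k (single (FreeGroup.mk L) 1)) = mu0 k (dl k j L) := by
  induction L with
  | nil =>
    have : (single (FreeGroup.mk ([] : List (Y × Bool))) 1 : MonoidAlgebra k _) = 1 := rfl
    rw [this, map_one, dv_one, dl, map_zero]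
  | cons x L ih =>
    obtain ⟨i, b⟩ := x
    cases b with
    | true =>
      rw [mk_true, mu0_of, dv_uy, ih, dl, map_add]
      split_ifs <;> simp
    | false =>
      have h := dv_uy k i j (mu0 k (single (FreeGroup.mk ((i, false) :: L)) 1))
      rw [← mu0_of, mk_false, ih] at h
      rw [dl, map_sub, h]
      split_ifs <;> simp

/-- Fox derivative -/
noncomputable def dd (j : Y) (r : MonoidAlgebra k (FreeGroup Y)) : MonoidAlgebra k (FreeGroup Y) :=
  ∑ g ∈ r.coeff.support, r.coeff g • dl k j g.toWord

theorem mu0_dd (j : Y) (r : MonoidAlgebra k (FreeGroup Y)) :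
    mu0 k (dd k j r) = dv k j (mu0 k r) := by
  rw [dd, map_sum, mu_apply k _ _ r, map_sum]
  refine Finset.sum_congr rfl fun g _ => ?_
  rw [map_smul, map_smul, ← dv_word, FreeGroup.mk_toWord, mu_single, one_smul]

/-- signed multiplier -/
noncomputable def sg (j : Y) : Bool → MonoidAlgebra k (FreeGroup Y)
  | true => single (FreeGroup.of j) 1
  | false => -1

theorem sg_dl (j : Y) (b : Bool) (L : List (Y × Bool)) (h : FreeGroup Y) (hh : L.length ≤ h.norm) :
    (sg k j b * dl k j L).coeff h =
      if L.head? = some (j, b) ∧ h = FreeGroup.mk L then 1 else 0 := by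
  induction L with
  | nil => simp [dl]
  | cons x L ih =>
    obtain ⟨i, c⟩ := x
    have hL : L.length < h.norm := hh
    have hne : FreeGroup.mk L ≠ h := by
      intro e
      have := FreeGroup.norm_mk_le (L₁ := L)
      rw [e] at this
      omega
    have ih' : (sg k j b * dl k j L).coeff h = 0 := by
      rw [ih hL.le, if_neg]
      exact fun e => hne e.2.symm
    by_cases hij : i = j
    · subst hij
      cases c <;> cases b
      · rw [dl, if_pos rfl, mul_sub, coeff_sub, Finsupp.sub_apply, ih']
        simp [sg, Finsupp.single_apply, eq_comm]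
      · rw [dl, if_pos rfl, mul_sub, coeff_sub, Finsupp.sub_apply, ih']
        simp [sg, single_mul_single, mk_false, Finsupp.single_apply, hne]
      · rw [dl, if_pos rfl, mul_add, coeff_add, Finsupp.add_apply, ih']
        simp [sg, Finsupp.single_apply, hne]
      · rw [dl, if_pos rfl, mul_add, coeff_add, Finsupp.add_apply, ih']
        simp [sg, single_mul_single, mk_true, Finsupp.single_apply, eq_comm]
    · cases c
      · rw [dl, if_neg hij, sub_zero, ih']
        simp [hij]
      · rw [dl, if_neg hij, add_zero, ih']
        simp [hij]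

theorem sg_dd (j : Y) (b : Bool) (r : MonoidAlgebra k (FreeGroup Y)) (h : FreeGroup Y)
    (hh : ∀ g, r.coeff g ≠ 0 → g.norm ≤ h.norm) :
    (sg k j b * dd k j r).coeff h = if h.toWord.head? = some (j, b) then r.coeff h else 0 := by
  rw [dd, Finset.mul_sum, coeff_sum, Finsupp.finsetSum_apply]
  have : ∀ g ∈ r.coeff.support, (sg k j b * (r.coeff g • dl k j g.toWord)).coeff h =
      if g = h then (if h.toWord.head? = some (j, b) then r.coeff h else 0) else 0 := by
    intro g hg
    rw [mul_smul_comm, coeff_smul_apply, sg_dl k j b _ h (hh g (Finsupp.mem_support_iff.1 hg)),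
      FreeGroup.mk_toWord]
    by_cases e : g = h
    · subst e; simp
    · simp [e, Ne.symm e]
  rw [Finset.sum_congr rfl this, Finset.sum_ite_eq']
  split_ifs with h1 h2 h3
  · rfl
  · rfl
  · exact (Finsupp.notMem_support_iff.1 h1).symm
  · rfl

theorem sg_zero (j : Y) (b : Bool) (r : MonoidAlgebra k (FreeGroup Y)) (h : sg k j b * r = 0) :
    r = 0 := by
  cases b
  · simpa [sg] using h
  · have : single (FreeGroup.of j)⁻¹ (1 : k) * (sg k j true * r) = r := by
      rw [← mul_assoc, sg, single_mul_single, inv_mul_cancel, one_mul, ← one_def, one_mul]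
    rw [← this, h, mul_zero]

theorem mu0_aux (L : ℕ) : ∀ r : MonoidAlgebra k (FreeGroup Y), mu0 k r = 0 →
    (∀ g, r.coeff g ≠ 0 → g.norm < L) → r = 0 := by
  induction L with
  | zero =>
    intro r _ h
    ext g
    by_contra hg
    exact absurd (h g hg) (Nat.not_lt_zero _)
  | succ L ih =>
    intro r hr h
    apply ih r hr
    intro g hg
    by_contra hlt
    have hgL : g.norm = L := by have := h g hg; omega
    have clo : ∀ (j : Y) (b : Bool) (s : MonoidAlgebra k (FreeGroup Y)), mu0 k s = 0 →
        mu0 k (sg k j b * dd k j s) = 0 := by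
      intro j b s hs
      rw [map_mul, mu0_dd, hs, map_zero, mul_zero]
    cases hw : g.toWord with
    | nil =>
      have hg1 : g = 1 := FreeGroup.toWord_eq_nil_iff.1 hw
      have hL : L = 0 := by rw [← hgL, hg1]; simp
      have hr1 : r = single 1 (r.coeff 1) := by
        ext x
        by_cases hx : x = 1
        · subst hx; simp
        · have : r.coeff x = 0 := by
            by_contra h0
            have := h x h0
            rw [hL] at this
            exact hx (FreeGroup.norm_eq_zero.1 (by omega))
          simp [this, Finsupp.single_apply, Ne.symm hx]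
      rw [hr1, mu_single, (mag k _ _).map_one, Units.val_one, smul_eq_zero] at hr
      rcases hr with hr | hr
      · exact hg (hg1 ▸ hr)
      · exact one_ne_zero hr
    | cons x W =>
      obtain ⟨j, b⟩ := x
      have hhead : g.toWord.head? = some (j, b) := by rw [hw]; rfl
      set s := sg k j b * dd k j r with hs
      have hs1 : ∀ x : FreeGroup Y, L ≤ x.norm →
          s.coeff x = if x.toWord.head? = some (j, b) then r.coeff x else 0 := fun x hx =>
        sg_dd k j b r x fun y hy => by have := h y hy; omega
      have hs2 : ∀ x, s.coeff x ≠ 0 → x.norm ≤ L := by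
        intro x hx
        by_contra h1
        rw [hs1 x (by omega)] at hx
        have : r.coeff x = 0 := by
          by_contra h0
          have := h x h0
          omega
        simp [this] at hx
      have hs0 : mu0 k s = 0 := clo j b r hr
      have h3 : sg k j (!b) * dd k j s = 0 := by
        apply ih _ (clo j (!b) s hs0)
        intro x hx
        by_contra h1
        rw [sg_dd k j (!b) s x (fun y hy => by have := hs2 y hy; omega), hs1 x (by omega)] at hx
        split_ifs at hx with h4 h5
        · rw [h4] at h5
          simp at h5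
        · exact hx rfl
        · exact hx rfl
      have h4 := sg_dd k j b s g fun y hy => by have := hs2 y hy; omega
      rw [sg_zero k j _ _ h3, mul_zero, if_pos hhead, hs1 g hgL.ge, if_pos hhead] at h4
      exact hg (by simpa using h4.symm)

omit [DecidableEq Y] in
theorem mu0_inj (r : MonoidAlgebra k (FreeGroup Y)) (hr : mu0 k r = 0) : r = 0 := by
  classical
  refine mu0_aux k (r.coeff.support.sup FreeGroup.norm + 1) r hr fun g hg => ?_
  exact Nat.lt_succ_of_le (Finset.le_sup (f := FreeGroup.norm) (Finsupp.mem_support_iff.2 hg))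

end Fox

theorem mu_inj (u : Y → Nˣ) (y : Y → N) (π : N →* FreeMonoid Y) (hu : ∀ i, π (u i) = 1)
    (hy : ∀ i, π (y i) = FreeMonoid.of i) (r : MonoidAlgebra k (FreeGroup Y))
    (hr : mu k u y r = 0) : r = 0 := by
  apply mu0_inj k r
  have : (PowerSeries.mapAlgHom (mapDomainAlgHom k k π)).comp (mu k u y) = mu0 k := by
    apply MonoidAlgebra.algHom_ext' _ (Subsingleton.elim _ _)
    apply FreeGroup.ext_hom
    intro i
    simp [mu_single, mag, uy, cst_apply, hu, hy, PowerSeries.mapAlgHom_apply, ← one_def]
  rw [← this, AlgHom.comp_apply, hr, map_zero]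

end Pool.Agent.H79.Mg
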