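import Mathlib

set_option autoImplicit false
set_option linter.unusedSectionVars false
set_option linter.unusedSimpArgs false

namespace Pool.Agent.H79.Mg

variable {Y : Type}

/-- normal forms of the free product of the integers and a free monoid -/
@[ext] structure W (Y : Type) where
  l : List (ℤ × Y)
  n : ℤ

/-- shift of a letter -/
def sh (c : ℤ) (x : ℤ × Y) : ℤ × Y := (x.1 + c, x.2)

theorem sh_zero (x : ℤ × Y) : sh 0 x = x := by simp [sh]

theorem sh_sh (c d : ℤ) (x : ℤ × Y) : sh c (sh d x) = sh (c + d) x := by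
  simp only [sh, Prod.mk.injEq, and_true]; ring

instance : Mul (W Y) := ⟨fun a b => ⟨a.l ++ b.l.map (sh a.n), a.n + b.n⟩⟩
instance : One (W Y) := ⟨⟨[], 0⟩⟩

@[simp] theorem mul_l (a b : W Y) : (a * b).l = a.l ++ b.l.map (sh a.n) := rfl
@[simp] theorem mul_n (a b : W Y) : (a * b).n = a.n + b.n := rfl
@[simp] theorem one_l : (1 : W Y).l = [] := rfl
@[simp] theorem one_n : (1 : W Y).n = 0 := rfl

instance : Monoid (W Y) where
  mul_assoc a b c := by
    ext1
    · simp [Function.comp_def, sh_sh]
    · simp [add_assoc]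
  one_mul a := by
    ext1
    · have : (sh 0 : ℤ × Y → ℤ × Y) = id := funext sh_zero
      simp [this]
    · simp
  mul_one a := by ext1 <;> simp

/-- the invertible letter -/
def ua (c : ℤ) : (W Y)ˣ where
  val := ⟨[], c⟩
  inv := ⟨[], -c⟩
  val_inv := by ext1 <;> simp
  inv_val := by ext1 <;> simp

/-- the free letters -/
def wy (i : Y) : W Y := ⟨[(0, i)], 0⟩

/-- forgetting the invertible letter -/
def pr : W Y →* FreeMonoid Y where
  toFun a := FreeMonoid.ofList (a.l.map Prod.snd)
  map_one' := rfl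
  map_mul' a b := by simp [Function.comp_def, sh, FreeMonoid.ofList_append]

variable [LinearOrder Y]

/-- infinite words -/
abbrev Om (Y : Type) := Lex (ℕ → ℤ ×ₗ Y)

/-- prepend a letter -/
def cns (x : ℤ × Y) (ω : Om Y) : Om Y :=
  toLex fun i => match i with
    | 0 => toLex x
    | i + 1 => ofLex ω i

/-- shift all letters -/
def shf (c : ℤ) (ω : Om Y) : Om Y := toLex fun i => toLex (sh c (ofLex (ofLex ω i)))

/-- the action on infinite words -/
def act (a : W Y) (ω : Om Y) : Om Y := a.l.foldr cns (shf a.n ω)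

theorem shf_cns (c : ℤ) (x : ℤ × Y) (ω : Om Y) : shf c (cns x ω) = cns (sh c x) (shf c ω) := by
  apply ofLex.injective
  funext i
  cases i <;> rfl

theorem shf_foldr (c : ℤ) (l : List (ℤ × Y)) (ω : Om Y) :
    shf c (l.foldr cns ω) = (l.map (sh c)).foldr cns (shf c ω) := by
  induction l with
  | nil => rfl
  | cons x l ih => simp [shf_cns, ih]

theorem shf_shf (c d : ℤ) (ω : Om Y) : shf c (shf d ω) = shf (c + d) ω := by
  apply ofLex.injective
  funext i
  simp [shf, sh_sh]

theorem act_mul (a b : W Y) (ω : Om Y) : act (a * b) ω = act a (act b ω) := by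
  simp [act, shf_foldr, shf_shf]

theorem act_one (ω : Om Y) : act 1 ω = ω := by
  apply ofLex.injective
  funext i
  simp [act, shf, sh_zero]

theorem lt_def (ω ω' : Om Y) : ω < ω' ↔
    ∃ i, (∀ j < i, ofLex ω j = ofLex ω' j) ∧ ofLex ω i < ofLex ω' i := Iff.rfl

theorem cns_mono (x : ℤ × Y) : StrictMono (cns x : Om Y → Om Y) := by
  intro ω ω' h
  obtain ⟨i, h1, h2⟩ := (lt_def _ _).1 h
  refine (lt_def _ _).2 ⟨i + 1, fun j hj => ?_, h2⟩
  cases j with
  | zero => rfl
  | succ j => exact h1 j (by omega)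

theorem shf_mono (c : ℤ) : StrictMono (shf c : Om Y → Om Y) := by
  intro ω ω' h
  obtain ⟨i, h1, h2⟩ := (lt_def _ _).1 h
  refine (lt_def _ _).2 ⟨i, fun j hj => ?_, ?_⟩
  · simp only [shf, ofLex_toLex]
    rw [h1 j hj]
  · simp only [shf, ofLex_toLex]
    rw [Prod.Lex.lt_iff] at h2 ⊢
    simpa [sh] using h2

theorem act_mono (a : W Y) : StrictMono (act a) := by
  have : ∀ l : List (ℤ × Y), StrictMono fun ω : Om Y => l.foldr cns ω := by
    intro l
    induction l with
    | nil => exact strictMono_id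
    | cons x l ih => exact (cns_mono x).comp ih
  exact (this a.l).comp (shf_mono a.n)

/-- agreement of initial segments -/
def Ag (m : ℕ) (ω ω' : Om Y) : Prop := ∀ i < m, ofLex ω i = ofLex ω' i

theorem Ag.act (a : W Y) {m : ℕ} {ω ω' : Om Y} (h : Ag m ω ω') :
    Ag (m + a.l.length) (act a ω) (act a ω') := by
  have h0 : Ag m (shf a.n ω) (shf a.n ω') := fun i hi => by
    simp only [shf, ofLex_toLex]
    rw [h i hi]
  have : ∀ l : List (ℤ × Y),
      Ag (m + l.length) (l.foldr cns (shf a.n ω)) (l.foldr cns (shf a.n ω')) := by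
    intro l
    induction l with
    | nil => exact h0
    | cons x l ih =>
      intro i hi
      cases i with
      | zero => rfl
      | succ i => exact ih i (by simp at hi; omega)
  exact this a.l

theorem act_uniq (a b : W Y) (z : Om Y) (hl : a.l.length = b.l.length) (h : act a z = act b z) :
    a = b := by
  have : ∀ (l l' : List (ℤ × Y)) (ω ω' : Om Y), l.length = l'.length →
      l.foldr cns ω = l'.foldr cns ω' → l = l' ∧ ω = ω' := by
    intro l
    induction l with
    | nil =>
      intro l' ω ω' h1 h2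
      have : l' = [] := List.length_eq_zero_iff.1 h1.symm
      subst this
      exact ⟨rfl, h2⟩
    | cons x l ih =>
      intro l' ω ω' h1 h2
      cases l' with
      | nil => simp at h1
      | cons x' l' =>
        have e0 : toLex x = toLex x' := congrFun (congrArg ofLex h2) 0
        have e1 : l.foldr cns ω = l'.foldr cns ω' := by
          apply ofLex.injective
          funext i
          exact congrFun (congrArg ofLex h2) (i + 1)
        obtain ⟨h3, h4⟩ := ih l' ω ω' (by simpa using h1) e1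
        exact ⟨by rw [h3, toLex.injective e0], h4⟩
  obtain ⟨h1, h2⟩ := this _ _ _ _ hl h
  ext1
  · exact h1
  · have := congrFun (congrArg ofLex h2) 0
    simp only [shf, ofLex_toLex, toLex_inj, sh, Prod.mk.injEq, and_true] at this
    omega

theorem ag_pow (a : W Y) (ha : 1 ≤ a.l.length) (n : ℕ) (ω ω' : Om Y) :
    Ag n (act (a ^ n) ω) (act (a ^ n) ω') := by
  induction n with
  | zero => intro i hi; omega
  | succ n ih =>
    rw [pow_succ', act_mul, act_mul]
    intro i hi
    exact ih.act a i (by omega)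

/-- attracting fixed point -/
def fx (ω0 : Om Y) (a : W Y) : Om Y := toLex fun i => ofLex (act (a ^ (i + 1)) ω0) i

theorem ag_fx (ω0 : Om Y) (a : W Y) (ha : 1 ≤ a.l.length) (n : ℕ) (ω : Om Y) :
    Ag n (act (a ^ n) ω) (fx ω0 a) := by
  intro i hi
  obtain ⟨d, rfl⟩ : ∃ d, n = i + 1 + d := ⟨n - (i + 1), by omega⟩
  rw [pow_add, act_mul]
  exact ag_pow a ha (i + 1) _ ω0 i (by omega)

theorem act_fx (ω0 : Om Y) (a : W Y) (ha : 1 ≤ a.l.length) : act a (fx ω0 a) = fx ω0 a := by
  apply ofLex.injective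
  funext i
  have := (ag_fx ω0 a ha i ω0).act a i (by omega)
  rw [← this, ← act_mul, ← pow_succ']
  rfl

theorem act_le (ω0 : Om Y) (a : W Y) (ha : 1 ≤ a.l.length) (z : Om Y) (hz : fx ω0 a ≤ z) :
    act a z ≤ z := by
  by_contra h
  rw [not_le] at h
  have h1 : ∀ n, act a z ≤ act (a ^ (n + 1)) z := by
    intro n
    induction n with
    | zero => simp
    | succ n ih =>
      rw [pow_succ', act_mul]
      exact (act_mono a).monotone (h.le.trans ih)
  obtain ⟨i, h2, h3⟩ := (lt_def _ _).1 (hz.trans_lt h)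
  have h4 := ag_fx ω0 a ha (i + 1) z
  have : act (a ^ (i + 1)) z < act a z :=
    (lt_def _ _).2 ⟨i, fun j hj => (h4 j (by omega)).trans (h2 j hj), by
      rw [h4 i (by omega)]; exact h3⟩
  exact absurd (h1 i) (not_le.2 this)

theorem exists_point (S : Set (W Y)) (hS : S.Finite) (hne : S.Nonempty)
    (hl : ∀ s ∈ S, 1 ≤ s.l.length) :
    ∃ z : Om Y, (∃ s ∈ S, act s z = z) ∧ ∀ s ∈ S, act s z ≤ z := by
  obtain ⟨s1, hs1⟩ := id hne
  obtain ⟨x, -⟩ := List.exists_mem_of_length_pos (hl s1 hs1)
  let ω0 : Om Y := toLex fun _ => toLex x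
  obtain ⟨s, hs, hmax⟩ := Set.exists_max_image S (fx ω0) hS hne
  exact ⟨fx ω0 s, ⟨s, hs, act_fx ω0 s (hl s hs)⟩, fun t ht =>
    act_le ω0 t (hl t ht) _ (hmax t ht)⟩

end Pool.Agent.H79.Mg
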