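import Pool.Agent.H79.Mg1
import Pool.Agent.H79.Mg2

set_option autoImplicit false
set_option linter.unusedSectionVars false
set_option linter.unusedSimpArgs false

namespace Pool.Agent.H79.Mg

open MonoidAlgebra PowerSeries

variable {k : Type} [Field k] {Y N : Type} [Monoid N]

/-- coefficients of a series -/
noncomputable def cf (f : B k N) (m : ℕ) (w : N) : k := (PowerSeries.coeff m f).coeff w

theorem cf_add (f g : B k N) (m : ℕ) (w : N) : cf (f + g) m w = cf f m w + cf g m w := by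
  simp [cf]

theorem cf_smul (c : k) (f : B k N) (m : ℕ) (w : N) : cf (c • f) m w = c * cf f m w := by
  simp [cf]

theorem cf_sum {ι : Type} (s : Finset ι) (f : ι → B k N) (m : ℕ) (w : N) :
    cf (∑ i ∈ s, f i) m w = ∑ i ∈ s, cf (f i) m w := by
  simp [cf, Finsupp.finsetSum_apply]

theorem cf_mul {f g : B k N} {m : ℕ} {w : N} (h : cf (f * g) m w ≠ 0) :
    ∃ i j a b, i + j = m ∧ a * b = w ∧ cf f i a ≠ 0 ∧ cf g j b ≠ 0 := by
  classical
  rw [cf, PowerSeries.coeff_mul, coeff_sum, Finsupp.finsetSum_apply] at h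
  obtain ⟨p, hp, h⟩ := Finset.exists_ne_zero_of_sum_ne_zero h
  have := support_coeff_mul_subset _ _ (Finsupp.mem_support_iff.2 h)
  obtain ⟨a, ha, b, hb, hab⟩ := Finset.mem_mul.1 this
  exact ⟨p.1, p.2, a, b, Finset.HasAntidiagonal.mem_antidiagonal.1 hp, hab, Finsupp.mem_support_iff.1 ha,
    Finsupp.mem_support_iff.1 hb⟩

theorem cf_cst {a : N} {c : k} {m : ℕ} {w : N} (h : cf (C (single a c) : B k N) m w ≠ 0) :
    m = 0 ∧ w = a := by
  classical
  rw [cf, PowerSeries.coeff_C] at h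
  split_ifs at h with h0
  · refine ⟨h0, ?_⟩
    by_contra h1
    simp [Finsupp.single_apply, Ne.symm h1] at h
  · simp at h

/-- series with support in a submonoid -/
def Sup (P : ℕ → N → Prop) (h1 : P 0 1) (hm : ∀ i j a b, P i a → P j b → P (i + j) (a * b)) :
    Subalgebra k (B k N) where
  carrier := {f | ∀ m w, cf f m w ≠ 0 → P m w}
  mul_mem' := by
    intro f g hf hg m w h
    obtain ⟨i, j, a, b, rfl, rfl, ha, hb⟩ := cf_mul h
    exact hm _ _ _ _ (hf _ _ ha) (hg _ _ hb)
  add_mem' := by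
    intro f g hf hg m w h
    rw [cf_add] at h
    by_cases h0 : cf f m w = 0
    · exact hg _ _ (by simpa [h0] using h)
    · exact hf _ _ h0
  algebraMap_mem' := by
    intro c m w h
    rw [PowerSeries.algebraMap_apply] at h
    obtain ⟨rfl, rfl⟩ := cf_cst (a := 1) h
    exact h1

open Classical in
/-- sum of coefficients over a set -/
noncomputable def Lq (Q : N → Prop) : MonoidAlgebra k N →ₗ[k] k :=
  (Finsupp.linearCombination k fun w => if Q w then (1 : k) else 0) ∘ₗ
    (coeffLinearEquiv k).toLinearMap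

open Classical in
theorem Lq_single (Q : N → Prop) (w : N) (c : k) : Lq Q (single w c) = if Q w then c else 0 := by
  simp [Lq]

open Classical in
theorem Lq_apply (Q : N → Prop) (a : MonoidAlgebra k N) :
    Lq Q a = ∑ w ∈ a.coeff.support, if Q w then a.coeff w else 0 := by
  simp [Lq, Finsupp.linearCombination_apply, Finsupp.sum]

theorem Lq_mul (Q Q1 Q2 : N → Prop) (a b : MonoidAlgebra k N)
    (h : ∀ x y, a.coeff x ≠ 0 → b.coeff y ≠ 0 → (Q (x * y) ↔ Q1 x ∧ Q2 y)) :
    Lq Q (a * b) = Lq Q1 a * Lq Q2 b := by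
  classical
  rw [MonoidAlgebra.mul_def, Finsupp.sum, map_sum, Lq_apply Q1, Lq_apply Q2, Finset.sum_mul_sum]
  refine Finset.sum_congr rfl fun x hx => ?_
  rw [Finsupp.sum, map_sum]
  refine Finset.sum_congr rfl fun y hy => ?_
  rw [Lq_single, h x y (Finsupp.mem_support_iff.1 hx) (Finsupp.mem_support_iff.1 hy)]
  by_cases h1 : Q1 x <;> by_cases h2 : Q2 y <;> simp [h1, h2]

/-- projection to a face -/
noncomputable def psi (P : ℕ → N → Prop) (h1 : P 0 1)
    (hm : ∀ i j a b, P i a → P j b → P (i + j) (a * b)) (Q : ℕ → N → Prop) (hq1 : Q 0 1)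
    (hq : ∀ i j a b, P i a → P j b → (Q (i + j) (a * b) ↔ Q i a ∧ Q j b)) :
    Sup (k := k) P h1 hm →ₐ[k] PowerSeries k where
  toFun f := PowerSeries.mk fun m => Lq (Q m) (PowerSeries.coeff m f.1)
  map_one' := by
    ext m
    rw [coeff_mk, OneMemClass.coe_one, PowerSeries.coeff_one, PowerSeries.coeff_one]
    split_ifs with h
    · subst h
      rw [one_def, Lq_single, if_pos hq1]
    · simp
  map_mul' f g := by
    ext m
    rw [coeff_mk, MulMemClass.coe_mul, PowerSeries.coeff_mul, PowerSeries.coeff_mul, map_sum]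
    refine Finset.sum_congr rfl fun p hp => ?_
    rw [coeff_mk, coeff_mk, ← Finset.HasAntidiagonal.mem_antidiagonal.1 hp]
    exact Lq_mul _ _ _ _ _ fun x y hx hy => hq _ _ _ _ (f.2 _ _ hx) (g.2 _ _ hy)
  map_zero' := by ext m; simp
  map_add' f g := by ext m; simp
  commutes' c := by
    ext m
    rw [coeff_mk, Subalgebra.coe_algebraMap, PowerSeries.algebraMap_apply,
      PowerSeries.algebraMap_apply, PowerSeries.coeff_C, PowerSeries.coeff_C]
    split_ifs with h
    · subst h
      have : algebraMap k (MonoidAlgebra k N) c = single 1 c := rfl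
      rw [this, Lq_single, if_pos hq1]
      rfl
    · simp

theorem psi_coeff (P : ℕ → N → Prop) (h1 : P 0 1)
    (hm : ∀ i j a b, P i a → P j b → P (i + j) (a * b)) (Q : ℕ → N → Prop) (hq1 : Q 0 1)
    (hq : ∀ i j a b, P i a → P j b → (Q (i + j) (a * b) ↔ Q i a ∧ Q j b))
    (f : Sup (k := k) P h1 hm) (m : ℕ) :
    PowerSeries.coeff m (psi P h1 hm Q hq1 hq f) = Lq (Q m) (PowerSeries.coeff m f.1) :=
  coeff_mk m fun m => Lq (Q m) (PowerSeries.coeff m f.1)

theorem to_laurent {R : Type} [Semiring R] [Algebra k R] (f : R →ₐ[k] PowerSeries k)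
    (hp : ∀ r, ∃ K, ∀ m, K ≤ m → PowerSeries.coeff m (f r) = 0)
    (hn : ∃ r m, 1 ≤ m ∧ PowerSeries.coeff m (f r) ≠ 0) :
    ∃ g : R →ₐ[k] LaurentPolynomial k, g.range ≠ ⊥ := by
  let ι : Polynomial k →ₐ[k] PowerSeries k := Polynomial.coeToPowerSeries.algHom k
  have hι : ∀ p, ι p = (p : PowerSeries k) := fun p => by
    simp [ι, Polynomial.coeToPowerSeries.algHom_apply]
  have hinj : Function.Injective ι := fun p q h => by
    rw [hι, hι] at h
    exact Polynomial.coe_inj.1 h
  have hr : ∀ r, f r ∈ ι.range := by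
    intro r
    obtain ⟨K, hK⟩ := hp r
    refine ⟨PowerSeries.trunc K (f r), ?_⟩
    change ι _ = _
    ext m
    rw [hι, Polynomial.coeff_coe, PowerSeries.coeff_trunc]
    split_ifs with h
    · rfl
    · exact (hK m (by omega)).symm
  let g0 : R →ₐ[k] Polynomial k :=
    (AlgEquiv.ofInjective ι hinj).symm.toAlgHom.comp (f.codRestrict ι.range hr)
  have hg0 : ∀ r, ι (g0 r) = f r := by
    intro r
    have := AlgEquiv.ofInjective_apply ι hinj (g0 r)
    rw [← this]
    simp [g0]
  refine ⟨Polynomial.toLaurentAlg.comp g0, fun h => ?_⟩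
  obtain ⟨r, m, hm, hne⟩ := hn
  have : Polynomial.toLaurentAlg (g0 r) ∈ (⊥ : Subalgebra k (LaurentPolynomial k)) :=
    h ▸ ⟨r, rfl⟩
  obtain ⟨c, hc⟩ := Algebra.mem_bot.1 this
  have h2 : g0 r = Polynomial.C c := by
    apply Polynomial.toLaurent_injective
    rw [Polynomial.toLaurent_C, ← Polynomial.toLaurentAlg_apply, ← hc]
    rfl
  apply hne
  rw [← hg0, h2, hι, Polynomial.coeff_coe, Polynomial.coeff_C, if_neg (by omega)]

end Pool.Agent.H79.Mg
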