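import Pool.Agent.H79.Mg3

set_option autoImplicit false
set_option linter.unusedSectionVars false
set_option linter.unusedSimpArgs false

namespace Pool.Agent.H79.Mg

open MonoidAlgebra PowerSeries

variable {k : Type} [Field k] {Y : Type} (χ : FreeGroup Y →* Multiplicative ℤ)

/-- twisted Magnus map attached to a character -/
noncomputable abbrev mg : FreeGroup Y →* (B k (W Y))ˣ :=
  mag k (fun i => ua (χ (FreeGroup.of i)).toAdd) wy

/-- its linear extension -/
noncomputable abbrev mt : MonoidAlgebra k (FreeGroup Y) →ₐ[k] B k (W Y) :=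
  mu k (fun i => ua (χ (FreeGroup.of i)).toAdd) wy

/-- homogeneity -/
def Hm (n : ℤ) (f : B k (W Y)) : Prop := ∀ m w, cf f m w ≠ 0 → w.l.length = m ∧ w.n = n

theorem Hm.mul {n n' : ℤ} {f g : B k (W Y)} (hf : Hm n f) (hg : Hm n' g) : Hm (n + n') (f * g) := by
  intro m w h
  obtain ⟨i, j, a, b, rfl, rfl, ha, hb⟩ := cf_mul h
  obtain ⟨h1, h2⟩ := hf _ _ ha
  obtain ⟨h3, h4⟩ := hg _ _ hb
  simp [h1, h2, h3, h4]

theorem wy_pow (i : Y) (n : ℕ) : (wy i ^ n).l.length = n ∧ (wy i ^ n).n = 0 := by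
  induction n with
  | zero => simp
  | succ n ih =>
    rw [pow_succ, mul_l, mul_n, List.length_append, List.length_map, ih.1, ih.2]
    exact ⟨rfl, rfl⟩

theorem Hm_cst (c : ℤ) : Hm c (cst k (ua c : (W Y)ˣ).val) := by
  intro m w h
  obtain ⟨rfl, rfl⟩ := cf_cst h
  exact ⟨rfl, rfl⟩

theorem Hm_inv (i : Y) : Hm 0 ((uy k (wy i))⁻¹ : (B k (W Y))ˣ).val := by
  classical
  intro m w h
  have : ((uy k (wy i))⁻¹ : (B k (W Y))ˣ).val =
    mk fun n => single (wy i ^ n) ((-1 : k) ^ n) := rfl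
  rw [this, cf, coeff_mk] at h
  have hw : w = wy i ^ m := by
    by_contra h1
    simp [Finsupp.single_apply, Ne.symm h1] at h
  rw [hw]
  exact wy_pow i m

theorem Hm_uy (i : Y) : Hm 0 (uy k (wy i)).val := by
  classical
  intro m w h
  have : (uy k (wy i)).val = 1 + X * C (single (wy i) 1) := rfl
  rw [this, cf_add] at h
  by_cases h0 : cf (1 : B k (W Y)) m w = 0
  · rw [h0, zero_add] at h
    cases m with
    | zero => simp [cf] at h
    | succ m =>
      rw [cf, coeff_succ_X_mul] at h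
      obtain ⟨rfl, rfl⟩ := cf_cst (a := wy i) h
      exact ⟨rfl, rfl⟩
  · obtain ⟨rfl, rfl⟩ := cf_cst (a := 1) (c := 1) h0
    exact ⟨rfl, rfl⟩

theorem Hm_mg (g : FreeGroup Y) : Hm (χ g).toAdd (mg (k := k) χ g).val := by
  induction g using FreeGroup.induction_on with
  | C1 =>
    intro m w h
    rw [map_one] at h
    obtain ⟨rfl, rfl⟩ := cf_cst (a := 1) (c := 1) h
    exact ⟨rfl, by simp⟩
  | of i =>
    have := (Hm_uy (k := k) i).mul (Hm_cst (χ (FreeGroup.of i)).toAdd)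
    rw [zero_add] at this
    simpa [mag] using this
  | inv_of i _ =>
    have := (Hm_cst (-(χ (FreeGroup.of i)).toAdd)).mul (Hm_inv (k := k) i)
    rw [add_zero] at this
    have e : (mg (k := k) χ (FreeGroup.of i)⁻¹).val =
        cst k (ua (-(χ (FreeGroup.of i)).toAdd) : (W Y)ˣ).val * ((uy k (wy i))⁻¹ : (B k (W Y))ˣ).val := by
      rw [map_inv, mg, mag, FreeGroup.lift_apply_of, mul_inv_rev]
      rfl
    rw [e, map_inv, toAdd_inv]
    exact this
  | mul g h hg hh =>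
    rw [map_mul, (mg χ).map_mul, toAdd_mul, Units.val_mul]
    exact hg.mul hh

theorem cf_mt (r : MonoidAlgebra k (FreeGroup Y)) (m : ℕ) (w : W Y) :
    cf (mt χ r) m w = ∑ g ∈ r.coeff.support, r.coeff g * cf (mg (k := k) χ g).val m w := by
  rw [mu_apply, cf_sum]
  exact Finset.sum_congr rfl fun g _ => cf_smul _ _ _ _

theorem mt_supp {r : MonoidAlgebra k (FreeGroup Y)} {m : ℕ} {w : W Y} (h : cf (mt χ r) m w ≠ 0) :
    w.l.length = m ∧ ∃ g ∈ r.coeff.support, w.n = (χ g).toAdd := by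
  rw [cf_mt] at h
  obtain ⟨g, hg, h⟩ := Finset.exists_ne_zero_of_sum_ne_zero h
  obtain ⟨h1, h2⟩ := Hm_mg χ g m w (right_ne_zero_of_mul h)
  exact ⟨h1, g, hg, h2⟩

/-- the evident map to Laurent polynomials -/
noncomputable def kap : MonoidAlgebra k (FreeGroup Y) →ₐ[k] LaurentPolynomial k :=
  MonoidAlgebra.lift k _ _
    { toFun := fun g => LaurentPolynomial.T (χ g).toAdd
      map_one' := by simp
      map_mul' := fun a b => by rw [map_mul, toAdd_mul, LaurentPolynomial.T_add] }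

theorem mg_zero (g : FreeGroup Y) :
    PowerSeries.coeff 0 (mg (k := k) χ g).val = single (ua (χ g).toAdd : (W Y)ˣ).val 1 := by
  let ea : Multiplicative ℤ →* W Y :=
    { toFun := fun n => (ua n.toAdd : (W Y)ˣ).val
      map_one' := rfl
      map_mul' := fun a b => by ext1 <;> simp [ua] }
  have : ((constantCoeff : B k (W Y) →+* MonoidAlgebra k (W Y)) : B k (W Y) →* _).comp
      ((Units.coeHom _).comp (mg (k := k) χ)) = (of k (W Y)).comp (ea.comp χ) := by
    apply FreeGroup.ext_hom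
    intro i
    simp [mag, uy, cst_apply, ea]
    try rfl
  rw [coeff_zero_eq_constantCoeff_apply]
  exact DFunLike.congr_fun this g

theorem cf_zero (r : MonoidAlgebra k (FreeGroup Y)) (n : ℤ) :
    cf (mt χ r) 0 (ua n : (W Y)ˣ).val = (kap χ r).coeff n := by
  classical
  rw [cf_mt, kap, lift_apply, Finsupp.sum, AddMonoidAlgebra.coeff_sum, Finsupp.finsetSum_apply]
  refine Finset.sum_congr rfl fun g _ => ?_
  rw [cf, mg_zero]
  simp [Finsupp.single_apply, ua]

theorem exists_pos (r : MonoidAlgebra k (FreeGroup Y)) (g0 : FreeGroup Y) (h : r.coeff g0 ≠ 0) :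
    ∃ m w, cf (mt χ r) m w ≠ 0 ∧ w.n = (χ g0).toAdd := by
  classical
  let r' : MonoidAlgebra k (FreeGroup Y) := .ofCoeff (r.coeff.filter fun g => χ g = χ g0)
  have h1 : r' ≠ 0 := by
    intro e
    apply h
    have := congrArg (fun x => x.coeff g0) e
    simpa [r'] using this
  have h2 : mt χ r' ≠ 0 := fun e => h1 (mu_inj k _ _ pr (fun _ => rfl) (fun _ => rfl) r' e)
  have : ∃ m w, cf (mt χ r') m w ≠ 0 := by
    by_contra h3
    push Not at h3
    apply h2
    ext m w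
    exact h3 m w
  obtain ⟨m, w, hw⟩ := this
  obtain ⟨-, g, hg, hn⟩ := mt_supp χ hw
  have hs : r'.coeff.support = r.coeff.support.filter fun g => χ g = χ g0 :=
    Finsupp.support_filter _ _
  rw [hs, Finset.mem_filter] at hg
  rw [hg.2] at hn
  refine ⟨m, w, ?_, hn⟩
  rw [cf_mt, hs, Finset.sum_filter] at hw
  rw [cf_mt]
  convert hw using 2 with x hx
  split_ifs with e
  · simp [r', e]
  · have : cf (mg (k := k) χ x).val m w = 0 := by
      by_contra h4
      apply e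
      have := (Hm_mg χ x m w h4).2
      rw [hn] at this
      exact Multiplicative.toAdd.injective this.symm
    rw [this, mul_zero]

theorem slope (D : ℕ → ℤ → Prop) (hfin : {n | ∃ m, D m n}.Finite) (hne : ∃ m n, 0 < n ∧ D m n) :
    ∃ m0 n0, 0 < n0 ∧ D m0 n0 ∧ ∀ m n, 0 < n → D m n → (m0 : ℤ) * n ≤ m * n0 := by
  let E : Set ℤ := {n | 0 < n ∧ ∃ m, D m n}
  have hE : E.Finite := hfin.subset fun n hn => hn.2
  obtain ⟨m1, n1, h1, h2⟩ := hne
  obtain ⟨n0, hn0, hmin⟩ := Set.exists_min_image E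
    (fun n => ((sInf {m | D m n} : ℕ) : ℚ) / n) hE ⟨n1, h1, m1, h2⟩
  refine ⟨sInf {m | D m n0}, n0, hn0.1, Nat.sInf_mem (s := {m | D m n0}) hn0.2, fun m n hn hD => ?_⟩
  have h3 := hmin n ⟨hn, m, hD⟩
  have h4 : sInf {m | D m n} ≤ m := Nat.sInf_le hD
  have p1 : (0 : ℚ) < n := by exact_mod_cast hn
  have p0 : (0 : ℚ) < n0 := by exact_mod_cast hn0.1
  rw [div_le_div_iff₀ p0 p1] at h3
  have h5 : ((sInf {m | D m n} : ℕ) : ℚ) ≤ m := by exact_mod_cast h4
  have : ((sInf {m | D m n0} : ℕ) : ℚ) * n ≤ m * n0 := h3.trans (by gcongr)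
  exact_mod_cast this

theorem core (Gs : Finset (MonoidAlgebra k (FreeGroup Y)))
    (h : ∃ r ∈ Gs, ∃ g, r.coeff g ≠ 0 ∧ 0 < (χ g).toAdd) :
    ∃ f : Algebra.adjoin k (Gs : Set (MonoidAlgebra k (FreeGroup Y))) →ₐ[k] LaurentPolynomial k,
      f.range ≠ ⊥ := by
  classical
  by_cases hc : ∃ r ∈ Gs, kap χ r ∉ (⊥ : Subalgebra k (LaurentPolynomial k))
  · obtain ⟨r, hr, hb⟩ := hc
    refine ⟨(kap χ).comp (Subalgebra.val _), fun e => hb ?_⟩
    exact e ▸ ⟨⟨r, Algebra.subset_adjoin hr⟩, rfl⟩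
  push Not at hc
  letI : LinearOrder Y := IsWellOrder.linearOrder WellOrderingRel
  have hz0 : ∀ r ∈ Gs, ∀ w, cf (mt χ r) 0 w ≠ 0 → w = 1 := by
    intro r hr w hw
    have h1 : w.l = [] := List.length_eq_zero_iff.1 (mt_supp χ hw).1
    have h2 : w = (ua w.n : (W Y)ˣ).val := by ext1 <;> simp [ua, h1]
    obtain ⟨c, hc'⟩ := Algebra.mem_bot.1 (hc r hr)
    rw [h2, cf_zero, ← hc', ← LaurentPolynomial.C_eq_algebraMap, LaurentPolynomial.C_apply] at hw
    have h3 : w.n = 0 := by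
      by_contra h4
      simp [h4] at hw
    ext1
    · exact h1
    · exact h3
  let D : ℕ → ℤ → Prop := fun m n => ∃ r ∈ Gs, ∃ w : W Y, cf (mt χ r) m w ≠ 0 ∧ w.n = n
  have hfin : {n | ∃ m, D m n}.Finite := by
    refine ((Gs.biUnion fun r => r.coeff.support).image fun g => (χ g).toAdd).finite_toSet.subset ?_
    rintro n ⟨m, r, hr, w, hw, rfl⟩
    obtain ⟨-, g, hg, hn⟩ := mt_supp χ hw
    exact Finset.mem_coe.2 (Finset.mem_image.2 ⟨g, Finset.mem_biUnion.2 ⟨r, hr, hg⟩, hn.symm⟩)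
  obtain ⟨m0, n0, hn0, hD0, hmin⟩ := slope D hfin (by
    obtain ⟨r, hr, g, hg, hp⟩ := h
    obtain ⟨m, w, hw, hn⟩ := exists_pos χ r g hg
    exact ⟨m, _, hp, r, hr, w, hw, hn⟩)
  have hm0 : 1 ≤ m0 := by
    by_contra h1
    obtain ⟨r, hr, w, hw, hn⟩ := hD0
    have : m0 = 0 := by omega
    subst this
    rw [hz0 r hr w hw] at hn
    simp at hn
    omega
  have hm0' : (1 : ℤ) ≤ m0 := by exact_mod_cast hm0
  have bound : ∀ r : MonoidAlgebra k (FreeGroup Y), ∃ K : ℕ, ∀ m w, cf (mt χ r) m w ≠ 0 →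
      (m : ℤ) * n0 = m0 * w.n → m < K := by
    intro r
    refine ⟨r.coeff.support.sup (fun g => ((m0 : ℤ) * (χ g).toAdd).toNat) + 1, fun m w hw e => ?_⟩
    obtain ⟨-, g, hg, hn⟩ := mt_supp χ hw
    have h1 : ((m0 : ℤ) * (χ g).toAdd).toNat ≤ _ :=
      Finset.le_sup (f := fun g => ((m0 : ℤ) * (χ g).toAdd).toNat) hg
    have h2 : (m : ℤ) ≤ m * n0 := le_mul_of_one_le_right (by positivity) hn0
    rw [← hn, ← e] at h1
    omega
  let S : Set (W Y) := {w | ∃ r ∈ Gs, ∃ m, 1 ≤ m ∧ cf (mt χ r) m w ≠ 0 ∧ (m : ℤ) * n0 = m0 * w.n}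
  have hS : S.Finite := by
    choose K hK using bound
    refine (Gs.biUnion fun r => (Finset.range (K r)).biUnion fun m =>
      (PowerSeries.coeff m (mt χ r)).coeff.support).finite_toSet.subset ?_
    rintro w ⟨r, hr, m, -, hw, e⟩
    exact Finset.mem_coe.2 (Finset.mem_biUnion.2 ⟨r, hr, Finset.mem_biUnion.2
      ⟨m, Finset.mem_range.2 (hK r m w hw e), Finsupp.mem_support_iff.2 hw⟩⟩)
  obtain ⟨z, ⟨s0, hs0, hfix⟩, hle⟩ := exists_point S hS (by
    obtain ⟨r, hr, w, hw, hn⟩ := hD0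
    exact ⟨w, r, hr, m0, hm0, hw, by rw [hn]⟩) (by
    rintro s ⟨r, -, m, hm, hw, -⟩
    rw [(mt_supp χ hw).1]
    exact hm)
  let P : ℕ → W Y → Prop := fun m w => w.l.length = m ∧
    ((m0 : ℤ) * w.n < m * n0 ∨ ((m : ℤ) * n0 = m0 * w.n ∧ act w z ≤ z))
  let Q : ℕ → W Y → Prop := fun m w => w.l.length = m ∧ (m : ℤ) * n0 = m0 * w.n ∧ act w z = z
  have h1 : P 0 1 := ⟨rfl, Or.inr ⟨by simp, (act_one z).le⟩⟩
  have hq1 : Q 0 1 := ⟨rfl, by simp, act_one z⟩
  have hm : ∀ i j a b, P i a → P j b → P (i + j) (a * b) := by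
    rintro i j a b ⟨la, ha⟩ ⟨lb, hb⟩
    refine ⟨by simp [la, lb], ?_⟩
    rw [mul_n]
    push_cast
    rcases ha with ha | ⟨ha, ha'⟩ <;> rcases hb with hb | ⟨hb, hb'⟩
    · left; linarith
    · left; linarith
    · left; linarith
    · right
      refine ⟨by linarith, ?_⟩
      rw [act_mul]
      exact ((act_mono a).monotone hb').trans ha'
  have hq : ∀ i j a b, P i a → P j b → (Q (i + j) (a * b) ↔ Q i a ∧ Q j b) := by
    rintro i j a b ⟨la, ha⟩ ⟨lb, hb⟩
    constructor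
    · rintro ⟨-, e, hz⟩
      rw [mul_n] at e
      push_cast at e
      rw [act_mul] at hz
      rcases ha with ha | ⟨ha, ha'⟩ <;> rcases hb with hb | ⟨hb, hb'⟩
      · exfalso; linarith
      · exfalso; linarith
      · exfalso; linarith
      · have e2 : act b z = z := by
          by_contra h5
          have := (act_mono a) (lt_of_le_of_ne hb' h5)
          rw [hz] at this
          exact absurd ha' (not_le.2 this)
        rw [e2] at hz
        exact ⟨⟨la, ha, hz⟩, ⟨lb, hb, e2⟩⟩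
    · rintro ⟨⟨-, e1, z1⟩, ⟨-, e2, z2⟩⟩
      refine ⟨by simp [la, lb], ?_, by rw [act_mul, z2, z1]⟩
      rw [mul_n]
      push_cast
      linarith
  have hgen : ∀ r ∈ Gs, mt χ r ∈ Sup (k := k) P h1 hm := by
    intro r hr m w hw
    by_cases hm1 : m = 0
    · subst hm1
      rw [hz0 r hr w hw]
      exact h1
    refine ⟨(mt_supp χ hw).1, ?_⟩
    have hm2 : (1 : ℤ) ≤ m := by exact_mod_cast Nat.one_le_iff_ne_zero.2 hm1
    by_cases hn : 0 < w.n
    · rcases (hmin m w.n hn ⟨r, hr, w, hw, rfl⟩).lt_or_eq with h5 | h5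
      · exact Or.inl h5
      · exact Or.inr ⟨h5.symm, hle w ⟨r, hr, m, Nat.one_le_iff_ne_zero.2 hm1, hw, h5.symm⟩⟩
    · left
      nlinarith
  have hall : ∀ r : Algebra.adjoin k (Gs : Set (MonoidAlgebra k (FreeGroup Y))),
      ((mt χ).comp (Subalgebra.val _)) r ∈ Sup (k := k) P h1 hm := by
    intro r
    have : Algebra.adjoin k (Gs : Set (MonoidAlgebra k (FreeGroup Y))) ≤
        (Sup (k := k) P h1 hm).comap (mt χ) := Algebra.adjoin_le fun r hr => hgen r hr
    exact this r.2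
  let f := (psi P h1 hm Q hq1 hq).comp (AlgHom.codRestrict _ _ hall)
  have hf : ∀ r m, PowerSeries.coeff m (f r) = Lq (Q m) (PowerSeries.coeff m (mt χ r.1)) :=
    fun r m => psi_coeff P h1 hm Q hq1 hq _ m
  apply to_laurent f
  · intro r
    obtain ⟨K, hK⟩ := bound r.1
    refine ⟨K, fun m hm' => ?_⟩
    rw [hf, Lq_apply]
    refine Finset.sum_eq_zero fun w hw => if_neg fun hQ => ?_
    have := hK m w (Finsupp.mem_support_iff.1 hw) hQ.2.1
    omega
  · obtain ⟨r, hr, m, hm1, hw, e⟩ := hs0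
    refine ⟨⟨r, Algebra.subset_adjoin hr⟩, m, hm1, ?_⟩
    have hQ : Q m s0 := ⟨(mt_supp χ hw).1, e, hfix⟩
    rw [hf, Lq_apply, Finset.sum_eq_single s0, if_pos hQ]
    · exact hw
    · intro w _ hne
      exact if_neg fun hQ' => hne (act_uniq w s0 z (hQ'.1.trans hQ.1.symm)
        (hQ'.2.2.trans hfix.symm))
    · intro hn
      exact absurd (Finsupp.mem_support_iff.2 hw) hn

theorem main (α : Type) (R : Subalgebra k (MonoidAlgebra k (FreeGroup α))) (hfg : R.FG)
    (hne : R ≠ ⊥) : ∃ f : R →ₐ[k] LaurentPolynomial k, f.range ≠ ⊥ := by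
  classical
  obtain ⟨Gs, rfl⟩ := hfg
  let T : Set (FreeGroup α) := {g | ∃ r ∈ Gs, r.coeff g ≠ 0}
  let H : Subgroup (FreeGroup α) := Subgroup.closure T
  let Y := IsFreeGroup.Generators H
  let ι : FreeGroup Y →* FreeGroup α := H.subtype.comp (IsFreeGroup.mulEquiv H).toMonoidHom
  have hι : Function.Injective ι := H.subtype_injective.comp (IsFreeGroup.mulEquiv H).injective
  have hrange : ∀ g ∈ H, g ∈ Set.range ι := fun g hg =>
    ⟨(IsFreeGroup.mulEquiv H).symm ⟨g, hg⟩, by simp [ι]⟩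
  let Φ := mapDomainAlgHom k k ι
  have hΦ : Function.Injective Φ := mapDomain_injective hι
  let Gs' : Finset (MonoidAlgebra k (FreeGroup Y)) := Gs.image (comapDomain ι hι)
  have hback : ∀ r ∈ Gs, Φ (comapDomain ι hι r) = r := fun r hr =>
    mapDomain_comapDomain (fun g hg => hrange g
      (Subgroup.subset_closure ⟨r, hr, Finsupp.mem_support_iff.1 hg⟩)) hι
  have hmap : (Algebra.adjoin k (Gs' : Set (MonoidAlgebra k (FreeGroup Y)))).map Φ =
      Algebra.adjoin k (Gs : Set (MonoidAlgebra k (FreeGroup α))) := by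
    rw [AlgHom.map_adjoin]
    congr 1
    ext r
    simp only [Gs', Finset.coe_image, Set.mem_image, Finset.mem_coe]
    constructor
    · rintro ⟨_, ⟨r, hr, rfl⟩, rfl⟩
      rw [hback r hr]
      exact hr
    · intro hr
      exact ⟨_, ⟨r, hr, rfl⟩, hback r hr⟩
  have hT : ∃ g ∈ T, g ≠ 1 := by
    by_contra h
    push Not at h
    apply hne
    rw [eq_bot_iff]
    refine Algebra.adjoin_le fun r hr => Algebra.mem_bot.2 ⟨r.coeff 1, ?_⟩
    change single 1 (r.coeff 1) = r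
    ext g
    by_cases hg : g = 1
    · subst hg; simp
    · have : r.coeff g = 0 := by
        by_contra h0
        exact hg (h g ⟨r, hr, h0⟩)
      simp [this, Finsupp.single_apply, Ne.symm hg]
  have hY : Nonempty Y := by
    by_contra h
    rw [not_nonempty_iff] at h
    obtain ⟨g, hg, h1⟩ := hT
    obtain ⟨x, rfl⟩ := hrange g (Subgroup.subset_closure hg)
    exact h1 (by rw [Subsingleton.elim x 1, map_one])
  obtain ⟨y0⟩ := hY
  let χ0 : FreeGroup Y →* Multiplicative ℤ := FreeGroup.lift fun _ => Multiplicative.ofAdd 1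
  have hχ : ∃ r ∈ Gs', ∃ g, r.coeff g ≠ 0 ∧ χ0 g ≠ 1 := by
    by_contra h
    push Not at h
    have : H ≤ χ0.ker.map ι := by
      refine (Subgroup.closure_le _).2 ?_
      rintro g ⟨r, hr, hg⟩
      obtain ⟨x, rfl⟩ := hrange g (Subgroup.subset_closure ⟨r, hr, hg⟩)
      refine ⟨x, h _ (Finset.mem_image_of_mem _ hr) x ?_, rfl⟩
      simpa using hg
    obtain ⟨x, hx, e⟩ := this (IsFreeGroup.mulEquiv H (FreeGroup.of y0)).2
    have e2 : x = FreeGroup.of y0 := hι e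
    rw [e2] at hx
    simp [χ0] at hx
  have key : ∃ f : Algebra.adjoin k (Gs' : Set (MonoidAlgebra k (FreeGroup Y))) →ₐ[k]
      LaurentPolynomial k, f.range ≠ ⊥ := by
    obtain ⟨r, hr, g, hg, h1⟩ := hχ
    have h2 : (χ0 g).toAdd ≠ 0 := h1
    rcases lt_or_gt_of_ne h2 with h3 | h3
    · exact core χ0⁻¹ Gs' ⟨r, hr, g, hg, by simpa using h3⟩
    · exact core χ0 Gs' ⟨r, hr, g, hg, h3⟩
  obtain ⟨f, hf⟩ := key
  let e := (Subalgebra.equivMapOfInjective _ Φ hΦ).trans (Subalgebra.equivOfEq _ _ hmap)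
  refine ⟨f.comp e.symm.toAlgHom, fun h => hf ?_⟩
  rw [eq_bot_iff] at h ⊢
  rintro _ ⟨x, rfl⟩
  exact h ⟨e x, by simp⟩

end Pool.Agent.H79.Mg
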