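import Mathlib

/-! Line fields along segments: gluing and exclusivity; sign of a polynomial without outer roots. -/

namespace Pool.Agent.H79.NA

open Set Filter Topology Polynomial

/-- A continuous nowhere zero field `(u, v)` parallel to `(a, c)` on `[s, t]`, with the sign of
`u s * u t` given by `τ`. -/
def Par (a c : ℝ → ℝ) (s t τ : ℝ) : Prop :=
  ∃ u v : ℝ → ℝ, ContinuousOn u (Icc s t) ∧ ContinuousOn v (Icc s t) ∧
    (∀ y ∈ Icc s t, (u y ≠ 0 ∨ v y ≠ 0) ∧ u y * c y = v y * a y) ∧ 0 < τ * (u s * u t)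

theorem Par.trans {a c : ℝ → ℝ} {s t w τ σ : ℝ} (hst : s ≤ t) (htw : t ≤ w) (ha : a t ≠ 0)
    (h1 : Par a c s t τ) (h2 : Par a c t w σ) : Par a c s w (τ * σ) := by
  obtain ⟨u, v, hu, hv, huv, hs⟩ := h1
  obtain ⟨u', v', hu', hv', huv', hs'⟩ := h2
  have hut : u t ≠ 0 := by
    intro h; rw [h] at hs; simp at hs
  have hut' : u' t ≠ 0 := by
    intro h; rw [h] at hs'; simp at hs'
  obtain ⟨l, hl⟩ : ∃ l : ℝ, l = u t / u' t := ⟨_, rfl⟩
  have hl0 : l ≠ 0 := hl ▸ div_ne_zero hut hut'
  have e1 : l * u' t = u t := by rw [hl]; field_simp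
  have e2 : l * v' t = v t := by
    have k1 := (huv t ⟨hst, le_rfl⟩).2
    have k2 := (huv' t ⟨le_rfl, htw⟩).2
    apply mul_right_cancel₀ ha
    rw [mul_assoc, ← k2, ← mul_assoc, e1, k1]
  have glue : ∀ p q : ℝ → ℝ, ContinuousOn p (Icc s t) → ContinuousOn q (Icc t w) →
      l * q t = p t → ContinuousOn (fun y => if y ≤ t then p y else l * q y) (Icc s w) := by
    intro p q hp hq e
    rw [← Icc_union_Icc_eq_Icc hst htw]
    refine ContinuousOn.union_of_isClosed ?_ ?_ isClosed_Icc isClosed_Icc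
    · refine hp.congr fun y hy => ?_
      simp [hy.2]
    · refine (continuousOn_const.mul hq : ContinuousOn (fun y => l * q y) _).congr fun y hy => ?_
      by_cases h : y ≤ t
      · have : y = t := le_antisymm h hy.1
        simp [this, e]
      · simp [h]
  refine ⟨fun y => if y ≤ t then u y else l * u' y, fun y => if y ≤ t then v y else l * v' y,
    glue u u' hu hu' e1, glue v v' hv hv' e2, fun y hy => ?_, ?_⟩
  · by_cases h : y ≤ t
    · simpa [h] using huv y ⟨hy.1, h⟩
    · have := huv' y ⟨(not_le.1 h).le, hy.2⟩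
      simp only [h, if_false]
      refine ⟨this.1.imp (mul_ne_zero hl0) (mul_ne_zero hl0), ?_⟩
      rw [mul_assoc, this.2, mul_assoc]
  · have e3 : (if w ≤ t then u w else l * u' w) = l * u' w := by
      by_cases h : w ≤ t
      · have : w = t := le_antisymm h htw
        simp [this, e1]
      · simp [h]
    simp only [hst, if_true, e3]
    have : τ * σ * (u s * (l * u' w)) = (τ * (u s * u t)) * (σ * (u' t * u' w)) / (u' t) ^ 2 := by
      rw [hl]; field_simp
    rw [this]
    positivity

theorem same_sign {g : ℝ → ℝ} {s t : ℝ} (hst : s ≤ t) (hg : ContinuousOn g (Icc s t))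
    (h : ∀ y ∈ Icc s t, g y ≠ 0) : 0 < g s * g t := by
  by_contra hn
  have hs := h s ⟨le_rfl, hst⟩
  have ht := h t ⟨hst, le_rfl⟩
  have : (0 : ℝ) ∈ uIcc (g s) (g t) := by
    rw [mem_uIcc]
    rcases lt_or_gt_of_ne hs with h1 | h1 <;> rcases lt_or_gt_of_ne ht with h2 | h2
    · exact absurd (mul_pos_of_neg_of_neg h1 h2) hn
    · exact Or.inl ⟨h1.le, h2.le⟩
    · exact Or.inr ⟨h2.le, h1.le⟩
    · exact absurd (mul_pos h1 h2) hn
  have hg' : ContinuousOn g (uIcc s t) := by rwa [uIcc_of_le hst]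
  obtain ⟨y, hy, hy0⟩ := intermediate_value_uIcc hg' this
  rw [uIcc_of_le hst] at hy
  exact h y hy hy0

theorem Par.excl {a c : ℝ → ℝ} {s t : ℝ} (hst : s ≤ t)
    (hd : Icc s t ⊆ closure (Icc s t ∩ {y | a y ≠ 0}))
    (h1 : Par a c s t 1) (h2 : Par a c s t (-1)) : False := by
  obtain ⟨u, v, hu, hv, huv, hs⟩ := h1
  obtain ⟨u', v', hu', hv', huv', hs'⟩ := h2
  have hw : ∀ y ∈ Icc s t, u y * v' y - v y * u' y = 0 := by
    have hc : ContinuousOn (fun y => u y * v' y - v y * u' y) (Icc s t) :=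
      (hu.mul hv').sub (hv.mul hu')
    have h0 : EqOn (fun y => u y * v' y - v y * u' y) (fun _ => 0) (Icc s t ∩ {y | a y ≠ 0}) := by
      intro y hy
      have k1 := (huv y hy.1).2
      have k2 := (huv' y hy.1).2
      apply mul_right_cancel₀ hy.2
      simp only
      linear_combination u' y * k1 - u y * k2
    exact h0.of_subset_closure hc continuousOn_const inter_subset_left hd
  have hdot : ∀ y ∈ Icc s t, u y * u' y + v y * v' y ≠ 0 := by
    intro y hy h
    have k := hw y hy
    have k1 : (u y ^ 2 + v y ^ 2) * (u' y ^ 2 + v' y ^ 2) = 0 := by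
      linear_combination (u y * u' y + v y * v' y) * h + (u y * v' y - v y * u' y) * k
    have p1 : 0 < u y ^ 2 + v y ^ 2 := by
      rcases (huv y hy).1 with h | h <;> positivity
    have p2 : 0 < u' y ^ 2 + v' y ^ 2 := by
      rcases (huv' y hy).1 with h | h <;> positivity
    exact (mul_pos p1 p2).ne' k1
  have hss := same_sign hst ((hu.mul hu').add (hv.mul hv')) hdot
  have key : ∀ y ∈ Icc s t, (u y * u' y) * (u y * u' y + v y * v' y) =
      (u y * u' y) ^ 2 + (u y * v' y) ^ 2 := by
    intro y hy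
    linear_combination (-(u y * v' y)) * hw y hy
  have k1 := key s ⟨le_rfl, hst⟩
  have k2 := key t ⟨hst, le_rfl⟩
  simp only [Pi.add_apply, Pi.mul_apply] at hss
  have hneg : (u s * u' s) * (u t * u' t) < 0 := by
    have : (u s * u' s) * (u t * u' t) = -((1 * (u s * u t)) * (-1 * (u' s * u' t))) := by ring
    rw [this, neg_lt_zero]; positivity
  have hp : 0 ≤ ((u s * u' s) * (u s * u' s + v s * v' s)) *
      ((u t * u' t) * (u t * u' t + v t * v' t)) := by
    rw [k1, k2]; positivity
  nlinarith [mul_neg_of_neg_of_pos hneg hss]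

theorem poly_sign (A : ℝ[X]) {s t : ℝ} (hs : ∀ y ≤ s, A.eval y ≠ 0) (ht : ∀ y, t ≤ y → A.eval y ≠ 0) :
    0 < (-1) ^ A.natDegree * (A.eval s * A.eval t) := by
  have hA : A ≠ 0 := by
    intro h; exact hs s le_rfl (by simp [h])
  rcases Nat.eq_zero_or_pos A.natDegree with h0 | h0
  · rw [eq_C_of_natDegree_eq_zero h0] at hs ⊢
    have := hs s le_rfl
    simp only [eval_C, natDegree_C, pow_zero, one_mul] at this ⊢
    exact mul_self_pos.2 this
  set E : ℝ[X] := C ((-1) ^ A.natDegree) * (A.comp (C s - X) * A.comp (X + C t)) with hE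
  have d1 : (C s - X : ℝ[X]).natDegree = 1 := by
    rw [← natDegree_neg, neg_sub, natDegree_X_sub_C]
  have l1 : (C s - X : ℝ[X]).leadingCoeff = -1 := by
    rw [← neg_sub, leadingCoeff_neg, leadingCoeff_X_sub_C]
  have hlc : A.leadingCoeff ≠ 0 := leadingCoeff_ne_zero.2 hA
  have lE : E.leadingCoeff = A.leadingCoeff ^ 2 := by
    rw [hE, leadingCoeff_mul, leadingCoeff_mul, leadingCoeff_C,
      leadingCoeff_comp (by rw [d1]; norm_num),
      leadingCoeff_comp (by rw [natDegree_X_add_C]; norm_num), l1, leadingCoeff_X_add_C]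
    have : ((-1 : ℝ) ^ A.natDegree) * (-1) ^ A.natDegree = 1 := by
      rw [← mul_pow]; simp
    linear_combination A.leadingCoeff ^ 2 * this
  have ev : ∀ y, E.eval y = (-1) ^ A.natDegree * (A.eval (s - y) * A.eval (y + t)) := by
    intro y; simp [hE, eval_comp]
  have c1 : A.comp (C s - X) ≠ 0 := by
    intro h
    have := congrArg (eval 0) h
    simp [eval_comp] at this
    exact hs s le_rfl this
  have c2 : A.comp (X + C t) ≠ 0 := by
    intro h
    have := congrArg (eval 0) h
    simp [eval_comp] at this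
    exact ht t le_rfl this
  have dE : 0 < E.degree := by
    rw [← natDegree_pos_iff_degree_pos, hE, natDegree_C_mul (by positivity),
      natDegree_mul c1 c2, natDegree_comp, d1]
    omega
  have hT := E.tendsto_atTop_of_leadingCoeff_nonneg dE (by rw [lE]; positivity)
  obtain ⟨M, hM, hM0⟩ := ((hT.eventually_gt_atTop 0).and (eventually_ge_atTop 0)).exists
  have := same_sign (g := fun y => E.eval y) hM0 E.continuous.continuousOn (fun y hy => by
    rw [ev]
    exact mul_ne_zero (by positivity)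
      (mul_ne_zero (hs _ (by linarith [hy.1])) (ht _ (by linarith [hy.1]))))
  have h3 := (pos_iff_pos_of_mul_pos this).2 hM
  simpa [ev] using h3

end Pool.Agent.H79.NA
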