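import Pool.Agent.H79.NA1

/-! Greatest common divisors of polynomials with analytic coefficients have constant degree on a
punctured neighbourhood. -/

namespace Pool.Agent.H79.NA

open Set Filter Topology Polynomial

/-- Real functions analytic at `0`. -/
def An : Subring (ℝ → ℝ) where
  carrier := {f | AnalyticAt ℝ f 0}
  mul_mem' := fun ha hb => AnalyticAt.mul ha hb
  one_mem' := analyticAt_const
  add_mem' := fun ha hb => AnalyticAt.add ha hb
  zero_mem' := analyticAt_const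
  neg_mem' := fun ha => AnalyticAt.neg ha

/-- Evaluation at a point. -/
def ev (x : ℝ) : An →+* ℝ := (Pi.evalRingHom (fun _ : ℝ => ℝ) x).comp An.subtype

theorem ev_apply (x : ℝ) (f : An) : ev x f = f.1 x := rfl

theorem normal (R : An[X]) : ∃ R' : An[X], R'.natDegree ≤ R.natDegree ∧
    (∀ᶠ x in 𝓝[≠] (0 : ℝ), R.map (ev x) = R'.map (ev x)) ∧
    (R' = 0 ∨ ∀ᶠ x in 𝓝[≠] (0 : ℝ), ev x R'.leadingCoeff ≠ 0) := by
  induction h : R.support.card using Nat.strong_induction_on generalizing R with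
  | _ n ih =>
  by_cases hR : R = 0
  · exact ⟨0, by simp, by simp [hR], Or.inl rfl⟩
  rcases (show AnalyticAt ℝ R.leadingCoeff.1 0 from R.leadingCoeff.2).eventually_eq_zero_or_eventually_ne_zero
    with h1 | h1
  · obtain ⟨R', e1, e2, e3⟩ := ih _ (h ▸ eraseLead_support_card_lt hR) R.eraseLead rfl
    refine ⟨R', e1.trans eraseLead_natDegree_le_aux, ?_, e3⟩
    filter_upwards [e2, h1.filter_mono nhdsWithin_le_nhds] with x hx hx'
    rw [← hx]
    conv_lhs => rw [← eraseLead_add_monomial_natDegree_leadingCoeff R]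
    rw [Polynomial.map_add, Polynomial.map_monomial, ev_apply, hx']
    simp
  · exact ⟨R, le_rfl, by simp, Or.inr h1⟩

/-- `D` is a greatest common divisor of degree `d`. -/
def GD (P R : ℝ[X]) (d : ℕ) : Prop :=
  ∃ D A B : ℝ[X], D.natDegree = d ∧ P = D * A ∧ R = D * B ∧ IsCoprime A B

theorem GD.symm {P R : ℝ[X]} {d : ℕ} (h : GD P R d) : GD R P d := by
  obtain ⟨D, A, B, h1, h2, h3, h4⟩ := h
  exact ⟨D, B, A, h1, h3, h2, h4.symm⟩

theorem natDegree_map_ev {R : An[X]} {x : ℝ} (h : ev x R.leadingCoeff ≠ 0) :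
    (R.map (ev x)).natDegree = R.natDegree :=
  natDegree_map_of_leadingCoeff_ne_zero _ h

theorem gcd_const (P R : An[X]) :
    ∃ d, ∀ᶠ x in 𝓝[≠] (0 : ℝ), GD (P.map (ev x)) (R.map (ev x)) d := by
  induction h : P.natDegree + R.natDegree using Nat.strong_induction_on generalizing P R with
  | _ n ih =>
  have zero : ∀ Q : An[X], (Q = 0 ∨ ∀ᶠ x in 𝓝[≠] (0 : ℝ), ev x Q.leadingCoeff ≠ 0) →
      ∃ d, ∀ᶠ x in 𝓝[≠] (0 : ℝ), GD (Q.map (ev x)) ((0 : An[X]).map (ev x)) d := by
    intro Q hQ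
    refine ⟨Q.natDegree, ?_⟩
    rcases hQ with rfl | hQ
    · exact Eventually.of_forall fun x => ⟨0, 1, 0, by simp, by simp, by simp, isCoprime_one_left⟩
    · filter_upwards [hQ] with x hx
      exact ⟨_, 1, 0, natDegree_map_ev hx, by simp, by simp, isCoprime_one_left⟩
  have step : ∀ P' R' : An[X], P'.natDegree + R'.natDegree ≤ n → R'.natDegree ≤ P'.natDegree →
      (∀ᶠ x in 𝓝[≠] (0 : ℝ), ev x R'.leadingCoeff ≠ 0) →
      ∃ d, ∀ᶠ x in 𝓝[≠] (0 : ℝ), GD (P'.map (ev x)) (R'.map (ev x)) d := by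
    intro P' R' hn hle hR
    rcases Nat.eq_zero_or_pos P'.natDegree with h0 | h0
    · refine ⟨0, ?_⟩
      filter_upwards [hR] with x hx
      have h1 : R'.natDegree = 0 := by omega
      have h2 : R' = C R'.leadingCoeff := by
        rw [leadingCoeff, h1]; exact eq_C_of_natDegree_eq_zero h1
      refine ⟨1, _, _, by simp, (one_mul _).symm, (one_mul _).symm, ?_⟩
      rw [h2, map_C]
      exact (isCoprime_one_right (x := P'.map (ev x))).of_isCoprime_of_dvd_right
        ((isUnit_C.2 (Ne.isUnit hx)).dvd)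
    obtain ⟨d, hd⟩ := ih _ (by
      have := natDegree_cancelLeads_lt_of_natDegree_le_natDegree hle h0
      show (R'.cancelLeads P').natDegree + R'.natDegree < n
      omega) (R'.cancelLeads P') R' rfl
    refine ⟨d, ?_⟩
    filter_upwards [hd, hR] with x hx hx'
    obtain ⟨D, A, B, h1, h2, h3, h4⟩ := hx
    rw [cancelLeads, Nat.sub_eq_zero_of_le hle] at h2
    simp only [pow_zero, mul_one, Polynomial.map_sub, Polynomial.map_mul, map_C,
      Polynomial.map_pow, map_X] at h2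
    set l := ev x R'.leadingCoeff
    set W : ℝ[X] := C (ev x P'.leadingCoeff) * X ^ (P'.natDegree - R'.natDegree)
    have hl : (C l⁻¹ : ℝ[X]) * C l = 1 := by rw [← C_mul, inv_mul_cancel₀ hx', C_1]
    refine ⟨D, C l⁻¹ * (A + W * B), B, h1, ?_, h3, ?_⟩
    · rw [h3] at h2
      linear_combination C l⁻¹ * h2 - (P'.map (ev x)) * hl
    · obtain ⟨α, β, hαβ⟩ := h4
      exact ⟨α * C l, β - α * W, by linear_combination hαβ + α * (A + W * B) * hl⟩
  obtain ⟨P', p1, p2, p3⟩ := normal P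
  obtain ⟨R', r1, r2, r3⟩ := normal R
  have : ∃ d, ∀ᶠ x in 𝓝[≠] (0 : ℝ), GD (P'.map (ev x)) (R'.map (ev x)) d := by
    rcases r3 with rfl | r3
    · exact zero P' p3
    rcases p3 with rfl | p3
    · obtain ⟨d, hd⟩ := zero R' (Or.inr r3)
      exact ⟨d, hd.mono fun x hx => hx.symm⟩
    rcases le_total R'.natDegree P'.natDegree with hle | hle
    · exact step P' R' (by omega) hle r3
    · obtain ⟨d, hd⟩ := step R' P' (by omega) hle p3
      exact ⟨d, hd.mono fun x hx => hx.symm⟩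
  obtain ⟨d, hd⟩ := this
  refine ⟨d, ?_⟩
  filter_upwards [hd, p2, r2] with x hx h1 h2
  rwa [h1, h2]

end Pool.Agent.H79.NA
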