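import Pool.Agent.H79.NA2

/-! Weierstrass division for convergent double series, through shift operators. -/

namespace Pool.Agent.H79.NA

open Set Filter Topology BoundedContinuousFunction

/-- Bounded sequences. -/
def E := ℕ →ᵇ ℝ

noncomputable instance : NormedAddCommGroup E := inferInstanceAs (NormedAddCommGroup (ℕ →ᵇ ℝ))
noncomputable instance : NormedSpace ℝ E := inferInstanceAs (NormedSpace ℝ (ℕ →ᵇ ℝ))
instance : CompleteSpace E := inferInstanceAs (CompleteSpace (ℕ →ᵇ ℝ))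

/-- The underlying sequence. -/
def E.fn (b : E) : ℕ → ℝ := (show ℕ →ᵇ ℝ from b)

theorem E.ext' {b c : E} (h : ∀ j, b.fn j = c.fn j) : b = c := BoundedContinuousFunction.ext h
@[simp] theorem E.add_fn (b c : E) (j : ℕ) : (b + c).fn j = b.fn j + c.fn j := rfl
@[simp] theorem E.smul_fn (r : ℝ) (b : E) (j : ℕ) : (r • b).fn j = r * b.fn j := rfl
@[simp] theorem E.zero_fn (j : ℕ) : (0 : E).fn j = 0 := rfl
theorem E.fn_le (b : E) (j : ℕ) : ‖b.fn j‖ ≤ ‖b‖ := norm_coe_le_norm (show ℕ →ᵇ ℝ from b) j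
theorem E.norm_le' {b : E} {C : ℝ} (h0 : 0 ≤ C) (h : ∀ j, ‖b.fn j‖ ≤ C) : ‖b‖ ≤ C :=
  (norm_le (f := (show ℕ →ᵇ ℝ from b)) h0).2 h

/-- A bounded sequence from a bound. -/
def E.mk' (f : ℕ → ℝ) (C : ℝ) (h : ∀ j, ‖f j‖ ≤ C) : E := ofNormedAddCommGroupDiscrete f C h

@[simp] theorem E.mk'_fn (f : ℕ → ℝ) (C : ℝ) (h : ∀ j, ‖f j‖ ≤ C) : (E.mk' f C h).fn = f := rfl

/-- Coordinates. -/
noncomputable def co (j : ℕ) : E →L[ℝ] ℝ :=
  LinearMap.mkContinuous
    { toFun := fun b => b.fn j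
      map_add' := fun _ _ => rfl
      map_smul' := fun _ _ => rfl } 1 (fun b => by rw [one_mul]; exact b.fn_le j)

@[simp] theorem co_apply (j : ℕ) (b : E) : co j b = b.fn j := rfl

theorem norm_co (j : ℕ) : ‖co j‖ ≤ 1 := LinearMap.mkContinuous_norm_le _ zero_le_one _

/-- Forward shift of a sequence. -/
def sh (b : E) : ℕ → ℝ
  | 0 => 0
  | j + 1 => b.fn j

theorem sh_le (b : E) (j : ℕ) : ‖sh b j‖ ≤ ‖b‖ := by
  cases j with
  | zero => simp [sh]
  | succ j => exact b.fn_le j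

/-- Forward shift. -/
noncomputable def S : E →L[ℝ] E :=
  LinearMap.mkContinuous
    { toFun := fun b => E.mk' (sh b) ‖b‖ (sh_le b)
      map_add' := fun b c => E.ext' fun j => by cases j <;> simp [sh]
      map_smul' := fun r b => E.ext' fun j => by cases j <;> simp [sh] } 1
    (fun b => by
      rw [one_mul]
      exact E.norm_le' (norm_nonneg _) (sh_le b))

/-- Backward shift. -/
noncomputable def T : E →L[ℝ] E :=
  LinearMap.mkContinuous
    { toFun := fun b => E.mk' (fun j => b.fn (j + 1)) ‖b‖ (fun j => b.fn_le _)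
      map_add' := fun b c => E.ext' fun j => by simp
      map_smul' := fun r b => E.ext' fun j => by simp } 1
    (fun b => by
      rw [one_mul]
      exact E.norm_le' (norm_nonneg _) (fun j => b.fn_le _))

@[simp] theorem S_zero (b : E) : (S b).fn 0 = 0 := rfl
@[simp] theorem S_succ (b : E) (j : ℕ) : (S b).fn (j + 1) = b.fn j := rfl
@[simp] theorem T_apply (b : E) (j : ℕ) : (T b).fn j = b.fn (j + 1) := rfl

theorem norm_S : ‖S‖ ≤ 1 := LinearMap.mkContinuous_norm_le _ zero_le_one _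

theorem norm_S_pow (j : ℕ) : ‖S ^ j‖ ≤ 1 := by
  induction j with
  | zero => exact ContinuousLinearMap.norm_id_le
  | succ j ih =>
    rw [pow_succ]
    exact (norm_mul_le _ _).trans (mul_le_one₀ ih (norm_nonneg _) norm_S)

theorem T_S : T * S = 1 := ContinuousLinearMap.ext fun _ => E.ext' fun _ => rfl

theorem T_S_pow (k : ℕ) : T ^ k * S ^ k = 1 := by
  induction k with
  | zero => simp
  | succ k ih => rw [pow_succ, pow_succ', mul_assoc, ← mul_assoc T, T_S, one_mul, ih]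

theorem T_pow_apply (k : ℕ) (b : E) (j : ℕ) : ((T ^ k) b).fn j = b.fn (j + k) := by
  induction k generalizing j with
  | zero => simp
  | succ k ih =>
    rw [pow_succ', mul_apply_eq_comp, T_apply, ih]
    congr 1; ring

/-- Evaluation of the power series with coefficient sequence `b`. -/
noncomputable def evl (y : ℝ) : E →L[ℝ] ℝ := ∑' j, y ^ j • co j

theorem hasSum_evl {y : ℝ} (hy : |y| < 1) (b : E) :
    HasSum (fun j => y ^ j * b.fn j) (evl y b) := by
  have hs : Summable fun j => y ^ j • (co j) := by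
    refine Summable.of_norm_bounded (summable_geometric_of_lt_one (abs_nonneg y) hy) fun j => ?_
    rw [norm_smul, norm_pow, Real.norm_eq_abs]
    exact mul_le_of_le_one_right (by positivity) (norm_co j)
  exact (ContinuousLinearMap.apply ℝ ℝ b).hasSum hs.hasSum

theorem evl_zero (b : E) : evl 0 b = b.fn 0 := by
  have := hasSum_evl (y := 0) (by simp) b
  rw [← this.tsum_eq, tsum_eq_single 0 (fun j hj => by simp [hj])]
  simp

theorem evl_S {y : ℝ} (hy : |y| < 1) (b : E) : evl y (S b) = y * evl y b := by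
  have h1 := (hasSum_nat_add_iff' 1).2 (hasSum_evl hy (S b))
  have h2 := (hasSum_evl hy b).mul_left y
  simp only [S_succ, Finset.range_one, Finset.sum_singleton, S_zero, mul_zero, sub_zero] at h1
  refine h1.unique ?_
  have e : (fun n => y ^ (n + 1) * b.fn n) = fun i => y * (y ^ i * b.fn i) := by
    ext n; ring
  rwa [e]

theorem evl_S_pow {y : ℝ} (hy : |y| < 1) (j : ℕ) (b : E) :
    evl y ((S ^ j) b) = y ^ j * evl y b := by
  induction j with
  | zero => simp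
  | succ j ih => rw [pow_succ', mul_apply_eq_comp, evl_S hy, ih]; ring

theorem evl_cont {y : ℝ} (hy : |y| < 1 / 2) : ContinuousAt evl y := by
  have : ContinuousOn evl (Ioo (-(1 / 2)) (1 / 2)) := by
    refine continuousOn_tsum (f := fun j (y : ℝ) => y ^ j • co j) (u := fun j => (1 / 2 : ℝ) ^ j) (fun j => by fun_prop)
      summable_geometric_two fun j z hz => ?_
    rw [norm_smul, norm_pow, Real.norm_eq_abs]
    refine (mul_le_of_le_one_right (by positivity) (norm_co j)).trans ?_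
    exact pow_le_pow_left₀ (abs_nonneg _) (abs_lt.2 hz).le _
  exact this.continuousAt (Ioo_mem_nhds (abs_lt.1 hy).1 (abs_lt.1 hy).2)

theorem evl_poly {y : ℝ} (hy : |y| < 1) {k : ℕ} {b : E} (hb : (T ^ k) b = 0) :
    evl y b = ∑ j ∈ Finset.range k, b.fn j * y ^ j := by
  refine (hasSum_evl hy b).unique ?_
  have : HasSum (fun j => y ^ j * b.fn j) (∑ j ∈ Finset.range k, y ^ j * b.fn j) := by
    refine hasSum_sum_of_ne_finset_zero fun j hj => ?_
    have h1 : k ≤ j := by simpa using hj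
    have := T_pow_apply k b (j - k)
    rw [hb, Nat.sub_add_cancel h1] at this
    rw [← this]; simp
  simpa only [mul_comm] using this

/-- The constant series `1`. -/
noncomputable def e0 : E :=
  E.mk' (fun j => if j = 0 then 1 else 0) 1
    (fun j => by split_ifs <;> simp)

theorem e0_zero : e0.fn 0 = 1 := rfl

theorem evl_e0 {y : ℝ} (hy : |y| < 1) : evl y e0 = 1 := by
  rw [evl_poly hy (k := 1)]
  · simp [e0_zero]
  · exact E.ext' fun j => by simp [e0]

/-- A series in the forward shift. -/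
noncomputable def ser (γ : ℕ → ℝ) : E →L[ℝ] E := ∑' j, γ j • S ^ j

theorem ser_bd {γ : ℕ → ℝ} {M : ℝ} (h : ∀ j, |γ j| ≤ M * (1 / 2) ^ j) (j : ℕ) :
    ‖γ j • S ^ j‖ ≤ M * (1 / 2) ^ j := by
  rw [norm_smul, Real.norm_eq_abs]
  exact (mul_le_of_le_one_right (abs_nonneg _) (norm_S_pow j)).trans (h j)

theorem hasSum_ser {γ : ℕ → ℝ} {M : ℝ} (h : ∀ j, |γ j| ≤ M * (1 / 2) ^ j) :
    HasSum (fun j => γ j • S ^ j) (ser γ) :=
  (Summable.of_norm_bounded (summable_geometric_two.mul_left M) (ser_bd h)).hasSum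

theorem norm_ser {γ : ℕ → ℝ} {M : ℝ} (h : ∀ j, |γ j| ≤ M * (1 / 2) ^ j) : ‖ser γ‖ ≤ M * 2 :=
  tsum_of_norm_bounded (hasSum_geometric_two.mul_left M) (ser_bd h)

theorem ser_succ {γ : ℕ → ℝ} {M : ℝ} (h : ∀ j, |γ j| ≤ M * (1 / 2) ^ j) :
    ser γ = γ 0 • 1 + S * ser fun j => γ (j + 1) := by
  have h' : ∀ j, |γ (j + 1)| ≤ M / 2 * (1 / 2) ^ j := fun j => by
    have := h (j + 1); rw [pow_succ] at this; linarith
  have h1 := (hasSum_nat_add_iff' 1).2 (hasSum_ser h)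
  have h2 := (hasSum_ser h').mul_left S
  simp only [Finset.range_one, Finset.sum_singleton, pow_zero] at h1
  have : ser γ - γ 0 • 1 = S * ser fun j => γ (j + 1) := by
    refine h1.unique ?_
    have e : (fun n => γ (n + 1) • S ^ (n + 1)) = fun i => S * γ (i + 1) • S ^ i := by
      funext n; rw [mul_smul_comm, pow_succ']
    rw [e]; exact h2
  rw [← this]; abel

theorem ser_shift {γ : ℕ → ℝ} {M : ℝ} (h : ∀ j, |γ j| ≤ M * (1 / 2) ^ j) (k : ℕ)
    (h0 : ∀ j < k, γ j = 0) : ser γ = S ^ k * ser fun j => γ (j + k) := by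
  induction k with
  | zero => simp
  | succ k ih =>
    have h' : ∀ j, |γ (j + k)| ≤ M * (1 / 2) ^ k * (1 / 2) ^ j := fun j => by
      have := h (j + k); rw [pow_add] at this; linarith
    rw [ih fun j hj => h0 j (by omega), ser_succ h', zero_add, h0 k (by omega), zero_smul,
      zero_add, pow_succ, mul_assoc]
    congr 3
    ext j; congr 1; ring

theorem evl_ser {γ : ℕ → ℝ} {M : ℝ} (h : ∀ j, |γ j| ≤ M * (1 / 2) ^ j) {y : ℝ} (hy : |y| < 1)
    (b : E) : HasSum (fun j => γ j * y ^ j * evl y b) (evl y (ser γ b)) := by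
  have := ((evl y).comp (ContinuousLinearMap.apply ℝ E b)).hasSum (hasSum_ser h)
  have e : (fun j => γ j * y ^ j * evl y b) =
      fun j => ((evl y).comp (ContinuousLinearMap.apply ℝ E b)) (γ j • S ^ j) := by
    funext j
    change _ = evl y (γ j • (S ^ j) b)
    rw [map_smul, evl_S_pow hy, smul_eq_mul, mul_assoc]
  rw [e]; exact this

/-- `h` is given near `(x0, y0)` by a convergent double power series. -/
def DS (h : ℝ → ℝ → ℝ) (x0 y0 : ℝ) (β : ℕ × ℕ → ℝ) (K : ℝ) : Prop :=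
  0 < K ∧ (∀ i j, |β (i, j)| ≤ K ^ (i + j + 1)) ∧ ∀ x y, K * |x| < 1 → K * |y| < 1 →
    HasSum (fun ij : ℕ × ℕ => β ij * x ^ ij.1 * y ^ ij.2) (h (x0 + x) (y0 + y))

theorem DS.bd {h : ℝ → ℝ → ℝ} {x0 y0 : ℝ} {β : ℕ × ℕ → ℝ} {K : ℝ} (H : DS h x0 y0 β K)
    {ε : ℝ} (hε : 0 < ε) (hK : K * ε ≤ 1 / 2) (i j : ℕ) :
    |β (i, j) * ε ^ j| ≤ K ^ (i + 1) * (1 / 2) ^ j := by
  have hK0 := H.1
  rw [abs_mul, abs_of_pos (pow_pos hε j)]
  calc |β (i, j)| * ε ^ j ≤ K ^ (i + j + 1) * ε ^ j := by gcongr; exact H.2.1 i j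
    _ = K ^ (i + 1) * (K * ε) ^ j := by ring
    _ ≤ _ := by gcongr

theorem DS.op {h : ℝ → ℝ → ℝ} {x0 y0 : ℝ} {β : ℕ × ℕ → ℝ} {K : ℝ} (H : DS h x0 y0 β K)
    {ε : ℝ} (hε : 0 < ε) (hK : K * ε ≤ 1 / 2) :
    ∃ A : ℝ → E →L[ℝ] E, AnalyticAt ℝ A 0 ∧ A 0 = ser (fun j => β (0, j) * ε ^ j) ∧
      ∀ᶠ x in 𝓝 (0 : ℝ), ∀ y, |y| < 1 → ∀ b,
        evl y (A x b) = h (x0 + x) (y0 + ε * y) * evl y b := by
  have hK0 := H.1
  let p : FormalMultilinearSeries ℝ ℝ (E →L[ℝ] E) := fun i =>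
    ContinuousMultilinearMap.mkPiRing ℝ (Fin i) (ser fun j => β (i, j) * ε ^ j)
  have hr : ((NNReal.mk K⁻¹ (by positivity) : NNReal) : ENNReal) ≤ p.radius := by
    refine p.le_radius_of_bound (K * 2) fun n => ?_
    simp only [p, ContinuousMultilinearMap.norm_mkPiRing, NNReal.coe_mk]
    calc _ ≤ K ^ (n + 1) * 2 * K⁻¹ ^ n := by gcongr; exact norm_ser (H.bd hε hK n)
      _ = K * 2 := by rw [inv_pow, pow_succ]; field_simp
  have hr0 : 0 < p.radius := lt_of_lt_of_le (by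
    rw [ENNReal.coe_pos, ← NNReal.coe_pos]; exact inv_pos.2 hK0) hr
  have hp := p.hasFPowerSeriesOnBall hr0
  refine ⟨p.sum, hp.analyticAt, ?_, ?_⟩
  · rw [← hp.coeff_zero fun _ => 0]
    simp [p]
  · have h1 : ∀ᶠ x in 𝓝 (0 : ℝ), K * |x| < 1 :=
      ContinuousAt.eventually_lt (by fun_prop) continuousAt_const (by simp)
    filter_upwards [hp.hasFPowerSeriesAt.eventually_hasSum, h1] with x hx hx1 y hy b
    rw [zero_add] at hx
    have h2 := ((evl y).comp (ContinuousLinearMap.apply ℝ E b)).hasSum hx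
    have h3 := (H.2.2 x (ε * y) hx1 (by
      rw [abs_mul, abs_of_pos hε]; nlinarith [abs_nonneg y])).mul_right (evl y b)
    refine h2.unique (h3.prod_fiberwise fun i => ?_)
    convert (evl_ser (H.bd hε hK i) hy b).mul_left (x ^ i) using 1
    · ext j; ring
    · simp [p]

theorem weier {a c : ℝ → ℝ → ℝ} {x0 y0 : ℝ} {α β : ℕ × ℕ → ℝ} {K L : ℝ}
    (ha : DS a x0 y0 α K) (hc : DS c x0 y0 β L) (hne : ∃ j, α (0, j) ≠ 0) :
    ∃ (k : ℕ) (ε η : ℝ) (r1 r2 : ℕ → ℝ → ℝ) (Q1 Q2 : ℝ → ℝ → ℝ), 0 < ε ∧ 0 < η ∧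
      (∀ j, AnalyticAt ℝ (r1 j) 0) ∧ (∀ j, AnalyticAt ℝ (r2 j) 0) ∧ (∀ j, r1 j 0 = 0) ∧
      ∀ᶠ x in 𝓝 (0 : ℝ), ∀ y, |y| < η → ContinuousAt (Q1 x) y ∧ ContinuousAt (Q2 x) y ∧
        Q1 x y ≠ 0 ∧
        a (x0 + x) (y0 + ε * y) * Q1 x y = y ^ k - ∑ j ∈ Finset.range k, r1 j x * y ^ j ∧
        c (x0 + x) (y0 + ε * y) =
          a (x0 + x) (y0 + ε * y) * Q2 x y + ∑ j ∈ Finset.range k, r2 j x * y ^ j := by
  classical
  set k := Nat.find hne
  have hk : α (0, k) ≠ 0 := Nat.find_spec hne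
  have hk0 : ∀ j < k, α (0, j) = 0 := fun j hj => by simpa using Nat.find_min hne hj
  have hK := ha.1
  have hL := hc.1
  have hap : 0 < |α (0, k)| := abs_pos.2 hk
  obtain ⟨ε, ⟨⟨hε1, hε2⟩, hε3⟩, hε⟩ : ∃ ε : ℝ, ((K * ε < 1 / 2 ∧ L * ε < 1 / 2) ∧
      K ^ (k + 2) * ε * 2 < |α (0, k)|) ∧ ε ∈ Ioi (0 : ℝ) := by
    have h1 : ∀ᶠ ε in 𝓝 (0 : ℝ), K * ε < 1 / 2 :=
      ContinuousAt.eventually_lt (by fun_prop) continuousAt_const (by simp)
    have h2 : ∀ᶠ ε in 𝓝 (0 : ℝ), L * ε < 1 / 2 :=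
      ContinuousAt.eventually_lt (by fun_prop) continuousAt_const (by simp)
    have h3 : ∀ᶠ ε in 𝓝 (0 : ℝ), K ^ (k + 2) * ε * 2 < |α (0, k)| :=
      ContinuousAt.eventually_lt (by fun_prop) continuousAt_const (by simpa using hk)
    exact ((((h1.and h2).and h3).filter_mono nhdsWithin_le_nhds).and
      (self_mem_nhdsWithin (s := Ioi (0 : ℝ)))).exists
  have hε : 0 < ε := hε
  obtain ⟨A, hA, hA0, hAe⟩ := ha.op hε hε1.le
  obtain ⟨C, hC, -, hCe⟩ := hc.op hε hε2.le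
  have b0 := ha.bd hε hε1.le 0
  set U := ser fun j => α (0, j + k) * ε ^ (j + k) with hU
  have hAU : A 0 = S ^ k * U := by
    rw [hA0]; exact ser_shift b0 k fun j hj => by simp [hk0 j hj]
  have b1 : ∀ j, |α (0, j + k) * ε ^ (j + k)| ≤ K ^ (0 + 1) * (1 / 2) ^ k * (1 / 2) ^ j :=
    fun j => by have := b0 (j + k); rw [pow_add (1 / 2 : ℝ)] at this; linarith
  set W := ser fun j => α (0, j + 1 + k) * ε ^ (j + 1 + k) with hW
  set c0 := α (0, k) * ε ^ k with hc0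
  have hc00 : c0 ≠ 0 := mul_ne_zero hk (by positivity)
  have hUW : U = c0 • 1 + S * W := by
    rw [hU, ser_succ b1]; simp [hc0, hW]
  have b2 : ∀ j, |α (0, j + 1 + k) * ε ^ (j + 1 + k)| ≤ K ^ (k + 2) * ε ^ (k + 1) * (1 / 2) ^ j :=
    fun j => by
      rw [abs_mul, abs_of_pos (pow_pos hε _)]
      calc |α (0, j + 1 + k)| * ε ^ (j + 1 + k) ≤ K ^ (0 + (j + 1 + k) + 1) * ε ^ (j + 1 + k) := by
            gcongr; exact ha.2.1 _ _
        _ = K ^ (k + 2) * ε ^ (k + 1) * (K * ε) ^ j := by ring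
        _ ≤ _ := by gcongr
  have hUu : IsUnit U := by
    have h1 : ‖-(c0⁻¹ • (S * W))‖ < 1 := by
      rw [norm_neg, norm_smul, norm_inv, Real.norm_eq_abs, inv_mul_lt_iff₀ (abs_pos.2 hc00),
        mul_one, hc0, abs_mul, abs_of_pos (pow_pos hε _)]
      calc ‖S * W‖ ≤ ‖S‖ * ‖W‖ := norm_mul_le _ _
        _ ≤ 1 * (K ^ (k + 2) * ε ^ (k + 1) * 2) := by
            gcongr
            · exact norm_S
            · exact norm_ser b2
        _ = (K ^ (k + 2) * ε * 2) * ε ^ k := by ring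
        _ < _ := by gcongr
    have h2 := isUnit_one_sub_of_norm_lt_one h1
    have h3 : U = c0 • (1 - -(c0⁻¹ • (S * W))) := by
      rw [hUW, sub_neg_eq_add, smul_add, smul_smul, mul_inv_cancel₀ hc00, one_smul]
    rw [h3, Algebra.smul_def]
    exact ((Ne.isUnit hc00).map _).mul h2
  let Lx : ℝ → E →L[ℝ] E := fun x => T ^ k * A x
  have hLa : AnalyticAt ℝ Lx 0 := analyticAt_const.mul hA
  have hL0 : Lx 0 = U := by
    change T ^ k * A 0 = U
    rw [hAU, ← mul_assoc, T_S_pow, one_mul]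
  have hinv : AnalyticAt ℝ (fun x => Ring.inverse (Lx x)) 0 := by
    refine AnalyticAt.comp (g := Ring.inverse) (f := Lx) ?_ hLa
    rw [hL0]
    exact analyticAt_inverse (𝕜 := ℝ) hUu.unit
  have hun : ∀ᶠ x in 𝓝 (0 : ℝ), IsUnit (Lx x) :=
    hLa.continuousAt.eventually (Units.isOpen.mem_nhds (show Lx 0 ∈ {x | IsUnit x} from hL0 ▸ hUu))
  have app : ∀ {B : ℝ → E →L[ℝ] E} {g : ℝ → E}, AnalyticAt ℝ B 0 → AnalyticAt ℝ g 0 →
      AnalyticAt ℝ (fun x => B x (g x)) 0 := fun hB hg =>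
    ((ContinuousLinearMap.id ℝ (E →L[ℝ] E)).analyticAt_bilinear _).comp₂ hB hg
  let q : (ℝ → E) → ℝ → E := fun g x => Ring.inverse (Lx x) ((T ^ k) (g x))
  let r : (ℝ → E) → ℝ → E := fun g x => g x - A x (q g x)
  have hq : ∀ g, AnalyticAt ℝ g 0 → AnalyticAt ℝ (q g) 0 := fun g hg =>
    app hinv (app analyticAt_const hg)
  have hr : ∀ g, AnalyticAt ℝ g 0 → AnalyticAt ℝ (r g) 0 := fun g hg => hg.sub (app hA (hq g hg))
  have hT : ∀ g x, IsUnit (Lx x) → (T ^ k) (r g x) = 0 := by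
    intro g x hx
    have : (Lx x * Ring.inverse (Lx x)) ((T ^ k) (g x)) = (T ^ k) (g x) := by
      rw [Ring.mul_inverse_cancel _ hx]; rfl
    rw [map_sub, sub_eq_zero, ← this]; rfl
  let g1 : ℝ → E := fun _ => (S ^ k) e0
  let g2 : ℝ → E := fun x => C x e0
  have hg1 : AnalyticAt ℝ g1 0 := analyticAt_const
  have hg2 : AnalyticAt ℝ g2 0 := app hC analyticAt_const
  have hq1 : U (q g1 0) = e0 := by
    change (U * Ring.inverse (Lx 0)) ((T ^ k * S ^ k) e0) = e0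
    rw [hL0, Ring.mul_inverse_cancel _ hUu, T_S_pow]; rfl
  have hr1 : r g1 0 = 0 := by
    change (S ^ k) e0 - A 0 (q g1 0) = 0
    rw [hAU, mul_apply_eq_comp, hq1, sub_self]
  have hq0 : evl 0 (q g1 0) ≠ 0 := by
    intro h
    rw [evl_zero] at h
    have := congrArg (fun b => E.fn b 0) hq1
    rw [hUW] at this
    change (c0 • q g1 0 + S (W (q g1 0))).fn 0 = 1 at this
    simp [h] at this
  have hcont : ContinuousAt (fun p : ℝ × ℝ => evl p.2 (q g1 p.1)) (0, 0) := by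
    refine ContinuousAt.clm_apply ?_ ?_
    · exact ContinuousAt.comp (g := evl) (evl_cont (by simp)) continuousAt_snd
    · exact ContinuousAt.comp (g := q g1) (hq g1 hg1).continuousAt continuousAt_fst
  obtain ⟨η, hη, hη'⟩ := Metric.eventually_nhds_iff.1 (hcont.eventually_ne hq0)
  refine ⟨k, ε, min η (1 / 2), fun j x => (r g1 x).fn j, fun j x => (r g2 x).fn j,
    fun x y => evl y (q g1 x), fun x y => evl y (q g2 x), hε, by positivity,
    fun j => (co j).analyticAt _ |>.comp (hr g1 hg1), fun j => (co j).analyticAt _ |>.comp (hr g2 hg2),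
    fun j => by simp [hr1], ?_⟩
  filter_upwards [hAe, hCe, hun, Metric.ball_mem_nhds (0 : ℝ) hη] with x h1 h2 h3 h4 y hy
  have y1 : |y| < η := hy.trans_le (min_le_left _ _)
  have y2 : |y| < 1 / 2 := hy.trans_le (min_le_right _ _)
  have y3 : |y| < 1 := by linarith
  refine ⟨(evl_cont y2).clm_apply continuousAt_const, (evl_cont y2).clm_apply continuousAt_const,
    hη' (y := (x, y)) ?_, ?_, ?_⟩
  · rw [Prod.dist_eq, max_lt_iff]
    exact ⟨h4, by simpa [Real.dist_eq] using y1⟩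
  · rw [← evl_poly y3 (hT g1 x h3), map_sub, h1 y y3, evl_S_pow y3, evl_e0 y3]; ring
  · rw [← evl_poly y3 (hT g2 x h3), map_sub, h1 y y3, h2 y y3, evl_e0 y3]; ring

end Pool.Agent.H79.NA
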