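import Pool.Agent.H79.NA3

/-! The parity obstruction for analytic maps from the plane to the half cone. -/

namespace Pool.Agent.H79.NA

open Set Filter Topology Polynomial

/-- The sign of the parallel field is constant for `x` in a punctured neighbourhood of `x0`. -/
def Wd (a c : ℝ → ℝ → ℝ) (x0 s t : ℝ) : Prop :=
  ∃ τ : ℝ, (τ = 1 ∨ τ = -1) ∧ ∀ᶠ x in 𝓝[≠] x0, Par (a x) (c x) s t τ

theorem Wd.trans {a c : ℝ → ℝ → ℝ} (hca : Continuous (Function.uncurry a)) {x0 s t w : ℝ}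
    (hst : s ≤ t) (htw : t ≤ w) (ha : a x0 t ≠ 0) (h1 : Wd a c x0 s t) (h2 : Wd a c x0 t w) :
    Wd a c x0 s w := by
  obtain ⟨τ, hτ, h1⟩ := h1
  obtain ⟨σ, hσ, h2⟩ := h2
  refine ⟨τ * σ, by rcases hτ with rfl | rfl <;> rcases hσ with rfl | rfl <;> simp, ?_⟩
  have h3 : ∀ᶠ x in 𝓝 x0, a x t ≠ 0 :=
    (hca.comp (Continuous.prodMk_left t)).continuousAt.eventually_ne ha
  filter_upwards [h1, h2, h3.filter_mono nhdsWithin_le_nhds] with x k1 k2 k3
  exact Par.trans hst htw k3 k1 k2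

theorem par_of_ne {a c : ℝ → ℝ} (ha : Continuous a) (hc : Continuous c) {s t : ℝ} (hst : s ≤ t)
    (h : ∀ y ∈ Icc s t, a y ≠ 0) : Par a c s t 1 :=
  ⟨a, c, ha.continuousOn, hc.continuousOn, fun y hy => ⟨Or.inl (h y hy), mul_comm _ _⟩,
    by rw [one_mul]; exact same_sign hst ha.continuousOn h⟩

theorem no_root {k : ℕ} {r : ℕ → ℝ} {μ Y : ℝ} (hμ : 0 < μ) (hY : μ ≤ |Y|)
    (h : ∑ j ∈ Finset.range k, |r j| / μ ^ (k - j) < 1) :
    Y ^ k - ∑ j ∈ Finset.range k, r j * Y ^ j ≠ 0 := by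
  intro h0
  have hY0 : 0 < |Y| := hμ.trans_le hY
  have h1 : |∑ j ∈ Finset.range k, r j * Y ^ j| ≤
      (∑ j ∈ Finset.range k, |r j| / μ ^ (k - j)) * |Y| ^ k := by
    rw [Finset.sum_mul]
    refine (Finset.abs_sum_le_sum_abs _ _).trans (Finset.sum_le_sum fun j hj => ?_)
    have hj' : j ≤ k := (Finset.mem_range.1 hj).le
    rw [abs_mul, abs_pow, div_mul_eq_mul_div, le_div_iff₀ (by positivity), mul_assoc]
    gcongr
    calc |Y| ^ j * μ ^ (k - j) ≤ |Y| ^ j * |Y| ^ (k - j) := by gcongr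
      _ = _ := by rw [← pow_add, Nat.add_sub_cancel' hj']
  rw [← sub_eq_zero.1 h0, abs_pow] at h1
  have : 0 < |Y| ^ k := by positivity
  nlinarith

theorem loc {a c : ℝ → ℝ → ℝ} (hca : Continuous (Function.uncurry a))
    (hcc : Continuous (Function.uncurry c)) {x0 y0 : ℝ} {α β : ℕ × ℕ → ℝ} {K L : ℝ}
    (ha : DS a x0 y0 α K) (hc : DS c x0 y0 β L) (hne : ¬ ∀ᶠ y in 𝓝 y0, a x0 y = 0) :
    ∃ η > 0, ∀ s t, y0 - η < s → s ≤ t → t < y0 + η → a x0 s ≠ 0 → a x0 t ≠ 0 →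
      Wd a c x0 s t := by
  have hne' : ∃ j, α (0, j) ≠ 0 := by
    by_contra hn
    push Not at hn
    apply hne
    have h1 : ∀ᶠ y in 𝓝 y0, K * |y - y0| < 1 :=
      ContinuousAt.eventually_lt (by fun_prop) continuousAt_const (by simp)
    filter_upwards [h1] with y hy
    have := ha.2.2 0 (y - y0) (by simp) hy
    rw [add_zero, add_sub_cancel] at this
    refine this.unique ?_
    convert hasSum_zero with ij
    rcases ij with ⟨_ | i, j⟩ <;> simp [hn]
  obtain ⟨k, ε, η, r1, r2, Q1, Q2, hε, hη, a1, a2, z1, hW⟩ := weier ha hc hne'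
  refine ⟨ε * η, by positivity, fun s t hs hst ht has hat => ?_⟩
  have hY : ∀ y ∈ Icc s t, |(y - y0) / ε| < η := fun y hy => by
    rw [abs_div, abs_of_pos hε, div_lt_iff₀ hε, abs_lt]
    constructor <;> linarith [hy.1, hy.2]
  have hYe : ∀ y, y0 + ε * ((y - y0) / ε) = y := fun y => by field_simp; ring
  by_cases hm : s < y0 ∧ y0 < t
  swap
  · refine ⟨1, Or.inl rfl, ?_⟩
    have h0 : ∀ y ∈ Icc s t, a x0 y ≠ 0 := by
      intro y hy h
      have h1 := (hW.self_of_nhds _ (hY y hy)).2.2.2.1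
      rw [hYe, add_zero, h] at h1
      simp only [z1, zero_mul, Finset.sum_const_zero, sub_zero] at h1
      have h2 : y = y0 := by
        have := pow_eq_zero_iff'.1 h1.symm
        rcases div_eq_zero_iff.1 this.1 with h3 | h3
        · linarith
        · exact absurd h3 hε.ne'
      subst h2
      apply hm
      exact ⟨lt_of_le_of_ne hy.1 fun e => has (e ▸ h), lt_of_le_of_ne hy.2 fun e => hat (e ▸ h)⟩
    have h1 : ∀ᶠ x in 𝓝 x0, ∀ y ∈ Icc s t, a x y ≠ 0 :=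
      isCompact_Icc.eventually_forall_of_forall_eventually fun y hy =>
        hca.continuousAt.eventually_ne (h0 y hy)
    filter_upwards [h1.filter_mono nhdsWithin_le_nhds] with x hx
    exact par_of_ne (hca.comp (Continuous.prodMk_right x)) (hcc.comp (Continuous.prodMk_right x))
      hst hx
  let P : An[X] := X ^ k - ∑ j ∈ Finset.range k, C ⟨r1 j, a1 j⟩ * X ^ j
  let R : An[X] := ∑ j ∈ Finset.range k, C ⟨r2 j, a2 j⟩ * X ^ j
  obtain ⟨d, hd⟩ := gcd_const P R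
  have hP : ∀ x, P.map (ev x) = X ^ k - ∑ j ∈ Finset.range k, C (r1 j x) * X ^ j := fun x => by
    simp [P, Polynomial.map_sum, ev_apply]
  have hR : ∀ x, R.map (ev x) = ∑ j ∈ Finset.range k, C (r2 j x) * X ^ j := fun x => by
    simp [R, Polynomial.map_sum, ev_apply]
  have hdeg : ∀ x, (P.map (ev x)).degree = k := fun x => by
    rw [hP, degree_sub_eq_left_of_degree_lt, degree_X_pow]
    rw [degree_X_pow]
    refine (degree_sum_le _ _).trans_lt ((Finset.sup_lt_iff (WithBot.bot_lt_coe k)).2 fun j hj => ?_)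
    exact (degree_C_mul_X_pow_le _ _).trans_lt (WithBot.coe_lt_coe.2 (Finset.mem_range.1 hj))
  set μ := min (-((s - y0) / ε)) ((t - y0) / ε) with hμ
  have hμ0 : 0 < μ := lt_min (by rw [neg_pos]; exact div_neg_of_neg_of_pos (by linarith [hm.1]) hε)
    (div_pos (by linarith [hm.2]) hε)
  have hsm : ∀ᶠ x in 𝓝 (0 : ℝ), ∑ j ∈ Finset.range k, |r1 j x| / μ ^ (k - j) < 1 := by
    refine ContinuousAt.eventually_lt ?_ continuousAt_const (by simp [z1])
    exact tendsto_finsetSum _ fun j _ => ((a1 j).continuousAt.abs.div_const _)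
  have ht0 : Tendsto (fun x => x - x0) (𝓝[≠] x0) (𝓝[≠] 0) := by
    refine tendsto_nhdsWithin_iff.2 ⟨?_, ?_⟩
    · have : Tendsto (fun x => x - x0) (𝓝 x0) (𝓝 (x0 - x0)) := tendsto_id.sub_const x0
      rw [sub_self] at this
      exact this.mono_left nhdsWithin_le_nhds
    · filter_upwards [self_mem_nhdsWithin] with x hx
      exact sub_ne_zero.2 hx
  refine ⟨(-1) ^ (k - d), neg_one_pow_eq_or ℝ _, ?_⟩
  filter_upwards [ht0.eventually ((hd.and (hW.filter_mono nhdsWithin_le_nhds)).and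
    (hsm.filter_mono nhdsWithin_le_nhds))] with x ⟨⟨⟨D, A, B, h1, h2, h3, h4⟩, h5⟩, h6⟩
  rw [add_sub_cancel] at h5
  have hPe : ∀ Y, D.eval Y * A.eval Y = Y ^ k - ∑ j ∈ Finset.range k, r1 j (x - x0) * Y ^ j :=
    fun Y => by rw [← eval_mul, ← h2, hP]; simp [eval_finsetSum]
  have hRe : ∀ Y, D.eval Y * B.eval Y = ∑ j ∈ Finset.range k, r2 j (x - x0) * Y ^ j :=
    fun Y => by rw [← eval_mul, ← h3, hR]; simp [eval_finsetSum]
  have hA : ∀ Y, μ ≤ |Y| → A.eval Y ≠ 0 := fun Y hY h => by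
    have := no_root hμ0 hY h6
    rw [← hPe, h, mul_zero] at this
    exact this rfl
  have hdA : A.natDegree = k - d := by
    have e := hdeg (x - x0)
    have hP0 : P.map (ev (x - x0)) ≠ 0 := by
      intro h; rw [h] at e; simp at e
    have e2 := natDegree_eq_of_degree_eq_some e
    rw [h2] at e2 hP0
    rw [natDegree_mul (left_ne_zero_of_mul hP0) (right_ne_zero_of_mul hP0)] at e2
    omega
  have cY : Continuous fun y : ℝ => (y - y0) / ε := by fun_prop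
  refine ⟨fun y => A.eval ((y - y0) / ε), fun y => Q2 (x - x0) ((y - y0) / ε) *
    A.eval ((y - y0) / ε) + Q1 (x - x0) ((y - y0) / ε) * B.eval ((y - y0) / ε),
    (A.continuous.comp cY).continuousOn, fun y hy => ?_, fun y hy => ?_, ?_⟩
  · refine ContinuousAt.continuousWithinAt ?_
    exact ((ContinuousAt.comp (f := fun y : ℝ => (y - y0) / ε) (h5 _ (hY y hy)).2.1 cY.continuousAt).mul
      (A.continuous.comp cY).continuousAt).add
      ((ContinuousAt.comp (f := fun y : ℝ => (y - y0) / ε) (h5 _ (hY y hy)).1 cY.continuousAt).mul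
      (B.continuous.comp cY).continuousAt)
  · obtain ⟨-, -, k1, k2, k3⟩ := h5 _ (hY y hy)
    rw [hYe, ← hPe] at k2
    rw [hYe, ← hRe] at k3
    constructor
    · by_cases hA0 : A.eval ((y - y0) / ε) = 0
      · right
        simp only [hA0, mul_zero, zero_add]
        refine mul_ne_zero k1 fun hB => ?_
        obtain ⟨p, q, hpq⟩ := h4
        have := congrArg (eval ((y - y0) / ε)) hpq
        simp [hA0, hB] at this
      · exact Or.inl hA0
    · simp only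
      rw [k3]
      linear_combination (-B.eval ((y - y0) / ε)) * k2
  · rw [← hdA]
    refine poly_sign A (fun Y hY => hA Y ?_) (fun Y hY => hA Y ?_)
    · exact (min_le_left _ _).trans ((neg_le_neg hY).trans (neg_le_abs Y))
    · exact (min_le_right _ _).trans (hY.trans (le_abs_self Y))

theorem dense_ne {g : ℝ → ℝ} (hg : AnalyticOnNhd ℝ g univ) {z : ℝ} (hz : g z ≠ 0) :
    (∀ y, ¬ ∀ᶠ w in 𝓝 y, g w = 0) ∧ Dense {y | g y ≠ 0} := by
  have h1 : ∀ y, ¬ ∀ᶠ w in 𝓝 y, g w = 0 := fun y h =>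
    hz (hg.eqOn_zero_of_preconnected_of_eventuallyEq_zero isPreconnected_univ (mem_univ y) h
      (mem_univ z))
  exact ⟨h1, fun y => mem_closure_iff_frequently.2 (not_eventually.1 (h1 y))⟩

theorem seg {a c : ℝ → ℝ → ℝ} (hca : Continuous (Function.uncurry a))
    (hcc : Continuous (Function.uncurry c)) {x0 : ℝ} (ha : ∀ y, ∃ α K, DS a x0 y α K)
    (hc : ∀ y, ∃ α K, DS c x0 y α K) (hv : AnalyticOnNhd ℝ (a x0) univ)
    (h1 : a x0 1 ≠ 0) (h2 : a x0 (-1) ≠ 0) : Wd a c x0 (-1) 1 := by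
  obtain ⟨d1, d2⟩ := dense_ne hv h1
  have L : ∀ y0, ∃ η > 0, ∀ s t, y0 - η < s → s ≤ t → t < y0 + η → a x0 s ≠ 0 → a x0 t ≠ 0 →
      Wd a c x0 s t := fun y0 => by
    obtain ⟨α, K, ha⟩ := ha y0
    obtain ⟨β, L, hc⟩ := hc y0
    exact loc hca hcc ha hc (d1 y0)
  have base : Wd a c x0 (-1) (-1) := by
    obtain ⟨η, hη, h⟩ := L (-1)
    exact h _ _ (by linarith) le_rfl (by linarith) h2 h2
  let Y : Set ℝ := {t | t ∈ Icc (-1 : ℝ) 1 ∧ ∀ t' ∈ Icc (-1) t, a x0 t' ≠ 0 → Wd a c x0 (-1) t'}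
  have y1 : (-1 : ℝ) ∈ Y := ⟨⟨le_rfl, by norm_num⟩, fun t' ht' _ => by
    rw [le_antisymm ht'.2 ht'.1]; exact base⟩
  have bdd : BddAbove Y := ⟨1, fun t ht => ht.1.2⟩
  have m1 : -1 ≤ sSup Y := le_csSup bdd y1
  obtain ⟨η, hη, h⟩ := L (sSup Y)
  obtain ⟨s, s1, s2, s3, s4⟩ : ∃ s, sSup Y - η < s ∧ s ≤ sSup Y ∧ a x0 s ≠ 0 ∧ s ∈ Y := by
    by_cases hm : sSup Y - η < -1
    · exact ⟨-1, hm, m1, h2, y1⟩
    obtain ⟨s, hs, s1, s2⟩ := d2.exists_between (show sSup Y - η < sSup Y by linarith)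
    obtain ⟨t, ht, hst⟩ := exists_lt_of_lt_csSup ⟨_, y1⟩ s2
    exact ⟨s, s1, s2.le, hs, ⟨by linarith, hst.le.trans ht.1.2⟩,
      fun t' ht' => ht.2 t' ⟨ht'.1, ht'.2.trans hst.le⟩⟩
  have key : min 1 (sSup Y + η / 2) ∈ Y := by
    refine ⟨⟨le_min (by norm_num) (by linarith), min_le_left _ _⟩, fun t' ht' hat => ?_⟩
    rcases le_total t' s with hts | hts
    · exact s4.2 t' ⟨ht'.1, hts⟩ hat
    · refine Wd.trans hca s4.1.1 hts s3 (s4.2 s ⟨s4.1.1, le_rfl⟩ s3) (h s t' s1 hts ?_ s3 hat)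
      have := ht'.2.trans (min_le_right _ _)
      linarith
  have k2 := le_csSup bdd key
  have k3 : min 1 (sSup Y + η / 2) = 1 := by
    rcases min_cases 1 (sSup Y + η / 2) with h | h
    · exact h.1
    · rw [h.1] at k2; linarith
  rw [k3] at key
  exact key.2 1 ⟨by norm_num, le_rfl⟩ h1

theorem obstruction {a b c : ℝ → ℝ → ℝ} (hca : Continuous (Function.uncurry a))
    (hcb : Continuous (Function.uncurry b)) (hcc : Continuous (Function.uncurry c))
    (ha : ∀ x y, ∃ α K, DS a x y α K) (hc : ∀ x y, ∃ α K, DS c x y α K)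
    (hv : ∀ x, AnalyticOnNhd ℝ (a x) univ) (habc : ∀ x y, a x y * b x y = c x y ^ 2)
    (top : ∀ x ∈ Ioo (-2 : ℝ) 2, a x 1 ≠ 0 ∧ a x (-1) ≠ 0)
    (right : ∀ x, 1 / 2 < x → ∀ y, a x y ≠ 0)
    (left : ∀ x, x < -(1 / 2) → (∀ y, b x y ≠ 0) ∧ 0 < c x 1 ∧ c x (-1) < 0) : False := by
  let U : ℝ → Set ℝ := fun τ => {x0 | ∀ᶠ x in 𝓝[≠] x0, Par (a x) (c x) (-1) 1 τ}
  have hU : ∀ τ, IsOpen (U τ) := fun τ => isOpen_setOfPred_eventually_nhdsWithin
  obtain ⟨x0, hx0, u1, u2⟩ := isPreconnected_Icc (a := (-1 : ℝ)) (b := 1) (U 1) (U (-1)) (hU _) (hU _)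
    (fun x hx => by
      have hx' : x ∈ Ioo (-2 : ℝ) 2 := ⟨by linarith [hx.1], by linarith [hx.2]⟩
      obtain ⟨τ, rfl | rfl, h⟩ := seg hca hcc (ha x) (hc x) (hv x) (top x hx').1 (top x hx').2
      · exact Or.inl h
      · exact Or.inr h)
    ⟨1, ⟨by norm_num, le_rfl⟩, by
      have : ∀ᶠ x in 𝓝 (1 : ℝ), 1 / 2 < x := lt_mem_nhds (by norm_num)
      filter_upwards [this.filter_mono nhdsWithin_le_nhds] with x hx
      exact par_of_ne (hca.comp (Continuous.prodMk_right x)) (hcc.comp (Continuous.prodMk_right x))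
        (by norm_num) fun y _ => right x hx y⟩
    ⟨-1, ⟨le_rfl, by norm_num⟩, by
      have : ∀ᶠ x in 𝓝 (-1 : ℝ), x < -(1 / 2) := gt_mem_nhds (by norm_num)
      filter_upwards [this.filter_mono nhdsWithin_le_nhds] with x hx
      obtain ⟨l1, l2, l3⟩ := left x hx
      refine ⟨c x, b x, (hcc.comp (Continuous.prodMk_right x)).continuousOn,
        (hcb.comp (Continuous.prodMk_right x)).continuousOn,
        fun y _ => ⟨Or.inr (l1 y), by linear_combination -habc x y⟩, by nlinarith⟩⟩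
  have h3 : ∀ᶠ x in 𝓝 x0, x ∈ Ioo (-2 : ℝ) 2 :=
    Ioo_mem_nhds (by linarith [hx0.1]) (by linarith [hx0.2])
  have u1' : ∀ᶠ x in 𝓝[≠] x0, Par (a x) (c x) (-1) 1 1 := u1
  have u2' : ∀ᶠ x in 𝓝[≠] x0, Par (a x) (c x) (-1) 1 (-1) := u2
  obtain ⟨x, ⟨p1, p2⟩, p3⟩ := ((u1'.and u2').and (h3.filter_mono nhdsWithin_le_nhds)).exists
  refine Par.excl (by norm_num) ?_ p1 p2
  have d := (dense_ne (hv x) (top x p3).1).2
  rw [← closure_Ioo (show (-1 : ℝ) ≠ 1 by norm_num)]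
  refine closure_minimal ((d.open_subset_closure_inter isOpen_Ioo).trans (closure_mono ?_))
    isClosed_closure
  exact inter_subset_inter_left _ subset_closure

end Pool.Agent.H79.NA
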