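import Pool.Agent.H79.NA4

/-! A smooth real function of one variable that is algebraic over the polynomials is analytic. -/

namespace Pool.Agent.H79.NA

open Set Filter Topology Polynomial Asymptotics
open scoped ContDiff

theorem sep_poly {h : ℝ → ℝ} {p : ℝ[X][X]} (hp : p ≠ 0) (hz : ∀ t, p.evalEval t (h t) = 0) :
    ∃ (q α β : ℝ[X][X]) (s : ℝ[X]), s ≠ 0 ∧ (∀ t, q.evalEval t (h t) = 0) ∧
      α * q + β * derivative q = C s := by
  classical
  let K := FractionRing ℝ[X]
  let φ := algebraMap ℝ[X] K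
  have hφ : Function.Injective φ := IsFractionRing.injective _ _
  have inj : Function.Injective (Polynomial.map φ) := Polynomial.map_injective φ hφ
  have lift : ∀ w : K[X], ∃ (b : ℝ[X]) (w' : ℝ[X][X]), b ≠ 0 ∧ w'.map φ = C (φ b) * w := by
    intro w
    obtain ⟨b, hb, e⟩ := IsLocalization.integerNormalization_spec (nonZeroDivisors ℝ[X]) w
    refine ⟨b, _, nonZeroDivisors.ne_zero hb, e.trans ?_⟩
    rw [Algebra.smul_def]; rfl
  have hp' : p.map φ ≠ 0 := fun e => hp (inj (by simpa using e))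
  obtain ⟨n, w, hw⟩ := UniqueFactorizationMonoid.exists_dvd_radical_self_pow hp'
  have hsep : (UniqueFactorizationMonoid.radical (p.map φ)).Separable :=
    PerfectField.separable_iff_squarefree.2 UniqueFactorizationMonoid.squarefree_radical
  obtain ⟨b, r, hb, hr⟩ := lift (UniqueFactorizationMonoid.radical (p.map φ))
  obtain ⟨b', w', hb', hw'⟩ := lift w
  obtain ⟨α, β, hαβ⟩ := hsep
  obtain ⟨u, α', hu, hα⟩ := lift α
  obtain ⟨v, β', hv, hβ⟩ := lift β
  have e1 : C b' * r ^ n = C b ^ n * p * w' := by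
    apply inj
    simp only [Polynomial.map_mul, Polynomial.map_pow, map_C, hr, hw', mul_pow, hw]
    ring
  refine ⟨C b' * r, C v * α', C u * β', u * v * b * b', by simp [hu, hv, hb, hb'], fun t => ?_, ?_⟩
  · have := congrArg (evalEval t (h t)) e1
    simp only [evalEval_mul, evalEval_pow, hz, mul_zero, zero_mul] at this
    rw [evalEval_mul]
    rcases mul_eq_zero.1 this with k | k
    · rw [k, zero_mul]
    · rw [pow_eq_zero_iff'.1 k |>.1, mul_zero]
  · apply inj
    simp only [Polynomial.map_mul, Polynomial.map_add, map_C, derivative_C_mul, ← derivative_map,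
      hr, hα, hβ, map_mul]
    linear_combination C (φ u) * C (φ v) * C (φ b) * C (φ b') * hαβ

theorem an_evalEval (p : ℝ[X][X]) (u : ℝ × ℝ) :
    AnalyticAt ℝ (fun v : ℝ × ℝ => p.evalEval v.1 v.2) u := by
  induction p using Polynomial.induction_on' with
  | add p q hp hq => simp only [evalEval_add]; exact hp.add hq
  | monomial n a =>
    simp only [← C_mul_X_pow_eq_monomial, evalEval_mul, evalEval_C, evalEval_pow, evalEval_X]
    refine AnalyticAt.mul ?_ (analyticAt_snd.pow n)
    exact AnalyticAt.comp (g := fun x => a.eval x) (f := Prod.fst)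
      (AnalyticOnNhd.eval_polynomial a _ (mem_univ _)) analyticAt_fst

theorem dvd_of_isLittleO {G : ℝ[X]} {N : ℕ}
    (h : (fun t => G.eval t) =o[𝓝 0] fun t : ℝ => t ^ N) : X ^ N ∣ G := by
  by_cases hG : G = 0
  · simp [hG]
  obtain ⟨G1, e, hn⟩ := exists_eq_pow_rootMultiplicity_mul_and_not_dvd G hG 0
  rw [C_0, sub_zero] at e hn
  set m := rootMultiplicity 0 G
  by_cases hm : N ≤ m
  · rw [e]; exact (pow_dvd_pow X hm).mul_right _
  exfalso
  have h1 : (fun t => G.eval t) =o[𝓝 0] fun t : ℝ => t ^ m :=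
    h.trans (isLittleO_pow_pow (not_le.1 hm))
  have h2 := h1.tendsto_div_nhds_zero.mono_left (nhdsWithin_le_nhds (s := {0}ᶜ))
  have h3 : Tendsto (fun t => G1.eval t) (𝓝[≠] 0) (𝓝 (G1.eval 0)) :=
    (G1.continuous.tendsto 0).mono_left nhdsWithin_le_nhds
  have h4 : (fun t => G.eval t / t ^ m) =ᶠ[𝓝[≠] 0] fun t => G1.eval t := by
    filter_upwards [self_mem_nhdsWithin] with t ht
    have : t ≠ 0 := ht
    conv_lhs => rw [e]
    simp only [eval_mul, eval_pow, eval_X]
    field_simp
  apply hn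
  rw [X_dvd_iff, coeff_zero_eq_eval_zero]
  exact tendsto_nhds_unique h3 (h2.congr' h4)

theorem an1 {h : ℝ → ℝ} (hs : ContDiff ℝ ∞ h) {p : ℝ[X][X]} (hp : p ≠ 0)
    (hz : ∀ t, p.evalEval t (h t) = 0) : AnalyticAt ℝ h 0 := by
  obtain ⟨q, α, β, s, hs0, hq, hbez⟩ := sep_poly hp hz
  obtain ⟨s1, es, hs1⟩ := exists_eq_pow_rootMultiplicity_mul_and_not_dvd s hs0 0
  rw [C_0, sub_zero] at es hs1
  set e' := rootMultiplicity 0 s
  set N := 2 * e' + 2 with hN
  obtain ⟨T, hT⟩ : ∃ T : ℝ[X], (fun t => h t - T.eval t) =o[𝓝 0] fun t : ℝ => t ^ N := by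
    have := taylor_isLittleO_univ (x₀ := 0) (n := N) (hs.of_le (by exact_mod_cast le_top))
    refine ⟨∑ k ∈ Finset.range (N + 1),
      C ((k.factorial : ℝ)⁻¹ * iteratedDerivWithin k h univ 0) * X ^ k, ?_⟩
    refine this.congr (fun t => ?_) (fun t => by simp)
    rw [taylor_within_apply]
    simp only [eval_finsetSum, eval_mul, eval_C, eval_pow, eval_X, sub_zero, smul_eq_mul]
    congr 1
    exact Finset.sum_congr rfl fun k _ => by ring
  set w : ℝ → ℝ := fun t => h t - T.eval t with hw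
  set G := q.eval T
  set H := (derivative q).eval T
  set R := divX (divX (taylor T q))
  have hexp : taylor T q = C G + C H * X + X ^ 2 * R := by
    have k1 := X_mul_divX_add (taylor T q)
    have k2 := X_mul_divX_add (divX (taylor T q))
    rw [taylor_coeff_zero] at k1
    rw [coeff_divX, zero_add, taylor_coeff_one] at k2
    linear_combination -k1 - X * k2
  have heq : ∀ t, G.eval t + H.eval t * w t + w t ^ 2 * R.evalEval t (w t) = 0 := by
    intro t
    have := congrArg (evalEval t (w t)) hexp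
    simp only [evalEval_add, evalEval_mul, evalEval_C, evalEval_pow, evalEval_X] at this
    rw [← this, ← hq t, taylor_apply]
    simp only [evalEval, eval_comp, eval_add, eval_X, eval_C]
    have : ∀ (a : ℝ[X]), eval t (eval a q) = eval t (eval (C (eval t a)) q) := fun a => by
      have k : ∀ z : ℝ[X], eval t (eval z q) = q.eval₂ (evalRingHom t) (eval t z) := fun z =>
        (eval₂_hom (evalRingHom t) z).symm
      rw [k, k, eval_C]
    rw [this]
    simp [hw]
  have hw0 : Tendsto w (𝓝 0) (𝓝 0) :=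
    hT.trans_tendsto (by simpa [hN] using (continuous_pow N).tendsto (0 : ℝ))
  have hGd : X ^ N ∣ G := by
    refine dvd_of_isLittleO (IsBigO.trans_isLittleO ?_ hT)
    have h1 : Tendsto (fun t => -(H.eval t + w t * R.evalEval t (w t))) (𝓝 0)
        (𝓝 (-(H.eval 0 + 0 * R.evalEval 0 0))) := by
      refine ((H.continuous.tendsto 0).add (hw0.mul ?_)).neg
      exact (an_evalEval R (0, 0)).continuousAt.tendsto.comp (tendsto_id.prodMk_nhds hw0)
    have h2 := (h1.isBigO_one ℝ).mul (isBigO_refl w (𝓝 0))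
    refine (h2.congr (fun t => ?_) fun t => one_mul _)
    linear_combination -heq t
  have hH : ¬ X ^ (e' + 1) ∣ H := by
    intro hd
    have h1 := congrArg (eval T) hbez
    simp only [eval_add, eval_mul, eval_C] at h1
    have h2 : X ^ (e' + 1) ∣ s := by
      rw [← h1]
      exact (((pow_dvd_pow X (by omega)).trans hGd).mul_left _).add (hd.mul_left _)
    rw [es, pow_succ, mul_dvd_mul_iff_left (pow_ne_zero _ X_ne_zero)] at h2
    exact hs1 h2
  have hH0 : H ≠ 0 := fun e => hH (by simp [e])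
  obtain ⟨H1, eH, hH1⟩ := exists_eq_pow_rootMultiplicity_mul_and_not_dvd H hH0 0
  rw [C_0, sub_zero] at eH hH1
  set e := rootMultiplicity 0 H
  have he : e ≤ e' := by
    by_contra hc
    apply hH
    rw [eH]
    exact (pow_dvd_pow X (by omega)).mul_right _
  obtain ⟨G1, eG⟩ := hGd
  have hc : H1.eval 0 ≠ 0 := by rwa [X_dvd_iff, coeff_zero_eq_eval_zero] at hH1
  obtain ⟨m, hm⟩ : ∃ m, N = 2 * e + 1 + (m + 1) := ⟨N - (2 * e + 2), by omega⟩
  let g : ℝ → ℝ := fun t => w t / t ^ (e + 1)
  have hg0 : Tendsto g (𝓝 0) (𝓝 0) :=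
    (hT.trans (isLittleO_pow_pow (by omega))).tendsto_div_nhds_zero
  have w0 : w 0 = 0 := by
    have : Tendsto w (𝓝 0) (𝓝 (w 0)) := (hs.continuous.sub T.continuous).tendsto 0
    exact tendsto_nhds_unique this hw0
  have hwg : ∀ t, w t = t ^ (e + 1) * g t := by
    intro t
    by_cases ht : t = 0
    · simp [ht, w0]
    · simp only [g]; field_simp
  let f : ℝ × ℝ → ℝ := fun v => v.1 ^ (m + 1) * G1.eval v.1 + H1.eval v.1 * v.2 +
    v.1 * v.2 ^ 2 * R.evalEval v.1 (v.1 ^ (e + 1) * v.2)
  have pa : ∀ a : ℝ[X], AnalyticAt ℝ (fun v : ℝ × ℝ => a.eval v.1) (0, 0) := fun a =>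
    AnalyticAt.comp (g := fun x => a.eval x) (f := Prod.fst)
      (AnalyticOnNhd.eval_polynomial a _ (mem_univ _)) analyticAt_fst
  have hfa : AnalyticAt ℝ f (0, 0) := by
    refine (((analyticAt_fst.pow _).mul (pa G1)).add ((pa H1).mul analyticAt_snd)).add
      ((analyticAt_fst.mul (analyticAt_snd.pow 2)).mul ?_)
    exact AnalyticAt.comp (g := fun v : ℝ × ℝ => R.evalEval v.1 v.2)
      (f := fun v : ℝ × ℝ => (v.1, v.1 ^ (e + 1) * v.2)) (an_evalEval R _)
      (analyticAt_fst.prod ((analyticAt_fst.pow _).mul analyticAt_snd))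
  have hfc : ContDiffAt ℝ ω f (0, 0) := hfa.contDiffAt
  have hfg : ∀ t, f (t, g t) = f (0, 0) := by
    intro t
    by_cases ht : t = 0
    · simp [ht, g]
    have k := heq t
    rw [eG, eH, hwg, hm] at k
    simp only [eval_mul, eval_pow, eval_X] at k
    have : f (0, 0) = 0 := by simp [f]
    rw [this]
    apply mul_left_cancel₀ (pow_ne_zero (2 * e + 1) ht)
    simp only [f]
    linear_combination k
  have hinv : (fderiv ℝ f (0, 0) ∘L ContinuousLinearMap.inr ℝ ℝ ℝ).IsInvertible := by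
    have k1 : HasFDerivAt (fun z : ℝ => f (0, z))
        (fderiv ℝ f (0, 0) ∘L ContinuousLinearMap.inr ℝ ℝ ℝ) 0 :=
      HasFDerivAt.comp (f := fun z : ℝ => ((0 : ℝ), z)) 0 hfa.differentiableAt.hasFDerivAt
        (hasFDerivAt_prodMk_right 0 0)
    have k2 : (fun z : ℝ => f (0, z)) =
        (ContinuousLinearEquiv.unitsEquivAut ℝ (Units.mk0 _ hc) : ℝ →L[ℝ] ℝ) := by
      ext z; simp [f, mul_comm]
    rw [k2] at k1
    exact ⟨_, ((ContinuousLinearMap.hasFDerivAt _).unique k1)⟩
  have hψ := (hfc.contDiffAt_implicitFunction (by simp) hinv).analyticAt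
  have hev := (tendsto_id.prodMk_nhds hg0).eventually
    (hfc.eventually_apply_eq_iff_implicitFunction (by simp) hinv)
  have hga : AnalyticAt ℝ g 0 := by
    refine hψ.congr ?_
    filter_upwards [hev] with t ht
    exact ht.1 (hfg t)
  have : h = fun t => T.eval t + t ^ (e + 1) * g t := by
    ext t; rw [← hwg]; simp [hw]
  rw [this]
  exact (AnalyticOnNhd.eval_polynomial T _ (mem_univ _)).add ((analyticAt_id.pow _).mul hga)

end Pool.Agent.H79.NA
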