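import Pool.Agent.H79.NA5

/-! A smooth function of two variables that is analytic along every line is given by convergent
double power series. -/

namespace Pool.Agent.H79.NA

open Set Filter Topology Polynomial Metric
open scoped ContDiff

theorem coeff_le_circle (q : ℂ[X]) {B : ℝ} (h : ∀ w : ℂ, ‖w‖ ≤ 1 → ‖q.eval w‖ ≤ B) (j : ℕ) :
    ‖q.coeff j‖ ≤ B := by
  have h1 : ∀ j, iteratedDeriv j (fun w => q.eval w) = fun w => (derivative^[j] q).eval w := by
    intro j
    induction j with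
    | zero => simp
    | succ j ih =>
      rw [iteratedDeriv_succ, ih, Function.iterate_succ_apply']
      ext w; exact Polynomial.deriv _
  have h2 := Complex.norm_iteratedDeriv_le_of_forall_mem_sphere_norm_le (c := 0) (R := 1) (C := B)
    (f := fun w => q.eval w) j one_pos q.differentiable.diffContOnCl
    (fun z hz => h z (by simpa using (mem_sphere_iff_norm.1 hz).le))
  rw [h1] at h2
  simp only [← coeff_zero_eq_eval_zero, coeff_iterate_derivative, zero_add,
    Nat.descFactorial_self, nsmul_eq_mul, norm_mul, Complex.norm_natCast, one_pow, div_one] at h2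
  exact le_of_mul_le_mul_left h2 (by exact_mod_cast j.factorial_pos)

theorem coef_bound (s0 : ℝ) {ρ : ℝ} (hρ : 0 < ρ) : ∃ K : ℝ, 1 ≤ K ∧ ∀ (n : ℕ) (γ : ℕ → ℝ) (B : ℝ),
    (∀ s, |s - s0| ≤ ρ → |∑ j ∈ Finset.range (n + 1), γ j * s ^ j| ≤ B) →
      ∀ j ≤ n, |γ j| ≤ B * K ^ n := by
  refine ⟨2 * ((1 + |s0|) / ρ) + 1, le_add_of_nonneg_left (by positivity), fun n γ B hB j hj => ?_⟩
  have hB0 : 0 ≤ B := (abs_nonneg _).trans (hB s0 (by simpa using hρ.le))
  let q : ℂ[X] := ∑ j ∈ Finset.range (n + 1), monomial j (γ j : ℂ)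
  have hq : ∀ w, q.eval w = ∑ j ∈ Finset.range (n + 1), (γ j : ℂ) * w ^ j := fun w => by
    simp [q, eval_finsetSum]
  have hc : q.coeff j = γ j := by
    simp [q, coeff_monomial, Nat.lt_succ_of_le hj]
  rw [← Real.norm_eq_abs, ← Complex.norm_real, ← hc]
  refine coeff_le_circle q (fun w hw => ?_) j
  let Φ : ℂ → ℂ := fun z => ∑ j ∈ Finset.range (n + 1),
    (γ j : ℂ) * (z ^ (n - j) * (s0 * z + ρ * (z ^ 2 + 1) / 2) ^ j)
  have hΦ : ∀ z : ℂ, z ≠ 0 → Φ z = z ^ n * q.eval (s0 + ρ * (z + z⁻¹) / 2) := by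
    intro z hz
    rw [hq, Finset.mul_sum]
    refine Finset.sum_congr rfl fun j hj => ?_
    have hj' : j ≤ n := Nat.lt_succ_iff.1 (Finset.mem_range.1 hj)
    have : (s0 : ℂ) * z + ρ * (z ^ 2 + 1) / 2 = z * (s0 + ρ * (z + z⁻¹) / 2) := by field_simp
    rw [this, mul_pow, ← mul_assoc (z ^ (n - j)), ← pow_add, Nat.sub_add_cancel hj']
    ring
  have hmax : ∀ z : ℂ, ‖z‖ ≤ 1 → ‖Φ z‖ ≤ B := by
    intro z hz
    refine Complex.norm_le_of_forall_mem_frontier_norm_le (U := ball 0 1) isBounded_ball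
      (Differentiable.diffContOnCl (by fun_prop)) (fun z hz => ?_)
      (by rw [closure_ball _ one_ne_zero]; simpa using hz)
    rw [frontier_ball _ one_ne_zero] at hz
    have hz1 : ‖z‖ = 1 := by simpa using hz
    have hz0 : z ≠ 0 := fun e => by simp [e] at hz1
    have e : (s0 : ℂ) + ρ * (z + z⁻¹) / 2 = ((s0 + ρ * z.re : ℝ) : ℂ) := by
      rw [Complex.inv_eq_conj hz1, Complex.add_conj]; push_cast; ring
    rw [hΦ z hz0, norm_mul, norm_pow, hz1, one_pow, one_mul, e, hq]
    have := hB (s0 + ρ * z.re) (by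
      rw [add_sub_cancel_left, abs_mul, abs_of_pos hρ]
      exact mul_le_of_le_one_right hρ.le (hz1 ▸ Complex.abs_re_le_norm z))
    rw [← Real.norm_eq_abs, ← Complex.norm_real] at this
    push_cast at this ⊢
    exact this
  set u : ℂ := (w - s0) / ρ with hu
  have hρ' : (ρ : ℂ) ≠ 0 := by exact_mod_cast hρ.ne'
  have hun : ‖u‖ ≤ (1 + |s0|) / ρ := by
    rw [hu, norm_div, Complex.norm_real, Real.norm_eq_abs, abs_of_pos hρ]
    gcongr
    exact (norm_sub_le _ _).trans (by rw [Complex.norm_real, Real.norm_eq_abs]; linarith)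
  obtain ⟨z, z', hzz, hs, hz⟩ : ∃ z z' : ℂ, z * z' = 1 ∧ z + z' = 2 * u ∧ ‖z‖ ≤ 1 := by
    obtain ⟨d, hd⟩ := IsAlgClosed.exists_eq_mul_self (u ^ 2 - 1)
    have h1 : (u + d) * (u - d) = 1 := by linear_combination hd
    by_cases h2 : ‖u + d‖ ≤ 1
    · exact ⟨u + d, u - d, h1, by ring, h2⟩
    · refine ⟨u - d, u + d, by rw [mul_comm, h1], by ring, ?_⟩
      have := congrArg norm h1
      rw [norm_mul, norm_one] at this
      by_contra h3
      nlinarith [not_le.1 h2, not_le.1 h3]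
  have hz0 : z ≠ 0 := left_ne_zero_of_mul_eq_one hzz
  have hz' : z⁻¹ = z' := inv_eq_of_mul_eq_one_right hzz
  have e : q.eval w = z' ^ n * Φ z := by
    rw [hΦ z hz0, hz', hs, ← mul_assoc, ← mul_pow, mul_comm z', hzz, one_pow, one_mul]
    congr 1
    rw [hu]; field_simp; ring
  have hn : ‖z'‖ ≤ 2 * ((1 + |s0|) / ρ) + 1 := by
    have : z' = 2 * u - z := by rw [← hs]; ring
    rw [this]
    refine (norm_sub_le _ _).trans ?_
    rw [norm_mul, Complex.norm_two]
    linarith
  rw [e, norm_mul, norm_pow, mul_comm]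
  gcongr
  exact hmax z hz

theorem diag_expand {n : ℕ} (M : ContinuousMultilinearMap ℝ (fun _ : Fin n => ℝ × ℝ) ℝ) :
    ∃ γ : ℕ → ℝ, ∀ x y, M (fun _ => (x, y)) =
      ∑ j ∈ Finset.range (n + 1), γ j * x ^ (n - j) * y ^ j := by
  classical
  let c : Finset (Fin n) → ℝ := fun s => M (s.piecewise (fun _ => (0, 1)) (fun _ => (1, 0)))
  refine ⟨fun j => ∑ s ∈ Finset.univ.filter (fun s : Finset (Fin n) => s.card = j), c s,
    fun x y => ?_⟩
  have e : (fun _ : Fin n => (x, y)) = (fun _ => ((0 : ℝ), y)) + fun _ => (x, (0 : ℝ)) := by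
    ext i <;> simp
  rw [e, M.map_add_univ, ← Finset.sum_fiberwise_of_maps_to (t := Finset.range (n + 1))
    (g := fun s : Finset (Fin n) => s.card) (fun s _ => by
      simpa [Nat.lt_succ_iff] using s.card_le_univ)]
  refine Finset.sum_congr rfl fun j _ => ?_
  rw [Finset.sum_mul, Finset.sum_mul]
  refine Finset.sum_congr rfl fun s hs => ?_
  have hs' : s.card = j := (Finset.mem_filter.1 hs).2
  have e2 : s.piecewise (fun _ => ((0 : ℝ), y)) (fun _ => (x, (0 : ℝ))) =
      fun i => (if i ∈ s then y else x) •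
        s.piecewise (fun _ => ((0 : ℝ), (1 : ℝ))) (fun _ => ((1 : ℝ), (0 : ℝ))) i := by
    funext i
    by_cases hi : i ∈ s <;> simp [hi]
  rw [e2, M.map_smul_univ, Finset.prod_ite, Finset.prod_const, Finset.prod_const]
  have k1 : (Finset.univ.filter fun i => i ∈ s).card = j := by simpa using hs'
  have k2 : (Finset.univ.filter fun i => i ∉ s).card = n - j := by
    have := Finset.card_filter_add_card_filter_not (s := Finset.univ) (fun i : Fin n => i ∈ s)
    rw [k1, Finset.card_univ, Fintype.card_fin] at this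
    omega
  rw [k1, k2, smul_eq_mul]
  ring

theorem ds_zero {F : ℝ × ℝ → ℝ} (hF : ContDiff ℝ ∞ F)
    (hl : ∀ (v : ℝ × ℝ) (t : ℝ), AnalyticAt ℝ (fun t : ℝ => F (t • v)) t) :
    ∃ β K, DS (fun x y => F (x, y)) 0 0 β K := by
  let g : ℕ → ℝ × ℝ → ℝ := fun n v => iteratedFDeriv ℝ n F 0 (fun _ => v) / n.factorial
  have hser : ∀ v, HasFPowerSeriesAt (fun t : ℝ => F (t • v))
      (FormalMultilinearSeries.ofScalars ℝ fun n => g n v) 0 := by
    intro v
    have e : (fun n => g n v) =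
        fun n => iteratedDeriv n (fun t : ℝ => F (t • v)) 0 / n.factorial := ?_
    · rw [e]; exact (hl v 0).hasFPowerSeriesAt
    funext n
    have := (ContinuousLinearMap.toSpanSingleton ℝ v).iteratedFDeriv_comp_right hF 0
      (i := n) (by exact_mod_cast le_top)
    simp only [g, iteratedDeriv]
    congr 1
    change _ = iteratedFDeriv ℝ n (F ∘ ContinuousLinearMap.toSpanSingleton ℝ v) 0 _
    rw [this]
    simp
  choose γ0 hγ0 using fun n => diag_expand (iteratedFDeriv ℝ n F 0)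
  let γ : ℕ → ℕ → ℝ := fun n j => γ0 n j / n.factorial
  have hγ : ∀ n x y, g n (x, y) = ∑ j ∈ Finset.range (n + 1), γ n j * x ^ (n - j) * y ^ j := by
    intro n x y
    simp only [g, γ, hγ0, Finset.sum_div]
    exact Finset.sum_congr rfl fun j _ => by ring
  let A : ℕ → Set ℝ := fun N => {s | ∀ n, |g n (1, s)| ≤ ((N : ℝ) + 1) ^ (n + 1)}
  obtain ⟨N, s0, hs0⟩ := nonempty_interior_of_iUnion_of_closed (f := A) (fun N => by
    simp only [A, ofPred_forall, hγ]
    exact isClosed_iInter fun n => isClosed_le (by fun_prop) continuous_const) (by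
    refine eq_univ_of_forall fun s => ?_
    obtain ⟨C, r, hC, hr, h⟩ :=
      FormalMultilinearSeries.le_mul_pow_of_radius_pos _ (hser (1, s)).radius_pos
    obtain ⟨N, hN⟩ := exists_nat_ge (max C r)
    refine mem_iUnion.2 ⟨N, fun n => ?_⟩
    have := h n
    rw [FormalMultilinearSeries.ofScalars_norm, Real.norm_eq_abs] at this
    refine this.trans ?_
    rw [pow_succ']
    gcongr
    · linarith [le_max_left C r]
    · linarith [le_max_right C r])
  obtain ⟨ρ, hρ, hρ'⟩ := Metric.nhds_basis_closedBall.mem_iff.1 (mem_interior_iff_mem_nhds.1 hs0)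
  obtain ⟨K, hK, hKb⟩ := coef_bound s0 hρ
  set M : ℝ := ((N : ℝ) + 1) * K with hM
  have hN1 : (1 : ℝ) ≤ N + 1 := by linarith [Nat.cast_nonneg (α := ℝ) N]
  have hM0 : 0 < M := by positivity
  have hb : ∀ i j, |γ (i + j) j| ≤ M ^ (i + j + 1) := by
    intro i j
    refine (hKb (i + j) (γ (i + j)) _ (fun s hs => ?_) j (by omega)).trans
      (show ((N : ℝ) + 1) ^ (i + j + 1) * K ^ (i + j) ≤ _ from ?_)
    · have := hρ' (show s ∈ closedBall s0 ρ from hs) (i + j)
      simpa [hγ] using this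
    · rw [hM, mul_pow]
      exact mul_le_mul_of_nonneg_left (pow_le_pow_right₀ hK (by omega)) (by positivity)
  have hsum : ∀ x y, M * |x| < 1 → M * |y| < 1 →
      Summable (fun ij : ℕ × ℕ => γ (ij.1 + ij.2) ij.2 * x ^ ij.1 * y ^ ij.2) ∧
      HasSum (fun n => g n (x, y)) (∑' ij : ℕ × ℕ, γ (ij.1 + ij.2) ij.2 * x ^ ij.1 * y ^ ij.2) := by
    intro x y hx hy
    have s1 : Summable (fun ij : ℕ × ℕ => γ (ij.1 + ij.2) ij.2 * x ^ ij.1 * y ^ ij.2) := by
      have := ((summable_geometric_of_lt_one (by positivity) hx).mul_of_nonneg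
        (summable_geometric_of_lt_one (by positivity) hy) (fun _ => by positivity)
        (fun _ => by positivity)).mul_left M
      refine Summable.of_norm_bounded this fun ij => ?_
      rw [Real.norm_eq_abs, abs_mul, abs_mul, abs_pow, abs_pow]
      calc _ ≤ M ^ (ij.1 + ij.2 + 1) * |x| ^ ij.1 * |y| ^ ij.2 := by gcongr; exact hb _ _
        _ = _ := by ring
    refine ⟨s1, ?_⟩
    have s2 := (Finset.HasAntidiagonal.sigmaAntidiagonalEquivProd.hasSum_iff).2 s1.hasSum
    refine s2.sigma fun n => ?_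
    rw [hγ]
    convert hasSum_fintype _ using 1
    simp only [Function.comp, Finset.HasAntidiagonal.sigmaAntidiagonalEquivProd_apply]
    rw [Finset.sum_coe_sort (Finset.HasAntidiagonal.antidiagonal n)
      (fun ij : ℕ × ℕ => γ (ij.1 + ij.2) ij.2 * x ^ ij.1 * y ^ ij.2), ← Finset.Nat.sum_antidiagonal_swap,
      Finset.Nat.sum_antidiagonal_eq_sum_range_succ_mk]
    refine Finset.sum_congr rfl fun j hj => ?_
    simp [Nat.sub_add_cancel (Nat.lt_succ_iff.1 (Finset.mem_range.1 hj))]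
  refine ⟨fun ij => γ (ij.1 + ij.2) ij.2, 2 * M, by positivity, fun i j => (hb i j).trans ?_,
    fun x y hx hy => ?_⟩
  · gcongr; linarith
  obtain ⟨s1, s2⟩ := hsum x y (by nlinarith [abs_nonneg x]) (by nlinarith [abs_nonneg y])
  obtain ⟨-, s3⟩ := hsum (2 * x) (2 * y) (by rw [abs_mul, abs_two]; linarith)
    (by rw [abs_mul, abs_two]; linarith)
  set p := FormalMultilinearSeries.ofScalars ℝ fun n => g n (x, y)
  have hr : ((2 : NNReal) : ENNReal) ≤ p.radius := by
    refine p.le_radius_of_summable (s3.summable.abs.congr fun n => ?_)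
    have : g n (2 * x, 2 * y) = 2 ^ n * g n (x, y) := by
      rw [hγ, hγ, Finset.mul_sum]
      refine Finset.sum_congr rfl fun j hj => ?_
      have hj' := Nat.lt_succ_iff.1 (Finset.mem_range.1 hj)
      have : (2 : ℝ) ^ n = 2 ^ (n - j) * 2 ^ j := by rw [← pow_add, Nat.sub_add_cancel hj']
      rw [this]; ring
    rw [this, FormalMultilinearSeries.ofScalars_norm, abs_mul]
    simp [mul_comm]
  have hp := p.hasFPowerSeriesOnBall (lt_of_lt_of_le (by norm_num) hr)
  have hp2 := hp.mono (r' := ((2 : NNReal) : ENNReal)) (by norm_num) hr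
  have h1 : (1 : ℝ) ∈ eball (0 : ℝ) ((2 : NNReal) : ENNReal) := by
    rw [Metric.eball_coe]; norm_num
  have heq : EqOn p.sum (fun t : ℝ => F (t • (x, y))) (eball (0 : ℝ) ((2 : NNReal) : ENNReal)) := by
    refine hp2.analyticOnNhd.eqOn_of_preconnected_of_eventuallyEq (fun t _ => hl _ t)
      (by rw [Metric.eball_coe]; exact (convex_ball _ _).isPreconnected)
      (z₀ := 0) (by rw [Metric.eball_coe]; norm_num) ?_
    filter_upwards [hp.hasFPowerSeriesAt.eventually_hasSum, (hser (x, y)).eventually_hasSum]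
      with t k1 k2
    rw [zero_add] at k1 k2
    exact k1.unique k2
  have h2 := hp2.hasSum (y := 1) h1
  rw [zero_add, heq h1] at h2
  simp only [p, FormalMultilinearSeries.ofScalars_apply_eq, one_pow, smul_eq_mul, mul_one,
    one_smul] at h2
  simp only [zero_add]
  rw [h2.unique s2]
  exact s1.hasSum

theorem ds_of_lines {F : ℝ × ℝ → ℝ} (hF : ContDiff ℝ ∞ F)
    (hl : ∀ p v : ℝ × ℝ, AnalyticAt ℝ (fun t : ℝ => F (p + t • v)) 0) :
    (∀ x0 y0, ∃ β K, DS (fun x y => F (x, y)) x0 y0 β K) ∧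
      ∀ x, AnalyticOnNhd ℝ (fun y => F (x, y)) univ := by
  have hl' : ∀ (p v : ℝ × ℝ) (t : ℝ), AnalyticAt ℝ (fun t : ℝ => F (p + t • v)) t := by
    intro p v t0
    have h1 := AnalyticAt.comp_of_eq (hl (p + t0 • v) v) (f := fun t : ℝ => t - t0) (x := t0)
      (by fun_prop) (sub_self t0)
    convert h1 using 2 with t
    simp only [Function.comp]
    congr 1
    rw [sub_smul]; abel
  refine ⟨fun x0 y0 => ?_, fun x y _ => by simpa using hl' (x, 0) (0, 1) y⟩
  obtain ⟨β, K, h⟩ := ds_zero (F := fun z => F ((x0, y0) + z))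
    (hF.comp (contDiff_const.add contDiff_id)) (hl' (x0, y0))
  exact ⟨β, K, h.1, h.2.1, fun x y hx hy => by simpa using h.2.2 x y hx hy⟩

end Pool.Agent.H79.NA
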