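import Mathlib

/-! Semialgebraic sets and maps, Nash maps, Nash approximation targets, analytic paths. -/

namespace Pool.Agent.H79.NA

open Set
open scoped ContDiff

/-- Euclidean space `ℝ^n`. -/
abbrev Euc (n : ℕ) := EuclideanSpace ℝ (Fin n)

/-- Semialgebraic subsets of `ℝ^σ`: finite Boolean combinations of sets `p > 0` and `p = 0`. -/
inductive IsSA {σ : Type} : Set (σ → ℝ) → Prop
  | pos (p : MvPolynomial σ ℝ) : IsSA {x | 0 < MvPolynomial.eval x p}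
  | zero (p : MvPolynomial σ ℝ) : IsSA {x | MvPolynomial.eval x p = 0}
  | union {A B : Set (σ → ℝ)} : IsSA A → IsSA B → IsSA (A ∪ B)
  | inter {A B : Set (σ → ℝ)} : IsSA A → IsSA B → IsSA (A ∩ B)
  | compl {A : Set (σ → ℝ)} : IsSA A → IsSA Aᶜ

/-- A semialgebraic subset of Euclidean space. -/
def SASet {m : ℕ} (S : Set (Euc m)) : Prop := IsSA {z : Fin m → ℝ | ∃ x ∈ S, z = x.ofLp}

/-- The restriction of `f` to `S` is semialgebraic: its graph is a semialgebraic set. -/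
def SAMap {m n : ℕ} (S : Set (Euc m)) (f : Euc m → Euc n) : Prop :=
  IsSA {z : Fin m ⊕ Fin n → ℝ | ∃ x ∈ S, z = Sum.elim x.ofLp (f x).ofLp}

/-- The restriction of the real function `h` to `S` is semialgebraic: its graph is. -/
def SAFun {m : ℕ} (S : Set (Euc m)) (h : Euc m → ℝ) : Prop :=
  IsSA {z : Fin m ⊕ Unit → ℝ | ∃ x ∈ S, z = Sum.elim x.ofLp fun _ => h x}

/-- `h` is a Nash function (smooth and semialgebraic) on the open semialgebraic set `Ω`. -/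
def NashFun {m : ℕ} (Ω : Set (Euc m)) (h : Euc m → ℝ) : Prop :=
  IsOpen Ω ∧ SASet Ω ∧ ContDiffOn ℝ ∞ h Ω ∧ SAFun Ω h

/-- Every component of `g` on `S` is the restriction of a Nash function on an open semialgebraic
set containing `S`. -/
def NashMap {m n : ℕ} (S : Set (Euc m)) (g : Euc m → Euc n) : Prop :=
  ∀ i, ∃ Ω h, NashFun Ω h ∧ S ⊆ Ω ∧ ∀ x ∈ S, g x i = h x

/-- `T` is an `(N,0)`-ats: Nash maps `S → T` are dense in the continuous semialgebraic maps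
`S → T`, for every non-empty locally compact semialgebraic `S ⊆ ℝ^m`, `m ≥ 1`. -/
def ATS {n : ℕ} (T : Set (Euc n)) : Prop :=
  ∀ m, 1 ≤ m → ∀ S : Set (Euc m), S.Nonempty → SASet S → LocallyCompactSpace S →
    ∀ f : Euc m → Euc n, ContinuousOn f S → MapsTo f S T → SAMap S f →
      ∀ ε : Euc m → ℝ, ContinuousOn ε S → (∀ x ∈ S, 0 < ε x) → SAFun S ε →
        ∃ g : Euc m → Euc n, NashMap S g ∧ MapsTo g S T ∧ ∀ x ∈ S, ‖g x - f x‖ < ε x

/-- An analytic path in `T`: analytic on an open interval around `[0,1]`, sending `[0,1]`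
into `T`. -/
def AnPath {n : ℕ} (T : Set (Euc n)) (α : ℝ → Euc n) : Prop :=
  (∃ a < 0, ∃ b > 1, AnalyticOnNhd ℝ α (Ioo a b)) ∧ MapsTo α (Icc 0 1) T

/-- Connected by analytic paths. -/
def ConnAn {n : ℕ} (T : Set (Euc n)) : Prop :=
  ∀ p ∈ T, ∀ q ∈ T, ∃ α, AnPath T α ∧ α 0 = p ∧ α 1 = q

/-- Locally connected by analytic paths. -/
def LocConnAn {n : ℕ} (T : Set (Euc n)) : Prop :=
  ∀ x ∈ T, ∀ U, IsOpen U → x ∈ U →
    ∃ W, IsOpen W ∧ SASet W ∧ x ∈ W ∧ W ⊆ U ∧ ConnAn (T ∩ W)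

/-- The half cone `x² + y² = z²`, `z ≥ 0`. -/
def halfCone : Set (Euc 3) := {p | p 0 ^ 2 + p 1 ^ 2 = p 2 ^ 2 ∧ 0 ≤ p 2}

end Pool.Agent.H79.NA
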