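import Pool.Agent.H79.NA6
import Pool.Agent.H79.NADefs

/-! The half cone is locally connected by analytic paths and is not a Nash approximation target. -/

namespace Pool.Agent.H79.NA

open Set Filter Topology Polynomial Metric
open scoped ContDiff

theorem IsSA.of_iff {σ : Type} {A B : Set (σ → ℝ)} (h : IsSA A) (e : ∀ z, z ∈ B ↔ z ∈ A) :
    IsSA B := by
  rwa [Set.ext e]

theorem saSet_iff {m : ℕ} {S : Set (Euc m)} {A : Set (Fin m → ℝ)} (h : IsSA A)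
    (e : ∀ x : Euc m, x ∈ S ↔ x.ofLp ∈ A) : SASet S :=
  h.of_iff fun z => ⟨fun ⟨x, hx, hz⟩ => hz ▸ (e x).1 hx,
    fun hz => ⟨WithLp.toLp 2 z, (e _).2 hz, rfl⟩⟩

theorem IsSA.loc_const {σ : Type} {A : Set (σ → ℝ)} (h : IsSA A) (φ : σ → ℝ[X][X]) :
    ∃ q : ℝ[X][X], q ≠ 0 ∧ ∀ u : ℝ × ℝ, q.evalEval u.1 u.2 ≠ 0 → ∀ᶠ w in 𝓝 u,
      ((fun i => (φ i).evalEval w.1 w.2) ∈ A ↔ (fun i => (φ i).evalEval u.1 u.2) ∈ A) := by
  have ev : ∀ (p : MvPolynomial σ ℝ) (w : ℝ × ℝ),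
      MvPolynomial.eval (fun i => (φ i).evalEval w.1 w.2) p =
        (MvPolynomial.aeval φ p).evalEval w.1 w.2 := by
    intro p w
    induction p using MvPolynomial.induction_on with
    | C a => simp [evalEval_C]
    | add p q hp hq => simp [hp, hq, evalEval_add]
    | mul_X p i hp => simp [hp, evalEval_mul]
  have sg : ∀ (Q : ℝ[X][X]) (u : ℝ × ℝ), Q.evalEval u.1 u.2 ≠ 0 → ∀ᶠ w in 𝓝 u,
      0 < Q.evalEval w.1 w.2 * Q.evalEval u.1 u.2 := fun Q u hu =>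
    ContinuousAt.eventually_lt continuousAt_const
      ((an_evalEval Q u).continuousAt.mul continuousAt_const) (mul_self_pos.2 hu)
  induction h with
  | pos p =>
    by_cases h0 : MvPolynomial.aeval φ p = 0
    · exact ⟨1, one_ne_zero, fun u _ => Eventually.of_forall fun w => by simp [ev, h0]⟩
    · refine ⟨_, h0, fun u hu => (sg _ u hu).mono fun w hw => ?_⟩
      simp only [mem_ofPred_eq, ev]
      exact pos_iff_pos_of_mul_pos hw
  | zero p =>
    by_cases h0 : MvPolynomial.aeval φ p = 0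
    · exact ⟨1, one_ne_zero, fun u _ => Eventually.of_forall fun w => by simp [ev, h0]⟩
    · refine ⟨_, h0, fun u hu => (sg _ u hu).mono fun w hw => ?_⟩
      simp only [mem_ofPred_eq, ev]
      exact iff_of_false (left_ne_zero_of_mul hw.ne') hu
  | union _ _ h1 h2 =>
    obtain ⟨p, hp, h1⟩ := h1
    obtain ⟨q, hq, h2⟩ := h2
    refine ⟨p * q, mul_ne_zero hp hq, fun u hu => ?_⟩
    rw [evalEval_mul] at hu
    filter_upwards [h1 u (left_ne_zero_of_mul hu), h2 u (right_ne_zero_of_mul hu)] with w k1 k2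
    exact or_congr k1 k2
  | inter _ _ h1 h2 =>
    obtain ⟨p, hp, h1⟩ := h1
    obtain ⟨q, hq, h2⟩ := h2
    refine ⟨p * q, mul_ne_zero hp hq, fun u hu => ?_⟩
    rw [evalEval_mul] at hu
    filter_upwards [h1 u (left_ne_zero_of_mul hu), h2 u (right_ne_zero_of_mul hu)] with w k1 k2
    exact and_congr k1 k2
  | compl _ h1 =>
    obtain ⟨p, hp, h1⟩ := h1
    exact ⟨p, hp, fun u hu => (h1 u hu).mono fun w hw => not_congr hw⟩

theorem line_analytic {m : ℕ} {h : Euc m → ℝ} (hs : ContDiff ℝ ∞ h) (hA : SAFun univ h)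
    (p v : Euc m) : AnalyticAt ℝ (fun t : ℝ => h (p + t • v)) 0 := by
  obtain ⟨q, hq, H⟩ := IsSA.loc_const hA
    (Sum.elim (fun i => C (C (p i) + C (v i) * X)) fun _ => X)
  refine an1 (hs.comp (by fun_prop)) hq fun t => ?_
  by_contra hne
  have e : ∀ z : ℝ, (fun i => (Sum.elim (fun i => C (C (p i) + C (v i) * X)) (fun _ : Unit => X)
      i : ℝ[X][X]).evalEval t z) = Sum.elim (p + t • v).ofLp fun _ => z := by
    intro z
    funext i
    rcases i with i | i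
    · simp only [Sum.elim_inl, evalEval_C, eval_add, eval_mul, eval_C, eval_X, PiLp.add_apply,
        PiLp.smul_apply, smul_eq_mul]
      ring
    · simp
  have h1 := (Continuous.prodMk_right t).continuousAt.eventually (H (t, h (p + t • v)) hne)
  have h2 : ∀ᶠ z in 𝓝 (h (p + t • v)), z = h (p + t • v) := by
    filter_upwards [h1] with z hz
    simp only [e] at hz
    obtain ⟨x, -, hx⟩ := hz.2 ⟨p + t • v, mem_univ _, rfl⟩
    have k1 : p + t • v = x := by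
      ext i; exact congrFun hx (Sum.inl i)
    rw [k1]; exact congrFun hx (Sum.inr ())
  obtain ⟨z, hz1, hz2⟩ := ((h2.filter_mono nhdsWithin_le_nhds).and
    (self_mem_nhdsWithin (s := {h (p + t • v)}ᶜ))).exists
  exact hz2 hz1

theorem sa_univ {σ : Type} : IsSA (univ : Set (σ → ℝ)) :=
  (IsSA.zero 0).of_iff fun z => by simp

theorem IsSA.nonneg {σ : Type} (p : MvPolynomial σ ℝ) : IsSA {x | 0 ≤ MvPolynomial.eval x p} :=
  (IsSA.pos (-p)).compl.of_iff fun z => by simp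

theorem not_ats : ¬ ATS halfCone := by
  intro H
  let f : Euc 2 → Euc 3 := fun x => !₂[x 0, x 1, √(x 0 ^ 2 + x 1 ^ 2)]
  obtain ⟨g, hN, hT, hε⟩ := H 2 (by norm_num) univ univ_nonempty
    (saSet_iff sa_univ fun x => by simp) isClosed_univ.locallyCompactSpace f
    (Continuous.continuousOn (by
      refine (PiLp.continuous_toLp 2 _).comp (continuous_pi fun i => ?_)
      fin_cases i <;> simp <;> fun_prop))
    (fun x _ => ⟨by simp [f, Real.sq_sqrt (add_nonneg (sq_nonneg _) (sq_nonneg _))], by simp [f]⟩)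
    (by
      refine ((((IsSA.zero (.X (.inr 0) - .X (.inl 0))).inter
        (IsSA.zero (.X (.inr 1) - .X (.inl 1)))).inter
        (IsSA.zero (.X (.inr 2) ^ 2 - .X (.inl 0) ^ 2 - .X (.inl 1) ^ 2))).inter
        (IsSA.nonneg (.X (.inr 2)))).of_iff fun z => ⟨?_, ?_⟩
      · rintro ⟨x, -, rfl⟩
        simp [f, Real.sq_sqrt (add_nonneg (sq_nonneg _) (sq_nonneg _))]
      · intro hz
        simp only [mem_inter_iff, mem_ofPred_eq, map_sub, map_pow, MvPolynomial.eval_X] at hz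
        obtain ⟨⟨⟨h0, h1⟩, h2⟩, h3⟩ := hz
        refine ⟨WithLp.toLp 2 fun i => z (.inl i), mem_univ _, funext fun i => ?_⟩
        rcases i with i | i
        · simp
        · fin_cases i
          · simpa [f, sub_eq_zero] using h0
          · simpa [f, sub_eq_zero] using h1
          · simp only [f]
            simp
            rw [eq_comm, Real.sqrt_eq_iff_mul_self_eq (by positivity) h3]
            linarith)
    (fun _ => 1 / 4) continuousOn_const (fun _ _ => by norm_num)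
    ((IsSA.zero (.X (.inr ()) - .C (1 / 4))).of_iff fun z => ⟨by
      rintro ⟨x, -, rfl⟩; simp, fun hz => ⟨WithLp.toLp 2 fun i => z (.inl i), mem_univ _,
        funext fun i => by
          rcases i with i | i
          · simp
          · simpa [sub_eq_zero] using hz⟩⟩)
  choose Ω h hΩ hS hg using hN
  have hΩ' : ∀ i, Ω i = univ := fun i => univ_subset_iff.1 (hS i)
  have hs : ∀ i, ContDiff ℝ ∞ (h i) := fun i => by
    rw [← contDiffOn_univ, ← hΩ' i]; exact (hΩ i).2.2.1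
  have hA : ∀ i, SAFun univ (h i) := fun i => by rw [← hΩ' i]; exact (hΩ i).2.2.2
  let ι : ℝ × ℝ → Euc 2 := fun v => !₂[v.1, v.2]
  have hι : ContDiff ℝ ∞ ι := contDiff_euclidean.2 fun i => by
    fin_cases i <;> simp [ι] <;> fun_prop
  let F : Fin 3 → ℝ × ℝ → ℝ := fun i v => h i (ι v)
  have hF : ∀ i, ContDiff ℝ ∞ (F i) := fun i => (hs i).comp hι
  have hl : ∀ i (p v : ℝ × ℝ), AnalyticAt ℝ (fun t : ℝ => F i (p + t • v)) 0 := fun i p v => by
    convert line_analytic (hs i) (hA i) (ι p) (ι v) using 2 with t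
    simp only [F]
    congr 1
    ext j; fin_cases j <;> simp [ι]
  have cone : ∀ v, F 0 v ^ 2 + F 1 v ^ 2 = F 2 v ^ 2 ∧ 0 ≤ F 2 v := fun v => by
    have := hT (mem_univ (ι v))
    simpa only [halfCone, mem_ofPred_eq, hg _ _ (mem_univ _)] using this
  have near : ∀ v i, |F i v - f (ι v) i| < 1 / 4 := fun v i => by
    have := (PiLp.norm_apply_le (g (ι v) - f (ι v)) i).trans_lt (hε _ (mem_univ _))
    simpa [hg _ _ (mem_univ _)] using this
  have n0 : ∀ x y, |F 0 (x, y) - x| < 1 / 4 := fun x y => by simpa [f, ι] using near (x, y) 0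
  have n1 : ∀ x y, |F 1 (x, y) - y| < 1 / 4 := fun x y => by simpa [f, ι] using near (x, y) 1
  obtain ⟨da, va⟩ := ds_of_lines (F := fun v => F 2 v + F 0 v) ((hF 2).add (hF 0))
    fun p v => (hl 2 p v).add (hl 0 p v)
  obtain ⟨dc, -⟩ := ds_of_lines (hF 1) (hl 1)
  have habc : ∀ x y, (F 2 (x, y) + F 0 (x, y)) * (F 2 (x, y) - F 0 (x, y)) = F 1 (x, y) ^ 2 :=
    fun x y => by linear_combination -(cone (x, y)).1
  refine obstruction (a := fun x y => F 2 (x, y) + F 0 (x, y))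
    (b := fun x y => F 2 (x, y) - F 0 (x, y)) (c := fun x y => F 1 (x, y))
    ((hF 2).add (hF 0)).continuous ((hF 2).sub (hF 0)).continuous (hF 1).continuous da dc va habc
    (fun x _ => ⟨fun e => ?_, fun e => ?_⟩) (fun x hx y => ?_) (fun x hx => ⟨fun y => ?_, ?_, ?_⟩)
  · have k := habc x 1
    rw [e, zero_mul, eq_comm, sq_eq_zero_iff] at k
    have := n1 x 1
    rw [k] at this; norm_num at this
  · have k := habc x (-1)
    rw [e, zero_mul, eq_comm, sq_eq_zero_iff] at k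
    have := n1 x (-1)
    rw [k] at this; norm_num at this
  · have := abs_lt.1 (n0 x y)
    exact (by linarith [(cone (x, y)).2] : 0 < F 2 (x, y) + F 0 (x, y)).ne'
  · have := abs_lt.1 (n0 x y)
    exact (by linarith [(cone (x, y)).2] : 0 < F 2 (x, y) - F 0 (x, y)).ne'
  · have := abs_lt.1 (n1 x 1)
    linarith
  · have := abs_lt.1 (n1 x (-1))
    linarith

theorem sa_halfCone : SASet halfCone :=
  saSet_iff ((IsSA.zero (.X 0 ^ 2 + .X 1 ^ 2 - .X 2 ^ 2)).inter (IsSA.nonneg (.X 2)))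
    fun x => by simp [halfCone, sub_eq_zero]

/-- A rotated double cover of the half cone. -/
def ψ (e1 e2 : ℝ) (w : ℝ × ℝ) : Euc 3 :=
  !₂[(e1 * w.1 - e2 * w.2) ^ 2 - (e2 * w.1 + e1 * w.2) ^ 2,
    2 * (e1 * w.1 - e2 * w.2) * (e2 * w.1 + e1 * w.2),
    (e1 * w.1 - e2 * w.2) ^ 2 + (e2 * w.1 + e1 * w.2) ^ 2]

theorem ψ_mem (e1 e2 : ℝ) (w : ℝ × ℝ) : ψ e1 e2 w ∈ halfCone :=
  ⟨by simp [ψ]; ring, by simp [ψ]; positivity⟩

theorem ψ_smooth (e1 e2 : ℝ) : ContDiff ℝ ω (ψ e1 e2) :=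
  contDiff_euclidean.2 fun i => by fin_cases i <;> simp [ψ] <;> fun_prop

theorem ψ_neg (e1 e2 : ℝ) (w : ℝ × ℝ) : ψ e1 e2 (-w) = ψ e1 e2 w := by
  ext i; fin_cases i <;> simp [ψ] <;> ring

theorem root {p : Euc 3} (hp : p ∈ halfCone) :
    ∃ s t : ℝ, p 0 = s ^ 2 - t ^ 2 ∧ p 1 = 2 * s * t ∧ p 2 = s ^ 2 + t ^ 2 := by
  obtain ⟨d, hd⟩ := IsAlgClosed.exists_eq_mul_self (⟨p 0, p 1⟩ : ℂ)
  have h0 : p 0 = d.re ^ 2 - d.im ^ 2 := by simpa [sq] using congrArg Complex.re hd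
  have h1 : p 1 = 2 * d.re * d.im := by
    have := congrArg Complex.im hd
    simp at this; linarith
  refine ⟨d.re, d.im, h0, h1, ?_⟩
  rw [← sq_eq_sq₀ hp.2 (by positivity), ← hp.1, h0, h1]; ring

theorem ψ_surj {e1 e2 : ℝ} (he : e1 ^ 2 + e2 ^ 2 = 1) {p : Euc 3} (hp : p ∈ halfCone) :
    ∃ w : ℝ × ℝ, 0 ≤ w.1 ∧ ψ e1 e2 w = p := by
  obtain ⟨s, t, h0, h1, h2⟩ := root hp
  have : ψ e1 e2 (e1 * s + e2 * t, -e2 * s + e1 * t) = p := by
    have k1 : e1 * (e1 * s + e2 * t) - e2 * (-e2 * s + e1 * t) = s := by linear_combination s * he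
    have k2 : e2 * (e1 * s + e2 * t) + e1 * (-e2 * s + e1 * t) = t := by linear_combination t * he
    ext i; fin_cases i <;> simp only [ψ, k1, k2] <;> simp [h0, h1, h2]
  rcases le_total 0 (e1 * s + e2 * t) with h | h
  · exact ⟨_, h, this⟩
  · exact ⟨-(e1 * s + e2 * t, -e2 * s + e1 * t), neg_nonneg.2 h, by rw [ψ_neg, this]⟩

theorem locConn : LocConnAn halfCone := by
  intro P hP U hU hPU
  obtain ⟨N, e1, e2, hN, he, hψ⟩ : ∃ N e1 e2 : ℝ, 0 ≤ N ∧ e1 ^ 2 + e2 ^ 2 = 1 ∧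
      ψ e1 e2 (N, 0) = P := by
    obtain ⟨s, t, h0, h1, h2⟩ := root hP
    refine ⟨‖(⟨s, t⟩ : ℂ)‖, Real.cos (Complex.arg ⟨s, t⟩), Real.sin (Complex.arg ⟨s, t⟩),
      norm_nonneg _, Real.cos_sq_add_sin_sq _, ?_⟩
    have k1 := Complex.norm_mul_cos_arg ⟨s, t⟩
    have k2 := Complex.norm_mul_sin_arg ⟨s, t⟩
    rw [mul_comm] at k1 k2
    ext i; fin_cases i <;> simp only [ψ, mul_zero, sub_zero, add_zero, k1, k2] <;> simp [h0, h1, h2]
  obtain ⟨r, hr, hrU⟩ := Metric.isOpen_iff.1 hU P hPU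
  obtain ⟨δ, hδ, hδr⟩ := Metric.continuousAt_iff.1
    ((ψ_smooth e1 e2).continuous.continuousAt (x := (N, 0))) r hr
  rw [hψ] at hδr
  let L : Euc 3 → ℝ := fun p => (p 2 + (e1 ^ 2 - e2 ^ 2) * p 0 + 2 * e1 * e2 * p 1) / 2
  let M : Euc 3 → ℝ := fun p => (p 2 - (e1 ^ 2 - e2 ^ 2) * p 0 - 2 * e1 * e2 * p 1) / 2
  have hL : ∀ w, L (ψ e1 e2 w) = w.1 ^ 2 := fun w => by
    simp [L, ψ]
    linear_combination (w.1 ^ 2 * (e1 ^ 2 + e2 ^ 2) / 2 + w.1 ^ 2 -
      w.2 ^ 2 * (e1 ^ 2 + e2 ^ 2) / 2) * he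
  have hM : ∀ w, M (ψ e1 e2 w) = w.2 ^ 2 := fun w => by
    simp [M, ψ]
    linear_combination (w.2 ^ 2 * (e1 ^ 2 + e2 ^ 2) / 2 + w.2 ^ 2 -
      w.1 ^ 2 * (e1 ^ 2 + e2 ^ 2) / 2) * he
  let W : Set (Euc 3) := (({p | (N - δ) * |N - δ| < L p} ∩ {p | L p < (N + δ) ^ 2}) ∩
    {p | M p < δ ^ 2}) ∩ ball P r
  have hW1 : ∀ w ∈ ball ((N, 0) : ℝ × ℝ) δ, ψ e1 e2 w ∈ W := by
    intro w hw
    have hw' := hw
    rw [mem_ball, Prod.dist_eq, max_lt_iff, Real.dist_eq, Real.dist_eq, sub_zero, abs_lt,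
      abs_lt] at hw'
    refine ⟨⟨⟨?_, ?_⟩, ?_⟩, hδr hw⟩ <;> simp only [mem_ofPred_eq, hL, hM]
    · rcases lt_or_ge (N - δ) 0 with h | h
      · rw [abs_of_neg h]; nlinarith
      · rw [abs_of_nonneg h]; nlinarith
    · nlinarith
    · nlinarith
  have hW2 : ∀ p ∈ halfCone ∩ W, ∃ w ∈ ball ((N, 0) : ℝ × ℝ) δ, ψ e1 e2 w = p := by
    intro p hp
    obtain ⟨w, hw0, rfl⟩ := ψ_surj he hp.1
    refine ⟨w, ?_, rfl⟩
    obtain ⟨⟨⟨k1, k2⟩, k3⟩, -⟩ := hp.2
    simp only [mem_ofPred_eq, hL, hM] at k1 k2 k3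
    rw [mem_ball, Prod.dist_eq, max_lt_iff, Real.dist_eq, Real.dist_eq, sub_zero, abs_lt]
    refine ⟨⟨?_, by nlinarith⟩, abs_lt_of_sq_lt_sq k3 hδ.le⟩
    rcases lt_or_ge (N - δ) 0 with h | h
    · linarith
    · rw [abs_of_nonneg h] at k1; nlinarith
  refine ⟨W, ?_, ?_, hψ ▸ hW1 _ (mem_ball_self hδ), inter_subset_right.trans hrU, ?_⟩
  · exact (((isOpen_lt continuous_const (by fun_prop)).inter
      (isOpen_lt (by fun_prop) continuous_const)).inter
      (isOpen_lt (by fun_prop) continuous_const)).inter isOpen_ball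
  · let l : MvPolynomial (Fin 3) ℝ := .C (1 / 2) *
      (.X 2 + .C (e1 ^ 2 - e2 ^ 2) * .X 0 + .C (2 * e1 * e2) * .X 1)
    let m : MvPolynomial (Fin 3) ℝ := .C (1 / 2) *
      (.X 2 - .C (e1 ^ 2 - e2 ^ 2) * .X 0 - .C (2 * e1 * e2) * .X 1)
    refine saSet_iff ((((IsSA.pos (l - .C ((N - δ) * |N - δ|))).inter
      (IsSA.pos (.C ((N + δ) ^ 2) - l))).inter (IsSA.pos (.C (δ ^ 2) - m))).inter
      (IsSA.pos (.C (r ^ 2) - ∑ i, (.X i - .C (P i)) ^ 2))) fun x => ?_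
    have e1 : MvPolynomial.eval x.ofLp l = L x := by simp [l, L]; ring
    have e2 : MvPolynomial.eval x.ofLp m = M x := by simp [m, M]; ring
    simp only [W, mem_inter_iff, mem_ofPred_eq, map_sub, e1, e2, MvPolynomial.eval_C, sub_pos,
      mem_ball, EuclideanSpace.dist_eq, Real.sqrt_lt' hr, map_sum, map_pow, MvPolynomial.eval_X,
      Real.dist_eq, sq_abs]
  · intro p hp q hq
    obtain ⟨w1, h1, rfl⟩ := hW2 p hp
    obtain ⟨w2, h2, rfl⟩ := hW2 q hq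
    refine ⟨fun τ => ψ e1 e2 (w1 + τ • (w2 - w1)), ⟨⟨-1, by norm_num, 2, by norm_num, ?_⟩,
      fun τ hτ => ⟨ψ_mem _ _ _, hW1 _ ((convex_ball _ _).add_smul_sub_mem h1 h2 hτ)⟩⟩,
      by simp, by simp⟩
    exact ((ψ_smooth e1 e2).comp (by fun_prop)).analyticOnNhd

end Pool.Agent.H79.NA
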