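import Mathlib

set_option autoImplicit false

namespace Pool.Agent.H79.OIDefs

open MvPolynomial

/-- the two index categories -/
inductive Kind where
  | OI
  | FI

/-- morphisms `[m] → [n]`: strictly increasing maps for `OI`, injective maps for `FI` -/
def Kind.Ok : Kind → ∀ {m n : ℕ}, (Fin m → Fin n) → Prop
  | .OI, _, _, ε => StrictMono ε
  | .FI, _, _, ε => Function.Injective ε

/-- a module over the polynomial `OI`- or `FI`-algebra `n ↦ K[x_1, ..., x_n]` (the case `c = 1`) -/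
structure PMod (κ : Kind) (K : Type) [Field K] where
  /-- the module in width `n` -/
  M : ℕ → Type
  [acg : ∀ n, AddCommGroup (M n)]
  [mod : ∀ n, Module (MvPolynomial (Fin n) K) (M n)]
  /-- the action of morphisms -/
  map : ∀ {m n : ℕ} (ε : Fin m → Fin n), κ.Ok ε → M m →+ M n
  map_id : ∀ (n : ℕ) (h : κ.Ok (id : Fin n → Fin n)) (u : M n), map id h u = u
  map_comp : ∀ {l m n : ℕ} (ε : Fin l → Fin m) (δ : Fin m → Fin n) (hε : κ.Ok ε) (hδ : κ.Ok δ)
    (h : κ.Ok (δ ∘ ε)) (u : M l), map (δ ∘ ε) h u = map δ hδ (map ε hε u)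
  map_smul : ∀ {m n : ℕ} (ε : Fin m → Fin n) (h : κ.Ok ε) (p : MvPolynomial (Fin m) K) (u : M m),
    map ε h (p • u) = rename ε p • map ε h u

attribute [instance] PMod.acg PMod.mod

variable {κ : Kind} {K : Type} [Field K]

/-- some finite set of elements lies in no proper submodule -/
def PMod.FG (A : PMod κ K) : Prop :=
  ∃ S : Set (Σ n, A.M n), S.Finite ∧
    ∀ N : ∀ n, Submodule (MvPolynomial (Fin n) K) (A.M n),
      (∀ (m n : ℕ) (ε : Fin m → Fin n) (h : κ.Ok ε), ∀ u ∈ N m, A.map ε h u ∈ N n) →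
      (∀ s ∈ S, s.2 ∈ N s.1) → ∀ n, N n = ⊤

/-- the projective dimension agrees with an integral linear function for large `n` -/
def PMod.PdLinear (A : PMod κ K) : Prop :=
  ∃ (a b : ℤ) (n₀ : ℕ), ∀ n ≥ n₀, ∃ k : ℕ, (k : ℤ) = a * n + b ∧
    CategoryTheory.projectiveDimension (ModuleCat.of (MvPolynomial (Fin n) K) (A.M n)) = k

/-- `p` is zero or a form of degree `e` -/
def IsForm {n : ℕ} (e : ℤ) (p : MvPolynomial (Fin n) K) : Prop :=
  IsWeightedHomogeneous (fun _ => (1 : ℤ)) p e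

/-- `gr` makes `N` a graded module over the standard graded polynomial ring -/
def IsGrading {n : ℕ} {N : Type} [AddCommGroup N] [Module (MvPolynomial (Fin n) K) N]
    (gr : ℤ → AddSubgroup N) : Prop :=
  DirectSum.IsInternal gr ∧
    ∀ (a e : ℤ) (p : MvPolynomial (Fin n) K) (u : N), IsForm a p → u ∈ gr e → p • u ∈ gr (a + e)

/-- `N` has a graded free resolution by finite free modules whose `i`-th term is generated in
degrees at most `r + i` -/
def RegLE (K : Type) [Field K] (n : ℕ) {N : Type} [AddCommGroup N]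
    [Module (MvPolynomial (Fin n) K) N] (gr : ℤ → AddSubgroup N) (r : ℤ) : Prop :=
  ∃ (b : ℕ → ℕ) (deg : ∀ i, Fin (b i) → ℤ) (g : Fin (b 0) → N)
    (d : ∀ i, Matrix (Fin (b i)) (Fin (b (i + 1))) (MvPolynomial (Fin n) K)),
    (∀ k, g k ∈ gr (deg 0 k)) ∧ (∀ i s t, IsForm (deg (i + 1) t - deg i s) (d i s t)) ∧
    Submodule.span (MvPolynomial (Fin n) K) (Set.range g) = ⊤ ∧
    Function.Exact (d 0).mulVec (fun v => ∑ k, v k • g k) ∧
    (∀ i, Function.Exact (d (i + 1)).mulVec (d i).mulVec) ∧ ∀ i k, deg i k ≤ r + i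

/-- a grading of the module, preserved by all morphisms -/
structure PMod.Grading (A : PMod κ K) where
  /-- the graded pieces -/
  gr : ∀ n, ℤ → AddSubgroup (A.M n)
  isGrading : ∀ n, IsGrading (K := K) (n := n) (gr n)
  map_mem : ∀ (m n : ℕ) (ε : Fin m → Fin n) (h : κ.Ok ε) (e : ℤ), ∀ u ∈ gr m e,
    A.map ε h u ∈ gr n e

/-- finitely many homogeneous elements generate every `A.M n` under all morphisms -/
def PMod.Grading.FG {A : PMod κ K} (G : A.Grading) : Prop :=
  ∃ S : Set (Σ n, A.M n), S.Finite ∧ (∀ s ∈ S, ∃ e, s.2 ∈ G.gr s.1 e) ∧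
    ∀ n, Submodule.span (MvPolynomial (Fin n) K)
      {u : A.M n | ∃ s ∈ S, ∃ (ε : Fin s.1 → Fin n) (h : κ.Ok ε), u = A.map ε h s.2} = ⊤

/-- the regularity agrees with an integral linear function for large `n` -/
def PMod.Grading.RegLinear {A : PMod κ K} (G : A.Grading) : Prop :=
  ∃ (a b : ℤ) (n₀ : ℕ), ∀ n ≥ n₀, IsLeast {r | RegLE K n (G.gr n) r} (a * n + b)

end Pool.Agent.H79.OIDefs
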