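import Mathlib
import Pool.Agent.H79.OIDefs
import Pool.Agent.H79.Jac2
import Pool.Agent.H79.KFilt

set_option autoImplicit false

namespace Pool.Agent.H79.OI

open MvPolynomial Pool.Agent.H79.OIDefs Pool.Agent.H79.ArrDefs Pool.Agent.H79.Arr
  Pool.Agent.H79.Jac Pool.Agent.H79.LocQ Pool.Agent.H79.Depth
open scoped Matrix

variable {K : Type} [Field K] {n : ℕ}

/-- homogeneous component of integral degree -/
noncomputable def hc (e : ℤ) : PR K n →ₗ[K] PR K n :=
  weightedHomogeneousComponent (fun _ => (1 : ℤ)) e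

theorem hc_form (e : ℤ) (p : PR K n) : IsForm e (hc e p) :=
  weightedHomogeneousComponent_isWeightedHomogeneous _ _

theorem hc_of {a : ℤ} {p : PR K n} (h : IsForm a p) (e : ℤ) : hc e p = if e = a then p else 0 :=
  weightedHomogeneousComponent_of_mem h

theorem form_mul {a e : ℤ} {p q : PR K n} (hp : IsForm a p) (hq : IsForm e q) :
    IsForm (a + e) (p * q) := IsWeightedHomogeneous.mul hp hq

theorem form_X (i : Fin n) : IsForm 1 (X i : PR K n) := isWeightedHomogeneous_X _ _ _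

theorem form_C (c : K) : IsForm 0 (C c : PR K n) := isWeightedHomogeneous_C _ _

theorem form_zero (e : ℤ) : IsForm e (0 : PR K n) := isWeightedHomogeneous_zero _ _ _

theorem hc_mul {a : ℤ} {q : PR K n} (hq : IsForm a q) (e : ℤ) (c : PR K n) :
    hc e (q * c) = q * hc (e - a) c := by
  induction c using MvPolynomial.induction_on' with
  | monomial u r =>
    have h1 : IsForm (Finsupp.weight (fun _ => (1 : ℤ)) u) (monomial u r : PR K n) :=
      isWeightedHomogeneous_monomial _ _ _ rfl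
    rw [hc_of (form_mul hq h1), hc_of h1]
    by_cases h : e = a + Finsupp.weight (fun _ => (1 : ℤ)) u
    · rw [if_pos h, if_pos (by omega)]
    · rw [if_neg h, if_neg (by omega), mul_zero]
  | add f g hf hg => rw [mul_add, map_add, map_add, hf, hg, mul_add]

theorem form_coeff {e : ℤ} {p : PR K n} (h : IsForm e p) (h0 : coeff 0 p ≠ 0) : e = 0 := by
  simpa using (h h0).symm

theorem hc_mem_span {s : Set (PR K n)} (hs : ∀ v ∈ s, IsForm 1 v) {f : PR K n}
    (hf : f ∈ Ideal.span s) (e : ℤ) : hc e f ∈ Ideal.span s := by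
  suffices H : ∀ c, hc e (f * c) ∈ Ideal.span s by simpa using H 1
  induction hf using Submodule.span_induction with
  | mem x hx => intro c; rw [hc_mul (hs x hx)]; exact Ideal.mul_mem_right _ _ (Ideal.subset_span hx)
  | zero => simp
  | add x y _ _ hx hy => intro c; rw [add_mul, map_add]; exact add_mem (hx c) (hy c)
  | smul r x _ hx => intro c; rw [smul_eq_mul, mul_comm r, mul_assoc]; exact hx _

theorem form_one {p : PR K n} (h : IsForm 1 p) : ∃ a, p = lf a := by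
  have h1 : p ∈ homogeneousSubmodule (Fin n) K 1 := by
    intro m hm
    have h2 := h hm
    simp only [Finsupp.weight_apply, Finsupp.sum, smul_eq_mul, mul_one, nsmul_eq_mul,
      Pi.one_apply] at h2 ⊢
    exact_mod_cast h2
  rw [homogeneousSubmodule_one_eq_span_X, Submodule.mem_span_range_iff_exists_fun] at h1
  obtain ⟨a, ha⟩ := h1
  exact ⟨a, by rw [← ha, lf]; simp only [smul_eq_C_mul]⟩

theorem form_lf (a : Fin n → K) : IsForm 1 (lf a) :=
  IsWeightedHomogeneous.sum _ _ _ fun k _ => (form_X k).C_mul _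

theorem lin_prime {s : Set (PR K n)} (hs : ∀ v ∈ s, IsForm 1 v) : (Ideal.span s).IsPrime := by
  let L : (Fin n → K) →ₗ[K] PR K n := Fintype.linearCombination K X
  have hL : ∀ a, L a = lf a := fun a => by
    simp only [L, Fintype.linearCombination_apply, lf, smul_eq_C_mul]
  let U : Submodule K (Fin n → K) := ((Ideal.span s).restrictScalars K).comap L
  obtain ⟨V, hV⟩ := U.exists_isCompl
  let π : (Fin n → K) →ₗ[K] (Fin n → K) := V.subtype ∘ₗ V.projectionOnto U hV.symm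
  have h1 : ∀ a, a - π a ∈ U := fun a => by
    have := Submodule.projection_add_projection_eq_self hV a
    have h2 : a - π a = U.projection V hV a := by
      rw [sub_eq_iff_eq_add]; exact this.symm
    rw [h2]; exact (U.projectionOnto V hV a).2
  refine prime_of_aeval s (fun k => L (π (Pi.single k 1))) (fun k => ?_) fun f hf => ?_
  · have h2 : L (Pi.single k 1 - π (Pi.single k 1)) ∈ Ideal.span s := h1 _
    rw [map_sub] at h2
    simpa [L] using h2
  · obtain ⟨a, rfl⟩ := form_one (hs f hf)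
    have h2 : a ∈ U := by
      change L a ∈ Ideal.span s
      rw [hL]; exact Ideal.subset_span hf
    have h3 : π a = 0 := by
      simp only [π, LinearMap.comp_apply]
      rw [Submodule.projectionOnto_apply_of_mem_right hV.symm h2, map_zero]
    have h4 : aeval (fun k => L (π (Pi.single k 1))) (lf a) = L (π (∑ k, a k • Pi.single k 1)) := by
      simp [lf, map_sum, smul_eq_C_mul]
    rw [h4, ← pi_eq_sum_univ', h3, map_zero]

section chain

variable {b : ℕ → ℕ} (deg : ∀ i, Fin (b i) → ℤ)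

/-- homogeneous vectors -/
def VH (i : ℕ) (e : ℤ) (v : Fin (b i) → PR K n) : Prop := ∀ s, IsForm (e - deg i s) (v s)

/-- homogeneous component of a vector -/
noncomputable def hv (i : ℕ) (e : ℤ) (v : Fin (b i) → PR K n) : Fin (b i) → PR K n :=
  fun s => hc (e - deg i s) (v s)

theorem vh_hv (i : ℕ) (e : ℤ) (v : Fin (b i) → PR K n) : VH deg i e (hv deg i e v) :=
  fun _ => hc_form _ _

theorem hv_of {i : ℕ} {e : ℤ} {v : Fin (b i) → PR K n} (h : VH deg i e v) : hv deg i e v = v :=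
  funext fun s => by rw [hv, hc_of (h s), if_pos rfl]

theorem hv_sub (i : ℕ) (e : ℤ) (v w : Fin (b i) → PR K n) :
    hv deg i e (v - w) = hv deg i e v - hv deg i e w := funext fun _ => map_sub _ _ _

theorem hv_smul {x : PR K n} (hx : IsForm 1 x) (i : ℕ) (e : ℤ) (v : Fin (b i) → PR K n) :
    hv deg i e (x • v) = x • hv deg i (e - 1) v := funext fun s => by
  simp only [hv, Pi.smul_apply, smul_eq_mul]
  rw [hc_mul hx, sub_right_comm]

theorem vh_smul {x : PR K n} (hx : IsForm 1 x) {i : ℕ} {e : ℤ} {v : Fin (b i) → PR K n}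
    (h : VH deg i e v) : VH deg i (e + 1) (x • v) := fun s => by
  have := form_mul hx (h s)
  rwa [show 1 + (e - deg i s) = e + 1 - deg i s by ring] at this

variable {deg} {d : ∀ i, Matrix (Fin (b i)) (Fin (b (i + 1))) (PR K n)}
  (hd : ∀ i s t, IsForm (deg (i + 1) t - deg i s) (d i s t))
  (hex : ∀ i, Function.Exact (d (i + 1)).mulVec (d i).mulVec)

include hd in
theorem hv_mulVec (i : ℕ) (e : ℤ) (v : Fin (b (i + 1)) → PR K n) :
    hv deg i e (d i *ᵥ v) = d i *ᵥ hv deg (i + 1) e v := funext fun s => by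
  simp only [hv, Matrix.mulVec, dotProduct, map_sum]
  refine Finset.sum_congr rfl fun t _ => ?_
  rw [hc_mul (hd i s t), sub_sub_sub_cancel_right]

/-- vectors with entries in an ideal -/
def In (J : Ideal (PR K n)) {m : ℕ} (v : Fin m → PR K n) : Prop := ∀ s, v s ∈ J

theorem In.mulVec {J : Ideal (PR K n)} {m l : ℕ} {v : Fin m → PR K n} (h : In J v)
    (A : Matrix (Fin l) (Fin m) (PR K n)) : In J (A *ᵥ v) :=
  fun s => J.sum_mem (t := Finset.univ) (f := fun t => A s t * v t)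
    fun t _ => J.mul_mem_left _ (h t)

theorem In.comb {J : Ideal (PR K n)} {m : ℕ} {u v w : Fin m → PR K n} (hu : In J u) (hv : In J v)
    (p q : PR K n) (h : w = p • u + q • v) : In J w :=
  fun s => h ▸ J.add_mem (J.mul_mem_left _ (hu s)) (J.mul_mem_left _ (hv s))

theorem in_sup {J : Ideal (PR K n)} {x : PR K n} {m : ℕ} {v : Fin m → PR K n} :
    In (J ⊔ Ideal.span {x}) v ↔ ∃ u, In J (v - x • u) := by
  constructor
  · intro h
    choose a ha c hc hac using fun s => Submodule.mem_sup.1 (h s)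
    choose u hu using fun s => Ideal.mem_span_singleton'.1 (hc s)
    exact ⟨u, fun s => by
      simp only [Pi.sub_apply, Pi.smul_apply, smul_eq_mul]
      rw [← hac s, ← hu s]; simpa [mul_comm] using ha s⟩
  · rintro ⟨u, hu⟩ s
    rw [← sub_add_cancel (v s) (x * u s)]
    exact Submodule.add_mem_sup (hu s) (Ideal.mul_mem_right _ _ (Ideal.mem_span_singleton_self x))

variable {J : ℕ → Ideal (PR K n)} {y : ℕ → PR K n} (hJ0 : J 0 = ⊥)
  (hJ : ∀ k, J (k + 1) = J k ⊔ Ideal.span {y k}) (hy : ∀ k, IsForm 1 (y k))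
  (hJh : ∀ k e, ∀ f ∈ J k, hc e f ∈ J k) (hreg : ∀ k < n, ∀ f, y k * f ∈ J k → f ∈ J k)

include hex hJ hreg in
theorem tor_step (k i : ℕ) (hk : k < n) (v : Fin (b (i + 2)) → PR K n)
    (u : Fin (b (i + 1)) → PR K n) (hu : In (J k) (d (i + 1) *ᵥ v - y k • u))
    (h1 : In (J k) (d i *ᵥ u) → ∃ t, In (J k) (u - d (i + 1) *ᵥ t))
    (h2 : ∀ v, In (J k) (d (i + 1) *ᵥ v) → ∃ t, In (J k) (v - d (i + 2) *ᵥ t)) :
    ∃ t, In (J (k + 1)) (v - d (i + 2) *ᵥ t) := by
  have h3 := hu.mulVec (d i)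
  rw [Matrix.mulVec_sub, (hex i).apply_apply_eq_zero, Matrix.mulVec_smul] at h3
  obtain ⟨t, ht⟩ := h1 fun s => hreg k hk _ (by simpa using h3 s)
  obtain ⟨t', ht'⟩ := h2 (v - y k • t) (hu.comb ht 1 (y k) (by
    rw [Matrix.mulVec_sub, Matrix.mulVec_smul]; module))
  exact ⟨t', hJ k ▸ in_sup.2 ⟨t, by convert ht' using 1; abel⟩⟩

include hex hJ0 hJ hreg in
theorem tor_high : ∀ k ≤ n, ∀ i ≥ k, ∀ v, In (J k) (d i *ᵥ v) →
    ∃ t, In (J k) (v - d (i + 1) *ᵥ t) := by
  intro k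
  induction k with
  | zero =>
    intro _ i _ v hv
    rw [hJ0] at hv ⊢
    obtain ⟨t, ht⟩ := (hex i v).1 (funext hv)
    exact ⟨t, fun s => by simp [ht]⟩
  | succ k ih =>
    intro hk i hi v hv
    obtain ⟨i, rfl⟩ : ∃ j, i = j + 1 := ⟨i - 1, by omega⟩
    rw [hJ, in_sup] at hv
    obtain ⟨u, hu⟩ := hv
    exact tor_step hex hJ hreg k i (by omega) v u hu (ih (by omega) i (by omega) u)
      (ih (by omega) (i + 1) (by omega))

variable (H1 : ∀ e ≥ 1, ∀ u, VH deg 0 e u → (∃ t, d 0 *ᵥ t = y 0 • u) → ∃ t, d 0 *ᵥ t = u)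

include hd hex hJ0 hJ hy hJh hreg H1 in
theorem tor_edge : ∀ k < n, ∀ e : ℤ, k + 2 ≤ e → ∀ v, VH deg (k + 1) e v →
    In (J (k + 1)) (d k *ᵥ v) → ∃ t, In (J (k + 1)) (v - d (k + 1) *ᵥ t) := by
  have hom : ∀ k i e v, VH deg (i + 1) e v → In (J (k + 1)) (d i *ᵥ v) →
      ∃ u, VH deg i (e - 1) u ∧ In (J k) (d i *ᵥ v - y k • u) := by
    intro k i e v h1 h2
    rw [hJ, in_sup] at h2
    obtain ⟨u, hu⟩ := h2
    refine ⟨_, vh_hv deg i (e - 1) u, ?_⟩
    rw [← hv_smul deg (hy k), ← hv_of deg h1, ← hv_mulVec hd, ← hv_sub]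
    exact fun s => hJh _ _ _ (hu s)
  intro k
  induction k with
  | zero =>
    intro _ e he v h1 h2
    obtain ⟨u, h3, h4⟩ := hom 0 0 e v h1 h2
    rw [hJ0] at h4
    obtain ⟨t, ht⟩ := H1 (e - 1) (by omega) u h3 ⟨v, sub_eq_zero.1 (funext h4)⟩
    obtain ⟨t', ht'⟩ := (hex 0 (v - y 0 • t)).1 (by
      rw [Matrix.mulVec_sub, Matrix.mulVec_smul, ht]; exact funext h4)
    exact ⟨t', hJ 0 ▸ in_sup.2 ⟨t, fun s => by simp [ht']⟩⟩
  | succ k ih =>
    intro hk e he v h1 h2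
    obtain ⟨u, h3, h4⟩ := hom (k + 1) (k + 1) e v h1 h2
    exact tor_step hex hJ hreg (k + 1) k hk v u h4
      (ih (by omega) (e - 1) (by push_cast at he; omega) u h3)
      (tor_high hex hJ0 hJ hreg (k + 1) hk.le (k + 1) le_rfl)

include hd hex hJ0 hJ hy hJh hreg H1 in
theorem chain (f : Fin (b 0) → PR K n) (h1 : VH deg 0 1 f) (h2 : ¬ ∃ u, In (J 1) (f - d 0 *ᵥ u))
    (h3 : ∀ t, ∃ u, In (J 1) (y t • f - d 0 *ᵥ u)) : ∀ k < n, ∃ f, VH deg k (k + 1) f ∧
      (¬ ∃ u, In (J (k + 1)) (f - d k *ᵥ u)) ∧ ∀ t, ∃ u, In (J (k + 1)) (y t • f - d k *ᵥ u) := by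
  intro k
  induction k with
  | zero => exact fun _ => ⟨f, h1, h2, h3⟩
  | succ k ih =>
    intro hk
    obtain ⟨f, a1, a2, a3⟩ := ih (by omega)
    have hom : ∀ t, ∃ u, VH deg (k + 1) (k + 1 + 1) u ∧ In (J (k + 1)) (y t • f - d k *ᵥ u) := by
      intro t
      obtain ⟨u, hu⟩ := a3 t
      refine ⟨_, vh_hv deg (k + 1) _ u, ?_⟩
      rw [← hv_mulVec hd, ← hv_of deg (vh_smul deg (hy t) a1), ← hv_sub]
      exact fun s => hJh _ _ _ (hu s)
    obtain ⟨f', b1, b2⟩ := hom (k + 1)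
    refine ⟨f', by exact_mod_cast b1, ?_, fun t => ?_⟩
    · rintro ⟨w, hw⟩
      rw [hJ, in_sup] at hw
      obtain ⟨z, hz⟩ := hw
      have h4 := hz.mulVec (d k)
      rw [Matrix.mulVec_sub, Matrix.mulVec_sub, (hex k).apply_apply_eq_zero,
        Matrix.mulVec_smul] at h4
      have h5 : In (J (k + 1)) (y (k + 1) • (f - d k *ᵥ z)) := b2.comb h4 1 1 (by module)
      exact a2 ⟨z, fun s => hreg _ hk _ (h5 s)⟩
    · obtain ⟨w, c1, c2⟩ := hom t
      obtain ⟨u, hu⟩ := tor_edge hd hex hJ0 hJ hy hJh hreg H1 k (by omega) (k + 1 + 1 + 1)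
        (by omega) (y t • f' - y (k + 1) • w)
        (fun s => (vh_smul deg (hy t) b1 s).sub (vh_smul deg (hy _) c1 s))
        (b2.comb c2 (-y t) (y (k + 1)) (by
          rw [Matrix.mulVec_sub, Matrix.mulVec_smul, Matrix.mulVec_smul]; module))
      exact ⟨u, hJ _ ▸ in_sup.2 ⟨w, by convert hu using 1; abel⟩⟩

end chain

theorem one_le_of_regLE {N : Type} [AddCommGroup N] [Module (PR K n) N] (gr : ℤ → AddSubgroup N)
    (hsm : ∀ (a e : ℤ) (p : PR K n) (u : N), IsForm a p → u ∈ gr e → p • u ∈ gr (a + e))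
    (π : ℤ → N →+ N) 
    (hπ : ∀ (a e : ℤ) (p : PR K n) (u : N), u ∈ gr a → π e (p • u) = hc (e - a) p • u)
    {J : ℕ → Ideal (PR K n)} {y : ℕ → PR K n} (hJ0 : J 0 = ⊥)
    (hJ : ∀ k, J (k + 1) = J k ⊔ Ideal.span {y k}) (hy : ∀ k, IsForm 1 (y k))
    (hJh : ∀ k e, ∀ f ∈ J k, hc e f ∈ J k) (hreg : ∀ k < n, ∀ f, y k * f ∈ J k → f ∈ J k)
    (hn : 0 < n) (hm : mm (Fin n) K ≤ J n)
    (hinj : ∀ e ≥ 1, ∀ u ∈ gr e, y 0 • u = 0 → u = 0) (w : N) (hw : w ∈ gr 1)
    (hw1 : ∀ u, w ≠ y 0 • u) (hw2 : ∀ t, ∃ u, y t • w = y 0 • u) (r : ℤ)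
    (h : RegLE K n gr r) : 1 ≤ r := by
  obtain ⟨b, deg, g, d, hg, hd, hsp, h0, hex, hle⟩ := h
  let φ : (Fin (b 0) → PR K n) →ₗ[PR K n] N := Fintype.linearCombination (PR K n) g
  have hφ : ∀ v, φ v = ∑ k, v k • g k := fun v => rfl
  have hsurj : ∀ u, ∃ v, φ v = u := fun u =>
    (Submodule.mem_span_range_iff_exists_fun _).1 (hsp ▸ Submodule.mem_top : u ∈ _)
  have hker : ∀ v, φ v = 0 ↔ ∃ t, d 0 *ᵥ t = v := h0
  have h1 : ∀ u : Fin (b 0) → PR K n, In (J 1) u ↔ ∃ t, u = y 0 • t := fun u => by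
    rw [hJ, hJ0, in_sup]
    exact exists_congr fun t => ⟨fun h => sub_eq_zero.1 (funext h), fun h s => by simp [h]⟩
  obtain ⟨v, hv'⟩ := hsurj w
  have h2 : φ (hv deg 0 1 v) = w := by
    have h3 := hπ 1 1 1 w hw
    rw [one_smul, sub_self, ← C_1, hc_of (form_C 1), if_pos rfl, C_1, one_smul] at h3
    rw [← h3, ← hv', hφ, hφ, map_sum]
    exact Finset.sum_congr rfl fun k _ => (hπ _ _ _ _ (hg k)).symm
  obtain ⟨f, a1, a2, -⟩ := chain hd hex hJ0 hJ hy hJh hreg (fun e he u hu ht => by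
      refine (hker u).1 (hinj e he _ ?_ ?_)
      · rw [hφ]
        refine AddSubgroup.sum_mem _ fun k _ => ?_
        have := hsm _ _ _ _ (hu k) (hg k)
        rwa [sub_add_cancel] at this
      · rw [← map_smul]; exact (hker _).2 ht)
    (hv deg 0 1 v) (vh_hv deg 0 1 v) (by
      rintro ⟨u, hu⟩
      obtain ⟨t, ht⟩ := (h1 _).1 hu
      have := congrArg φ ht
      rw [map_sub, (hker _).2 ⟨u, rfl⟩, sub_zero, h2, map_smul] at this
      exact hw1 _ this) (fun t => by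
      obtain ⟨u, hu⟩ := hw2 t
      obtain ⟨u', rfl⟩ := hsurj u
      obtain ⟨z, hz⟩ := (hker (y t • hv deg 0 1 v - y 0 • u')).1 (by
        rw [map_sub, map_smul, map_smul, h2, hu, sub_self])
      exact ⟨z, (h1 _).2 ⟨u', by rw [hz]; abel⟩⟩) (n - 1) (by omega)
  by_contra hr
  refine a2 ⟨0, fun s => ?_⟩
  have e : J (n - 1 + 1) = J n := by rw [show n - 1 + 1 = n by omega]
  rw [e]
  refine hm ((mem_vars_iff _).2 ?_)
  by_contra h4
  have h5 := form_coeff (a1 s) (by simpa using h4)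
  have h6 := hle (n - 1) s
  omega

end Pool.Agent.H79.OI
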