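import Mathlib
import Pool.Agent.H79.OI1

set_option autoImplicit false

namespace Pool.Agent.H79.OI

open MvPolynomial Pool.Agent.H79.OIDefs Pool.Agent.H79.ArrDefs Pool.Agent.H79.Arr
  Pool.Agent.H79.LocQ Pool.Agent.H79.Depth Pool.Agent.H79.PD Pool.Agent.H79.HSyz
  Pool.Agent.H79.SymA Pool.Agent.H79.KFilt
open scoped Matrix

variable {K : Type} [Field K] {n : ℕ}

theorem cp_form : CP (IsForm (K := K) (n := n) 1) := fun s hs _ _ hl =>
  ⟨s, hs, fun _ => ⟨fun h => ((lin_prime hs).mem_or_mem h).resolve_right hl,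
    fun h => Ideal.mul_mem_right _ _ h⟩⟩

theorem lp_form : LP (IsForm (K := K) (n := n) 1) := by
  intro β s x y g c hx hy hg h
  refine ⟨fun k => hc 1 (c k), fun k => hc_form _ _, fun k hk => by simp [hk], ?_⟩
  funext j
  have h1 := congrArg (hc 2) (congrFun h j)
  simp only [Pi.smul_apply, smul_eq_mul, Finset.sum_apply, map_sum] at h1 ⊢
  rw [hc_of (form_mul hx (hy j)), if_pos (by norm_num)] at h1
  rw [h1]
  refine Finset.sum_congr rfl fun k _ => ?_
  rw [mul_comm, hc_mul (hg k j), mul_comm]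
  norm_num

theorem lq_pi {β : ℕ} (t : Fin β → Set (PR K n)) (ht : ∀ k, ∀ v ∈ t k, IsForm 1 v) :
    ∀ T : List (Fin β), T.Nodup → ∃ L : List (Fin β → PR K n), LQ (IsForm 1) L ∧
      ∀ z, z ∈ Submodule.span (PR K n) {x | x ∈ L} ↔
        (∀ k ∈ T, z k ∈ Ideal.span (t k)) ∧ ∀ k, k ∉ T → z k = 0 := by
  intro T
  induction T with
  | nil =>
    refine fun _ => ⟨[], trivial, fun z => ?_⟩
    simp [funext_iff]
  | cons i T ih =>
    intro hnd
    obtain ⟨hi, hnd'⟩ := List.nodup_cons.1 hnd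
    obtain ⟨L0, h0, hZ⟩ := ih hnd'
    obtain ⟨xs, hx1, hx2, hx3⟩ := exists_ind (t i)
    let Z : Submodule (PR K n) (Fin β → PR K n) :=
      { carrier := {z | (∀ k ∈ T, z k ∈ Ideal.span (t k)) ∧ ∀ k, k ∉ i :: T → z k = 0}
        add_mem' := fun ha hb => ⟨fun k hk => add_mem (ha.1 k hk) (hb.1 k hk),
          fun k hk => by simp [ha.2 k hk, hb.2 k hk]⟩
        zero_mem' := by simp
        smul_mem' := fun c _ ha => ⟨fun k hk => Ideal.mul_mem_left _ c (ha.1 k hk),
          fun k hk => by simp [ha.2 k hk]⟩ }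
    obtain ⟨h1, h2⟩ := append cp_form i Z L0 h0 (fun z => by
      rw [hZ]
      constructor
      · exact fun h => ⟨⟨h.1, fun k hk => h.2 k fun h' => hk (List.mem_cons_of_mem _ h')⟩,
          h.2 i hi⟩
      · rintro ⟨⟨a1, a2⟩, a3⟩
        refine ⟨a1, fun k hk => ?_⟩
        by_cases hki : k = i
        · rw [hki, a3]
        · exact a2 k (by simp [hki, hk])) (fun x => Pi.single i x) xs hx1 (fun x hx => by
      refine ⟨⟨fun k hk => ?_, fun k hk => ?_⟩, by simp, fun j => ?_⟩
      · rw [Pi.single_eq_of_ne (by rintro rfl; exact hi hk)]; exact zero_mem _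
      · exact Pi.single_eq_of_ne (by rintro rfl; simp at hk) _
      · by_cases hj : j = i
        · subst hj; simpa using ht _ x (hx2 x hx)
        · rw [Pi.single_eq_of_ne hj]; exact form_zero _)
    refine ⟨_, h1, fun z => ?_⟩
    rw [h2, hx3, List.forall_mem_cons]
    exact ⟨fun h => ⟨⟨h.2, h.1.1⟩, h.1.2⟩, fun h => ⟨⟨h.1.2, h.2⟩, h.1.1⟩⟩

theorem regLE_zero {N : Type} [AddCommGroup N] [Module (PR K n) N] (gr : ℤ → AddSubgroup N)
    {β : ℕ} (g : Fin β → N) (hg : ∀ k, g k ∈ gr 0)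
    (hsp : Submodule.span (PR K n) (Set.range g) = ⊤) (t : Fin β → Set (PR K n))
    (ht : ∀ k, ∀ v ∈ t k, IsForm 1 v)
    (hk : ∀ v : Fin β → PR K n, ∑ k, v k • g k = 0 ↔ ∀ k, v k ∈ Ideal.span (t k)) :
    RegLE K n gr 0 := by
  obtain ⟨L, h1, h2⟩ := lq_pi t ht (List.finRange β) (List.nodup_finRange β)
  have hneg : ∀ x : PR K n, IsForm 1 x → IsForm 1 (-x) := fun x hx => hx.neg
  let St := Σ β : ℕ, {L : List (Fin β → PR K n) // LQ (IsForm 1) L}
  let nx : St → St := fun σ => ⟨σ.2.1.length, (step cp_form lp_form hneg σ.2.1 σ.2.2).choose,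
    (step cp_form lp_form hneg σ.2.1 σ.2.2).choose_spec.1⟩
  let st : ℕ → St := fun i => Nat.rec ⟨β, L, h1⟩ (fun _ σ => nx σ) i
  refine ⟨fun i => (st i).1, fun i _ => i, g, fun i => Matrix.of fun k l => (st i).2.1.get l k,
    hg, fun i s l => ?_, hsp, fun v => ?_, fun i w => ?_, fun i k => by simp⟩
  · have := (st i).2.2.lin _ (List.get_mem _ l) s
    simpa using this
  · refine (hk v).trans (Iff.trans ?_ (range_mulVec L v).symm)
    rw [h2]; simp
  · refine Iff.trans ?_ ((range_mulVec _ w).trans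
      ((step cp_form lp_form hneg (st i).2.1 (st i).2.2).choose_spec.2 w)).symm
    refine Eq.congr_left ?_
    funext k
    simp [Matrix.mulVec, dotProduct, mul_comm]
    rfl

theorem pd_pi {R : Type} [CommRing R] (p m : ℕ) : ∀ (N : Fin m → Type) [∀ j, AddCommGroup (N j)]
    [∀ j, Module R (N j)], (∀ j, PdLT R (N j) (p + 1)) → PdLT R (∀ j, N j) (p + 1) := by
  induction m with
  | zero => exact fun N _ _ _ => pd_mono (by omega) (pd_proj _)
  | succ m ih =>
    intro N _ _ h
    exact pd_equiv (Fin.consLinearEquiv R N).symm _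
      ((prodSES _ _).hasProjectiveDimensionLT_X₂ _ (h 0) (ih _ fun j => h j.succ))

theorem X_notMem {T : Set (Fin n)} {j : Fin n} (hj : j ∉ T) :
    (X j : PR K n) ∉ Ideal.span (X '' T) := by
  intro h
  rw [mem_ideal_span_X_image] at h
  obtain ⟨i, hi, h2⟩ := h (Finsupp.single j 1) (by simp [support_X])
  exact h2 (Finsupp.single_eq_of_ne (by rintro rfl; exact hj hi))

theorem pd_vars (T : Finset (Fin n)) :
    PdLT (PR K n) (PR K n ⧸ Ideal.span (X '' (T : Set (Fin n)) : Set (PR K n))) (T.card + 1) := by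
  induction T using Finset.induction_on with
  | empty => exact pd_bot _ (by simp)
  | insert j T hj ih =>
    rw [Finset.card_insert_of_notMem hj]
    refine pd_nzd _ _ (X j) (fun r => ⟨fun h => Ideal.mul_mem_right _ _ h, fun h =>
      ((varIdeal_prime _).mem_or_mem h).resolve_right (X_notMem hj)⟩) ?_ _ ih
    rw [Finset.coe_insert, Set.image_insert_eq, Ideal.span_insert, sup_comm]

/-- the ideal of the `j`-th coordinate axis -/
noncomputable def Ij (K : Type) [Field K] (j : Fin n) : Ideal (PR K n) :=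
  Ideal.span (X '' ((Finset.univ.erase j : Finset (Fin n)) : Set (Fin n)))

theorem Ij_prime (j : Fin n) : (Ij K j).IsPrime := varIdeal_prime _

theorem X_mem_Ij {j k : Fin n} (h : k ≠ j) : X k ∈ Ij K j :=
  Ideal.subset_span ⟨k, by simpa using h, rfl⟩

theorem Ij_le (j : Fin n) : Ij K j ≤ mm (Fin n) K :=
  Ideal.span_mono (by rintro _ ⟨k, -, rfl⟩; exact ⟨k, rfl⟩)

theorem Ij_form (j : Fin n) :
    ∀ v ∈ (X '' ((Finset.univ.erase j : Finset (Fin n)) : Set (Fin n)) : Set (PR K n)),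
      IsForm 1 v := by
  rintro _ ⟨k, -, rfl⟩; exact form_X k

/-- the relations -/
noncomputable def NN (A : Matrix (Fin n) (Fin n) K) : Submodule (PR K n) (Fin n → PR K n) where
  carrier := {v | (∀ i, v i ∈ mm (Fin n) K) ∧ ∀ j, (A.map C *ᵥ v) j ∈ Ij K j}
  add_mem' := fun ha hb => ⟨fun i => add_mem (ha.1 i) (hb.1 i), fun j => by
    rw [Matrix.mulVec_add]; exact add_mem (ha.2 j) (hb.2 j)⟩
  zero_mem' := by simp
  smul_mem' := fun c _ ha => ⟨fun i => Ideal.mul_mem_left _ c (ha.1 i), fun j => by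
    rw [Matrix.mulVec_smul]; exact Ideal.mul_mem_left _ c (ha.2 j)⟩

/-- the module attached to a matrix -/
abbrev MA (A : Matrix (Fin n) (Fin n) K) : Type := (Fin n → PR K n) ⧸ NN A

theorem mulVec_C (A : Matrix (Fin n) (Fin n) K) (v : Fin n → PR K n) (j : Fin n) :
    (A.map C *ᵥ v) j = ∑ i, C (A j i) * v i := rfl

theorem pd_sing (A : Matrix (Fin n) (Fin n) K) (h : A.det = 0) : ¬ PdLT (PR K n) (MA A) n := by
  obtain ⟨v, hv, h1⟩ := Matrix.exists_mulVec_eq_zero_iff.2 h
  have := not_pd_of_killed (R := PR K n) ((List.finRange n).map X)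
    (Mono.weaklyRegular_X _ (List.nodup_finRange n))
    (Submodule.Quotient.mk (fun i => C (v i)) : MA A) (fun h0 => hv (funext fun i => by
      simpa using (mem_vars_iff _).1 (((Submodule.Quotient.mk_eq_zero _).1 h0).1 i))) (by
    intro r hr
    obtain ⟨k, -, rfl⟩ := List.mem_map.1 hr
    rw [← Submodule.Quotient.mk_smul, Submodule.Quotient.mk_eq_zero]
    refine ⟨fun i => Ideal.mul_mem_right _ _ (Ideal.subset_span ⟨k, rfl⟩), fun j => ?_⟩
    have h2 : (A.map C *ᵥ fun i => (C (v i) : PR K n)) j = 0 := by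
      have := congrArg (C : K → PR K n) (congrFun h1 j)
      simpa [Matrix.mulVec, dotProduct] using this
    rw [Matrix.mulVec_smul, Pi.smul_apply, h2, smul_zero]
    exact zero_mem _)
  simpa using this

theorem mem_NN {A : Matrix (Fin n) (Fin n) K} (h : A.det ≠ 0) (v : Fin n → PR K n) :
    v ∈ NN A ↔ ∀ j, (A.map C *ᵥ v) j ∈ Ij K j := by
  refine ⟨fun h => h.2, fun h1 => ⟨fun i => ?_, h1⟩⟩
  have h2 : A *ᵥ (fun i => coeff 0 (v i)) = 0 := funext fun j => by
    have := (mem_vars_iff _).1 (Ij_le j (h1 j))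
    simpa [mulVec_C, coeff_sum, Matrix.mulVec, dotProduct] using this
  exact (mem_vars_iff _).2 (congrFun (Matrix.eq_zero_of_mulVec_eq_zero h h2) i)

theorem inv_mul {A : Matrix (Fin n) (Fin n) K} (h : A.det ≠ 0) (v : Fin n → PR K n) :
    A.map C *ᵥ (A⁻¹.map C *ᵥ v) = v ∧ A⁻¹.map C *ᵥ (A.map C *ᵥ v) = v := by
  rw [Matrix.mulVec_mulVec, Matrix.mulVec_mulVec, ← Matrix.map_mul, ← Matrix.map_mul,
    Matrix.mul_nonsing_inv _ (IsUnit.mk0 _ h), Matrix.nonsing_inv_mul _ (IsUnit.mk0 _ h),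
    Matrix.map_one _ (map_zero _) (map_one _), Matrix.one_mulVec]
  exact ⟨rfl, rfl⟩

theorem pd_nonsing (A : Matrix (Fin (n + 1)) (Fin (n + 1)) K) (h : A.det ≠ 0) :
    PdLT (PR K (n + 1)) (MA A) (n + 1) := by
  let Φ : (Fin (n + 1) → PR K (n + 1)) →ₗ[PR K (n + 1)] ∀ j, PR K (n + 1) ⧸ Ij K j :=
    LinearMap.pi fun j => (Ij K j).mkQ ∘ₗ LinearMap.proj j ∘ₗ (A.map C).mulVecLin
  have h1 : Function.Surjective Φ := by
    intro w
    choose v hv using fun j => Submodule.Quotient.mk_surjective (Ij K j) (w j)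
    refine ⟨A⁻¹.map C *ᵥ v, funext fun j => ?_⟩
    change Submodule.Quotient.mk ((A.map C *ᵥ (A⁻¹.map C *ᵥ v)) j) = _
    rw [(inv_mul h v).1, hv]
  have h2 : NN A = LinearMap.ker Φ := by
    ext v
    rw [mem_NN h, LinearMap.mem_ker, funext_iff]
    exact forall_congr' fun j => (Submodule.Quotient.mk_eq_zero _).symm
  refine pd_equiv ((Submodule.quotEquivOfEq _ _ h2).trans (Φ.quotKerEquivOfSurjective h1)) _
    (pd_pi n _ _ fun j => ?_)
  have := pd_vars (K := K) (Finset.univ.erase j)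
  rwa [Finset.card_erase_of_mem (Finset.mem_univ j), Finset.card_fin] at this

/-- the grading -/
noncomputable def grA (A : Matrix (Fin n) (Fin n) K) (e : ℤ) : AddSubgroup (MA A) where
  carrier := {u | ∃ v : Fin n → PR K n, (∀ i, IsForm e (v i)) ∧ Submodule.Quotient.mk v = u}
  add_mem' := by
    rintro _ _ ⟨v, hv, rfl⟩ ⟨w, hw, rfl⟩
    exact ⟨v + w, fun i => (hv i).add (hw i), rfl⟩
  zero_mem' := ⟨0, fun _ => form_zero _, rfl⟩
  neg_mem' := by
    rintro _ ⟨v, hv, rfl⟩
    exact ⟨-v, fun i => (hv i).neg, rfl⟩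

theorem grA_smul (A : Matrix (Fin n) (Fin n) K) (a e : ℤ) (p : PR K n) (u : MA A)
    (hp : IsForm a p) (hu : u ∈ grA A e) : p • u ∈ grA A (a + e) := by
  obtain ⟨v, hv, rfl⟩ := hu
  exact ⟨p • v, fun i => form_mul hp (hv i), rfl⟩

/-- projection to a graded piece -/
noncomputable def prA (A : Matrix (Fin n) (Fin n) K) (e : ℤ) : MA A →+ MA A :=
  QuotientAddGroup.map (NN A).toAddSubgroup (NN A).toAddSubgroup
    ((hc e).toAddMonoidHom.compLeft (Fin n)) fun v hv =>
    ⟨fun i => hc_mem_span (by rintro _ ⟨k, rfl⟩; exact form_X k) (hv.1 i) e, fun j => by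
      have := hc_mem_span (Ij_form j) (hv.2 j) e
      rw [mulVec_C, map_sum] at this
      simp only [hc_mul (form_C _), sub_zero] at this
      exact this⟩

theorem prA_smul (A : Matrix (Fin n) (Fin n) K) (a e : ℤ) (p : PR K n) (u : MA A)
    (hu : u ∈ grA A a) : prA A e (p • u) = hc (e - a) p • u := by
  obtain ⟨v, hv, rfl⟩ := hu
  refine congrArg Submodule.Quotient.mk (funext fun i => ?_)
  change hc e (p * v i) = hc (e - a) p * v i
  rw [mul_comm, hc_mul (hv i), mul_comm]

theorem isGrading (A : Matrix (Fin n) (Fin n) K) : IsGrading (K := K) (n := n) (grA A) := by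
  refine ⟨⟨(injective_iff_map_eq_zero _).2 fun x hx => ?_, fun u => ?_⟩, grA_smul A⟩
  · have key : ∀ (x : DirectSum ℤ fun e => grA A e) (e : ℤ),
        prA A e (DirectSum.coeAddMonoidHom (grA A) x) = x e := by
      intro x e
      induction x using DirectSum.induction_on with
      | zero => simp
      | of a u =>
        have h1 := prA_smul A a e 1 u u.2
        rw [one_smul, ← C_1, hc_of (form_C 1), C_1] at h1
        rw [DirectSum.coeAddMonoidHom_of, h1]
        by_cases h : a = e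
        · subst h; simp
        · rw [DirectSum.of_eq_of_ne _ _ _ (Ne.symm h), if_neg (by omega)]; simp
      | add x y hx hy => rw [map_add, map_add, hx, hy]; rfl
    ext e
    rw [← key, hx, map_zero]; rfl
  · obtain ⟨v, rfl⟩ := Submodule.Quotient.mk_surjective _ u
    change (NN A).mkQ v ∈ (DirectSum.coeAddMonoidHom (grA A)).range
    rw [← Finset.univ_sum_single v, map_sum]
    refine sum_mem fun i _ => ?_
    generalize v i = p
    induction p using MvPolynomial.induction_on' with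
    | monomial m c =>
      refine ⟨DirectSum.of (fun e => grA A e) (Finsupp.weight (fun _ => (1 : ℤ)) m)
        ⟨_, Pi.single i (monomial m c), fun k => ?_, rfl⟩, DirectSum.coeAddMonoidHom_of _ _ _⟩
      by_cases hk : k = i
      · rw [hk, Pi.single_eq_same]; exact isWeightedHomogeneous_monomial _ _ _ rfl
      · rw [Pi.single_eq_of_ne hk]; exact form_zero _
    | add p q hp hq => rw [Pi.single_add, map_add]; exact add_mem hp hq

theorem reg_nonsing (A : Matrix (Fin n) (Fin n) K) (h : A.det ≠ 0) : RegLE K n (grA A) 0 := by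
  have e : ∀ v : Fin n → PR K n, ∑ k, v k • (Submodule.Quotient.mk fun i => C (A⁻¹ i k) : MA A) =
      Submodule.Quotient.mk (A⁻¹.map C *ᵥ v) := by
    intro v
    change ∑ k, v k • (NN A).mkQ _ = (NN A).mkQ _
    simp only [← map_smul, ← map_sum]
    congr 1
    funext i
    simp [mulVec_C, mul_comm]
  refine regLE_zero _ (fun k => Submodule.Quotient.mk fun i => C (A⁻¹ i k))
    (fun k => ⟨_, fun i => form_C _, rfl⟩) ?_ _ Ij_form fun v => ?_
  · rw [eq_top_iff]
    intro u _
    obtain ⟨v, rfl⟩ := Submodule.Quotient.mk_surjective _ u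
    rw [Submodule.mem_span_range_iff_exists_fun]
    exact ⟨A.map C *ᵥ v, by rw [e, (inv_mul h v).2]⟩
  · rw [e, Submodule.Quotient.mk_eq_zero, mem_NN h, (inv_mul h v).1]
    rfl

end Pool.Agent.H79.OI
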