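import Mathlib
import Pool.Agent.H79.OI2
import Pool.Agent.H79.Jac3

set_option autoImplicit false

namespace Pool.Agent.H79.OI

open MvPolynomial Pool.Agent.H79.OIDefs Pool.Agent.H79.ArrDefs Pool.Agent.H79.Arr
  Pool.Agent.H79.LocQ Pool.Agent.H79.Depth Pool.Agent.H79.PD Pool.Agent.H79.HSyz
  Pool.Agent.H79.Jac
open scoped Matrix

variable {K : Type} [Field K] {n : ℕ}

/-- the regular sequence starting with the sum of the variables -/
noncomputable def ys (K : Type) [Field K] (n t : ℕ) : PR K (n + 1) :=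
  if h : t < n + 1 then (if t = 0 then ∑ k, X k else X ⟨t, h⟩) else 0

theorem ys_zero : ys K n 0 = ∑ k, X k := by simp [ys]

theorem ys_form (t : ℕ) : IsForm 1 (ys K n t) := by
  unfold ys
  split_ifs
  · exact IsWeightedHomogeneous.sum _ _ _ fun k _ => form_X k
  · exact form_X _
  · exact form_zero _

theorem ys_notMem (k : ℕ) (hk : k < n + 1) :
    ys K n k ∉ Ideal.span (ys K n '' {t | t < k}) := by
  intro h
  by_cases h0 : k = 0
  · subst h0
    have := congrArg (eval (Pi.single 0 1)) (show ys K n 0 = 0 by simpa using h)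
    simp [ys_zero, Pi.single_apply] at this
  · have h1 : Ideal.span (ys K n '' {t | t < k}) ≤
        RingHom.ker (eval (Pi.single ⟨k, hk⟩ 1 - Pi.single 0 1)) := by
      rw [Ideal.span_le]
      rintro _ ⟨t, ht, rfl⟩
      have ht' : t < k := ht
      by_cases h2 : t = 0
      · simp [h2, ys_zero, Pi.single_apply]
      · simp [ys, h2, show t < n + 1 by omega, Fin.ext_iff, ht'.ne]
    have := h1 h
    simp [ys, h0, hk, Fin.ext_iff] at this

theorem ev_Ij (j : Fin n) {f : PR K n} (hf : f ∈ Ij K j) : ev (Pi.single j 1) f = 0 := by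
  have : Ij K j ≤ RingHom.ker (ev (Pi.single j (1 : K))) := by
    rw [Ij, Ideal.span_le]
    rintro _ ⟨k, hk, rfl⟩
    have hk' : k ≠ j := by simpa using hk
    simp [ev_X, hk']
  exact this hf

theorem ev_sum (j : Fin n) : ev (Pi.single j (1 : K)) (∑ k, X k) = Polynomial.X := by
  simp [ev_X, Pi.single_apply, apply_ite]

theorem reg_sing (A : Matrix (Fin (n + 1)) (Fin (n + 1)) K) (yv : Fin (n + 1) → K)
    (h1 : yv ᵥ* A = 0) (h2 : yv 0 ≠ 0) (i0 : Fin (n + 1)) (h3 : A 0 i0 ≠ 0) (r : ℤ)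
    (h : RegLE K (n + 1) (grA A) r) : 1 ≤ r := by
  have hf : ∀ k, ∀ v ∈ ys K n '' {t | t < k}, IsForm 1 v := by
    rintro k _ ⟨t, -, rfl⟩; exact ys_form t
  have hA : ∀ j, (A.map C *ᵥ (Pi.single i0 (X 0) : Fin (n + 1) → PR K (n + 1))) j =
      C (A j i0) * X 0 := fun j => by simp [mulVec_C, Pi.single_apply]
  refine one_le_of_regLE (grA A) (grA_smul A) (prA A) (prA_smul A)
    (J := fun k => Ideal.span (ys K n '' {t | t < k})) (y := ys K n) (by simp) (fun k => ?_)
    ys_form (fun k e f h => hc_mem_span (hf k) h e)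
    (fun k hk f h => ((lin_prime (hf k)).mem_or_mem h).resolve_left (ys_notMem k hk))
    (by omega) ?_ ?_ (Submodule.Quotient.mk (Pi.single i0 (X 0))) ⟨_, fun i => ?_, rfl⟩ ?_ ?_ r h
  · rw [sup_comm, ← Ideal.span_insert, ← Set.image_insert_eq]
    congr 2
    ext t
    simp only [Set.mem_ofPred_eq, Set.mem_insert_iff]
    omega
  · have h4 : ∀ k : Fin n, X k.succ ∈ Ideal.span (ys K n '' {t | t < n + 1}) := fun k =>
      Ideal.subset_span ⟨k + 1, by simp, by simp [ys]; rfl⟩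
    rw [Ideal.span_le]
    rintro _ ⟨k, rfl⟩
    refine Fin.cases ?_ h4 k
    have h5 : ys K n 0 ∈ Ideal.span (ys K n '' {t | t < n + 1}) :=
      Ideal.subset_span ⟨0, by simp, rfl⟩
    have := Ideal.sub_mem _ h5 (Ideal.sum_mem _ fun k (_ : k ∈ Finset.univ) => h4 k)
    rwa [ys_zero, Fin.sum_univ_succ, add_sub_cancel_right] at this
  · rintro e he _ ⟨v, hv, rfl⟩ h4
    rw [← Submodule.Quotient.mk_smul, Submodule.Quotient.mk_eq_zero] at h4
    refine (Submodule.Quotient.mk_eq_zero _).2 ⟨fun i => (mem_vars_iff _).2 ?_, fun j => ?_⟩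
    · by_contra h5
      have := form_coeff (hv i) h5
      omega
    · have h5 := h4.2 j
      rw [Matrix.mulVec_smul] at h5
      refine ((Ij_prime j).mem_or_mem h5).resolve_left fun h6 => ?_
      have := ev_Ij j h6
      rw [ys_zero, ev_sum] at this
      exact Polynomial.X_ne_zero this
  · by_cases hi : i = i0
    · rw [hi, Pi.single_eq_same]; exact form_X _
    · rw [Pi.single_eq_of_ne hi]; exact form_zero _
  · intro u hu
    obtain ⟨u, rfl⟩ := Submodule.Quotient.mk_surjective _ u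
    rw [← Submodule.Quotient.mk_smul, Submodule.Quotient.eq] at hu
    have h4 : ∀ j, A j i0 * (Pi.single j 1 : Fin (n + 1) → K) 0 =
        (A *ᵥ fun i => coeff 0 (u i)) j := by
      intro j
      have h5 := congrArg (Polynomial.coeff · 1) (ev_Ij j (hu.2 j))
      simp only [Matrix.mulVec_sub, Matrix.mulVec_smul, Pi.sub_apply, Pi.smul_apply, smul_eq_mul,
        hA, map_sub, map_mul, ys_zero, ev_sum, ev_C, ev_X, Polynomial.coeff_sub,
        Polynomial.coeff_C_mul, Polynomial.coeff_X_one, mul_one, Polynomial.coeff_zero] at h5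
      rw [Polynomial.coeff_X_mul _ 0, ev_coeff_zero, sub_eq_zero] at h5
      rw [h5]
      simp [coeff_sum, Matrix.mulVec, dotProduct]
    have h6 : yv ⬝ᵥ (A *ᵥ fun i => coeff 0 (u i)) = 0 := by
      rw [Matrix.dotProduct_mulVec, h1, zero_dotProduct]
    simp only [dotProduct, ← h4, Pi.single_apply, mul_ite, mul_one, mul_zero, Finset.sum_ite_eq,
      Finset.mem_univ, if_true] at h6
    exact mul_ne_zero h2 h3 h6
  · intro t
    by_cases h0 : t = 0
    · exact ⟨_, by rw [h0]⟩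
    refine ⟨0, ?_⟩
    rw [smul_zero]
    by_cases ht : t < n + 1
    swap
    · simp [ys, ht]
    rw [ys, dif_pos ht, if_neg h0, ← Submodule.Quotient.mk_smul, Submodule.Quotient.mk_eq_zero]
    refine ⟨fun i => Ideal.mul_mem_right _ _ (Ideal.subset_span ⟨_, rfl⟩), fun j => ?_⟩
    rw [Matrix.mulVec_smul, Pi.smul_apply, hA, smul_eq_mul]
    by_cases hj : j = 0
    · exact Ideal.mul_mem_right _ _ (X_mem_Ij (by simp [hj, Fin.ext_iff, h0]))
    · exact Ideal.mul_mem_left _ _ (Ideal.mul_mem_left _ _ (X_mem_Ij (Ne.symm hj)))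

/-- action of a map of widths on free modules -/
noncomputable def Fe {m n : ℕ} (ε : Fin m → Fin n) : (Fin m → PR K m) →+ (Fin n → PR K n) where
  toFun v := ∑ i, Pi.single (ε i) (rename ε (v i))
  map_zero' := by simp
  map_add' v w := by simp [Pi.single_add, Finset.sum_add_distrib]

theorem Fe_apply {m n : ℕ} (ε : Fin m → Fin n) (v : Fin m → PR K m) :
    Fe ε v = ∑ i, Pi.single (ε i) (rename ε (v i)) := rfl

theorem Fe_single {m n : ℕ} (ε : Fin m → Fin n) (i : Fin m) (p : PR K m) :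
    Fe ε (Pi.single i p) = Pi.single (ε i) (rename ε p) := by
  rw [Fe_apply, Finset.sum_eq_single i (fun k _ hk => by simp [Pi.single_eq_of_ne hk]) (by simp)]
  simp

theorem rename_mem {m n : ℕ} (ε : Fin m → Fin n) {s : Set (Fin m)} {I : Ideal (PR K n)}
    (h : ∀ k ∈ s, X (ε k) ∈ I) {f : PR K m} (hf : f ∈ Ideal.span (X '' s)) : rename ε f ∈ I := by
  have : Ideal.span (X '' s) ≤ I.comap (rename (R := K) ε) := by
    rw [Ideal.span_le]
    rintro _ ⟨k, hk, rfl⟩
    simpa using h k hk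
  exact this hf

theorem Fe_mem {m n : ℕ} {ε : Fin m → Fin n} (hε : Function.Injective ε)
    {A : Matrix (Fin m) (Fin m) K} {B : Matrix (Fin n) (Fin n) K}
    (h : ∀ j i, B (ε j) (ε i) = A j i) {v : Fin m → PR K m} (hv : v ∈ NN A) : Fe ε v ∈ NN B := by
  have h0 : ∀ (I : Ideal (PR K n)), (∀ k, X (ε k) ∈ I) → ∀ i, rename ε (v i) ∈ I :=
    fun I hI i => rename_mem ε (s := Set.univ) (fun k _ => hI k) (by simpa using hv.1 i)
  refine ⟨fun k => ?_, fun j => ?_⟩
  · rw [Fe_apply, Finset.sum_apply]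
    refine sum_mem fun i _ => ?_
    rw [Pi.single_apply]
    split_ifs
    · exact h0 (mm (Fin n) K) (fun k => Ideal.subset_span ⟨_, rfl⟩) i
    · exact zero_mem _
  · have e : (B.map C *ᵥ Fe ε v) j = ∑ i, C (B j (ε i)) * rename ε (v i) := by
      simp [Fe_apply, Matrix.mulVec_sum, Finset.sum_apply, mul_comm]
    rw [e]
    by_cases hj : j ∈ Set.range ε
    · obtain ⟨j, rfl⟩ := hj
      have := rename_mem ε (I := Ij K (ε j))
        (fun k hk => X_mem_Ij (hε.ne (by simpa using hk))) (hv.2 j)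
      simpa [mulVec_C, h] using this
    · exact sum_mem fun i _ => Ideal.mul_mem_left _ _
        (h0 _ (fun k => X_mem_Ij fun e => hj ⟨k, e⟩) i)

theorem ok_inj {κ : Kind} {m n : ℕ} {ε : Fin m → Fin n} (h : κ.Ok ε) : Function.Injective ε := by
  cases κ
  · exact StrictMono.injective h
  · exact h

theorem ok_one (κ : Kind) {n : ℕ} (ε : Fin 1 → Fin n) : κ.Ok ε := by
  cases κ
  · exact Subsingleton.strictMono ε
  · exact Function.injective_of_subsingleton ε

variable {κ : Kind} (A : ∀ n, Matrix (Fin n) (Fin n) K)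
  (hA : ∀ (m n : ℕ) (ε : Fin m → Fin n), κ.Ok ε → ∀ j i, A n (ε j) (ε i) = A m j i)

/-- the module over the polynomial functor attached to a compatible family of matrices -/
noncomputable def PM : PMod κ K where
  M n := MA (A n)
  map ε h := QuotientAddGroup.map (NN (A _)).toAddSubgroup (NN (A _)).toAddSubgroup (Fe ε)
    fun _ hv => Fe_mem (ok_inj h) (hA _ _ ε h) hv
  map_id n h u := by
    obtain ⟨v, rfl⟩ := Submodule.Quotient.mk_surjective _ u
    refine congrArg Submodule.Quotient.mk ?_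
    simp [Fe_apply, Finset.univ_sum_single]
  map_comp ε δ hε hδ h u := by
    obtain ⟨v, rfl⟩ := Submodule.Quotient.mk_surjective _ u
    refine congrArg Submodule.Quotient.mk ?_
    change Fe (δ ∘ ε) v = Fe δ (Fe ε v)
    rw [Fe_apply, Fe_apply ε, map_sum]
    simp [Fe_single, rename_rename]
  map_smul ε h p u := by
    obtain ⟨v, rfl⟩ := Submodule.Quotient.mk_surjective _ u
    refine congrArg Submodule.Quotient.mk ?_
    change Fe ε (p • v) = rename ε p • Fe ε v
    simp [Fe_apply, Finset.smul_sum, ← Pi.single_smul]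

/-- its grading -/
noncomputable def GM : (PM A hA).Grading where
  gr n := grA (A n)
  isGrading n := isGrading (A n)
  map_mem m n ε h e := by
    rintro _ ⟨v, hv, rfl⟩
    refine ⟨Fe ε v, fun k => ?_, rfl⟩
    rw [Fe_apply, Finset.sum_apply]
    refine IsWeightedHomogeneous.sum _ _ _ fun i _ => ?_
    rw [Pi.single_apply]
    split_ifs
    · have h1 : hc e (v i) = v i := by rw [hc_of (hv i), if_pos rfl]
      intro d hd
      obtain ⟨u, rfl, hu⟩ := coeff_rename_ne_zero _ _ _ hd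
      rw [← hv i hu]
      simp [Finsupp.weight_apply, Finsupp.sum_mapDomain_index]
    · exact form_zero _

theorem span_gen (n : ℕ) (N : Submodule (PR K n) ((PM A hA).M n))
    (h : ∀ i : Fin n, (PM A hA).map (fun _ => i) (ok_one κ _)
      (Submodule.Quotient.mk (Pi.single 0 1) : MA (A 1)) ∈ N) : N = ⊤ := by
  rw [eq_top_iff]
  intro u _
  obtain ⟨v, rfl⟩ := Submodule.Quotient.mk_surjective _ u
  change (NN (A n)).mkQ v ∈ N
  rw [← Finset.univ_sum_single v, map_sum]
  refine sum_mem fun i _ => ?_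
  have h1 := N.smul_mem (v i) (h i)
  change v i • (NN (A n)).mkQ (Fe (fun _ => i) (Pi.single 0 1)) ∈ N at h1
  rwa [Fe_single, map_one, ← map_smul, ← Pi.single_smul, smul_eq_mul, mul_one] at h1

theorem PM_fg : (PM A hA).FG :=
  ⟨{⟨1, (Submodule.Quotient.mk (Pi.single 0 1) : MA (A 1))⟩}, Set.finite_singleton _,
    fun N h1 h2 n => span_gen A hA n (N n) fun _ => h1 _ _ _ _ _ (h2 _ rfl)⟩

theorem GM_fg : (GM A hA).FG :=
  ⟨{⟨1, (Submodule.Quotient.mk (Pi.single 0 1) : MA (A 1))⟩}, Set.finite_singleton _, by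
    rintro _ rfl
    exact ⟨0, _, fun i => by rw [Subsingleton.elim i 0, Pi.single_eq_same, ← C_1]; exact form_C _,
      rfl⟩, fun n => span_gen A hA n _ fun _ => Submodule.subset_span ⟨_, rfl, _, _, rfl⟩⟩

theorem PM_nontrivial (n : ℕ) (hn : 1 ≤ n) : Nontrivial ((PM A hA).M n) := by
  refine nontrivial_of_ne (Submodule.Quotient.mk 1 : MA (A n)) 0 fun h => ?_
  simpa using (mem_vars_iff _).1 (((Submodule.Quotient.mk_eq_zero _).1 h).1 ⟨0, hn⟩)

variable (hs : ∀ N, ∃ n ≥ N, ∃ yv : Fin (n + 1) → K, yv ᵥ* A (n + 1) = 0 ∧ yv 0 ≠ 0 ∧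
    ∃ i0, A (n + 1) 0 i0 ≠ 0) (hn : ∀ N, ∃ n ≥ N, (A (n + 1)).det ≠ 0)

include hs hn in
theorem not_regLinear : ¬ (GM A hA).RegLinear := by
  rintro ⟨a, b, n0, h⟩
  obtain ⟨n1, a1, a2⟩ := hn n0
  obtain ⟨n2, b1, yv, b2, b3, i0, b4⟩ := hs (n1 + 1)
  obtain ⟨n3, c1, c2⟩ := hn (n2 + 1)
  have h1 := (h (n1 + 1) (by omega)).2 (reg_nonsing _ a2)
  have h2 := reg_sing _ yv b2 b3 i0 b4 _ (h (n2 + 1) (by omega)).1
  have h3 := (h (n3 + 1) (by omega)).2 (reg_nonsing _ c2)
  have d1 : (n1 : ℤ) < n2 := by omega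
  have d2 : (n2 : ℤ) < n3 := by omega
  push_cast at h1 h2 h3
  rcases le_total a 0 with ha | ha <;> nlinarith

include hs hn in
theorem not_pdLinear : ¬ (PM A hA).PdLinear := by
  rintro ⟨a, b, n0, h⟩
  have key : ∀ n ≥ n0, ∀ p : ℕ, PdLT (PR K n) (MA (A n)) (p + 1) ↔ a * n + b ≤ p := by
    intro n hn p
    obtain ⟨k, h1, h2⟩ := h n hn
    rw [← h1]
    refine (CategoryTheory.projectiveDimension_le_iff _ p).symm.trans ?_
    erw [h2]
    norm_cast
  have sing : ∀ N, ∃ n ≥ N, n ≥ n0 ∧ a * n + b = n := by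
    intro N
    obtain ⟨n, b1, yv, b2, b3, -⟩ := hs (N + n0)
    have h1 := pd_sing _ (Matrix.exists_vecMul_eq_zero_iff.1 ⟨yv, fun h => b3 (by rw [h]; rfl), b2⟩)
    rw [key (n + 1) (by omega)] at h1
    have h2 := (key (n + 1) (by omega) (n + 1)).1 (hilbert K (n + 1) _)
    exact ⟨n + 1, by omega, by omega, by push_cast at h1 h2 ⊢; omega⟩
  obtain ⟨n1, -, a1, a2⟩ := sing 0
  obtain ⟨n2, b1, -, b2⟩ := sing (n1 + 1)
  obtain ⟨n3, c1, c2⟩ := hn n0
  have h3 := (key (n3 + 1) (by omega) n3).1 (pd_nonsing _ c2)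
  have d1 : (n1 : ℤ) < n2 := by omega
  have ha : a = 1 := by
    have : (a - 1) * (n2 - n1) = 0 := by linear_combination b2 - a2
    rcases mul_eq_zero.1 this with h | h <;> omega
  subst ha
  push_cast at h3
  omega

end Pool.Agent.H79.OI
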