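import Mathlib
import Pool.Agent.H79.OI3

set_option autoImplicit false

namespace Pool.Agent.H79.OI

open Pool.Agent.H79.OIDefs Finset
open scoped Matrix

variable {K : Type} [Field K]

/-- the skew sign matrix -/
def sg (K : Type) [Field K] (n : ℕ) : Matrix (Fin n) (Fin n) K :=
  Matrix.of fun j i => if i < j then 1 else if j < i then -1 else 0

/-- the all-ones matrix with zero diagonal -/
def od (K : Type) [Field K] (n : ℕ) : Matrix (Fin n) (Fin n) K :=
  Matrix.of fun j i => if j = i then 0 else 1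

theorem sum_sg (v : ℕ → K) (i m : ℕ) :
    ∑ j ∈ range m, v j * (if i < j then 1 else if j < i then -1 else 0) =
      if m ≤ i then -∑ j ∈ range m, v j
      else ∑ j ∈ range m, v j - ∑ j ∈ range (i + 1), v j - ∑ j ∈ range i, v j := by
  induction m with
  | zero => simp
  | succ m ih =>
    rw [sum_range_succ, ih]
    rcases lt_trichotomy m i with h | rfl | h
    · rw [if_pos h.le, if_neg h.not_gt, if_pos h, if_pos (by omega), sum_range_succ]; ring
    · simp
    · rw [if_neg (by omega), if_pos h, if_neg (by omega), sum_range_succ _ m]; ring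

theorem vecMul_sg (v : ℕ → K) (m : ℕ) (i : Fin m) : ((fun j : Fin m => v j) ᵥ* sg K m) i =
    ∑ j ∈ range m, v j - ∑ j ∈ range (i + 1), v j - ∑ j ∈ range i, v j := by
  have := sum_sg v i m
  rw [if_neg (by omega), ← Fin.sum_univ_eq_sum_range
    (fun j => v j * (if (i : ℕ) < j then 1 else if j < i then -1 else 0))] at this
  exact this

theorem sg_sing (N : ℕ) : ∃ n ≥ N, ∃ yv : Fin (n + 1) → K, yv ᵥ* sg K (n + 1) = 0 ∧ yv 0 ≠ 0 ∧
    ∃ i0, sg K (n + 1) 0 i0 ≠ 0 := by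
  refine ⟨2 * N + 1 + 1, by omega, fun j => (-1) ^ (j : ℕ), funext fun i => ?_, by simp, 1,
    by simp [sg]⟩
  rw [vecMul_sg (fun j => (-1 : K) ^ j)]
  simp only [neg_one_geom_sum, Nat.even_add_one, even_two, Even.mul_right]
  by_cases h : Even (i : ℕ) <;> simp [h]

theorem sg_nonsing (N : ℕ) : ∃ n ≥ N, (sg K (n + 1)).det ≠ 0 := by
  refine ⟨2 * N + 1, by omega, fun h => ?_⟩
  obtain ⟨yv, h1, h2⟩ := Matrix.exists_vecMul_eq_zero_iff.2 h
  let v : ℕ → K := fun j => if h : j < 2 * N + 1 + 1 then yv ⟨j, h⟩ else 0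
  have e : yv = fun j : Fin (2 * N + 1 + 1) => v j := funext fun j => by simp only [v, dif_pos j.2]
  have h3 : ∀ i < 2 * N + 1 + 1, ∑ j ∈ range (2 * N + 1 + 1), v j - ∑ j ∈ range (i + 1), v j -
      ∑ j ∈ range i, v j = 0 := fun i hi => by
    rw [← vecMul_sg v _ ⟨i, hi⟩, ← e, h2]; rfl
  have h4 : ∀ t ≤ N + 1, ∑ j ∈ range (2 * t), v j = 0 := by
    intro t
    induction t with
    | zero => simp
    | succ t ih =>
      intro ht
      linear_combination (exp := 1) ih (by omega) + h3 (2 * t) (by omega) -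
        h3 (2 * t + 1) (by omega)
  have h5 : ∀ i ≤ 2 * N + 1 + 1, ∑ j ∈ range i, v j = 0 := by
    intro i
    induction i with
    | zero => simp
    | succ i ih =>
      intro hi
      linear_combination (exp := 1) h4 (N + 1) le_rfl - ih (by omega) - h3 i (by omega)
  refine h1 (e.trans (funext fun j => ?_))
  have := h5 (j + 1) j.2
  rwa [sum_range_succ, h5 j j.2.le, zero_add] at this

theorem vecMul_od (m : ℕ) (yv : Fin m → K) (i : Fin m) : (yv ᵥ* od K m) i = ∑ j, yv j - yv i := by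
  rw [eq_sub_iff_add_eq, ← Finset.add_sum_erase _ yv (mem_univ i), add_comm]
  simp only [Matrix.vecMul, dotProduct, od, Matrix.of_apply]
  rw [← Finset.add_sum_erase _ _ (mem_univ i)]
  simp only [if_true, mul_zero, zero_add, add_right_inj]
  exact sum_congr rfl fun j hj => by rw [if_neg (ne_of_mem_erase hj), mul_one]

theorem od_sing (h : ringChar K ≠ 0) (N : ℕ) : ∃ n ≥ N, ∃ yv : Fin (n + 1) → K,
    yv ᵥ* od K (n + 1) = 0 ∧ yv 0 ≠ 0 ∧ ∃ i0, od K (n + 1) 0 i0 ≠ 0 := by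
  have h1 : N + 1 ≤ ringChar K * (N + 1) := Nat.le_mul_of_pos_left _ (Nat.pos_of_ne_zero h)
  refine ⟨ringChar K * (N + 1), by omega, 1, funext fun i => ?_, by simp, ⟨1, by omega⟩,
    by simp [od, Fin.ext_iff]⟩
  simp [vecMul_od]

theorem od_nonsing (h : ringChar K ≠ 0) (N : ℕ) : ∃ n ≥ N, (od K (n + 1)).det ≠ 0 := by
  have h0 : N ≤ ringChar K * N := Nat.le_mul_of_pos_left _ (Nat.pos_of_ne_zero h)
  refine ⟨ringChar K * N + 1, by omega, fun h => ?_⟩
  obtain ⟨yv, h1, h2⟩ := Matrix.exists_vecMul_eq_zero_iff.2 h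
  have h3 : ∀ i, yv i = ∑ j, yv j := fun i => by
    have := congrFun h2 i
    rw [vecMul_od] at this
    exact (sub_eq_zero.1 this).symm
  have h4 := sum_congr (rfl : univ = univ) fun i _ => h3 i
  simp only [sum_const, card_univ, Fintype.card_fin, nsmul_eq_mul, Nat.cast_add, Nat.cast_mul,
    ringChar.Nat.cast_ringChar, zero_mul, zero_add, Nat.cast_one] at h4
  exact h1 (funext fun i => by rw [h3 i, Pi.zero_apply]; linear_combination (exp := 1) -h4)

theorem exists_family (κ : Kind) (h : κ = Kind.OI ∨ ringChar K ≠ 0) :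
    ∃ A : ∀ n, Matrix (Fin n) (Fin n) K,
      (∀ (m n : ℕ) (ε : Fin m → Fin n), κ.Ok ε → ∀ j i, A n (ε j) (ε i) = A m j i) ∧
      (∀ N, ∃ n ≥ N, ∃ yv : Fin (n + 1) → K, yv ᵥ* A (n + 1) = 0 ∧ yv 0 ≠ 0 ∧
        ∃ i0, A (n + 1) 0 i0 ≠ 0) ∧ ∀ N, ∃ n ≥ N, (A (n + 1)).det ≠ 0 := by
  rcases h with rfl | h
  · refine ⟨sg K, fun m n ε hε j i => ?_, sg_sing, sg_nonsing⟩
    simp only [sg, Matrix.of_apply, StrictMono.lt_iff_lt hε]
  · refine ⟨od K, fun m n ε hε j i => ?_, od_sing h, od_nonsing h⟩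
    simp only [od, Matrix.of_apply, (ok_inj hε).eq_iff]

end Pool.Agent.H79.OI
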