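import Pool.Agent.H15.Oll

set_option autoImplicit false

namespace Pool.Agent.H79.OR1

open Finset Pool.Agent.H15.Oll

variable {G : Type*} [Group G] {S : Finset G}

structure Gens (S : Finset G) : Prop where
  one : (1 : G) ∉ S
  symm : ∀ s ∈ S, s⁻¹ ∈ S
  gen : Subgroup.closure (S : Set G) = ⊤

abbrev Cay (S : Finset G) := SimpleGraph.mulCayley (S : Set G)

theorem Gens.adj (h : Gens S) {x y : G} : (Cay S).Adj x y ↔ x⁻¹ * y ∈ S := adj_iff h.one h.symm x y

theorem Gens.conn (h : Gens S) : (Cay S).Connected :=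
  ⟨fun x y => reach h.one h.symm h.gen x y⟩

theorem Gens.dist1 (h : Gens S) (x : G) {s : G} (hs : s ∈ S) : (Cay S).dist x (x * s) = 1 :=
  SimpleGraph.dist_eq_one_iff_adj.2 (h.adj.2 (by simpa using hs))

theorem Gens.ind (h : Gens S) {P : G → G → ℕ → Prop} (h0 : ∀ x, P x x 0)
    (h1 : ∀ x y n, ∀ s ∈ S, P (x * s) y n → P x y (n + 1)) (x y : G) : P x y ((Cay S).dist x y) := by
  obtain ⟨p, hp⟩ := (h.conn x y).exists_walk_length_eq_dist
  rw [← hp]
  clear hp
  induction p with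
  | nil => exact h0 _
  | @cons x x' y a p ih => exact h1 x y _ _ (h.adj.1 a) (by simpa using ih)

theorem harm_const (h : Gens S) {g : G → ℝ} (hg : ∀ x, ∑ s ∈ S, g (x * s) = S.card * g x)
    (hfin : (Set.range g).Finite) (x y : G) : g x = g y := by
  obtain ⟨_, ⟨x0, rfl⟩, hmax⟩ := Set.exists_max_image _ id hfin ⟨_, 1, rfl⟩
  have key : ∀ x y, g x = g x0 → g y = g x0 := fun x y =>
    h.ind (P := fun x y _ => g x = g x0 → g y = g x0) (fun _ h => h) (fun x y _ s hs ih hx => ih (by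
      have h1 : ∑ s ∈ S, (g x0 - g (x * s)) = 0 := by
        rw [sum_sub_distrib, hg, hx]; simp
      have := (sum_eq_zero_iff_of_nonneg fun s _ =>
        sub_nonneg.2 (hmax _ ⟨x * s, rfl⟩ : g (x * s) ≤ g x0)).1 h1 s hs
      simp only [id] at this
      linarith)) x y
  rw [key x0 x rfl, key x0 y rfl]

theorem tight (h : Gens S) (hκ : ∀ x y, (Cay S).Adj x y → 0 ≤ kappa (Cay S) x y) {l : G → ℝ}
    (hl : ∀ x, ∑ s ∈ S, l (x * s) = S.card * l x) (lip : ∀ x y, l y - l x ≤ (Cay S).dist x y)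
    {x s : G} (hs : s ∈ S) (e : l (x * s) - l x = 1) {t : G} (ht : t ∈ S) :
    ∃ t' ∈ S, l (x * s * t') - l (x * t) = (Cay S).dist (x * t) (x * s * t') := by
  classical
  by_contra hc
  push Not at hc
  obtain ⟨t0, ht0, hmin⟩ := exists_min_image S
    (fun t' => ((Cay S).dist (x * t) (x * s * t') : ℝ) - (l (x * s * t') - l (x * t))) ⟨s, hs⟩
  set δ := ((Cay S).dist (x * t) (x * s * t0) : ℝ) - (l (x * s * t0) - l (x * t))
  have hδ : 0 < δ := sub_pos.2 (lt_of_le_of_ne (lip _ _) (hc t0 ht0))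
  have hinj : ∀ z : G, Set.InjOn (z * ·) (S : Set G) := fun z a _ b _ h => mul_left_cancel h
  have key := le_W1 (Cay S) (S.image (x * ·)) (S.image (x * s * ·)) (Nonempty.image ⟨s, hs⟩ _)
    (Nonempty.image ⟨s, hs⟩ _) (fun a => l a - if a = x * t then δ else 0) l (by
      intro a _ b hb
      obtain ⟨t', ht', rfl⟩ := mem_image.1 hb
      split_ifs with h1
      · have := hmin t' ht'
        rw [h1]; linarith
      · simpa using lip _ _)
  rw [sum_sub_distrib, sum_ite_eq', if_pos (mem_image.2 ⟨t, ht, rfl⟩), sum_image (hinj _),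
    sum_image (hinj _), card_image_of_injOn (hinj _), card_image_of_injOn (hinj _), hl, hl] at key
  have h1 := hκ x (x * s) (h.adj.2 (by simpa using hs))
  rw [kappa, h.dist1 x hs, nbrs_eq h.one h.symm, nbrs_eq h.one h.symm, Nat.cast_one, div_one] at h1
  have hc0 : (0 : ℝ) < S.card := by exact_mod_cast card_pos.2 ⟨s, hs⟩
  have h2 := key.trans (sub_nonneg.1 h1)
  rw [← sub_div, div_le_one hc0] at h2
  nlinarith

section

variable (h : Gens S) (hκ : ∀ x y, (Cay S).Adj x y → 0 ≤ kappa (Cay S) x y) {l : G → ℝ}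
  (hl : ∀ x, ∑ s ∈ S, l (x * s) = S.card * l x) (lip1 : ∀ x, ∀ s ∈ S, l (x * s) - l x ≤ 1)
include h lip1

theorem lip (x y : G) : l y - l x ≤ (Cay S).dist x y :=
  h.ind (P := fun x y n => l y - l x ≤ n) (by simp) (fun x y n s hs ih => by
    have := lip1 x s hs
    push_cast; linarith) x y

theorem trans {x y z : G} (h1 : l y - l x = (Cay S).dist x y) (h2 : l z - l y = (Cay S).dist y z) :
    l z - l x = (Cay S).dist x z := by
  have h3 : ((Cay S).dist x z : ℝ) ≤ (Cay S).dist x y + (Cay S).dist y z := by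
    exact_mod_cast h.conn.dist_triangle
  linarith [lip h lip1 x z]

include hκ hl

theorem tight1 {x y : G} (e : l y - l x = (Cay S).dist x y) : ∀ t ∈ S, ∃ t' ∈ S,
    l (y * t') - l (x * t) = (Cay S).dist (x * t) (y * t') :=
  (h.ind (P := fun x y n => l y - l x ≤ n ∧ (l y - l x = n → ∀ t ∈ S, ∃ t' ∈ S,
    l (y * t') - l (x * t) = (Cay S).dist (x * t) (y * t')))
    (fun x => ⟨by simp, fun _ t ht => ⟨t, ht, by simp⟩⟩)
    (fun x y n s hs ih => by
      have a1 := lip1 x s hs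
      push_cast
      refine ⟨by linarith [ih.1], fun e t ht => ?_⟩
      obtain ⟨t1, h1, e1⟩ := tight h hκ hl (lip h lip1) hs (by linarith [ih.1]) ht
      obtain ⟨t2, h2, e2⟩ := ih.2 (by linarith [ih.1]) t1 h1
      exact ⟨t2, h2, trans h lip1 e1 e2⟩) x y).2 e

theorem follow {x y : G} (e : l y - l x = (Cay S).dist x y) (a : G) :
    ∃ b, (Cay S).dist y b ≤ (Cay S).dist x a ∧ l b - l a = (Cay S).dist a b :=
  h.ind (P := fun x a n => ∀ y, l y - l x = (Cay S).dist x y →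
    ∃ b, (Cay S).dist y b ≤ n ∧ l b - l a = (Cay S).dist a b)
    (fun x y e => ⟨y, by simp, e⟩) (fun x a n s hs ih y e => by
      obtain ⟨t, ht, e1⟩ := tight1 h hκ hl lip1 e s hs
      obtain ⟨b, h1, h2⟩ := ih _ e1
      refine ⟨b, ?_, h2⟩
      have := h.conn.dist_triangle (u := y) (v := y * t) (w := b)
      rw [h.dist1 y ht] at this
      omega) x a y e

theorem long {x s : G} (hs : s ∈ S) (e : l (x * s) - l x = 1) (L : ℕ) :
    ∃ y, l y - l x = (Cay S).dist x y ∧ (L : ℝ) ≤ (Cay S).dist x y := by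
  have key : ∀ L : ℕ, ∃ y, ∃ t ∈ S, l (y * t) - l y = 1 ∧ l y - l x = (Cay S).dist x y ∧
      l y - l x = L := by
    intro L
    induction L with
    | zero => exact ⟨x, s, hs, e, by simp, by simp⟩
    | succ L ih =>
      obtain ⟨y, t, ht, h1, h2, h3⟩ := ih
      obtain ⟨t', ht', h4⟩ := tight h hκ hl (lip h lip1) ht h1 ht
      rw [h.dist1 _ ht', Nat.cast_one] at h4
      exact ⟨y * t, t', ht', h4, trans h lip1 h2 (by rw [h.dist1 _ ht, h1, Nat.cast_one]),
        by push_cast; linarith⟩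
  obtain ⟨y, -, -, -, h2, h3⟩ := key L
  exact ⟨y, h2, by linarith⟩

end

theorem core (h : Gens S) (hκ : ∀ x y, (Cay S).Adj x y → 0 ≤ kappa (Cay S) x y) {V : Type*}
    [AddCommGroup V] [Module ℝ V] (Ω : V →ₗ[ℝ] V →ₗ[ℝ] ℝ) (alt : ∀ u w, Ω u w = -Ω w u)
    (f : G → V) (c : G → ℝ) (D : Finset V) (hD : ∀ x, ∀ s ∈ S, f (x * s) - f x ∈ D)
    (hD' : ∀ d ∈ D, ∃ x, ∃ s ∈ S, d = f (x * s) - f x)
    (harm : ∀ x, ∑ s ∈ S, f (x * s) = (S.card : ℝ) • f x) (K : ℝ)
    (hA : ∀ x, ∀ s ∈ S, |c (x * s) - c x - Ω (f x) (f (x * s))| ≤ K)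
    (liou : ∀ v, (∃ C, ∀ a, |Ω (f a) v| ≤ C) → ∀ a b, Ω (f a) v = Ω (f b) v) (a b a' b' : G) :
    Ω (f b - f a) (f b' - f a') = 0 := by
  have self : ∀ u, Ω u u = 0 := fun u => by linarith [alt u u]
  have ext : ∀ u, (∀ d ∈ D, Ω d u = 0) → ∀ x y, Ω (f y - f x) u = 0 := fun u hu x y =>
    h.ind (P := fun x y _ => Ω (f y - f x) u = 0) (by simp) (fun x y _ s hs ih => by
      have := hu _ (hD x s hs)
      simp only [map_sub, LinearMap.sub_apply] at this ih ⊢
      linarith) x y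
  by_contra hne
  let q : V → V → ℝ := fun u w => ∑ d ∈ D, Ω d u * Ω d w
  obtain ⟨d0, hd0, hq0⟩ : ∃ d ∈ D, 0 < q d d := by
    by_contra hc
    push Not at hc
    refine hne (ext _ (fun d hd => ?_) a b)
    rw [alt, ext d (fun d' hd' => ?_), neg_zero]
    exact mul_self_eq_zero.1 ((sum_eq_zero_iff_of_nonneg fun _ _ => mul_self_nonneg _).1
      (le_antisymm (hc d hd) (sum_nonneg fun _ _ => mul_self_nonneg _)) d' hd')
  obtain ⟨v, hv, hmax⟩ := exists_max_image D (fun d => q d d) ⟨d0, hd0⟩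
  have hq : 0 < q v v := hq0.trans_le (hmax d0 hd0)
  let lam : V →ₗ[ℝ] ℝ := (q v v)⁻¹ • ∑ d ∈ D, Ω d v • Ω d
  have hlam : ∀ u, lam u = q v u / q v v := fun u => by
    simp [lam, q, div_eq_inv_mul, LinearMap.sum_apply]
  have hl : ∀ u ∈ D, lam u ≤ 1 ∧ (lam u = 1 → ∀ d ∈ D, Ω d u = Ω d v) := by
    intro u hu
    have e : ∑ d ∈ D, (Ω d v - Ω d u) ^ 2 = q v v - 2 * q v u + q u u := by
      simp only [q, mul_sum, ← sum_sub_distrib, ← sum_add_distrib]
      exact sum_congr rfl fun a _ => by ring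
    have h2 : 0 ≤ ∑ d ∈ D, (Ω d v - Ω d u) ^ 2 := sum_nonneg fun a _ => sq_nonneg _
    have h3 : q u u ≤ q v v := hmax u hu
    rw [hlam]
    refine ⟨(div_le_one hq).2 (by linarith), fun h d hd => ?_⟩
    have h4 : q v u = q v v := by rwa [div_eq_one_iff_eq hq.ne'] at h
    have := (sum_eq_zero_iff_of_nonneg fun d _ => sq_nonneg (Ω d v - Ω d u)).1 (by linarith) d hd
    have := pow_eq_zero_iff (two_ne_zero) |>.1 this
    linarith
  let l : G → ℝ := fun x => lam (f x)
  have lip1 : ∀ x, ∀ s ∈ S, l (x * s) - l x ≤ 1 := fun x s hs => by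
    simpa only [map_sub] using (hl _ (hD x s hs)).1
  have hh : ∀ x, ∑ s ∈ S, l (x * s) = S.card * l x := fun x => by
    simp only [l, ← map_sum, harm, map_smul, smul_eq_mul]
  let A : G → G → ℝ := fun x y => c y - c x - Ω (f x) (f y)
  have coc : ∀ x y z, A x z = A x y + A y z + Ω (f y - f x) (f z - f y) := fun x y z => by
    simp only [A, map_sub, LinearMap.sub_apply, self]; ring
  have tw : ∀ x y, l y - l x = (Cay S).dist x y →
      (∀ d ∈ D, Ω d (f y - f x) = (Cay S).dist x y * Ω d v) ∧ |A x y| ≤ K * (Cay S).dist x y :=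
    fun x y => (h.ind (P := fun x y n => l y - l x ≤ n ∧ (l y - l x = n →
      (∀ d ∈ D, Ω d (f y - f x) = n * Ω d v) ∧ |A x y| ≤ K * n))
      (fun x => ⟨by simp, fun _ => ⟨by simp, by simp [A, self]⟩⟩) (fun x y n s hs ih => by
        have a1 := lip1 x s hs
        push_cast
        refine ⟨by linarith [ih.1], fun e => ?_⟩
        obtain ⟨h1, h2⟩ := ih.2 (by linarith [ih.1])
        have h3 := (hl _ (hD x s hs)).2 (by rw [map_sub]; linarith [ih.1])
        refine ⟨fun d hd => ?_, ?_⟩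
        · have e1 := h1 d hd
          have e2 := h3 d hd
          rw [map_sub] at e1 e2 ⊢
          linarith
        · rw [coc x (x * s) y, h1 _ (hD x s hs), alt, h3 v hv, self, neg_zero, mul_zero, add_zero]
          linarith [abs_add_le (A x (x * s)) (A (x * s) y), hA x s hs]) x y).2
  obtain ⟨M, hM0, hM⟩ : ∃ M, 0 ≤ M ∧ ∀ d ∈ D, ∀ d' ∈ D, |Ω d d'| ≤ M :=
    ⟨∑ d ∈ D, ∑ d' ∈ D, |Ω d d'|, sum_nonneg fun _ _ => sum_nonneg fun _ _ => abs_nonneg _,
      fun d hd d' hd' => (single_le_sum (f := fun d' => |Ω d d'|) (fun _ _ => abs_nonneg _)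
        hd').trans (single_le_sum (f := fun d => ∑ d' ∈ D, |Ω d d'|)
          (fun _ _ => sum_nonneg fun _ _ => abs_nonneg _) hd)⟩
  obtain ⟨x0, s0, hs0, hv'⟩ := hD' v hv
  have hK : 0 ≤ K := (abs_nonneg _).trans (hA x0 s0 hs0)
  have gw : ∀ x y, |A x y| ≤ K * (Cay S).dist x y + M * ((Cay S).dist x y : ℝ) ^ 2 :=
    fun x y => (h.ind (P := fun x y n => (∀ d ∈ D, |Ω d (f y - f x)| ≤ M * n) ∧
      |A x y| ≤ K * n + M * (n : ℝ) ^ 2)
      (fun x => ⟨by simp, by simp [A, self]⟩) (fun x y n s hs ih => by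
        push_cast
        refine ⟨fun d hd => ?_, ?_⟩
        · rw [show f y - f x = (f (x * s) - f x) + (f y - f (x * s)) by abel, map_add]
          linarith [abs_add_le (Ω d (f (x * s) - f x)) (Ω d (f y - f (x * s))), ih.1 d hd,
            hM d hd _ (hD x s hs)]
        · rw [coc x (x * s) y]
          have := abs_add_three (A x (x * s)) (A (x * s) y) (Ω (f (x * s) - f x) (f y - f (x * s)))
          have h0 : (0 : ℝ) ≤ n := Nat.cast_nonneg n
          nlinarith [ih.1 _ (hD x s hs), ih.2, hA x s hs]) x y).2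
  have e0 : l (x0 * s0) - l x0 = 1 := by
    show lam _ - lam _ = 1
    rw [← map_sub, ← hv', hlam, div_self hq.ne']
  have tw' : ∀ x y, l y - l x = (Cay S).dist x y → ∀ p p',
      Ω (f p' - f p) (f y - f x) = (Cay S).dist x y * Ω (f p' - f p) v := fun x y e p p' => by
    have := ext (f y - f x - ((Cay S).dist x y : ℝ) • v) (fun d hd => by
      rw [map_sub, (tw x y e).1 d hd, map_smul, smul_eq_mul, sub_self]) p p'
    rwa [map_sub, map_smul, smul_eq_mul, sub_eq_zero] at this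
  have bd : ∀ p, |Ω (f p - f x0) v| ≤ K := by
    intro p
    set r : ℝ := ((Cay S).dist x0 p : ℝ) with hr'
    have hr : 0 ≤ r := Nat.cast_nonneg _
    by_contra hc
    push Not at hc
    obtain ⟨L, hL⟩ := exists_nat_gt (2 * (K * r + M * r ^ 2) / (|Ω (f p - f x0) v| - K))
    rw [div_lt_iff₀ (sub_pos.2 hc)] at hL
    obtain ⟨y, e1, hy⟩ := long h hκ hh lip1 hs0 e0 L
    obtain ⟨z, hz, e2⟩ := follow h hκ hh lip1 e1 p
    have hz' : ((Cay S).dist y z : ℝ) ≤ r := by rw [hr']; exact_mod_cast hz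
    have hz0 : (0 : ℝ) ≤ (Cay S).dist y z := Nat.cast_nonneg _
    have g1 := gw p x0
    rw [SimpleGraph.dist_comm] at g1
    have g2 : |A y z| ≤ K * r + M * r ^ 2 := (gw y z).trans (by gcongr)
    have t1 := (tw _ _ e1).2
    have t2 := (tw _ _ e2).2
    have k1 := tw' _ _ e1 x0 p
    have k2 := tw' _ _ e2 x0 p
    have k3 : Ω (f y - f x0) (f z - f p) = 0 := by
      rw [tw' _ _ e2, alt, (tw _ _ e1).1 v hv, self]; simp
    have k4 : A p z = A p x0 + A x0 y + A y z -
        ((Cay S).dist x0 y + (Cay S).dist p z) * Ω (f p - f x0) v := by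
      rw [coc p x0 z, coc x0 y z, add_mul, ← k1, ← k2]
      have a1 := alt (f y) (f p)
      have a2 := alt (f y) (f x0)
      have a3 := alt (f p) (f x0)
      simp only [map_sub, LinearMap.sub_apply, self] at k3 ⊢
      linarith
    have hL' : (0 : ℝ) ≤ (Cay S).dist p z := Nat.cast_nonneg _
    have hL0 : (0 : ℝ) ≤ L := Nat.cast_nonneg _
    have k5 : ((Cay S).dist x0 y + (Cay S).dist p z) * |Ω (f p - f x0) v| ≤
        |A p x0| + |A x0 y| + |A y z| + |A p z| := by
      rw [← abs_of_nonneg (add_nonneg (hL0.trans hy) hL'), ← abs_mul,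
        show ((Cay S).dist x0 y + (Cay S).dist p z : ℝ) * Ω (f p - f x0) v =
          A p x0 + A x0 y + A y z - A p z by linarith]
      linarith [abs_sub (A p x0 + A x0 y + A y z) (A p z), abs_add_three (A p x0) (A x0 y) (A y z)]
    nlinarith
  have hc := liou v ⟨K + |Ω (f x0) v|, fun p => by
    have := bd p
    rw [map_sub, LinearMap.sub_apply] at this
    linarith [abs_sub_abs_le_abs_sub (Ω (f p) v) (Ω (f x0) v)]⟩
  refine hq.ne' (sum_eq_zero fun d hd => ?_)
  obtain ⟨x, s, -, rfl⟩ := hD' d hd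
  rw [map_sub, LinearMap.sub_apply, hc (x * s) x, sub_self, zero_mul]

end Pool.Agent.H79.OR1
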