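import Pool.Agent.H79.OR1

set_option autoImplicit false

namespace Pool.Agent.H79.OR2

open Finset Pool.Agent.H15.Oll OR1

variable {G : Type*} [Group G] {S : Finset G} (N : Subgroup G)

def pi (g : G) : G ⧸ N := (g⁻¹ : G)

noncomputable def nn (g : G) : N :=
  ⟨g * (pi N g).out, by
    have := QuotientGroup.eq.1 (QuotientGroup.out_eq' (pi N g)).symm
    simpa using this⟩

theorem pi_mul (m : N) (g : G) : pi N (m * g) = pi N g := by
  apply QuotientGroup.eq.2
  simp

theorem nn_mul (m : N) (g : G) : nn N (m * g) = m * nn N g := by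
  apply Subtype.ext
  simp [nn, pi_mul, mul_assoc]

theorem pi_right (g s : G) : pi N (g * s) = s⁻¹ • pi N g := by
  simp [pi, mul_inv_rev]

theorem pi_out (q : G ⧸ N) : pi N q.out⁻¹ = q := by simp [pi]

theorem decomp (g : G) : g = nn N g * (pi N g).out⁻¹ := by simp [nn]

variable {N}

theorem fin_range [N.FiniteIndex] {α : Type*} {F : G → α} (hF : ∀ (m : N) g, F (m * g) = F g) :
    (Set.range F).Finite := by
  refine (Set.finite_range fun q : G ⧸ N => F q.out⁻¹).subset ?_
  rintro _ ⟨g, rfl⟩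
  exact ⟨pi N g, by conv_rhs => rw [decomp N g, hF]⟩

theorem laplace [N.FiniteIndex] (h : Gens S) {V : Type*} [AddCommGroup V] [Module ℝ V]
    [Fintype (G ⧸ N)] (k : G ⧸ N → V) (hk : ∑ q, k q = 0) :
    ∃ u : G ⧸ N → V, ∀ q, ∑ s ∈ S, u (s⁻¹ • q) - (S.card : ℝ) • u q = k q := by
  classical
  let T : (G ⧸ N → ℝ) →ₗ[ℝ] (G ⧸ N → ℝ) :=
    { toFun := fun u q => ∑ s ∈ S, u (s⁻¹ • q) - S.card * u q + ∑ p, u p
      map_add' := fun u w => by funext q; simp [sum_add_distrib]; ring
      map_smul' := fun a u => by funext q; simp [← mul_sum]; ring }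
  have hsum : ∀ u : G ⧸ N → ℝ, ∑ q, T u q = Fintype.card (G ⧸ N) * ∑ p, u p := by
    intro u
    simp only [T, LinearMap.coe_mk, AddHom.coe_mk, sum_add_distrib, sum_sub_distrib, sum_const,
      card_univ, nsmul_eq_mul, ← mul_sum]
    have : ∀ s : G, ∑ x, u (s⁻¹ • x) = ∑ x, u x := fun s => Equiv.sum_comp (MulAction.toPerm s⁻¹) u
    rw [sum_comm]
    simp [this]
  have hc : (Fintype.card (G ⧸ N) : ℝ) ≠ 0 := by exact_mod_cast Fintype.card_ne_zero
  have hinj : Function.Injective T := by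
    rw [injective_iff_map_eq_zero]
    intro u hu
    have h1 : ∑ p, u p = 0 := by
      have := hsum u
      rw [hu] at this
      simpa [hc] using this
    have h2 := harm_const h (g := fun x => u (pi N x)) (fun x => by
      have := congrFun hu (pi N x)
      simp only [T, LinearMap.coe_mk, AddHom.coe_mk, h1, Pi.zero_apply] at this
      simp only [pi_right]
      linarith) ((Set.finite_range u).subset (by rintro _ ⟨x, rfl⟩; exact ⟨_, rfl⟩))
    funext q
    have h3 : ∀ p, u p = u q := fun p => by simpa only [pi_out] using h2 p.out⁻¹ q.out⁻¹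
    rw [sum_congr rfl fun p _ => h3 p] at h1
    simpa [hc] using h1
  choose w hw using fun p : G ⧸ N =>
    LinearMap.surjective_of_injective hinj (Pi.single p 1)
  refine ⟨fun q => ∑ p, w p q • k p, fun q => ?_⟩
  have h1 : ∀ p, ∑ s ∈ S, w p (s⁻¹ • q) - S.card * w p q =
      (Pi.single p 1 : G ⧸ N → ℝ) q - (Fintype.card (G ⧸ N) : ℝ)⁻¹ := fun p => by
    have e1 := hsum (w p)
    rw [hw] at e1
    have e2 := congrFun (hw p) q
    simp only [T, LinearMap.coe_mk, AddHom.coe_mk] at e2
    have e3 : ∑ p', w p p' = (Fintype.card (G ⧸ N) : ℝ)⁻¹ := by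
      apply eq_inv_of_mul_eq_one_right
      rw [← e1]; simp
    linarith
  rw [sum_comm, smul_sum, ← sum_sub_distrib]
  simp only [← sum_smul, smul_smul, ← sub_smul, h1]
  simp only [sub_smul, sum_sub_distrib, ← smul_sum, hk, smul_zero, sub_zero, Pi.single_apply,
    ite_smul, one_smul, zero_smul]
  simp

theorem vanish [N.FiniteIndex] (h : Gens S)
    (hκ : ∀ x y, (Cay S).Adj x y → 0 ≤ kappa (Cay S) x y) {V : Type*}
    [AddCommGroup V] [Module ℝ V] (Ω : V →ₗ[ℝ] V →ₗ[ℝ] ℝ) (alt : ∀ u w, Ω u w = -Ω w u)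
    (φ : N → V) (hφ : ∀ a b, φ (a * b) = φ a + φ b) (c : N → ℝ)
    (hc : ∀ a b, c (a * b) = c a + c b + Ω (φ a) (φ b)) (a b : N) : Ω (φ a) (φ b) = 0 := by
  classical
  have := Fintype.ofFinite (G ⧸ N)
  have self : ∀ u, Ω u u = 0 := fun u => by linarith [alt u u]
  have φ1 : φ 1 = 0 := by simpa using hφ 1 1
  obtain ⟨u, hu⟩ := laplace h (fun q : G ⧸ N => -∑ s ∈ S, φ (nn N (q.out⁻¹ * s))) (by
    rw [sum_neg_distrib, neg_eq_zero, ← sum_product' univ S fun (q : G ⧸ N) s => φ (nn N (q.out⁻¹ * s))]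
    have key : ∑ p ∈ univ ×ˢ S, φ (nn N ((p.1 : G ⧸ N).out⁻¹ * p.2)) =
        ∑ p ∈ univ ×ˢ S, -φ (nn N ((p.1 : G ⧸ N).out⁻¹ * p.2)) := by
      refine sum_nbij' (fun p => (p.2⁻¹ • p.1, p.2⁻¹)) (fun p => (p.2⁻¹ • p.1, p.2⁻¹))
        (fun p hp => by simpa using h.symm _ (mem_product.1 hp).2)
        (fun p hp => by simpa using h.symm _ (mem_product.1 hp).2)
        (fun p _ => by simp) (fun p _ => by simp) fun p _ => ?_
      rw [eq_neg_iff_add_eq_zero, ← hφ, ← φ1]
      congr 1
      apply Subtype.ext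
      simp [nn, pi_right, pi_out, mul_assoc]
    rw [sum_neg_distrib, eq_neg_iff_add_eq_zero, ← two_smul ℝ] at key
    simpa using key)
  let f : G → V := fun g => φ (nn N g) + u (pi N g)
  have hf : ∀ (m : N) g, f (m * g) = φ m + f g := fun m g => by
    simp only [f, nn_mul, pi_mul, hφ, add_assoc]
  let c' : G → ℝ := fun g => c (nn N g) + Ω (φ (nn N g)) (u (pi N g))
  have hc' : ∀ (m : N) g, c' (m * g) = c' g + c m + Ω (φ m) (f g) := fun m g => by
    simp only [c', f, nn_mul, pi_mul, hφ, hc, map_add, LinearMap.add_apply]; ring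
  have harm : ∀ x, ∑ s ∈ S, f (x * s) = (S.card : ℝ) • f x := fun x => by
    have e : ∀ s, f (x * s) = φ (nn N x) + φ (nn N ((pi N x).out⁻¹ * s)) + u (s⁻¹ • pi N x) := by
      intro s
      conv_lhs => rw [decomp N x, mul_assoc, hf]
      simp only [f, pi_right, pi_out, add_assoc]
    simp only [e, sum_add_distrib, sum_const, f, smul_add, ← Nat.cast_smul_eq_nsmul ℝ]
    rw [add_assoc, add_right_inj, ← sub_eq_zero, add_sub_assoc, hu, add_neg_cancel]
  have f1 : ∀ s, (Set.range fun x => f (x * s) - f x).Finite := fun s => fin_range (N := N)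
    fun m g => by rw [mul_assoc, hf, hf]; abel
  have f2 : ∀ s, (Set.range fun x => |c' (x * s) - c' x - Ω (f x) (f (x * s))|).Finite :=
    fun s => fin_range (N := N) fun m g => by
      rw [mul_assoc, hf, hf, hc', hc']
      congr 1
      have := alt (f g) (φ m)
      simp only [map_add, LinearMap.add_apply, self]
      linarith
  obtain ⟨K, hK⟩ := (S.finite_toSet.biUnion fun s _ => f2 s).bddAbove
  have := core h hκ Ω alt f c' (S.finite_toSet.biUnion fun s _ => f1 s).toFinset
    (fun x s hs => by simpa using ⟨s, hs, x, rfl⟩) (fun d hd => by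
      obtain ⟨s, hs, x, e⟩ : ∃ s ∈ S, ∃ x, f (x * s) - f x = d := by simpa using hd
      exact ⟨x, s, hs, e.symm⟩) harm K
    (fun x s hs => hK (Set.mem_biUnion hs ⟨x, rfl⟩)) (fun v ⟨C, hC⟩ => by
      have h1 : ∀ m : N, Ω (φ m) v = 0 := fun m => by
        have h2 : ∀ j : ℕ, Ω (f ((m ^ j : N) * 1)) v = j * Ω (φ m) v + Ω (f 1) v := fun j => by
          induction j with
          | zero => simp
          | succ j ih =>
            rw [pow_succ', Subgroup.coe_mul, mul_assoc, hf, map_add, LinearMap.add_apply, ih]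
            push_cast; ring
        by_contra h0
        obtain ⟨j, hj⟩ := exists_nat_gt ((C + C) / |Ω (φ m) v|)
        rw [div_lt_iff₀ (abs_pos.2 h0)] at hj
        have h3 := hC ((m ^ j : N) * 1)
        rw [h2] at h3
        have h4 := abs_sub (j * Ω (φ m) v + Ω (f 1) v) (Ω (f 1) v)
        rw [add_sub_cancel_right, abs_mul, Nat.abs_cast] at h4
        linarith [hC 1]
      exact harm_const h (g := fun x => Ω (f x) v) (fun x => by
        rw [← LinearMap.sum_apply, ← map_sum, harm, map_smul]; rfl)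
        (fin_range (N := N) fun m g => by rw [hf, map_add, LinearMap.add_apply, h1, zero_add]))
    1 (a * 1) 1 (b * 1)
  rwa [hf, hf, add_sub_cancel_right, add_sub_cancel_right] at this

end Pool.Agent.H79.OR2
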