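import Pool.Agent.H79.OR2

set_option autoImplicit false

namespace Pool.Agent.H79.OR3

open Pool.Agent.H15.Oll OR1 OR2 Subgroup
open scoped commutatorElement IsMulCommutative

universe u

theorem bil {M : Type u} [Group M] (B : M → M → ℝ) (h1 : ∀ x y z, B (x * y) z = B x z + B y z)
    (h2 : ∀ x y, B x y = -B y x) : ∃ (V : Type u) (_ : AddCommGroup V) (_ : Module ℝ V)
      (Ω : V →ₗ[ℝ] V →ₗ[ℝ] ℝ) (φ : M → V), (∀ u w, Ω u w = -Ω w u) ∧
      (∀ a b, φ (a * b) = φ a + φ b) ∧ ∀ a b, Ω (φ a) (φ b) = B a b := by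
  let Ω : (M →₀ ℝ) →ₗ[ℝ] (M →₀ ℝ) →ₗ[ℝ] ℝ :=
    Finsupp.linearCombination ℝ fun x => Finsupp.linearCombination ℝ (B x)
  have e : ∀ x y, Ω (Finsupp.single x 1) (Finsupp.single y 1) = B x y := by simp [Ω]
  have alt : Ω.flip = -Ω := by
    ext x y
    simp [e, h2 x y]
  have hle : LinearMap.ker Ω ≤ LinearMap.ker Ω.flip := by rw [alt, LinearMap.ker_neg]
  refine ⟨(M →₀ ℝ) ⧸ LinearMap.ker Ω, inferInstance, inferInstance,
    Ω.liftQ₂ _ _ le_rfl hle, fun x => Submodule.Quotient.mk (Finsupp.single x 1), fun u w => ?_,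
    fun a b => ?_, fun a b => e a b⟩
  · obtain ⟨u, rfl⟩ := Submodule.Quotient.mk_surjective _ u
    obtain ⟨w, rfl⟩ := Submodule.Quotient.mk_surjective _ w
    exact LinearMap.congr_fun₂ alt w u
  · rw [← Submodule.Quotient.mk_add, Submodule.Quotient.eq, LinearMap.mem_ker]
    ext y
    simp [e, h1]

@[ext] structure Ext {M : Type u} (B : M → M → ℝ) where
  x : M
  t : ℝ

theorem coord {M : Type u} [Group M] (hc : ∀ x y : M, ⁅x, y⁆ ∈ center M)
    (χ : Additive (center M) →+ ℝ) : ∃ (B : M → M → ℝ) (c : M → ℝ),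
      (∀ x y, B x y = χ (Additive.ofMul ⟨_, hc x y⟩) / 2) ∧
      (∀ x y z, B (x * y) z = B x z + B y z) ∧ (∀ x y, B x y = -B y x) ∧
      ∀ x y, c (x * y) = c x + c y + B x y := by
  let B : M → M → ℝ := fun x y => χ (Additive.ofMul ⟨_, hc x y⟩) / 2
  have h1 : ∀ x y z, B (x * y) z = B x z + B y z := fun x y z => by
    simp only [B]
    rw [← add_div, ← map_add, ← ofMul_mul, mul_comm]
    congr 3
    apply Subtype.ext
    show ⁅x * y, z⁆ = ⁅y, z⁆ * ⁅x, z⁆
    rw [commutatorElement_mul_left_eq_conj_mul, mem_center_iff.1 (hc y z), mul_inv_cancel_right]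
  have h2 : ∀ x y, B x y = -B y x := fun x y => by
    simp only [B]
    rw [← neg_div, ← map_neg, ← ofMul_inv]
    congr 3
    exact Subtype.ext (commutatorElement_inv y x).symm
  have h3 : ∀ x y z, B x (y * z) = B x y + B x z := fun x y z => by
    rw [h2, h1, h2 y, h2 z]; ring
  have h4 : ∀ x ∈ center M, ∀ y, B x y = 0 := fun x hx y => by
    have : (⟨_, hc x y⟩ : center M) = 1 :=
      Subtype.ext (commutatorElement_eq_one_iff_mul_comm.2 (mem_center_iff.1 hx y).symm)
    simp only [B, this, ofMul_one, map_zero, zero_div]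
  have h5 : ∀ x, B x x = 0 := fun x => by linarith [h2 x x]
  have h6 : ∀ x y, B x⁻¹ y = -B x y := fun x y => by
    have := h1 x⁻¹ x y
    rw [inv_mul_cancel, h4 1 (one_mem _)] at this
    linarith
  let _ : Mul (Ext B) := ⟨fun p q => ⟨p.x * q.x, p.t + q.t + B p.x q.x⟩⟩
  let _ : One (Ext B) := ⟨⟨1, 0⟩⟩
  let _ : Inv (Ext B) := ⟨fun p => ⟨p.x⁻¹, -p.t⟩⟩
  let _ : Group (Ext B) := Group.ofLeftAxioms (fun p q r => Ext.ext (mul_assoc _ _ _) (by
      show p.t + q.t + B p.x q.x + r.t + B (p.x * q.x) r.x =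
        p.t + (q.t + r.t + B q.x r.x) + B p.x (q.x * r.x)
      rw [h1, h3]; ring))
    (fun p => Ext.ext (one_mul _) (by
      show 0 + p.t + B 1 p.x = p.t
      rw [h4 1 (one_mem _)]; ring))
    (fun p => Ext.ext (inv_mul_cancel _) (by
      show -p.t + p.t + B p.x⁻¹ p.x = 0
      rw [h6, h5]; ring))
  let D : Subgroup (Ext B) :=
    { carrier := {p | ∃ h : p.x ∈ center M, p.t = χ (Additive.ofMul ⟨_, h⟩)}
      one_mem' := ⟨one_mem (center M), (map_zero χ).symm⟩
      mul_mem' := fun {p q} ⟨hp, hp'⟩ ⟨hq, hq'⟩ => ⟨mul_mem hp hq, by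
        show p.t + q.t + B p.x q.x = _
        rw [h4 _ hp, add_zero, hp', hq', ← map_add]; rfl⟩
      inv_mem' := fun {p} ⟨hp, hp'⟩ => ⟨inv_mem hp, by
        show -p.t = _
        rw [hp', ← map_neg]; rfl⟩ }
  have hD : commutator (Ext B) ≤ D := commutator_le.2 fun p _ q _ => ⟨hc p.x q.x, by
    show p.t + q.t + B p.x q.x + -p.t + B (p.x * q.x) p.x⁻¹ + -q.t +
      B (p.x * q.x * p.x⁻¹) q.x⁻¹ = χ (Additive.ofMul ⟨_, hc p.x q.x⟩)
    have e : χ (Additive.ofMul ⟨_, hc p.x q.x⟩) = 2 * B p.x q.x := by simp only [B]; ring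
    rw [e, h1, h1, h1, h6, h2 _ q.x⁻¹, h2 q.x q.x⁻¹, h2 _ p.x⁻¹, h2 q.x p.x⁻¹, h6, h6, h6, h6,
      h5, h5, h2 q.x p.x]
    ring⟩
  let ι : ℝ →+ Additive (Abelianization (Ext B)) :=
    { toFun := fun t => Additive.ofMul (Abelianization.of ⟨1, t⟩)
      map_zero' := congrArg Additive.ofMul (map_one Abelianization.of)
      map_add' := fun s t => by
        rw [← ofMul_mul, ← map_mul]
        congr 2
        exact Ext.ext (mul_one _).symm (by
          show s + t = s + t + B 1 1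
          rw [h5, add_zero]) }
  have hι : Function.Injective ι := by
    rw [injective_iff_map_eq_zero]
    intro t ht
    have : (⟨1, t⟩ : Ext B) ∈ D := hD ((QuotientGroup.eq_one_iff _).1 ht)
    exact this.2.trans (map_zero χ)
  obtain ⟨r, hr⟩ := (Module.Baer.of_divisible ℝ).extension_property_addMonoidHom ι hι
    (AddMonoidHom.id ℝ)
  refine ⟨B, fun x => -r (Additive.ofMul (Abelianization.of ⟨x, 0⟩)), fun _ _ => rfl, h1, h2,
    fun x y => ?_⟩
  have e : (⟨x, 0⟩ : Ext B) * ⟨y, 0⟩ = ⟨1, B x y⟩ * ⟨x * y, 0⟩ := Ext.ext (one_mul _).symm (by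
    show 0 + 0 + B x y = B x y + 0 + B 1 (x * y)
    rw [h4 1 (one_mem _)]; ring)
  have e2 := congrArg (fun p => r (Additive.ofMul (Abelianization.of p))) e
  simp only [map_mul, ofMul_mul, map_add] at e2
  have e3 : r (Additive.ofMul (Abelianization.of (⟨1, B x y⟩ : Ext B))) = B x y :=
    DFunLike.congr_fun hr (B x y)
  linarith

theorem step1 {G : Type u} [Group G] {S : Finset G} (h : Gens S)
    (hκ : ∀ x y, (Cay S).Adj x y → 0 ≤ kappa (Cay S) x y) (N : Subgroup G) [N.FiniteIndex]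
    (a b : N) : ∃ n > 0, ⁅a, b⁆ ^ n ∈ (⊤ : Subgroup N).lowerCentralSeries 2 := by
  set L := (⊤ : Subgroup N).lowerCentralSeries 2
  have hc : ∀ x y : N ⧸ L, ⁅x, y⁆ ∈ center (N ⧸ L) := by
    intro x y
    obtain ⟨x, rfl⟩ := QuotientGroup.mk'_surjective L x
    obtain ⟨y, rfl⟩ := QuotientGroup.mk'_surjective L y
    refine mem_center_iff.2 fun z => ?_
    obtain ⟨z, rfl⟩ := QuotientGroup.mk'_surjective L z
    rw [eq_comm, ← commutatorElement_eq_one_iff_mul_comm, ← map_commutatorElement,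
      ← map_commutatorElement]
    exact (QuotientGroup.eq_one_iff _).2 (commutator_mem_commutator
      (commutator_mem_commutator (mem_top x) (mem_top y)) (mem_top z))
  by_contra hne
  push Not at hne
  let z : center (N ⧸ L) := ⟨_, hc (a : N ⧸ L) b⟩
  have hz : Function.Injective (zmultiplesHom _ (Additive.ofMul z)) := by
    have : ¬IsOfFinOrder z := by
      rw [isOfFinOrder_iff_pow_eq_one]
      rintro ⟨n, hn, e⟩
      exact hne n hn ((QuotientGroup.eq_one_iff _).1 (congrArg Subtype.val e))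
    exact injective_zpow_iff_not_isOfFinOrder.2 this
  obtain ⟨χ, hχ⟩ := (Module.Baer.of_divisible ℝ).extension_property_addMonoidHom _ hz
    (Int.castAddHom ℝ)
  have h1 : χ (Additive.ofMul z) = 1 := by simpa using DFunLike.congr_fun hχ 1
  obtain ⟨B, c, e0, e1, e2, e3⟩ := coord hc χ
  obtain ⟨V, _, _, Ω, φ, f1, f2, f3⟩ := bil B e1 e2
  have := vanish h hκ Ω f1 (fun n : N => φ n) (fun a b => f2 (a : N ⧸ L) b) (fun n => c n)
    (fun a b => by rw [f3]; exact e3 (a : N ⧸ L) b) a b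
  rw [f3, e0, h1] at this
  norm_num at this

theorem comm_pow {M : Type*} [Group M] {x y : M} (h : ⁅x, y⁆ ∈ center M) (n : ℕ) :
    ⁅x ^ n, y⁆ = ⁅x, y⁆ ^ n := by
  induction n with
  | zero => simp
  | succ n ih =>
    rw [pow_succ, commutatorElement_mul_left_eq_conj_mul, mem_center_iff.1 h,
      mul_inv_cancel_right, ih, pow_succ']

theorem step2 {M : Type*} [Group M]
    (h : ∀ a b : M, ∃ n > 0, ⁅a, b⁆ ^ n ∈ (⊤ : Subgroup M).lowerCentralSeries 2) (i : ℕ) :
    ∀ z ∈ (⊤ : Subgroup M).lowerCentralSeries (i + 1),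
      ∃ n > 0, z ^ n ∈ (⊤ : Subgroup M).lowerCentralSeries (i + 2) := by
  have key : ∀ i, (∀ x ∈ (⊤ : Subgroup M).lowerCentralSeries i, ∀ y, ∃ n > 0,
      ⁅x, y⁆ ^ n ∈ (⊤ : Subgroup M).lowerCentralSeries (i + 2)) →
      ∀ z ∈ (⊤ : Subgroup M).lowerCentralSeries (i + 1),
        ∃ n > 0, z ^ n ∈ (⊤ : Subgroup M).lowerCentralSeries (i + 2) := by
    intro i hi z hz
    set L := (⊤ : Subgroup M).lowerCentralSeries (i + 2)
    have := (commutator_le (H₃ := ((CommGroup.torsion (center (M ⧸ L))).map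
      (center (M ⧸ L)).subtype).comap (QuotientGroup.mk' L))).2 (fun x hx y hy => by
        obtain ⟨n, hn, e⟩ := hi x hx y
        refine ⟨⟨QuotientGroup.mk' L ⁅x, y⁆, mem_center_iff.2 fun w => ?_⟩,
          isOfFinOrder_iff_pow_eq_one.2 ⟨n, hn, Subtype.ext ((QuotientGroup.eq_one_iff _).2 e)⟩, rfl⟩
        obtain ⟨w, rfl⟩ := QuotientGroup.mk'_surjective L w
        rw [eq_comm, ← commutatorElement_eq_one_iff_mul_comm, ← map_commutatorElement]
        exact (QuotientGroup.eq_one_iff _).2 (commutator_mem_commutator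
          (commutator_mem_commutator hx hy) (mem_top w))) hz
    obtain ⟨w, hw, e⟩ := this
    obtain ⟨n, hn, e'⟩ := isOfFinOrder_iff_pow_eq_one.1 hw
    refine ⟨n, hn, (QuotientGroup.eq_one_iff _).1 ?_⟩
    have e2 : (w : M ⧸ L) = z := e
    rw [QuotientGroup.mk_pow, ← e2]
    exact congrArg Subtype.val e'
  induction i with
  | zero => exact key 0 fun x _ y => h x y
  | succ i ih =>
    refine key _ fun x hx y => ?_
    obtain ⟨n, hn, e⟩ := ih x hx
    set L := (⊤ : Subgroup M).lowerCentralSeries (i + 1 + 2)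
    refine ⟨n, hn, (QuotientGroup.eq_one_iff _).1 ?_⟩
    have : ⁅QuotientGroup.mk' L x, QuotientGroup.mk' L y⁆ ∈ center (M ⧸ L) := by
      refine mem_center_iff.2 fun w => ?_
      obtain ⟨w, rfl⟩ := QuotientGroup.mk'_surjective L w
      rw [eq_comm, ← commutatorElement_eq_one_iff_mul_comm, ← map_commutatorElement,
        ← map_commutatorElement]
      exact (QuotientGroup.eq_one_iff _).2 (commutator_mem_commutator
        (commutator_mem_commutator hx (mem_top y)) (mem_top w))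
    show QuotientGroup.mk' L _ = 1
    rw [map_pow, map_commutatorElement, ← comm_pow this, ← map_pow, ← map_commutatorElement]
    exact (QuotientGroup.eq_one_iff _).2 (commutator_mem_commutator e (mem_top y))

theorem step3 {M : Type*} [Group M] [Group.IsNilpotent M]
    (h : ∀ a b : M, ∃ n > 0, ⁅a, b⁆ ^ n ∈ (⊤ : Subgroup M).lowerCentralSeries 2) (a b : M) :
    IsOfFinOrder ⁅a, b⁆ := by
  have key : ∀ i, ∃ n > 0, ⁅a, b⁆ ^ n ∈ (⊤ : Subgroup M).lowerCentralSeries (i + 1) := by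
    intro i
    induction i with
    | zero => exact ⟨1, one_pos, by simpa using commutator_mem_commutator (mem_top a) (mem_top b)⟩
    | succ i ih =>
      obtain ⟨n, hn, e⟩ := ih
      obtain ⟨m, hm, e'⟩ := step2 h i _ e
      exact ⟨n * m, Nat.mul_pos hn hm, by rwa [pow_mul]⟩
  obtain ⟨k, hk⟩ := Subgroup.nilpotent_iff_lowerCentralSeries.1 ‹_›
  obtain ⟨n, hn, e⟩ := key k
  have := (⊤ : Subgroup M).lowerCentralSeries_antitone (Nat.le_succ k) e
  rw [hk] at this
  exact isOfFinOrder_iff_pow_eq_one.2 ⟨n, hn, this⟩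

theorem step4 (M : Type u) [Group M] [Group.IsNilpotent M] :
    Group.FG M → (∀ a b : M, IsOfFinOrder ⁅a, b⁆) → (center M).FiniteIndex := by
  refine Group.nilpotent_center_quotient_ind (P := fun M _ _ => Group.FG M →
    (∀ a b : M, IsOfFinOrder ⁅a, b⁆) → (center M).FiniteIndex) M
    (fun M _ _ _ _ => inferInstance) fun M _ _ ih hfg h => ?_
  have h1 := ih (Group.fg_of_surjective (QuotientGroup.mk'_surjective _)) fun a b => by
    obtain ⟨a, rfl⟩ := QuotientGroup.mk'_surjective _ a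
    obtain ⟨b, rfl⟩ := QuotientGroup.mk'_surjective _ b
    rw [← map_commutatorElement]
    exact MonoidHom.isOfFinOrder _ (h a b)
  set H := (center (M ⧸ center M)).comap (QuotientGroup.mk' (center M))
  have hH : H.FiniteIndex := ⟨by
    rw [index_comap_of_surjective _ (QuotientGroup.mk'_surjective _)]; exact h1.1⟩
  have hc : ∀ (x : H) (y : M), ⁅(x : M), y⁆ ∈ center M := fun x y => by
    rw [← QuotientGroup.eq_one_iff]
    show QuotientGroup.mk' _ _ = 1
    rw [map_commutatorElement, commutatorElement_eq_one_iff_mul_comm]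
    exact (mem_center_iff.1 x.2 _).symm
  let ψ : M → H →* center M := fun y =>
    { toFun := fun x => ⟨_, hc x y⟩
      map_one' := Subtype.ext (by simp)
      map_mul' := fun x x' => by
        rw [mul_comm]
        apply Subtype.ext
        show ⁅(x : M) * x', y⁆ = ⁅(x' : M), y⁆ * ⁅(x : M), y⁆
        rw [commutatorElement_mul_left_eq_conj_mul, mem_center_iff.1 (hc x' y),
          mul_inv_cancel_right] }
  have hψ : ∀ y, (ψ y).ker.FiniteIndex := fun y => by
    have : Finite (ψ y).range := CommGroup.finite_of_fg_isMulTorsion _ (by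
      rintro ⟨_, x, rfl⟩
      obtain ⟨n, hn, e⟩ := isOfFinOrder_iff_pow_eq_one.1 (h x y)
      exact isOfFinOrder_iff_pow_eq_one.2 ⟨n, hn, Subtype.ext (Subtype.ext e)⟩)
    infer_instance
  obtain ⟨T, hT⟩ := hfg.out
  have h2 : (⨅ y ∈ T, (ψ y).ker).FiniteIndex := finiteIndex_iInf' _ fun y _ => hψ y
  have h3 : ((⨅ y ∈ T, (ψ y).ker).map H.subtype).FiniteIndex := ⟨by
    rw [index_map_subtype]; exact mul_ne_zero h2.1 hH.1⟩
  refine finiteIndex_of_le (H := (⨅ y ∈ T, (ψ y).ker).map H.subtype) ?_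
  rintro _ ⟨x, hx, rfl⟩
  rw [← centralizer_univ, ← coe_top, ← hT, centralizer_closure, mem_centralizer_iff]
  intro y hy
  have : x ∈ (ψ y).ker := mem_iInf.1 (mem_iInf.1 hx y) hy
  exact (commutatorElement_eq_one_iff_mul_comm.1 (congrArg Subtype.val this)).symm

theorem final {G : Type u} [Group G] {S : Finset G} (h : Gens S)
    (hκ : ∀ x y, (Cay S).Adj x y → 0 ≤ kappa (Cay S) x y) (N : Subgroup G) [N.FiniteIndex]
    [Group.IsNilpotent N] : ∃ A : Subgroup G, A.FiniteIndex ∧ ∀ a ∈ A, ∀ b ∈ A, a * b = b * a := by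
  have : Group.FG G := ⟨⟨S, h.gen⟩⟩
  have h1 := step4 N inferInstance (step3 (step1 h hκ N))
  refine ⟨(center N).map N.subtype, ⟨by
    rw [index_map_subtype]; exact mul_ne_zero h1.1 FiniteIndex.index_ne_zero⟩, ?_⟩
  rintro _ ⟨a, -, rfl⟩ _ ⟨b, hb, rfl⟩
  exact congrArg Subtype.val (mem_center_iff.1 hb a)

end Pool.Agent.H79.OR3
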