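import Mathlib

set_option autoImplicit false

namespace Pool.Agent.H79.PF1

open MvPolynomial

abbrev A := MvPolynomial (Fin 3) ℂ

variable {K : Type} [Field K] [Algebra A K] [IsFractionRing A K] [Algebra ℂ K]
  [IsScalarTower ℂ A K]

variable (K) in
noncomputable def xx (i : Fin 3) : K := algebraMap A K (X i)

omit [IsFractionRing A K] in
theorem aeval_xx (a : A) : aeval (xx K) a = algebraMap A K a := by
  have : aeval (xx K) = IsScalarTower.toAlgHom ℂ A K := by
    apply MvPolynomial.algHom_ext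
    intro i; simp [xx]
  rw [this]; rfl

theorem map_aeval' {σ B C : Type*} [CommRing B] [CommRing C] [Algebra ℂ B] [Algebra ℂ C]
    (f : B →ₐ[ℂ] C) (g : σ → B) (a : MvPolynomial σ ℂ) :
    f (aeval g a) = aeval (fun i => f (g i)) a := by
  rw [← MvPolynomial.comp_aeval]; rfl

omit [IsFractionRing A K] in
theorem map_alg {L : Type*} [CommRing L] [Algebra ℂ L] (f : K →ₐ[ℂ] L) (a : A) :
    f (algebraMap A K a) = aeval (fun i => f (xx K i)) a := by
  rw [← aeval_xx, map_aeval']

theorem hom_ext {L : Type*} [Field L] [Algebra ℂ L] {f g : K →ₐ[ℂ] L}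
    (h : ∀ i, f (xx K i) = g (xx K i)) : f = g := by
  apply AlgHom.coe_ringHom_injective
  apply IsFractionRing.ringHom_ext (A := A)
  intro a
  show f (algebraMap A K a) = g (algebraMap A K a)
  rw [map_alg, map_alg, funext h]

omit [Algebra ℂ K] [IsScalarTower ℂ A K] in
theorem alg_ne {a : A} (ha : a ≠ 0) : algebraMap A K a ≠ 0 :=
  fun h => ha (IsFractionRing.injective A K (h.trans (map_zero _).symm))

omit [Algebra ℂ K] [IsScalarTower ℂ A K] in
theorem frac (f : K) : ∃ a b : A, b ≠ 0 ∧ f * algebraMap A K b = algebraMap A K a := by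
  obtain ⟨a, b, hb, rfl⟩ := IsFractionRing.div_surjective (A := A) f
  have := nonZeroDivisors.ne_zero hb
  exact ⟨a, b, this, div_mul_cancel₀ _ (alg_ne this)⟩

noncomputable def liftK {g : Fin 3 → K} (hg : Function.Injective (aeval g : A →ₐ[ℂ] K)) :
    K →ₐ[ℂ] K := IsFractionRing.liftAlgHom (g := (aeval g : A →ₐ[ℂ] K)) hg

theorem liftK_xx {g : Fin 3 → K} (hg : Function.Injective (aeval g : A →ₐ[ℂ] K)) (i : Fin 3) :
    liftK hg (xx K i) = g i := by
  rw [liftK, IsFractionRing.liftAlgHom_apply, xx, IsFractionRing.lift_algebraMap]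
  simp

section ev

variable {L : Type*} [Field L] [Algebra ℂ L]

/-- `f` is defined at the point `y` with value `c` -/
def Ev (y : Fin 3 → L) (f : K) (c : L) : Prop :=
  ∃ a b : A, aeval y b ≠ 0 ∧ f * algebraMap A K b = algebraMap A K a ∧ c * aeval y b = aeval y a

variable {y : Fin 3 → L}

omit [IsFractionRing A K] [Algebra ℂ K] [IsScalarTower ℂ A K] in
theorem ev_alg (a : A) : Ev y (algebraMap A K a) (aeval y a) :=
  ⟨a, 1, by simp, by simp, by simp⟩

omit [IsFractionRing A K] [Algebra ℂ K] [IsScalarTower ℂ A K] in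
theorem ev_xx (i : Fin 3) : Ev y (xx K i) (y i) := by
  simpa [xx] using ev_alg (K := K) (y := y) (X i)

omit [IsFractionRing A K] in
theorem ev_C (c : ℂ) : Ev y (algebraMap ℂ K c) (algebraMap ℂ L c) := by
  have := ev_alg (K := K) (y := y) (C c)
  rwa [aeval_C, ← MvPolynomial.algebraMap_eq, ← IsScalarTower.algebraMap_apply] at this

omit [IsFractionRing A K] [Algebra ℂ K] [IsScalarTower ℂ A K] in
theorem Ev.add {f g : K} {c d : L} (h : Ev y f c) (h' : Ev y g d) : Ev y (f + g) (c + d) := by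
  obtain ⟨a, b, h1, h2, h3⟩ := h
  obtain ⟨a', b', h1', h2', h3'⟩ := h'
  refine ⟨a * b' + a' * b, b * b', by rw [map_mul]; exact mul_ne_zero h1 h1', ?_, ?_⟩
  · simp only [map_add, map_mul, ← h2, ← h2']; ring
  · simp only [map_add, map_mul, ← h3, ← h3']; ring

omit [IsFractionRing A K] [Algebra ℂ K] [IsScalarTower ℂ A K] in
theorem Ev.mul {f g : K} {c d : L} (h : Ev y f c) (h' : Ev y g d) : Ev y (f * g) (c * d) := by
  obtain ⟨a, b, h1, h2, h3⟩ := h
  obtain ⟨a', b', h1', h2', h3'⟩ := h'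
  refine ⟨a * a', b * b', by rw [map_mul]; exact mul_ne_zero h1 h1', ?_, ?_⟩
  · simp only [map_mul, ← h2, ← h2']; ring
  · simp only [map_mul, ← h3, ← h3']; ring

omit [Algebra ℂ K] [IsScalarTower ℂ A K] in
theorem Ev.unique {f : K} {c d : L} (h : Ev y f c) (h' : Ev y f d) : c = d := by
  obtain ⟨a, b, h1, h2, h3⟩ := h
  obtain ⟨a', b', h1', h2', h3'⟩ := h'
  have : a * b' = a' * b := IsFractionRing.injective A K (by
    simp only [map_mul, ← h2, ← h2']; ring)
  have e := congrArg (aeval y) this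
  rw [map_mul, map_mul, ← h3, ← h3'] at e
  apply mul_right_cancel₀ (mul_ne_zero h1 h1')
  linear_combination e

omit [Algebra ℂ K] [IsScalarTower ℂ A K] in
theorem Ev.inv {f : K} {c : L} (h : Ev y f c) (hc : c ≠ 0) : Ev y f⁻¹ c⁻¹ := by
  obtain ⟨a, b, h1, h2, h3⟩ := h
  have ha : aeval y a ≠ 0 := h3 ▸ mul_ne_zero hc h1
  have ha' : a ≠ 0 := fun h => ha (by rw [h, map_zero])
  have hf : f ≠ 0 := fun h => alg_ne (K := K) ha' (by rw [← h2, h, zero_mul])
  exact ⟨b, a, ha, by rw [← h2]; field_simp, by rw [← h3]; field_simp⟩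

omit [Algebra ℂ K] [IsScalarTower ℂ A K] in
theorem Ev.div {f g : K} {c d : L} (h : Ev y f c) (h' : Ev y g d) (hd : d ≠ 0) :
    Ev y (f / g) (c / d) := by
  rw [div_eq_mul_inv, div_eq_mul_inv]; exact h.mul (h'.inv hd)

omit [IsFractionRing A K] [Algebra ℂ K] [IsScalarTower ℂ A K] in
theorem Ev.pow {f : K} {c : L} (h : Ev y f c) (n : ℕ) : Ev y (f ^ n) (c ^ n) := by
  induction n with
  | zero => simpa using ev_alg (K := K) (y := y) 1
  | succ n ih => rw [pow_succ, pow_succ]; exact ih.mul h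

omit [Algebra ℂ K] [IsScalarTower ℂ A K] in
theorem Ev.zpow {f : K} {c : L} (h : Ev y f c) (hc : c ≠ 0) (n : ℤ) : Ev y (f ^ n) (c ^ n) := by
  cases n with
  | ofNat n => simpa using h.pow n
  | negSucc n => rw [zpow_negSucc, zpow_negSucc]; exact (h.pow _).inv (pow_ne_zero _ hc)

omit [IsFractionRing A K] in
theorem ev_aeval {σ : Type*} {g : σ → K} {c : σ → L} (h : ∀ i, Ev y (g i) (c i))
    (G : MvPolynomial σ ℂ) : Ev y (aeval g G) (aeval c G) := by
  induction G using MvPolynomial.induction_on with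
  | C a => simpa using ev_C a
  | add p q hp hq => rw [map_add, map_add]; exact hp.add hq
  | mul_X p i hp => rw [map_mul, map_mul, aeval_X, aeval_X]; exact hp.mul (h i)

theorem ev_comp (τ : K →ₐ[ℂ] K) {y' : Fin 3 → L} (h : ∀ i, Ev y (τ (xx K i)) (y' i)) {f : K}
    {c : L} (hf : Ev y' f c) : Ev y (τ f) c := by
  obtain ⟨a, b, h1, h2, h3⟩ := hf
  have hb : b ≠ 0 := fun h => h1 (by rw [h, map_zero])
  have e : τ f = τ (algebraMap A K a) / τ (algebraMap A K b) := by
    rw [← h2, map_mul, mul_div_cancel_right₀]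
    exact (map_ne_zero τ).mpr (alg_ne hb)
  rw [e, map_alg, map_alg, (eq_div_iff h1).mpr h3]
  exact (ev_aeval h a).div (ev_aeval h b) h1

omit [Algebra ℂ K] [IsScalarTower ℂ A K] in
theorem ev_frac (a : A) {b : A} (hb : aeval y b ≠ 0) :
    Ev y (algebraMap A K a / algebraMap A K b) (aeval y a / aeval y b) :=
  (ev_alg a).div (ev_alg b) hb

omit [Algebra ℂ K] [IsScalarTower ℂ A K] in
theorem ev_gen {f : K} (hf : f ≠ 0) : ∃ b : A, b ≠ 0 ∧ ∀ y : Fin 3 → L, aeval y b ≠ 0 →
    ∀ c, Ev y f c → c ≠ 0 := by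
  obtain ⟨a, b, hb, h⟩ := frac f
  have ha : a ≠ 0 := fun h0 => mul_ne_zero hf (alg_ne hb) (by rw [h, h0, map_zero])
  refine ⟨a * b, mul_ne_zero ha hb, fun y hy c hc => ?_⟩
  rw [map_mul] at hy
  have e : f = algebraMap A K a / algebraMap A K b := (eq_div_iff (alg_ne hb)).mpr h
  rw [hc.unique (e ▸ ev_frac a (right_ne_zero_of_mul hy))]
  exact div_ne_zero (left_ne_zero_of_mul hy) (right_ne_zero_of_mul hy)

end ev

theorem poly_zero {U : Set (Fin 3 → ℂ)} (hU : IsOpen U) (hne : U.Nonempty) {a : A}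
    (h : ∀ x ∈ U, aeval x a = 0) : a = 0 := by
  obtain ⟨x, hx⟩ := hne
  obtain ⟨s, hs, hs'⟩ := isOpen_pi_iff'.mp hU x hx
  refine funext_set s (fun i => infinite_of_mem_nhds (x i) ((hs i).1.mem_nhds (hs i).2)) ?_
  intro y hy
  rw [map_zero]
  exact h y (hs' hy)

theorem exists_ne {a : A} (ha : a ≠ 0) : ∃ x : Fin 3 → ℂ, aeval x a ≠ 0 := by
  by_contra h
  push Not at h
  exact ha (poly_zero isOpen_univ Set.univ_nonempty fun x _ => h x)

theorem open_ne (a : A) : IsOpen {x : Fin 3 → ℂ | aeval x a ≠ 0} :=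
  isOpen_ne_fun (MvPolynomial.continuous_eval a) continuous_const

omit [Algebra ℂ K] [IsScalarTower ℂ A K] in
theorem zero_of_open {U : Set (Fin 3 → ℂ)} (hU : IsOpen U) (hne : U.Nonempty) {f : K}
    (h : ∀ x ∈ U, Ev x f 0) : f = 0 := by
  by_contra hf
  obtain ⟨b, hb, h'⟩ := ev_gen (L := ℂ) hf
  refine hb (poly_zero hU hne fun x hx => ?_)
  by_contra h0
  exact h' x h0 0 (h x hx) rfl

theorem eq_of_open {U : Set (Fin 3 → ℂ)} (hU : IsOpen U) (hne : U.Nonempty) {f g : K}
    (h : ∀ x ∈ U, ∃ c, Ev x f c ∧ Ev x g c) : f = g := by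
  rw [← sub_eq_zero]
  refine zero_of_open hU hne fun x hx => ?_
  obtain ⟨c, h1, h2⟩ := h x hx
  have := h1.add ((ev_C (-1)).mul h2)
  simpa [sub_eq_add_neg] using this

theorem sc_inj (l : ℂˣ) :
    Function.Injective (aeval (fun i => (l : ℂ) • xx K i) : A →ₐ[ℂ] K) := by
  have h : ∀ (m : ℂ) (a : A), aeval (fun i => m • xx K i) a =
      algebraMap A K (aeval (fun i => m • (X i : A)) a) := by
    intro m a
    rw [← aeval_xx, map_aeval']
    simp
  intro a b hab
  rw [h, h] at hab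
  have := congrArg (aeval (fun i => ((l⁻¹ : ℂˣ) : ℂ) • (X i : A))) (IsFractionRing.injective A K hab)
  rw [map_aeval', map_aeval'] at this
  simpa [smul_smul, aeval_X_left] using this

variable (K) in
/-- scaling -/
noncomputable def ep (l : ℂˣ) : K →ₐ[ℂ] K := liftK (sc_inj l)

theorem ep_xx (l : ℂˣ) (i : Fin 3) : ep K l (xx K i) = (l : ℂ) • xx K i := liftK_xx _ i

theorem ep_ep (l m : ℂˣ) (f : K) : ep K l (ep K m f) = ep K (l * m) f := by
  have : (ep K l).comp (ep K m) = ep K (l * m) := hom_ext fun i => by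
    simp [ep_xx, smul_smul, mul_comm]
  exact AlgHom.congr_fun this f

theorem ep_one (f : K) : ep K 1 f = f := by
  have : ep K 1 = AlgHom.id ℂ K := hom_ext fun i => by simp [ep_xx]
  rw [this]; rfl

theorem ev_ep (l : ℂˣ) {x : Fin 3 → ℂ} {f : K} {c : ℂ} (h : Ev ((l : ℂ) • x) f c) :
    Ev x (ep K l f) c :=
  ev_comp _ (fun i => by
    rw [ep_xx, Algebra.smul_def]
    exact (ev_C _).mul (ev_xx i)) h

/-- the polynomial `a(t g)` in `t` -/
noncomputable def scal {B : Type*} [CommRing B] [Algebra ℂ B] (g : Fin 3 → B) (a : A) :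
    Polynomial B := aeval (fun i => Polynomial.C (g i) * Polynomial.X) a

theorem scal_eval {B : Type*} [CommRing B] [Algebra ℂ B] (g : Fin 3 → B) (a : A) (t : B) :
    (scal g a).eval t = aeval (fun i => t * g i) a := by
  have := map_aeval' ((Polynomial.aeval t).restrictScalars ℂ)
    (fun i => Polynomial.C (g i) * Polynomial.X) a
  simp only [AlgHom.restrictScalars_apply, Polynomial.coe_aeval_eq_eval, Polynomial.eval_mul,
    Polynomial.eval_C, Polynomial.eval_X] at this
  rw [scal, this]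
  simp [mul_comm]

theorem poly_eq_zero {B : Type*} [Field B] [Algebra ℂ B] {p : Polynomial B} {S : Set ℂ}
    (hS : S.Infinite) (h : ∀ z ∈ S, p.eval (algebraMap ℂ B z) = 0) : p = 0 := by
  apply Polynomial.eq_zero_of_infinite_isRoot
  refine Set.Infinite.mono ?_ (hS.image (algebraMap ℂ B).injective.injOn)
  rintro _ ⟨z, hz, rfl⟩
  exact h z hz

omit [Algebra ℂ K] [IsScalarTower ℂ A K] in
theorem xx_ne (i : Fin 3) : xx K i ≠ 0 := alg_ne (X_ne_zero i)

theorem deg_zero {h : K} (hh : ∀ l, ep K l h = h) :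
    h ∈ IntermediateField.adjoin ℂ {xx K 0 / xx K 2, xx K 1 / xx K 2} := by
  obtain ⟨a, b, hb, e⟩ := frac h
  have h1 : Polynomial.C h * scal (xx K) b - scal (xx K) a = 0 := by
    refine poly_eq_zero (S := {0}ᶜ) (Set.Finite.infinite_compl (Set.finite_singleton 0)) ?_
    intro z hz
    have := congrArg (ep K (Units.mk0 z hz)) e
    rw [map_mul, hh, map_alg, map_alg] at this
    simp only [ep_xx, Algebra.smul_def] at this
    rw [Polynomial.eval_sub, Polynomial.eval_mul, Polynomial.eval_C, scal_eval, scal_eval,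
      sub_eq_zero]
    exact this
  have h2 : ∃ μ : ℂ, (scal (xx K) b).eval (algebraMap ℂ K μ * (xx K 2)⁻¹) ≠ 0 := by
    by_contra h3
    push Not at h3
    have h4 : (scal (xx K) b).comp (Polynomial.X * Polynomial.C (xx K 2)⁻¹) = 0 :=
      poly_eq_zero Set.infinite_univ fun z _ => by
        rw [Polynomial.eval_comp, Polynomial.eval_mul, Polynomial.eval_X, Polynomial.eval_C]
        exact h3 z
    have := congrArg (Polynomial.eval (xx K 2)) h4
    rw [Polynomial.eval_comp, Polynomial.eval_mul, Polynomial.eval_X, Polynomial.eval_C,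
      mul_inv_cancel₀ (xx_ne 2), scal_eval, Polynomial.eval_zero] at this
    simp only [one_mul] at this
    exact alg_ne (K := K) hb ((aeval_xx b).symm.trans this)
  obtain ⟨μ, hμ⟩ := h2
  have h3 := congrArg (Polynomial.eval (algebraMap ℂ K μ * (xx K 2)⁻¹)) h1
  rw [Polynomial.eval_sub, Polynomial.eval_mul, Polynomial.eval_C, Polynomial.eval_zero,
    sub_eq_zero] at h3
  rw [(eq_div_iff hμ).mpr h3, scal_eval, scal_eval]
  set E := IntermediateField.adjoin ℂ {xx K 0 / xx K 2, xx K 1 / xx K 2}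
  have hm : ∀ i, algebraMap ℂ K μ * (xx K 2)⁻¹ * xx K i ∈ E := by
    intro i
    rw [mul_assoc, inv_mul_eq_div]
    refine mul_mem (E.algebraMap_mem μ) ?_
    fin_cases i
    · exact IntermediateField.subset_adjoin _ _ (by simp)
    · exact IntermediateField.subset_adjoin _ _ (by simp)
    · show xx K 2 / xx K 2 ∈ E
      rw [div_self (xx_ne 2)]; exact one_mem _
  have hE : ∀ c : A, aeval (fun i => algebraMap ℂ K μ * (xx K 2)⁻¹ * xx K i) c ∈ E := fun c => by
    have := map_aeval' E.val (fun i => (⟨_, hm i⟩ : E)) c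
    exact this ▸ Subtype.prop _
  exact div_mem (hE a) (hE b)

theorem top_of_xx {E : IntermediateField ℂ K} (h : ∀ i, xx K i ∈ E) : E = ⊤ := by
  rw [eq_top_iff]
  intro f _
  obtain ⟨a, b, hb, e⟩ := frac f
  have hE : ∀ c : A, algebraMap A K c ∈ E := fun c => by
    have := map_aeval' E.val (fun i => (⟨_, h i⟩ : E)) c
    rw [← aeval_xx]
    exact this ▸ Subtype.prop _
  rw [(eq_div_iff (alg_ne hb)).mpr e]
  exact div_mem (hE a) (hE b)

theorem trdeg_K : Algebra.trdeg ℂ K = 3 := by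
  have : Algebra.IsAlgebraic A K := IsLocalization.isAlgebraic K (nonZeroDivisors A)
  have h := trdeg_add_eq ℂ A (A := K)
  rw [MvPolynomial.trdeg_of_isDomain, trdeg_eq_zero (R := A)] at h
  rw [← h]; simp

end Pool.Agent.H79.PF1
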