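import Pool.Agent.H79.PF2

set_option autoImplicit false

namespace Pool.Agent.H79.PF3

open PF1 PF2 Polynomial IntermediateField

variable {K : Type} [Field K] [Algebra A K] [IsFractionRing A K] [Algebra ℂ K]
  [IsScalarTower ℂ A K] (Φ : K →ₐ[ℂ] K)

noncomputable def sg (s : ℂˣ) : K →ₐ[ℂ] K := (ep K s).comp (Φ.comp (ep K s⁻¹))

theorem sg_mul (a t : ℂˣ) (f : K) : sg Φ (a * t) f = ep K a (sg Φ t (ep K a⁻¹ f)) := by
  simp only [sg, AlgHom.comp_apply, ep_ep, mul_inv_rev]

theorem sg_one (f : K) : sg Φ 1 f = Φ f := by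
  simp only [sg, AlgHom.comp_apply, inv_one, ep_one]

variable (K) in
noncomputable def cc (l : ℂˣ) : K := algebraMap ℂ K l

omit [Algebra A K] [IsFractionRing A K] [IsScalarTower ℂ A K] in
theorem cc_ne (l : ℂˣ) : cc K l ≠ 0 := (_root_.map_ne_zero _).mpr l.ne_zero

def Hm (n : ℤ) (f : K) : Prop := ∀ l : ℂˣ, ep K l f = cc K l ^ n * f

def Inv (f : K) : Prop := ∀ s : ℂˣ, sg Φ s f = f

def Sl (f : K) : Prop := ∀ s : ℂˣ, sg Φ s f = f + cc K s

def EqP (p : K[X]) : Prop := ∀ s : ℂˣ, p.map (sg Φ s : K →+* K) = p.comp (X + C (cc K s))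

def HomP (m : ℤ) (p : K[X]) : Prop :=
  ∀ l : ℂˣ, p.map (ep K l : K →+* K) = C (cc K l ^ m) * p.comp (C (cc K l) * X)

theorem Hm.mul {n m : ℤ} {f g : K} (h : Hm n f) (h' : Hm m g) : Hm (n + m) (f * g) := fun l => by
  rw [map_mul, h, h', zpow_add₀ (cc_ne l)]; ring

theorem Hm.zpow {n : ℤ} {f : K} (h : Hm n f) (k : ℤ) : Hm (k * n) (f ^ k) := fun l => by
  rw [map_zpow₀, h, mul_zpow, ← zpow_mul, mul_comm n]

theorem hm_xx (i : Fin 3) : Hm 1 (xx K i) := fun l => by
  rw [ep_xx, zpow_one, Algebra.smul_def]; rfl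

theorem HomP.coeff {m : ℤ} {p : K[X]} (h : HomP m p) (j : ℕ) : Hm (m + j) (p.coeff j) := fun l => by
  have := congrArg (fun r => Polynomial.coeff r j) (h l)
  simp only [coeff_map, coeff_C_mul, comp_C_mul_X_coeff] at this
  rw [zpow_add₀ (cc_ne l), zpow_natCast]
  exact this.trans (by ring)

theorem HomP.shift {m : ℤ} {p : K[X]} (h : HomP m p) {s0 : K} (hs : Hm (-1) s0) :
    HomP m (p.comp (X - C s0)) := fun l => by
  rw [map_comp, h l, mul_comp, C_comp, comp_assoc, comp_assoc]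
  congr 2
  have : (ep K l : K →+* K) s0 = (cc K l)⁻¹ * s0 := by rw [← zpow_neg_one]; exact hs l
  simp only [Polynomial.map_sub, map_X, map_C, this, mul_comp, C_comp, X_comp, sub_comp, mul_sub]
  rw [← C_mul, mul_inv_cancel_left₀ (cc_ne l)]

variable {Φ}

theorem EqP.shift {p : K[X]} (h : EqP Φ p) {s0 : K} (hs : Sl Φ s0) (j : ℕ) :
    Inv Φ ((p.comp (X - C s0)).coeff j) := fun s => by
  have : (p.comp (X - C s0)).map (sg Φ s : K →+* K) = p.comp (X - C s0) := by
    rw [map_comp, h s, comp_assoc]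
    congr 1
    have : (sg Φ s : K →+* K) s0 = s0 + cc K s := hs s
    simp only [Polynomial.map_sub, map_X, map_C, this, add_comp, X_comp, C_comp, map_add]
    ring
  have := congrArg (fun r => Polynomial.coeff r j) this
  simpa using this

theorem slice {m : ℤ} {p : K[X]} (h : EqP Φ p) (h' : HomP m p) (hd : p.natDegree ≠ 0) :
    ∃ s0, Sl Φ s0 ∧ Hm (-1) s0 := by
  have : CharZero K := charZero_of_injective_algebraMap (algebraMap ℂ K).injective
  obtain ⟨n, hn⟩ := Nat.exists_eq_succ_of_ne_zero hd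
  have hp : p ≠ 0 := fun h => hd (by rw [h, natDegree_zero])
  have hl : p.coeff (n + 1) ≠ 0 := by
    rw [← Nat.succ_eq_add_one, ← hn]; exact leadingCoeff_ne_zero.mpr hp
  have hn1 : ((n : K) + 1) ≠ 0 := by exact_mod_cast Nat.succ_ne_zero n
  refine ⟨p.coeff n * (p.coeff (n + 1))⁻¹ * ((n : K) + 1)⁻¹, fun s => ?_, fun l => ?_⟩
  · have e1 := congrArg (fun r => Polynomial.coeff r (n + 1)) (h s)
    have e2 := congrArg (fun r => Polynomial.coeff r n) (h s)
    simp only [coeff_map, ← taylor_apply] at e1 e2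
    rw [← Nat.succ_eq_add_one, ← hn, coeff_taylor_natDegree, leadingCoeff, hn,
      Nat.succ_eq_add_one] at e1
    rw [taylor_coeff, eq_X_add_C_of_natDegree_le_one
      ((natDegree_hasseDeriv_le p n).trans (by omega)), hasseDeriv_coeff, hasseDeriv_coeff] at e2
    simp only [eval_add, eval_mul, eval_C, eval_X, zero_add, Nat.choose_self, Nat.cast_one,
      one_mul, add_comm 1 n, Nat.choose_succ_self_right, Nat.cast_add] at e2
    have e1' : sg Φ s (p.coeff (n + 1)) = p.coeff (n + 1) := e1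
    have e2' : sg Φ s (p.coeff n) = _ := e2
    rw [map_mul, map_mul, map_inv₀, map_inv₀, e1', e2', map_add, map_natCast, map_one]
    field_simp
    ring
  · rw [map_mul, map_mul, map_inv₀, map_inv₀, h'.coeff n l, h'.coeff (n + 1) l, map_add,
      map_natCast, map_one]
    have := cc_ne (K := K) l
    push_cast
    rw [← add_assoc, zpow_add_one₀ this, zpow_neg_one]
    have := zpow_ne_zero (m + n) this
    field_simp

structure Data (Φ : K →ₐ[ℂ] K) (i : Fin 3) (p q : K[X]) : Prop where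
  cop : IsCoprime p q
  mon : q.Monic
  zero : p.eval 0 = q.eval 0 * xx K i
  val : ∀ s : ℂˣ, sg Φ s (xx K i) * q.eval (cc K s) = p.eval (cc K s)

theorem eval_map' (τ : K →ₐ[ℂ] K) (p : K[X]) (z : ℂ) :
    (p.map (τ : K →+* K)).eval (algebraMap ℂ K z) = τ (p.eval (algebraMap ℂ K z)) := by
  conv_lhs => rw [← τ.commutes z]
  rw [eval_map]
  exact eval₂_at_apply (τ : K →+* K) _

theorem Data.eqP {i : Fin 3} {p q : K[X]} (h : Data Φ i p q) {W : Set ℂ} (hW : W.Infinite)
    (hg : ∀ z ∈ W, ∃ u v : ℂˣ, (u : ℂ) = z ∧ (v : ℂ) = 1 - z ∧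
      sg Φ u (sg Φ v (xx K i)) = Φ (xx K i)) : EqP Φ p ∧ EqP Φ q := by
  have key : ∀ s : ℂˣ, p.map (sg Φ s : K →+* K) = p.comp (X + C (cc K s)) ∧
      q.map (sg Φ s : K →+* K) = q.comp (X + C (cc K s)) := by
    intro s
    have e : p.comp (X + C (cc K s)) * q.map (sg Φ s : K →+* K) -
        p.map (sg Φ s : K →+* K) * q.comp (X + C (cc K s)) = 0 := by
      refine poly_eq_zero (S := (fun z : ℂ => s * z⁻¹ - s) '' W) (hW.image ?_) ?_
      · intro z _ z' _ hzz
        simpa using hzz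
      rintro _ ⟨z, hz, rfl⟩
      obtain ⟨u, v, rfl, hv, e⟩ := hg z hz
      have e1 : sg Φ s (sg Φ (s * u⁻¹ * v) (xx K i)) = sg Φ (s * u⁻¹) (xx K i) := by
        conv_lhs => rw [show s = s * u⁻¹ * u by simp, sg_mul]
        conv_rhs => rw [← mul_one (s * u⁻¹), sg_mul, sg_one]
        rw [show s * u⁻¹ * u * u⁻¹ * v = s * u⁻¹ * v by simp, sg_mul, ep_ep, inv_mul_cancel, ep_one,
          ep_xx, map_smul, map_smul, e]
        simp only [map_smul]
      have e2 : (s : ℂ) * (u : ℂ)⁻¹ - s = (s * u⁻¹ * v : ℂˣ) := by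
        have := u.ne_zero
        push_cast; rw [hv]; field_simp
      have e3 : algebraMap ℂ K ((s : ℂ) * (u : ℂ)⁻¹ - s) + cc K s = cc K (s * u⁻¹) := by
        rw [cc, cc, ← map_add]; congr 1; push_cast; ring
      simp only [eval_sub, eval_mul, eval_comp, eval_add, eval_X, eval_C]
      rw [eval_map', eval_map', e3, e2]
      have h1 := congrArg (sg Φ s) (h.val (s * u⁻¹ * v))
      rw [map_mul, e1] at h1
      have h2 := h.val (s * u⁻¹)
      rw [cc] at h1
      rw [← h1, ← h2]; ring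
    obtain ⟨c, h1, h2⟩ := lowest (h.cop.map (compRingHom (X + C (cc K s))))
      (h.cop.map (mapRingHom (sg Φ s : K →+* K))) (h.mon.comp_X_add_C _).ne_zero (sub_eq_zero.mp e)
    simp only [coe_compRingHom_apply, coe_mapRingHom] at h1 h2
    have hc : c = 1 := by
      have := congrArg leadingCoeff h1
      rw [leadingCoeff_mul, leadingCoeff_C, (h.mon.comp_X_add_C _).leadingCoeff,
        (h.mon.map _).leadingCoeff, mul_one] at this
      exact this.symm
    rw [hc, C_1, one_mul] at h1 h2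
    exact ⟨h2, h1⟩
  exact ⟨fun s => (key s).1, fun s => (key s).2⟩

theorem Data.homP {i : Fin 3} {p q : K[X]} (h : Data Φ i p q) :
    HomP (1 - q.natDegree) p ∧ HomP (-q.natDegree) q := by
  have key : ∀ l : ℂˣ, p.map (ep K l : K →+* K) =
      C (cc K l ^ (1 - q.natDegree : ℤ)) * p.comp (C (cc K l) * X) ∧
      q.map (ep K l : K →+* K) = C (cc K l ^ (-q.natDegree : ℤ)) * q.comp (C (cc K l) * X) := by
    intro l
    have hl := cc_ne (K := K) l
    have e : C (cc K l) * p.comp (C (cc K l) * X) * q.map (ep K l : K →+* K) -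
        p.map (ep K l : K →+* K) * q.comp (C (cc K l) * X) = 0 := by
      refine poly_eq_zero (S := {0}ᶜ) (Set.Finite.infinite_compl (Set.finite_singleton 0)) ?_
      intro z hz
      obtain ⟨t, rfl⟩ : ∃ t : ℂˣ, (t : ℂ) = z := ⟨Units.mk0 z hz, rfl⟩
      simp only [eval_sub, eval_mul, eval_comp, eval_X, eval_C]
      rw [eval_map', eval_map']
      have h1 := congrArg (ep K l) (h.val t)
      have e1 : ep K l (sg Φ t (xx K i)) = cc K l * sg Φ (l * t) (xx K i) := by
        rw [sg_mul, ep_xx, map_smul, map_smul, Algebra.smul_def, ← mul_assoc, cc, ← map_mul]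
        simp
      rw [map_mul, e1] at h1
      have h2 := h.val (l * t)
      have e3 : cc K (l * t) = cc K l * algebraMap ℂ K t := by rw [cc, cc, ← map_mul]; rfl
      rw [e3] at h2
      rw [cc.eq_def K t] at h1
      rw [← h1, ← h2]; ring
    have hq : q.comp (C (cc K l) * X) ≠ 0 := by
      intro h0
      have := congrArg (fun r => Polynomial.coeff r q.natDegree) h0
      simp only [comp_C_mul_X_coeff, h.mon.coeff_natDegree, one_mul, coeff_zero] at this
      exact pow_ne_zero _ hl this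
    obtain ⟨c, h1, h2⟩ := lowest ((isCoprime_mul_unit_left_left (isUnit_C.mpr hl.isUnit) _ _).mpr
      (h.cop.map (compRingHom (C (cc K l) * X))))
      (h.cop.map (mapRingHom (ep K l : K →+* K))) hq (sub_eq_zero.mp e)
    simp only [coe_compRingHom_apply, coe_mapRingHom] at h1 h2
    have hc : c = cc K l ^ (-q.natDegree : ℤ) := by
      have := congrArg (fun r => Polynomial.coeff r q.natDegree) h1
      simp only [coeff_map, coeff_C_mul, comp_C_mul_X_coeff, h.mon.coeff_natDegree, one_mul,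
        map_one] at this
      rw [zpow_neg, zpow_natCast]
      exact eq_inv_of_mul_eq_one_left this.symm
    rw [hc] at h1 h2
    refine ⟨?_, h1⟩
    rw [h2, ← mul_assoc, ← C_mul, sub_eq_neg_add, zpow_add_one₀ hl]
  exact ⟨fun l => (key l).1, fun l => (key l).2⟩

theorem Data.q0 {i : Fin 3} {p q : K[X]} (h : Data Φ i p q) : q.eval 0 ≠ 0 := by
  intro h0
  have h1 := h.zero
  rw [h0, zero_mul] at h1
  obtain ⟨a, b, e⟩ := h.cop
  have := congrArg (eval 0) e
  simp [h0, h1] at this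

variable (Φ) in
def F0 : IntermediateField ℂ K where
  carrier := {f | Inv Φ f ∧ Hm 0 f}
  mul_mem' := fun {a b} ha hb => ⟨fun s => by rw [map_mul, ha.1, hb.1], by simpa using ha.2.mul hb.2⟩
  add_mem' := fun {a b} ha hb => ⟨fun s => by rw [map_add, ha.1, hb.1], fun l => by
    rw [map_add, ha.2, hb.2, mul_add]⟩
  algebraMap_mem' := fun c => ⟨fun s => (sg Φ s).commutes c, fun l => by simp⟩
  inv_mem' := fun a ha => ⟨fun s => by rw [map_inv₀, ha.1], fun l => by
    rw [map_inv₀, ha.2]; simp⟩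

noncomputable def un (n : ℕ) : ℂˣ := Units.mk0 ((n : ℂ) + 1) (by exact_mod_cast Nat.succ_ne_zero n)

theorem hdep {N : ℕ} (hN : N ≠ 0) {f s0 : K} (hf : f ≠ 0) (h1 : Inv Φ f) (h2 : Hm N f)
    (hs : Sl Φ s0) : ∀ u ∈ F0 Φ, ∀ v ∈ F0 Φ, Transcendental ℂ u →
      IsAlgebraic (Polynomial.aeval u : Polynomial ℂ →ₐ[ℂ] K).range v := by
  intro u hu v hv htr
  by_contra hv'
  have i1 : AlgebraicIndependent ℂ (fun _ : Unit => u) := algebraicIndependent_unique_type_iff.mpr htr
  have i2 := (i1.option_iff_transcendental v).mpr (by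
    rw [Set.range_const, Algebra.adjoin_singleton_eq_range_aeval]; exact hv')
  have i3 := (i2.option_iff_transcendental f).mpr (transc_of _ f (fun n => ep K (un n)) (by
      rintro n (_ | _)
      · simpa using hv.2 (un n)
      · simpa using hu.2 (un n)) (by
      intro n m hnm
      simp only [h2 _, zpow_natCast, cc, ← map_pow] at hnm
      have h3 := (algebraMap ℂ K).injective (mul_right_cancel₀ hf hnm)
      have h4 : ((n + 1) ^ N : ℕ) = ((m + 1) ^ N : ℕ) := by
        have h5 : ((n : ℂ) + 1) ^ N = ((m : ℂ) + 1) ^ N := h3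
        exact_mod_cast h5
      have := Nat.pow_left_injective hN h4
      omega))
  have i4 := (i3.option_iff_transcendental s0).mpr (transc_of _ s0 (fun n => sg Φ (un n)) (by
      rintro n (_ | _ | _)
      · exact h1 _
      · exact hv.1 _
      · exact hu.1 _) (by
      intro n m hnm
      simp only [hs _, cc] at hnm
      have h3 := (algebraMap ℂ K).injective (add_left_cancel hnm)
      have h5 : (n : ℂ) + 1 = (m : ℂ) + 1 := h3
      exact_mod_cast add_right_cancel h5))
  have := i4.cardinalMk_le_trdeg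
  rw [trdeg_K] at this
  simp only [Cardinal.mk_fintype, Fintype.card_option, Fintype.card_unique] at this
  norm_cast at this

theorem main {p q : Fin 3 → K[X]} (h : ∀ i, Data Φ i (p i) (q i)) {W : Set ℂ} (hW : W.Infinite)
    (hg : ∀ z ∈ W, ∃ u v : ℂˣ, (u : ℂ) = z ∧ (v : ℂ) = 1 - z ∧
      ∀ i, sg Φ u (sg Φ v (xx K i)) = Φ (xx K i)) (hne : ¬∀ i, Φ (xx K i) = xx K i) :
    ∃ (N : ℕ) (f u s0 : K), f ≠ 0 ∧ u ≠ 0 ∧ Inv Φ f ∧ Inv Φ u ∧ Hm N f ∧ Hm 0 u ∧ Sl Φ s0 ∧
      Hm (-1) s0 ∧ adjoin ℂ {u, f, s0} = ⊤ := by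
  classical
  have hE := fun i => (h i).eqP hW (fun z hz => by
    obtain ⟨u, v, h1, h2, h3⟩ := hg z hz
    exact ⟨u, v, h1, h2, h3 i⟩)
  have hH := fun i => (h i).homP
  obtain ⟨s0, hs, hs'⟩ : ∃ s0, Sl Φ s0 ∧ Hm (-1) s0 := by
    push Not at hne
    obtain ⟨i, hi⟩ := hne
    by_cases h1 : (q i).natDegree = 0
    · by_cases h2 : (p i).natDegree = 0
      · exfalso
        apply hi
        have e1 := (h i).val 1
        have e2 := (h i).zero
        rw [(h i).mon.natDegree_eq_zero.mp h1, eq_C_of_natDegree_eq_zero h2] at e1 e2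
        simp only [eval_one, eval_C, mul_one, one_mul, sg_one] at e1 e2
        rw [e1, e2]
      · exact slice (hE i).1 (hH i).1 h2
    · exact slice (hE i).2 (hH i).2 h1
  have hs0 : s0 ≠ 0 := by
    rintro rfl
    have := hs 1
    rw [map_zero, zero_add] at this
    exact cc_ne 1 this.symm
  let P := fun i => (p i).comp (X - C s0)
  let Q := fun i => (q i).comp (X - C s0)
  have hx : ∀ i, xx K i * (Q i).eval s0 = (P i).eval s0 := fun i => by
    simp only [P, Q, eval_comp, eval_sub, eval_X, eval_C, sub_self, (h i).zero, mul_comm]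
  have hQ : ∀ i, (Q i).eval s0 ≠ 0 := fun i => by
    simpa only [Q, eval_comp, eval_sub, eval_X, eval_C, sub_self] using (h i).q0
  let H : AddSubgroup ℤ :=
    { carrier := {n | ∃ f, f ≠ 0 ∧ Inv Φ f ∧ Hm n f}
      add_mem' := by
        rintro n m ⟨f, h1, h2, h3⟩ ⟨g, h1', h2', h3'⟩
        exact ⟨f * g, mul_ne_zero h1 h1', fun s => by rw [map_mul, h2, h2'], h3.mul h3'⟩
      zero_mem' := ⟨1, one_ne_zero, fun s => map_one _, fun l => by simp⟩
      neg_mem' := by
        rintro n ⟨f, h1, h2, h3⟩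
        exact ⟨f ^ (-1 : ℤ), zpow_ne_zero _ h1, fun s => by rw [map_zpow₀, h2],
          by simpa using h3.zpow (-1)⟩ }
  obtain ⟨N, ⟨f, hf, hfi, hfh⟩, hN⟩ : ∃ N : ℕ, (N : ℤ) ∈ H ∧ ∀ n ∈ H, ∃ k : ℤ, n = k * N := by
    obtain ⟨a, ha⟩ := Int.subgroup_cyclic H
    have h1 : a ∈ H := by rw [ha]; exact AddSubgroup.subset_closure rfl
    refine ⟨a.natAbs, ?_, fun n hn => ?_⟩
    · rcases Int.natAbs_eq a with e | e
      · rwa [← e]
      · rw [← neg_mem_iff, ← e]; exact h1
    · rw [ha, AddSubgroup.mem_closure_singleton] at hn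
      obtain ⟨k, rfl⟩ := hn
      rcases Int.natAbs_eq a with e | e
      · exact ⟨k, by rw [← e, smul_eq_mul]⟩
      · exact ⟨-k, by rw [neg_mul, ← mul_neg, ← e, smul_eq_mul]⟩
  have hPc : ∀ i j, (P i).coeff j ≠ 0 → (1 - (q i).natDegree + j : ℤ) ∈ H := fun i j hj =>
    ⟨_, hj, (hE i).1.shift hs j, ((hH i).1.shift hs').coeff j⟩
  have hQc : ∀ i j, (Q i).coeff j ≠ 0 → (-(q i).natDegree + j : ℤ) ∈ H := fun i j hj =>
    ⟨_, hj, (hE i).2.shift hs j, ((hH i).2.shift hs').coeff j⟩
  by_cases hN0 : N = 0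
  · subst hN0
    have hc : ∀ i, Inv Φ (xx K i * s0) := by
      intro i
      have e1 : Q i = monomial (q i).natDegree 1 := by
        ext j
        rw [coeff_monomial]
        split_ifs with hj
        · rw [← hj]
          have : (Q i).Monic := (h i).mon.comp_X_sub_C s0
          rw [← this.coeff_natDegree]
          congr 1
          simp [Q, natDegree_comp]
        · by_contra h0
          obtain ⟨k, hk⟩ := hN _ (hQc i j h0)
          omega
      have e2 : P i * X = monomial (q i).natDegree ((P i * X).coeff (q i).natDegree) := by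
        ext j
        rw [coeff_monomial]
        split_ifs with hj
        · rw [hj]
        · cases j with
          | zero => simp
          | succ j =>
            rw [coeff_mul_X]
            by_contra h0
            obtain ⟨k, hk⟩ := hN _ (hPc i j h0)
            omega
      have e3 : xx K i * s0 = (P i * X).coeff (q i).natDegree := by
        have h1 := congrArg (eval s0) e2
        rw [eval_mul, eval_X, ← hx, e1, eval_monomial, eval_monomial] at h1
        apply mul_right_cancel₀ (pow_ne_zero (q i).natDegree hs0)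
        linear_combination h1
      rw [e3]
      cases hd : (q i).natDegree with
      | zero => intro s; simp
      | succ d => rw [coeff_mul_X]; exact (hE i).1.shift hs d
    have hr : ∀ i, Inv Φ (xx K i / xx K 2) ∧ Hm 0 (xx K i / xx K 2) := fun i => by
      constructor
      · intro s
        rw [← mul_div_mul_right _ _ hs0, map_div₀, hc i, hc 2]
      · simpa [div_eq_mul_inv] using (hm_xx i).mul ((hm_xx (K := K) 2).zpow (-1))
    refine ⟨0, xx K 0 / xx K 2, xx K 1 / xx K 2, s0, div_ne_zero (xx_ne 0) (xx_ne 2),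
      div_ne_zero (xx_ne 1) (xx_ne 2), (hr 0).1, (hr 1).1, (hr 0).2, (hr 1).2, hs, hs', ?_⟩
    set E := adjoin ℂ {xx K 1 / xx K 2, xx K 0 / xx K 2, s0}
    have m0 : xx K 0 / xx K 2 ∈ E := subset_adjoin _ _ (by simp)
    have m1 : xx K 1 / xx K 2 ∈ E := subset_adjoin _ _ (by simp)
    have m2 : s0 ∈ E := subset_adjoin _ _ (by simp)
    have m3 : xx K 2 ∈ E := by
      have := deg_zero (h := xx K 2 * s0) (fun l => by simpa using (hm_xx 2).mul hs' l)
      have h2 : xx K 2 * s0 ∈ E := (adjoin_le_iff.mpr (by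
        rintro _ (rfl | rfl)
        exacts [m0, m1]) : _ ≤ E) this
      simpa [hs0] using div_mem h2 m2
    apply top_of_xx
    intro i
    fin_cases i
    · simpa [xx_ne] using mul_mem m0 m3
    · simpa [xx_ne] using mul_mem m1 m3
    · exact m3
  let S : Finset K := Finset.univ.biUnion fun i => (P i).coeffs ∪ (Q i).coeffs
  have hS : ∀ c ∈ S, ∃ k : ℤ, c * f ^ (-k) ∈ F0 Φ := by
    intro c hc
    have : ∃ n, c ≠ 0 ∧ Inv Φ c ∧ Hm n c := by
      obtain ⟨i, -, hi⟩ := Finset.mem_biUnion.mp hc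
      rcases Finset.mem_union.mp hi with hi | hi
      · obtain ⟨j, hj, rfl⟩ := mem_coeffs_iff.mp hi
        exact ⟨_, mem_support_iff.mp hj, (hE i).1.shift hs j, ((hH i).1.shift hs').coeff j⟩
      · obtain ⟨j, hj, rfl⟩ := mem_coeffs_iff.mp hi
        exact ⟨_, mem_support_iff.mp hj, (hE i).2.shift hs j, ((hH i).2.shift hs').coeff j⟩
    obtain ⟨n, h1, h2, h3⟩ := this
    obtain ⟨k, rfl⟩ := hN n ⟨c, h1, h2, h3⟩
    exact ⟨k, fun s => by rw [map_mul, map_zpow₀, h2, hfi], by simpa using h3.mul (hfh.zpow (-k))⟩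
  choose k hk using hS
  obtain ⟨u, hu, hu0, hu'⟩ := luroth (F0 Φ) (hdep hN0 hf hfi hfh hs)
    (fun c : S => c.1 * f ^ (-k c.1 c.2)) (fun c => hk c.1 c.2)
  refine ⟨N, f, u, s0, hf, hu0, hfi, hu.1, hfh, hu.2, hs, hs', ?_⟩
  set E := adjoin ℂ {u, f, s0}
  have m1 : f ∈ E := subset_adjoin _ _ (by simp)
  have m2 : s0 ∈ E := subset_adjoin _ _ (by simp)
  have hSE : ∀ c ∈ S, c ∈ E := by
    intro c hc
    have h1 : c * f ^ (-k c hc) ∈ E := adjoin.mono ℂ {u} _ (by simp) (hu' ⟨c, hc⟩)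
    have := mul_mem h1 (zpow_mem m1 (k c hc))
    rwa [mul_assoc, ← zpow_add₀ hf, neg_add_cancel, zpow_zero, mul_one] at this
  have hev : ∀ r : K[X], r.coeffs ⊆ S → r.eval s0 ∈ E := by
    intro r hr
    rw [eval_eq_sum_range]
    refine sum_mem fun j _ => mul_mem ?_ (pow_mem m2 j)
    by_cases h0 : r.coeff j = 0
    · rw [h0]; exact zero_mem _
    · exact hSE _ (hr (coeff_mem_coeffs h0))
  apply top_of_xx
  intro i
  rw [(eq_div_iff (hQ i)).mpr (hx i)]
  exact div_mem (hev _ (Finset.subset_union_left.trans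
      (Finset.subset_biUnion_of_mem (fun i => (P i).coeffs ∪ (Q i).coeffs) (Finset.mem_univ i))))
    (hev _ (Finset.subset_union_right.trans
      (Finset.subset_biUnion_of_mem (fun i => (P i).coeffs ∪ (Q i).coeffs) (Finset.mem_univ i))))

end Pool.Agent.H79.PF3
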