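import Pool.Agent.H79.PF3

set_option autoImplicit false
set_option linter.unusedSectionVars false

namespace Pool.Agent.H79.PF4

open PF1 PF2 PF3 MvPolynomial Filter Topology

variable {K : Type} [Field K] [Algebra A K] [IsFractionRing A K] [Algebra ℂ K]
  [IsScalarTower ℂ A K]

noncomputable def rm (L : Fin 3 → A) (E : A) (p : Fin 3 → ℂ) : Fin 3 → ℂ :=
  fun i => eval p (L i) / eval p E

variable (K) in
noncomputable def rk (L : Fin 3 → A) (E : A) : Fin 3 → K :=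
  fun i => algebraMap A K (L i) / algebraMap A K E

theorem ev_rm (L : Fin 3 → A) {E : A} {x : Fin 3 → ℂ} (h : aeval x E ≠ 0) (i : Fin 3) :
    Ev x (rk K L E i) (rm L E x i) := ev_frac (L i) h

theorem ev_smul {x : Fin 3 → ℂ} {f : K} {c : ℂ} (h : Ev x f c) (l : ℂ) : Ev x (l • f) (l * c) := by
  rw [Algebra.smul_def]
  exact (ev_C l).mul h

theorem exists_rk (g : Fin 3 → K) : ∃ L E, E ≠ 0 ∧ rk K L E = g := by
  obtain ⟨b, hb⟩ := IsLocalization.exist_integer_multiples_of_finite (nonZeroDivisors A) g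
  choose L hL using hb
  have h0 := nonZeroDivisors.ne_zero b.2
  refine ⟨L, b, h0, funext fun i => ?_⟩
  rw [rk, hL, Algebra.smul_def, mul_div_cancel_left₀ _ (alg_ne h0)]

theorem pull (ρ : K →ₐ[ℂ] K) {E : A} (hE : E ≠ 0) : ∃ b : A, b ≠ 0 ∧ ∀ x y : Fin 3 → ℂ,
    aeval x b ≠ 0 → (∀ i, Ev x (ρ (xx K i)) (y i)) → aeval y E ≠ 0 := by
  obtain ⟨b, hb, h⟩ := ev_gen (L := ℂ) ((_root_.map_ne_zero ρ).mpr (alg_ne (K := K) hE))
  exact ⟨b, hb, fun x y hx hy => h x hx _ (ev_comp ρ hy (ev_alg E))⟩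

theorem inv_cond (ρ ρ' : K →ₐ[ℂ] K) (h : ∀ i, ρ (ρ' (xx K i)) = xx K i) {L M : Fin 3 → A}
    {E F : A} (hE : E ≠ 0) (hF : F ≠ 0) (h1 : rk K L E = fun i => ρ (xx K i))
    (h2 : rk K M F = fun i => ρ' (xx K i)) :
    ∃ U : Set (Fin 3 → ℂ), IsOpen U ∧ U.Nonempty ∧ ∀ x ∈ U,
      eval x E ≠ 0 ∧ eval (rm L E x) F ≠ 0 ∧ rm M F (rm L E x) = x := by
  obtain ⟨b, hb, hb'⟩ := pull ρ hF
  refine ⟨_, open_ne (E * b), exists_ne (mul_ne_zero hE hb), fun x hx => ?_⟩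
  have hx' : aeval x (E * b) ≠ 0 := hx
  rw [map_mul] at hx'
  have e1 : ∀ i, Ev x (ρ (xx K i)) (rm L E x i) := fun i =>
    congrFun h1 i ▸ ev_rm L (left_ne_zero_of_mul hx') i
  have e2 := hb' x _ (right_ne_zero_of_mul hx') e1
  refine ⟨left_ne_zero_of_mul hx', e2, funext fun i => ?_⟩
  have e3 := ev_comp ρ e1 (congrFun h2 i ▸ ev_rm (K := K) M e2 i)
  rw [h] at e3
  exact e3.unique (ev_xx i)

theorem ev_ne {x : Fin 3 → ℂ} {Q : A} (h : aeval x Q ≠ 0) :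
    ∀ᶠ z : ℂ in 𝓝[≠] 0, aeval (z • x) Q ≠ 0 := by
  have h1 : scal x Q ≠ 0 := fun h0 => h (by
    have := scal_eval x Q 1
    rw [h0] at this
    simpa using this.symm)
  refine ((Polynomial.eventually_cofinite_not_isRoot h1).filter_mono (nhdsNE_le_cofinite 0)).mono
    fun z hz => ?_
  rw [Polynomial.IsRoot, scal_eval] at hz
  exact hz

def HypV (P : Fin 3 → A) (Q : A) (V : Set ((Fin 3 → ℂ) × ℂ)) : Prop :=
  ∀ q ∈ V, q.2 ≠ 0 ∧ eval q.1 Q ≠ 0 ∧ eval (q.2 • q.1) Q ≠ 0 ∧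
    eval (((1 - q.2) / q.2) • rm P Q (q.2 • q.1)) Q ≠ 0 ∧
    (1 - q.2) • rm P Q q.1 = rm P Q (((1 - q.2) / q.2) • rm P Q (q.2 • q.1))

def HypU (P : Fin 3 → A) (Q : A) (U : Set (Fin 3 → ℂ)) : Prop :=
  ∀ x ∈ U, Tendsto (fun z : ℂ => z⁻¹ • rm P Q (z • x)) (𝓝[≠] 0) (𝓝 x)

theorem snd_inf {V : Set ((Fin 3 → ℂ) × ℂ)} (hV : IsOpen V) (hne : V.Nonempty) :
    (Prod.snd '' V).Infinite := by
  obtain ⟨q, hq⟩ := hne
  exact infinite_of_mem_nhds q.2 ((isOpenMap_snd V hV).mem_nhds ⟨q, hq, rfl⟩)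

theorem slice_open {V : Set ((Fin 3 → ℂ) × ℂ)} (hV : IsOpen V) (z : ℂ) :
    IsOpen {x | (x, z) ∈ V} := hV.preimage (Continuous.prodMk_left z)

variable {P : Fin 3 → A} {Q : A} {V : Set ((Fin 3 → ℂ) × ℂ)} {U : Set (Fin 3 → ℂ)}

theorem dominant (hQ : Q ≠ 0) (hV : IsOpen V) (hne : V.Nonempty) (h : HypV P Q V)
    (hU : IsOpen U) (hne' : U.Nonempty) (h' : HypU P Q U) :
    Function.Injective (aeval (rk K P Q) : A →ₐ[ℂ] K) := by
  rw [injective_iff_map_eq_zero]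
  intro G hG
  have z0 : ∀ x : Fin 3 → ℂ, Ev x (0 : K) (0 : ℂ) := fun x => by
    simpa using ev_alg (K := K) (y := x) 0
  have key : ∀ (l : ℂ) (x : Fin 3 → ℂ), aeval x Q ≠ 0 →
      Ev x (aeval (fun i => algebraMap ℂ K l * rk K P Q i) G) (aeval (l • rm P Q x) G) :=
    fun l x hx => ev_aeval (fun i => (ev_C l).mul (ev_rm P hx i)) G
  have h1 : scal (rk K P Q) G = 0 := by
    refine poly_eq_zero (S := (fun z : ℂ => 1 - z) '' (Prod.snd '' V))
      ((snd_inf hV hne).image (sub_right_injective.injOn)) ?_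
    rintro _ ⟨_, ⟨⟨x, z⟩, hq, rfl⟩, rfl⟩
    rw [scal_eval]
    refine zero_of_open (slice_open hV z) ⟨x, hq⟩ fun y hy => ?_
    obtain ⟨-, a1, -, a3, a4⟩ := h _ hy
    have e1 := key (1 - z) y a1
    have e2 := ev_aeval (fun i => ev_rm (K := K) P a3 i) G
    rw [hG] at e2
    have e3 := e2.unique (z0 _)
    rw [← a4] at e3
    exact e3 ▸ e1
  have h2 : ∀ (l : ℂ) (x : Fin 3 → ℂ), aeval x Q ≠ 0 → aeval (l • rm P Q x) G = 0 := by
    intro l x hx
    have e1 := key l x hx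
    rw [← scal_eval, h1, Polynomial.eval_zero] at e1
    exact e1.unique (z0 _)
  have h3 : G * Q = 0 := poly_zero hU hne' fun x hx => by
    rw [map_mul]
    by_cases h0 : aeval x Q = 0
    · rw [h0, mul_zero]
    have e1 := ((MvPolynomial.continuous_eval G).tendsto x).comp (h' x hx)
    have e2 : eval x G = 0 := tendsto_nhds_unique e1
      (tendsto_const_nhds.congr' ((ev_ne h0).mono fun z hz => (h2 _ _ hz).symm))
    exact mul_eq_zero_of_left e2 _
  exact (mul_eq_zero.mp h3).resolve_right hQ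

variable {Φ : K →ₐ[ℂ] K}

theorem ev_sg (hΦ : ∀ i, Φ (xx K i) = rk K P Q i) (s : ℂˣ) {x : Fin 3 → ℂ}
    (hx : aeval ((s : ℂ) • x) Q ≠ 0) (i : Fin 3) :
    Ev x (sg Φ s (xx K i)) (((s : ℂ)⁻¹ • rm P Q ((s : ℂ) • x)) i) := by
  show Ev x (ep K s (Φ (ep K s⁻¹ (xx K i)))) _
  rw [ep_xx, map_smul, map_smul, hΦ, Units.val_inv_eq_inv_val]
  exact ev_smul (ev_ep s (ev_rm P hx i)) _

theorem group (hΦ : ∀ i, Φ (xx K i) = rk K P Q i) (hV : IsOpen V) (h : HypV P Q V) :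
    ∀ z ∈ Prod.snd '' V \ {1}, ∃ u v : ℂˣ, (u : ℂ) = z ∧ (v : ℂ) = 1 - z ∧
      ∀ i, sg Φ u (sg Φ v (xx K i)) = Φ (xx K i) := by
  rintro _ ⟨⟨⟨x, z⟩, hq, rfl⟩, h1⟩
  have hz : z ≠ 0 := (h _ hq).1
  have hz' : 1 - z ≠ 0 := sub_ne_zero.mpr (Ne.symm h1)
  refine ⟨Units.mk0 z hz, Units.mk0 _ hz', rfl, rfl, fun i => ?_⟩
  refine eq_of_open (slice_open hV z) ⟨x, hq⟩ fun y hy => ?_
  obtain ⟨-, a1, a2, a3, a4⟩ := h _ hy
  dsimp only at a1 a2 a3 a4
  have e : (1 - z) • z⁻¹ • rm P Q (z • y) = ((1 - z) / z) • rm P Q (z • y) := by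
    rw [smul_smul, div_eq_mul_inv]
  refine ⟨_, ev_comp _ (ev_sg hΦ (Units.mk0 z hz) a2)
    (ev_sg hΦ (Units.mk0 _ hz') (by rw [Units.val_mk0, Units.val_mk0, e]; exact a3) i), ?_⟩
  rw [Units.val_mk0, Units.val_mk0, e, ← a4, inv_smul_smul₀ hz', hΦ]
  exact ev_rm P a1 i

theorem clear (p : Polynomial K) : ∃ (b : A) (p' : Polynomial A), b ≠ 0 ∧ ∀ z : ℂ,
    algebraMap A K (p'.eval (C z)) = algebraMap A K b * p.eval (algebraMap ℂ K z) := by
  obtain ⟨b, hb, e⟩ := IsLocalization.integerNormalization_spec (nonZeroDivisors A) p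
  refine ⟨b, IsLocalization.integerNormalization (nonZeroDivisors A) p,
    nonZeroDivisors.ne_zero hb, fun z => ?_⟩
  rw [← Polynomial.eval₂_at_apply, ← Polynomial.eval_map, e, Polynomial.eval_smul,
    Algebra.smul_def, IsScalarTower.algebraMap_apply ℂ A K]
  rfl

theorem cont (x : Fin 3 → ℂ) (p : Polynomial A) :
    Continuous fun z : ℂ => aeval x (p.eval (C z)) := by
  have : (fun z : ℂ => aeval x (p.eval (C z))) = fun z => (p.map (eval x)).eval z := by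
    funext z
    rw [Polynomial.eval_map]
    conv_rhs => rw [← eval_C (f := x) z]
    exact (Polynomial.eval₂_at_apply (eval x) _).symm
  rw [this]
  exact Polynomial.continuous _

theorem data (hQ : Q ≠ 0) (hΦ : ∀ i, Φ (xx K i) = rk K P Q i) (hU : IsOpen U) (hne' : U.Nonempty)
    (h' : HypU P Q U) (i : Fin 3) : ∃ p q, Data Φ i p q := by
  have hD : ∀ s : ℂˣ, (scal (xx K) Q).eval (cc K s) = ep K s (algebraMap A K Q) := fun s => by
    rw [scal_eval, map_alg]; simp only [ep_xx, Algebra.smul_def, cc]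
  have hN : ∀ s : ℂˣ, (scal (xx K) (P i)).eval (cc K s) = ep K s (algebraMap A K (P i)) :=
    fun s => by rw [scal_eval, map_alg]; simp only [ep_xx, Algebra.smul_def, cc]
  have hD' : ∀ s : ℂˣ, ep K s (algebraMap A K Q) ≠ 0 := fun s =>
    (_root_.map_ne_zero _).mpr (alg_ne hQ)
  have h0 : Polynomial.X * scal (xx K) Q ≠ 0 := mul_ne_zero Polynomial.X_ne_zero fun h =>
    hD' 1 (by rw [← hD, h, Polynomial.eval_zero])
  set r : RatFunc K := algebraMap (Polynomial K) _ (scal (xx K) (P i)) /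
    algebraMap (Polynomial K) _ (Polynomial.X * scal (xx K) Q) with hr
  have e := (RatFunc.num_mul_eq_mul_denom_iff h0).mpr hr
  have hval : ∀ s : ℂˣ, sg Φ s (xx K i) * r.denom.eval (cc K s) = r.num.eval (cc K s) := by
    intro s
    have e1 := congrArg (Polynomial.eval (cc K s)) e
    simp only [Polynomial.eval_mul, Polynomial.eval_X, hD, hN] at e1
    have e2 : sg Φ s (xx K i) = (cc K s)⁻¹ * (ep K s (algebraMap A K (P i)) /
        ep K s (algebraMap A K Q)) := by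
      show ep K s (Φ (ep K s⁻¹ (xx K i))) = _
      rw [ep_xx, map_smul, map_smul, hΦ, rk, map_div₀, Algebra.smul_def, Units.val_inv_eq_inv_val,
        map_inv₀, cc]
    have := hD' s
    have := cc_ne (K := K) s
    rw [e2]
    field_simp
    linear_combination -e1
  refine ⟨r.num, r.denom, r.isCoprime_num_denom, r.monic_denom, ?_, hval⟩
  obtain ⟨b1, p', hb1, e1⟩ := clear r.num
  obtain ⟨b2, q', hb2, e2⟩ := clear r.denom
  have h3 : (b2 * p'.eval (C 0) - X i * (b1 * q'.eval (C 0))) * Q = 0 :=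
    poly_zero hU hne' fun x hx => by
      rw [map_mul]
      by_cases hx0 : aeval x Q = 0
      · rw [hx0, mul_zero]
      apply mul_eq_zero_of_left
      have t1 : Tendsto (fun z : ℂ => aeval x b2 * aeval x (p'.eval (C z))) (𝓝[≠] 0)
          (𝓝 (aeval x b2 * aeval x (p'.eval (C 0)))) :=
        (((cont x p').tendsto 0).mono_left nhdsWithin_le_nhds).const_mul _
      have t2 : Tendsto (fun z : ℂ => (z⁻¹ • rm P Q (z • x)) i *
          (aeval x b1 * aeval x (q'.eval (C z)))) (𝓝[≠] 0)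
          (𝓝 (x i * (aeval x b1 * aeval x (q'.eval (C 0))))) :=
        (((continuous_apply i).tendsto x).comp (h' x hx)).mul
          ((((cont x q').tendsto 0).mono_left nhdsWithin_le_nhds).const_mul _)
      have := tendsto_nhds_unique t1 (t2.congr' (((ev_ne hx0).and self_mem_nhdsWithin).mono
        fun z hz => by
          have hz0 : z ≠ 0 := hz.2
          have a1 := (ev_sg hΦ (Units.mk0 z hz0) hz.1 i).mul
            ((ev_alg (K := K) b1).mul (ev_alg (q'.eval (C z))))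
          have a2 := (ev_alg (K := K) (y := x) b2).mul (ev_alg (p'.eval (C z)))
          have a3 := hval (Units.mk0 z hz0)
          rw [cc, Units.val_mk0] at a3
          rw [e1, ← a3] at a2
          rw [e2] at a1
          refine a1.unique ?_
          convert a2 using 1
          ring))
      simp only [map_sub, map_mul, aeval_X]
      exact sub_eq_zero.mpr this
  have h4 := congrArg (algebraMap A K) (sub_eq_zero.mp ((mul_eq_zero.mp h3).resolve_right hQ))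
  rw [map_mul, map_mul, map_mul, e1, e2, map_zero] at h4
  apply mul_left_cancel₀ (mul_ne_zero (alg_ne (K := K) hb1) (alg_ne hb2))
  rw [xx]
  linear_combination h4

noncomputable def psi {L : Type} [Field L] (N : ℕ) (x : Fin 3 → L) : Fin 3 → L :=
  ![x 0 * (x 2 + 1) ^ ((N : ℤ) - 1), x 1 / (x 2 + 1), x 2 / (x 2 + 1)]

theorem map_psi (τ : K →ₐ[ℂ] K) (N : ℕ) (x : Fin 3 → K) (i : Fin 3) :
    τ (psi N x i) = psi N (fun j => τ (x j)) i := by
  fin_cases i <;> simp [psi]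

theorem ev_psi (N : ℕ) {x : Fin 3 → ℂ} (hx : x 2 + 1 ≠ 0) (i : Fin 3) :
    Ev x (psi N (xx K) i) (psi N x i) := by
  have h1 : Ev x (xx K 2 + 1) (x 2 + 1) := by simpa using (ev_xx (K := K) (y := x) 2).add (ev_C 1)
  fin_cases i
  · exact (ev_xx 0).mul (h1.zpow hx _)
  · exact (ev_xx 1).div h1 hx
  · exact (ev_xx 2).div h1 hx

theorem normal {N : ℕ} {f u s0 : K} (hf : Inv Φ f) (hu : Inv Φ u) (hf' : Hm N f) (hu' : Hm 0 u)
    (hs : Sl Φ s0) (hs' : Hm (-1) s0) (htop : IntermediateField.adjoin ℂ {u, f, s0} = ⊤) :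
    ∃ τ : K ≃ₐ[ℂ] K, (∀ i, Hm 1 (τ (xx K i))) ∧
      ∀ i, Φ (τ (xx K i)) = τ (psi N (xx K) i) := by
  have hs0 : s0 ≠ 0 := by
    rintro rfl
    have := hs 1
    rw [map_zero, zero_add] at this
    exact cc_ne 1 this.symm
  let y : Fin 3 → K := ![f * s0 ^ ((N : ℤ) - 1), u * s0⁻¹, s0⁻¹]
  have hy : IntermediateField.adjoin ℂ (Set.range y) = ⊤ := by
    rw [eq_top_iff, ← htop, IntermediateField.adjoin_le_iff]
    set E := IntermediateField.adjoin ℂ (Set.range y)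
    have m : ∀ i, y i ∈ E := fun i => IntermediateField.subset_adjoin _ _ ⟨i, rfl⟩
    have m2 : s0 ∈ E := by simpa [y] using inv_mem (m 2)
    rintro _ (rfl | rfl | rfl)
    · simpa [y, hs0] using mul_mem (m 1) m2
    · have := div_mem (m 0) (zpow_mem m2 ((N : ℤ) - 1))
      simpa [y, zpow_ne_zero _ hs0] using this
    · exact m2
  have halg : Algebra.IsAlgebraic (Algebra.adjoin ℂ (Set.range y)) K := by
    rw [← IntermediateField.isAlgebraic_adjoin_iff_top, hy]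
    exact ⟨fun a => isAlgebraic_algebraMap (⟨a, trivial⟩ : (⊤ : IntermediateField ℂ K))⟩
  have hb := Algebra.IsAlgebraic.isTranscendenceBasis_of_le_trdeg_of_finite ℂ y
    (by rw [trdeg_K]; simp)
  have hinj : Function.Injective (aeval y : A →ₐ[ℂ] K) := hb.1
  have hsurj : Function.Surjective (liftK hinj) := by
    intro a
    have : IntermediateField.adjoin ℂ (Set.range y) ≤ (liftK hinj).fieldRange :=
      IntermediateField.adjoin_le_iff.mpr (by rintro _ ⟨i, rfl⟩; exact ⟨_, liftK_xx hinj i⟩)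
    exact this (hy ▸ IntermediateField.mem_top)
  have hbij : Function.Bijective (liftK hinj) := ⟨(liftK hinj).injective, hsurj⟩
  refine ⟨AlgEquiv.ofBijective (liftK hinj) hbij, fun i => ?_, fun i => ?_⟩
  · rw [AlgEquiv.ofBijective_apply, liftK_xx]
    have h1 : Hm 1 s0⁻¹ := by simpa using hs'.zpow (-1)
    fin_cases i
    · have := hf'.mul (hs'.zpow ((N : ℤ) - 1))
      rwa [show (N : ℤ) + ((N : ℤ) - 1) * -1 = 1 by ring] at this
    · simpa [y] using hu'.mul h1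
    · exact h1
  · rw [AlgEquiv.ofBijective_apply, AlgEquiv.ofBijective_apply, map_psi, liftK_xx]
    simp only [liftK_xx]
    have e1 : Φ s0 = s0 + 1 := by rw [← sg_one, hs]; simp [cc]
    have e2 : Φ f = f := by rw [← sg_one, hf]
    have e3 : Φ u = u := by rw [← sg_one, hu]
    have e4 : s0 + 1 ≠ 0 := by rw [← e1]; exact (_root_.map_ne_zero Φ).mpr hs0
    have e5 : s0⁻¹ + 1 = (s0 + 1) / s0 := by field_simp; ring
    fin_cases i
    · show Φ (f * s0 ^ ((N : ℤ) - 1)) = f * s0 ^ ((N : ℤ) - 1) * (s0⁻¹ + 1) ^ ((N : ℤ) - 1)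
      rw [map_mul, map_zpow₀, e1, e2, e5, mul_assoc, ← mul_zpow, mul_div_cancel₀ _ hs0]
    · show Φ (u * s0⁻¹) = u * s0⁻¹ / (s0⁻¹ + 1)
      rw [map_mul, map_inv₀, e1, e3, e5]; field_simp
    · show Φ s0⁻¹ = s0⁻¹ / (s0⁻¹ + 1)
      rw [map_inv₀, e1, e5]; field_simp

theorem final (K : Type) [Field K] [Algebra A K] [IsFractionRing A K] [Algebra ℂ K]
    [IsScalarTower ℂ A K] (hQ : Q ≠ 0) (hne0 : ¬∀ i, P i = X i * Q) (hV : IsOpen V) (hne : V.Nonempty)
    (h : HypV P Q V) (hU : IsOpen U) (hne' : U.Nonempty) (h' : HypU P Q U) :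
    ∃ (L : Fin 3 → A) (E : A) (M : Fin 3 → A) (F : A) (N : ℕ), E ≠ 0 ∧ F ≠ 0 ∧
      (∃ U : Set (Fin 3 → ℂ), IsOpen U ∧ U.Nonempty ∧ ∀ x ∈ U,
        eval x E ≠ 0 ∧ eval (rm L E x) F ≠ 0 ∧ rm M F (rm L E x) = x) ∧
      (∃ U : Set (Fin 3 → ℂ), IsOpen U ∧ U.Nonempty ∧ ∀ x ∈ U,
        eval x F ≠ 0 ∧ eval (rm M F x) E ≠ 0 ∧ rm L E (rm M F x) = x) ∧
      (∃ V : Set ((Fin 3 → ℂ) × ℂ), IsOpen V ∧ V.Nonempty ∧ ∀ q ∈ V,
        eval q.1 E ≠ 0 ∧ eval (q.2 • q.1) E ≠ 0 ∧ rm L E (q.2 • q.1) = q.2 • rm L E q.1) ∧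
      (∃ U : Set (Fin 3 → ℂ), IsOpen U ∧ U.Nonempty ∧ ∀ x ∈ U,
        x 2 + 1 ≠ 0 ∧ eval x E ≠ 0 ∧ eval (rm L E x) Q ≠ 0 ∧ eval (psi N x) E ≠ 0 ∧
        rm P Q (rm L E x) = rm L E (psi N x)) := by
  have hdom := dominant (K := K) hQ hV hne h hU hne' h'
  have hΦ := liftK_xx hdom
  set Φ := liftK hdom
  choose p q hpq using data hQ hΦ hU hne' h'
  obtain ⟨N, f, u, s0, -, -, a1, a2, a3, a4, a5, a6, a7⟩ := main hpq
    ((snd_inf hV hne).sdiff (Set.finite_singleton 1)) (group hΦ hV h) (fun h0 => hne0 fun i => by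
      apply IsFractionRing.injective A K
      have := h0 i
      rw [hΦ, rk, div_eq_iff (alg_ne hQ)] at this
      rw [this, map_mul, xx])
  obtain ⟨τ, t1, t2⟩ := normal a1 a2 a3 a4 a5 a6 a7
  obtain ⟨L, E, hE, hL⟩ := exists_rk fun i => (τ.symm : K →ₐ[ℂ] K) (xx K i)
  obtain ⟨M, F, hF, hM⟩ := exists_rk fun i => (τ : K →ₐ[ℂ] K) (xx K i)
  have evL : ∀ x : Fin 3 → ℂ, aeval x E ≠ 0 → ∀ i,
      Ev x ((τ.symm : K →ₐ[ℂ] K) (xx K i)) (rm L E x i) := fun x hx i =>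
    congrFun hL i ▸ ev_rm L hx i
  refine ⟨L, E, M, F, N, hE, hF, inv_cond _ _ (fun i => by simp) hE hF hL hM,
    inv_cond _ _ (fun i => by simp) hF hE hM hL, ?_, ?_⟩
  · have c1 : ∀ l : ℂˣ, (τ : K →ₐ[ℂ] K).comp (ep K l) = (ep K l).comp (τ : K →ₐ[ℂ] K) :=
      fun l => hom_ext fun i => by
        rw [AlgHom.comp_apply, AlgHom.comp_apply, ep_xx, map_smul, Algebra.smul_def]
        exact ((t1 i l).trans (by rw [zpow_one]; rfl)).symm
    have c2 : ∀ (l : ℂˣ) i, ep K l ((τ.symm : K →ₐ[ℂ] K) (xx K i)) =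
        (l : ℂ) • (τ.symm : K →ₐ[ℂ] K) (xx K i) := fun l i => by
      apply τ.injective
      have := AlgHom.congr_fun (c1 l) (τ.symm (xx K i))
      simpa [ep_xx] using this
    refine ⟨{q | q.2 ≠ 0 ∧ eval q.1 E ≠ 0 ∧ eval (q.2 • q.1) E ≠ 0}, ?_, ?_, ?_⟩
    · refine (isOpen_ne_fun continuous_snd continuous_const).inter
        ((isOpen_ne_fun ((MvPolynomial.continuous_eval E).comp continuous_fst)
          continuous_const).inter (isOpen_ne_fun ((MvPolynomial.continuous_eval E).comp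
            (continuous_snd.smul continuous_fst)) continuous_const))
    · obtain ⟨x, hx⟩ := exists_ne hE
      exact ⟨(x, 1), one_ne_zero, hx, by simpa using hx⟩
    · rintro ⟨x, z⟩ ⟨h1, h2, h3⟩
      refine ⟨h2, h3, funext fun i => ?_⟩
      have e1 := ev_ep (Units.mk0 z h1) (evL _ h3 i)
      rw [c2] at e1
      exact e1.unique (ev_smul (evL x h2 i) _)
  · let ψ : K →ₐ[ℂ] K := (τ.symm : K →ₐ[ℂ] K).comp (Φ.comp (τ : K →ₐ[ℂ] K))
    have hψ : ∀ i, ψ (xx K i) = psi N (xx K) i := fun i => by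
      show τ.symm (Φ (τ (xx K i))) = _
      rw [t2, AlgEquiv.symm_apply_apply]
    obtain ⟨b1, hb1, hb1'⟩ := pull (τ.symm : K →ₐ[ℂ] K) hQ
    obtain ⟨b2, hb2, hb2'⟩ := pull ψ hE
    have hX : (X 2 + 1 : A) ≠ 0 := fun h0 => by
      have := congrArg (eval (0 : Fin 3 → ℂ)) h0
      simp at this
    refine ⟨_, open_ne ((X 2 + 1) * E * b1 * b2),
      exists_ne (mul_ne_zero (mul_ne_zero (mul_ne_zero hX hE) hb1) hb2), fun x hx => ?_⟩
    have hx' : aeval x ((X 2 + 1) * E * b1 * b2) ≠ 0 := hx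
    simp only [map_mul, map_add, aeval_X, map_one, ne_eq, mul_eq_zero, not_or] at hx'
    obtain ⟨⟨⟨x1, x2⟩, x3⟩, x4⟩ := hx'
    have e1 : ∀ i, Ev x (ψ (xx K i)) (psi N x i) := fun i => hψ i ▸ ev_psi N x1 i
    have e2 := hb1' x _ x3 (evL x x2)
    have e3 := hb2' x _ x4 e1
    refine ⟨x1, x2, e2, e3, funext fun i => ?_⟩
    have e4 := ev_comp _ (evL x x2) (hΦ i ▸ ev_rm (K := K) P e2 i)
    have e5 := ev_comp ψ e1 (evL _ e3 i)
    refine e4.unique ?_
    convert e5 using 1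
    simp [ψ]

end Pool.Agent.H79.PF4
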