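import Mathlib

set_option autoImplicit false
set_option linter.unusedSectionVars false

namespace Pool.Agent.H79.PG1

open MvPolynomial

abbrev AA (k : ℕ) := MvPolynomial (Fin k) ℂ

variable {k : ℕ} {K : Type} [Field K] [Algebra (AA k) K] [IsFractionRing (AA k) K] [Algebra ℂ K]
  [IsScalarTower ℂ (AA k) K]

variable (K) in
noncomputable def xx (i : Fin k) : K := algebraMap (AA k) K (X i)

omit [IsFractionRing (AA k) K] in
theorem aeval_xx (a : (AA k)) : aeval (xx K) a = algebraMap (AA k) K a := by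
  have : aeval (xx K) = IsScalarTower.toAlgHom ℂ (AA k) K := by
    apply MvPolynomial.algHom_ext
    intro i; simp [xx]
  rw [this]; rfl

theorem map_aeval' {σ B C : Type*} [CommRing B] [CommRing C] [Algebra ℂ B] [Algebra ℂ C]
    (f : B →ₐ[ℂ] C) (g : σ → B) (a : MvPolynomial σ ℂ) :
    f (aeval g a) = aeval (fun i => f (g i)) a := by
  rw [← MvPolynomial.comp_aeval]; rfl

omit [IsFractionRing (AA k) K] in
theorem map_alg {L : Type*} [CommRing L] [Algebra ℂ L] (f : K →ₐ[ℂ] L) (a : (AA k)) :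
    f (algebraMap (AA k) K a) = aeval (fun i => f (xx K i)) a := by
  rw [← aeval_xx, map_aeval']

theorem hom_ext {L : Type*} [Field L] [Algebra ℂ L] {f g : K →ₐ[ℂ] L}
    (h : ∀ i : Fin k, f (xx K i) = g (xx K i)) : f = g := by
  apply AlgHom.coe_ringHom_injective
  apply IsFractionRing.ringHom_ext (A := (AA k))
  intro a
  show f (algebraMap (AA k) K a) = g (algebraMap (AA k) K a)
  rw [map_alg, map_alg, funext h]

omit [Algebra ℂ K] [IsScalarTower ℂ (AA k) K] in
theorem alg_ne {a : (AA k)} (ha : a ≠ 0) : algebraMap (AA k) K a ≠ 0 :=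
  fun h => ha (IsFractionRing.injective (AA k) K (h.trans (map_zero _).symm))

omit [Algebra ℂ K] [IsScalarTower ℂ (AA k) K] in
theorem frac (f : K) : ∃ a b : (AA k), b ≠ 0 ∧ f * algebraMap (AA k) K b = algebraMap (AA k) K a := by
  obtain ⟨a, b, hb, rfl⟩ := IsFractionRing.div_surjective (A := (AA k)) f
  have := nonZeroDivisors.ne_zero hb
  exact ⟨a, b, this, div_mul_cancel₀ _ (alg_ne this)⟩

noncomputable def liftK {g : Fin k → K} (hg : Function.Injective (aeval g : (AA k) →ₐ[ℂ] K)) :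
    K →ₐ[ℂ] K := IsFractionRing.liftAlgHom (g := (aeval g : (AA k) →ₐ[ℂ] K)) hg

theorem liftK_xx {g : Fin k → K} (hg : Function.Injective (aeval g : (AA k) →ₐ[ℂ] K)) (i : Fin k) :
    liftK hg (xx K i) = g i := by
  rw [liftK, IsFractionRing.liftAlgHom_apply, xx, IsFractionRing.lift_algebraMap]
  simp

section ev

variable {L : Type*} [Field L] [Algebra ℂ L]

/-- `f` is defined at the point `y` with value `c` -/
def Ev (y : Fin k → L) (f : K) (c : L) : Prop :=
  ∃ a b : (AA k), aeval y b ≠ 0 ∧ f * algebraMap (AA k) K b = algebraMap (AA k) K a ∧ c * aeval y b = aeval y a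

variable {y : Fin k → L}

omit [IsFractionRing (AA k) K] [Algebra ℂ K] [IsScalarTower ℂ (AA k) K] in
theorem ev_alg (a : (AA k)) : Ev y (algebraMap (AA k) K a) (aeval y a) :=
  ⟨a, 1, by simp, by simp, by simp⟩

omit [IsFractionRing (AA k) K] [Algebra ℂ K] [IsScalarTower ℂ (AA k) K] in
theorem ev_xx (i : Fin k) : Ev y (xx K i) (y i) := by
  simpa [xx] using ev_alg (K := K) (y := y) (X i)

omit [IsFractionRing (AA k) K] in
theorem ev_C (c : ℂ) : Ev y (algebraMap ℂ K c) (algebraMap ℂ L c) := by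
  have := ev_alg (K := K) (y := y) (C c)
  rwa [aeval_C, ← MvPolynomial.algebraMap_eq, ← IsScalarTower.algebraMap_apply] at this

omit [IsFractionRing (AA k) K] [Algebra ℂ K] [IsScalarTower ℂ (AA k) K] in
theorem Ev.add {f g : K} {c d : L} (h : Ev y f c) (h' : Ev y g d) : Ev y (f + g) (c + d) := by
  obtain ⟨a, b, h1, h2, h3⟩ := h
  obtain ⟨a', b', h1', h2', h3'⟩ := h'
  refine ⟨a * b' + a' * b, b * b', by rw [map_mul]; exact mul_ne_zero h1 h1', ?_, ?_⟩
  · simp only [map_add, map_mul, ← h2, ← h2']; ring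
  · simp only [map_add, map_mul, ← h3, ← h3']; ring

omit [IsFractionRing (AA k) K] [Algebra ℂ K] [IsScalarTower ℂ (AA k) K] in
theorem Ev.mul {f g : K} {c d : L} (h : Ev y f c) (h' : Ev y g d) : Ev y (f * g) (c * d) := by
  obtain ⟨a, b, h1, h2, h3⟩ := h
  obtain ⟨a', b', h1', h2', h3'⟩ := h'
  refine ⟨a * a', b * b', by rw [map_mul]; exact mul_ne_zero h1 h1', ?_, ?_⟩
  · simp only [map_mul, ← h2, ← h2']; ring
  · simp only [map_mul, ← h3, ← h3']; ring

omit [Algebra ℂ K] [IsScalarTower ℂ (AA k) K] in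
theorem Ev.unique {f : K} {c d : L} (h : Ev y f c) (h' : Ev y f d) : c = d := by
  obtain ⟨a, b, h1, h2, h3⟩ := h
  obtain ⟨a', b', h1', h2', h3'⟩ := h'
  have : a * b' = a' * b := IsFractionRing.injective (AA k) K (by
    simp only [map_mul, ← h2, ← h2']; ring)
  have e := congrArg (aeval y) this
  rw [map_mul, map_mul, ← h3, ← h3'] at e
  apply mul_right_cancel₀ (mul_ne_zero h1 h1')
  linear_combination e

omit [Algebra ℂ K] [IsScalarTower ℂ (AA k) K] in
theorem Ev.inv {f : K} {c : L} (h : Ev y f c) (hc : c ≠ 0) : Ev y f⁻¹ c⁻¹ := by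
  obtain ⟨a, b, h1, h2, h3⟩ := h
  have ha : aeval y a ≠ 0 := h3 ▸ mul_ne_zero hc h1
  have ha' : a ≠ 0 := fun h => ha (by rw [h, map_zero])
  have hf : f ≠ 0 := fun h => alg_ne (K := K) ha' (by rw [← h2, h, zero_mul])
  exact ⟨b, a, ha, by rw [← h2]; field_simp, by rw [← h3]; field_simp⟩

omit [Algebra ℂ K] [IsScalarTower ℂ (AA k) K] in
theorem Ev.div {f g : K} {c d : L} (h : Ev y f c) (h' : Ev y g d) (hd : d ≠ 0) :
    Ev y (f / g) (c / d) := by
  rw [div_eq_mul_inv, div_eq_mul_inv]; exact h.mul (h'.inv hd)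

omit [IsFractionRing (AA k) K] [Algebra ℂ K] [IsScalarTower ℂ (AA k) K] in
theorem Ev.pow {f : K} {c : L} (h : Ev y f c) (n : ℕ) : Ev y (f ^ n) (c ^ n) := by
  induction n with
  | zero => simpa using ev_alg (K := K) (y := y) 1
  | succ n ih => rw [pow_succ, pow_succ]; exact ih.mul h

omit [Algebra ℂ K] [IsScalarTower ℂ (AA k) K] in
theorem Ev.zpow {f : K} {c : L} (h : Ev y f c) (hc : c ≠ 0) (n : ℤ) : Ev y (f ^ n) (c ^ n) := by
  cases n with
  | ofNat n => simpa using h.pow n
  | negSucc n => rw [zpow_negSucc, zpow_negSucc]; exact (h.pow _).inv (pow_ne_zero _ hc)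

omit [IsFractionRing (AA k) K] in
theorem ev_aeval {σ : Type*} {g : σ → K} {c : σ → L} (h : ∀ i, Ev y (g i) (c i))
    (G : MvPolynomial σ ℂ) : Ev y (aeval g G) (aeval c G) := by
  induction G using MvPolynomial.induction_on with
  | C a => simpa using ev_C a
  | add p q hp hq => rw [map_add, map_add]; exact hp.add hq
  | mul_X p i hp => rw [map_mul, map_mul, aeval_X, aeval_X]; exact hp.mul (h i)

theorem ev_comp (τ : K →ₐ[ℂ] K) {y' : Fin k → L} (h : ∀ i, Ev y (τ (xx K i)) (y' i)) {f : K}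
    {c : L} (hf : Ev y' f c) : Ev y (τ f) c := by
  obtain ⟨a, b, h1, h2, h3⟩ := hf
  have hb : b ≠ 0 := fun h => h1 (by rw [h, map_zero])
  have e : τ f = τ (algebraMap (AA k) K a) / τ (algebraMap (AA k) K b) := by
    rw [← h2, map_mul, mul_div_cancel_right₀]
    exact (map_ne_zero τ).mpr (alg_ne hb)
  rw [e, map_alg, map_alg, (eq_div_iff h1).mpr h3]
  exact (ev_aeval h a).div (ev_aeval h b) h1

omit [Algebra ℂ K] [IsScalarTower ℂ (AA k) K] in
theorem ev_frac (a : (AA k)) {b : (AA k)} (hb : aeval y b ≠ 0) :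
    Ev y (algebraMap (AA k) K a / algebraMap (AA k) K b) (aeval y a / aeval y b) :=
  (ev_alg a).div (ev_alg b) hb

omit [Algebra ℂ K] [IsScalarTower ℂ (AA k) K] in
theorem ev_gen {f : K} (hf : f ≠ 0) : ∃ b : (AA k), b ≠ 0 ∧ ∀ y : Fin k → L, aeval y b ≠ 0 →
    ∀ c, Ev y f c → c ≠ 0 := by
  obtain ⟨a, b, hb, h⟩ := frac (k := k) f
  have ha : a ≠ 0 := fun h0 => mul_ne_zero hf (alg_ne hb) (by rw [h, h0, map_zero])
  refine ⟨a * b, mul_ne_zero ha hb, fun y hy c hc => ?_⟩
  rw [map_mul] at hy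
  have e : f = algebraMap (AA k) K a / algebraMap (AA k) K b := (eq_div_iff (alg_ne hb)).mpr h
  rw [hc.unique (e ▸ ev_frac a (right_ne_zero_of_mul hy))]
  exact div_ne_zero (left_ne_zero_of_mul hy) (right_ne_zero_of_mul hy)

end ev

theorem poly_zero {U : Set (Fin k → ℂ)} (hU : IsOpen U) (hne : U.Nonempty) {a : (AA k)}
    (h : ∀ x ∈ U, aeval x a = 0) : a = 0 := by
  obtain ⟨x, hx⟩ := hne
  obtain ⟨s, hs, hs'⟩ := isOpen_pi_iff'.mp hU x hx
  refine funext_set s (fun i => infinite_of_mem_nhds (x i) ((hs i).1.mem_nhds (hs i).2)) ?_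
  intro y hy
  rw [map_zero]
  exact h y (hs' hy)

theorem exists_ne {a : (AA k)} (ha : a ≠ 0) : ∃ x : Fin k → ℂ, aeval x a ≠ 0 := by
  by_contra h
  push Not at h
  exact ha (poly_zero isOpen_univ Set.univ_nonempty fun x _ => h x)

theorem open_ne (a : (AA k)) : IsOpen {x : Fin k → ℂ | aeval x a ≠ 0} :=
  isOpen_ne_fun (MvPolynomial.continuous_eval a) continuous_const

omit [Algebra ℂ K] [IsScalarTower ℂ (AA k) K] in
theorem zero_of_open {U : Set (Fin k → ℂ)} (hU : IsOpen U) (hne : U.Nonempty) {f : K}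
    (h : ∀ x ∈ U, Ev x f 0) : f = 0 := by
  by_contra hf
  obtain ⟨b, hb, h'⟩ := ev_gen (k := k) (L := ℂ) hf
  refine hb (poly_zero hU hne fun x hx => ?_)
  by_contra h0
  exact h' x h0 0 (h x hx) rfl

theorem eq_of_open {U : Set (Fin k → ℂ)} (hU : IsOpen U) (hne : U.Nonempty) {f g : K}
    (h : ∀ x ∈ U, ∃ c, Ev x f c ∧ Ev x g c) : f = g := by
  rw [← sub_eq_zero]
  refine zero_of_open hU hne fun x hx => ?_
  obtain ⟨c, h1, h2⟩ := h x hx
  have := h1.add ((ev_C (-1)).mul h2)
  simpa [sub_eq_add_neg] using this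

theorem sc_inj (l : ℂˣ) :
    Function.Injective (aeval (fun i => (l : ℂ) • xx K i) : (AA k) →ₐ[ℂ] K) := by
  have h : ∀ (m : ℂ) (a : (AA k)), aeval (fun i => m • xx K i) a =
      algebraMap (AA k) K (aeval (fun i => m • (X i : (AA k))) a) := by
    intro m a
    rw [← aeval_xx, map_aeval']
    simp
  intro a b hab
  rw [h, h] at hab
  have := congrArg (aeval (fun i => ((l⁻¹ : ℂˣ) : ℂ) • (X i : (AA k)))) (IsFractionRing.injective (AA k) K hab)
  rw [map_aeval', map_aeval'] at this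
  simpa [smul_smul, aeval_X_left] using this

variable (k K) in
/-- scaling -/
noncomputable def ep (l : ℂˣ) : K →ₐ[ℂ] K := liftK (sc_inj (k := k) l)

theorem ep_xx (l : ℂˣ) (i : Fin k) : ep k K l (xx K i) = (l : ℂ) • xx K i := liftK_xx _ i

theorem ep_ep (l m : ℂˣ) (f : K) : ep k K l (ep k K m f) = ep k K (l * m) f := by
  have : (ep k K l).comp (ep k K m) = ep k K (l * m) := hom_ext (k := k) fun i => by
    simp [ep_xx, smul_smul, mul_comm]
  exact AlgHom.congr_fun this f

theorem ep_one (f : K) : ep k K 1 f = f := by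
  have : ep k K 1 = AlgHom.id ℂ K := hom_ext (k := k) fun i => by simp [ep_xx]
  rw [this]; rfl

theorem ev_ep (l : ℂˣ) {x : Fin k → ℂ} {f : K} {c : ℂ} (h : Ev ((l : ℂ) • x) f c) :
    Ev x (ep k K l f) c :=
  ev_comp _ (fun i => by
    rw [ep_xx, Algebra.smul_def]
    exact (ev_C _).mul (ev_xx i)) h

/-- the polynomial `a(t g)` in `t` -/
noncomputable def scal {B : Type*} [CommRing B] [Algebra ℂ B] (g : Fin k → B) (a : (AA k)) :
    Polynomial B := aeval (fun i => Polynomial.C (g i) * Polynomial.X) a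

theorem scal_eval {B : Type*} [CommRing B] [Algebra ℂ B] (g : Fin k → B) (a : (AA k)) (t : B) :
    (scal g a).eval t = aeval (fun i => t * g i) a := by
  have := map_aeval' ((Polynomial.aeval t).restrictScalars ℂ)
    (fun i => Polynomial.C (g i) * Polynomial.X) a
  simp only [AlgHom.restrictScalars_apply, Polynomial.coe_aeval_eq_eval, Polynomial.eval_mul,
    Polynomial.eval_C, Polynomial.eval_X] at this
  rw [scal, this]
  simp [mul_comm]

theorem poly_eq_zero {B : Type*} [Field B] [Algebra ℂ B] {p : Polynomial B} {S : Set ℂ}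
    (hS : S.Infinite) (h : ∀ z ∈ S, p.eval (algebraMap ℂ B z) = 0) : p = 0 := by
  apply Polynomial.eq_zero_of_infinite_isRoot
  refine Set.Infinite.mono ?_ (hS.image (algebraMap ℂ B).injective.injOn)
  rintro _ ⟨z, hz, rfl⟩
  exact h z hz

omit [Algebra ℂ K] [IsScalarTower ℂ (AA k) K] in
theorem xx_ne (i : Fin k) : xx K i ≠ 0 := alg_ne (X_ne_zero i)

theorem top_of_xx {E : IntermediateField ℂ K} (h : ∀ i : Fin k, xx K i ∈ E) : E = ⊤ := by
  rw [eq_top_iff]
  intro f _
  obtain ⟨a, b, hb, e⟩ := frac (k := k) f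
  have hE : ∀ c : (AA k), algebraMap (AA k) K c ∈ E := fun c => by
    have := map_aeval' E.val (fun i => (⟨_, h i⟩ : E)) c
    rw [← aeval_xx]
    exact this ▸ Subtype.prop _
  rw [(eq_div_iff (alg_ne hb)).mpr e]
  exact div_mem (hE a) (hE b)

variable (k) in
theorem trdeg_K : Algebra.trdeg ℂ K = k := by
  have : Algebra.IsAlgebraic (AA k) K := IsLocalization.isAlgebraic K (nonZeroDivisors (AA k))
  have h := trdeg_add_eq ℂ (AA k) (A := K)
  rw [MvPolynomial.trdeg_of_isDomain, trdeg_eq_zero (R := (AA k))] at h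
  rw [← h]; simp

section gen

open IntermediateField

theorem fixed_mem {K : Type} [Field K] [Algebra ℂ K] (E : IntermediateField ℂ K) (w : K)
    (τ : ℕ → K →ₐ[ℂ] K) (hfix : ∀ n, ∀ a ∈ E, τ n a = a)
    (hinj : Function.Injective fun n => τ n w) {h : K} (hh : h ∈ adjoin ℂ ((E : Set K) ∪ {w}))
    (hh' : ∀ n, τ n h = h) : h ∈ E := by
  rw [← restrictScalars_adjoin, mem_restrictScalars, mem_adjoin_simple_iff] at hh
  obtain ⟨r, s, e⟩ := hh
  by_cases hs : Polynomial.aeval w s = 0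
  · rw [e, hs, div_zero]; exact zero_mem _
  have hτ : ∀ n (p : Polynomial E), τ n (Polynomial.aeval w p) =
      (p.map (algebraMap E K)).eval (τ n w) := by
    intro n p
    rw [Polynomial.eval_map, Polynomial.aeval_def]
    refine (Polynomial.hom_eval₂ p _ (τ n).toRingHom w).trans ?_
    congr 1
    ext b
    exact hfix n b b.2
  have h1 : Polynomial.C h * s.map (algebraMap E K) - r.map (algebraMap E K) = 0 := by
    apply Polynomial.eq_zero_of_infinite_isRoot
    refine Set.infinite_of_injective_forall_mem hinj fun n => ?_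
    show Polynomial.eval (τ n w) _ = 0
    rw [Polynomial.eval_sub, Polynomial.eval_mul, Polynomial.eval_C, ← hτ, ← hτ, ← hh' n,
      ← map_mul, ← map_sub, e, div_mul_cancel₀ _ hs, sub_self, map_zero]
  have hs0 : s ≠ 0 := fun h0 => hs (by rw [h0, map_zero])
  have h2 := congrArg (fun p => Polynomial.coeff p s.natDegree) (sub_eq_zero.mp h1)
  simp only [Polynomial.coeff_C_mul, Polynomial.coeff_map] at h2
  have h3 : algebraMap E K (s.coeff s.natDegree) ≠ 0 :=
    (_root_.map_ne_zero _).mpr (Polynomial.leadingCoeff_ne_zero.mpr hs0)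
  rw [(eq_div_iff h3).mpr h2]
  exact div_mem (r.coeff _).2 (s.coeff _).2

theorem indep_of_gen {L E : Type} [Field L] [Field E] [Algebra L E] {ι : Type} [Finite ι]
    {x y : ι → E} (hx : AlgebraicIndependent L x) (hy : adjoin L (Set.range y) = ⊤) :
    AlgebraicIndependent L y := by
  have halg : Algebra.IsAlgebraic (Algebra.adjoin L (Set.range y)) E := by
    rw [← IntermediateField.isAlgebraic_adjoin_iff_top, hy]
    exact ⟨fun a => isAlgebraic_algebraMap (⟨a, trivial⟩ : (⊤ : IntermediateField L E))⟩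
  exact (Algebra.IsAlgebraic.isTranscendenceBasis_of_le_trdeg_of_finite L y
    hx.cardinalMk_le_trdeg).1

theorem exists_iso {L L' E : Type} [Field L] [Field L'] [Field E] [Algebra L E] [Algebra L' E]
    (e : L ≃+* L') {ι : Type} {x y : ι → E} (hx : AlgebraicIndependent L x)
    (hy : AlgebraicIndependent L' y) (hx' : adjoin L (Set.range x) = ⊤)
    (hy' : adjoin L' (Set.range y) = ⊤) : ∃ τ : E ≃+* E,
      (∀ a, τ (algebraMap L E a) = algebraMap L' E (e a)) ∧ ∀ i, τ (x i) = y i := by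
  let e1 := (hx.aevalEquivField.trans (equivOfEq hx')).trans topEquiv
  let e2 := (hy.aevalEquivField.trans (equivOfEq hy')).trans topEquiv
  have h1 : ∀ a, e1 (algebraMap _ _ a) = aeval x a := hx.aevalEquivField_algebraMap_apply_coe
  have h2 : ∀ a, e2 (algebraMap _ _ a) = aeval y a := hy.aevalEquivField_algebraMap_apply_coe
  let m : FractionRing (MvPolynomial ι L) ≃+* FractionRing (MvPolynomial ι L') :=
    IsFractionRing.ringEquivOfRingEquiv (MvPolynomial.mapEquiv ι e)
  have key : ∀ a, ((e1.symm.toRingEquiv.trans m).trans e2.toRingEquiv) (aeval x a) =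
      aeval y (MvPolynomial.map (e : L →+* L') a) := by
    intro a
    rw [← h1, ← h2]
    show e2 (m (e1.symm (e1 _))) = _
    rw [AlgEquiv.symm_apply_apply, IsFractionRing.ringEquivOfRingEquiv_algebraMap]
    rfl
  refine ⟨(e1.symm.toRingEquiv.trans m).trans e2.toRingEquiv, fun a => ?_, fun i => ?_⟩
  · simpa using key (C a)
  · simpa using key (X i)

theorem ext_adj {K : Type} [Field K] [Algebra ℂ K] {f g : K →ₐ[ℂ] K} {S : Set K}
    (h : ∀ a ∈ S, f a = g a) {a : K} (ha : a ∈ adjoin ℂ S) : f a = g a := by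
  induction ha using adjoin_induction with
  | mem a ha => exact h a ha
  | algebraMap c => rw [f.commutes, g.commutes]
  | add a b _ _ ha hb => rw [map_add, map_add, ha, hb]
  | inv a _ ha => rw [map_inv₀, map_inv₀, ha]
  | mul a b _ _ ha hb => rw [map_mul, map_mul, ha, hb]

theorem indep_xx : AlgebraicIndependent ℂ (xx K : Fin k → K) := by
  intro a b hab
  rw [aeval_xx, aeval_xx] at hab
  exact IsFractionRing.injective _ K hab

theorem exists_aut {y : Fin k → K} (hy : adjoin ℂ (Set.range y) = ⊤) :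
    ∃ τ : K ≃ₐ[ℂ] K, ∀ i, τ (xx K i) = y i := by
  obtain ⟨τ, h1, h2⟩ := exists_iso (RingEquiv.refl ℂ) (indep_xx (K := K))
    (indep_of_gen indep_xx hy) (top_of_xx fun i => subset_adjoin _ _ ⟨i, rfl⟩) hy
  exact ⟨{ τ with commutes' := h1 }, h2⟩

end gen

end Pool.Agent.H79.PG1
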