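import Pool.Agent.H79.PG1

set_option autoImplicit false
set_option linter.unusedSectionVars false

namespace Pool.Agent.H79.PG2

open PG1 IntermediateField

theorem transfer {B K : Type} [CommRing B] [Algebra ℂ B] [Field K] [Algebra ℂ K]
    (φ1 : B →ₐ[ℂ] K) (φ2 : B →ₐ[ℂ] RatFunc ℂ) (h : ∀ b, φ1 b = 0 ↔ φ2 b = 0) :
    ∃ w : K, (∃ a b, w = φ1 a / φ1 b) ∧ ∀ b, φ1 b ∈ adjoin ℂ {w} := by
  let I : Ideal B := RingHom.ker φ1
  have : I.IsPrime := RingHom.ker_isPrime φ1
  let ι1 : (B ⧸ I) →ₐ[ℂ] K := Ideal.Quotient.liftₐ I φ1 (fun _ hb => hb)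
  let ι2 : (B ⧸ I) →ₐ[ℂ] RatFunc ℂ := Ideal.Quotient.liftₐ I φ2 (fun b hb => (h b).mp hb)
  have h1 : Function.Injective ι1 := by
    rw [injective_iff_map_eq_zero]
    intro b hb
    obtain ⟨b, rfl⟩ := Ideal.Quotient.mk_surjective b
    exact Ideal.Quotient.eq_zero_iff_mem.mpr hb
  have h2 : Function.Injective ι2 := by
    rw [injective_iff_map_eq_zero]
    intro b hb
    obtain ⟨b, rfl⟩ := Ideal.Quotient.mk_surjective b
    exact Ideal.Quotient.eq_zero_iff_mem.mpr ((h b).mpr hb)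
  let j1 : FractionRing (B ⧸ I) →ₐ[ℂ] K := IsFractionRing.liftAlgHom h1
  let j2 : FractionRing (B ⧸ I) →ₐ[ℂ] RatFunc ℂ := IsFractionRing.liftAlgHom h2
  have hj1 : ∀ b : B, j1 (algebraMap _ _ (Ideal.Quotient.mk I b)) = φ1 b := fun b =>
    IsFractionRing.lift_algebraMap h1 _
  obtain ⟨w0, hw0⟩ := RatFunc.Luroth.generator_mem (E := j2.fieldRange)
  have htop : adjoin ℂ {w0} = ⊤ := by
    apply IntermediateField.map_injective j2
    rw [adjoin_map, Set.image_singleton, ← AlgHom.fieldRange_eq_map]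
    refine Eq.trans ?_ RatFunc.Luroth.eq_adjoin_generator.symm
    rw [← hw0]; rfl
  refine ⟨j1 w0, ?_, fun b => ?_⟩
  · obtain ⟨a, b, -, rfl⟩ := IsFractionRing.div_surjective (A := B ⧸ I) w0
    obtain ⟨a, rfl⟩ := Ideal.Quotient.mk_surjective a
    obtain ⟨b, rfl⟩ := Ideal.Quotient.mk_surjective b
    exact ⟨a, b, by rw [map_div₀, hj1, hj1]⟩
  · rw [← Set.image_singleton, ← adjoin_map, htop, ← hj1]
    exact ⟨_, trivial, rfl⟩

variable {k : ℕ} {K : Type} [Field K] [Algebra (AA k) K] [IsFractionRing (AA k) K] [Algebra ℂ K]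
  [IsScalarTower ℂ (AA k) K]

noncomputable def line (p q : Fin k → ℂ) (i : Fin k) : Polynomial ℂ :=
  Polynomial.C (p i) + Polynomial.X * Polynomial.C (q i - p i)

theorem line_eval (p q : Fin k → ℂ) (a : (AA k)) (t : ℂ) :
    (MvPolynomial.aeval (line p q) a).eval t =
      MvPolynomial.aeval (fun i => p i + t * (q i - p i)) a := by
  have := map_aeval' (Polynomial.aeval t) (line p q) a
  simp only [Polynomial.coe_aeval_eq_eval] at this
  rw [this]
  simp [line]

theorem luroth (k : ℕ) [Algebra (AA k) K] [IsFractionRing (AA k) K]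
    [IsScalarTower ℂ (AA k) K] (E : IntermediateField ℂ K)
    (hdep : ∀ u ∈ E, ∀ v ∈ E, Transcendental ℂ u →
      IsAlgebraic (Polynomial.aeval u : Polynomial ℂ →ₐ[ℂ] K).range v)
    {ι : Type} [Fintype ι] (g : ι → K) (hg : ∀ j, g j ∈ E) :
    ∃ w ∈ E, w ≠ 0 ∧ ∀ j, g j ∈ adjoin ℂ {w} := by
  classical
  have hE : ∀ G : MvPolynomial ι ℂ, MvPolynomial.aeval g G ∈ E := fun G => by
    have := map_aeval' E.val (fun i => (⟨_, hg i⟩ : E)) G
    exact this ▸ Subtype.prop _
  by_cases hc : ∀ j, ∃ c : ℂ, g j = algebraMap ℂ K c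
  · refine ⟨1, one_mem _, one_ne_zero, fun j => ?_⟩
    obtain ⟨c, hc⟩ := hc j
    rw [hc]
    exact IntermediateField.algebraMap_mem _ c
  push Not at hc
  obtain ⟨j0, hj0⟩ := hc
  choose a b hb e using fun j => frac (k := k) (g j)
  have hD : ∏ j, b j ≠ 0 := Finset.prod_ne_zero_iff.mpr fun j _ => hb j
  obtain ⟨p, hp⟩ := exists_ne hD
  have hp' : ∀ j, MvPolynomial.aeval p (b j) ≠ 0 := fun j => by
    rw [map_prod] at hp
    exact Finset.prod_ne_zero_iff.mp hp j (Finset.mem_univ j)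
  set c1 := MvPolynomial.aeval p (a j0) / MvPolynomial.aeval p (b j0) with hc1
  have h1 : a j0 - MvPolynomial.C c1 * b j0 ≠ 0 := by
    intro h
    apply hj0 c1
    apply mul_right_cancel₀ (alg_ne (K := K) (hb j0))
    rw [e, sub_eq_zero.mp h, map_mul, IsScalarTower.algebraMap_apply ℂ (AA k) K]
    rfl
  obtain ⟨q, hq⟩ := exists_ne h1
  let y : Fin k → RatFunc ℂ := fun i => algebraMap (Polynomial ℂ) _ (line p q i)
  have hy : ∀ c : (AA k), MvPolynomial.aeval y c =
      algebraMap (Polynomial ℂ) (RatFunc ℂ) (MvPolynomial.aeval (line p q) c) := fun c =>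
    (map_aeval' (IsScalarTower.toAlgHom ℂ (Polynomial ℂ) (RatFunc ℂ)) (line p q) c).symm
  have hyb : ∀ j, MvPolynomial.aeval y (b j) ≠ 0 := fun j => by
    rw [hy]
    apply RatFunc.algebraMap_ne_zero
    intro h
    have := line_eval p q (b j) 0
    rw [h] at this
    simp only [Polynomial.eval_zero, zero_mul, add_zero] at this
    exact hp' j this.symm
  let g' : ι → RatFunc ℂ := fun j => MvPolynomial.aeval y (a j) / MvPolynomial.aeval y (b j)
  have hev : ∀ j, Ev y (g j) (g' j) := fun j =>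
    ⟨a j, b j, hyb j, e j, div_mul_cancel₀ _ (hyb j)⟩
  have htr : Transcendental ℂ (g' j0) := by
    apply RatFunc.transcendental_of_ne_C
    rintro ⟨c, hc⟩
    have h2 : MvPolynomial.aeval (line p q) (a j0) =
        Polynomial.C c * MvPolynomial.aeval (line p q) (b j0) := by
      apply RatFunc.algebraMap_injective ℂ
      rw [map_mul, RatFunc.algebraMap_C, ← hy, ← hy, ← hc, div_mul_cancel₀ _ (hyb j0)]
    have h3 := congrArg (Polynomial.eval 0) h2
    have h4 := congrArg (Polynomial.eval 1) h2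
    simp only [Polynomial.eval_mul, Polynomial.eval_C, line_eval, zero_mul, add_zero, one_mul,
      add_sub_cancel] at h3 h4
    have h5 : c1 = c := by
      rw [hc1, div_eq_iff (hp' j0)]; exact h3
    apply hq
    rw [map_sub, map_mul, MvPolynomial.aeval_C, h5, sub_eq_zero]
    exact h4
  have hker : ∀ G : MvPolynomial ι ℂ, MvPolynomial.aeval g G = 0 → MvPolynomial.aeval g' G = 0 := by
    intro G hG
    have h2 := ev_aeval hev G
    rw [hG] at h2
    exact h2.unique (by simpa using ev_alg (K := K) (y := y) 0)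
  have hpoly : ∀ {L : Type} [Field L] [Algebra ℂ L] (f : ι → L) (r : Polynomial ℂ),
      MvPolynomial.aeval f (Polynomial.aeval (MvPolynomial.X j0 : MvPolynomial ι ℂ) r) =
        Polynomial.aeval (f j0) r := by
    intro L _ _ f r
    rw [← Polynomial.aeval_algHom_apply, MvPolynomial.aeval_X]
  have htr' : Transcendental ℂ (g j0) := by
    rintro ⟨r, hr, hr'⟩
    exact htr ⟨r, hr, by rw [← hpoly]; exact hker _ (by rw [hpoly]; exact hr')⟩
  obtain ⟨w, ⟨a', b', hw⟩, hw'⟩ := transfer (MvPolynomial.aeval g) (MvPolynomial.aeval g')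
    (fun G => ⟨hker G, fun hG => by
      by_contra h0
      obtain ⟨r, hr, hr'⟩ := (hdep _ (hg j0) _ (hE G) htr').exists_nonzero_coeff_and_aeval_eq_zero
        (mem_nonZeroDivisors_of_ne_zero h0)
      obtain ⟨r', rfl⟩ := Polynomial.map_surjective
        (Polynomial.aeval (g j0) : Polynomial ℂ →ₐ[ℂ] K).rangeRestrict.toRingHom
        (AlgHom.rangeRestrict_surjective _) r
      have h2 := hker (r'.eval₂ (Polynomial.aeval (MvPolynomial.X j0 : MvPolynomial ι ℂ)).toRingHom G)
        (by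
          rw [← hr', Polynomial.aeval_def, Polynomial.eval₂_map]
          refine (Polynomial.hom_eval₂ r' _ (MvPolynomial.aeval g).toRingHom G).trans ?_
          congr 1
          ext1
          · ext; simp
          · simp)
      have h3 := Polynomial.hom_eval₂ r'
        (Polynomial.aeval (MvPolynomial.X j0 : MvPolynomial ι ℂ)).toRingHom
        (MvPolynomial.aeval g').toRingHom G
      have h4 : (MvPolynomial.aeval g').toRingHom G = 0 := hG
      rw [h4, Polynomial.eval₂_at_zero] at h3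
      have h5 : Polynomial.aeval (g' j0) (r'.coeff 0) = 0 := by
        rw [← hpoly]; exact h3.symm.trans h2
      apply hr
      rw [Polynomial.coeff_map, transcendental_iff.mp htr _ h5, map_zero]⟩)
  by_cases hw0 : w = 0
  · refine ⟨1, one_mem _, one_ne_zero, fun j => ?_⟩
    have := hw' (MvPolynomial.X j)
    rw [hw0, adjoin_zero, MvPolynomial.aeval_X] at this
    exact (bot_le : ⊥ ≤ adjoin ℂ {(1 : K)}) this
  · refine ⟨w, hw ▸ div_mem (hE a') (hE b'), hw0, fun j => ?_⟩
    simpa using hw' (MvPolynomial.X j)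

theorem transc_of {K : Type} [Field K] [Algebra ℂ K] {ι : Type} (x : ι → K) (f : K)
    (τ : ℕ → K →ₐ[ℂ] K) (hfix : ∀ n i, τ n (x i) = x i)
    (hinj : Function.Injective fun n => τ n f) :
    Transcendental (Algebra.adjoin ℂ (Set.range x)) f := by
  rintro ⟨r, hr, hr'⟩
  have hB : ∀ n (b : Algebra.adjoin ℂ (Set.range x)), τ n b = b := by
    intro n b
    have : Algebra.adjoin ℂ (Set.range x) ≤ AlgHom.equalizer (τ n) (AlgHom.id ℂ K) :=
      Algebra.adjoin_le (by rintro _ ⟨i, rfl⟩; exact hfix n i)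
    exact this b.2
  apply hr
  apply Polynomial.map_injective (algebraMap _ K) Subtype.val_injective
  rw [Polynomial.map_zero]
  apply Polynomial.eq_zero_of_infinite_isRoot
  refine Set.infinite_of_injective_forall_mem hinj fun n => ?_
  show Polynomial.eval (τ n f) _ = 0
  rw [Polynomial.eval_map, ← map_zero (τ n), ← hr', Polynomial.aeval_def]
  refine Eq.trans ?_ (Polynomial.hom_eval₂ r _ (τ n).toRingHom f).symm
  congr 1
  ext b
  exact (hB n b).symm

theorem lowest {K : Type} [Field K] {p q p' q' : Polynomial K} (h : IsCoprime p q)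
    (h' : IsCoprime p' q') (hq : q ≠ 0) (e : p * q' = p' * q) :
    ∃ c : K, q' = Polynomial.C c * q ∧ p' = Polynomial.C c * p := by
  have h1 : q ∣ q' := h.symm.dvd_of_dvd_mul_left ⟨p', by rw [e, mul_comm]⟩
  have h2 : q' ∣ q := h'.symm.dvd_of_dvd_mul_left ⟨p, by rw [← e, mul_comm]⟩
  obtain ⟨u, hu⟩ := associated_of_dvd_dvd h1 h2
  obtain ⟨c, -, hc⟩ := Polynomial.isUnit_iff.mp u.isUnit
  refine ⟨c, by rw [hc, ← hu, mul_comm], mul_right_cancel₀ hq ?_⟩
  rw [← e, ← hu, hc]; ring

end Pool.Agent.H79.PG2
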