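import Pool.Agent.H79.PG3

set_option autoImplicit false
set_option linter.unusedSectionVars false

namespace Pool.Agent.H79.PG4

open PG1 PG2 PG3 MvPolynomial Filter Topology

variable {k : ℕ} {K : Type} [Field K] [Algebra (AA k) K] [IsFractionRing (AA k) K] [Algebra ℂ K]
  [IsScalarTower ℂ (AA k) K]

noncomputable def rm (L : Fin k → (AA k)) (E : (AA k)) (p : Fin k → ℂ) : Fin k → ℂ :=
  fun i => eval p (L i) / eval p E

variable (K) in
noncomputable def rk (L : Fin k → (AA k)) (E : (AA k)) : Fin k → K :=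
  fun i => algebraMap (AA k) K (L i) / algebraMap (AA k) K E

theorem ev_rm (L : Fin k → (AA k)) {E : (AA k)} {x : Fin k → ℂ} (h : aeval x E ≠ 0) (i : Fin k) :
    Ev x (rk K L E i) (rm L E x i) := ev_frac (L i) h

theorem ev_smul {x : Fin k → ℂ} {f : K} {c : ℂ} (h : Ev x f c) (l : ℂ) : Ev x (l • f) (l * c) := by
  rw [Algebra.smul_def]
  exact (ev_C l).mul h

theorem exists_rk (g : Fin k → K) : ∃ L E, E ≠ 0 ∧ rk K L E = g := by
  obtain ⟨b, hb⟩ := IsLocalization.exist_integer_multiples_of_finite (nonZeroDivisors (AA k)) g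
  choose L hL using hb
  have h0 := nonZeroDivisors.ne_zero b.2
  refine ⟨L, b, h0, funext fun i => ?_⟩
  rw [rk, hL, Algebra.smul_def, mul_div_cancel_left₀ _ (alg_ne h0)]

theorem pull (ρ : K →ₐ[ℂ] K) {E : (AA k)} (hE : E ≠ 0) : ∃ b : (AA k), b ≠ 0 ∧ ∀ x y : Fin k → ℂ,
    aeval x b ≠ 0 → (∀ i, Ev x (ρ (xx K i)) (y i)) → aeval y E ≠ 0 := by
  obtain ⟨b, hb, h⟩ := ev_gen (k := k) (L := ℂ) ((_root_.map_ne_zero ρ).mpr (alg_ne (K := K) hE))
  exact ⟨b, hb, fun x y hx hy => h x hx _ (ev_comp ρ hy (ev_alg E))⟩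

theorem ev_ne {x : Fin k → ℂ} {Q : (AA k)} (h : aeval x Q ≠ 0) :
    ∀ᶠ z : ℂ in 𝓝[≠] 0, aeval (z • x) Q ≠ 0 := by
  have h1 : scal x Q ≠ 0 := fun h0 => h (by
    have := scal_eval x Q 1
    rw [h0] at this
    simpa using this.symm)
  refine ((Polynomial.eventually_cofinite_not_isRoot h1).filter_mono (nhdsNE_le_cofinite 0)).mono
    fun z hz => ?_
  rw [Polynomial.IsRoot, scal_eval] at hz
  exact hz

def HypV (P : Fin k → (AA k)) (Q : (AA k)) (V : Set ((Fin k → ℂ) × ℂ)) : Prop :=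
  ∀ q ∈ V, q.2 ≠ 0 ∧ eval q.1 Q ≠ 0 ∧ eval (q.2 • q.1) Q ≠ 0 ∧
    eval (((1 - q.2) / q.2) • rm P Q (q.2 • q.1)) Q ≠ 0 ∧
    (1 - q.2) • rm P Q q.1 = rm P Q (((1 - q.2) / q.2) • rm P Q (q.2 • q.1))

def HypU (P : Fin k → (AA k)) (Q : (AA k)) (U : Set (Fin k → ℂ)) : Prop :=
  ∀ x ∈ U, Tendsto (fun z : ℂ => z⁻¹ • rm P Q (z • x)) (𝓝[≠] 0) (𝓝 x)

theorem snd_inf {V : Set ((Fin k → ℂ) × ℂ)} (hV : IsOpen V) (hne : V.Nonempty) :
    (Prod.snd '' V).Infinite := by
  obtain ⟨q, hq⟩ := hne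
  exact infinite_of_mem_nhds q.2 ((isOpenMap_snd V hV).mem_nhds ⟨q, hq, rfl⟩)

theorem slice_open {V : Set ((Fin k → ℂ) × ℂ)} (hV : IsOpen V) (z : ℂ) :
    IsOpen {x | (x, z) ∈ V} := hV.preimage (Continuous.prodMk_left z)

variable {P : Fin k → (AA k)} {Q : (AA k)} {V : Set ((Fin k → ℂ) × ℂ)} {U : Set (Fin k → ℂ)}

theorem dominant (hQ : Q ≠ 0) (hV : IsOpen V) (hne : V.Nonempty) (h : HypV P Q V)
    (hU : IsOpen U) (hne' : U.Nonempty) (h' : HypU P Q U) :
    Function.Injective (aeval (rk K P Q) : (AA k) →ₐ[ℂ] K) := by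
  rw [injective_iff_map_eq_zero]
  intro G hG
  have z0 : ∀ x : Fin k → ℂ, Ev x (0 : K) (0 : ℂ) := fun x => by
    simpa using ev_alg (K := K) (y := x) 0
  have key : ∀ (l : ℂ) (x : Fin k → ℂ), aeval x Q ≠ 0 →
      Ev x (aeval (fun i => algebraMap ℂ K l * rk K P Q i) G) (aeval (l • rm P Q x) G) :=
    fun l x hx => ev_aeval (fun i => (ev_C l).mul (ev_rm P hx i)) G
  have h1 : scal (rk K P Q) G = 0 := by
    refine poly_eq_zero (S := (fun z : ℂ => 1 - z) '' (Prod.snd '' V))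
      ((snd_inf hV hne).image (sub_right_injective.injOn)) ?_
    rintro _ ⟨_, ⟨⟨x, z⟩, hq, rfl⟩, rfl⟩
    rw [scal_eval]
    refine zero_of_open (slice_open hV z) ⟨x, hq⟩ fun y hy => ?_
    obtain ⟨-, a1, -, a3, a4⟩ := h _ hy
    have e1 := key (1 - z) y a1
    have e2 := ev_aeval (fun i => ev_rm (K := K) P a3 i) G
    rw [hG] at e2
    have e3 := e2.unique (z0 _)
    rw [← a4] at e3
    exact e3 ▸ e1
  have h2 : ∀ (l : ℂ) (x : Fin k → ℂ), aeval x Q ≠ 0 → aeval (l • rm P Q x) G = 0 := by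
    intro l x hx
    have e1 := key l x hx
    rw [← scal_eval, h1, Polynomial.eval_zero] at e1
    exact e1.unique (z0 _)
  have h3 : G * Q = 0 := poly_zero hU hne' fun x hx => by
    rw [map_mul]
    by_cases h0 : aeval x Q = 0
    · rw [h0, mul_zero]
    have e1 := ((MvPolynomial.continuous_eval G).tendsto x).comp (h' x hx)
    have e2 : eval x G = 0 := tendsto_nhds_unique e1
      (tendsto_const_nhds.congr' ((ev_ne h0).mono fun z hz => (h2 _ _ hz).symm))
    exact mul_eq_zero_of_left e2 _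
  exact (mul_eq_zero.mp h3).resolve_right hQ

variable {Φ : K →ₐ[ℂ] K}

theorem ev_sg (hΦ : ∀ i, Φ (xx K i) = rk K P Q i) (s : ℂˣ) {x : Fin k → ℂ}
    (hx : aeval ((s : ℂ) • x) Q ≠ 0) (i : Fin k) :
    Ev x (sg k Φ s (xx K i)) (((s : ℂ)⁻¹ • rm P Q ((s : ℂ) • x)) i) := by
  show Ev x (ep k K s (Φ (ep k K s⁻¹ (xx K i)))) _
  rw [ep_xx, map_smul, map_smul, hΦ, Units.val_inv_eq_inv_val]
  exact ev_smul (ev_ep s (ev_rm P hx i)) _

theorem group (hΦ : ∀ i, Φ (xx K i) = rk K P Q i) (hV : IsOpen V) (h : HypV P Q V) :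
    ∀ z ∈ Prod.snd '' V \ {1}, ∃ u v : ℂˣ, (u : ℂ) = z ∧ (v : ℂ) = 1 - z ∧
      ∀ i : Fin k, sg k Φ u (sg k Φ v (xx K i)) = Φ (xx K i) := by
  rintro _ ⟨⟨⟨x, z⟩, hq, rfl⟩, h1⟩
  have hz : z ≠ 0 := (h _ hq).1
  have hz' : 1 - z ≠ 0 := sub_ne_zero.mpr (Ne.symm h1)
  refine ⟨Units.mk0 z hz, Units.mk0 _ hz', rfl, rfl, fun i => ?_⟩
  refine eq_of_open (slice_open hV z) ⟨x, hq⟩ fun y hy => ?_
  obtain ⟨-, a1, a2, a3, a4⟩ := h _ hy
  dsimp only at a1 a2 a3 a4
  have e : (1 - z) • z⁻¹ • rm P Q (z • y) = ((1 - z) / z) • rm P Q (z • y) := by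
    rw [smul_smul, div_eq_mul_inv]
  refine ⟨_, ev_comp _ (ev_sg hΦ (Units.mk0 z hz) a2)
    (ev_sg hΦ (Units.mk0 _ hz') (by rw [Units.val_mk0, Units.val_mk0, e]; exact a3) i), ?_⟩
  rw [Units.val_mk0, Units.val_mk0, e, ← a4, inv_smul_smul₀ hz', hΦ]
  exact ev_rm P a1 i

variable (k) in
theorem clear (p : Polynomial K) : ∃ (b : (AA k)) (p' : Polynomial (AA k)), b ≠ 0 ∧ ∀ z : ℂ,
    algebraMap (AA k) K (p'.eval (C z)) = algebraMap (AA k) K b * p.eval (algebraMap ℂ K z) := by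
  obtain ⟨b, hb, e⟩ := IsLocalization.integerNormalization_spec (nonZeroDivisors (AA k)) p
  refine ⟨b, IsLocalization.integerNormalization (nonZeroDivisors (AA k)) p,
    nonZeroDivisors.ne_zero hb, fun z => ?_⟩
  rw [← Polynomial.eval₂_at_apply, ← Polynomial.eval_map, e, Polynomial.eval_smul,
    Algebra.smul_def, IsScalarTower.algebraMap_apply ℂ (AA k) K]
  rfl

theorem cont (x : Fin k → ℂ) (p : Polynomial (AA k)) :
    Continuous fun z : ℂ => aeval x (p.eval (C z)) := by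
  have : (fun z : ℂ => aeval x (p.eval (C z))) = fun z => (p.map (eval x)).eval z := by
    funext z
    rw [Polynomial.eval_map]
    conv_rhs => rw [← eval_C (f := x) z]
    exact (Polynomial.eval₂_at_apply (eval x) _).symm
  rw [this]
  exact Polynomial.continuous _

theorem data (hQ : Q ≠ 0) (hΦ : ∀ i, Φ (xx K i) = rk K P Q i) (hU : IsOpen U) (hne' : U.Nonempty)
    (h' : HypU P Q U) (i : Fin k) : ∃ p q, Data Φ i p q := by
  have hD : ∀ s : ℂˣ, (scal (xx K) Q).eval (cc K s) = ep k K s (algebraMap (AA k) K Q) := fun s => by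
    rw [scal_eval, map_alg]; simp only [ep_xx, Algebra.smul_def, cc]
  have hN : ∀ s : ℂˣ, (scal (xx K) (P i)).eval (cc K s) = ep k K s (algebraMap (AA k) K (P i)) :=
    fun s => by rw [scal_eval, map_alg]; simp only [ep_xx, Algebra.smul_def, cc]
  have hD' : ∀ s : ℂˣ, ep k K s (algebraMap (AA k) K Q) ≠ 0 := fun s =>
    (_root_.map_ne_zero _).mpr (alg_ne hQ)
  have h0 : Polynomial.X * scal (xx K) Q ≠ 0 := mul_ne_zero Polynomial.X_ne_zero fun h =>
    hD' 1 (by rw [← hD, h, Polynomial.eval_zero])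
  set r : RatFunc K := algebraMap (Polynomial K) _ (scal (xx K) (P i)) /
    algebraMap (Polynomial K) _ (Polynomial.X * scal (xx K) Q) with hr
  have e := (RatFunc.num_mul_eq_mul_denom_iff h0).mpr hr
  have hval : ∀ s : ℂˣ, sg k Φ s (xx K i) * r.denom.eval (cc K s) = r.num.eval (cc K s) := by
    intro s
    have e1 := congrArg (Polynomial.eval (cc K s)) e
    simp only [Polynomial.eval_mul, Polynomial.eval_X, hD, hN] at e1
    have e2 : sg k Φ s (xx K i) = (cc K s)⁻¹ * (ep k K s (algebraMap (AA k) K (P i)) /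
        ep k K s (algebraMap (AA k) K Q)) := by
      show ep k K s (Φ (ep k K s⁻¹ (xx K i))) = _
      rw [ep_xx, map_smul, map_smul, hΦ, rk, map_div₀, Algebra.smul_def, Units.val_inv_eq_inv_val,
        map_inv₀, cc]
    have := hD' s
    have := cc_ne (K := K) s
    rw [e2]
    field_simp
    linear_combination -e1
  refine ⟨r.num, r.denom, r.isCoprime_num_denom, r.monic_denom, ?_, hval⟩
  obtain ⟨b1, p', hb1, e1⟩ := clear k r.num
  obtain ⟨b2, q', hb2, e2⟩ := clear k r.denom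
  have h3 : (b2 * p'.eval (C 0) - X i * (b1 * q'.eval (C 0))) * Q = 0 :=
    poly_zero hU hne' fun x hx => by
      rw [map_mul]
      by_cases hx0 : aeval x Q = 0
      · rw [hx0, mul_zero]
      apply mul_eq_zero_of_left
      have t1 : Tendsto (fun z : ℂ => aeval x b2 * aeval x (p'.eval (C z))) (𝓝[≠] 0)
          (𝓝 (aeval x b2 * aeval x (p'.eval (C 0)))) :=
        (((cont x p').tendsto 0).mono_left nhdsWithin_le_nhds).const_mul _
      have t2 : Tendsto (fun z : ℂ => (z⁻¹ • rm P Q (z • x)) i *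
          (aeval x b1 * aeval x (q'.eval (C z)))) (𝓝[≠] 0)
          (𝓝 (x i * (aeval x b1 * aeval x (q'.eval (C 0))))) :=
        (((continuous_apply i).tendsto x).comp (h' x hx)).mul
          ((((cont x q').tendsto 0).mono_left nhdsWithin_le_nhds).const_mul _)
      have := tendsto_nhds_unique t1 (t2.congr' (((ev_ne hx0).and self_mem_nhdsWithin).mono
        fun z hz => by
          have hz0 : z ≠ 0 := hz.2
          have a1 := (ev_sg hΦ (Units.mk0 z hz0) hz.1 i).mul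
            ((ev_alg (K := K) b1).mul (ev_alg (q'.eval (C z))))
          have a2 := (ev_alg (K := K) (y := x) b2).mul (ev_alg (p'.eval (C z)))
          have a3 := hval (Units.mk0 z hz0)
          rw [cc, Units.val_mk0] at a3
          rw [e1, ← a3] at a2
          rw [e2] at a1
          refine a1.unique ?_
          convert a2 using 1
          ring))
      simp only [map_sub, map_mul, aeval_X]
      exact sub_eq_zero.mpr this
  have h4 := congrArg (algebraMap (AA k) K) (sub_eq_zero.mp ((mul_eq_zero.mp h3).resolve_right hQ))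
  rw [map_mul, map_mul, map_mul, e1, e2, map_zero] at h4
  apply mul_left_cancel₀ (mul_ne_zero (alg_ne (K := K) hb1) (alg_ne hb2))
  rw [xx]
  linear_combination h4

end Pool.Agent.H79.PG4
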