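import Pool.Agent.H79.PG4

set_option autoImplicit false
set_option linter.unusedSectionVars false

namespace Pool.Agent.H79.PG5

open PG1 PG2 PG3 PG4 MvPolynomial Filter Topology IntermediateField

variable {k : ℕ} {K : Type} [Field K] [Algebra (AA k) K] [IsFractionRing (AA k) K] [Algebra ℂ K]
  [IsScalarTower ℂ (AA k) K] {Φ Ψ : K →ₐ[ℂ] K}

variable (k) in
structure Str (Φ : K →ₐ[ℂ] K) (N : ℕ) (L : IntermediateField ℂ K) (T w : K) : Prop where
  top : adjoin ℂ ((L : Set K) ∪ {T, w}) = ⊤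
  fix : ∀ s, ∀ a ∈ L, sg k Φ s a = a
  hT : ∀ s, sg k Φ s T = T * (1 + cc K s * w) ^ N
  hw : ∀ s, sg k Φ s w = w / (1 + cc K s * w)

variable {N : ℕ} {L : IntermediateField ℂ K} {T w : K}

theorem Str.ne (h : Str k Φ N L T w) (s : ℂˣ) : 1 + cc K s * w ≠ 0 := by
  intro h0
  have := h.hw s
  rw [h0, div_zero, _root_.map_eq_zero] at this
  rw [this] at h0
  simp at h0

theorem map_cc (τ : K →ₐ[ℂ] K) (s : ℂˣ) : τ (cc K s) = cc K s := τ.commutes _

theorem Str.group (h : Str k Φ N L T w) {u v : ℂˣ} (huv : (v : ℂ) = 1 - u) (f : K) :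
    sg k Φ u (sg k Φ v f) = Φ f := by
  have e : cc K v = 1 - cc K u := by rw [cc, huv, map_sub, map_one, cc]
  have e1 : cc K 1 = 1 := by simp [cc]
  have n1 := h.ne u
  have n2 := h.ne 1
  rw [e1, one_mul] at n2
  have e2 : 1 + cc K v * (w / (1 + cc K u * w)) = (1 + w) / (1 + cc K u * w) := by
    rw [e]; field_simp; ring
  refine Eq.trans ?_ (sg_one (k := k) Φ f)
  have hf : f ∈ adjoin ℂ ((L : Set K) ∪ {T, w}) := by rw [h.top]; exact mem_top
  refine ext_adj (f := (sg k Φ u).comp (sg k Φ v)) (g := sg k Φ 1) ?_ hf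
  rintro a (ha | rfl | rfl) <;> rw [AlgHom.comp_apply]
  · rw [h.fix v a ha, h.fix u a ha, h.fix 1 a ha]
  · rw [h.hT, map_mul, map_pow, map_add, map_mul, map_one, map_cc, h.hT, h.hT, h.hw, e2, e1,
      one_mul, mul_assoc, ← mul_pow, mul_div_cancel₀ _ n1]
  · rw [h.hw, map_div₀, map_add, map_mul, map_one, map_cc, h.hw, h.hw, e2, e1, one_mul,
      div_div_div_cancel_right₀ n1]

variable (Φ) in
def Good (x : Fin k → ℂ) (f : K) : Prop := ∃ g : ℂ → ℂ, ContinuousAt g 0 ∧ Ev x f (g 0) ∧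
  ∀ᶠ z in 𝓝[≠] (0 : ℂ), ∀ s : ℂˣ, (s : ℂ) = z → Ev x (sg k Φ s f) (g z)

variable (k Φ) in
def Gen (f : K) : Prop := ∃ b : AA k, b ≠ 0 ∧ ∀ x : Fin k → ℂ, aeval x b ≠ 0 → Good Φ x f

variable (k) in
theorem ev_def (f : K) : ∃ b : AA k, b ≠ 0 ∧ ∀ x : Fin k → ℂ, aeval x b ≠ 0 → ∃ c, Ev x f c := by
  obtain ⟨a, b, hb, e⟩ := frac (k := k) f
  exact ⟨b, hb, fun x hx => ⟨_, a, b, hx, e, div_mul_cancel₀ _ hx⟩⟩

theorem ev_one {x : Fin k → ℂ} {w : K} {c : ℂ} (h : Ev x w c) (s : ℂˣ) :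
    Ev x (1 + cc K s * w) (1 + s * c) := by
  have := (ev_C (K := K) (y := x) 1).add ((ev_C (s : ℂ)).mul h)
  rwa [map_one] at this

theorem Str.gen (h : Str k Φ N L T w) (f : K) : Gen k Φ f := by
  have hf : f ∈ adjoin ℂ ((L : Set K) ∪ {T, w}) := h.top ▸ mem_top
  have two : ∀ {a b : AA k} {x : Fin k → ℂ}, aeval x (a * b) ≠ 0 →
      aeval x a ≠ 0 ∧ aeval x b ≠ 0 := fun hx => by
    rw [map_mul] at hx
    exact mul_ne_zero_iff.mp hx
  induction hf using adjoin_induction with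
  | mem a ha =>
    obtain ⟨b, hb, e⟩ := ev_def k a
    obtain ⟨b', hb', e'⟩ := ev_def k w
    refine ⟨b * b', mul_ne_zero hb hb', fun x hx => ?_⟩
    obtain ⟨c, hc⟩ := e x (two hx).1
    obtain ⟨d, hd⟩ := e' x (two hx).2
    rcases ha with ha | rfl | rfl
    · exact ⟨fun _ => c, continuousAt_const, hc, Eventually.of_forall fun z s _ => by
        rwa [h.fix s a ha]⟩
    · refine ⟨fun z => c * (1 + z * d) ^ N, by fun_prop, by simpa using hc,
        Eventually.of_forall fun z s hs => ?_⟩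
      rw [h.hT, ← hs]
      exact hc.mul ((ev_one hd s).pow N)
    · have c1 : ContinuousAt (fun z : ℂ => 1 + z * d) 0 := by fun_prop
      refine ⟨fun z => d / (1 + z * d), continuousAt_const.div c1 (by simp), by simpa using hd,
        ((c1.eventually_ne (y := 0) (by simp)).filter_mono nhdsWithin_le_nhds).mono
          fun z hz s hs => ?_⟩
      rw [h.hw]
      subst hs
      exact hd.div (ev_one hd s) hz
  | algebraMap c =>
    exact ⟨1, one_ne_zero, fun x _ => ⟨fun _ => c, continuousAt_const, ev_C c,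
      Eventually.of_forall fun z s _ => by rw [AlgHom.commutes]; exact ev_C c⟩⟩
  | add a b _ _ ha hb =>
    obtain ⟨b1, h1, e1⟩ := ha
    obtain ⟨b2, h2, e2⟩ := hb
    refine ⟨b1 * b2, mul_ne_zero h1 h2, fun x hx => ?_⟩
    obtain ⟨g1, c1, v1, t1⟩ := e1 x (two hx).1
    obtain ⟨g2, c2, v2, t2⟩ := e2 x (two hx).2
    exact ⟨fun z => g1 z + g2 z, c1.add c2, v1.add v2, (t1.and t2).mono fun z hz s hs => by
      rw [map_add]; exact (hz.1 s hs).add (hz.2 s hs)⟩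
  | mul a b _ _ ha hb =>
    obtain ⟨b1, h1, e1⟩ := ha
    obtain ⟨b2, h2, e2⟩ := hb
    refine ⟨b1 * b2, mul_ne_zero h1 h2, fun x hx => ?_⟩
    obtain ⟨g1, c1, v1, t1⟩ := e1 x (two hx).1
    obtain ⟨g2, c2, v2, t2⟩ := e2 x (two hx).2
    exact ⟨fun z => g1 z * g2 z, c1.mul c2, v1.mul v2, (t1.and t2).mono fun z hz s hs => by
      rw [map_mul]; exact (hz.1 s hs).mul (hz.2 s hs)⟩
  | inv a _ ha =>
    by_cases h0 : a = 0
    · subst h0; rwa [inv_zero]
    obtain ⟨b1, h1, e1⟩ := ha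
    obtain ⟨b2, h2, e2⟩ := ev_gen (k := k) (L := ℂ) h0
    refine ⟨b1 * b2, mul_ne_zero h1 h2, fun x hx => ?_⟩
    obtain ⟨g1, c1, v1, t1⟩ := e1 x (two hx).1
    have n1 := e2 x (two hx).2 _ v1
    exact ⟨fun z => (g1 z)⁻¹, c1.inv₀ n1, v1.inv n1,
      (t1.and ((c1.eventually_ne n1).filter_mono nhdsWithin_le_nhds)).mono fun z hz s hs => by
        rw [map_inv₀]; exact (hz.1 s hs).inv hz.2⟩

theorem Str.flow (h : Str k Φ N L T w) {P : Fin k → AA k} {Q : AA k} (hQ : Q ≠ 0)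
    (hΦ : ∀ i, Φ (xx K i) = rk K P Q i) : (∃ V, IsOpen V ∧ V.Nonempty ∧ HypV P Q V) ∧
      ∃ U, IsOpen U ∧ U.Nonempty ∧ HypU P Q U := by
  constructor
  · let W : Set ((Fin k → ℂ) × ℂ) :=
      {q | q.2 ≠ 0 ∧ 1 - q.2 ≠ 0 ∧ eval q.1 Q ≠ 0 ∧ eval (q.2 • q.1) Q ≠ 0}
    have cs : ∀ a : AA k, Continuous fun q : (Fin k → ℂ) × ℂ => eval (q.2 • q.1) a := fun a =>
      (MvPolynomial.continuous_eval a).comp (continuous_snd.smul continuous_fst)
    have hW : IsOpen W := (isOpen_ne_fun continuous_snd continuous_const).inter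
      ((isOpen_ne_fun (continuous_const.sub continuous_snd) continuous_const).inter
        ((isOpen_ne_fun ((MvPolynomial.continuous_eval Q).comp continuous_fst)
          continuous_const).inter (isOpen_ne_fun (cs Q) continuous_const)))
    have hF : ContinuousOn (fun q : (Fin k → ℂ) × ℂ =>
        eval (((1 - q.2) / q.2) • rm P Q (q.2 • q.1)) Q) W := by
      refine (MvPolynomial.continuous_eval Q).comp_continuousOn (ContinuousOn.smul
        ((continuous_const.sub continuous_snd).continuousOn.div continuous_snd.continuousOn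
          fun q hq => hq.1)
        (continuousOn_pi.mpr fun i => ?_))
      exact (cs (P i)).continuousOn.div (cs Q).continuousOn fun q hq => hq.2.2.2
    refine ⟨_, hF.isOpen_inter_preimage hW (isOpen_compl_singleton (x := 0)), ?_, ?_⟩
    · let u : ℂˣ := Units.mk0 (1 / 2) (by norm_num)
      obtain ⟨b1, h1, e1⟩ := pull (ep k K u) hQ
      obtain ⟨b2, h2, e2⟩ := pull ((ep k K u).comp Φ) hQ
      obtain ⟨x, hx⟩ := exists_ne (mul_ne_zero (mul_ne_zero hQ h1) h2)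
      simp only [map_mul, ne_eq, mul_eq_zero, not_or] at hx
      have a1 := e1 x ((u : ℂ) • x) hx.1.2 fun i => ev_ep u (ev_xx i)
      have a2 := e2 x _ hx.2 fun i => by
        rw [AlgHom.comp_apply, hΦ]; exact ev_ep u (ev_rm P a1 i)
      refine ⟨(x, 1 / 2), ⟨by norm_num, by norm_num, hx.1.1, a1⟩, ?_⟩
      show eval (((1 - 1 / 2 : ℂ) / (1 / 2)) • _) Q ≠ 0
      rw [show ((1 - 1 / 2 : ℂ) / (1 / 2)) = 1 by norm_num, one_smul]
      exact a2
    · rintro ⟨y, z⟩ ⟨⟨hz, hz', a1, a2⟩, a3⟩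
      refine ⟨hz, a1, a2, a3, funext fun i => ?_⟩
      dsimp only at hz hz' a1 a2 ⊢
      have a3' : eval (((1 - z) / z) • rm P Q (z • y)) Q ≠ 0 := a3
      have e : (1 - z) • z⁻¹ • rm P Q (z • y) = ((1 - z) / z) • rm P Q (z • y) := by
        rw [smul_smul, div_eq_mul_inv]
      have b1 := ev_comp _ (ev_sg hΦ (Units.mk0 z hz) a2)
        (ev_sg hΦ (Units.mk0 _ hz') (by rw [Units.val_mk0, Units.val_mk0, e]; exact a3') i)
      rw [h.group rfl, hΦ, Units.val_mk0, Units.val_mk0, e] at b1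
      rw [Pi.smul_apply, (ev_rm P a1 i).unique b1, Pi.smul_apply, smul_inv_smul₀ hz']
  · choose b hb e using fun i : Fin k => h.gen (xx K i)
    refine ⟨_, open_ne (Q * ∏ i, b i),
      exists_ne (mul_ne_zero hQ (Finset.prod_ne_zero_iff.mpr fun i _ => hb i)), fun x hx => ?_⟩
    have hx' : aeval x (Q * ∏ i, b i) ≠ 0 := hx
    rw [map_mul, map_prod, mul_ne_zero_iff, Finset.prod_ne_zero_iff] at hx'
    refine tendsto_pi_nhds.mpr fun i => ?_
    obtain ⟨g, c1, v1, t1⟩ := e i x (hx'.2 i (Finset.mem_univ i))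
    rw [(ev_xx i).unique v1]
    refine (c1.tendsto.mono_left nhdsWithin_le_nhds).congr'
      ((t1.and ((ev_ne hx'.1).and self_mem_nhdsWithin)).mono fun z hz => ?_)
    have hz0 : z ≠ 0 := hz.2.2
    exact (hz.1 (Units.mk0 z hz0) rfl).unique (ev_sg hΦ (Units.mk0 z hz0) hz.2.1 i)

variable (k) in
def Cj (Φ Ψ : K →ₐ[ℂ] K) (τ : K ≃ₐ[ℂ] K) : Prop :=
  (∀ i : Fin k, Hm k 1 (τ (xx K i))) ∧ ∀ f, Ψ (τ f) = τ (Φ f)

variable {τ : K ≃ₐ[ℂ] K}

theorem comm_ep (h : ∀ i : Fin k, Hm k 1 (τ (xx K i))) (l : ℂˣ) (f : K) :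
    ep k K l (τ f) = τ (ep k K l f) := by
  have : (τ : K →ₐ[ℂ] K).comp (ep k K l) = (ep k K l).comp (τ : K →ₐ[ℂ] K) :=
    hom_ext (k := k) fun i => by
      rw [AlgHom.comp_apply, AlgHom.comp_apply, ep_xx, map_smul, Algebra.smul_def]
      exact ((h i l).trans (by rw [zpow_one]; rfl)).symm
  exact (AlgHom.congr_fun this f).symm

theorem hm_map (h : ∀ i : Fin k, Hm k 1 (τ (xx K i))) {n : ℤ} {f : K} (hf : Hm k n f) :
    Hm k n (τ f) := fun l => by
  rw [comm_ep h, hf, map_mul, map_zpow₀, cc, AlgEquiv.commutes]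

theorem hm_symm (h : ∀ i : Fin k, Hm k 1 (τ (xx K i))) (i : Fin k) :
    Hm k 1 (τ.symm (xx K i)) := fun l => by
  apply τ.injective
  rw [← comm_ep h, map_mul, map_zpow₀, cc, AlgEquiv.commutes, AlgEquiv.apply_symm_apply]
  exact hm_xx i l

theorem Cj.symm (h : Cj k Φ Ψ τ) : Cj k Ψ Φ τ.symm := ⟨hm_symm h.1, fun f => by
  apply τ.injective
  rw [← h.2, AlgEquiv.apply_symm_apply, AlgEquiv.apply_symm_apply]⟩

theorem Cj.trans {Θ : K →ₐ[ℂ] K} {τ' : K ≃ₐ[ℂ] K} (h : Cj k Φ Ψ τ) (h' : Cj k Ψ Θ τ') :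
    Cj k Φ Θ (τ.trans τ') := ⟨fun i => hm_map h'.1 (h.1 i), fun f => by
  rw [AlgEquiv.trans_apply, AlgEquiv.trans_apply, h'.2, h.2]⟩

theorem Cj.sg (h : Cj k Φ Ψ τ) (s : ℂˣ) (f : K) : sg k Ψ s (τ f) = τ (sg k Φ s f) := by
  show ep k K s (Ψ (ep k K s⁻¹ (τ f))) = τ (ep k K s (Φ (ep k K s⁻¹ f)))
  rw [comm_ep h.1, h.2, comm_ep h.1]

theorem Cj.inv (h : Cj k Φ Ψ τ) {f : K} (hf : Inv k Φ f) : Inv k Ψ (τ f) := fun s => by
  rw [h.sg, hf]

theorem Str.conj (h : Str k Φ N L T w) (h' : Cj k Φ Ψ τ) :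
    Str k Ψ N (L.map (τ : K →ₐ[ℂ] K)) (τ T) (τ w) where
  top := by
    have := congrArg (IntermediateField.map (τ : K →ₐ[ℂ] K)) h.top
    rw [adjoin_map, Set.image_union, Set.image_pair, ← AlgHom.fieldRange_eq_map,
      AlgEquiv.fieldRange_eq_top] at this
    exact this
  fix := by
    rintro s _ ⟨a, ha, rfl⟩
    exact (h'.sg s a).trans (congrArg τ (h.fix s a ha))
  hT := fun s => by rw [h'.sg, h.hT]; simp [cc]
  hw := fun s => by rw [h'.sg, h.hw]; simp [cc]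

end Pool.Agent.H79.PG5
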