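import Pool.Agent.H79.PG5

set_option autoImplicit false
set_option linter.unusedSectionVars false

namespace Pool.Agent.H79.PG6

open PG1 PG2 PG3 PG4 PG5 IntermediateField

variable {k : ℕ} {K : Type} [Field K] [Algebra (AA k) K] [IsFractionRing (AA k) K] [Algebra ℂ K]
  [IsScalarTower ℂ (AA k) K] {Φ Ψ : K →ₐ[ℂ] K} {e o : Fin k}

variable (K) in
noncomputable def K0 (e : Fin k) : IntermediateField ℂ K :=
  adjoin ℂ (Set.range fun i : Fin k => xx K i / xx K e)

def Ad (e : Fin k) (L : IntermediateField ℂ K) (T : K) : Prop :=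
  Transcendental L T ∧ adjoin ℂ ((L : Set K) ∪ {T}) = K0 K e

def Md (e : Fin k) (N : ℕ) (L : IntermediateField ℂ K) (T : K) (Φ : K →ₐ[ℂ] K) : Prop :=
  (∀ a ∈ L, Φ a = a) ∧ Φ T = T * (1 + xx K e) ^ N ∧ Φ (xx K e) = xx K e / (1 + xx K e)

theorem hm0 {f : K} : Hm k 0 f ↔ ∀ l, ep k K l f = f := by simp [Hm]

theorem hm_div (i j : Fin k) : Hm k 0 (xx K i / xx K j) := by
  simpa [div_eq_mul_inv] using (hm_xx i).mul ((hm_xx (K := K) j).zpow (-1))

theorem un_inj : Function.Injective fun n => cc K (un n) := by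
  intro n m h
  have h5 : (n : ℂ) + 1 = (m : ℂ) + 1 := (algebraMap ℂ K).injective h
  exact_mod_cast add_right_cancel h5

theorem top_of_K0 {E : IntermediateField ℂ K} (h : K0 K e ≤ E) (h' : xx K e ∈ E) : E = ⊤ :=
  top_of_xx (k := k) fun i => by
    have := mul_mem (h (subset_adjoin _ _ ⟨i, rfl⟩)) h'
    rwa [div_mul_cancel₀ _ (xx_ne e)] at this

theorem mem_K0 {f : K} : f ∈ K0 K e ↔ Hm k 0 f := by
  rw [hm0]
  refine ⟨fun h l => ext_adj (g := AlgHom.id ℂ K) ?_ h, fun h => ?_⟩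
  · rintro _ ⟨i, rfl⟩
    exact hm0.mp (hm_div i e) l
  · refine fixed_mem _ (xx K e) (fun n => ep k K (un n)) (fun n a ha =>
      ext_adj (g := AlgHom.id ℂ K) ?_ ha) (fun n m hnm => un_inj (K := K) ?_) ?_ fun n => h _
    · rintro _ ⟨i, rfl⟩
      exact hm0.mp (hm_div i e) _
    · simp only [ep_xx, Algebra.smul_def] at hnm
      exact mul_right_cancel₀ (xx_ne e) hnm
    · have : adjoin ℂ ((K0 K e : Set K) ∪ {xx K e}) = ⊤ :=
        top_of_K0 (e := e) (fun a ha => subset_adjoin _ _ (Or.inl ha))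
          (subset_adjoin _ _ (Or.inr rfl))
      exact this ▸ mem_top

theorem transc {B E : Type} [CommRing B] [Field E] [Algebra B E]
    (hB : Function.Injective (algebraMap B E)) (f : E) (τ : ℕ → E →+* E)
    (hfix : ∀ n b, τ n (algebraMap B E b) = algebraMap B E b)
    (hinj : Function.Injective fun n => τ n f) : Transcendental B f := by
  rintro ⟨r, hr, hr'⟩
  apply hr
  apply Polynomial.map_injective _ hB
  rw [Polynomial.map_zero]
  apply Polynomial.eq_zero_of_infinite_isRoot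
  refine Set.infinite_of_injective_forall_mem hinj fun n => ?_
  show Polynomial.eval (τ n f) _ = 0
  rw [Polynomial.eval_map, ← map_zero (τ n), ← hr', Polynomial.aeval_def]
  refine Eq.trans ?_ (Polynomial.hom_eval₂ r _ (τ n) f).symm
  congr 1
  ext b
  exact (hfix n b).symm

theorem slice_inj {s0 : K} (hs : Sl k Φ s0) {N : ℕ} (hN : N ≠ 0) :
    Function.Injective fun n => (s0 + cc K (un n)) ^ N := by
  intro n m hnm
  have h1 : (Polynomial.X + Polynomial.C (s0 + cc K (un n))) ^ N -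
      (Polynomial.X + Polynomial.C (s0 + cc K (un m))) ^ N = 0 := by
    refine poly_eq_zero (S := {0}ᶜ) (Set.Finite.infinite_compl (Set.finite_singleton 0)) ?_
    intro z hz
    obtain ⟨t, rfl⟩ : ∃ t : ℂˣ, (t : ℂ) = z := ⟨Units.mk0 z hz, rfl⟩
    have := congrArg (sg k Φ t) hnm
    simp only [map_pow, map_add, map_cc, hs t] at this
    simp only [Polynomial.eval_sub, Polynomial.eval_pow, Polynomial.eval_add, Polynomial.eval_X,
      Polynomial.eval_C]
    rw [sub_eq_zero, add_comm _ (s0 + _), add_comm _ (s0 + _), add_right_comm s0,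
      add_right_comm s0 (cc K (un m))]
    exact this
  have h2 := congrArg (Polynomial.eval (-(s0 + cc K (un m)))) h1
  simp only [Polynomial.eval_sub, Polynomial.eval_pow, Polynomial.eval_add, Polynomial.eval_X,
    Polynomial.eval_C, neg_add_cancel, zero_pow hN, sub_zero, Polynomial.eval_zero] at h2
  apply un_inj (K := K)
  have := pow_eq_zero_iff hN |>.mp h2
  show cc K (un n) = cc K (un m)
  linear_combination this

variable {N : ℕ} {L : IntermediateField ℂ K} {T : K}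

theorem Ad.le (h : Ad e L T) : L ≤ K0 K e := fun _ ha => h.2 ▸ subset_adjoin _ _ (Or.inl ha)

theorem Ad.mem (h : Ad e L T) : T ∈ K0 K e := h.2 ▸ subset_adjoin _ _ (Or.inr rfl)

theorem Ad.ne (h : Ad e L T) : T ≠ 0 := fun h0 => h.1 (h0 ▸ isAlgebraic_zero)

theorem Ad.top' (h : Ad e L T) {E : IntermediateField ℂ K} (h1 : L ≤ E) (h2 : T ∈ E)
    (h3 : xx K e ∈ E) : E = ⊤ :=
  top_of_K0 (h.2 ▸ adjoin_le_iff.mpr (by rintro a (ha | rfl); exacts [h1 ha, h2])) h3

theorem Ad.top (h : Ad e L T) : adjoin ℂ ((L : Set K) ∪ {T, xx K e}) = ⊤ :=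
  h.top' (fun _ ha => subset_adjoin _ _ (Or.inl ha)) (subset_adjoin _ _ (by simp))
    (subset_adjoin _ _ (by simp))

theorem Ad.ext (h : Ad e L T) {f g : K →ₐ[ℂ] K} (h1 : ∀ a ∈ L, f a = g a) (h2 : f T = g T)
    (h3 : f (xx K e) = g (xx K e)) (a : K) : f a = g a :=
  ext_adj (S := (L : Set K) ∪ {T, xx K e}) (by rintro a (ha | rfl | rfl); exacts [h1 a ha, h2, h3])
    (by rw [h.top]; exact mem_top)

theorem Md.str (h : Ad e L T) (h' : Md e N L T Φ) : Str k Φ N L T (xx K e) := by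
  have e1 : ∀ s, ep k K s (1 + xx K e) = 1 + cc K s * xx K e := fun s => by
    rw [map_add, map_one, ep_xx, Algebra.smul_def, cc]
  refine ⟨h.top, fun s a ha => ?_, fun s => ?_, fun s => ?_⟩
  · have := hm0.mp (mem_K0.mp (h.le ha))
    show ep k K s (Φ (ep k K s⁻¹ a)) = a
    rw [this, h'.1 a ha, this]
  · have := hm0.mp (mem_K0.mp h.mem)
    show ep k K s (Φ (ep k K s⁻¹ T)) = _
    rw [this, h'.2.1, map_mul, map_pow, this, e1]
  · show ep k K s (Φ (ep k K s⁻¹ (xx K e))) = _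
    rw [ep_xx, map_smul, map_smul, h'.2.2, map_div₀, e1, ep_xx, ← smul_div_assoc, smul_smul]
    simp

theorem top_of {S : Set K} (h : adjoin ℂ ((L : Set K) ∪ S) = ⊤) : adjoin L S = ⊤ := by
  rw [← restrictScalars_adjoin] at h
  exact restrictScalars_eq_top_iff.mp h

def pr (T w : K) : Option Unit → K := fun o => o.elim w fun _ => T

theorem range_pr (T w : K) : Set.range (pr T w) = {T, w} := by
  ext a
  constructor
  · rintro ⟨_ | _, rfl⟩ <;> simp [pr]
  · rintro (rfl | rfl)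
    exacts [⟨some (), rfl⟩, ⟨none, rfl⟩]

theorem Ad.indep (h : Ad e L T) : AlgebraicIndependent L (pr T (xx K e)) := by
  have i1 : AlgebraicIndependent L (fun _ : Unit => T) :=
    algebraicIndependent_unique_type_iff.mpr h.1
  refine (i1.option_iff_transcendental _).mpr (transc Subtype.val_injective _
    (fun n => ep k K (un n)) (fun n b => hm0.mp (mem_K0 (e := e).mp ?_) _) fun n m hnm => ?_)
  · obtain ⟨b, hb⟩ := b
    show b ∈ K0 K e
    induction hb using Algebra.adjoin_induction with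
    | mem a ha => obtain ⟨_, rfl⟩ := ha; exact h.mem
    | algebraMap a => exact h.le a.2
    | add a b _ _ ha hb => exact add_mem ha hb
    | mul a b _ _ ha hb => exact mul_mem ha hb
  · apply un_inj (K := K)
    have : ep k K (un n) (xx K e) = ep k K (un m) (xx K e) := hnm
    simp only [ep_xx, Algebra.smul_def] at this
    exact mul_right_cancel₀ (xx_ne e) this

theorem exists_ext (h : Ad e L T) {L' : IntermediateField ℂ K} (ι : L ≃ₐ[ℂ] L') {T' w' : K}
    (h1 : adjoin ℂ ((L' : Set K) ∪ {T', w'}) = ⊤) (h2 : AlgebraicIndependent L' (pr T' w')) :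
    ∃ τ : K ≃ₐ[ℂ] K, (∀ a : L, τ a = ι a) ∧ τ T = T' ∧ τ (xx K e) = w' := by
  obtain ⟨τ, a1, a2⟩ := exists_iso ι.toRingEquiv h.indep h2
    (by rw [range_pr]; exact top_of h.top) (by rw [range_pr]; exact top_of h1)
  refine ⟨{ τ with commutes' := fun c => ?_ }, a1, a2 (some ()), a2 none⟩
  exact (a1 (algebraMap ℂ L c)).trans (congrArg Subtype.val (ι.commutes c))

theorem one_add_ne (e : Fin k) : 1 + xx K e ≠ 0 := by
  have : (1 + MvPolynomial.X e : AA k) ≠ 0 := fun h0 => by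
    have := congrArg (MvPolynomial.eval (0 : Fin k → ℂ)) h0
    simp at this
  simpa [xx] using alg_ne (K := K) this

theorem exists_model (h : Ad e L T) (N : ℕ) : ∃ Φ, Md e N L T Φ := by
  have n1 := one_add_ne (K := K) e
  have h1 : adjoin ℂ ((L : Set K) ∪ {T * (1 + xx K e) ^ N, xx K e / (1 + xx K e)}) = ⊤ := by
    set E := adjoin ℂ ((L : Set K) ∪ {T * (1 + xx K e) ^ N, xx K e / (1 + xx K e)})
    have m1 : T * (1 + xx K e) ^ N ∈ E := subset_adjoin _ _ (by simp)
    have m2 : xx K e / (1 + xx K e) ∈ E := subset_adjoin _ _ (by simp)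
    have m3 : 1 + xx K e ∈ E := by
      have := inv_mem (sub_mem (one_mem E) m2)
      rwa [one_sub_div n1, add_sub_cancel_right, inv_div, div_one] at this
    refine h.top' (fun _ ha => subset_adjoin _ _ (Or.inl ha)) ?_ ?_
    · simpa [n1] using div_mem m1 (pow_mem m3 N)
    · simpa using sub_mem m3 (one_mem E)
  obtain ⟨τ, a1, a2, a3⟩ := exists_ext h AlgEquiv.refl h1
    (indep_of_gen h.indep (by rw [range_pr]; exact top_of h1))
  exact ⟨τ, fun a ha => a1 ⟨a, ha⟩, a2, a3⟩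

theorem Md.unique (h : Ad e L T) (h1 : Md e N L T Φ) (h2 : Md e N L T Ψ) : Φ = Ψ :=
  AlgHom.ext (h.ext (fun a ha => (h1.1 a ha).trans (h2.1 a ha).symm) (h1.2.1.trans h2.2.1.symm)
    (h1.2.2.trans h2.2.2.symm))

theorem Md.sl (h : Ad e L T) (h' : Md e N L T Φ) : Sl k Φ (xx K e)⁻¹ := fun s => by
  have := xx_ne (K := K) e
  rw [map_inv₀, (h'.str h).hw, inv_div]; field_simp

theorem Md.f0 (h : Ad e L T) (h' : Md e N L T Φ) : T * xx K e ^ N ≠ 0 ∧
    Inv k Φ (T * xx K e ^ N) ∧ Hm k N (T * xx K e ^ N) := by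
  refine ⟨mul_ne_zero h.ne (pow_ne_zero _ (xx_ne e)), fun s => ?_, ?_⟩
  · rw [map_mul, map_pow, (h'.str h).hT, (h'.str h).hw, mul_assoc, ← mul_pow,
      mul_div_cancel₀ _ ((h'.str h).ne s)]
  · simpa using (mem_K0.mp h.mem).mul ((hm_xx (K := K) e).zpow N)

theorem Md.inj (h : Ad e L T) (h' : Md e N L T Φ) (hN : N ≠ 0) :
    Function.Injective fun n => sg k Φ (un n) T := by
  intro n m hnm
  apply slice_inj (h'.sl h) hN
  have n1 := xx_ne (K := K) e
  have e1 : ∀ s, ((xx K e)⁻¹ + cc K s) ^ N = (1 + cc K s * xx K e) ^ N / xx K e ^ N := fun s => by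
    rw [← div_pow]; congr 1; field_simp
  simp only [(h'.str h).hT] at hnm
  simp only [e1, mul_left_cancel₀ h.ne hnm]

theorem Md.F0 (h : Ad e L T) (h' : Md e N L T Φ) (hN : N ≠ 0) : F0 k Φ = L := by
  refine le_antisymm (fun a ha => ?_) fun a ha => ⟨fun s => (h'.str h).fix s a ha,
    mem_K0.mp (h.le ha)⟩
  exact fixed_mem L T (fun n => sg k Φ (un n)) (fun n => (h'.str h).fix _) (h'.inj h hN)
    (h.2 ▸ mem_K0.mpr ha.2) fun n => ha.1 _

theorem Md.deg (h : Ad e L T) (h' : Md e N L T Φ) {g : K} {n : ℕ} (g0 : g ≠ 0) (g1 : Inv k Φ g)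
    (g2 : Hm k n g) {l : ℂˣ} (hl : (l : ℂ) ^ N = 1) : (l : ℂ) ^ n = 1 := by
  obtain ⟨-, f1, f2⟩ := h'.f0 h
  have n1 := xx_ne (K := K) e
  set E := adjoin ℂ ((L : Set K) ∪ {T * xx K e ^ N})
  have h1 : g ∈ E := by
    refine fixed_mem E (xx K e)⁻¹ (fun n => sg k Φ (un n)) (fun n a ha =>
      ext_adj (g := AlgHom.id ℂ K) ?_ ha) (fun n m hnm => un_inj (K := K) ?_) ?_ fun n => g1 _
    · rintro a (ha | rfl)
      exacts [(h'.str h).fix _ a ha, f1 _]
    · simp only [h'.sl h _] at hnm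
      exact add_left_cancel hnm
    · set E' := adjoin ℂ ((E : Set K) ∪ {(xx K e)⁻¹})
      have m1 : xx K e ∈ E' := by
        have : (xx K e)⁻¹ ∈ E' := subset_adjoin ℂ _ (Or.inr rfl)
        simpa using inv_mem this
      have m2 : T * xx K e ^ N ∈ E' := subset_adjoin _ _ (Or.inl (subset_adjoin _ _ (Or.inr rfl)))
      rw [h.top' (E := E') (fun a ha => subset_adjoin _ _ (Or.inl (subset_adjoin _ _ (Or.inl ha))))
        (by simpa [n1] using div_mem m2 (pow_mem m1 N)) m1]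
      exact mem_top
  have h2 : ep k K l g = g := ext_adj (g := AlgHom.id ℂ K) (by
    rintro a (ha | rfl)
    · exact hm0.mp (mem_K0.mp (h.le ha)) l
    · rw [f2, zpow_natCast, cc, ← map_pow, hl, map_one, one_mul]; rfl) h1
  rw [g2, zpow_natCast, cc, ← map_pow] at h2
  apply (algebraMap ℂ K).injective
  rw [map_one]
  exact mul_right_cancel₀ g0 (h2.trans (one_mul g).symm)

theorem dvd_of {N n : ℕ} (h : ∀ l : ℂˣ, (l : ℂ) ^ N = 1 → (l : ℂ) ^ n = 1) : N ∣ n := by
  by_cases hN : N = 0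
  · subst hN
    have := h (Units.mk0 2 two_ne_zero) (pow_zero _)
    rw [Units.val_mk0] at this
    have h2 : (2 : ℕ) ^ n = 1 := by exact_mod_cast this
    simpa using h2
  · have hz := Complex.isPrimitiveRoot_exp N hN
    exact hz.dvd_of_pow_eq_one n (h (Units.mk0 _ (Complex.exp_ne_zero _)) hz.pow_eq_one)

variable {N' : ℕ} {L' : IntermediateField ℂ K} {T' : K} {τ : K ≃ₐ[ℂ] K}

theorem conj_dvd (h : Ad e L T) (m : Md e N L T Φ) (h' : Ad e L' T') (m' : Md e N' L' T' Ψ)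
    (c : Cj k Φ Ψ τ) : N' ∣ N := by
  obtain ⟨f0, f1, f2⟩ := m.f0 h
  exact dvd_of fun l hl => m'.deg h' ((_root_.map_ne_zero τ).mpr f0) (c.inv f1) (hm_map c.1 f2) hl

theorem conj_iff (h : Ad e L T) (m : Md e N L T Φ) (h' : Ad e L' T') (m' : Md e N' L' T' Ψ) :
    (∃ τ, Cj k Φ Ψ τ) ↔ N = N' ∧ (N = 0 ∨ Nonempty (L ≃ₐ[ℂ] L')) := by
  constructor
  · rintro ⟨τ, c⟩
    obtain rfl : N = N' := Nat.dvd_antisymm (conj_dvd h' m' h m c.symm) (conj_dvd h m h' m' c)
    refine ⟨rfl, or_iff_not_imp_left.mpr fun hN => ?_⟩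
    have : L.map (τ : K →ₐ[ℂ] K) = L' := by
      rw [← m.F0 h hN, ← m'.F0 h' hN]
      apply le_antisymm
      · rintro _ ⟨a, ha, rfl⟩
        exact ⟨c.inv ha.1, hm_map c.1 ha.2⟩
      · intro a ha
        exact ⟨τ.symm a, ⟨c.symm.inv ha.1, hm_map c.symm.1 ha.2⟩, τ.apply_symm_apply a⟩
    exact ⟨(L.equivMap (τ : K →ₐ[ℂ] K)).trans (equivOfEq this)⟩
  · rintro ⟨rfl, rfl | ⟨⟨ι⟩⟩⟩
    · refine ⟨AlgEquiv.refl, hm_xx, fun f => ?_⟩
      have key : ∀ a ∈ K0 K e, Ψ a = a := fun a ha => ext_adj (g := AlgHom.id ℂ K) (by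
        rintro a (ha | rfl)
        · exact m'.1 a ha
        · simpa using m'.2.1) (h'.2 ▸ ha)
      refine h.ext (fun a ha => (key a (h.le ha)).trans (m.1 a ha).symm) ?_
        (m'.2.2.trans m.2.2.symm) f
      rw [key T h.mem, m.2.1]; simp
    · obtain ⟨τ, a1, a2, a3⟩ := exists_ext h ι h'.top h'.indep
      refine ⟨τ, fun i => ?_, h.ext (f := Ψ.comp τ) (g := (τ : K →ₐ[ℂ] K).comp Φ)
        (fun a ha => ?_) ?_ ?_⟩
      · have h1 : (K0 K e).map (τ : K →ₐ[ℂ] K) ≤ K0 K e := by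
          conv_lhs => rw [← h.2, adjoin_map]
          refine adjoin_le_iff.mpr ?_
          rintro _ ⟨a, ha | rfl, rfl⟩
          · exact (a1 ⟨a, ha⟩).symm ▸ h'.le (ι ⟨a, ha⟩).2
          · exact a2.symm ▸ h'.mem
        have h2 := (mem_K0.mp (h1 ⟨_, mem_K0.mpr (hm_div i e), rfl⟩)).mul (hm_xx (K := K) e)
        rw [zero_add] at h2
        convert h2 using 1
        conv_lhs => rw [← div_mul_cancel₀ (xx K i) (xx_ne (K := K) e), map_mul, a3]
        rfl
      · show Ψ (τ a) = τ (Φ a)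
        rw [m.1 a ha, a1 ⟨a, ha⟩, m'.1 _ (ι ⟨a, ha⟩).2]
      · show Ψ (τ T) = τ (Φ T)
        rw [m.2.1, map_mul, map_pow, map_add, map_one, a2, a3, m'.2.1]
      · show Ψ (τ _) = τ (Φ _)
        rw [m.2.2, map_div₀, map_add, map_one, a3, m'.2.2]

theorem Md.ne (m : Md e N L T Φ) : Φ (xx K e) ≠ xx K e := by
  rw [m.2.2, Ne, div_eq_iff (one_add_ne e), mul_add, mul_one, left_eq_add]
  exact mul_ne_zero (xx_ne e) (xx_ne e)

variable (K) in
noncomputable def L0 (e o : Fin k) : IntermediateField ℂ K :=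
  adjoin ℂ {a | ∃ i, i ≠ o ∧ a = xx K i / xx K e}

theorem std (hoe : o ≠ e) : Ad e (L0 K e o) (xx K o / xx K e) := by
  classical
  constructor
  · have h1 : ∀ n, ∃ τ : K ≃ₐ[ℂ] K, ∀ i, τ (xx K i) =
        Function.update (xx K) o (cc K (un n) * xx K o) i := fun n => exists_aut (by
      set E := adjoin ℂ (Set.range (Function.update (xx K) o (cc K (un n) * xx K o)))
      refine top_of_xx (k := k) fun i => ?_
      have m : _ ∈ E := subset_adjoin _ _ ⟨i, rfl⟩
      by_cases hi : i = o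
      · subst hi
        rw [Function.update_self] at m
        have := div_mem m (E.algebraMap_mem (un n))
        rwa [cc, mul_div_cancel_left₀ _ (cc_ne (un n))] at this
      · rwa [Function.update_of_ne hi] at m)
    choose τ hτ using h1
    refine transc Subtype.val_injective _ (fun n => τ n) (fun n b =>
      ext_adj (f := (τ n : K →ₐ[ℂ] K)) (g := AlgHom.id ℂ K) ?_ b.2) fun n m hnm => ?_
    · rintro _ ⟨i, hi, rfl⟩
      show τ n _ = xx K i / xx K e
      rw [map_div₀, hτ, hτ, Function.update_of_ne hi, Function.update_of_ne hoe.symm]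
    · have : τ n (xx K o / xx K e) = τ m (xx K o / xx K e) := hnm
      simp only [map_div₀, hτ, Function.update_of_ne hoe.symm, Function.update_self] at this
      exact un_inj (mul_right_cancel₀ (xx_ne o) ((div_left_inj' (xx_ne e)).mp this))
  · apply le_antisymm
    · refine adjoin_le_iff.mpr ?_
      rintro a (ha | rfl)
      · refine (adjoin_le_iff.mpr ?_ : L0 K e o ≤ K0 K e) ha
        rintro _ ⟨i, -, rfl⟩
        exact subset_adjoin _ _ ⟨i, rfl⟩
      · exact subset_adjoin _ _ ⟨o, rfl⟩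
    · refine adjoin_le_iff.mpr ?_
      rintro _ ⟨i, rfl⟩
      by_cases hi : i = o
      · exact subset_adjoin _ _ (Or.inr (by rw [hi]; rfl))
      · exact subset_adjoin _ _ (Or.inl (subset_adjoin _ _ ⟨i, hi, rfl⟩))

theorem std_val (m : Md e N (L0 K e o) (xx K o / xx K e) Φ) (i : Fin k) :
    Φ (xx K i) = if i = o then xx K o * (xx K e + 1) ^ ((N : ℤ) - 1)
      else xx K i / (xx K e + 1) := by
  have n1 := xx_ne (K := K) e
  have n2 := one_add_ne (K := K) e
  rw [← div_mul_cancel₀ (xx K i) n1, map_mul, m.2.2, add_comm (xx K e)]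
  split_ifs with hi
  · rw [hi, m.2.1, zpow_sub_one₀ n2, zpow_natCast]; field_simp
  · rw [m.1 _ (subset_adjoin _ _ ⟨i, hi, rfl⟩)]; field_simp

end Pool.Agent.H79.PG6
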