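import Pool.Agent.H79.PG6

set_option autoImplicit false
set_option linter.unusedSectionVars false

namespace Pool.Agent.H79.PG7

open PG1 PG2 PG3 PG4 PG5 PG6 IntermediateField

variable {k : ℕ} {K : Type} [Field K] [Algebra (AA k) K] [IsFractionRing (AA k) K] [Algebra ℂ K]
  [IsScalarTower ℂ (AA k) K] {Φ Ψ : K →ₐ[ℂ] K} {e o : Fin k}

theorem move {s0 : K} (hs0 : s0 ≠ 0) (hs : Hm k (-1) s0) (e : Fin k) : ∃ τ : K ≃ₐ[ℂ] K,
    (∀ i : Fin k, Hm k 1 (τ (xx K i))) ∧ τ (xx K e) = s0⁻¹ ∧ ∀ a ∈ K0 K e, τ a = a := by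
  have n1 := xx_ne (K := K) e
  obtain ⟨τ, hτ⟩ := exists_aut (y := fun i : Fin k => xx K i / xx K e * s0⁻¹) (by
    set E := adjoin ℂ (Set.range fun i : Fin k => xx K i / xx K e * s0⁻¹)
    have m : ∀ i, xx K i / xx K e * s0⁻¹ ∈ E := fun i => subset_adjoin _ _ ⟨i, rfl⟩
    have m1 : s0⁻¹ ∈ E := by simpa [n1] using m e
    have m2 : K0 K e ≤ E := adjoin_le_iff.mpr (by
      rintro _ ⟨i, rfl⟩
      simpa [hs0] using div_mem (m i) m1)
    refine top_of_K0 m2 ?_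
    have := mul_mem (m2 (mem_K0.mpr (by simpa using (hm_xx (K := K) e).mul hs))) m1
    rwa [mul_inv_cancel_right₀ hs0] at this)
  have h1 : τ (xx K e) = s0⁻¹ := by rw [hτ, div_self n1, one_mul]
  refine ⟨τ, fun i => ?_, h1, fun a ha =>
    ext_adj (f := (τ : K →ₐ[ℂ] K)) (g := AlgHom.id ℂ K) ?_ ha⟩
  · rw [hτ]
    simpa using (hm_div (K := K) i e).mul (hs.zpow (-1))
  · rintro _ ⟨i, rfl⟩
    show τ _ = xx K i / xx K e
    rw [map_div₀, h1, hτ, mul_div_cancel_right₀ _ (inv_ne_zero hs0)]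

theorem classify (hoe : o ≠ e) {s0 : K} (hs : Sl k Φ s0) (hs' : Hm k (-1) s0)
    (h : (∀ i : Fin k, Inv k Φ (xx K i * s0)) ∨ ∃ (N : ℕ) (f : K), N ≠ 0 ∧ f ≠ 0 ∧ Inv k Φ f ∧
      Hm k N f ∧ adjoin ℂ ((F0 k Φ : Set K) ∪ {f, s0}) = ⊤) :
    ∃ N L T Ψ τ, Ad e L T ∧ Md e N L T Ψ ∧ Cj k Φ Ψ τ := by
  have hs0 : s0 ≠ 0 := by
    rintro rfl
    have := hs 1
    rw [map_zero, zero_add] at this
    exact cc_ne 1 this.symm
  obtain ⟨τ, t1, t2, t3⟩ := move hs0 hs' e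
  have t4 : ∀ a ∈ K0 K e, τ.symm a = a := fun a ha => by
    rw [AlgEquiv.symm_apply_eq, t3 a ha]
  have e1 : Φ s0 = s0 + 1 := by rw [← sg_one (k := k), hs]; simp [cc]
  have e4 : s0 + 1 ≠ 0 := by rw [← e1]; exact (_root_.map_ne_zero Φ).mpr hs0
  have e5 : 1 + s0⁻¹ = (s0 + 1) / s0 := by field_simp
  have key : ∀ N L T, Ad e L T → (∀ a ∈ L, Φ a = a) → Φ T = T * (1 + s0⁻¹) ^ N →
      ∃ N L T Ψ τ, Ad e L T ∧ Md e N L T Ψ ∧ Cj k Φ Ψ τ := by
    intro N L T h1 h2 h3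
    refine ⟨N, L, T, (τ.symm : K →ₐ[ℂ] K).comp (Φ.comp (τ : K →ₐ[ℂ] K)), τ.symm, h1,
      ⟨fun a ha => ?_, ?_, ?_⟩, hm_symm t1, fun f => by simp⟩
    · show τ.symm (Φ (τ a)) = a
      rw [t3 a (h1.le ha), h2 a ha, t4 a (h1.le ha)]
    · show τ.symm (Φ (τ T)) = _
      rw [t3 T h1.mem, h3, ← t2, map_mul, map_pow, map_add, map_one, AlgEquiv.symm_apply_apply,
        t4 T h1.mem]
    · show τ.symm (Φ (τ _)) = _
      rw [AlgEquiv.symm_apply_eq, map_div₀, map_add, map_one, t2, map_inv₀, e1, e5]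
      field_simp
  rcases h with h | ⟨N, f, hN, hf, f1, f2, htop⟩
  · have h1 : ∀ a ∈ K0 K e, Φ a = a := fun a ha => ext_adj (g := AlgHom.id ℂ K) (by
      rintro _ ⟨i, rfl⟩
      show Φ (xx K i / xx K e) = xx K i / xx K e
      rw [← mul_div_mul_right _ _ hs0, ← sg_one (k := k), map_div₀, h i, h e]) ha
    exact key 0 _ _ (std hoe) (fun a ha => h1 a ((std hoe).le ha))
      (by rw [h1 _ (std hoe).mem, pow_zero, mul_one])
  · have hT : Hm k 0 (f * s0 ^ N) := by simpa using f2.mul (hs'.zpow N)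
    refine key N (F0 k Φ) (f * s0 ^ N) ⟨?_, le_antisymm ?_ fun a ha => ?_⟩
      (fun a ha => (sg_one (k := k) Φ a).symm.trans (ha.1 1)) ?_
    · refine transc Subtype.val_injective _ (fun n => sg k Φ (un n)) (fun n b => b.2.1 _)
        fun n m hnm => slice_inj hs hN ?_
      have : sg k Φ (un n) (f * s0 ^ N) = sg k Φ (un m) (f * s0 ^ N) := hnm
      simp only [map_mul, map_pow, f1 _, hs _] at this
      exact mul_left_cancel₀ hf this
    · refine adjoin_le_iff.mpr ?_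
      rintro a (ha | rfl)
      exacts [mem_K0.mpr ha.2, mem_K0.mpr hT]
    · set E := adjoin ℂ ((F0 k Φ : Set K) ∪ {f * s0 ^ N})
      refine fixed_mem E s0 (fun n => ep k K (un n)) (fun n a ha =>
        ext_adj (g := AlgHom.id ℂ K) ?_ ha) (fun n m hnm => un_inj (K := K) ?_) ?_
        fun n => hm0.mp (mem_K0.mp ha) _
      · rintro a (ha | rfl)
        exacts [hm0.mp ha.2 _, hm0.mp hT _]
      · simp only [hs' _, zpow_neg_one] at hnm
        exact inv_injective (mul_right_cancel₀ hs0 hnm)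
      · refine (adjoin_le_iff.mpr ?_ : adjoin ℂ ((F0 k Φ : Set K) ∪ {f, s0}) ≤ _)
          (by rw [htop]; exact mem_top)
        have m1 : s0 ∈ adjoin ℂ ((E : Set K) ∪ {s0}) := subset_adjoin _ _ (Or.inr rfl)
        rintro a (ha | rfl | rfl)
        · exact subset_adjoin _ _ (Or.inl (subset_adjoin _ _ (Or.inl ha)))
        · have m2 : a * s0 ^ N ∈ adjoin ℂ ((E : Set K) ∪ {s0}) :=
            subset_adjoin _ _ (Or.inl (subset_adjoin _ _ (Or.inr rfl)))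
          have := div_mem m2 (pow_mem m1 N)
          rwa [mul_div_cancel_right₀ _ (pow_ne_zero _ hs0)] at this
        · exact m1
    · rw [map_mul, map_pow, e1, ← sg_one (k := k), f1, e5, mul_assoc, ← mul_pow,
        mul_div_cancel₀ _ hs0]

theorem flow_classify (hoe : o ≠ e) {P : Fin k → AA k} {Q : AA k} {V : Set ((Fin k → ℂ) × ℂ)}
    {U : Set (Fin k → ℂ)} (hQ : Q ≠ 0) (hne0 : rk K P Q ≠ xx K) (hV : IsOpen V) (hne : V.Nonempty)
    (h : HypV P Q V) (hU : IsOpen U) (hne' : U.Nonempty) (h' : HypU P Q U) :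
    ∃ (Φ : K →ₐ[ℂ] K), (∀ i, Φ (xx K i) = rk K P Q i) ∧
      ∃ N L T Ψ τ, Ad e L T ∧ Md e N L T Ψ ∧ Cj k Φ Ψ τ := by
  have hdom := dominant (K := K) hQ hV hne h hU hne' h'
  have hΦ := liftK_xx hdom
  refine ⟨_, hΦ, ?_⟩
  choose p q hpq using data hQ hΦ hU hne' h'
  obtain ⟨s0, a1, a2, a3⟩ := main hpq ((snd_inf hV hne).sdiff (Set.finite_singleton 1))
    (group hΦ hV h) (fun h0 => hne0 (funext fun i => (hΦ i).symm.trans (h0 i)))
  exact classify hoe a1 a2 a3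

theorem fin_gen {L : IntermediateField ℂ K} {T : K} (h : Ad e L T) :
    ∃ S : Finset K, (∀ a ∈ S, a ∈ L) ∧ L ≤ adjoin ℂ (S : Set K) := by
  classical
  have h1 : ∀ i : Fin k, ∃ S : Finset K, (S : Set K) ⊆ (L : Set K) ∪ {T} ∧
      xx K i / xx K e ∈ adjoin ℂ (S : Set K) := fun i =>
    exists_finset_of_mem_adjoin (h.2 ▸ mem_K0.mpr (hm_div i e))
  choose S hS hS' using h1
  let S' := (Finset.univ.biUnion S).erase T
  have h2 : ∀ a ∈ S', a ∈ L := by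
    intro a ha
    obtain ⟨h3, h4⟩ := Finset.mem_erase.mp ha
    obtain ⟨i, -, hi⟩ := Finset.mem_biUnion.mp h4
    exact (hS i hi).resolve_right h3
  refine ⟨S', h2, fun a ha => ?_⟩
  obtain ⟨Φ, m⟩ := exists_model h 1
  refine fixed_mem _ T (fun n => sg k Φ (un n)) (fun n b hb => (m.str h).fix _ b
    ((adjoin_le_iff.mpr h2 : adjoin ℂ (S' : Set K) ≤ L) hb)) (m.inj h one_ne_zero)
    ((adjoin_le_iff.mpr ?_ : K0 K e ≤ _) (h.le ha)) fun n => (m.str h).fix _ a ha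
  rintro _ ⟨i, rfl⟩
  refine (adjoin_le_iff.mpr fun b hb => ?_ : adjoin ℂ (S i : Set K) ≤ _) (hS' i)
  by_cases hb' : b = T
  · exact subset_adjoin _ _ (Or.inr hb')
  · exact subset_adjoin _ _ (Or.inl (subset_adjoin _ _ (Finset.mem_erase.mpr ⟨hb',
      Finset.mem_biUnion.mpr ⟨i, Finset.mem_univ i, hb⟩⟩)))

theorem three {K : Type} [Field K] [Algebra (AA 3) K] [IsFractionRing (AA 3) K] [Algebra ℂ K]
    [IsScalarTower ℂ (AA 3) K] {L : IntermediateField ℂ K} {T : K} (h : Ad (2 : Fin 3) L T) :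
    Nonempty (L ≃ₐ[ℂ] L0 K (2 : Fin 3) 0) := by
  obtain ⟨S, h1, h2⟩ := fin_gen h
  obtain ⟨Φ, m⟩ := exists_model h 1
  obtain ⟨f0, f1, f2⟩ := m.f0 h
  have hd := hdep rfl one_ne_zero f0 f1 f2 (m.sl h)
  rw [m.F0 h one_ne_zero] at hd
  obtain ⟨u, hu, -, hu'⟩ := luroth 3 L hd (fun c : S => c.1) fun c => h1 c.1 c.2
  have hL : L = adjoin ℂ {u} := le_antisymm
    (h2.trans (adjoin_le_iff.mpr fun a ha => hu' ⟨a, ha⟩)) (adjoin_simple_le_iff.mpr hu)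
  have n1 := xx_ne (K := K) (2 : Fin 3)
  obtain ⟨τ, hτ⟩ := exists_aut (k := 3) (y := ![T * xx K (2 : Fin 3), u * xx K (2 : Fin 3),
    xx K (2 : Fin 3)]) (by
    set E := adjoin ℂ (Set.range ![T * xx K (2 : Fin 3), u * xx K (2 : Fin 3), xx K (2 : Fin 3)])
    have m0 : T * xx K (2 : Fin 3) ∈ E := subset_adjoin _ _ ⟨0, rfl⟩
    have m1 : u * xx K (2 : Fin 3) ∈ E := subset_adjoin _ _ ⟨1, rfl⟩
    have m2 : xx K (2 : Fin 3) ∈ E := subset_adjoin _ _ ⟨2, rfl⟩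
    refine h.top' (hL ▸ adjoin_simple_le_iff.mpr ?_) ?_ m2
    · simpa [n1] using div_mem m1 m2
    · simpa [n1] using div_mem m0 m2)
  have : (L0 K (2 : Fin 3) 0).map (τ : K →ₐ[ℂ] K) = L := by
    have a1 : τ (xx K (1 : Fin 3) / xx K (2 : Fin 3)) = u := by
      rw [map_div₀, hτ, hτ]; simp [n1]
    rw [L0, adjoin_map]
    apply le_antisymm
    · refine adjoin_le_iff.mpr ?_
      rintro _ ⟨_, ⟨i, hi, rfl⟩, rfl⟩
      fin_cases i
      · exact absurd rfl hi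
      · exact a1.symm ▸ hu
      · show τ (xx K (2 : Fin 3) / xx K (2 : Fin 3)) ∈ L
        rw [div_self n1, map_one]; exact one_mem L
    · rw [hL]
      exact adjoin_simple_le_iff.mpr (subset_adjoin _ _ ⟨_, ⟨1, by decide, rfl⟩, a1⟩)
  exact ⟨(((L0 K (2 : Fin 3) 0).equivMap (τ : K →ₐ[ℂ] K)).trans (equivOfEq this)).symm⟩

end Pool.Agent.H79.PG7
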