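import Mathlib

set_option autoImplicit false

namespace Pool.Agent.H79.PGDefs

open MvPolynomial

/-- The field of rational functions on `ℂ^k`. -/
abbrev Rf (k : ℕ) := FractionRing (MvPolynomial (Fin k) ℂ)

variable {k n : ℕ}

/-- The coordinate functions. -/
noncomputable def x (i : Fin k) : Rf k := algebraMap (MvPolynomial (Fin k) ℂ) (Rf k) (X i)

/-- The map `p ↦ (P_i(p) / Q(p))_i`. -/
noncomputable def val (P : Fin k → MvPolynomial (Fin k) ℂ) (Q : MvPolynomial (Fin k) ℂ)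
    (p : Fin k → ℂ) : Fin k → ℂ := fun i => eval p (P i) / eval p Q

/-- Rational projective flow: `φ = P / Q`, the projective translation equation holds on a nonempty
open set of pairs `(p, z)` where all terms are defined, and `φ(z p) / z → p` as `z → 0` for `p`
in a nonempty open set. -/
def IsFlow (φ : Fin k → Rf k) : Prop :=
  ∃ (P : Fin k → MvPolynomial (Fin k) ℂ) (Q : MvPolynomial (Fin k) ℂ), Q ≠ 0 ∧
    (∀ i, φ i = algebraMap _ (Rf k) (P i) / algebraMap _ (Rf k) Q) ∧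
    (∃ V : Set ((Fin k → ℂ) × ℂ), IsOpen V ∧ V.Nonempty ∧
      ∀ q ∈ V, q.2 ≠ 0 ∧ eval q.1 Q ≠ 0 ∧ eval (q.2 • q.1) Q ≠ 0 ∧
        eval (((1 - q.2) / q.2) • val P Q (q.2 • q.1)) Q ≠ 0 ∧
        (1 - q.2) • val P Q q.1 = val P Q (((1 - q.2) / q.2) • val P Q (q.2 • q.1))) ∧
    ∃ U : Set (Fin k → ℂ), IsOpen U ∧ U.Nonempty ∧
      ∀ p ∈ U, Filter.Tendsto (fun z : ℂ => z⁻¹ • val P Q (z • p))
        (nhdsWithin (0 : ℂ) {0}ᶜ) (nhds p)

/-- `Φ` is the substitution `f ↦ f ∘ φ`. -/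
def Subst (φ : Fin k → Rf k) (Φ : Rf k →ₐ[ℂ] Rf k) : Prop := ∀ i, Φ (x i) = φ i

/-- `f (t x) = t f (x)` for all `t ≠ 0`. -/
def Hom1 (f : Rf k) : Prop :=
  ∀ (t : ℂ) (ε : Rf k →ₐ[ℂ] Rf k), t ≠ 0 → Subst (fun i => t • x i) ε → ε f = t • f

/-- `ℓ ∘ ψ = φ ∘ ℓ` for a 1-homogeneous birational map `ℓ = (τ x_i)_i`, where `τ` is the
substitution automorphism `f ↦ f ∘ ℓ`. -/
def Conj (φ ψ : Fin k → Rf k) : Prop :=
  ∃ (τ : Rf k ≃ₐ[ℂ] Rf k) (Φ Ψ : Rf k →ₐ[ℂ] Rf k), (∀ i, Hom1 (τ (x i))) ∧ Subst φ Φ ∧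
    Subst ψ Ψ ∧ ∀ f, Ψ (τ f) = τ (Φ f)

/-- The last coordinate. -/
noncomputable def w (n : ℕ) : Rf (n + 2) := x (Fin.last (n + 1))

/-- The field `ℂ(x_i / w)` of rational functions homogeneous of degree 0. -/
noncomputable def K0 (n : ℕ) : IntermediateField ℂ (Rf (n + 2)) :=
  IntermediateField.adjoin ℂ (Set.range fun i => x i / w n)

/-- `T` is transcendental over the subfield `L`, and `L(T) = K0`. -/
def Adm (L : IntermediateField ℂ (Rf (n + 2))) (T : Rf (n + 2)) : Prop :=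
  Transcendental L T ∧ IntermediateField.adjoin ℂ ((L : Set (Rf (n + 2))) ∪ {T}) = K0 n

/-- `a ∘ ψ = a` for `a ∈ L`, `T ∘ ψ = T (1 + w)^N` and `w ∘ ψ = w / (1 + w)`. -/
def Model (N : ℕ) (L : IntermediateField ℂ (Rf (n + 2))) (T : Rf (n + 2))
    (ψ : Fin (n + 2) → Rf (n + 2)) : Prop :=
  ∃ Ψ, Subst ψ Ψ ∧ (∀ a ∈ L, Ψ a = a) ∧ Ψ T = T * (1 + w n) ^ N ∧ Ψ (w n) = w n / (1 + w n)

/-- The purely transcendental field `ℂ(x_i / w : i ≠ 0)`. -/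
noncomputable def L0 (n : ℕ) : IntermediateField ℂ (Rf (n + 2)) :=
  IntermediateField.adjoin ℂ {a | ∃ i, i ≠ 0 ∧ a = x i / w n}

/-- `ψ_N = (x_0 (w + 1)^(N - 1), x_1 / (w + 1), …, w / (w + 1))`. -/
noncomputable def psi (n N : ℕ) : Fin (n + 2) → Rf (n + 2) := fun i =>
  if i = 0 then x 0 * (w n + 1) ^ ((N : ℤ) - 1) else x i / (w n + 1)

end Pool.Agent.H79.PGDefs
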