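import Pool.Agent.H79.PG7
import Pool.Agent.H79.PGDefs

set_option autoImplicit false

namespace Pool.Agent.H79.PG8

open PG1 PG2 PG3 PG4 PG5 PG6 PG7 IntermediateField PGDefs

variable {k n : ℕ}

theorem hom1_iff {f : Rf k} : Hom1 f ↔ Hm k 1 f := by
  constructor
  · intro h l
    rw [h l (ep k (Rf k) l) l.ne_zero (ep_xx l), zpow_one, Algebra.smul_def]; rfl
  · intro h t ε ht hε
    have : ε = ep k (Rf k) (Units.mk0 t ht) := hom_ext (k := k) fun i => (hε i).trans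
      (ep_xx (Units.mk0 t ht) i).symm
    rw [this, h, zpow_one, Algebra.smul_def]; rfl

theorem conj_iff' {φ ψ : Fin k → Rf k} {Φ Ψ : Rf k →ₐ[ℂ] Rf k} (h1 : Subst φ Φ) (h2 : Subst ψ Ψ) :
    Conj φ ψ ↔ ∃ τ, Cj k Φ Ψ τ := by
  constructor
  · rintro ⟨τ, Φ', Ψ', a1, a2, a3, a4⟩
    obtain rfl : Φ' = Φ := hom_ext (k := k) fun i => (a2 i).trans (h1 i).symm
    obtain rfl : Ψ' = Ψ := hom_ext (k := k) fun i => (a3 i).trans (h2 i).symm
    exact ⟨τ, fun i => hom1_iff.mp (a1 i), a4⟩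
  · rintro ⟨τ, a1, a2⟩
    exact ⟨τ, Φ, Ψ, fun i => hom1_iff.mpr (a1 i), h1, h2, a2⟩

theorem conj_trans {φ ψ θ : Fin k → Rf k} (h : Conj φ ψ) (h' : Conj ψ θ) : Conj φ θ := by
  obtain ⟨_, Φ, Ψ, -, a1, a2, -⟩ := id h
  obtain ⟨_, _, Θ, -, -, a3, -⟩ := id h'
  obtain ⟨τ, c⟩ := (conj_iff' a1 a2).mp h
  obtain ⟨τ', c'⟩ := (conj_iff' a2 a3).mp h'
  exact (conj_iff' a1 a3).mpr ⟨_, c.trans c'⟩

theorem id_flow : IsFlow (x : Fin k → Rf k) := by
  have h : ∀ p : Fin k → ℂ, val MvPolynomial.X 1 p = p := fun p => by funext i; simp [PGDefs.val]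
  refine ⟨MvPolynomial.X, 1, one_ne_zero, fun i => by simp [x], ⟨{q | q.2 ≠ 0},
    isOpen_ne_fun continuous_snd continuous_const, ⟨(0, 1), one_ne_zero⟩, fun q hq => ?_⟩,
    Set.univ, isOpen_univ, Set.univ_nonempty, fun p _ => ?_⟩
  · have hq' : q.2 ≠ 0 := hq
    refine ⟨hq, by simp, by simp, by simp, ?_⟩
    rw [h, h, h, smul_smul, div_mul_cancel₀ _ hq']
  · refine tendsto_const_nhds.congr' (Filter.mem_of_superset self_mem_nhdsWithin fun z hz => ?_)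
    have hz' : z ≠ 0 := hz
    show p = z⁻¹ • val MvPolynomial.X 1 (z • p)
    rw [h, inv_smul_smul₀ hz']

theorem zero_ne : (0 : Fin (n + 2)) ≠ Fin.last (n + 1) := (Fin.last_pos (n := n)).ne

theorem part1 (φ : Fin (n + 2) → Rf (n + 2)) : IsFlow φ ↔
    φ = x ∨ ∃ N L T ψ, Adm L T ∧ Model N L T ψ ∧ Conj φ ψ := by
  constructor
  · rintro ⟨P, Q, hQ, hφ, ⟨V, hV, hV', h⟩, U, hU, hU', h'⟩
    obtain rfl : φ = rk (Rf (n + 2)) P Q := funext hφ
    refine or_iff_not_imp_left.mpr fun hne => ?_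
    obtain ⟨Φ, hΦ, N, L, T, Ψ, τ, a1, a2, a3⟩ :=
      flow_classify (K := Rf (n + 2)) zero_ne hQ hne hV hV' h hU hU' h'
    exact ⟨N, L, T, fun i => Ψ (x i), a1, ⟨Ψ, fun _ => rfl, a2⟩,
      (conj_iff' hΦ fun _ => rfl).mpr ⟨τ, a3⟩⟩
  · rintro (rfl | ⟨N, L, T, ψ, a1, ⟨Ψ, a2, a3⟩, c⟩)
    · exact id_flow
    obtain ⟨_, Φ, -, -, b1, -⟩ := id c
    obtain ⟨τ, c'⟩ := (conj_iff' b1 a2).mp c
    obtain ⟨P, Q, hQ, hP⟩ := exists_rk φ
    have := ((Md.str (e := Fin.last (n + 1)) a1 a3).conj c'.symm).flow hQ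
      fun i => (b1 i).trans (congrFun hP i).symm
    exact ⟨P, Q, hQ, fun i => (congrFun hP i).symm, this.1, this.2⟩

theorem part2 (N : ℕ) {L : IntermediateField ℂ (Rf (n + 2))} {T : Rf (n + 2)} (h : Adm L T) :
    ∃! ψ, Model N L T ψ := by
  obtain ⟨Ψ, m⟩ := exists_model (e := Fin.last (n + 1)) h N
  refine ⟨fun i => Ψ (x i), ⟨Ψ, fun _ => rfl, m⟩, ?_⟩
  rintro ψ ⟨Φ, a1, a2⟩
  funext i
  rw [← a1 i, Md.unique (e := Fin.last (n + 1)) h a2 m]

theorem part3 {N N' : ℕ} {L L' : IntermediateField ℂ (Rf (n + 2))} {T T' : Rf (n + 2)}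
    {ψ ψ' : Fin (n + 2) → Rf (n + 2)} (h : Adm L T) (m : Model N L T ψ) (h' : Adm L' T')
    (m' : Model N' L' T' ψ') : Conj ψ ψ' ↔ N = N' ∧ (N = 0 ∨ Nonempty (L ≃ₐ[ℂ] L')) := by
  obtain ⟨Φ, a1, a2⟩ := m
  obtain ⟨Ψ, b1, b2⟩ := m'
  rw [conj_iff' a1 b1]
  exact conj_iff (e := Fin.last (n + 1)) h a2 h' b2

theorem part4 {N : ℕ} {L : IntermediateField ℂ (Rf (n + 2))} {T : Rf (n + 2)}
    {ψ : Fin (n + 2) → Rf (n + 2)} (m : Model N L T ψ) : ¬Conj x ψ := by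
  obtain ⟨Ψ, a1, a2⟩ := m
  rw [conj_iff' (φ := x) (Φ := AlgHom.id ℂ _) (fun _ => rfl) a1]
  rintro ⟨τ, -, c⟩
  apply Md.ne (e := Fin.last (n + 1)) a2
  simpa using c (τ.symm (xx _ (Fin.last (n + 1))))

theorem part5 : Adm (PGDefs.L0 n) (x 0 / w n) := std zero_ne

theorem part6 (N : ℕ) : Model N (PGDefs.L0 n) (x 0 / w n) (psi n N) := by
  obtain ⟨Ψ, m⟩ := exists_model (std (K := Rf (n + 2)) (zero_ne (n := n))) N
  exact ⟨Ψ, std_val m, m⟩

theorem part7 : (∀ φ : Fin (n + 2) → Rf (n + 2), IsFlow φ → φ = x ∨ ∃ N, Conj φ (psi n N)) ↔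
    ∀ (L : IntermediateField ℂ (Rf (n + 2))) T, Adm L T → Nonempty (L ≃ₐ[ℂ] PGDefs.L0 n) := by
  constructor
  · intro h L T a
    obtain ⟨ψ, m, -⟩ := part2 1 a
    have c : Conj ψ ψ := (part3 a m a m).mpr ⟨rfl, Or.inr ⟨AlgEquiv.refl⟩⟩
    rcases h ψ ((part1 ψ).mpr (Or.inr ⟨1, L, T, ψ, a, m, c⟩)) with e | ⟨N, c'⟩
    · exact absurd (e ▸ c) (e ▸ part4 m)
    · exact ((part3 a m part5 (part6 N)).mp c').2.resolve_left one_ne_zero
  · intro h φ hφ
    rcases (part1 φ).mp hφ with e | ⟨N, L, T, ψ, a, m, c⟩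
    · exact Or.inl e
    · exact Or.inr ⟨N, conj_trans c ((part3 a m part5 (part6 N)).mpr ⟨rfl, Or.inr (h L T a)⟩)⟩

theorem K0_equiv : Nonempty (Rf (n + 1) ≃ₐ[ℂ] PGDefs.K0 n) := by
  have n1 : w n ≠ 0 := xx_ne _
  let y : Fin (n + 2) → Rf (n + 2) := Fin.lastCases (w n) fun j => x j.castSucc / w n
  have hr : adjoin ℂ (Set.range fun j : Fin (n + 1) => x j.castSucc / w n) = PGDefs.K0 n := by
    refine le_antisymm (adjoin.mono _ _ _ (by rintro _ ⟨j, rfl⟩; exact ⟨_, rfl⟩))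
      (adjoin_le_iff.mpr ?_)
    rintro _ ⟨i, rfl⟩
    induction i using Fin.lastCases with
    | last =>
      show w n / w n ∈ _
      rw [div_self n1]; exact one_mem _
    | cast j => exact subset_adjoin _ _ ⟨j, rfl⟩
  have h1 : AlgebraicIndependent ℂ y := indep_of_gen (indep_xx (K := Rf (n + 2)))
    (top_of_K0 (e := Fin.last (n + 1)) (le_trans hr.ge (adjoin.mono _ _ _ (by
      rintro _ ⟨j, rfl⟩; exact ⟨j.castSucc, by simp [y]⟩)))
      (subset_adjoin _ _ ⟨Fin.last _, by simp [y]; rfl⟩))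
  have h2 : AlgebraicIndependent ℂ fun j : Fin (n + 1) => x j.castSucc / w n := by
    convert h1.comp Fin.castSucc (Fin.castSucc_injective _) using 1
    funext j; simp [y]
  exact ⟨h2.aevalEquivField.trans (equivOfEq hr)⟩

theorem part8 (F : Type) [Field F] [Algebra ℂ F] :
    (∃ (L : IntermediateField ℂ (Rf (n + 2))) (T : Rf (n + 2)), Adm L T ∧ Nonempty (L ≃ₐ[ℂ] F)) ↔
      Nonempty (RatFunc F ≃ₐ[ℂ] Rf (n + 1)) := by
  obtain ⟨e0⟩ := K0_equiv (n := n)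
  constructor
  · rintro ⟨L, T, a, ⟨e⟩⟩
    have e1 := (RatFunc.algEquivOfTranscendental T a.1).restrictScalars ℂ
    have e2 : (restrictScalars ℂ (adjoin L {T})) ≃ₐ[ℂ] PGDefs.K0 n :=
      equivOfEq ((restrictScalars_adjoin _ _ _).trans a.2)
    have e3 : RatFunc F ≃ₐ[ℂ] RatFunc L :=
      IsFractionRing.algEquivOfAlgEquiv (Polynomial.mapAlgEquiv e.symm)
    exact ⟨e3.trans ((e1.trans e2).trans e0.symm)⟩
  · rintro ⟨e⟩
    let j : RatFunc F →ₐ[ℂ] Rf (n + 2) := (PGDefs.K0 n).val.comp (e.trans e0)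
    let c : F →ₐ[ℂ] RatFunc F := IsScalarTower.toAlgHom ℂ F (RatFunc F)
    let e1 : F ≃ₐ[ℂ] (j.comp c).fieldRange := AlgEquiv.ofInjectiveField (j.comp c)
    refine ⟨(j.comp c).fieldRange, j RatFunc.X, ⟨fun h => ?_, ?_⟩, ⟨e1.symm⟩⟩
    · refine RatFunc.transcendental_X (K := F) ?_
      exact IsAlgebraic.of_ringHom_of_comp_eq e1.toRingHom j.toRingHom h e1.surjective
        j.injective (by ext; rfl)
    · have h1 : adjoin ℂ ((c.fieldRange : Set (RatFunc F)) ∪ {RatFunc.X}) = ⊤ := by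
        rw [← restrictScalars_adjoin, restrictScalars_eq_top_iff, eq_top_iff]
        intro g _
        rw [mem_adjoin_simple_iff]
        have : ∀ p : Polynomial F, Polynomial.aeval RatFunc.X
            (p.map (AlgEquiv.ofInjectiveField c).toRingHom) = algebraMap _ (RatFunc F) p := by
          intro p
          rw [← RatFunc.aeval_X_left_eq_algebraMap, Polynomial.aeval_def, Polynomial.eval₂_map]
          rfl
        have h0 := g.num_div_denom.symm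
        rw [← this g.num, ← this g.denom] at h0
        exact ⟨_, _, h0⟩
      have h2 := congrArg (IntermediateField.map j) h1
      rw [adjoin_map, Set.image_union, Set.image_singleton, ← AlgHom.fieldRange_eq_map] at h2
      convert h2 using 1
      · congr 2
        ext a; simp
      · ext a
        constructor
        · intro ha
          exact ⟨(e.trans e0).symm ⟨a, ha⟩, by simp [j]⟩
        · rintro ⟨b, rfl⟩
          exact ((e.trans e0) b).2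

end Pool.Agent.H79.PG8
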