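import Mathlib

/-! Wronskians and linear independence of high powers of polynomials (first part after H48.Wr). -/

set_option autoImplicit false

namespace Pool.Agent.H79.PowInd

open Polynomial

variable {K : Type*} [Field K] [CharZero K]

noncomputable def W {m : ℕ} (f : Fin m → K[X]) : K[X] :=
  (Matrix.of fun (i k : Fin m) => derivative^[k] (f i)).det

lemma prop_of_wr (a b : K[X]) (hb : b ≠ 0) (h : derivative a * b - a * derivative b = 0) :
    ∃ c : K, a = C c * b := by
  classical
  obtain ⟨a1, b1, h1, h2, h3⟩ := extract_gcd a b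
  have hg : gcd a b ≠ 0 := fun h0 => hb (by rw [h2, h0, zero_mul])
  have hcop : IsCoprime a1 b1 := (gcd_isUnit_iff a1 b1).1 h3
  obtain ⟨g, hgd⟩ : ∃ g, g = gcd a b := ⟨_, rfl⟩
  rw [← hgd] at h1 h2 hg
  have hw : wronskian a1 b1 = 0 := by
    have : g * g * wronskian a1 b1 = 0 := by
      rw [h1, h2] at h
      simp only [derivative_mul] at h
      unfold wronskian
      linear_combination (-1 : K[X]) * h
    exact (mul_eq_zero.1 this).resolve_left (mul_ne_zero hg hg)
  obtain ⟨ha1, hb1⟩ := hcop.wronskian_eq_zero_iff.1 hw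
  have e1 := eq_C_of_derivative_eq_zero ha1
  have e2 := eq_C_of_derivative_eq_zero hb1
  have hb0 : b1.coeff 0 ≠ 0 := fun h0 => hb (by rw [h2, e2, h0]; simp)
  refine ⟨a1.coeff 0 / b1.coeff 0, ?_⟩
  rw [h1, h2, e1, e2]
  simp only [coeff_C_zero]
  rw [mul_left_comm, ← C_mul, div_mul_cancel₀ _ hb0]

lemma coef_zero {ι : Type} [DecidableEq ι] (f : ι → K[X]) (s : Finset ι) :
    (∀ c : ι → K, ∑ i ∈ s, C (c i) * f i = 0 → ∀ i ∈ s, c i = 0) →
    ∀ a : ι → K[X], (∀ k < s.card, ∑ i ∈ s, a i * derivative^[k] (f i) = 0) → ∀ i ∈ s, a i = 0 := by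
  induction s using Finset.induction_on with
  | empty => intro _ a _ i hi; simp at hi
  | insert j s hj ih =>
    intro hind a ha
    have hind' : ∀ c : ι → K, ∑ i ∈ s, C (c i) * f i = 0 → ∀ i ∈ s, c i = 0 := by
      intro c hc i hi
      have := hind (Function.update c j 0) (by
        rw [Finset.sum_insert hj]
        simp only [Function.update_self, C_0, zero_mul, zero_add]
        rw [← hc]
        refine Finset.sum_congr rfl fun x hx => ?_
        rw [Function.update_of_ne (by rintro rfl; exact hj hx)]) i (Finset.mem_insert_of_mem hi)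
      rwa [Function.update_of_ne (by rintro rfl; exact hj hi)] at this
    rw [Finset.card_insert_of_notMem hj] at ha
    by_cases haj : a j = 0
    · have := ih hind' a (fun k hk => by
        have := ha k (by omega)
        rwa [Finset.sum_insert hj, haj, zero_mul, zero_add] at this)
      intro i hi
      rcases Finset.mem_insert.1 hi with rfl | hi
      · exact haj
      · exact this i hi
    · exfalso
      have hb := ih hind' (fun i => derivative (a i) * a j - a i * derivative (a j)) (fun k hk => by
        have h0 := ha k (by omega)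
        have h1 := ha (k + 1) (by omega)
        have h2 := congrArg derivative h0
        rw [derivative_sum, derivative_zero] at h2
        simp only [derivative_mul, Finset.sum_add_distrib] at h2
        simp only [Function.iterate_succ_apply'] at h1
        rw [h1, add_zero] at h2
        rw [Finset.sum_insert hj] at h0 h2
        simp only [sub_mul, Finset.sum_sub_distrib]
        have e1 : ∑ x ∈ s, derivative (a x) * a j * derivative^[k] (f x)
            = a j * ∑ x ∈ s, derivative (a x) * derivative^[k] (f x) := by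
          rw [Finset.mul_sum]; exact Finset.sum_congr rfl fun _ _ => by ring
        have e2 : ∑ x ∈ s, a x * derivative (a j) * derivative^[k] (f x)
            = derivative (a j) * ∑ x ∈ s, a x * derivative^[k] (f x) := by
          rw [Finset.mul_sum]; exact Finset.sum_congr rfl fun _ _ => by ring
        rw [e1, e2]
        linear_combination a j * h2 - derivative (a j) * h0)
      have hc : ∀ i ∈ insert j s, ∃ c : K, a i = C c * a j := by
        intro i hi
        rcases Finset.mem_insert.1 hi with rfl | hi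
        · exact ⟨1, by simp⟩
        · exact prop_of_wr _ _ haj (hb i hi)
      choose! c hc using hc
      have h0 := ha 0 (by omega)
      simp only [Function.iterate_zero_apply] at h0
      have h1 : a j * ∑ i ∈ insert j s, C (c i) * f i = 0 := by
        rw [← h0, Finset.mul_sum]
        refine Finset.sum_congr rfl fun i hi => ?_
        rw [hc i hi]; ring
      have h2 := hind c ((mul_eq_zero.1 h1).resolve_left haj) j (Finset.mem_insert_self _ _)
      have h3 := hc j (Finset.mem_insert_self _ _)
      rw [h2] at h3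
      exact haj (by simpa using h3)

lemma W_ne {m : ℕ} (f : Fin m → K[X])
    (h : ∀ c : Fin m → K, ∑ i, C (c i) * f i = 0 → ∀ i, c i = 0) : W f ≠ 0 := by
  intro h0
  obtain ⟨v, hv, hv0⟩ := Matrix.exists_vecMul_eq_zero_iff.2 h0
  apply hv
  funext i
  refine coef_zero f Finset.univ (fun c hc i _ => h c hc i) v (fun k hk => ?_) i (Finset.mem_univ _)
  have := congrFun hv0 ⟨k, by simpa using hk⟩
  simpa [Matrix.vecMul, dotProduct] using this

omit [CharZero K] in
lemma W_dvd {r : ℕ} (h : Fin r → K[X]) (N : ℕ) : ∏ i, h i ^ (N - r) ∣ W fun i => h i ^ N := by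
  have : ∀ i k : Fin r, h i ^ (N - r) ∣ derivative^[k] (h i ^ N) := fun i k =>
    (pow_dvd_pow _ (by have := k.2; omega)).trans (pow_sub_dvd_iterate_derivative_pow _ _ _)
  choose q hq using this
  refine ⟨(Matrix.of q).det, ?_⟩
  rw [W, ← Matrix.det_mul_column]
  congr 1
  ext i k
  simp [hq]

omit [CharZero K] in
lemma W_deg {r : ℕ} (h : Fin r → K[X]) (N : ℕ) :
    (W fun i => h i ^ N).natDegree ≤ N * ∑ i, (h i).natDegree := by
  rw [W, ← Matrix.det_transpose, Matrix.det_apply]
  refine natDegree_sum_le_of_forall_le _ _ fun σ _ => ?_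
  refine (natDegree_smul_le _ _).trans ((natDegree_prod_le _ _).trans ?_)
  rw [Finset.mul_sum]
  refine Finset.sum_le_sum fun i _ => ?_
  exact ((natDegree_iterate_derivative _ _).trans (Nat.sub_le _ _)).trans natDegree_pow_le

omit [CharZero K] in
lemma W_upd {r : ℕ} (h : Fin r → K[X]) (h0 : K[X]) (N : ℕ) (b : Fin r → K)
    (hb : h0 ^ N = ∑ i, C (b i) * h i ^ N) (j : Fin r) :
    (W fun i => Function.update h j h0 i ^ N) = C (b j) * W fun i => h i ^ N := by
  rw [W, W, ← smul_eq_mul, ← Matrix.det_updateRow_sum _ j fun i => C (b i)]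
  congr 1
  ext1 i k
  by_cases hi : i = j
  · subst hi
    simp [hb, Finset.sum_apply, iterate_derivative_sum]
  · simp [hi]

lemma core {r : ℕ} (g : Fin r → K[X]) (g0 : K[X]) (N : ℕ) (b : Fin r → K) (hb0 : ∀ i, b i ≠ 0)
    (hb : g0 ^ N = ∑ i, C (b i) * g i ^ N) (hg0 : g0 ≠ 0)
    (hind : ∀ c : Fin r → K, ∑ i, C (c i) * g i ^ N = 0 → ∀ i, c i = 0) (hN : r * (r + 1) < N)
    (j : Fin r) : ∃ c : K, g j = C c * g0 := by
  classical
  obtain ⟨d, hd⟩ := (IsPrincipalIdealRing.principal (Ideal.span (insert g0 (Set.range g)))).principal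
  have hdv : ∀ x ∈ insert g0 (Set.range g), d ∣ x := fun x hx =>
    Ideal.mem_span_singleton.1 (by
      have := Ideal.subset_span hx
      rwa [hd] at this)
  obtain ⟨h0, e0⟩ := hdv g0 (by simp)
  choose h eh using fun i => hdv (g i) (by simp)
  have hd0 : d ≠ 0 := by rintro rfl; exact hg0 (by simp [e0])
  have htop : Ideal.span (insert h0 (Set.range h)) = ⊤ := by
    have h1 : d ∈ Ideal.span (insert g0 (Set.range g)) := by
      rw [hd]; exact Ideal.subset_span rfl
    have h2 : Ideal.span (insert g0 (Set.range g)) ≤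
        Ideal.span {d} * Ideal.span (insert h0 (Set.range h)) := Ideal.span_le.2 (by
      rintro _ (rfl | ⟨i, rfl⟩)
      · rw [e0]; exact Ideal.mul_mem_mul (Ideal.subset_span rfl) (Ideal.subset_span (by simp))
      · rw [eh]; exact Ideal.mul_mem_mul (Ideal.subset_span rfl) (Ideal.subset_span (by simp)))
    obtain ⟨z, hz, e⟩ := Ideal.mem_span_singleton_mul.1 (h2 h1)
    rw [Ideal.eq_top_iff_one]
    rwa [mul_left_cancel₀ hd0 (e.trans (mul_one d).symm)] at hz
  have key : ∀ c : Fin r → K, ∑ i, C (c i) * g i ^ N = d ^ N * ∑ i, C (c i) * h i ^ N := fun c => by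
    rw [Finset.mul_sum]; exact Finset.sum_congr rfl fun i _ => by rw [eh]; ring
  have hb' : h0 ^ N = ∑ i, C (b i) * h i ^ N :=
    mul_left_cancel₀ (pow_ne_zero N hd0) (by rw [← key, ← hb, e0, mul_pow])
  have hW : (W fun i => h i ^ N) ≠ 0 := W_ne _ fun c hc => hind c (by rw [key, hc, mul_zero])
  set w := W fun i => h i ^ N with hw
  have hh0 : h0 ≠ 0 := by rintro rfl; exact hg0 (by simp [e0])
  have hh : ∀ i, h i ≠ 0 := fun i hi => by
    have := hind (Pi.single i 1) (by
      rw [Finset.sum_eq_single i (fun k _ hk => by simp [hk]) (by simp), eh, hi]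
      simp [show N ≠ 0 by omega]) i
    simp at this
  have hP : ∀ x ∈ insert h0 (Set.range h),
      h0 ^ (N - r) * ∏ i, h i ^ (N - r) ∣ x ^ (N - r) * w := by
    rintro _ (rfl | ⟨i, rfl⟩)
    · exact mul_dvd_mul_left _ (W_dvd h N)
    · have := W_dvd (Function.update h i h0) N
      rw [W_upd h h0 N b hb', (isUnit_C.2 (Ne.isUnit (hb0 i))).dvd_mul_left,
        ← Finset.mul_prod_erase _ _ (Finset.mem_univ i), Function.update_self,
        Finset.prod_congr rfl fun k hk => by rw [Function.update_of_ne (Finset.ne_of_mem_erase hk)]]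
        at this
      rw [← Finset.mul_prod_erase _ _ (Finset.mem_univ i), mul_left_comm]
      exact mul_dvd_mul_left _ this
  have hP' : h0 ^ (N - r) * ∏ i, h i ^ (N - r) ∣ w := by
    have h1 := Ideal.span_pow_eq_top _ htop (N - r)
    have h2 : Ideal.span ((fun x => x ^ (N - r)) '' insert h0 (Set.range h)) ≤
        Submodule.comap (LinearMap.mulRight K[X] w) (Ideal.span {h0 ^ (N - r) * ∏ i, h i ^ (N - r)}) :=
      Ideal.span_le.2 (by
        rintro _ ⟨x, hx, rfl⟩
        exact Ideal.mem_span_singleton.2 (hP x hx))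
    rw [h1] at h2
    simpa [Ideal.mem_span_singleton] using h2 (Submodule.mem_top (x := 1))
  have d1 := natDegree_le_of_dvd hP' hW
  rw [natDegree_mul (pow_ne_zero _ hh0) (Finset.prod_ne_zero_iff.2 fun i _ => pow_ne_zero _ (hh i)),
    natDegree_prod _ _ fun i _ => pow_ne_zero _ (hh i)] at d1
  simp only [natDegree_pow, ← Finset.mul_sum] at d1
  set S := ∑ i, (h i).natDegree with hS
  have d2 : w.natDegree ≤ N * S := W_deg h N
  have d3 : ∀ i, w.natDegree + N * (h i).natDegree ≤ N * (h0.natDegree + S) := fun i => by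
    have := W_deg (Function.update h i h0) N
    rw [W_upd h h0 N b hb', natDegree_C_mul (hb0 i),
      ← Finset.add_sum_erase _ _ (Finset.mem_univ i), Function.update_self,
      Finset.sum_congr rfl fun k hk => by rw [Function.update_of_ne (Finset.ne_of_mem_erase hk)]]
      at this
    rw [hS, ← Finset.add_sum_erase _ _ (Finset.mem_univ i)]
    nlinarith
  have d4 := Finset.sum_le_sum fun i (_ : i ∈ Finset.univ) => d3 i
  simp only [Finset.sum_add_distrib, Finset.sum_const, Finset.card_univ, Fintype.card_fin,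
    smul_eq_mul, ← Finset.mul_sum, ← hS] at d4
  obtain ⟨M, rfl⟩ : ∃ M, N = M + r := ⟨N - r, by nlinarith [Nat.sub_add_cancel (show r ≤ N by nlinarith)]⟩
  rw [Nat.add_sub_cancel] at d1
  have d5 : h0.natDegree + S = 0 := by
    by_contra hne
    have : 1 ≤ h0.natDegree + S := by omega
    nlinarith
  have z0 : h0.natDegree = 0 := by omega
  have zj : (h j).natDegree = 0 := by
    have := Finset.single_le_sum (f := fun i => (h i).natDegree) (fun _ _ => Nat.zero_le _)
      (Finset.mem_univ j)
    omega
  rw [eq_C_of_natDegree_eq_zero z0] at e0 hh0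
  refine ⟨(h j).coeff 0 / h0.coeff 0, ?_⟩
  rw [eh, e0, eq_C_of_natDegree_eq_zero zj, coeff_C_zero, mul_left_comm, ← C_mul,
    div_mul_cancel₀ _ (by simpa using hh0)]

/-- If a high power of `g0 ≠ 0` is a combination of the same powers of the `g i`, then some `g i`
is a nonzero multiple of `g0`. -/
theorem pow_ind {ι : Type} [Fintype ι] (g : ι → K[X]) (g0 : K[X]) (hg0 : g0 ≠ 0) (N : ℕ)
    (hN : Fintype.card ι * (Fintype.card ι + 1) < N)
    (h : g0 ^ N ∈ Submodule.span K (Set.range fun i => g i ^ N)) :
    ∃ i, ∃ c : K, c ≠ 0 ∧ g i = C c * g0 := by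
  classical
  obtain ⟨t, -, -, ht, hi⟩ := exists_linearIndepOn_extension (K := K) (v := fun i => g i ^ N)
    (linearIndepOn_empty K _) (Set.empty_subset Set.univ)
  have h1 : g0 ^ N ∈ Submodule.span K ((fun i => g i ^ N) '' t) :=
    Submodule.span_le.2 (by rwa [Set.image_univ] at ht) h
  obtain ⟨l, hl, e⟩ := (Finsupp.mem_span_image_iff_linearCombination K).1 h1
  let φ := l.support.equivFin.symm
  have hi' : LinearIndependent K fun k => g (φ k) ^ N :=
    (hi.mono (show (l.support : Set ι) ⊆ t from hl)).comp φ φ.injective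
  have hsum : g0 ^ N = ∑ k, C (l (φ k)) * g (φ k) ^ N := by
    rw [← e, Finsupp.linearCombination_apply, Finsupp.sum, ← Finset.sum_coe_sort,
      ← Equiv.sum_comp φ]
    simp [smul_eq_C_mul]
  have hne : l.support.card ≠ 0 := fun h0 => by
    rw [Finset.card_eq_zero, Finsupp.support_eq_empty] at h0
    rw [h0, map_zero] at e
    exact pow_ne_zero _ hg0 e.symm
  have hc := Finset.card_le_univ l.support
  obtain ⟨c, hc'⟩ := core (fun k => g (φ k)) g0 N (fun k => l (φ k))
    (fun k => Finsupp.mem_support_iff.1 (φ k).2) hsum hg0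
    (fun c hc => Fintype.linearIndependent_iff.1 hi' c (by simpa [smul_eq_C_mul] using hc))
    (lt_of_le_of_lt (Nat.mul_le_mul hc (by omega)) hN) ⟨0, by omega⟩
  refine ⟨_, c, fun h0 => hi'.ne_zero ⟨0, by omega⟩ ?_, hc'⟩
  simp only [hc', h0]
  simp [show N ≠ 0 by omega]

end Pool.Agent.H79.PowInd
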