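import Mathlib
import Pool.Agent.H79.PowCons

set_option autoImplicit false

namespace Pool.Agent.H79.PowPd

open MvPolynomial Pool.Agent.H79.PD Pool.Agent.H79.Mono Pool.Agent.H79.PowCons

theorem exists_bound (g : ℕ → ℕ) (T : ℕ) (hT : ∀ t, T ≤ t → g t = g T) : ∃ k, ∀ t, g t ≤ k := by
  refine ⟨(Finset.range (T + 1)).sup g, fun t => ?_⟩
  by_cases h : T ≤ t
  · rw [hT t h]; exact Finset.le_sup (f := g) (by simp)
  · exact Finset.le_sup (f := g) (by simp; omega)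

theorem exists_pd (g : ℕ → ℕ) (hc : ∃ T, ∀ t, T ≤ t → g t = g T) (hg : ∀ t, 1 ≤ t → 1 ≤ g t) :
    ∃ (k : ℕ) (s : Set (Fin (k + 1) →₀ ℕ)), ∀ (K : Type) [Field K] (t : ℕ), 1 ≤ t → ∀ m : ℕ,
      (PdLT (MvPolynomial (Fin (k + 1)) K) ↥(MI K s ^ t) (m + 1) ↔ g t ≤ m) := by
  obtain ⟨T, hT⟩ := hc
  obtain ⟨k, hk⟩ := exists_bound g T hT
  obtain ⟨s, hs⟩ := exists_ideal k (T + 1) g (by omega) hg (fun t _ => hk t)
    (fun t ht => by rw [hT t (by omega), hT (T + 1) (by omega)])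
  refine ⟨k, s, fun K _ t ht m => ?_⟩
  obtain ⟨hup, h1, e, τ, hτ, he, h2⟩ := hs t ht
  rw [← pd_quot_iff, MI_pow]
  constructor
  · intro h
    by_contra hlt
    exact not_pdU (K := K) hup τ e he h2 (pd_mono (by omega) h)
  · intro h
    exact pd_mono (by omega) (h1 K)

theorem pd_one_iff {R : Type} [CommRing R] [IsNoetherianRing R] (I : Ideal R) (g : ℕ)
    (h : ∀ m : ℕ, PdLT R I (m + 1) ↔ g ≤ m) :
    ((∃ (m : ℕ) (f : (Fin m → R) →ₗ[R] ↥I), Function.Surjective f ∧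
        Module.Projective R ↥(LinearMap.ker f)) ∧ ¬ Module.Projective R ↥I) ↔ g = 1 := by
  constructor
  · rintro ⟨⟨m, f, hf, hp⟩, hn⟩
    have h1 := (h 1).1 ((pd_ker_iff f hf 0).2 (pd_proj _))
    have h2 : ¬ g ≤ 0 := fun h0 => hn (proj_of_pd _ ((h 0).2 h0))
    omega
  · rintro rfl
    obtain ⟨m, f, hf⟩ := Module.Finite.exists_fin' R I
    refine ⟨⟨m, f, hf, proj_of_pd _ ((pd_ker_iff f hf 0).1 ((h 1).2 le_rfl))⟩, fun hp => ?_⟩
    have := (h 0).1 (pd_proj _)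
    omega

end Pool.Agent.H79.PowPd
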