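import Mathlib

set_option autoImplicit false
set_option linter.unusedSectionVars false
set_option linter.unusedSimpArgs false
set_option linter.style.haveILetI false

namespace Pool.Agent.H79.Pst

open Module

variable {O V : Type} [CommRing O] [IsDomain O] [IsLocalRing O] [IsNoetherianRing O]
  [AddCommGroup V] [Module O V]

theorem jac {π : O} (hπ : π ∈ IsLocalRing.maximalIdeal O) :
    Ideal.span {π} ≤ Ideal.jacobson (⊥ : Ideal O) := by
  rw [IsLocalRing.jacobson_eq_maximalIdeal ⊥ bot_ne_top, Ideal.span_le]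
  simpa using hπ

theorem bij_of {ι : Type} [Finite ι] (b : Basis ι O V) {π : O}
    (hπ : π ∈ IsLocalRing.maximalIdeal O) (f g : End O V) (hg : Function.Surjective g)
    (h : ∀ i, ∃ y, f (b i) = g (b i) + π • y) : Function.Bijective f := by
  haveI : Module.Finite O V := Module.Finite.of_basis b
  choose y hy using h
  have hf : f = g + π • b.constr O y := b.ext fun i => by simp [hy]
  have hs : Function.Surjective f := by
    rw [← LinearMap.range_eq_top, eq_top_iff]
    refine Submodule.le_of_le_smul_of_le_jacobson_bot Module.Finite.fg_top (jac hπ) ?_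
    intro z _
    obtain ⟨x, rfl⟩ := hg z
    have : g x = f x + π • (-(b.constr O y x)) := by rw [hf]; simp
    rw [this]
    exact Submodule.add_mem_sup ⟨x, rfl⟩
      (Submodule.smul_mem_smul (Ideal.mem_span_singleton_self π) trivial)
  exact ⟨OrzechProperty.injective_of_surjective_endomorphism f hs, hs⟩

theorem ch [Module.Finite O V] (f : End O V) (θ : V →ₗ[O] O) (hθ : ∀ z, θ (f z) = 0) :
    ∃ (r : ℕ) (q : Polynomial O), f ^ r * Polynomial.aeval f q = 0 ∧
      ∀ z, θ z ≠ 0 → θ (Polynomial.aeval f q z) ≠ 0 := by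
  obtain ⟨p, hp, h0⟩ := LinearMap.exists_monic_and_aeval_eq_zero O f
  obtain ⟨q, hq, hd⟩ := Polynomial.exists_eq_pow_rootMultiplicity_mul_and_not_dvd p hp.ne_zero 0
  rw [Polynomial.C_0, sub_zero] at hq hd
  refine ⟨Polynomial.rootMultiplicity 0 p, q, ?_, fun z hz => ?_⟩
  · rw [hq] at h0
    simpa using h0
  · rw [← Polynomial.X_mul_divX_add q]
    have hc : q.coeff 0 ≠ 0 := fun e => hd (Polynomial.X_dvd_iff.2 e)
    rw [map_add, map_mul, Polynomial.aeval_X, Polynomial.aeval_C, LinearMap.add_apply,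
      End.mul_apply, map_add, hθ, zero_add, Algebra.algebraMap_eq_smul_one, LinearMap.smul_apply,
      End.one_apply, map_smul, smul_eq_mul]
    exact mul_ne_zero hc hz

theorem nilp (f : End O V) (S : V → Prop) (hS : ∀ z, S z → S (f z)) (r : ℕ) :
    ∀ z, z ≠ 0 → (f ^ r) z = 0 → S z → ∃ z', z' ≠ 0 ∧ f z' = 0 ∧ S z' := by
  induction r with
  | zero => intro z hz h _; exact absurd (by simpa using h) hz
  | succ r ih =>
    intro z hz h hs
    by_cases h0 : f z = 0
    · exact ⟨z, hz, h0, hs⟩
    · exact ih (f z) h0 (by rwa [pow_succ, End.mul_apply] at h) (hS z hs)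

theorem joint [Module.Finite O V] (f g : End O V) (hc : Commute f g) (θ : V →ₗ[O] O)
    (hf : ∀ z, θ (f z) = 0) (hg : ∀ z, θ (g z) = 0) (z : V) (hz : θ z ≠ 0) :
    ∃ l, l ≠ 0 ∧ f l = 0 ∧ g l = 0 := by
  obtain ⟨r, q, h1, h2⟩ := ch f θ hf
  obtain ⟨s, q', h3, h4⟩ := ch g θ hg
  set z1 := Polynomial.aeval f q z
  set z2 := Polynomial.aeval g q' z1 with hz2
  have a1 : z2 ≠ 0 := fun e => h4 z1 (h2 z hz) (by rw [← hz2, e, map_zero])
  have a2 : (g ^ s) z2 = 0 := by rw [hz2, ← End.mul_apply, h3]; rfl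
  have a3 : (f ^ r) z2 = 0 := by
    have hc' : Commute (f ^ r) (Polynomial.aeval g q') := by
      rw [Polynomial.aeval_eq_sum_range]
      exact Commute.sum_right _ _ _ fun i _ => ((hc.pow_pow r i).smul_right _)
    rw [hz2, ← End.mul_apply, hc'.eq, End.mul_apply, ← End.mul_apply (f ^ r), h1]
    simp
  obtain ⟨z3, b1, b2, b3⟩ := nilp g (fun z => (f ^ r) z = 0) (fun z h => by
    rw [← End.mul_apply, (hc.pow_left r).eq, End.mul_apply, h, map_zero]) s z2 a1 a2 a3
  obtain ⟨z4, c1, c2, c3⟩ := nilp f (fun z => g z = 0) (fun z h => by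
    rw [← End.mul_apply, ← hc.eq, End.mul_apply, h, map_zero]) r z3 b1 b3 b2
  exact ⟨z4, c1, c2, c3⟩

/-- exponents of monomials of degree below `d` -/
abbrev T (d : ℕ) := {x : ℕ × ℕ // x.1 + x.2 < d}

instance (d : ℕ) : Finite (T d) :=
  Finite.of_injective (fun x : T d => ((⟨x.1.1, by have := x.2; omega⟩ : Fin d),
    (⟨x.1.2, by have := x.2; omega⟩ : Fin d))) fun x y h => by
    simp only [Prod.mk.injEq, Fin.mk.injEq] at h
    exact Subtype.ext (Prod.ext h.1 h.2)

variable {d : ℕ} (b : Basis (Option (T d)) O V) (π : O)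

/-- monomial vectors -/
noncomputable def W (i j : ℕ) : V := if h : i + j < d then b (some ⟨(i, j), h⟩) else 0

/-- the extension vector -/
noncomputable def u : V := π • ∑ i ∈ Finset.range d, (-π) ^ i • W b (d - 1 - i) 0

/-- first operator -/
noncomputable def X : End O V := b.constr O fun
  | some t => W b (t.1.1 + 1) t.1.2
  | none => -π • b none

/-- second operator -/
noncomputable def Y : End O V := b.constr O fun
  | some t => W b t.1.1 (t.1.2 + 1)
  | none => u b π

theorem W_out {i j : ℕ} (h : d ≤ i + j) : W b i j = 0 := dif_neg (by omega)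

theorem W_in (t : T d) : W b t.1.1 t.1.2 = b (some t) := dif_pos t.2

theorem X_W (i j : ℕ) : X b π (W b i j) = W b (i + 1) j := by
  by_cases h : i + j < d
  · rw [W, dif_pos h, X, Basis.constr_basis]
  · rw [W_out b (by omega), W_out b (by omega), map_zero]

theorem Y_W (i j : ℕ) : Y b π (W b i j) = W b i (j + 1) := by
  by_cases h : i + j < d
  · rw [W, dif_pos h, Y, Basis.constr_basis]
  · rw [W_out b (by omega), W_out b (by omega), map_zero]

theorem X_e : X b π (b none) = -π • b none := by rw [X, Basis.constr_basis]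

theorem Y_e : Y b π (b none) = u b π := by rw [Y, Basis.constr_basis]

theorem comm_XY : ∃ D : End O V, X b π * Y b π - Y b π * X b π = π ^ (d + 1) • D := by
  refine ⟨b.constr O fun
    | some _ => 0
    | none => -((-1 : O) ^ d) • W b 0 0, b.ext fun i => ?_⟩
  cases i with
  | some t =>
    rw [LinearMap.smul_apply, Basis.constr_basis, ← W_in]
    simp [X_W, Y_W]
  | none =>
    rw [LinearMap.smul_apply, Basis.constr_basis, LinearMap.sub_apply, End.mul_apply,
      End.mul_apply, X_e, Y_e, map_smul, Y_e, u, map_smul, map_sum]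
    have key := Finset.sum_range_sub' (fun i => (-π) ^ i • W b (d - i) 0) d
    rw [Nat.sub_zero, W_out b (i := d) (j := 0) (by omega), Nat.sub_self, smul_zero, zero_sub,
      Finset.sum_sub_distrib] at key
    have e1 : ∑ i ∈ Finset.range d, X b π ((-π) ^ i • W b (d - 1 - i) 0) =
        ∑ i ∈ Finset.range d, (-π) ^ i • W b (d - i) 0 :=
      Finset.sum_congr rfl fun i hi => by
        rw [map_smul, X_W]
        congr 2
        have := Finset.mem_range.1 hi
        omega
    have e2 : -π • ∑ i ∈ Finset.range d, (-π) ^ i • W b (d - 1 - i) 0 =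
        ∑ i ∈ Finset.range d, (-π) ^ (i + 1) • W b (d - (i + 1)) 0 := by
      rw [Finset.smul_sum]
      refine Finset.sum_congr rfl fun i _ => ?_
      rw [smul_smul, ← pow_succ']
      congr 2
      omega
    rw [e1, smul_comm (-π) π, e2, ← smul_sub, key, neg_pow π]
    module

theorem u_eq (hd : 1 ≤ d) : ∃ y, u b π = π • W b (d - 1) 0 + π ^ 2 • y := by
  obtain ⟨d', rfl⟩ : ∃ d', d = d' + 1 := ⟨d - 1, by omega⟩
  refine ⟨-∑ i ∈ Finset.range d', (-π) ^ i • W b (d' + 1 - 1 - (i + 1)) 0, ?_⟩
  rw [u, Finset.sum_range_succ']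
  have : ∑ i ∈ Finset.range d', (-π) ^ (i + 1) • W b (d' + 1 - 1 - (i + 1)) 0 =
      -π • ∑ i ∈ Finset.range d', (-π) ^ i • W b (d' + 1 - 1 - (i + 1)) 0 := by
    rw [Finset.smul_sum]
    exact Finset.sum_congr rfl fun i _ => by rw [smul_smul, ← pow_succ']
  rw [this, Nat.sub_zero]
  module

/-- coordinates -/
noncomputable def c (i j : ℕ) : V →ₗ[O] O :=
  if h : i + j < d then b.coord (some ⟨(i, j), h⟩) else 0

theorem c_e (i j : ℕ) : c b i j (b none) = 0 := by
  rw [c]
  split_ifs <;> simp

theorem c_W {i j : ℕ} (h : i + j < d) (i' j' : ℕ) :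
    c b i j (W b i' j') = if i' = i ∧ j' = j then 1 else 0 := by
  classical
  rw [c, dif_pos h, W]
  split_ifs with h1 h2 h3
  · simp [h2.1, h2.2]
  · simp only [Basis.coord_apply, Basis.repr_self]
    rw [Finsupp.single_apply, if_neg]
    simpa using h2
  · omega
  · simp

theorem e_W (i j : ℕ) : b.coord none (W b i j) = 0 := by
  rw [W]
  split_ifs <;> simp

theorem c_X {i j : ℕ} (h : i + 1 + j < d) (z : V) : c b (i + 1) j (X b π z) = c b i j z := by
  have : c b (i + 1) j ∘ₗ X b π = c b i j := b.ext fun t => by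
    cases t with
    | none => simp [X_e, c_e]
    | some t =>
      rw [← W_in, LinearMap.comp_apply, X_W, c_W b h, c_W b (by omega)]
      simp
  exact LinearMap.congr_fun this z

theorem c_X0 {j : ℕ} (h : 0 + j < d) (z : V) : c b 0 j (X b π z) = 0 := by
  have : c b 0 j ∘ₗ X b π = 0 := b.ext fun t => by
    cases t with
    | none => simp [X_e, c_e]
    | some t =>
      rw [← W_in, LinearMap.comp_apply, X_W, c_W b h]
      simp
  exact LinearMap.congr_fun this z

theorem c_Y {i j : ℕ} (h : i + (j + 1) < d) (z : V) : c b i (j + 1) (Y b π z) = c b i j z := by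
  have : c b i (j + 1) ∘ₗ Y b π = c b i j := b.ext fun t => by
    cases t with
    | none => simp [Y_e, c_e, u, map_sum, c_W b h]
    | some t =>
      rw [← W_in, LinearMap.comp_apply, Y_W, c_W b h, c_W b (by omega)]
      simp
  exact LinearMap.congr_fun this z

theorem c_Y0 {i : ℕ} (h : i + 0 < d) (z : V) :
    c b i 0 (Y b π z) = b.coord none z * c b i 0 (u b π) := by
  have : c b i 0 ∘ₗ Y b π = c b i 0 (u b π) • b.coord none := b.ext fun t => by
    cases t with
    | none => simp [Y_e]
    | some t =>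
      rw [← W_in, LinearMap.comp_apply, Y_W, c_W b h, LinearMap.smul_apply, e_W]
      simp
  rw [mul_comm]
  exact LinearMap.congr_fun this z

theorem no_kernel (hπ : π ∈ IsLocalRing.maximalIdeal O) (h0 : π ≠ 0) (hd : 1 ≤ d) (E E' : End O V)
    (l : V) (h1 : (X b π + π • 1 + π ^ 2 • E) l = 0) (h2 : (Y b π + π ^ 2 • E') l = 0) : l = 0 := by
  haveI : Module.Finite O V := Module.Finite.of_basis b
  haveI : Module.Free O V := Module.Free.of_basis b
  let K := LinearMap.ker (X b π + π • 1 + π ^ 2 • E) ⊓ LinearMap.ker (Y b π + π ^ 2 • E')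
  suffices K = ⊥ by
    have hl : l ∈ K := ⟨h1, h2⟩
    rwa [this, Submodule.mem_bot] at hl
  refine Submodule.eq_bot_of_le_smul_of_le_jacobson_bot (Ideal.span {π}) K
    (IsNoetherian.noetherian K) ?_ (jac hπ)
  rintro z ⟨z1, z2⟩
  have z1' : X b π z + π • z + π ^ 2 • E z = 0 := z1
  have z2' : Y b π z + π ^ 2 • E' z = 0 := z2
  have a1 : ∀ i j, i + (j + 1) < d → π ^ 2 ∣ c b i j z := by
    intro i j h
    have := congrArg (c b i (j + 1)) z2'
    rw [map_add, c_Y b π h, map_smul, map_zero, smul_eq_mul] at this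
    exact ⟨-c b i (j + 1) (E' z), by linear_combination this⟩
  have a2 : ∀ i j, i + j < d → π ∣ c b i j z := by
    intro i j h
    have := congrArg (c b i j) z1'
    rw [map_add, map_add, map_smul, map_smul, map_zero, smul_eq_mul, smul_eq_mul] at this
    obtain ⟨s, hs⟩ : π ^ 2 ∣ c b i j (X b π z) := by
      cases i with
      | zero => rw [c_X0 b π h]; exact dvd_zero _
      | succ i => rw [c_X b π h]; exact a1 i j (by omega)
    refine ⟨-s - c b i j (E z), mul_left_cancel₀ h0 ?_⟩
    linear_combination this - hs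
  have a3 : π ∣ b.coord none z := by
    have h : d - 1 + 0 < d := by omega
    have := congrArg (c b (d - 1) 0) z2'
    obtain ⟨y, hy⟩ := u_eq b π hd
    rw [map_add, c_Y0 b π h, hy, map_add, map_smul, map_smul, map_smul, c_W b h, map_zero,
      if_pos ⟨rfl, rfl⟩, smul_eq_mul, smul_eq_mul, smul_eq_mul] at this
    refine ⟨-b.coord none z * c b (d - 1) 0 y - c b (d - 1) 0 (E' z), mul_left_cancel₀ h0 ?_⟩
    linear_combination this
  have a4 : ∀ t, ∃ s, b.repr z t = π * s := by
    intro t
    cases t with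
    | none => exact a3
    | some t =>
      have := a2 t.1.1 t.1.2 t.2
      rwa [c, dif_pos t.2] at this
  choose s hs using a4
  letI := Fintype.ofFinite (Option (T d))
  have hz : z = π • b.equivFun.symm s := by
    apply b.equivFun.injective
    funext t
    rw [map_smul, LinearEquiv.apply_symm_apply]
    exact hs t
  rw [hz]
  refine Submodule.smul_mem_smul (Ideal.mem_span_singleton_self π) ⟨?_, ?_⟩
  · rw [hz, SetLike.mem_coe, LinearMap.mem_ker, map_smul] at z1
    exact (smul_eq_zero.1 z1).resolve_left h0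
  · rw [hz, SetLike.mem_coe, LinearMap.mem_ker, map_smul] at z2
    exact (smul_eq_zero.1 z2).resolve_left h0

end Pool.Agent.H79.Pst
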