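import Pool.Agent.H79.Pst1

set_option autoImplicit false
set_option linter.unusedSectionVars false
set_option linter.unusedSimpArgs false
set_option linter.style.haveILetI false

namespace Pool.Agent.H79.Pst

open Module

variable {O V : Type} [CommRing O] [IsDomain O] [IsLocalRing O] [IsNoetherianRing O]
  [AddCommGroup V] [Module O V] {d : ℕ} (b : Basis (Option (T d)) O V) (π : O)

theorem no_lift (hπ : π ∈ IsLocalRing.maximalIdeal O) (h0 : π ≠ 0) (hd : 1 ≤ d) (E E' : End O V)
    (hc : Commute (X b π + π ^ 2 • E) (Y b π + π ^ 2 • E')) : False := by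
  haveI : Module.Finite O V := Module.Finite.of_basis b
  obtain ⟨P, hP⟩ : ∃ P, P = X b π + π ^ 2 • E := ⟨_, rfl⟩
  obtain ⟨Q, hQ⟩ : ∃ Q, Q = Y b π + π ^ 2 • E' := ⟨_, rfl⟩
  rw [← hP, ← hQ] at hc
  let m : ℕ → ℕ → V := fun i j => (P ^ i * Q ^ j) (W b 0 0)
  have mP : ∀ i j, P (m i j) = m (i + 1) j := fun i j => by
    simp only [m, pow_succ', End.mul_apply]
  have mQ : ∀ i j, Q (m i j) = m i (j + 1) := fun i j => by
    simp only [m]
    rw [← End.mul_apply, ← mul_assoc, ← (hc.pow_left i).eq, mul_assoc, ← pow_succ']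
  have mW : ∀ i j, ∃ y, m i j = W b i j + π ^ 2 • y := by
    intro i j
    induction i with
    | zero =>
      induction j with
      | zero => exact ⟨0, by simp [m]⟩
      | succ j ih =>
        obtain ⟨y, hy⟩ := ih
        refine ⟨E' (W b 0 j) + Q y, ?_⟩
        rw [← mQ, hy, map_add, map_smul, smul_add, ← add_assoc, ← Y_W b π]
        congr 1
        rw [hQ]
        rfl
    | succ i ih =>
      obtain ⟨y, hy⟩ := ih
      refine ⟨E (W b i j) + P y, ?_⟩
      rw [← mP, hy, map_add, map_smul, smul_add, ← add_assoc, ← X_W b π]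
      congr 1
      rw [hP]
      rfl
  let G : End O V := b.constr O fun
    | some t => m t.1.1 t.1.2
    | none => b none
  have G1 : ∀ t : T d, G (b (some t)) = m t.1.1 t.1.2 := fun t => Basis.constr_basis _ _ _ _
  have G2 : G (b none) = b none := Basis.constr_basis _ _ _ _
  have hG : Function.Bijective G := bij_of b hπ G 1 Function.surjective_id fun i => by
    cases i with
    | none => exact ⟨0, by simp [G2]⟩
    | some t =>
      obtain ⟨y, hy⟩ := mW t.1.1 t.1.2
      exact ⟨π • y, by rw [G1, hy, W_in, smul_smul, sq]; rfl⟩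
  let Ge := LinearEquiv.ofBijective G hG
  let θ : V →ₗ[O] O := b.coord none ∘ₗ Ge.symm.toLinearMap
  have θG : ∀ z, θ (G z) = b.coord none z := fun z => by
    have : Ge.symm (G z) = z := Ge.symm_apply_apply z
    simp only [θ, LinearMap.comp_apply, LinearEquiv.coe_coe, this]
  have θe : θ (b none) = 1 := by rw [← G2, θG]; simp
  have θm : ∀ i j, i + j < d → θ (m i j) = 0 := fun i j h => by
    have := θG (b (some ⟨(i, j), h⟩))
    rw [G1] at this
    rw [this]
    simp
  obtain ⟨a, ha⟩ : ∃ a, θ (P (b none)) = -π + π ^ 2 * a :=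
    ⟨θ (E (b none)), by rw [hP]; simp [X_e, θe]⟩
  obtain ⟨y0, hy0⟩ : ∃ y, Q (b none) = π • m (d - 1) 0 + π ^ 2 • y := by
    obtain ⟨y, hy⟩ := u_eq b π hd
    obtain ⟨y', hy'⟩ := mW (d - 1) 0
    refine ⟨y + E' (b none) - π • y', ?_⟩
    rw [hy', hQ, LinearMap.add_apply, Y_e, hy, LinearMap.smul_apply]
    module
  obtain ⟨a', ha'⟩ : ∃ a', θ (Q (b none)) = π ^ 2 * a' :=
    ⟨θ y0, by rw [hy0, map_add, map_smul, map_smul, θm _ _ (by omega)]; simp⟩
  let P' : End O V := P - (-π + π ^ 2 * a) • 1
  let Q' : End O V := Q - (π ^ 2 * a') • 1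
  have P'z : ∀ z, P' z = P z - (-π + π ^ 2 * a) • z := fun _ => rfl
  have Q'z : ∀ z, Q' z = Q z - (π ^ 2 * a') • z := fun _ => rfl
  have hc' : Commute P' Q' :=
    (hc.sub_right ((Commute.one_right _).smul_right _)).sub_left
      ((Commute.one_left _).smul_left _)
  let J : Ideal O := Ideal.span (Set.range fun k : Fin (d + 1) => θ (m (d - k) k))
  have hJ : ∀ i j, i + j ≤ d → θ (m i j) ∈ J := by
    intro i j h
    rcases h.lt_or_eq with h | h
    · rw [θm i j h]; exact J.zero_mem
    · refine Ideal.subset_span ⟨⟨j, by omega⟩, ?_⟩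
      have : d - j = i := by omega
      simp only [this]
  have allJ : ∀ f : End O V, θ (f (b none)) = 0 → (∀ i j, i + j < d → θ (f (m i j)) ∈ J) →
      ∀ z, θ (f z) ∈ J := by
    intro f f1 f2 z
    obtain ⟨z, rfl⟩ := hG.2 z
    have : Submodule.span O (Set.range b) ≤ Submodule.comap (θ ∘ₗ f ∘ₗ G) J := by
      refine Submodule.span_le.2 ?_
      rintro _ ⟨t, rfl⟩
      change θ (f (G (b t))) ∈ J
      cases t with
      | none => rw [G2, f1]; exact J.zero_mem
      | some t => rw [G1]; exact f2 _ _ t.2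
    exact this (b.mem_span z)
  have θP : ∀ i j, i + j < d → θ (P' (m i j)) = θ (m (i + 1) j) := fun i j h => by
    rw [P'z, map_sub, map_smul, θm i j h, mP, smul_zero, sub_zero]
  have θQ : ∀ i j, i + j < d → θ (Q' (m i j)) = θ (m i (j + 1)) := fun i j h => by
    rw [Q'z, map_sub, map_smul, θm i j h, mQ, smul_zero, sub_zero]
  have JP : ∀ z, θ (P' z) ∈ J := allJ P' (by rw [P'z, map_sub, map_smul, θe, ha]; simp)
    fun i j h => by rw [θP i j h]; exact hJ _ _ (by omega)
  have JQ : ∀ z, θ (Q' z) ∈ J := allJ Q' (by rw [Q'z, map_sub, map_smul, θe, ha']; simp)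
    fun i j h => by rw [θQ i j h]; exact hJ _ _ (by omega)
  have rel : ∀ z, θ (Q' (P' z)) = θ (P' (Q' z)) := fun z => by
    rw [← End.mul_apply, ← hc'.eq, End.mul_apply]
  have hbot : J = ⊥ := by
    refine Submodule.eq_bot_of_le_smul_of_le_jacobson_bot (Ideal.span {π}) J
      (IsNoetherian.noetherian J) (Ideal.span_le.2 ?_) (jac hπ)
    rintro _ ⟨⟨k, hk⟩, rfl⟩
    suffices h : ∃ s ∈ J, θ (m (d - k) k) = π • s by
      obtain ⟨s, hs, e⟩ := h
      change θ (m (d - k) k) ∈ _
      rw [e]
      exact Submodule.smul_mem_smul (Ideal.mem_span_singleton_self π) hs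
    cases k with
    | zero =>
      have r := rel (b none)
      have e1 : P' (b none) = π ^ 2 • (E (b none) - a • b none) := by
        rw [P'z, hP, LinearMap.add_apply, X_e, LinearMap.smul_apply]
        module
      have e2 : Q' (b none) = π • m (d - 1) 0 + π ^ 2 • (y0 - a' • b none) := by
        rw [Q'z, hy0]
        module
      rw [e1, e2, map_add, map_add, map_smul, map_smul, map_smul, map_smul, map_smul, map_smul,
        θP _ _ (by omega), Nat.sub_add_cancel hd] at r
      refine ⟨θ (Q' (E (b none) - a • b none)) - θ (P' (y0 - a' • b none)),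
        J.sub_mem (JQ _) (JP _), mul_left_cancel₀ h0 ?_⟩
      simp only [smul_eq_mul, Nat.sub_zero] at r ⊢
      linear_combination -r
    | succ k =>
      have r := rel (m (d - (k + 1)) k)
      obtain ⟨y1, hy1⟩ := mW (d - (k + 1) + 1) k
      obtain ⟨y2, hy2⟩ := mW (d - (k + 1)) (k + 1)
      rw [W_out b (by omega), zero_add] at hy1 hy2
      have e1 : P' (m (d - (k + 1)) k) = π ^ 2 • y1 - (-π + π ^ 2 * a) • m (d - (k + 1)) k := by
        rw [P'z, mP, hy1]
      have e2 : Q' (m (d - (k + 1)) k) = π ^ 2 • (y2 - a' • m (d - (k + 1)) k) := by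
        rw [Q'z, mQ, hy2]
        module
      rw [e1, e2, map_sub, map_sub, map_smul, map_smul, map_smul, map_smul, map_smul, map_smul,
        θQ _ _ (by omega)] at r
      refine ⟨a * θ (m (d - (k + 1)) (k + 1)) + θ (P' (y2 - a' • m (d - (k + 1)) k)) - θ (Q' y1),
        J.sub_mem (J.add_mem (J.mul_mem_left _ (hJ _ _ (by omega))) (JP _)) (JQ _),
        mul_left_cancel₀ h0 ?_⟩
      simp only [smul_eq_mul] at r ⊢
      linear_combination r
  rw [hbot] at JP JQ
  obtain ⟨l, l0, l1, l2⟩ := joint P' Q' hc' θ JP JQ (b none) (by rw [θe]; exact one_ne_zero)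
  refine l0 (no_kernel b π hπ h0 hd (E - a • 1) (E' - a' • 1) l ?_ ?_)
  · rw [← l1, P'z, hP]
    simp only [LinearMap.add_apply, LinearMap.smul_apply, LinearMap.sub_apply, End.one_apply]
    module
  · rw [← l2, Q'z, hQ]
    simp only [LinearMap.add_apply, LinearMap.smul_apply, LinearMap.sub_apply, End.one_apply]
    module

theorem unit_of (hπ : π ∈ IsLocalRing.maximalIdeal O) (f : End O V) (s : T d → ℕ × ℕ)
    (hs : ∀ t, t.1.1 + t.1.2 < (s t).1 + (s t).2) (h1 : ∀ t, f (b (some t)) = W b (s t).1 (s t).2)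
    (h2 : ∃ y, f (b none) = π • y) : IsUnit (1 + f) := by
  let g : End O V := b.constr O fun
    | some t => W b (s t).1 (s t).2
    | none => 0
  have g1 : ∀ t : T d, g (b (some t)) = W b (s t).1 (s t).2 := fun t => Basis.constr_basis _ _ _ _
  have g2 : g (b none) = 0 := Basis.constr_basis _ _ _ _
  have gn : ∀ n i j, d ≤ i + j + n → (g ^ n) (W b i j) = 0 := by
    intro n
    induction n with
    | zero => intro i j h; rw [W_out b (by omega), map_zero]
    | succ n ih =>
      intro i j h
      by_cases h' : i + j < d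
      · have := hs ⟨(i, j), h'⟩
        rw [W, dif_pos h', pow_succ, End.mul_apply, g1]
        exact ih _ _ (by simp only at this; omega)
      · rw [W_out b (by omega), map_zero]
  have hn : IsNilpotent g := ⟨d + 1, b.ext fun t => by
    cases t with
    | none => rw [pow_succ, End.mul_apply, g2, map_zero]; rfl
    | some t => rw [← W_in]; exact gn _ _ _ (by omega)⟩
  rw [End.isUnit_iff]
  refine bij_of b hπ _ (1 + g) ((End.isUnit_iff _).1 hn.isUnit_one_add).2 fun t => ?_
  cases t with
  | none =>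
    obtain ⟨y, hy⟩ := h2
    exact ⟨y, by simp [hy, g2]⟩
  | some t => exact ⟨0, by simp [h1, g1]⟩

theorem main (hπ : π ∈ IsLocalRing.maximalIdeal O) (h0 : π ≠ 0) (m : ℕ) :
    ∃ n, 1 ≤ n ∧ ∃ A B : Matrix.GeneralLinearGroup (Fin n) O,
      (∀ i j, π ^ m ∣ (A.val * B.val - B.val * A.val) i j) ∧
      ∀ A' B' : Matrix.GeneralLinearGroup (Fin n) O, A' * B' = B' * A' →
        (∀ i j, π ^ 2 ∣ (A.val - A'.val) i j) → (∀ i j, π ^ 2 ∣ (B.val - B'.val) i j) → False := by
  letI := Fintype.ofFinite (Option (T (m + 1)))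
  let n := Fintype.card (Option (T (m + 1)))
  let b : Basis (Option (T (m + 1))) O (Fin n → O) :=
    (Pi.basisFun O (Fin n)).reindex (Fintype.equivFin _).symm
  obtain ⟨A, hA⟩ := (unit_of b π hπ (X b π) (fun t => (t.1.1 + 1, t.1.2)) (fun t => by simp)
    (fun t => by rw [← W_in, X_W]) ⟨-b none, by rw [X_e]; simp⟩).map
      (LinearMap.toMatrixAlgEquiv' (R := O) (n := Fin n))
  obtain ⟨B, hB⟩ := (unit_of b π hπ (Y b π) (fun t => (t.1.1, t.1.2 + 1)) (fun t => by simp)
    (fun t => by rw [← W_in, Y_W]) ⟨_, Y_e b π⟩).map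
      (LinearMap.toMatrixAlgEquiv' (R := O) (n := Fin n))
  refine ⟨n, Fintype.card_pos, A, B, fun i j => ?_, fun A' B' hc h1 h2 => ?_⟩
  · obtain ⟨D, hD⟩ := comm_XY b π
    have : (1 + X b π) * (1 + Y b π) - (1 + Y b π) * (1 + X b π) = π ^ (m + 1 + 1) • D := by
      rw [← hD]; noncomm_ring
    rw [hA, hB, ← map_mul, ← map_mul, ← map_sub, this, map_smul, Matrix.smul_apply, smul_eq_mul]
    exact (pow_dvd_pow π (by omega)).mul_right _
  · choose C hC using h1
    choose C' hC' using h2
    let φ := (LinearMap.toMatrixAlgEquiv' (R := O) (n := Fin n)).symm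
    have e1 : φ A'.val = 1 + (X b π + π ^ 2 • -φ (Matrix.of C)) := by
      have : A'.val = A.val - π ^ 2 • Matrix.of C := by
        ext i j
        have := hC i j
        simp only [Matrix.sub_apply, Matrix.smul_apply, Matrix.of_apply, smul_eq_mul] at this ⊢
        linear_combination -this
      rw [this, map_sub, map_smul, hA, AlgEquiv.symm_apply_apply]
      module
    have e2 : φ B'.val = 1 + (Y b π + π ^ 2 • -φ (Matrix.of C')) := by
      have : B'.val = B.val - π ^ 2 • Matrix.of C' := by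
        ext i j
        have := hC' i j
        simp only [Matrix.sub_apply, Matrix.smul_apply, Matrix.of_apply, smul_eq_mul] at this ⊢
        linear_combination -this
      rw [this, map_sub, map_smul, hB, AlgEquiv.symm_apply_apply]
      module
    have hc2 : Commute (φ A'.val) (φ B'.val) := by
      have : Commute A'.val B'.val := congrArg Units.val hc
      exact this.map φ
    rw [e1, e2] at hc2
    refine no_lift b π hπ h0 (by omega) (-φ (Matrix.of C)) (-φ (Matrix.of C')) ?_
    generalize X b π + π ^ 2 • -φ (Matrix.of C) = P at hc2 ⊢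
    generalize Y b π + π ^ 2 • -φ (Matrix.of C') = Q at hc2 ⊢
    have h3 : P * Q - Q * P = (1 + P) * (1 + Q) - (1 + Q) * (1 + P) := by noncomm_ring
    rw [hc2.eq, sub_self, sub_eq_zero] at h3
    exact h3

end Pool.Agent.H79.Pst
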