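import Mathlib

set_option autoImplicit false

namespace Pool.Agent.H79.QMatDefs

open MvPolynomial

/-- The edges `{i,j}` of a graph on `Fin n`, each listed once as a pair with `i < j`. -/
def Edge {n : ℕ} (G : SimpleGraph (Fin n)) : Type :=
  {p : Fin n × Fin n // p.1 < p.2 ∧ G.Adj p.1 p.2}

/-- The binomial generator `x_{i,k} x_{j,l} - x_{i,l} x_{j,k}` for edges `{i,j}` and `{k,l}`. -/
noncomputable def gen (F : Type) [Field F] {n m : ℕ} (G : SimpleGraph (Fin n))
    (H : SimpleGraph (Fin m)) (e : Edge G × Edge H) : MvPolynomial (Fin n × Fin m) F :=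
  X (e.1.1.1, e.2.1.1) * X (e.1.1.2, e.2.1.2) - X (e.1.1.1, e.2.1.2) * X (e.1.1.2, e.2.1.1)

/-- The ideal `J_{G,H}`. -/
noncomputable def idealJ (F : Type) [Field F] {n m : ℕ} (G : SimpleGraph (Fin n))
    (H : SimpleGraph (Fin m)) : Ideal (MvPolynomial (Fin n × Fin m) F) :=
  Ideal.span (Set.range (gen F G H))

/-- The Jacobian matrix of the generators, over the rational function field. -/
noncomputable def jac (F : Type) [Field F] {n m : ℕ} (G : SimpleGraph (Fin n))
    (H : SimpleGraph (Fin m)) :
    Matrix (Edge G × Edge H) (Fin n × Fin m) (FractionRing (MvPolynomial (Fin n × Fin m) F)) :=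
  fun e v => algebraMap (MvPolynomial (Fin n × Fin m) F) _ (pderiv v (gen F G H e))

/-- The analytic spread: the Krull dimension of the Rees algebra of `I` modulo the extension of
the ideal of the variables. -/
noncomputable def spread {F σ : Type} [Field F] (I : Ideal (MvPolynomial σ F)) : WithBot ℕ∞ :=
  ringKrullDim (reesAlgebra I ⧸
    (Ideal.span (Set.range (X : σ → MvPolynomial σ F))).map
      (algebraMap (MvPolynomial σ F) (reesAlgebra I)))

end Pool.Agent.H79.QMatDefs
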