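import Mathlib
import Pool.Agent.H79.QMatDefs

set_option autoImplicit false

namespace Pool.Agent.H79.QMat1

open MvPolynomial QMatDefs

variable {F σ ι : Type} [Field F]

noncomputable def rho (F σ : Type) [Field F] :
    MvPolynomial σ F →+* Polynomial (MvPolynomial σ F) :=
  eval₂Hom (Polynomial.C.comp C) (fun v => Polynomial.C (X v) * Polynomial.X)

@[simp] lemma rho_X (v : σ) : rho F σ (X v) = Polynomial.C (X v) * Polynomial.X := by
  simp [rho]

@[simp] lemma rho_C (a : F) : rho F σ (C a) = Polynomial.C (C a) := by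
  simp [rho]

lemma eval_rho (g : MvPolynomial σ F) : (rho F σ g).eval 1 = g := by
  induction g using MvPolynomial.induction_on with
  | C a => simp
  | add p q hp hq => simp [hp, hq]
  | mul_X p v hp => simp [hp]

lemma dvd_of_mem_m {a : MvPolynomial σ F} (ha : a ∈ Ideal.span (Set.range (X : σ → MvPolynomial σ F))) :
    Polynomial.X ∣ rho F σ a := by
  induction ha using Submodule.span_induction with
  | mem x hx => obtain ⟨v, rfl⟩ := hx; simp
  | zero => simp
  | add x y _ _ hx hy => rw [map_add]; exact dvd_add hx hy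
  | smul r x _ hx => rw [smul_eq_mul, map_mul]; exact Dvd.dvd.mul_left hx _

lemma dvd_of_mem_I {f : ι → MvPolynomial σ F}
    (hf : ∀ i, rho F σ (f i) = Polynomial.X ^ 2 * Polynomial.C (f i))
    {a : MvPolynomial σ F} (ha : a ∈ Ideal.span (Set.range f)) :
    Polynomial.X ^ 2 ∣ rho F σ a := by
  induction ha using Submodule.span_induction with
  | mem x hx => obtain ⟨v, rfl⟩ := hx; rw [hf]; exact Dvd.intro _ rfl
  | zero => simp
  | add x y _ _ hx hy => rw [map_add]; exact dvd_add hx hy
  | smul r x _ hx => rw [smul_eq_mul, map_mul]; exact Dvd.dvd.mul_left hx _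

lemma dvd_of_mem_pow {f : ι → MvPolynomial σ F}
    (hf : ∀ i, rho F σ (f i) = Polynomial.X ^ 2 * Polynomial.C (f i)) (t : ℕ) :
    ∀ a ∈ Ideal.span (Set.range f) ^ t, Polynomial.X ^ (2 * t) ∣ rho F σ a := by
  induction t with
  | zero => intro a _; simp
  | succ t ih =>
    intro a ha
    rw [pow_succ] at ha
    refine Submodule.mul_induction_on ha ?_ ?_
    · intro x hx y hy
      rw [map_mul, show 2 * (t + 1) = 2 * t + 2 by ring, pow_add]
      exact mul_dvd_mul (ih x hx) (dvd_of_mem_I hf hy)
    · intro x y hx hy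
      rw [map_add]; exact dvd_add hx hy

noncomputable def psi (f : ι → MvPolynomial σ F) :
    MvPolynomial ι F →+* reesAlgebra (Ideal.span (Set.range f)) :=
  eval₂Hom ((algebraMap (MvPolynomial σ F) _).comp C)
    (fun i => ⟨Polynomial.monomial 1 (f i), reesAlgebra.monomial_mem.mpr
      (by rw [pow_one]; exact Ideal.subset_span ⟨i, rfl⟩)⟩)

lemma psi_X (f : ι → MvPolynomial σ F) (i : ι) :
    (psi f (X i) : Polynomial (MvPolynomial σ F)) = Polynomial.monomial 1 (f i) := by
  simp [psi]

lemma psi_C (f : ι → MvPolynomial σ F) (a : F) :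
    psi f (C a) = algebraMap (MvPolynomial σ F) _ (C a) := by
  simp [psi]

lemma psi_C' (f : ι → MvPolynomial σ F) (a : F) :
    (psi f (C a) : Polynomial (MvPolynomial σ F)) = Polynomial.C (C a) := by
  rw [psi_C]; rfl

lemma psi_coeff {f : ι → MvPolynomial σ F}
    (hf : ∀ i, rho F σ (f i) = Polynomial.X ^ 2 * Polynomial.C (f i)) (g : MvPolynomial ι F) :
    ∀ t, rho F σ ((psi f g : Polynomial (MvPolynomial σ F)).coeff t) =
      Polynomial.X ^ (2 * t) * Polynomial.C ((psi f g : Polynomial (MvPolynomial σ F)).coeff t) := by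
  induction g using MvPolynomial.induction_on with
  | C a =>
    intro t
    rw [psi_C', Polynomial.coeff_C]
    split_ifs with h
    · subst h; simp
    · simp
  | add p q hp hq =>
    intro t
    rw [map_add, Subalgebra.coe_add, Polynomial.coeff_add, map_add, hp, hq, map_add, mul_add]
  | mul_X p v hp =>
    intro t
    rw [map_mul, Subalgebra.coe_mul, psi_X]
    cases t with
    | zero => simp [Polynomial.mul_coeff_zero]
    | succ t =>
      rw [Polynomial.coeff_mul_monomial, map_mul, hp, hf, map_mul]
      ring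

lemma psi_eval (f : ι → MvPolynomial σ F) (g : MvPolynomial ι F) :
    (psi f g : Polynomial (MvPolynomial σ F)).eval 1 = aeval f g := by
  induction g using MvPolynomial.induction_on with
  | C a => rw [psi_C']; simp
  | add p q hp hq => rw [map_add, Subalgebra.coe_add, Polynomial.eval_add, hp, hq, map_add]
  | mul_X p v hp => rw [map_mul, Subalgebra.coe_mul, psi_X, Polynomial.eval_mul, hp]; simp

lemma dvd_of_mem_map {f : ι → MvPolynomial σ F}
    (hf : ∀ i, rho F σ (f i) = Polynomial.X ^ 2 * Polynomial.C (f i))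
    {p : reesAlgebra (Ideal.span (Set.range f))}
    (hp : p ∈ (Ideal.span (Set.range (X : σ → MvPolynomial σ F))).map
      (algebraMap (MvPolynomial σ F) (reesAlgebra (Ideal.span (Set.range f))))) :
    ∀ t, Polynomial.X ^ (2 * t + 1) ∣ rho F σ ((p : Polynomial (MvPolynomial σ F)).coeff t) := by
  induction hp using Submodule.span_induction with
  | mem x hx =>
    obtain ⟨a, ha, rfl⟩ := hx
    intro t
    have : ((algebraMap (MvPolynomial σ F) (reesAlgebra (Ideal.span (Set.range f))) a :
      reesAlgebra (Ideal.span (Set.range f))) : Polynomial (MvPolynomial σ F)) = Polynomial.C a := rfl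
    rw [this, Polynomial.coeff_C]
    split_ifs with h
    · subst h; simpa using dvd_of_mem_m ha
    · simp
  | zero => intro t; simp
  | add x y _ _ hx hy =>
    intro t
    rw [Subalgebra.coe_add, Polynomial.coeff_add, map_add]; exact dvd_add (hx t) (hy t)
  | smul r x _ hx =>
    intro t
    rw [smul_eq_mul, Subalgebra.coe_mul, Polynomial.coeff_mul, map_sum]
    refine Finset.dvd_sum ?_
    rintro ⟨i, j⟩ hij
    have hij' : i + j = t := by simpa using hij
    rw [map_mul, show 2 * t + 1 = 2 * i + (2 * j + 1) by omega, pow_add]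
    exact mul_dvd_mul (dvd_of_mem_pow hf i _ (r.2 i)) (hx j)

lemma dim_of_bij {A B : Type} [CommRing A] [CommRing B] (Φ : A →+* B) (h : Function.Bijective Φ) :
    ringKrullDim A = ringKrullDim B :=
  ringKrullDim_eq_of_ringEquiv (RingEquiv.ofBijective Φ h)

theorem spread_eq [Finite ι] {f : ι → MvPolynomial σ F}
    (hf : ∀ i, rho F σ (f i) = Polynomial.X ^ 2 * Polynomial.C (f i))
    (hai : AlgebraicIndependent F f) :
    spread (Ideal.span (Set.range f)) = Nat.card ι := by
  set M := (Ideal.span (Set.range (X : σ → MvPolynomial σ F))).map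
      (algebraMap (MvPolynomial σ F) (reesAlgebra (Ideal.span (Set.range f)))) with hM
  let Φ := (Ideal.Quotient.mk M).comp (psi f)
  have hinj : Function.Injective Φ := by
    rw [injective_iff_map_eq_zero]
    intro g hg
    have h1 : psi f g ∈ M := Ideal.Quotient.eq_zero_iff_mem.mp hg
    have h2 : (psi f g : Polynomial (MvPolynomial σ F)) = 0 := by
      ext1 t
      have h3 := dvd_of_mem_map hf h1 t
      rw [psi_coeff hf, pow_succ] at h3
      have h4 := (mul_dvd_mul_iff_left (pow_ne_zero _ Polynomial.X_ne_zero)).mp h3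
      rw [Polynomial.X_dvd_iff] at h4
      simpa using h4
    have h5 : aeval f g = 0 := by rw [← psi_eval, h2]; simp
    exact hai (by rw [h5, map_zero])
  have halg : ∀ s : MvPolynomial σ F, Ideal.Quotient.mk M
      (algebraMap (MvPolynomial σ F) (reesAlgebra (Ideal.span (Set.range f))) s) ∈ Φ.range := by
    intro s
    refine ⟨C (constantCoeff s), ?_⟩
    simp only [Φ, RingHom.comp_apply, psi_C]
    rw [Ideal.Quotient.eq, ← map_sub]
    refine Ideal.mem_map_of_mem _ ?_
    induction s using MvPolynomial.induction_on with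
    | C a => simp
    | add p q hp hq =>
      have := Ideal.add_mem _ hp hq
      convert this using 1
      simp only [map_add]; ring
    | mul_X p v hp =>
      simp only [map_mul, constantCoeff_X, mul_zero, C_0, zero_sub]
      exact neg_mem (Ideal.mul_mem_left _ _ (Ideal.subset_span ⟨v, rfl⟩))
  have hsurj : Function.Surjective Φ := by
    intro q
    obtain ⟨⟨p, hp⟩, rfl⟩ := Ideal.Quotient.mk_surjective q
    have hp' := hp
    rw [← adjoin_monomial_eq_reesAlgebra] at hp'
    suffices h : ∀ hp : p ∈ reesAlgebra (Ideal.span (Set.range f)),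
        Ideal.Quotient.mk M ⟨p, hp⟩ ∈ Φ.range from h hp
    clear hp
    induction hp' using Algebra.adjoin_induction with
    | mem x hx =>
      obtain ⟨r, hr, rfl⟩ := hx
      induction hr using Submodule.span_induction with
      | mem y hy =>
        obtain ⟨i, rfl⟩ := hy
        intro h
        refine ⟨X i, ?_⟩
        simp only [Φ, RingHom.comp_apply]
        congr 1
        exact Subtype.ext (psi_X f i)
      | zero =>
        intro h
        have : (⟨_, h⟩ : reesAlgebra (Ideal.span (Set.range f))) = 0 := Subtype.ext (by simp)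
        rw [this, map_zero]; exact zero_mem _
      | add a b ha hb iha ihb =>
        intro h
        have ha' : Polynomial.monomial 1 a ∈ reesAlgebra (Ideal.span (Set.range f)) :=
          reesAlgebra.monomial_mem.mpr (by rwa [pow_one])
        have hb' : Polynomial.monomial 1 b ∈ reesAlgebra (Ideal.span (Set.range f)) :=
          reesAlgebra.monomial_mem.mpr (by rwa [pow_one])
        have : (⟨_, h⟩ : reesAlgebra (Ideal.span (Set.range f))) = ⟨_, ha'⟩ + ⟨_, hb'⟩ :=
          Subtype.ext (by simp)
        rw [this, map_add]; exact add_mem (iha ha') (ihb hb')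
      | smul c a ha iha =>
        intro h
        have ha' : Polynomial.monomial 1 a ∈ reesAlgebra (Ideal.span (Set.range f)) :=
          reesAlgebra.monomial_mem.mpr (by rwa [pow_one])
        have : (⟨_, h⟩ : reesAlgebra (Ideal.span (Set.range f))) =
            algebraMap (MvPolynomial σ F) _ c * ⟨_, ha'⟩ := by
          apply Subtype.ext
          change Polynomial.monomial 1 (c • a) = Polynomial.C c * Polynomial.monomial 1 a
          simp
        rw [this, map_mul]; exact mul_mem (halg c) (iha ha')
    | algebraMap r => intro h; exact halg r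
    | add x y hx hy ihx ihy =>
      intro h
      rw [adjoin_monomial_eq_reesAlgebra] at hx hy
      have : (⟨_, h⟩ : reesAlgebra (Ideal.span (Set.range f))) = ⟨_, hx⟩ + ⟨_, hy⟩ := rfl
      rw [this, map_add]; exact add_mem (ihx hx) (ihy hy)
    | mul x y hx hy ihx ihy =>
      intro h
      rw [adjoin_monomial_eq_reesAlgebra] at hx hy
      have : (⟨_, h⟩ : reesAlgebra (Ideal.span (Set.range f))) = ⟨_, hx⟩ * ⟨_, hy⟩ := rfl
      rw [this, map_mul]; exact mul_mem (ihx hx) (ihy hy)
  have hb : Function.Bijective Φ := ⟨hinj, hsurj⟩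
  have := dim_of_bij (A := MvPolynomial ι F) (B := reesAlgebra (Ideal.span (Set.range f)) ⧸ M) Φ hb
  unfold spread
  rw [← this, MvPolynomial.ringKrullDim_of_isNoetherianRing, ringKrullDim_eq_zero_of_field, zero_add]

/-- scaling all variables by a fixed homogeneous cubic keeps them independent -/
lemma ai_scale (D : MvPolynomial σ F) (hD : D ≠ 0)
    (hρ : rho F σ D = Polynomial.X ^ 3 * Polynomial.C D) :
    AlgebraicIndependent F (fun v : σ => D * X v) := by
  rw [algebraicIndependent_iff]
  intro g hg
  have key : ∀ g : MvPolynomial σ F, rho F σ (aeval (fun v : σ => D * X v) g) =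
      (rho F σ g).comp (Polynomial.C D * Polynomial.X ^ 4) := by
    intro g
    induction g using MvPolynomial.induction_on with
    | C a => simp
    | add p q hp hq => rw [map_add, map_add, hp, hq, map_add, Polynomial.add_comp]
    | mul_X p v hp =>
      rw [map_mul, map_mul, hp, map_mul, Polynomial.mul_comp, aeval_X, map_mul, hρ]
      simp only [rho_X, Polynomial.mul_comp, Polynomial.C_comp, Polynomial.X_comp]
      ring
  have h1 := key g
  rw [hg, map_zero] at h1
  rcases Polynomial.comp_eq_zero_iff.mp h1.symm with h | ⟨_, h⟩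
  · rw [← eval_rho g, h]; simp
  · exfalso
    have := congrArg (fun p => Polynomial.coeff p 4) h
    simp [Polynomial.coeff_C] at this
    exact hD this

abbrev K3 : SimpleGraph (Fin 3) := ⊤

def co (e : Edge K3) : Fin 3 := 3 - e.1.1 - e.1.2

noncomputable def cof (F : Type) [Field F] (v : Fin 3 × Fin 3) : MvPolynomial (Fin 3 × Fin 3) F :=
  X (v.1 + 1, v.2 + 1) * X (v.1 + 2, v.2 + 2) - X (v.1 + 1, v.2 + 2) * X (v.1 + 2, v.2 + 1)

noncomputable def dd (F : Type) [Field F] : MvPolynomial (Fin 3 × Fin 3) F :=
  X (0, 0) * cof F (0, 0) + X (0, 1) * cof F (0, 1) + X (0, 2) * cof F (0, 2)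

lemma edge_cases (e : Edge K3) : e.1 = (0, 1) ∨ e.1 = (0, 2) ∨ e.1 = (1, 2) := by
  obtain ⟨⟨i, j⟩, h, _⟩ := e
  simp only at h ⊢
  revert i j
  decide

lemma co_bij : Function.Bijective co := by
  constructor
  · intro a b h
    apply Subtype.ext
    unfold co at h
    rcases edge_cases a with ha | ha | ha <;> rcases edge_cases b with hb | hb | hb <;>
      rw [ha, hb] at h ⊢ <;> revert h <;> decide
  · intro i
    fin_cases i
    · exact ⟨⟨(1, 2), by decide⟩, by decide⟩
    · exact ⟨⟨(0, 2), by decide⟩, by decide⟩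
    · exact ⟨⟨(0, 1), by decide⟩, by decide⟩

lemma dd_ne : dd F ≠ 0 := by
  intro h
  have := congrArg (eval (fun v : Fin 3 × Fin 3 => if v.1 = v.2 then (1 : F) else 0)) h
  simp [dd, cof] at this

lemma gen_cof [CharP F 2] (e : Edge K3 × Edge K3) :
    aeval (cof F) (gen F K3 K3 e) = dd F * X (co e.1, co e.2) := by
  have h2 : (2 : MvPolynomial (Fin 3 × Fin 3) F) = 0 := CharTwo.two_eq_zero
  obtain ⟨a, b⟩ := e
  have e1 : (0 : Fin 3) + 1 = 1 := rfl
  have e2 : (0 : Fin 3) + 2 = 2 := rfl
  have e3 : (1 : Fin 3) + 1 = 2 := rfl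
  have e4 : (1 : Fin 3) + 2 = 0 := rfl
  have e5 : (2 : Fin 3) + 1 = 0 := rfl
  have e6 : (2 : Fin 3) + 2 = 1 := rfl
  have c1 : (3 : Fin 3) - 0 - 1 = 2 := rfl
  have c2 : (3 : Fin 3) - 0 - 2 = 1 := rfl
  have c3 : (3 : Fin 3) - 1 - 2 = 0 := rfl
  unfold gen co
  rcases edge_cases a with ha | ha | ha <;> rcases edge_cases b with hb | hb | hb <;>
    simp only [ha, hb, map_sub, map_mul, aeval_X, dd, cof, e1, e2, e3, e4, e5, e6, c1, c2, c3] <;>
    first
      | ring1
      | (rw [← CharTwo.neg_eq (_ - _)]; ring1)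

lemma ai_gen [CharP F 2] : AlgebraicIndependent F (gen F K3 K3) := by
  have hρ : rho F _ (dd F) = Polynomial.X ^ 3 * Polynomial.C (dd F) := by
    simp only [dd, cof, map_add, map_mul, map_sub, rho_X]; ring
  have h1 := (ai_scale (dd F) dd_ne hρ).comp (fun e : Edge K3 × Edge K3 => (co e.1, co e.2))
    (fun a b h => Prod.ext (co_bij.1 (congrArg Prod.fst h)) (co_bij.1 (congrArg Prod.snd h)))
  refine AlgebraicIndependent.of_comp (aeval (cof F)) ?_
  convert h1 using 1
  funext e
  exact gen_cof e

theorem spread_K3 [CharP F 2] : spread (idealJ F K3 K3) = 9 := by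
  have : Finite (Edge K3) := Finite.of_injective _ co_bij.1
  have hc : Nat.card (Edge K3) = 3 := by
    rw [Nat.card_eq_of_bijective _ co_bij]; simp
  unfold idealJ
  rw [spread_eq _ ai_gen, Nat.card_prod, hc]
  · rfl
  · intro e
    simp only [gen, map_sub, map_mul, rho_X]; ring

theorem rank_K3 [CharP F 2] : (jac F K3 K3).rank ≤ 8 := by
  let L := FractionRing (MvPolynomial (Fin 3 × Fin 3) F)
  let x : Fin 3 × Fin 3 → L := fun v => algebraMap (MvPolynomial (Fin 3 × Fin 3) F) L (X v)
  have hx : (jac F K3 K3).mulVecLin x = 0 := by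
    funext e
    have hh : (gen F K3 K3 e).IsHomogeneous 2 :=
      ((isHomogeneous_X _ _).mul (isHomogeneous_X _ _)).sub
        ((isHomogeneous_X _ _).mul (isHomogeneous_X _ _))
    have h1 := hh.sum_X_mul_pderiv
    rw [two_smul, CharTwo.add_self_eq_zero] at h1
    have h2 := congrArg (algebraMap (MvPolynomial (Fin 3 × Fin 3) F) L) h1
    rw [map_sum, map_zero] at h2
    simp only [Matrix.mulVecLin_apply, Matrix.mulVec, dotProduct, jac, Pi.zero_apply, x]
    rw [← h2]
    refine Finset.sum_congr rfl fun v _ => ?_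
    rw [map_mul, mul_comm]
  have hx0 : x ≠ 0 := by
    intro h
    have := congrFun h (0, 0)
    simp only [x, Pi.zero_apply] at this
    exact X_ne_zero _ ((IsFractionRing.injective _ L) (this.trans (map_zero _).symm))
  have h3 : Module.finrank L (LinearMap.range (jac F K3 K3).mulVecLin) +
      Module.finrank L (LinearMap.ker (jac F K3 K3).mulVecLin) =
      Module.finrank L (Fin 3 × Fin 3 → L) :=
    LinearMap.finrank_range_add_finrank_ker (jac F K3 K3).mulVecLin
  have h4 : 0 < Module.finrank L (LinearMap.ker (jac F K3 K3).mulVecLin) := by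
    rw [Module.finrank_pos_iff_exists_ne_zero]
    exact ⟨⟨x, hx⟩, fun h => hx0 (congrArg Subtype.val h)⟩
  simp only [Module.finrank_fintype_fun_eq_card, Fintype.card_prod, Fintype.card_fin] at h3
  have h5 : (jac F K3 K3).rank = Module.finrank L (LinearMap.range (jac F K3 K3).mulVecLin) := rfl
  omega

end Pool.Agent.H79.QMat1
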