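import Mathlib

set_option autoImplicit false

namespace Pool.Agent.H79.QMat2

open MvPolynomial

universe u v

variable {F : Type} [Field F]

lemma ai_mono {ι σ : Type} (d : ι → σ →₀ ℕ)
    (hd : Function.Injective (fun α : ι →₀ ℕ => α.sum (fun i n => n • d i))) :
    AlgebraicIndependent F (fun i => (monomial (d i) 1 : MvPolynomial σ F)) := by
  classical
  rw [algebraicIndependent_iff]
  intro p hp
  have h1 : ∀ (α : ι →₀ ℕ) (c : F), aeval (fun i => (monomial (d i) 1 : MvPolynomial σ F))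
      (monomial α c) = monomial (α.sum (fun i n => n • d i)) c := by
    intro α c
    rw [aeval_monomial]
    simp only [monomial_pow, one_pow, Finsupp.prod, Finsupp.sum]
    rw [← monomial_sum_one, algebraMap_eq, C_mul_monomial, mul_one]
  ext α
  have h2 := congrArg (coeff (α.sum (fun i n => n • d i))) hp
  conv_lhs at h2 => rw [p.as_sum, map_sum, coeff_sum]
  simp only [h1, coeff_monomial, coeff_zero] at h2
  rw [Finset.sum_eq_single α] at h2
  · simpa using h2
  · intro β _ hβ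
    rw [if_neg (fun h => hβ (hd h))]
  · intro h
    simpa using h

lemma ai_pairs {k : ℕ} {σ : Type} [DecidableEq σ] (s t : Fin k → σ)
    (h : ∀ α β : Fin k → ℕ, (∀ w : σ,
      ∑ i, α i * ((if s i = w then 1 else 0) + (if t i = w then 1 else 0)) =
      ∑ i, β i * ((if s i = w then 1 else 0) + (if t i = w then 1 else 0))) → α = β) :
    AlgebraicIndependent F (fun i => (X (s i) * X (t i) : MvPolynomial σ F)) := by
  have := ai_mono (F := F) (fun i => Finsupp.single (s i) 1 + Finsupp.single (t i) 1) (by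
    intro α β hαβ
    apply DFunLike.coe_injective
    apply h
    intro w
    have := DFunLike.congr_fun hαβ w
    dsimp only at this
    rw [Finsupp.sum_fintype _ _ (by intro i; exact zero_smul _ _),
      Finsupp.sum_fintype _ _ (by intro i; exact zero_smul _ _)] at this
    simp only [Finsupp.coe_finsetSum, Finset.sum_apply,
      Finsupp.smul_apply, Finsupp.add_apply, Finsupp.single_apply, smul_eq_mul] at this
    exact this)
  convert this using 2 with i
  simp [X, monomial_mul]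

lemma not_ai {k : ℕ} {A : Type} [CommRing A] [Algebra F A] (f : Fin k → A)
    (p : MvPolynomial (Fin k) F) (z : Fin k → F) (hz : eval z p ≠ 0) (hp : aeval f p = 0) :
    ¬ AlgebraicIndependent F f := by
  intro h
  rw [algebraicIndependent_iff] at h
  rw [h p hp] at hz
  simp at hz

noncomputable def g (F : Type) [Field F] : Fin 13 → MvPolynomial (Fin 4) F :=
  ![X 0 * X 0, X 1 * X 1, X 2 * X 2, X 0 * X 0 + X 1 * X 1, X 0 * X 0 + X 2 * X 2,
    X 1 * X 1 + X 2 * X 2, X 0 * X 0 + X 1 * X 1 + X 2 * X 2,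
    X 0 * X 1, X 0 * X 2, X 0 * X 3, X 2 * X 3, X 1 * X 3, X 1 * X 2]

lemma g_hom (i : Fin 13) : (g F i).IsHomogeneous 2 := by
  have h : ∀ a b : Fin 4, (X a * X b : MvPolynomial (Fin 4) F).IsHomogeneous 2 :=
    fun a b => (isHomogeneous_X _ _).mul (isHomogeneous_X _ _)
  fin_cases i
  exacts [h 0 0, h 1 1, h 2 2, (h 0 0).add (h 1 1), (h 0 0).add (h 2 2), (h 1 1).add (h 2 2),
    ((h 0 0).add (h 1 1)).add (h 2 2), h 0 1, h 0 2, h 0 3, h 2 3, h 1 3, h 1 2]

lemma ai_sq : AlgebraicIndependent F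
    (fun i : Fin 3 => (X (i.castSucc) * X (i.castSucc) : MvPolynomial (Fin 4) F)) := by
  apply ai_pairs
  intro α β h
  have h0 := h 0
  have h1 := h 1
  have h2 := h 2
  simp +decide only [Fin.sum_univ_three, if_true, if_false] at h0 h1 h2
  funext i
  fin_cases i <;> simp <;> omega

lemma ai_lin (l m : Fin 3 → MvPolynomial (Fin 3) F) (h : ∀ i, aeval m (l i) = X i)
    (ι : Fin 3 → Fin 13)
    (hg : ∀ i, g F (ι i) = aeval
      (fun i : Fin 3 => (X (i.castSucc) * X (i.castSucc) : MvPolynomial (Fin 4) F)) (l i)) :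
    AlgebraicIndependent F (g F ∘ ι) := by
  have h1 : AlgebraicIndependent F l := by
    refine AlgebraicIndependent.of_comp (aeval m) ?_
    have : aeval m ∘ l = X := funext h
    rw [this]
    exact MvPolynomial.algebraicIndependent_X _ _
  have h2 := h1.map' (f := aeval
      (fun i : Fin 3 => (X (i.castSucc) * X (i.castSucc) : MvPolynomial (Fin 4) F))) ai_sq
  convert h2 using 1
  funext i
  exact hg i

variable {K : Type u} [Field K] {V : Type v} [AddCommGroup V] [Module K V]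

lemma det_iff {n : ℕ} {b : Fin n → V} (hb : LinearIndependent K b) (M : Matrix (Fin n) (Fin n) K)
    (w : Fin n → V) (hw : ∀ i, w i = ∑ j, M i j • b j) :
    LinearIndependent K w ↔ M.det ≠ 0 := by
  have hinj : Function.Injective (Fintype.linearCombination K b) := by
    rw [injective_iff_map_eq_zero]
    intro c hc
    funext j
    exact Fintype.linearIndependent_iff.mp hb c hc j
  have h1 : w = Fintype.linearCombination K b ∘ M.row := by
    funext i
    rw [hw]; rfl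
  rw [h1, LinearMap.linearIndependent_iff _ (LinearMap.ker_eq_bot.mpr hinj),
    Matrix.linearIndependent_rows_iff_isUnit, Matrix.isUnit_iff_isUnit_det, isUnit_iff_ne_zero]

lemma coords {n : ℕ} {b : Fin n → V} (hb : LinearIndependent K b) (x : V)
    (hx : ¬ LinearIndependent K (Fin.cons x b : Fin (n + 1) → V)) :
    ∃ c : Fin n → K, x = ∑ j, c j • b j := by
  rw [linearIndependent_finCons] at hx
  have : x ∈ Submodule.span K (Set.range b) := by
    by_contra h
    exact hx ⟨hb, h⟩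
  obtain ⟨c, hc⟩ := (Submodule.mem_span_range_iff_exists_fun K).mp this
  exact ⟨c, hc.symm⟩

lemma tup (v : Fin 13 → V)
    (hS : ∀ S : Set (Fin 13), LinearIndependent K (fun i : S => v i) ↔
      AlgebraicIndependent F (fun i : S => g F i))
    {k : ℕ} (ι : Fin k → Fin 13) (hι : Function.Injective ι) :
    LinearIndependent K (v ∘ ι) ↔ AlgebraicIndependent F (g F ∘ ι) := by
  have h := hS (Set.range ι)
  rw [← linearIndependent_equiv (Equiv.ofInjective ι hι),
    ← algebraicIndependent_equiv (Equiv.ofInjective ι hι)] at h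
  exact h

lemma ai4 (s t : Fin 4 → Fin 4) (ι : Fin 4 → Fin 13)
    (hg : ∀ i, g F (ι i) = X (s i) * X (t i))
    (h : ∀ α β : Fin 4 → ℕ, (∀ w : Fin 4,
      ∑ i, α i * ((if s i = w then 1 else 0) + (if t i = w then 1 else 0)) =
      ∑ i, β i * ((if s i = w then 1 else 0) + (if t i = w then 1 else 0))) → α = β) :
    AlgebraicIndependent F (g F ∘ ι) := by
  convert ai_pairs (F := F) s t h using 1
  funext i
  exact hg i

lemma fano (v : Fin 13 → V)
    (hT : ∀ {k : ℕ} (ι : Fin k → Fin 13), Function.Injective ι →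
      (LinearIndependent K (v ∘ ι) ↔ AlgebraicIndependent F (g F ∘ ι))) [CharP F 2] :
    (2 : K) = 0 := by
  have h2 : (2 : MvPolynomial (Fin 4) F) = 0 := CharTwo.two_eq_zero
  have hb : LinearIndependent K (v ∘ ![0, 1, 2]) := by
    rw [hT _ (by decide)]
    exact ai_lin X X (fun i => by simp) _ (fun i => by fin_cases i <;> simp [g])
  have hco : ∀ (x : Fin 13), Function.Injective ![x, 0, 1, 2] →
      ¬ AlgebraicIndependent F (g F ∘ ![x, 0, 1, 2]) →
      ∃ c : Fin 3 → K, v x = ∑ j, c j • (v ∘ ![0, 1, 2]) j := by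
    intro x hx hn
    rw [← hT _ hx] at hn
    refine coords hb _ ?_
    convert hn using 2
    funext i
    fin_cases i <;> rfl
  obtain ⟨d, hd⟩ := hco 3 (by decide) (not_ai _ (X 0 - X 1 - X 2) ![1, 0, 0, 0] (by simp) (by simp [g]))
  obtain ⟨e, he⟩ := hco 4 (by decide) (not_ai _ (X 0 - X 1 - X 3) ![1, 0, 0, 0] (by simp) (by simp [g]))
  obtain ⟨f, hf⟩ := hco 5 (by decide) (not_ai _ (X 0 - X 2 - X 3) ![1, 0, 0, 0] (by simp) (by simp [g]))
  obtain ⟨k, hk⟩ := hco 6 (by decide)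
    (not_ai _ (X 0 - X 1 - X 2 - X 3) ![1, 0, 0, 0] (by simp) (by simp [g]; ring))
  have ha0 : v 0 = ∑ j, (![1, 0, 0] : Fin 3 → K) j • (v ∘ ![0, 1, 2]) j := by simp [Fin.sum_univ_three]
  have ha1 : v 1 = ∑ j, (![0, 1, 0] : Fin 3 → K) j • (v ∘ ![0, 1, 2]) j := by simp [Fin.sum_univ_three]
  have ha2 : v 2 = ∑ j, (![0, 0, 1] : Fin 3 → K) j • (v ∘ ![0, 1, 2]) j := by simp [Fin.sum_univ_three]
  have key : ∀ (x y z : Fin 13) (p q r : Fin 3 → K), Function.Injective ![x, y, z] →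
      v x = ∑ j, p j • (v ∘ ![0, 1, 2]) j → v y = ∑ j, q j • (v ∘ ![0, 1, 2]) j →
      v z = ∑ j, r j • (v ∘ ![0, 1, 2]) j →
      (AlgebraicIndependent F (g F ∘ ![x, y, z]) ↔
        p 0 * q 1 * r 2 - p 0 * q 2 * r 1 - p 1 * q 0 * r 2 + p 1 * q 2 * r 0 + p 2 * q 0 * r 1 -
          p 2 * q 1 * r 0 ≠ 0) := by
    intro x y z p q r hi hx hy hz
    rw [← hT _ hi, det_iff hb (Matrix.of ![p, q, r]) _ (fun i => by
      fin_cases i
      exacts [hx, hy, hz]), Matrix.det_fin_three]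
    rfl
  have n1 := (key 3 1 2 _ _ _ (by decide) hd ha1 ha2).mp (ai_lin ![X 0 + X 1, X 1, X 2]
    ![X 0 - X 1, X 1, X 2] (fun i => by fin_cases i <;> simp) _ (fun i => by fin_cases i <;> simp [g]))
  have n2 := (key 0 1 4 _ _ _ (by decide) ha0 ha1 he).mp (ai_lin ![X 0, X 1, X 0 + X 2]
    ![X 0, X 1, X 2 - X 0] (fun i => by fin_cases i <;> simp) _ (fun i => by fin_cases i <;> simp [g]))
  have n3 := (key 0 5 2 _ _ _ (by decide) ha0 hf ha2).mp (ai_lin ![X 0, X 1 + X 2, X 2]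
    ![X 0, X 1 - X 2, X 2] (fun i => by fin_cases i <;> simp) _ (fun i => by fin_cases i <;> simp [g]))
  have n4 := (key 6 1 2 _ _ _ (by decide) hk ha1 ha2).mp (ai_lin ![X 0 + X 1 + X 2, X 1, X 2]
    ![X 0 - X 1 - X 2, X 1, X 2] (fun i => by fin_cases i <;> simp; ring) _
    (fun i => by fin_cases i <;> simp [g]))
  have n5 := (key 0 6 2 _ _ _ (by decide) ha0 hk ha2).mp (ai_lin ![X 0, X 0 + X 1 + X 2, X 2]
    ![X 0, X 1 - X 0 - X 2, X 2] (fun i => by fin_cases i <;> simp; ring) _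
    (fun i => by fin_cases i <;> simp [g]))
  have n6 := (key 0 1 6 _ _ _ (by decide) ha0 ha1 hk).mp (ai_lin ![X 0, X 1, X 0 + X 1 + X 2]
    ![X 0, X 1, X 2 - X 0 - X 1] (fun i => by fin_cases i <;> simp) _
    (fun i => by fin_cases i <;> simp [g]))
  have z1 := mt (key 0 1 3 _ _ _ (by decide) ha0 ha1 hd).mpr
    (not_ai _ (X 2 - X 0 - X 1) ![0, 0, 1] (by simp) (by simp [g]))
  have z2 := mt (key 0 2 4 _ _ _ (by decide) ha0 ha2 he).mpr
    (not_ai _ (X 2 - X 0 - X 1) ![0, 0, 1] (by simp) (by simp [g]))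
  have z3 := mt (key 1 2 5 _ _ _ (by decide) ha1 ha2 hf).mpr
    (not_ai _ (X 2 - X 0 - X 1) ![0, 0, 1] (by simp) (by simp [g]))
  have z4 := mt (key 2 3 6 _ _ _ (by decide) ha2 hd hk).mpr
    (not_ai _ (X 2 - X 0 - X 1) ![0, 0, 1] (by simp) (by simp [g]))
  have z5 := mt (key 1 4 6 _ _ _ (by decide) ha1 he hk).mpr
    (not_ai _ (X 2 - X 0 - X 1) ![0, 0, 1] (by simp) (by simp [g]; ring))
  have z6 := mt (key 0 5 6 _ _ _ (by decide) ha0 hf hk).mpr
    (not_ai _ (X 2 - X 0 - X 1) ![0, 0, 1] (by simp) (by simp [g]; ring))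
  have z7 := mt (key 3 4 5 _ _ _ (by decide) hd he hf).mpr
    (not_ai _ (X 2 - X 0 - X 1) ![0, 0, 1] (by simp) (by
      simp [g]; linear_combination (-(X 0 * X 0) : MvPolynomial (Fin 4) F) * h2))
  simp only [Matrix.cons_val_zero, Matrix.cons_val_one, Matrix.cons_val, not_not, ne_eq] at *
  have m1 : d 0 ≠ 0 := fun h => n1 (by linear_combination h)
  have m2 : e 2 ≠ 0 := fun h => n2 (by linear_combination h)
  have m3 : f 1 ≠ 0 := fun h => n3 (by linear_combination h)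
  have m4 : k 0 ≠ 0 := fun h => n4 (by linear_combination h)
  have m5 : k 1 ≠ 0 := fun h => n5 (by linear_combination h)
  have m6 : k 2 ≠ 0 := fun h => n6 (by linear_combination h)
  have y1 : d 2 = 0 := by linear_combination z1
  have y2 : e 1 = 0 := by linear_combination -z2
  have y3 : f 0 = 0 := by linear_combination z3
  have y4 : d 0 * k 1 = d 1 * k 0 := by linear_combination z4
  have y5 : e 0 * k 2 = e 2 * k 0 := by linear_combination -z5
  have y6 : f 1 * k 2 = f 2 * k 1 := by linear_combination z6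
  rw [y1, y2, y3] at z7
  have y7 : d 0 * e 2 * f 1 + d 1 * e 0 * f 2 = 0 := by linear_combination -z7
  have : 2 * (d 0 * e 2 * f 1 * (k 0 * k 1 * k 2)) = 0 := by
    have a1 : d 0 * e 2 * f 1 * (k 0 * k 1 * k 2) = (d 0 * k 1) * (e 2 * k 0) * (f 1 * k 2) := by ring
    have a2 : d 1 * e 0 * f 2 * (k 0 * k 1 * k 2) = (d 1 * k 0) * (e 0 * k 2) * (f 2 * k 1) := by ring
    have a3 : d 0 * e 2 * f 1 * (k 0 * k 1 * k 2) = d 1 * e 0 * f 2 * (k 0 * k 1 * k 2) := by
      rw [a1, a2, y4, y5, y6]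
    linear_combination (k 0 * k 1 * k 2) * y7 + a3
  exact (mul_eq_zero.mp this).resolve_right
    (mul_ne_zero (mul_ne_zero (mul_ne_zero m1 m2) m3) (mul_ne_zero (mul_ne_zero m4 m5) m6))

def det4 (p q r s : Fin 4 → K) : K :=
  p 0 * q 1 * r 2 * s 3 - p 0 * q 1 * r 3 * s 2 - p 0 * q 2 * r 1 * s 3
      + p 0 * q 2 * r 3 * s 1 + p 0 * q 3 * r 1 * s 2 - p 0 * q 3 * r 2 * s 1
      - p 1 * q 0 * r 2 * s 3 + p 1 * q 0 * r 3 * s 2 + p 1 * q 2 * r 0 * s 3
      - p 1 * q 2 * r 3 * s 0 - p 1 * q 3 * r 0 * s 2 + p 1 * q 3 * r 2 * s 0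
      + p 2 * q 0 * r 1 * s 3 - p 2 * q 0 * r 3 * s 1 - p 2 * q 1 * r 0 * s 3
      + p 2 * q 1 * r 3 * s 0 + p 2 * q 3 * r 0 * s 1 - p 2 * q 3 * r 1 * s 0
      - p 3 * q 0 * r 1 * s 2 + p 3 * q 0 * r 2 * s 1 + p 3 * q 1 * r 0 * s 2
      - p 3 * q 1 * r 2 * s 0 - p 3 * q 2 * r 0 * s 1 + p 3 * q 2 * r 1 * s 0
     

lemma det4_eq (p q r s : Fin 4 → K) : (Matrix.of ![p, q, r, s]).det = det4 p q r s := by
  simp +decide [Matrix.det_succ_row_zero, Fin.sum_univ_succ, det4, Fin.succAbove, Matrix.submatrix]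
  ring

lemma dualnf (v : Fin 13 → V)
    (hT : ∀ {k : ℕ} (ι : Fin k → Fin 13), Function.Injective ι →
      (LinearIndependent K (v ∘ ι) ↔ AlgebraicIndependent F (g F ∘ ι))) :
    (2 : K) ≠ 0 := by
  intro h2
  have hai : ∀ (s t : Fin 4 → Fin 4) (ι : Fin 4 → Fin 13),
      (∀ i, g F (ι i) = X (s i) * X (t i)) →
      (∀ α β : Fin 4 → ℕ, (∀ w : Fin 4,
      α 0 * ((if s 0 = w then 1 else 0) + (if t 0 = w then 1 else 0)) +
      α 1 * ((if s 1 = w then 1 else 0) + (if t 1 = w then 1 else 0)) +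
      α 2 * ((if s 2 = w then 1 else 0) + (if t 2 = w then 1 else 0)) +
      α 3 * ((if s 3 = w then 1 else 0) + (if t 3 = w then 1 else 0)) =
      β 0 * ((if s 0 = w then 1 else 0) + (if t 0 = w then 1 else 0)) +
      β 1 * ((if s 1 = w then 1 else 0) + (if t 1 = w then 1 else 0)) +
      β 2 * ((if s 2 = w then 1 else 0) + (if t 2 = w then 1 else 0)) +
      β 3 * ((if s 3 = w then 1 else 0) + (if t 3 = w then 1 else 0))) →
      α 0 = β 0 ∧ α 1 = β 1 ∧ α 2 = β 2 ∧ α 3 = β 3) →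
      AlgebraicIndependent F (g F ∘ ι) := by
    intro s t ι hg h
    refine ai4 s t ι hg fun α β hw => ?_
    simp only [Fin.sum_univ_four] at hw
    obtain ⟨a, b, c, d⟩ := h α β hw
    funext i
    fin_cases i
    exacts [a, b, c, d]
  have hb : LinearIndependent K (v ∘ ![0, 7, 8, 9]) := by
    rw [hT _ (by decide)]
    refine hai ![0, 0, 0, 0] ![0, 1, 2, 3] _ (fun i => by fin_cases i <;> rfl) fun α β h => ?_
    have h0 := h 0
    have h1 := h 1
    have h2 := h 2
    have h3 := h 3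
    simp +decide only [if_true, if_false] at h0 h1 h2 h3
    omega
  have hco : ∀ (x : Fin 13), Function.Injective ![x, 0, 7, 8, 9] →
      ¬ AlgebraicIndependent F (g F ∘ ![x, 0, 7, 8, 9]) →
      ∃ c : Fin 4 → K, v x = ∑ j, c j • (v ∘ ![0, 7, 8, 9]) j := by
    intro x hx hn
    rw [← hT _ hx] at hn
    refine coords hb _ ?_
    convert hn using 2
    funext i
    fin_cases i <;> rfl
  obtain ⟨a, ha⟩ := hco 10 (by decide)
    (not_ai _ (X 0 * X 1 - X 3 * X 4) ![1, 1, 0, 0, 0] (by simp) (by simp [g]; ring))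
  obtain ⟨b, hb'⟩ := hco 11 (by decide)
    (not_ai _ (X 0 * X 1 - X 2 * X 4) ![1, 1, 0, 0, 0] (by simp) (by simp [g]; ring))
  obtain ⟨c, hc⟩ := hco 12 (by decide)
    (not_ai _ (X 0 * X 1 - X 2 * X 3) ![1, 1, 0, 0, 0] (by simp) (by simp [g]; ring))
  have h0 : v 0 = ∑ j, (![1, 0, 0, 0] : Fin 4 → K) j • (v ∘ ![0, 7, 8, 9]) j := by
    simp [Fin.sum_univ_four]
  have h7 : v 7 = ∑ j, (![0, 1, 0, 0] : Fin 4 → K) j • (v ∘ ![0, 7, 8, 9]) j := by
    simp [Fin.sum_univ_four]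
  have h8 : v 8 = ∑ j, (![0, 0, 1, 0] : Fin 4 → K) j • (v ∘ ![0, 7, 8, 9]) j := by
    simp [Fin.sum_univ_four]
  have h9 : v 9 = ∑ j, (![0, 0, 0, 1] : Fin 4 → K) j • (v ∘ ![0, 7, 8, 9]) j := by
    simp [Fin.sum_univ_four]
  have key : ∀ (x y z w : Fin 13) (p q r s : Fin 4 → K), Function.Injective ![x, y, z, w] →
      v x = ∑ j, p j • (v ∘ ![0, 7, 8, 9]) j → v y = ∑ j, q j • (v ∘ ![0, 7, 8, 9]) j →
      v z = ∑ j, r j • (v ∘ ![0, 7, 8, 9]) j → v w = ∑ j, s j • (v ∘ ![0, 7, 8, 9]) j →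
      (AlgebraicIndependent F (g F ∘ ![x, y, z, w]) ↔ det4 p q r s ≠ 0) := by
    intro x y z w p q r s hi hx hy hz hw
    rw [← hT _ hi, det_iff hb (Matrix.of ![p, q, r, s]) _ (fun i => by
      fin_cases i
      exacts [hx, hy, hz, hw]), det4_eq]
  have n1 := (key 10 7 8 9 _ _ _ _ (by decide) ha h7 h8 h9).mp (by
    refine hai ![2, 0, 0, 0] ![3, 1, 2, 3] _ (fun i => by fin_cases i <;> rfl) fun α β h => ?_
    have h0 := h 0
    have h1 := h 1
    have h2 := h 2
    have h3 := h 3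
    simp +decide only [if_true, if_false] at h0 h1 h2 h3
    omega)
  have n2 := (key 11 7 8 9 _ _ _ _ (by decide) hb' h7 h8 h9).mp (by
    refine hai ![1, 0, 0, 0] ![3, 1, 2, 3] _ (fun i => by fin_cases i <;> rfl) fun α β h => ?_
    have h0 := h 0
    have h1 := h 1
    have h2 := h 2
    have h3 := h 3
    simp +decide only [if_true, if_false] at h0 h1 h2 h3
    omega)
  have n3 := (key 12 7 8 9 _ _ _ _ (by decide) hc h7 h8 h9).mp (by
    refine hai ![1, 0, 0, 0] ![2, 1, 2, 3] _ (fun i => by fin_cases i <;> rfl) fun α β h => ?_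
    have h0 := h 0
    have h1 := h 1
    have h2 := h 2
    have h3 := h 3
    simp +decide only [if_true, if_false] at h0 h1 h2 h3
    omega)
  have n4 := (key 0 10 11 12 _ _ _ _ (by decide) h0 ha hb' hc).mp (by
    refine hai ![0, 2, 1, 1] ![0, 3, 3, 2] _ (fun i => by fin_cases i <;> rfl) fun α β h => ?_
    have h0 := h 0
    have h1 := h 1
    have h2 := h 2
    have h3 := h 3
    simp +decide only [if_true, if_false] at h0 h1 h2 h3
    omega)
  have z1 := mt (key 0 10 8 9 _ _ _ _ (by decide) h0 ha h8 h9).mpr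
    (not_ai _ (X 0 * X 1 - X 2 * X 3) ![1, 1, 0, 0] (by simp) (by simp [g]; ring))
  have z2 := mt (key 0 7 11 9 _ _ _ _ (by decide) h0 h7 hb' h9).mpr
    (not_ai _ (X 0 * X 2 - X 1 * X 3) ![1, 0, 1, 0] (by simp) (by simp [g]; ring))
  have z3 := mt (key 0 7 8 12 _ _ _ _ (by decide) h0 h7 h8 hc).mpr
    (not_ai _ (X 0 * X 3 - X 1 * X 2) ![1, 0, 0, 1] (by simp) (by simp [g]; ring))
  have z4 := mt (key 7 8 10 11 _ _ _ _ (by decide) h7 h8 ha hb').mpr
    (not_ai _ (X 0 * X 2 - X 1 * X 3) ![1, 0, 1, 0] (by simp) (by simp [g]; ring))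
  have z5 := mt (key 7 9 10 12 _ _ _ _ (by decide) h7 h9 ha hc).mpr
    (not_ai _ (X 0 * X 2 - X 1 * X 3) ![1, 0, 1, 0] (by simp) (by simp [g]; ring))
  have z6 := mt (key 8 9 11 12 _ _ _ _ (by decide) h8 h9 hb' hc).mpr
    (not_ai _ (X 0 * X 2 - X 1 * X 3) ![1, 0, 1, 0] (by simp) (by simp [g]; ring))
  simp only [det4, Matrix.cons_val_zero, Matrix.cons_val_one, Matrix.cons_val, not_not, ne_eq,
    mul_zero, zero_mul, mul_one, one_mul, add_zero, zero_add, sub_zero, zero_sub]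
    at n1 n2 n3 n4 z1 z2 z3 z4 z5 z6
  rw [z1, z2, z3] at n4
  have y4 : a 0 * b 3 = b 0 * a 3 := by linear_combination z4
  have y5 : a 0 * c 2 = c 0 * a 2 := by linear_combination -z5
  have y6 : b 0 * c 1 = c 0 * b 1 := by linear_combination z6
  apply n4
  have a3 : a 0 * b 0 * c 0 * (a 2 * b 3 * c 1) = a 0 * b 0 * c 0 * (a 3 * b 1 * c 2) := by
    have a1 : a 0 * b 0 * c 0 * (a 2 * b 3 * c 1) = (a 0 * b 3) * (c 0 * a 2) * (b 0 * c 1) := by ring
    have a2 : a 0 * b 0 * c 0 * (a 3 * b 1 * c 2) = (b 0 * a 3) * (a 0 * c 2) * (c 0 * b 1) := by ring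
    rw [a1, a2, y4, y5, y6]
  have a4 := mul_left_cancel₀ (mul_ne_zero (mul_ne_zero n1 n2) n3) a3
  linear_combination a4 + (a 3 * b 1 * c 2) * h2

theorem not_rep [CharP F 2] (v : Fin 13 → V) :
    ¬ ∀ S : Set (Fin 13), LinearIndependent K (fun i : S => v i) ↔
      AlgebraicIndependent F (fun i : S => g F i) := fun hS =>
  dualnf (F := F) v (fun ι hι => tup v hS ι hι) (fano (F := F) v (fun ι hι => tup v hS ι hι))

end Pool.Agent.H79.QMat2
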