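import Mathlib

set_option autoImplicit false

namespace Pool.Agent.H79.Qv

universe u v

variable {K : Type} [Field K]

/-- extension of an operator by new generators. -/
def ext {G : Type} [AddCommGroup G] [Module K G] {N : Type u} [AddCommGroup N] [Module K N]
    (s : N →ₗ[K] N) (ξ : G →ₗ[K] N) : (G × N) →ₗ[K] (G × N) :=
  LinearMap.prod 0 (LinearMap.coprod ξ s)

@[simp] lemma ext_apply {G : Type} [AddCommGroup G] [Module K G] {N : Type u} [AddCommGroup N]
    [Module K N] (s : N →ₗ[K] N) (ξ : G →ₗ[K] N) (p : G × N) :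
    ext s ξ p = (0, ξ p.1 + s p.2) := rfl

/-- cocycles. -/
def ZG (G : Type) [AddCommGroup G] [Module K G] {N : Type u} [AddCommGroup N] [Module K N]
    (s t : N →ₗ[K] N) : Type u :=
  {z : (G →ₗ[K] N) × (G →ₗ[K] N) // t ∘ₗ z.1 = s ∘ₗ z.2}

/-- families of types attached to a space with two operators. -/
def Inv (K : Type) [Field K] : Type (u + 1) :=
  ∀ (N : Type u) [AddCommGroup N] [Module K N], (N →ₗ[K] N) → (N →ₗ[K] N) → Type u

def one : Inv.{u} K := fun _ _ _ _ _ => PUnit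

def step (G : Type) [AddCommGroup G] [Module K G] (T : Inv.{u} K) : Inv.{u} K :=
  fun N _ _ s t => Σ z : ZG G s t, T (G × N) (ext s z.1.1) (ext t z.1.2)

def pi (ι : Type) (T : ι → Inv.{u} K) : Inv.{u} K := fun N _ _ s t => ∀ i, T i N s t

def prod (T T' : Inv.{u} K) : Inv.{u} K := fun N _ _ s t => T N s t × T' N s t

def Rel2 (T : Inv.{u} K) (T' : Inv.{v} K) : Prop :=
  ∀ (N : Type u) [AddCommGroup N] [Module K N] (N' : Type v) [AddCommGroup N'] [Module K N']
    (s t : N →ₗ[K] N) (s' t' : N' →ₗ[K] N') (e : N ≃ₗ[K] N'),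
    (∀ x, e (s x) = s' (e x)) → (∀ x, e (t x) = t' (e x)) → Nonempty (T N s t ≃ T' N' s' t')

lemma rel_one : Rel2 (one.{u} : Inv K) one.{v} :=
  fun _ _ _ _ _ _ _ _ _ _ _ _ _ => ⟨Equiv.punitEquivPUnit⟩

lemma rel_pi {ι : Type} {T : ι → Inv.{u} K} {T' : ι → Inv.{v} K} (h : ∀ i, Rel2 (T i) (T' i)) :
    Rel2 (pi ι T) (pi ι T') := fun N _ _ N' _ _ s t s' t' e h1 h2 =>
  ⟨Equiv.piCongrRight fun i => (h i N N' s t s' t' e h1 h2).some⟩

lemma rel_prod {T1 T2 : Inv.{u} K} {T1' T2' : Inv.{v} K} (h : Rel2 T1 T1') (h' : Rel2 T2 T2') :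
    Rel2 (prod T1 T2) (prod T1' T2') := fun N _ _ N' _ _ s t s' t' e h1 h2 =>
  ⟨Equiv.prodCongr (h N N' s t s' t' e h1 h2).some (h' N N' s t s' t' e h1 h2).some⟩

lemma rel_step (G : Type) [AddCommGroup G] [Module K G] {T : Inv.{u} K} {T' : Inv.{v} K}
    (h : Rel2 T T') : Rel2 (step G T) (step G T') := by
  intro N _ _ N' _ _ s t s' t' e h1 h2
  have h1' : ∀ x, e.symm (s' x) = s (e.symm x) := fun x => by
    apply e.injective; simp [h1]
  have h2' : ∀ x, e.symm (t' x) = t (e.symm x) := fun x => by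
    apply e.injective; simp [h2]
  let E : ZG G s t ≃ ZG G s' t' :=
    { toFun := fun z => ⟨(e.toLinearMap ∘ₗ z.1.1, e.toLinearMap ∘ₗ z.1.2), by
        ext g
        have := LinearMap.congr_fun z.2 g
        simp only [LinearMap.comp_apply] at this
        simp [← h1, ← h2, this]⟩
      invFun := fun z => ⟨(e.symm.toLinearMap ∘ₗ z.1.1, e.symm.toLinearMap ∘ₗ z.1.2), by
        ext g
        have := LinearMap.congr_fun z.2 g
        simp only [LinearMap.comp_apply] at this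
        simp [← h1', ← h2', this]⟩
      left_inv := fun z => by
        apply Subtype.ext
        ext g <;> simp
      right_inv := fun z => by
        apply Subtype.ext
        ext g <;> simp }
  refine ⟨Equiv.sigmaCongr E fun z => Nonempty.some ?_⟩
  refine h _ _ _ _ _ _ ((LinearEquiv.refl K G).prodCongr e) ?_ ?_
  · intro x
    simp [E, h1]
  · intro x
    simp [E, h2]

/-- radical commuting extensions along an arrow `j`. -/
def Fib {N P : Type u} [AddCommGroup N] [Module K N] [AddCommGroup P] [Module K P]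
    (j : N →ₗ[K] P) (s t : N →ₗ[K] N) : Type u :=
  {p : (P →ₗ[K] P) × (P →ₗ[K] P) // p.1 ∘ₗ j = j ∘ₗ s ∧ p.2 ∘ₗ j = j ∘ₗ t ∧
    LinearMap.range p.1 ≤ LinearMap.range j ∧ LinearMap.range p.2 ≤ LinearMap.range j ∧
    p.1 ∘ₗ p.2 = p.2 ∘ₗ p.1}

lemma fib_step (G : Type) [AddCommGroup G] [Module K G] {N P : Type u} [AddCommGroup N]
    [Module K N] [AddCommGroup P] [Module K P] (j : N →ₗ[K] P) (φ : P ≃ₗ[K] G × N)
    (hφ : ∀ n, φ (j n) = (0, n)) (s t : N →ₗ[K] N) (hst : s ∘ₗ t = t ∘ₗ s) (T : Inv.{u} K)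
    (hT : Rel2 T T) (T' : Fib j s t → Type u)
    (hT' : ∀ p : Fib j s t, Nonempty (T' p ≃ T P p.1.1 p.1.2)) :
    Nonempty ((Σ p : Fib j s t, T' p) ≃ step G T N s t) := by
  have hj : ∀ n, φ.symm (0, n) = j n := fun n => by rw [← hφ, φ.symm_apply_apply]
  have key : ∀ (f : P →ₗ[K] P) (r : N →ₗ[K] N), f ∘ₗ j = j ∘ₗ r →
      LinearMap.range f ≤ LinearMap.range j → ∀ x, φ (f x) =
        ext r (LinearMap.snd K G N ∘ₗ φ.toLinearMap ∘ₗ f ∘ₗ φ.symm.toLinearMap ∘ₗ
          LinearMap.inl K G N) (φ x) := by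
    intro f r h1 h2 x
    obtain ⟨⟨g, n⟩, rfl⟩ := φ.symm.surjective x
    have e1 : φ.symm (g, n) = φ.symm (g, 0) + j n := by
      rw [← hj, ← map_add]; simp
    have e2 : f (j n) = j (r n) := LinearMap.congr_fun h1 n
    obtain ⟨m, hm⟩ := h2 ⟨φ.symm (g, 0), rfl⟩
    simp only [LinearEquiv.apply_symm_apply, ext_apply, LinearMap.comp_apply,
      LinearEquiv.coe_coe, LinearMap.inl_apply, LinearMap.snd_apply]
    rw [e1, map_add, e2, ← hm, map_add, hφ, hφ]
    simp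
  let E : Fib j s t ≃ ZG G s t :=
    { toFun := fun p => ⟨(LinearMap.snd K G N ∘ₗ φ.toLinearMap ∘ₗ p.1.1 ∘ₗ φ.symm.toLinearMap ∘ₗ
          LinearMap.inl K G N, LinearMap.snd K G N ∘ₗ φ.toLinearMap ∘ₗ p.1.2 ∘ₗ
          φ.symm.toLinearMap ∘ₗ LinearMap.inl K G N), by
        obtain ⟨⟨f, g⟩, h1, h2, h3, h4, h5⟩ := p
        ext x
        have e1 := congrArg φ (LinearMap.congr_fun h5 (φ.symm (x, 0)))
        simp only [LinearMap.comp_apply] at e1
        rw [key f s h1 h3, key g t h2 h4, key g t h2 h4, key f s h1 h3] at e1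
        simpa [Prod.mk_zero_zero] using (congrArg Prod.snd e1).symm⟩
      invFun := fun z => ⟨(φ.symm.toLinearMap ∘ₗ ext s z.1.1 ∘ₗ φ.toLinearMap,
          φ.symm.toLinearMap ∘ₗ ext t z.1.2 ∘ₗ φ.toLinearMap), by
        refine ⟨?_, ?_, ?_, ?_, ?_⟩
        · ext n; simp [hφ, hj]
        · ext n; simp [hφ, hj]
        · rintro _ ⟨x, rfl⟩
          exact ⟨_, (hj _).symm⟩
        · rintro _ ⟨x, rfl⟩
          exact ⟨_, (hj _).symm⟩
        · ext x
          have e1 := LinearMap.congr_fun z.2 (φ x).1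
          have e2 := LinearMap.congr_fun hst (φ x).2
          simp only [LinearMap.comp_apply] at e1 e2
          simp [e1, e2]⟩
      left_inv := fun p => by
        obtain ⟨⟨f, g⟩, h1, h2, h3, h4, h5⟩ := p
        apply Subtype.ext
        ext x
        · simp only [LinearMap.comp_apply, LinearEquiv.coe_coe]
          rw [← key f s h1 h3, φ.symm_apply_apply]
        · simp only [LinearMap.comp_apply, LinearEquiv.coe_coe]
          rw [← key g t h2 h4, φ.symm_apply_apply]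
      right_inv := fun z => by
        apply Subtype.ext
        ext x <;> simp }
  refine ⟨Equiv.sigmaCongr E fun p => (hT' p).some.trans (Nonempty.some ?_)⟩
  exact hT _ _ _ _ _ _ φ (key _ _ p.2.1 p.2.2.2.1) (key _ _ p.2.2.1 p.2.2.2.2.1)

/-- the observables. -/
def T0 (K : Type) [Field K] : Inv.{u} K := step K one
def T1 (K : Type) [Field K] : Inv.{u} K := step K (T0 K)
def Tc (K : Type) [Field K] (k : ℕ) : Inv.{u} K := step K (pi (Fin k) fun _ => T1 K)
def Tb (K : Type) [Field K] (a : ℕ) {m : ℕ} (k : Fin m → ℕ) : Inv.{u} K :=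
  prod (pi (Fin a) fun _ => T0 K) (pi (Fin m) fun i => Tc K (k i))
def Tv (K : Type) [Field K] (a : ℕ) {m : ℕ} (k : Fin m → ℕ) : Inv.{u} K :=
  step (K × K) (step K (Tb K a k))

lemma rel_T0 : Rel2 (T0.{u} K) (T0.{v} K) := rel_step _ rel_one
lemma rel_T1 : Rel2 (T1.{u} K) (T1.{v} K) := rel_step _ rel_T0
lemma rel_Tc (k : ℕ) : Rel2 (Tc.{u} K k) (Tc.{v} K k) := rel_step _ (rel_pi fun _ => rel_T1)
lemma rel_Tb (a : ℕ) {m : ℕ} (k : Fin m → ℕ) : Rel2 (Tb.{u} K a k) (Tb.{v} K a k) :=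
  rel_prod (rel_pi fun _ => rel_T0) (rel_pi fun _ => rel_Tc _)
lemma rel_Tv (a : ℕ) {m : ℕ} (k : Fin m → ℕ) : Rel2 (Tv.{u} K a k) (Tv.{v} K a k) :=
  rel_step _ (rel_step _ (rel_Tb a k))

end Pool.Agent.H79.Qv
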