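import Pool.Agent.H79.Qv1

set_option autoImplicit false

namespace Pool.Agent.H79.Qv

section general

variable {V : Type} [Quiver.{1} V] (d : V → ℕ) (K : Type) [Field K]

abbrev Idx (x : V) : Type 1 := Σ i : V, Fin (d i) × Quiver.Path i x

abbrev PP (x : V) : Type 1 := Idx d x →₀ K

noncomputable abbrev arr {y x : V} (e : y ⟶ x) : PP d K y →ₗ[K] PP d K x :=
  Finsupp.lmapDomain K K fun z : Idx d y => (⟨z.1, z.2.1, z.2.2.cons e⟩ : Idx d x)

lemma exists_phi {y x : V} (e : y ⟶ x)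
    (hu : ∀ (y' : V) (e' : y' ⟶ x), (⟨y', e'⟩ : Σ y, y ⟶ x) = ⟨y, e⟩) :
    ∃ φ : PP d K x ≃ₗ[K] (Fin (d x) →₀ K) × PP d K y, ∀ n, φ (arr d K e n) = (0, n) := by
  let F : Fin (d x) ⊕ Idx d y → Idx d x := fun s => match s with
    | Sum.inl k => ⟨x, k, Quiver.Path.nil⟩
    | Sum.inr z => ⟨z.1, z.2.1, z.2.2.cons e⟩
  have hF : Function.Bijective F := by
    constructor
    · rintro (k | ⟨i, k, p⟩) (k' | ⟨i', k', p'⟩) h
      · simp only [F, Sigma.mk.injEq, heq_eq_eq, true_and, Prod.mk.injEq, and_true] at h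
        rw [h]
      · exfalso
        have := congrArg (fun z : Idx d x => z.2.2.length) h
        simp [F] at this
      · exfalso
        have := congrArg (fun z : Idx d x => z.2.2.length) h
        simp [F] at this
      · simp only [F, Sigma.mk.injEq] at h
        obtain ⟨rfl, h⟩ := h
        simp only [heq_eq_eq, Prod.mk.injEq, Quiver.Path.cons.injEq, true_and, and_true] at h
        obtain ⟨rfl, rfl⟩ := h
        rfl
    · rintro ⟨i, k, p⟩
      cases p with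
      | nil => exact ⟨Sum.inl k, rfl⟩
      | cons p e' =>
        have := hu _ e'
        simp only [Sigma.mk.injEq] at this
        obtain ⟨rfl, h⟩ := this
        rw [heq_eq_eq] at h
        subst h
        exact ⟨Sum.inr ⟨i, k, p⟩, rfl⟩
  let E := Equiv.ofBijective F hF
  refine ⟨(Finsupp.domLCongr E.symm).trans (Finsupp.sumFinsuppLEquivProdFinsupp K), fun n => ?_⟩
  induction n using Finsupp.induction_linear with
  | zero => simp
  | add a b ha hb => rw [map_add, map_add, ha, hb]; simp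
  | single z c =>
    have h1 : E.symm ⟨z.1, z.2.1, z.2.2.cons e⟩ = Sum.inr z := by
      rw [Equiv.symm_apply_eq]; rfl
    simp only [Finsupp.lmapDomain_apply, Finsupp.mapDomain_single, LinearEquiv.trans_apply,
      Finsupp.domLCongr_single, h1]
    ext a
    · simp
    · simp [Finsupp.single_apply]

lemma exists_phi1 {y x : V} (e : y ⟶ x)
    (hu : ∀ (y' : V) (e' : y' ⟶ x), (⟨y', e'⟩ : Σ y, y ⟶ x) = ⟨y, e⟩) (hd : d x = 1) :
    ∃ φ : PP d K x ≃ₗ[K] K × PP d K y, ∀ n, φ (arr d K e n) = (0, n) := by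
  obtain ⟨φ, hφ⟩ := exists_phi d K e hu
  have ψ : (Fin (d x) →₀ K) ≃ₗ[K] K := LinearEquiv.ofFinrankEq _ _ (by simp [hd])
  exact ⟨φ.trans (ψ.prodCongr (LinearEquiv.refl K _)), fun n => by
    rw [LinearEquiv.trans_apply, hφ]; simp⟩

lemma exists_phi2 {y x : V} (e : y ⟶ x)
    (hu : ∀ (y' : V) (e' : y' ⟶ x), (⟨y', e'⟩ : Σ y, y ⟶ x) = ⟨y, e⟩) (hd : d x = 2) :
    ∃ φ : PP d K x ≃ₗ[K] (K × K) × PP d K y, ∀ n, φ (arr d K e n) = (0, n) := by
  obtain ⟨φ, hφ⟩ := exists_phi d K e hu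
  have ψ : (Fin (d x) →₀ K) ≃ₗ[K] K × K := LinearEquiv.ofFinrankEq _ _ (by simp [hd])
  exact ⟨φ.trans (ψ.prodCongr (LinearEquiv.refl K _)), fun n => by
    rw [LinearEquiv.trans_apply, hφ]; simp⟩

lemma isup_eq {y x : V} (e : y ⟶ x)
    (hu : ∀ (y' : V) (e' : y' ⟶ x), (⟨y', e'⟩ : Σ y, y ⟶ x) = ⟨y, e⟩) :
    (⨆ (u : V) (e' : u ⟶ x), LinearMap.range (arr d K e')) = LinearMap.range (arr d K e) := by
  apply le_antisymm
  · refine iSup_le fun u => iSup_le fun e' => ?_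
    have := hu _ e'
    simp only [Sigma.mk.injEq] at this
    obtain ⟨rfl, h⟩ := this
    rw [heq_eq_eq] at h
    subst h
    exact le_rfl
  · exact le_iSup₂_of_le (f := fun (u : V) (e' : u ⟶ x) => LinearMap.range (arr d K e')) y e le_rfl

lemma exists_root {x : V} (hu : ∀ y' : V, IsEmpty (y' ⟶ x)) (hd : d x = 1) :
    Nonempty (PP d K x ≃ₗ[K] K) := by
  have : Unique (Idx d x) :=
    { default := ⟨x, ⟨0, by omega⟩, Quiver.Path.nil⟩
      uniq := by
        rintro ⟨i, k, p⟩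
        cases p with
        | nil =>
          have : k = ⟨0, by omega⟩ := Fin.ext (by have := k.2; omega)
          rw [this]
        | cons p e' => exact ((hu _).false e').elim }
  exact ⟨Finsupp.uniqueLinearEquiv K K default⟩

/-- the set of commuting pairs. -/
def CP : Type 1 :=
  {fg : (∀ v : V, PP d K v →ₗ[K] PP d K v) × (∀ v : V, PP d K v →ₗ[K] PP d K v) //
    (∀ (v w : V) (e : v ⟶ w), (fg.1 w).comp (arr d K e) = (arr d K e).comp (fg.1 v)) ∧
    (∀ (v w : V) (e : v ⟶ w), (fg.2 w).comp (arr d K e) = (arr d K e).comp (fg.2 v)) ∧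
    (∀ v : V, LinearMap.range (fg.1 v) ≤ ⨆ (u : V) (e : u ⟶ v), LinearMap.range (arr d K e)) ∧
    (∀ v : V, LinearMap.range (fg.2 v) ≤ ⨆ (u : V) (e : u ⟶ v), LinearMap.range (arr d K e)) ∧
    (∀ v : V, (fg.1 v).comp (fg.2 v) = (fg.2 v).comp (fg.1 v))}

end general

/-- vertices of the tree. -/
inductive Vx (a m : ℕ) (k : Fin m → ℕ) : Type
  | w | v | u
  | p (i : Fin a)
  | c (i : Fin m)
  | r (i : Fin m) (j : Fin (k i))
  | z (i : Fin m) (j : Fin (k i))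
  deriving DecidableEq

variable {a m : ℕ} {k : Fin m → ℕ}

instance : Finite (Vx a m k) := by
  let F : Fin 3 ⊕ Fin a ⊕ Fin m ⊕ (Σ i : Fin m, Fin (k i)) ⊕ (Σ i : Fin m, Fin (k i)) →
      Vx a m k := fun s => match s with
    | .inl 0 => .w
    | .inl 1 => .v
    | .inl 2 => .u
    | .inr (.inl i) => .p i
    | .inr (.inr (.inl i)) => .c i
    | .inr (.inr (.inr (.inl x))) => .r x.1 x.2
    | .inr (.inr (.inr (.inr x))) => .z x.1 x.2
  refine Finite.of_surjective F fun x => ?_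
  cases x with
  | w => exact ⟨.inl 0, rfl⟩
  | v => exact ⟨.inl 1, rfl⟩
  | u => exact ⟨.inl 2, rfl⟩
  | p i => exact ⟨.inr (.inl i), rfl⟩
  | c i => exact ⟨.inr (.inr (.inl i)), rfl⟩
  | r i j => exact ⟨.inr (.inr (.inr (.inl ⟨i, j⟩))), rfl⟩
  | z i j => exact ⟨.inr (.inr (.inr (.inr ⟨i, j⟩))), rfl⟩

/-- arrows of the tree. -/
inductive Ar : Vx a m k → Vx a m k → Type 1
  | wv : Ar .w .v
  | vu : Ar .v .u
  | up (i : Fin a) : Ar .u (.p i)
  | uc (i : Fin m) : Ar .u (.c i)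
  | cr (i : Fin m) (j : Fin (k i)) : Ar (.c i) (.r i j)
  | rz (i : Fin m) (j : Fin (k i)) : Ar (.r i j) (.z i j)

instance : Quiver.{1} (Vx a m k) := ⟨Ar⟩

lemma ar_uniq {y x : Vx a m k} (e : y ⟶ x) (y' : Vx a m k) (e' : y' ⟶ x) :
    (⟨y', e'⟩ : Σ y, y ⟶ x) = ⟨y, e⟩ := by
  change Ar _ _ at e e'
  cases e <;> cases e' <;> rfl

instance (y x : Vx a m k) : Finite (y ⟶ x) := by
  have : Subsingleton (y ⟶ x) := ⟨fun e e' => by
    have := ar_uniq e y e'
    simp only [Sigma.mk.injEq, heq_eq_eq, true_and] at this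
    exact this.symm⟩
  infer_instance

def rk : Vx a m k → ℕ
  | .w => 0
  | .v => 1
  | .u => 2
  | .p _ => 3
  | .c _ => 3
  | .r _ _ => 4
  | .z _ _ => 5

lemma rk_path {x y : Vx a m k} (p : Quiver.Path x y) : rk y = rk x + p.length := by
  induction p with
  | nil => rfl
  | cons p e ih =>
    rw [Quiver.Path.length_cons, ← add_assoc, ← ih]
    change Ar _ _ at e
    cases e <;> rfl

lemma acyc (x : Vx a m k) (p : Quiver.Path x x) : p.length = 0 := by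
  have := rk_path p
  omega

def dd : Vx a m k → ℕ
  | .v => 2
  | _ => 1

variable (K : Type) [Field K]

abbrev ar {y x : Vx a m k} (e : Ar y x) : y ⟶ x := e

/-- nested form. -/
def Nest (a m : ℕ) (k : Fin m → ℕ) : Type 1 :=
  Σ fv : Fib (arr (dd (a := a) (k := k)) K (ar .wv)) 0 0,
    Σ fu : Fib (arr dd K (ar .vu)) fv.1.1 fv.1.2,
      (∀ i : Fin a, Σ _ : Fib (arr dd K (ar (.up i))) fu.1.1 fu.1.2, PUnit.{2}) ×
      (∀ i : Fin m, Σ fc : Fib (arr dd K (ar (.uc i))) fu.1.1 fu.1.2,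
        ∀ j : Fin (k i), Σ fr : Fib (arr dd K (ar (.cr i j))) fc.1.1 fc.1.2,
          Σ _ : Fib (arr dd K (ar (.rz i j))) fr.1.1 fr.1.2, PUnit.{2})

lemma root_zero (f : PP (dd (a := a) (k := k)) K .w →ₗ[K] PP dd K .w)
    (h : LinearMap.range f ≤ ⨆ (u : Vx a m k) (e : u ⟶ .w), LinearMap.range (arr dd K e)) :
    f = 0 := by
  rw [← LinearMap.range_eq_bot, eq_bot_iff]
  refine h.trans (iSup_le fun u => iSup_le fun e => ?_)
  change Ar _ _ at e
  cases e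

/-- restriction of a pair to an arrow. -/
def toFib (fg : CP (dd (a := a) (k := k)) K) {y x : Vx a m k} (e : y ⟶ x) :
    Fib (arr dd K e) (fg.1.1 y) (fg.1.2 y) :=
  ⟨(fg.1.1 x, fg.1.2 x), fg.2.1 _ _ e, fg.2.2.1 _ _ e,
    (fg.2.2.2.1 x).trans (isup_eq dd K e (ar_uniq e)).le,
    (fg.2.2.2.2.1 x).trans (isup_eq dd K e (ar_uniq e)).le, fg.2.2.2.2.2 x⟩

noncomputable def fam (n : Nest K a m k) :
    ∀ x : Vx a m k, (PP dd K x →ₗ[K] PP dd K x) × (PP dd K x →ₗ[K] PP dd K x)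
  | .w => (0, 0)
  | .v => n.1.1
  | .u => n.2.1.1
  | .p i => (n.2.2.1 i).1.1
  | .c i => (n.2.2.2 i).1.1
  | .r i j => ((n.2.2.2 i).2 j).1.1
  | .z i j => ((n.2.2.2 i).2 j).2.1.1

lemma fam_spec (n : Nest K a m k) {y x : Vx a m k} (e : y ⟶ x) :
    (fam K n x).1 ∘ₗ arr dd K e = arr dd K e ∘ₗ (fam K n y).1 ∧
    (fam K n x).2 ∘ₗ arr dd K e = arr dd K e ∘ₗ (fam K n y).2 ∧
    LinearMap.range (fam K n x).1 ≤ LinearMap.range (arr dd K e) ∧
    LinearMap.range (fam K n x).2 ≤ LinearMap.range (arr dd K e) ∧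
    (fam K n x).1 ∘ₗ (fam K n x).2 = (fam K n x).2 ∘ₗ (fam K n x).1 := by
  change Ar _ _ at e
  cases e with
  | wv => exact n.1.2
  | vu => exact n.2.1.2
  | up i => exact (n.2.2.1 i).1.2
  | uc i => exact (n.2.2.2 i).1.2
  | cr i j => exact ((n.2.2.2 i).2 j).1.2
  | rz i j => exact ((n.2.2.2 i).2 j).2.1.2

lemma has_in (x : Vx a m k) : x = .w ∨ ∃ y, Nonempty (y ⟶ x) := by
  cases x with
  | w => exact Or.inl rfl
  | v => exact Or.inr ⟨_, ⟨Ar.wv⟩⟩
  | u => exact Or.inr ⟨_, ⟨Ar.vu⟩⟩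
  | p i => exact Or.inr ⟨_, ⟨Ar.up i⟩⟩
  | c i => exact Or.inr ⟨_, ⟨Ar.uc i⟩⟩
  | r i j => exact Or.inr ⟨_, ⟨Ar.cr i j⟩⟩
  | z i j => exact Or.inr ⟨_, ⟨Ar.rz i j⟩⟩

noncomputable def ofNest (n : Nest K a m k) : CP (dd (a := a) (k := k)) K :=
  ⟨(fun x => (fam K n x).1, fun x => (fam K n x).2),
    fun _ _ e => (fam_spec K n e).1, fun _ _ e => (fam_spec K n e).2.1,
    fun x => by
      rcases has_in x with rfl | ⟨y, ⟨e⟩⟩
      · simp [fam]
      · rw [isup_eq dd K e (ar_uniq e)]; exact (fam_spec K n e).2.2.1,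
    fun x => by
      rcases has_in x with rfl | ⟨y, ⟨e⟩⟩
      · simp [fam]
      · rw [isup_eq dd K e (ar_uniq e)]; exact (fam_spec K n e).2.2.2.1,
    fun x => by
      rcases has_in x with rfl | ⟨y, ⟨e⟩⟩
      · rfl
      · exact (fam_spec K n e).2.2.2.2⟩

noncomputable def toNest (fg : CP (dd (a := a) (k := k)) K) : Nest K a m k :=
  ⟨⟨(fg.1.1 .v, fg.1.2 .v), by
      obtain ⟨h1, h2, h3, h4, h5⟩ := (toFib K fg (ar .wv)).2
      exact ⟨h1.trans (by rw [root_zero K _ (fg.2.2.2.1 .w)]),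
        h2.trans (by rw [root_zero K _ (fg.2.2.2.2.1 .w)]), h3, h4, h5⟩⟩,
    toFib K fg (ar .vu), fun i => ⟨toFib K fg (ar (.up i)), PUnit.unit⟩,
    fun i => ⟨toFib K fg (ar (.uc i)), fun j => ⟨toFib K fg (ar (.cr i j)),
      toFib K fg (ar (.rz i j)), PUnit.unit⟩⟩⟩

noncomputable def cpEquiv : CP (dd (a := a) (k := k)) K ≃ Nest K a m k where
  toFun := toNest K
  invFun := ofNest K
  left_inv fg := by
    apply Subtype.ext
    ext1
    · funext x
      cases x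
      · exact (root_zero K _ (fg.2.2.2.1 .w)).symm
      all_goals rfl
    · funext x
      cases x
      · exact (root_zero K _ (fg.2.2.2.2.1 .w)).symm
      all_goals rfl
  right_inv n := rfl

lemma fib1 {y x : Vx a m k} (e : y ⟶ x) (hd : dd x = 1) (s t : PP dd K y →ₗ[K] PP dd K y)
    (hst : s ∘ₗ t = t ∘ₗ s) (T : Inv.{1} K) (hT : Rel2 T T) (T' : Fib (arr dd K e) s t → Type 1)
    (hT' : ∀ p : Fib (arr dd K e) s t, Nonempty (T' p ≃ T _ p.1.1 p.1.2)) :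
    Nonempty ((Σ p : Fib (arr dd K e) s t, T' p) ≃ step K T _ s t) := by
  obtain ⟨φ, hφ⟩ := exists_phi1 dd K e (ar_uniq e) hd
  exact fib_step K _ φ hφ s t hst T hT T' hT'

theorem card_cp : Nat.card (CP (dd (a := a) (k := k)) K) = Nat.card (Tv.{0} K a k K 0 0) := by
  obtain ⟨ψ⟩ := exists_root (dd (a := a) (k := k)) K (x := .w) (fun y => ⟨fun e => by
    change Ar _ _ at e
    cases e⟩) rfl
  obtain ⟨E2⟩ := rel_Tv.{1, 0} a k _ K 0 0 0 0 ψ (by simp) (by simp)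
  obtain ⟨φ, hφ⟩ := exists_phi2 (dd (a := a) (k := k)) K (ar .wv) (ar_uniq _) rfl
  have E1 : Nonempty (Nest K a m k ≃ Tv.{1} K a k (PP (dd (a := a) (k := k)) K .w) 0 0) := by
    refine fib_step (K × K) _ φ hφ 0 0 rfl _ (rel_step _ (rel_Tb a k)) _ fun fv => ?_
    refine fib1 K (ar .vu) rfl _ _ fv.2.2.2.2.2 _ (rel_Tb a k) _ fun fu => ?_
    refine ⟨Equiv.prodCongr (Equiv.piCongrRight fun i => Nonempty.some ?_)
      (Equiv.piCongrRight fun i => Nonempty.some ?_)⟩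
    · exact fib1 K (ar (.up i)) rfl _ _ fu.2.2.2.2.2 one rel_one _ fun _ => ⟨Equiv.refl _⟩
    · refine fib1 K (ar (.uc i)) rfl _ _ fu.2.2.2.2.2 _ (rel_pi fun _ => rel_T1) _ fun fc => ?_
      refine ⟨Equiv.piCongrRight fun j => Nonempty.some ?_⟩
      refine fib1 K (ar (.cr i j)) rfl _ _ fc.2.2.2.2.2 _ rel_T0 _ fun fr => ?_
      exact fib1 K (ar (.rz i j)) rfl _ _ fr.2.2.2.2.2 one rel_one _ fun _ => ⟨Equiv.refl _⟩
  exact Nat.card_congr ((cpEquiv K).trans (E1.some.trans E2))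

end Pool.Agent.H79.Qv
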