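import Pool.Agent.H79.Qv1

set_option autoImplicit false

namespace Pool.Agent.H79.Qv

variable {K : Type} [Field K]

def FinI (T : Inv.{0} K) : Prop :=
  ∀ (N : Type) [AddCommGroup N] [Module K N] [Finite N] (s t : N →ₗ[K] N), Finite (T N s t)

instance finZG (G : Type) [AddCommGroup G] [Module K G] [Finite G] {N : Type} [AddCommGroup N]
    [Module K N] [Finite N] (s t : N →ₗ[K] N) : Finite (ZG G s t) := by
  unfold ZG
  have : Finite (G →ₗ[K] N) := Finite.of_injective _ DFunLike.coe_injective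
  infer_instance

lemma fin_one : FinI (one : Inv.{0} K) := fun _ _ _ _ _ _ => by
  unfold one; infer_instance

lemma fin_step (G : Type) [AddCommGroup G] [Module K G] [Finite G] {T : Inv.{0} K} (h : FinI T) :
    FinI (step G T) := fun N _ _ _ s t => by
  have : ∀ z : ZG G s t, Finite (T (G × N) (ext s z.1.1) (ext t z.1.2)) := fun z => h _ _ _
  unfold step; infer_instance

lemma fin_pi {ι : Type} [Finite ι] {T : ι → Inv.{0} K} (h : ∀ i, FinI (T i)) : FinI (pi ι T) :=
  fun N _ _ _ s t => by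
  have : ∀ i, Finite (T i N s t) := fun i => h i _ _ _
  unfold pi; infer_instance

lemma fin_prod {T T' : Inv.{0} K} (h : FinI T) (h' : FinI T') : FinI (prod T T') :=
  fun N _ _ _ s t => by
  have := h N s t
  have := h' N s t
  unfold prod; infer_instance

lemma fin_T0 [Finite K] : FinI (T0 K) := fin_step _ fin_one
lemma fin_T1 [Finite K] : FinI (T1 K) := fin_step _ fin_T0
lemma fin_Tc [Finite K] (k : ℕ) : FinI (Tc K k) := fin_step _ (fin_pi fun _ => fin_T1)
lemma fin_Tb [Finite K] (a : ℕ) {m : ℕ} (k : Fin m → ℕ) : FinI (Tb K a k) :=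
  fin_prod (fin_pi fun _ => fin_T0) (fin_pi fun _ => fin_Tc _)

section gen

variable {N : Type} [AddCommGroup N] [Module K N]

def Zs (s t : N →ₗ[K] N) : Submodule K (N × N) :=
  LinearMap.eqLocus (t ∘ₗ LinearMap.fst K N N) (s ∘ₗ LinearMap.snd K N N)

lemma mem_Zs {s t : N →ₗ[K] N} {p : N × N} : p ∈ Zs s t ↔ t p.1 = s p.2 := Iff.rfl

noncomputable instance (s t : N →ₗ[K] N) [Finite N] : Fintype (Zs s t) := Fintype.ofFinite _

def Rr (s t : N →ₗ[K] N) : Submodule K N := LinearMap.range (LinearMap.coprod t (-s))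

lemma mem_Rr {s t : N →ₗ[K] N} {w : N} : w ∈ Rr s t ↔ ∃ x y, t x - s y = w := by
  simp [Rr, sub_eq_add_neg, LinearMap.mem_range, -LinearMap.range_coprod]

def e1 (s : N →ₗ[K] N) (x : N) : K × N →ₗ[K] K × N := ext s (LinearMap.toSpanSingleton K N x)

@[simp] lemma e1_apply (s : N →ₗ[K] N) (x : N) (p : K × N) :
    e1 s x p = (0, p.1 • x + s p.2) := rfl

def zEquiv (s t : N →ₗ[K] N) : Zs s t ≃ ZG K s t where
  toFun p := ⟨(LinearMap.toSpanSingleton K N p.1.1, LinearMap.toSpanSingleton K N p.1.2), by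
    ext
    simpa using mem_Zs.1 p.2⟩
  invFun z := ⟨(z.1.1 1, z.1.2 1), LinearMap.congr_fun z.2 1⟩
  left_inv p := by
    apply Subtype.ext
    simp
  right_inv z := by
    apply Subtype.ext
    ext <;> simp

lemma card_step [Finite K] [Finite N] (T : Inv.{0} K) (hT : FinI T) (s t : N →ₗ[K] N) :
    Nat.card (step K T N s t) =
      ∑ p : Zs s t, Nat.card (T (K × N) (e1 s p.1.1) (e1 t p.1.2)) := by
  have : ∀ p : Zs s t, Finite (T (K × N) (e1 s p.1.1) (e1 t p.1.2)) := fun p => hT _ _ _
  rw [← Nat.card_sigma]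
  exact Nat.card_congr (Equiv.sigmaCongrLeft
    (β := fun z : ZG K s t => T _ (ext s z.1.1) (ext t z.1.2)) (zEquiv s t)).symm

lemma card_T0 [Finite K] [Finite N] (s t : N →ₗ[K] N) :
    Nat.card (T0 K N s t) = Nat.card (Zs s t) := by
  rw [T0, card_step _ fin_one]
  simp [one]

lemma card_T1 [Finite K] [Finite N] (s t : N →ₗ[K] N) :
    Nat.card (T1 K N s t) = ∑ p : Zs s t, Nat.card (Zs (e1 s p.1.1) (e1 t p.1.2)) := by
  rw [T1, card_step _ fin_T0]
  simp only [card_T0]

lemma card_Tc [Finite K] [Finite N] (k : ℕ) (s t : N →ₗ[K] N) :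
    Nat.card (Tc K k N s t) =
      ∑ p : Zs s t, Nat.card (T1 K (K × N) (e1 s p.1.1) (e1 t p.1.2)) ^ k := by
  rw [Tc, card_step _ (fin_pi fun _ => fin_T1)]
  simp [pi, Nat.card_pi]

lemma card_Tb (a : ℕ) {m : ℕ} (k : Fin m → ℕ) (s t : N →ₗ[K] N) :
    Nat.card (Tb K a k N s t) = Nat.card (T0 K N s t) ^ a * ∏ i, Nat.card (Tc K (k i) N s t) := by
  simp [Tb, prod, pi, Nat.card_pi]

lemma card_Z_mul (s t : N →ₗ[K] N) :
    Nat.card (Zs s t) * Nat.card (Rr s t) = Nat.card N ^ 2 := by
  have h1 : Zs s t = LinearMap.ker (LinearMap.coprod t (-s)) := by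
    ext p
    simp [mem_Zs, ← sub_eq_add_neg, sub_eq_zero]
  rw [h1, Rr, ← Nat.card_congr (LinearMap.quotKerEquivRange _).toEquiv,
    ← Submodule.card_eq_card_quotient_mul_card, Nat.card_prod, sq]

open Classical in
lemma card_fib (s t : N →ₗ[K] N) (w : N) :
    Nat.card {p : N × N // t p.1 - s p.2 = w} = if w ∈ Rr s t then Nat.card (Zs s t) else 0 := by
  split_ifs with h
  · obtain ⟨x, y, rfl⟩ := mem_Rr.1 h
    refine Nat.card_congr
      { toFun := fun p => ⟨(p.1.1 - x, p.1.2 - y), by
          rw [mem_Zs]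
          simp only [map_sub]
          linear_combination (norm := abel1) p.2⟩
        invFun := fun p => ⟨(p.1.1 + x, p.1.2 + y), by
          have := mem_Zs.1 p.2
          simp only [map_add]
          linear_combination (norm := abel1) this⟩
        left_inv := fun p => by simp
        right_inv := fun p => by simp }
  · have : IsEmpty {p : N × N // t p.1 - s p.2 = w} := ⟨fun p => h (mem_Rr.2 ⟨_, _, p.2⟩)⟩
    simp

open Classical in
lemma card_Z_e1 [Fintype K] [Finite N] (s t : N →ₗ[K] N) (x y : N) :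
    Nat.card (Zs (e1 s x) (e1 t y)) =
      ∑ ab : K × K, if ab.2 • x - ab.1 • y ∈ Rr s t then Nat.card (Zs s t) else 0 := by
  simp only [← card_fib]
  rw [← Nat.card_sigma]
  exact Nat.card_congr
    { toFun := fun p => ⟨(p.1.1.1, p.1.2.1), (p.1.1.2, p.1.2.2), by
        have := congrArg Prod.snd (mem_Zs.1 p.2)
        simp only [e1_apply] at this
        linear_combination (norm := abel1) this⟩
      invFun := fun p => ⟨((p.1.1, p.2.1.1), (p.1.2, p.2.1.2)), by
        rw [mem_Zs]
        simp only [e1_apply, Prod.mk.injEq, true_and]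
        linear_combination (norm := abel1) p.2.2⟩
      left_inv := fun p => rfl
      right_inv := fun p => rfl }

end gen

lemma sum_hom {A B : Type} [AddCommGroup A] [AddCommGroup B] [Fintype A] [Fintype B]
    (π : A →+ B) (hπ : Function.Surjective π) (g : B → ℚ) :
    (Fintype.card B : ℚ) * ∑ a, g (π a) = Fintype.card A * ∑ b, g b := by
  classical
  have hc : ∀ b, (Finset.univ.filter fun a => π a = b).card =
      (Finset.univ.filter fun a => π a = 0).card := fun b =>
    AddMonoidHom.card_fiber_eq_of_mem_range π (hπ b) (hπ 0)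
  have h1 : ∀ g : B → ℚ, ∑ a, g (π a) =
      (Finset.univ.filter fun a => π a = 0).card * ∑ b, g b := by
    intro g
    rw [← Finset.sum_fiberwise Finset.univ π, Finset.mul_sum]
    refine Finset.sum_congr rfl fun b _ => ?_
    rw [Finset.sum_congr rfl (g := fun _ => g b) fun a ha => by
      rw [(Finset.mem_filter.1 ha).2]]
    rw [Finset.sum_const, hc b, nsmul_eq_mul]
  have h2 := h1 fun _ => 1
  simp only [Finset.sum_const, Finset.card_univ, nsmul_eq_mul, mul_one] at h2
  rw [h1, h2]
  ring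

end Pool.Agent.H79.Qv
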