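import Pool.Agent.H79.Qv3

set_option autoImplicit false

namespace Pool.Agent.H79.Qv

variable {K : Type} [Field K]

lemma mem_Rr_e1 {N : Type} [AddCommGroup N] [Module K N] {s t : N →ₗ[K] N} {x y : N}
    (hx : x ∈ Rr s t) (hy : y ∈ Rr s t) (w : K × N) :
    w ∈ Rr (e1 s x) (e1 t y) ↔ w.1 = 0 ∧ w.2 ∈ Rr s t := by
  constructor
  · intro h
    obtain ⟨p, p', rfl⟩ := mem_Rr.1 h
    refine ⟨by simp, ?_⟩
    have e : (e1 t y p - e1 s x p').2 = (p.1 • y - p'.1 • x) + (t p.2 - s p'.2) := by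
      simp only [e1_apply, Prod.snd_sub]; abel
    rw [e]
    exact add_mem (sub_mem (Submodule.smul_mem _ _ hy) (Submodule.smul_mem _ _ hx))
      (mem_Rr.2 ⟨_, _, rfl⟩)
  · rintro ⟨h1, h2⟩
    obtain ⟨p, p', h⟩ := mem_Rr.1 h2
    refine mem_Rr.2 ⟨(0, p), (0, p'), ?_⟩
    ext
    · simp [h1]
    · simp [h]

abbrev NB (K : Type) : Type := K × ((K × K) × K)

def lf (u v : K) : K × K →ₗ[K] K := u • LinearMap.fst K K K + v • LinearMap.snd K K K

def sB (B : K × K × K) : NB K →ₗ[K] NB K := e1 (ext 0 (lf B.1 B.2.1)) ((1, 0), 0)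
def tB (B : K × K × K) : NB K →ₗ[K] NB K := e1 (ext 0 (lf B.2.1 B.2.2)) ((0, 1), 0)

lemma sB_apply (B : K × K × K) (n : NB K) :
    sB B n = (0, ((n.1, 0), B.1 * n.2.1.1 + B.2.1 * n.2.1.2)) := by
  simp [sB, lf]

lemma tB_apply (B : K × K × K) (n : NB K) :
    tB B n = (0, ((0, n.1), B.2.1 * n.2.1.1 + B.2.2 * n.2.1.2)) := by
  simp [tB, lf]

def NZ (B : K × K × K) : Prop := ∃ u1 u2 u3, B.1 * u1 + B.2.1 * u2 + B.2.2 * u3 = 1

lemma mem_Rr_B {B : K × K × K} (hB : NZ B) (w : NB K) : w ∈ Rr (sB B) (tB B) ↔ w.1 = 0 := by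
  obtain ⟨u1, u2, u3, h⟩ := hB
  constructor
  · intro h
    obtain ⟨p, p', rfl⟩ := mem_Rr.1 h
    simp [sB_apply, tB_apply]
  · intro h0
    refine mem_Rr.2 ⟨(w.2.1.2, ((w.2.2 * u2, w.2.2 * u3), 0)),
      (-w.2.1.1, ((-(w.2.2 * u1), 0), 0)), ?_⟩
    rw [sB_apply, tB_apply]
    ext
    · simp [h0]
    · simp
    · simp
    · simp only [Prod.snd_sub]
      linear_combination w.2.2 * h

lemma card_Z_B [Fintype K] {B : K × K × K} (hB : NZ B) :
    Nat.card (Zs (sB B) (tB B)) = Fintype.card K ^ 5 := by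
  have h1 := card_Z_mul (sB B) (tB B)
  have h2 : Nat.card (Rr (sB B) (tB B)) = Fintype.card K ^ 3 := by
    rw [Nat.card_congr (β := (K × K) × K)
      { toFun := fun w => w.1.2
        invFun := fun p => ⟨(0, p), (mem_Rr_B hB _).2 rfl⟩
        left_inv := fun w => Subtype.ext (Prod.ext ((mem_Rr_B hB _).1 w.2).symm rfl)
        right_inv := fun p => rfl }]
    simp [pow_succ]
  rw [h2] at h1
  have hq : 0 < Fintype.card K ^ 3 := pow_pos Fintype.card_pos _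
  apply Nat.eq_of_mul_eq_mul_right hq
  rw [h1]
  simp only [Nat.card_eq_fintype_card, Fintype.card_prod]
  ring

lemma mem_Z_B {B : K × K × K} {c : NB K × NB K} : c ∈ Zs (sB B) (tB B) ↔
    c.2.1 = 0 ∧ c.1.1 = 0 ∧
      B.2.1 * c.1.2.1.1 + B.2.2 * c.1.2.1.2 = B.1 * c.2.2.1.1 + B.2.1 * c.2.2.1.2 := by
  rw [mem_Zs, sB_apply, tB_apply]
  simp only [Prod.mk.injEq, true_and]
  constructor
  · rintro ⟨⟨h1, h2⟩, h3⟩
    exact ⟨h1.symm, h2, h3⟩
  · rintro ⟨h1, h2, h3⟩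
    exact ⟨⟨h1.symm, h2⟩, h3⟩

def qf (F : K × K × K) (v : K × K) : K := F.1 * v.1 ^ 2 + F.2.1 * v.1 * v.2 + F.2.2 * v.2 ^ 2

def ZF [Fintype K] [DecidableEq K] (F : K × K × K) : ℕ :=
  (Finset.univ.filter fun v : K × K => qf F v = 0).card

lemma count_ab [Fintype K] [DecidableEq K] (x1 x2 y1 y2 X Y : K) :
    (∑ ab : K × K, if ab.2 * X - ab.1 * Y = 0 ∧
        ab.2 * (Y * x2 - X * y2) - ab.1 * (X * y1 - Y * x1) = 0 then (1 : ℚ) else 0) =
      1 + (if qf (y1, y2 - x1, -x2) (X, Y) = 0 then (Fintype.card K : ℚ) - 1 else 0) +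
        (if (X, Y) = (0 : K × K) then (Fintype.card K : ℚ) ^ 2 - Fintype.card K else 0) := by
  by_cases h0 : (X, Y) = (0 : K × K)
  · obtain ⟨rfl, rfl⟩ := Prod.mk_eq_zero.1 h0
    simp [qf, Prod.mk_zero_zero]
    ring
  rw [if_neg h0, add_zero]
  by_cases hF : qf (y1, y2 - x1, -x2) (X, Y) = 0
  · rw [if_pos hF, Finset.sum_boole]
    simp only [qf] at hF
    have : (Finset.univ.filter fun ab : K × K => ab.2 * X - ab.1 * Y = 0 ∧
        ab.2 * (Y * x2 - X * y2) - ab.1 * (X * y1 - Y * x1) = 0) =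
        Finset.univ.image fun l : K => (l * X, l * Y) := by
      ext ⟨a, b⟩
      simp only [Finset.mem_filter, Finset.mem_univ, true_and, Finset.mem_image, Prod.mk.injEq]
      constructor
      · rintro ⟨h1, -⟩
        by_cases hX : X = 0
        · have hY : Y ≠ 0 := fun hY => h0 (by simp [hX, hY])
          refine ⟨b / Y, ?_, by field_simp⟩
          rw [hX] at h1 ⊢
          have : a * Y = 0 := by linear_combination -h1
          rw [mul_zero, (mul_eq_zero.1 this).resolve_right hY]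
        · refine ⟨a / X, by field_simp, ?_⟩
          field_simp
          linear_combination -h1
      · rintro ⟨l, rfl, rfl⟩
        exact ⟨by ring, by linear_combination (-l) * hF⟩
    rw [this, Finset.card_image_of_injective]
    · simp
    · intro l l' h
      simp only [Prod.mk.injEq] at h
      by_contra hne
      apply h0
      have h1 : (l - l') * X = 0 := by linear_combination h.1
      have h2 : (l - l') * Y = 0 := by linear_combination h.2
      rw [(mul_eq_zero.1 h1).resolve_left (sub_ne_zero.2 hne),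
        (mul_eq_zero.1 h2).resolve_left (sub_ne_zero.2 hne)]
      rfl
  · rw [if_neg hF, add_zero, Finset.sum_eq_single (0 : K × K)]
    · simp
    · rintro ⟨a, b⟩ - hab
      rw [if_neg]
      rintro ⟨h1, h2⟩
      apply hab
      simp only at h1 h2
      have e1 : a * qf (y1, y2 - x1, -x2) (X, Y) = 0 := by
        simp only [qf]
        linear_combination (-X) * h2 + (Y * x2 - X * y2) * h1
      have e2 : b * qf (y1, y2 - x1, -x2) (X, Y) = 0 := by
        simp only [qf]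
        linear_combination (-Y) * h2 + (X * y1 - Y * x1) * h1
      rw [(mul_eq_zero.1 e1).resolve_right hF, (mul_eq_zero.1 e2).resolve_right hF]
      rfl
    · simp

/-- value of the second level observable. -/
def oZ (q Z : ℚ) : ℚ := q ^ 12 * (2 * q ^ 2 - q + (q - 1) * Z)

lemma card_O [Fintype K] [DecidableEq K] {B : K × K × K} (hB : NZ B) (c : Zs (sB B) (tB B)) :
    (Nat.card (T1 K (K × NB K) (e1 (sB B) c.1.1) (e1 (tB B) c.1.2)) : ℚ) =
      oZ (Fintype.card K) (ZF (c.1.2.2.1.1, c.1.2.2.1.2 - c.1.1.2.1.1, -c.1.1.2.1.2)) := by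
  obtain ⟨⟨ξ, η⟩, hc⟩ := c
  obtain ⟨h1, h2, h3⟩ := mem_Z_B.1 hc
  simp only at h1 h2 h3 ⊢
  have hξ : ξ ∈ Rr (sB B) (tB B) := (mem_Rr_B hB _).2 h2
  have hη : η ∈ Rr (sB B) (tB B) := (mem_Rr_B hB _).2 h1
  have hz : Nat.card (Zs (e1 (sB B) ξ) (e1 (tB B) η)) = Fintype.card K ^ 7 := by
    rw [card_Z_e1, Finset.sum_congr rfl fun ab _ => if_pos
      (sub_mem (Submodule.smul_mem _ _ hξ) (Submodule.smul_mem _ _ hη)), card_Z_B hB]
    simp only [Finset.sum_const, Finset.card_univ, Fintype.card_prod, smul_eq_mul]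
    ring
  let π : Zs (e1 (sB B) ξ) (e1 (tB B) η) →+ K × K :=
    { toFun := fun r => (r.1.1.1, r.1.2.1)
      map_zero' := rfl
      map_add' := fun _ _ => rfl }
  have hmem : ∀ r : (K × NB K) × (K × NB K), r ∈ Zs (e1 (sB B) ξ) (e1 (tB B) η) ↔
      r.1.1 * η.2.1.1 = r.2.1 * ξ.2.1.1 + r.2.2.1 ∧
      r.1.1 * η.2.1.2 + r.1.2.1 = r.2.1 * ξ.2.1.2 ∧
      r.1.1 * η.2.2 + (B.2.1 * r.1.2.2.1.1 + B.2.2 * r.1.2.2.1.2) =
        r.2.1 * ξ.2.2 + (B.1 * r.2.2.2.1.1 + B.2.1 * r.2.2.2.1.2) := by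
    intro r
    rw [mem_Zs, e1_apply, e1_apply, sB_apply, tB_apply]
    simp [Prod.ext_iff, h1, h2, and_assoc]
  have hπ : Function.Surjective π := by
    rintro ⟨X, Y⟩
    obtain ⟨u1, u2, u3, h⟩ := hB
    refine ⟨⟨((X, Y * ξ.2.1.2 - X * η.2.1.2,
      (((Y * ξ.2.2 - X * η.2.2) * u2, (Y * ξ.2.2 - X * η.2.2) * u3), 0)),
      (Y, X * η.2.1.1 - Y * ξ.2.1.1, ((-((Y * ξ.2.2 - X * η.2.2) * u1), 0), 0))), ?_⟩, rfl⟩
    rw [hmem]
    refine ⟨by ring, by ring, ?_⟩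
    simp only
    linear_combination (Y * ξ.2.2 - X * η.2.2) * h
  have key := sum_hom π hπ fun v => ∑ ab : K × K, if ab.2 * v.1 - ab.1 * v.2 = 0 ∧
        ab.2 * (v.2 * ξ.2.1.2 - v.1 * η.2.1.2) - ab.1 * (v.1 * η.2.1.1 - v.2 * ξ.2.1.1) = 0
        then (1 : ℚ) else 0
  have hq : (Fintype.card K : ℚ) ≠ 0 := by exact_mod_cast Fintype.card_ne_zero
  rw [← Nat.card_eq_fintype_card (α := Zs _ _), hz] at key
  simp only [count_ab, Finset.sum_add_distrib] at key
  have e1' : ∀ r : Zs (e1 (sB B) ξ) (e1 (tB B) η),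
      (Nat.card (Zs (e1 (e1 (sB B) ξ) r.1.1) (e1 (e1 (tB B) η) r.1.2)) : ℚ) =
        (Fintype.card K : ℚ) ^ 7 * ∑ ab : K × K, if ab.2 * (π r).1 - ab.1 * (π r).2 = 0 ∧
        ab.2 * ((π r).2 * ξ.2.1.2 - (π r).1 * η.2.1.2) -
          ab.1 * ((π r).1 * η.2.1.1 - (π r).2 * ξ.2.1.1) = 0 then (1 : ℚ) else 0 := by
    intro r
    obtain ⟨g1, g2, -⟩ := (hmem _).1 r.2
    rw [card_Z_e1, hz, Finset.mul_sum]
    push_cast
    refine Finset.sum_congr rfl fun ab _ => ?_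
    have g3 : r.1.2.2.1 = r.1.1.1 * η.2.1.1 - r.1.2.1 * ξ.2.1.1 := by linear_combination -g1
    have g4 : r.1.1.2.1 = r.1.2.1 * ξ.2.1.2 - r.1.1.1 * η.2.1.2 := by linear_combination g2
    rw [mul_ite, mul_one, mul_zero]
    have : ab.2 • r.1.1 - ab.1 • r.1.2 ∈ Rr (e1 (sB B) ξ) (e1 (tB B) η) ↔
        ab.2 * (π r).1 - ab.1 * (π r).2 = 0 ∧
        ab.2 * ((π r).2 * ξ.2.1.2 - (π r).1 * η.2.1.2) -
          ab.1 * ((π r).1 * η.2.1.1 - (π r).2 * ξ.2.1.1) = 0 := by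
      rw [mem_Rr_e1 hξ hη, mem_Rr_B hB]
      simp [π, g3, g4]
    by_cases hh : ab.2 • r.1.1 - ab.1 • r.1.2 ∈ Rr (e1 (sB B) ξ) (e1 (tB B) η)
    · rw [if_pos hh, if_pos (this.1 hh)]
    · rw [if_neg hh, if_neg (fun h => hh (this.2 h))]
  rw [card_T1]
  push_cast
  simp only [e1', count_ab, ← Finset.mul_sum, Finset.sum_add_distrib]
  apply mul_left_cancel₀ (pow_ne_zero 2 hq)
  simp only [Fintype.card_prod, Nat.cast_mul, Nat.cast_pow, ← sq] at key
  rw [mul_left_comm, key]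
  have s1 : (∑ v : K × K, if qf (η.2.1.1, η.2.1.2 - ξ.2.1.1, -ξ.2.1.2) (v.1, v.2) = 0 then
      (Fintype.card K : ℚ) - 1 else 0) =
      ZF (η.2.1.1, η.2.1.2 - ξ.2.1.1, -ξ.2.1.2) * ((Fintype.card K : ℚ) - 1) := by
    rw [← Finset.sum_filter, Finset.sum_const, nsmul_eq_mul, ZF]
  rw [s1]
  simp [oZ]
  ring

def perp (B F : K × K × K) : Prop := F.1 * B.1 + F.2.1 * B.2.1 + F.2.2 * B.2.2 = 0

instance [DecidableEq K] (B F : K × K × K) : Decidable (perp B F) := by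
  unfold perp; infer_instance

lemma card_S [Fintype K] [DecidableEq K] {B : K × K × K} (hB : NZ B) (k : ℕ) :
    (Nat.card (Tc K k (NB K) (sB B) (tB B)) : ℚ) = (Fintype.card K : ℚ) ^ 3 *
      ∑ F ∈ Finset.univ.filter (perp B), oZ (Fintype.card K) (ZF F) ^ k := by
  rw [card_Tc]
  push_cast
  simp only [card_O hB]
  let E : Zs (sB B) (tB B) ≃ (K × K × K) × {F : K × K × K // perp B F} :=
    { toFun := fun c => ((c.1.1.2.1.1, c.1.1.2.2, c.1.2.2.2),
        ⟨(c.1.2.2.1.1, c.1.2.2.1.2 - c.1.1.2.1.1, -c.1.1.2.1.2), by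
          have := (mem_Z_B.1 c.2).2.2
          simp only [perp]
          linear_combination -this⟩)
      invFun := fun p => ⟨((0, ((p.1.1, -p.2.1.2.2), p.1.2.1)),
        (0, ((p.2.1.1, p.2.1.2.1 + p.1.1), p.1.2.2))), by
          have := p.2.2
          simp only [perp] at this
          refine mem_Z_B.2 ⟨rfl, rfl, ?_⟩
          simp only
          linear_combination -this⟩
      left_inv := fun c => by
        obtain ⟨h1, h2, -⟩ := mem_Z_B.1 c.2
        apply Subtype.ext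
        ext <;> simp [h1, h2]
      right_inv := fun p => by
        ext <;> simp }
  refine (Fintype.sum_equiv E _ (fun p => oZ (Fintype.card K) (ZF p.2.1) ^ k)
    fun _ => rfl).trans ?_
  rw [Fintype.sum_prod_type, Finset.sum_subtype (p := perp B) (Finset.univ.filter (perp B))
      (by simp)]
  simp only [Finset.sum_const, Finset.card_univ, Fintype.card_prod, nsmul_eq_mul]
  push_cast
  ring

end Pool.Agent.H79.Qv
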