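import Pool.Agent.H79.Qv4

set_option autoImplicit false

namespace Pool.Agent.H79.Qv

variable {K : Type} [Field K]

lemma ZF_eq [Fintype K] [DecidableEq K] (F : K × K × K) :
    (ZF F : ℚ) = (Finset.univ.filter fun X : K => F.1 * X ^ 2 = 0).card +
      ((Fintype.card K : ℚ) - 1) *
        (Finset.univ.filter fun x : K => F.1 * x ^ 2 + F.2.1 * x + F.2.2 = 0).card := by
  rw [ZF, Finset.card_filter, Fintype.sum_prod_type_right, Finset.card_filter, Finset.card_filter,
    ← Finset.add_sum_erase _ _ (Finset.mem_univ (0 : K))]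
  push_cast
  congr 1
  · simp [qf]
  · rw [Finset.sum_congr rfl (g := fun _ => ∑ x : K,
      if F.1 * x ^ 2 + F.2.1 * x + F.2.2 = 0 then (1 : ℚ) else 0)]
    · rw [Finset.sum_const, Finset.card_erase_of_mem (Finset.mem_univ _), Finset.card_univ,
        nsmul_eq_mul, Nat.cast_sub Fintype.card_pos]
      simp
    · intro Y hY
      have hY := Finset.ne_of_mem_erase hY
      rw [← Equiv.sum_comp (Equiv.mulRight₀ Y hY)]
      refine Finset.sum_congr rfl fun x _ => if_congr ?_ rfl rfl
      have : qf F (Equiv.mulRight₀ Y hY x, Y) = Y ^ 2 * (F.1 * x ^ 2 + F.2.1 * x + F.2.2) := by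
        simp [qf]; ring
      rw [this, mul_eq_zero, or_iff_right (pow_ne_zero 2 hY)]

def disc (F : K × K × K) : K := F.2.1 ^ 2 - 4 * F.1 * F.2.2

lemma card_sq [Fintype K] [DecidableEq K] (h2 : (2 : K) ≠ 0) (D : K) :
    (D = 0 ∧ (Finset.univ.filter fun y : K => y ^ 2 = D).card = 1) ∨
    (D ≠ 0 ∧ ((Finset.univ.filter fun y : K => y ^ 2 = D).card = 0 ∨
      (Finset.univ.filter fun y : K => y ^ 2 = D).card = 2)) := by
  by_cases hD : D = 0
  · left
    refine ⟨hD, ?_⟩
    rw [Finset.card_eq_one]
    exact ⟨0, by ext y; simp [hD]⟩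
  · right
    refine ⟨hD, ?_⟩
    by_cases hs : ∃ s, s ^ 2 = D
    · right
      obtain ⟨s, rfl⟩ := hs
      rw [Finset.card_eq_two]
      refine ⟨s, -s, fun h => hD ?_, ?_⟩
      · have : 2 * s = 0 := by linear_combination h
        rw [(mul_eq_zero.1 this).resolve_left h2]; simp
      · ext y; simp [sq_eq_sq_iff_eq_or_eq_neg]
    · left
      rw [Finset.card_eq_zero, Finset.filter_eq_empty_iff]
      exact fun y _ h => hs ⟨y, h⟩

lemma ZF_cases [Fintype K] [DecidableEq K] (h2 : (2 : K) ≠ 0) (F : K × K × K) :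
    (F = 0 ∧ (ZF F : ℚ) = (Fintype.card K : ℚ) ^ 2) ∨
    (F ≠ 0 ∧ disc F = 0 ∧ (ZF F : ℚ) = Fintype.card K) ∨
    (disc F ≠ 0 ∧ ((ZF F : ℚ) = 1 ∨ (ZF F : ℚ) = 2 * Fintype.card K - 1)) := by
  rw [ZF_eq]
  obtain ⟨a, b, c⟩ := F
  simp only [disc]
  by_cases ha : a = 0
  · subst ha
    by_cases hb : b = 0
    · subst hb
      by_cases hc : c = 0
      · subst hc
        left
        refine ⟨rfl, ?_⟩
        simp
        ring
      · right; left
        refine ⟨by simp [hc], by simp, ?_⟩
        simp [hc]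
    · right; right
      refine ⟨by simpa using hb, Or.inr ?_⟩
      have : (Finset.univ.filter fun x : K => 0 * x ^ 2 + b * x + c = 0) = {-c / b} := by
        ext x
        simp only [Finset.mem_filter, Finset.mem_univ, true_and, Finset.mem_singleton]
        rw [eq_div_iff hb]
        constructor
        · intro h; linear_combination h
        · intro h; linear_combination h
      rw [this]
      simp
      ring
  · right
    have h0 : (Finset.univ.filter fun X : K => a * X ^ 2 = 0) = {0} := by
      ext x; simp [ha]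
    have h2a : 2 * a ≠ 0 := mul_ne_zero h2 ha
    have h1 : (Finset.univ.filter fun x : K => a * x ^ 2 + b * x + c = 0).card =
        (Finset.univ.filter fun y : K => y ^ 2 = b ^ 2 - 4 * a * c).card := by
      refine Finset.card_nbij' (fun x => 2 * a * x + b) (fun y => (y - b) / (2 * a)) ?_ ?_ ?_ ?_
      · intro x hx
        simp only [Finset.coe_filter, Finset.mem_univ, true_and, Set.mem_setOf_eq] at hx ⊢
        linear_combination 4 * a * hx
      · intro y hy
        simp only [Finset.coe_filter, Finset.mem_univ, true_and, Set.mem_setOf_eq] at hy ⊢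
        have h4 : (2 * a) * ((y - b) / (2 * a)) = y - b := mul_div_cancel₀ _ h2a
        apply mul_left_cancel₀ (mul_ne_zero h2 h2a)
        generalize (y - b) / (2 * a) = x at h4
        have : y = 2 * a * x + b := by linear_combination -h4
        subst this
        linear_combination hy
      · intro x _
        simp only
        field_simp
        ring
      · intro y _
        simp only
        rw [mul_div_cancel₀ _ h2a]
        ring
    rw [h0, h1]
    rcases card_sq h2 (b ^ 2 - 4 * a * c) with ⟨h, h'⟩ | ⟨h, h' | h'⟩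
    · left
      refine ⟨by simp [ha], h, ?_⟩
      rw [h']; simp
    · right
      refine ⟨h, Or.inl ?_⟩
      rw [h']; simp
    · right
      refine ⟨h, Or.inr ?_⟩
      rw [h']; simp; ring

lemma card_disc [Fintype K] [DecidableEq K] (h2 : (2 : K) ≠ 0) {B : K × K × K} (hB : NZ B) :
    ∃ G : K × K × K, G ≠ 0 ∧
      ((Finset.univ.filter (perp B)).filter fun F => disc F = 0).card = ZF G := by
  obtain ⟨b1, b2, b3⟩ := B
  have h4 : (4 : K) ≠ 0 := by
    rw [show (4 : K) = 2 * 2 by norm_num]; exact mul_ne_zero h2 h2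
  by_cases h1 : b1 = 0
  · by_cases h3 : b3 = 0
    · have h : b2 ≠ 0 := by
        rintro rfl
        obtain ⟨u1, u2, u3, h⟩ := hB
        simp [h1, h3] at h
      refine ⟨(0, -4, 0), by simp [h4], ?_⟩
      refine Finset.card_nbij' (fun F => (F.1, F.2.2)) (fun v => (v.1, 0, v.2)) ?_ ?_ ?_ ?_
      · rintro ⟨x, y, z⟩ hx
        simp only [Finset.coe_filter, Finset.mem_univ, true_and, Set.mem_setOf_eq,
          Finset.mem_filter, perp, disc, qf, h1, h3, mul_zero, zero_add, add_zero,
          mul_eq_zero, h, or_false] at hx ⊢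
        obtain ⟨rfl, hx⟩ := hx
        linear_combination hx
      · rintro ⟨x, y⟩ hx
        simp only [Finset.coe_filter, Finset.mem_univ, true_and, Set.mem_setOf_eq,
          Finset.mem_filter, perp, disc, qf, h1, h3] at hx ⊢
        exact ⟨by ring, by linear_combination hx⟩
      · rintro ⟨x, y, z⟩ hx
        simp only [Finset.coe_filter, Finset.mem_univ, true_and, Set.mem_setOf_eq,
          Finset.mem_filter, perp, h1, h3, mul_zero, zero_add, add_zero,
          mul_eq_zero, h, or_false] at hx ⊢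
        rw [hx.1]
      · intro v _; rfl
    · refine ⟨(1, 4 * b2 / b3, 0), by simp, ?_⟩
      refine Finset.card_nbij' (fun F => (F.2.1, F.1)) (fun v => (v.2, v.1, -(v.1 * b2) / b3))
        ?_ ?_ ?_ ?_
      · rintro ⟨x, y, z⟩ hx
        simp only [Finset.coe_filter, Finset.mem_univ, true_and, Set.mem_setOf_eq,
          Finset.mem_filter, perp, disc, qf, h1] at hx ⊢
        field_simp
        linear_combination b3 * hx.2 + 4 * x * hx.1
      · rintro ⟨x, y⟩ hx
        simp only [Finset.coe_filter, Finset.mem_univ, true_and, Set.mem_setOf_eq,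
          Finset.mem_filter, perp, disc, qf, h1] at hx ⊢
        refine ⟨by field_simp; ring, ?_⟩
        linear_combination hx
      · rintro ⟨x, y, z⟩ hx
        simp only [Finset.coe_filter, Finset.mem_univ, true_and, Set.mem_setOf_eq,
          Finset.mem_filter, perp, h1] at hx ⊢
        have : -(y * b2) / b3 = z := by
          field_simp
          linear_combination -hx.1
        rw [this]
      · intro v _; rfl
  · refine ⟨(1, 4 * b2 / b1, 4 * b3 / b1), by simp, ?_⟩
    refine Finset.card_nbij' (fun F => (F.2.1, F.2.2))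
      (fun v => (-(v.1 * b2 + v.2 * b3) / b1, v.1, v.2)) ?_ ?_ ?_ ?_
    · rintro ⟨x, y, z⟩ hx
      simp only [Finset.coe_filter, Finset.mem_univ, true_and, Set.mem_setOf_eq,
        Finset.mem_filter, perp, disc, qf] at hx ⊢
      field_simp
      linear_combination b1 * hx.2 + 4 * z * hx.1
    · rintro ⟨x, y⟩ hx
      simp only [Finset.coe_filter, Finset.mem_univ, true_and, Set.mem_setOf_eq,
        Finset.mem_filter, perp, disc, qf] at hx ⊢
      refine ⟨by field_simp; ring, ?_⟩
      linear_combination hx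
    · rintro ⟨x, y, z⟩ hx
      simp only [Finset.coe_filter, Finset.mem_univ, true_and, Set.mem_setOf_eq,
        Finset.mem_filter, perp] at hx ⊢
      have : -(y * b2 + z * b3) / b1 = x := by
        field_simp
        linear_combination -hx.1
      rw [this]
    · intro v _; rfl

def Wq (q Z : ℚ) : ℚ := (Z - 1) * (Z - (2 * q - 1)) * (Z - q ^ 2)

lemma sum_W [Fintype K] [DecidableEq K] (h2 : (2 : K) ≠ 0) {B : K × K × K} (hB : NZ B) :
    ∃ j : ℚ, (j = 0 ∨ j = 1 ∨ j = 2) ∧
      ∑ F ∈ Finset.univ.filter (perp B), Wq (Fintype.card K) (ZF F) =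
        j * (Wq (Fintype.card K) (Fintype.card K) * (Fintype.card K - 1)) := by
  obtain ⟨G, hG, hc⟩ := card_disc h2 hB
  have h1 : ∀ F : K × K × K, Wq (Fintype.card K) (ZF F) = Wq (Fintype.card K) (Fintype.card K) *
      ((if disc F = 0 then 1 else 0) - if F = 0 then 1 else 0) := by
    intro F
    rcases ZF_cases h2 F with ⟨h, h'⟩ | ⟨h, h', h''⟩ | ⟨h, h'⟩
    · rw [h', h]; simp [Wq, disc]
    · rw [h'', if_pos h', if_neg h]; simp
    · have : F ≠ 0 := by rintro rfl; simp [disc] at h
      rw [if_neg h, if_neg this]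
      rcases h' with h' | h' <;> rw [h'] <;> simp [Wq]
  simp only [h1, ← Finset.mul_sum, Finset.sum_sub_distrib]
  rw [Finset.sum_boole, hc, Finset.sum_ite_eq', if_pos (by simp [perp])]
  rcases ZF_cases h2 G with ⟨h, -⟩ | ⟨-, -, h⟩ | ⟨-, h | h⟩
  · exact absurd h hG
  · exact ⟨1, by simp, by rw [h]; ring⟩
  · exact ⟨0, by simp, by rw [h]; ring⟩
  · exact ⟨2, by simp, by rw [h]; ring⟩

lemma sum_W2 : ∑ F ∈ Finset.univ.filter (perp ((0, 1, 0) : ZMod 2 × ZMod 2 × ZMod 2)),
    Wq 2 (ZF F) = 6 := by
  have h1 : Finset.univ.filter (perp ((0, 1, 0) : ZMod 2 × ZMod 2 × ZMod 2)) =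
      {(0, 0, 0), (1, 0, 0), (0, 0, 1), (1, 0, 1)} := by decide
  have z0 : ZF ((0, 0, 0) : ZMod 2 × ZMod 2 × ZMod 2) = 4 := by decide
  have z1 : ZF ((1, 0, 0) : ZMod 2 × ZMod 2 × ZMod 2) = 2 := by decide
  have z2 : ZF ((0, 0, 1) : ZMod 2 × ZMod 2 × ZMod 2) = 2 := by decide
  have z3 : ZF ((1, 0, 1) : ZMod 2 × ZMod 2 × ZMod 2) = 2 := by decide
  rw [h1, Finset.sum_insert (by decide), Finset.sum_insert (by decide),
    Finset.sum_insert (by decide), Finset.sum_singleton, z0, z1, z2, z3]
  norm_num [Wq]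

end Pool.Agent.H79.Qv
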