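import Pool.Agent.H79.Qv5

set_option autoImplicit false

namespace Pool.Agent.H79.Qv

open Polynomial

variable {K : Type} [Field K]

def Om (K : Type) [Field K] : Type :=
  Σ zv : ZG (K × K) (0 : K →ₗ[K] K) 0, ZG K (ext 0 zv.1.1) (ext 0 zv.1.2)

noncomputable instance [Finite K] : Fintype (Om K) := by
  unfold Om
  exact Fintype.ofFinite _

def sO (ω : Om K) : NB K →ₗ[K] NB K := ext (ext 0 ω.1.1.1) ω.2.1.1
def tO (ω : Om K) : NB K →ₗ[K] NB K := ext (ext 0 ω.1.1.2) ω.2.1.2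

noncomputable def tau (ω : Om K) : ℚ := Nat.card (T0 K (NB K) (sO ω) (tO ω))
noncomputable def SS (k : ℕ) (ω : Om K) : ℚ := Nat.card (Tc K k (NB K) (sO ω) (tO ω))

lemma card_Tv [Finite K] (a : ℕ) {m : ℕ} (k : Fin m → ℕ) :
    (Nat.card (Tv.{0} K a k K 0 0) : ℚ) = ∑ ω : Om K, tau ω ^ a * ∏ i, SS (k i) ω := by
  have : ∀ ω : Om K, Finite (Tb K a k (NB K) (sO ω) (tO ω)) := fun ω => fin_Tb a k _ _ _
  have E : Tv.{0} K a k K 0 0 ≃ Σ ω : Om K, Tb K a k (NB K) (sO ω) (tO ω) :=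
    (Equiv.sigmaAssoc fun (zv : ZG (K × K) (0 : K →ₗ[K] K) 0)
      (zu : ZG K (ext 0 zv.1.1) (ext 0 zv.1.2)) =>
        Tb K a k (NB K) (ext (ext 0 zv.1.1) zu.1.1) (ext (ext 0 zv.1.2) zu.1.2)).symm
  rw [Nat.card_congr E, Nat.card_sigma]
  push_cast
  refine Finset.sum_congr rfl fun ω _ => ?_
  rw [card_Tb]
  push_cast
  rfl

lemma classify [Fintype K] (ω : Om K) :
    (tau ω = (Fintype.card K : ℚ) ^ 6 ∨ tau ω = (Fintype.card K : ℚ) ^ 7 ∨
      tau ω = (Fintype.card K : ℚ) ^ 8) ∨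
    ∃ B : K × K × K, NZ B ∧ ∀ k, SS k ω = Nat.card (Tc K k (NB K) (sB B) (tB B)) := by
  have hle : Rr (sO ω) (tO ω) ≤ LinearMap.range (LinearMap.inr K K ((K × K) × K)) := by
    intro w hw
    obtain ⟨p, p', rfl⟩ := mem_Rr.1 hw
    exact ⟨(tO ω p - sO ω p').2, Prod.ext (by simp [sO, tO]) rfl⟩
  rcases hle.lt_or_eq with hlt | heq
  · left
    have h1 := Submodule.finrank_lt_finrank_of_lt hlt
    rw [LinearMap.finrank_range_of_inj LinearMap.inr_injective] at h1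
    simp only [Module.finrank_prod, Module.finrank_self] at h1
    have h2 := card_Z_mul (sO ω) (tO ω)
    rw [Module.natCard_eq_pow_finrank (K := K) (V := Rr (sO ω) (tO ω)), ← card_T0] at h2
    simp only [Nat.card_eq_fintype_card (α := K), Nat.card_prod] at h2
    have h3 : tau ω * (Fintype.card K : ℚ) ^ Module.finrank K (Rr (sO ω) (tO ω)) =
        (Fintype.card K : ℚ) ^ 8 := by
      rw [tau]
      have := congrArg (Nat.cast : ℕ → ℚ) h2
      push_cast at this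
      rw [this]; ring
    have hq : (Fintype.card K : ℚ) ≠ 0 := by exact_mod_cast Fintype.card_ne_zero
    generalize Module.finrank K (Rr (sO ω) (tO ω)) = n at h1 h3
    interval_cases n
    · right; right; simpa using h3
    · right; left
      apply mul_right_cancel₀ (pow_ne_zero 1 hq)
      rw [h3]; ring
    · left
      apply mul_right_cancel₀ (pow_ne_zero 2 hq)
      rw [h3]; ring
  · right
    obtain ⟨⟨⟨a, b⟩, hab⟩, ⟨ξ, η⟩, hz⟩ := ω
    simp only [sO, tO] at heq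
    have hz1 : b (ξ 1).1 = a (η 1).1 := by
      have := congrArg Prod.snd (LinearMap.congr_fun hz 1)
      simpa using this
    have hξ : ∀ h, ξ h = h • ξ 1 := fun h => by rw [← map_smul]; simp
    have hη : ∀ h, η h = h • η 1 := fun h => by rw [← map_smul]; simp
    have hall : ∀ n : (K × K) × K, ∃ (h h' : K) (g g' : K × K),
        h • (ξ 1).1 + h' • (η 1).1 = n.1 ∧
          h * (ξ 1).2 + h' * (η 1).2 + (a g + b g') = n.2 := by
      intro n
      have : ((0, n) : NB K) ∈ Rr (ext (ext 0 a) ξ) (ext (ext 0 b) η) := by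
        rw [heq]; exact ⟨n, rfl⟩
      obtain ⟨p, p', h⟩ := mem_Rr.1 this
      have h' := congrArg Prod.snd h
      simp only [ext_apply, Prod.snd_sub, LinearMap.zero_apply, add_zero] at h'
      rw [hξ p'.1, hη p.1] at h'
      refine ⟨-p'.1, p.1, -p'.2.1, p.2.1, ?_, ?_⟩
      · rw [← h']
        simp only [Prod.fst_sub, Prod.fst_add, Prod.smul_fst, add_zero, neg_smul]
        abel
      · rw [← h']
        simp only [Prod.snd_sub, Prod.snd_add, Prod.smul_snd, smul_eq_mul, map_neg]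
        ring
    let L : K × K →ₗ[K] K × K := LinearMap.coprod (LinearMap.toSpanSingleton K _ (ξ 1).1)
      (LinearMap.toSpanSingleton K _ (η 1).1)
    have hL : ∀ u : K × K, L u = u.1 • (ξ 1).1 + u.2 • (η 1).1 := fun u => rfl
    have hs : Function.Surjective L := fun g => by
      obtain ⟨h, h', -, -, e, -⟩ := hall (g, 0)
      exact ⟨(h, h'), e⟩
    have hi : Function.Injective L := LinearMap.injective_iff_surjective.2 hs
    refine ⟨(a (ξ 1).1, b (ξ 1).1, b (η 1).1), ?_, fun k => ?_⟩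
    · obtain ⟨h, h', g, g', e, e'⟩ := hall (0, 1)
      have h0 : ((h, h') : K × K) = 0 := hi (by rw [hL, map_zero]; exact e)
      obtain ⟨rfl, rfl⟩ := Prod.mk_eq_zero.1 h0
      obtain ⟨u, rfl⟩ := hs g
      obtain ⟨u', rfl⟩ := hs g'
      refine ⟨u.1, u.2 + u'.1, u'.2, ?_⟩
      simp only [hL, map_add, map_smul, smul_eq_mul, ← hz1] at e'
      simp only
      linear_combination e'
    · let M : NB K →ₗ[K] NB K := LinearMap.prodMap LinearMap.id
        (LinearMap.coprod (LinearMap.coprod (LinearMap.toSpanSingleton K _ (ξ 1))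
          (LinearMap.toSpanSingleton K _ (η 1))) (LinearMap.inr K (K × K) K))
      have hM : ∀ n : NB K, M n = (n.1, n.2.1.1 • ξ 1 + n.2.1.2 • η 1 + (0, n.2.2)) :=
        fun n => rfl
      have hMs : Function.Surjective M := by
        rintro ⟨h, g, w⟩
        obtain ⟨u, rfl⟩ := hs g
        refine ⟨(h, u, w - u.1 * (ξ 1).2 - u.2 * (η 1).2), ?_⟩
        rw [hM, hL]
        refine Prod.ext rfl (Prod.ext (by simp) ?_)
        simp
      let e : NB K ≃ₗ[K] NB K :=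
        LinearEquiv.ofBijective M ⟨LinearMap.injective_iff_surjective.2 hMs, hMs⟩
      have he : ∀ n, e n = M n := fun n => rfl
      obtain ⟨E⟩ := rel_Tc.{0, 0} k (NB K) (NB K) (sB (a (ξ 1).1, b (ξ 1).1, b (η 1).1))
        (tB (a (ξ 1).1, b (ξ 1).1, b (η 1).1)) (ext (ext 0 a) ξ) (ext (ext 0 b) η) e
        (fun n => by
          rw [he, he, hM, hM, sB_apply, ext_apply, ext_apply, hξ n.1]
          simp [hz1, mul_comm])
        (fun n => by
          rw [he, he, hM, hM, tB_apply, ext_apply, ext_apply, hη n.1]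
          simp [mul_comm])
      rw [SS, Nat.card_congr E]
      rfl

def om0 (B : K × K × K) : Om K :=
  ⟨⟨(lf B.1 B.2.1, lf B.2.1 B.2.2), by simp⟩,
    ⟨(LinearMap.toSpanSingleton K _ ((1, 0), 0), LinearMap.toSpanSingleton K _ ((0, 1), 0)), by
      ext <;> simp [lf]⟩⟩

def Mq (q s0 s1 s2 s3 : ℚ) : ℚ :=
  s3 - (oZ q 1 + oZ q (2 * q - 1) + oZ q (q ^ 2)) * s2 +
    (oZ q 1 * oZ q (2 * q - 1) + oZ q 1 * oZ q (q ^ 2) + oZ q (2 * q - 1) * oZ q (q ^ 2)) * s1 -
    oZ q 1 * oZ q (2 * q - 1) * oZ q (q ^ 2) * s0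

def Cq (q : ℚ) : ℚ := q ^ 3 * (q ^ 12 * (q - 1)) ^ 3 * (Wq q q * (q - 1))

def Psi (q τ M : ℚ) : ℚ :=
  (τ - q ^ 6) * (τ - q ^ 7) * (τ - q ^ 8) * (M * (M - Cq q) * (M - 2 * Cq q))

lemma Mq_B [Fintype K] [DecidableEq K] {B : K × K × K} (hB : NZ B) :
    Mq (Fintype.card K) (Nat.card (Tc K 0 (NB K) (sB B) (tB B)))
      (Nat.card (Tc K 1 (NB K) (sB B) (tB B))) (Nat.card (Tc K 2 (NB K) (sB B) (tB B)))
      (Nat.card (Tc K 3 (NB K) (sB B) (tB B))) =
    (Fintype.card K : ℚ) ^ 3 * ((Fintype.card K : ℚ) ^ 12 * (Fintype.card K - 1)) ^ 3 *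
      ∑ F ∈ Finset.univ.filter (perp B), Wq (Fintype.card K) (ZF F) := by
  simp only [card_S hB, Mq, Finset.mul_sum, ← Finset.sum_sub_distrib, ← Finset.sum_add_distrib]
  refine Finset.sum_congr rfl fun F _ => ?_
  simp only [oZ, Wq]
  ring

noncomputable def PsiO (K : Type) [Field K] [Fintype K] (ω : Om K) : ℚ :=
  Psi (Fintype.card K) (tau ω) (Mq (Fintype.card K) (SS 0 ω) (SS 1 ω) (SS 2 ω) (SS 3 ω))

lemma PsiO_odd [Fintype K] (h2 : (2 : K) ≠ 0) (ω : Om K) : PsiO K ω = 0 := by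
  classical
  rcases classify ω with (h | h | h) | ⟨B, hB, h⟩
  · simp [PsiO, Psi, h]
  · simp [PsiO, Psi, h]
  · simp [PsiO, Psi, h]
  · obtain ⟨j, hj, e⟩ := sum_W h2 hB
    rw [PsiO, h, h, h, h, Mq_B hB, e, Psi, Cq]
    rcases hj with rfl | rfl | rfl <;> ring

lemma PsiO_two : PsiO (ZMod 2) (om0 (0, 1, 0)) ≠ 0 := by
  have hB : NZ ((0, 1, 0) : ZMod 2 × ZMod 2 × ZMod 2) := ⟨0, 1, 0, by simp⟩
  have h1 : tau (om0 ((0, 1, 0) : ZMod 2 × ZMod 2 × ZMod 2)) =
      (Fintype.card (ZMod 2) : ℚ) ^ 5 := by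
    rw [tau, card_T0]
    exact_mod_cast card_Z_B hB
  have h2 := Mq_B hB
  have h3 : ∀ k, SS k (om0 ((0, 1, 0) : ZMod 2 × ZMod 2 × ZMod 2)) =
      Nat.card (Tc (ZMod 2) k (NB (ZMod 2)) (sB (0, 1, 0)) (tB (0, 1, 0))) := fun k => rfl
  rw [PsiO, h1, h3, h3, h3, h3, h2, ZMod.card]
  push_cast
  rw [sum_W2]
  norm_num [Psi, Cq, Wq]

def Fn : Type 1 := ∀ (K : Type) [Field K] [Fintype K], Om K → ℚ

def Good (f : Fn) : Prop := ∀ (a m : ℕ) (k : Fin m → ℕ), ∃ P : ℚ[X],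
  ∀ (K : Type) [Field K] [Fintype K],
    ∑ ω : Om K, f K ω * (tau ω ^ a * ∏ i, SS (k i) ω) = P.eval (Fintype.card K : ℚ)

def Mu (g : Fn) : Prop := ∀ f : Fn, Good f → Good fun K _ _ ω => g K ω * f K ω

lemma mu_tau : Mu fun _ _ _ ω => tau ω := fun f hf a m k => by
  obtain ⟨P, hP⟩ := hf (a + 1) m k
  refine ⟨P, fun K _ _ => ?_⟩
  rw [← hP]
  exact Finset.sum_congr rfl fun ω _ => by ring

lemma mu_SS (j : ℕ) : Mu fun _ _ _ ω => SS j ω := fun f hf a m k => by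
  obtain ⟨P, hP⟩ := hf a (m + 1) (Fin.cons j k)
  refine ⟨P, fun K _ _ => ?_⟩
  rw [← hP]
  refine Finset.sum_congr rfl fun ω _ => ?_
  rw [Fin.prod_univ_succ]
  simp only [Fin.cons_zero, Fin.cons_succ]
  ring

lemma mu_q : Mu fun K _ _ _ => (Fintype.card K : ℚ) := fun f hf a m k => by
  obtain ⟨P, hP⟩ := hf a m k
  refine ⟨X * P, fun K _ _ => ?_⟩
  rw [eval_mul, eval_X, ← hP, Finset.mul_sum]
  exact Finset.sum_congr rfl fun ω _ => by ring

lemma mu_const (r : ℚ) : Mu fun _ _ _ _ => r := fun f hf a m k => by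
  obtain ⟨P, hP⟩ := hf a m k
  refine ⟨C r * P, fun K _ _ => ?_⟩
  rw [eval_mul, eval_C, ← hP, Finset.mul_sum]
  exact Finset.sum_congr rfl fun ω _ => by ring

lemma mu_add {g h : Fn} (hg : Mu g) (hh : Mu h) : Mu fun K _ _ ω => g K ω + h K ω :=
  fun f hf a m k => by
  obtain ⟨P, hP⟩ := hg f hf a m k
  obtain ⟨Q, hQ⟩ := hh f hf a m k
  refine ⟨P + Q, fun K _ _ => ?_⟩
  rw [eval_add, ← hP, ← hQ, ← Finset.sum_add_distrib]
  exact Finset.sum_congr rfl fun ω _ => by ring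

lemma mu_sub {g h : Fn} (hg : Mu g) (hh : Mu h) : Mu fun K _ _ ω => g K ω - h K ω :=
  fun f hf a m k => by
  obtain ⟨P, hP⟩ := hg f hf a m k
  obtain ⟨Q, hQ⟩ := hh f hf a m k
  refine ⟨P - Q, fun K _ _ => ?_⟩
  rw [eval_sub, ← hP, ← hQ, ← Finset.sum_sub_distrib]
  exact Finset.sum_congr rfl fun ω _ => by ring

lemma mu_mul {g h : Fn} (hg : Mu g) (hh : Mu h) : Mu fun K _ _ ω => g K ω * h K ω :=
  fun f hf a m k => by
  obtain ⟨P, hP⟩ := hg _ (hh f hf) a m k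
  refine ⟨P, fun K _ _ => ?_⟩
  rw [← hP]
  exact Finset.sum_congr rfl fun ω _ => by ring

lemma mu_pow {g : Fn} (hg : Mu g) (n : ℕ) : Mu fun K _ _ ω => g K ω ^ n := by
  induction n with
  | zero => simpa using mu_const 1
  | succ n ih => simpa [pow_succ] using mu_mul ih hg

lemma mu_Psi : Mu fun K _ _ ω => PsiO K ω := by
  unfold PsiO Psi Mq Cq Wq oZ
  repeat' first
    | with_reducible apply mu_mul
    | with_reducible apply mu_sub
    | with_reducible apply mu_add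
    | with_reducible apply mu_pow
    | with_reducible exact mu_tau
    | with_reducible exact mu_SS _
    | with_reducible exact mu_q
    | with_reducible exact mu_const _

theorem not_poly : ¬ ∀ (a m : ℕ) (k : Fin m → ℕ), ∃ P : ℚ[X],
    ∀ (K : Type) [Field K] [Fintype K],
      (Nat.card (Tv.{0} K a k K 0 0) : ℚ) = P.eval (Fintype.card K : ℚ) := by
  intro H
  have h1 : Good fun _ _ _ _ => 1 := fun a m k => by
    obtain ⟨P, hP⟩ := H a m k
    refine ⟨P, fun K _ _ => ?_⟩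
    rw [← hP, card_Tv]
    simp
  obtain ⟨P, hP⟩ := mu_Psi _ (mu_Psi _ h1) 0 0 Fin.elim0
  simp only [mul_one, pow_zero, Finset.univ_eq_empty, Finset.prod_empty] at hP
  have hP0 : P = 0 := by
    apply eq_zero_of_infinite_isRoot
    have hinf : ((fun n : ℕ => (n : ℚ)) '' ({p | p.Prime} \ {2})).Infinite :=
      (Nat.infinite_setOf_prime.diff (Set.finite_singleton 2)).image Nat.cast_injective.injOn
    refine hinf.mono ?_
    rintro _ ⟨p, ⟨hp, hp2⟩, rfl⟩
    have : Fact p.Prime := ⟨hp⟩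
    have h2 : (2 : ZMod p) ≠ 0 := by
      intro h
      have : ((2 : ℕ) : ZMod p) = 0 := by exact_mod_cast h
      rw [ZMod.natCast_eq_zero_iff] at this
      exact hp2 ((Nat.prime_dvd_prime_iff_eq hp Nat.prime_two).1 this)
    have := hP (ZMod p)
    rw [ZMod.card] at this
    simp only [Set.mem_setOf_eq, IsRoot.def]
    rw [← this]
    simp [PsiO_odd h2]
  have h2 := hP (ZMod 2)
  rw [hP0, eval_zero, Finset.sum_eq_zero_iff_of_nonneg fun ω _ => mul_self_nonneg _] at h2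
  exact PsiO_two (mul_self_eq_zero.1 (h2 _ (Finset.mem_univ _)))

end Pool.Agent.H79.Qv
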