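import Mathlib

set_option autoImplicit false

namespace Pool.Agent.H79.Reso

open LinearMap

variable {P : Type} [CommRing P]

/-- `M` has a finite free resolution whose `n`-th term has rank at most `N`. -/
def HR (P : Type) [CommRing P] (N n : ℕ) (M : Type) [AddCommGroup M] [Module P M] : Prop :=
  ∃ (r : ℕ → ℕ) (ε : (Fin (r 0) → P) →ₗ[P] M)
    (d : ∀ m, (Fin (r (m+1)) → P) →ₗ[P] (Fin (r m) → P)),
    Function.Surjective ε ∧ ker ε = range (d 0) ∧ (∀ m, ker (d m) = range (d (m+1))) ∧ r n ≤ N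

variable {M M' G : Type} [AddCommGroup M] [Module P M] [AddCommGroup M'] [Module P M']
  [AddCommGroup G] [Module P G] {N n : ℕ}

lemma HR.equiv (e : M ≃ₗ[P] M') (h : HR P N n M) : HR P N n M' := by
  obtain ⟨r, ε, d, h1, h2, h3, h4⟩ := h
  exact ⟨r, e.toLinearMap ∘ₗ ε, d, e.surjective.comp h1, by rw [← h2]; simp, h3, h4⟩

lemma cons_aux {a : ℕ} (f : (Fin a → P) →ₗ[P] M) (hf : Function.Surjective f)
    (r : ℕ → ℕ) (ε : (Fin (r 0) → P) →ₗ[P] ker f)
    (d : ∀ m, (Fin (r (m+1)) → P) →ₗ[P] (Fin (r m) → P)) (h1 : Function.Surjective ε)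
    (h2 : ker ε = range (d 0)) (h3 : ∀ m, ker (d m) = range (d (m+1))) (n : ℕ)
    (h4 : (fun m => match m with | 0 => a | m+1 => r m) n ≤ N) : HR P N n M := by
  refine ⟨fun m => match m with | 0 => a | m+1 => r m, f,
    fun m => match m with | 0 => (ker f).subtype ∘ₗ ε | m+1 => d m, hf, ?_, ?_, h4⟩
  · show ker f = range ((ker f).subtype ∘ₗ ε)
    rw [range_comp, range_eq_top.2 h1, Submodule.map_top, Submodule.range_subtype]
  · intro m
    cases m with
    | zero =>
      show ker ((ker f).subtype ∘ₗ ε) = range (d 0)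
      rw [← h2, ker_comp, Submodule.ker_subtype]; rfl
    | succ m => exact h3 m

lemma HR.cons {a : ℕ} (f : (Fin a → P) →ₗ[P] M) (hf : Function.Surjective f)
    (h : HR P N n (ker f)) : HR P N (n+1) M := by
  obtain ⟨r, ε, d, h1, h2, h3, h4⟩ := h
  exact cons_aux f hf r ε d h1 h2 h3 (n+1) h4

lemma HR.uncons (h : HR P N (n+1) M) : ∃ (a : ℕ) (f : (Fin a → P) →ₗ[P] M),
    Function.Surjective f ∧ HR P N n (ker f) := by
  obtain ⟨r, ε, d, h1, h2, h3, h4⟩ := h
  refine ⟨r 0, ε, h1, fun m => r (m+1), codRestrict _ (d 0) (fun x => h2 ▸ mem_range_self _ x),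
    fun m => d (m+1), ?_, ?_, fun m => h3 (m+1), h4⟩
  · rintro ⟨x, hx⟩
    rw [h2] at hx
    obtain ⟨y, rfl⟩ := hx
    exact ⟨y, rfl⟩
  · rw [ker_codRestrict]; exact h3 0

/-- finitely generated modules, bundled -/
structure FM (P : Type) [CommRing P] where
  M : Type
  [acg : AddCommGroup M]
  [mod : Module P M]
  [fin : Module.Finite P M]

attribute [instance] FM.acg FM.mod FM.fin

noncomputable def FM.rk (X : FM P) : ℕ := (Module.Finite.exists_fin' P X.M).choose
noncomputable def FM.pr (X : FM P) : (Fin X.rk → P) →ₗ[P] X.M :=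
  (Module.Finite.exists_fin' P X.M).choose_spec.choose
lemma FM.pr_surj (X : FM P) : Function.Surjective X.pr :=
  (Module.Finite.exists_fin' P X.M).choose_spec.choose_spec
noncomputable def FM.next [IsNoetherianRing P] (X : FM P) : FM P := FM.mk (ker X.pr)
noncomputable def FM.seq [IsNoetherianRing P] (X : FM P) : ℕ → FM P
  | 0 => X
  | n+1 => (FM.seq X n).next

lemma rs (K : Submodule P M) (g : M' →ₗ[P] K) (hg : Function.Surjective g) :
    range (K.subtype ∘ₗ g) = K := by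
  rw [range_comp, range_eq_top.2 hg, Submodule.map_top, Submodule.range_subtype]

lemma ks (K : Submodule P M) (g : M' →ₗ[P] K) : ker (K.subtype ∘ₗ g) = ker g := by
  rw [ker_comp, Submodule.ker_subtype]; rfl

lemma HR.zero [IsNoetherianRing P] {a : ℕ} (f : (Fin a → P) →ₗ[P] M) (hf : Function.Surjective f)
    (ha : a ≤ N) : HR P N 0 M := by
  let X : FM P := FM.mk (ker f)
  refine cons_aux f hf (fun m => (X.seq m).rk) X.pr
    (fun m => (ker (X.seq m).pr).subtype ∘ₗ (X.seq (m+1)).pr) X.pr_surj ?_ ?_ 0 ha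
  · exact (rs _ _ (X.seq 1).pr_surj).symm
  · intro m
    exact (ks _ _).trans (rs _ _ (X.seq (m+1+1)).pr_surj).symm

lemma HR.cons' [Nontrivial P] [Module.Finite P G] [Module.Free P G] (f : G →ₗ[P] M)
    (hf : Function.Surjective f) (h : HR P N n (ker f)) : HR P N (n+1) M := by
  let e := (Module.finBasis P G).equivFun.symm
  refine HR.cons (f ∘ₗ e.toLinearMap) (hf.comp e.surjective) (h.equiv ?_)
  exact (e.ofSubmodule' (ker f)).symm

lemma HR.step [Nontrivial P] [Module.Finite P G] [Module.Free P G] (f : G →ₗ[P] M)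
    (K : Submodule P M) (hK : range f = K) (L : Submodule P G) (hL : ker f = L)
    (h : HR P N n L) : HR P N (n+1) K := by
  subst hK hL
  refine HR.cons' f.rangeRestrict f.surjective_rangeRestrict (h.equiv ?_)
  exact LinearEquiv.ofEq _ _ (ker_rangeRestrict f).symm

lemma HR.prod [Nontrivial P] [Module.Finite P G] [Module.Free P G] (h : HR P N (n+1) M) :
    HR P N (n+1) (M × G) := by
  obtain ⟨a, f, hf, h⟩ := h.uncons
  refine HR.cons' (f.prodMap (LinearMap.id : G →ₗ[P] G)) (hf.prodMap Function.surjective_id)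
    (h.equiv ?_)
  refine LinearEquiv.ofBijective (codRestrict _ (inl P _ G ∘ₗ (ker f).subtype) ?_) ⟨?_, ?_⟩
  · rintro ⟨x, hx⟩
    simpa using hx
  · intro x y hxy
    have := congrArg (fun z => z.1.1) hxy
    exact Subtype.ext this
  · rintro ⟨⟨x, y⟩, hxy⟩
    simp only [mem_ker, prodMap_apply, id_coe, id_eq, Prod.mk_eq_zero] at hxy
    obtain ⟨h1, rfl⟩ := hxy
    exact ⟨⟨x, h1⟩, rfl⟩

lemma HR.unprod [Nontrivial P] [Module.Finite P G] [Module.Free P G] (h : HR P N (n+2) (M × G)) :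
    HR P N (n+2) M := by
  obtain ⟨a, f, hf, h⟩ := h.uncons
  obtain ⟨s, hs⟩ := Module.projective_lifting_property f (inr P M G) hf
  have hs' : ∀ y, f (s y) = (0, y) := fun y => congrArg (fun g : G →ₗ[P] M × G => g y) hs
  refine HR.cons (fst P M G ∘ₗ f) (Prod.fst_surjective.comp hf) ((h.prod (G := G)).equiv ?_)
  refine LinearEquiv.ofBijective (codRestrict _ (coprod (ker f).subtype s) ?_) ⟨?_, ?_⟩
  · rintro ⟨⟨x, hx⟩, y⟩
    have hx' : f x = 0 := hx
    simp [hx', hs']
  · rw [← ker_eq_bot, eq_bot_iff]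
    rintro ⟨⟨x, hx⟩, y⟩ hxy
    have hx' : f x = 0 := hx
    have h1 : x + s y = 0 := congrArg Subtype.val hxy
    have h2 : y = 0 := by
      have := congrArg (fun z => (f z).2) h1
      simpa [hx', hs'] using this
    subst h2
    simp at h1
    subst h1
    rfl
  · rintro ⟨w, hw⟩
    have hw' : (f w).1 = 0 := hw
    refine ⟨⟨⟨w - s (f w).2, ?_⟩, (f w).2⟩, Subtype.ext ?_⟩
    · rw [mem_ker, map_sub, hs']
      ext <;> simp [hw']
    · show w - s (f w).2 + s (f w).2 = w
      simp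

/-- top of a Gorenstein resolution -/
lemma HR.top [Nontrivial P] [IsNoetherianRing P] {G0 : Type} [AddCommGroup G0] [Module P G0]
    [Module.Finite P G0] [Module.Free P G0] (φ : G →ₗ[P] G0) (q : G0 →ₗ[P] M)
    (hq : Function.Surjective q) (hk : ker q = range φ) (lam : G0 →ₗ[P] G) (b0 : G)
    (ζ : G →ₗ[P] P) (h : ∀ w, lam (φ w) + ζ w • b0 = w) : HR P 1 1 (M × G) := by
  let ρ : G0 × P →ₗ[P] G := coprod lam (toSpanSingleton P G b0)
  let f : G0 × P →ₗ[P] M × G := LinearMap.prod (q ∘ₗ fst P G0 P) ρ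
  have hqφ : ∀ w, q (φ w) = 0 := fun w => by
    rw [← mem_ker, hk]; exact mem_range_self _ _
  have hf : ∀ x c, f (x, c) = (q x, lam x + c • b0) := fun x c => rfl
  refine HR.cons' f ?_ ?_
  · rintro ⟨m, y⟩
    obtain ⟨x, rfl⟩ := hq m
    refine ⟨(x + φ (y - lam x), ζ (y - lam x)), ?_⟩
    rw [hf, map_add, hqφ, add_zero, map_add, add_assoc, h]
    simp
  · have hη : (-φ b0, 1 - ζ b0) ∈ ker f := by
      rw [mem_ker, hf, map_neg, hqφ, map_neg, sub_smul, one_smul]
      have := h b0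
      ext
      · simp
      · simp only [Prod.snd_zero]
        rw [← sub_eq_zero.2 this.symm]; abel
    refine HR.zero (a := 1) (toSpanSingleton P _ (⟨_, hη⟩ : ker f) ∘ₗ proj 0) ?_ le_rfl
    rintro ⟨⟨x, c⟩, hx⟩
    have hx' := hx
    rw [mem_ker, hf, Prod.mk_eq_zero, ← mem_ker, hk] at hx'
    obtain ⟨⟨w, rfl⟩, h2⟩ := hx'
    have hw : w = -((c - ζ w) • b0) := by
      have := h w
      rw [sub_smul]
      rw [← sub_eq_zero, ← h2]
      nth_rewrite 1 [← this]
      abel
    refine ⟨fun _ => c - ζ w, Subtype.ext ?_⟩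
    show (c - ζ w) • ((-φ b0, 1 - ζ b0) : G0 × P) = (φ w, c)
    generalize hc : c - ζ w = c' at hw
    have hc2 : c = c' + ζ w := by rw [← hc]; ring
    rw [hc2, hw]
    ext
    · simp
    · simp; ring

/-- Schanuel -/
lemma HR.schanuel [Nontrivial P] {A : Type} [AddCommGroup A] [Module P A] [Module.Finite P G]
    [Module.Free P G] (ψ : P →ₗ[P] A) (hψ : Function.Surjective ψ) (ev : G →ₗ[P] A)
    (ι : P →ₗ[P] G) (hι : ∀ p, ev (ι p) = ψ p) (h : HR P N (n+2) (ker ev)) :
    HR P N (n+2) (ker ψ) := by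
  obtain ⟨β, hβ⟩ := Module.projective_lifting_property ψ ev hψ
  have hβ' : ∀ y, ψ (β y) = ev y := fun y => congrArg (fun g : G →ₗ[P] A => g y) hβ
  refine HR.unprod (G := G) ((h.prod (G := P)).equiv ?_)
  let u : ker ev × P →ₗ[P] G := coprod (ker ev).subtype ι
  refine LinearEquiv.ofBijective
    (LinearMap.prod (codRestrict (ker ψ) (snd P _ P - β ∘ₗ u) ?_) u) ⟨?_, ?_⟩
  · rintro ⟨⟨j, hj⟩, p⟩
    have hj' : ev j = 0 := hj
    simp [u, hβ', hj', hι]
  · rw [← ker_eq_bot, eq_bot_iff]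
    rintro ⟨⟨j, hj⟩, p⟩ hx
    have h1 : j + ι p = 0 := congrArg Prod.snd hx
    have h2 : p - β (j + ι p) = 0 := congrArg (fun z => z.1.1) hx
    rw [h1, map_zero, sub_zero] at h2
    subst h2
    simp at h1
    subst h1
    rfl
  · rintro ⟨⟨q, hq⟩, b⟩
    have hq' : ψ q = 0 := hq
    refine ⟨(⟨b - ι (q + β b), ?_⟩, q + β b), ?_⟩
    · rw [mem_ker, map_sub, hι, map_add, hq', hβ']; simp
    · ext
      · show q + β b - β (b - ι (q + β b) + ι (q + β b)) = q
        simp
      · show b - ι (q + β b) + ι (q + β b) = b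
        simp

end Pool.Agent.H79.Reso
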