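import Pool.Agent.H79.Reso1

set_option autoImplicit false

namespace Pool.Agent.H79.Reso

open LinearMap

/-- an exact complex of `B`-modules that are finite free over `P`, resolving `B / J` -/
structure Cx (P B : Type) [CommRing P] [CommRing B] [Algebra P B] (J : Ideal B) where
  X : ℕ → Type
  [acg : ∀ n, AddCommGroup (X n)]
  [mB : ∀ n, Module B (X n)]
  [mP : ∀ n, Module P (X n)]
  [tower : ∀ n, IsScalarTower P B (X n)]
  [fin : ∀ n, Module.Finite P (X n)]
  [free : ∀ n, Module.Free P (X n)]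
  d : ∀ n, X (n+1) →ₗ[B] X n
  σ : X 0 ≃ₗ[B] B
  aug : ∀ y, σ y ∈ J ↔ ∃ x, d 0 x = y
  ex : ∀ n y, d n y = 0 ↔ ∃ x, d (n+1) x = y

attribute [instance] Cx.acg Cx.mB Cx.mP Cx.tower Cx.fin Cx.free

variable {P B : Type} [CommRing P] [CommRing B] [Algebra P B]

noncomputable def Cx.triv [Module.Finite P B] [Module.Free P B] : Cx P B ⊥ where
  X := fun n => match n with | 0 => B | _+1 => PUnit
  acg := fun n => match n with | 0 => inferInstance | _+1 => inferInstance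
  mB := fun n => match n with | 0 => inferInstance | _+1 => inferInstance
  mP := fun n => match n with | 0 => inferInstance | _+1 => inferInstance
  tower := fun n => match n with | 0 => inferInstance | _+1 => inferInstance
  fin := fun n => match n with | 0 => inferInstance | _+1 => inferInstance
  free := fun n => match n with | 0 => inferInstance | _+1 => inferInstance
  d := fun _ => 0
  σ := LinearEquiv.refl B B
  aug := fun _ => ⟨fun h => ⟨0, (Ideal.mem_bot.1 h).symm⟩, fun ⟨_, h⟩ => Ideal.mem_bot.2 h.symm⟩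
  ex := fun _ _ => ⟨fun _ => ⟨0, rfl⟩, fun _ => rfl⟩

section cone
variable {J : Ideal B} (C : Cx P B J) (z : B)

def dz : C.X 1 × C.X 0 →ₗ[B] C.X 0 := coprod (C.d 0) (z • LinearMap.id)

def ds (n : ℕ) : C.X (n+2) × C.X (n+1) →ₗ[B] C.X (n+1) × C.X n :=
  LinearMap.prod (coprod (C.d (n+1)) (z • LinearMap.id)) (-(C.d n ∘ₗ snd B _ _))

lemma dz_apply (x : C.X 1) (y : C.X 0) : dz C z (x, y) = C.d 0 x + z • y := rfl
lemma ds_apply (n : ℕ) (x : C.X (n+2)) (y : C.X (n+1)) :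
    ds C z n (x, y) = (C.d (n+1) x + z • y, -C.d n y) := rfl

lemma dd0 (n : ℕ) (x : C.X (n+2)) : C.d n (C.d (n+1) x) = 0 := (C.ex n _).2 ⟨x, rfl⟩

lemma cone_aug (y : C.X 0) : C.σ y ∈ J ⊔ Ideal.span {z} ↔ ∃ x, dz C z x = y := by
  constructor
  · intro h
    obtain ⟨j, hj, w, hw, h⟩ := Submodule.mem_sup.1 h
    obtain ⟨c, rfl⟩ := Ideal.mem_span_singleton'.1 hw
    obtain ⟨x, hx⟩ := (C.aug (C.σ.symm j)).1 (by simpa using hj)
    refine ⟨(x, C.σ.symm c), C.σ.injective ?_⟩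
    rw [dz_apply, hx, ← h]; simp [mul_comm]
  · rintro ⟨⟨x, w⟩, rfl⟩
    rw [dz_apply, map_add, map_smul]
    exact Submodule.add_mem_sup ((C.aug _).2 ⟨x, rfl⟩)
      (Ideal.mul_mem_right _ _ (Ideal.mem_span_singleton_self z))

lemma cone_ex0 (hz : ∀ y, z * y ∈ J → y ∈ J) (y : C.X 1 × C.X 0) :
    dz C z y = 0 ↔ ∃ x, ds C z 0 x = y := by
  constructor
  · obtain ⟨x, y⟩ := y
    rw [dz_apply]
    intro h
    have h1 : z * C.σ y ∈ J := by
      have := (C.aug (z • y)).2 ⟨-x, by rw [map_neg]; exact neg_eq_of_add_eq_zero_right h⟩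
      simpa using this
    obtain ⟨y', rfl⟩ := (C.aug y).1 (hz _ h1)
    obtain ⟨x', hx'⟩ := (C.ex 0 (x + z • y')).1 (by rw [map_add, map_smul]; exact h)
    exact ⟨(x', -y'), by rw [ds_apply, hx']; simp⟩
  · rintro ⟨⟨x, w⟩, rfl⟩
    rw [ds_apply, dz_apply, map_add, dd0, map_smul]; simp

lemma cone_exs (n : ℕ) (y : C.X (n+2) × C.X (n+1)) :
    ds C z n y = 0 ↔ ∃ x, ds C z (n+1) x = y := by
  constructor
  · obtain ⟨x, y⟩ := y
    rw [ds_apply, Prod.mk_eq_zero, neg_eq_zero]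
    rintro ⟨h, h'⟩
    obtain ⟨y', rfl⟩ := (C.ex n y).1 h'
    obtain ⟨x', hx'⟩ := (C.ex (n+1) (x + z • y')).1 (by rw [map_add, map_smul]; exact h)
    exact ⟨(x', -y'), by rw [ds_apply, hx']; simp⟩
  · rintro ⟨⟨x, w⟩, rfl⟩
    rw [ds_apply, ds_apply, map_add, dd0, map_smul, map_neg, dd0]; simp

noncomputable def Cx.cone (hz : ∀ y, z * y ∈ J → y ∈ J) : Cx P B (J ⊔ Ideal.span {z}) where
  X := fun n => match n with | 0 => C.X 0 | n+1 => C.X (n+1) × C.X n
  acg := fun n => match n with | 0 => inferInstance | _+1 => inferInstance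
  mB := fun n => match n with | 0 => inferInstance | _+1 => inferInstance
  mP := fun n => match n with | 0 => inferInstance | _+1 => inferInstance
  tower := fun n => match n with | 0 => inferInstance | _+1 => inferInstance
  fin := fun n => match n with | 0 => inferInstance | _+1 => inferInstance
  free := fun n => match n with | 0 => inferInstance | _+1 => inferInstance
  d := fun n => match n with | 0 => dz C z | n+1 => ds C z n
  σ := C.σ
  aug := cone_aug C z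
  ex := fun n => match n with | 0 => cone_ex0 C z hz | n+1 => cone_exs C z n

end cone

def Top {J : Ideal B} (C : Cx P B J) (t : ℕ) : Prop :=
  (∀ n, t + 2 ≤ n → Subsingleton (C.X n)) ∧ ∃ τ : C.X (t+1) →ₗ[B] B, Function.Bijective τ ∧
    ∀ z ∈ J, ∃ π : C.X t →ₗ[B] B, ∀ w, π (C.d t w) = z * τ w

lemma top_zero [Module.Finite P B] [Module.Free P B] (z : B)
    (hz : ∀ y, z * y ∈ (⊥ : Ideal B) → y ∈ (⊥ : Ideal B)) :
    Top ((Cx.triv (P := P) (B := B)).cone z hz) 0 := by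
  refine ⟨?_, (snd B PUnit B : PUnit × B →ₗ[B] B), ⟨?_, Prod.snd_surjective⟩, ?_⟩
  · intro n hn
    obtain ⟨m, rfl⟩ : ∃ m, n = m + 1 + 1 := ⟨n - 2, by omega⟩
    exact inferInstanceAs (Subsingleton (PUnit × PUnit))
  · rintro ⟨x, y⟩ ⟨x', y'⟩ h
    exact Prod.ext rfl h
  · intro z' hz'
    rw [bot_sup_eq] at hz'
    obtain ⟨c, rfl⟩ := Ideal.mem_span_singleton'.1 hz'
    refine ⟨(c • LinearMap.id : B →ₗ[B] B), ?_⟩
    rintro ⟨x, y⟩
    show c * ((0:B) + z * (show B from y)) = c * z * (show B from y)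
    ring

lemma top_succ {J : Ideal B} (C : Cx P B J) (z : B) (hz : ∀ y, z * y ∈ J → y ∈ J) (t : ℕ)
    (h : Top C t) : Top (C.cone z hz) (t+1) := by
  obtain ⟨h1, τ, hτ, h2⟩ := h
  have := h1 (t+2) le_rfl
  refine ⟨?_, (τ ∘ₗ snd B _ _ : C.X (t+2) × C.X (t+1) →ₗ[B] B),
    hτ.comp ⟨?_, Prod.snd_surjective⟩, ?_⟩
  · intro n hn
    obtain ⟨m, rfl⟩ : ∃ m, n = m + 1 := ⟨n - 1, by omega⟩
    have := h1 (m+1) (by omega)
    have := h1 m (by omega)
    exact inferInstanceAs (Subsingleton (C.X (m+1) × C.X m))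
  · rintro ⟨x, y⟩ ⟨x', y'⟩ h
    exact Prod.ext (Subsingleton.elim _ _) h
  · intro z' hz'
    obtain ⟨j, hj, w, hw, rfl⟩ := Submodule.mem_sup.1 hz'
    obtain ⟨c, rfl⟩ := Ideal.mem_span_singleton'.1 hw
    obtain ⟨π, hπ⟩ := h2 j hj
    refine ⟨(coprod (c • τ) (-π) : C.X (t+1) × C.X t →ₗ[B] B), ?_⟩
    rintro ⟨x, y⟩
    have hx : x = 0 := Subsingleton.elim _ _
    subst hx
    show c • τ (C.d (t+1) 0 + z • y) + -π (-C.d t y) = (j + c * z) * τ y
    rw [map_zero, zero_add, map_smul, map_neg, hπ]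
    simp only [smul_eq_mul]; ring

lemma koszul [Module.Finite P B] [Module.Free P B] (z : ℕ → B) (J : ℕ → Ideal B) (h0 : J 0 = ⊥)
    (hs : ∀ t, J (t+1) = J t ⊔ Ideal.span {z t}) (T : ℕ)
    (hz : ∀ t ≤ T, ∀ y, z t * y ∈ J t → y ∈ J t) :
    ∃ C : Cx P B (J (T+1)), Top C T := by
  induction T with
  | zero =>
    have := hz 0 le_rfl
    rw [hs, h0] at *
    exact ⟨_, top_zero (z 0) this⟩
  | succ T ih =>
    obtain ⟨C, hC⟩ := ih (fun t ht => hz t (by omega))
    rw [hs (T+1)]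
    exact ⟨_, top_succ C _ (hz (T+1) le_rfl) T hC⟩

lemma hr_of_top [Nontrivial P] [IsNoetherianRing P] {J : Ideal B} (C : Cx P B J) (hC : Top C 6)
    {ι : Type} [Fintype ι] (E : Module.Basis ι P B) (ζ : B →ₗ[P] P) (U : ι → B)
    (hU : ∀ w b, ζ (U w * b) = E.repr b w) (p : ι → P) (hp : ∀ w, U w - algebraMap P B (p w) ∈ J) :
    HR P 1 6 (J.restrictScalars P) := by
  obtain ⟨-, τ, hτ, h2⟩ := hC
  choose π hπ using fun w => h2 _ (hp w)
  let τ' := (LinearEquiv.ofBijective τ hτ).restrictScalars P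
  let d : ∀ n, C.X (n+1) →ₗ[P] C.X n := fun n => (C.d n).restrictScalars P
  have hex : ∀ n, range (d (n+1)) = ker (d n) := fun n => by
    ext y; exact (C.ex n y).symm
  let lam : C.X 6 →ₗ[P] C.X 7 := τ'.symm.toLinearMap ∘ₗ
    ∑ w, (toSpanSingleton P B (E w)) ∘ₗ ζ ∘ₗ (π w).restrictScalars P
  have t1 : HR P 1 1 (ker (d 4) × C.X 7) := by
    refine HR.top (d 6) (codRestrict (ker (d 4)) (d 5) (fun x => hex 4 ▸ mem_range_self _ x)) ?_ ?_
      lam (τ'.symm (∑ w, p w • E w)) (ζ ∘ₗ τ'.toLinearMap) ?_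
    · rintro ⟨y, hy⟩
      rw [← hex] at hy
      obtain ⟨x, rfl⟩ := hy
      exact ⟨x, rfl⟩
    · rw [ker_codRestrict, hex]
    · intro w
      apply τ'.injective
      have e1 : τ' (lam (d 6 w)) = ∑ v, ζ ((U v - algebraMap P B (p v)) * τ w) • E v := by
        simp only [lam, coe_comp, Function.comp_apply, LinearEquiv.coe_coe,
          LinearEquiv.apply_symm_apply, LinearMap.sum_apply, toSpanSingleton_apply]
        refine Finset.sum_congr rfl fun v _ => ?_
        rw [← hπ]; rfl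
      have e2 : τ' w = τ w := rfl
      rw [map_add, map_smul, e1, LinearEquiv.apply_symm_apply, comp_apply, LinearEquiv.coe_coe, e2,
        Finset.smul_sum, ← Finset.sum_add_distrib]
      conv_rhs => rw [← E.sum_repr (τ w)]
      refine Finset.sum_congr rfl fun v _ => ?_
      rw [sub_mul, map_sub, hU, ← Algebra.smul_def, map_smul, smul_smul, ← add_smul]
      congr 1
      simp only [smul_eq_mul]; ring
  have t2 : HR P 1 2 (ker (d 3)) := by
    refine HR.step (d 4 ∘ₗ fst P _ (C.X 7)) _ ?_ _ rfl (t1.equiv ?_)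
    · rw [range_comp, range_eq_top.2 Prod.fst_surjective, Submodule.map_top, hex]
    · refine LinearEquiv.ofBijective (codRestrict _ ((ker (d 4)).subtype.prodMap LinearMap.id) ?_)
        ⟨?_, ?_⟩
      · rintro ⟨⟨x, hx⟩, y⟩; exact hx
      · rintro ⟨x, y⟩ ⟨x', y'⟩ h
        exact Prod.ext (Subtype.ext (congrArg (fun z => z.1.1) h)) (congrArg (fun z => z.1.2) h)
      · rintro ⟨⟨x, y⟩, h⟩
        exact ⟨(⟨x, h⟩, y), rfl⟩
  have t3 := HR.step (d 3) _ (hex 2) _ rfl t2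
  have t4 := HR.step (d 2) _ (hex 1) _ rfl t3
  have t5 := HR.step (d 1) _ (hex 0) _ rfl t4
  refine HR.step ((C.σ.restrictScalars P).toLinearMap ∘ₗ d 0) _ ?_ _ ?_ t5
  · ext y
    constructor
    · rintro ⟨x, rfl⟩
      exact (C.aug _).2 ⟨x, rfl⟩
    · intro hy
      obtain ⟨x, hx⟩ := (C.aug (C.σ.symm y)).1 (by simpa using hy)
      refine ⟨x, ?_⟩
      show C.σ (C.d 0 x) = y
      rw [hx]; simp
  · ext y; exact C.σ.map_eq_zero_iff

end Pool.Agent.H79.Reso
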