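import Pool.Agent.H79.Reso2
import Pool.Agent.H79.Bres2

set_option autoImplicit false

namespace Pool.Agent.H79.Reso

open MvPolynomial Pool.Agent.H79.Bres

section kos
variable {A : Type} [CommRing A] (a : Fin 7 → A)

noncomputable def zz (t : ℕ) : MvPolynomial (Fin 7) A :=
  if h : t < 7 then X ⟨t, h⟩ - C (a ⟨t, h⟩) else 0

noncomputable def JJ : ℕ → Ideal (MvPolynomial (Fin 7) A)
  | 0 => ⊥
  | t+1 => JJ t ⊔ Ideal.span {zz a t}

noncomputable def evt (t : ℕ) : MvPolynomial (Fin 7) A →ₐ[A] MvPolynomial (Fin 7) A :=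
  aeval (fun i => if i.val < t then C (a i) else X i)

lemma zz_mem {i t : ℕ} (h : i < t) : zz a i ∈ JJ a t := by
  induction t with
  | zero => omega
  | succ t ih =>
    rcases Nat.lt_succ_iff_lt_or_eq.1 h with h | rfl
    · exact Ideal.mem_sup_left (ih h)
    · exact Ideal.mem_sup_right (Ideal.mem_span_singleton_self _)

lemma JJ_le {t T : ℕ} (h : t ≤ T) {f : MvPolynomial (Fin 7) A} (hf : f ∈ JJ a t) :
    evt a T f = 0 := by
  induction t generalizing f with
  | zero => rw [Ideal.mem_bot.1 hf, map_zero]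
  | succ t ih =>
    obtain ⟨j, hj, w, hw, rfl⟩ := Submodule.mem_sup.1 hf
    obtain ⟨c, rfl⟩ := Ideal.mem_span_singleton'.1 hw
    have : evt a T (zz a t) = 0 := by
      unfold zz evt
      split_ifs with h7
      · simp [show t < T by omega]
      · simp
    rw [map_add, ih (by omega) hj, map_mul, this]; simp

lemma sub_evt (t : ℕ) (f : MvPolynomial (Fin 7) A) : f - evt a t f ∈ JJ a t := by
  induction f using MvPolynomial.induction_on with
  | C r => simp [evt]
  | add p q hp hq =>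
    rw [map_add, show p + q - (evt a t p + evt a t q) = (p - evt a t p) + (q - evt a t q) by ring]
    exact add_mem hp hq
  | mul_X p i hp =>
    have h1 : X i - evt a t (X i) ∈ JJ a t := by
      unfold evt
      rw [aeval_X]
      split_ifs with h
      · have := zz_mem a h
        unfold zz at this
        rwa [dif_pos i.2] at this
      · simp
    rw [map_mul, show p * X i - evt a t p * evt a t (X i) =
      (p - evt a t p) * X i + evt a t p * (X i - evt a t (X i)) by ring]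
    exact add_mem (Ideal.mul_mem_right _ _ hp) (Ideal.mul_mem_left _ _ h1)

lemma mem_JJ (t : ℕ) (f : MvPolynomial (Fin 7) A) : f ∈ JJ a t ↔ evt a t f = 0 :=
  ⟨JJ_le a le_rfl, fun h => by simpa [h] using sub_evt a t f⟩

lemma JJ_reg [IsDomain A] (t : ℕ) (ht : t ≤ 6) (y : MvPolynomial (Fin 7) A)
    (h : zz a t * y ∈ JJ a t) : y ∈ JJ a t := by
  rw [mem_JJ] at h ⊢
  rw [map_mul] at h
  refine (mul_eq_zero.1 h).resolve_left ?_
  unfold zz evt
  rw [dif_pos (by omega : t < 7)]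
  simp only [map_sub, aeval_X, lt_irrefl, if_false, aeval_C, algebraMap_eq]
  intro h0
  have := congrArg (eval (fun _ => a ⟨t, by omega⟩ + 1)) h0
  simp at this

lemma mem_J7 (f : MvPolynomial (Fin 7) A) : f ∈ JJ a 7 ↔ eval a f = 0 := by
  have : evt a 7 f = C (eval a f) := by
    induction f using MvPolynomial.induction_on with
    | C r => simp [evt]
    | add p q hp hq => simp only [map_add, hp, hq]
    | mul_X p i hp => rw [map_mul, hp]; simp [evt]
  rw [mem_JJ, this, C_eq_zero]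

end kos

lemma apery {N : ℕ} {g : Fin 8 → ℕ} (hg : Good 8 N g) : 0 < g 0 ∧
    ∃ (ap : Fin (g 0) → ℕ) (i0 : Fin (g 0)), (∀ c, ∃ γ : Fin 8 → ℕ, ∑ j, γ j * g j = ap c) ∧
    (∀ c, ap c % g 0 = c) ∧
    (∀ γ : Fin 8 → ℕ, ∃ c q, ∑ j, γ j * g j = ap c + g 0 * q) ∧
    ∀ w, ∃ γ : Fin 8 → ℕ, ∑ j, γ j * g j + ap w = ap i0 := by
  classical
  have hm : 0 < g 0 := Nat.pos_of_ne_zero fun h => hg.minimal 0 0 rfl (by simp [h])
  obtain ⟨M, hM⟩ := hg.big
  obtain ⟨F, hF⟩ := hg.sym
  have hex : ∀ c : Fin (g 0), ∃ s, (∃ γ : Fin 8 → ℕ, ∑ j, γ j * g j = s) ∧ s % g 0 = c := by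
    intro c
    refine ⟨c + g 0 * M, hM _ (by nlinarith), ?_⟩
    rw [Nat.add_mul_mod_self_left, Nat.mod_eq_of_lt c.2]
  have h3 : ∀ s, (∃ γ : Fin 8 → ℕ, ∑ j, γ j * g j = s) →
      ∃ q, s = Nat.find (hex ⟨s % g 0, Nat.mod_lt _ hm⟩) + g 0 * q := by
    intro s hs
    have h1 := Nat.find_min' (hex ⟨s % g 0, Nat.mod_lt _ hm⟩) ⟨hs, rfl⟩
    have h2 : Nat.find (hex ⟨s % g 0, Nat.mod_lt _ hm⟩) % g 0 = s % g 0 :=
      (Nat.find_spec (hex ⟨s % g 0, Nat.mod_lt _ hm⟩)).2
    obtain ⟨q, hq⟩ := (Nat.modEq_iff_dvd' h1).1 h2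
    exact ⟨q, by omega⟩
  have h4 : ∀ w : Fin (g 0), ∃ γ : Fin 8 → ℕ,
      ((∑ j, γ j * g j : ℕ) : ℤ) = F - ((Nat.find (hex w) : ℤ) - g 0) := by
    intro w
    by_contra hc
    obtain ⟨γ, hγ⟩ := (hF _).2 hc
    have h5 := (Nat.find_spec (hex w)).2
    refine Nat.find_min (hex w) (m := ∑ j, γ j * g j) (by omega) ⟨⟨γ, rfl⟩, ?_⟩
    rw [← h5, show Nat.find (hex w) = ∑ j, γ j * g j + g 0 by omega, Nat.add_mod_right]
  obtain ⟨γ0, hγ0⟩ : ∃ γ : Fin 8 → ℕ, ((∑ j, γ j * g j : ℕ) : ℤ) = F - (-(g 0 : ℤ)) := by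
    by_contra hc
    obtain ⟨γ, hγ⟩ := (hF _).2 hc
    omega
  obtain ⟨q, hq⟩ := h3 _ ⟨γ0, rfl⟩
  have hq0 : q = 0 := by
    by_contra h0
    obtain ⟨q, rfl⟩ : ∃ q', q = q' + 1 := ⟨q - 1, by omega⟩
    obtain ⟨γ1, hγ1⟩ := (Nat.find_spec (hex ⟨(∑ j, γ0 j * g j) % g 0, Nat.mod_lt _ hm⟩)).1
    apply (hF 0).1 ⟨0, by simp⟩
    refine ⟨γ1 + Pi.single 0 q, ?_⟩
    have e : ∑ j, (γ1 + Pi.single 0 q : Fin 8 → ℕ) j * g j = ∑ j, γ1 j * g j + g 0 * q := by
      simp only [Pi.add_apply, add_mul, Finset.sum_add_distrib]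
      simp [Pi.single_apply, mul_comm]
    rw [e, hγ1]
    rw [mul_add] at hq
    omega
  refine ⟨hm, fun c => Nat.find (hex c), ⟨(∑ j, γ0 j * g j) % g 0, Nat.mod_lt _ hm⟩,
    fun c => (Nat.find_spec (hex c)).1, fun c => (Nat.find_spec (hex c)).2,
    fun γ => ⟨_, h3 _ ⟨γ, rfl⟩⟩, fun w => ?_⟩
  obtain ⟨γ, hγ⟩ := h4 w
  refine ⟨γ, ?_⟩
  rw [hq0] at hq
  dsimp only
  omega

noncomputable def ps (g : Fin 8 → ℕ) : MvPolynomial (Fin 8) ℚ →ₐ[ℚ] Polynomial ℚ :=
  aeval (fun l : Fin 8 => (Polynomial.X : Polynomial ℚ) ^ g l)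

/-- the semigroup ring -/
def AA (g : Fin 8 → ℕ) : Type := MvPolynomial (Fin 8) ℚ ⧸ RingHom.ker (ps g)

noncomputable instance (g : Fin 8 → ℕ) : CommRing (AA g) :=
  inferInstanceAs (CommRing (MvPolynomial (Fin 8) ℚ ⧸ RingHom.ker (ps g)))
noncomputable instance (g : Fin 8 → ℕ) : Algebra ℚ (AA g) :=
  inferInstanceAs (Algebra ℚ (MvPolynomial (Fin 8) ℚ ⧸ RingHom.ker (ps g)))

noncomputable def mkA (g : Fin 8 → ℕ) : MvPolynomial (Fin 8) ℚ →ₐ[ℚ] AA g :=
  Ideal.Quotient.mkₐ ℚ (RingHom.ker (ps g))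
noncomputable def jA (g : Fin 8 → ℕ) : AA g →ₐ[ℚ] Polynomial ℚ := Ideal.kerLiftAlg (ps g)

lemma jA_inj (g : Fin 8 → ℕ) : Function.Injective (jA g) := Ideal.kerLiftAlg_injective _
lemma jA_mk (g : Fin 8 → ℕ) (p : MvPolynomial (Fin 8) ℚ) : jA g (mkA g p) = ps g p :=
  Ideal.kerLiftAlg_mk _ _
lemma mkA_surj (g : Fin 8 → ℕ) : Function.Surjective (mkA g) := Ideal.Quotient.mk_surjective

instance (g : Fin 8 → ℕ) : IsDomain (AA g) := (jA_inj g).isDomain (jA g).toRingHom

noncomputable instance (g : Fin 8 → ℕ) : Algebra (Polynomial ℚ) (AA g) :=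
  (Polynomial.aeval (mkA g (X 0))).toRingHom.toAlgebra

lemma alg_eq (g : Fin 8 → ℕ) (r : Polynomial ℚ) :
    algebraMap (Polynomial ℚ) (AA g) r = Polynomial.aeval (mkA g (X 0)) r := rfl

lemma jA_smul (g : Fin 8 → ℕ) (r : Polynomial ℚ) (x : AA g) :
    jA g (r • x) = Polynomial.expand ℚ (g 0) r * jA g x := by
  rw [Algebra.smul_def, map_mul, alg_eq, ← Polynomial.aeval_algHom_apply, jA_mk]
  congr 1
  simp only [ps, aeval_X]
  rw [Polynomial.expand_eq_comp_X_pow, Polynomial.comp_eq_aeval]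

noncomputable def mon (γ : Fin 8 → ℕ) : MvPolynomial (Fin 8) ℚ :=
  monomial (Finsupp.equivFunOnFinite.symm γ) 1

lemma ps_mon' (g γ : Fin 8 → ℕ) : ps g (mon γ) = Polynomial.X ^ (∑ j, γ j * g j) := by
  unfold ps mon
  rw [ps_mon]; simp

lemma exists_basis (g : Fin 8 → ℕ) (hm : 0 < g 0) (ap : Fin (g 0) → ℕ) (f : Fin (g 0) → Fin 8 → ℕ)
    (h1 : ∀ c, ∑ j, f c j * g j = ap c) (h2 : ∀ c, ap c % g 0 = c)
    (h3 : ∀ γ : Fin 8 → ℕ, ∃ c q, ∑ j, γ j * g j = ap c + g 0 * q) :
    ∃ e : Module.Basis (Fin (g 0)) (Polynomial ℚ) (AA g), ∀ c, e c = mkA g (mon (f c)) := by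
  refine ⟨Module.Basis.mk (v := fun c => mkA g (mon (f c))) ?_ ?_, fun c => Module.Basis.mk_apply _ _ c⟩
  · rw [Fintype.linearIndependent_iff]
    intro r hr c0
    ext q
    have := congrArg (fun x => (jA g x).coeff (g 0 * q + ap c0)) hr
    simp only [map_sum, jA_smul, jA_mk, ps_mon', h1, map_zero, Polynomial.coeff_zero,
      Polynomial.finsetSum_coeff] at this
    rw [Finset.sum_eq_single c0] at this
    · rwa [Polynomial.coeff_mul_X_pow, mul_comm, Polynomial.coeff_expand_mul hm] at this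
    · intro c _ hc
      rw [Polynomial.coeff_mul_X_pow']
      split_ifs with hle
      · rw [Polynomial.coeff_expand hm, if_neg]
        intro hd
        apply hc
        have h4 := (Nat.modEq_iff_dvd' hle).2 hd
        unfold Nat.ModEq at h4
        rw [Nat.mul_add_mod, h2, h2] at h4
        exact Fin.ext h4
      · rfl
    · simp
  · intro x _
    obtain ⟨p, rfl⟩ := mkA_surj g x
    induction p using MvPolynomial.induction_on' with
    | monomial γ r =>
      obtain ⟨c, q, h⟩ := h3 γ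
      have : mkA g (monomial γ r) = (Polynomial.C r * Polynomial.X ^ q) • mkA g (mon (f c)) := by
        apply jA_inj
        rw [jA_smul, jA_mk, jA_mk, ps_mon', h1]
        unfold ps
        rw [ps_mon, h]
        simp [pow_add, pow_mul]; ring
      rw [this]
      exact Submodule.smul_mem _ _ (Submodule.subset_span ⟨c, rfl⟩)
    | add p q hp hq => rw [map_add]; exact add_mem (hp trivial) (hq trivial)

attribute [local instance] MvPolynomial.algebraMvPolynomial

noncomputable def Ph : MvPolynomial (Fin 8) ℚ ≃ₐ[ℚ] MvPolynomial (Fin 7) (Polynomial ℚ) :=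
  (renameEquiv ℚ (_root_.finSuccEquiv 7)).trans (optionEquivRight ℚ (Fin 7))

lemma Ph_zero : Ph (X 0) = C Polynomial.X := by
  simp [Ph]
lemma Ph_succ (i : Fin 7) : Ph (X i.succ) = X i := by
  simp [Ph]
lemma Ph_C (r : ℚ) : Ph (C r) = C (Polynomial.C r) := by
  simp [Ph]

@[reducible] noncomputable def algPB (g : Fin 8 → ℕ) :
    Algebra (MvPolynomial (Fin 8) ℚ) (MvPolynomial (Fin 7) (AA g)) :=
  ((MvPolynomial.map (algebraMap (Polynomial ℚ) (AA g))).comp Ph.toRingEquiv.toRingHom).toAlgebra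

theorem hr_main {N : ℕ} {g : Fin 8 → ℕ} (hg : Good 8 N g) :
    HR (MvPolynomial (Fin 8) ℚ) 1 6 (RingHom.ker (ps g)) := by
  classical
  obtain ⟨hm, ap, i0, h1, h2, h3, h4⟩ := apery hg
  choose f hf using h1
  choose u hu using h4
  obtain ⟨e, he⟩ := exists_basis g hm ap f hf h2 h3
  let := algPB g
  have halg : ∀ p : MvPolynomial (Fin 8) ℚ, algebraMap _ (MvPolynomial (Fin 7) (AA g)) p =
    MvPolynomial.map (algebraMap (Polynomial ℚ) (AA g)) (Ph p) := fun _ => rfl
  let E' := (Algebra.IsPushout.out (R := Polynomial ℚ) (S := MvPolynomial (Fin 7) (Polynomial ℚ))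
    (R' := AA g) (S' := MvPolynomial (Fin 7) (AA g))).basis e
  have hE' : ∀ c, E' c = C (e c) := fun c => IsBaseChange.basis_apply _ _ c
  let E : Module.Basis (Fin (g 0)) (MvPolynomial (Fin 8) ℚ) (MvPolynomial (Fin 7) (AA g)) :=
    E'.mapCoeffs Ph.toRingEquiv.symm (fun c x => by
      rw [Algebra.smul_def, Algebra.smul_def, halg]
      congr 2
      exact Ph.apply_symm_apply c)
  have hE : ∀ c, E c = C (mkA g (mon (f c))) := fun c => by
    rw [← he, ← hE']; exact Module.Basis.mapCoeffs_apply _ _ _ c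
  have := Module.Finite.of_basis E
  have := Module.Free.of_basis E
  let a : Fin 7 → AA g := fun i => mkA g (X i.succ)
  have hev : ∀ p : MvPolynomial (Fin 8) ℚ,
      eval a (algebraMap _ (MvPolynomial (Fin 7) (AA g)) p) = mkA g p := by
    intro p
    rw [halg]
    induction p using MvPolynomial.induction_on with
    | C r =>
      rw [Ph_C, map_C, eval_C, alg_eq, Polynomial.aeval_C]
      exact ((mkA g).commutes r).symm
    | add p q hp hq => simp only [map_add, hp, hq]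
    | mul_X p i hp =>
      simp only [map_mul, hp]
      congr 1
      induction i using Fin.cases with
      | zero => rw [Ph_zero, map_C, eval_C, alg_eq, Polynomial.aeval_X]
      | succ i => rw [Ph_succ, map_X, eval_X]
  obtain ⟨K, hK⟩ := koszul (P := MvPolynomial (Fin 8) ℚ) (zz a) (JJ a) rfl (fun _ => rfl) 6
    (JJ_reg a)
  have hx0 : algebraMap (MvPolynomial (Fin 8) ℚ) (MvPolynomial (Fin 7) (AA g)) (X 0) =
      C (mkA g (X 0)) := by
    rw [halg, Ph_zero, map_C, alg_eq, Polynomial.aeval_X]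
  have hprod : ∀ w v c q, ∑ j, u w j * g j + ap v = ap c + g 0 * q →
      C (mkA g (mon (u w))) * E v = (X 0 ^ q : MvPolynomial (Fin 8) ℚ) • E c := by
    intro w v c q h
    rw [Algebra.smul_def, map_pow, hx0, hE, hE, ← C_pow, ← C_mul, ← C_mul]
    congr 1
    apply jA_inj
    simp only [map_mul, map_pow, jA_mk, ps_mon', hf]
    simp only [ps, aeval_X, ← pow_mul, ← pow_add, h, add_comm]
  have t := hr_of_top K hK E (E.coord i0) (fun w => C (mkA g (mon (u w)))) ?_ (fun w => mon (u w)) ?_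
  · let ev : MvPolynomial (Fin 7) (AA g) →ₗ[MvPolynomial (Fin 8) ℚ]
        (MvPolynomial (Fin 8) ℚ ⧸ RingHom.ker (ps g)) :=
      { toFun := fun b => eval a b
        map_add' := fun x y => map_add (eval a) x y
        map_smul' := fun p b => by
          have : eval a (p • b) = mkA g p * eval a b := by rw [Algebra.smul_def, map_mul, hev]
          exact this.trans (Algebra.smul_def (A := MvPolynomial (Fin 8) ℚ ⧸ RingHom.ker (ps g))
            p (eval a b)).symm }
    have e1 : (JJ a (6+1)).restrictScalars (MvPolynomial (Fin 8) ℚ) = LinearMap.ker ev := by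
      ext b; exact mem_J7 a b
    have t2 := HR.schanuel (n := 4) (RingHom.ker (ps g)).mkQ (Submodule.mkQ_surjective _) ev
      (Algebra.linearMap _ _) hev (t.equiv (LinearEquiv.ofEq _ _ e1))
    exact t2.equiv (LinearEquiv.ofEq _ _ (Submodule.ker_mkQ _))
  · intro w b
    have : E.coord i0 ∘ₗ LinearMap.mulLeft (MvPolynomial (Fin 8) ℚ) (C (mkA g (mon (u w)))) =
        E.coord w := by
      apply E.ext
      intro v
      rw [LinearMap.comp_apply, LinearMap.mulLeft_apply]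
      by_cases hv : v = w
      · subst hv
        rw [hprod v v i0 0 (by simpa using hu v)]; simp
      · obtain ⟨c, q, h⟩ := h3 (u w + f v)
        simp only [Pi.add_apply, add_mul, Finset.sum_add_distrib, hf] at h
        have hc : c ≠ i0 := by
          rintro rfl
          apply hv
          have h5 := hu w
          have h6 : ap v = ap w + g 0 * q := by omega
          have h7 := h2 v
          rw [h6, Nat.add_mul_mod_self_left, h2] at h7
          exact (Fin.ext h7).symm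
        rw [hprod w v c q h]
        simp [hc, hv]
    exact congrArg (fun L : MvPolynomial (Fin 7) (AA g) →ₗ[MvPolynomial (Fin 8) ℚ] _ => L b) this
  · intro w
    rw [mem_J7, map_sub, hev, eval_C, sub_self]

end Pool.Agent.H79.Reso
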