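import Mathlib

set_option autoImplicit false

namespace Pool.Agent.H79.SingDefs

open MvPolynomial

/-- The determinantal polynomial `f_c = det(c_1 X_1 + ... + c_m X_m)`; the variable `(k, i, j)` is
the `(i, j)` entry of `X_k`. -/
noncomputable def detPoly (n m : ℕ) (c : Fin m → ℂ) : MvPolynomial (Fin m × Fin n × Fin n) ℂ :=
  Matrix.det (Matrix.of fun i j : Fin n => ∑ k : Fin m, C (c k) * X (k, i, j))

/-- The set of `m`-tuples of `n × n` matrices all of whose linear combinations are singular. -/
def SING (n m : ℕ) : Set (Fin m × Fin n × Fin n → ℂ) :=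
  {x | ∀ c : Fin m → ℂ, Matrix.det (Matrix.of fun i j : Fin n => ∑ k : Fin m, c k * x (k, i, j)) = 0}

end Pool.Agent.H79.SingDefs
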