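import Mathlib
import Pool.Agent.H79.SingDefs

set_option autoImplicit false

namespace Pool.Agent.H79.Sing

open MvPolynomial Pool.Agent.H79.SingDefs
open scoped TensorProduct

theorem not_all {n : ℕ} (V : Submodule ℂ (Matrix (Fin n) (Fin n) ℂ)) (hV : ∀ B ∈ V, B.det = 0)
    (σ : Equiv.Perm (Fin n)) (B : Fin n → Matrix (Fin n) (Fin n) ℂ) (hB : ∀ i, B i ∈ V)
    (h1 : ∀ i, B i i (σ i) = 1)
    (h2 : ∀ i a b, n * a.1 + b.1 < n * i.1 + (σ i).1 → B i a b = 0) : False := by
  classical
  let M : Matrix (Fin n) (Fin n) (Polynomial ℂ) := Matrix.of fun a b =>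
    ∑ i, Polynomial.C (B i a b) * Polynomial.X ^ (n * a.1 + b.1 - (n * i.1 + (σ i).1))
  have hev : ∀ τ : ℂ, M.det.eval τ = (Matrix.of fun a b =>
      ∑ i, B i a b * τ ^ (n * a.1 + b.1 - (n * i.1 + (σ i).1))).det := by
    intro τ
    rw [← Polynomial.coe_evalRingHom, RingHom.map_det]
    congr 1
    ext a b
    simp [M, Polynomial.eval_finsetSum]
  have h0 : M.det = 0 := by
    apply Polynomial.eq_zero_of_infinite_isRoot
    refine Set.Infinite.mono (s := {0}ᶜ) ?_ (Set.finite_singleton _).infinite_compl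
    intro τ hτ
    have hτ0 : τ ≠ 0 := hτ
    change M.det.eval τ = 0
    rw [hev]
    have : (Matrix.of fun a b => ∑ i, B i a b * τ ^ (n * a.1 + b.1 - (n * i.1 + (σ i).1))) =
        Matrix.of fun a b => τ ^ (n * a.1) * (Matrix.of fun a b => τ ^ b.1 *
          (∑ i, (τ ^ (n * i.1 + (σ i).1))⁻¹ • B i) a b) a b := by
      ext a b
      simp only [Matrix.of_apply, Matrix.sum_apply, Matrix.smul_apply, smul_eq_mul, Finset.mul_sum]
      refine Finset.sum_congr rfl fun i _ => ?_
      by_cases h : n * a.1 + b.1 < n * i.1 + (σ i).1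
      · simp [h2 i a b h]
      · rw [pow_sub₀ _ hτ0 (not_lt.1 h), pow_add]; ring
    rw [this, Matrix.det_mul_column, Matrix.det_mul_row,
      hV _ (V.sum_mem fun i _ => V.smul_mem _ (hB i)), mul_zero, mul_zero]
  have h3 := hev 0
  rw [h0, Polynomial.eval_zero] at h3
  have h4 : (Matrix.of fun a b =>
      ∑ i, B i a b * (0 : ℂ) ^ (n * a.1 + b.1 - (n * i.1 + (σ i).1))) =
      (1 : Matrix (Fin n) (Fin n) ℂ).submatrix σ id := by
    ext a b
    simp only [Matrix.of_apply, Matrix.submatrix_apply, id, Matrix.one_apply]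
    have key : ∀ i, B i a b * (0 : ℂ) ^ (n * a.1 + b.1 - (n * i.1 + (σ i).1)) =
        if i = a then (if σ a = b then 1 else 0) else 0 := by
      intro i
      rcases lt_trichotomy (n * a.1 + b.1) (n * i.1 + (σ i).1) with h | h | h
      · rw [h2 i a b h, zero_mul]
        split_ifs with h5 h6
        · subst h5; subst h6; omega
        · rfl
        · rfl
      · have e := finProdFinEquiv.injective (a₁ := (a, b)) (a₂ := (i, σ i)) (Fin.ext (by
          simp only [finProdFinEquiv_apply_val]; omega))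
        obtain ⟨rfl, rfl⟩ := Prod.mk.inj e
        simp [h1]
      · rw [zero_pow (by omega), mul_zero]
        split_ifs with h5 h6
        · subst h5; subst h6; omega
        · rfl
        · rfl
    simp [key]
  rw [h4, Matrix.det_permute, Matrix.det_one, mul_one] at h3
  rcases Int.units_eq_one_or (Equiv.Perm.sign σ) with h | h <;> simp [h] at h3

theorem dieudonne {n : ℕ} (V : Submodule ℂ (Matrix (Fin n) (Fin n) ℂ)) (hV : ∀ B ∈ V, B.det = 0) :
    Module.finrank ℂ V + n ≤ n * n := by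
  classical
  rcases Nat.eq_zero_or_pos n with rfl | hn
  · have := hV 0 V.zero_mem
    simp at this
  have : NeZero n := ⟨hn.ne'⟩
  let S : Finset (Fin n × Fin n) := Finset.univ.filter fun p => ∃ B ∈ V, B p.1 p.2 = 1 ∧
    ∀ a b : Fin n, n * a.1 + b.1 < n * p.1.1 + p.2.1 → B a b = 0
  have h1 : Module.finrank ℂ V ≤ S.card := by
    let φ : V →ₗ[ℂ] (S → ℂ) :=
      { toFun := fun B p => B.1 p.1.1 p.1.2
        map_add' := fun _ _ => rfl
        map_smul' := fun _ _ => rfl }
    have hφ : Function.Injective φ := by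
      rw [injective_iff_map_eq_zero]
      intro B hB
      by_contra hne
      have hex : ∃ w, ∃ a b : Fin n, n * a.1 + b.1 = w ∧ B.1 a b ≠ 0 := by
        by_contra h
        push Not at h
        exact hne (Subtype.ext (Matrix.ext fun a b => h _ a b rfl))
      obtain ⟨a, b, hab, h0⟩ := Nat.find_spec hex
      have hS : (a, b) ∈ S := by
        refine Finset.mem_filter.2 ⟨Finset.mem_univ _, (B.1 a b)⁻¹ • B.1, V.smul_mem _ B.2,
          by simp [h0], fun a' b' h => ?_⟩
        have := Nat.find_min hex (hab ▸ h)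
        push Not at this
        simp [this a' b' rfl]
      exact h0 (congrFun hB ⟨_, hS⟩)
    simpa using LinearMap.finrank_le_finrank_of_injective hφ
  have h2 : ∀ r : Fin n, ∃ i, (i, i + r) ∉ S := by
    intro r
    by_contra h
    push Not at h
    choose B hB hB1 hB2 using fun i => (Finset.mem_filter.1 (h i)).2
    exact not_all V hV (Equiv.addRight r) B hB hB1 hB2
  choose f hf using h2
  have h3 : (Finset.univ : Finset (Fin n)).card ≤ Sᶜ.card := by
    refine Finset.card_le_card_of_injOn (fun r => (f r, f r + r)) (fun r _ => by simpa using hf r)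
      fun r _ s _ h => ?_
    obtain ⟨h4, h5⟩ := Prod.mk.inj h
    rw [h4] at h5
    exact add_left_cancel h5
  have h4 := Finset.card_add_card_compl S
  simp only [Finset.card_univ, Fintype.card_fin, Fintype.card_prod] at h3 h4
  omega

variable {n m d : ℕ}

/-- a minor of the coordinate matrix -/
noncomputable def minor (κ : Fin d → Fin m) (π : Fin d → Fin n × Fin n) :
    MvPolynomial (Fin m × Fin n × Fin n) ℂ :=
  Matrix.det (Matrix.of fun p k : Fin d => X (κ k, π p))

theorem minor_mem (κ : Fin d → Fin m) (π : Fin d → Fin n × Fin n) (hd : n * n < d + n) :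
    minor κ π ∈ vanishingIdeal ℂ (SING n m) := by
  classical
  intro x hx
  by_contra hne
  have h1 : (Matrix.of fun p k : Fin d => x (κ k, π p)).det ≠ 0 := by
    intro h; apply hne
    rw [minor, AlgHom.map_det, ← h]
    congr 1; ext p k; simp
  let φ : (Fin d → ℂ) →ₗ[ℂ] Matrix (Fin n) (Fin n) ℂ :=
    { toFun := fun c => Matrix.of fun i j => ∑ k, c k * x (κ k, i, j)
      map_add' := fun a b => by ext i j; simp [add_mul, Finset.sum_add_distrib]
      map_smul' := fun a b => by ext i j; simp [Finset.mul_sum, mul_assoc] }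
  have hφ : Function.Injective φ := by
    rw [injective_iff_map_eq_zero]
    intro c hc
    apply Matrix.eq_zero_of_mulVec_eq_zero h1
    funext p
    have := congrFun (congrFun hc (π p).1) (π p).2
    simp only [φ, LinearMap.coe_mk, AddHom.coe_mk, Matrix.of_apply, Matrix.zero_apply] at this
    simp only [Matrix.mulVec, dotProduct, Matrix.of_apply, Pi.zero_apply]
    rw [← this]
    exact Finset.sum_congr rfl fun k _ => mul_comm _ _
  have h2 := dieudonne (LinearMap.range φ) (by
    rintro _ ⟨c, rfl⟩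
    have := hx fun k => ∑ l ∈ Finset.univ.filter fun l => κ l = k, c l
    rw [← this]
    congr 1
    ext i j
    simp only [φ, LinearMap.coe_mk, AddHom.coe_mk, Matrix.of_apply, Finset.sum_mul]
    rw [← Finset.sum_fiberwise Finset.univ κ]
    refine Finset.sum_congr rfl fun k _ => Finset.sum_congr rfl fun l hl => ?_
    rw [(Finset.mem_filter.1 hl).2])
  rw [LinearMap.finrank_range_of_inj hφ] at h2
  simp at h2
  omega

theorem prod_tmul {A B : Type} [Ring A] [Ring B] [Algebra ℂ A] [Algebra ℂ B] (k : ℕ)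
    (a : Fin k → A) (b : Fin k → B) :
    (List.ofFn fun i => a i ⊗ₜ[ℂ] b i).prod = (List.ofFn a).prod ⊗ₜ[ℂ] (List.ofFn b).prod := by
  induction k with
  | zero => simp [Algebra.TensorProduct.one_def]
  | succ k ih => simp [List.ofFn_succ, ih]

theorem minor_not_mem (hn : 2 ≤ n) (κ : Fin d → Fin m) (π : Fin d → Fin n × Fin n)
    (hκ : Function.Injective κ) (hπ : Function.Injective π) :
    minor κ π ∉ Ideal.span (Set.range (detPoly n m)) := by
  classical
  intro hmem
  let E := ExteriorAlgebra ℂ (Fin d → ℂ)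
  let θ : Fin m → (Fin d → ℂ) := fun k l => if κ l = k then 1 else 0
  let ξ : Fin n × Fin n → (Fin d → ℂ) := fun p l => if π l = p then 1 else 0
  let s : Set (E ⊗[ℂ] E) := {z | ∃ a b, z = ExteriorAlgebra.ι ℂ a ⊗ₜ[ℂ] ExteriorAlgebra.ι ℂ b}
  have hanti : ∀ a b : Fin d → ℂ, (ExteriorAlgebra.ι ℂ a * ExteriorAlgebra.ι ℂ b : E) =
      -(ExteriorAlgebra.ι ℂ b * ExteriorAlgebra.ι ℂ a) := fun a b =>
    eq_neg_of_add_eq_zero_left (ExteriorAlgebra.ι_add_mul_swap a b)
  have hcomm : ∀ x ∈ s, ∀ y ∈ s, x * y = y * x := by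
    rintro _ ⟨a, b, rfl⟩ _ ⟨a', b', rfl⟩
    rw [Algebra.TensorProduct.tmul_mul_tmul, Algebra.TensorProduct.tmul_mul_tmul, hanti a a',
      hanti b b', TensorProduct.neg_tmul, TensorProduct.tmul_neg, neg_neg]
  let T := Algebra.adjoin ℂ s
  have hT : IsMulCommutative T := Algebra.isMulCommutative_adjoin ℂ hcomm
  let _ : CommRing T := { (inferInstance : Ring T) with mul_comm := hT.is_comm.comm }
  let u : (Fin d → ℂ) → (Fin d → ℂ) → T := fun a b =>
    ⟨ExteriorAlgebra.ι ℂ a ⊗ₜ[ℂ] ExteriorAlgebra.ι ℂ b, Algebra.subset_adjoin ⟨a, b, rfl⟩⟩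
  let ψ : MvPolynomial (Fin m × Fin n × Fin n) ℂ →ₐ[ℂ] T := aeval fun v => u (θ v.1) (ξ v.2)
  have hker : Ideal.span (Set.range (detPoly n m)) ≤ RingHom.ker ψ.toRingHom := by
    rw [Ideal.span_le]
    rintro _ ⟨c, rfl⟩
    change ψ (detPoly n m c) = 0
    rw [detPoly, AlgHom.map_det]
    have : ψ.mapMatrix (Matrix.of fun i j : Fin n => ∑ k : Fin m, C (c k) * X (k, i, j)) =
        Matrix.of fun i j => u (∑ k, c k • θ k) (ξ (i, j)) := by
      ext i j
      simp [ψ, u, TensorProduct.sum_tmul, Algebra.algebraMap_eq_smul_one, TensorProduct.smul_tmul']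
    rw [this, Matrix.det_apply]
    refine Finset.sum_eq_zero fun σ _ => ?_
    obtain ⟨k, rfl⟩ : ∃ k, n = k + 2 := ⟨n - 2, by omega⟩
    rw [Fin.prod_univ_succ, Fin.prod_univ_succ, ← mul_assoc]
    have : ∀ a b b', u a b * u a b' = 0 := by
      intro a b b'
      apply Subtype.ext
      change (_ ⊗ₜ[ℂ] _ : E ⊗[ℂ] E) * (_ ⊗ₜ[ℂ] _) = 0
      rw [Algebra.TensorProduct.tmul_mul_tmul, ExteriorAlgebra.ι_sq_zero, TensorProduct.zero_tmul]
    simp only [Matrix.of_apply, this, zero_mul, smul_zero]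
  have h1 : ψ (minor κ π) = 0 := hker hmem
  let e : Fin d → Fin d → ℂ := fun k l => if l = k then 1 else 0
  have hθ : ∀ k, θ (κ k) = e k := fun k => by funext l; simp [θ, e, hκ.eq_iff]
  have hξ : ∀ k, ξ (π k) = e k := fun k => by funext l; simp [ξ, e, hπ.eq_iff]
  rw [minor, AlgHom.map_det, Matrix.det_apply] at h1
  have h2 := congrArg T.val h1
  let ω : E := ExteriorAlgebra.ιMulti ℂ d e
  have h3 : ∀ σ : Equiv.Perm (Fin d), T.val (Equiv.Perm.sign σ • ∏ i,
      ψ.mapMatrix (Matrix.of fun p k : Fin d => X (κ k, π p)) (σ i) i) = ω ⊗ₜ[ℂ] ω := by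
    intro σ
    have : ∀ i, ψ.mapMatrix (Matrix.of fun p k : Fin d => X (κ k, π p)) (σ i) i =
        u (e i) (e (σ i)) := fun i => by simp [ψ, hθ, hξ]
    simp only [this]
    rw [Units.smul_def, map_zsmul, ← List.prod_ofFn, map_list_prod, List.map_ofFn]
    have h4 : (T.val ∘ fun i => u (e i) (e (σ i))) =
        fun i => ExteriorAlgebra.ι ℂ (e i) ⊗ₜ[ℂ] ExteriorAlgebra.ι ℂ ((e ∘ σ) i) := rfl
    rw [h4, prod_tmul, ← ExteriorAlgebra.ιMulti_apply, ← ExteriorAlgebra.ιMulti_apply,
      AlternatingMap.map_perm, Units.smul_def, TensorProduct.tmul_smul, smul_smul,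
      ← Units.val_mul, Int.units_mul_self, Units.val_one, one_smul]
  rw [map_sum, map_zero, Finset.sum_congr rfl fun σ _ => h3 σ, Finset.sum_const,
    ← Nat.cast_smul_eq_nsmul ℂ, smul_eq_zero] at h2
  rcases h2 with h2 | h2
  · simp [Fintype.card_ne_zero] at h2
  · let lam : E →ₗ[ℂ] ℂ := ExteriorAlgebra.liftAlternating
      (Function.update 0 d (Matrix.detRowAlternating (n := Fin d) (R := ℂ)))
    have h5 : lam ω = 1 := by
      simp only [lam, ω]
      rw [ExteriorAlgebra.liftAlternating_apply_ιMulti, Function.update_self]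
      change Matrix.det (Matrix.of e) = 1
      rw [← Matrix.det_one (n := Fin d)]
      congr 1; ext a b; simp [e, Matrix.one_apply, eq_comm]
    have h6 := congrArg (TensorProduct.lift ((LinearMap.mul ℂ ℂ).compl₁₂ lam lam)) h2
    simp [h5] at h6

theorem main (n m : ℕ) (hn : 2 ≤ n) (hm : n ^ 2 - n + 1 ≤ m) :
    ∃ f ∈ vanishingIdeal ℂ (SING n m), f ∉ Ideal.span (Set.range (detPoly n m)) := by
  have h1 : n ≤ n * n := Nat.le_mul_self n
  have h2 : n ^ 2 - n + 1 ≤ n * n := by rw [pow_two]; omega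
  refine ⟨minor (Fin.castLE hm) (finProdFinEquiv.symm ∘ Fin.castLE h2),
    minor_mem _ _ (by rw [pow_two]; omega), minor_not_mem hn _ _ (Fin.castLE_injective _)
      (finProdFinEquiv.symm.injective.comp (Fin.castLE_injective _))⟩

end Pool.Agent.H79.Sing
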