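import Mathlib
import Pool.Agent.H79.SymA

set_option autoImplicit false

namespace Pool.Agent.H79.SymB

open MvPolynomial Pool.Agent.H79.PD Pool.Agent.H79.Mono Pool.Agent.H79.SymA
open scoped Pointwise

variable {σ : Type} {K : Type} [Field K]

/-- membership in `V` does not see exponents of the variable `i` beyond `N` -/
def Bd (V : Set (σ →₀ ℕ)) (N : ℕ) (i : σ) : Prop :=
  ∀ e : σ →₀ ℕ, N ≤ e i → e + Finsupp.single i 1 ∈ V → e ∈ V

/-- exponents of the radical of the colon ideal by the monomial `c` -/
def rad (V : Set (σ →₀ ℕ)) (c : σ →₀ ℕ) : Set (σ →₀ ℕ) := {e | ∃ k : ℕ, c + k • e ∈ V}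

theorem Bd.desc {V : Set (σ →₀ ℕ)} {N : ℕ} {i : σ} (h : Bd V N i) (m : ℕ) :
    ∀ e : σ →₀ ℕ, N ≤ e i → e + Finsupp.single i m ∈ V → e ∈ V := by
  induction m with
  | zero => intro e _ h1; simpa using h1
  | succ m ih =>
    intro e h1 h2
    refine ih e h1 (h _ (by simp; omega) ?_)
    rwa [add_assoc, ← Finsupp.single_add]

theorem desc_all {V : Set (σ →₀ ℕ)} {N : ℕ} (h : ∀ i, Bd V N i) (d : σ →₀ ℕ) :
    ∀ e : σ →₀ ℕ, (∀ i, d i ≠ 0 → N ≤ e i) → e + d ∈ V → e ∈ V := by
  induction d using Finsupp.induction_linear with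
  | zero => intro e _ h1; simpa using h1
  | add f g hf hg =>
    intro e h1 h2
    refine hf e (fun i hi => h1 i (by simp; omega)) (hg _ (fun i hi => ?_) (by rwa [add_assoc]))
    have := h1 i (by simp; omega)
    simp; omega
  | single i m =>
    intro e h1 h2
    by_cases hm : m = 0
    · simpa [hm] using h2
    · exact (h i).desc m e (h1 i (by simpa using hm)) h2

theorem rad_upper {V : Set (σ →₀ ℕ)} (hV : IsUpperSet V) (c : σ →₀ ℕ) : IsUpperSet (rad V c) := by
  rintro a b hab ⟨k, hk⟩
  exact ⟨k, hV (by gcongr) hk⟩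

theorem MI_union (s t : Set (σ →₀ ℕ)) : MI K (s ∪ t) = MI K s ⊔ MI K t := by
  unfold MI; rw [Set.image_union, Ideal.span_union]

theorem MI_inter {s t : Set (σ →₀ ℕ)} (hs : IsUpperSet s) (ht : IsUpperSet t) :
    MI K (s ∩ t) = MI K s ⊓ MI K t := by
  ext f
  rw [Ideal.mem_inf, mem_MI hs, mem_MI ht, mem_MI (hs.inter ht)]
  exact ⟨fun h => ⟨fun e he => (h e he).1, fun e he => (h e he).2⟩,
    fun h e he => ⟨h.1 e he, h.2 e he⟩⟩

theorem MI_mono {s t : Set (σ →₀ ℕ)} (h : s ⊆ t) : MI K s ≤ MI K t :=
  Ideal.span_mono (Set.image_mono h)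

theorem one_var {V : Set (σ →₀ ℕ)} (hV : IsUpperSet V) {N : ℕ} {i : σ} (hN : Bd V N i) (n : ℕ)
    (h : ∀ k ≤ N, PdU K {e | e + Finsupp.single i k ∈ V ∨
      (1 ≤ e i ∧ e + Finsupp.single i N ∈ V)} n) : PdU K V n := by
  have hup : ∀ k, IsUpperSet {e : σ →₀ ℕ | e + Finsupp.single i k ∈ V} :=
    fun k a b hab h1 => hV (by gcongr) h1
  have hL : PdU K {e | e + Finsupp.single i N ∈ V} n := by
    have := h N le_rfl
    rwa [show {e : σ →₀ ℕ | e + Finsupp.single i N ∈ V ∨ (1 ≤ e i ∧ e + Finsupp.single i N ∈ V)} =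
      {e | e + Finsupp.single i N ∈ V} from Set.ext fun e => ⟨fun h => h.elim id And.right, Or.inl⟩]
      at this
  have key : ∀ j k, k + j = N → PdU K {e | e + Finsupp.single i k ∈ V} n := by
    intro j
    induction j with
    | zero => intro k hk; obtain rfl : k = N := hk; exact hL
    | succ j ih =>
      intro k hk
      have hmono : ∀ a ≤ N, {e : σ →₀ ℕ | e + Finsupp.single i a ∈ V} ⊆
          {e | e + Finsupp.single i N ∈ V} := fun a ha e he =>
        hV (add_le_add_right (Finsupp.single_le_single.2 ha) e) he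
      refine pd_sat _ _ _ _ (monomial (Finsupp.single i 1) 1)
        (MI_colon (hup k) (hup (k + 1)) _ fun e => ?_) (MI_mono (hmono k (by omega)))
        (MI_mono (hmono (k + 1) (by omega))) (fun r => ?_) n (ih (k + 1) (by omega))
        (h k (by omega)) hL
      · simp only [Set.mem_ofPred_eq]
        rw [add_assoc, ← Finsupp.single_add, add_comm 1 k]
      · have : {e : σ →₀ ℕ | e + Finsupp.single i k ∈ V ∨
            (1 ≤ e i ∧ e + Finsupp.single i N ∈ V)} = {e | e + Finsupp.single i k ∈ V} ∪
            ({e | e + Finsupp.single i N ∈ V} + {Finsupp.single i 1}) := by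
          ext e
          simp only [Set.mem_ofPred_eq, Set.mem_union, Set.add_singleton, Set.mem_image]
          refine or_congr_right ⟨fun ⟨h1, h2⟩ => ?_, ?_⟩
          · obtain ⟨d, rfl⟩ := exists_add_of_le (Finsupp.single_le_iff.2 h1)
            refine ⟨d, hN _ (by simp) ?_, add_comm _ _⟩
            convert h2 using 1; abel
          · rintro ⟨d, hd, rfl⟩
            exact ⟨by simp, hV (by gcongr; exact le_self_add) hd⟩
        rw [this, MI_union, MI_add, Submodule.mem_sup]
        have h3 : MI K {Finsupp.single i 1} = Ideal.span {monomial (Finsupp.single i 1) (1 : K)} := by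
          simp [MI]
        rw [h3]
        constructor
        · rintro ⟨y, hy, z, hz, rfl⟩
          obtain ⟨l, hl, rfl⟩ := Ideal.mem_mul_span_singleton.1 hz
          exact ⟨l, hl, by simpa using hy⟩
        · rintro ⟨l, hl, h4⟩
          exact ⟨_, h4, _, Ideal.mem_mul_span_singleton.2 ⟨l, hl, rfl⟩, by ring⟩
  simpa using key N 0 (zero_add N)

theorem pdU_of_rad_aux {N : ℕ} (n : ℕ) (τ : Finset σ) : ∀ V : Set (σ →₀ ℕ), IsUpperSet V →
    (∀ i, Bd V N i) → (∀ i ∉ τ, Bd V 1 i) → (∀ c, PdU K (rad V c) n) → PdU K V n := by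
  classical
  induction τ using Finset.induction_on with
  | empty =>
    intro V hV _ h1 h2
    have : rad V 0 = V := by
      ext e
      refine ⟨fun ⟨k, hk⟩ => ?_, fun he => ⟨1, by simpa using he⟩⟩
      refine desc_all (fun i => h1 i (by simp)) (k • e) e (fun i hi => ?_) (hV (by simp) hk)
      simp at hi; omega
    exact this ▸ h2 0
  | insert i τ hi ih =>
    intro V hV hN h1 h2
    refine one_var hV (hN i) n fun k hk => ih _ ?_ ?_ ?_ ?_
    · rintro a b hab (h | ⟨h, h'⟩)
      · exact Or.inl (hV (by gcongr) h)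
      · exact Or.inr ⟨h.trans (hab i), hV (by gcongr) h'⟩
    · rintro j e he (h | ⟨h, h'⟩)
      · exact Or.inl (hN j _ (by simp; omega) (by rwa [add_right_comm]))
      · by_cases h3 : 1 ≤ e i
        · exact Or.inr ⟨h3, hN j _ (by simp; omega) (by rwa [add_right_comm])⟩
        · obtain rfl : j = i := by
            by_contra h4
            rw [Finsupp.add_apply, Finsupp.single_eq_of_ne' h4] at h; omega
          obtain rfl : N = 0 := by omega
          obtain rfl : k = 0 := by omega
          exact Or.inl (hN j _ (by simp) (by rwa [add_right_comm]))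
    · intro j hj e he h
      by_cases hji : j = i
      · subst hji
        refine Or.inr ⟨he, hN j _ (by simp) ?_⟩
        rw [add_right_comm]
        rcases h with h | h
        · exact hV (add_le_add_right (Finsupp.single_le_single.2 hk) _) h
        · exact h.2
      · have h3 := h1 j (by simp [hj, hji])
        rcases h with h | ⟨h, h'⟩
        · exact Or.inl (h3 _ (by simp; omega) (by rwa [add_right_comm]))
        · rw [Finsupp.add_apply, Finsupp.single_eq_of_ne' hji, add_zero] at h
          exact Or.inr ⟨h, h3 _ (by simp; omega) (by rwa [add_right_comm])⟩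
    · intro c
      by_cases hc : c i = 0
      · refine (Set.ext fun e => ?_ : rad _ c = rad V (c + Finsupp.single i k)) ▸ h2 _
        constructor
        · rintro ⟨m, h | ⟨h, h'⟩⟩
          · exact ⟨m, by rwa [add_right_comm]⟩
          · refine ⟨m + N, hV ?_ h'⟩
            have h3 : 1 ≤ e i := by
              simp only [Finsupp.add_apply, hc, Finsupp.smul_apply, smul_eq_mul, zero_add] at h
              by_contra h4
              rw [show e i = 0 by omega] at h; omega
            have h4 : Finsupp.single i N ≤ N • e := by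
              rw [Finsupp.single_le_iff]; simpa using Nat.le_mul_of_pos_right N h3
            calc c + m • e + Finsupp.single i N ≤ c + m • e + N • e := by gcongr
              _ ≤ c + m • e + N • e + Finsupp.single i k := le_self_add
              _ = _ := by rw [add_smul]; abel
        · rintro ⟨m, h⟩
          exact ⟨m, Or.inl (by rwa [add_right_comm])⟩
      · refine (Set.ext fun e => ?_ : rad _ c = rad V (c + Finsupp.single i N)) ▸ h2 _
        constructor
        · rintro ⟨m, h | ⟨h, h'⟩⟩
          · refine ⟨m, hV ?_ h⟩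
            rw [add_right_comm c (Finsupp.single i N)]
            exact add_le_add_right (Finsupp.single_le_single.2 hk) _
          · exact ⟨m, by rwa [add_right_comm]⟩
        · rintro ⟨m, h⟩
          exact ⟨m, Or.inr ⟨by simp; omega, by rwa [add_right_comm]⟩⟩

theorem pdU_of_rad [Fintype σ] {V : Set (σ →₀ ℕ)} (hV : IsUpperSet V) {N : ℕ} (hN : ∀ i, Bd V N i)
    (n : ℕ) (h : ∀ c, PdU K (rad V c) n) : PdU K V n :=
  pdU_of_rad_aux n Finset.univ V hV hN (by simp) h

/-- the polynomial ring as an algebra over itself through `x ↦ x ^ N` -/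
def Sy (σ K : Type) [Field K] (_N : ℕ) : Type := MvPolynomial σ K

noncomputable instance (N : ℕ) : CommRing (Sy σ K N) := inferInstanceAs (CommRing (MvPolynomial σ K))

noncomputable instance (N : ℕ) : Algebra (MvPolynomial σ K) (Sy σ K N) :=
  RingHom.toAlgebra (R := MvPolynomial σ K) (S := MvPolynomial σ K) (expand N).toRingHom

open Classical in
/-- the component along the residue vector `c` -/
noncomputable def piK (N : ℕ) (c : σ →₀ ℕ) : MvPolynomial σ K →ₗ[K] MvPolynomial σ K :=
  (basisMonomials σ K).constr K fun e =>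
    if ∀ i, e i % N = c i then monomial (e.mapRange (· / N) (by simp)) 1 else 0

open Classical in
theorem piK_monomial (N : ℕ) (c e : σ →₀ ℕ) (a : K) : piK N c (monomial e a) =
    if ∀ i, e i % N = c i then monomial (e.mapRange (· / N) (by simp)) a else 0 := by
  have : (monomial e a : MvPolynomial σ K) = a • basisMonomials σ K e := by
    simp [smul_monomial]
  rw [this, map_smul, piK, Module.Basis.constr_basis]
  split_ifs <;> simp [smul_monomial]

theorem piK_mul {N : ℕ} (hN : 0 < N) (c : σ →₀ ℕ) (r f : MvPolynomial σ K) :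
    piK N c (expand N r * f) = r * piK N c f := by
  induction r using MvPolynomial.induction_on' with
  | add p q hp hq => rw [map_add, add_mul, map_add, hp, hq, add_mul]
  | monomial d a =>
    induction f using MvPolynomial.induction_on' with
    | add p q hp hq => rw [mul_add, map_add, hp, hq, map_add, mul_add]
    | monomial e b =>
      rw [expand_monomial, monomial_mul, piK_monomial, piK_monomial]
      by_cases h : ∀ i, e i % N = c i
      · rw [if_pos h, if_pos (by simpa [Nat.mul_add_mod] using h), monomial_mul]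
        congr 2; ext i
        simp [Nat.mul_add_div hN]
      · rw [if_neg h, if_neg (by simpa [Nat.mul_add_mod] using h), mul_zero]

/-- the component map, linear over the smaller ring -/
noncomputable def piR {N : ℕ} (hN : 0 < N) (c : σ →₀ ℕ) :
    Sy σ K N →ₗ[MvPolynomial σ K] MvPolynomial σ K where
  toFun f := piK N c f
  map_add' f g := map_add (piK N c) f g
  map_smul' r f := piK_mul hN c r f

theorem sum_piK [Fintype σ] [DecidableEq σ] {N : ℕ} (hN : 0 < N) (g : MvPolynomial σ K) :
    ∑ c : σ → Fin N, expand N (piK N (Finsupp.equivFunOnFinite.symm fun i => (c i).1) g) *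
      monomial (Finsupp.equivFunOnFinite.symm fun i => (c i).1) 1 = g := by
  induction g using MvPolynomial.induction_on' with
  | add p q hp hq => simp only [map_add, add_mul, Finset.sum_add_distrib, hp, hq]
  | monomial e a =>
    rw [Finset.sum_eq_single (fun i => ⟨e i % N, Nat.mod_lt _ hN⟩)]
    · rw [piK_monomial, if_pos (by simp), expand_monomial, monomial_mul, mul_one]
      congr 2; ext i
      simp [Nat.div_add_mod]
    · intro c _ hc
      rw [piK_monomial, if_neg, map_zero, zero_mul]
      intro h; exact hc (funext fun i => Fin.ext (h i).symm)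
    · simp

theorem proj_Sy [Fintype σ] {N : ℕ} (hN : 0 < N) :
    Module.Projective (MvPolynomial σ K) (Sy σ K N) := by
  classical
  let cc : (σ → Fin N) → (σ →₀ ℕ) := fun c => Finsupp.equivFunOnFinite.symm fun i => (c i).1
  let mo : (σ → Fin N) → Sy σ K N := fun c => (monomial (cc c) 1 : MvPolynomial σ K)
  exact Module.Projective.of_split (M := (σ → Fin N) → MvPolynomial σ K)
    (LinearMap.pi fun c => piR hN (cc c)) (Fintype.linearCombination _ mo)
    (LinearMap.ext fun f => sum_piK hN f)

theorem pd_transfer {R : Type} [CommRing R] (A : Type) [CommRing A] [Algebra R A]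
    [Module.Projective R A] (I : Ideal A) (J : Ideal R) (u : A) (π : A →ₗ[R] R)
    (h1 : ∀ r ∈ J, algebraMap R A r * u ∈ I) (h2 : ∀ f ∈ I, π f ∈ J) (h3 : π u = 1) (n : ℕ)
    (h : PdLT A (A ⧸ I) (n + 1)) : PdLT R (R ⧸ J) (n + 1) := by
  have h4 : PdLT R (A ⧸ I) (n + 1) := pd_restrict A n _ h
  let i : (R ⧸ J) →ₗ[R] (A ⧸ I) :=
    Submodule.liftQ _ (LinearMap.toSpanSingleton _ _ (Submodule.Quotient.mk u)) (by
      intro r hr
      rw [LinearMap.mem_ker, LinearMap.toSpanSingleton_apply, ← Submodule.Quotient.mk_smul,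
        Submodule.Quotient.mk_eq_zero, Algebra.smul_def]
      exact h1 r hr)
  let p : (A ⧸ I) →ₗ[R] (R ⧸ J) :=
    (Submodule.liftQ (I.restrictScalars R) ((Submodule.mkQ J).comp π) (fun f hf =>
      (Submodule.Quotient.mk_eq_zero J).2 (h2 f hf))).comp
      (Submodule.Quotient.restrictScalarsEquiv R I).symm.toLinearMap
  refine pd_retract i p (Submodule.linearMap_qext _ (LinearMap.ext_ring ?_)) _ h4
  change Submodule.Quotient.mk (π ((1 : R) • u)) = Submodule.Quotient.mk 1
  rw [one_smul, h3]

theorem pdU_rad [Fintype σ] {V : Set (σ →₀ ℕ)} (hV : IsUpperSet V) {N0 : ℕ}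
    (hN0 : ∀ i, Bd V N0 i) (c : σ →₀ ℕ) (n : ℕ) (h : PdU K V (n + 1)) :
    PdU K (rad V c) (n + 1) := by
  classical
  obtain ⟨N, hN1, hN2⟩ : ∃ N, N0 < N ∧ ∀ i, c i < N :=
    ⟨N0 + 1 + ∑ i, c i, by omega, fun i => by
      have := Finset.single_le_sum (f := fun i => c i) (fun _ _ => Nat.zero_le _)
        (Finset.mem_univ i)
      omega⟩
  have hN : 0 < N := by omega
  have hr : ∀ e, e ∈ rad V c ↔ c + N • e ∈ V := fun e =>
    ⟨fun ⟨k, hk⟩ => desc_all hN0 (k • e) _ (fun i hi => by
      have h1 : 0 < e i := by simp at hi; omega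
      have := Nat.le_mul_of_pos_right N h1
      simp; omega) (hV (by gcongr; exact le_self_add) hk), fun h => ⟨N, h⟩⟩
  have := proj_Sy (σ := σ) (K := K) hN
  have h1 : ∀ r ∈ MI K (rad V c), expand N r * monomial c 1 ∈ MI K V := by
    intro r hr'
    have h2 := (mem_MI (rad_upper hV c) r).1 hr'
    rw [r.as_sum, map_sum, Finset.sum_mul]
    refine Ideal.sum_mem _ fun e he => ?_
    rw [expand_monomial, monomial_mul, ← C_mul_monomial]
    exact Ideal.mul_mem_left _ _ ((monomial_mem_MI hV _).2 (add_comm c _ ▸ (hr e).1 (h2 e he)))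
  have h2 : ∀ f ∈ MI K V, piK N c f ∈ MI K (rad V c) := by
    intro f hf
    have h2 := (mem_MI hV f).1 hf
    rw [f.as_sum, map_sum]
    refine Ideal.sum_mem _ fun e he => ?_
    rw [piK_monomial]
    split_ifs with h3
    · rw [← mul_one (coeff e f), ← C_mul_monomial]
      refine Ideal.mul_mem_left _ _ ((monomial_mem_MI (rad_upper hV c) _).2 ((hr _).2 ?_))
      convert h2 e he using 1
      ext j; simp [← h3 j, Nat.mod_add_div]
    · exact Ideal.zero_mem _
  have h3 : piK N c (monomial c (1 : K)) = 1 := by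
    rw [piK_monomial, if_pos fun j => Nat.mod_eq_of_lt (hN2 j)]
    have : c.mapRange (· / N) (by simp) = 0 := by
      ext j; simp [Nat.div_eq_of_lt (hN2 j)]
    rw [this]; rfl
  exact pd_transfer (Sy σ K N) (MI K V) _ (monomial c 1 : MvPolynomial σ K) (piR hN c) h1 h2 h3 n h

end Pool.Agent.H79.SymB
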