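import Mathlib
import Pool.Agent.H79.SymB
import Pool.Agent.H79.Depth

set_option autoImplicit false

namespace Pool.Agent.H79.SymC

open MvPolynomial Pool.Agent.H79.PD Pool.Agent.H79.Mono Pool.Agent.H79.SymA Pool.Agent.H79.SymB
open scoped Pointwise

section pw
variable {M M' : Type} [AddCommMonoid M] [AddCommMonoid M']

/-- exponents of the `t`-th power -/
def pw (V : Set M) : ℕ → Set M
  | 0 => Set.univ
  | t + 1 => V + pw V t

theorem pw_add_right {V : Set M} (t : ℕ) : ∀ {e : M}, e ∈ pw V t → ∀ d, e + d ∈ pw V t := by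
  induction t with
  | zero => intro e _ d; trivial
  | succ t ih =>
    rintro _ ⟨a, ha, b, hb, rfl⟩ d
    exact ⟨a, ha, b + d, ih hb d, (add_assoc _ _ _).symm⟩

theorem pw_mono {V W : Set M} (h : V ⊆ W) (t : ℕ) : pw V t ⊆ pw W t := by
  induction t with
  | zero => exact le_rfl
  | succ t ih => exact Set.add_subset_add h ih

theorem pw_add {V : Set M} (s t : ℕ) {b : M} (hb : b ∈ pw V t) :
    ∀ {a : M}, a ∈ pw V s → a + b ∈ pw V (s + t) := by
  induction s with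
  | zero => intro a _; rw [zero_add, add_comm]; exact pw_add_right t hb a
  | succ s ih =>
    rintro _ ⟨c, hc, d, hd, rfl⟩
    rw [Nat.add_right_comm]
    exact ⟨c, hc, d + b, ih hd, (add_assoc _ _ _).symm⟩

theorem pw_nsmul {V : Set M} {a : M} (ha : a ∈ V) (t : ℕ) : t • a ∈ pw V t := by
  induction t with
  | zero => trivial
  | succ t ih => exact ⟨a, ha, t • a, ih, (succ_nsmul' a t).symm⟩

theorem pw_one {V : Set M} {a : M} (ha : a ∈ V) : a ∈ pw V 1 := by
  simpa using pw_nsmul ha 1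

theorem pw_anti {V : Set M} {s t : ℕ} (h : s ≤ t) : pw V t ⊆ pw V s := by
  induction h with
  | refl => exact le_rfl
  | step _ ih =>
    rintro _ ⟨a, _, b, hb, rfl⟩
    exact ih (by simp only; rw [add_comm a b]; exact pw_add_right _ hb a)

theorem pw_hom (f : M →+ M') {Γ : Set M'} (t : ℕ) :
    ∀ {e : M}, e ∈ pw (f ⁻¹' Γ) t → f e ∈ pw Γ t := by
  induction t with
  | zero => intro e _; trivial
  | succ t ih =>
    rintro _ ⟨a, ha, b, hb, rfl⟩
    exact ⟨f a, ha, f b, ih hb, (map_add f a b).symm⟩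

theorem pw_lift (f : M →+ M') {Γ : Set M'}
    (hf : ∀ e d' r', f e = d' + r' → ∃ d r, e = d + r ∧ f d = d' ∧ f r = r') (t : ℕ) :
    ∀ {e : M}, f e ∈ pw Γ t → e ∈ pw (f ⁻¹' Γ) t := by
  induction t with
  | zero => intro e _; trivial
  | succ t ih =>
    rintro e ⟨a, ha, b, hb, hab⟩
    obtain ⟨d, r, rfl, rfl, rfl⟩ := hf e a b hab.symm
    exact ⟨d, ha, r, ih hb, rfl⟩

theorem pw_avoid {A B : Set M} (t : ℕ) : ∀ {e : M}, (∀ d r, e = d + r → d ∉ B) →
    e ∈ pw (A ∪ B) t → e ∈ pw A t := by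
  induction t with
  | zero => intro e _ _; trivial
  | succ t ih =>
    rintro _ h ⟨a, ha, b, hb, rfl⟩
    refine ⟨a, ha.resolve_right (h a b rfl), b, ih (fun d r hb' => h d (r + a) ?_) hb, rfl⟩
    simp only [hb']; abel

end pw

variable {σ : Type} {K : Type} [Field K]

theorem pw_upper (V : Set (σ →₀ ℕ)) (t : ℕ) : IsUpperSet (pw V t) := by
  intro a b hab ha
  obtain ⟨d, rfl⟩ := exists_add_of_le hab
  exact pw_add_right t ha d

theorem MI_pw (V : Set (σ →₀ ℕ)) (t : ℕ) : MI K (pw V t) = MI K V ^ t := by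
  induction t with
  | zero =>
    rw [pow_zero, Ideal.one_eq_top, Ideal.eq_top_iff_one]
    exact Ideal.subset_span ⟨0, trivial, rfl⟩
  | succ t ih => rw [pw, MI_add, ih, pow_succ']

/-- `V` depends only on the variables in `τ` -/
def Dep (τ : Finset σ) (V : Set (σ →₀ ℕ)) : Prop :=
  ∀ e e' : σ →₀ ℕ, (∀ i ∈ τ, e i = e' i) → e ∈ V → e' ∈ V

theorem Dep.pw {τ : Finset σ} {V : Set (σ →₀ ℕ)} (h : Dep τ V) (t : ℕ) : Dep τ (pw V t) := by
  classical
  induction t with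
  | zero => intro _ _ _ _; trivial
  | succ t ih =>
    rintro _ e' h1 ⟨a, ha, b, hb, rfl⟩
    have h2 : a.filter (· ∈ τ) ≤ e' := fun i => by
      rw [Finsupp.filter_apply]
      split_ifs with hi
      · rw [← h1 i hi]; simp
      · exact Nat.zero_le _
    obtain ⟨r, rfl⟩ := exists_add_of_le h2
    refine ⟨_, h a _ (fun i hi => by simp [hi]) ha, r, ih b r (fun i hi => ?_) hb, rfl⟩
    have := h1 i hi
    simp [hi] at this
    exact this

theorem split (p : (σ →₀ ℕ) → Prop) (f : MvPolynomial σ K) :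
    ∃ f1 f2, f = f1 + f2 ∧ (∀ e ∈ f1.support, p e) ∧ ∀ e ∈ f2.support, ¬ p e := by
  classical
  induction f using MvPolynomial.induction_on' with
  | monomial d a =>
    have : ∀ e ∈ (monomial d a : MvPolynomial σ K).support, e = d := fun e he =>
      Finset.mem_singleton.1 (support_monomial_subset he)
    by_cases h : p d
    · exact ⟨_, 0, (add_zero _).symm, fun e he => this e he ▸ h, by simp⟩
    · exact ⟨0, _, (zero_add _).symm, by simp, fun e he => this e he ▸ h⟩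
  | add f g hf hg =>
    obtain ⟨f1, f2, rfl, h1, h2⟩ := hf
    obtain ⟨g1, g2, rfl, h3, h4⟩ := hg
    exact ⟨f1 + g1, f2 + g2, by ring,
      fun e he => (Finset.mem_union.1 (support_add he)).elim (h1 e) (h3 e),
      fun e he => (Finset.mem_union.1 (support_add he)).elim (h2 e) (h4 e)⟩

theorem var_le_radical {τ : Finset σ} {W : Set (σ →₀ ℕ)} (hW : IsUpperSet W) {N : ℕ}
    (hp : ∀ i ∈ τ, Finsupp.single i N ∈ W) : MI K (varSet τ) ≤ (MI K W).radical := by
  rw [MI, Ideal.span_le]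
  rintro _ ⟨e, ⟨j, hj, he⟩, rfl⟩
  refine ⟨N, ?_⟩
  rw [monomial_pow, one_pow, monomial_mem_MI hW]
  exact hW (Finsupp.single_le_iff.2 (by simpa using Nat.le_mul_of_pos_right N he)) (hp j hj)

theorem primary [Fintype σ] {τ : Finset σ} {W : Set (σ →₀ ℕ)} (hW : IsUpperSet W) (hd : Dep τ W)
    {N : ℕ} (hp : ∀ i ∈ τ, Finsupp.single i N ∈ W) {u f : MvPolynomial σ K}
    (hu : u ∉ MI K (varSet τ)) (huf : u * f ∈ MI K W) : f ∈ MI K W := by
  classical
  obtain ⟨u1, u0, rfl, h1, h0⟩ := split (· ∈ varSet τ) u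
  have hu1 : u1 ∈ MI K (varSet τ) := (mem_MI (varSet_upper τ) _).2 h1
  have hu0 : u0 ≠ 0 := by rintro rfl; exact hu (by simpa using hu1)
  have nzd : ∀ g, u0 * g ∈ MI K W → g ∈ MI K W := by
    intro g hg
    obtain ⟨g1, g0, rfl, h3, h4⟩ := split (· ∈ W) g
    have hg1 : g1 ∈ MI K W := (mem_MI hW _).2 h3
    have hg0 : g0 = 0 := by
      by_contra hne
      let _ : LinearOrder σ := LinearOrder.lift' (Fintype.equivFin σ) (Equiv.injective _)
      let m : MonomialOrder σ := MonomialOrder.lex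
      have h5 : u0 * g0 ∈ MI K W := by
        have := Ideal.sub_mem _ hg (Ideal.mul_mem_left _ u0 hg1)
        rwa [mul_add, add_sub_cancel_left] at this
      have h6 := (mem_MI hW _).1 h5 _ (m.degree_mem_support (mul_ne_zero hu0 hne))
      rw [m.degree_mul hu0 hne] at h6
      refine h4 _ (m.degree_mem_support hne) (hd _ _ (fun i hi => ?_) h6)
      have h7 := h0 _ (m.degree_mem_support hu0)
      have : m.degree u0 i = 0 := by
        by_contra h8; exact h7 ⟨i, hi, by omega⟩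
      simp [this]
    simpa [hg0] using hg1
  obtain ⟨k, hk⟩ := var_le_radical hW hp hu1
  have key : ∀ k, u1 ^ k * f ∈ MI K W → f ∈ MI K W := by
    intro k
    induction k with
    | zero => simp
    | succ k ih =>
      intro h
      refine ih (nzd _ ?_)
      have := Ideal.sub_mem _ (Ideal.mul_mem_left _ (u1 ^ k) huf) h
      convert this using 1; ring
  exact key k (Ideal.mul_mem_right _ _ hk)

theorem MI_varSet (τ : Finset σ) :
    MI K (varSet τ) = Ideal.span (X '' (τ : Set σ) : Set (MvPolynomial σ K)) := by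
  ext f
  rw [mem_MI (varSet_upper τ), mem_ideal_span_X_image]
  refine forall₂_congr fun e _ => exists_congr fun j => and_congr_right fun _ => ?_
  omega

theorem var_prime (τ : Finset σ) : (MI K (varSet τ)).IsPrime := by
  rw [MI_varSet]; exact Depth.varIdeal_prime _

theorem X_mem_var {τ : Finset σ} {i : σ} : (X i : MvPolynomial σ K) ∈ MI K (varSet τ) ↔ i ∈ τ := by
  classical
  rw [X, monomial_mem_MI (varSet_upper τ)]
  refine ⟨fun ⟨j, hj, h⟩ => ?_, fun h => ⟨i, h, by simp⟩⟩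
  by_contra h1
  rw [Finsupp.single_eq_of_ne (fun h2 : j = i => h1 (h2 ▸ hj))] at h
  omega

/-- an irredundant family of primary monomial ideals -/
structure Fam (ι σ : Type) where
  τ : ι → Finset σ
  V : ι → Set (σ →₀ ℕ)
  N : ℕ
  up : ∀ F, IsUpperSet (V F)
  dep : ∀ F, Dep (τ F) (V F)
  pure : ∀ F, ∀ i ∈ τ F, Finsupp.single i N ∈ V F
  zero : ∀ F, 0 ∉ V F
  inc : ∀ F G, τ F ⊆ τ G → F = G

namespace Fam
variable {ι : Type} (𝓕 : Fam ι σ)

/-- exponents of the intersection of the `t`-th powers -/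
def W (t : ℕ) : Set (σ →₀ ℕ) := {e | ∀ F, e ∈ pw (𝓕.V F) t}

/-- exponents of the ideal itself -/
def Q : Set (σ →₀ ℕ) := {e | ∀ F, e ∈ 𝓕.V F}

theorem W_upper (t : ℕ) : IsUpperSet (𝓕.W t) := fun _ _ hab h F => pw_upper _ t hab (h F)

theorem Q_upper : IsUpperSet 𝓕.Q := fun _ _ hab h F => 𝓕.up F hab (h F)

theorem pure_pw (t : ℕ) (F : ι) (i : σ) (hi : i ∈ 𝓕.τ F) :
    Finsupp.single i (t * 𝓕.N) ∈ pw (𝓕.V F) t := by
  simpa using pw_nsmul (𝓕.pure F i hi) t

theorem big (t : ℕ) (F : ι) (i : σ) (hi : i ∈ 𝓕.τ F) (e : σ →₀ ℕ) (he : t * 𝓕.N ≤ e i) :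
    e ∈ pw (𝓕.V F) t := pw_upper _ t (Finsupp.single_le_iff.2 he) (𝓕.pure_pw t F i hi)

theorem bd (t : ℕ) (i : σ) : Bd (𝓕.W t) (t * 𝓕.N) i := by
  intro e he h F
  by_cases hi : i ∈ 𝓕.τ F
  · exact 𝓕.big t F i hi e he
  · refine (𝓕.dep F).pw t _ _ (fun j hj => ?_) (h F)
    rw [Finsupp.add_apply, Finsupp.single_eq_of_ne (fun h2 : j = i => hi (h2 ▸ hj)), add_zero]

theorem rad_eq (t : ℕ) (c : σ →₀ ℕ) :
    rad (𝓕.W t) c = {e | ∀ F, c ∉ pw (𝓕.V F) t → e ∈ varSet (𝓕.τ F)} := by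
  ext e
  constructor
  · rintro ⟨k, hk⟩ F hF
    by_contra h
    refine hF ((𝓕.dep F).pw t _ _ (fun j hj => ?_) (hk F))
    have : e j = 0 := by
      by_contra h1; exact h ⟨j, hj, by omega⟩
    simp [this]
  · intro h
    refine ⟨t * 𝓕.N, fun F => ?_⟩
    by_cases hF : c ∈ pw (𝓕.V F) t
    · exact pw_add_right t hF _
    · obtain ⟨j, hj, h1⟩ := h F hF
      refine 𝓕.big t F j hj _ ?_
      have := Nat.le_mul_of_pos_right (t * 𝓕.N) h1
      simp only [Finsupp.add_apply, Finsupp.smul_apply, smul_eq_mul]; omega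

theorem V_le (F : ι) : 𝓕.V F ⊆ varSet (𝓕.τ F) := by
  intro e he
  by_contra h
  refine 𝓕.zero F (𝓕.dep F _ _ (fun j hj => ?_) he)
  by_contra h1
  exact h ⟨j, hj, by simp at h1; omega⟩

theorem exists_le [Fintype ι] (P : Ideal (MvPolynomial σ K)) [hP : P.IsPrime]
    (h : MI K 𝓕.Q ≤ P) : ∃ F, MI K (varSet (𝓕.τ F)) ≤ P := by
  have : MI K 𝓕.Q = Finset.univ.inf fun F => MI K (𝓕.V F) := by
    ext f
    simp only [Submodule.mem_finsetInf, Finset.mem_univ, forall_true_left, mem_MI 𝓕.Q_upper,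
      mem_MI (𝓕.up _)]
    exact ⟨fun h F e he => h e he F, fun h e he F => h F e he⟩
  rw [this] at h
  obtain ⟨F, -, hF⟩ := (Ideal.IsPrime.inf_le' hP).1 h
  exact ⟨F, (var_le_radical (𝓕.up F) (𝓕.pure F)).trans (hP.radical_le_iff.2 hF)⟩

theorem Q_le (F : ι) : MI K 𝓕.Q ≤ MI K (varSet (𝓕.τ F)) :=
  MI_mono fun _ he => 𝓕.V_le F (he F)

theorem symb [Fintype ι] [Fintype σ] (t : ℕ) (f : MvPolynomial σ K) :
    f ∈ MI K (𝓕.W t) ↔ ∀ P ∈ (MI K 𝓕.Q).minimalPrimes, ∃ u, u ∉ P ∧ u * f ∈ MI K 𝓕.Q ^ t := by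
  classical
  constructor
  · intro hf P hP
    have := hP.1.1
    obtain ⟨F, hF⟩ := 𝓕.exists_le P hP.1.2
    obtain rfl : P = MI K (varSet (𝓕.τ F)) :=
      le_antisymm (hP.2 ⟨var_prime _, 𝓕.Q_le F⟩ hF) hF
    have h1 : ∀ G, ∃ d : σ →₀ ℕ, d ∉ varSet (𝓕.τ F) ∧ (G ≠ F → d ∈ 𝓕.V G) := by
      intro G
      by_cases hG : G = F
      · exact ⟨0, fun ⟨_, _, h⟩ => by simp at h, fun h => absurd hG h⟩
      · obtain ⟨i, hi, hi'⟩ := Finset.not_subset.1 fun h => hG (𝓕.inc G F h)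
        refine ⟨Finsupp.single i 𝓕.N, fun ⟨j, hj, h⟩ => ?_, fun _ => 𝓕.pure G i hi⟩
        rw [Finsupp.single_eq_of_ne (fun h2 : j = i => hi' (h2 ▸ hj))] at h
        omega
    choose d hd1 hd2 using h1
    have h2 : ∀ s, ∀ e ∈ pw (𝓕.V F) s, s • ∑ G, d G + e ∈ pw 𝓕.Q s := by
      intro s
      induction s with
      | zero => intro _ _; trivial
      | succ s ih =>
        rintro _ ⟨a, ha, b, hb, rfl⟩
        refine ⟨∑ G, d G + a, fun G => ?_, _, ih b hb, by simp only [succ_nsmul]; abel⟩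
        by_cases hG : G = F
        · exact hG ▸ 𝓕.up F le_add_self ha
        · exact 𝓕.up G ((Finset.single_le_sum (f := d) (fun _ _ => zero_le) (Finset.mem_univ G)).trans
            le_self_add) (hd2 G hG)
    refine ⟨monomial (t • ∑ G, d G) 1, ?_, ?_⟩
    · rw [monomial_mem_MI (varSet_upper _)]
      rintro ⟨j, hj, h⟩
      have : ∀ G, d G j = 0 := fun G => by
        by_contra h3; exact hd1 G ⟨j, hj, by omega⟩
      simp [this] at h
    · rw [← MI_pw, mul_comm]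
      refine (MI_colon (pw_upper _ t) (W := {e | e + t • ∑ G, d G ∈ pw 𝓕.Q t})
        (fun a b hab h => pw_upper _ t (by gcongr) h) _ (fun _ => Iff.rfl) f).1 ?_
      refine MI_mono (fun e he => ?_) hf
      have := h2 t e (he F)
      rwa [add_comm] at this
  · intro h
    rw [mem_MI (𝓕.W_upper t)]
    intro e he F
    obtain ⟨u, hu, huf⟩ := h (MI K (varSet (𝓕.τ F))) ⟨⟨var_prime _, 𝓕.Q_le F⟩, by
      rintro P ⟨hP, hP'⟩ hle
      obtain ⟨G, hG⟩ := 𝓕.exists_le P hP'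
      obtain rfl : G = F := 𝓕.inc G F fun i hi => X_mem_var.1 (hle (hG (X_mem_var.2 hi)))
      exact hG⟩
    rw [← MI_pw] at huf
    exact (mem_MI (pw_upper _ t) f).1 (primary (pw_upper _ t) ((𝓕.dep F).pw t) (𝓕.pure_pw t F) hu
      (MI_mono (pw_mono (V := 𝓕.Q) (fun _ he => he F) t) huf)) e he

theorem pd_upper [Fintype σ] (t n : ℕ)
    (h : ∀ c, PdU K {e | ∀ F, c ∉ pw (𝓕.V F) t → e ∈ varSet (𝓕.τ F)} n) : PdU K (𝓕.W t) n :=
  pdU_of_rad (𝓕.W_upper t) (𝓕.bd t) n fun c => 𝓕.rad_eq t c ▸ h c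

theorem pd_lower [Fintype σ] (t n : ℕ) (c : σ →₀ ℕ) (h : PdU K (𝓕.W t) (n + 1)) :
    PdU K {e | ∀ F, c ∉ pw (𝓕.V F) t → e ∈ varSet (𝓕.τ F)} (n + 1) :=
  𝓕.rad_eq t c ▸ pdU_rad (𝓕.W_upper t) (𝓕.bd t) c n h

end Fam

end Pool.Agent.H79.SymC
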