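import Mathlib
import Pool.Agent.H79.SymC

set_option autoImplicit false

namespace Pool.Agent.H79.SymD

open Pool.Agent.H79.SymC

theorem pw_of_le {M : Type} [AddCommMonoid M] [LE M] [ExistsAddOfLE M] {V : Set M} {t : ℕ}
    {a b : M} (hab : a ≤ b) (ha : a ∈ pw V t) : b ∈ pw V t := by
  obtain ⟨d, rfl⟩ := exists_add_of_le hab
  exact pw_add_right t ha d

/-- numerical parameters of the construction -/
structure Par where
  T : ℕ
  p : ℕ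
  u : ℕ
  D : ℕ
  hT : 1 ≤ T
  hp : 1 ≤ p
  hu : T + p + 1 ≤ u
  hD : u ∣ D
  hbig : ∀ τ < T + p, τ + 1 + u * τ + 2 * τ + 2 * p + 3 ≤ D

theorem exists_par (T p : ℕ) (hT : 1 ≤ T) (hp : 1 ≤ p) : ∃ π : Par, π.T = T ∧ π.p = p := by
  refine ⟨⟨T, p, T + p + 1, (T + p + 1) * (T + p + 6), hT, hp, le_rfl, Dvd.intro _ rfl, ?_⟩, rfl, rfl⟩
  intro τ hτ
  have : (T + p + 1) * τ ≤ (T + p + 1) * (T + p) := Nat.mul_le_mul_left _ hτ.le
  nlinarith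

variable (π : Par)

def lev (τ : ℕ) : ℕ := τ + 1 + π.u * τ

def A (Bad : ℕ → Prop) : Set (ℕ × ℕ) :=
  {z | π.D + 2 ≤ z.1 + z.2 ∨ π.D ≤ z.1 ∨ π.D ≤ z.2 ∨ (π.u ≤ z.2 ∧ π.D ≤ z.1 + π.u) ∨
    ∃ τ, 1 ≤ τ ∧ τ < π.T + π.p ∧ ((τ < π.T ∧ τ + 1 ≤ z.2 ∧ π.D ≤ z.1 + τ) ∨
      (Bad τ ∧ lev π τ ≤ z.2 ∧ π.D + 1 ≤ z.1 + lev π τ))}

def M : Set (ℕ × ℕ × ℕ) :=
  {z | 2 * π.D + 3 ≤ z.1 + z.2.1 + 2 * z.2.2 ∨
    (π.D + 2 * π.p ≤ z.1 + 2 ∧ π.D + 2 ≤ z.2.1 + 2 * π.p) ∨ (π.D ≤ z.1 + 2 ∧ π.D + 2 ≤ z.2.1) ∨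
    ∃ τ, 1 ≤ τ ∧ τ < π.T + π.p ∧ lev π τ ≤ z.2.2 ∧ π.D + 2 * τ ≤ z.1 + lev π τ + 1 ∧
      π.D + 3 ≤ z.2.1 + lev π τ + 2 * τ}

theorem lev_lt {τ : ℕ} (h : τ < π.T + π.p) : lev π τ + 2 * τ + 2 * π.p + 3 ≤ π.D := π.hbig τ h

theorem u_le : π.u + 3 ≤ π.D := by
  have := π.hbig 1 (by have := π.hT; have := π.hp; omega)
  omega

theorem A_upper (Bad : ℕ → Prop) : IsUpperSet (A π Bad) := by
  rintro a b ⟨h1, h2⟩ (h | h | h | h | ⟨τ, h3, h4, h⟩)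
  · left; omega
  · right; left; omega
  · right; right; left; omega
  · right; right; right; left; omega
  · right; right; right; right
    refine ⟨τ, h3, h4, h.imp (fun h => by omega) fun h => ⟨h.1, by omega⟩⟩

theorem M_upper : IsUpperSet (M π) := by
  rintro a b ⟨h1, h2, h5⟩ (h | h | h | ⟨τ, h3, h4, h⟩)
  · left; omega
  · right; left; omega
  · right; right; left; omega
  · right; right; right
    exact ⟨τ, h3, h4, by omega⟩

theorem A_deg {Bad : ℕ → Prop} {z : ℕ × ℕ} (h : z ∈ A π Bad) : π.D ≤ z.1 + z.2 := by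
  rcases h with h | h | h | h | ⟨τ, h3, h4, h | h⟩ <;> omega

theorem M_deg {z : ℕ × ℕ × ℕ} (h : z ∈ M π) : π.D ≤ z.1 + z.2.1 + z.2.2 := by
  have := π.hp
  rcases h with h | h | h | ⟨τ, h3, h4, h⟩ <;> omega

def Good (t s : ℕ) : Prop := π.u ∣ s ∧ (s < π.D → s ≤ π.u * t)

theorem good_step {t s c : ℕ} (h : Good π t s) (hc : c = 0 ∨ c = π.D ∨ c = π.u) :
    Good π (t + 1) (c + s) := by
  refine ⟨dvd_add ?_ h.1, fun h1 => ?_⟩
  · rcases hc with rfl | rfl | rfl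
    exacts [dvd_zero _, π.hD, dvd_rfl]
  · have := h.2 (by omega)
    rw [mul_add]; omega

theorem invA {Bad : ℕ → Prop} (t : ℕ) : ∀ z ∈ pw (A π Bad) t, π.D * t ≤ z.1 + z.2 ∧
    (π.D * t + 2 ≤ z.1 + z.2 ∨ (∃ s, Good π t s ∧ s ≤ z.2 ∧ π.D * t ≤ z.1 + s) ∨
      ∃ τ l s t', 1 ≤ τ ∧ τ < π.T + π.p ∧ ((τ < π.T ∧ l = τ + 1) ∨ (Bad τ ∧ l = lev π τ)) ∧
        t = t' + 1 ∧ Good π t' s ∧ z.2 = l + s ∧ z.1 + z.2 = π.D * t + 1) := by
  induction t with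
  | zero => exact fun z _ => ⟨by simp, Or.inr (Or.inl ⟨0, ⟨dvd_zero _, by simp⟩, by simp⟩)⟩
  | succ t ih =>
    rintro _ ⟨a, ha, b, hb, rfl⟩
    obtain ⟨h0, h1⟩ := ih b hb
    have h2 := A_deg π ha
    simp only [Prod.fst_add, Prod.snd_add, mul_add, mul_one]
    refine ⟨by omega, ?_⟩
    by_cases hc : π.D * t + π.D + 2 ≤ a.1 + b.1 + (a.2 + b.2)
    · exact Or.inl hc
    right
    have key : (∃ c, (c = 0 ∨ c = π.D ∨ c = π.u) ∧ c ≤ a.2 ∧ π.D ≤ a.1 + c) ∨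
        ∃ τ l, 1 ≤ τ ∧ τ < π.T + π.p ∧ ((τ < π.T ∧ l = τ + 1) ∨ (Bad τ ∧ l = lev π τ)) ∧
          l ≤ a.2 ∧ π.D + 1 ≤ a.1 + l := by
      rcases ha with h | h | h | h | ⟨τ, h3, h4, h | h⟩
      · omega
      · exact Or.inl ⟨0, by simp, by omega⟩
      · exact Or.inl ⟨π.D, by simp, by omega⟩
      · exact Or.inl ⟨π.u, by simp, by omega⟩
      · exact Or.inr ⟨τ, τ + 1, h3, h4, Or.inl ⟨h.1, rfl⟩, by omega⟩
      · exact Or.inr ⟨τ, _, h3, h4, Or.inr ⟨h.1, rfl⟩, h.2⟩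
    rcases key with ⟨c, hc1, hc2⟩ | ⟨τ, l, h3, h4, h5, h6⟩
    · rcases h1 with h1 | ⟨s, hs, h1⟩ | ⟨τ, l, s, t', h3, h4, h5, rfl, hs, h1⟩
      · omega
      · exact Or.inl ⟨c + s, good_step π hs hc1, by omega⟩
      · exact Or.inr ⟨τ, l, c + s, t' + 1, h3, h4, h5, rfl, good_step π hs hc1, by omega⟩
    · rcases h1 with h1 | ⟨s, hs, h1⟩ | ⟨τ, l, s, t', -, -, -, -, -, h1⟩
      · omega
      · exact Or.inr ⟨τ, l, s, t, h3, h4, h5, rfl, hs, by omega⟩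
      · omega

theorem lev_mod {τ s : ℕ} (h : τ < π.T + π.p) (hs : π.u ∣ s) : (τ + 1 + s) % π.u = τ + 1 := by
  obtain ⟨k, rfl⟩ := hs
  rw [Nat.add_mul_mod_self_left, Nat.mod_eq_of_lt (by have := π.hu; omega)]

theorem A4 {Bad : ℕ → Prop} {τ t a : ℕ} (h1 : 1 ≤ τ) (h2 : τ < π.T + π.p) (h3 : ¬ Bad τ)
    (h4 : t = τ ∨ π.T ≤ τ) (h5 : a + lev π τ = π.D * t + 1) : (a, lev π τ) ∉ pw (A π Bad) t := by
  intro h
  have hm : lev π τ % π.u = τ + 1 := lev_mod π h2 (Dvd.intro _ rfl)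
  have hu := π.hu
  rcases (invA π t _ h).2 with h | ⟨s, hs, h⟩ | ⟨τ', l, s, t', h6, h7, h8, rfl, hs, h⟩
  · simp only at h; omega
  · simp only at h
    have h9 := lev_mod π (τ := 0) (by omega) hs.1
    have h10 := Nat.mod_eq_zero_of_dvd hs.1
    rcases (by omega : lev π τ = s ∨ lev π τ = 0 + 1 + s) with h11 | h11 <;> rw [h11] at hm <;> omega
  · simp only at h
    rcases h8 with ⟨h8, rfl⟩ | ⟨h8, rfl⟩
    · have h9 := lev_mod π h7 hs.1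
      obtain rfl : τ' = τ := by rw [h.1] at hm; omega
      obtain rfl : t' + 1 = τ' := by omega
      have h10 := lev_lt π h2
      have h11 := hs.2 (by omega)
      have h12 := h.1
      rw [lev, mul_add] at h12
      omega
    · have h9 := lev_mod π h7 (dvd_add (Dvd.intro τ' rfl) hs.1)
      obtain rfl : τ' = τ := by rw [h.1, lev, add_assoc] at hm; omega
      exact h3 h8

theorem A1 {Bad : ℕ → Prop} (t : ℕ) : ∀ a c : ℕ, π.D * (t + 1) + 2 ≤ a + c →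
    (a, c) ∈ pw (A π Bad) (t + 1) := by
  induction t with
  | zero => exact fun a c h => pw_one (Or.inl (by simpa using h))
  | succ t ih =>
    intro a c h
    rw [mul_add, mul_one] at h
    have : π.D ≤ π.D * (t + 1) := Nat.le_mul_of_pos_right _ (by omega)
    by_cases ha : π.D ≤ a
    · exact ⟨(π.D, 0), Or.inr (Or.inl le_rfl), (a - π.D, c), ih _ _ (by omega), by
        simp only [Prod.mk_add_mk, Prod.mk.injEq]; omega⟩
    · exact ⟨(0, π.D), Or.inr (Or.inr (Or.inl le_rfl)), (a, c - π.D), ih _ _ (by omega), by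
        simp only [Prod.mk_add_mk, Prod.mk.injEq]; omega⟩

theorem A1' {Bad : ℕ → Prop} {t a c : ℕ} (h : (a, c) ∉ pw (A π Bad) t) : a + c ≤ π.D * t + 1 := by
  rcases t with _ | t
  · exact absurd trivial h
  · by_contra h1; exact h (A1 π t a c (by omega))

theorem A2 {Bad : ℕ → Prop} {t a c : ℕ} (h : π.D * t ≤ a) : (a, c) ∈ pw (A π Bad) t :=
  pw_of_le (a := t • ((π.D, 0) : ℕ × ℕ)) (by simpa [mul_comm] using h)
    (pw_nsmul (V := A π Bad) (a := (π.D, 0)) (Or.inr (Or.inl le_rfl)) t)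

theorem A3 {Bad : ℕ → Prop} {τ t a : ℕ} (h1 : 1 ≤ τ) (h2 : τ < π.T + π.p) (ht : 1 ≤ t)
    (h5 : a + lev π τ = π.D * t + 1) (h : (a, lev π τ) ∉ pw (A π Bad) t) :
    ¬ Bad τ ∧ (t ≤ τ ∨ π.T ≤ τ) := by
  have h6 := lev_lt π h2
  have h7 := u_le π
  constructor
  · intro hb
    obtain ⟨t, rfl⟩ := Nat.exists_eq_add_of_le ht
    refine h (pw_of_le ?_ (pw_add 1 t (A2 π (c := 0) le_rfl) (pw_one (a := (π.D + 1 - lev π τ, lev π τ))
      (Or.inr (Or.inr (Or.inr (Or.inr ⟨τ, h1, h2, Or.inr ⟨hb, le_rfl, by simp only; omega⟩⟩)))))))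
    rw [mul_add] at h5
    simp only [Prod.mk_add_mk, Prod.mk_le_mk]; omega
  · by_contra hc
    obtain ⟨t, rfl⟩ := Nat.exists_eq_add_of_le (show 1 + τ ≤ t by omega)
    have e1 : (π.D - τ, τ + 1) ∈ A π Bad :=
      Or.inr (Or.inr (Or.inr (Or.inr ⟨τ, h1, h2, Or.inl ⟨by omega, le_rfl, by simp only; omega⟩⟩)))
    have e2 : (π.D - π.u, π.u) ∈ A π Bad :=
      Or.inr (Or.inr (Or.inr (Or.inl ⟨le_rfl, by simp only; omega⟩)))
    refine h (pw_of_le ?_ (pw_add _ t (A2 π (c := 0) le_rfl) (pw_add 1 τ (pw_nsmul e2 τ) (pw_one e1))))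
    simp only [Prod.mk_add_mk, Prod.mk_le_mk, Prod.smul_mk, smul_eq_mul, Nat.mul_sub]
    have h8 : τ * π.u ≤ τ * π.D := Nat.mul_le_mul_left _ (by omega)
    rw [lev, mul_add, mul_add, mul_comm π.D τ, mul_comm π.u τ] at h5
    rw [lev, mul_comm π.u τ]
    omega

theorem invM (t : ℕ) : ∀ z ∈ pw (M π) t,
    2 * (π.D * t) + 3 ≤ z.1 + z.2.1 + 2 * z.2.2 ∨
    (∃ i, π.D * t + 2 * (π.p * i) ≤ z.1 + 2 * t ∧ π.D * t + 2 * t ≤ z.2.1 + 2 * (π.p * i)) ∨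
    ∃ τ i, 1 ≤ τ ∧ τ < π.T + π.p ∧ lev π τ ≤ z.2.2 ∧
      π.D * t + 2 * τ + 2 * (π.p * i) + 1 ≤ z.1 + lev π τ + 2 * t ∧
      π.D * t + 2 * t + 1 ≤ z.2.1 + lev π τ + 2 * τ + 2 * (π.p * i) := by
  induction t with
  | zero => exact fun z _ => Or.inr (Or.inl ⟨0, by simp⟩)
  | succ t ih =>
    rintro _ ⟨a, ha, b, hb, rfl⟩
    simp only [Prod.fst_add, Prod.snd_add, mul_add, mul_one]
    rcases ih b hb with h | ⟨i, h⟩ | ⟨τ, i, h1, h2, h⟩ <;>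
      rcases ha with g | g | g | ⟨τ', g1, g2, g⟩
    all_goals first
      | (left; omega)
      | exact Or.inr (Or.inl ⟨i + 1, by rw [mul_add]; omega⟩)
      | exact Or.inr (Or.inl ⟨i, by omega⟩)
      | exact Or.inr (Or.inr ⟨τ', i, g1, g2, by omega⟩)
      | exact Or.inr (Or.inr ⟨τ, i + 1, h1, h2, by rw [mul_add]; omega⟩)
      | exact Or.inr (Or.inr ⟨τ, i, h1, h2, by omega⟩)

theorem M0 {t a b c : ℕ} (h : (a, b, c) ∈ pw (M π) t) : 2 * (π.D * t) ≤ a + b + 2 * c := by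
  rcases invM π t _ h with h | ⟨i, h⟩ | ⟨τ, i, h1, h2, h⟩ <;> simp only at h <;> omega

theorem M1 {t a b c : ℕ} (h : (a, b, c) ∈ pw (M π) t) (ha : a + c ≤ π.D * t + 1)
    (hb : b + c ≤ π.D * t + 1) : (π.D * t ≤ a ∧ π.D * t ≤ b) ∨
      ∃ τ i, 1 ≤ τ ∧ τ < π.T + π.p ∧ t = τ + π.p * i ∧ c = lev π τ ∧ a + c = π.D * t + 1 ∧
        b + c = π.D * t + 1 := by
  rcases invM π t _ h with h | ⟨i, h⟩ | ⟨τ, i, h1, h2, h⟩ <;> simp only at h
  · omega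
  · left; omega
  · exact Or.inr ⟨τ, i, h1, h2, by omega⟩

theorem M2 {τ : ℕ} (h1 : 1 ≤ τ) (h2 : τ < π.T + π.p) (i : ℕ) : ∀ a,
    a + lev π τ = π.D * (τ + π.p * i) + 1 → (a, a, lev π τ) ∈ pw (M π) (τ + π.p * i) := by
  have h6 := lev_lt π h2
  have e2 : (π.D - 2, π.D + 2, 0) ∈ M π := Or.inr (Or.inr (Or.inl ⟨by simp only; omega, le_rfl⟩))
  have hk : ∀ k, k * (π.D - 2) + 2 * k = π.D * k := fun k => by
    zify [show 2 ≤ π.D by omega]; ring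
  have hk' : ∀ k, k * (π.D + 2) = π.D * k + 2 * k := fun k => by ring
  induction i with
  | zero =>
    intro a ha
    obtain ⟨k, rfl⟩ := Nat.exists_eq_add_of_le h1
    have e1 : (π.D + 2 * (1 + k) - lev π (1 + k) - 1, π.D + 3 - lev π (1 + k) - 2 * (1 + k),
        lev π (1 + k)) ∈ M π :=
      Or.inr (Or.inr (Or.inr ⟨_, h1, h2, le_rfl, by simp only; omega, by simp only; omega⟩))
    refine pw_of_le ?_ (pw_add 1 k (pw_nsmul e2 k) (pw_one e1))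
    have := hk k
    have := hk' k
    simp only [mul_zero, add_zero, mul_add, mul_one] at ha
    simp only [Prod.mk_add_mk, Prod.mk_le_mk, Prod.smul_mk, smul_eq_mul]
    omega
  | succ i ih =>
    intro a ha
    obtain ⟨k, hp⟩ := Nat.exists_eq_add_of_le π.hp
    have e1 : (π.D + 2 * k, π.D - 2 * k, 0) ∈ M π :=
      Or.inr (Or.inl ⟨by simp only; omega, by simp only; omega⟩)
    have h7 : π.D ≤ π.D * (τ + π.p * i) := Nat.le_mul_of_pos_right _ (by omega)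
    have h8 : τ + π.p * (i + 1) = τ + π.p * i + (1 + k) := by rw [← hp]; ring
    rw [h8] at ha ⊢
    refine pw_of_le ?_ (pw_add _ _ (pw_add 1 k (pw_nsmul e2 k) (pw_one e1))
      (ih (π.D * (τ + π.p * i) + 1 - lev π τ) (by omega)))
    have := hk k
    have := hk' k
    rw [mul_add, mul_add π.D 1 k] at ha
    simp only [Prod.mk_add_mk, Prod.mk_le_mk, Prod.smul_mk, smul_eq_mul]
    omega

theorem exists_start {t : ℕ} (ht : 1 ≤ t) :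
    ∃ τ i, 1 ≤ τ ∧ τ < π.T + π.p ∧ t = τ + π.p * i ∧ (t = τ ∨ π.T ≤ τ) := by
  have hp := π.hp
  have hT := π.hT
  by_cases h : t < π.T
  · exact ⟨t, 0, ht, by omega, by simp, Or.inl rfl⟩
  · have h1 := Nat.mod_lt (t - π.T) hp
    have h2 := Nat.mod_add_div (t - π.T) π.p
    exact ⟨π.T + (t - π.T) % π.p, (t - π.T) / π.p, by omega, by omega, by omega, Or.inr (by omega)⟩

theorem per {g : ℕ → ℕ} (hg : ∀ t, π.T ≤ t → g (t + π.p) = g t) {τ i : ℕ}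
    (h : τ + π.p * i ≤ τ ∨ π.T ≤ τ) : g (τ + π.p * i) = g τ := by
  rcases h with h | h
  · rw [show π.p * i = 0 by omega, add_zero]
  · induction i with
    | zero => simp
    | succ i ih => rw [mul_add, mul_one, ← add_assoc, hg _ (by omega), ih]

/-- the key property: a point of the `t`-th power of `M` outside the power of `A` -/
theorem config {g : ℕ → ℕ} (hg : ∀ t, π.T ≤ t → g (t + π.p) = g t) {Bad : ℕ → Prop} {t a b c : ℕ}
    (h : (a, b, c) ∈ pw (M π) t) (ha : (a, c) ∉ pw (A π Bad) t) (hb : b + c ≤ π.D * t + 1) :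
    b = a ∧ ∃ τ, ¬ Bad τ ∧ g t = g τ := by
  have h0 : 1 ≤ t := by
    rcases t with _ | t
    · exact absurd trivial ha
    · omega
  rcases M1 π h (A1' π ha) hb with h1 | ⟨τ, i, h1, h2, rfl, rfl, h3, h4⟩
  · exact absurd (A2 π h1.1) ha
  · obtain ⟨h5, h6⟩ := A3 π h1 h2 h0 h3 ha
    exact ⟨by omega, τ, h5, per π hg h6⟩

theorem exists_config {g : ℕ → ℕ} (hg : ∀ t, π.T ≤ t → g (t + π.p) = g t) {t : ℕ} (ht : 1 ≤ t) :
    ∃ a c τ, g t = g τ ∧ t ≤ a ∧ (a, a, c) ∈ pw (M π) t ∧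
      ∀ Bad : ℕ → Prop, ¬ Bad τ → (a, c) ∉ pw (A π Bad) t := by
  obtain ⟨τ, i, h1, h2, rfl, h3⟩ := exists_start π ht
  have h6 := lev_lt π h2
  obtain ⟨k, hk⟩ := Nat.exists_eq_add_of_le ht
  have h7 : π.D * (τ + π.p * i) = π.D + π.D * k := by rw [hk]; ring
  have h8 : k ≤ π.D * k := Nat.le_mul_of_pos_left _ (by omega)
  exact ⟨π.D * (τ + π.p * i) + 1 - lev π τ, lev π τ, τ, per π hg (by omega), by omega,
    M2 π h1 h2 i _ (by omega), fun Bad hb => A4 π h1 h2 hb h3 (by omega)⟩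

end Pool.Agent.H79.SymD
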