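import Mathlib

set_option autoImplicit false

namespace Pool.Agent.H79.SymDefs

/-- the `t`-th symbolic power: the intersection over the minimal primes `P` of `I` of the
contractions to `R` of `I ^ t R_P` -/
noncomputable def symPow {R : Type} [CommRing R] (I : Ideal R) (t : ℕ) : Ideal R :=
  ⨅ (P : PrimeSpectrum R) (_ : P.asIdeal ∈ I.minimalPrimes),
    ((I ^ t).map (algebraMap R (Localization.AtPrime P.asIdeal))).comap
      (algebraMap R (Localization.AtPrime P.asIdeal))

end Pool.Agent.H79.SymDefs
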