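import Mathlib
import Pool.Agent.H79.SymD

set_option autoImplicit false

namespace Pool.Agent.H79.SymE

open MvPolynomial Pool.Agent.H79.PD Pool.Agent.H79.Mono Pool.Agent.H79.SymA Pool.Agent.H79.SymB
open Pool.Agent.H79.SymC Pool.Agent.H79.SymD

variable {σ : Type} {K : Type} [Field K]

/-- exponents of the cover ideal -/
def Cov (E : σ → σ → Prop) : Set (σ →₀ ℕ) := {e | ∀ y z, E y z → 1 ≤ e y ∨ 1 ≤ e z}

theorem Cov_upper (E : σ → σ → Prop) : IsUpperSet (Cov E) := fun _ _ hab h y z hyz =>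
  (h y z hyz).imp (·.trans (hab y)) (·.trans (hab z))

theorem cov_step [Fintype σ] (E : σ → σ → Prop) (v : σ) (hv : ¬ E v v) (n m : ℕ)
    (h1 : PdU K (Cov fun y z => E y z ∧ y ≠ v ∧ z ≠ v) n)
    (h2 : PdU K (Cov fun y z => (E y z ∧ y ≠ v ∧ z ≠ v) ∧ ¬ (E v y ∨ E y v) ∧ ¬ (E v z ∨ E z v)) m)
    (hm : 2 ≤ m) (hn : m + 1 ≤ n) : PdU K (Cov E) n := by
  classical
  let u : σ →₀ ℕ := Finsupp.equivFunOnFinite.symm fun z => if E v z ∨ E z v then 1 else 0
  have hu : ∀ z, u z = if E v z ∨ E z v then 1 else 0 := fun z => rfl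
  have hle : ∀ e : σ →₀ ℕ, u ≤ e ↔ ∀ z, E v z ∨ E z v → 1 ≤ e z := fun e =>
    forall_congr' fun z => by rw [hu]; split_ifs with h <;> simp [h]
  have hup : IsUpperSet {e : σ →₀ ℕ | u ≤ e} := fun _ _ hab h => h.trans hab
  have h3 : PdU K {e : σ →₀ ℕ | u ≤ e} 2 :=
    pdU_nzd isUpperSet_empty hup u (by simp) (by simp) 1 pdU_empty
  set E2 : σ → σ → Prop :=
    fun y z => (E y z ∧ y ≠ v ∧ z ≠ v) ∧ ¬ (E v y ∨ E y v) ∧ ¬ (E v z ∨ E z v) with hE2
  have hup0 : IsUpperSet ({e : σ →₀ ℕ | u ≤ e} ∩ Cov E2) := hup.inter (Cov_upper _)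
  have h4 : PdU K ({e : σ →₀ ℕ | u ≤ e} ∩ Cov E2) m := by
    refine pdU_colon hup0 (Cov_upper E2) hup u (fun e => ?_) (fun e => ?_) m h2 (pd_mono hm h3)
    · refine ⟨fun h => ⟨(le_add_self : u ≤ e + u), Cov_upper _ le_self_add h⟩, fun h y z hyz => ?_⟩
      have := h.2 y z hyz
      rwa [Finsupp.add_apply, Finsupp.add_apply, hu, hu, if_neg hyz.2.1, if_neg hyz.2.2] at this
    · exact ⟨Or.inr, fun h => h.elim And.left id⟩
  have hupL : IsUpperSet {e : σ →₀ ℕ | e ∈ {e : σ →₀ ℕ | u ≤ e} ∩ Cov E2 ∨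
      Finsupp.single v 1 ≤ e} := fun _ _ hab h => h.imp (hup0 hab) (·.trans hab)
  have hs : ∀ (e : σ →₀ ℕ) y, y ≠ v → (e + Finsupp.single v 1 : σ →₀ ℕ) y = e y := fun e y hy => by
    rw [Finsupp.add_apply, Finsupp.single_eq_of_ne hy, add_zero]
  have h5 := pdU_nzd (K := K) hup0 hupL (Finsupp.single v 1) (fun e => ⟨hup0 le_self_add,
    fun h => ⟨(hle e).2 fun z hz => by
      rw [← hs e z (by rintro rfl; exact hv (hz.elim id id))]; exact (hle _).1 h.1 z hz,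
    fun y z hyz => by
      rw [← hs e y hyz.1.2.1, ← hs e z hyz.1.2.2]; exact h.2 y z hyz⟩⟩) (fun _ => Iff.rfl) m h4
  refine pdU_colon (Cov_upper E) (Cov_upper _) hupL (Finsupp.single v 1) (fun e => ?_)
    (fun e => ?_) n h1 (pd_mono hn h5)
  · constructor
    · intro h y z hyz
      by_cases hy : y = v
      · left; simp [hy]
      by_cases hz : z = v
      · right; simp [hz]
      rw [hs e y hy, hs e z hz]; exact h y z ⟨hyz, hy, hz⟩
    · intro h y z hyz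
      rw [← hs e y hyz.2.1, ← hs e z hyz.2.2]; exact h y z hyz.1
  · by_cases he : Finsupp.single v 1 ≤ e
    · exact ⟨fun _ => Or.inr he, fun _ => Or.inr he⟩
    have he' := he
    rw [Finsupp.single_le_iff] at he'
    refine ⟨fun h => Or.inl fun y z hyz => ?_, fun h => Or.inl ⟨(hle e).2 fun z hz => ?_,
      fun y z hyz => h.resolve_right he y z hyz.1.1⟩⟩
    · obtain ⟨h6, h7⟩ := h.resolve_right he
      have h8 := (hle e).1 h6
      by_cases hy : E v y ∨ E y v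
      · exact Or.inl (h8 y hy)
      by_cases hz : E v z ∨ E z v
      · exact Or.inr (h8 z hz)
      exact h7 y z ⟨⟨hyz, by rintro rfl; exact hz (Or.inl hyz), by rintro rfl; exact hy (Or.inr hyz)⟩,
        hy, hz⟩
    · rcases hz with hz | hz
      · exact (h.resolve_right he v z hz).resolve_left he'
      · exact (h.resolve_right he z v hz).resolve_right he'

theorem cov_split [Fintype σ] (C : Finset σ) : ∀ E : σ → σ → Prop, (∀ y, ¬ E y y) →
    (∀ y z, E y z → y ∈ C ∨ z ∈ C) → (∀ y ∈ C, ∀ z ∈ C, y ≠ z → E y z ∨ E z y) →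
    PdU K (Cov E) 3 := by
  classical
  induction C using Finset.induction_on with
  | empty => exact fun E _ h _ => pdU_univ (fun y z hyz => by simpa using h y z hyz) 3
  | insert v C hv ih =>
    intro E h0 h1 h2
    refine cov_step E v (h0 v) 3 2 (ih _ (fun y h => h0 y h.1) (fun y z h => ?_)
      fun y hy z hz hyz => ?_) (pdU_univ (fun y z h => ?_) 2) le_rfl le_rfl
    · simpa [h.2.1, h.2.2] using h1 y z h.1
    · have hy' : y ≠ v := fun h => hv (h ▸ hy)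
      have hz' : z ≠ v := fun h => hv (h ▸ hz)
      exact (h2 y (by simp [hy]) z (by simp [hz]) hyz).imp (⟨·, hy', hz'⟩) (⟨·, hz', hy'⟩)
    · exfalso
      rcases h1 y z h.1.1 with h3 | h3
      · exact h.2.1 (h2 v (by simp) y h3 h.1.2.1.symm)
      · exact h.2.2 (h2 v (by simp) z h3 h.1.2.2.symm)

theorem cov_gen [Fintype σ] (W : Finset σ) : ∀ (C : Finset σ) (E : σ → σ → Prop), (∀ y, ¬ E y y) →
    (∀ y z, E y z → (y ∈ C ∨ y ∈ W) ∨ (z ∈ C ∨ z ∈ W)) →
    (∀ y ∈ C, ∀ z ∈ C, y ≠ z → E y z ∨ E z y) → PdU K (Cov E) (W.card + 3) := by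
  classical
  induction W using Finset.induction_on with
  | empty => exact fun C E h0 h1 h2 => cov_split C E h0 (by simpa using h1) h2
  | insert v W hv ih =>
    intro C E h0 h1 h2
    rw [Finset.card_insert_of_notMem hv]
    refine cov_step E v (h0 v) _ (W.card + 3)
      (pd_mono (by omega) (ih (C.erase v) _ (fun y h => h0 y h.1) (fun y z h => ?_) ?_))
      (ih (C.filter fun y => y ≠ v ∧ ¬ (E v y ∨ E y v)) _ (fun y h => h0 y h.1.1)
        (fun y z h => ?_) ?_) (by omega) (by omega)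
    · simpa [h.2.1, h.2.2] using h1 y z h.1
    · intro y hy z hz hyz
      rw [Finset.mem_erase] at hy hz
      exact (h2 y hy.2 z hz.2 hyz).imp (⟨·, hy.1, hz.1⟩) (⟨·, hz.1, hy.1⟩)
    · simpa only [Finset.mem_filter, Finset.mem_insert, h.1.2.1, h.1.2.2, h.2.1, h.2.2, ne_eq,
        not_false_eq_true, and_true, false_or] using h1 y z h.1.1
    · intro y hy z hz hyz
      rw [Finset.mem_filter] at hy hz
      exact (h2 y hy.1 z hz.1 hyz).imp (⟨⟨·, hy.2.1, hz.2.1⟩, hy.2.2, hz.2.2⟩)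
        (⟨⟨·, hz.2.1, hy.2.1⟩, hz.2.2, hy.2.2⟩)

theorem matching [DecidableEq σ] {ι : Type} (a x : ι → σ) (ha : Function.Injective a)
    (hx : Function.Injective x) (hax : ∀ j k, a j ≠ x k) (S : Finset ι) (hS : S.Nonempty) :
    ∀ τ : Finset σ, (∀ j ∈ S, a j ∉ τ ∧ x j ∉ τ) →
      PdU K {e | e ∈ varSet τ ∨ ∀ j ∈ S, 1 ≤ e (a j) ∨ 1 ≤ e (x j)} (τ.card + S.card + 2) ∧
      ¬ PdU K {e | e ∈ varSet τ ∨ ∀ j ∈ S, 1 ≤ e (a j) ∨ 1 ≤ e (x j)} (τ.card + S.card + 1) := by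
  have hc : ∀ (τ : Finset σ) j, a j ∉ τ ∧ x j ∉ τ → (insert (a j) (insert (x j) τ)).card =
      τ.card + 2 := fun τ j h => by
    rw [Finset.card_insert_of_notMem (by simp [h.1, hax]), Finset.card_insert_of_notMem h.2]
  have hv : ∀ (τ : Finset σ) j e, e ∈ varSet (insert (a j) (insert (x j) τ)) ↔
      e ∈ varSet τ ∨ (1 ≤ e (a j) ∨ 1 ≤ e (x j)) := fun τ j e => by
    simp only [varSet, Set.mem_ofPred_eq, Finset.mem_insert, exists_eq_or_imp]
    rw [← or_assoc, or_comm]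
  have hup : ∀ (τ : Finset σ) (S : Finset ι),
      IsUpperSet {e : σ →₀ ℕ | e ∈ varSet τ ∨ ∀ j ∈ S, 1 ≤ e (a j) ∨ 1 ≤ e (x j)} :=
    fun τ S _ _ hab h => h.imp (varSet_upper τ hab) fun h j hj =>
      (h j hj).imp (·.trans (hab _)) (·.trans (hab _))
  induction hS using Finset.Nonempty.cons_induction with
  | singleton j =>
    intro τ hτ
    have h1 : {e : σ →₀ ℕ | e ∈ varSet τ ∨ ∀ i ∈ ({j} : Finset ι), 1 ≤ e (a i) ∨ 1 ≤ e (x i)} =
        varSet (insert (a j) (insert (x j) τ)) := by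
      ext e; rw [hv]; simp
    have h2 := hc τ j (hτ j (by simp))
    rw [h1, Finset.card_singleton]
    refine ⟨by simpa [h2] using pdU_varSet (K := K) (insert (a j) (insert (x j) τ)), ?_⟩
    rw [show τ.card + 1 + 1 = (insert (a j) (insert (x j) τ)).card by omega]
    exact not_pdU (varSet_upper _) _ 0 (fun ⟨_, _, h⟩ => by simp at h) fun i hi => ⟨i, hi, by simp⟩
  | cons j S hj hS ih =>
    intro τ hτ
    have h2 := hc τ j (hτ j (by simp))
    have h3 := ih τ fun i hi => hτ i (by simp [hi])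
    have h4 := ih (insert (a j) (insert (x j) τ)) fun i hi => by
      have h5 : i ≠ j := fun h => hj (h ▸ hi)
      have h6 := hτ i (by simp [hi])
      simp [ha.eq_iff, hx.eq_iff, h5, hax, (hax _ _).symm, h6]
    have h5 := pdU_varSet (K := K) (insert (a j) (insert (x j) τ))
    have hA : MI K {e : σ →₀ ℕ | e ∈ varSet τ ∨ ∀ i ∈ Finset.cons j S hj, 1 ≤ e (a i) ∨ 1 ≤ e (x i)}
        = MI K {e | e ∈ varSet τ ∨ ∀ i ∈ S, 1 ≤ e (a i) ∨ 1 ≤ e (x i)} ⊓
          MI K (varSet (insert (a j) (insert (x j) τ))) := by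
      rw [← MI_inter (hup τ S) (varSet_upper _)]
      congr 1; ext e
      simp only [Set.mem_inter_iff, hv, Set.mem_ofPred_eq, Finset.forall_mem_cons]; tauto
    have hB : MI K {e : σ →₀ ℕ | e ∈ varSet (insert (a j) (insert (x j) τ)) ∨
        ∀ i ∈ S, 1 ≤ e (a i) ∨ 1 ≤ e (x i)}
        = MI K {e | e ∈ varSet τ ∨ ∀ i ∈ S, 1 ≤ e (a i) ∨ 1 ≤ e (x i)} ⊔
          MI K (varSet (insert (a j) (insert (x j) τ))) := by
      rw [← MI_union]
      congr 1; ext e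
      simp only [Set.mem_union, hv, Set.mem_ofPred_eq]; tauto
    have h6 := hS.card_pos
    rw [Finset.card_cons]
    rw [h2] at h4 h5
    refine ⟨pd_inf _ _ _ _ hA hB _ (pd_mono (by omega) h3.1) (pd_mono (by omega) h5)
      (pd_mono (by omega) h4.1), fun h => h4.2 (pd_mono (by omega) (pd_sup _ _ _ _ hA hB _
        (pd_mono (by omega) h3.1) (pd_mono (by omega) h5) h))⟩

/-- two coordinates -/
noncomputable def f2 (y w : σ) : (σ →₀ ℕ) →+ ℕ × ℕ :=
  (Finsupp.applyAddHom y).prod (Finsupp.applyAddHom w)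

/-- three coordinates -/
noncomputable def f3 (y z w : σ) : (σ →₀ ℕ) →+ ℕ × ℕ × ℕ := (Finsupp.applyAddHom y).prod (f2 z w)

@[simp] theorem f2_apply (y w : σ) (e : σ →₀ ℕ) : f2 y w e = (e y, e w) := rfl

@[simp] theorem f3_apply (y z w : σ) (e : σ →₀ ℕ) : f3 y z w e = (e y, e z, e w) := rfl

theorem pw_f3 {y z w : σ} (h1 : y ≠ z) (h2 : y ≠ w) (h3 : z ≠ w) (Γ : Set (ℕ × ℕ × ℕ)) (t : ℕ)
    (e : σ →₀ ℕ) : e ∈ pw (f3 y z w ⁻¹' Γ) t ↔ (e y, e z, e w) ∈ pw Γ t := by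
  classical
  refine ⟨pw_hom _ t, pw_lift (f3 y z w) ?_ t⟩
  rintro e ⟨a, b, c⟩ ⟨a', b', c'⟩ h
  simp only [f3_apply, Prod.mk_add_mk, Prod.mk.injEq] at h
  obtain ⟨r, rfl⟩ := exists_add_of_le (show Finsupp.single y a + Finsupp.single z b +
      Finsupp.single w c ≤ e from fun i => by
    simp only [Finsupp.add_apply, Finsupp.single_apply]
    split_ifs <;> subst_vars <;> first | omega | contradiction)
  refine ⟨_, r, rfl, ?_, ?_⟩ <;> simp [h1, h2, h3, h1.symm, h2.symm, h3.symm] at h ⊢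
  exact h

theorem pw_f2 {y w : σ} (h2 : y ≠ w) (Γ : Set (ℕ × ℕ)) (t : ℕ)
    (e : σ →₀ ℕ) : e ∈ pw (f2 y w ⁻¹' Γ) t ↔ (e y, e w) ∈ pw Γ t := by
  classical
  refine ⟨pw_hom _ t, pw_lift (f2 y w) ?_ t⟩
  rintro e ⟨a, c⟩ ⟨a', c'⟩ h
  simp only [f2_apply, Prod.mk_add_mk, Prod.mk.injEq] at h
  obtain ⟨r, rfl⟩ := exists_add_of_le (show Finsupp.single y a +
      Finsupp.single w c ≤ e from fun i => by
    simp only [Finsupp.add_apply, Finsupp.single_apply]
    split_ifs <;> subst_vars <;> first | omega | contradiction)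
  refine ⟨_, r, rfl, ?_, ?_⟩ <;> simp [h2, h2.symm] at h ⊢
  exact h

theorem config' (π : Par) {Bad : ℕ → Prop} {t a b c : ℕ} (ha : (a, c) ∉ pw (A π Bad) t)
    (hb : b < a) : (a, b, c) ∉ pw (M π) t ∧ (b, a, c) ∉ pw (M π) t := by
  have h1 := A1' π ha
  constructor <;> intro h
  · rcases M1 π h h1 (by omega) with h2 | ⟨_, _, h2⟩
    · exact ha (A2 π h2.1)
    · omega
  · rcases M1 π h (by omega) h1 with h2 | ⟨_, _, h2⟩
    · exact ha (A2 π h2.2)
    · omega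

end Pool.Agent.H79.SymE
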