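import Mathlib
import Pool.Agent.H79.SymE

set_option autoImplicit false

namespace Pool.Agent.H79.SymF

open MvPolynomial Pool.Agent.H79.PD Pool.Agent.H79.Mono Pool.Agent.H79.SymA Pool.Agent.H79.SymB
open Pool.Agent.H79.SymC Pool.Agent.H79.SymD Pool.Agent.H79.SymE

variable {σ : Type} [DecidableEq σ] {K : Type} [Field K] {m : ℕ}

/-- the variables -/
structure Vars (m : ℕ) (σ : Type) where
  w : σ
  a : Fin m → σ
  x : Fin m → σ
  ha : Function.Injective a
  hx : Function.Injective x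
  hax : ∀ j k, a j ≠ x k
  haw : ∀ j, a j ≠ w
  hxw : ∀ j, x j ≠ w

abbrev Idx (m : ℕ) : Type := Fin m ⊕ {q : Fin m × Fin m // q.1 < q.2}

variable (v : Vars m σ) (π : Par) (g : ℕ → ℕ)

def yy : Idx m → σ := Sum.elim v.a fun q => v.a q.1.1

def zz : Idx m → σ := Sum.elim v.x fun q => v.a q.1.2

def Bad (j : Fin m) (τ : ℕ) : Prop := g τ ≤ j.1 + 1

def VV : Idx m → Set (σ →₀ ℕ) :=
  Sum.elim (fun j => f2 (v.a j) v.w ⁻¹' A π (Bad g j) ∪ {e | 1 ≤ e (v.x j)})
    fun q => f3 (v.a q.1.1) (v.a q.1.2) v.w ⁻¹' M π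

noncomputable def fam : Fam (Idx m) σ where
  τ F := {v.w, yy v F, zz v F}
  V := VV v π g
  N := 2 * π.D + 3
  up := by
    rintro (j | q) a b hab h
    · exact h.imp (A_upper π _ (show f2 _ _ a ≤ f2 _ _ b from ⟨hab _, hab _⟩)) (le_trans · (hab _))
    · exact M_upper π (show f3 _ _ _ a ≤ f3 _ _ _ b from ⟨hab _, hab _, hab _⟩) h
  dep := by
    rintro (j | q) a b hab h <;>
      simp only [yy, zz, Sum.elim_inl, Sum.elim_inr, Finset.mem_insert, Finset.mem_singleton,
        forall_eq_or_imp, forall_eq] at hab <;>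
      simpa only [VV, Sum.elim_inl, Sum.elim_inr, Set.mem_union, Set.mem_preimage, f2_apply,
        f3_apply, Set.mem_ofPred_eq, hab.1, hab.2.1, hab.2.2] using h
  pure := by
    rintro (j | q) i hi <;>
      simp only [yy, zz, Sum.elim_inl, Sum.elim_inr, Finset.mem_insert,
        Finset.mem_singleton] at hi <;> rcases hi with rfl | rfl | rfl
    · exact Or.inl (Or.inl (by simp; omega))
    · exact Or.inl (Or.inl (by simp; omega))
    · exact Or.inr (by simp)
    · exact Or.inl (by simp; omega)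
    · exact Or.inl (by simp; omega)
    · exact Or.inl (by simp; omega)
  zero := by
    have := u_le π
    rintro (j | q) h
    · rcases h with h | h
      · have := A_deg π h; simp at this; omega
      · simp at h
    · have := M_deg π h; simp at this; omega
  inc := by
    have h1 := v.haw
    have h2 := v.hxw
    have h3 := v.hax
    have h4 : ∀ j k, v.x j ≠ v.a k := fun j k => (h3 k j).symm
    rintro (j | ⟨⟨j, k⟩, hjk⟩) (j' | ⟨⟨j', k'⟩, hjk'⟩) h <;>
      simp [yy, zz, Finset.insert_subset_iff, h1, h2, h3, h4, v.ha.eq_iff, v.hx.eq_iff] at h ⊢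
    · exact h
    · obtain ⟨rfl, rfl⟩ := h; simp at hjk
    · simp only at hjk hjk'; omega

theorem mem_edge (j k : Fin m) (h : j < k) (t : ℕ) (c : σ →₀ ℕ) :
    c ∈ pw ((fam v π g).V (Sum.inr ⟨(j, k), h⟩)) t ↔ (c (v.a j), c (v.a k), c v.w) ∈ pw (M π) t :=
  pw_f3 (fun h1 => h.ne (v.ha h1)) (v.haw j) (v.haw k) _ t c

theorem mem_whisker (j : Fin m) (t : ℕ) (c : σ →₀ ℕ)
    (h : (c (v.a j), c v.w) ∈ pw (A π (Bad g j)) t) : c ∈ pw ((fam v π g).V (Sum.inl j)) t :=
  pw_mono Set.subset_union_left t ((pw_f2 (v.haw j) _ t c).2 h)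

theorem upper [Fintype σ] (hg : ∀ t, π.T ≤ t → g (t + π.p) = g t) (t : ℕ) (ht : 2 ≤ g t) :
    PdU K ((fam v π g).W t) (g t + 2) := by
  classical
  refine (fam v π g).pd_upper t _ fun c => ?_
  let E : σ → σ → Prop := fun y z => ∃ F, c ∉ pw ((fam v π g).V F) t ∧ y = yy v F ∧ z = zz v F
  have hw : ∀ F, yy v F ≠ v.w ∧ zz v F ≠ v.w := by
    rintro (j | q)
    exacts [⟨v.haw _, v.hxw _⟩, ⟨v.haw _, v.haw _⟩]
  let K0 := Finset.univ.filter fun j => (c (v.a j), c (v.a j), c v.w) ∉ pw (M π) t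
  let W0 := Finset.univ.filter fun j => j ∉ K0 ∧ c ∉ pw ((fam v π g).V (Sum.inl j)) t
  have hK0 : ∀ j, j ∈ K0 ↔ (c (v.a j), c (v.a j), c v.w) ∉ pw (M π) t := fun j => by simp [K0]
  have hW0 : ∀ j ∈ W0, j ∉ K0 ∧ (c (v.a j), c v.w) ∉ pw (A π (Bad g j)) t := fun j hj =>
    ⟨(Finset.mem_filter.1 hj).2.1, fun h => (Finset.mem_filter.1 hj).2.2 (mem_whisker v π g j t c h)⟩
  have hlt : ∀ j k, j ∉ K0 → k ∈ K0 → c (v.a k) < c (v.a j) := fun j k hj hk => by
    rw [hK0] at hj hk
    by_contra h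
    exact hk (pw_of_le (show (c (v.a j), c (v.a j), c v.w) ≤ _ from ⟨by simpa using h,
      by simpa using h, le_rfl⟩) (not_not.1 hj))
  obtain ⟨K1, W1, h1, h2, h3, h4⟩ : ∃ K1 W1 : Finset (Fin m), K0 ⊆ K1 ∧
      (∀ j ∈ W0, j ∈ K1 ∨ j ∈ W1) ∧ W1.card + 2 ≤ g t ∧
      ∀ j ∈ K1, ∀ k ∈ K1, j ≠ k → (c (v.a j), c (v.a k), c v.w) ∉ pw (M π) t := by
    have h5 : ∀ j ∈ K0, ∀ k ∈ K0, (c (v.a j), c (v.a k), c v.w) ∉ pw (M π) t := by
      intro j hj k hk h
      rcases le_total (c (v.a j)) (c (v.a k)) with h6 | h6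
      · exact (hK0 k).1 hk (pw_of_le (show (c (v.a j), c (v.a k), c v.w) ≤ _ from
          ⟨h6, le_rfl, le_rfl⟩) h)
      · exact (hK0 j).1 hj (pw_of_le (show (c (v.a j), c (v.a k), c v.w) ≤ _ from
          ⟨le_rfl, h6, le_rfl⟩) h)
    rcases W0.eq_empty_or_nonempty with h | ⟨j0, hj0⟩
    · exact ⟨K0, ∅, le_rfl, by simp [h], by simpa using ht, fun j hj k hk _ => h5 j hj k hk⟩
    · refine ⟨insert j0 K0, W0.erase j0, Finset.subset_insert _ _, fun j hj => ?_, ?_, ?_⟩
      · by_cases h : j = j0 <;> simp [h, hj]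
      · have h6 : W0.card ≤ (Finset.range (g t - 1)).card := by
          refine Finset.card_le_card_of_injOn Fin.val (fun j hj => ?_) Fin.val_injective.injOn
          obtain ⟨h7, h8⟩ := hW0 j hj
          obtain ⟨-, τ, h9, h10⟩ := config π hg (not_not.1 ((hK0 j).not.1 h7)) h8 (A1' π h8)
          simp only [Bad] at h9
          simp only [Finset.coe_range, Set.mem_Iio]; omega
        have := Finset.card_pos.2 ⟨j0, hj0⟩
        rw [Finset.card_range] at h6
        rw [Finset.card_erase_of_mem hj0]; omega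
      · obtain ⟨h7, h8⟩ := hW0 j0 hj0
        intro j hj k hk hjk
        rcases Finset.mem_insert.1 hj with rfl | hj' <;> rcases Finset.mem_insert.1 hk with rfl | hk'
        · exact absurd rfl hjk
        · exact (config' π h8 (hlt _ _ h7 hk')).1
        · exact (config' π h8 (hlt _ _ h7 hj')).2
        · exact h5 j hj' k hk'
  have h5 : PdU K (Cov E) ((W1.image v.a).card + 3) := by
    refine cov_gen _ (K1.image v.a) E ?_ ?_ ?_
    · rintro y ⟨j | q, -, h6, h7⟩
      · exact v.hax _ _ (h6.symm.trans h7)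
      · exact q.2.ne (v.ha (h6.symm.trans h7))
    · rintro _ _ ⟨j | ⟨⟨j, k⟩, hjk⟩, h6, rfl, rfl⟩
      · left
        by_cases hj : j ∈ K0
        · exact Or.inl (Finset.mem_image_of_mem _ (h1 hj))
        · exact (h2 j (Finset.mem_filter.2 ⟨Finset.mem_univ _, hj, h6⟩)).imp
            (Finset.mem_image_of_mem _) (Finset.mem_image_of_mem _)
      · rw [mem_edge] at h6
        by_cases hj : j ∈ K0
        · exact Or.inl (Or.inl (Finset.mem_image_of_mem _ (h1 hj)))
        by_cases hk : k ∈ K0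
        · exact Or.inr (Or.inl (Finset.mem_image_of_mem _ (h1 hk)))
        rw [hK0, not_not] at hj hk
        exfalso
        rcases le_total (c (v.a j)) (c (v.a k)) with h7 | h7
        · exact h6 (pw_of_le (show (c (v.a j), c (v.a j), c v.w) ≤ _ from ⟨le_rfl, h7, le_rfl⟩) hj)
        · exact h6 (pw_of_le (show (c (v.a k), c (v.a k), c v.w) ≤ _ from ⟨h7, le_rfl, le_rfl⟩) hk)
    · intro y hy z hz hyz
      obtain ⟨j, hj, rfl⟩ := Finset.mem_image.1 hy
      obtain ⟨k, hk, rfl⟩ := Finset.mem_image.1 hz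
      have hjk : j ≠ k := fun h => hyz (h ▸ rfl)
      rcases lt_or_gt_of_ne hjk with h | h
      · exact Or.inl ⟨Sum.inr ⟨(j, k), h⟩, (mem_edge v π g j k h t c).not.2 (h4 j hj k hk hjk),
          rfl, rfl⟩
      · exact Or.inr ⟨Sum.inr ⟨(k, j), h⟩, (mem_edge v π g k j h t c).not.2 (h4 k hk j hj hjk.symm),
          rfl, rfl⟩
  have h6 := Finset.card_image_le (s := W1) (f := v.a)
  refine pd_mono (by omega) (pdU_nzd (Cov_upper E)
    (L := {e | ∀ F, c ∉ pw ((fam v π g).V F) t → e ∈ varSet ((fam v π g).τ F)})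
    (fun _ _ hab h F hF => varSet_upper _ hab (h F hF)) (Finsupp.single v.w 1) (fun e => ?_)
    (fun e => ?_) _ h5)
  · refine ⟨Cov_upper E le_self_add, ?_⟩
    rintro h _ _ ⟨F, hF, rfl, rfl⟩
    simpa [(hw F).1, (hw F).2] using h _ _ ⟨F, hF, rfl, rfl⟩
  · rw [Finsupp.single_le_iff]
    constructor
    · intro h
      by_cases hw' : 1 ≤ e v.w
      · exact Or.inr hw'
      left
      rintro _ _ ⟨F, hF, rfl, rfl⟩
      simpa [varSet, fam, hw'] using h F hF
    · rintro (h | h) F hF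
      · have := h _ _ ⟨F, hF, rfl, rfl⟩
        simp only [varSet, fam, Finset.mem_insert, Finset.mem_singleton, exists_eq_or_imp,
          exists_eq_left, Set.mem_ofPred_eq]
        exact Or.inr this
      · exact ⟨v.w, by simp [fam], h⟩

theorem lower [Fintype σ] (hg : ∀ t, π.T ≤ t → g (t + π.p) = g t) (t : ℕ) (h0 : 1 ≤ t)
    (ht : 2 ≤ g t) (hm : g t ≤ m + 1) : ¬ PdU K ((fam v π g).W t) (g t + 1) := by
  classical
  intro h
  obtain ⟨α, γ, τ, h1, -, h2, h3⟩ := exists_config π hg h0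
  let val : Fin m → ℕ := fun j => if j.1 + 1 < g t then α else t * (fam v π g).N
  let c : σ →₀ ℕ := ∑ j, Finsupp.single (v.a j) (val j) + Finsupp.single v.w γ
  have c1 : c v.w = γ := by simp [c, v.haw]
  have c2 : ∀ j, c (v.a j) = val j := fun j => by
    simp [c, Finsupp.single_apply, v.ha.eq_iff, (v.haw j).symm]
  have c3 : ∀ j, c (v.x j) = 0 := fun j => by
    simp [c, v.hax, (v.hxw j).symm]
  have h4 := (fam v π g).pd_lower t _ c h
  let S : Finset (Fin m) := Finset.univ.filter fun j => j.1 + 1 < g t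
  have hS : S.card + 1 = g t := by
    have := Fin.card_filter_val_lt (n := m) (m := g t - 1)
    rw [show S = Finset.univ.filter fun j : Fin m => j.1 < g t - 1 from
      Finset.filter_congr fun j _ => by omega, this]
    omega
  have h5 := (matching (K := K) v.a v.x v.ha v.hx v.hax S (Finset.card_pos.1 (by omega)) {v.w}
    fun j _ => by simp [v.haw, v.hxw]).2
  rw [Finset.card_singleton, show 1 + S.card + 1 = g t + 1 by omega] at h5
  apply h5
  have hin : ∀ j, c ∉ pw ((fam v π g).V (Sum.inl j)) t ↔ j ∈ S := fun j => by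
    simp only [S, Finset.mem_filter, Finset.mem_univ, true_and]
    constructor
    · intro h6
      by_contra h7
      exact h6 ((fam v π g).big t _ (v.a j) (by simp [fam, yy]) c (by simp [c2, val, h7]))
    · intro h6 h7
      have h8 := (pw_f2 (v.haw j) _ t c).1 (pw_avoid t (fun d r hd (h : 1 ≤ d (v.x j)) => by
        have := c3 j
        rw [hd, Finsupp.add_apply] at this; omega) h7)
      rw [c1, c2] at h8
      simp only [val, if_pos h6] at h8
      exact h3 _ (by simp only [Bad]; omega) h8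
  have hin' : ∀ q, c ∈ pw ((fam v π g).V (Sum.inr q)) t := by
    rintro ⟨⟨j, k⟩, hjk⟩
    by_cases hk : k.1 + 1 < g t
    · have hj : j.1 + 1 < g t := by simp only [Fin.lt_def] at hjk; omega
      rw [mem_edge, c1, c2, c2]
      simpa only [val, if_pos hk, if_pos hj] using h2
    · exact (fam v π g).big t _ (v.a k) (by simp [fam, zz]) c (by simp [c2, val, hk])
  suffices H : {e | ∀ F, c ∉ pw ((fam v π g).V F) t → e ∈ varSet ((fam v π g).τ F)} =
      {e | e ∈ varSet {v.w} ∨ ∀ j ∈ S, 1 ≤ e (v.a j) ∨ 1 ≤ e (v.x j)} by rwa [H] at h4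
  ext e
  simp only [Set.mem_ofPred_eq, Sum.forall, hin, hin', not_true_eq_false, false_imp_iff,
    implies_true, and_true]
  simp only [varSet, fam, yy, zz, Finset.mem_insert, Finset.mem_singleton, exists_eq_or_imp,
    exists_eq_left, Set.mem_ofPred_eq, Sum.elim_inl]
  by_cases hw : 1 ≤ e v.w <;> simp [hw]

def vars (m : ℕ) : Vars m (Fin (2 * m + 1)) where
  w := ⟨2 * m, by omega⟩
  a j := ⟨j, by omega⟩
  x j := ⟨m + j, by omega⟩
  ha := fun j k h => by simp only [Fin.mk.injEq] at h; omega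
  hx := fun j k h => by simp only [Fin.mk.injEq] at h; omega
  hax := fun j k h => by simp only [Fin.mk.injEq] at h; omega
  haw := fun j h => by simp only [Fin.mk.injEq] at h; omega
  hxw := fun j h => by simp only [Fin.mk.injEq] at h; omega

theorem exists_bound (π : Par) {g : ℕ → ℕ} (hg : ∀ t, π.T ≤ t → g (t + π.p) = g t) :
    ∃ m, ∀ t, 1 ≤ t → g t ≤ m := by
  refine ⟨(Finset.range (π.T + π.p)).sup g, fun t ht => ?_⟩
  obtain ⟨τ, i, -, h2, rfl, h3⟩ := exists_start π ht
  rw [per π hg (by omega)]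
  exact Finset.le_sup (f := g) (by simpa using h2)

end Pool.Agent.H79.SymF
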