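import Mathlib
import Pool.Agent.H79.SymF
import Pool.Agent.H79.SymDefs
import Pool.Agent.H79.DepthMain

set_option autoImplicit false

namespace Pool.Agent.H79.SymG

open CategoryTheory Abelian RingTheory.Sequence
open MvPolynomial Pool.Agent.H79.PD Pool.Agent.H79.Mono Pool.Agent.H79.SymA Pool.Agent.H79.SymB
open Pool.Agent.H79.SymC Pool.Agent.H79.SymD Pool.Agent.H79.SymE Pool.Agent.H79.Depth
open Pool.Agent.H79.DepthMain Pool.Agent.H79.DepthDefs Pool.Agent.H79.SymDefs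

variable {K : Type} [Field K]

theorem mem_symPow {R : Type} [CommRing R] (I : Ideal R) (t : ℕ) (f : R) :
    f ∈ symPow I t ↔ ∀ P ∈ I.minimalPrimes, ∃ u, u ∉ P ∧ u * f ∈ I ^ t := by
  simp only [symPow, Ideal.mem_iInf, Ideal.mem_comap]
  constructor
  · intro h P hP
    have := hP.1.1
    exact (IsLocalization.algebraMap_mem_map_algebraMap_iff P.primeCompl _ _ _).1 (h ⟨P, this⟩ hP)
  · intro h P hP
    exact (IsLocalization.algebraMap_mem_map_algebraMap_iff P.asIdeal.primeCompl _ _ _).2 (h _ hP)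

section general
variable {σ ι : Type}

theorem star [DecidableEq σ] (τ : ι → Finset σ) (Z : ι) (n : ℕ) (S : Finset ι) :
    (∀ F ∈ S, ∀ G ∈ S, F ≠ G → τ Z ⊆ τ F ∪ τ G) → (τ Z).card + 1 ≤ n →
    (∀ F ∈ S, (τ F).card + 1 ≤ n ∧ (τ F ∪ τ Z).card ≤ n) →
    PdU K {e | e ∈ varSet (τ Z) ∧ ∀ F ∈ S, e ∈ varSet (τ F)} n := by
  classical
  induction S using Finset.induction_on with
  | empty => intro _ h _; simpa using pd_mono h (pdU_varSet (K := K) (τ Z))
  | insert F S hF ih =>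
    intro h1 h2 h3
    have hup : IsUpperSet {e : σ →₀ ℕ | e ∈ varSet (τ Z) ∧ ∀ F ∈ S, e ∈ varSet (τ F)} :=
      fun _ _ hab h => ⟨varSet_upper _ hab h.1, fun F hF => varSet_upper _ hab (h.2 F hF)⟩
    have h4 := h3 F (by simp)
    refine pd_inf _ (MI K (varSet (τ F))) _ (MI K (varSet (τ F ∪ τ Z))) ?_ ?_ n
      (ih (fun G hG G' hG' => h1 G (by simp [hG]) G' (by simp [hG'])) h2
        fun G hG => h3 G (by simp [hG])) (pd_mono h4.1 (pdU_varSet _))
      (pd_mono (by omega) (pdU_varSet _))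
    · rw [← MI_inter hup (varSet_upper _)]
      congr 1; ext e
      simp only [Set.mem_inter_iff, Set.mem_ofPred_eq, Finset.forall_mem_insert]; tauto
    · rw [← MI_union]
      congr 1; ext e
      constructor
      · rintro ⟨j, hj, h⟩
        by_cases h5 : j ∈ τ F
        · exact Or.inr ⟨j, h5, h⟩
        · have h6 : j ∈ τ Z := (Finset.mem_union.1 hj).resolve_left h5
          exact Or.inl ⟨⟨j, h6, h⟩, fun G hG => ⟨j, (Finset.mem_union.1 (h1 F (by simp) G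
            (by simp [hG]) (fun h => hF (h ▸ hG)) h6)).resolve_left h5, h⟩⟩
      · rintro (⟨⟨j, hj, h⟩, -⟩ | ⟨j, hj, h⟩)
        · exact ⟨j, by simp [hj], h⟩
        · exact ⟨j, by simp [hj], h⟩

theorem pw_var (ρ : Finset σ) (k : ℕ) : ∀ e : σ →₀ ℕ, k ≤ ∑ z ∈ ρ, e z → e ∈ pw (varSet ρ) k := by
  classical
  induction k with
  | zero => intro _ _; trivial
  | succ k ih =>
    intro e he
    obtain ⟨z, hz, h⟩ := Finset.exists_ne_zero_of_sum_ne_zero (show ∑ z ∈ ρ, e z ≠ 0 by omega)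
    obtain ⟨r, rfl⟩ := exists_add_of_le (Finsupp.single_le_iff.2 (show 1 ≤ e z by omega))
    refine ⟨_, ⟨z, hz, by simp⟩, r, ih r ?_, rfl⟩
    simp [Finset.sum_add_distrib, Finsupp.single_apply, hz] at he
    omega

theorem pw_avoid' {V A' : Set (σ →₀ ℕ)} {c : σ →₀ ℕ}
    (h : V ⊆ A' ∪ {d | ∃ z, c z = 0 ∧ 1 ≤ d z}) {t : ℕ} (hc : c ∈ pw V t) : c ∈ pw A' t :=
  pw_avoid (B := {d | ∃ z, c z = 0 ∧ 1 ≤ d z}) t
    (fun d r hd ⟨z, h1, h2⟩ => by rw [hd, Finsupp.add_apply] at h1; omega) (pw_mono h t hc)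

theorem exists_max {U : Set (σ →₀ ℕ)} (τ : Finset σ) (N : ℕ) {c : σ →₀ ℕ} (hc : c ∉ U)
    (h : ∀ e, c ≤ e → ∀ j ∈ τ, N ≤ e j → e ∈ U) :
    ∃ c', c' ∉ U ∧ ∀ j ∈ τ, c' + Finsupp.single j 1 ∈ U := by
  classical
  by_contra H
  push Not at H
  have key : ∀ k, ∃ c', c ≤ c' ∧ c' ∉ U ∧ k ≤ ∑ z ∈ τ, c' z := by
    intro k
    induction k with
    | zero => exact ⟨c, le_rfl, hc, Nat.zero_le _⟩
    | succ k ih =>
      obtain ⟨c', h1, h2, h3⟩ := ih
      obtain ⟨j, hj, h4⟩ := H c' h2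
      exact ⟨_, h1.trans le_self_add, h4, by
        simp [Finset.sum_add_distrib, Finsupp.single_apply, hj]; omega⟩
  obtain ⟨c', h1, h2, h3⟩ := key (τ.card * N + 1)
  have := Finset.sum_le_card_nsmul τ (fun z => c' z) N fun j hj => by
    by_contra h4; exact h2 (h c' h1 j hj (by omega))
  rw [smul_eq_mul] at this; omega

/-- a subfamily -/
def sub (𝓕 : Fam ι σ) (p : ι → Prop) : Fam {F // p F} σ :=
  ⟨fun F => 𝓕.τ F, fun F => 𝓕.V F, 𝓕.N, fun F => 𝓕.up F, fun F => 𝓕.dep F, fun F => 𝓕.pure F,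
    fun F => 𝓕.zero F, fun F G h => Subtype.ext (𝓕.inc F G h)⟩

theorem pd_sub [Fintype σ] (𝓕 : Fam ι σ) (p : ι → Prop) (t n : ℕ)
    (h : ∀ c, PdU K {e | ∀ F, p F ∧ c ∉ pw (𝓕.V F) t → e ∈ varSet (𝓕.τ F)} n) :
    PdU K {e | ∀ F, p F → e ∈ pw (𝓕.V F) t} n := by
  have := (sub 𝓕 p).pd_upper (K := K) t n fun c => by
    simpa only [sub, Subtype.forall, and_imp] using h c
  simpa only [sub, Fam.W, Subtype.forall] using this

end general

theorem len_le {n : ℕ} {V : Set (Fin n →₀ ℕ)} (hV : IsUpperSet V) (m : Fin n →₀ ℕ)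
    (τ : Finset (Fin n)) (hm : m ∉ V) (h2 : ∀ j ∈ τ, m + Finsupp.single j 1 ∈ V) :
    MI K V ≤ mm K n ∧ ∀ rs : List (MvPolynomial (Fin n) K), (∀ r ∈ rs, r ∈ mm K n) →
      IsRegular (MvPolynomial (Fin n) K ⧸ MI K V) rs → τ.card + rs.length ≤ n := by
  have hann : ∀ r : MvPolynomial (Fin n) K, r * monomial m 1 ∈ MI K V → r ∈ mm K n := by
    intro r hr
    rw [mem_vars_iff]
    by_contra h0
    rw [mem_MI hV] at hr
    apply hm
    apply hr
    have := coeff_mul_monomial 0 m (1 : K) r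
    rw [zero_add, mul_one] at this
    rw [mem_support_iff, this]
    exact h0
  refine ⟨fun r hr => hann r (Ideal.mul_mem_right _ _ hr), fun rs h3 h4 => ?_⟩
  have hb := bound (MI K V) (Ideal.span (X '' (τ : Set (Fin n)))) (monomial m 1) ?_ hann rs h3 h4
  · have h5 := card_le_height (K := K) τ
    have h6 : (τ.card : ℕ∞) + rs.length ≤ n := le_trans (by gcongr) hb
    exact_mod_cast h6
  · intro r hr
    refine Submodule.span_induction ?_ ?_ ?_ ?_ hr
    · rintro _ ⟨j, hj, rfl⟩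
      rw [mul_comm, X, monomial_mul, mul_one, monomial_mem_MI hV]
      exact h2 j hj
    · simp
    · intro a b _ _ ha hb
      rw [add_mul]; exact Ideal.add_mem _ ha hb
    · intro a b _ hb
      rw [smul_eq_mul, mul_assoc]; exact Ideal.mul_mem_left _ _ hb

theorem depth_mv {n : ℕ} {V1 V2 : Set (Fin n →₀ ℕ)} (h1 : IsUpperSet V1) (h2 : IsUpperSet V2)
    (δ : ℕ) (hδ : δ ≤ n) (p1 : PdU K V1 (n - δ + 1)) (p2 : PdU K V2 (n - δ + 1))
    (p3 : PdU K (V1 ∩ V2) (n - δ + 1)) (m : Fin n →₀ ℕ) (τ : Finset (Fin n))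
    (hm : m ∉ V1 ∪ V2) (h3 : ∀ j ∈ τ, m + Finsupp.single j 1 ∈ V1 ∪ V2) (hτ : n < τ.card + δ) :
    HasDepth (MI K (V1 ∩ V2)) δ := by
  obtain ⟨h4, h5⟩ := len_le (K := K) (h1.union h2) m τ hm h3
  have hm' : mm K n ≠ ⊤ := Ideal.IsMaximal.ne_top inferInstance
  constructor
  · exact exists_regular _ _ hm' ((MI_mono (Set.inter_subset_left.trans
      Set.subset_union_left)).trans h4) δ fun i hi => ext_vars_of_pd n _ _ p3 i (by omega)
  · rintro l ⟨rs, h6, h7, rfl⟩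
    by_contra h8
    obtain ⟨rs', h9, h10, h11⟩ := exists_regular _ _ hm' h4 δ fun i hi =>
      ext_sup _ _ _ _ _ (MI_inter h1 h2) (MI_union _ _) i (ext_vars_of_pd n _ _ p1 i (by omega))
        (ext_vars_of_pd n _ _ p2 i (by omega))
        (ext_of_weaklyRegular _ (ModuleCat.of _ (MvPolynomial (Fin n) K ⧸ MI K (V1 ∩ V2))) rs
          (fun r hr => by
            change r ∈ Module.annihilator (MvPolynomial (Fin n) K) (MvPolynomial (Fin n) K ⧸ _)
            rw [Ideal.annihilator_quotient]; exact h6 r hr) h7.toIsWeaklyRegular (i + 1) (by omega))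
    have := h5 rs' h9 h10
    omega

end Pool.Agent.H79.SymG
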