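import Mathlib
import Pool.Agent.H79.SymG

set_option autoImplicit false

namespace Pool.Agent.H79.SymH

open MvPolynomial Pool.Agent.H79.PD Pool.Agent.H79.Mono Pool.Agent.H79.SymA Pool.Agent.H79.SymB
open Pool.Agent.H79.SymC Pool.Agent.H79.SymD Pool.Agent.H79.SymE Pool.Agent.H79.SymG
open Pool.Agent.H79.DepthDefs

variable {K : Type} [Field K] {n d : ℕ} (v : Fin 5 × Fin (d + 1) ≃ Fin n) (π : Par) (φ : ℕ → ℕ)

abbrev Idx (d : ℕ) : Type := Option (Option (Fin (d + 1)))

/-- the variables of the prime attached to an index -/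
def PP : Idx d → Fin 5 × Fin (d + 1) → Prop
  | none, z => 2 ≤ z.1
  | some none, z => z.1 = 1 ∨ 3 ≤ z.1
  | some (some r), z => (z.1 = 0 ∧ r ≤ z.2) ∨ z.1 = 2 ∨ (z.1 = 3 ∧ z.2 ≠ r) ∨ z.1 = 4

open Classical in
noncomputable def tau (F : Idx d) : Finset (Fin n) := Finset.univ.filter fun y => PP F (v.symm y)

theorem mem_tau (F : Idx d) (z : Fin 5 × Fin (d + 1)) : v z ∈ tau v F ↔ PP F z := by simp [tau]

noncomputable def rho (r : Fin (d + 1)) : Finset (Fin n) :=
  ((tau v (some (some r))).erase (v (2, r))).erase (v (4, r))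

theorem mem_rho (r : Fin (d + 1)) (z : Fin 5 × Fin (d + 1)) :
    v z ∈ rho v r ↔ z ≠ (4, r) ∧ z ≠ (2, r) ∧ PP (some (some r)) z := by simp [rho, mem_tau]

def Bad (r : Fin (d + 1)) (τ : ℕ) : Prop := φ τ ≠ r.1 + 1

def VV : Idx d → Set (Fin n →₀ ℕ)
  | none => {e | ∃ r, (e (v (2, r)), e (v (3, r)), e (v (4, r))) ∈ M π}
  | some none => {e | (∃ r, (e (v (3, r)), e (v (4, r))) ∈ A π (Bad φ r)) ∨ ∃ r, 1 ≤ e (v (1, r))}
  | some (some r) => f2 (v (2, r)) (v (4, r)) ⁻¹' A π (Bad φ r) ∪ varSet (rho v r)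

noncomputable def fam : Fam (Idx d) (Fin n) where
  τ := tau v
  V := VV v π φ
  N := 2 * π.D + 3
  up := by
    rintro (_ | _ | r) a b hab h
    · obtain ⟨r, h⟩ := h
      exact ⟨r, M_upper π (show (_, _, _) ≤ (_, _, _) from ⟨hab _, hab _, hab _⟩) h⟩
    · rcases h with ⟨r, h⟩ | ⟨r, h⟩
      · exact Or.inl ⟨r, A_upper π _ (show (_, _) ≤ (_, _) from ⟨hab _, hab _⟩) h⟩
      · exact Or.inr ⟨r, h.trans (hab _)⟩
    · exact h.imp (A_upper π _ (show f2 _ _ a ≤ f2 _ _ b from ⟨hab _, hab _⟩)) (varSet_upper _ hab)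
  dep := by
    intro F a b hab h
    have h1 : ∀ z, PP F z → a (v z) = b (v z) := fun z hz => hab _ ((mem_tau v F z).2 hz)
    rcases F with _ | _ | r
    · obtain ⟨r, h⟩ := h
      exact ⟨r, by rwa [← h1, ← h1, ← h1] <;> simp [PP]⟩
    · rcases h with ⟨r, h⟩ | ⟨r, h⟩
      · exact Or.inl ⟨r, by rwa [← h1, ← h1] <;> simp [PP]⟩
      · exact Or.inr ⟨r, by rwa [← h1]; simp [PP]⟩
    · rcases h with h | ⟨j, hj, h⟩
      · left
        rw [Set.mem_preimage, f2_apply] at h ⊢
        rwa [← h1, ← h1] <;> simp [PP]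
      · exact Or.inr ⟨j, hj, by
          rwa [← hab j (Finset.mem_of_mem_erase (Finset.mem_of_mem_erase hj))]⟩
  pure := by
    intro F i hi
    obtain ⟨⟨k, s⟩, rfl⟩ := v.surjective i
    rw [mem_tau] at hi
    rcases F with _ | _ | r
    · refine ⟨s, Or.inl ?_⟩
      fin_cases k <;> simp [PP] at hi ⊢
      all_goals omega
    · fin_cases k <;> simp only [PP] at hi
      · simp at hi
      · exact Or.inr ⟨s, by simp⟩
      · simp at hi
      · exact Or.inl ⟨s, Or.inl (by simp; omega)⟩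
      · exact Or.inl ⟨s, Or.inl (by simp; omega)⟩
    · by_cases h1 : (k, s) = (4, r)
      · exact Or.inl (Or.inl (by simp [h1]; omega))
      by_cases h2 : (k, s) = (2, r)
      · exact Or.inl (Or.inl (by simp [h2]; omega))
      exact Or.inr ⟨_, (mem_rho v r _).2 ⟨h1, h2, hi⟩, by simp⟩
  zero := by
    have := u_le π
    rintro (_ | _ | r) h
    · obtain ⟨r, h⟩ := h
      have := M_deg π h; simp at this; omega
    · rcases h with ⟨r, h⟩ | ⟨r, h⟩
      · have := A_deg π h; simp at this; omega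
      · simp at h
    · rcases h with h | ⟨j, hj, h⟩
      · have := A_deg π h; simp at this; omega
      · simp at h
  inc := by
    intro F G h
    have h1 : ∀ z, PP F z → PP G z := fun z hz => (mem_tau v G z).1 (h ((mem_tau v F z).2 hz))
    rcases F with _ | _ | r <;> rcases G with _ | _ | s
    · rfl
    · simpa [PP] using h1 (2, 0)
    · simpa [PP] using h1 (3, s)
    · simpa [PP] using h1 (1, 0)
    · rfl
    · simpa [PP] using h1 (1, 0)
    · simpa [PP] using h1 (0, r)
    · simpa [PP] using h1 (2, 0)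
    · simpa [PP, eq_comm] using h1 (3, s)

theorem decomp (r : Fin (d + 1)) (t : ℕ) : ∀ c ∈ pw (VV v π φ none) t, ∃ t' k, t' + k = t ∧
    (c (v (2, r)), c (v (3, r)), c (v (4, r))) ∈ pw (M π) t' ∧ π.D * k ≤ ∑ z ∈ rho v r, c z := by
  induction t with
  | zero => exact fun c _ => ⟨0, 0, rfl, trivial, by simp⟩
  | succ t ih =>
    rintro _ ⟨a, ⟨s, ha⟩, b, hb, rfl⟩
    obtain ⟨t', k, rfl, h1, h2⟩ := ih b hb
    simp only [Finsupp.add_apply, Finset.sum_add_distrib]
    by_cases hs : s = r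
    · subst hs
      exact ⟨t' + 1, k, by omega, ⟨_, ha, _, h1, rfl⟩, by omega⟩
    · refine ⟨t', k + 1, by omega, pw_of_le (show (_, _, _) ≤ (_, _, _) from
        ⟨le_add_self, le_add_self, le_add_self⟩) h1, ?_⟩
      have h3 := M_deg π ha
      have h4 : ∑ z ∈ {v (2, s), v (3, s), v (4, s)}, a z ≤ ∑ z ∈ rho v r, a z :=
        Finset.sum_le_sum_of_subset (by simp [Finset.insert_subset_iff, mem_rho, PP, hs])
      rw [Finset.sum_insert (by simp), Finset.sum_pair (by simp)] at h4
      simp only at h3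
      rw [mul_add]; omega

theorem mem_E (r : Fin (d + 1)) {t k : ℕ} {c : Fin n →₀ ℕ}
    (h1 : (c (v (2, r)), c (v (4, r))) ∈ pw (A π (Bad φ r)) t) (h2 : k ≤ ∑ z ∈ rho v r, c z) :
    c ∈ pw (VV v π φ (some (some r))) (k + t) := by
  classical
  rw [← Finsupp.filter_add_filter_not c (· ∈ rho v r)]
  refine pw_add _ _ (pw_mono Set.subset_union_left _ ((pw_f2 (by simp) _ _ _).2 ?_))
    (pw_mono Set.subset_union_right _ (pw_var _ _ _ ?_))
  · simpa [Finsupp.filter_apply, mem_rho] using h1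
  · rwa [Finset.sum_congr rfl fun z hz => Finsupp.filter_apply_pos _ c hz]

theorem mem_E0 (r : Fin (d + 1)) {t : ℕ} {c : Fin n →₀ ℕ}
    (h1 : (c (v (3, r)), c (v (4, r))) ∈ pw (A π (Bad φ r)) t) :
    c ∈ pw (VV v π φ (some none)) t :=
  pw_mono (V := f2 (v (3, r)) (v (4, r)) ⁻¹' A π (Bad φ r)) (fun _ h => Or.inl ⟨r, h⟩) _
    ((pw_f2 (by simp) _ _ _).2 h1)

theorem cross (hg : ∀ t, π.T ≤ t → φ (t + π.p) = φ t) {t : ℕ} {c : Fin n →₀ ℕ} (r : Fin (d + 1))
    (h0 : c ∈ pw (VV v π φ none) t) (h1 : c ∉ pw (VV v π φ (some none)) t)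
    (h2 : c ∉ pw (VV v π φ (some (some r))) t) : φ t = r.1 + 1 := by
  obtain ⟨t', k, rfl, h3, h4⟩ := decomp v π φ r _ c h0
  have h5 := A1' π fun h => h1 (mem_E0 v π φ r h)
  rcases Nat.eq_zero_or_pos k with rfl | hk
  · obtain ⟨-, τ, h6, h7⟩ := config π hg h3
      (fun h => h2 (by simpa using mem_E v π φ r h (Nat.zero_le _))) h5
    rw [add_zero, h7]; exact not_not.1 h6
  · exfalso
    have h6 := M0 π h3
    have h7 : 3 * k ≤ π.D * k := Nat.mul_le_mul_right _ (by have := u_le π; omega)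
    refine h2 (pw_anti (show t' + k ≤ 3 * k + (t' - 2 * k) by omega) (mem_E v π φ r ?_ (by omega)))
    by_contra h8
    have h9 := A1' π h8
    rcases le_total t' (2 * k) with h10 | h10
    · rw [Nat.sub_eq_zero_of_le h10] at h8; exact h8 trivial
    · obtain ⟨s, rfl⟩ := Nat.exists_eq_add_of_le h10
      rw [Nat.add_sub_cancel_left] at h9
      simp only [mul_add, mul_left_comm π.D 2 k] at h5 h6
      omega

theorem card_le (τ : Finset (Fin n)) (k : Fin 5) (δ : ℕ) (hδ : δ ≤ d + 1)
    (h : ∀ s : Fin (d + 1), s.1 < δ → v (k, s) ∉ τ) : τ.card + δ ≤ n := by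
  have h1 : (Finset.univ.filter fun s : Fin (d + 1) => s.1 < δ).card ≤ τᶜ.card :=
    Finset.card_le_card_of_injOn (fun s => v (k, s)) (fun s hs => by simpa using h s (by simpa using hs))
      fun a _ b _ hab => by simpa using hab
  rw [Fin.card_filter_val_lt, Finset.card_compl, Fintype.card_fin] at h1
  have := Finset.card_le_univ τ
  rw [Fintype.card_fin] at this
  omega

theorem star_app (p : Idx d → Prop) (δ : ℕ) (hδ : δ ≤ d + 1)
    (h : ¬ p none → p (some none) → ∀ r, p (some (some r)) → δ ≤ r.1 + 1) :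
    PdU K {e | ∀ F, p F → e ∈ varSet (tau v F)} (n - δ + 1) := by
  classical
  have h0 : ∀ F, (tau v F).card + δ ≤ n := by
    rintro (_ | _ | r)
    · exact card_le v _ 0 δ hδ fun s _ => by simp [mem_tau, PP]
    · exact card_le v _ 0 δ hδ fun s _ => by simp [mem_tau, PP]
    · exact card_le v _ 1 δ hδ fun s _ => by simp [mem_tau, PP]
  have key : ∀ Z, p Z → (∀ F G, p F → p G → F ≠ Z → G ≠ Z → F ≠ G →
      ∀ z, PP Z z → PP F z ∨ PP G z) →
      (∀ F, p F → (tau v F ∪ tau v Z).card + (δ - 1) ≤ n) →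
      PdU K {e | ∀ F, p F → e ∈ varSet (tau v F)} (n - δ + 1) := by
    intro Z hZ h1 h2
    have h3 := star (K := K) (tau v) Z (n - δ + 1) ((Finset.univ.filter p).erase Z)
      (fun F hF G hG hFG y hy => by
        obtain ⟨z, rfl⟩ := v.surjective y
        simp only [Finset.mem_erase, Finset.mem_filter, Finset.mem_univ, true_and] at hF hG
        simpa only [Finset.mem_union, mem_tau] using
          h1 F G hF.2 hG.2 hF.1 hG.1 hFG z ((mem_tau v Z z).1 hy))
      (by have := h0 Z; omega) fun F hF => by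
        simp only [Finset.mem_erase, Finset.mem_filter, Finset.mem_univ, true_and] at hF
        have := h0 F
        have := h2 F hF.2
        omega
    rwa [show {e | e ∈ varSet (tau v Z) ∧ ∀ F ∈ (Finset.univ.filter p).erase Z,
      e ∈ varSet (tau v F)} = {e | ∀ F, p F → e ∈ varSet (tau v F)} from Set.ext fun e =>
        ⟨fun h F hF => if h4 : F = Z then h4 ▸ h.1 else h.2 F (by simp [h4, hF]),
          fun h => ⟨h Z hZ, fun F hF => h F (by simpa using Finset.mem_of_mem_erase hF)⟩⟩] at h3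
  by_cases c1 : p none
  · refine key none c1 ?_ ?_
    · rintro (_ | _ | r) (_ | _ | s) - - h1 h2 h3 ⟨k, q⟩ hz <;>
        simp only [PP, ne_eq, Option.some.injEq, not_true_eq_false] at h1 h2 h3 hz ⊢ <;> omega
    · rintro (_ | _ | r) -
      · exact card_le v _ 0 _ (by omega) fun s _ => by simp [mem_tau, PP]
      · exact card_le v _ 0 _ (by omega) fun s _ => by simp [mem_tau, PP]
      · exact card_le v _ 1 _ (by omega) fun s _ => by simp [mem_tau, PP]
  by_cases c2 : ∃ r, p (some (some r))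
  · obtain ⟨r, hr, hmax⟩ := (Finset.univ.filter fun r => p (some (some r))).exists_max_image id
      (by obtain ⟨r, hr⟩ := c2; exact ⟨r, by simpa using hr⟩)
    simp only [Finset.mem_filter, Finset.mem_univ, true_and, id] at hr hmax
    refine key _ hr ?_ ?_
    · rintro (_ | _ | s) (_ | _ | s') g1 g2 h1 h2 h3 ⟨k, q⟩ hz
      any_goals contradiction
      · have := hmax _ g2
        simp only [PP] at hz ⊢; omega
      · have := hmax _ g1
        simp only [PP] at hz ⊢; omega
      · have := hmax _ g1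
        simp only [PP, ne_eq, Option.some.injEq] at hz h3 ⊢; omega
    · rintro (_ | _ | s) hF
      · contradiction
      · have := h c1 hF r hr
        exact card_le v _ 0 _ (by omega) fun s hs => by simp [mem_tau, PP]; omega
      · exact card_le v _ 1 _ (by omega) fun s _ => by simp [mem_tau, PP]
  by_cases c3 : p (some none)
  · refine key _ c3 ?_ ?_
    · rintro (_ | _ | s) G g1 g2 h1
      · contradiction
      · contradiction
      · exact absurd ⟨s, g1⟩ c2
    · rintro (_ | _ | s) hF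
      · contradiction
      · exact card_le v _ 0 _ (by omega) fun s hs => by simp [mem_tau, PP]
      · exact absurd ⟨s, hF⟩ c2
  · refine pdU_univ ?_ _
    rintro (_ | _ | s) hF
    · contradiction
    · contradiction
    · exact absurd ⟨s, hF⟩ c2

theorem depth (hg : ∀ t, π.T ≤ t → φ (t + π.p) = φ t) (t : ℕ) (h0 : 1 ≤ t) (h1 : 1 ≤ φ t)
    (h2 : φ t ≤ d + 1) : HasDepth (MI K ((fam v π φ).W t)) (φ t) := by
  classical
  obtain ⟨α, γ, τ, h3, h4, h5, h6⟩ := exists_config π hg h0
  let r : Fin (d + 1) := ⟨φ t - 1, by omega⟩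
  have hr : r.1 + 1 = φ t := by simp only [r]; omega
  have h7 := h6 (Bad φ r) (by rw [Bad, not_not, ← h3, hr])
  let c : Fin n →₀ ℕ := Finsupp.single (v (2, r)) α + Finsupp.single (v (3, r)) α +
    Finsupp.single (v (4, r)) γ
  have c2 : c (v (2, r)) = α := by simp [c]
  have c3 : c (v (3, r)) = α := by simp [c]
  have c4 : c (v (4, r)) = γ := by simp [c]
  have c0 : ∀ z, z ≠ (2, r) → z ≠ (3, r) → z ≠ (4, r) → c (v z) = 0 := fun z g1 g2 g3 => by
    simp [c, g1, g2, g3]
  have hD := u_le π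
  have n1 : c ∉ pw (VV v π φ (some none)) t := fun h => h7 (by
    have := (pw_f2 (y := v (3, r)) (w := v (4, r)) (by simp) (A π (Bad φ r)) t c).1
      (pw_avoid' (by
        rintro e (⟨s, hs⟩ | ⟨s, hs⟩)
        · by_cases hsr : s = r
          · exact Or.inl (hsr ▸ hs)
          · have := A_deg π hs
            by_cases g : 1 ≤ e (v (3, s))
            · exact Or.inr ⟨_, c0 _ (by simp) (by simp [hsr]) (by simp), g⟩
            · exact Or.inr ⟨v (4, s), c0 _ (by simp) (by simp) (by simp [hsr]), by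
                simp only at this; omega⟩
        · exact Or.inr ⟨_, c0 _ (by simp) (by simp) (by simp), hs⟩) h)
    rwa [c3, c4] at this)
  have n2 : c ∉ pw (VV v π φ (some (some r))) t := fun h => h7 (by
    have := (pw_f2 (y := v (2, r)) (w := v (4, r)) (by simp) (A π (Bad φ r)) t c).1
      (pw_avoid' (by
        rintro e (hs | ⟨y, hy, hs⟩)
        · exact Or.inl hs
        · obtain ⟨z, rfl⟩ := v.surjective y
          rw [mem_rho] at hy
          exact Or.inr ⟨_, c0 _ hy.2.1 (by rintro rfl; simp [PP] at hy) hy.1, hs⟩) h)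
    rwa [c2, c4] at this)
  have m1 : ∀ F, F ≠ some none → F ≠ some (some r) → c ∈ pw (VV v π φ F) t := by
    rintro (_ | _ | s) g1 g2
    · exact pw_mono (V := f3 (v (2, r)) (v (3, r)) (v (4, r)) ⁻¹' M π) (W := VV v π φ none)
        (fun _ h => ⟨r, h⟩) _
        ((pw_f3 (by simp) (by simp) (by simp) _ _ _).2 (by rwa [c2, c3, c4]))
    · contradiction
    · refine mem_E v π φ s (t := 0) trivial (h4.trans (c2 ▸ Finset.single_le_sum
        (f := fun z => c z) (fun _ _ => Nat.zero_le _) ?_))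
      simp only [ne_eq, Option.some.injEq] at g2
      simp [mem_rho, PP, Ne.symm g2]
  let V1 := {e | ∀ F, F = some none → e ∈ pw ((fam v π φ).V F) t}
  let V2 := {e | ∀ F, F ≠ some none → e ∈ pw ((fam v π φ).V F) t}
  have hW : (fam v π φ).W t = V1 ∩ V2 := Set.ext fun e =>
    ⟨fun h => ⟨fun F _ => h F, fun F _ => h F⟩, fun h F => (em _).elim (h.1 F) (h.2 F)⟩
  obtain ⟨c', g1, g2⟩ := exists_max (U := V1 ∪ V2) (tau v (some none) ∪ tau v (some (some r)))
    (t * (fam v π φ).N) (c := c)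
    (fun h => h.elim (fun h => n1 (h _ rfl)) fun h => n2 (h (some (some r)) (by simp)))
    (fun e he j hj hN => by
      rcases Finset.mem_union.1 hj with hj | hj
      · exact Or.inl fun F hF => (fam v π φ).big t F j (hF ▸ hj) e hN
      · refine Or.inr fun F hF => ?_
        by_cases g : F = some (some r)
        · exact (fam v π φ).big t F j (g ▸ hj) e hN
        · exact pw_upper _ t he (m1 F hF g))
  have hn : φ t ≤ n := by have := card_le v ∅ 0 _ h2 (by simp); omega
  have p3 : PdU K ((fam v π φ).W t) (n - φ t + 1) := (fam v π φ).pd_upper t _ fun c =>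
    star_app v _ _ h2 fun g1 g2 s g3 => (cross v π φ hg s (not_not.1 g1) g2 g3).le
  rw [hW] at p3 ⊢
  refine depth_mv (V1 := V1) (V2 := V2) (fun _ _ hab h F hF => pw_upper _ t hab (h F hF))
    (fun _ _ hab h F hF => pw_upper _ t hab (h F hF)) _ hn
    (pd_sub _ _ t _ fun c => star_app v _ _ h2 fun _ _ s g => by simp at g)
    (pd_sub _ _ t _ fun c => star_app v _ _ h2 fun _ g => by simp at g) p3 c' _ g1 g2 ?_
  have h8 : (tau v (some none) ∪ tau v (some (some r)))ᶜ.card ≤
      (Finset.univ.filter fun s : Fin (d + 1) => s.1 < r.1).card := by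
    refine Finset.card_le_card_of_surjOn (fun s => v (0, s)) fun y hy => ?_
    obtain ⟨⟨k, s⟩, rfl⟩ := v.surjective y
    simp only [Finset.coe_compl, Finset.coe_union, Set.mem_compl_iff, Set.mem_union,
      Finset.mem_coe, mem_tau, PP] at hy
    obtain rfl : k = 0 := by omega
    exact ⟨s, by simp; omega, rfl⟩
  rw [Fin.card_filter_val_lt, Finset.card_compl, Fintype.card_fin] at h8
  omega

end Pool.Agent.H79.SymH
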