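import Mathlib
import Pool.Agent.H79.Hensel
import Pool.Agent.H79.TPData

set_option autoImplicit false

namespace Pool.Agent.H79.TP
open Pool.Agent.H79.Hensel

def mons (d : ℕ) : List (ℕ × ℕ) :=
  (List.range (d + 1)).flatMap fun i => (List.range (d + 1 - i)).map fun j => (i, j)

def ch (i : ℕ) : ℕ → ℕ
  | 0 => 1
  | 1 => i
  | _ => i * (i - 1) / 2

def uu (q : ℕ) : ℕ := [0, 1, 0, 2, 1, 0].getD (q % 6) 0
def vv (q : ℕ) : ℕ := [0, 0, 1, 0, 1, 2].getD (q % 6) 0

def tA (x y u v : ℕ) (m : ℕ × ℕ) : ℕ := ch m.1 u * ch m.2 v * x ^ (m.1 - u) * y ^ (m.2 - v)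
def tX (x y u v : ℕ) (m : ℕ × ℕ) : ℕ :=
  ch m.1 u * ch m.2 v * ((m.1 - u) * x ^ (m.1 - u - 1)) * y ^ (m.2 - v)
def tY (x y u v : ℕ) (m : ℕ × ℕ) : ℕ :=
  ch m.1 u * ch m.2 v * x ^ (m.1 - u) * ((m.2 - v) * y ^ (m.2 - v - 1))

def chk (q x y u v rx ry : ℕ) : Bool :=
  rowOK (2 ^ 20) 41 1 q 330 0 (dot ((mons 20).map fun m => tA x y u v m % 41) Rc
    + dot cL ((mons 20).map (tX x y u v)) % 41 * rx
    + dot cL ((mons 20).map (tY x y u v)) % 41 * ry) &&
  Nat.beq (dot cL ((mons 20).map (tA x y u v)) % 1681) 0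

def chkq (q : ℕ) : Bool :=
  chk q (xL.getD (q / 6) 0) (yL.getD (q / 6) 0) (uu q) (vv q) (Rx.getD (q / 6) 0)
    (Ry.getD (q / 6) 0)

def chkE (k : ℕ) : Bool :=
  rowOK (2 ^ 28) 1681 41 k 55 0
    (dot ((mons 9).map fun m => xL.getD k 0 ^ m.1 * yL.getD k 0 ^ m.2 % 1681) NL)

theorem smallR : (Rc ++ Rx ++ Ry).all (small (2 ^ 20) 41 330) = true := by decide +kernel

theorem smallN : NL.all (small (2 ^ 28) 1681 55) = true := by decide +kernel

theorem chkE_all : (List.range 55).all chkE = true := by decide +kernel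

theorem chk_0 : (List.range' 0 30).all chkq = true := by decide +kernel

theorem chk_1 : (List.range' 30 30).all chkq = true := by decide +kernel

theorem chk_2 : (List.range' 60 30).all chkq = true := by decide +kernel

theorem chk_3 : (List.range' 90 30).all chkq = true := by decide +kernel

theorem chk_4 : (List.range' 120 30).all chkq = true := by decide +kernel

theorem chk_5 : (List.range' 150 30).all chkq = true := by decide +kernel

theorem chk_6 : (List.range' 180 30).all chkq = true := by decide +kernel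

theorem chk_7 : (List.range' 210 30).all chkq = true := by decide +kernel

theorem chk_8 : (List.range' 240 30).all chkq = true := by decide +kernel

theorem chk_9 : (List.range' 270 30).all chkq = true := by decide +kernel

theorem chk_10 : (List.range' 300 30).all chkq = true := by decide +kernel

theorem chk_all (q : ℕ) (hq : q < 330) : chkq q = true := by
  have key : ∀ a, (List.range' a 30).all chkq = true → a ≤ q → q < a + 30 → chkq q = true :=
    fun a h h1 h2 => List.all_eq_true.1 h q (List.mem_range'_1.2 ⟨h1, h2⟩)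
  by_cases h0 : q < 30
  · exact key 0 chk_0 (by omega) (by omega)
  by_cases h1 : q < 60
  · exact key 30 chk_1 (by omega) (by omega)
  by_cases h2 : q < 90
  · exact key 60 chk_2 (by omega) (by omega)
  by_cases h3 : q < 120
  · exact key 90 chk_3 (by omega) (by omega)
  by_cases h4 : q < 150
  · exact key 120 chk_4 (by omega) (by omega)
  by_cases h5 : q < 180
  · exact key 150 chk_5 (by omega) (by omega)
  by_cases h6 : q < 210
  · exact key 180 chk_6 (by omega) (by omega)
  by_cases h7 : q < 240
  · exact key 210 chk_7 (by omega) (by omega)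
  by_cases h8 : q < 270
  · exact key 240 chk_8 (by omega) (by omega)
  by_cases h9 : q < 300
  · exact key 270 chk_9 (by omega) (by omega)
  by_cases h10 : q < 330
  · exact key 300 chk_10 (by omega) (by omega)
  omega

end Pool.Agent.H79.TP
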