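import Mathlib
import Pool.Agent.H79.TPCheck
import Pool.Agent.H79.CBCube

set_option autoImplicit false

namespace Pool.Agent.H79.TP
open Pool.Agent.H79.Hensel MvPolynomial Finset

instance : Fact (Nat.Prime 41) := ⟨by norm_num⟩

abbrev A : Type := ℤ_[41]
abbrev V : Type := Fin 231 ⊕ Fin 55 ⊕ Fin 55

instance : IsAdicComplete (Ideal.span {((41 : ℕ) : A)}) A := by
  rw [← PadicInt.maximalIdeal_eq_span_p]; infer_instance

def mon (d m : ℕ) : ℕ × ℕ := (mons d).getD m (0, 0)

theorem getD_map (d : ℕ) (f : ℕ × ℕ → ℕ) (m : ℕ) (h : m < (mons d).length) :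
    ((mons d).map f).getD m 0 = f (mon d m) := by
  simp [mon, List.getD_eq_getElem?_getD, h]

theorem len20 : (mons 20).length = 231 := by decide +kernel
theorem len9 : (mons 9).length = 55 := by decide +kernel

theorem dot_c (f : ℕ × ℕ → ℕ) :
    dot cL ((mons 20).map f) = ∑ m : Fin 231, cL.getD m 0 * f (mon 20 m) := by
  rw [dot_eq _ _ 231 (by decide +kernel), Finset.sum_range]
  exact sum_congr rfl fun m _ => by rw [getD_map _ _ _ (by rw [len20]; exact m.2)]

def kk (q : Fin 330) : Fin 55 := ⟨q / 6, by omega⟩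

noncomputable def Φ (q : Fin 330) : MvPolynomial V A :=
  ∑ m : Fin 231, X (Sum.inl m) * C ((ch (mon 20 m).1 (uu q) * ch (mon 20 m).2 (vv q) : ℕ) : A) *
    X (Sum.inr (Sum.inl (kk q))) ^ ((mon 20 m).1 - uu q) *
    X (Sum.inr (Sum.inr (kk q))) ^ ((mon 20 m).2 - vv q)

def x0 : V → ℕ := Sum.elim (fun m => cL.getD m 0)
  (Sum.elim (fun k => xL.getD k 0) (fun k => yL.getD k 0))

noncomputable def x1 (v : V) : A := (x0 v : A)

def Rz : V → ℕ := Sum.elim (fun m => Rc.getD m 0)
  (Sum.elim (fun k => Rx.getD k 0) (fun k => Ry.getD k 0))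

def J1 (q : Fin 330) : V → ℕ :=
  Sum.elim (fun m => tA (xL.getD (kk q) 0) (yL.getD (kk q) 0) (uu q) (vv q) (mon 20 m))
    (Sum.elim (fun k => if k = kk q then
        dot cL ((mons 20).map (tX (xL.getD (kk q) 0) (yL.getD (kk q) 0) (uu q) (vv q))) else 0)
      (fun k => if k = kk q then
        dot cL ((mons 20).map (tY (xL.getD (kk q) 0) (yL.getD (kk q) 0) (uu q) (vv q))) else 0))

theorem pderiv_Φ (q : Fin 330) (v : V) : eval x1 (pderiv v (Φ q)) = (J1 q v : A) := by
  unfold Φ
  rw [map_sum, map_sum]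
  rcases v with m | k | k
  · rw [Finset.sum_eq_single m]
    · simp [Derivation.leibniz, Derivation.leibniz_pow, pderiv_X, J1, tA, x1, x0]; ring
    · intro m' _ hm
      simp [Derivation.leibniz, Derivation.leibniz_pow, pderiv_X, hm]
    · simp
  · by_cases hk : k = kk q
    · subst hk
      simp only [J1, Sum.elim_inr, Sum.elim_inl, if_true, dot_c, Nat.cast_sum]
      refine sum_congr rfl fun m _ => ?_
      simp [Derivation.leibniz, Derivation.leibniz_pow, pderiv_X, tX, x1, x0]; ring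
    · simp [Derivation.leibniz, Derivation.leibniz_pow, pderiv_X, J1, hk, Ne.symm hk]
  · by_cases hk : k = kk q
    · subst hk
      simp only [J1, Sum.elim_inr, if_true, dot_c, Nat.cast_sum]
      refine sum_congr rfl fun m _ => ?_
      simp [Derivation.leibniz, Derivation.leibniz_pow, pderiv_X, tY, x1, x0]; ring
    · simp [Derivation.leibniz, Derivation.leibniz_pow, pderiv_X, J1, hk, Ne.symm hk]

theorem eval_Φ (q : Fin 330) : eval x1 (Φ q) =
    (dot cL ((mons 20).map (tA (xL.getD (kk q) 0) (yL.getD (kk q) 0) (uu q) (vv q))) : ℕ) := by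
  rw [dot_c, Nat.cast_sum, Φ, map_sum]
  refine sum_congr rfl fun m _ => ?_
  simp [tA, x1, x0]; ring

theorem small_getD {B D n : ℕ} (L : List ℕ) (h : L.all (small B D n) = true) (hD : 0 < D)
    (i l : ℕ) (hl : l < n) : dig B (L.getD i 0) l < D := by
  by_cases hi : i < L.length
  · rw [List.getD_eq_getElem _ _ hi]
    exact small_spec (List.all_eq_true.1 h _ (List.getElem_mem hi)) l hl
  · rw [List.getD_eq_default _ _ (by omega)]; simpa [dig] using hD

theorem Rz_small (v : V) (l : ℕ) (hl : l < 330) : dig (2 ^ 20) (Rz v) l < 41 := by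
  have h := smallR
  rw [List.all_append, List.all_append, Bool.and_eq_true, Bool.and_eq_true] at h
  rcases v with m | k | k
  · exact small_getD _ h.1.1 (by norm_num) _ _ hl
  · exact small_getD _ h.1.2 (by norm_num) _ _ hl
  · exact small_getD _ h.2 (by norm_num) _ _ hl

theorem dvd_of_mod {M a c : ℕ} (h : a % M = c) : ((M : ℕ) : A) ∣ (a : A) - (c : A) := by
  refine ⟨(a / M : ℕ), ?_⟩
  rw [← h]
  conv_lhs => rw [← Nat.mod_add_div a M]
  simp only [Nat.add_mul_mod_self_left, Nat.mod_mod]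
  push_cast; ring

theorem hJ (q q' : Fin 330) : ((41 : ℕ) : A) ∣
    ∑ v, eval x1 (pderiv v (Φ q)) * (dig (2 ^ 20) (Rz v) q' : A) - if q = q' then 1 else 0 := by
  have hc := chk_all q q.2
  rw [chkq, chk, Bool.and_eq_true] at hc
  have h1 := rowOK_spec hc.1 q' q'.2
  have h2 : dot ((mons 20).map fun m => tA (xL.getD (q / 6) 0) (yL.getD (q / 6) 0) (uu q) (vv q) m
      % 41) Rc + dot cL ((mons 20).map (tX (xL.getD (q / 6) 0) (yL.getD (q / 6) 0) (uu q) (vv q)))
      % 41 * Rx.getD (q / 6) 0 + dot cL ((mons 20).map (tY (xL.getD (q / 6) 0)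
      (yL.getD (q / 6) 0) (uu q) (vv q))) % 41 * Ry.getD (q / 6) 0 =
      ∑ v, (J1 q v % 41) * Rz v := by
    rw [Fintype.sum_sum_type, Fintype.sum_sum_type, add_assoc,
      dot_eq _ _ 231 (by rw [List.length_map, len20]), Finset.sum_range]
    refine congrArg₂ (· + ·) ?_ ?_
    · refine sum_congr rfl fun m _ => ?_
      rw [getD_map _ _ _ (by rw [len20]; exact m.2)]
      simp only [J1, Rz, Sum.elim_inl, kk]
    · refine congrArg₂ (· + ·) ?_ ?_
      · rw [Finset.sum_eq_single (kk q)]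
        · simp only [J1, Rz, Sum.elim_inr, Sum.elim_inl, if_true, kk]
        · intro k _ hk
          simp only [J1, Sum.elim_inr, Sum.elim_inl, if_neg hk, Nat.zero_mod, zero_mul]
        · simp
      · rw [Finset.sum_eq_single (kk q)]
        · simp only [J1, Rz, Sum.elim_inr, if_true, kk]
        · intro k _ hk
          simp only [J1, Sum.elim_inr, if_neg hk, Nat.zero_mod, zero_mul]
        · simp
  rw [h2, dig_sum univ _ _ _ 41 330 (fun v _ => Rz_small v) (by
    have : ∑ v, J1 q v % 41 ≤ ∑ _v : V, 41 :=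
      sum_le_sum fun v _ => (Nat.mod_lt _ (by norm_num)).le
    simp only [sum_const, card_univ, Fintype.card_sum, Fintype.card_fin, smul_eq_mul] at this
    omega) q' q'.2] at h1
  have h3 := dvd_of_mod h1
  have h4 : ((41 : ℕ) : A) ∣ ∑ v, ((J1 q v : A) - (J1 q v % 41 : ℕ)) *
      (dig (2 ^ 20) (Rz v) q' : A) :=
    Finset.dvd_sum fun v _ => (dvd_of_mod rfl).mul_right _
  have h5 : ((if 0 + (q' : ℕ) = q then 1 else 0 : ℕ) : A) = if q = q' then 1 else 0 := by
    by_cases h : q = q'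
    · simp [h]
    · rw [if_neg h, if_neg (fun h' => h (Fin.ext (by omega)))]; simp
  rw [h5] at h3
  have := h4.add h3
  simp only [pderiv_Φ]
  convert this using 1
  simp only [sub_mul, sum_sub_distrib, Nat.cast_sum, Nat.cast_mul]
  ring

theorem exists_sol : ∃ x : V → A, (∀ v, ((41 : ℕ) : A) ^ 2 ∣ x v - x1 v) ∧
    ∀ q, eval x (Φ q) = 0 := by
  refine hensel ((41 : ℕ) : A) Φ x1 (fun v q => (dig (2 ^ 20) (Rz v) q : A)) hJ 1 fun q => ?_
  have hc := chk_all q q.2
  rw [chkq, chk, Bool.and_eq_true, Nat.beq_eq] at hc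
  have := dvd_of_mod hc.2
  rw [eval_Φ]
  rw [Nat.cast_zero, sub_zero, show (1681 : ℕ) = 41 ^ (1 + 1) by norm_num, Nat.cast_pow] at this
  exact this

theorem det_ne (x : V → A) (hx : ∀ v, ((41 : ℕ) : A) ^ 2 ∣ x v - x1 v) :
    (Matrix.of fun k m : Fin 55 => x (Sum.inr (Sum.inl k)) ^ (mon 9 m).1 *
      x (Sum.inr (Sum.inr k)) ^ (mon 9 m).2).det ≠ 0 := by
  set E := Matrix.of fun k m : Fin 55 => x (Sum.inr (Sum.inl k)) ^ (mon 9 m).1 *
      x (Sum.inr (Sum.inr k)) ^ (mon 9 m).2 with hE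
  let N : Matrix (Fin 55) (Fin 55) A := Matrix.of fun m l => (dig (2 ^ 28) (NL.getD m 0) l : A)
  have key : ∀ k l : Fin 55, ((41 : ℕ) : A) ^ 2 ∣ (E * N) k l -
      ((41 : ℕ) : A) * (1 : Matrix (Fin 55) (Fin 55) A) k l := by
    intro k l
    have hc := List.all_eq_true.1 chkE_all k (List.mem_range.2 k.2)
    rw [chkE] at hc
    have h1 := rowOK_spec hc l l.2
    rw [dot_eq _ _ 55 (by rw [List.length_map, len9]), Finset.sum_range,
      sum_congr rfl fun (m : Fin 55) _ => by rw [getD_map _ _ _ (by rw [len9]; exact m.2)],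
      dig_sum univ _ _ _ 1681 55 (fun v _ => small_getD _ smallN (by norm_num) _) (by
        have : ∑ m : Fin 55, xL.getD k 0 ^ (mon 9 m).1 * yL.getD k 0 ^ (mon 9 m).2 % 1681
            ≤ ∑ _v : Fin 55, 1681 := sum_le_sum fun v _ => (Nat.mod_lt _ (by norm_num)).le
        simp only [sum_const, card_univ, Fintype.card_fin, smul_eq_mul] at this
        omega) l l.2] at h1
    have h3 := dvd_of_mod h1
    have h4 : ((1681 : ℕ) : A) ∣ ∑ m : Fin 55, (E k m - ((xL.getD k 0 ^ (mon 9 m).1 *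
        yL.getD k 0 ^ (mon 9 m).2 % 1681 : ℕ) : A)) * (dig (2 ^ 28) (NL.getD m 0) l : A) := by
      refine Finset.dvd_sum fun m _ => Dvd.dvd.mul_right ?_ _
      have h6 := eval_congr _ x x1 hx (X (Sum.inr (Sum.inl k)) ^ (mon 9 m).1 *
        X (Sum.inr (Sum.inr k)) ^ (mon 9 m).2)
      rw [← Nat.cast_pow, show 41 ^ 2 = 1681 by norm_num] at h6
      have := h6.add (dvd_of_mod (M := 1681)
        (a := xL.getD k 0 ^ (mon 9 m).1 * yL.getD k 0 ^ (mon 9 m).2) rfl)
      convert this using 1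
      simp only [hE, x1, x0, Matrix.of_apply, map_mul, map_pow, eval_X, Sum.elim_inr,
        Sum.elim_inl, Nat.cast_mul, Nat.cast_pow]
      ring
    have h5 : ((if 0 + (l : ℕ) = k then 41 else 0 : ℕ) : A) =
        ((41 : ℕ) : A) * (1 : Matrix (Fin 55) (Fin 55) A) k l := by
      by_cases h : k = l
      · subst h; simp
      · rw [Matrix.one_apply_ne h, if_neg (fun h' => h (Fin.ext (by omega)))]; simp
    rw [h5] at h3
    have := h4.add h3
    rw [← Nat.cast_pow, show 41 ^ 2 = 1681 by norm_num]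
    convert this using 1
    simp only [sub_mul, sum_sub_distrib, Nat.cast_sum, Nat.cast_mul, Matrix.mul_apply, N,
      Matrix.of_apply]
    ring
  choose Y hY using key
  have hEN : E * N = ((41 : ℕ) : A) • (1 + ((41 : ℕ) : A) • Matrix.of Y) := by
    ext k l
    have := hY k l
    simp only [Matrix.smul_apply, Matrix.add_apply, Matrix.of_apply, smul_eq_mul]
    linear_combination this
  intro h0
  have h1 := congrArg Matrix.det hEN
  rw [Matrix.det_mul, h0, zero_mul, Matrix.det_smul] at h1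
  have h2 := (mul_eq_zero.1 h1.symm).resolve_left (pow_ne_zero _ (by norm_num))
  have h3 := congrArg (PadicInt.toZMod (p := 41)) h2
  rw [RingHom.map_det, map_zero] at h3
  have h4 : (PadicInt.toZMod (p := 41)).mapMatrix (1 + ((41 : ℕ) : A) • Matrix.of Y) = 1 := by
    ext k l
    simp only [RingHom.mapMatrix_apply, Matrix.map_apply, Matrix.add_apply, Matrix.smul_apply,
      smul_eq_mul, map_add, map_mul, map_natCast, ZMod.natCast_self, zero_mul, add_zero,
      Matrix.one_apply]
    split_ifs <;> simp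
  rw [h4, Matrix.det_one] at h3
  exact one_ne_zero h3

theorem c0_ne (x : V → A) (hx : ∀ v, ((41 : ℕ) : A) ^ 2 ∣ x v - x1 v) :
    x (Sum.inl 0) ≠ 0 := by
  intro h0
  obtain ⟨c, hc⟩ := hx (Sum.inl 0)
  have h1 : x1 (Sum.inl 0) = ((1433 : ℕ) : A) := rfl
  have h3 := congrArg (PadicInt.toZMod (p := 41)) hc
  rw [h0, h1] at h3
  simp only [map_sub, map_zero, map_natCast, map_mul, map_pow, ZMod.natCast_self] at h3
  revert h3
  rw [zero_pow (by norm_num), zero_mul]
  decide

end Pool.Agent.H79.TP
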