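import Mathlib
import Pool.Agent.H79.TPMain

set_option autoImplicit false

namespace Pool.Agent.H79.TP
open MvPolynomial Finset

theorem ch_two (i : ℕ) : ch i 2 = i.choose 2 := (Nat.choose_two_right i).symm

theorem expand {R : Type} [CommRing R] (a U : R) (h : U ^ 3 = 0) (i : ℕ) :
    (a + U) ^ i = (ch i 0 : R) * a ^ (i - 0) + (ch i 1 : R) * a ^ (i - 1) * U
      + (ch i 2 : R) * a ^ (i - 2) * U ^ 2 := by
  have key : ∀ n : ℕ, (a + U) ^ (n + 2) = a ^ (n + 2) + ((n + 2 : ℕ) : R) * a ^ (n + 1) * U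
      + (((n + 2).choose 2 : ℕ) : R) * a ^ n * U ^ 2 := by
    intro n
    induction n with
    | zero => simp; ring
    | succ n ih =>
      rw [show n + 1 + 2 = (n + 2) + 1 by ring, pow_succ, ih, Nat.choose_succ_succ' (n + 2) 1]
      simp only [Nat.choose_one_right]
      push_cast
      linear_combination (((n + 2).choose 2 : ℕ) : R) * a ^ n * h
  rw [ch_two]
  match i with
  | 0 => simp [ch]
  | 1 => simp [ch]
  | n + 2 => rw [key]; simp [ch]

theorem ch_zero {i u : ℕ} (hu : u ≤ 2) (h : i < u) : ch i u = 0 := by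
  interval_cases u <;> interval_cases i <;> rfl

theorem zexp {R : Type} [CommRing R] (z : R) {i j u v : ℕ} (hu : u ≤ 2) (hv : v ≤ 2)
    (hij : i + j ≤ 20) : (ch i u : R) * (ch j v : R) * (z ^ (i - u) * z ^ (j - v) *
      z ^ (20 - i - j)) = (ch i u : R) * (ch j v : R) * z ^ (20 - u - v) := by
  by_cases h1 : i < u
  · simp [ch_zero hu h1]
  by_cases h2 : j < v
  · simp [ch_zero hv h2]
  rw [← pow_add, ← pow_add]
  congr 2; omega

theorem expand2 {R : Type} [CommRing R] (x y z U W : R) (h1 : U ^ 3 = 0) (h2 : U ^ 2 * W = 0)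
    (h3 : U * W ^ 2 = 0) (h4 : W ^ 3 = 0) {i j : ℕ} (hij : i + j ≤ 20) :
    (x * z + U) ^ i * (y * z + W) ^ j * z ^ (20 - i - j) =
      ∑ r : Fin 6, ((ch i (uu r) * ch j (vv r) : ℕ) : R) * x ^ (i - uu r) * y ^ (j - vv r) *
        (z ^ (20 - uu r - vv r) * U ^ uu r * W ^ vv r) := by
  rw [expand _ _ h1, expand _ _ h4]
  simp only [Fin.sum_univ_six, mul_pow, Nat.cast_mul]
  change _ = (ch i 0 : R) * (ch j 0 : R) * x ^ (i - 0) * y ^ (j - 0) * (z ^ (20 - 0 - 0) * U ^ 0 * W ^ 0)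
    + (ch i 1 : R) * (ch j 0 : R) * x ^ (i - 1) * y ^ (j - 0) * (z ^ (20 - 1 - 0) * U ^ 1 * W ^ 0)
    + (ch i 0 : R) * (ch j 1 : R) * x ^ (i - 0) * y ^ (j - 1) * (z ^ (20 - 0 - 1) * U ^ 0 * W ^ 1)
    + (ch i 2 : R) * (ch j 0 : R) * x ^ (i - 2) * y ^ (j - 0) * (z ^ (20 - 2 - 0) * U ^ 2 * W ^ 0)
    + (ch i 1 : R) * (ch j 1 : R) * x ^ (i - 1) * y ^ (j - 1) * (z ^ (20 - 1 - 1) * U ^ 1 * W ^ 1)
    + (ch i 0 : R) * (ch j 2 : R) * x ^ (i - 0) * y ^ (j - 2) * (z ^ (20 - 0 - 2) * U ^ 0 * W ^ 2)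
  linear_combination
    (x ^ (i - 0) * y ^ (j - 0)) * zexp z (u := 0) (v := 0) (by norm_num) (by norm_num) hij
    + (x ^ (i - 1) * y ^ (j - 0) * U) * zexp z (u := 1) (v := 0) (by norm_num) (by norm_num) hij
    + (x ^ (i - 0) * y ^ (j - 1) * W) * zexp z (u := 0) (v := 1) (by norm_num) (by norm_num) hij
    + (x ^ (i - 2) * y ^ (j - 0) * U ^ 2) * zexp z (u := 2) (v := 0) (by norm_num) (by norm_num) hij
    + (x ^ (i - 1) * y ^ (j - 1) * U * W) * zexp z (u := 1) (v := 1) (by norm_num) (by norm_num) hij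
    + (x ^ (i - 0) * y ^ (j - 2) * W ^ 2) * zexp z (u := 0) (v := 2) (by norm_num) (by norm_num) hij
    + ((ch i 2 : R) * x ^ (i - 2) * z ^ (i - 2) * z ^ (20 - i - j) * ((ch j 1 : R) * y ^ (j - 1) *
        z ^ (j - 1) + (ch j 2 : R) * y ^ (j - 2) * z ^ (j - 2) * W)) * h2
    + ((ch i 1 : R) * x ^ (i - 1) * z ^ (i - 1) * z ^ (20 - i - j) * (ch j 2 : R) * y ^ (j - 2) *
        z ^ (j - 2)) * h3

theorem mon_le (m : Fin 231) : (mon 20 m).1 + (mon 20 m).2 ≤ 20 := by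
  revert m; decide +kernel

variable {K : Type} [Field K]

noncomputable def ff (c : Fin 231 → K) : MvPolynomial (Fin (2 + 1)) K :=
  ∑ m : Fin 231, C (c m) * (X 0 ^ (mon 20 m).1 * X 1 ^ (mon 20 m).2 *
    X 2 ^ (20 - (mon 20 m).1 - (mon 20 m).2))

theorem ff_hom (c : Fin 231 → K) : (ff c).IsHomogeneous 20 := by
  refine IsHomogeneous.sum _ _ _ fun m _ => IsHomogeneous.C_mul ?_ _
  have := ((isHomogeneous_X_pow (R := K) (0 : Fin (2 + 1)) (mon 20 m).1).mul
    (isHomogeneous_X_pow 1 (mon 20 m).2)).mul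
    (isHomogeneous_X_pow 2 (20 - (mon 20 m).1 - (mon 20 m).2))
  have h := mon_le m
  convert this using 1; omega

theorem ff_ne (c : Fin 231 → K) (h : c 0 ≠ 0) : ff c ≠ 0 := by
  intro h0
  have := congrArg (eval ![0, 0, 1]) h0
  rw [ff, map_sum, Finset.sum_eq_single 0] at this
  · apply h
    simpa [show mon 20 0 = (0, 0) from rfl] using this
  · intro m _ hm
    have : ∀ m : Fin 231, m ≠ 0 → (mon 20 m).1 ≠ 0 ∨ (mon 20 m).2 ≠ 0 := by decide +kernel
    rcases this m hm with h | h <;> simp [h]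
  · simp

theorem ff_mem (c : Fin 231 → K) (x y : K) (I : Ideal (MvPolynomial (Fin (2 + 1)) K))
    (hU : X 0 - C x * X 2 ∈ I) (hW : X 1 - C y * X 2 ∈ I)
    (h : ∀ r : Fin 6, ∑ m : Fin 231, c m * ((ch (mon 20 m).1 (uu r) * ch (mon 20 m).2 (vv r) : ℕ) : K)
      * x ^ ((mon 20 m).1 - uu r) * y ^ ((mon 20 m).2 - vv r) = 0) : ff c ∈ I ^ 3 := by
  rw [← Ideal.Quotient.eq_zero_iff_mem]
  set π := Ideal.Quotient.mk (I ^ 3)
  have h3 : ∀ a ∈ I, ∀ b ∈ I, ∀ c ∈ I, π a * π b * π c = 0 := fun a ha b hb c hc => by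
    rw [← map_mul, ← map_mul, Ideal.Quotient.eq_zero_iff_mem, pow_succ, pow_two]
    exact Ideal.mul_mem_mul (Ideal.mul_mem_mul ha hb) hc
  have e := fun m : Fin 231 => (show π (X 0 ^ (mon 20 m).1 * X 1 ^ (mon 20 m).2 *
      X 2 ^ (20 - (mon 20 m).1 - (mon 20 m).2)) = _ * _ * _ by simp).trans
    (expand2 (π (C x)) (π (C y)) (π (X 2)) (π (X 0 - C x * X 2)) (π (X 1 - C y * X 2))
      (by rw [← h3 _ hU _ hU _ hU]; ring) (by rw [← h3 _ hU _ hU _ hW]; ring)
      (by rw [← h3 _ hU _ hW _ hW]; ring) (by rw [← h3 _ hW _ hW _ hW]; ring) (mon_le m))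
  rw [ff, map_sum]
  simp only [map_mul π (C _), e, Finset.mul_sum]
  rw [Finset.sum_comm]
  refine Finset.sum_eq_zero fun r _ => ?_
  have := congrArg (fun t => π (C t) * (π (X 2) ^ (20 - uu r - vv r) *
    π (X 0 - C x * X 2) ^ uu r * π (X 1 - C y * X 2) ^ vv r)) (h r)
  simp only [map_zero, zero_mul, map_sum, Finset.sum_mul, map_mul, map_pow, map_natCast] at this
  rw [← this]
  exact sum_congr rfl fun m _ => by ring

theorem mon9 : (∀ m : Fin 55, (mon 9 m).1 + (mon 9 m).2 ≤ 9) ∧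
    (∀ m m' : Fin 55, mon 9 m = mon 9 m' → m = m') ∧
    ∀ i < 10, ∀ j < 10, i + j ≤ 9 → ∃ m : Fin 55, mon 9 m = (i, j) := by decide +kernel

noncomputable def ex (m : Fin 55) : Fin (2 + 1) →₀ ℕ :=
  Finsupp.equivFunOnFinite.symm ![(mon 9 m).1, (mon 9 m).2, 9 - (mon 9 m).1 - (mon 9 m).2]

theorem hom9 (g : MvPolynomial (Fin (2 + 1)) K) (hg : g.IsHomogeneous 9) :
    g = ∑ m : Fin 55, monomial (ex m) (coeff (ex m) g) := by
  classical
  have hinj : Function.Injective ex := fun m m' h => mon9.2.1 m m'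
    (Prod.ext (by simpa [ex] using DFunLike.congr_fun h 0)
      (by simpa [ex] using DFunLike.congr_fun h 1))
  rw [← Finset.sum_image (s := univ) (g := ex) (f := fun α => monomial α (coeff α g))
    (fun a _ b _ h => hinj h)]
  conv_lhs => rw [g.as_sum]
  refine Finset.sum_subset (fun α hα => ?_) (fun α _ hα => by
    rw [notMem_support_iff.1 hα, map_zero])
  have hdeg : 9 = ∑ i, α i := by
    rw [hg.degree_eq_sum_deg_support hα]
    exact Finset.sum_subset (subset_univ _) fun i _ hi => by simpa using hi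
  rw [Fin.sum_univ_three] at hdeg
  obtain ⟨m, hm⟩ := mon9.2.2 (α 0) (by omega) (α 1) (by omega) (by omega)
  refine mem_image.2 ⟨m, mem_univ _, ?_⟩
  ext i
  fin_cases i <;> simp [ex, hm]
  omega

theorem no_nonic (x y : Fin 55 → K)
    (hdet : (Matrix.of fun k m : Fin 55 => x k ^ (mon 9 m).1 * y k ^ (mon 9 m).2).det ≠ 0)
    (g : MvPolynomial (Fin (2 + 1)) K) (s : ℕ) (hs : s ≤ 9) (hg : g.IsHomogeneous s)
    (hv : ∀ k, eval ![x k, y k, 1] g = 0) : g = 0 := by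
  have hg' : (g * X 2 ^ (9 - s)).IsHomogeneous 9 := by
    have := hg.mul (isHomogeneous_X_pow (R := K) (2 : Fin (2 + 1)) (9 - s))
    convert this using 1; omega
  have h1 := hom9 _ hg'
  have h2 := Matrix.eq_zero_of_mulVec_eq_zero hdet
    (v := fun m => coeff (ex m) (g * X 2 ^ (9 - s))) (funext fun k => by
      have := congrArg (eval ![x k, y k, 1]) h1
      rw [map_mul, hv, zero_mul, map_sum] at this
      rw [Pi.zero_apply, this, Matrix.mulVec, dotProduct]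
      refine sum_congr rfl fun m _ => ?_
      rw [eval_monomial, Finsupp.prod_fintype _ _ (by simp), Fin.prod_univ_three]
      simp [ex]; ring)
  have h3 : g * X 2 ^ (9 - s) = 0 := by
    rw [h1]; exact Finset.sum_eq_zero fun m _ => by rw [congrFun h2 m]; simp
  exact (mul_eq_zero.1 h3).resolve_right (pow_ne_zero _ (X_ne_zero _))

abbrev KK : Type := AlgebraicClosure ℚ_[41]

noncomputable def φ : A →+* KK := (algebraMap ℚ_[41] KK).comp (algebraMap A ℚ_[41])

theorem φ_inj : Function.Injective φ :=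
  (algebraMap ℚ_[41] KK).injective.comp (IsFractionRing.injective A ℚ_[41])

theorem main : ∃ (c : Fin 231 → KK) (x y : Fin 55 → KK), c 0 ≠ 0 ∧
    (Matrix.of fun k m : Fin 55 => x k ^ (mon 9 m).1 * y k ^ (mon 9 m).2).det ≠ 0 ∧
    ∀ k, ∀ r : Fin 6, ∑ m : Fin 231, c m *
      ((ch (mon 20 m).1 (uu r) * ch (mon 20 m).2 (vv r) : ℕ) : KK)
      * x k ^ ((mon 20 m).1 - uu r) * y k ^ ((mon 20 m).2 - vv r) = 0 := by
  obtain ⟨z, hz, h0⟩ := exists_sol
  refine ⟨fun m => φ (z (Sum.inl m)), fun k => φ (z (Sum.inr (Sum.inl k))),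
    fun k => φ (z (Sum.inr (Sum.inr k))), ?_, ?_, fun k r => ?_⟩
  · exact (map_ne_zero_iff φ φ_inj).2 (c0_ne z hz)
  · have := (map_ne_zero_iff φ φ_inj).2 (det_ne z hz)
    rw [RingHom.map_det] at this
    convert this using 2
    ext k m
    simp
  · have := congrArg φ (h0 ⟨6 * k + r, by omega⟩)
    have h1 : kk ⟨6 * k + r, by omega⟩ = k := Fin.ext (by simp only [kk]; omega)
    have h2 : uu (6 * k + r) = uu r := by
      unfold uu; rw [show (6 * (k : ℕ) + r) % 6 = r % 6 by omega]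
    have h3 : vv (6 * k + r) = vv r := by
      unfold vv; rw [show (6 * (k : ℕ) + r) % 6 = r % 6 by omega]
    rw [Φ, h1] at this
    simp only [h2, h3, map_sum, map_mul, map_pow, eval_X, map_natCast, map_zero] at this
    exact this

end Pool.Agent.H79.TP
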