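import Mathlib

set_option autoImplicit false

namespace Pool.Agent.H79.UKDefs

open MvPolynomial

universe u

variable {K : Type} [Field K] {n : ℕ}

/-- `r` is an element of degree one of `R = S/I`. -/
def IsLin (I : Ideal (MvPolynomial (Fin n) K)) (r : MvPolynomial (Fin n) K ⧸ I) : Prop :=
  ∃ f : MvPolynomial (Fin n) K, f.IsHomogeneous 1 ∧ Ideal.Quotient.mk I f = r

/-- The ideal `J` of `R = S/I` has a free resolution `... → R^(b 1) → R^(b 0) → J → 0` in which the
basis of `R^(b 0)` goes to linear forms generating `J` and all matrices have linear entries. -/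
def HasLinRes (I : Ideal (MvPolynomial (Fin n) K)) (J : Ideal (MvPolynomial (Fin n) K ⧸ I)) : Prop :=
  ∃ (b : ℕ → ℕ) (g : Fin (b 0) → MvPolynomial (Fin n) K ⧸ I)
    (A : ∀ i, Matrix (Fin (b i)) (Fin (b (i + 1))) (MvPolynomial (Fin n) K ⧸ I)),
    (∀ k, IsLin I (g k)) ∧ Ideal.span (Set.range g) = J ∧ (∀ i k l, IsLin I (A i k l)) ∧
    Function.Exact (A 0).mulVec (fun w => ∑ k, g k * w k) ∧
    ∀ i, Function.Exact (A (i + 1)).mulVec (A i).mulVec

/-- Every ideal of `S/I` generated by linear forms has a linear resolution. -/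
def UnivKoszul (I : Ideal (MvPolynomial (Fin n) K)) : Prop :=
  ∀ s : Set (MvPolynomial (Fin n) K ⧸ I), (∀ r ∈ s, IsLin I r) → HasLinRes I (Ideal.span s)

/-- The linear change of coordinates given by a matrix. -/
noncomputable def chg (P : Matrix (Fin n) (Fin n) K) :
    MvPolynomial (Fin n) K →ₐ[K] MvPolynomial (Fin n) K :=
  aeval (fun i => ∑ j, C (P i j) * X j)

/-- After an invertible linear change of coordinates, `I` has a Groebner basis of quadrics for some
term order. -/
def GQuadratic (I : Ideal (MvPolynomial (Fin n) K)) : Prop :=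
  ∃ (P : GL (Fin n) K) (m : MonomialOrder.{0, u} (Fin n)) (G : Set (MvPolynomial (Fin n) K)),
    (∀ q ∈ G, q ∈ I.map (chg (P : Matrix (Fin n) (Fin n) K)) ∧ q.IsHomogeneous 2) ∧
    ∀ f ∈ I.map (chg (P : Matrix (Fin n) (Fin n) K)), f ≠ 0 →
      ∃ q ∈ G, q ≠ 0 ∧ m.degree q ≤ m.degree f

end Pool.Agent.H79.UKDefs
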