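import Mathlib
import Pool.Agent.H79.UKDefs

set_option autoImplicit false

namespace Pool.Agent.H79.UK

open MvPolynomial UKDefs

universe u

section frame

variable {K R : Type} [Field K] [CommRing R] [Algebra K R]

structure Frame (a : K) (u v : R) : Prop where
  uv : u * v = 0
  vv : v * v = -(a • (u * u))
  sp : ∀ r : R, ∃ c p q t : K, r = algebraMap K R c + p • u + q • v + t • (u * u)
  ind : ∀ c p q t : K, algebraMap K R c + p • u + q • v + t • (u * u) = 0 →
    c = 0 ∧ p = 0 ∧ q = 0 ∧ t = 0

variable {a : K} {u v : R}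

lemma Frame.uuu (h : Frame a u v) (ha : a ≠ 0) : u * (u * u) = 0 := by
  have h1 : a • (u * (u * u)) = 0 := by
    have h2 : u * (v * v) = 0 := by rw [← mul_assoc, h.uv, zero_mul]
    rw [h.vv, mul_neg, mul_smul_comm, neg_eq_zero] at h2
    exact h2
  have := congrArg (fun x => a⁻¹ • x) h1
  simpa [smul_smul, inv_mul_cancel₀ ha] using this

lemma Frame.change (h : Frame a u v) (α β : K) (hd : α ^ 2 - a * β ^ 2 ≠ 0) :
    Frame a (α • u + β • v) ((a * β) • u + α • v) := by
  have huv := h.uv
  have hvv := h.vv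
  simp only [Algebra.smul_def] at hvv
  have hl : (α • u + β • v) * (α • u + β • v) = (α ^ 2 - a * β ^ 2) • (u * u) := by
    simp only [Algebra.smul_def, map_mul, map_sub, map_pow]
    linear_combination (2 * algebraMap K R α * algebraMap K R β) * huv + (algebraMap K R β) ^ 2 * hvv
  refine ⟨?_, ?_, ?_, ?_⟩
  · simp only [Algebra.smul_def, map_mul]
    linear_combination (algebraMap K R α ^ 2 + algebraMap K R a * algebraMap K R β ^ 2) * huv +
      (algebraMap K R α * algebraMap K R β) * hvv
  · rw [hl]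
    simp only [Algebra.smul_def, map_mul, map_sub, map_pow]
    linear_combination (2 * algebraMap K R a * algebraMap K R α * algebraMap K R β) * huv +
      (algebraMap K R α) ^ 2 * hvv
  · intro r
    obtain ⟨c, p, q, t, rfl⟩ := h.sp r
    refine ⟨c, (α * p - a * β * q) / (α ^ 2 - a * β ^ 2), (α * q - β * p) / (α ^ 2 - a * β ^ 2),
      t / (α ^ 2 - a * β ^ 2), ?_⟩
    rw [hl]
    match_scalars <;> field_simp <;> ring
  · intro c p q t hc
    rw [hl] at hc
    have := h.ind c (p * α + q * (a * β)) (p * β + q * α) (t * (α ^ 2 - a * β ^ 2)) (by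
      rw [← hc]; module)
    obtain ⟨h1, h2, h3, h4⟩ := this
    refine ⟨h1, ?_, ?_, (mul_eq_zero.mp h4).resolve_right hd⟩
    · apply mul_right_cancel₀ hd
      linear_combination α * h2 - a * β * h3
    · apply mul_right_cancel₀ hd
      linear_combination α * h3 - β * h2

lemma Frame.next (h : Frame a u v) (ha : a ≠ 0) : Frame a v (a • u) := by
  have := h.change 0 1 (by simpa using ha)
  simpa using this

lemma Frame.ann (h : Frame a u v) (ha : a ≠ 0) (r : R) (hr : u * r = 0) : ∃ w, v * w = r := by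
  obtain ⟨c, p, q, t, rfl⟩ := h.sp r
  have h3 := h.uuu ha
  have := h.ind 0 c 0 p (by
    rw [← hr]
    simp only [Algebra.smul_def, map_zero]
    linear_combination (-algebraMap K R q) * h.uv - algebraMap K R t * h3)
  obtain ⟨-, rfl, -, rfl⟩ := this
  refine ⟨algebraMap K R q - (t / a) • v, ?_⟩
  rw [mul_sub, mul_smul_comm, h.vv, mul_comm, ← Algebra.smul_def, map_zero, smul_neg, smul_smul,
    div_mul_cancel₀ _ ha]
  simp

def band (u v : R) (b : ℕ) : Matrix (Fin b) (Fin (b + 1)) R :=
  fun i j => if j = i.castSucc then u else if j = i.succ then v else 0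

lemma band_mulVec (u v : R) (b : ℕ) (w : Fin (b + 1) → R) (i : Fin b) :
    (band u v b).mulVec w i = u * w i.castSucc + v * w i.succ := by
  have hne : i.castSucc ≠ i.succ := (Fin.castSucc_lt_succ).ne
  simp only [Matrix.mulVec, dotProduct, band]
  rw [Finset.sum_eq_add_of_mem i.castSucc i.succ (Finset.mem_univ _) (Finset.mem_univ _) hne]
  · simp [hne.symm]
  · intro c _ hc
    simp [hc.1, hc.2]

lemma Frame.exact (h : Frame a u v) (ha : a ≠ 0) (b : ℕ) :
    Function.Exact (band v (a • u) (b + 2)).mulVec (band u v (b + 1)).mulVec := by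
  have h3 := h.uuu ha
  have huv := h.uv
  have hvv := h.vv
  intro w
  constructor
  · intro hw
    choose c p q t hw' using fun k => h.sp (w k)
    have key : ∀ k : Fin (b + 1), c k.castSucc = 0 ∧ c k.succ = 0 ∧ p k.castSucc = a * q k.succ := by
      intro k
      have h1 := congrFun hw k
      rw [band_mulVec, hw' k.castSucc, hw' k.succ] at h1
      have := h.ind 0 (c k.castSucc) (c k.succ) (p k.castSucc - a * q k.succ) (by
        simp only [Pi.zero_apply] at h1
        rw [← h1]
        simp only [Algebra.smul_def, map_zero, map_sub, map_mul] at hvv ⊢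
        linear_combination (-algebraMap K R (q k.castSucc) - algebraMap K R (p k.succ) -
          algebraMap K R (t k.succ) * u) * huv - algebraMap K R (t k.castSucc) * h3 -
          algebraMap K R (q k.succ) * hvv)
      exact ⟨this.2.1, this.2.2.1, sub_eq_zero.mp this.2.2.2⟩
    have hc : ∀ k, c k = 0 := by
      intro k
      refine Fin.lastCases ?_ (fun j => (key j).1) k
      exact (key (Fin.last b)).2.1
    let d : Fin (b + 3) → K := Fin.snoc (α := fun _ => K) q (p (Fin.last _) / a)
    let e : Fin (b + 3) → K := Fin.cons (α := fun _ => K) 0 (fun k => t k / a)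
    refine ⟨fun k => algebraMap K R (d k) + e k • u, ?_⟩
    funext k
    rw [band_mulVec, hw' k, hc k]
    have hd1 : d k.castSucc = q k := by simp [d]
    have hd2 : a * d k.succ = p k := by
      refine Fin.lastCases ?_ (fun j => ?_) k
      · simp only [d]
        rw [Fin.succ_last, Fin.snoc_last]
        field_simp
      · simp only [d]
        rw [Fin.succ_castSucc, Fin.snoc_castSucc, (key j).2.2]
    have he : a * e k.succ = t k := by
      simp only [e, Fin.cons_succ]
      field_simp
    rw [hd1, ← hd2, ← he]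
    simp only [Algebra.smul_def, map_zero, map_mul]
    linear_combination (algebraMap K R (e k.castSucc)) * huv
  · rintro ⟨z, rfl⟩
    funext k
    rw [band_mulVec, band_mulVec, band_mulVec, Fin.succ_castSucc]
    simp only [Algebra.smul_def, Pi.zero_apply] at hvv ⊢
    linear_combination (z k.castSucc.castSucc + algebraMap K R a * z k.succ.succ) * huv +
      z k.succ.castSucc * hvv

def seq (a : K) (u v : R) : ℕ → R × R
  | 0 => (u, v)
  | i + 1 => ((seq a u v i).2, a • (seq a u v i).1)

lemma Frame.seq (h : Frame a u v) (ha : a ≠ 0) (i : ℕ) :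
    Frame a (UK.seq a u v i).1 (UK.seq a u v i).2 := by
  induction i with
  | zero => exact h
  | succ i ih => exact ih.next ha

end frame

variable {K : Type} [Field K]

lemma sm {n : ℕ} {I : Ideal (MvPolynomial (Fin n) K)} (c : K) (r : MvPolynomial (Fin n) K ⧸ I) :
    c • r = algebraMap K _ c * r := Algebra.smul_def c r

lemma IsLin.smul {n : ℕ} {I : Ideal (MvPolynomial (Fin n) K)} {r : MvPolynomial (Fin n) K ⧸ I}
    (h : IsLin I r) (c : K) : IsLin I (c • r) := by
  obtain ⟨f, hf, rfl⟩ := h
  exact ⟨c • f, (homogeneousSubmodule _ K 1).smul_mem c hf, rfl⟩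

lemma IsLin.add {n : ℕ} {I : Ideal (MvPolynomial (Fin n) K)} {r s : MvPolynomial (Fin n) K ⧸ I}
    (h : IsLin I r) (h' : IsLin I s) : IsLin I (r + s) := by
  obtain ⟨f, hf, rfl⟩ := h
  obtain ⟨g, hg, rfl⟩ := h'
  exact ⟨f + g, hf.add hg, rfl⟩

lemma isLin_zero {n : ℕ} {I : Ideal (MvPolynomial (Fin n) K)} : IsLin I 0 :=
  ⟨0, isHomogeneous_zero _ _ _, rfl⟩

lemma seq_lin {n : ℕ} {I : Ideal (MvPolynomial (Fin n) K)} {a : K}
    {u v : MvPolynomial (Fin n) K ⧸ I} (hu : IsLin I u) (hv : IsLin I v) (i : ℕ) :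
    IsLin I (seq a u v i).1 ∧ IsLin I (seq a u v i).2 := by
  induction i with
  | zero => exact ⟨hu, hv⟩
  | succ i ih => exact ⟨ih.2, IsLin.smul ih.1 a⟩

lemma res_bot {n : ℕ} {I : Ideal (MvPolynomial (Fin n) K)} : HasLinRes I ⊥ := by
  refine ⟨fun _ => 0, Fin.elim0, fun _ => 0, fun k => k.elim0, by simp, fun _ k => k.elim0, ?_, ?_⟩
  · intro w
    simp only [Finset.univ_eq_empty, Finset.sum_empty, true_iff]
    exact ⟨0, Subsingleton.elim _ _⟩
  · intro i w
    exact ⟨fun _ => ⟨0, Subsingleton.elim _ _⟩, fun _ => Subsingleton.elim _ _⟩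

lemma res_one {n : ℕ} {I : Ideal (MvPolynomial (Fin n) K)} {a : K}
    {u v : MvPolynomial (Fin n) K ⧸ I} (h : Frame a u v) (ha : a ≠ 0) (hu : IsLin I u)
    (hv : IsLin I v) : HasLinRes I (Ideal.span {u}) := by
  have key : ∀ i (w : Fin 1 → MvPolynomial (Fin n) K ⧸ I), (seq a u v i).1 * w 0 = 0 ↔
      w ∈ Set.range (Matrix.mulVec (Matrix.of fun (_ _ : Fin 1) => (seq a u v i).2)) := by
    intro i w
    constructor
    · intro hw
      obtain ⟨z, hz⟩ := (h.seq ha i).ann ha _ hw
      refine ⟨fun _ => z, ?_⟩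
      funext k
      rw [Subsingleton.elim k 0]
      simpa [Matrix.mulVec, dotProduct] using hz
    · rintro ⟨z, rfl⟩
      simp only [Matrix.mulVec, dotProduct, Fin.sum_univ_one, Matrix.of_apply]
      rw [← mul_assoc, (h.seq ha i).uv, zero_mul]
  refine ⟨fun _ => 1, fun _ => u, fun i => Matrix.of fun _ _ => (seq a u v i).2, fun _ => hu,
    by simp, fun i _ _ => (seq_lin hu hv i).2, ?_, ?_⟩
  · intro w
    rw [← key 0 w]
    simp [seq]
  · intro i w
    rw [← key (i + 1) w]
    constructor
    · intro hw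
      simpa [Matrix.mulVec, dotProduct, seq] using congrFun hw 0
    · intro hw
      funext k
      simpa [Matrix.mulVec, dotProduct, seq] using hw

lemma res_two {n : ℕ} {I : Ideal (MvPolynomial (Fin n) K)} {a : K}
    {u v : MvPolynomial (Fin n) K ⧸ I} (h : Frame a u v) (ha : a ≠ 0) (hu : IsLin I u)
    (hv : IsLin I v) : HasLinRes I (Ideal.span {u, v}) := by
  refine ⟨fun i => i + 2, ![u, v],
    fun i => band (seq a u v (i + 1)).1 (seq a u v (i + 1)).2 (i + 2), ?_, ?_, ?_, ?_, ?_⟩
  · intro k
    fin_cases k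
    exacts [hu, hv]
  · congr 1
    simp [Matrix.range_cons, Set.pair_comm]
  · intro i k l
    simp only [band]
    split_ifs
    exacts [(seq_lin hu hv _).1, (seq_lin hu hv _).2, isLin_zero]
  · intro w
    refine Iff.trans ?_ (h.exact ha 0 w)
    constructor
    · intro hw
      funext k
      rw [band_mulVec, Fin.fin_one_eq_zero k]
      simpa [Fin.sum_univ_two] using hw
    · intro hw
      have := congrFun hw 0
      rw [band_mulVec] at this
      simpa [Fin.sum_univ_two] using this
  · intro i
    exact (h.seq ha (i + 1)).exact ha (i + 1)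

noncomputable def II (a : K) : Ideal (MvPolynomial (Fin 2) K) :=
  Ideal.span {X 0 * X 1, X 1 ^ 2 + C a * X 0 ^ 2}

lemma frame0 (a : K) (ha : a ≠ 0) :
    Frame a (Ideal.Quotient.mk (II a) (X 0)) (Ideal.Quotient.mk (II a) (X 1)) := by
  set x := Ideal.Quotient.mk (II a) (X 0) with hx
  set y := Ideal.Quotient.mk (II a) (X 1) with hy
  have hC : ∀ c : K, Ideal.Quotient.mk (II a) (C c) = algebraMap K _ c := fun c => rfl
  have h1 : x * y = 0 := by
    rw [hx, hy, ← map_mul, Ideal.Quotient.eq_zero_iff_mem]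
    exact Ideal.subset_span (by simp)
  have h2 : y * y = -(a • (x * x)) := by
    have : Ideal.Quotient.mk (II a) (X 1 ^ 2 + C a * X 0 ^ 2) = 0 := by
      rw [Ideal.Quotient.eq_zero_iff_mem]
      exact Ideal.subset_span (by simp)
    rw [map_add, map_mul, map_pow, map_pow, hC] at this
    rw [sm]
    linear_combination this
  have h3 : x * (x * x) = 0 := by
    have h1' : a • (x * (x * x)) = 0 := by
      have h2' : x * (y * y) = 0 := by rw [← mul_assoc, h1, zero_mul]
      rw [h2, sm] at h2'
      rw [sm]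
      linear_combination -h2'
    have := congrArg (fun z => a⁻¹ • z) h1'
    simpa [smul_smul, inv_mul_cancel₀ ha] using this
  refine ⟨h1, h2, ?_, ?_⟩
  · intro r
    obtain ⟨f, rfl⟩ := Ideal.Quotient.mk_surjective r
    induction f using MvPolynomial.induction_on with
    | C c => exact ⟨c, 0, 0, 0, by simp [hC]⟩
    | add f g hf hg =>
      obtain ⟨c, p, q, t, hf⟩ := hf
      obtain ⟨c', p', q', t', hg⟩ := hg
      refine ⟨c + c', p + p', q + q', t + t', ?_⟩
      rw [map_add, hf, hg, map_add]
      module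
    | mul_X f i hf =>
      obtain ⟨c, p, q, t, hf⟩ := hf
      rw [map_mul, hf]
      rw [sm] at h2
      fin_cases i
      · refine ⟨0, c, 0, p, ?_⟩
        change _ * x = _
        simp only [sm, map_zero]
        linear_combination algebraMap K _ q * h1 + algebraMap K _ t * h3
      · refine ⟨0, 0, c, -(a * q), ?_⟩
        change _ * y = _
        simp only [sm, map_zero, map_neg, map_mul]
        linear_combination (algebraMap K _ p + algebraMap K _ t * x) * h1 + algebraMap K _ q * h2
  · intro c p q t h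
    have hm : C c + C p * X 0 + C q * X 1 + C t * (X 0 * X 0) ∈ II a := by
      rw [← Ideal.Quotient.eq_zero_iff_mem, ← h]
      simp only [map_add, map_mul, hC, Algebra.smul_def]
      rfl
    obtain ⟨g1, g2, hg⟩ := Ideal.mem_span_pair.mp hm
    have e1 := congrArg (aeval ![(Polynomial.X : Polynomial K), 0]) hg
    have e2 := congrArg (aeval ![0, (Polynomial.X : Polynomial K)]) hg
    have e3 : (aeval ![(Polynomial.X : Polynomial K), 0] g2).coeff 0 =
        (aeval ![0, (Polynomial.X : Polynomial K)] g2).coeff 0 := by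
      clear hg e1 e2
      induction g2 using MvPolynomial.induction_on with
      | C c => simp
      | add f g hf hg => simp only [map_add, Polynomial.coeff_add, hf, hg]
      | mul_X f i hf => fin_cases i <;> simp
    simp only [map_add, map_mul, map_pow, aeval_X, aeval_C, Matrix.cons_val_zero,
      Matrix.cons_val_one, Polynomial.algebraMap_eq] at e1 e2
    generalize aeval ![(Polynomial.X : Polynomial K), 0] g2 = G1 at e1 e3
    generalize aeval ![0, (Polynomial.X : Polynomial K)] g2 = G2 at e2 e3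
    have f1 : Polynomial.C c + Polynomial.C p * Polynomial.X + Polynomial.C t * Polynomial.X ^ 2 =
        (Polynomial.C a * G1) * Polynomial.X ^ 2 := by linear_combination -e1
    have f2 : Polynomial.C c + Polynomial.C q * Polynomial.X = G2 * Polynomial.X ^ 2 := by
      linear_combination -e2
    have c0 := congrArg (fun P => Polynomial.coeff P 0) f1
    have c1 := congrArg (fun P => Polynomial.coeff P 1) f1
    have c2 := congrArg (fun P => Polynomial.coeff P 2) f1
    have d1 := congrArg (fun P => Polynomial.coeff P 1) f2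
    have d2 := congrArg (fun P => Polynomial.coeff P 2) f2
    simp [Polynomial.coeff_mul_X_pow', Polynomial.coeff_X, Polynomial.coeff_C] at c0 c1 c2 d1 d2
    refine ⟨c0, c1, d1, ?_⟩
    rw [c2, e3, ← d2, mul_zero]

lemma lin_two {f : MvPolynomial (Fin 2) K} (hf : f.IsHomogeneous 1) :
    ∃ α β : K, f = α • X 0 + β • X 1 := by
  have : f ∈ homogeneousSubmodule (Fin 2) K 1 := hf
  rw [homogeneousSubmodule_one_eq_span_X] at this
  obtain ⟨c, hc⟩ := (Submodule.mem_span_range_iff_exists_fun K).mp this
  exact ⟨c 0, c 1, by rw [← hc, Fin.sum_univ_two]⟩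

lemma aniso {a : K} (ha : ¬ IsSquare a) {α β : K} (h : α ^ 2 - a * β ^ 2 = 0) : α = 0 ∧ β = 0 := by
  have hβ : β = 0 := by
    by_contra hb
    exact ha ⟨α / β, by field_simp; linear_combination -h⟩
  subst hβ
  simpa using h

theorem uk {a : K} (ha : ¬ IsSquare a) : UnivKoszul (II a) := by
  have ha0 : a ≠ 0 := by rintro rfl; exact ha ⟨0, by simp⟩
  have h0 := frame0 a ha0
  set x := Ideal.Quotient.mk (II a) (X 0) with hx
  set y := Ideal.Quotient.mk (II a) (X 1) with hy
  have lx : IsLin (II a) x := ⟨X 0, isHomogeneous_X _ _, rfl⟩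
  have ly : IsLin (II a) y := ⟨X 1, isHomogeneous_X _ _, rfl⟩
  have hlin : ∀ r, IsLin (II a) r → ∃ α β : K, r = α • x + β • y := by
    rintro r ⟨f, hf, rfl⟩
    obtain ⟨α, β, rfl⟩ := lin_two hf
    exact ⟨α, β, rfl⟩
  intro s hs
  by_cases h1 : ∀ r ∈ s, r = 0
  · rw [Ideal.span_eq_bot.mpr h1]; exact res_bot
  push Not at h1
  obtain ⟨l, hl, hl0⟩ := h1
  obtain ⟨α, β, hαβ⟩ := hlin l (hs l hl)
  have hd : α ^ 2 - a * β ^ 2 ≠ 0 := by
    intro h
    obtain ⟨rfl, rfl⟩ := aniso ha h
    simp at hαβ
    exact hl0 hαβ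
  have hF := h0.change α β hd
  rw [← hαβ] at hF
  set l' := (a * β) • x + α • y with hl'
  have ll' : IsLin (II a) l' := IsLin.add (IsLin.smul lx _) (IsLin.smul ly _)
  have hrep : ∀ r ∈ s, ∃ p q : K, r = p • l + q • l' := by
    intro r hr
    obtain ⟨p, q, rfl⟩ := hlin r (hs r hr)
    refine ⟨(α * p - a * β * q) / (α ^ 2 - a * β ^ 2), (α * q - β * p) / (α ^ 2 - a * β ^ 2), ?_⟩
    rw [hαβ, hl']
    match_scalars <;> field_simp <;> ring
  by_cases h2 : ∀ r ∈ s, r ∈ Ideal.span {l}
  · have : Ideal.span s = Ideal.span {l} :=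
      le_antisymm (Ideal.span_le.mpr h2) (Ideal.span_mono (by simpa using hl))
    rw [this]
    exact res_one hF ha0 (hs l hl) ll'
  · push Not at h2
    obtain ⟨r, hr, hr'⟩ := h2
    obtain ⟨p, q, hpq⟩ := hrep r hr
    have hq : q ≠ 0 := by
      rintro rfl
      apply hr'
      rw [hpq, zero_smul, add_zero, sm]
      exact Ideal.mul_mem_left _ _ (Ideal.mem_span_singleton_self l)
    have : Ideal.span s = Ideal.span {l, l'} := by
      apply le_antisymm
      · rw [Ideal.span_le]
        intro z hz
        obtain ⟨p', q', rfl⟩ := hrep z hz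
        rw [sm, sm]
        exact Ideal.mem_span_pair.mpr ⟨_, _, rfl⟩
      · rw [Ideal.span_le]
        rintro z (rfl | rfl)
        · exact Ideal.subset_span hl
        · have : l' = q⁻¹ • r - (q⁻¹ * p) • l := by
            rw [hpq]
            match_scalars <;> field_simp <;> ring
          rw [this, sm, sm]
          exact Ideal.sub_mem _ (Ideal.mul_mem_left _ _ (Ideal.subset_span hr))
            (Ideal.mul_mem_left _ _ (Ideal.subset_span hl))
    rw [this]
    exact res_two hF ha0 (hs l hl) ll'

lemma chg_chg {n : ℕ} (P Q : Matrix (Fin n) (Fin n) K) (h : P * Q = 1)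
    (f : MvPolynomial (Fin n) K) : chg Q (chg P f) = f := by
  have : (chg Q).comp (chg P) = AlgHom.id K _ := by
    ext1 i
    simp only [chg, AlgHom.comp_apply, aeval_X, map_sum, map_mul, aeval_C, algebraMap_eq,
      AlgHom.id_apply, Finset.mul_sum]
    rw [Finset.sum_comm]
    have h2 : ∀ k, ∑ j, (C (P i j) * (C (Q j k) * X k) : MvPolynomial (Fin n) K) =
        C ((P * Q) i k) * X k := by
      intro k
      rw [Matrix.mul_apply, map_sum, Finset.sum_mul]
      refine Finset.sum_congr rfl fun j _ => ?_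
      rw [map_mul, mul_assoc]
    simp only [h2, h, Matrix.one_apply]
    rw [Finset.sum_eq_single i] <;> simp +contextual [eq_comm]
  exact DFunLike.congr_fun this f

theorem not_gq {a : K} (ha : ¬ IsSquare a) : ¬ GQuadratic.{u} (II a) := by
  classical
  have ha0 : a ≠ 0 := by rintro rfl; exact ha ⟨0, by simp⟩
  have h0 := frame0 a ha0
  rintro ⟨P, m, G, hG, hGB⟩
  set Q : Matrix (Fin 2) (Fin 2) K := ((P⁻¹ : GL (Fin 2) K) : Matrix (Fin 2) (Fin 2) K) with hQ
  have hPQ : (P : Matrix (Fin 2) (Fin 2) K) * Q = 1 := by simp [hQ]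
  have hQP : Q * (P : Matrix (Fin 2) (Fin 2) K) = 1 := by simp [hQ]
  have hmem : ∀ f, f ∈ (II a).map (chg (P : Matrix (Fin 2) (Fin 2) K)) ↔ chg Q f ∈ II a := by
    intro f
    constructor
    · intro hf
      obtain ⟨g, hg, rfl⟩ := (Ideal.mem_map_iff_of_surjective _
        (fun z => ⟨chg Q z, chg_chg _ _ hQP z⟩)).mp hf
      rwa [chg_chg _ _ hPQ]
    · intro hf
      rw [← chg_chg _ _ hQP f]
      exact Ideal.mem_map_of_mem _ hf
  obtain ⟨v, w, hvw, hlt⟩ : ∃ v w : Fin 2, v ≠ w ∧
      m.toSyn (Finsupp.single v 1) < m.toSyn (Finsupp.single w 1) := by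
    rcases lt_trichotomy (m.toSyn (Finsupp.single 0 1)) (m.toSyn (Finsupp.single 1 1)) with h | h | h
    · exact ⟨0, 1, by decide, h⟩
    · have := DFunLike.congr_fun (m.toSyn.injective h) 0
      simp at this
    · exact ⟨1, 0, by decide, h⟩
  have hd : Q v 0 ^ 2 - a * Q v 1 ^ 2 ≠ 0 := by
    intro h
    obtain ⟨h1, h2⟩ := aniso ha h
    have := congrFun (congrFun hQP v) v
    simp [Matrix.mul_apply, Fin.sum_univ_two, h1, h2] at this
  have hF := h0.change _ _ hd
  have hl : Ideal.Quotient.mk (II a) (chg Q (X v)) =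
      Q v 0 • Ideal.Quotient.mk (II a) (X 0) + Q v 1 • Ideal.Quotient.mk (II a) (X 1) := by
    simp only [chg, aeval_X, Fin.sum_univ_two, map_add, map_mul, sm]
    rfl
  rw [← hl] at hF
  have h3 : (X v ^ 3 : MvPolynomial (Fin 2) K) ∈ (II a).map (chg (P : Matrix (Fin 2) (Fin 2) K)) := by
    rw [hmem, ← Ideal.Quotient.eq_zero_iff_mem, map_pow, map_pow, ← hF.uuu ha0]
    ring
  obtain ⟨q, hqG, hq0, hdeg⟩ := hGB _ h3 (pow_ne_zero _ (X_ne_zero _))
  obtain ⟨hqI, hq2⟩ := hG q hqG
  rw [X_pow_eq_monomial, m.degree_monomial, if_neg one_ne_zero] at hdeg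
  have hform : ∀ d : Fin 2 →₀ ℕ, d = Finsupp.single v (d v) + Finsupp.single w (d w) := by
    intro d
    ext i
    have : i = v ∨ i = w := (by decide : ∀ v w i : Fin 2, v ≠ w → i = v ∨ i = w) v w i hvw
    rcases this with rfl | rfl <;> simp [hvw, hvw.symm, Finsupp.single_apply]
  have hsum : ∀ d ∈ q.support, d v + d w = 2 := by
    intro d hd
    have h1 := hq2 (mem_support_iff.mp hd)
    rw [hform d] at h1
    simpa [Finsupp.weight_single] using h1
  have hdq : m.degree q = Finsupp.single v 2 := by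
    have h1 := hsum _ (m.degree_mem_support hq0)
    have h2 := hdeg w
    simp only [Finsupp.single_apply, if_neg hvw] at h2
    rw [hform (m.degree q)]
    have h3 : m.degree q w = 0 := by omega
    have h4 : m.degree q v = 2 := by omega
    rw [h3, h4]; simp
  have hsupp : ∀ d ∈ q.support, d = Finsupp.single v 2 := by
    intro d hd
    have h1 := hsum d hd
    have h2 := m.le_degree hd
    rw [hdq] at h2
    have e2 : Finsupp.single v 2 = Finsupp.single v 1 + Finsupp.single v (1 : ℕ) := by
      rw [← Finsupp.single_add]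
    have e3 : Finsupp.single w 2 = Finsupp.single w 1 + Finsupp.single w (1 : ℕ) := by
      rw [← Finsupp.single_add]
    have hc : d w = 0 ∨ d w = 1 ∨ d w = 2 := by omega
    rcases hc with hc | hc | hc
    · rw [hform d, hc, show d v = 2 by omega]; simp
    · exfalso
      rw [hform d, hc, show d v = 1 by omega, e2, map_add, map_add] at h2
      exact absurd (le_of_add_le_add_left h2) (not_le.mpr hlt)
    · exfalso
      rw [hform d, hc, show d v = 0 by omega, e2, e3, Finsupp.single_zero, zero_add, map_add,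
        map_add] at h2
      exact absurd h2 (not_le.mpr (add_lt_add hlt hlt))
  have hqe : q = C (coeff (Finsupp.single v 2) q) * X v ^ 2 := by
    rw [X_pow_eq_monomial, C_mul_monomial, mul_one]
    ext d
    rw [coeff_monomial]
    split_ifs with h
    · rw [h]
    · by_contra h'
      exact h (hsupp d (mem_support_iff.mpr h')).symm
  rw [hmem, ← Ideal.Quotient.eq_zero_iff_mem, hqe] at hqI
  have := hF.ind 0 0 0 (coeff (Finsupp.single v 2) q) (by
    rw [← hqI]
    simp only [map_zero, zero_mul, zero_add, map_mul, map_pow, Algebra.smul_def]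
    rw [pow_two]
    congr 1
    simp only [chg, aeval_C]
    rfl)
  apply hq0
  rw [hqe, this.2.2.2]
  simp

end Pool.Agent.H79.UK
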