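import Mathlib
import Pool.Agent.H79.KFilt

set_option autoImplicit false

namespace Pool.Agent.H79.UKP

open KFilt UKDefs2

section poly

open Polynomial

variable {K A : Type} [Field K] [CommRing A] [Algebra K A]

def LinP (K : Type) {A : Type} [Field K] [CommRing A] [Algebra K A] (Lin : A → Prop)
    (f : A[X]) : Prop :=
  ∃ (l : A) (α : K), Lin l ∧ f = C l + C (algebraMap K A α) * X

lemma cp_poly {Lin : A → Prop} 
    (hc : ∀ (a b : A) (α : K), Lin a → Lin b → Lin (a + algebraMap K A α * b)) (h : CP Lin) :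
    CP (LinP K Lin) := by
  intro s hs l hl hls
  have hCl : ∀ a, Lin a → LinP K Lin (C a) := fun a ha => ⟨a, 0, ha, by simp⟩
  by_cases h1 : ∀ v ∈ s, ∃ a, Lin a ∧ v = C a
  · set s0 : Set A := {a | Lin a ∧ C a ∈ s} with hs0
    have hsp : Ideal.span s = (Ideal.span s0).map (C : A →+* A[X]) := by
      rw [Ideal.map_span]
      congr 1
      ext v
      constructor
      · intro hv
        obtain ⟨a, ha, rfl⟩ := h1 v hv
        exact ⟨a, ⟨ha, hv⟩, rfl⟩
      · rintro ⟨a, ha, rfl⟩
        exact ha.2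
    obtain ⟨l0, α, hl0, rfl⟩ := hl
    by_cases hα : α = 0
    · subst hα
      simp only [map_zero, zero_mul, add_zero] at hls ⊢
      have h2 : l0 ∉ Ideal.span s0 := fun h' => hls (hsp ▸ Ideal.mem_map_of_mem _ h')
      obtain ⟨t, ht1, ht2⟩ := h s0 (fun v hv => hv.1) l0 hl0 h2
      refine ⟨C '' t, ?_, fun f => ?_⟩
      · rintro _ ⟨a, ha, rfl⟩
        exact hCl a (ht1 a ha)
      · rw [hsp, ← Ideal.map_span, Ideal.mem_map_C_iff, Ideal.mem_map_C_iff]
        simp only [coeff_mul_C, ht2]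
    · refine ⟨s, hs, fun f => ⟨fun hf => ?_, fun hf => Ideal.mul_mem_right _ _ hf⟩⟩
      have h3 : f * (X + C (algebraMap K A α⁻¹ * l0)) ∈ Ideal.span s := by
        have h4 : X + C (algebraMap K A α⁻¹ * l0) =
            (C l0 + C (algebraMap K A α) * X) * C (algebraMap K A α⁻¹) := by
          have : C (algebraMap K A α) * C (algebraMap K A α⁻¹) = (1 : A[X]) := by
            rw [← map_mul, ← map_mul, mul_inv_cancel₀ hα, map_one, map_one]
          rw [map_mul]
          linear_combination (-X) * this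
        rw [h4, ← mul_assoc]
        exact Ideal.mul_mem_right _ _ hf
      rw [hsp] at h3 ⊢
      have hk := Polynomial.ker_mapRingHom (Ideal.Quotient.mk (Ideal.span s0))
      rw [Ideal.mk_ker] at hk
      rw [← hk, RingHom.mem_ker] at h3 ⊢
      rw [map_mul] at h3
      have hm : (mapRingHom (Ideal.Quotient.mk (Ideal.span s0))
          (X + C (algebraMap K A α⁻¹ * l0))).Monic := (monic_X_add_C _).map _
      exact hm.mul_left_eq_zero_iff.mp h3
  · push Not at h1
    obtain ⟨v, hv, hv'⟩ := h1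
    obtain ⟨v0, α, hv0, hve⟩ := hs v hv
    have hα : α ≠ 0 := by
      rintro rfl
      exact hv' v0 hv0 (by simpa using hve)
    set p : A := algebraMap K A (-α⁻¹) * v0 with hp
    have hu : algebraMap K A α * algebraMap K A α⁻¹ = 1 := by
      rw [← map_mul, mul_inv_cancel₀ hα, map_one]
    have hsurj : Function.Surjective (evalRingHom p) := fun a => ⟨C a, by simp⟩
    have hev : evalRingHom p v = 0 := by
      rw [hve, hp]
      simp only [coe_evalRingHom, eval_add, eval_C, eval_mul, eval_X, map_neg]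
      linear_combination (-v0) * hu
    have hker : ∀ J : Ideal A[X], v ∈ J → (J.map (evalRingHom p)).comap (evalRingHom p) = J := by
      intro J hJ
      rw [Ideal.comap_map_of_surjective _ hsurj, sup_eq_left, ← RingHom.ker_eq_comap_bot,
        ker_evalRingHom, Ideal.span_singleton_le_iff_mem]
      have : X - C p = C (algebraMap K A α⁻¹) * v := by
        have h5 : C (algebraMap K A α) * C (algebraMap K A α⁻¹) = (1 : A[X]) := by
          rw [← map_mul, hu, map_one]
        rw [hve, hp, map_neg, map_mul, map_neg]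
        linear_combination (-X) * h5
      rw [this]
      exact J.mul_mem_left _ hJ
    have hlin : ∀ w, LinP K Lin w → Lin (evalRingHom p w) := by
      rintro _ ⟨a, β, ha, rfl⟩
      have := hc a v0 (β * -α⁻¹) ha hv0
      simp only [coe_evalRingHom, eval_add, eval_C, eval_mul, eval_X, hp]
      rwa [map_mul, mul_assoc] at this
    have hJ := hker _ (Ideal.subset_span hv)
    rw [Ideal.map_span] at hJ
    obtain ⟨t, ht1, ht2⟩ := h (evalRingHom p '' s) (by
      rintro _ ⟨w, hw, rfl⟩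
      exact hlin w (hs w hw)) _ (hlin l hl) (fun h' => hls (hJ ▸ h'))
    refine ⟨insert v (C '' t), ?_, fun f => ?_⟩
    · rintro w (rfl | ⟨a, ha, rfl⟩)
      · exact hs _ hv
      · exact hCl a (ht1 a ha)
    · have hJ2 := hker (Ideal.span (insert v (C '' t))) (Ideal.subset_span (Set.mem_insert _ _))
      rw [Ideal.map_span, Set.image_insert_eq, hev, Ideal.span_insert_zero, Set.image_image] at hJ2
      simp only [coe_evalRingHom, eval_C, Set.image_id'] at hJ2
      rw [← hJ, ← hJ2, Ideal.mem_comap, Ideal.mem_comap, map_mul, ht2]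

lemma linP_zero {Lin : A → Prop} (h0 : Lin 0) : LinP K Lin 0 := ⟨0, 0, h0, by simp⟩

lemma linP_comb {Lin : A → Prop}
    (hc : ∀ (a b : A) (α : K), Lin a → Lin b → Lin (a + algebraMap K A α * b)) :
    ∀ (a b : A[X]) (α : K), LinP K Lin a → LinP K Lin b →
      LinP K Lin (a + algebraMap K A[X] α * b) := by
  rintro _ _ α ⟨a, β, ha, rfl⟩ ⟨b, γ, hb, rfl⟩
  refine ⟨_, β + α * γ, hc a b α ha hb, ?_⟩
  simp only [map_add, map_mul, Polynomial.algebraMap_apply]
  ring

lemma cp_equiv {A B : Type} [CommRing A] [CommRing B] {LA : A → Prop} {LB : B → Prop}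
    (e : A ≃+* B) (he : ∀ a, LA a ↔ LB (e a)) (h : CP LB) : CP LA := by
  intro s hs l hl hls
  have hm : ∀ (s : Set A) (f : A), e f ∈ Ideal.span (e '' s) ↔ f ∈ Ideal.span s := by
    intro s f
    rw [← Ideal.map_span]
    exact Ideal.apply_mem_of_equiv_iff
  obtain ⟨t, ht1, ht2⟩ := h (e '' s) (by
    rintro _ ⟨a, ha, rfl⟩
    exact (he a).mp (hs a ha)) (e l) ((he l).mp hl) (fun h' => hls ((hm s l).mp h'))
  refine ⟨e ⁻¹' t, fun w hw => (he w).mpr (ht1 _ hw), fun f => ?_⟩
  rw [← hm s, map_mul, ht2, ← hm, Set.image_preimage_eq _ e.surjective]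

end poly

open MvPolynomial

variable (K : Type) [Field K]

noncomputable def IA : Ideal (MvPolynomial (Fin 2) K) := Ideal.span {X 0 ^ 2, X 1 ^ 2}

def AA : Type := MvPolynomial (Fin 2) K ⧸ IA K

noncomputable instance : CommRing (AA K) := inferInstanceAs (CommRing (_ ⧸ IA K))
noncomputable instance : Algebra K (AA K) := inferInstanceAs (Algebra K (_ ⧸ IA K))

noncomputable def mkA : MvPolynomial (Fin 2) K →ₐ[K] AA K := Ideal.Quotient.mkₐ K (IA K)

noncomputable def xx : AA K := mkA K (X 0)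
noncomputable def yy : AA K := mkA K (X 1)

lemma mkA_eq_zero {f : MvPolynomial (Fin 2) K} : mkA K f = 0 ↔ f ∈ IA K :=
  Ideal.Quotient.eq_zero_iff_mem

lemma xx_sq : xx K ^ 2 = 0 := by
  rw [xx, ← map_pow, mkA_eq_zero]; exact Ideal.subset_span (by simp)

lemma yy_sq : yy K ^ 2 = 0 := by
  rw [yy, ← map_pow, mkA_eq_zero]; exact Ideal.subset_span (by simp)

lemma spanA (r : AA K) : ∃ c p q t : K, r = algebraMap K _ c + algebraMap K _ p * xx K +
    algebraMap K _ q * yy K + algebraMap K _ t * (xx K * yy K) := by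
  obtain ⟨f, rfl⟩ : ∃ f, mkA K f = r := Ideal.Quotient.mk_surjective r
  induction f using MvPolynomial.induction_on with
  | C c => exact ⟨c, 0, 0, 0, by simp [← MvPolynomial.algebraMap_eq]⟩
  | add f g hf hg =>
    obtain ⟨c, p, q, t, hf⟩ := hf
    obtain ⟨c', p', q', t', hg⟩ := hg
    refine ⟨c + c', p + p', q + q', t + t', ?_⟩
    rw [map_add, hf, hg]
    simp only [map_add]
    ring
  | mul_X f i hf =>
    obtain ⟨c, p, q, t, hf⟩ := hf
    rw [map_mul, hf]
    fin_cases i
    · refine ⟨0, c, 0, q, ?_⟩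
      change _ * xx K = _
      simp only [map_zero]
      linear_combination (algebraMap K _ p + algebraMap K _ t * yy K) * xx_sq K
    · refine ⟨0, 0, c, p, ?_⟩
      change _ * yy K = _
      simp only [map_zero]
      linear_combination (algebraMap K _ q + algebraMap K _ t * xx K) * yy_sq K

lemma indA (c p q t : K) (h : algebraMap K _ c + algebraMap K _ p * xx K +
    algebraMap K _ q * yy K + algebraMap K _ t * (xx K * yy K) = 0) :
    c = 0 ∧ p = 0 ∧ q = 0 ∧ t = 0 := by
  have hm : C c + C p * X 0 + C q * X 1 + C t * (X 0 * X 1) ∈ IA K := by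
    rw [← mkA_eq_zero, ← h]
    simp only [map_add, map_mul, ← MvPolynomial.algebraMap_eq, AlgHom.commutes, xx, yy]
  obtain ⟨g1, g2, hg⟩ := Ideal.mem_span_pair.mp hm
  have e := congrArg (aeval ![(Polynomial.C Polynomial.X : Polynomial (Polynomial K)),
    Polynomial.X]) hg
  simp only [map_add, map_mul, map_pow, aeval_X, aeval_C, Matrix.cons_val_zero,
    Matrix.cons_val_one, Polynomial.algebraMap_apply, Algebra.algebraMap_self, RingHom.id_apply] at e
  generalize aeval ![(Polynomial.C Polynomial.X : Polynomial (Polynomial K)), Polynomial.X] g1 = G1 at e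
  generalize aeval ![(Polynomial.C Polynomial.X : Polynomial (Polynomial K)), Polynomial.X] g2 = G2 at e
  rw [← map_pow] at e
  have f1 : G1 * Polynomial.C (Polynomial.X ^ 2) + G2 * Polynomial.X ^ 2 =
      Polynomial.C (Polynomial.C c + Polynomial.C p * Polynomial.X) +
      Polynomial.C (Polynomial.C q + Polynomial.C t * Polynomial.X) * Polynomial.X := by
    rw [e]; simp only [map_add, map_mul]; ring
  have c0 := congrArg (fun P => Polynomial.coeff P 0) f1
  have c1 := congrArg (fun P => Polynomial.coeff P 1) f1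
  simp only [Polynomial.coeff_add, Polynomial.coeff_mul_C, Polynomial.coeff_mul_X_pow',
    Polynomial.coeff_C_mul, Polynomial.coeff_C, Polynomial.coeff_X] at c0 c1
  have d0 := congrArg (fun P => Polynomial.coeff P 0) c0
  have d1 := congrArg (fun P => Polynomial.coeff P 1) c0
  have d2 := congrArg (fun P => Polynomial.coeff P 0) c1
  have d3 := congrArg (fun P => Polynomial.coeff P 1) c1
  simp [Polynomial.coeff_mul_X_pow', Polynomial.coeff_C] at d0 d1 d2 d3
  exact ⟨d0.symm, d1.symm, d2.symm, d3.symm⟩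

def LinA (r : AA K) : Prop := ∃ α β : K, r = algebraMap K _ α * xx K + algebraMap K _ β * yy K

lemma linA_zero : LinA K 0 := ⟨0, 0, by simp⟩

lemma linA_comb (a b : AA K) (α : K) (ha : LinA K a) (hb : LinA K b) :
    LinA K (a + algebraMap K _ α * b) := by
  obtain ⟨p, q, rfl⟩ := ha
  obtain ⟨r, s, rfl⟩ := hb
  refine ⟨p + α * r, q + α * s, ?_⟩
  simp only [map_add, map_mul]; ring

lemma soc_mem {α β : K} (h : algebraMap K _ α * xx K + algebraMap K _ β * yy K ≠ 0)
    (J : Ideal (AA K)) (hJ : algebraMap K _ α * xx K + algebraMap K _ β * yy K ∈ J) :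
    xx K * yy K ∈ J := by
  by_cases hα : α = 0
  · have hβ : β ≠ 0 := by rintro rfl; simp [hα] at h
    have hu : algebraMap K (AA K) β⁻¹ * algebraMap K (AA K) β = 1 := by
      rw [← map_mul, inv_mul_cancel₀ hβ, map_one]
    convert J.mul_mem_left (algebraMap K _ β⁻¹ * xx K) hJ using 1
    rw [hα, map_zero]
    linear_combination (-(xx K * yy K)) * hu
  · have hu : algebraMap K (AA K) α⁻¹ * algebraMap K (AA K) α = 1 := by
      rw [← map_mul, inv_mul_cancel₀ hα, map_one]
    convert J.mul_mem_left (algebraMap K _ α⁻¹ * yy K) hJ using 1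
    linear_combination (-(xx K * yy K)) * hu -
      (algebraMap K _ α⁻¹ * algebraMap K _ β) * yy_sq K

lemma cpA : CP (LinA K) := by
  rintro s hs _ ⟨α, β, rfl⟩ hls
  by_cases h1 : ∀ v ∈ s, v = 0
  · rw [Ideal.span_eq_bot.mpr h1] at hls ⊢
    have hne : algebraMap K _ α * xx K + algebraMap K _ (-β) * yy K ≠ 0 := by
      intro h
      obtain ⟨-, h2, h3, -⟩ := indA K 0 α (-β) 0 (by simpa using h)
      rw [neg_eq_zero] at h3
      simp [h2, h3] at hls
    refine ⟨{algebraMap K _ α * xx K + algebraMap K _ (-β) * yy K}, ?_, fun f => ?_⟩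
    · rintro _ rfl; exact ⟨α, -β, rfl⟩
    rw [Ideal.mem_bot]
    constructor
    · intro hf
      obtain ⟨c, p, q, t, rfl⟩ := spanA K f
      obtain ⟨-, h2, h3, h4⟩ := indA K 0 (c * α) (c * β) (p * β + q * α) (by
        rw [← hf]
        simp only [map_zero, map_add, map_mul]
        linear_combination (-(algebraMap K _ p * algebraMap K _ α) -
          algebraMap K _ t * algebraMap K _ α * yy K) * xx_sq K +
          (-(algebraMap K _ q * algebraMap K _ β) -
          algebraMap K _ t * algebraMap K _ β * xx K) * yy_sq K)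
      have hc : c = 0 := by
        by_contra hc
        rw [mul_eq_zero] at h2 h3
        simp [h2.resolve_left hc, h3.resolve_left hc] at hne
      obtain ⟨r, hr1, hr2⟩ : ∃ r : K, p = r * α ∧ q = r * -β := by
        by_cases hα : α = 0
        · have hβ : β ≠ 0 := by rintro rfl; simp [hα] at hne
          refine ⟨-q / β, ?_, by field_simp⟩
          rw [hα, mul_zero, add_zero] at h4
          rw [hα, mul_zero]
          exact (mul_eq_zero.mp h4).resolve_right hβ
        · refine ⟨p / α, by field_simp, ?_⟩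
          field_simp
          linear_combination h4
      rw [hc, map_zero, zero_add]
      refine Ideal.add_mem _ ?_ (Ideal.mul_mem_left _ _
        (soc_mem K hne _ (Ideal.mem_span_singleton_self _)))
      rw [Ideal.mem_span_singleton']
      refine ⟨algebraMap K _ r, ?_⟩
      rw [hr1, hr2]
      simp only [map_mul]; ring
    · intro hf
      obtain ⟨r, rfl⟩ := Ideal.mem_span_singleton'.mp hf
      rw [map_neg]
      linear_combination (r * algebraMap K _ α ^ 2) * xx_sq K - (r * algebraMap K _ β ^ 2) * yy_sq K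
  · push Not at h1
    obtain ⟨v, hv, hv0⟩ := h1
    obtain ⟨γ, δ, rfl⟩ := hs v hv
    have hxy := soc_mem K hv0 _ (Ideal.subset_span hv)
    have hx : xx K * (algebraMap K _ α * xx K + algebraMap K _ β * yy K) ∈ Ideal.span s := by
      convert Ideal.mul_mem_left _ (algebraMap K _ β) hxy using 1
      linear_combination (algebraMap K _ α) * xx_sq K
    have hy : yy K * (algebraMap K _ α * xx K + algebraMap K _ β * yy K) ∈ Ideal.span s := by
      convert Ideal.mul_mem_left _ (algebraMap K _ α) hxy using 1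
      linear_combination (algebraMap K _ β) * yy_sq K
    have hm : ∀ f ∈ Ideal.span {xx K, yy K},
        f * (algebraMap K _ α * xx K + algebraMap K _ β * yy K) ∈ Ideal.span s := by
      intro f hf
      obtain ⟨u, w, rfl⟩ := Ideal.mem_span_pair.mp hf
      rw [add_mul, mul_assoc, mul_assoc]
      exact Ideal.add_mem _ (Ideal.mul_mem_left _ _ hx) (Ideal.mul_mem_left _ _ hy)
    refine ⟨{xx K, yy K}, ?_, fun f => ⟨fun hf => ?_, hm f⟩⟩
    · rintro _ (rfl | rfl)
      · exact ⟨1, 0, by simp⟩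
      · exact ⟨0, 1, by simp⟩
    obtain ⟨c, p, q, t, rfl⟩ := spanA K f
    have h2 : algebraMap K _ p * xx K + algebraMap K _ q * yy K + algebraMap K _ t * (xx K * yy K) ∈
        Ideal.span {xx K, yy K} :=
      Ideal.mem_span_pair.mpr ⟨algebraMap K _ p + algebraMap K _ t * yy K, algebraMap K _ q, by ring⟩
    have hc : c = 0 := by
      by_contra hc
      apply hls
      have h3 := Ideal.mul_mem_left _ (algebraMap K _ c⁻¹) (Ideal.sub_mem _ hf (hm _ h2))
      have hu : algebraMap K (AA K) c⁻¹ * algebraMap K (AA K) c = 1 := by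
        rw [← map_mul, inv_mul_cancel₀ hc, map_one]
      convert h3 using 1
      linear_combination (-(algebraMap K _ α * xx K + algebraMap K _ β * yy K)) * hu
    rw [hc, map_zero, zero_add]
    exact h2

noncomputable def IR : Ideal (MvPolynomial (Fin 4) K) := Ideal.span {X 0 ^ 2, X 1 ^ 2}

noncomputable def lft {B : Type} [CommRing B] [Algebra K B] (u : Fin 4 → B) (h0 : u 0 ^ 2 = 0)
    (h1 : u 1 ^ 2 = 0) : (MvPolynomial (Fin 4) K ⧸ IR K) →+* B :=
  Ideal.Quotient.lift (IR K) (aeval u).toRingHom (by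
    intro f hf
    obtain ⟨g1, g2, rfl⟩ := Ideal.mem_span_pair.mp hf
    simp [h0, h1])

lemma lft_mk {B : Type} [CommRing B] [Algebra K B] (u : Fin 4 → B) (h0 : u 0 ^ 2 = 0)
    (h1 : u 1 ^ 2 = 0) (f : MvPolynomial (Fin 4) K) :
    lft K u h0 h1 (Ideal.Quotient.mk _ f) = aeval u f := rfl

noncomputable def phi : (MvPolynomial (Fin 4) K ⧸ IR K) →+* Polynomial (Polynomial (AA K)) :=
  lft K ![Polynomial.C (Polynomial.C (xx K)), Polynomial.C (Polynomial.C (yy K)),
    Polynomial.C Polynomial.X, Polynomial.X]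
    (by simp [← map_pow, xx_sq]) (by simp [← map_pow, yy_sq])

noncomputable def psi0 : AA K →+* (MvPolynomial (Fin 4) K ⧸ IR K) :=
  Ideal.Quotient.lift (IA K) ((Ideal.Quotient.mk (IR K)).comp
    (aeval ![(X 0 : MvPolynomial (Fin 4) K), X 1]).toRingHom) (by
    intro f hf
    obtain ⟨g1, g2, rfl⟩ := Ideal.mem_span_pair.mp hf
    rw [RingHom.comp_apply, Ideal.Quotient.eq_zero_iff_mem]
    exact Ideal.mem_span_pair.mpr ⟨aeval ![(X 0 : MvPolynomial (Fin 4) K), X 1] g1,
      aeval ![(X 0 : MvPolynomial (Fin 4) K), X 1] g2, by simp⟩)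

lemma psi0_mk (f : MvPolynomial (Fin 2) K) : psi0 K (mkA K f) =
    Ideal.Quotient.mk (IR K) (aeval ![(X 0 : MvPolynomial (Fin 4) K), X 1] f) := rfl

noncomputable def psi : Polynomial (Polynomial (AA K)) →+* (MvPolynomial (Fin 4) K ⧸ IR K) :=
  Polynomial.eval₂RingHom (Polynomial.eval₂RingHom (psi0 K) (Ideal.Quotient.mk _ (X 2)))
    (Ideal.Quotient.mk _ (X 3))

lemma phi_mk (f : MvPolynomial (Fin 4) K) : phi K (Ideal.Quotient.mk _ f) =
    aeval ![Polynomial.C (Polynomial.C (xx K)), Polynomial.C (Polynomial.C (yy K)),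
      Polynomial.C Polynomial.X, Polynomial.X] f := rfl

lemma psi0_alg (c : K) : psi0 K (algebraMap K _ c) = Ideal.Quotient.mk _ (C c) := by
  rw [← (mkA K).commutes, psi0_mk]; simp

lemma psi_phi : (psi K).comp (phi K) = RingHom.id _ := by
  apply Ideal.Quotient.ringHom_ext
  apply MvPolynomial.ringHom_ext
  · intro c
    simp [phi_mk, psi, Polynomial.algebraMap_apply, psi0_alg]
  · intro i
    fin_cases i <;> simp [phi_mk, psi, xx, yy, psi0_mk]

lemma phi_psi : (phi K).comp (psi K) = RingHom.id _ := by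
  apply Polynomial.ringHom_ext'
  · apply Polynomial.ringHom_ext'
    · ext1 a
      obtain ⟨f, rfl⟩ : ∃ f, mkA K f = a := Ideal.Quotient.mk_surjective a
      simp only [RingHom.comp_apply, psi, Polynomial.coe_eval₂RingHom, Polynomial.eval₂_C, psi0_mk,
        phi_mk, RingHom.id_apply]
      induction f using MvPolynomial.induction_on with
      | C c => simp [Polynomial.algebraMap_apply, ← MvPolynomial.algebraMap_eq]
      | add f g hf hg => simp only [map_add, hf, hg]
      | mul_X f i hf =>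
        simp only [map_mul, hf]
        fin_cases i <;> simp [xx, yy]
    · simp [psi, phi_mk]
  · simp [psi, phi_mk]

lemma lin_four {f : MvPolynomial (Fin 4) K} (hf : f.IsHomogeneous 1) :
    ∃ α : Fin 4 → K, f = C (α 0) * X 0 + C (α 1) * X 1 + C (α 2) * X 2 + C (α 3) * X 3 := by
  have : f ∈ homogeneousSubmodule (Fin 4) K 1 := hf
  rw [homogeneousSubmodule_one_eq_span_X] at this
  obtain ⟨c, hc⟩ := (Submodule.mem_span_range_iff_exists_fun K).mp this
  exact ⟨c, by rw [← hc, Fin.sum_univ_four]; simp only [smul_eq_C_mul]⟩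

lemma hom_IR : ∀ f ∈ IR K, ∀ d, homogeneousComponent d f ∈ IR K := by
  let _ := MvPolynomial.gradedAlgebra (σ := Fin 4) (R := K)
  have : (IR K).IsHomogeneous (homogeneousSubmodule (Fin 4) K) := by
    apply Ideal.homogeneous_span
    rintro _ (rfl | rfl)
    · exact ⟨_, (isHomogeneous_X _ _).pow 2⟩
    · exact ⟨_, (isHomogeneous_X _ _).pow 2⟩
  intro f hf d
  have h := this d hf
  rw [← MvPolynomial.decomposition.decompose'_apply]
  exact h

theorem uk : UnivKoszul (IR K) := by
  apply univKoszul (hom_IR K)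
  have h1 := cp_poly (K := K) (linP_comb (linA_comb K))
    (cp_poly (K := K) (linA_comb K) (cpA K))
  refine cp_equiv (RingEquiv.ofRingHom (phi K) (psi K) (phi_psi K) (psi_phi K)) (fun a => ?_) h1
  constructor
  · rintro ⟨f, hf, rfl⟩
    obtain ⟨α, rfl⟩ := lin_four K hf
    refine ⟨_, α 3, ⟨_, α 2, ⟨α 0, α 1, rfl⟩, rfl⟩, ?_⟩
    simp [phi_mk, Polynomial.algebraMap_apply]
  · rintro ⟨_, δ, ⟨_, γ, ⟨α, β, rfl⟩, rfl⟩, h⟩
    refine ⟨C α * X 0 + C β * X 1 + C γ * X 2 + C δ * X 3, ?_, ?_⟩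
    · have hh : ∀ (c : K) (i : Fin 4), (C c * X i : MvPolynomial (Fin 4) K).IsHomogeneous 1 :=
        fun c i => (isHomogeneous_X _ _).C_mul c
      exact (((hh _ _).add (hh _ _)).add (hh _ _)).add (hh _ _)
    · apply (RingEquiv.ofRingHom (phi K) (psi K) (phi_psi K) (psi_phi K)).injective
      rw [h]
      simp [phi_mk, Polynomial.algebraMap_apply]

noncomputable def kap : (MvPolynomial (Fin 4) K ⧸ IR K) →+* Polynomial (AA K) :=
  lft K ![Polynomial.C (xx K), Polynomial.C (yy K), Polynomial.X, Polynomial.X ^ 2]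
    (by simp [← map_pow, xx_sq]) (by simp [← map_pow, yy_sq])

lemma kap_mk (f : MvPolynomial (Fin 4) K) : kap K (Ideal.Quotient.mk _ f) =
    aeval ![Polynomial.C (xx K), Polynomial.C (yy K), Polynomial.X, Polynomial.X ^ 2] f := rfl

noncomputable def eta : (MvPolynomial (Fin 4) K ⧸ IR K) →+* AA K :=
  lft K ![xx K, yy K, -xx K, 0] (by simp [xx_sq]) (by simp [yy_sq])

lemma eta_mk (f : MvPolynomial (Fin 4) K) : eta K (Ideal.Quotient.mk _ f) =
    aeval ![xx K, yy K, -xx K, 0] f := rfl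

noncomputable def ww : Fin 4 → MvPolynomial (Fin 4) K ⧸ IR K := fun j =>
  Ideal.Quotient.mk _ (![X 2 * (X 2 + X 0), X 2 * (X 3 + X 1), X 3 * (X 2 + X 0),
    X 3 * (X 3 + X 1)] j)

lemma ww_deg (j : Fin 4) : IsDeg (IR K) 2 (ww K j) := by
  have h : ∀ a b c : Fin 4, (X a * (X b + X c) : MvPolynomial (Fin 4) K).IsHomogeneous 2 :=
    fun a b c => (isHomogeneous_X _ _).mul ((isHomogeneous_X _ _).add (isHomogeneous_X _ _))
  refine ⟨_, ?_, rfl⟩
  fin_cases j
  exacts [h 2 2 0, h 2 3 1, h 3 2 0, h 3 3 1]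

lemma ww_ind (μ : Fin 4 → K) (h : ∑ j, Ideal.Quotient.mk _ (C (μ j)) * ww K j = 0) : μ = 0 := by
  have h1 := congrArg (kap K) h
  simp only [Fin.sum_univ_four, ww, map_add, map_mul, kap_mk, map_zero, aeval_C, aeval_X,
    Matrix.cons_val_zero, Matrix.cons_val_one, Matrix.cons_val, Polynomial.algebraMap_apply] at h1
  have h2 : Polynomial.C (algebraMap K _ (μ 0) * xx K + algebraMap K _ (μ 1) * yy K) *
      Polynomial.X ^ 1 + Polynomial.C (algebraMap K _ (μ 0) + algebraMap K _ (μ 2) * xx K +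
      algebraMap K _ (μ 3) * yy K) * Polynomial.X ^ 2 +
      Polynomial.C (algebraMap K _ (μ 1) + algebraMap K _ (μ 2)) * Polynomial.X ^ 3 +
      Polynomial.C (algebraMap K (AA K) (μ 3)) * Polynomial.X ^ 4 = 0 := by
    rw [← h1]; simp only [map_add, map_mul]; ring
  have c1 := congrArg (fun P => Polynomial.coeff P 1) h2
  have c2 := congrArg (fun P => Polynomial.coeff P 2) h2
  simp only [Polynomial.coeff_add, Polynomial.coeff_C_mul_X_pow, Polynomial.coeff_zero] at c1 c2
  obtain ⟨-, a0, a1, -⟩ := indA K 0 (μ 0) (μ 1) 0 (by simpa using c1)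
  obtain ⟨-, a2, a3, -⟩ := indA K (μ 0) (μ 2) (μ 3) 0 (by simpa using c2)
  funext j
  fin_cases j
  exacts [a0, a1, a2, a3]

lemma lin_syz (l : Fin 4 → MvPolynomial (Fin 4) K ⧸ IR K) (hl : ∀ j, IsDeg (IR K) 1 (l j))
    (h : ∑ j, l j * ww K j = 0) : eta K (l 1) = 0 := by
  choose f hf1 hf2 using hl
  choose α hα using fun j => lin_four K (hf1 j)
  have h1 := congrArg (kap K) h
  simp only [Fin.sum_univ_four, ← hf2, hα, ww, map_add, map_mul, kap_mk, map_zero, aeval_C, aeval_X,
    Matrix.cons_val_zero, Matrix.cons_val_one, Matrix.cons_val, Polynomial.algebraMap_apply] at h1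
  have hx : Polynomial.C (xx K) ^ 2 = 0 := by rw [← map_pow, xx_sq, map_zero]
  have hy : Polynomial.C (yy K) ^ 2 = 0 := by rw [← map_pow, yy_sq, map_zero]
  have h2 : Polynomial.C (algebraMap K _ (α 0 1 + α 1 0) * (xx K * yy K)) * Polynomial.X ^ 1 +
      Polynomial.C (algebraMap K _ (α 0 0 + α 0 2) * xx K + algebraMap K _ (α 0 1 + α 1 2) * yy K +
        algebraMap K _ (α 2 1 + α 3 0) * (xx K * yy K)) * Polynomial.X ^ 2 +
      Polynomial.C (algebraMap K _ (α 0 2) + algebraMap K _ (α 0 3 + α 1 0 + α 2 0 + α 2 2) * xx K +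
        algebraMap K _ (α 1 1 + α 1 3 + α 2 1 + α 3 2) * yy K) * Polynomial.X ^ 3 +
      Polynomial.C (algebraMap K _ (α 0 3 + α 1 2 + α 2 2) + algebraMap K _ (α 2 3 + α 3 0) * xx K +
        algebraMap K _ (α 3 1 + α 3 3) * yy K) * Polynomial.X ^ 4 +
      Polynomial.C (algebraMap K (AA K) (α 1 3 + α 2 3 + α 3 2)) * Polynomial.X ^ 5 +
      Polynomial.C (algebraMap K (AA K) (α 3 3)) * Polynomial.X ^ 6 = 0 := by
    simp only [map_add, map_mul]
    linear_combination h1 - (Polynomial.C (algebraMap K (AA K) (α 0 0)) * Polynomial.X +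
      Polynomial.C (algebraMap K (AA K) (α 2 0)) * Polynomial.X ^ 2) * hx -
      (Polynomial.C (algebraMap K (AA K) (α 1 1)) * Polynomial.X +
      Polynomial.C (algebraMap K (AA K) (α 3 1)) * Polynomial.X ^ 2) * hy
  have c1 := congrArg (fun P => Polynomial.coeff P 1) h2
  have c2 := congrArg (fun P => Polynomial.coeff P 2) h2
  have c3 := congrArg (fun P => Polynomial.coeff P 3) h2
  have c4 := congrArg (fun P => Polynomial.coeff P 4) h2
  have c5 := congrArg (fun P => Polynomial.coeff P 5) h2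
  simp +decide only [Polynomial.coeff_add, Polynomial.coeff_C_mul_X_pow, Polynomial.coeff_zero,
    if_true, if_false, add_zero, zero_add] at c1 c2 c3 c4 c5
  obtain ⟨-, -, -, a1⟩ := indA K 0 0 0 (α 0 1 + α 1 0) (by rw [map_zero]; linear_combination c1)
  obtain ⟨-, -, a2, a3⟩ := indA K 0 (α 0 0 + α 0 2) (α 0 1 + α 1 2) (α 2 1 + α 3 0)
    (by rw [map_zero]; linear_combination c2)
  obtain ⟨-, -, a4, -⟩ := indA K (α 0 2) (α 0 3 + α 1 0 + α 2 0 + α 2 2) (α 1 1 + α 1 3 + α 2 1 + α 3 2) 0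
    (by rw [map_zero]; linear_combination c3)
  obtain ⟨-, a5, -, -⟩ := indA K (α 0 3 + α 1 2 + α 2 2) (α 2 3 + α 3 0) (α 3 1 + α 3 3) 0
    (by rw [map_zero]; linear_combination c4)
  obtain ⟨a6, -, -, -⟩ := indA K (α 1 3 + α 2 3 + α 3 2) 0 0 0 (by rw [map_zero]; linear_combination c5)
  have b1 : α 1 1 = 0 := by linear_combination a4 - a6 - a3 + a5
  have b2 : α 1 2 = α 1 0 := by linear_combination a2 - a1
  rw [← hf2, hα, eta_mk]
  simp [b1, b2]

lemma deg_zero {r : MvPolynomial (Fin 4) K ⧸ IR K} (h : IsDeg (IR K) 0 r) :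
    ∃ c : K, r = Ideal.Quotient.mk _ (C c) := by
  obtain ⟨f, hf, rfl⟩ := h
  refine ⟨coeff 0 f, ?_⟩
  rw [← totalDegree_eq_zero_iff_eq_C.mp ((totalDegree_zero_iff_isHomogeneous _).mpr hf)]

lemma scal {ι κ : Type} [Fintype κ] (u : ι → MvPolynomial (Fin 4) K ⧸ IR K)
    (v : κ → MvPolynomial (Fin 4) K ⧸ IR K) (hu : ∀ i, IsDeg (IR K) 2 (u i))
    (hv : ∀ i, IsDeg (IR K) 2 (v i)) (h : ∀ i, u i ∈ Ideal.span (Set.range v)) :
    ∃ P : ι → κ → K, ∀ i, u i = ∑ k, Ideal.Quotient.mk _ (C (P i k)) * v k := by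
  have : ∀ i, ∃ p : κ → K, u i = ∑ k, Ideal.Quotient.mk _ (C (p k)) * v k := by
    intro i
    obtain ⟨c, hc⟩ := (Submodule.mem_span_range_iff_exists_fun _).mp (h i)
    obtain ⟨c', h1, -, h3⟩ := coef_deg (hom_IR K) c 0
    choose p hp using fun k => deg_zero K (h1 k)
    refine ⟨p, ?_⟩
    rw [h3 2 v (u i) hv (hu i) hc.symm]
    simp only [hp]
  choose P hP using this
  exact ⟨P, hP⟩

theorem not_lin : ¬ HasLinRes (IR K) 2 (Ideal.span (Set.range (ww K))) := by
  rintro ⟨b, g, A, hg, hsp, hA, hex, -⟩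
  obtain ⟨P, hP⟩ := scal K g (ww K) hg (ww_deg K) (fun k => hsp ▸ Ideal.subset_span ⟨k, rfl⟩)
  obtain ⟨Q, hQ⟩ := scal K (ww K) g (ww_deg K) hg (fun k => hsp ▸ Ideal.subset_span ⟨k, rfl⟩)
  set c : K →+* MvPolynomial (Fin 4) K ⧸ IR K := (Ideal.Quotient.mk _).comp C with hc
  have hc' : ∀ a, Ideal.Quotient.mk (IR K) (C a) = c a := fun _ => rfl
  simp only [hc'] at hP hQ
  have hQP : ∀ j i, ∑ k, Q j k * P k i = if j = i then 1 else 0 := by
    intro j
    have := ww_ind K (fun i => ∑ k, Q j k * P k i - if j = i then 1 else 0) (by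
      simp only [hc', map_sub, sub_mul, Finset.sum_sub_distrib, map_sum, map_mul, Finset.sum_mul]
      rw [Finset.sum_comm, sub_eq_zero]
      simp only [apply_ite c, map_one, map_zero, ite_mul, one_mul, zero_mul, Finset.sum_ite_eq,
        Finset.mem_univ, if_true]
      rw [hQ j]
      refine Finset.sum_congr rfl fun k _ => ?_
      rw [hP k, Finset.mul_sum]
      simp only [mul_assoc])
    intro i
    exact sub_eq_zero.mp (congrFun this i)
  set s : MvPolynomial (Fin 4) K ⧸ IR K := Ideal.Quotient.mk _ (X 0 * X 1) with hs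
  have hσ : s * ww K 2 - s * ww K 1 = 0 := by
    rw [hs]
    simp only [ww]
    rw [← map_mul, ← map_mul, ← map_sub, Ideal.Quotient.eq_zero_iff_mem]
    exact Ideal.mem_span_pair.mpr ⟨X 1 * X 3, -(X 0 * X 2), by simp; ring⟩
  obtain ⟨z, hz⟩ := (hex (fun k => s * (c (Q 2 k) - c (Q 1 k)))).mp (by
    rw [← hσ, hQ 2, hQ 1, Finset.mul_sum, Finset.mul_sum, ← Finset.sum_sub_distrib]
    refine Finset.sum_congr rfl fun k _ => by ring)
  have hcol : ∀ l, eta K (∑ k, c (P k 1) * A 0 k l) = 0 := by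
    intro l
    refine lin_syz K (fun i => ∑ k, c (P k i) * A 0 k l) (fun i => ?_) ?_
    · choose f hf1 hf2 using fun k => hA 0 k l
      refine ⟨∑ k, C (P k i) * f k, IsHomogeneous.sum _ _ _ fun k _ => (hf1 k).C_mul _, ?_⟩
      simp only [map_sum, map_mul, hf2, hc']
    · have h0 := (hex ((A 0).mulVec (Pi.single l 1))).mpr ⟨_, rfl⟩
      simp only [Matrix.mulVec_single_one, Matrix.col_apply] at h0
      rw [← h0]
      simp only [Finset.sum_mul]
      rw [Finset.sum_comm]
      refine Finset.sum_congr rfl fun k _ => ?_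
      rw [hP k, Finset.sum_mul]
      refine Finset.sum_congr rfl fun i _ => by ring
  have h1 : ∑ k, c (P k 1) * (s * (c (Q 2 k) - c (Q 1 k))) = -s := by
    have e1 := congrArg c (hQP 2 1)
    have e2 := congrArg c (hQP 1 1)
    simp only [map_sum, map_mul, if_true, map_one] at e1 e2
    rw [if_neg (by decide), map_zero] at e1
    have : ∑ k, c (P k 1) * (s * (c (Q 2 k) - c (Q 1 k))) =
        s * (∑ k, c (Q 2 k) * c (P k 1) - ∑ k, c (Q 1 k) * c (P k 1)) := by
      rw [← Finset.sum_sub_distrib, Finset.mul_sum]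
      refine Finset.sum_congr rfl fun k _ => by ring
    rw [this, e1, e2]; ring
  have h2 : ∑ k, c (P k 1) * (s * (c (Q 2 k) - c (Q 1 k))) =
      ∑ l, (∑ k, c (P k 1) * A 0 k l) * z l := by
    simp only [← congrFun hz, Matrix.mulVec, dotProduct, Finset.mul_sum, Finset.sum_mul]
    rw [Finset.sum_comm]
    simp only [mul_assoc]
  have h3 := congrArg (eta K) (h1.symm.trans h2)
  rw [map_sum] at h3
  simp only [map_mul, hcol, zero_mul, Finset.sum_const_zero, map_neg, neg_eq_zero] at h3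
  rw [hs, eta_mk] at h3
  obtain ⟨-, -, -, h4⟩ := indA K 0 0 0 1 (by simpa using h3)
  exact one_ne_zero h4

lemma prod_eq : Ideal.span {Ideal.Quotient.mk (IR K) (X 2), Ideal.Quotient.mk (IR K) (X 3)} *
    Ideal.span {Ideal.Quotient.mk (IR K) (X 2 + X 0), Ideal.Quotient.mk (IR K) (X 3 + X 1)} =
    Ideal.span (Set.range (ww K)) := by
  rw [Ideal.span_pair_mul_span_pair]
  congr 1
  ext r
  simp only [Set.mem_insert_iff, Set.mem_singleton_iff, Set.mem_range, ← map_mul]
  constructor
  · rintro (rfl | rfl | rfl | rfl)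
    exacts [⟨0, rfl⟩, ⟨1, rfl⟩, ⟨2, rfl⟩, ⟨3, rfl⟩]
  · rintro ⟨j, rfl⟩
    fin_cases j
    exacts [Or.inl rfl, Or.inr (Or.inl rfl), Or.inr (Or.inr (Or.inl rfl)),
      Or.inr (Or.inr (Or.inr rfl))]

lemma prod_ne : Ideal.span (Set.range (ww K)) ≠ ⊥ := by
  intro h
  have h1 : ww K 0 = 0 := Ideal.span_eq_bot.mp h _ ⟨0, rfl⟩
  have := ww_ind K ![1, 0, 0, 0] (by simp [Fin.sum_univ_four, h1])
  simpa using congrFun this 0

end Pool.Agent.H79.UKP
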