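import Mathlib
import Pool.Agent.H79.Lovasz

set_option autoImplicit false

namespace Pool.Agent.H79.WLP

open Module Pool.Agent.H79.Lovasz

variable {K : Type} [Field K] {ι : Type} [Fintype ι] [DecidableEq ι]
variable {E : Type} [AddCommGroup E] [Module K E] [FiniteDimensional K E]

/-- evaluation of linear forms on the points of `T` -/
def evT (p : ι → E) (T : Finset ι) : Dual K E →ₗ[K] (ι → K) where
  toFun a := fun i => if i ∈ T then a (p i) else 0
  map_add' a b := by funext i; by_cases h : i ∈ T <;> simp [h]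
  map_smul' c a := by funext i; by_cases h : i ∈ T <;> simp [h]

/-- span of the points of `T` -/
def UT (K : Type) [Field K] [Module K E] (p : ι → E) (T : Finset ι) : Submodule K E :=
  Submodule.span K (p '' T)

omit [Fintype ι] in
theorem finrank_evT (p : ι → E) (T : Finset ι) :
    finrank K (LinearMap.range (evT (K := K) p T)) = finrank K (UT K p T) := by
  have h1 := LinearMap.finrank_range_add_finrank_ker (evT (K := K) p T)
  have h2 : LinearMap.ker (evT (K := K) p T) = (UT K p T).dualAnnihilator := by
    ext a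
    rw [LinearMap.mem_ker, Submodule.mem_dualAnnihilator]
    constructor
    · intro h w hw
      have : UT K p T ≤ LinearMap.ker a := by
        rw [UT, Submodule.span_le]
        rintro _ ⟨i, hi, rfl⟩
        have := congrFun h i
        simpa [evT, Finset.mem_coe.1 hi] using this
      exact this hw
    · intro h
      funext i
      by_cases hi : i ∈ T
      · simpa [evT, hi] using h _ (Submodule.subset_span ⟨i, hi, rfl⟩)
      · simp [evT, hi]
  have h3 := Subspace.finrank_add_finrank_dualAnnihilator_eq (UT K p T)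
  rw [h2, Subspace.dual_finrank_eq] at h1
  omega

theorem finrank_sup_le {X : Type} [AddCommGroup X] [Module K X] [FiniteDimensional K X]
    {α : Type} (V : α → Submodule K X) (Q : Finset α) :
    finrank K (Q.sup V : Submodule K X) ≤ ∑ T ∈ Q, finrank K (V T) := by
  classical
  induction Q using Finset.induction_on with
  | empty => rw [Finset.sup_empty]; simp
  | insert a s ha ih =>
    rw [Finset.sup_insert, Finset.sum_insert ha]
    have := Submodule.finrank_sup_add_finrank_inf_eq (V a) (s.sup V)
    omega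

theorem isotropy (p : ι → E) (μ : ι → K)
    (h1 : ∀ a b : Dual K E, ∑ i, μ i * a (p i) * b (p i) = 0)
    {α : Type} [DecidableEq α] (π : ι → α)
    (h2 : ∀ t ∈ Finset.univ.image π, ∃ a b : Dual K E,
      ∑ i ∈ Finset.univ.filter (π · = t), μ i * a (p i) * b (p i) ≠ 0) :
    (Finset.univ.image π).card + 2 * finrank K (UT K p Finset.univ) ≤
      2 * ∑ t ∈ Finset.univ.image π, finrank K (UT K p (Finset.univ.filter (π · = t))) := by
  let F := LinearMap.range (evT (K := K) p Finset.univ)
  let F' : Submodule K (ι → K) := (Finset.univ.image π).sup fun t =>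
    LinearMap.range (evT (K := K) p (Finset.univ.filter (π · = t)))
  have hFF' : F ≤ F' := by
    rintro _ ⟨a, rfl⟩
    have : evT p Finset.univ a =
        ∑ t ∈ Finset.univ.image π, evT p (Finset.univ.filter (π · = t)) a := by
      funext i
      simp [evT, Finset.sum_apply]
    rw [this]
    exact Submodule.sum_mem _ fun t ht => Finset.le_sup (f := fun t =>
      LinearMap.range (evT (K := K) p (Finset.univ.filter (π · = t)))) ht ⟨a, rfl⟩
  have hF' : finrank K F' ≤
      ∑ t ∈ Finset.univ.image π, finrank K (UT K p (Finset.univ.filter (π · = t))) := by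
    refine (finrank_sup_le _ _).trans (le_of_eq ?_)
    exact Finset.sum_congr rfl fun t _ => finrank_evT _ _
  have hF : finrank K F = finrank K (UT K p Finset.univ) := finrank_evT _ _
  let β : (ι → K) →ₗ[K] (ι → K) →ₗ[K] K := LinearMap.mk₂ K (fun x y => ∑ i, μ i * x i * y i)
    (fun x x' y => by simp [mul_add, add_mul, Finset.sum_add_distrib])
    (fun c x y => by simp [Finset.mul_sum]; exact Finset.sum_congr rfl fun _ _ => by ring)
    (fun x y y' => by simp [mul_add, Finset.sum_add_distrib])
    (fun c x y => by simp [Finset.mul_sum]; exact Finset.sum_congr rfl fun _ _ => by ring)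
  have hβ : ∀ x y, β x y = ∑ i, μ i * x i * y i := fun _ _ => rfl
  let B : F' →ₗ[K] Dual K F' := β.domRestrict₁₂ F' F'
  let S : Submodule K F' := F.comap F'.subtype
  have hS : finrank K S = finrank K F := (Submodule.comapSubtypeEquivOfLe hFF').finrank_eq
  have h3 : S.map B ≤ S.dualAnnihilator := by
    rintro _ ⟨⟨x, hx⟩, ⟨a, ha⟩, rfl⟩
    rw [Submodule.mem_dualAnnihilator]
    rintro ⟨y, hy⟩ ⟨b, hb⟩
    change β x y = 0
    have ha' : evT p Finset.univ a = x := ha
    have hb' : evT p Finset.univ b = y := hb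
    rw [hβ, ← ha', ← hb']
    simpa [evT] using h1 a b
  have h4 := Submodule.finrank_mono h3
  have h5 := Subspace.finrank_add_finrank_dualAnnihilator_eq S
  have h6 := finrank_map_add B S
  have h7 := LinearMap.finrank_range_add_finrank_ker B
  have h8 : finrank K (S ⊓ LinearMap.ker B : Submodule K F') ≤ finrank K (LinearMap.ker B) :=
    Submodule.finrank_mono inf_le_right
  choose a b hab using fun t : Finset.univ.image π => h2 t.1 t.2
  have hmem : ∀ (t : Finset.univ.image π) (c : Dual K E),
      evT p (Finset.univ.filter (π · = t.1)) c ∈ F' := fun t c =>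
    Finset.le_sup (f := fun t =>
      LinearMap.range (evT (K := K) p (Finset.univ.filter (π · = t)))) t.2 ⟨c, rfl⟩
  have h9 : LinearIndependent K fun t : Finset.univ.image π =>
      (⟨B ⟨_, hmem t (a t)⟩, LinearMap.mem_range_self _ _⟩ : LinearMap.range B) := by
    apply LinearIndependent.of_comp (LinearMap.range B).subtype
    rw [Fintype.linearIndependent_iff]
    intro g hg t
    have h10 := LinearMap.congr_fun hg ⟨_, hmem t (b t)⟩
    rw [LinearMap.sum_apply, Finset.sum_eq_single t] at h10
    · refine (mul_eq_zero.1 h10).resolve_right fun h => hab t ?_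
      rw [← h]
      change _ = β _ _
      rw [hβ, Finset.sum_filter]
      refine Finset.sum_congr rfl fun i _ => ?_
      by_cases hi : π i = t <;> simp [evT, hi]
    · intro s _ hs
      change g s * β _ _ = 0
      rw [hβ, Finset.sum_eq_zero, mul_zero]
      intro i _
      by_cases hi : π i = t
      · have : π i ≠ s := fun h => hs (Subtype.ext (h.symm.trans hi))
        simp [evT, this]
      · simp [evT, hi]
    · simp
  have h10 := h9.fintype_card_le_finrank
  rw [Fintype.card_coe] at h10
  omega

/-- `U ⊕ U` inside `E × E` -/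
def PP (U : Submodule K E) : Submodule K (E × E) :=
  U.map (LinearMap.inl K E E) ⊔ U.map (LinearMap.inr K E E)

omit [FiniteDimensional K E] in
theorem mem_PP (U : Submodule K E) (x : E × E) : x ∈ PP U ↔ x.1 ∈ U ∧ x.2 ∈ U := by
  constructor
  · intro h
    obtain ⟨_, ⟨a, ha, rfl⟩, _, ⟨b, hb, rfl⟩, rfl⟩ := Submodule.mem_sup.1 h
    exact ⟨by simpa using ha, by simpa using hb⟩
  · rintro ⟨h1, h2⟩
    exact Submodule.mem_sup.2 ⟨_, ⟨x.1, h1, rfl⟩, _, ⟨x.2, h2, rfl⟩, by simp⟩

theorem finrank_PP (U : Submodule K E) : finrank K (PP U) = 2 * finrank K U := by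
  have h := Submodule.finrank_sup_add_finrank_inf_eq (U.map (LinearMap.inl K E E))
    (U.map (LinearMap.inr K E E))
  have h1 : U.map (LinearMap.inl K E E) ⊓ U.map (LinearMap.inr K E E) = ⊥ := by
    rw [eq_bot_iff]
    rintro x ⟨⟨a, -, ha⟩, ⟨b, -, hb⟩⟩
    rw [Submodule.mem_bot]
    exact Prod.ext (by rw [← hb]; rfl) (by rw [← ha]; rfl)
  rw [h1, finrank_bot, ← (Submodule.equivMapOfInjective _ LinearMap.inl_injective U).finrank_eq,
    ← (Submodule.equivMapOfInjective _ LinearMap.inr_injective U).finrank_eq] at h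
  unfold PP
  omega

theorem exists_special [Infinite K] (p : ι → E) (hp : ∀ i, p i ≠ 0) (lam : ι → K)
    (V : Submodule K (ι → K))
    (h1 : ∀ c ∈ V, ∀ a b : Dual K E, ∑ i, lam i * c i * a (p i) * b (p i) = 0)
    (h2 : ∀ T : Finset ι, T.Nonempty → T ≠ Finset.univ → ∃ c ∈ V, ∃ a b : Dual K E,
      ∑ i ∈ T, lam i * c i * a (p i) * b (p i) ≠ 0) :
    ∃ L l : Dual K E, 2 * finrank K (UT K p Finset.univ) ≤ finrank K (Submodule.span K
      (Set.range fun i => ((l (p i) • p i, -L (p i) • p i) : E × E))) + 1 := by
  classical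
  obtain ⟨φ, hφ, 𝒯, hne, hcov, hsum⟩ := lovasz (K := K) (ι := ι) _ (E × E) le_rfl
    (fun i => PP (Submodule.span K {p i})) (by
      intro i h
      have : ((p i, 0) : E × E) ∈ PP (Submodule.span K {p i}) :=
        (mem_PP _ _).2 ⟨Submodule.mem_span_singleton_self _, Submodule.zero_mem _⟩
      rw [h, Submodule.mem_bot] at this
      exact hp i (congrArg Prod.fst this))
  refine ⟨φ.comp (LinearMap.inl K E E), φ.comp (LinearMap.inr K E E), ?_⟩
  have hle : (Finset.univ.sup fun i => PP (Submodule.span K {p i}) ⊓ LinearMap.ker φ) ≤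
      Submodule.span K (Set.range fun i => ((φ.comp (LinearMap.inr K E E) (p i) • p i,
        -φ.comp (LinearMap.inl K E E) (p i) • p i) : E × E)) := by
    refine Finset.sup_le fun i _ => ?_
    have hval : ∀ s t : K, φ (s • p i, t • p i) = s * φ (p i, 0) + t * φ (0, p i) := by
      intro s t
      rw [← smul_eq_mul, ← smul_eq_mul, ← map_smul, ← map_smul, ← map_add]
      congr 1; simp
    rintro ⟨x, y⟩ ⟨hx, hker⟩
    obtain ⟨hx, hy⟩ := (mem_PP _ _).1 hx
    obtain ⟨s, rfl⟩ := Submodule.mem_span_singleton.1 hx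
    obtain ⟨t, rfl⟩ := Submodule.mem_span_singleton.1 hy
    have h3 : s * φ (p i, 0) + t * φ (0, p i) = 0 := by rw [← hval]; exact hker
    have hgen := Submodule.subset_span (R := K) (s := Set.range fun i =>
      ((φ.comp (LinearMap.inr K E E) (p i) • p i,
        -φ.comp (LinearMap.inl K E E) (p i) • p i) : E × E)) ⟨i, rfl⟩
    simp only [LinearMap.comp_apply, LinearMap.inl_apply, LinearMap.inr_apply] at hgen ⊢
    by_cases hA : φ (p i, 0) = 0
    · by_cases hB : φ (0, p i) = 0
      · exfalso
        apply hφ i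
        rintro ⟨x, y⟩ hx
        obtain ⟨hx, hy⟩ := (mem_PP _ _).1 hx
        obtain ⟨s, rfl⟩ := Submodule.mem_span_singleton.1 hx
        obtain ⟨t, rfl⟩ := Submodule.mem_span_singleton.1 hy
        rw [LinearMap.mem_ker, hval, hA, hB]; simp
      · convert Submodule.smul_mem _ (s / φ (0, p i)) hgen using 1
        have ht : t = 0 := by simpa [hA, hB] using h3
        simp [hA, ht, smul_smul, hB]
    · convert Submodule.smul_mem _ (-t / φ (p i, 0)) hgen using 1
      rw [Prod.smul_mk, smul_smul, smul_smul]
      congr 2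
      · field_simp; linear_combination h3
      · field_simp
  have hle' := Submodule.finrank_mono hle
  choose π hπ hπi using hcov
  have hT : ∀ T ∈ 𝒯, 2 * finrank K (UT K p T) ≤
      finrank K (T.sup fun i => PP (Submodule.span K {p i}) : Submodule K (E × E)) := by
    intro T _
    rw [← finrank_PP]
    apply Submodule.finrank_mono
    refine sup_le ?_ ?_ <;> rw [Submodule.map_le_iff_le_comap, UT, Submodule.span_le] <;>
      rintro _ ⟨i, hi, rfl⟩ <;>
      refine Finset.le_sup (f := fun i => PP (Submodule.span K {p i})) hi ((mem_PP _ _).2 ?_) <;>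
      simp [Submodule.mem_span_singleton_self]
  have hpos : ∀ T ∈ 𝒯, 1 ≤ finrank K (UT K p T) := by
    intro T hT
    obtain ⟨i, hi⟩ := hne T hT
    rw [Submodule.one_le_finrank_iff]
    intro h
    have : p i ∈ UT K p T := Submodule.subset_span ⟨i, hi, rfl⟩
    rw [h] at this
    exact hp i this
  have hsub : Finset.univ.image π ⊆ 𝒯 := by
    intro t ht
    obtain ⟨i, -, rfl⟩ := Finset.mem_image.1 ht
    exact hπ i
  have h3 : 2 * ∑ t ∈ Finset.univ.image π, finrank K (UT K p (Finset.univ.filter (π · = t))) +
      (𝒯 \ Finset.univ.image π).card ≤ ∑ T ∈ 𝒯,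
      finrank K (T.sup fun i => PP (Submodule.span K {p i}) : Submodule K (E × E)) := by
    rw [← Finset.sum_sdiff hsub, add_comm, Finset.card_eq_sum_ones, Finset.mul_sum]
    refine add_le_add (Finset.sum_le_sum fun T hT' => ?_) (Finset.sum_le_sum fun T hT' => ?_)
    · have := hT T (Finset.mem_sdiff.1 hT').1
      have := hpos T (Finset.mem_sdiff.1 hT').1
      omega
    · refine le_trans (Nat.mul_le_mul_left _ (Submodule.finrank_mono ?_)) (hT T (hsub hT'))
      refine Submodule.span_mono (Set.image_mono fun i hi => ?_)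
      have : π i = T := by simpa using hi
      rw [← this]; exact hπi i
  have h4 := Finset.card_sdiff_add_card_eq_card hsub
  by_cases hk : ∃ t ∈ Finset.univ.image π, Finset.univ.filter (π · = t) = Finset.univ
  · obtain ⟨t, ht, h⟩ := hk
    have h5 : Finset.univ.image π = {t} := by
      refine Finset.eq_singleton_iff_unique_mem.2 ⟨ht, fun s hs => ?_⟩
      obtain ⟨i, -, rfl⟩ := Finset.mem_image.1 hs
      have : i ∈ Finset.univ.filter (π · = t) := by rw [h]; exact Finset.mem_univ i
      simpa using this
    rw [h5] at h3 h4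
    rw [Finset.sum_singleton, h] at h3
    rw [Finset.card_singleton] at h4
    omega
  · push Not at hk
    have h5 : ∀ t : Finset.univ.image π, ∃ c ∈ V, ∃ a b : Dual K E,
        ∑ i ∈ Finset.univ.filter (π · = t.1), lam i * c i * a (p i) * b (p i) ≠ 0 := by
      intro t
      refine h2 _ ?_ (hk _ t.2)
      obtain ⟨i, -, hi⟩ := Finset.mem_image.1 t.2
      exact ⟨i, by simpa using hi⟩
    choose c hc a b hab using h5
    obtain ⟨c0, hc0, hc1⟩ := Module.Dual.exists_forall_mem_ne_zero_of_forall_exists V
      (fun t : Finset.univ.image π => ∑ i ∈ Finset.univ.filter (π · = t.1),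
        (lam i * a t (p i) * b t (p i)) • LinearMap.proj i) (fun t => ⟨c t, hc t, by
          convert hab t using 1
          rw [LinearMap.sum_apply]
          exact Finset.sum_congr rfl fun i _ => by simp; ring⟩)
    have h6 := isotropy p (fun i => lam i * c0 i) (h1 c0 hc0) π (fun t ht => ⟨a ⟨t, ht⟩, b ⟨t, ht⟩,
      by
        convert hc1 ⟨t, ht⟩ using 1
        rw [LinearMap.sum_apply]
        exact Finset.sum_congr rfl fun i _ => by simp; ring⟩)
    omega

omit [DecidableEq ι] in
theorem inj_of_rank (p : ι → E) (L l : Dual K E) (i0 : ι) (hL : L (p i0) ≠ 0)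
    (h : 2 * finrank K (UT K p Finset.univ) ≤ finrank K (Submodule.span K
      (Set.range fun i => ((l (p i) • p i, -L (p i) • p i) : E × E))) + 1)
    (f g : Dual K E) (hfg : ∀ i, l (p i) * f (p i) = L (p i) * g (p i)) :
    ∃ κ : K, ∀ i, f (p i) = κ * L (p i) := by
  set Y := Submodule.span K (Set.range fun i => ((l (p i) • p i, -L (p i) • p i) : E × E))
  have hU : ∀ i, p i ∈ UT K p Finset.univ := fun i => Submodule.subset_span ⟨i, by simp, rfl⟩
  let H := PP (UT K p Finset.univ) ⊓ LinearMap.ker (L.coprod l)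
  have h1 : Y ≤ H := by
    rw [Submodule.span_le]
    rintro _ ⟨i, rfl⟩
    exact ⟨(mem_PP _ _).2 ⟨Submodule.smul_mem _ _ (hU i), Submodule.smul_mem _ _ (hU i)⟩, by
      simp [mul_comm]⟩
  have h2 : H < PP (UT K p Finset.univ) := by
    refine lt_of_le_of_ne inf_le_left fun h => ?_
    have : ((p i0, 0) : E × E) ∈ H := by
      rw [h]; exact (mem_PP _ _).2 ⟨hU i0, Submodule.zero_mem _⟩
    exact hL (by simpa using this.2)
  have h3 := Submodule.finrank_lt_finrank_of_lt h2
  rw [finrank_PP] at h3
  have h4 : Y = H := Submodule.eq_of_le_of_finrank_le h1 (by omega)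
  have h5 : Y ≤ LinearMap.ker (f.coprod g) := by
    rw [Submodule.span_le]
    rintro _ ⟨i, rfl⟩
    simp [hfg i]
  refine ⟨f (p i0) / L (p i0), fun i => ?_⟩
  have h6 : ((L (p i0) • p i - L (p i) • p i0, 0) : E × E) ∈ H :=
    ⟨(mem_PP _ _).2 ⟨Submodule.sub_mem _ (Submodule.smul_mem _ _ (hU i))
      (Submodule.smul_mem _ _ (hU i0)), Submodule.zero_mem _⟩, by simp [mul_comm]⟩
  have h7 := h5 (h4 ▸ h6)
  simp only [LinearMap.mem_ker, LinearMap.coprod_apply, map_sub, map_smul, smul_eq_mul, map_zero,
    add_zero] at h7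
  field_simp
  linear_combination h7

omit [DecidableEq ι] in
theorem open_rank {X : Type} [AddCommGroup X] [Module K X] [FiniteDimensional K X] {σ : Type}
    (u v : ι → X) (w : ι → MvPolynomial σ K) (c0 : σ → K) :
    ∃ F : MvPolynomial σ K, F ≠ 0 ∧ ∀ c : σ → K, MvPolynomial.eval c F ≠ 0 →
      finrank K (Submodule.span K (Set.range fun i => u i + MvPolynomial.eval c0 (w i) • v i)) ≤
      finrank K (Submodule.span K (Set.range fun i => u i + MvPolynomial.eval c (w i) • v i)) := by
  classical
  obtain ⟨κ, a, ha, hspan, hli⟩ := exists_linearIndependent' K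
    fun i => u i + MvPolynomial.eval c0 (w i) • v i
  have : Fintype κ := Fintype.ofInjective a ha
  obtain ⟨Λ, hΛ⟩ := LinearMap.exists_leftInverse_of_injective
    (Fintype.linearCombination K ((fun i => u i + MvPolynomial.eval c0 (w i) • v i) ∘ a))
    (LinearMap.ker_eq_bot.2 (hli.fintypeLinearCombination_injective))
  let M : Matrix κ κ (MvPolynomial σ K) := Matrix.of fun j l =>
    MvPolynomial.C (Λ (u (a j)) l) + w (a j) * MvPolynomial.C (Λ (v (a j)) l)
  have hM : ∀ c, MvPolynomial.eval c M.det =
      (Matrix.of fun j l => Λ (u (a j) + MvPolynomial.eval c (w (a j)) • v (a j)) l).det := by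
    intro c
    rw [RingHom.map_det]
    congr 1
    ext j l
    simp [M]
  refine ⟨M.det, fun h => ?_, fun c hc => ?_⟩
  · have h1 := hM c0
    have h2 : (Matrix.of fun j l => Λ (u (a j) + MvPolynomial.eval c0 (w (a j)) • v (a j)) l) =
        1 := by
      ext j l
      have := LinearMap.congr_fun hΛ (Pi.single j 1)
      rw [LinearMap.comp_apply, Fintype.linearCombination_apply_single, one_smul] at this
      rw [Matrix.of_apply]
      erw [this]
      simp [Matrix.one_apply, Pi.single_apply, eq_comm]
    rw [h, h2] at h1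
    simp at h1
  · rw [hM] at hc
    have h1 := Matrix.linearIndependent_rows_of_det_ne_zero hc
    have h2 : LinearIndependent K ((fun i => u i + MvPolynomial.eval c (w i) • v i) ∘ a) :=
      LinearIndependent.of_comp Λ h1
    rw [← hspan, finrank_span_eq_card hli, ← finrank_span_eq_card h2]
    exact Submodule.finrank_mono (Submodule.span_mono (Set.range_comp_subset_range _ _))

end Pool.Agent.H79.WLP
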