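import Mathlib
import Pool.Agent.H79.WLP1

set_option autoImplicit false

namespace Pool.Agent.H79.WLP

open Module MvPolynomial

variable {K : Type} [Field K] {ι σ : Type} [Fintype σ]

/-- the linear form with coefficient vector `c` -/
noncomputable abbrev lin (c : σ → K) : MvPolynomial σ K := ∑ i, C (c i) * (X i : MvPolynomial σ K)

theorem lin_hom (c : σ → K) : (lin c).IsHomogeneous 1 :=
  IsHomogeneous.sum _ _ _ fun _ _ => isHomogeneous_C_mul_X _ _

/-- evaluation at the points -/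
noncomputable def evq (q : ι → σ → K) : MvPolynomial σ K →ₐ[K] (ι → K) := aeval fun k i => q i k

omit [Fintype σ] in
theorem evq_apply (q : ι → σ → K) (f : MvPolynomial σ K) (i : ι) : evq q f i = eval (q i) f := by
  induction f using MvPolynomial.induction_on with
  | C a => simp [evq]
  | add p r hp hr => simp [hp, hr]
  | mul_X p k hp => rw [map_mul, Pi.mul_apply, hp]; simp [evq]

/-- values of forms of degree `d` -/
noncomputable def V (q : ι → σ → K) (d : ℕ) : Submodule K (ι → K) :=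
  (homogeneousSubmodule σ K d).map (evq q).toLinearMap

/-- shifted version -/
noncomputable def V' (q : ι → σ → K) : ℕ → Submodule K (ι → K)
  | 0 => ⊥
  | d + 1 => V q d

variable (q : ι → σ → K)

omit [Fintype σ] in
theorem mem_V {d : ℕ} {u : ι → K} : u ∈ V q d ↔ ∃ f, f.IsHomogeneous d ∧ evq q f = u := Iff.rfl

omit [Fintype σ] in
theorem V_mul {d e : ℕ} {u v : ι → K} (hu : u ∈ V q d) (hv : v ∈ V q e) : u * v ∈ V q (d + e) := by
  obtain ⟨f, hf, rfl⟩ := hu
  obtain ⟨g, hg, rfl⟩ := hv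
  exact ⟨f * g, IsHomogeneous.mul hf hg, map_mul (evq q) _ _⟩

omit [Fintype σ] in
theorem one_mem_V : (1 : ι → K) ∈ V q 0 := ⟨1, isHomogeneous_one _ _, map_one (evq q)⟩

omit [Fintype σ] in
theorem X_mem_V (k : σ) : evq q (X k) ∈ V q 1 := ⟨X k, isHomogeneous_X _ _, rfl⟩

omit [Fintype σ] in
theorem mem_V_zero {u : ι → K} (hu : u ∈ V q 0) : ∃ κ : K, ∀ i, u i = κ := by
  obtain ⟨f, hf, rfl⟩ := hu
  have h : f = C (coeff 0 f) :=
    totalDegree_eq_zero_iff_eq_C.1 ((totalDegree_zero_iff_isHomogeneous _).2 hf)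
  refine ⟨coeff 0 f, fun i => ?_⟩
  change evq q f i = _
  rw [h, evq_apply]; simp

omit [Fintype σ] in
theorem V_succ_le (d : ℕ) (S : Submodule K (ι → K)) (h : ∀ k, ∀ v ∈ V q d, evq q (X k) * v ∈ S) :
    V q (d + 1) ≤ S := by
  rintro _ ⟨f, hf, rfl⟩
  rw [← homogeneousSubmodule_one_pow, pow_succ', homogeneousSubmodule_one_pow,
    homogeneousSubmodule_one_eq_span_X] at hf
  refine Submodule.mul_induction_on hf (fun a ha b hb => ?_) fun x y hx hy => ?_
  · induction ha using Submodule.span_induction with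
    | mem x hx =>
      obtain ⟨k, rfl⟩ := hx
      exact (map_mul (evq q) _ _).symm ▸ h k _ ⟨b, hb, rfl⟩
    | zero => simp
    | add x y _ _ hx hy => rw [add_mul, map_add]; exact S.add_mem hx hy
    | smul c x _ hx => rw [smul_mul_assoc, map_smul]; exact S.smul_mem c hx
  · rw [map_add]; exact S.add_mem hx hy

theorem dual_eq (a : Dual K (σ → K)) : ∃ c : σ → K, ∀ x, a x = eval x (lin c) := by
  classical
  refine ⟨fun k => a (Pi.single k 1), fun x => ?_⟩
  rw [LinearMap.pi_apply_eq_sum_univ a x]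
  simp only [map_sum, map_mul, eval_C, eval_X, smul_eq_mul]
  refine Finset.sum_congr rfl fun k _ => ?_
  rw [mul_comm]; congr 2; funext j; simp [Pi.single_apply, eq_comm]

theorem dual_mem_V (a : Dual K (σ → K)) : (fun i => a (q i)) ∈ V q 1 := by
  obtain ⟨c, hc⟩ := dual_eq a
  exact ⟨lin c, lin_hom c, funext fun i => (evq_apply q _ i).trans (hc _).symm⟩

omit [Fintype σ] in
theorem exists_dual {u : ι → K} (hu : u ∈ V q 1) : ∃ a : Dual K (σ → K), ∀ i, u i = a (q i) := by
  have := V_succ_le q 0 (LinearMap.range (LinearMap.pi fun i => Dual.eval K (σ → K) (q i))) (by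
    intro k v hv
    obtain ⟨κ, hκ⟩ := mem_V_zero q hv
    exact ⟨κ • LinearMap.proj k, funext fun i => by simp [evq, hκ, mul_comm]⟩) hu
  obtain ⟨a, rfl⟩ := this
  exact ⟨a, fun i => rfl⟩

omit [Fintype σ] in
theorem comp_mul (L : MvPolynomial σ K) (hL : L.IsHomogeneous 1) (b : MvPolynomial σ K) :
    homogeneousComponent 0 (b * L) = 0 ∧
      ∀ d, homogeneousComponent (d + 1) (b * L) = homogeneousComponent d b * L := by
  induction b using MvPolynomial.induction_on' with
  | monomial m r =>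
    have h1 : (monomial m r : MvPolynomial σ K).IsHomogeneous m.degree :=
      isHomogeneous_monomial _ rfl
    have h2 := h1.mul hL
    refine ⟨by rw [homogeneousComponent_of_mem h2]; simp, fun d => ?_⟩
    rw [homogeneousComponent_of_mem h2, homogeneousComponent_of_mem h1]
    simp
  | add p r hp hr =>
    exact ⟨by rw [add_mul, map_add, hp.1, hr.1, add_zero],
      fun d => by rw [add_mul, map_add, hp.2, hr.2, map_add, add_mul]⟩

variable {q} {I : Ideal (MvPolynomial σ K)}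

omit [Fintype σ] in
theorem comp_of_mem (hI1 : ∀ f ∈ I, ∀ d, evq q (homogeneousComponent d f) = 0)
    {L : MvPolynomial σ K} (hL : L.IsHomogeneous 1) {g : MvPolynomial σ K}
    (hg : g ∈ I ⊔ Ideal.span {L}) (d : ℕ) :
    ∃ u ∈ V' q d, evq q (homogeneousComponent d g) = evq q L * u := by
  obtain ⟨a, ha, b, hb, rfl⟩ := Submodule.mem_sup.1 hg
  obtain ⟨b, rfl⟩ := Ideal.mem_span_singleton'.1 hb
  rw [map_add, map_add, hI1 a ha, zero_add]
  rcases d with _ | d
  · exact ⟨0, Submodule.zero_mem _, by rw [(comp_mul L hL b).1]; simp⟩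
  · exact ⟨_, ⟨_, homogeneousComponent_isHomogeneous d b, rfl⟩, by
      rw [(comp_mul L hL b).2, map_mul, mul_comm]; rfl⟩

omit [Fintype σ] in
theorem memJ (hI1 : ∀ f ∈ I, ∀ d, evq q (homogeneousComponent d f) = 0)
    (hI2 : ∀ d, ∀ f : MvPolynomial σ K, f.IsHomogeneous d → evq q f = 0 → f ∈ I)
    {L : MvPolynomial σ K} (hL : L.IsHomogeneous 1) {f : MvPolynomial σ K} {d : ℕ}
    (hf : f.IsHomogeneous d) :
    f ∈ I ⊔ Ideal.span {L} ↔ ∃ u ∈ V' q d, evq q f = evq q L * u := by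
  constructor
  · intro h
    have := comp_of_mem hI1 hL h d
    rwa [homogeneousComponent_eq_self hf] at this
  · rintro ⟨u, hu, h⟩
    rcases d with _ | d
    · rw [V', Submodule.mem_bot] at hu
      exact Ideal.mem_sup_left (hI2 _ f hf (by rw [h, hu, mul_zero]))
    · obtain ⟨g, hg, rfl⟩ := hu
      have h1 : f - g * L ∈ I := hI2 _ _ (hf.sub (IsHomogeneous.mul hg hL)) (by
        rw [map_sub, map_mul, h, mul_comm]; exact sub_self _)
      have := Submodule.add_mem_sup h1 (Ideal.mem_span_singleton'.2 ⟨g, rfl⟩ :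
        g * L ∈ Ideal.span {L})
      simpa using this

/-- the linear-algebra shadow of the Gorenstein property with socle degree `e` -/
structure Gor (q : ι → σ → K) (e : ℕ) (Λ : Dual K (ι → K)) : Prop where
  mono : ∀ d, V q d ≤ V q (d + 1)
  top : ∀ d, e ≤ d → V q d = ⊤
  ker : LinearMap.ker Λ = V' q e
  ne : Λ ≠ 0
  soc : ∀ t, t ≠ e → ∀ u ∈ V q t, (∀ k, evq q (X k) * u ∈ V q t) → u ∈ V' q t

theorem V_mono {c0 : σ → K} (hc0 : ∀ i, eval (q i) (lin c0) = 1) (d : ℕ) :
    V q d ≤ V q (d + 1) := by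
  intro u hu
  have h1 : evq q (lin c0) = 1 := by funext i; rw [evq_apply, hc0]; rfl
  have := V_mul q hu ((mem_V q).2 ⟨lin c0, lin_hom c0, h1⟩)
  rwa [mul_one] at this

theorem exists_sep (hq : Function.Injective q) {c0 : σ → K} (hc0 : ∀ i, eval (q i) (lin c0) = 1)
    {i j : ι} (hij : i ≠ j) : ∃ u ∈ V q 1, u i = 1 ∧ u j = 0 := by
  obtain ⟨k, hk⟩ := Function.ne_iff.1 (hq.ne hij)
  refine ⟨(q i k - q j k)⁻¹ • (evq q (X k) - q j k • 1), Submodule.smul_mem _ _
    (Submodule.sub_mem _ (X_mem_V q k) (Submodule.smul_mem _ _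
      (V_mono hc0 0 (one_mem_V q)))), ?_, ?_⟩
  · simp [evq, inv_mul_cancel₀ (sub_ne_zero.2 hk)]
  · simp [evq]

theorem V_top [Fintype ι] (hq : Function.Injective q) {c0 : σ → K}
    (hc0 : ∀ i, eval (q i) (lin c0) = 1) (d : ℕ) (hd : Fintype.card ι ≤ d) : V q d = ⊤ := by
  classical
  have hmono : Monotone (V q) := monotone_nat_of_le_succ (V_mono hc0)
  have key : ∀ (i : ι) (s : Finset ι), i ∉ s → ∃ u ∈ V q s.card, u i = 1 ∧ ∀ j ∈ s, u j = 0 := by
    intro i s
    induction s using Finset.induction_on with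
    | empty => intro _; exact ⟨1, one_mem_V q, rfl, by simp⟩
    | insert j s hj ih =>
      intro hi
      rw [Finset.mem_insert, not_or] at hi
      obtain ⟨u, hu, h1, h2⟩ := ih hi.2
      obtain ⟨v, hv, h3, h4⟩ := exists_sep hq hc0 hi.1
      refine ⟨u * v, by rw [Finset.card_insert_of_notMem hj]; exact V_mul q hu hv,
        by simp [h1, h3], fun l hl => ?_⟩
      rcases Finset.mem_insert.1 hl with rfl | hl
      · simp [h4]
      · simp [h2 l hl]
  rw [eq_top_iff]
  intro u _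
  rw [pi_eq_sum_univ u]
  refine Submodule.sum_mem _ fun i _ => Submodule.smul_mem _ _ ?_
  obtain ⟨v, hv, h1, h2⟩ := key i (Finset.univ.erase i) (by simp)
  have : (fun j => if i = j then (1 : K) else 0) = v := by
    funext j
    split_ifs with h
    · rw [← h, h1]
    · exact (h2 j (by simp [Ne.symm h])).symm
  rw [this]
  exact hmono (Finset.card_le_univ _ |>.trans hd) hv

theorem exists_gor [Fintype ι] (hq : Function.Injective q) {c0 : σ → K}
    (hc0 : ∀ i, eval (q i) (lin c0) = 1)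
    (hI1 : ∀ f ∈ I, ∀ d, evq q (homogeneousComponent d f) = 0)
    (hI2 : ∀ d, ∀ f : MvPolynomial σ K, f.IsHomogeneous d → evq q f = 0 → f ∈ I)
    {s : MvPolynomial σ K} {e : ℕ} (hs : s.IsHomogeneous e) (hs1 : s ∉ I ⊔ Ideal.span {lin c0})
    (hs2 : ∀ f : MvPolynomial σ K, (∀ i, X i * f ∈ I ⊔ Ideal.span {lin c0}) →
      ∃ a : K, f - C a * s ∈ I ⊔ Ideal.span {lin c0}) : ∃ Λ, Gor q e Λ := by
  have h1 : evq q (lin c0) = 1 := by funext i; rw [evq_apply, hc0]; rfl
  have hmem : ∀ {f : MvPolynomial σ K} {d : ℕ}, f.IsHomogeneous d →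
      (f ∈ I ⊔ Ideal.span {lin c0} ↔ evq q f ∈ V' q d) := by
    intro f d hf
    rw [memJ hI1 hI2 (lin_hom c0) hf, h1]
    simp
  have hX : ∀ {f : MvPolynomial σ K} {t : ℕ}, f.IsHomogeneous t →
      (∀ k, evq q (X k) * evq q f ∈ V q t) → ∃ a : K, f - C a * s ∈ I ⊔ Ideal.span {lin c0} := by
    intro f t hf h
    refine hs2 f fun k => ?_
    rw [hmem (d := t + 1) (by rw [add_comm]; exact (isHomogeneous_X _ _).mul hf), map_mul]
    exact h k
  have soc : ∀ t, t ≠ e → ∀ u ∈ V q t, (∀ k, evq q (X k) * u ∈ V q t) → u ∈ V' q t := by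
    rintro t ht _ ⟨f, hf, rfl⟩ h
    obtain ⟨a, ha⟩ := hX hf h
    obtain ⟨u, hu, h2⟩ := comp_of_mem hI1 (lin_hom c0) ha t
    rw [map_sub, homogeneousComponent_eq_self hf, homogeneousComponent_of_mem (hs.C_mul a),
      if_neg ht, sub_zero, h1, one_mul] at h2
    exact h2 ▸ hu
  have top : ∀ d, e ≤ d → V q d = ⊤ := by
    have : ∀ j d, Fintype.card ι ≤ d + j → e ≤ d → V q d = ⊤ := by
      intro j
      induction j with
      | zero => intro d hd _; exact V_top hq hc0 d hd
      | succ j ih =>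
        intro d hd he
        have h2 := ih (d + 1) (by omega) (by omega)
        rw [eq_top_iff]
        intro u _
        exact soc (d + 1) (by omega) u (h2 ▸ Submodule.mem_top) fun k => h2 ▸ Submodule.mem_top
    exact fun d hd => this _ d (Nat.le_add_left _ _) hd
  rw [hmem hs] at hs1
  obtain ⟨Λ, hΛ, hle⟩ := Submodule.exists_le_ker_of_notMem hs1
  refine ⟨Λ, V_mono hc0, top, le_antisymm (fun u hu => ?_) hle, fun h => hΛ (by simp [h]), soc⟩
  obtain ⟨f, hf, rfl⟩ : u ∈ V q e := top e le_rfl ▸ Submodule.mem_top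
  obtain ⟨a, ha⟩ := hX hf fun k => top e le_rfl ▸ Submodule.mem_top
  rw [hmem (IsHomogeneous.sub hf (hs.C_mul a))] at ha
  have h2 : Λ (evq q (f - C a * s)) = 0 := hle ha
  have h3 : Λ (evq q f) = 0 := hu
  rw [map_sub, map_sub, h3, ← smul_eq_C_mul, map_smul, map_smul, zero_sub, neg_eq_zero,
    smul_eq_mul] at h2
  have h4 : a = 0 := (mul_eq_zero.1 h2).resolve_right hΛ
  simpa [h4] using ha

namespace Gor

variable [DecidableEq ι] {e : ℕ} {Λ : Dual K (ι → K)} (G : Gor q e Λ)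
include G

omit [Fintype σ] [DecidableEq ι] in
theorem V'_le (d : ℕ) : V' q d ≤ V q d := by
  rcases d with _ | d
  · exact bot_le
  · exact G.mono d

omit [Fintype σ] in
theorem lam_ne (i : ι) : Λ (Pi.single i 1) ≠ 0 := by
  intro h
  have h1 : Pi.single i 1 ∈ V' q e := G.ker ▸ h
  have key : ∀ t, t ≤ e → Pi.single i 1 ∉ V' q t := by
    intro t
    induction t with
    | zero =>
      intro _ h
      have := congrFun ((Submodule.mem_bot K).1 h) i
      simp at this
    | succ t ih =>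
      intro ht h
      refine ih (by omega) (G.soc t (by omega) _ h fun k => ?_)
      have : evq q (X k) * Pi.single i 1 = q i k • Pi.single i (1 : K) := by
        funext j
        by_cases hj : j = i
        · subst hj; simp [evq]
        · simp [hj]
      rw [this]
      exact Submodule.smul_mem _ _ h
  exact key e le_rfl h1

omit [Fintype σ] [DecidableEq ι] in
theorem pairing (r : ℕ) : ∀ t, t + r = e → ∀ u ∈ V q t, u ∉ V' q t →
    ∃ v ∈ V q r, Λ (u * v) ≠ 0 := by
  induction r with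
  | zero =>
    intro t ht u _ hu
    refine ⟨1, one_mem_V q, fun h => hu ?_⟩
    rw [show t = e by omega, ← G.ker]
    simpa using h
  | succ r ih =>
    intro t ht u hu hu'
    obtain ⟨k, hk⟩ : ∃ k, evq q (X k) * u ∉ V q t := by
      by_contra h
      push Not at h
      exact hu' (G.soc t (by omega) u hu h)
    obtain ⟨v, hv, h⟩ := ih (t + 1) (by omega) _
      (by rw [add_comm]; exact V_mul q (X_mem_V q k) hu) hk
    exact ⟨v * evq q (X k), V_mul q hv (X_mem_V q k), by convert h using 2; ring⟩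

omit [Fintype σ] [DecidableEq ι] in
theorem dual (j : ℕ) (u : ι → K) (h : ∀ v ∈ V q j, Λ (u * v) = 0) (r : ℕ) :
    ∀ t, t + r = e → r ≤ j → u ∈ V' q t := by
  have hmono : Monotone (V q) := monotone_nat_of_le_succ G.mono
  induction r with
  | zero =>
    intro t ht _
    by_contra hu
    obtain ⟨v, hv, h2⟩ := G.pairing 0 t ht u (G.top t (by omega) ▸ Submodule.mem_top) hu
    exact h2 (h v (hmono (Nat.zero_le _) hv))
  | succ r ih =>
    intro t ht hr
    by_contra hu
    obtain ⟨v, hv, h2⟩ := G.pairing (r + 1) t ht u (ih (t + 1) (by omega) (by omega)) hu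
    exact h2 (h v (hmono hr hv))

omit [Fintype σ] in
theorem diff_mem (i j : ι) :
    ((Λ (Pi.single i 1))⁻¹ • Pi.single i 1 - (Λ (Pi.single j 1))⁻¹ • Pi.single j 1 : ι → K) ∈
      V' q e := by
  rw [← G.ker, LinearMap.mem_ker, map_sub, map_smul, map_smul, smul_eq_mul, smul_eq_mul,
    inv_mul_cancel₀ (G.lam_ne i), inv_mul_cancel₀ (G.lam_ne j), sub_self]

end Gor

theorem lam_sum [Fintype ι] [DecidableEq ι] (Λ : Dual K (ι → K)) (u : ι → K) :
    Λ u = ∑ i, Λ (Pi.single i 1) * u i := by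
  rw [LinearMap.pi_apply_eq_sum_univ Λ u]
  refine Finset.sum_congr rfl fun k _ => ?_
  rw [smul_eq_mul, mul_comm]; congr 2; funext j; simp [Pi.single_apply, eq_comm]

theorem generic_inj [Infinite K] [Fintype ι] [DecidableEq ι] {e : ℕ} {Λ : Dual K (ι → K)}
    (G : Gor q (e + 3) Λ) (hq : ∀ i, q i ≠ 0) :
    ∃ (F : MvPolynomial σ K) (l : ι → K), F ≠ 0 ∧ l ∈ V q 1 ∧ ∀ c : σ → K, eval c F ≠ 0 →
      (∀ i, evq q (lin c) i ≠ 0) → ∀ f ∈ V q 1, ∀ g ∈ V q 1, l * f = evq q (lin c) * g →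
        ∃ κ : K, f = κ • evq q (lin c) := by
  obtain ⟨L, l, h⟩ := exists_special q hq (fun i => Λ (Pi.single i 1)) (V q e) (by
    intro c hc a b
    have h0 := V_mul q (V_mul q hc (dual_mem_V q a)) (dual_mem_V q b)
    have h1 : c * (fun i => a (q i)) * (fun i => b (q i)) ∈ V' q (e + 3) := h0
    rw [← G.ker, LinearMap.mem_ker, lam_sum] at h1
    rw [← h1]
    exact Finset.sum_congr rfl fun i _ => by simp only [Pi.mul_apply]; ring) (by
    intro T ⟨i, hi⟩ hT
    obtain ⟨j, hj⟩ : ∃ j, j ∉ T := by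
      by_contra h; push Not at h; exact hT (Finset.eq_univ_iff_forall.2 h)
    by_contra h
    push Not at h
    let Θ : Dual K (ι → K) := ∑ i ∈ T, Λ (Pi.single i 1) • LinearMap.proj i
    have hΘ : ∀ u, Θ u = ∑ i ∈ T, Λ (Pi.single i 1) * u i := fun u => by
      simp [Θ, LinearMap.sum_apply]
    have h2 : V q (e + 2) ≤ LinearMap.ker Θ := by
      refine V_succ_le q _ _ fun k v hv => ?_
      have := V_succ_le q e (LinearMap.ker (Θ.comp (LinearMap.mulLeft K (evq q (X k)))))
        (fun k' w hw => by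
          rw [LinearMap.mem_ker, LinearMap.comp_apply, LinearMap.mulLeft_apply, hΘ,
            ← h w hw (LinearMap.proj k) (LinearMap.proj k')]
          exact Finset.sum_congr rfl fun i _ => by simp [evq]; ring) hv
      exact this
    have h3 : Θ _ = 0 := h2 (G.diff_mem i j)
    rw [hΘ, Finset.sum_eq_single i] at h3
    · have hij : i ≠ j := fun h => hj (h ▸ hi)
      simp [hij, G.lam_ne i] at h3
    · intro b hb hbi
      have hbj : b ≠ j := fun h => hj (h ▸ hb)
      simp [hbi, hbj]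
    · intro h; exact absurd hi h)
  obtain ⟨cL, hcL⟩ := dual_eq L
  obtain ⟨F, hF, hopen⟩ := open_rank (fun i => ((l (q i) • q i, 0) : (σ → K) × (σ → K)))
    (fun i => ((0, -q i) : (σ → K) × (σ → K))) (fun i => lin (q i)) cL
  have hsw : ∀ x y : σ → K, eval x (lin y) = eval y (lin x) := fun x y => by
    simp [mul_comm]
  refine ⟨F, _, hF, dual_mem_V q l, fun c hc hne f hf g hg hfg => ?_⟩
  obtain ⟨Lc, hLc⟩ := exists_dual q ((mem_V q).2 ⟨lin c, lin_hom c, rfl⟩)
  obtain ⟨a, ha⟩ := exists_dual q hf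
  obtain ⟨b, hb⟩ := exists_dual q hg
  rcases isEmpty_or_nonempty ι with hι | ⟨⟨i0⟩⟩
  · exact ⟨0, Subsingleton.elim _ _⟩
  have h1 := hopen c hc
  have e1 : (fun i => ((l (q i) • q i, 0) : (σ → K) × (σ → K)) +
      eval cL (lin (q i)) • ((0, -q i) : (σ → K) × (σ → K))) =
      fun i => (l (q i) • q i, -L (q i) • q i) := by
    funext i; rw [hsw, ← hcL]; simp
  have e2 : (fun i => ((l (q i) • q i, 0) : (σ → K) × (σ → K)) +
      eval c (lin (q i)) • ((0, -q i) : (σ → K) × (σ → K))) =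
      fun i => (l (q i) • q i, -Lc (q i) • q i) := by
    funext i; rw [hsw, ← evq_apply, hLc]; simp
  rw [e1, e2] at h1
  obtain ⟨κ, hκ⟩ := inj_of_rank q Lc l i0 (hLc i0 ▸ hne i0) (by omega) a b fun i => by
    rw [← ha, ← hb, ← hLc]; exact congrFun hfg i
  exact ⟨κ, funext fun i => by rw [ha, hκ, Pi.smul_apply, hLc, smul_eq_mul]⟩

/-- injectivity in degree `d` -/
def Inj (q : ι → σ → K) (L l : ι → K) (d : ℕ) : Prop :=
  ∀ u ∈ V q d, (∃ w ∈ V q d, l * u = L * w) → ∃ w ∈ V' q d, u = L * w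

/-- surjectivity in degree `d` -/
def Surj (q : ι → σ → K) (L l : ι → K) (d : ℕ) : Prop :=
  ∀ u ∈ V q (d + 1), ∃ a ∈ V q d, ∃ w ∈ V q d, u - l * a = L * w

theorem core [Infinite K] [Fintype ι] (hq : Function.Injective q) {c0 : σ → K}
    (hc0 : ∀ i, eval (q i) (lin c0) = 1) {e : ℕ} {Λ : Dual K (ι → K)} (G : Gor q e Λ) :
    ∃ (F : MvPolynomial σ K) (l : ι → K), F ≠ 0 ∧ l ∈ V q 1 ∧ ∀ c : σ → K, eval c F ≠ 0 →
      (∀ i, evq q (lin c) i ≠ 0) ∧
      (1 ≤ e → Inj q (evq q (lin c)) l 0) ∧ (3 ≤ e → Inj q (evq q (lin c)) l 1) ∧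
      (∀ d, e ≤ d + 1 → Surj q (evq q (lin c)) l d) ∧
      (∀ d, 3 ≤ e → d + 2 = e → Surj q (evq q (lin c)) l d) := by
  classical
  have hq0 : ∀ i, q i ≠ 0 := fun i h => by simpa [h] using hc0 i
  have hP : (∏ i, lin (q i) : MvPolynomial σ K) ≠ 0 := by
    intro h
    have := congrArg (eval c0) h
    rw [map_prod, Finset.prod_eq_one, map_zero] at this
    · exact one_ne_zero this
    · intro i _; rw [← hc0 i]; simp [mul_comm]
  have hP' : ∀ c, eval c (∏ i, lin (q i) : MvPolynomial σ K) ≠ 0 → ∀ i, evq q (lin c) i ≠ 0 := by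
    intro c hc i h
    apply hc
    rw [map_prod]
    refine Finset.prod_eq_zero (Finset.mem_univ i) ?_
    rw [← h, evq_apply]; simp [mul_comm]
  have htwo : 1 ≤ e → ∃ i j : ι, i ≠ j := by
    intro he
    by_contra h
    push Not at h
    apply G.ne
    have hmono : Monotone (V q) := monotone_nat_of_le_succ G.mono
    obtain ⟨e, rfl⟩ : ∃ e', e = e' + 1 := ⟨e - 1, by omega⟩
    have h1 : Λ 1 = 0 := by
      rw [← LinearMap.mem_ker, G.ker]; exact hmono (Nat.zero_le _) (one_mem_V q)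
    refine LinearMap.ext fun u => ?_
    rcases isEmpty_or_nonempty ι with hι | ⟨⟨i0⟩⟩
    · rw [Subsingleton.elim u 0]; simp
    · have : u = u i0 • (1 : ι → K) := funext fun i => by simp [h i i0]
      rw [this, map_smul, h1]; simp
  obtain ⟨F, l, hF, hl, H⟩ : ∃ (F : MvPolynomial σ K) (l : ι → K), F ≠ 0 ∧ l ∈ V q 1 ∧
      ∀ c : σ → K, eval c F ≠ 0 → (∀ i, evq q (lin c) i ≠ 0) →
      (1 ≤ e → ¬ ∃ κ : K, l = κ • evq q (lin c)) ∧ (3 ≤ e → ∀ f ∈ V q 1, ∀ g ∈ V q 1,
        l * f = evq q (lin c) * g → ∃ κ : K, f = κ • evq q (lin c)) := by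
    by_cases h3 : 3 ≤ e
    · obtain ⟨e, rfl⟩ : ∃ e', e = e' + 3 := ⟨e - 3, by omega⟩
      obtain ⟨F, l, hF, hl, H⟩ := generic_inj G hq0
      refine ⟨F, l, hF, hl, fun c hc hne => ⟨fun he ⟨κ, hκ⟩ => ?_, fun _ => H c hc hne⟩⟩
      obtain ⟨i, j, hij⟩ := htwo he
      obtain ⟨u, hu, h1, h2⟩ := exists_sep hq hc0 hij
      obtain ⟨κ', hκ'⟩ := H c hc hne u hu (κ • u) (Submodule.smul_mem _ _ hu) (by
        rw [hκ]; simp)
      have h4 : κ' = 0 := by
        have := congrFun hκ' j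
        rw [h2, Pi.smul_apply, smul_eq_mul, eq_comm] at this
        exact (mul_eq_zero.1 this).resolve_right (hne j)
      have := congrFun hκ' i
      simp [h1, h4] at this
    · by_cases h1 : 1 ≤ e
      · obtain ⟨i, j, hij⟩ := htwo h1
        obtain ⟨u, hu, h1, h2⟩ := exists_sep hq hc0 hij
        refine ⟨1, u, one_ne_zero, hu, fun c _ hne => ⟨fun _ ⟨κ', hκ'⟩ => ?_,
          fun h => absurd h h3⟩⟩
        have h4 : κ' = 0 := by
          have := congrFun hκ' j
          rw [h2, Pi.smul_apply, smul_eq_mul, eq_comm] at this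
          exact (mul_eq_zero.1 this).resolve_right (hne j)
        have := congrFun hκ' i
        simp [h1, h4] at this
      · exact ⟨1, 0, one_ne_zero, Submodule.zero_mem _, fun c _ _ =>
          ⟨fun h => absurd h h1, fun h => absurd h h3⟩⟩
  refine ⟨F * ∏ i, lin (q i), l, mul_ne_zero hF hP, hl, fun c hc => ?_⟩
  rw [map_mul, mul_ne_zero_iff] at hc
  have hne := hP' c hc.2
  obtain ⟨H1, H2⟩ := H c hc.1 hne
  set L := evq q (lin c) with hL
  have hLL : ∀ u : ι → K, L * (u * L⁻¹) = u := fun u => funext fun i => by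
    have := hne i
    simp only [Pi.mul_apply, Pi.inv_apply]; field_simp
  refine ⟨hne, fun he u hu ⟨w, hw, h⟩ => ?_, fun he u hu ⟨w, hw, h⟩ => ?_, fun d hd u hu => ?_,
    fun d he hd u hu => ?_⟩
  · obtain ⟨κ, hκ⟩ := mem_V_zero q hu
    obtain ⟨κ', hκ'⟩ := mem_V_zero q hw
    refine ⟨0, Submodule.zero_mem _, ?_⟩
    by_contra h0
    have hκ0 : κ ≠ 0 := fun h1 => h0 (funext fun i => by simp [hκ, h1])
    refine H1 he ⟨κ' / κ, funext fun i => ?_⟩
    have := congrFun h i
    simp only [Pi.mul_apply, hκ, hκ'] at this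
    simp only [Pi.smul_apply, smul_eq_mul]
    field_simp
    linear_combination this
  · obtain ⟨κ, hκ⟩ := H2 he u hu w hw h
    exact ⟨κ • 1, Submodule.smul_mem _ _ (one_mem_V q), by rw [hκ]; simp⟩
  · by_cases hde : e ≤ d
    · exact ⟨0, Submodule.zero_mem _, u * L⁻¹, G.top d hde ▸ Submodule.mem_top, by simp [hLL]⟩
    · have hker : LinearMap.ker Λ = V q d := by rw [G.ker, show e = d + 1 by omega]; rfl
      obtain ⟨a, ha, h⟩ : ∃ a ∈ V q d, Λ (l * a * L⁻¹) ≠ 0 := by
        by_contra h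
        push Not at h
        obtain ⟨i0, -⟩ := htwo (by omega)
        refine H1 (by omega) ⟨l i0 / L i0, funext fun i => ?_⟩
        have h1 := h _ (by rw [← hker, G.ker]; exact G.diff_mem i i0)
        have h2 : ∀ j : ι, l * ((Λ (Pi.single j 1))⁻¹ • Pi.single j 1) * L⁻¹ =
            (l j / L j * (Λ (Pi.single j 1))⁻¹) • Pi.single j (1 : K) := by
          intro j; funext k
          by_cases hk : k = j
          · subst hk; simp [div_eq_mul_inv]; ring
          · simp [hk]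
        rw [mul_sub, sub_mul, h2, h2, map_sub, map_smul, map_smul, smul_eq_mul, smul_eq_mul,
          mul_assoc, mul_assoc, inv_mul_cancel₀ (G.lam_ne _), inv_mul_cancel₀ (G.lam_ne _),
          mul_one, mul_one, sub_eq_zero] at h1
        rw [Pi.smul_apply, ← h1, smul_eq_mul, div_mul_cancel₀ _ (hne i)]
      refine ⟨(Λ (u * L⁻¹) / Λ (l * a * L⁻¹)) • a, Submodule.smul_mem _ _ ha,
        (u - l * (Λ (u * L⁻¹) / Λ (l * a * L⁻¹)) • a) * L⁻¹, ?_, (hLL _).symm⟩
      rw [← hker, LinearMap.mem_ker, sub_mul, mul_smul_comm, smul_mul_assoc, map_sub, map_smul,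
        smul_eq_mul, div_mul_cancel₀ _ h, sub_self]
  · by_contra hnot
    let S : Submodule K (ι → K) :=
      (V q d).map (LinearMap.mulLeft K l) ⊔ (V q d).map (LinearMap.mulLeft K L)
    have hS : u ∉ S := by
      intro h
      obtain ⟨_, ⟨a, ha, rfl⟩, _, ⟨w, hw, rfl⟩, h⟩ := Submodule.mem_sup.1 h
      exact hnot ⟨a, ha, w, hw, by rw [← h]; simp⟩
    obtain ⟨Θ, hΘ, hle⟩ := Submodule.exists_le_ker_of_notMem hS
    let θ : ι → K := fun i => Θ (Pi.single i 1) / Λ (Pi.single i 1)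
    have hθ : ∀ x, Θ x = Λ (θ * x) := fun x => by
      rw [lam_sum Θ, lam_sum Λ]
      refine Finset.sum_congr rfl fun i _ => ?_
      simp only [θ, Pi.mul_apply]
      rw [← mul_assoc, mul_div_cancel₀ _ (G.lam_ne i)]
    have h1 : θ * l ∈ V q 1 := G.dual d (θ * l) (fun v hv => by
      rw [mul_assoc, ← hθ]; exact hle (Submodule.mem_sup_left ⟨v, hv, rfl⟩)) d 2 (by omega) le_rfl
    have h2 : θ * L ∈ V q 1 := G.dual d (θ * L) (fun v hv => by
      rw [mul_assoc, ← hθ]; exact hle (Submodule.mem_sup_right ⟨v, hv, rfl⟩)) d 2 (by omega) le_rfl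
    obtain ⟨κ, hκ⟩ := H2 he _ h2 _ h1 (by ring)
    have h3 : θ = κ • (1 : ι → K) := funext fun i => by
      have := congrFun hκ i
      simp only [Pi.mul_apply, Pi.smul_apply, smul_eq_mul] at this
      simpa using mul_right_cancel₀ (hne i) this
    apply hΘ
    have h4 : Λ u = 0 := by
      rw [← LinearMap.mem_ker, G.ker, show e = d + 1 + 1 by omega]; exact hu
    rw [hθ, h3, smul_mul_assoc, one_mul, map_smul, h4, smul_zero]

end Pool.Agent.H79.WLP
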