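import Mathlib
import Pool.Agent.H79.WLP2

set_option autoImplicit false

namespace Pool.Agent.H79.WLP

open Module MvPolynomial

variable {K : Type} [Field K] {σ : Type}

theorem eval_smul_hom {f : MvPolynomial σ K} {d : ℕ} (hf : f.IsHomogeneous d) (t : K)
    (x : σ → K) : eval (t • x) f = t ^ d * eval x f := by
  rw [eval_eq, eval_eq, Finset.mul_sum]
  refine Finset.sum_congr rfl fun m hm => ?_
  rw [hf.degree_eq_sum_deg_support hm, ← Finset.prod_pow_eq_pow_sum, mul_left_comm,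
    ← Finset.prod_mul_distrib]
  simp [mul_pow]

theorem comp_vanish [Infinite K] (x : σ → K) (f : MvPolynomial σ K)
    (h : ∀ t : K, eval (t • x) f = 0) (d : ℕ) : eval x (homogeneousComponent d f) = 0 := by
  by_cases hd : f.totalDegree < d
  · rw [homogeneousComponent_eq_zero _ _ hd, map_zero]
  let P : Polynomial K := ∑ i ∈ Finset.range (f.totalDegree + 1),
    Polynomial.monomial i (eval x (homogeneousComponent i f))
  have hP : P = 0 := by
    apply Polynomial.funext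
    intro t
    rw [Polynomial.eval_zero, ← h t]
    conv_rhs => rw [← sum_homogeneousComponent f]
    simp only [P, Polynomial.eval_finsetSum, Polynomial.eval_monomial, map_sum]
    refine Finset.sum_congr rfl fun i _ => ?_
    rw [eval_smul_hom (homogeneousComponent_isHomogeneous i f), mul_comm]
  have := congrArg (fun p => Polynomial.coeff p d) hP
  simp only [P, Polynomial.finsetSum_coeff, Polynomial.coeff_monomial, Finset.sum_ite_eq',
    Finset.mem_range, Polynomial.coeff_zero] at this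
  rwa [if_pos (by omega)] at this

variable [Fintype σ]

theorem setup [Infinite K] (Z : Finset (σ → K)) (c0 : σ → K) (hc0 : ∀ p ∈ Z, eval p (lin c0) ≠ 0)
    (I : Ideal (MvPolynomial σ K)) (h1 : ∀ f ∈ I, ∀ p ∈ Z, ∀ t : K, eval (t • p) f = 0)
    (h2 : ∀ d, ∀ f : MvPolynomial σ K, f.IsHomogeneous d → (∀ p ∈ Z, eval p f = 0) → f ∈ I) :
    ∃ (ι : Type) (_ : Fintype ι) (q : ι → σ → K), Function.Injective q ∧
      (∀ i, eval (q i) (lin c0) = 1) ∧
      (∀ f ∈ I, ∀ d, evq q (homogeneousComponent d f) = 0) ∧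
      (∀ d, ∀ f : MvPolynomial σ K, f.IsHomogeneous d → evq q f = 0 → f ∈ I) := by
  classical
  refine ⟨Z.image fun p => (eval p (lin c0))⁻¹ • p, inferInstance, Subtype.val,
    Subtype.val_injective, ?_, ?_, ?_⟩
  · rintro ⟨_, hi⟩
    obtain ⟨p, hp, rfl⟩ := Finset.mem_image.1 hi
    rw [eval_smul_hom (lin_hom c0), pow_one, inv_mul_cancel₀ (hc0 p hp)]
  · intro f hf d
    funext ⟨_, hi⟩
    obtain ⟨p, hp, rfl⟩ := Finset.mem_image.1 hi
    rw [evq_apply]
    refine comp_vanish _ f (fun t => ?_) d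
    rw [smul_smul]; exact h1 f hf p hp _
  · intro d f hf h
    refine h2 d f hf fun p hp => ?_
    have := congrFun h ⟨_, Finset.mem_image_of_mem _ hp⟩
    rw [evq_apply, eval_smul_hom hf] at this
    exact (mul_eq_zero.1 this).resolve_left (pow_ne_zero _ (inv_ne_zero (hc0 p hp)))

theorem wlp [Infinite K] (Z : Finset (σ → K)) (I : Ideal (MvPolynomial σ K))
    (hI : I = Ideal.span {f : MvPolynomial σ K |
      ∃ d : ℕ, f.IsHomogeneous d ∧ ∀ p ∈ Z, eval p f = 0})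
    (c0 : σ → K) (hc0 : ∀ p ∈ Z, eval p (lin c0) ≠ 0) (s : MvPolynomial σ K) (e : ℕ)
    (hs : s.IsHomogeneous e) (hs1 : s ∉ I ⊔ Ideal.span {lin c0})
    (hs2 : ∀ f : MvPolynomial σ K, (∀ i, X i * f ∈ I ⊔ Ideal.span {lin c0}) →
      ∃ a : K, f - C a * s ∈ I ⊔ Ideal.span {lin c0}) :
    ∃ F : MvPolynomial σ K, F ≠ 0 ∧ ∀ c : σ → K, eval c F ≠ 0 →
      ∃ L : MvPolynomial σ K, L.IsHomogeneous 1 ∧ ∀ d : ℕ,
        (d ≤ 1 → 2 * d + 1 ≤ e → ∀ f : MvPolynomial σ K, f.IsHomogeneous d →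
          L * f ∈ I ⊔ Ideal.span {lin c} → f ∈ I ⊔ Ideal.span {lin c}) ∧
        (e ≤ d + 2 → e ≤ 2 * d + 1 → ∀ g : MvPolynomial σ K, g.IsHomogeneous (d + 1) →
          ∃ f : MvPolynomial σ K, f.IsHomogeneous d ∧ g - L * f ∈ I ⊔ Ideal.span {lin c}) := by
  obtain ⟨ι, _, q, hq, hq0, hI1, hI2⟩ := setup Z c0 hc0 I (by
    intro f hf p hp t
    have : I ≤ RingHom.ker (eval (t • p)) := by
      rw [hI, Ideal.span_le]
      rintro g ⟨d, hd, hg⟩
      rw [SetLike.mem_coe, RingHom.mem_ker, eval_smul_hom hd, hg p hp, mul_zero]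
    exact this hf) (fun d f hf h => hI ▸ Ideal.subset_span ⟨d, hf, h⟩)
  obtain ⟨Λ, G⟩ := exists_gor hq hq0 hI1 hI2 hs hs1 hs2
  obtain ⟨F, l, hF, hl, H⟩ := core hq hq0 G
  obtain ⟨L, hL, rfl⟩ := (mem_V q).1 hl
  refine ⟨F, hF, fun c hc => ⟨L, hL, fun d => ⟨fun hd he f hf h => ?_, fun hd he g hg => ?_⟩⟩⟩
  · obtain ⟨-, H0, H1, -, -⟩ := H c hc
    have hinj : Inj q (evq q (lin c)) (evq q L) d := by
      rcases Nat.le_one_iff_eq_zero_or_eq_one.1 hd with rfl | rfl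
      · exact H0 (by omega)
      · exact H1 (by omega)
    rw [memJ hI1 hI2 (lin_hom c) (d := d + 1) (by rw [add_comm]; exact hL.mul hf), map_mul] at h
    rw [memJ hI1 hI2 (lin_hom c) hf]
    exact hinj _ ((mem_V q).2 ⟨f, hf, rfl⟩) h
  · obtain ⟨-, -, -, H2, H3⟩ := H c hc
    have hsurj : Surj q (evq q (lin c)) (evq q L) d := by
      by_cases h : e ≤ d + 1
      · exact H2 d h
      · exact H3 d (by omega) (by omega)
    obtain ⟨a, ha, w, hw, h⟩ := hsurj _ ((mem_V q).2 ⟨g, hg, rfl⟩)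
    obtain ⟨f, hf, rfl⟩ := (mem_V q).1 ha
    refine ⟨f, hf, ?_⟩
    rw [memJ hI1 hI2 (lin_hom c) (d := d + 1)
      (hg.sub (by rw [add_comm]; exact hL.mul hf)), map_sub, map_mul]
    exact ⟨w, hw, h⟩

variable {ι : Type} [Fintype ι] {q : ι → σ → K}

omit [Fintype σ] in
theorem finrank_mul (L : ι → K) (hL : ∀ i, L i ≠ 0) (S : Submodule K (ι → K)) :
    finrank K (S.map (LinearMap.mulLeft K L)) = finrank K S := by
  refine (Submodule.equivMapOfInjective _ (fun a b h => _root_.funext fun i => ?_) S).finrank_eq.symm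
  exact mul_left_cancel₀ (hL i) (congrFun h i)

omit [Fintype σ] in
theorem dim_inj {L l : ι → K} (hL : ∀ i, L i ≠ 0) (hL1 : L ∈ V q 1) (hl : l ∈ V q 1) (d : ℕ)
    (h : Inj q L l d) : 2 * finrank K (V q d) ≤ finrank K (V q (d + 1)) + finrank K (V' q d) := by
  let ψ : V q d →ₗ[K] (ι → K) ⧸ (V q d).map (LinearMap.mulLeft K L) :=
    (Submodule.mkQ _).comp ((LinearMap.mulLeft K l).comp (V q d).subtype)
  have h1 := LinearMap.finrank_range_add_finrank_ker ψ
  have h2 : (LinearMap.ker ψ).map (V q d).subtype ≤ (V' q d).map (LinearMap.mulLeft K L) := by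
    rintro _ ⟨⟨u, hu⟩, hk, rfl⟩
    obtain ⟨w, hw, h3⟩ := (Submodule.Quotient.mk_eq_zero _).1 hk
    obtain ⟨w', hw', h4⟩ := h u hu ⟨w, hw, h3.symm⟩
    exact ⟨w', hw', h4.symm⟩
  have h3 := Submodule.finrank_mono h2
  rw [Submodule.finrank_map_subtype_eq, finrank_mul L hL] at h3
  have h4 : LinearMap.range ψ ≤ (V q (d + 1)).map (Submodule.mkQ _) := by
    rintro _ ⟨⟨u, hu⟩, rfl⟩
    exact ⟨l * u, by rw [add_comm]; exact V_mul q hl hu, rfl⟩
  have h5 := Submodule.finrank_mono h4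
  have h6 := Lovasz.finrank_map_add ((V q d).map (LinearMap.mulLeft K L)).mkQ (V q (d + 1))
  rw [Submodule.ker_mkQ, inf_eq_right.2, finrank_mul L hL] at h6
  · omega
  · rintro _ ⟨u, hu, rfl⟩
    rw [add_comm]; exact V_mul q hL1 hu

omit [Fintype σ] in
theorem dim_surj {L l : ι → K} (hL : ∀ i, L i ≠ 0) (hL1 : L ∈ V q 1) (hl : l ∈ V q 1) (d : ℕ)
    (h : Surj q L l d) : finrank K (V q (d + 1)) + finrank K (V' q d) ≤ 2 * finrank K (V q d) := by
  have hV : ∀ x ∈ V q 1, ∀ w ∈ V' q d, x * w ∈ V q d := by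
    intro x hx w hw
    rcases d with _ | d
    · rw [(Submodule.mem_bot K).1 hw, mul_zero]; exact Submodule.zero_mem _
    · rw [add_comm]; exact V_mul q hx hw
  let ψ : V q d →ₗ[K] (ι → K) ⧸ (V q d).map (LinearMap.mulLeft K L) :=
    (Submodule.mkQ _).comp ((LinearMap.mulLeft K l).comp (V q d).subtype)
  have h1 := LinearMap.finrank_range_add_finrank_ker ψ
  have h2 : (V' q d).map (LinearMap.mulLeft K L) ≤ (LinearMap.ker ψ).map (V q d).subtype := by
    rintro _ ⟨w, hw, rfl⟩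
    refine ⟨⟨L * w, hV L hL1 w hw⟩, (Submodule.Quotient.mk_eq_zero _).2
      ⟨l * w, hV l hl w hw, ?_⟩, rfl⟩
    simp only [LinearMap.mulLeft_apply, LinearMap.comp_apply, Submodule.subtype_apply]
    ring
  have h3 := Submodule.finrank_mono h2
  rw [Submodule.finrank_map_subtype_eq, finrank_mul L hL] at h3
  have h4 : (V q (d + 1)).map (Submodule.mkQ _) ≤ LinearMap.range ψ := by
    rintro _ ⟨u, hu, rfl⟩
    obtain ⟨a, ha, w, hw, h⟩ := h u hu
    have h7 : u - l * a ∈ (V q d).map (LinearMap.mulLeft K L) := ⟨w, hw, h.symm⟩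
    exact ⟨⟨a, ha⟩, ((Submodule.Quotient.eq _).2 h7).symm⟩
  have h5 := Submodule.finrank_mono h4
  have h6 := Lovasz.finrank_map_add ((V q d).map (LinearMap.mulLeft K L)).mkQ (V q (d + 1))
  rw [Submodule.ker_mkQ, inf_eq_right.2, finrank_mul L hL] at h6
  · omega
  · rintro _ ⟨u, hu, rfl⟩
    rw [add_comm]; exact V_mul q hL1 hu

theorem h_eq {I : Ideal (MvPolynomial σ K)} {c0 : σ → K} (hc0 : ∀ i, eval (q i) (lin c0) = 1)
    (hI1 : ∀ f ∈ I, ∀ d, evq q (homogeneousComponent d f) = 0)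
    (hI2 : ∀ d, ∀ f : MvPolynomial σ K, f.IsHomogeneous d → evq q f = 0 → f ∈ I)
    (d : ℕ) (H M : Submodule K (MvPolynomial σ K)) (hH : ∀ f, f ∈ H ↔ f.IsHomogeneous d)
    (hM : ∀ f, f ∈ M ↔ f.IsHomogeneous d ∧ f ∈ I ⊔ Ideal.span {lin c0}) :
    finrank K H - finrank K M + finrank K (V' q d) = finrank K (V q d) := by
  have h1 : evq q (lin c0) = 1 := by funext i; rw [evq_apply, hc0]; rfl
  obtain rfl : H = homogeneousSubmodule σ K d := Submodule.ext hH
  have : FiniteDimensional K (homogeneousSubmodule σ K d) :=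
    Module.Finite.iff_fg.2 (homogeneousSubmodule_fg _ _ _)
  have hle : V' q d ≤ V q d := by
    rcases d with _ | d
    · exact bot_le
    · exact V_mono hc0 d
  let ψ : homogeneousSubmodule σ K d →ₗ[K] (ι → K) ⧸ V' q d :=
    (Submodule.mkQ _).comp ((evq q).toLinearMap.comp (homogeneousSubmodule σ K d).subtype)
  have h2 := LinearMap.finrank_range_add_finrank_ker ψ
  have h3 : (LinearMap.ker ψ).map (homogeneousSubmodule σ K d).subtype = M := by
    ext f
    rw [hM]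
    constructor
    · rintro ⟨⟨f, hf⟩, hk, rfl⟩
      refine ⟨hf, (memJ hI1 hI2 (lin_hom c0) hf).2 ⟨_, (Submodule.Quotient.mk_eq_zero _).1 hk, ?_⟩⟩
      rw [h1, one_mul]; rfl
    · rintro ⟨hf, h⟩
      obtain ⟨u, hu, h4⟩ := (memJ hI1 hI2 (lin_hom c0) hf).1 h
      rw [h1, one_mul] at h4
      exact ⟨⟨f, hf⟩, (Submodule.Quotient.mk_eq_zero _).2 (h4 ▸ hu : evq q f ∈ V' q d), rfl⟩
  have h4 : LinearMap.range ψ = (V q d).map (V' q d).mkQ := by
    simp only [ψ, LinearMap.range_comp, Submodule.range_subtype, V]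
  have h5 := Lovasz.finrank_map_add (V' q d).mkQ (V q d)
  rw [Submodule.ker_mkQ, inf_eq_right.2 hle, ← h4] at h5
  rw [← h3, Submodule.finrank_map_subtype_eq]
  omega

theorem hvec [Infinite K] (Z : Finset (σ → K)) (c0 : σ → K) (I : Ideal (MvPolynomial σ K))
    (H M : ℕ → Submodule K (MvPolynomial σ K)) (h : ℕ → ℕ)
    (hc0 : ∀ p ∈ Z, ∑ j, c0 j * p j ≠ 0)
    (hI : ∀ f : MvPolynomial σ K, f ∈ I ↔ ∀ p ∈ Z, ∀ t : K, eval (t • p) f = 0)
    (s : MvPolynomial σ K) (e : ℕ)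
    (hs : s.IsHomogeneous e) (hs1 : s ∉ I ⊔ Ideal.span {lin c0})
    (hs2 : ∀ f : MvPolynomial σ K, (∀ i, X i * f ∈ I ⊔ Ideal.span {lin c0}) →
      ∃ a : K, f - C a * s ∈ I ⊔ Ideal.span {lin c0})
    (hH : ∀ i f, f ∈ H i ↔ f.IsHomogeneous i)
    (hM : ∀ i f, f ∈ M i ↔ f.IsHomogeneous i ∧ f ∈ I ⊔ Ideal.span {lin c0})
    (hh : ∀ i, h i = finrank K (H i) - finrank K (M i)) (d : ℕ) :
    (d ≤ 1 → 2 * d + 1 ≤ e → h d ≤ h (d + 1)) ∧ (e ≤ d + 2 → e ≤ 2 * d + 1 → h (d + 1) ≤ h d) := by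
  obtain ⟨ι, _, q, hq, hq0, hI1, hI2⟩ := setup Z c0 (by simpa using hc0) I
    (fun f hf => (hI f).1 hf)
    (fun d f hf h => (hI f).2 fun p hp t => by rw [eval_smul_hom hf, h p hp, mul_zero])
  obtain ⟨Λ, G⟩ := exists_gor hq hq0 hI1 hI2 hs hs1 hs2
  obtain ⟨F, l, hF, hl, H'⟩ := core hq hq0 G
  obtain ⟨c, hc⟩ : ∃ c, eval c F ≠ 0 := by
    by_contra hc
    push Not at hc
    exact hF (MvPolynomial.funext fun x => by simpa using hc x)
  obtain ⟨hne, H0, H1, H2, H3⟩ := H' c hc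
  have hL1 := (mem_V q).2 ⟨lin c, lin_hom c, rfl⟩
  have e1 := h_eq hq0 hI1 hI2 d _ _ (hH d) (hM d)
  have e2 := h_eq hq0 hI1 hI2 (d + 1) _ _ (hH _) (hM _)
  rw [← hh] at e1 e2
  change _ + finrank K (V q d) = _ at e2
  refine ⟨fun hd he => ?_, fun hd he => ?_⟩
  · have := dim_inj hne hL1 hl d (by
      rcases Nat.le_one_iff_eq_zero_or_eq_one.1 hd with rfl | rfl
      · exact H0 (by omega)
      · exact H1 (by omega))
    omega
  · have := dim_surj hne hL1 hl d (by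
      by_cases h : e ≤ d + 1
      · exact H2 d h
      · exact H3 d (by omega) (by omega))
    omega

end Pool.Agent.H79.WLP
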