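import Mathlib

set_option autoImplicit false

namespace Pool.Agent.H79.War

open Finset

section count

variable {K : Type*} [Field K] [Fintype K] [DecidableEq K]

lemma card_pow_eq_le (k : ℕ) (hk : 1 ≤ k) (b : K) :
    (univ.filter fun x : K => x ^ k = b).card ≤ k := by
  have h1 : (univ.filter fun x : K => x ^ k = b) ⊆ (Polynomial.nthRoots k b).toFinset := by
    intro x hx
    rw [Multiset.mem_toFinset, Polynomial.mem_nthRoots (by omega)]
    simpa using hx
  exact (card_le_card h1).trans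
    ((Multiset.toFinset_card_le _).trans (Polynomial.card_nthRoots k b))

lemma card_pair_le (k : ℕ) (hk : 1 ≤ k) (u : K × K) (hu1 : u.1 ≠ 0) (hu2 : u.2 ≠ 0) (w : K × K) :
    (univ.filter fun z : K × K => (u.1 * z.1 ^ k, u.2 * z.2 ^ k) = w).card ≤ k * k := by
  have h1 : (univ.filter fun z : K × K => (u.1 * z.1 ^ k, u.2 * z.2 ^ k) = w) ⊆
      (univ.filter fun x : K => x ^ k = w.1 / u.1) ×ˢ (univ.filter fun x : K => x ^ k = w.2 / u.2) := by
    intro z hz
    simp only [mem_filter, mem_univ, true_and] at hz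
    subst hz
    simp only [mem_product, mem_filter, mem_univ, true_and]
    constructor <;> field_simp
  refine (card_le_card h1).trans ?_
  rw [card_product]
  exact Nat.mul_le_mul (card_pow_eq_le k hk _) (card_pow_eq_le k hk _)

lemma card_line (a b : K) (h : a ≠ 0 ∨ b ≠ 0) :
    (univ.filter fun w : K × K => w.1 * a + w.2 * b = 1).card = Fintype.card K := by
  rcases h with h | h
  · symm
    refine Finset.card_bij (s := univ) (fun v _ => ((1 - v * b) / a, v)) ?_ ?_ ?_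
    · intro v _
      simp only [mem_filter, mem_univ, true_and]
      field_simp
      ring
    · intro v _ v' _ hv
      exact congrArg Prod.snd hv
    · intro w hw
      simp only [mem_filter, mem_univ, true_and] at hw
      refine ⟨w.2, mem_univ _, ?_⟩
      ext
      · simp only
        rw [← hw]
        field_simp
        ring
      · rfl
  · symm
    refine Finset.card_bij (s := univ) (fun v _ => (v, (1 - v * a) / b)) ?_ ?_ ?_
    · intro v _
      simp only [mem_filter, mem_univ, true_and]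
      field_simp
      ring
    · intro v _ v' _ hv
      exact congrArg Prod.fst hv
    · intro w hw
      simp only [mem_filter, mem_univ, true_and] at hw
      refine ⟨w.1, mem_univ _, ?_⟩
      ext
      · rfl
      · simp only
        rw [← hw]
        field_simp
        ring

lemma card_line_le (a b : K) :
    (univ.filter fun w : K × K => w.1 * a + w.2 * b = 1).card ≤ Fintype.card K := by
  by_cases h : a ≠ 0 ∨ b ≠ 0
  · exact (card_line a b h).le
  · push Not at h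
    obtain ⟨rfl, rfl⟩ := h
    simp

lemma card_two_lines (a b a' b' : K) (h : (a, b) ≠ (a', b')) :
    (univ.filter fun w : K × K => w.1 * a + w.2 * b = 1 ∧ w.1 * a' + w.2 * b' = 1).card ≤ 1 := by
  rw [Finset.card_le_one]
  intro w hw w' hw'
  simp only [mem_filter, mem_univ, true_and] at hw hw'
  obtain ⟨h1, h2⟩ := hw
  obtain ⟨h3, h4⟩ := hw'
  have hd : a * b' - a' * b ≠ 0 := by
    intro hd
    apply h
    have e1 : a = a' := by linear_combination (-a) * h2 + a' * h1 + w.2 * hd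
    have e2 : b = b' := by linear_combination (-b) * h2 + b' * h1 - w.1 * hd
    rw [e1, e2]
  ext
  · apply mul_left_cancel₀ hd
    linear_combination b' * h1 - b * h2 - b' * h3 + b * h4
  · apply mul_left_cancel₀ hd
    linear_combination (-a') * h1 + a * h2 + a' * h3 - a * h4

/-- number of solutions of `u x^k + v y^k = 1`. -/
def NN (k : ℕ) (w : K × K) : ℕ :=
  (univ.filter fun z : K × K => w.1 * z.1 ^ k + w.2 * z.2 ^ k = 1).card

lemma NN_real (k : ℕ) (w : K × K) : (NN k w : ℝ) =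
    ∑ z : K × K, if w.1 * z.1 ^ k + w.2 * z.2 ^ k = 1 then (1 : ℝ) else 0 := by
  simp [NN]

lemma first_moment (k : ℕ) :
    ((Fintype.card K : ℝ) ^ 2 - 1) * Fintype.card K ≤ ∑ w : K × K, (NN k w : ℝ) := by
  simp_rw [NN_real]
  rw [Finset.sum_comm]
  have h1 : ∀ z : K × K, (if z = 0 then (0 : ℝ) else Fintype.card K) ≤
      ∑ w : K × K, if w.1 * z.1 ^ k + w.2 * z.2 ^ k = 1 then (1 : ℝ) else 0 := by
    intro z
    split_ifs with hz
    · exact Finset.sum_nonneg fun w _ => by split_ifs <;> norm_num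
    · have : z.1 ^ k ≠ 0 ∨ z.2 ^ k ≠ 0 := by
        by_contra hc
        push Not at hc
        exact hz (Prod.ext (eq_zero_of_pow_eq_zero hc.1) (eq_zero_of_pow_eq_zero hc.2))
      rw [← card_line _ _ this]
      simp
  refine le_trans (le_of_eq ?_) (Finset.sum_le_sum fun z _ => h1 z)
  have h2 : ∀ z : K × K, (if z = 0 then (0 : ℝ) else Fintype.card K) =
      Fintype.card K - if z = 0 then (Fintype.card K : ℝ) else 0 := by
    intro z; split_ifs <;> simp
  simp_rw [h2]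
  rw [Finset.sum_sub_distrib]
  simp
  ring

lemma second_moment (k : ℕ) (hk : 1 ≤ k) :
    ∑ w : K × K, (NN k w : ℝ) ^ 2 ≤
      (Fintype.card K : ℝ) ^ 4 + (k : ℝ) ^ 2 * (Fintype.card K : ℝ) ^ 3 := by
  have h0 : ∀ w : K × K, (NN k w : ℝ) ^ 2 = ∑ z : K × K, ∑ z' : K × K,
      if (w.1 * z.1 ^ k + w.2 * z.2 ^ k = 1 ∧ w.1 * z'.1 ^ k + w.2 * z'.2 ^ k = 1)
        then (1 : ℝ) else 0 := by
    intro w
    rw [sq, NN_real, Finset.sum_mul_sum]
    refine Finset.sum_congr rfl fun z _ => Finset.sum_congr rfl fun z' _ => ?_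
    by_cases h1 : w.1 * z.1 ^ k + w.2 * z.2 ^ k = 1 <;>
      by_cases h2 : w.1 * z'.1 ^ k + w.2 * z'.2 ^ k = 1 <;> simp [h1, h2]
  simp_rw [h0]
  rw [Finset.sum_comm]
  have h1 : ∀ z : K × K, ∑ w : K × K, ∑ z' : K × K,
      (if (w.1 * z.1 ^ k + w.2 * z.2 ^ k = 1 ∧ w.1 * z'.1 ^ k + w.2 * z'.2 ^ k = 1)
        then (1 : ℝ) else 0) ≤ (Fintype.card K : ℝ) ^ 2 + (k : ℝ) ^ 2 * Fintype.card K := by
    intro z
    rw [Finset.sum_comm]
    have h2 : ∀ z' : K × K, ∑ w : K × K,
        (if (w.1 * z.1 ^ k + w.2 * z.2 ^ k = 1 ∧ w.1 * z'.1 ^ k + w.2 * z'.2 ^ k = 1)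
          then (1 : ℝ) else 0) ≤
        1 + if ((1 : K) * z'.1 ^ k, (1 : K) * z'.2 ^ k) = (z.1 ^ k, z.2 ^ k)
          then (Fintype.card K : ℝ) else 0 := by
      intro z'
      rw [Finset.sum_boole]
      split_ifs with h
      · have : (univ.filter fun w : K × K => w.1 * z.1 ^ k + w.2 * z.2 ^ k = 1 ∧
            w.1 * z'.1 ^ k + w.2 * z'.2 ^ k = 1).card ≤ Fintype.card K := by
          refine le_trans (card_le_card ?_) (card_line_le (z.1 ^ k) (z.2 ^ k))
          intro w hw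
          simp only [mem_filter, mem_univ, true_and] at hw ⊢
          exact hw.1
        have h3 : ((univ.filter fun w : K × K => w.1 * z.1 ^ k + w.2 * z.2 ^ k = 1 ∧
            w.1 * z'.1 ^ k + w.2 * z'.2 ^ k = 1).card : ℝ) ≤ Fintype.card K := by exact_mod_cast this
        linarith
      · have := card_two_lines (z.1 ^ k) (z.2 ^ k) (z'.1 ^ k) (z'.2 ^ k) (by
          intro hc
          apply h
          rw [one_mul, one_mul, hc])
        have h3 : ((univ.filter fun w : K × K => w.1 * z.1 ^ k + w.2 * z.2 ^ k = 1 ∧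
            w.1 * z'.1 ^ k + w.2 * z'.2 ^ k = 1).card : ℝ) ≤ 1 := by exact_mod_cast this
        linarith
    refine (Finset.sum_le_sum fun z' _ => h2 z').trans ?_
    rw [Finset.sum_add_distrib, ← Finset.sum_filter, Finset.sum_const, Finset.sum_const]
    have h4 := card_pair_le k hk ((1 : K), (1 : K)) one_ne_zero one_ne_zero (z.1 ^ k, z.2 ^ k)
    have h5 : ((univ.filter fun z' : K × K =>
        ((1 : K) * z'.1 ^ k, (1 : K) * z'.2 ^ k) = (z.1 ^ k, z.2 ^ k)).card : ℝ) ≤ (k : ℝ) ^ 2 := by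
      rw [sq]; exact_mod_cast h4
    simp only [card_univ, Fintype.card_prod, nsmul_eq_mul, mul_one]
    push_cast
    have : (0 : ℝ) ≤ Fintype.card K := by positivity
    nlinarith
  refine (Finset.sum_le_sum fun z _ => h1 z).trans (le_of_eq ?_)
  simp only [sum_const, card_univ, Fintype.card_prod, nsmul_eq_mul]
  push_cast
  ring

lemma variance (k : ℕ) (hk : 1 ≤ k) :
    ∑ w : K × K, ((NN k w : ℝ) - Fintype.card K) ^ 2 ≤
      (k : ℝ) ^ 2 * (Fintype.card K : ℝ) ^ 3 + 2 * (Fintype.card K : ℝ) ^ 2 := by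
  have h1 := first_moment (K := K) k
  have h2 := second_moment (K := K) k hk
  have h3 : ∑ w : K × K, ((NN k w : ℝ) - Fintype.card K) ^ 2 =
      ∑ w : K × K, (NN k w : ℝ) ^ 2 - 2 * Fintype.card K * ∑ w : K × K, (NN k w : ℝ) +
        (Fintype.card K : ℝ) ^ 4 := by
    simp_rw [sub_sq]
    rw [Finset.sum_add_distrib, Finset.sum_sub_distrib, Finset.mul_sum]
    simp only [sum_const, card_univ, Fintype.card_prod, nsmul_eq_mul]
    push_cast
    congr 1
    · congr 1
      exact Finset.sum_congr rfl fun w _ => by ring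
    · ring
  rw [h3]
  have : (0 : ℝ) ≤ Fintype.card K := by positivity
  nlinarith

lemma NN_inv (k : ℕ) (w z : K × K) (h1 : z.1 ≠ 0) (h2 : z.2 ≠ 0) :
    NN k (w.1 * z.1 ^ k, w.2 * z.2 ^ k) = NN k w := by
  unfold NN
  refine Finset.card_bij (fun y _ => (z.1 * y.1, z.2 * y.2)) ?_ ?_ ?_
  · intro y hy
    simp only [mem_filter, mem_univ, true_and] at hy ⊢
    rw [← hy]; ring
  · intro y _ y' _ h
    simp only [Prod.mk.injEq] at h
    exact Prod.ext (mul_left_cancel₀ h1 h.1) (mul_left_cancel₀ h2 h.2)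
  · intro y hy
    simp only [mem_filter, mem_univ, true_and] at hy
    refine ⟨(y.1 / z.1, y.2 / z.2), ?_, ?_⟩
    · simp only [mem_filter, mem_univ, true_and]
      rw [← hy, div_pow, div_pow]
      field_simp
    · ext <;> simp only <;> field_simp

lemma NN_bound (k : ℕ) (hk : 1 ≤ k) (u : K × K) (hu1 : u.1 ≠ 0) (hu2 : u.2 ≠ 0) :
    ((Fintype.card K : ℝ) - 1) ^ 2 * ((NN k u : ℝ) - Fintype.card K) ^ 2 ≤
      (k : ℝ) ^ 2 * ((k : ℝ) ^ 2 * (Fintype.card K : ℝ) ^ 3 + 2 * (Fintype.card K : ℝ) ^ 2) := by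
  have hv := variance (K := K) k hk
  set T : Finset (K × K) := (univ.erase 0) ×ˢ (univ.erase 0) with hT
  have hcard : (T.card : ℝ) = ((Fintype.card K : ℝ) - 1) ^ 2 := by
    rw [hT, card_product, card_erase_of_mem (mem_univ _), card_univ]
    have : 1 ≤ Fintype.card K := Fintype.card_pos
    push_cast [this]
    ring
  set g : K × K → K × K := fun z => (u.1 * z.1 ^ k, u.2 * z.2 ^ k) with hg
  set f : K × K → ℝ := fun w => ((NN k w : ℝ) - Fintype.card K) ^ 2 with hf
  have h1 : ∑ z ∈ T, f (g z) = T.card * f u := by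
    rw [Finset.sum_congr rfl (g := fun _ => f u)]
    · simp
    · intro z hz
      simp only [hT, mem_product, mem_erase, mem_univ, and_true] at hz
      simp only [hf, hg]
      rw [NN_inv k u z hz.1 hz.2]
  have h2 : ∑ z ∈ T, f (g z) ≤ ∑ z : K × K, f (g z) :=
    Finset.sum_le_sum_of_subset_of_nonneg (subset_univ _) fun z _ _ => sq_nonneg _
  have h3 : ∑ z : K × K, f (g z) ≤ (k : ℝ) ^ 2 * ∑ w : K × K, f w := by
    rw [← Finset.sum_fiberwise (s := univ) (g := g), Finset.mul_sum]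
    refine Finset.sum_le_sum fun w _ => ?_
    rw [Finset.sum_congr rfl (g := fun _ => f w) (fun z hz => by rw [(mem_filter.1 hz).2])]
    rw [Finset.sum_const, nsmul_eq_mul]
    have h4 := card_pair_le k hk u hu1 hu2 w
    have h5 : ((univ.filter fun z : K × K => g z = w).card : ℝ) ≤ (k : ℝ) ^ 2 := by
      rw [sq]; exact_mod_cast h4
    exact mul_le_mul_of_nonneg_right h5 (sq_nonneg _)
  rw [← hcard]
  calc _ = ∑ z ∈ T, f (g z) := h1.symm
    _ ≤ (k : ℝ) ^ 2 * ∑ w : K × K, f w := h2.trans h3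
    _ ≤ _ := mul_le_mul_of_nonneg_left hv (sq_nonneg _)

lemma NN_half (k : ℕ) (hk : 1 ≤ k) (hQ : 100 * k ^ 4 < Fintype.card K) (u : K × K)
    (hu1 : u.1 ≠ 0) (hu2 : u.2 ≠ 0) : Fintype.card K ≤ 2 * NN k u := by
  by_contra hc
  push Not at hc
  have hb := NN_bound k hk u hu1 hu2
  set Q : ℝ := (Fintype.card K : ℝ) with hQd
  have hk1 : (1 : ℝ) ≤ k := by exact_mod_cast hk
  have hQ' : 100 * (k : ℝ) ^ 4 < Q := by rw [hQd]; exact_mod_cast hQ
  have hc' : 2 * (NN k u : ℝ) < Q := by rw [hQd]; exact_mod_cast hc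
  have hN : (0 : ℝ) ≤ NN k u := by positivity
  have hk4 : (1 : ℝ) ≤ (k : ℝ) ^ 4 := one_le_pow₀ hk1
  have hk2 : (k : ℝ) ^ 2 ≤ (k : ℝ) ^ 4 := pow_le_pow_right₀ hk1 (by norm_num)
  have hQ1 : (100 : ℝ) < Q := by linarith
  have h1 : Q ^ 2 / 4 ≤ ((NN k u : ℝ) - Q) ^ 2 := by nlinarith
  have h2 : Q ^ 2 / 4 ≤ (Q - 1) ^ 2 := by nlinarith
  have h3 : Q ^ 2 / 4 * (Q ^ 2 / 4) ≤ (Q - 1) ^ 2 * ((NN k u : ℝ) - Q) ^ 2 :=
    mul_le_mul h2 h1 (by positivity) (sq_nonneg _)
  have h4 : (k : ℝ) ^ 2 * ((k : ℝ) ^ 2 * Q ^ 3 + 2 * Q ^ 2) ≤ 3 * (k : ℝ) ^ 4 * Q ^ 3 := by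
    have hQ3 : Q ^ 2 ≤ Q ^ 3 := pow_le_pow_right₀ (by linarith) (by norm_num)
    have : (k : ℝ) ^ 2 * Q ^ 2 ≤ (k : ℝ) ^ 4 * Q ^ 3 :=
      mul_le_mul hk2 hQ3 (by positivity) (by positivity)
    nlinarith
  have h5 : 3 * (k : ℝ) ^ 4 * Q ^ 3 < Q ^ 2 / 4 * (Q ^ 2 / 4) := by
    have hQ3 : 0 < Q ^ 3 := by positivity
    have : 3 * (k : ℝ) ^ 4 < Q / 16 := by linarith
    calc 3 * (k : ℝ) ^ 4 * Q ^ 3 < Q / 16 * Q ^ 3 := mul_lt_mul_of_pos_right this hQ3
      _ = _ := by ring
  linarith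

/-- solutions of `x^k + y^k = γ` with `y^k` outside a small set. -/
theorem exists_sum_pow (k : ℕ) (hk : 1 ≤ k) (hQ : 100 * k ^ 4 < Fintype.card K) (γ : K)
    (hγ : γ ≠ 0) (B : Finset K) (hB : 2 * (k * k * B.card) < Fintype.card K) :
    ∃ x y : K, x ^ k + y ^ k = γ ∧ y ^ k ∉ B := by
  by_contra hc
  push Not at hc
  have h1 := NN_half k hk hQ (γ⁻¹, γ⁻¹) (inv_ne_zero hγ) (inv_ne_zero hγ)
  have h2 : NN k (γ⁻¹, γ⁻¹) ≤ k * k * B.card := by
    unfold NN
    have : (univ.filter fun z : K × K => (γ⁻¹, γ⁻¹).1 * z.1 ^ k + (γ⁻¹, γ⁻¹).2 * z.2 ^ k = 1) ⊆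
        B.biUnion fun b => univ.filter fun z : K × K =>
          (((1 : K), (1 : K)).1 * z.1 ^ k, ((1 : K), (1 : K)).2 * z.2 ^ k) = (γ - b, b) := by
      intro z hz
      simp only [mem_filter, mem_univ, true_and] at hz
      have hz' : z.1 ^ k + z.2 ^ k = γ := by
        field_simp at hz
        exact hz
      simp only [mem_biUnion, mem_filter, mem_univ, true_and, one_mul]
      exact ⟨z.2 ^ k, hc _ _ hz', by rw [← hz']; simp⟩
    refine (card_le_card this).trans (card_biUnion_le.trans ?_)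
    refine (Finset.sum_le_sum fun b _ =>
      card_pair_le k hk ((1 : K), (1 : K)) one_ne_zero one_ne_zero (γ - b, b)).trans ?_
    simp [mul_comm]
  omega

end count

end Pool.Agent.H79.War
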