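import Pool.Agent.H79.War1

set_option autoImplicit false

namespace Pool.Agent.H79.War

open Finset Polynomial

section nice

variable {F : Type*} [Field F]

/-- `X` is a `k`-th power modulo `f`, and all irreducible factors of `f` have degree in `D`. -/
def Nice (k : ℕ) (D : Set ℕ) (f : F[X]) : Prop :=
  (∃ y : F[X], f ∣ X - y ^ k) ∧ ∀ π : F[X], Irreducible π → π ∣ f → π.natDegree ∈ D

lemma Nice.mono {k : ℕ} {D D' : Set ℕ} {f : F[X]} (h : Nice k D f) (hD : D ⊆ D') : Nice k D' f :=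
  ⟨h.1, fun π h1 h2 => hD (h.2 π h1 h2)⟩

lemma good_mul {k : ℕ} {f g : F[X]} (hf : ∃ y : F[X], f ∣ X - y ^ k)
    (hg : ∃ y : F[X], g ∣ X - y ^ k) (hc : IsCoprime f g) : ∃ y : F[X], f * g ∣ X - y ^ k := by
  obtain ⟨y, hy⟩ := hf
  obtain ⟨z, hz⟩ := hg
  obtain ⟨a, b, hab⟩ := hc
  refine ⟨a * f * z + b * g * y, IsCoprime.mul_dvd ⟨a, b, hab⟩ ?_ ?_⟩
  · have h1 : f ∣ y - (a * f * z + b * g * y) := ⟨a * y - a * z, by linear_combination (-y) * hab⟩
    have h2 := h1.trans (sub_dvd_pow_sub_pow y (a * f * z + b * g * y) k)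
    have := dvd_add hy h2
    simpa using this
  · have h1 : g ∣ z - (a * f * z + b * g * y) := ⟨b * z - b * y, by linear_combination (-z) * hab⟩
    have h2 := h1.trans (sub_dvd_pow_sub_pow z (a * f * z + b * g * y) k)
    have := dvd_add hz h2
    simpa using this

lemma Nice.mul_of_coprime {k : ℕ} {D D' : Set ℕ} {f g : F[X]} (hf : Nice k D f)
    (hg : Nice k D' g) (hc : IsCoprime f g) : Nice k (D ∪ D') (f * g) := by
  refine ⟨good_mul hf.1 hg.1 hc, fun π h1 h2 => ?_⟩
  rcases h1.prime.dvd_or_dvd h2 with h | h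
  · exact Or.inl (hf.2 π h1 h)
  · exact Or.inr (hg.2 π h1 h)

lemma Nice.mul {k : ℕ} {D D' : Set ℕ} {f g : F[X]} (hf : Nice k D f)
    (hg : Nice k D' g) (hd : Disjoint D D') : Nice k (D ∪ D') (f * g) := by
  refine hf.mul_of_coprime hg (isCoprime_of_irreducible_dvd ?_ ?_)
  · rintro ⟨rfl, rfl⟩
    exact Set.disjoint_left.1 hd (hf.2 X irreducible_X (dvd_zero _))
      (hg.2 X irreducible_X (dvd_zero _))
  · intro π h1 h2 h3
    exact Set.disjoint_left.1 hd (hf.2 π h1 h2) (hg.2 π h1 h3)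

lemma nice_of_irreducible {k : ℕ} {f : F[X]} (hf : Irreducible f)
    (hg : ∃ y : F[X], f ∣ X - y ^ k) : Nice k {f.natDegree} f := by
  refine ⟨hg, fun π h1 h2 => ?_⟩
  exact natDegree_eq_of_degree_eq
    (degree_eq_degree_of_associated (h1.associated_of_dvd hf h2))

lemma nice_X_sub_C (k : ℕ) (b : F) : Nice k {1} (X - C (b ^ k)) := by
  have := nice_of_irreducible (k := k) (irreducible_X_sub_C (b ^ k)) ⟨C b, by simp⟩
  rwa [natDegree_X_sub_C] at this

lemma nice_one (k : ℕ) : Nice k ∅ (1 : F[X]) :=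
  ⟨⟨0, one_dvd _⟩, fun π h1 h2 => (h1.not_isUnit (isUnit_of_dvd_one h2)).elim⟩

/-- `a` is a sum of two elements killed by nice polynomials. -/
def Pm (F : Type*) [Field F] {A : Type*} [Ring A] [Algebra F A] (k : ℕ) (D : Set ℕ) (a : A) :
    Prop :=
  ∃ (U V : A) (f g : F[X]), a = U + V ∧ aeval U f = 0 ∧ aeval V g = 0 ∧ Nice k D f ∧ Nice k D g

variable {A B : Type*} [Ring A] [Algebra F A] [Ring B] [Algebra F B]

lemma Pm.mono {k : ℕ} {D D' : Set ℕ} {a : A} (h : Pm F k D a) (hD : D ⊆ D') : Pm F k D' a := by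
  obtain ⟨U, V, f, g, h1, h2, h3, h4, h5⟩ := h
  exact ⟨U, V, f, g, h1, h2, h3, h4.mono hD, h5.mono hD⟩

lemma Pm.map {k : ℕ} {D : Set ℕ} {a : A} (h : Pm F k D a) (φ : A →ₐ[F] B) : Pm F k D (φ a) := by
  obtain ⟨U, V, f, g, h1, h2, h3, h4, h5⟩ := h
  refine ⟨φ U, φ V, f, g, by rw [h1, map_add], ?_, ?_, h4, h5⟩
  · rw [aeval_algHom_apply, h2, map_zero]
  · rw [aeval_algHom_apply, h3, map_zero]

lemma pow_of_good {k : ℕ} {f : F[X]} {U : A} (h : aeval U f = 0)
    (hg : ∃ y : F[X], f ∣ X - y ^ k) : ∃ Y : A, U = Y ^ k := by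
  obtain ⟨y, c, hc⟩ := hg
  refine ⟨aeval U y, ?_⟩
  have := congrArg (aeval U) hc
  rw [map_mul, h, zero_mul, map_sub, aeval_X, map_pow] at this
  exact sub_eq_zero.1 this

lemma Pm.pow {k : ℕ} {D : Set ℕ} {a : A} (h : Pm F k D a) : ∃ X Y : A, a = X ^ k + Y ^ k := by
  obtain ⟨U, V, f, g, h1, h2, h3, h4, h5⟩ := h
  obtain ⟨X, hX⟩ := pow_of_good h2 h4.1
  obtain ⟨Y, hY⟩ := pow_of_good h3 h5.1
  exact ⟨X, Y, by rw [h1, hX, hY]⟩

end nice

section galois

variable {F K : Type*} [Field F] [Field K] [Algebra F K] [Fintype F] [Fintype K]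

/-- trivial stabiliser in the Galois group. -/
def Reg (F : Type*) [Field F] {K : Type*} [Field K] [Algebra F K] (x : K) : Prop :=
  ∀ σ : K ≃ₐ[F] K, σ ≠ 1 → σ x ≠ x

lemma Reg.natDegree {x : K} (hx : Reg F x) : (minpoly F x).natDegree = Module.finrank F K := by
  classical
  refine le_antisymm (minpoly.natDegree_le x) ?_
  rw [← IsGalois.card_aut_eq_finrank, Nat.card_eq_fintype_card]
  have hne : (minpoly F x) ≠ 0 := minpoly.ne_zero (Algebra.IsIntegral.isIntegral x)
  have h1 : (univ : Finset (K ≃ₐ[F] K)).card ≤ ((minpoly F x).aroots K).toFinset.card := by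
    refine Finset.card_le_card_of_injOn (fun σ => σ x) ?_ ?_
    · intro σ _
      simp only [mem_coe, Multiset.mem_toFinset, mem_aroots]
      refine ⟨hne, ?_⟩
      rw [aeval_algHom_apply, minpoly.aeval, map_zero]
    · intro σ _ τ _ h
      by_contra hne'
      refine hx (τ⁻¹ * σ) (fun h1 => hne' ?_) ?_
      · exact (inv_mul_eq_one.1 h1).symm
      · simp only at h
        rw [AlgEquiv.mul_apply, h, ← AlgEquiv.mul_apply, inv_mul_cancel, AlgEquiv.one_apply]
  refine h1.trans ((Multiset.toFinset_card_le _).trans ?_)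
  exact (card_roots' _).trans (natDegree_map_le)

lemma Reg.nice {k : ℕ} {z : K} (hx : Reg F (z ^ k)) :
    Nice k {Module.finrank F K} (minpoly F (z ^ k)) := by
  rw [← hx.natDegree]
  refine nice_of_irreducible (minpoly.irreducible (Algebra.IsIntegral.isIntegral _)) ?_
  have h1 := (Field.primitive_element_iff_minpoly_natDegree_eq F (z ^ k)).2 hx.natDegree
  have h2 : z ∈ (IntermediateField.adjoin F {z ^ k}).toSubalgebra := by rw [h1]; trivial
  rw [IntermediateField.adjoin_simple_toSubalgebra_of_isAlgebraic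
    (Algebra.IsAlgebraic.isAlgebraic _), Algebra.adjoin_singleton_eq_range_aeval] at h2
  obtain ⟨y, hy⟩ := h2
  refine ⟨y, minpoly.dvd F _ ?_⟩
  have hy' : aeval (z ^ k) y = z := hy
  rw [map_sub, aeval_X, map_pow, hy', sub_self]

lemma Reg.trace {x : K} (hx : Reg F x) :
    Algebra.trace F K x = -(minpoly F x).coeff (Module.finrank F K - 1) := by
  rw [trace_eq_finrank_mul_minpoly_nextCoeff]
  have h1 := (Field.primitive_element_iff_minpoly_natDegree_eq F x).2 hx.natDegree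
  have h2 : Module.finrank (IntermediateField.adjoin F {x}) K = 1 := by
    rw [h1]; exact IntermediateField.finrank_top
  rw [h2, nextCoeff_of_natDegree_pos (by rw [hx.natDegree]; exact Module.finrank_pos),
    hx.natDegree]
  simp

lemma card_fix [DecidableEq K] (σ : K ≃ₐ[F] K) (hσ : σ ≠ 1) :
    (univ.filter fun x : K => σ x - x = 0).card ≤ Nat.sqrt (Fintype.card K) := by
  classical
  set L := IntermediateField.fixedField (Subgroup.zpowers σ) with hL
  have h1 : (univ.filter fun x : K => σ x - x = 0).card ≤ Nat.card L := by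
    rw [Nat.card_eq_fintype_card, Fintype.card_subtype]
    refine card_le_card fun x hx => ?_
    simp only [mem_filter, mem_univ, true_and] at hx ⊢
    rw [hL, IntermediateField.mem_fixedField_iff]
    intro τ hτ
    have hx' : σ ∈ MulAction.stabilizer (K ≃ₐ[F] K) x := sub_eq_zero.1 hx
    exact (Subgroup.zpowers_le_of_mem hx') hτ
  have h2 : 2 ≤ Module.finrank L K := by
    rw [hL, IntermediateField.finrank_fixedField_eq_card, Nat.card_zpowers]
    have h3 : orderOf σ ≠ 1 := fun h => hσ (orderOf_eq_one_iff.1 h)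
    have h4 := orderOf_pos σ
    omega
  have h3 : Nat.card K = Nat.card L ^ Module.finrank L K := Module.natCard_eq_pow_finrank
  refine h1.trans (Nat.le_sqrt'.2 ?_)
  rw [← Nat.card_eq_fintype_card, h3]
  exact Nat.pow_le_pow_right Nat.card_pos h2

lemma card_shift [DecidableEq K] (σ : K ≃ₐ[F] K) (hσ : σ ≠ 1) (δ : K) :
    (univ.filter fun x : K => σ x - x = δ).card ≤ Nat.sqrt (Fintype.card K) := by
  rcases (univ.filter fun x : K => σ x - x = δ).eq_empty_or_nonempty with h | ⟨x0, h0⟩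
  · simp [h]
  · refine le_trans ?_ (card_fix σ hσ)
    simp only [mem_filter, mem_univ, true_and] at h0
    refine Finset.card_le_card_of_injOn (fun x => x - x0) ?_ ?_
    · intro x hx
      simp only [coe_filter, mem_univ, true_and, Set.mem_setOf_eq] at hx ⊢
      rw [map_sub]
      linear_combination hx - h0
    · intro x _ y _ h
      simpa using h

/-- the exceptional set. -/
noncomputable def Bad (F : Type*) [Field F] {K : Type*} [Field K] [Algebra F K] [Fintype F]
    [Fintype K] (δ : K) : Finset K := by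
  classical
  exact (univ.filter fun σ : K ≃ₐ[F] K => σ ≠ 1).biUnion fun σ => univ.filter fun x => σ x - x = δ

lemma mem_Bad {δ x : K} : x ∈ Bad F δ ↔ ∃ σ : K ≃ₐ[F] K, σ ≠ 1 ∧ σ x - x = δ := by
  simp [Bad]

lemma card_Bad (δ : K) : (Bad F δ).card ≤ Module.finrank F K * Nat.sqrt (Fintype.card K) := by
  classical
  unfold Bad
  refine card_biUnion_le.trans ?_
  refine (Finset.sum_le_sum (g := fun _ => Nat.sqrt (Fintype.card K)) fun σ hσ => ?_).trans ?_
  · convert card_shift σ (mem_filter.1 hσ).2 δ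
  · rw [sum_const, smul_eq_mul, ← IsGalois.card_aut_eq_finrank, Nat.card_eq_fintype_card]
    exact Nat.mul_le_mul_right _ (card_le_univ _)

theorem exists_pair (k : ℕ) (hk : 1 ≤ k)
    (hQ : (10 * k ^ 2 * Module.finrank F K + 1) ^ 2 ≤ Fintype.card K) (γ : K) (hγ : γ ≠ 0)
    (δ a b : K) : ∃ x y : K, x ^ k + y ^ k = γ ∧ Reg F (x ^ k) ∧ Reg F (y ^ k) ∧
      (∀ σ : K ≃ₐ[F] K, σ ≠ 1 → σ (y ^ k) - y ^ k ≠ δ) ∧ y ^ k ≠ a ∧ y ^ k ≠ b := by
  classical
  set r := Module.finrank F K with hr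
  have hr1 : 1 ≤ r := Module.finrank_pos
  set m := Nat.sqrt (Fintype.card K) with hm
  have hm1 : 10 * k ^ 2 * r + 1 ≤ m := Nat.le_sqrt'.2 hQ
  have hm2 : m ^ 2 ≤ Fintype.card K := Nat.sqrt_le' _
  set B : Finset K := ((Bad F 0 ∪ (Bad F 0).image fun x => γ - x) ∪ Bad F δ) ∪ {a, b} with hB
  have hBc : B.card ≤ 3 * (r * m) + 2 := by
    have h0 := card_Bad (F := F) (0 : K)
    have h1 := card_Bad (F := F) δ
    have h2 := card_image_le (s := Bad F (0 : K)) (f := fun x => γ - x)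
    have h3 : ({a, b} : Finset K).card ≤ 2 := card_le_two
    have h4 := card_union_le ((Bad F 0 ∪ (Bad F 0).image fun x => γ - x) ∪ Bad F δ) {a, b}
    have h5 := card_union_le (Bad F 0 ∪ (Bad F 0).image fun x => γ - x) (Bad F δ)
    have h6 := card_union_le (Bad F (0 : K)) ((Bad F 0).image fun x => γ - x)
    rw [← hr, ← hm] at h0 h1
    rw [← hB] at h4
    omega
  have hk2 : 1 ≤ k ^ 2 := Nat.one_le_pow _ _ hk
  have hrm : 1 ≤ r * m := Nat.mul_pos hr1 (by omega)
  obtain ⟨x, y, hxy, hy⟩ := exists_sum_pow k hk (by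
    have : 10 * k ^ 2 ≤ 10 * k ^ 2 * r := Nat.le_mul_of_pos_right _ hr1
    nlinarith) γ hγ B (by
    have h1 : k * k * B.card ≤ k ^ 2 * (5 * (r * m)) := by
      rw [sq]; exact Nat.mul_le_mul_left _ (by omega)
    have h2 : (10 * k ^ 2 * r + 1) * m ≤ m * m := Nat.mul_le_mul_right _ hm1
    nlinarith)
  simp only [hB, mem_union, mem_image, mem_Bad, mem_insert, mem_singleton, not_or, not_exists,
    not_and] at hy
  obtain ⟨⟨⟨h1, h2⟩, h3⟩, h4, h5⟩ := hy
  refine ⟨x, y, hxy, fun σ hσ h => ?_, fun σ hσ h => h1 σ hσ (sub_eq_zero.2 h), h3, h4, h5⟩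
  exact h2 (x ^ k) ⟨σ, hσ, sub_eq_zero.2 h⟩ (by rw [← hxy]; ring)

end galois

end Pool.Agent.H79.War
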