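import Pool.Agent.H79.War2

set_option autoImplicit false

namespace Pool.Agent.H79.War

open Finset Polynomial Matrix

section blocks

variable {F : Type*} [Field F]
variable {ι κ : Type*} [Fintype ι] [DecidableEq ι] [Fintype κ] [DecidableEq κ]

lemma aeval_upper (A : Matrix ι ι F) (B : Matrix ι κ F) (D : Matrix κ κ F) (p : F[X]) :
    ∃ B', aeval (fromBlocks A B 0 D) p = fromBlocks (aeval A p) B' 0 (aeval D p) := by
  have hpow : ∀ n : ℕ, ∃ B', (fromBlocks A B 0 D) ^ n = fromBlocks (A ^ n) B' 0 (D ^ n) := by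
    intro n
    induction n with
    | zero => exact ⟨0, by simp⟩
    | succ n ih =>
      obtain ⟨B', h⟩ := ih
      refine ⟨A ^ n * B + B' * D, ?_⟩
      rw [pow_succ, h, fromBlocks_multiply]
      simp [pow_succ]
  induction p using Polynomial.induction_on' with
  | add p q hp hq =>
    obtain ⟨B1, h1⟩ := hp
    obtain ⟨B2, h2⟩ := hq
    refine ⟨B1 + B2, ?_⟩
    rw [map_add, h1, h2, fromBlocks_add]
    simp
  | monomial n a =>
    obtain ⟨B', h⟩ := hpow n
    refine ⟨a • B', ?_⟩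
    simp only [aeval_monomial, ← Algebra.smul_def, h, fromBlocks_smul, smul_zero]

lemma aeval_lower (A : Matrix ι ι F) (C : Matrix κ ι F) (D : Matrix κ κ F) (p : F[X]) :
    ∃ C', aeval (fromBlocks A 0 C D) p = fromBlocks (aeval A p) 0 C' (aeval D p) := by
  have hpow : ∀ n : ℕ, ∃ C', (fromBlocks A 0 C D) ^ n = fromBlocks (A ^ n) 0 C' (D ^ n) := by
    intro n
    induction n with
    | zero => exact ⟨0, by simp⟩
    | succ n ih =>
      obtain ⟨C', h⟩ := ih
      refine ⟨C' * A + D ^ n * C, ?_⟩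
      rw [pow_succ, h, fromBlocks_multiply]
      simp [pow_succ]
  induction p using Polynomial.induction_on' with
  | add p q hp hq =>
    obtain ⟨B1, h1⟩ := hp
    obtain ⟨B2, h2⟩ := hq
    refine ⟨B1 + B2, ?_⟩
    rw [map_add, h1, h2, fromBlocks_add]
    simp
  | monomial n a =>
    obtain ⟨B', h⟩ := hpow n
    refine ⟨a • B', ?_⟩
    simp only [aeval_monomial, ← Algebra.smul_def, h, fromBlocks_smul, smul_zero]

lemma Pm.blocks {k : ℕ} {D1 D2 : Set ℕ} {A : Matrix ι ι F} {D : Matrix κ κ F}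
    (h1 : Pm F k D1 A) (h2 : Pm F k D2 D) (hd : Disjoint D1 D2) (B : Matrix ι κ F)
    (C : Matrix κ ι F) : Pm F k (D1 ∪ D2) (fromBlocks A B C D) := by
  obtain ⟨U1, V1, f1, g1, e1, hU1, hV1, nf1, ng1⟩ := h1
  obtain ⟨U2, V2, f2, g2, e2, hU2, hV2, nf2, ng2⟩ := h2
  refine ⟨fromBlocks U1 B 0 U2, fromBlocks V1 0 C V2, f1 * f2, g1 * g2, ?_, ?_, ?_,
    nf1.mul nf2 hd, ng1.mul ng2 hd⟩
  · rw [fromBlocks_add, e1, e2]; simp
  · obtain ⟨B1, e3⟩ := aeval_upper U1 B U2 f1
    obtain ⟨B2, e4⟩ := aeval_upper U1 B U2 f2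
    rw [map_mul, e3, e4, hU1, hU2, fromBlocks_multiply]
    simp
  · obtain ⟨B1, e3⟩ := aeval_lower V1 C V2 g1
    obtain ⟨B2, e4⟩ := aeval_lower V1 C V2 g2
    rw [mul_comm, map_mul, e3, e4, hV1, hV2, fromBlocks_multiply]
    simp

lemma Pm.of_submatrix {k : ℕ} {D : Set ℕ} {A : Matrix ι ι F} (e : κ ≃ ι)
    (h : Pm F k D (A.submatrix e e)) : Pm F k D A := by
  have := h.map (reindexAlgEquiv F F e).toAlgHom
  convert this using 1
  ext i j
  simp

/-- principal submatrix. -/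
def sub (M : Matrix ι ι F) (S : Finset ι) : Matrix S S F :=
  M.submatrix Subtype.val Subtype.val

lemma Pm.union {k : ℕ} {D1 D2 : Set ℕ} {M : Matrix ι ι F} {S T : Finset ι}
    (h1 : Pm F k D1 (sub M S)) (h2 : Pm F k D2 (sub M T)) (hd : Disjoint D1 D2)
    (hST : Disjoint S T) : Pm F k (D1 ∪ D2) (sub M (S ∪ T)) := by
  refine Pm.of_submatrix (Equiv.Finset.union S T hST) ?_
  have := h1.blocks h2 hd (M.submatrix Subtype.val Subtype.val)
    (M.submatrix Subtype.val Subtype.val)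
  convert this using 1
  ext i j
  rcases i with i | i <;> rcases j with j | j <;> rfl

lemma Pm.empty (k : ℕ) (M : Matrix ι ι F) : Pm F k ∅ (sub M ∅) :=
  ⟨0, 0, 1, 1, Subsingleton.elim _ _, Subsingleton.elim _ _, Subsingleton.elim _ _,
    nice_one k, nice_one k⟩

lemma Pm.of_univ {k : ℕ} {D : Set ℕ} {M : Matrix ι ι F} (h : Pm F k D (sub M univ)) :
    Pm F k D M :=
  Pm.of_submatrix (Equiv.subtypeUnivEquiv fun x => mem_univ x) h

lemma Pm.biUnion {J : Type*} [DecidableEq J] {k : ℕ} {M : Matrix ι ι F} (s : Finset J)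
    (S : J → Finset ι) (D : J → Set ℕ) (h : ∀ j ∈ s, Pm F k (D j) (sub M (S j)))
    (hS : ∀ i j, i ≠ j → Disjoint (S i) (S j)) (hD : ∀ i j, i ≠ j → Disjoint (D i) (D j)) :
    Pm F k (⋃ j ∈ s, D j) (sub M (s.biUnion S)) := by
  induction s using Finset.induction_on with
  | empty => exact (Pm.empty k M).mono (Set.empty_subset _)
  | insert a s ha ih =>
    rw [Finset.biUnion_insert, Finset.set_biUnion_insert]
    refine (h a (mem_insert_self _ _)).union (ih fun j hj => h j (mem_insert_of_mem hj)) ?_ ?_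
    · simp only [Set.disjoint_iUnion_right]
      intro j hj
      exact hD a j (by rintro rfl; exact ha hj)
    · rw [Finset.disjoint_biUnion_right]
      intro j hj
      exact hS a j (by rintro rfl; exact ha hj)

/-- conjugation. -/
def conjHom (F : Type*) [Field F] {A : Type*} [Ring A] [Algebra F A] (G G' : A) (h1 : G * G' = 1)
    (h2 : G' * G = 1) : A →ₐ[F] A where
  toFun x := G' * x * G
  map_one' := by rw [mul_one, h2]
  map_mul' x y := by
    calc G' * (x * y) * G = G' * x * (G * G') * y * G := by rw [h1]; noncomm_ring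
      _ = _ := by noncomm_ring
  map_zero' := by simp
  map_add' x y := by noncomm_ring
  commutes' r := by
    rw [← Algebra.commutes, mul_assoc, h2, mul_one]

lemma exists_functional (w w' : ι → F) (hw : w ≠ 0) (hw' : w' ≠ 0) :
    ∃ ψ : ι → F, ψ ⬝ᵥ w = 1 ∧ ψ ⬝ᵥ w' ≠ 0 := by
  suffices h : ∃ ψ : ι → F, ψ ⬝ᵥ w ≠ 0 ∧ ψ ⬝ᵥ w' ≠ 0 by
    obtain ⟨ψ, h1, h2⟩ := h
    refine ⟨(ψ ⬝ᵥ w)⁻¹ • ψ, ?_, ?_⟩
    · rw [smul_dotProduct, smul_eq_mul, inv_mul_cancel₀ h1]
    · rw [smul_dotProduct, smul_eq_mul]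
      exact mul_ne_zero (inv_ne_zero h1) h2
  obtain ⟨i, hi⟩ := Function.ne_iff.1 hw
  obtain ⟨j, hj⟩ := Function.ne_iff.1 hw'
  simp only [Pi.zero_apply] at hi hj
  by_cases h1 : w' i = 0
  · by_cases h2 : w j = 0
    · exact ⟨Pi.single i 1 + Pi.single j 1, by simpa [add_dotProduct, h2] using hi,
        by simpa [add_dotProduct, h1] using hj⟩
    · exact ⟨Pi.single j 1, by simpa using h2, by simpa using hj⟩
  · exact ⟨Pi.single i 1, by simpa using hi, by simpa using h1⟩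

lemma Pm.conj_col {k : ℕ} {D : Set ℕ} (c : F) (z : ι) (w w' : ι → F) (hw : w ≠ 0) (hw' : w' ≠ 0)
    (hz : w z = w' z)
    (h : Pm F k D (algebraMap F (Matrix ι ι F) c + vecMulVec w' (Pi.single z 1))) :
    Pm F k D (algebraMap F (Matrix ι ι F) c + vecMulVec w (Pi.single z 1)) := by
  obtain ⟨ψ, h1, h2⟩ := exists_functional w w' hw hw'
  set N : Matrix ι ι F := vecMulVec (w' - w) ψ with hN
  set s := ψ ⬝ᵥ w' with hs
  have hNN : N * N = (s - 1) • N := by
    rw [hN, vecMulVec_mul_vecMulVec, vecMulVec_smul, dotProduct_sub, h1]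
  have hG : (1 + N) * (1 - s⁻¹ • N) = 1 := by
    rw [mul_sub, mul_one, add_mul, one_mul, mul_smul_comm, hNN, smul_smul, ← add_smul]
    have : s⁻¹ + s⁻¹ * (s - 1) = 1 := by field_simp; ring
    rw [this, one_smul, add_sub_cancel_right]
  have hG' : (1 - s⁻¹ • N) * (1 + N) = 1 := mul_eq_one_comm.1 hG
  have key : (1 + N) * vecMulVec w (Pi.single z 1) = vecMulVec w' (Pi.single z 1) * (1 + N) := by
    rw [add_mul, mul_add, one_mul, mul_one, hN, vecMulVec_mul_vecMulVec, vecMulVec_mul_vecMulVec,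
      h1, one_smul, sub_vecMulVec]
    simp [hz]
  have := h.map (conjHom F (1 + N) (1 - s⁻¹ • N) hG hG')
  rw [map_add, AlgHom.commutes] at this
  convert this using 2
  show _ = (1 - s⁻¹ • N) * vecMulVec w' (Pi.single z 1) * (1 + N)
  rw [mul_assoc, ← key, ← mul_assoc, hG', one_mul]

/-- companion matrix. -/
def comp (n : ℕ) (f : F[X]) : Matrix (Fin n) (Fin n) F :=
  Matrix.of fun i j => if (j : ℕ) + 1 = n then -f.coeff i else if (i : ℕ) = j + 1 then 1 else 0

lemma aeval_comp_self {n : ℕ} {f : F[X]} (hf : f.Monic) (hn : f.natDegree = n) :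
    aeval (comp n f) f = 0 := by
  subst hn
  have h1 := (AdjoinRoot.powerBasis hf.ne_zero).leftMulMatrix
  rw [PowerBasis.minpolyGen_eq, AdjoinRoot.minpoly_powerBasis_gen_of_monic hf] at h1
  have h2 : comp f.natDegree f = Algebra.leftMulMatrix (AdjoinRoot.powerBasis hf.ne_zero).basis
    (AdjoinRoot.powerBasis hf.ne_zero).gen := h1.symm
  rw [h2]
  refine (aeval_algHom_apply (Algebra.leftMulMatrix (AdjoinRoot.powerBasis hf.ne_zero).basis)
    _ f).trans ?_
  rw [AdjoinRoot.powerBasis_gen, AdjoinRoot.aeval_eq, AdjoinRoot.mk_self, map_zero]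
  rfl

end blocks

end Pool.Agent.H79.War
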