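import Pool.Agent.H79.War3

set_option autoImplicit false

namespace Pool.Agent.H79.War

open Finset Polynomial Matrix

section main

variable {F : Type} [Field F] [Fintype F]
variable {ι : Type*} [Fintype ι] [DecidableEq ι]

lemma exists_ext (F : Type) [Field F] [Fintype F] (r : ℕ) (hr : 1 ≤ r) :
    ∃ (K : Type) (_ : Field K) (_ : Algebra F K) (_ : Fintype K),
      Module.finrank F K = r ∧ Fintype.card K = Fintype.card F ^ r := by
  haveI : Fact (ringChar F).Prime := ⟨CharP.char_is_prime F _⟩
  haveI : NeZero r := ⟨by omega⟩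
  letI := Fintype.ofFinite (FiniteField.Extension F (ringChar F) r)
  refine ⟨FiniteField.Extension F (ringChar F) r, inferInstance, inferInstance,
    inferInstance, FiniteField.finrank_extension _ _ _, ?_⟩
  rw [← Nat.card_eq_fintype_card, FiniteField.natCard_extension, Nat.card_eq_fintype_card]

/-- the size condition. -/
def Big (k q r : ℕ) : Prop := (10 * k ^ 2 * r + 1) ^ 2 ≤ q ^ r

lemma scalar_pm (k : ℕ) (hk : 1 ≤ k) (r x : ℕ) (hr : 1 ≤ r) (hB : Big k (Fintype.card F) r)
    (c : F) (hc : c ≠ 0) (hι : Fintype.card ι = r * x) :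
    Pm F k {r} (algebraMap F (Matrix ι ι F) c) := by
  obtain ⟨K, _, _, _, h1, h2⟩ := exists_ext F r hr
  obtain ⟨a, b, hab, ha, hb, -⟩ := exists_pair (F := F) (K := K) k hk (by rw [h1, h2]; exact hB)
    (algebraMap F K c) (by simpa using hc) 0 0 0
  have h3 : Pm F k {r} (algebraMap F K c) :=
    ⟨a ^ k, b ^ k, _, _, hab.symm, minpoly.aeval _ _, minpoly.aeval _ _, h1 ▸ ha.nice, h1 ▸ hb.nice⟩
  have h4 : Module.finrank F (Fin x → K) = Fintype.card ι := by
    rw [Module.finrank_pi_fintype]
    simp [h1, hι, mul_comm]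
  let bs : Module.Basis ι F (Fin x → K) :=
    (Module.finBasisOfFinrankEq F _ h4).reindex (Fintype.equivFin ι).symm
  have := h3.map ((LinearMap.toMatrixAlgEquiv bs).toAlgHom.comp
    (Algebra.lsmul F F (Fin x → K) : K →ₐ[F] Module.End F (Fin x → K)))
  rwa [AlgHom.commutes] at this

lemma exists_trace {K : Type} [Field K] [Algebra F K] [Fintype K] (hr : 3 ≤ Module.finrank F K)
    (τ : F) (a b : K) : ∃ γ : K, Algebra.trace F K γ = τ ∧ γ ≠ a ∧ γ ≠ b := by
  classical
  obtain ⟨x0, hx0⟩ := Algebra.trace_surjective F K τ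
  have h1 := LinearMap.finrank_range_add_finrank_ker (Algebra.trace F K)
  have h2 : Module.finrank F (LinearMap.range (Algebra.trace F K)) ≤ 1 := by
    simpa using Submodule.finrank_le (LinearMap.range (Algebra.trace F K))
  have h3 : Nat.card (LinearMap.ker (Algebra.trace F K)) =
      Nat.card F ^ Module.finrank F (LinearMap.ker (Algebra.trace F K)) :=
    Module.natCard_eq_pow_finrank
  have h4 : 2 ≤ Nat.card F := Finite.one_lt_card
  have h5 : 2 ^ 2 ≤ Nat.card (LinearMap.ker (Algebra.trace F K)) := by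
    rw [h3]
    exact (Nat.pow_le_pow_left h4 2).trans (Nat.pow_le_pow_right (by omega) (by omega))
  rw [Nat.card_eq_fintype_card, Fintype.card_subtype] at h5
  obtain ⟨u, hu, hu'⟩ := exists_mem_notMem_of_card_lt_card
    (s := ({a - x0, b - x0} : Finset K))
    (t := univ.filter fun x => x ∈ LinearMap.ker (Algebra.trace F K))
    (lt_of_le_of_lt card_le_two (by omega))
  simp only [mem_filter, mem_univ, true_and, LinearMap.mem_ker] at hu
  simp only [mem_insert, mem_singleton, not_or] at hu'
  refine ⟨x0 + u, by rw [map_add, hx0, hu, add_zero], fun h => hu'.1 ?_, fun h => hu'.2 ?_⟩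
  · rw [← h]; ring
  · rw [← h]; ring

lemma col_pm_fin (k : ℕ) (hk : 1 ≤ k) (r : ℕ) (hr : 3 ≤ r) (hB : Big k (Fintype.card F) r)
    (c : F) (z : Fin r) (hz : (z : ℕ) + 1 = r) (w : Fin r → F) (hw : w ≠ 0) :
    Pm F k {r} (algebraMap F (Matrix (Fin r) (Fin r) F) c + vecMulVec w (Pi.single z 1)) := by
  obtain ⟨K, _, _, _, h1, h2⟩ := exists_ext F r (by omega)
  obtain ⟨γ, hγ, hγ0, hγc⟩ := exists_trace (F := F) (K := K) (by omega) (w z + r * c) 0
    (algebraMap F K c)
  obtain ⟨a, b, hab, ha, hb, hδ, -⟩ := exists_pair (F := F) (K := K) k hk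
    (by rw [h1, h2]; exact hB) γ hγ0 (algebraMap F K c - γ) 0 0
  set T : K := algebraMap F K c - b ^ k with hT
  have hTr : Reg F T := by
    intro σ hσ h
    apply hb σ hσ
    rw [hT, map_sub, AlgEquiv.commutes] at h
    exact sub_right_injective h
  have mon : ∀ x : K, (minpoly F x).Monic := fun x =>
    minpoly.monic (Algebra.IsIntegral.isIntegral x)
  set w' : Fin r → F := fun i => -(minpoly F (a ^ k)).coeff i + (minpoly F T).coeff i with hw'
  have hw'0 : w' ≠ 0 := by
    intro h0
    have heq : minpoly F (a ^ k) = minpoly F T := by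
      ext i
      rcases lt_trichotomy i r with hi | hi | hi
      · have := congrFun h0 ⟨i, hi⟩
        simp only [hw', Pi.zero_apply] at this
        linear_combination -this
      · have e1 := (mon (a ^ k)).coeff_natDegree
        have e2 := (mon T).coeff_natDegree
        rw [ha.natDegree, h1] at e1
        rw [hTr.natDegree, h1] at e2
        rw [hi, e1, e2]
      · rw [coeff_eq_zero_of_natDegree_lt (by rw [ha.natDegree, h1]; exact hi),
          coeff_eq_zero_of_natDegree_lt (by rw [hTr.natDegree, h1]; exact hi)]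
    obtain ⟨σ, hσ⟩ := (Normal.minpoly_eq_iff_mem_orbit K).1 heq
    have hσ' : σ T = a ^ k := hσ
    rw [hT, map_sub, AlgEquiv.commutes] at hσ'
    by_cases h : σ = 1
    · subst h
      apply hγc
      rw [AlgEquiv.one_apply] at hσ'
      linear_combination -hab - hσ'
    · exact hδ σ h (by linear_combination -hab - hσ')
  have hzz : w z = w' z := by
    have e1 := ha.trace
    have e2 := hTr.trace
    have e3 : Algebra.trace F K T = r * c - Algebra.trace F K (b ^ k) := by
      rw [hT, map_sub, Algebra.trace_algebraMap, h1, nsmul_eq_mul]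
    have e4 : Algebra.trace F K (a ^ k) + Algebra.trace F K (b ^ k) = w z + r * c := by
      rw [← map_add, hab, hγ]
    have e5 : (z : ℕ) = r - 1 := by omega
    rw [h1] at e1 e2
    simp only [hw', e5]
    linear_combination -e4 + e1 - e2 - e3 + 2 * e3
  refine Pm.conj_col c z w w' hw hw'0 hzz ?_
  refine ⟨comp r (minpoly F (a ^ k)), algebraMap F _ c - comp r (minpoly F T), _, _, ?_,
    aeval_comp_self (mon _) (ha.natDegree.trans h1), ?_, h1 ▸ ha.nice, h1 ▸ hb.nice⟩
  · have : vecMulVec w' (Pi.single z 1) = comp r (minpoly F (a ^ k)) - comp r (minpoly F T) := by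
      ext i j
      simp only [vecMulVec_apply, comp, Matrix.sub_apply, of_apply, hw']
      by_cases hj : j = z
      · subst hj
        simp [hz]
      · have : ¬ ((j : ℕ) + 1 = r) := fun h => hj (Fin.ext (by omega))
        simp [this, hj]
    rw [this]
    abel
  · have e1 : minpoly F T ∣ (minpoly F (b ^ k)).comp (C c - X) := by
      apply minpoly.dvd
      rw [aeval_comp, map_sub, aeval_C, aeval_X, hT, sub_sub_cancel, minpoly.aeval]
    obtain ⟨p, hp⟩ := e1
    have e2 := congrArg (aeval (comp r (minpoly F T))) hp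
    rw [map_mul, aeval_comp_self (mon _) (hTr.natDegree.trans h1), zero_mul, aeval_comp, map_sub,
      aeval_C, aeval_X] at e2
    exact e2

lemma col_pm (k : ℕ) (hk : 1 ≤ k) (r : ℕ) (hr : 3 ≤ r) (hB : Big k (Fintype.card F) r)
    (hι : Fintype.card ι = r) (c : F) (z : ι) (D : Matrix ι ι F)
    (hD : ∀ x y, y ≠ z → D x y = if x = y then c else 0) (hc : c ≠ 0 ∨ D z z ≠ c) :
    Pm F k {r} D := by
  set w : ι → F := fun x => D x z - if x = z then c else 0 with hw
  have hDw : D = algebraMap F (Matrix ι ι F) c + vecMulVec w (Pi.single z 1) := by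
    ext x y
    simp only [Matrix.add_apply, vecMulVec_apply, hw, Matrix.algebraMap_matrix_apply]
    by_cases hy : y = z
    · subst hy
      simp
    · rw [hD x y hy]
      simp [hy]
  by_cases h0 : w = 0
  · rw [hDw, h0, zero_vecMulVec, add_zero]
    refine scalar_pm k hk r 1 (by omega) hB c ?_ (by omega)
    rcases hc with hc | hc
    · exact hc
    · exfalso
      have := congrFun h0 z
      simp only [hw, if_true, Pi.zero_apply] at this
      exact hc (sub_eq_zero.1 this)
  · let l : Fin r := ⟨r - 1, by omega⟩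
    let e0 : Fin r ≃ ι := (Fintype.equivFinOfCardEq hι).symm
    let e : Fin r ≃ ι := e0.trans (Equiv.swap (e0 l) z)
    have hel : e l = z := by simp [e]
    refine Pm.of_submatrix e ?_
    have := col_pm_fin k hk r hr hB c l (by simp only [l]; omega) (w ∘ e) (by
      intro h
      apply h0
      funext x
      simpa using congrFun h (e.symm x))
    convert this using 1
    rw [hDw]
    ext i j
    simp only [submatrix_apply, Matrix.add_apply, vecMulVec_apply, Matrix.algebraMap_matrix_apply,
      e.injective.eq_iff, Function.comp_apply, ← hel, Pi.single_apply]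

/-- companion-type matrices over a large field. -/
lemma comp_large (k : ℕ) (hk : 1 ≤ k) (hB : ∀ r, 1 ≤ r → Big k (Fintype.card F) r) (s : ℕ)
    (A : Matrix (Fin s) (Fin s) F)
    (hA : ∀ i j : Fin s, (j : ℕ) + 1 ≠ s → A i j = if (i : ℕ) = j + 1 then 1 else 0) :
    ∃ X Y : Matrix (Fin s) (Fin s) F, A = X ^ k + Y ^ k := by
  classical
  have hF : ∀ γ : F, γ ≠ 0 → ∀ a b : F, ∃ x y : F, x ^ k + y ^ k = γ ∧ y ^ k ≠ a ∧ y ^ k ≠ b := by
    intro γ hγ a b
    obtain ⟨x, y, h1, -, -, -, h2⟩ := exists_pair (F := F) (K := F) k hk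
      (by simpa [Big] using hB 1 le_rfl) γ hγ 0 a b
    exact ⟨x, y, h1, h2⟩
  rcases Nat.lt_or_ge s 2 with hs | hs
  · interval_cases s
    · exact ⟨0, 0, Subsingleton.elim _ _⟩
    · have hA' : A = algebraMap F _ (A 0 0) := by
        ext i j
        fin_cases i; fin_cases j
        simp [Matrix.algebraMap_matrix_apply]
      by_cases h0 : A 0 0 = 0
      · refine ⟨0, 0, ?_⟩
        rw [hA', h0, map_zero, zero_pow (by omega), add_zero]
      · obtain ⟨x, y, h1, -⟩ := hF _ h0 0 0
        refine ⟨algebraMap F _ x, algebraMap F _ y, ?_⟩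
        rw [← map_pow, ← map_pow, ← map_add, h1]
        exact hA'
  · obtain ⟨r, rfl⟩ : ∃ r, s = r + 1 := ⟨s - 1, by omega⟩
    have hr : 1 ≤ r := by omega
    obtain ⟨K, _, _, _, h1, h2⟩ := exists_ext F r hr
    set t := A (Fin.last r) (Fin.last r) with ht
    have hq : 2 < Fintype.card F := by
      have := hB 1 le_rfl
      simp only [Big, pow_one, mul_one] at this
      have hk2 : 1 ≤ k ^ 2 := Nat.one_le_pow _ _ hk
      nlinarith
    obtain ⟨τ, -, hτ⟩ := exists_mem_notMem_of_card_lt_card (s := ({0, 2 * t} : Finset F))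
      (t := univ) (lt_of_le_of_lt card_le_two hq)
    simp only [mem_insert, mem_singleton, not_or] at hτ
    obtain ⟨γ, hγ⟩ := Algebra.trace_surjective F K τ
    obtain ⟨a0, b0, hab, ha, hb, -⟩ := exists_pair (F := F) (K := K) k hk
      (by rw [h1, h2]; exact hB r hr) γ (by rintro rfl; exact hτ.1 (by rw [← hγ, map_zero])) 0 0 0
    obtain ⟨a, ha, hat⟩ : ∃ a : K, Reg F (a ^ k) ∧ Algebra.trace F K (a ^ k) ≠ t := by
      by_cases h : Algebra.trace F K (a0 ^ k) = t
      · refine ⟨b0, hb, fun h' => hτ.2 ?_⟩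
        rw [← hγ, ← hab, map_add, h, h', two_mul]
      · exact ⟨a0, ha, h⟩
    have mon : (minpoly F (a ^ k)).Monic := minpoly.monic (Algebra.IsIntegral.isIntegral _)
    have irr : Irreducible (minpoly F (a ^ k)) :=
      minpoly.irreducible (Algebra.IsIntegral.isIntegral _)
    set γ' := t - Algebra.trace F K (a ^ k) with hγ'
    obtain ⟨x, y, hxy, hy1, hy2⟩ := hF γ' (sub_ne_zero.2 hat.symm) γ'
      (-(minpoly F (a ^ k)).coeff 0)
    have hx : x ^ k ≠ 0 := fun h => hy1 (by rw [← hxy, h, zero_add])
    set f := minpoly F (a ^ k) * (X - C (y ^ k)) with hf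
    have hfm : f.Monic := mon.mul (monic_X_sub_C _)
    have hfd : f.natDegree = r + 1 := by
      rw [hf, mon.natDegree_mul (monic_X_sub_C _), natDegree_X_sub_C, ha.natDegree, h1]
    have hcop : IsCoprime (minpoly F (a ^ k)) (X - C (y ^ k)) := by
      refine (((irreducible_X_sub_C (y ^ k)).coprime_iff_not_dvd).2 fun h => hy2 ?_).symm
      have := eq_of_monic_of_associated (monic_X_sub_C _) mon
        ((irreducible_X_sub_C (y ^ k)).associated_of_dvd irr h)
      rw [← this, coeff_sub, coeff_X_zero, coeff_C_zero]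
      ring
    have hcop2 : IsCoprime (X - C ((0 : F) ^ k)) (X - C (x ^ k)) := by
      refine isCoprime_X_sub_C_of_isUnit_sub ?_
      rw [zero_pow (by omega), zero_sub]
      exact (IsUnit.mk0 _ hx).neg
    have hnc : -f.coeff r = Algebra.trace F K (a ^ k) + y ^ k := by
      have e1 : f.nextCoeff = f.coeff r := by
        rw [nextCoeff_of_natDegree_pos (by omega), hfd]; rfl
      have e2 : (minpoly F (a ^ k)).nextCoeff = (minpoly F (a ^ k)).coeff (r - 1) := by
        rw [nextCoeff_of_natDegree_pos (by rw [ha.natDegree, h1]; omega), ha.natDegree, h1]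
      have e3 := ha.trace
      rw [h1] at e3
      rw [← e1, hf, mon.nextCoeff_mul (monic_X_sub_C _), nextCoeff_X_sub_C, e2, e3]
      ring
    set w : Fin (r + 1) → F := fun i => A i (Fin.last r) + f.coeff i with hw
    have hV : A - comp (r + 1) f = vecMulVec w (Pi.single (Fin.last r) 1) := by
      ext i j
      simp only [vecMulVec_apply, comp, Matrix.sub_apply, of_apply, hw]
      by_cases hj : j = Fin.last r
      · subst hj
        simp
      · have : ¬ ((j : ℕ) + 1 = r + 1) := fun h => hj (Fin.ext (by simpa using h))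
        rw [hA i j this, if_neg this]
        simp [hj]
    have hwl : w (Fin.last r) = x ^ k := by
      simp only [hw, Fin.val_last, ← ht]
      linear_combination -hnc - hxy - hγ'
    refine Pm.pow (F := F) (D := Set.univ) ⟨comp (r + 1) f, A - comp (r + 1) f, f,
      (X - C ((0 : F) ^ k)) * (X - C (x ^ k)), by abel, aeval_comp_self hfm hfd, ?_,
      (ha.nice.mul_of_coprime (nice_X_sub_C k y) hcop).mono (Set.subset_univ _),
      ((nice_X_sub_C k 0).mul_of_coprime (nice_X_sub_C k x) hcop2).mono (Set.subset_univ _)⟩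
    rw [hV, zero_pow (by omega), map_zero, sub_zero, map_mul, map_sub, aeval_X, aeval_C, mul_sub,
      vecMulVec_mul_vecMulVec, ← Algebra.commutes, ← Algebra.smul_def, vecMulVec_smul]
    simp [hwl]

end main

end Pool.Agent.H79.War
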