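import Pool.Agent.H79.War4

set_option autoImplicit false

namespace Pool.Agent.H79.War

open Finset Polynomial Matrix

section comb

variable {F : Type} [Field F] [Fintype F]
variable {ι : Type*} [Fintype ι] [DecidableEq ι]

/-- degree set attached to a scalar class. -/
def Dc {F : Type} [Field F] (c : F) (a : ℕ) : Set ℕ := {d | (c = 0 ∧ d = 1) ∨ (c ≠ 0 ∧ (d = a ∨ d = a + 1))}

omit [Fintype F] [Fintype ι] in
lemma sub_scalar (M : Matrix ι ι F) (S : Finset ι) (c : F)
    (hS : ∀ x ∈ S, ∀ y ∈ S, M x y = if x = y then c else 0) :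
    sub M S = algebraMap F (Matrix S S F) c := by
  ext x y
  simp only [sub, submatrix_apply, Matrix.algebraMap_matrix_apply, hS x x.2 y y.2,
    Subtype.val_inj]
  simp

lemma class_pm (k : ℕ) (hk : 1 ≤ k) (a : ℕ) (ha : 1 ≤ a) (hB : ∀ r, a ≤ r → Big k (Fintype.card F) r)
    (M : Matrix ι ι F) (S : Finset ι) (c : F)
    (hS : ∀ x ∈ S, ∀ y ∈ S, M x y = if x = y then c else 0) (hc : a ^ 2 ≤ S.card) :
    Pm F k (Dc c a) (sub M S) := by
  by_cases h0 : c = 0
  · rw [sub_scalar M S c hS, h0, map_zero]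
    have h1 : aeval (0 : Matrix S S F) (X - C ((0 : F) ^ k)) = 0 := by
      rw [zero_pow (by omega)]; simp
    have h2 : Nice k (Dc (0 : F) a) (X - C ((0 : F) ^ k)) :=
      (nice_X_sub_C k 0).mono fun d hd => Or.inl ⟨rfl, hd⟩
    exact ⟨0, 0, _, _, (add_zero _).symm, h1, h1, h2, h2⟩
  · set y := S.card % a with hy
    set x := S.card / a - y with hx
    have h1 : y < a := Nat.mod_lt _ ha
    have h2 : a ≤ S.card / a := (Nat.le_div_iff_mul_le ha).2 (by rw [← sq]; exact hc)
    have h3 : a * (S.card / a) + y = S.card := Nat.div_add_mod _ _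
    have h4 : S.card / a = x + y := by omega
    have h5 : S.card = a * x + (a + 1) * y := by rw [← h3, h4]; ring
    obtain ⟨S1, hS1, hc1⟩ := exists_subset_card_eq (s := S) (n := a * x) (by omega)
    have hc2 : (S \ S1).card = (a + 1) * y := by
      rw [card_sdiff_of_subset hS1]; omega
    have p1 : Pm F k {a} (sub M S1) := by
      rw [sub_scalar M S1 c fun x hx y hy => hS x (hS1 hx) y (hS1 hy)]
      exact scalar_pm k hk a x ha (hB a le_rfl) c h0 (by simpa using hc1)
    have p2 : Pm F k {a + 1} (sub M (S \ S1)) := by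
      rw [sub_scalar M (S \ S1) c fun x hx y hy => hS x (sdiff_subset hx) y (sdiff_subset hy)]
      exact scalar_pm k hk (a + 1) y (by omega) (hB _ (by omega)) c h0
        (by rw [Fintype.card_coe]; exact hc2)
    have := p1.union p2 (by simp) disjoint_sdiff
    rw [union_sdiff_of_subset hS1] at this
    refine this.mono ?_
    rintro d (hd | hd)
    · exact Or.inr ⟨h0, Or.inl hd⟩
    · exact Or.inr ⟨h0, Or.inr hd⟩

lemma absorb (k : ℕ) (hk : 1 ≤ k) (b R : ℕ) (hb : 3 ≤ b)
    (hB : ∀ r, b ≤ r → Big k (Fintype.card F) r)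
    (M : Matrix ι ι F) (T0 : Finset ι) (c : F)
    (hT0 : ∀ x ∈ T0, ∀ y ∈ T0, M x y = if x = y then c else 0)
    (DT : Set ℕ) (hDT : ∀ d ∈ DT, d < b)
    (base : ∀ T ⊆ T0, R ≤ T.card → Pm F k DT (sub M T))
    (nb : ι → Finset ι) (hnb : ∀ z, (nb z).card ≤ 2) (hnb' : ∀ z y, y ≠ z → y ∉ nb z → M z y = 0)
    (Z : Finset ι) : (∀ z ∈ Z, z ∉ T0 ∧ (c ≠ 0 ∨ M z z ≠ c)) → ∀ T ⊆ T0,
      R + Z.card * (b + Z.card + 2) ≤ T.card →
      Pm F k (DT ∪ Set.Ico b (b + Z.card)) (sub M (T ∪ Z)) := by
  induction Z using Finset.induction_on with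
  | empty =>
    intro _ T hT hc
    rw [union_empty]
    exact (base T hT (by simpa using hc)).mono Set.subset_union_left
  | insert z Z hz ih =>
    intro hZ T hT hc
    rw [card_insert_of_notMem hz] at hc ⊢
    have h1 : T.card ≤ (T \ nb z).card + 2 := by
      have := le_card_sdiff (nb z) T
      have := hnb z
      omega
    have h2 : (Z.card + 1) * (b + (Z.card + 1) + 2) =
      Z.card * (b + Z.card + 2) + Z.card + (b + Z.card + 3) := by ring
    obtain ⟨S0, hS0, hc0⟩ := exists_subset_card_eq (s := T \ nb z) (n := b + Z.card - 1) (by omega)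
    have hS0T : S0 ⊆ T := hS0.trans sdiff_subset
    have hzT := (hZ z (mem_insert_self _ _)).1
    have hzS : z ∉ S0 := fun h => hzT (hT (hS0T h))
    have p1 := ih (fun y hy => hZ y (mem_insert_of_mem hy)) (T \ S0) (sdiff_subset.trans hT) (by
      rw [card_sdiff_of_subset hS0T]; omega)
    have p2 : Pm F k {b + Z.card} (sub M (insert z S0)) := by
      refine col_pm k hk _ (by omega) (hB _ (by omega)) ?_ c ⟨z, mem_insert_self _ _⟩ _ ?_
        (by exact (hZ z (mem_insert_self _ _)).2)
      · rw [Fintype.card_coe, card_insert_of_notMem hzS]; omega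
      · rintro ⟨x, hx⟩ ⟨y, hy⟩ hyz
        have hyz' : y ≠ z := fun h => hyz (Subtype.ext h)
        have hyS : y ∈ S0 := (mem_insert.1 hy).resolve_left hyz'
        simp only [sub, submatrix_apply, Subtype.mk.injEq]
        rcases mem_insert.1 hx with rfl | hxS
        · rw [if_neg hyz'.symm]
          exact hnb' _ y hyz' (mem_sdiff.1 (hS0 hyS)).2
        · exact hT0 x (hT (hS0T hxS)) y (hT (hS0T hyS))
    have p3 := p1.union p2 (by
      rw [Set.disjoint_singleton_right]
      rintro (h | h)
      · have := hDT _ h; omega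
      · exact lt_irrefl _ h.2) (by
      rw [Finset.disjoint_left]
      intro x hx hx'
      rcases mem_union.1 hx with h | h
      · rcases mem_insert.1 hx' with rfl | h'
        · exact hzT (hT (sdiff_subset h))
        · exact (mem_sdiff.1 h).2 h'
      · rcases mem_insert.1 hx' with rfl | h'
        · exact hz h
        · exact (hZ x (mem_insert_of_mem h)).1 (hT (hS0T h')))
    have e : T ∪ insert z Z = (T \ S0 ∪ Z) ∪ insert z S0 := by
      ext x
      simp only [mem_union, mem_insert, mem_sdiff]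
      have := @hS0T x
      tauto
    rw [e]
    refine p3.mono ?_
    rintro d ((h | h) | h)
    · exact Or.inl h
    · exact Or.inr ⟨h.1, by have := h.2; omega⟩
    · rw [Set.mem_singleton_iff] at h
      exact Or.inr ⟨by omega, by omega⟩

/-- size threshold. -/
def thr (r0 m : ℕ) : ℕ :=
  m * ((r0 + 2 * m) ^ 2 + m * (r0 + 2 * m) ^ 2 * (r0 + 2 * m + m * (r0 + 2 * m) ^ 2 + 2))

theorem colored (k : ℕ) (hk : 1 ≤ k) (r0 : ℕ) (hr0 : 3 ≤ r0)
    (hB : ∀ r, r0 ≤ r → Big k (Fintype.card F) r) (M : Matrix ι ι F)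
    {C : Type*} [Fintype C] [DecidableEq C] [Nonempty C] (col : ι → C) (val : C → F)
    (H1 : ∀ x y, col x = col y → M x y = if x = y then val (col x) else 0)
    (H3 : ∀ c c', val c = 0 → val c' = 0 → c = c')
    (nb : ι → Finset ι) (hnb : ∀ z, (nb z).card ≤ 2) (hnb' : ∀ z y, y ≠ z → y ∉ nb z → M z y = 0)
    (hn : thr r0 (Fintype.card C) ≤ Fintype.card ι) : Pm F k Set.univ M := by
  set m := Fintype.card C with hm
  set b := r0 + 2 * m with hb
  set R := b ^ 2 with hR
  let idx : C ≃ Fin m := Fintype.equivFin C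
  let a : C → ℕ := fun c => r0 + 2 * (idx c : ℕ)
  have hab : ∀ c, a c + 2 ≤ b := fun c => by
    have := (idx c).2
    simp only [a, hb]; omega
  have har : ∀ c, r0 ≤ a c := fun c => by simp only [a]; omega
  let S : C → Finset ι := fun c => univ.filter fun x => col x = c
  have hS : ∀ c, ∀ x ∈ S c, ∀ y ∈ S c, M x y = if x = y then val c else 0 := by
    intro c x hx y hy
    simp only [S, mem_filter, mem_univ, true_and] at hx hy
    rw [H1 x y (hx.trans hy.symm), hx]
  have base : ∀ c, ∀ T ⊆ S c, R ≤ T.card → Pm F k (Dc (val c) (a c)) (sub M T) := by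
    intro c T hT hc
    refine class_pm k hk (a c) (by have := har c; omega)
      (fun r hr => hB r ((har c).trans hr)) M T _ (fun x hx y hy => hS c x (hT hx) y (hT hy)) ?_
    exact le_trans (Nat.pow_le_pow_left (by have := hab c; omega) 2) hc
  have hDb : ∀ c, ∀ d ∈ Dc (val c) (a c), d < b := by
    intro c d hd
    have := hab c
    have := har c
    rcases hd with ⟨-, h⟩ | ⟨-, h | h⟩ <;> omega
  have hDD : ∀ i j, i ≠ j → Disjoint (Dc (val i) (a i)) (Dc (val j) (a j)) := by
    intro i j hij
    rw [Set.disjoint_left]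
    intro d h1 h2
    have hidx : (idx i : ℕ) ≠ idx j := fun h => hij (idx.injective (Fin.ext h))
    have e1 : a i = r0 + 2 * (idx i : ℕ) := rfl
    have e2 : a j = r0 + 2 * (idx j : ℕ) := rfl
    rcases h1 with ⟨h1, h1'⟩ | ⟨-, h1 | h1⟩ <;> rcases h2 with ⟨h2, h2'⟩ | ⟨-, h2 | h2⟩
    · exact hij (H3 i j h1 h2)
    all_goals omega
  obtain ⟨t, -, ht⟩ := Finset.exists_le_card_fiber_of_mul_le_card_of_maps_to
    (s := (univ : Finset ι)) (t := (univ : Finset C)) (f := col)
    (n := R + m * R * (b + m * R + 2)) (fun _ _ => mem_univ _) univ_nonempty hn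
  let Z : Finset ι := (univ.filter fun c => (S c).card < R).biUnion S
  have hZc : Z.card ≤ m * R := by
    refine card_biUnion_le.trans ?_
    refine (Finset.sum_le_sum (g := fun _ => R) fun c hc => (mem_filter.1 hc).2.le).trans ?_
    rw [sum_const, smul_eq_mul]
    exact Nat.mul_le_mul_right _ (card_le_univ _)
  have hmem : ∀ z, z ∈ Z ↔ (S (col z)).card < R := by
    intro z
    simp [Z, S]
  have ht' : R + m * R * (b + m * R + 2) ≤ (S t).card := ht
  have p1 := absorb k hk b R (by omega) (fun r hr => hB r (by omega)) M (S t) (val t) (hS t) _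
    (hDb t) (base t) nb hnb hnb' Z (by
      intro z hz
      have hzt : col z ≠ t := by
        intro h
        rw [hmem, h] at hz
        omega
      refine ⟨by simpa [S] using hzt, ?_⟩
      by_contra hc
      push Not at hc
      rw [H1 z z rfl, if_pos rfl] at hc
      exact hzt (H3 _ _ (hc.2.trans hc.1) hc.1)) (S t) subset_rfl
    (le_trans (Nat.add_le_add_left (Nat.mul_le_mul hZc (by omega)) _) ht')
  let L : Finset C := univ.filter fun c => c ≠ t ∧ R ≤ (S c).card
  have p2 := Pm.biUnion (M := M) L S (fun c => Dc (val c) (a c))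
    (fun c hc => base c _ subset_rfl (mem_filter.1 hc).2.2) (by
      intro i j hij
      rw [Finset.disjoint_left]
      intro x h1 h2
      simp only [S, mem_filter, mem_univ, true_and] at h1 h2
      exact hij (h1.symm.trans h2)) hDD
  have p3 := p1.union p2 (by
    simp only [Set.disjoint_iUnion_right]
    intro c hc
    rw [Set.disjoint_union_left]
    refine ⟨hDD t c (mem_filter.1 hc).2.1.symm, Set.disjoint_left.2 fun d h1 h2 => ?_⟩
    have := hDb c d h2
    have := h1.1
    omega) (by
    rw [Finset.disjoint_left]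
    intro x h1 h2
    simp only [L, S, mem_biUnion, mem_filter, mem_univ, true_and] at h2
    obtain ⟨c, ⟨h3, h4⟩, rfl⟩ := h2
    rcases mem_union.1 h1 with h | h
    · exact h3 (by simpa [S] using h)
    · rw [hmem] at h
      exact absurd h (not_lt.2 h4))
  have e : (S t ∪ Z) ∪ L.biUnion S = univ := by
    rw [eq_univ_iff_forall]
    intro x
    by_cases h1 : col x = t
    · exact mem_union_left _ (mem_union_left _ (by simpa [S] using h1))
    · by_cases h2 : (S (col x)).card < R
      · exact mem_union_left _ (mem_union_right _ ((hmem x).2 h2))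
      · refine mem_union_right _ (mem_biUnion.2 ⟨col x, ?_, by simp [S]⟩)
        exact mem_filter.2 ⟨mem_univ _, h1, not_lt.1 h2⟩
  rw [e] at p3
  exact p3.of_univ.mono (Set.subset_univ _)

end comb

end Pool.Agent.H79.War
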