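import Pool.Agent.H79.War5

set_option autoImplicit false

namespace Pool.Agent.H79.War

open Finset Polynomial Matrix

theorem exists_form {F : Type} [Field F] {n : ℕ} (N : Matrix (Fin n) (Fin n) F) :
    ∃ (J : Type) (_ : Fintype J) (_ : DecidableEq J) (s : J → ℕ)
      (A : ∀ j, Matrix (Fin (s j)) (Fin (s j)) F),
      (∀ j (i l : Fin (s j)), (l : ℕ) + 1 ≠ s j → A j i l = if (i : ℕ) = l + 1 then 1 else 0) ∧
      n = Fintype.card (Σ j, Fin (s j)) ∧ ∃ φ : Matrix (Σ j, Fin (s j)) (Σ j, Fin (s j)) F →ₐ[F] Matrix (Fin n) (Fin n) F,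
        φ (blockDiagonal' A) = N := by
  classical
  let T : Module.End F (Fin n → F) := Matrix.toLin' N
  obtain ⟨J, _, p, hp, e, ⟨E0⟩⟩ := Module.equiv_directSum_of_isTorsion
    (R := F[X]) (M := Module.AEval' T) (Module.AEval.isTorsion_of_finiteDimensional F _ T)
  have hP : ∀ j, p j ^ e j ≠ 0 := fun j => pow_ne_zero _ (hp j).ne_zero
  let Q : J → Type := fun j => F[X] ⧸ (F[X] ∙ p j ^ e j)
  let s : J → ℕ := fun j => (p j ^ e j).natDegree
  let bs : ∀ j, Module.Basis (Fin (s j)) F (Q j) := fun j => (AdjoinRoot.powerBasis (hP j)).basis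
  have hbs : ∀ j (l : Fin (s j)), bs j l = Submodule.Quotient.mk (X ^ (l : ℕ)) := by
    intro j l
    have := (AdjoinRoot.powerBasis (hP j)).basis_eq_pow l
    rw [AdjoinRoot.powerBasis_gen, AdjoinRoot.root, ← map_pow] at this
    exact this
  let L : ∀ j, Module.End F (Q j) := fun j => (LinearMap.lsmul F[X] (Q j) X).restrictScalars F
  let E : (Fin n → F) ≃ₗ[F] (∀ j, Q j) :=
    (Module.AEval'.of T).trans ((E0.trans (DirectSum.linearEquivFunOnFintype F[X] J Q)).restrictScalars F)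
  have hE : ∀ v, E (T v) = (X : F[X]) • E v := by
    intro v
    simp only [E, LinearEquiv.trans_apply, LinearEquiv.restrictScalars_apply]
    rw [← Module.AEval'.X_smul_of, map_smul, map_smul]
  let b : Module.Basis (Σ j, Fin (s j)) F (Fin n → F) := (Pi.basis bs).map E.symm
  refine ⟨J, inferInstance, inferInstance, s, fun j => LinearMap.toMatrix (bs j) (bs j) (L j), ?_,
    by rw [← Module.finrank_eq_card_basis b, Module.finrank_fin_fun],
    ((LinearMap.toMatrixAlgEquiv b).symm.trans LinearMap.toMatrixAlgEquiv').toAlgHom, ?_⟩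
  · intro j i l hl
    have hl' : (l : ℕ) + 1 < s j := by have := l.2; omega
    have h1 : L j (bs j l) = bs j ⟨l + 1, hl'⟩ := by
      rw [hbs, hbs]
      show (X : F[X]) • (Submodule.Quotient.mk (X ^ (l : ℕ)) : Q j) = _
      rw [← Submodule.Quotient.mk_smul, smul_eq_mul, ← pow_succ']
    show LinearMap.toMatrix (bs j) (bs j) (L j) i l = _
    rw [LinearMap.toMatrix_apply, h1, Module.Basis.repr_self, Finsupp.single_apply]
    simp only [Fin.ext_iff, eq_comm]
  · have h1 : LinearMap.toMatrixAlgEquiv b T =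
        blockDiagonal' fun j => LinearMap.toMatrix (bs j) (bs j) (L j) := by
      ext ⟨j, i⟩ ⟨j', l⟩
      rw [LinearMap.toMatrixAlgEquiv_apply]
      simp only [b, Module.Basis.map_repr, Module.Basis.map_apply, LinearEquiv.trans_apply,
        LinearEquiv.symm_symm, hE, LinearEquiv.apply_symm_apply, Pi.basis_repr, Pi.basis_apply,
        Pi.smul_apply]
      by_cases h : j = j'
      · subst h
        rw [blockDiagonal'_apply_eq, LinearMap.toMatrix_apply, Pi.single_eq_same]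
        rfl
      · rw [blockDiagonal'_apply_ne _ _ _ h, Pi.single_eq_of_ne h]
        simp
    rw [← h1]
    simp only [T, AlgEquiv.coe_toAlgHom, AlgEquiv.trans_apply, AlgEquiv.symm_apply_apply]
    exact LinearMap.toMatrix'_toLin' N

lemma big_of_two (k : ℕ) : ∃ r0, 3 ≤ r0 ∧ ∀ q, 2 ≤ q → ∀ r, r0 ≤ r → Big k q r := by
  have h := tendsto_pow_const_div_const_pow_of_one_lt 2 (r := 2) one_lt_two
  have hpos : (0 : ℝ) < 1 / (10 * k ^ 2 + 1) ^ 2 := by positivity
  obtain ⟨r0, hr0⟩ := Filter.eventually_atTop.1 (h.eventually (gt_mem_nhds hpos))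
  refine ⟨max r0 3, le_max_right _ _, fun q hq r hr => ?_⟩
  have h1 := hr0 r (le_of_max_le_left hr)
  have h3 : 3 ≤ r := le_of_max_le_right hr
  rw [div_lt_div_iff₀ (by positivity) (by positivity), one_mul] at h1
  have h2 : r ^ 2 * (10 * k ^ 2 + 1) ^ 2 < 2 ^ r := by exact_mod_cast h1
  unfold Big
  calc (10 * k ^ 2 * r + 1) ^ 2 ≤ (r * (10 * k ^ 2 + 1)) ^ 2 :=
        Nat.pow_le_pow_left (by nlinarith) 2
    _ ≤ 2 ^ r := by rw [mul_pow]; exact h2.le
    _ ≤ q ^ r := Nat.pow_le_pow_left hq r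

lemma big_of_large (k q : ℕ) (hq : 4 * (10 * k ^ 2 + 1) ^ 2 ≤ q) (r : ℕ) (hr : 1 ≤ r) :
    Big k q r := by
  obtain ⟨r, rfl⟩ : ∃ r', r = r' + 1 := ⟨r - 1, by omega⟩
  have h1 : r + 1 ≤ 2 ^ r := Nat.lt_two_pow_self
  have h4 : 4 ≤ q := by
    have : 1 ≤ (10 * k ^ 2 + 1) ^ 2 := Nat.one_le_pow _ _ (by omega)
    omega
  have h2 : (r + 1) ^ 2 ≤ q ^ r := by
    calc (r + 1) ^ 2 ≤ (2 ^ r) ^ 2 := Nat.pow_le_pow_left h1 2
      _ = 4 ^ r := by rw [← pow_mul, mul_comm, pow_mul]; norm_num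
      _ ≤ q ^ r := Nat.pow_le_pow_left h4 r
  unfold Big
  calc (10 * k ^ 2 * (r + 1) + 1) ^ 2 ≤ ((r + 1) * (10 * k ^ 2 + 1)) ^ 2 :=
        Nat.pow_le_pow_left (by nlinarith) 2
    _ = (r + 1) ^ 2 * (10 * k ^ 2 + 1) ^ 2 := mul_pow _ _ _
    _ ≤ q ^ r * q := Nat.mul_le_mul h2 (by omega)
    _ = q ^ (r + 1) := (pow_succ _ _).symm

theorem large_field (k : ℕ) (hk : 1 ≤ k) {F : Type} [Field F] [Fintype F]
    (hq : 4 * (10 * k ^ 2 + 1) ^ 2 ≤ Fintype.card F) {n : ℕ} (N : Matrix (Fin n) (Fin n) F) :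
    ∃ X Y : Matrix (Fin n) (Fin n) F, N = X ^ k + Y ^ k := by
  obtain ⟨J, _, _, s, A, hA, -, φ, hφ⟩ := exists_form N
  choose X Y hXY using fun j => comp_large k hk (big_of_large k _ hq) (s j) (A j) (hA j)
  refine ⟨φ (blockDiagonal' X), φ (blockDiagonal' Y), ?_⟩
  have : A = X ^ k + Y ^ k := funext hXY
  rw [← hφ, this, blockDiagonal'_add, blockDiagonal'_pow, blockDiagonal'_pow, map_add, map_pow,
    map_pow]

theorem large_size (k : ℕ) (hk : 1 ≤ k) (r0 : ℕ) (hr0 : 3 ≤ r0) {F : Type} [Field F] [Fintype F]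
    (hB : ∀ r, r0 ≤ r → Big k (Fintype.card F) r) {n : ℕ} (hn : thr r0 (Fintype.card F + 2) ≤ n)
    (N : Matrix (Fin n) (Fin n) F) : ∃ X Y : Matrix (Fin n) (Fin n) F, N = X ^ k + Y ^ k := by
  classical
  obtain ⟨J, _, _, s, A, hA, hcard, φ, hφ⟩ := exists_form (N - 1)
  set M : Matrix (Σ j, Fin (s j)) (Σ j, Fin (s j)) F := 1 + blockDiagonal' A with hM
  have hN : φ M = N := by rw [hM, map_add, map_one, hφ]; abel
  let col : (Σ j, Fin (s j)) → F ⊕ Bool := fun x =>
    if (x.2 : ℕ) + 1 = s x.1 then Sum.inl (M x x) else Sum.inr (decide ((x.2 : ℕ) % 2 = 0))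
  let val : F ⊕ Bool → F := Sum.elim id fun _ => 1
  let nb : (Σ j, Fin (s j)) → Finset (Σ j, Fin (s j)) := fun x =>
    {⟨x.1, ⟨s x.1 - 1, by have := x.2.2; omega⟩⟩, ⟨x.1, ⟨x.2 - 1, by have := x.2.2; omega⟩⟩}
  have hoff : ∀ x y : (Σ j, Fin (s j)), x ≠ y → M x y = blockDiagonal' A x y := by
    intro x y h
    rw [hM, Matrix.add_apply, Matrix.one_apply_ne h, zero_add]
  have key := colored k hk r0 hr0 hB M col val ?_ ?_ nb (fun _ => card_le_two) ?_
    (by simpa using hn.trans hcard.le)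
  · rw [← hN]
    exact (key.map φ).pow
  · rintro ⟨j, i⟩ ⟨j', l⟩ hc
    split_ifs with h
    · rw [← h]
      simp only [col]
      split_ifs with h1
      · rfl
      · rw [hM, Matrix.add_apply, Matrix.one_apply_eq, blockDiagonal'_apply_eq, hA j i i h1]
        simp [val]
    · rw [hoff _ _ h]
      by_cases hj : j = j'
      · subst hj
        rw [blockDiagonal'_apply_eq]
        have hil : (i : ℕ) ≠ l := fun h' => h (by rw [Fin.ext h'])
        simp only [col] at hc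
        split_ifs at hc with h1 h2 h2
        · omega
        · rw [hA j i l h2, if_neg]
          intro h3
          simp only [Sum.inr.injEq, decide_eq_decide] at hc
          omega
      · exact blockDiagonal'_apply_ne _ _ _ hj
  · rintro (c | c) (c' | c') h1 h2 <;> simp_all [val]
  · rintro ⟨j, i⟩ ⟨j', l⟩ h hnb
    rw [hoff _ _ h.symm]
    by_cases hj : j = j'
    · subst hj
      simp only [nb, mem_insert, mem_singleton, Sigma.mk.injEq, heq_eq_eq, true_and, not_or,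
        Fin.ext_iff] at hnb
      rw [blockDiagonal'_apply_eq, hA j i l (by omega), if_neg (by omega)]
    · exact blockDiagonal'_apply_ne _ _ _ hj

theorem larsen (k : ℕ) (hk : 1 ≤ k) : ∃ N : ℕ, ∀ (n : ℕ) (F : Type) [Field F] [Fintype F],
    N ≤ Fintype.card F ^ (n ^ 2) →
      ∀ A : Matrix (Fin n) (Fin n) F, ∃ X Y : Matrix (Fin n) (Fin n) F, A = X ^ k + Y ^ k := by
  obtain ⟨r0, hr0, hB⟩ := big_of_two k
  set Q := 4 * (10 * k ^ 2 + 1) ^ 2 with hQ
  set n1 := (Finset.range Q).sup fun q => thr r0 (q + 2) with hn1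
  refine ⟨Q ^ (n1 ^ 2) + 1, fun n F _ _ hN A => ?_⟩
  rcases Nat.lt_or_ge (Fintype.card F) Q with h | h
  · refine large_size k hk r0 hr0 (hB _ Fintype.one_lt_card) ?_ A
    have h1 : thr r0 (Fintype.card F + 2) ≤ n1 :=
      Finset.le_sup (f := fun q => thr r0 (q + 2)) (mem_range.2 h)
    refine h1.trans ?_
    by_contra hc
    have h2 : Fintype.card F ^ (n ^ 2) ≤ Q ^ (n1 ^ 2) :=
      (Nat.pow_le_pow_left h.le _).trans
        (Nat.pow_le_pow_right (by omega) (Nat.pow_le_pow_left (by omega) 2))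
    omega
  · exact large_field k hk h A

end Pool.Agent.H79.War
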