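import Mathlib

set_option autoImplicit false

namespace Pool.Agent.H79.WilfSyz

open Finset

lemma fact_of_atoms (S : AddSubmonoid ℕ) {e : ℕ} (g : Fin e → ℕ)
    (hg : Set.range g = {x : ℕ | x ∈ S ∧ x ≠ 0 ∧ ∀ a ∈ S, ∀ b ∈ S, a + b = x → a = 0 ∨ b = 0})
    (s : ℕ) : s ∈ S → ∃ c : Fin e → ℕ, ∑ j, c j * g j = s := by
  induction s using Nat.strong_induction_on with
  | _ s ih =>
    intro hs
    by_cases h0 : s = 0
    · exact ⟨0, by simp [h0]⟩
    by_cases h1 : ∀ a ∈ S, ∀ b ∈ S, a + b = s → a = 0 ∨ b = 0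
    · have : s ∈ Set.range g := by rw [hg]; exact ⟨hs, h0, h1⟩
      obtain ⟨i, rfl⟩ := this
      exact ⟨Pi.single i 1, by simp [Pi.single_apply]⟩
    · push Not at h1
      obtain ⟨a, ha, b, hb, rfl, ha0, hb0⟩ := h1
      obtain ⟨c, hc⟩ := ih a (by omega) ha
      obtain ⟨c', hc'⟩ := ih b (by omega) hb
      exact ⟨c + c', by simp only [Pi.add_apply, add_mul, sum_add_distrib, hc, hc']⟩

lemma weak_wilf (S : AddSubmonoid ℕ) (F : ℕ) (hF : ∀ n, F < n → n ∈ S) (hFS : F ∉ S) {e : ℕ}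
    (he : 2 ≤ e) (g : Fin e → ℕ) (hgS : ∀ i, g i ∈ S) (hg0 : ∀ i, g i ≠ 0)
    (hfac : ∀ s ∈ S, ∃ c : Fin e → ℕ, ∑ j, c j * g j = s) (i0 : Fin e) :
    (F + 1 : ℤ) ≤ (e - 2) * (g i0 - 1) + e * Set.ncard {γ : ℕ | γ ∈ S ∧ γ < F} := by
  classical
  obtain ⟨m, hm⟩ : ∃ m, g i0 = m := ⟨_, rfl⟩
  have hm0 : 0 < m := by have := hg0 i0; omega
  have hmS : m ∈ S := hm ▸ hgS i0
  have hex : ∀ r, ∃ s, s ∈ S ∧ s % m = (F + 1 + r) % m := fun r =>
    ⟨F + 1 + r, hF _ (by omega), rfl⟩
  let w : ℕ → ℕ := fun r => Nat.find (hex r)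
  have w1 : ∀ r, w r ∈ S := fun r => (Nat.find_spec (hex r)).1
  have w2 : ∀ r, w r % m = (F + 1 + r) % m := fun r => (Nat.find_spec (hex r)).2
  have w3 : ∀ r s, s ∈ S → s % m = (F + 1 + r) % m → w r ≤ s := fun r s h1 h2 =>
    Nat.find_min' (hex r) ⟨h1, h2⟩
  have w4 : ∀ r s, s ∈ S → s % m = (F + 1 + r) % m → ∃ q, s = w r + m * q := by
    intro r s h1 h2
    have h3 := w3 r s h1 h2
    obtain ⟨q, hq⟩ := (Nat.modEq_iff_dvd' h3).1 ((w2 r).trans h2.symm)
    exact ⟨q, by omega⟩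
  have winj : ∀ r r' k k', r < m → r' < m → w r + m * k = w r' + m * k' → r = r' := by
    intro r r' k k' h1 h2 h
    have h3 : (w r + m * k) % m = (w r' + m * k') % m := by rw [h]
    rw [Nat.add_mul_mod_self_left, Nat.add_mul_mod_self_left, w2, w2] at h3
    exact Nat.ModEq.eq_of_lt_of_lt (Nat.ModEq.add_left_cancel' _ h3) h1 h2
  have wdown : ∀ r a b, a ∈ S → b ∈ S → w r = a + b → ∃ r', r' < m ∧ w r' = b := by
    intro r a b ha hb h
    have h1 : b % m = (F + 1 + (b + (m - 1) * (F + 1)) % m) % m := by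
      rw [Nat.add_mod_mod]
      obtain ⟨m', rfl⟩ : ∃ m', m = m' + 1 := ⟨m - 1, by omega⟩
      rw [show F + 1 + (b + (m' + 1 - 1) * (F + 1)) = b + (m' + 1) * (F + 1) by
        simp only [Nat.add_sub_cancel]; ring, Nat.add_mul_mod_self_left]
    obtain ⟨q, hq⟩ := w4 _ b hb h1
    refine ⟨(b + (m - 1) * (F + 1)) % m, Nat.mod_lt _ hm0, ?_⟩
    have h2 := w3 r (a + w ((b + (m - 1) * (F + 1)) % m)) (S.add_mem ha (w1 _)) (by
      rw [← w2 r, h]
      conv_rhs => rw [hq, ← add_assoc, Nat.add_mul_mod_self_left])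
    omega
  choose N hN using fun r => w4 r (F + 1 + r) (hF _ (by omega)) rfl
  choose x hx using fun r => hfac _ (w1 r)
  have hsplit : ∀ r i t, t ≤ x r i → ∃ b ∈ S, w r = t * g i + b := by
    intro r i t ht
    refine ⟨(x r i - t) * g i + ∑ j ∈ univ.erase i, x r j * g j, ?_, ?_⟩
    · exact S.add_mem (S.nsmul_mem (hgS i) _) (S.sum_mem fun j _ => S.nsmul_mem (hgS j) _)
    · rw [← hx r, ← add_sum_erase _ _ (mem_univ i), ← add_assoc, ← add_mul]
      congr 2; omega
  have hx0 : ∀ r, x r i0 = 0 := by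
    intro r
    by_contra h
    obtain ⟨b, hb, h2⟩ := hsplit r i0 1 (by omega)
    have := w3 r b hb (by rw [← w2 r, h2, hm, one_mul, Nat.add_mod_left])
    omega
  have hwle : ∀ r, r < m → w r ≤ F + m := fun r hr => by have := hN r; omega
  have hi : ∀ i, ∑ r ∈ range m, x r i * g i ≤ ∑ r ∈ range m, (F + m - w r) := by
    intro i
    have h1 : ∀ p : (_ : ℕ) × ℕ, p ∈ (range m).sigma (fun r => range (x r i)) →
        ∃ r', r' < m ∧ w p.1 = (p.2 + 1) * g i + w r' := by
      rintro ⟨r, t⟩ hp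
      simp only [mem_sigma, mem_range] at hp
      obtain ⟨b, hb, h2⟩ := hsplit r i (t+1) (by omega)
      obtain ⟨r', h3, h4⟩ := wdown r _ b (S.nsmul_mem (hgS i) (t+1)) hb h2
      exact ⟨r', h3, by rw [h4]; exact h2⟩
    choose! ρ hρ1 hρ2 using h1
    have h2 : ((range m).sigma (fun r => range (x r i))).card ≤
        ((range m).sigma (fun r => range ((F + m - w r) / g i))).card := by
      apply card_le_card_of_injOn (fun p => (⟨ρ p, p.2⟩ : (_ : ℕ) × ℕ))
      · intro p hp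
        have a1 := hρ1 p hp
        have a2 := hρ2 p hp
        have hp' := hp
        simp only [coe_sigma, Set.mem_sigma_iff, mem_coe, mem_range] at hp' ⊢
        refine ⟨a1, ?_⟩
        have a3 := hwle p.1 hp'.1
        have : p.2 + 1 ≤ (F + m - w (ρ p)) / g i :=
          (Nat.le_div_iff_mul_le (Nat.pos_of_ne_zero (hg0 i))).2 (by omega)
        omega
      · intro p hp p' hp' h
        have a2 := hρ2 p hp
        have b2 := hρ2 p' hp'
        simp only [Sigma.mk.injEq, heq_eq_eq] at h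
        obtain ⟨r, t⟩ := p
        obtain ⟨r', t'⟩ := p'
        simp only [coe_sigma, Set.mem_sigma_iff, mem_coe, mem_range] at hp hp'
        dsimp only at h a2 b2
        obtain ⟨h1, rfl⟩ := h
        have := winj r r' 0 0 hp.1 hp'.1 (by rw [a2, b2, h1])
        subst this; rfl
    simp only [card_sigma, card_range] at h2
    rw [← sum_mul]
    calc _ ≤ (∑ r ∈ range m, (F + m - w r) / g i) * g i := Nat.mul_le_mul_right _ h2
      _ ≤ _ := by
        rw [sum_mul]; exact sum_le_sum fun r _ => Nat.div_mul_le_self _ _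
  have hW : ∑ r ∈ range m, w r ≤ (e - 1) * ∑ r ∈ range m, (F + m - w r) := by
    have e1 : ∑ r ∈ range m, w r = ∑ i ∈ univ.erase i0, ∑ r ∈ range m, x r i * g i := by
      rw [sum_comm]
      refine sum_congr rfl fun r _ => ?_
      rw [← hx r, ← add_sum_erase _ _ (mem_univ i0), hx0]; simp
    rw [e1]
    refine (sum_le_card_nsmul _ _ _ fun i _ => hi i).trans ?_
    simp
  have hU : ∑ r ∈ range m, (F + m - w r) + ∑ r ∈ range m, w r = m * (F + m) := by
    rw [← sum_add_distrib, sum_congr rfl (g := fun _ => F + m)]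
    · simp
    · intro r hr
      have := hwle r (mem_range.1 hr); omega
  have hfin : {γ : ℕ | γ ∈ S ∧ γ < F}.Finite := (Set.finite_Iio F).subset fun _ h => h.2
  have hη : ∑ r ∈ range m, N r ≤ Set.ncard {γ : ℕ | γ ∈ S ∧ γ < F} := by
    rw [Set.ncard_eq_toFinset_card _ hfin]
    have : ((range m).sigma (fun r => range (N r))).card ≤ hfin.toFinset.card := by
      apply card_le_card_of_injOn (fun p => w p.1 + m * p.2)
      · rintro ⟨r, k⟩ hp
        simp only [coe_sigma, Set.mem_sigma_iff, mem_coe, mem_range] at hp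
        have h1 : w r + m * k ∈ S := S.add_mem (w1 r) (by
          rw [mul_comm]; exact S.nsmul_mem hmS k)
        have h2 := hN r
        have h3 : m * (k + 1) ≤ m * N r := Nat.mul_le_mul_left _ hp.2
        have h4 : w r + m * k ≠ F := fun h => hFS (h ▸ h1)
        simp only [Set.Finite.coe_toFinset, Set.mem_ofPred_eq]
        rw [mul_add] at h3
        exact ⟨h1, by omega⟩
      · rintro ⟨r, k⟩ hp ⟨r', k'⟩ hp' h
        simp only [coe_sigma, Set.mem_sigma_iff, mem_coe, mem_range] at hp hp'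
        dsimp only at h
        have := winj r r' k k' hp.1 hp'.1 h
        subst this
        have : k = k' := Nat.eq_of_mul_eq_mul_left hm0 (by omega)
        subst this; rfl
    simpa using this
  have hT : ∑ r ∈ range m, (F + 1 + r) = ∑ r ∈ range m, w r + m * ∑ r ∈ range m, N r := by
    rw [mul_sum, ← sum_add_distrib]; exact sum_congr rfl fun r _ => hN r
  rw [sum_add_distrib, sum_const, card_range, smul_eq_mul] at hT
  have hT2 := sum_range_id_mul_two m
  rw [hm]
  generalize ∑ r ∈ range m, (F + m - w r) = U at *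
  generalize ∑ r ∈ range m, w r = W at *
  generalize ∑ r ∈ range m, N r = n at *
  generalize ∑ r ∈ range m, r = T at *
  generalize Set.ncard {γ : ℕ | γ ∈ S ∧ γ < F} = η at *
  zify [show 1 ≤ e by omega, show 1 ≤ m by omega] at hW hU hη hT hT2
  have he' : (2:ℤ) ≤ e := by exact_mod_cast he
  have hm' : (0:ℤ) < m := by exact_mod_cast hm0
  have hT0 : (0:ℤ) ≤ T := Int.natCast_nonneg _
  apply le_of_mul_le_mul_left _ hm'
  have a1 : (e:ℤ) * m * n ≤ e * m * η := mul_le_mul_of_nonneg_left hη (by positivity)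
  have a2 : 2 * (T:ℤ) ≤ e * T := mul_le_mul_of_nonneg_right he' hT0
  have a3 : (e:ℤ) * (m * (F + 1) + T) = e * (W + m * n) := by rw [hT]
  have a4 : ((e:ℤ) - 1) * (U + W) = (e - 1) * (m * (F + m)) := by rw [hU]
  nlinarith

open MvPolynomial

lemma ps_mon {e : ℕ} (a : Fin e → ℕ) (γ : Fin e →₀ ℕ) (r : ℚ) :
    aeval (fun i => (Polynomial.X : Polynomial ℚ) ^ a i) (monomial γ r) =
      Polynomial.C r * Polynomial.X ^ (∑ j, γ j * a j) := by
  rw [aeval_monomial, Finsupp.prod_fintype _ _ (by simp)]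
  simp only [← pow_mul, Finset.prod_pow_eq_pow_sum, mul_comm (a _)]
  rfl

lemma bin_mem {e : ℕ} (g : Fin e → ℕ) (α β : Fin e →₀ ℕ) (i : Fin e) (hα : α i ≠ 0) (hβ : β i ≠ 0)
    (h : ∑ j, α j * g j = ∑ j, β j * g j) :
    (monomial α 1 - monomial β 1 : MvPolynomial (Fin e) ℚ) ∈
      Ideal.span (Set.range (X : Fin e → MvPolynomial (Fin e) ℚ)) *
        RingHom.ker (aeval (fun i : Fin e => (Polynomial.X : Polynomial ℚ) ^ g i)) := by
  have key : ∀ γ : Fin e →₀ ℕ, γ i ≠ 0 → ∃ δ : Fin e →₀ ℕ, γ = Finsupp.single i 1 + δ := by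
    intro γ hγ
    exact ⟨γ - Finsupp.single i 1, (add_tsub_cancel_of_le (Finsupp.single_le_iff.2 (by omega))).symm⟩
  obtain ⟨α', rfl⟩ := key α hα
  obtain ⟨β', rfl⟩ := key β hβ
  have e1 : (monomial (Finsupp.single i 1 + α') 1 - monomial (Finsupp.single i 1 + β') 1 :
      MvPolynomial (Fin e) ℚ) = X i * (monomial α' 1 - monomial β' 1) := by
    simp [mul_sub, X, monomial_mul]
  rw [e1]
  refine Ideal.mul_mem_mul (Ideal.subset_span ⟨i, rfl⟩) ?_
  simp only [Finsupp.add_apply, add_mul, sum_add_distrib] at h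
  rw [RingHom.mem_ker, map_sub, ps_mon, ps_mon, add_left_cancel h, sub_self]

lemma betti_mem {e : ℕ} (g : Fin e → ℕ) (d : ℕ) (hd : d ≠ 0)
    (h : ∀ i j : Fin e, i ≠ j → ∃ c : Fin e → ℕ, ∑ l, c l * g l + g i + g j = d)
    (f : MvPolynomial (Fin e) ℚ)
    (hf : f ∈ RingHom.ker (aeval (fun i : Fin e => (Polynomial.X : Polynomial ℚ) ^ g i)))
    (hh : IsWeightedHomogeneous (fun i : Fin e => g i) f d) :
    f ∈ Ideal.span (Set.range (X : Fin e → MvPolynomial (Fin e) ℚ)) *
        RingHom.ker (aeval (fun i : Fin e => (Polynomial.X : Polynomial ℚ) ^ g i)) := by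
  classical
  have hw : ∀ α ∈ f.support, ∑ j, α j * g j = d := by
    intro α hα
    have := hh (mem_support_iff.1 hα)
    rw [Finsupp.weight_apply, Finsupp.sum_fintype _ _ (by simp)] at this
    simpa using this
  have hb : ∀ α β : Fin e →₀ ℕ, ∑ j, α j * g j = d → ∑ j, β j * g j = d →
      (monomial α 1 - monomial β 1 : MvPolynomial (Fin e) ℚ) ∈
      Ideal.span (Set.range (X : Fin e → MvPolynomial (Fin e) ℚ)) *
        RingHom.ker (aeval (fun i : Fin e => (Polynomial.X : Polynomial ℚ) ^ g i)) := by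
    intro α β hα hβ
    have ne : ∀ γ : Fin e →₀ ℕ, ∑ j, γ j * g j = d → ∃ i, γ i ≠ 0 := by
      intro γ hγ
      by_contra hc
      push Not at hc
      exact hd (by simp [← hγ, hc])
    obtain ⟨i, hi⟩ := ne α hα
    obtain ⟨j, hj⟩ := ne β hβ
    by_cases hij : i = j
    · subst hij; exact bin_mem g α β i hi hj (hα.trans hβ.symm)
    · obtain ⟨c, hc⟩ := h i j hij
      let γ : Fin e →₀ ℕ := Finsupp.equivFunOnFinite.symm c + Finsupp.single i 1 + Finsupp.single j 1
      have hγ : ∑ l, γ l * g l = d := by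
        simp only [γ, Finsupp.add_apply, add_mul, sum_add_distrib]
        simpa [Finsupp.single_apply] using hc
      have := add_mem (bin_mem g α γ i hi (by simp [γ]) (hα.trans hγ.symm))
        (bin_mem g γ β j (by simp [γ]) hj (hγ.trans hβ.symm))
      simpa using this
  by_cases h0 : f = 0
  · rw [h0]; exact zero_mem _
  obtain ⟨α0, hα0⟩ := support_nonempty.2 h0
  have hs : ∑ α ∈ f.support, coeff α f = 0 := by
    have h1 : aeval (fun i : Fin e => (Polynomial.X : Polynomial ℚ) ^ g i) f = 0 := hf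
    rw [f.as_sum, map_sum, sum_congr rfl (g := fun α => Polynomial.C (coeff α f) *
      Polynomial.X ^ d) (fun α hα => by rw [ps_mon, hw α hα]), ← sum_mul, ← map_sum] at h1
    exact Polynomial.C_eq_zero.1 ((mul_eq_zero.1 h1).resolve_right (by simp))
  have e1 : f = ∑ α ∈ f.support, C (coeff α f) * (monomial α 1 - monomial α0 1) := by
    simp only [mul_sub, sum_sub_distrib, ← sum_mul, ← map_sum, hs, C_mul_monomial, mul_one]
    simp only [← map_sum, hs, map_zero, sub_zero]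
    exact f.as_sum
  rw [e1]
  exact Ideal.sum_mem _ fun α hα => Ideal.mul_mem_left _ _ (hb _ _ (hw α hα) (hw α0 hα0))

end Pool.Agent.H79.WilfSyz
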